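import Pool.Agent.Helper469_Dupin.Defs

set_option autoImplicit false

/-!
The operators attached to a graph `a ↦ a + g a` over an open part of an inner product space `F`, with values in
the orthogonal sum of `F` and `W`.
-/

open Set Filter Topology
open scoped ContDiff InnerProductSpace

namespace Pool.Agent.H469

section Ops
variable {F W : Type} [NormedAddCommGroup F] [InnerProductSpace ℝ F] [FiniteDimensional ℝ F]
  [NormedAddCommGroup W] [InnerProductSpace ℝ W] [FiniteDimensional ℝ W]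

/-- `Dg(a)† b`.  The normal vector of the graph at `a + g a` with `W`-component `b` is `-Dg(a)† b + b`. -/
noncomputable def nrm (g : F → W) (a : F) (b : W) : F :=
  ContinuousLinearMap.adjoint (fderiv ℝ g a) b

/-- the first fundamental form `1 + Dg† Dg` of the graph -/
noncomputable def Gop (g : F → W) (a : F) : F →L[ℝ] F :=
  ContinuousLinearMap.id ℝ F + (ContinuousLinearMap.adjoint (fderiv ℝ g a)).comp (fderiv ℝ g a)

/-- the operator of the bilinear form `<b, D²g(a)(·,·)>` -/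
noncomputable def Hop (g : F → W) (a : F) (b : W) : F →L[ℝ] F :=
  fderiv ℝ (fun a' => nrm g a' b) a

/-- `ε G(a) - H(a,b)`: its kernel corresponds to the principal space of the principal curvature `ε` of the normal
vector with `W`-component `b`. -/
noncomputable def Lop (g : F → W) (a : F) (b : W) (ε : ℝ) : F →L[ℝ] F := ε • Gop g a - Hop g a b

/-- the end point map: the parameters `(w, ε)` with `w - ε (a + g a)` equal to the normal vector with
`W`-component `b`. -/
noncomputable def Th (g : F → W) (p : F × W × ℝ) : F × W × ℝ :=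
  (p.2.2 • p.1 - nrm g p.1 p.2.1, p.2.2 • g p.1 + p.2.1, p.2.2)

/-- the Dupin condition for the graph of `g` over `O`: along a curve `(α, β)` that is a line of curvature with
simple principal curvature `e`, the function `e` is constant. -/
def DupinLoc (g : F → W) (O : Set F) : Prop :=
  ∀ (α : ℝ → F) (β : ℝ → W) (e : ℝ → ℝ) (s t : ℝ),
    ContDiffOn ℝ ∞ α (Ioo s t) → ContDiffOn ℝ ∞ β (Ioo s t) →
    (∀ x ∈ Ioo s t, α x ∈ O ∧ β x ≠ 0 ∧ deriv α x ≠ 0 ∧
      deriv β x = -(e x • fderiv ℝ g (α x) (deriv α x)) ∧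
      ∀ u, Lop g (α x) (β x) (e x) u = 0 ↔ ∃ r : ℝ, u = r • deriv α x) →
    ∀ x ∈ Ioo s t, ∀ y ∈ Ioo s t, e x = e y

/-- the function `<w, x> - ε |x|²/2` on the graph of `g` -/
noncomputable def ffun (g : F → W) (q : F × W × ℝ) (a : F) : ℝ :=
  ⟪q.1, a⟫_ℝ + ⟪q.2.1, g a⟫_ℝ - q.2.2 * (‖a‖ ^ 2 + ‖g a‖ ^ 2) / 2

end Ops

section Charts
variable {n : ℕ}

/-- the graph parametrisation -/
noncomputable def cmap (T : Submodule ℝ (Eu n)) (g : T → Tᗮ) (a : T) : Eu n := (a : Eu n) + (g a : Eu n)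

/-- the linear identification of `T × Tᗮ × ℝ` with `R^n × ℝ` -/
noncomputable def Jmap (T : Submodule ℝ (Eu n)) : (T × Tᗮ × ℝ) →L[ℝ] Eu n × ℝ :=
  ((T.subtypeL ∘L ContinuousLinearMap.fst ℝ T (Tᗮ × ℝ)) +
    (Tᗮ.subtypeL ∘L ContinuousLinearMap.fst ℝ Tᗮ ℝ ∘L ContinuousLinearMap.snd ℝ T (Tᗮ × ℝ))).prod
  (ContinuousLinearMap.snd ℝ Tᗮ ℝ ∘L ContinuousLinearMap.snd ℝ T (Tᗮ × ℝ))

/-- `(T, g, O, V)` is a graph chart of class `C^r` of the `m`-dimensional `M`. -/
structure IsChart (r : WithTop ℕ∞) (m : ℕ) (M : Set (Eu n)) (T : Submodule ℝ (Eu n)) (g : T → Tᗮ)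
    (O : Set T) (V : Set (Eu n)) : Prop where
  dim : Module.finrank ℝ T = m
  openO : IsOpen O
  openV : IsOpen V
  smooth : ContDiffOn ℝ r g O
  mem : ∀ x ∈ V, T.orthogonalProjectionOnto x ∈ O ∧
    (x ∈ M ↔ Tᗮ.orthogonalProjectionOnto x = g (T.orthogonalProjectionOnto x))

theorem isSubmanifold_iff {n : ℕ} (r : WithTop ℕ∞) (m : ℕ) (M : Set (Eu n)) :
    IsSubmanifold r m M ↔ ∀ x₀ ∈ M, ∃ (T : Submodule ℝ (Eu n)) (g : T → Tᗮ) (O : Set T)
      (V : Set (Eu n)), x₀ ∈ V ∧ IsChart r m M T g O V := by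
  constructor
  · intro h x hx
    obtain ⟨T, g, O, V, h1, h2, h3, h4, h5, h6⟩ := h x hx
    exact ⟨T, g, O, V, h4, h1, h2, h3, h5, h6⟩
  · intro h x hx
    obtain ⟨T, g, O, V, h4, h⟩ := h x hx
    exact ⟨T, g, O, V, h.dim, h.openO, h.openV, h4, h.smooth, h.mem⟩

end Charts

end Pool.Agent.H469
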