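import Mathlib

set_option autoImplicit false

/-!
Submanifolds of `R^n`, tangent vectors, unit normal bundle, principal spaces, the Dupin condition,
critical points and indices of functions on a submanifold.  Everything is phrased with smooth curves
in subsets of normed spaces.
-/

open Set Filter Topology
open scoped ContDiff InnerProductSpace

namespace Pool.Agent.H469

/-- `R^n` -/
abbrev Eu (n : ℕ) : Type := EuclideanSpace ℝ (Fin n)

/-- `M` is an embedded `m`-dimensional submanifold of `R^n` of class `C^r` (`r = ∞`: smooth, `r = ω`: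
real analytic): near each of its points it is the graph of a `C^r` map from an open subset of an
`m`-dimensional linear subspace `T` to the orthogonal complement of `T`. -/
def IsSubmanifold {n : ℕ} (r : WithTop ℕ∞) (m : ℕ) (M : Set (Eu n)) : Prop :=
  ∀ x₀ ∈ M, ∃ (T : Submodule ℝ (Eu n)) (g : T → Tᗮ) (O : Set T) (V : Set (Eu n)),
    Module.finrank ℝ T = m ∧ IsOpen O ∧ IsOpen V ∧ x₀ ∈ V ∧ ContDiffOn ℝ r g O ∧
    ∀ x ∈ V, T.orthogonalProjectionOnto x ∈ O ∧
      (x ∈ M ↔ Tᗮ.orthogonalProjectionOnto x = g (T.orthogonalProjectionOnto x))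

section Curves
variable {F : Type} [NormedAddCommGroup F] [NormedSpace ℝ F]

/-- `c` is a smooth curve through `z` that runs in the set `S`, for small times. -/
def IsCurveAt (S : Set F) (z : F) (c : ℝ → F) : Prop :=
  c 0 = z ∧ ∃ δ : ℝ, 0 < δ ∧ ContDiffOn ℝ ∞ c (Ioo (-δ) δ) ∧ ∀ t ∈ Ioo (-δ) δ, c t ∈ S

/-- the velocities at `z` of the smooth curves in `S` through `z`; for a submanifold `S` this is the
tangent space. -/
def velocities (S : Set F) (z : F) : Set F := {v | ∃ c : ℝ → F, IsCurveAt S z c ∧ deriv c 0 = v}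

end Curves

variable {n : ℕ}

/-- the unit normal bundle of `M`, a subset of `R^n × R^n` -/
def unitNormalBundle (M : Set (Eu n)) : Set (Eu n × Eu n) :=
  {z | z.1 ∈ M ∧ ‖z.2‖ = 1 ∧ ∀ v ∈ velocities M z.1, ⟪z.2, v⟫_ℝ = 0}

/-- the principal space at the point `z = (x, ξ)` of the unit normal bundle for the number `κ`: the tangent
vectors `X` of the unit normal bundle at `z` with `dξ(X) = -κ dx(X)`. -/
def principalSpace (M : Set (Eu n)) (z : Eu n × Eu n) (κ : ℝ) : Set (Eu n × Eu n) :=
  {X | X ∈ velocities (unitNormalBundle M) z ∧ X.2 = -κ • X.1}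

/-- `ψ` on the open set `U` is a parametrised `d`-dimensional curvature surface of `M`, with the principal
curvature `κ (u)` at the point `ψ u` of the unit normal bundle. -/
structure IsCurvatureSurface (M : Set (Eu n)) {d : ℕ} (U : Set (Eu d)) (ψ : Eu d → Eu n × Eu n)
    (κ : Eu d → ℝ) : Prop where
  smooth : ContDiffOn ℝ ∞ ψ U
  mem : ∀ u ∈ U, ψ u ∈ unitNormalBundle M
  immersion : ∀ u ∈ U, Function.Injective (fderiv ℝ ψ u)
  tangent : ∀ u ∈ U, Set.range (fderiv ℝ ψ u) = principalSpace M (ψ u) (κ u)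

/-- `M` is Dupin: along each connected curvature surface (of any dimension `d ≥ 1`) the corresponding
principal curvature is constant. -/
def IsDupin (M : Set (Eu n)) : Prop :=
  ∀ (d : ℕ) (U : Set (Eu d)) (ψ : Eu d → Eu n × Eu n) (κ : Eu d → ℝ), 0 < d → IsOpen U →
    IsConnected U → IsCurvatureSurface M U ψ κ → ∀ u ∈ U, ∀ v ∈ U, κ u = κ v

/-- the critical points of `f` on `M` -/
def critSet (M : Set (Eu n)) (f : Eu n → ℝ) : Set (Eu n) :=
  {x | x ∈ M ∧ ∀ c, IsCurveAt M x c → deriv (f ∘ c) 0 = 0}

/-- the point `x` of the `m`-dimensional `M` is a nondegenerate critical point of index `k` of the function `f`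
on `M`: it is critical, and the tangent space has subspaces `N`, `P` of dimensions `k`, `m - k` on which the
Hessian (the second derivative of `f` along curves) is negative, respectively positive definite. -/
def HasIndex (m : ℕ) (M : Set (Eu n)) (f : Eu n → ℝ) (x : Eu n) (k : ℕ) : Prop :=
  x ∈ critSet M f ∧ ∃ N P : Submodule ℝ (Eu n), Module.finrank ℝ N = k ∧ Module.finrank ℝ P + k = m ∧
    (N : Set (Eu n)) ⊆ velocities M x ∧ (P : Set (Eu n)) ⊆ velocities M x ∧
    (∀ c, IsCurveAt M x c → deriv c 0 ∈ N → deriv c 0 ≠ 0 → iteratedDeriv 2 (f ∘ c) 0 < 0) ∧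
    (∀ c, IsCurveAt M x c → deriv c 0 ∈ P → deriv c 0 ≠ 0 → 0 < iteratedDeriv 2 (f ∘ c) 0)

/-- `f` is a Morse function on the `m`-dimensional `M`: all its critical points are nondegenerate. -/
def IsMorse (m : ℕ) (M : Set (Eu n)) (f : Eu n → ℝ) : Prop :=
  ∀ x ∈ critSet M f, ∃ k, HasIndex m M f x k

/-- the distance function `L_p(x) = |p - x|^2` -/
noncomputable def distFun (p : Eu n) : Eu n → ℝ := fun x => ‖p - x‖ ^ 2

/-- the height function in direction `u` -/
noncomputable def heightFun (u : Eu n) : Eu n → ℝ := fun x => ⟪u, x⟫_ℝ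

/-- `f` is a distance function or a height function -/
def IsDistOrHeight {n : ℕ} (f : Eu n → ℝ) : Prop := (∃ p, f = distFun p) ∨ (∃ u, f = heightFun u)

/-- the functions `<w,x> - ε |x|^2 / 2` for `p = (w, ε)`, which contain the height functions and, up to constants and factors,
the distance functions -/
noncomputable def fam (p : Eu n × ℝ) : Eu n → ℝ := fun x => ⟪p.1, x⟫_ℝ - p.2 * ‖x‖ ^ 2 / 2

end Pool.Agent.H469
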