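import Pool.Agent.Helper469_Dupin.Chart

set_option autoImplicit false

/-!
Circles through a point, the vector field of a simple principal curvature on the normal bundle in a graph chart.
-/

open Set Filter Topology
open scoped ContDiff InnerProductSpace

namespace Pool.Agent.H469

section Circles
variable {n : ℕ}

/-- the circle (a line if `q = 0`) through `x` with unit tangent vector `e` and curvature vector `2 q ⊥ e`, in a rational
parametrisation with `s = 0` at `x` -/
noncomputable def circ (x e q : Eu n) (s : ℝ) : Eu n :=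
  x + (1 + s ^ 2 * ‖q‖ ^ 2)⁻¹ • (s • e + s ^ 2 • q)

/-- the unit tangent vector of the circle at the parameter `s` -/
noncomputable def circE (e q : Eu n) (s : ℝ) : Eu n :=
  (1 + s ^ 2 * ‖q‖ ^ 2)⁻¹ • ((1 - s ^ 2 * ‖q‖ ^ 2) • e + (2 * s) • q)

/-- half the curvature vector of the circle at the parameter `s` -/
noncomputable def circQ (e q : Eu n) (s : ℝ) : Eu n :=
  (1 + s ^ 2 * ‖q‖ ^ 2)⁻¹ • ((1 - s ^ 2 * ‖q‖ ^ 2) • q - (2 * s * ‖q‖ ^ 2) • e)

end Circles

section Leaf
variable {n : ℕ} (T : Submodule ℝ (Eu n)) (g : T → Tᗮ)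

/-- the point of the graph with coordinates `z = (a, b)` -/
noncomputable def xpt (z : T × Tᗮ) : Eu n := cmap T g z.1

/-- the normal vector with coordinates `z = (a, b)` -/
noncomputable def nvec (z : T × Tᗮ) : Eu n := ((-(nrm g z.1 z.2) : T) : Eu n) + (z.2 : Eu n)

/-- the vector `w` with `w - ρ x` equal to the normal vector -/
noncomputable def wpt (ρ : T × Tᗮ → ℝ) (z : T × Tᗮ) : Eu n := nvec T g z + ρ z • xpt T g z

/-- the vector field of the lines of curvature on the normal bundle -/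
noncomputable def Xf (ρ : T × Tᗮ → ℝ) (e : T × Tᗮ → Eu n) (z : T × Tᗮ) : T × Tᗮ :=
  (T.orthogonalProjectionOnto (e z), -(ρ z • Tᗮ.orthogonalProjectionOnto (e z)))

/-- half the curvature vector of the lines of curvature -/
noncomputable def qf (ρ : T × Tᗮ → ℝ) (e : T × Tᗮ → Eu n) (z : T × Tᗮ) : Eu n :=
  (1 / 2 : ℝ) • fderiv ℝ e z (Xf T ρ e z)

/-- `ρ` is a simple principal curvature on the open set `N` of normal vectors, with unit principal vector field
`e`, constant along its lines of curvature -/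
structure LeafPre (O : Set T) (N : Set (T × Tᗮ)) (ρ : T × Tᗮ → ℝ) (e : T × Tᗮ → Eu n) : Prop where
  openN : IsOpen N
  sub : ∀ z ∈ N, z.1 ∈ O ∧ z.2 ≠ 0
  smr : ContDiffOn ℝ ∞ ρ N
  sme : ContDiffOn ℝ ∞ e N
  unit : ∀ z ∈ N, ‖e z‖ = 1
  tang : ∀ z ∈ N, Tᗮ.orthogonalProjectionOnto (e z) =
    fderiv ℝ g z.1 (T.orthogonalProjectionOnto (e z))
  ker : ∀ z ∈ N, ∀ u : T, Lop g z.1 z.2 (ρ z) u = 0 ↔
    ∃ r : ℝ, u = r • T.orthogonalProjectionOnto (e z)
  dr : ∀ z ∈ N, fderiv ℝ ρ z (Xf T ρ e z) = 0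

end Leaf

/-- the points of `M` near `y` at which `f` is larger than at `y` lie in one connected set of such points -/
def Link {n : ℕ} (M : Set (Eu n)) (f : Eu n → ℝ) (y : Eu n) : Prop :=
  ∃ V ∈ 𝓝 y, ∃ Q : Set (Eu n), IsPreconnected Q ∧ Q ⊆ {x | x ∈ M ∧ f y < f x} ∧
    V ∩ {x | x ∈ M ∧ f y < f x} ⊆ Q

end Pool.Agent.H469
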