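import Pool.Agent.Helper469_Dupin.DefsB

set_option autoImplicit false

/-!
Variations of circles, the reduced functions near a degenerate critical point.
-/

open Set Filter Topology
open scoped ContDiff InnerProductSpace

namespace Pool.Agent.H469

section VarCirc
variable {n : ℕ}

/-- the derivative of `circ x e q s` in the direction `(x', e', q')` of `(x, e, q)` -/
noncomputable def circD (e q x' e' q' : Eu n) (s : ℝ) : Eu n :=
  x' + (1 + s ^ 2 * ‖q‖ ^ 2)⁻¹ • (s • e' + s ^ 2 • q') -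
    (2 * s ^ 2 * ⟪q, q'⟫_ℝ * ((1 + s ^ 2 * ‖q‖ ^ 2)⁻¹) ^ 2) • (s • e + s ^ 2 • q)

/-- the circle with centre `c`, radius `r`, in the plane of the orthonormal vectors `e, ν` -/
noncomputable def circA (c e ν : Eu n) (r θ : ℝ) : Eu n := c + r • (Real.cos θ • e + Real.sin θ • ν)

/-- the unit tangent vector of the circle -/
noncomputable def circT (e ν : Eu n) (θ : ℝ) : Eu n := -(Real.sin θ) • e + Real.cos θ • ν

/-- `(y', ξ')` with `ξ' = w' - ρ' y - ρ y'` is tangent to the normal bundle at the point `y` of the chart with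
normal vector `w - ρ y` -/
def NRel {n : ℕ} (T : Submodule ℝ (Eu n)) (g : T → Tᗮ) (y w : Eu n) (ρ : ℝ) (y' w' : Eu n) (ρ' : ℝ) :
    Prop :=
  Tᗮ.orthogonalProjectionOnto y' = fderiv ℝ g (T.orthogonalProjectionOnto y)
      (T.orthogonalProjectionOnto y') ∧
  T.orthogonalProjectionOnto (w' - ρ' • y - ρ • y') =
    -(Hop g (T.orthogonalProjectionOnto y) (Tᗮ.orthogonalProjectionOnto (w - ρ • y))
        (T.orthogonalProjectionOnto y') +
      nrm g (T.orthogonalProjectionOnto y) (Tᗮ.orthogonalProjectionOnto (w' - ρ' • y - ρ • y')))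

end VarCirc

section Red
variable {n : ℕ} (T : Submodule ℝ (Eu n)) (g : T → Tᗮ)

/-- the null space at the point `x` of the chart of the Hessian of `fam p`, if `x` is critical for it -/
noncomputable def nullK (x : Eu n) (p : Eu n × ℝ) : Submodule ℝ T :=
  LinearMap.ker (Lop g (T.orthogonalProjectionOnto x)
    (Tᗮ.orthogonalProjectionOnto (p.1 - p.2 • x)) p.2 : T →ₗ[ℝ] T)

/-- `A` parametrises, for `p` near `p₀`, the points near `a₀` at which the derivative of `fam p` vanishes on the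
complement of `K` -/
structure Red (O : Set T) (V : Set (Eu n)) (a₀ : T) (p₀ : Eu n × ℝ) (K : Submodule ℝ T)
    (U : Set (K × (Eu n × ℝ))) (W : Set (T × (Eu n × ℝ))) (A : K × (Eu n × ℝ) → T) : Prop where
  openU : IsOpen U
  openW : IsOpen W
  memU : (0, p₀) ∈ U
  memW : (a₀, p₀) ∈ W
  A0 : A (0, p₀) = a₀
  smooth : ContDiffOn ℝ ∞ A U
  dom : ∀ q ∈ U, (A q, q.2) ∈ W ∧ A q ∈ O ∧ cmap T g (A q) ∈ V
  proj : ∀ q ∈ U, K.orthogonalProjectionOnto (A q - a₀) = q.1
  perp : ∀ q ∈ U, ∀ v ∈ Kᗮ, fderiv ℝ (fam q.2 ∘ cmap T g) (A q) v = 0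
  uniq : ∀ a p, (a, p) ∈ W → (∀ v ∈ Kᗮ, fderiv ℝ (fam p ∘ cmap T g) a v = 0) →
    (K.orthogonalProjectionOnto (a - a₀), p) ∈ U ∧ A (K.orthogonalProjectionOnto (a - a₀), p) = a
  dA0 : ∀ k : K, fderiv ℝ A (0, p₀) (k, 0) = (k : T)
  inv : ∀ q ∈ U, ∀ v ∈ Kᗮ,
    (∀ w ∈ Kᗮ, fderiv ℝ (fderiv ℝ (fam q.2 ∘ cmap T g)) (A q) v w = 0) → v = 0

/-- the reduced function -/
noncomputable def redH (K : Submodule ℝ T) (A : K × (Eu n × ℝ) → T) (q : K × (Eu n × ℝ)) : ℝ :=
  fam q.2 (cmap T g (A q))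

/-- the reduced function for a fixed parameter -/
noncomputable def redHp (K : Submodule ℝ T) (A : K × (Eu n × ℝ) → T) (p : Eu n × ℝ) (u : K) : ℝ :=
  redH T g K A (u, p)

end Red

end Pool.Agent.H469
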