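import Mathlib

set_option autoImplicit false

open Set Filter Topology MeasureTheory
open scoped ContDiff InnerProductSpace

namespace Pool.Agent.H469


/-- the gradient -/
noncomputable def center_g {F : Type} [NormedAddCommGroup F] [InnerProductSpace ℝ F] [FiniteDimensional ℝ F]
    (f : F → ℝ) (a : F) : F := (InnerProductSpace.toDual ℝ F).symm (fderiv ℝ f a)

theorem center_g_inner {F : Type} [NormedAddCommGroup F] [InnerProductSpace ℝ F] [FiniteDimensional ℝ F]
    (f : F → ℝ) (a v : F) : ⟪center_g f a, v⟫_ℝ = fderiv ℝ f a v := by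
  rw [center_g, InnerProductSpace.toDual_symm_apply]

/-! PLAIN PROOF OF THE TARGET(S)

Let A0 = D²f(a0), K = ker A0.  Let N = K^⊥.  The map Φ : F → K × N (or F → F), Φ(a) = (P_K (a - a0), ∂_N f(a)), where ∂_N f(a) ∈ N is the
vector with <∂_N f(a), v> = Df(a) v for v ∈ N, is analytic at a0, Φ(a0) = 0, and its derivative (u) ↦ (P_K u, A0 u|_N) is bijective: A0 is
symmetric with kernel K, so it maps N isomorphically onto N.  By the analytic inverse function theorem (`AnalyticAt`, ContDiffAt with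
n = ω: `ContDiffAt.toOpenPartialHomeomorph`, `OpenPartialHomeomorph.contDiffAt_symm`, `ContDiffAt.analyticAt`/`contDiffAt_omega_iff_analyticAt`) Φ has a local
analytic inverse; put a0 + e + h(e) = Φ^{-1}(e,0), i.e. h(e) = P_N(Φ^{-1}(e,0) - a0).  Then ∂_N f(a0+e+h(e)) = 0 near 0, h(0) = 0, and if
∂_N f(a) = 0 with a near a0 then a = Φ^{-1}(P_K(a-a0), 0).  Derivative at 0: differentiating ∂_N f(a0 + e + h(e)) = 0:
<A0(u + h'(0)u), v> = 0 for v ∈ N, A0 u = 0, so A0 h'(0)u = 0 (A0 has range N), h'(0)u ∈ N ∩ K = 0.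
-/

section
variable {F : Type} [NormedAddCommGroup F] [InnerProductSpace ℝ F] [FiniteDimensional ℝ F]

/-- TARGET -/
theorem center (f : F → ℝ) (a₀ : F) (hf : AnalyticAt ℝ f a₀) (h0 : fderiv ℝ f a₀ = 0)
    (K : Submodule ℝ F) (hK : ∀ k, k ∈ K ↔ fderiv ℝ (fderiv ℝ f) a₀ k = 0) :
    ∃ h : K → Kᗮ, AnalyticAt ℝ h 0 ∧ h 0 = 0 ∧ fderiv ℝ h 0 = 0 ∧
      (∀ᶠ e : K in 𝓝 0, ∀ v ∈ Kᗮ, fderiv ℝ f (a₀ + (e : F) + (h e : F)) v = 0) ∧
      (∀ᶠ a in 𝓝 a₀, (∀ v ∈ Kᗮ, fderiv ℝ f a v = 0) →
        a = a₀ + (K.orthogonalProjectionOnto (a - a₀) : F) + (h (K.orthogonalProjectionOnto (a - a₀)) : F)) := by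
  classical
  set g : F → F := center_g f with hg
  set D : F →L[ℝ] F →L[ℝ] ℝ := fderiv ℝ (fderiv ℝ f) a₀ with hD
  have hfd : AnalyticAt ℝ (fderiv ℝ f) a₀ := hf.fderiv
  let τl : (F →L[ℝ] ℝ) →ₗ[ℝ] F :=
    { toFun := fun φ => (InnerProductSpace.toDual ℝ F).symm φ
      map_add' := fun x y => map_add _ x y
      map_smul' := fun t x => by
        rw [map_smulₛₗ]
        rfl }
  set τ : (F →L[ℝ] ℝ) →L[ℝ] F := LinearMap.toContinuousLinearMap τl with hτ
  have hgτ : g = fun a => τ (fderiv ℝ f a) := rfl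
  have hga : AnalyticAt ℝ g a₀ := by
    rw [hgτ]
    exact (τ.analyticAt _).comp hfd
  set A : F →L[ℝ] F := τ ∘L D with hA
  have hAin : ∀ u v, ⟪A u, v⟫_ℝ = D u v := by
    intro u v
    show ⟪(InnerProductSpace.toDual ℝ F).symm (D u), v⟫_ℝ = D u v
    rw [InnerProductSpace.toDual_symm_apply]
  have hsymm : ∀ u v, D u v = D v u := by
    have h1 : ContDiffAt ℝ ω f a₀ := hf.contDiffAt
    exact h1.isSymmSndFDerivAt_of_omega
  have hKA : ∀ k, k ∈ K ↔ A k = 0 := by
    intro k
    rw [hK k]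
    constructor
    · intro h
      show τ (D k) = 0
      rw [h, map_zero]
    · intro h
      have h2 : D k = 0 := by
        ext v
        rw [← hAin, h, inner_zero_left]; rfl
      exact h2
  have hrange : ∀ u, A u ∈ Kᗮ := by
    intro u
    rw [Submodule.mem_orthogonal]
    intro k hk
    rw [real_inner_comm, hAin, hsymm, ← hAin, (hKA k).mp hk, inner_zero_left]
  have hgd : HasFDerivAt g A a₀ := by
    rw [hgτ]
    exact τ.hasFDerivAt.comp a₀ hfd.differentiableAt.hasFDerivAt
  have hg0 : g a₀ = 0 := by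
    rw [hgτ]
    show τ (fderiv ℝ f a₀) = 0
    rw [h0, map_zero]
  -- the map Φ
  set Φ : F → F := fun a => K.starProjection (a - a₀) + Kᗮ.starProjection (g a) with hΦ
  have hΦa : AnalyticAt ℝ Φ a₀ := by
    have h1 : AnalyticAt ℝ (fun a : F => a - a₀) a₀ := analyticAt_id.sub analyticAt_const
    have h2 : AnalyticAt ℝ (fun a => K.starProjection (a - a₀)) a₀ := (K.starProjection.analyticAt _).comp h1
    have h3 : AnalyticAt ℝ (fun a => Kᗮ.starProjection (g a)) a₀ := (Kᗮ.starProjection.analyticAt _).comp hga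
    exact h2.add h3
  set B : F →L[ℝ] F := K.starProjection + Kᗮ.starProjection ∘L A with hB
  have hΦd : HasFDerivAt Φ B a₀ := by
    have h1 : HasFDerivAt (fun a : F => K.starProjection (a - a₀)) K.starProjection a₀ := by
      have h3 : HasFDerivAt (fun a : F => a - a₀) (ContinuousLinearMap.id ℝ F) a₀ :=
        (hasFDerivAt_id (𝕜 := ℝ) a₀).sub_const a₀
      have h4 : HasFDerivAt (⇑K.starProjection) K.starProjection ((fun a : F => a - a₀) a₀) :=
        K.starProjection.hasFDerivAt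
      have h2 := HasFDerivAt.comp (f := fun a : F => a - a₀) a₀ h4 h3
      rw [ContinuousLinearMap.comp_id] at h2
      exact h2
    exact h1.add (Kᗮ.starProjection.hasFDerivAt.comp a₀ hgd)
  have hΦ0 : Φ a₀ = 0 := by
    simp only [hΦ]
    rw [sub_self, map_zero, hg0, map_zero, add_zero]
  have hsplit : ∀ x ∈ K, ∀ y ∈ Kᗮ, x + y = 0 → x = 0 ∧ y = 0 := by
    intro x hx y hy hxy
    have h1 : x ∈ Kᗮ := by
      have : x = -y := eq_neg_of_add_eq_zero_left hxy
      rw [this]; exact Submodule.neg_mem _ hy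
    have h2 : ⟪x, x⟫_ℝ = 0 := (Submodule.mem_orthogonal K x).mp h1 x hx
    have h3 : x = 0 := inner_self_eq_zero.mp h2
    refine ⟨h3, ?_⟩
    rw [h3, zero_add] at hxy
    exact hxy
  have hmemK : ∀ x, K.starProjection x ∈ K := fun x => (K.orthogonalProjectionOnto x).2
  have hmemN : ∀ x, Kᗮ.starProjection x ∈ Kᗮ := fun x => (Kᗮ.orthogonalProjectionOnto x).2
  have hsum : ∀ x, K.starProjection x + Kᗮ.starProjection x = x := fun x =>
    K.starProjection_add_starProjection_orthogonal x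
  have hprojN : ∀ x ∈ Kᗮ, K.starProjection x = 0 := by
    intro x hx
    have := hsum x
    have h2 : K.starProjection x + (Kᗮ.starProjection x - x) = 0 := by rw [← add_sub_assoc, this, sub_self]
    exact (hsplit _ (hmemK x) _ (Submodule.sub_mem _ (hmemN x) hx) h2).1
  have hprojN' : ∀ x ∈ Kᗮ, Kᗮ.starProjection x = x := by
    intro x hx
    have := hsum x
    rwa [hprojN x hx, zero_add] at this
  have hprojK : ∀ x ∈ K, Kᗮ.starProjection x = 0 := by
    intro x hx
    have := hsum x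
    have h2 : (K.starProjection x - x) + Kᗮ.starProjection x = 0 := by
      rw [sub_add_eq_add_sub, this, sub_self]
    exact (hsplit _ (Submodule.sub_mem _ (hmemK x) hx) _ (hmemN x) h2).2
  have hprojK' : ∀ x ∈ K, K.starProjection x = x := by
    intro x hx
    have := hsum x
    rwa [hprojK x hx, add_zero] at this
  have hinj : Function.Injective B := by
    rw [injective_iff_map_eq_zero]
    intro u hu
    have h1 : K.starProjection u + Kᗮ.starProjection (A u) = 0 := hu
    obtain ⟨h2, h3⟩ := hsplit _ (hmemK u) _ (hmemN _) h1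
    rw [hprojN' _ (hrange u)] at h3
    have h4 : u ∈ K := (hKA u).mpr h3
    rw [hprojK' u h4] at h2
    exact h2
  set Be : F ≃L[ℝ] F := (LinearEquiv.ofInjectiveEndo (B : F →ₗ[ℝ] F) hinj).toContinuousLinearEquiv with hBe
  have hBeB : (Be : F →L[ℝ] F) = B := by
    ext u; rfl
  have hstrict : HasStrictFDerivAt Φ (Be : F →L[ℝ] F) a₀ := by
    have h1 := hΦa.hasStrictFDerivAt
    rwa [hΦd.fderiv, ← hBeB] at h1
  set P := hstrict.toOpenPartialHomeomorph Φ with hP
  have hPc : (P : F → F) = Φ := hstrict.toOpenPartialHomeomorph_coe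
  have hsrc : a₀ ∈ P.source := hstrict.mem_toOpenPartialHomeomorph_source
  have hPa : P a₀ = 0 := by rw [hPc]; exact hΦ0
  set Ψ : F → F := fun y => P.symm y with hΨ
  have hΨ0 : Ψ 0 = a₀ := by
    rw [← hPa]
    exact P.left_inv hsrc
  have hΨa : AnalyticAt ℝ Ψ 0 := by
    have h1 := P.analyticAt_symm' (i := Be) hsrc (by rw [hPc]; exact hΦa) (by rw [hPc, hΦd.fderiv, hBeB])
    rwa [hPa] at h1
  have hΨd : HasFDerivAt Ψ (Be.symm : F →L[ℝ] F) 0 := by
    have h1 := hstrict.to_localInverse.hasFDerivAt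
    rw [hΦ0] at h1
    exact h1
  have hinv : ∀ᶠ y in 𝓝 (0 : F), Φ (Ψ y) = y := by
    have h1 := P.eventually_right_inverse (x := (0 : F)) (by rw [← hPa]; exact P.map_source hsrc)
    filter_upwards [h1] with y hy
    rw [← hPc]; exact hy
  have hinv' : ∀ᶠ a in 𝓝 a₀, Ψ (Φ a) = a := by
    have h1 := P.eventually_left_inverse hsrc
    filter_upwards [h1] with y hy
    rw [← hPc]; exact hy
  -- the function h
  set h : K → Kᗮ := fun e => Kᗮ.orthogonalProjectionOnto (Ψ (e : F) - a₀) with hh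
  have hsub : AnalyticAt ℝ (fun e : K => (e : F)) 0 := K.subtypeL.analyticAt 0
  have hΨsub : AnalyticAt ℝ (fun e : K => Ψ (e : F)) 0 := by
    have : AnalyticAt ℝ Ψ ((fun e : K => (e : F)) 0) := hΨa
    exact this.comp hsub
  have hha : AnalyticAt ℝ h 0 := by
    have h1 : AnalyticAt ℝ (fun e : K => Ψ (e : F) - a₀) 0 := hΨsub.sub analyticAt_const
    exact (Kᗮ.orthogonalProjectionOnto.analyticAt _).comp h1
  have hcoe : ∀ e : K, ((h e : Kᗮ) : F) = Kᗮ.starProjection (Ψ (e : F) - a₀) := fun e => rfl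
  have hkey : ∀ᶠ e : K in 𝓝 0, a₀ + (e : F) + (h e : F) = Ψ (e : F) ∧ Kᗮ.starProjection (g (Ψ (e : F))) = 0 := by
    have hc : Tendsto (fun e : K => (e : F)) (𝓝 0) (𝓝 (0 : F)) := by
      have := (continuous_subtype_val (p := fun x => x ∈ K)).tendsto (0 : K)
      exact this
    filter_upwards [hc.eventually hinv] with e he
    have h1 : K.starProjection (Ψ (e : F) - a₀) + Kᗮ.starProjection (g (Ψ (e : F))) = (e : F) := he
    have h2 : (K.starProjection (Ψ (e : F) - a₀) - (e : F)) + Kᗮ.starProjection (g (Ψ (e : F))) = 0 := by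
      rw [sub_add_eq_add_sub, h1, sub_self]
    obtain ⟨h3, h4⟩ := hsplit _ (Submodule.sub_mem _ (hmemK _) e.2) _ (hmemN _) h2
    refine ⟨?_, h4⟩
    rw [hcoe]
    have h5 := hsum (Ψ (e : F) - a₀)
    rw [sub_eq_zero.mp h3] at h5
    rw [add_assoc, h5]
    abel
  refine ⟨h, hha, ?_, ?_, ?_, ?_⟩
  · apply Subtype.ext
    rw [hcoe]
    show Kᗮ.starProjection (Ψ 0 - a₀) = 0
    rw [hΨ0, sub_self, map_zero]
  · -- the derivative of h
    have h1 : HasFDerivAt (fun e : K => Ψ (e : F)) ((Be.symm : F →L[ℝ] F) ∘L K.subtypeL) 0 := by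
      have h2 : HasFDerivAt Ψ (Be.symm : F →L[ℝ] F) (K.subtypeL 0) := by
        rw [map_zero]; exact hΨd
      exact h2.comp (0 : K) K.subtypeL.hasFDerivAt
    have h3 : HasFDerivAt h (Kᗮ.orthogonalProjectionOnto ∘L ((Be.symm : F →L[ℝ] F) ∘L K.subtypeL)) 0 :=
      Kᗮ.orthogonalProjectionOnto.hasFDerivAt.comp (0 : K) (h1.sub_const a₀)
    rw [h3.fderiv]
    ext u
    have h4 : Be (u : F) = (u : F) := by
      have : Be (u : F) = B (u : F) := by rw [← hBeB]; rfl
      rw [this]
      show K.starProjection (u : F) + Kᗮ.starProjection (A (u : F)) = (u : F)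
      rw [(hKA _).mp u.2, map_zero, add_zero, hprojK' _ u.2]
    have h5 : Be.symm (u : F) = (u : F) := by
      rw [Be.symm_apply_eq]; exact h4.symm
    show Kᗮ.starProjection (Be.symm (u : F)) = 0
    rw [h5]
    exact hprojK _ u.2
  · filter_upwards [hkey] with e he v hv
    rw [he.1, ← center_g_inner]
    have h1 := hsum (center_g f (Ψ (e : F)))
    rw [he.2, add_zero] at h1
    rw [← h1]
    exact (Submodule.mem_orthogonal K v).mp hv _ (hmemK _)
  · filter_upwards [hinv'] with a ha hv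
    have h1 : Kᗮ.starProjection (g a) = 0 := by
      have h2 : ⟪Kᗮ.starProjection (g a), Kᗮ.starProjection (g a)⟫_ℝ = 0 := by
        have h3 : ⟪g a, Kᗮ.starProjection (g a)⟫_ℝ = 0 := by
          rw [hg, center_g_inner]
          exact hv _ (hmemN _)
        have h4 := hsum (g a)
        have h5 : ⟪K.starProjection (g a), Kᗮ.starProjection (g a)⟫_ℝ = 0 :=
          (Submodule.mem_orthogonal K _).mp (hmemN _) _ (hmemK _)
        have h6 : Kᗮ.starProjection (g a) = g a - K.starProjection (g a) := by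
          rw [eq_sub_iff_add_eq, add_comm]; exact h4
        calc ⟪Kᗮ.starProjection (g a), Kᗮ.starProjection (g a)⟫_ℝ
            = ⟪g a - K.starProjection (g a), Kᗮ.starProjection (g a)⟫_ℝ := by rw [← h6]
          _ = 0 := by rw [inner_sub_left, h3, h5, sub_zero]
      exact inner_self_eq_zero.mp h2
    have h2 : Φ a = K.starProjection (a - a₀) := by
      simp only [hΦ]
      rw [h1, add_zero]
    have h3 : Ψ ((K.orthogonalProjectionOnto (a - a₀) : K) : F) = a := by
      have : ((K.orthogonalProjectionOnto (a - a₀) : K) : F) = K.starProjection (a - a₀) := rfl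
      rw [this, ← h2]; exact ha
    have h4 : ((h (K.orthogonalProjectionOnto (a - a₀)) : Kᗮ) : F) = Kᗮ.starProjection (a - a₀) := by
      rw [hcoe, h3]
    rw [h4]
    have h5 := hsum (a - a₀)
    have h6 : ((K.orthogonalProjectionOnto (a - a₀) : K) : F) = K.starProjection (a - a₀) := rfl
    rw [h6, add_assoc, h5]
    abel

end

end Pool.Agent.H469
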