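import Mathlib

set_option autoImplicit false

open Set Filter Topology MeasureTheory
open scoped ContDiff InnerProductSpace

namespace Pool.Agent.H469


section leadingAux

open Asymptotics

/-- vanishing iterated derivatives give a bound of the order of vanishing -/
theorem leading_bigO {E G : Type} [NormedAddCommGroup E] [NormedSpace ℝ E]
    [NormedAddCommGroup G] [NormedSpace ℝ G] [CompleteSpace G] (g : E → G)
    (hg : AnalyticAt ℝ g 0) (n : ℕ) (hv : ∀ j < n, iteratedFDeriv ℝ j g 0 = 0) :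
    g =O[𝓝 0] fun y => ‖y‖ ^ n := by
  obtain ⟨p, hp⟩ := hg
  have h1 := hp.isBigO_sub_partialSum_pow n
  obtain ⟨r, hr⟩ := hp
  have h2 : ∀ y : E, p.partialSum n y = 0 := by
    intro y
    unfold FormalMultilinearSeries.partialSum
    apply Finset.sum_eq_zero
    intro j hj
    have h3 := hr.factorial_smul y j
    rw [hv j (Finset.mem_range.mp hj)] at h3
    have h4 : (j.factorial : ℝ) • p j (fun _ => y) = 0 := by
      rw [Nat.cast_smul_eq_nsmul, h3]; rfl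
    rcases smul_eq_zero.mp h4 with h5 | h5
    · exact absurd h5 (by exact_mod_cast j.factorial_ne_zero)
    · exact h5
  simpa [h2] using h1

theorem leading_transfer {E G : Type} [NormedAddCommGroup E] [NormedSpace ℝ E]
    [NormedAddCommGroup G] [NormedSpace ℝ G] (g : E → G) (n : ℕ)
    (hv : ∀ j < n + 1, iteratedFDeriv ℝ j g 0 = 0) :
    ∀ j < n, iteratedFDeriv ℝ j (fderiv ℝ g) 0 = 0 := by
  intro j hj
  have h1 := hv (j + 1) (by omega)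
  rw [← norm_eq_zero] at h1 ⊢
  rw [norm_iteratedFDeriv_fderiv, h1]

/-- the derivative of a homogeneous function is homogeneous -/
theorem leading_homog {E G : Type} [NormedAddCommGroup E] [NormedSpace ℝ E]
    [NormedAddCommGroup G] [NormedSpace ℝ G] (g : E → G) (hg : Differentiable ℝ g) (n : ℕ)
    (hh : ∀ ρ : ℝ, 0 < ρ → ∀ x, g (ρ • x) = ρ ^ (n + 1) • g x) :
    ∀ ρ : ℝ, 0 < ρ → ∀ x, fderiv ℝ g (ρ • x) = ρ ^ n • fderiv ℝ g x := by
  intro ρ hρ x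
  have h1 : HasFDerivAt (fun x => g (ρ • x)) ((fderiv ℝ g (ρ • x)).comp (ρ • ContinuousLinearMap.id ℝ E)) x := by
    have h2 : HasFDerivAt (fun x : E => ρ • x) (ρ • ContinuousLinearMap.id ℝ E) x :=
      (hasFDerivAt_id x).const_smul ρ
    exact (hg (ρ • x)).hasFDerivAt.comp x h2
  have h3 : HasFDerivAt (fun x => g (ρ • x)) (ρ ^ (n + 1) • fderiv ℝ g x) x := by
    have h4 : (fun x => g (ρ • x)) = fun x => ρ ^ (n + 1) • g x := funext (hh ρ hρ)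
    rw [h4]
    exact (hg x).hasFDerivAt.const_smul _
  have h5 := h1.unique h3
  have h6 : ρ • fderiv ℝ g (ρ • x) = ρ • (ρ ^ n • fderiv ℝ g x) := by
    rw [smul_smul, ← pow_succ', ← h5]
    ext v
    simp
  exact smul_right_injective _ hρ.ne' h6

theorem leading_euler {E G : Type} [NormedAddCommGroup E] [NormedSpace ℝ E]
    [NormedAddCommGroup G] [NormedSpace ℝ G] (g : E → G) (hg : Differentiable ℝ g) (n : ℕ)
    (hh : ∀ ρ : ℝ, 0 < ρ → ∀ x, g (ρ • x) = ρ ^ n • g x) (x : E) :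
    fderiv ℝ g x x = (n : ℝ) • g x := by
  have h1 : HasDerivAt (fun ρ : ℝ => g (ρ • x)) (fderiv ℝ g x x) 1 := by
    have h2 : HasDerivAt (fun ρ : ℝ => ρ • x) x 1 := by
      simpa using (hasDerivAt_id (1 : ℝ)).smul_const x
    have h3 : HasFDerivAt g (fderiv ℝ g x) ((1 : ℝ) • x) := by
      rw [one_smul]; exact (hg x).hasFDerivAt
    exact h3.comp_hasDerivAt 1 h2
  have h4 : HasDerivAt (fun ρ : ℝ => g (ρ • x)) ((n : ℝ) • g x) 1 := by
    have h5 : HasDerivAt (fun ρ : ℝ => ρ ^ n • g x) ((n : ℝ) • g x) 1 := by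
      simpa using (hasDerivAt_pow n (1 : ℝ)).smul_const (g x)
    refine h5.congr_of_eventuallyEq ?_
    filter_upwards [lt_mem_nhds (zero_lt_one (α := ℝ))] with ρ hρ
    exact hh ρ hρ x
  exact h1.unique h4

/-- necessary second derivative test at a minimum -/
theorem leading_second (f : ℝ → ℝ) (hmin : IsLocalMin f 0) (hc : ContinuousAt f 0) :
    0 ≤ deriv (deriv f) 0 := by
  by_contra hneg
  push Not at hneg
  have hd : deriv f 0 = 0 := hmin.deriv_eq_zero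
  have hmax := isLocalMax_of_deriv_deriv_neg hneg hd hc
  have h1 : f =ᶠ[𝓝 0] fun _ => f 0 := by
    filter_upwards [hmin, hmax] with t h2 h3
    exact le_antisymm h3 h2
  have h2 : deriv f =ᶠ[𝓝 0] fun _ => 0 := by
    have := h1.deriv
    simpa using this
  have h3 : deriv (deriv f) 0 = 0 := by
    have := h2.deriv_eq
    simpa using this
  linarith

/-- first and second order conditions at the maximum -/
theorem leading_first {E : Type} [NormedAddCommGroup E] [InnerProductSpace ℝ E]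
    (Q : E → ℝ) (hQ : ContDiff ℝ ∞ Q) (d : ℕ) (m : ℝ) (hm : 0 < m) (e₀ : E) (he : ‖e₀‖ = 1)
    (hQe : Q e₀ = m) (hle : ∀ x, Q x ≤ m * ‖x‖ ^ d) (v : E) :
    fderiv ℝ Q e₀ v = d * m * ⟪e₀, v⟫_ℝ := by
  set q : ℝ → ℝ := fun t => Q (e₀ + t • v) with hq
  set a : ℝ → ℝ := fun t => 1 + 2 * ⟪e₀, v⟫_ℝ * t + ‖v‖ ^ 2 * t ^ 2 with ha
  have hnorm : ∀ t : ℝ, ‖e₀ + t • v‖ ^ 2 = a t := by
    intro t
    rw [norm_add_sq_real, he, inner_smul_right, norm_smul, mul_pow, Real.norm_eq_abs, sq_abs]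
    simp only [ha]; ring
  have hq0 : q 0 = m := by simp [hq, hQe]
  have hqd : HasDerivAt q (fderiv ℝ Q e₀ v) 0 := by
    have h2 : HasDerivAt (fun t : ℝ => e₀ + t • v) v 0 := by
      simpa using ((hasDerivAt_id (0 : ℝ)).smul_const v).const_add e₀
    have h3 : HasFDerivAt Q (fderiv ℝ Q e₀) (e₀ + (0 : ℝ) • v) := by
      rw [zero_smul, add_zero]
      exact ((hQ.differentiable (by simp)) e₀).hasFDerivAt
    exact h3.comp_hasDerivAt 0 h2
  have had : HasDerivAt a (2 * ⟪e₀, v⟫_ℝ) 0 := by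
    have h1 : HasDerivAt (fun t : ℝ => 1 + 2 * ⟪e₀, v⟫_ℝ * t + ‖v‖ ^ 2 * t ^ 2)
        (2 * ⟪e₀, v⟫_ℝ * 1 + ‖v‖ ^ 2 * ((2 : ℕ) * 0 ^ (2 - 1) * 1)) 0 :=
      (((hasDerivAt_id' (0 : ℝ)).const_mul (2 * ⟪e₀, v⟫_ℝ)).const_add 1).add
        (((hasDerivAt_id' (0 : ℝ)).pow 2).const_mul (‖v‖ ^ 2))
    simpa [ha] using h1
  have ha0 : a 0 = 1 := by simp [ha]
  have hFd : HasDerivAt (fun t => m ^ 2 * a t ^ d - q t ^ 2)
      (m ^ 2 * ((d : ℕ) * a 0 ^ (d - 1) * (2 * ⟪e₀, v⟫_ℝ)) - ((2 : ℕ) * q 0 ^ (2 - 1) * fderiv ℝ Q e₀ v)) 0 :=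
    ((had.pow d).const_mul (m ^ 2)).sub (hqd.pow 2)
  have hmin : IsLocalMin (fun t => m ^ 2 * a t ^ d - q t ^ 2) 0 := by
    have hpos : ∀ᶠ t in 𝓝 (0 : ℝ), 0 < q t :=
      hqd.continuousAt.eventually (lt_mem_nhds (by rw [hq0]; exact hm))
    filter_upwards [hpos] with t ht
    have h1 : q t ≤ m * ‖e₀ + t • v‖ ^ d := hle _
    have h2 : q t ^ 2 ≤ (m * ‖e₀ + t • v‖ ^ d) ^ 2 := pow_le_pow_left₀ ht.le h1 2
    have h3 : (m * ‖e₀ + t • v‖ ^ d) ^ 2 = m ^ 2 * a t ^ d := by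
      rw [mul_pow, ← hnorm t, ← pow_mul, ← pow_mul, mul_comm d 2]
    rw [ha0, hq0, one_pow]
    linarith
  have h0 := hmin.hasDerivAt_eq_zero hFd
  rw [ha0, hq0, one_pow] at h0
  have h1 : m * (2 * (d * m * ⟪e₀, v⟫_ℝ - fderiv ℝ Q e₀ v)) = 0 := by
    have h2 : m ^ (2 - 1) = m := by norm_num
    rw [h2] at h0
    push_cast at h0
    linarith
  rcases mul_eq_zero.mp h1 with h2 | h2
  · exact absurd h2 hm.ne'
  · linarith

theorem leading_hess {E : Type} [NormedAddCommGroup E] [InnerProductSpace ℝ E]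
    (Q : E → ℝ) (hQ : ContDiff ℝ ∞ Q) (d : ℕ) (m : ℝ) (hm : 0 < m) (e₀ : E) (he : ‖e₀‖ = 1)
    (hQe : Q e₀ = m) (hle : ∀ x, Q x ≤ m * ‖x‖ ^ (d + 1)) (v : E) (hv : ⟪e₀, v⟫_ℝ = 0) :
    fderiv ℝ (fderiv ℝ Q) e₀ v v ≤ ((d + 1 : ℕ) : ℝ) * m * ‖v‖ ^ 2 := by
  set q : ℝ → ℝ := fun t => Q (e₀ + t • v) with hq
  set a : ℝ → ℝ := fun t => 1 + ‖v‖ ^ 2 * t ^ 2 with ha
  have hnorm : ∀ t : ℝ, ‖e₀ + t • v‖ ^ 2 = a t := by
    intro t
    rw [norm_add_sq_real, he, inner_smul_right, norm_smul, mul_pow, Real.norm_eq_abs, sq_abs, hv]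
    simp only [ha]; ring
  have hq0 : q 0 = m := by simp [hq, hQe]
  have hline : ∀ t : ℝ, HasDerivAt (fun t : ℝ => e₀ + t • v) v t := by
    intro t
    simpa using ((hasDerivAt_id t).smul_const v).const_add e₀
  have hqd : ∀ t, HasDerivAt q (fderiv ℝ Q (e₀ + t • v) v) t := by
    intro t
    have h3 : HasFDerivAt Q (fderiv ℝ Q (e₀ + t • v)) (e₀ + t • v) :=
      ((hQ.differentiable (by simp)) _).hasFDerivAt
    exact h3.comp_hasDerivAt t (hline t)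
  have hQ1 : ContDiff ℝ ∞ (fderiv ℝ Q) := hQ.fderiv_right (by simp)
  have hqdd : HasDerivAt (fun t : ℝ => fderiv ℝ Q (e₀ + t • v) v) (fderiv ℝ (fderiv ℝ Q) e₀ v v) 0 := by
    have h3 : HasFDerivAt (fderiv ℝ Q) (fderiv ℝ (fderiv ℝ Q) e₀) (e₀ + (0 : ℝ) • v) := by
      rw [zero_smul, add_zero]
      exact ((hQ1.differentiable (by simp)) e₀).hasFDerivAt
    have h4 := h3.comp_hasDerivAt (0 : ℝ) (hline 0)
    have h5 := (ContinuousLinearMap.apply ℝ ℝ v).hasFDerivAt.comp_hasDerivAt (0 : ℝ) h4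
    simpa [Function.comp_def] using h5
  have had : ∀ t, HasDerivAt a (‖v‖ ^ 2 * (2 * t)) t := by
    intro t
    have h1 : HasDerivAt (fun t : ℝ => 1 + ‖v‖ ^ 2 * t ^ 2)
        (‖v‖ ^ 2 * ((2 : ℕ) * t ^ (2 - 1) * 1)) t :=
      (((hasDerivAt_id' t).pow 2).const_mul (‖v‖ ^ 2)).const_add 1
    simpa [ha] using h1
  have ha0 : a 0 = 1 := by simp [ha]
  have hFd : ∀ t, HasDerivAt (fun t => m ^ 2 * a t ^ (d + 1) - q t ^ 2)
      (m ^ 2 * (((d + 1 : ℕ) : ℝ) * a t ^ d * (‖v‖ ^ 2 * (2 * t))) -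
        (2 * q t * fderiv ℝ Q (e₀ + t • v) v)) t := by
    intro t
    have h1 := (((had t).pow (d + 1)).const_mul (m ^ 2)).sub ((hqd t).pow 2)
    refine h1.congr_deriv ?_
    simp
  have hmin : IsLocalMin (fun t => m ^ 2 * a t ^ (d + 1) - q t ^ 2) 0 := by
    have hpos : ∀ᶠ t in 𝓝 (0 : ℝ), 0 < q t :=
      (hqd 0).continuousAt.eventually (lt_mem_nhds (by rw [hq0]; exact hm))
    filter_upwards [hpos] with t ht
    have h1 : q t ≤ m * ‖e₀ + t • v‖ ^ (d + 1) := hle _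
    have h2 : q t ^ 2 ≤ (m * ‖e₀ + t • v‖ ^ (d + 1)) ^ 2 := pow_le_pow_left₀ ht.le h1 2
    have h3 : (m * ‖e₀ + t • v‖ ^ (d + 1)) ^ 2 = m ^ 2 * a t ^ (d + 1) := by
      rw [mul_pow, ← hnorm t, ← pow_mul, ← pow_mul, mul_comm (d + 1) 2]
    rw [ha0, hq0, one_pow]
    linarith
  have h0 := leading_second _ hmin (hFd 0).continuousAt
  have hderiv : deriv (fun t => m ^ 2 * a t ^ (d + 1) - q t ^ 2) = fun t =>
      (m ^ 2 * (((d + 1 : ℕ) : ℝ) * a t ^ d * (‖v‖ ^ 2 * (2 * t))) -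
        (2 * q t * fderiv ℝ Q (e₀ + t • v) v)) := funext fun t => (hFd t).deriv
  have hfo : fderiv ℝ Q e₀ v = 0 := by
    rw [leading_first Q hQ (d + 1) m hm e₀ he hQe hle v, hv, mul_zero]
  have hsec : HasDerivAt (fun t =>
      (m ^ 2 * (((d + 1 : ℕ) : ℝ) * a t ^ d * (‖v‖ ^ 2 * (2 * t))) -
        (2 * q t * fderiv ℝ Q (e₀ + t • v) v)))
      (m ^ 2 * (((d + 1 : ℕ) : ℝ) * ‖v‖ ^ 2 * 2) - 2 * m * fderiv ℝ (fderiv ℝ Q) e₀ v v) 0 := by
    have h1 : HasDerivAt (fun t : ℝ => ‖v‖ ^ 2 * (2 * t)) (‖v‖ ^ 2 * (2 * 1)) 0 :=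
      ((hasDerivAt_id' (0 : ℝ)).const_mul 2).const_mul (‖v‖ ^ 2)
    have h2 : HasDerivAt (fun t => ((d + 1 : ℕ) : ℝ) * a t ^ d)
        (((d + 1 : ℕ) : ℝ) * ((d : ℝ) * a 0 ^ (d - 1) * (‖v‖ ^ 2 * (2 * 0)))) 0 :=
      ((had 0).pow d).const_mul _
    have h3 := (h2.mul h1).const_mul (m ^ 2)
    have h4 := ((hqd 0).const_mul 2).mul hqdd
    have h5 := h3.sub h4
    refine h5.congr_deriv ?_
    have h6 : fderiv ℝ Q (e₀ + (0 : ℝ) • v) v = 0 := by rw [zero_smul, add_zero]; exact hfo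
    rw [h6, hq0, ha0]
    ring
  rw [hderiv, hsec.deriv] at h0
  have h7 : 0 ≤ (2 * m) * (((d + 1 : ℕ) : ℝ) * m * ‖v‖ ^ 2 - fderiv ℝ (fderiv ℝ Q) e₀ v v) := by
    nlinarith [h0]
  have h8 := nonneg_of_mul_nonneg_right h7 (by linarith : (0 : ℝ) < 2 * m)
  exact sub_nonneg.mp h8

theorem leading_remainder {E : Type} [NormedAddCommGroup E] [NormedSpace ℝ E]
    (H : E → ℝ) (p : FormalMultilinearSeries ℝ E ℝ) (r : ENNReal)
    (hr : HasFPowerSeriesOnBall H p 0 r) (d : ℕ) (hd : 1 ≤ d)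
    (hz : ∀ j, 1 ≤ j → j < d → ∀ y, p j (fun _ => y) = 0) :
    AnalyticAt ℝ (fun x => H x - H 0 - p d (fun _ => x)) 0 ∧
      ∀ j < d + 1, iteratedFDeriv ℝ j (fun x => H x - H 0 - p d (fun _ => x)) 0 = 0 := by
  let p' : FormalMultilinearSeries ℝ E ℝ := fun n => if n ≤ d then 0 else p n
  have hp'0 : ∀ n, n ≤ d → p' n = 0 := fun n hn => if_pos hn
  have hp'1 : ∀ n, ¬ n ≤ d → p' n = p n := fun n hn => if_neg hn
  have hball : HasFPowerSeriesOnBall (fun x => H x - H 0 - p d (fun _ => x)) p' 0 r := by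
    refine ⟨hr.r_le.trans (FormalMultilinearSeries.radius_le_of_le (fun n => ?_)), hr.r_pos, ?_⟩
    · by_cases hn : n ≤ d
      · rw [hp'0 n hn, norm_zero]; exact norm_nonneg _
      · rw [hp'1 n hn]
    · intro y hy
      have h1 := hr.hasSum hy
      rw [zero_add] at h1 ⊢
      have h2 : HasSum (fun n => if n ≤ d then p n (fun _ => y) else 0)
          (∑ n ∈ Finset.range (d + 1), if n ≤ d then p n (fun _ => y) else 0) := by
        apply hasSum_sum_of_ne_finset_zero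
        intro b hb
        rw [Finset.mem_range] at hb
        exact if_neg (by omega)
      have h3 : (∑ n ∈ Finset.range (d + 1), if n ≤ d then p n (fun _ => y) else 0) =
          H 0 + p d (fun _ => y) := by
        rw [Finset.sum_range_succ, if_pos le_rfl]
        congr 1
        rw [Finset.sum_eq_single_of_mem 0 (Finset.mem_range.mpr (by omega))]
        · rw [if_pos (Nat.zero_le d)]
          exact hr.coeff_zero _
        · intro b hb hb0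
          rw [Finset.mem_range] at hb
          rw [if_pos (by omega)]
          exact hz b (by omega) hb y
      rw [h3] at h2
      have h4 := h1.sub h2
      have h5 : H y - (H 0 + p d (fun _ => y)) = H y - H 0 - p d (fun _ => y) := by ring
      rw [h5] at h4
      refine h4.congr_fun ?_
      intro n
      by_cases hn : n ≤ d
      · rw [hp'0 n hn, if_pos hn, sub_self]; rfl
      · rw [hp'1 n hn, if_neg hn, sub_zero]
  refine ⟨hball.analyticAt, ?_⟩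
  intro j hj
  ext v
  rw [hball.iteratedFDeriv_eq_sum_of_completeSpace v, hp'0 j (by omega)]
  simp

theorem leading_limit {E G : Type} [NormedAddCommGroup E] [NormedSpace ℝ E]
    [NormedAddCommGroup G] [NormedSpace ℝ G] (g : E → G) (n : ℕ)
    (hg : g =O[𝓝 0] fun y => ‖y‖ ^ (n + 1)) (e₀ : E) (he : ‖e₀‖ = 1) (σ : ℝ) :
    Tendsto (fun ρ : ℝ => (σ * (ρ ^ n)⁻¹) • g (ρ • e₀)) (𝓝[>] 0) (𝓝 0) := by
  obtain ⟨c, hc⟩ := hg.bound
  have hray : Tendsto (fun ρ : ℝ => ρ • e₀) (𝓝[>] 0) (𝓝 0) := by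
    have h1 : Tendsto (fun ρ : ℝ => ρ • e₀) (𝓝 0) (𝓝 ((0 : ℝ) • e₀)) :=
      (continuous_id.smul continuous_const).tendsto 0
    rw [zero_smul] at h1
    exact h1.mono_left nhdsWithin_le_nhds
  have hc' := hray.eventually hc
  have hlim : Tendsto (fun ρ : ℝ => |σ| * c * ρ) (𝓝[>] 0) (𝓝 0) := by
    have h1 : Tendsto (fun ρ : ℝ => |σ| * c * ρ) (𝓝 0) (𝓝 (|σ| * c * 0)) :=
      (continuous_const.mul continuous_id).tendsto 0
    rw [mul_zero] at h1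
    exact h1.mono_left nhdsWithin_le_nhds
  refine squeeze_zero_norm' ?_ hlim
  filter_upwards [hc', self_mem_nhdsWithin] with ρ h1 h2
  have hρ : 0 < ρ := h2
  rw [norm_smul, norm_mul, norm_inv, Real.norm_eq_abs, Real.norm_eq_abs, abs_of_pos (pow_pos hρ n)]
  have h0 : ‖‖ρ • e₀‖ ^ (n + 1)‖ = ρ ^ (n + 1) := by
    rw [norm_smul, he, mul_one, Real.norm_eq_abs ρ, abs_of_pos hρ, Real.norm_eq_abs,
      abs_of_pos (pow_pos hρ _)]
  rw [h0] at h1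
  calc |σ| * (ρ ^ n)⁻¹ * ‖g (ρ • e₀)‖ ≤ |σ| * (ρ ^ n)⁻¹ * (c * ρ ^ (n + 1)) :=
        mul_le_mul_of_nonneg_left h1 (by positivity)
    _ = |σ| * c * ρ := by
        have h3 : ρ ^ n ≠ 0 := (pow_pos hρ n).ne'
        rw [pow_succ]
        field_simp

theorem leading_add {E G : Type} [NormedAddCommGroup E] [NormedSpace ℝ E]
    [NormedAddCommGroup G] [NormedSpace ℝ G] [CompleteSpace G] (f a b : E → G)
    (h : f =ᶠ[𝓝 0] fun x => a x + b x) (ha : Differentiable ℝ a) (hb : AnalyticAt ℝ b 0) :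
    fderiv ℝ f =ᶠ[𝓝 0] fun x => fderiv ℝ a x + fderiv ℝ b x := by
  refine h.fderiv.trans ?_
  filter_upwards [hb.eventually_analyticAt] with x hx
  exact fderiv_fun_add (ha x) hx.differentiableAt

theorem leading_conv {E G : Type} [NormedAddCommGroup E] [NormedSpace ℝ E]
    [NormedAddCommGroup G] [NormedSpace ℝ G] (f a b : E → G) (n : ℕ)
    (h : f =ᶠ[𝓝 0] fun x => a x + b x) (ha : ∀ ρ : ℝ, 0 < ρ → ∀ x, a (ρ • x) = ρ ^ n • a x)
    (hb : b =O[𝓝 0] fun y => ‖y‖ ^ (n + 1)) (e₀ : E) (he : ‖e₀‖ = 1) (σ : ℝ) :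
    Tendsto (fun ρ : ℝ => (σ * (ρ ^ n)⁻¹) • f (ρ • e₀)) (𝓝[>] 0) (𝓝 (σ • a e₀)) := by
  have h1 := leading_limit b n hb e₀ he σ
  have h2 : Tendsto (fun ρ : ℝ => σ • a e₀ + (σ * (ρ ^ n)⁻¹) • b (ρ • e₀)) (𝓝[>] 0)
      (𝓝 (σ • a e₀)) := by
    simpa using h1.const_add (σ • a e₀)
  refine h2.congr' ?_
  have hray : Tendsto (fun ρ : ℝ => ρ • e₀) (𝓝[>] 0) (𝓝 0) := by
    have h1 : Tendsto (fun ρ : ℝ => ρ • e₀) (𝓝 0) (𝓝 ((0 : ℝ) • e₀)) :=
      (continuous_id.smul continuous_const).tendsto 0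
    rw [zero_smul] at h1
    exact h1.mono_left nhdsWithin_le_nhds
  filter_upwards [hray.eventually h, self_mem_nhdsWithin] with ρ h3 h4
  have hρ : 0 < ρ := h4
  rw [h3, ha ρ hρ, smul_add, smul_smul]
  congr 2
  have h5 : ρ ^ n ≠ 0 := (pow_pos hρ n).ne'
  field_simp

theorem leading_third {E G : Type} [NormedAddCommGroup E] [NormedSpace ℝ E]
    [NormedAddCommGroup G] [NormedSpace ℝ G] [CompleteSpace G] (f a b : E → G) (n : ℕ)
    (h : f =ᶠ[𝓝 0] fun x => a x + b x) (ha : Differentiable ℝ a)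
    (hah : ∀ ρ : ℝ, 0 < ρ → ∀ x, a (ρ • x) = ρ ^ (n + 1) • a x) (hb : AnalyticAt ℝ b 0)
    (hbv : ∀ j < n + 1 + 1, iteratedFDeriv ℝ j b 0 = 0) (e₀ : E) (he : ‖e₀‖ = 1) (σ : ℝ) :
    ∃ C : E →L[ℝ] G, Tendsto (fun ρ : ℝ => (σ * (ρ ^ n)⁻¹) • fderiv ℝ f (ρ • e₀)) (𝓝[>] 0) (𝓝 C) ∧
      C e₀ = (σ * ((n + 1 : ℕ) : ℝ)) • a e₀ := by
  refine ⟨σ • fderiv ℝ a e₀, ?_, ?_⟩
  · exact leading_conv (fderiv ℝ f) (fderiv ℝ a) (fderiv ℝ b) n (leading_add f a b h ha hb)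
      (leading_homog a ha n hah)
      (leading_bigO (fderiv ℝ b) hb.fderiv (n + 1) (leading_transfer b (n + 1) hbv)) e₀ he σ
  · rw [smul_apply, leading_euler a ha (n + 1) hah, smul_smul]

/-- the leading homogeneous part -/
theorem leading_pick {E : Type} [NormedAddCommGroup E] [NormedSpace ℝ E]
    (H : E → ℝ) (hH : AnalyticAt ℝ H 0) (h1 : fderiv ℝ H 0 = 0) (h2 : fderiv ℝ (fderiv ℝ H) 0 = 0)
    (hne : ¬ ∀ᶠ e in 𝓝 (0 : E), H e = H 0) :
    ∃ (k : ℕ) (P R : E → ℝ), ContDiff ℝ ∞ P ∧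
      (∀ ρ : ℝ, 0 < ρ → ∀ x, P (ρ • x) = ρ ^ (k + 3) • P x) ∧ P 0 = 0 ∧ (∃ x₀, P x₀ ≠ 0) ∧
      AnalyticAt ℝ R 0 ∧ (∀ j < k + 3 + 1, iteratedFDeriv ℝ j R 0 = 0) ∧
      (∀ x, H x = (P x + H 0) + R x) := by
  classical
  obtain ⟨p, r, hr⟩ := hH
  -- the least degree with a nonzero diagonal polynomial
  obtain ⟨d, hd1, ⟨x₀, hx₀⟩, hz⟩ : ∃ d, 1 ≤ d ∧ (∃ y : E, p d (fun _ => y) ≠ 0) ∧
      ∀ j, 1 ≤ j → j < d → ∀ y : E, p j (fun _ => y) = 0 := by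
    have hex : ∃ j, 1 ≤ j ∧ ∃ y : E, p j (fun _ => y) ≠ 0 := by
      by_contra hcon
      push Not at hcon
      apply hne
      have hball : Metric.eball (0 : E) r ∈ 𝓝 (0 : E) := Metric.eball_mem_nhds 0 hr.r_pos
      filter_upwards [hball] with y hy
      have h3 := hr.hasSum hy
      rw [zero_add] at h3
      have h4 : HasSum (fun n => p n (fun _ => y)) (H 0) := by
        have h5 : p 0 (fun _ => y) = H 0 := hr.coeff_zero _
        rw [← h5]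
        apply hasSum_single 0
        intro b hb
        exact hcon b (Nat.one_le_iff_ne_zero.mpr hb) y
      exact h3.unique h4
    refine ⟨Nat.find hex, (Nat.find_spec hex).1, (Nat.find_spec hex).2, ?_⟩
    intro j hj1 hj2 y
    have h3 := Nat.find_min hex hj2
    push Not at h3
    exact h3 hj1 y
  have hnot1 : ∀ y : E, p 1 (fun _ => y) = 0 := by
    intro y
    have h3 := hr.factorial_smul y 1
    rw [iteratedFDeriv_one_apply, h1] at h3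
    simpa using h3
  have hnot2 : ∀ y : E, p 2 (fun _ => y) = 0 := by
    intro y
    have h3 := hr.factorial_smul y 2
    rw [iteratedFDeriv_two_apply, h2] at h3
    simpa [Nat.factorial] using h3
  obtain ⟨k, rfl⟩ : ∃ k, d = k + 3 := by
    have h3 : d ≠ 1 := fun h => hx₀ (by subst h; exact hnot1 _)
    have h4 : d ≠ 2 := fun h => hx₀ (by subst h; exact hnot2 _)
    exact ⟨d - 3, by omega⟩
  obtain ⟨hR, hRv⟩ := leading_remainder H p r hr (k + 3) hd1 hz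
  refine ⟨k, fun x => p (k + 3) (fun _ => x), fun x => H x - H 0 - p (k + 3) (fun _ => x),
    (p (k + 3)).contDiff.comp (contDiff_pi.2 fun _ => contDiff_id), ?_, (p (k + 3)).map_zero,
    ⟨x₀, hx₀⟩, hR, hRv, fun x => by ring⟩
  intro ρ _ x
  have h3 := (p (k + 3)).map_smul_univ (fun _ => ρ) (fun _ => x)
  simpa using h3

/-- the maximum over the sphere -/
theorem leading_sphere {E : Type} [NormedAddCommGroup E] [InnerProductSpace ℝ E]
    [FiniteDimensional ℝ E] (P : E → ℝ) (hP : Continuous P) (k : ℕ)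
    (hPh : ∀ ρ : ℝ, 0 < ρ → ∀ x, P (ρ • x) = ρ ^ (k + 3) • P x) (hP0 : P 0 = 0)
    (x₀ : E) (hx₀ : P x₀ ≠ 0) :
    ∃ (σ : ℝ) (e₀ : E), (σ = 1 ∨ σ = -1) ∧ ‖e₀‖ = 1 ∧ 0 < σ * P e₀ ∧
      ∀ x, σ * P x ≤ (σ * P e₀) * ‖x‖ ^ (k + 3) := by
  obtain ⟨σ, hσ, hpos⟩ : ∃ σ : ℝ, (σ = 1 ∨ σ = -1) ∧ 0 < σ * P x₀ := by
    rcases lt_or_gt_of_ne hx₀ with h3 | h3
    · exact ⟨-1, Or.inr rfl, by linarith⟩
    · exact ⟨1, Or.inl rfl, by linarith⟩
  have hQh : ∀ ρ : ℝ, 0 < ρ → ∀ x, σ * P (ρ • x) = ρ ^ (k + 3) * (σ * P x) := by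
    intro ρ hρ x
    rw [hPh ρ hρ x, smul_eq_mul]; ring
  have hx0 : x₀ ≠ 0 := by
    intro h
    rw [h, hP0, mul_zero] at hpos
    exact lt_irrefl _ hpos
  have hunit : ∀ x : E, x ≠ 0 → ‖(‖x‖⁻¹) • x‖ = 1 := by
    intro x hx
    rw [norm_smul, norm_inv, norm_norm, inv_mul_cancel₀ (norm_ne_zero_iff.mpr hx)]
  have hsc : ∀ x : E, x ≠ 0 → σ * P x = ‖x‖ ^ (k + 3) * (σ * P ((‖x‖⁻¹) • x)) := by
    intro x hx
    rw [← hQh _ (norm_pos_iff.mpr hx), smul_smul, mul_inv_cancel₀ (norm_ne_zero_iff.mpr hx), one_smul]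
  obtain ⟨e₀, he₀, hmax⟩ := (isCompact_sphere (0 : E) 1).exists_isMaxOn
    ⟨(‖x₀‖⁻¹) • x₀, by rw [mem_sphere_zero_iff_norm]; exact hunit x₀ hx0⟩
    ((continuous_const (y := σ)).mul hP).continuousOn
  have he : ‖e₀‖ = 1 := mem_sphere_zero_iff_norm.mp he₀
  have hmax' : ∀ x : E, ‖x‖ = 1 → σ * P x ≤ σ * P e₀ :=
    fun x hx => hmax (mem_sphere_zero_iff_norm.mpr hx)
  have hm : 0 < σ * P e₀ := by
    have h3 := hmax' _ (hunit x₀ hx0)
    have h4 : 0 < ‖x₀‖ ^ (k + 3) * (σ * P ((‖x₀‖⁻¹) • x₀)) := by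
      rw [← hsc x₀ hx0]; exact hpos
    have h5 := (mul_pos_iff_of_pos_left (pow_pos (norm_pos_iff.mpr hx0) _)).mp h4
    linarith
  refine ⟨σ, e₀, hσ, he, hm, ?_⟩
  intro x
  by_cases hx : x = 0
  · rw [hx, hP0, norm_zero]
    simp
  · rw [hsc x hx, mul_comm]
    exact mul_le_mul_of_nonneg_right (hmax' _ (hunit x hx)) (pow_nonneg (norm_nonneg x) _)

/-- the values of the second derivative of the leading part -/
theorem leading_values {E : Type} [NormedAddCommGroup E] [InnerProductSpace ℝ E]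
    (P : E → ℝ) (hPsm : ContDiff ℝ ∞ P) (k : ℕ)
    (hPh : ∀ ρ : ℝ, 0 < ρ → ∀ x, P (ρ • x) = ρ ^ (k + 3) • P x)
    (σ : ℝ) (e₀ : E) (he : ‖e₀‖ = 1) (hm : 0 < σ * P e₀)
    (hle : ∀ x, σ * P x ≤ (σ * P e₀) * ‖x‖ ^ (k + 3)) :
    (∀ u v, fderiv ℝ (fderiv ℝ P) e₀ u v = fderiv ℝ (fderiv ℝ P) e₀ v u) ∧
    (∀ v, σ * fderiv ℝ (fderiv ℝ P) e₀ e₀ v =
      ((k : ℝ) + 3) * ((k : ℝ) + 2) * (σ * P e₀) * ⟪e₀, v⟫_ℝ) ∧
    (∀ v, ⟪e₀, v⟫_ℝ = 0 → σ * fderiv ℝ (fderiv ℝ P) e₀ v v ≤ ((k : ℝ) + 3) * (σ * P e₀) * ‖v‖ ^ 2) := by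
  have hP1 : ContDiff ℝ ∞ (fderiv ℝ P) := hPsm.fderiv_right (by simp)
  have hPd := hPsm.differentiable (by simp)
  have hPd1 := hP1.differentiable (by simp)
  have hh1 := leading_homog P hPd (k + 2) hPh
  have he2 := leading_euler (fderiv ℝ P) hPd1 (k + 2) hh1
  have hQsm : ContDiff ℝ ∞ (fun x => σ * P x) := contDiff_const.mul hPsm
  have hQ1 : fderiv ℝ (fun x => σ * P x) = fun x => σ • fderiv ℝ P x := by
    funext x
    exact fderiv_const_mul (hPd x) σ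
  have hQ2 : fderiv ℝ (fderiv ℝ (fun x => σ * P x)) e₀ = σ • fderiv ℝ (fderiv ℝ P) e₀ := by
    rw [hQ1]
    exact fderiv_fun_const_smul (hPd1 e₀) σ
  refine ⟨?_, ?_, ?_⟩
  · intro u v
    have h3 : IsSymmSndFDerivAt ℝ P e₀ :=
      (contDiff_infty.mp hPsm 2).contDiffAt.isSymmSndFDerivAt (by simp)
    exact h3 u v
  · intro v
    have h4 : fderiv ℝ (fderiv ℝ P) e₀ e₀ v = ((k + 2 : ℕ) : ℝ) * fderiv ℝ P e₀ v := by
      rw [he2 e₀]; rfl
    have h5 := leading_first (fun x => σ * P x) hQsm (k + 3) (σ * P e₀) hm e₀ he rfl hle v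
    rw [hQ1] at h5
    have h6 : σ * fderiv ℝ P e₀ v = ((k + 3 : ℕ) : ℝ) * (σ * P e₀) * ⟪e₀, v⟫_ℝ := h5
    rw [h4]
    push_cast at h6 ⊢
    linear_combination ((k : ℝ) + 2) * h6
  · intro v hv
    have h3 := leading_hess (fun x => σ * P x) hQsm (k + 2) (σ * P e₀) hm e₀ he rfl hle v hv
    rw [hQ2] at h3
    have h4 : (σ • fderiv ℝ (fderiv ℝ P) e₀) v v = σ * fderiv ℝ (fderiv ℝ P) e₀ v v := rfl
    rw [h4] at h3
    have h5 : ((k + 2 + 1 : ℕ) : ℝ) = (k : ℝ) + 3 := by push_cast; ring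
    rw [h5] at h3
    exact h3

end leadingAux

/-! PLAIN PROOF OF THE TARGET(S)

H is analytic at 0 and not eventually constant, so for a power series p of H at 0 some diagonal polynomial P_j(x) = p j (fun _ => x), j ≥ 1, is not
identically 0; let d be the least such j.  P = P_d is a homogeneous polynomial function of degree d, H(x) = H(0) + P(x) + R(x), R analytic
with vanishing diagonal polynomials of degree ≤ d.  d ≥ 3, because P_1 = DH(0) = 0, P_2 = D²H(0)/2 = 0.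
Derivatives along rays: for a function analytic near 0 whose diagonal polynomials of degrees 1..d-1 vanish (a vector valued analogue works
for DH, D²H, D³H), the one variable functions ρ ↦ D²H(ρ e), ρ ↦ D³H(ρ e) are analytic near ρ = 0 and vanish to the order d-2, d-3 at least:
ρ^{-(d-2)} D²H(ρ e) → D²P(e), ρ^{-(d-3)} D³H(ρ e) → D³P(e) as ρ → 0.  (E.g. D^jH(ρ e) = ρ^{d-j} D^jP(e) + D^jR(ρ e) by homogeneity, and
D^jR(ρe) = O(ρ^{d+1-j}): the power series of R starts at order d+1 on the diagonal, so does that of the derivatives; see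
`HasFPowerSeriesAt.fderiv`, `HasFPowerSeriesOnBall.uniform_geometric_approx`/`HasFPowerSeriesAt.isBigO_sub_partialSum_pow`, or Taylor's theorem with the
vanishing iterated derivatives at 0; choose whatever is easiest.)
P is not 0, so it takes a nonzero value; put σ = 1 if P has a positive value somewhere, σ = -1 otherwise, so that σP has a positive maximum
m over the unit sphere (compact), attained at e0.  σP(x) ≤ m |x|^d for all x by homogeneity.  B = σ D²P(e0), C = σ D³P(e0).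
Euler: D P(e0)e0 = d P(e0), D²P(e0)(e0,·) = (d-1) DP(e0), D³P(e0)(e0,e0,e0) = d(d-1)(d-2)P(e0).  The function m|x|^d - σP(x) ≥ 0 vanishes at e0,
so its derivative at e0 vanishes: σ DP(e0)v = d m <e0,v>; so B(e0,v) = d(d-1) m <e0,v>; its second derivative at e0 is ≥ 0:
for v ⊥ e0, d²/dt² at 0 of m|e0+tv|^d = m (1+t²|v|²)^{d/2} is d m |v|², so B(v,v) ≤ d m |v|².  C(e0,e0,e0) = d(d-1)(d-2) m.
(One may do everything with functions of one variable: t ↦ P(e0 + t v), t ↦ P((1+t) e0) = (1+t)^d P(e0).)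
-/

section
variable {F : Type} [NormedAddCommGroup F] [InnerProductSpace ℝ F] [FiniteDimensional ℝ F]

/-- TARGET -/
theorem leading {K : Type} [NormedAddCommGroup K] [InnerProductSpace ℝ K] [FiniteDimensional ℝ K]
    (H : K → ℝ) (hH : AnalyticAt ℝ H 0) (h1 : fderiv ℝ H 0 = 0) (h2 : fderiv ℝ (fderiv ℝ H) 0 = 0)
    (hne : ¬ ∀ᶠ e in 𝓝 (0 : K), H e = H 0) :
    ∃ (d : ℕ) (σ m : ℝ) (e₀ : K) (B : K →L[ℝ] K →L[ℝ] ℝ) (C : K →L[ℝ] K →L[ℝ] K →L[ℝ] ℝ),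
      3 ≤ d ∧ (σ = 1 ∨ σ = -1) ∧ 0 < m ∧ ‖e₀‖ = 1 ∧
      Tendsto (fun ρ : ℝ => (σ * (ρ ^ (d - 2))⁻¹) • fderiv ℝ (fderiv ℝ H) (ρ • e₀)) (𝓝[>] 0) (𝓝 B) ∧
      Tendsto (fun ρ : ℝ => (σ * (ρ ^ (d - 3))⁻¹) • fderiv ℝ (fderiv ℝ (fderiv ℝ H)) (ρ • e₀))
        (𝓝[>] 0) (𝓝 C) ∧
      (∀ u v, B u v = B v u) ∧
      (∀ v, B e₀ v = (d * (d - 1) * m : ℝ) * ⟪e₀, v⟫_ℝ) ∧
      (∀ v, ⟪e₀, v⟫_ℝ = 0 → B v v ≤ (d * m : ℝ) * ‖v‖ ^ 2) ∧
      C e₀ e₀ e₀ = (d * (d - 1) * (d - 2) * m : ℝ) := by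
  obtain ⟨k, P, R, hPsm, hPh, hP0, ⟨x₀, hx₀⟩, hR, hRv, hdec⟩ := leading_pick H hH h1 h2 hne
  obtain ⟨σ, e₀, hσ, he, hm, hle⟩ := leading_sphere P hPsm.continuous k hPh hP0 x₀ hx₀
  obtain ⟨hsymm, hval, hhess⟩ := leading_values P hPsm k hPh σ e₀ he hm hle
  have hP1 : ContDiff ℝ ∞ (fderiv ℝ P) := hPsm.fderiv_right (by simp)
  have hP2 : ContDiff ℝ ∞ (fderiv ℝ (fderiv ℝ P)) := hP1.fderiv_right (by simp)
  have hPd := hPsm.differentiable (by simp)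
  have hPd1 := hP1.differentiable (by simp)
  have hPd2 := hP2.differentiable (by simp)
  have hh1 := leading_homog P hPd (k + 2) hPh
  have hh2 := leading_homog (fderiv ℝ P) hPd1 (k + 1) hh1
  have hH0 : H =ᶠ[𝓝 0] fun x => (P x + H 0) + R x := Filter.Eventually.of_forall hdec
  have hH1 : fderiv ℝ H =ᶠ[𝓝 0] fun x => fderiv ℝ P x + fderiv ℝ R x := by
    have h3 := leading_add H (fun x => P x + H 0) R hH0 (hPd.add_const _) hR
    simpa using h3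
  have hH2 := leading_add (fderiv ℝ H) (fderiv ℝ P) (fderiv ℝ R) hH1 hPd1 hR.fderiv
  have hv1 := leading_transfer R (k + 3) hRv
  have hv2 := leading_transfer (fderiv ℝ R) (k + 2) hv1
  have hO2 := leading_bigO (fderiv ℝ (fderiv ℝ R)) hR.fderiv.fderiv (k + 2) hv2
  obtain ⟨C, hC, hCe⟩ := leading_third (fderiv ℝ (fderiv ℝ H)) (fderiv ℝ (fderiv ℝ P))
    (fderiv ℝ (fderiv ℝ R)) k hH2 hPd2 hh2 hR.fderiv.fderiv hv2 e₀ he σ
  refine ⟨k + 3, σ, σ * P e₀, e₀, σ • fderiv ℝ (fderiv ℝ P) e₀, C,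
    by omega, hσ, hm, he, ?_, hC, ?_, ?_, ?_, ?_⟩
  · exact leading_conv (fderiv ℝ (fderiv ℝ H)) (fderiv ℝ (fderiv ℝ P)) (fderiv ℝ (fderiv ℝ R)) (k + 1)
      hH2 hh2 hO2 e₀ he σ
  · intro u v
    have h3 : ∀ u v, (σ • fderiv ℝ (fderiv ℝ P) e₀) u v = σ * fderiv ℝ (fderiv ℝ P) e₀ u v :=
      fun u v => rfl
    rw [h3, h3, hsymm u v]
  · intro v
    have h3 : (σ • fderiv ℝ (fderiv ℝ P) e₀) e₀ v = σ * fderiv ℝ (fderiv ℝ P) e₀ e₀ v := rfl
    rw [h3, hval v]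
    push_cast
    ring
  · intro v hv
    have h3 : (σ • fderiv ℝ (fderiv ℝ P) e₀) v v = σ * fderiv ℝ (fderiv ℝ P) e₀ v v := rfl
    rw [h3]
    have h4 := hhess v hv
    push_cast
    exact h4
  · rw [hCe]
    have h3 : ((σ * ((k + 1 : ℕ) : ℝ)) • fderiv ℝ (fderiv ℝ P) e₀) e₀ e₀ =
        (σ * ((k + 1 : ℕ) : ℝ)) * fderiv ℝ (fderiv ℝ P) e₀ e₀ e₀ := rfl
    have h4 := hval e₀
    rw [real_inner_self_eq_norm_sq, he] at h4
    rw [h3]
    push_cast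
    linear_combination ((k : ℝ) + 1) * h4

end

end Pool.Agent.H469
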