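import Mathlib

set_option autoImplicit false

open Set Filter Topology MeasureTheory
open scoped ContDiff InnerProductSpace

namespace Pool.Agent.H469


/-! PLAIN PROOF OF THE TARGET(S)

Near 0 all functions are analytic (so C^∞).  Put ψ(e) = a0 + e + h(e) : K → F, ψ'(e) v = v + h'(e) v, and the second and third derivatives of ψ take values in K^⊥ (h is
K^⊥-valued, its derivatives, coerced to F, are in the closed subspace K^⊥).  For e near 0 (use `Filter.Eventually.eventually_nhds` so that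
hN holds in a neighbourhood of e):
(1) D(f∘ψ)(e) v = Df(ψ e)(v + h'v) = Df(ψ e) v, because h'v ∈ K^⊥.
(2) differentiate Df(ψ e) w = 0 (w ∈ K^⊥ fixed) in the direction v: D²f(ψ e)(ψ'v, w) = 0.
(3) differentiate (1): D²(f∘ψ)(e)(u,v) = D²f(ψ e)(ψ'u, v) = D²f(ψ e)(ψ'u, ψ'v) by (2) as h'v ∈ K^⊥.
(4) D³(f∘ψ)(e)(v,v,v): differentiate D²(f∘ψ)(e)(v,v) = D²f(ψ e)(ψ'v,ψ'v) (valid near e) in the direction v:
D³f(ψ'v,ψ'v,ψ'v) + 2 D²f(ψ''(v,v), ψ'v), and the last term is 0 by (2) and the symmetry of D²f since ψ''(v,v) ∈ K^⊥.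
-/

section
variable {F : Type} [NormedAddCommGroup F] [InnerProductSpace ℝ F] [FiniteDimensional ℝ F]

theorem red_derivs_psi (a₀ : F) (K : Submodule ℝ F) (h : K → Kᗮ) (e : K)
    (hh : DifferentiableAt ℝ h e) :
    HasFDerivAt (fun e : K => a₀ + (e : F) + (h e : F))
      (K.subtypeL + Kᗮ.subtypeL.comp (fderiv ℝ h e)) e := by
  have h1 : HasFDerivAt (fun e : K => (e : F)) K.subtypeL e := K.subtypeL.hasFDerivAt
  have h2 : HasFDerivAt (fun e : K => (h e : F)) (Kᗮ.subtypeL.comp (fderiv ℝ h e)) e :=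
    Kᗮ.subtypeL.hasFDerivAt.comp e hh.hasFDerivAt
  have h3 := ((hasFDerivAt_const a₀ e).add h1).add h2
  rwa [zero_add] at h3

/-- TARGET -/
theorem red_derivs (f : F → ℝ) (a₀ : F) (hf : AnalyticAt ℝ f a₀) (K : Submodule ℝ F) (h : K → Kᗮ)
    (hh : AnalyticAt ℝ h 0) (h0 : h 0 = 0)
    (hN : ∀ᶠ e : K in 𝓝 0, ∀ v ∈ Kᗮ, fderiv ℝ f (a₀ + (e : F) + (h e : F)) v = 0) :
    ∀ᶠ e : K in 𝓝 0,
      (∀ v, fderiv ℝ (fun e : K => f (a₀ + (e : F) + (h e : F))) e v =
        fderiv ℝ f (a₀ + (e : F) + (h e : F)) (v : F)) ∧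
      (∀ v : K, ∀ w ∈ Kᗮ, fderiv ℝ (fderiv ℝ f) (a₀ + (e : F) + (h e : F))
        ((v : F) + (fderiv ℝ h e v : F)) w = 0) ∧
      (∀ u v, fderiv ℝ (fderiv ℝ (fun e : K => f (a₀ + (e : F) + (h e : F)))) e u v =
        fderiv ℝ (fderiv ℝ f) (a₀ + (e : F) + (h e : F)) ((u : F) + (fderiv ℝ h e u : F))
          ((v : F) + (fderiv ℝ h e v : F))) ∧
      (∀ v, fderiv ℝ (fderiv ℝ (fderiv ℝ (fun e : K => f (a₀ + (e : F) + (h e : F))))) e v v v =
        fderiv ℝ (fderiv ℝ (fderiv ℝ f)) (a₀ + (e : F) + (h e : F)) ((v : F) + (fderiv ℝ h e v : F))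
          ((v : F) + (fderiv ℝ h e v : F)) ((v : F) + (fderiv ℝ h e v : F))) := by
  have hcF : CompleteSpace F := FiniteDimensional.complete ℝ F
  have hcK : CompleteSpace Kᗮ := FiniteDimensional.complete ℝ Kᗮ
  set ψ : K → F := fun e => a₀ + (e : F) + (h e : F) with hψ
  set D : K → (K →L[ℝ] F) := fun e => K.subtypeL + Kᗮ.subtypeL.comp (fderiv ℝ h e) with hD
  have hDv : ∀ e v, D e v = (v : F) + (fderiv ℝ h e v : F) := fun e v => rfl
  have hψ0 : ψ 0 = a₀ := by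
    simp only [hψ, h0]
    simp
  -- the good points
  set P : K → Prop := fun e => AnalyticAt ℝ h e ∧ AnalyticAt ℝ f (ψ e) ∧
    ∀ v ∈ Kᗮ, fderiv ℝ f (ψ e) v = 0 with hP
  have hψd : ∀ e, AnalyticAt ℝ h e → HasFDerivAt ψ (D e) e := fun e he =>
    red_derivs_psi a₀ K h e he.differentiableAt
  have hPev : ∀ᶠ e in 𝓝 0, P e := by
    have h1 := hh.eventually_analyticAt
    have h2 : ∀ᶠ e in 𝓝 (0 : K), AnalyticAt ℝ f (ψ e) := by
      have h3 := (hψd 0 hh).continuousAt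
      rw [ContinuousAt, hψ0] at h3
      exact h3.eventually hf.eventually_analyticAt
    filter_upwards [h1, h2, hN] with e h1 h2 h3
    exact ⟨h1, h2, h3⟩
  -- the derivative of the gradient along the graph
  have hG : ∀ e, P e → HasFDerivAt (fun e => fderiv ℝ f (ψ e))
      ((fderiv ℝ (fderiv ℝ f) (ψ e)).comp (D e)) e := by
    intro e he
    have h1 : DifferentiableAt ℝ (fderiv ℝ f) (ψ e) := he.2.1.fderiv.differentiableAt
    exact h1.hasFDerivAt.comp e (hψd e he.1)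
  have h1 : ∀ e, P e → ∀ v, fderiv ℝ (fun e => f (ψ e)) e v = fderiv ℝ f (ψ e) (v : F) := by
    intro e he v
    have h2 : HasFDerivAt (fun e => f (ψ e)) ((fderiv ℝ f (ψ e)).comp (D e)) e :=
      he.2.1.differentiableAt.hasFDerivAt.comp e (hψd e he.1)
    rw [h2.fderiv, ContinuousLinearMap.comp_apply, hDv, map_add, he.2.2 _ (fderiv ℝ h e v).2,
      add_zero]
  have h2 : ∀ e, P e → (∀ᶠ e' in 𝓝 e, P e') → ∀ v : K, ∀ w ∈ Kᗮ,
      fderiv ℝ (fderiv ℝ f) (ψ e) (D e v) w = 0 := by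
    intro e he hev v w hw
    have h3 : HasFDerivAt (fun e => fderiv ℝ f (ψ e) w)
        (((fderiv ℝ (fderiv ℝ f) (ψ e)).comp (D e)).flip w) e := by
      have := (hG e he).clm_apply (hasFDerivAt_const w e)
      simpa using this
    have h4 : (fun e => fderiv ℝ f (ψ e) w) =ᶠ[𝓝 e] fun _ => (0 : ℝ) := by
      filter_upwards [hev] with e' he'
      exact he'.2.2 w hw
    have h5 := (h3.congr_of_eventuallyEq h4.symm).unique (hasFDerivAt_const (0 : ℝ) e)
    have h6 := congrArg (fun T : K →L[ℝ] ℝ => T v) h5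
    exact h6
  have h3 : ∀ e, P e → (∀ᶠ e' in 𝓝 e, P e') → ∀ u v : K,
      fderiv ℝ (fderiv ℝ (fun e => f (ψ e))) e u v =
        fderiv ℝ (fderiv ℝ f) (ψ e) (D e u) (D e v) := by
    intro e he hev u v
    have h4 : (fderiv ℝ fun e => f (ψ e)) =ᶠ[𝓝 e] fun e => (fderiv ℝ f (ψ e)).comp K.subtypeL := by
      filter_upwards [hev] with e' he'
      ext v
      rw [h1 e' he' v]
      rfl
    have h5 : HasFDerivAt (fun e => (fderiv ℝ f (ψ e)).comp K.subtypeL)
        ((ContinuousLinearMap.compL ℝ K F ℝ).flip K.subtypeL ∘L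
          ((fderiv ℝ (fderiv ℝ f) (ψ e)).comp (D e))) e :=
      ((ContinuousLinearMap.compL ℝ K F ℝ).flip K.subtypeL).hasFDerivAt.comp e (hG e he)
    rw [h4.fderiv_eq, h5.fderiv]
    have h6 := h2 e he hev u _ (fderiv ℝ h e v).2
    rw [hDv e v, map_add, h6, add_zero]
    rfl
  have h4 : ∀ e, P e → (∀ᶠ e' in 𝓝 e, P e') → (∀ᶠ e' in 𝓝 e, ∀ᶠ e'' in 𝓝 e', P e'') → ∀ v : K,
      fderiv ℝ (fderiv ℝ (fderiv ℝ (fun e => f (ψ e)))) e v v v =
        fderiv ℝ (fderiv ℝ (fderiv ℝ f)) (ψ e) (D e v) (D e v) (D e v) := by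
    intro e he hev hev2 v
    -- the left hand side is a directional derivative
    have hψa : AnalyticAt ℝ ψ e := by
      have a1 : AnalyticAt ℝ (fun e : K => (e : F)) e := K.subtypeL.analyticAt e
      have a2 : AnalyticAt ℝ (fun e : K => (h e : F)) e :=
        (Kᗮ.subtypeL.analyticAt (h e)).comp he.1
      exact (analyticAt_const.add a1).add a2
    have hga : AnalyticAt ℝ (fun e => f (ψ e)) e := he.2.1.comp hψa
    have hg2 : DifferentiableAt ℝ (fderiv ℝ (fderiv ℝ (fun e => f (ψ e)))) e :=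
      hga.fderiv.fderiv.differentiableAt
    obtain ⟨T, hg3, hTv⟩ : ∃ T : K →L[ℝ] ℝ,
        HasFDerivAt (fun e' => fderiv ℝ (fderiv ℝ (fun e => f (ψ e))) e' v v) T e ∧
        T v = fderiv ℝ (fderiv ℝ (fderiv ℝ (fun e => f (ψ e)))) e v v v :=
      ⟨_, (hg2.hasFDerivAt.clm_apply (hasFDerivAt_const v e)).clm_apply (hasFDerivAt_const v e),
        by simp⟩
    -- the right hand side
    have hB : HasFDerivAt (fun e' => fderiv ℝ (fderiv ℝ f) (ψ e'))
        ((fderiv ℝ (fderiv ℝ (fderiv ℝ f)) (ψ e)).comp (D e)) e := by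
      have b1 : DifferentiableAt ℝ (fderiv ℝ (fderiv ℝ f)) (ψ e) :=
        he.2.1.fderiv.fderiv.differentiableAt
      have b2 := b1.hasFDerivAt
      exact HasFDerivAt.comp (g := fderiv ℝ (fderiv ℝ f)) (f := ψ) e b2 (hψd e he.1)
    have hq : HasFDerivAt (fun e' => D e' v)
        (Kᗮ.subtypeL.comp ((fderiv ℝ (fderiv ℝ h) e).flip v)) e := by
      have c1 : DifferentiableAt ℝ (fderiv ℝ h) e := he.1.fderiv.differentiableAt
      have c2 : HasFDerivAt (fun e' => fderiv ℝ h e' v) ((fderiv ℝ (fderiv ℝ h) e).flip v) e := by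
        have := c1.hasFDerivAt.clm_apply (hasFDerivAt_const v e)
        simpa using this
      have c3 := (hasFDerivAt_const (v : F) e).add (Kᗮ.subtypeL.hasFDerivAt.comp e c2)
      rw [zero_add] at c3
      exact c3
    have hR := (hB.clm_apply hq).clm_apply hq
    have h5 : (fun e' => fderiv ℝ (fderiv ℝ (fun e => f (ψ e))) e' v v) =ᶠ[𝓝 e]
        fun e' => fderiv ℝ (fderiv ℝ f) (ψ e') (D e' v) (D e' v) := by
      filter_upwards [hev, hev2] with e' he' hev'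
      exact h3 e' he' hev' v v
    have h6 := (hg3.congr_of_eventuallyEq h5.symm).unique hR
    have h7 := congrArg (fun T : K →L[ℝ] ℝ => T v) h6
    have hsym : IsSymmSndFDerivAt ℝ f (ψ e) :=
      he.2.1.contDiffAt.isSymmSndFDerivAt (n := 2) (by simp)
    have h8 := h2 e he hev v _ (fderiv ℝ (fderiv ℝ h) e v v).2
    have h9 : fderiv ℝ (fderiv ℝ f) (ψ e) (fderiv ℝ (fderiv ℝ h) e v v : F) (D e v) = 0 := by
      rw [hsym.eq]
      exact h8
    have h10 : fderiv ℝ (fderiv ℝ (fderiv ℝ (fun e => f (ψ e)))) e v v v =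
        fderiv ℝ (fderiv ℝ f) (ψ e) (D e v) (fderiv ℝ (fderiv ℝ h) e v v : F) +
        (fderiv ℝ (fderiv ℝ f) (ψ e) (fderiv ℝ (fderiv ℝ h) e v v : F) (D e v) +
          fderiv ℝ (fderiv ℝ (fderiv ℝ f)) (ψ e) (D e v) (D e v) (D e v)) := by
      rw [← hTv]
      exact h7
    rw [h10, h8, h9, zero_add, zero_add]
  have hPev2 := hPev.eventually_nhds
  have hPev3 := hPev2.eventually_nhds
  filter_upwards [hPev, hPev2, hPev3] with e e1 e2 e3
  exact ⟨h1 e e1, h2 e e1 e2, h3 e e1 e2, h4 e e1 e2 e3⟩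

end

end Pool.Agent.H469

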