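import Mathlib

set_option autoImplicit false

open Set Filter Topology MeasureTheory
open scoped ContDiff InnerProductSpace

namespace Pool.Agent.H469


/-! PLAIN PROOF OF THE TARGET(S)

Let N = K^⊥.  M(τ) = A j - τ G j.  A0 maps N bijectively to N (symmetric, kernel K), so the compression P_N M(τ)|_N : N → N is invertible for j
large and |τ| < δ with inverse bounded by a constant (openness of invertible operators, uniformly: ‖A j - A0‖, |τ|‖G j‖ small).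
For v ∈ K put nn(v) := -(P_N M|_N)^{-1} P_N M (Jm j v) ∈ N.  Since P_N A j Jm j v = 0 (hAJ), P_N M Jm v = -τ P_N G Jm v, so
nn(v) = τ (P_N M|_N)^{-1} P_N G j Jm j v, of norm ≤ C|τ||v|.  By construction P_N M(Jm v + nn v) = 0.  Define S j τ v := P_K M(Jm v + nn v) ∈ K.
So <S v, v'> = <M(Jm v + nn v), v'> = <M(Jm v + nn v), Jm v' + nn v'> for v' ∈ K (the difference Jm v' - v' + nn v' is in N): symmetric in v, v'.
Kernel: u with M u = 0; v := P_K u; u - Jm v ∈ N (as Jm v - v ∈ N), and P_N M u = 0 forces u - Jm v = nn v (uniqueness), then S v = P_K M u = 0.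
Conversely if S v = 0 then M(Jm v + nn v) has zero K- and N-components.
Continuity of τ ↦ S j τ on (-δ,δ): inverse of a continuous family of invertible operators.
Last: <S u, v> = <M(Jm u + nn u), Jm v> = <A Jm u, Jm v> + <A nn u, Jm v> - τ<G Jm u, Jm v> - τ <G nn u, Jm v>; the second term is
<nn u, A Jm v> = 0; the third is -τ(<u,v> + o(1)|u||v|) as j → ∞ (G j → 1, Jm j → inclusion); the last is O(τ²)|u||v|.
-/

section
variable {F : Type} [NormedAddCommGroup F] [InnerProductSpace ℝ F] [FiniteDimensional ℝ F]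

theorem schur_lim {E F : Type} [NormedAddCommGroup E] [NormedSpace ℝ E] [NormedAddCommGroup F] [NormedSpace ℝ F]
    (J : ℕ → E →L[ℝ] F) (J0 : E →L[ℝ] F) (h : Tendsto J atTop (𝓝 J0)) :
    Tendsto (fun j => ‖J j - J0‖) atTop (𝓝 0) := by
  have h2 := (h.sub_const J0).norm
  simpa using h2

theorem schur_lim2 {E F : Type} [NormedAddCommGroup E] [NormedSpace ℝ E] [NormedAddCommGroup F] [NormedSpace ℝ F]
    (J : ℕ → E →L[ℝ] F) (J0 : E →L[ℝ] F) (h : Tendsto J atTop (𝓝 J0)) :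
    ∀ᶠ j in atTop, ‖J j‖ < ‖J0‖ + 1 :=
  h.norm.eventually (gt_mem_nhds (lt_add_one _))

theorem schur_lim3 {E F : Type} [NormedAddCommGroup E] [NormedSpace ℝ E] [NormedAddCommGroup F] [NormedSpace ℝ F]
    (J : ℕ → E →L[ℝ] F) (J0 : E →L[ℝ] F) (h : Tendsto J atTop (𝓝 J0)) (G : ℕ → F →L[ℝ] F)
    (hG : Tendsto G atTop (𝓝 (ContinuousLinearMap.id ℝ F))) :
    Tendsto (fun j => ‖(G j ∘L J j) - J0‖) atTop (𝓝 0) := by
  have h1 : Tendsto (fun j => (G j ∘L J j)) atTop (𝓝 ((ContinuousLinearMap.id ℝ F) ∘L J0)) := by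
    have hc : Continuous (fun p : (F →L[ℝ] F) × (E →L[ℝ] F) => p.1 ∘L p.2) := by fun_prop
    exact (hc.tendsto (ContinuousLinearMap.id ℝ F, J0)).comp (hG.prodMk_nhds h)
  rw [ContinuousLinearMap.id_comp] at h1
  exact schur_lim _ _ h1

theorem schur_norm {E F : Type} [NormedAddCommGroup E] [NormedSpace ℝ E] [NormedAddCommGroup F] [NormedSpace ℝ F]
    (J : E →L[ℝ] F) (L : F →L[ℝ] F) (τ : ℝ) : ‖τ • (L ∘L J)‖ ≤ |τ| * (‖L‖ * ‖J‖) := by
  rw [norm_smul, Real.norm_eq_abs]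
  exact mul_le_mul_of_nonneg_left (ContinuousLinearMap.opNorm_comp_le _ _) (abs_nonneg _)

/-- the compressed operator, made invertible by adding the projection to the kernel -/
noncomputable def schur_T (K : Submodule ℝ F) (M : F →L[ℝ] F) : F →L[ℝ] F :=
  (1 - K.starProjection) * M * (1 - K.starProjection) + K.starProjection

noncomputable def schur_nn (K : Submodule ℝ F) (A G : F →L[ℝ] F) (J : K →L[ℝ] F) (τ : ℝ) : K →L[ℝ] F :=
  τ • ((Ring.inverse (schur_T K (A - τ • G)) * (1 - K.starProjection) * G) ∘L J)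

noncomputable def schur_S (K : Submodule ℝ F) (A G : F →L[ℝ] F) (J : K →L[ℝ] F) (τ : ℝ) : K →L[ℝ] K :=
  K.orthogonalProjectionOnto ∘L ((A - τ • G) ∘L (J + schur_nn K A G J τ))

theorem schur_Q_eq_self (K : Submodule ℝ F) {x : F} (hx : x ∈ Kᗮ) : (1 - K.starProjection) x = x := by
  have : K.starProjection x = 0 := K.starProjection_apply_eq_zero_iff.2 hx
  simp [this]

theorem schur_Q_mem (K : Submodule ℝ F) (x : F) : (1 - K.starProjection) x ∈ Kᗮ := by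
  simp

theorem schur_Q_zero_iff (K : Submodule ℝ F) (x : F) : (1 - K.starProjection) x = 0 ↔ x ∈ K := by
  have h : (1 - K.starProjection) x = x - K.starProjection x := by simp
  rw [h, sub_eq_zero, eq_comm, K.starProjection_eq_self_iff]

theorem schur_T_nn (K : Submodule ℝ F) (A G : F →L[ℝ] F) (J : K →L[ℝ] F) (τ : ℝ)
    (hT : IsUnit (schur_T K (A - τ • G))) (v : K) :
    schur_T K (A - τ • G) (schur_nn K A G J τ v) = τ • (1 - K.starProjection) (G (J v)) := by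
  have h1 := Ring.mul_inverse_cancel _ hT
  have h2 : ∀ x, schur_T K (A - τ • G) (Ring.inverse (schur_T K (A - τ • G)) x) = x := by
    intro x
    have := congrArg (fun L : F →L[ℝ] F => L x) h1
    simpa using this
  have h3 : schur_nn K A G J τ v = τ • (Ring.inverse (schur_T K (A - τ • G)))
      ((1 - K.starProjection) (G (J v))) := by
    simp [schur_nn]
  rw [h3, map_smul, h2]

theorem schur_PT (K : Submodule ℝ F) (M : F →L[ℝ] F) (x : F) :
    K.starProjection (schur_T K M x) = K.starProjection x := by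
  have h1 : K.starProjection ((1 - K.starProjection) (M ((1 - K.starProjection) x))) = 0 :=
    K.starProjection_apply_eq_zero_iff.2 (schur_Q_mem K _)
  have h2 : schur_T K M x = (1 - K.starProjection) (M ((1 - K.starProjection) x)) + K.starProjection x := by
    simp [schur_T]
  rw [h2, map_add, h1, zero_add]
  exact K.starProjection_eq_self_iff.2 (K.starProjection_apply_mem x)

theorem schur_nn_mem (K : Submodule ℝ F) (A G : F →L[ℝ] F) (J : K →L[ℝ] F) (τ : ℝ)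
    (hT : IsUnit (schur_T K (A - τ • G))) (v : K) :
    schur_nn K A G J τ v ∈ Kᗮ := by
  rw [← K.starProjection_apply_eq_zero_iff, ← schur_PT K (A - τ • G), schur_T_nn K A G J τ hT v, map_smul,
    K.starProjection_apply_eq_zero_iff.2 (schur_Q_mem K _), smul_zero]

theorem schur_T_of_mem (K : Submodule ℝ F) (M : F →L[ℝ] F) {x : F} (hx : x ∈ Kᗮ) :
    schur_T K M x = (1 - K.starProjection) (M x) := by
  have h2 : schur_T K M x = (1 - K.starProjection) (M ((1 - K.starProjection) x)) + K.starProjection x := by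
    simp [schur_T]
  rw [h2, schur_Q_eq_self K hx, K.starProjection_apply_eq_zero_iff.2 hx, add_zero]

theorem schur_AJ_mem (K : Submodule ℝ F) (A : F →L[ℝ] F) (J : K →L[ℝ] F)
    (hAJ : ∀ v : K, ∀ w ∈ Kᗮ, ⟪A (J v), w⟫_ℝ = 0) (v : K) : A (J v) ∈ K := by
  have h : A (J v) ∈ Kᗮᗮ := (Submodule.mem_orthogonal' _ _).2 (hAJ v)
  rwa [K.orthogonal_orthogonal] at h

theorem schur_M_mem (K : Submodule ℝ F) (A G : F →L[ℝ] F) (J : K →L[ℝ] F) (τ : ℝ)
    (hAJ : ∀ v : K, ∀ w ∈ Kᗮ, ⟪A (J v), w⟫_ℝ = 0)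
    (hT : IsUnit (schur_T K (A - τ • G))) (v : K) :
    (A - τ • G) (J v + schur_nn K A G J τ v) ∈ K := by
  have h1 := schur_T_nn K A G J τ hT v
  rw [schur_T_of_mem K _ (schur_nn_mem K A G J τ hT v)] at h1
  have h2 := (schur_Q_zero_iff K _).2 (schur_AJ_mem K A J hAJ v)
  rw [← schur_Q_zero_iff, map_add, map_add, h1]
  have h3 : (A - τ • G) (J v) = A (J v) - τ • G (J v) := by simp
  rw [h3, map_sub, h2, map_smul]
  simp

theorem schur_inner_S (K : Submodule ℝ F) (A G : F →L[ℝ] F) (J : K →L[ℝ] F) (τ : ℝ)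
    (hAJ : ∀ v : K, ∀ w ∈ Kᗮ, ⟪A (J v), w⟫_ℝ = 0)
    (hJK : ∀ v : K, J v - (v : F) ∈ Kᗮ)
    (hT : IsUnit (schur_T K (A - τ • G))) (u v : K) :
    ⟪schur_S K A G J τ u, v⟫_ℝ = ⟪(A - τ • G) (J u + schur_nn K A G J τ u), J v⟫_ℝ := by
  have h0 : ⟪schur_S K A G J τ u, v⟫_ℝ = ⟪(A - τ • G) (J u + schur_nn K A G J τ u), (v : F)⟫_ℝ := by
    rw [← K.inner_orthogonalProjectionOnto_eq_of_mem_right v]
    rfl
  have h1 := schur_M_mem K A G J τ hAJ hT u
  have h2 : ⟪(A - τ • G) (J u + schur_nn K A G J τ u), J v - (v : F)⟫_ℝ = 0 :=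
    Submodule.inner_right_of_mem_orthogonal h1 (hJK v)
  rw [h0, ← sub_eq_zero, ← inner_sub_right]
  rw [← neg_eq_zero, ← inner_neg_right, neg_sub]
  exact h2

theorem schur_symm (K : Submodule ℝ F) (A G : F →L[ℝ] F) (J : K →L[ℝ] F) (τ : ℝ)
    (hAs : ∀ u v, ⟪A u, v⟫_ℝ = ⟪u, A v⟫_ℝ) (hGs : ∀ u v, ⟪G u, v⟫_ℝ = ⟪u, G v⟫_ℝ)
    (hAJ : ∀ v : K, ∀ w ∈ Kᗮ, ⟪A (J v), w⟫_ℝ = 0)
    (hJK : ∀ v : K, J v - (v : F) ∈ Kᗮ)
    (hT : IsUnit (schur_T K (A - τ • G))) (u v : K) :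
    ⟪schur_S K A G J τ u, v⟫_ℝ = ⟪u, schur_S K A G J τ v⟫_ℝ := by
  have key : ∀ u v : K, ⟪schur_S K A G J τ u, v⟫_ℝ
      = ⟪(A - τ • G) (J u + schur_nn K A G J τ u), J v + schur_nn K A G J τ v⟫_ℝ := by
    intro u v
    rw [schur_inner_S K A G J τ hAJ hJK hT u v, inner_add_right]
    have h1 := schur_M_mem K A G J τ hAJ hT u
    have h2 : ⟪(A - τ • G) (J u + schur_nn K A G J τ u), schur_nn K A G J τ v⟫_ℝ = 0 :=
      Submodule.inner_right_of_mem_orthogonal h1 (schur_nn_mem K A G J τ hT v)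
    rw [h2, add_zero]
  rw [key u v, real_inner_comm (schur_S K A G J τ v) u, key v u, real_inner_comm]
  have hM : ∀ x y, ⟪(A - τ • G) x, y⟫_ℝ = ⟪x, (A - τ • G) y⟫_ℝ := by
    intro x y
    have h : ∀ z, (A - τ • G) z = A z - τ • G z := by intro z; simp
    simp only [h, inner_sub_left,
      inner_sub_right, real_inner_smul_left, real_inner_smul_right, hAs, hGs]
  rw [hM]

theorem schur_kernel (K : Submodule ℝ F) (A G : F →L[ℝ] F) (J : K →L[ℝ] F) (τ : ℝ)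
    (hAJ : ∀ v : K, ∀ w ∈ Kᗮ, ⟪A (J v), w⟫_ℝ = 0)
    (hJK : ∀ v : K, J v - (v : F) ∈ Kᗮ)
    (hT : IsUnit (schur_T K (A - τ • G))) (u : F) :
    A u - τ • G u = 0 ↔ ∃ v : K, u = J v + schur_nn K A G J τ v ∧ schur_S K A G J τ v = 0 := by
  have hM : ∀ z, (A - τ • G) z = A z - τ • G z := by intro z; simp
  constructor
  · intro hu
    have hu' : (A - τ • G) u = 0 := by rw [hM, hu]
    set v : K := K.orthogonalProjectionOnto u with hv
    have heq : u = J v + schur_nn K A G J τ v := by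
      have hPu : u - (v : F) ∈ Kᗮ := by
        have := K.sub_starProjection_mem_orthogonal u
        rwa [K.starProjection_apply] at this
      set w : F := u - (J v + schur_nn K A G J τ v) with hw
      have hwm : w ∈ Kᗮ := by
        have : w = (u - (v : F)) - (J v - (v : F)) - schur_nn K A G J τ v := by
          rw [hw]; abel
        rw [this]
        exact Submodule.sub_mem _ (Submodule.sub_mem _ hPu (hJK v)) (schur_nn_mem K A G J τ hT v)
      have hQM : (1 - K.starProjection) ((A - τ • G) w) = 0 := by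
        rw [hw, map_sub, hu', zero_sub, map_neg,
          (schur_Q_zero_iff K _).2 (schur_M_mem K A G J τ hAJ hT v), neg_zero]
      have hTw : schur_T K (A - τ • G) w = 0 := by
        rw [schur_T_of_mem K _ hwm, hQM]
      have h1 := Ring.inverse_mul_cancel _ hT
      have h2 : Ring.inverse (schur_T K (A - τ • G)) (schur_T K (A - τ • G) w) = w := by
        have := congrArg (fun L : F →L[ℝ] F => L w) h1
        simpa using this
      rw [hTw, map_zero] at h2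
      rw [hw] at h2
      exact (sub_eq_zero.1 h2.symm)
    refine ⟨v, heq, ?_⟩
    have h0 : schur_S K A G J τ v
        = K.orthogonalProjectionOnto ((A - τ • G) (J v + schur_nn K A G J τ v)) := rfl
    rw [h0, ← heq, hu', map_zero]
  · rintro ⟨v, rfl, hv⟩
    have h1 := schur_M_mem K A G J τ hAJ hT v
    rw [← hM]
    have h2 : K.orthogonalProjectionOnto ((A - τ • G) (J v + schur_nn K A G J τ v)) = 0 := hv
    rw [K.orthogonalProjectionOnto_eq_zero_iff] at h2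
    have h3 : ⟪(A - τ • G) (J v + schur_nn K A G J τ v), (A - τ • G) (J v + schur_nn K A G J τ v)⟫_ℝ = 0 :=
      Submodule.inner_right_of_mem_orthogonal h1 h2
    exact inner_self_eq_zero.1 h3

/-- TARGET -/
theorem schur (K : Submodule ℝ F) (A₀ : F →L[ℝ] F) (hA₀ : ∀ u v, ⟪A₀ u, v⟫_ℝ = ⟪u, A₀ v⟫_ℝ)
    (hK : ∀ k, k ∈ K ↔ A₀ k = 0)
    (A G : ℕ → F →L[ℝ] F) (Jm : ℕ → K →L[ℝ] F) (hA : Tendsto A atTop (𝓝 A₀))
    (hG : Tendsto G atTop (𝓝 (ContinuousLinearMap.id ℝ F))) (hJ : Tendsto Jm atTop (𝓝 K.subtypeL))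
    (hAs : ∀ j, ∀ u v, ⟪A j u, v⟫_ℝ = ⟪u, A j v⟫_ℝ) (hGs : ∀ j, ∀ u v, ⟪G j u, v⟫_ℝ = ⟪u, G j v⟫_ℝ)
    (hJK : ∀ j, ∀ v : K, Jm j v - (v : F) ∈ Kᗮ) (hAJ : ∀ j, ∀ v : K, ∀ w ∈ Kᗮ, ⟪A j (Jm j v), w⟫_ℝ = 0) :
    ∃ (δ C : ℝ) (nn : ℕ → ℝ → K →L[ℝ] F) (S : ℕ → ℝ → K →L[ℝ] K), 0 < δ ∧ 0 < C ∧
      (∀ᶠ j in atTop, ∀ τ, |τ| < δ →
        ‖nn j τ‖ ≤ C * |τ| ∧
        (∀ u v, ⟪S j τ u, v⟫_ℝ = ⟪u, S j τ v⟫_ℝ) ∧
        (∀ u : F, A j u - τ • G j u = 0 ↔ ∃ v : K, u = Jm j v + nn j τ v ∧ S j τ v = 0)) ∧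
      (∀ᶠ j in atTop, ContinuousOn (S j) (Ioo (-δ) δ)) ∧
      (∀ ε > 0, ∃ δ' > 0, ∀ᶠ j in atTop, ∀ τ, |τ| < δ' → ∀ u v : K,
        |⟪S j τ u, v⟫_ℝ - (⟪A j (Jm j u), Jm j v⟫_ℝ - τ * ⟪u, v⟫_ℝ)| ≤ ε * |τ| * ‖u‖ * ‖v‖) := by
  -- the limit operator is invertible
  have hT0 : IsUnit (schur_T K A₀) := by
    have hinj : ∀ x, schur_T K A₀ x = 0 → x = 0 := by
      intro x hx
      have hP : K.starProjection x = 0 := by rw [← schur_PT K A₀ x, hx, map_zero]
      have hxN : x ∈ Kᗮ := K.starProjection_apply_eq_zero_iff.1 hP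
      rw [schur_T_of_mem K A₀ hxN, schur_Q_zero_iff] at hx
      have h1 : A₀ x ∈ Kᗮ := by
        rw [Submodule.mem_orthogonal']
        intro k hk
        rw [hA₀, (hK k).1 hk, inner_zero_right]
      have h2 : ⟪A₀ x, A₀ x⟫_ℝ = 0 := Submodule.inner_right_of_mem_orthogonal hx h1
      have h3 : A₀ x = 0 := inner_self_eq_zero.1 h2
      have h4 : x ∈ K := (hK x).2 h3
      have h5 : ⟪x, x⟫_ℝ = 0 := Submodule.inner_right_of_mem_orthogonal h4 hxN
      exact inner_self_eq_zero.1 h5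
    have hinj' : Function.Injective (schur_T K A₀ : F →ₗ[ℝ] F) := by
      rw [← LinearMap.ker_eq_bot, LinearMap.ker_eq_bot']
      intro x hx
      exact hinj x hx
    let e := LinearEquiv.ofInjectiveEndo (schur_T K A₀ : F →ₗ[ℝ] F) hinj'
    let e' := e.toContinuousLinearEquiv
    have he' : (e' : F →L[ℝ] F) = schur_T K A₀ := by
      ext x; rfl
    rw [← he']
    exact ⟨ContinuousLinearEquiv.toUnit e', rfl⟩
  obtain ⟨U0, hU0⟩ := hT0
  -- joint convergence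
  have hTt : Tendsto (fun p : ℕ × ℝ => schur_T K (A p.1 - p.2 • G p.1)) (atTop ×ˢ 𝓝 (0:ℝ))
      (𝓝 (U0 : F →L[ℝ] F)) := by
    rw [hU0]
    have h1 : Tendsto (fun p : ℕ × ℝ => A p.1 - p.2 • G p.1) (atTop ×ˢ 𝓝 (0:ℝ)) (𝓝 A₀) := by
      have ha : Tendsto (fun p : ℕ × ℝ => A p.1) (atTop ×ˢ 𝓝 (0:ℝ)) (𝓝 A₀) := hA.comp tendsto_fst
      have hg : Tendsto (fun p : ℕ × ℝ => G p.1) (atTop ×ˢ 𝓝 (0:ℝ)) (𝓝 (ContinuousLinearMap.id ℝ F)) :=
        hG.comp tendsto_fst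
      have ht : Tendsto (fun p : ℕ × ℝ => p.2) ((atTop : Filter ℕ) ×ˢ 𝓝 (0:ℝ)) (𝓝 0) := tendsto_snd
      have := ha.sub (ht.smul hg)
      simpa using this
    have h2 : Continuous (fun M : F →L[ℝ] F => schur_T K M) := by
      unfold schur_T
      fun_prop
    exact (h2.tendsto A₀).comp h1
  have hev : ∀ᶠ p : ℕ × ℝ in (atTop ×ˢ 𝓝 (0:ℝ)),
      IsUnit (schur_T K (A p.1 - p.2 • G p.1)) ∧
      ‖Ring.inverse (schur_T K (A p.1 - p.2 • G p.1))‖ < ‖Ring.inverse (U0 : F →L[ℝ] F)‖ + 1 := by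
    have h1 : ∀ᶠ T in 𝓝 (U0 : F →L[ℝ] F), IsUnit T := Units.isOpen.mem_nhds ⟨U0, rfl⟩
    have h2 : ∀ᶠ T in 𝓝 (U0 : F →L[ℝ] F), ‖Ring.inverse T‖ < ‖Ring.inverse (U0 : F →L[ℝ] F)‖ + 1 :=
      (NormedRing.inverse_continuousAt U0).norm.eventually (gt_mem_nhds (lt_add_one _))
    exact hTt.eventually (h1.and h2)
  obtain ⟨pa, hpa, pb, hpb, hpp⟩ := (eventually_prod_iff.1 hev)
  obtain ⟨δ, hδ, hδ'⟩ := Metric.eventually_nhds_iff.1 hpb
  have hGb : ∀ᶠ j in atTop, ‖G j‖ < ‖ContinuousLinearMap.id ℝ F‖ + 1 :=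
    hG.norm.eventually (gt_mem_nhds (lt_add_one _))
  have hJb : ∀ᶠ j in atTop, ‖Jm j‖ < ‖K.subtypeL‖ + 1 := schur_lim2 Jm K.subtypeL hJ
  set R : ℝ := ‖Ring.inverse (U0 : F →L[ℝ] F)‖ + 1 with hR
  set g : ℝ := ‖ContinuousLinearMap.id ℝ F‖ + 1 with hg
  set i : ℝ := ‖K.subtypeL‖ + 1 with hi
  have hRp : 0 < R := by positivity
  have hgp : 0 < g := by positivity
  have hip : 0 < i := by positivity
  set C : ℝ := R * ‖(1 - K.starProjection : F →L[ℝ] F)‖ * g * i + 1 with hC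
  have hCp : 0 < C := by positivity
  have hnn : ∀ᶠ j in atTop, ∀ τ, |τ| < δ → ‖schur_nn K (A j) (G j) (Jm j) τ‖ ≤ C * |τ| := by
    filter_upwards [hpa, hGb, hJb] with j h1 h2 h3 τ hτ
    have h4 := (hpp h1 (hδ' (show dist τ 0 < δ by simpa using hτ))).2
    have e1 : ‖schur_nn K (A j) (G j) (Jm j) τ‖ ≤ |τ| *
        (‖Ring.inverse (schur_T K (A j - τ • G j))‖ * ‖(1 - K.starProjection : F →L[ℝ] F)‖ * ‖G j‖ * ‖Jm j‖) := by
      unfold schur_nn
      refine (schur_norm _ _ _).trans ?_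
      refine mul_le_mul_of_nonneg_left ?_ (abs_nonneg _)
      refine mul_le_mul_of_nonneg_right ?_ (norm_nonneg _)
      refine (norm_mul_le _ _).trans ?_
      refine mul_le_mul_of_nonneg_right ?_ (norm_nonneg _)
      exact norm_mul_le _ _
    have e2 : ‖Ring.inverse (schur_T K (A j - τ • G j))‖ * ‖(1 - K.starProjection : F →L[ℝ] F)‖ * ‖G j‖ * ‖Jm j‖
        ≤ C := by
      have : ‖Ring.inverse (schur_T K (A j - τ • G j))‖ * ‖(1 - K.starProjection : F →L[ℝ] F)‖ * ‖G j‖ * ‖Jm j‖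
          ≤ R * ‖(1 - K.starProjection : F →L[ℝ] F)‖ * g * i := by
        gcongr
      linarith
    calc _ ≤ _ := e1
      _ ≤ |τ| * C := mul_le_mul_of_nonneg_left e2 (abs_nonneg _)
      _ = C * |τ| := mul_comm _ _
  refine ⟨δ, C, fun j τ => schur_nn K (A j) (G j) (Jm j) τ, fun j τ => schur_S K (A j) (G j) (Jm j) τ,
    hδ, hCp, ?_, ?_, ?_⟩
  · filter_upwards [hpa, hnn] with j h1 hn τ hτ
    have h4 := (hpp h1 (hδ' (show dist τ 0 < δ by simpa using hτ))).1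
    exact ⟨hn τ hτ, schur_symm K (A j) (G j) (Jm j) τ (hAs j) (hGs j) (hAJ j) (hJK j) h4,
      schur_kernel K (A j) (G j) (Jm j) τ (hAJ j) (hJK j) h4⟩
  · filter_upwards [hpa] with j h1
    have hM : Continuous (fun τ : ℝ => A j - τ • G j) := by fun_prop
    have h2 : Continuous (fun τ : ℝ => schur_T K (A j - τ • G j)) := by
      unfold schur_T
      fun_prop
    have hinv : ContinuousOn (fun τ : ℝ => Ring.inverse (schur_T K (A j - τ • G j))) (Ioo (-δ) δ) := by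
      intro τ hτ
      have h4 := (hpp h1 (hδ' (show dist τ 0 < δ by
        rw [Real.dist_eq, sub_zero]; exact abs_lt.2 ⟨hτ.1, hτ.2⟩))).1
      obtain ⟨U, hU⟩ := h4
      have h5 := NormedRing.inverse_continuousAt U
      rw [hU] at h5
      exact (ContinuousAt.comp (f := fun τ : ℝ => schur_T K (A j - τ • G j)) h5 h2.continuousAt).continuousWithinAt
    have hn : ContinuousOn (fun τ : ℝ => schur_nn K (A j) (G j) (Jm j) τ) (Ioo (-δ) δ) := by
      unfold schur_nn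
      fun_prop
    unfold schur_S
    fun_prop
  · intro ε hε
    set δ' : ℝ := min δ (ε / (2 * (g * C * i))) with hδ'd
    have hδ'p : 0 < δ' := lt_min hδ (by positivity)
    have hlim : Tendsto (fun j => ‖(G j ∘L Jm j) - K.subtypeL‖ * i + ‖K.subtypeL‖ * ‖Jm j - K.subtypeL‖) atTop
        (𝓝 0) := by
      have h2 : Tendsto (fun j => ‖(G j ∘L Jm j) - K.subtypeL‖) atTop (𝓝 0) :=
        schur_lim3 Jm K.subtypeL hJ G hG
      have h3 : Tendsto (fun j => ‖Jm j - K.subtypeL‖) atTop (𝓝 0) := schur_lim Jm K.subtypeL hJ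
      have := (h2.mul_const i).add (h3.const_mul ‖K.subtypeL‖)
      simpa using this
    have hlim' := hlim.eventually (gt_mem_nhds (show (0:ℝ) < ε / 2 by positivity))
    refine ⟨δ', hδ'p, ?_⟩
    filter_upwards [hpa, hnn, hGb, hJb, hlim'] with j h1 hn h2 h3 h5 τ hτ u v
    have hτδ : |τ| < δ := lt_of_lt_of_le hτ (min_le_left _ _)
    have h4 := (hpp h1 (hδ' (show dist τ 0 < δ by simpa using hτδ))).1
    have hn' := hn τ hτδ
    have hnm := schur_nn_mem K (A j) (G j) (Jm j) τ h4 u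
    have hAz : ⟪A j (schur_nn K (A j) (G j) (Jm j) τ u), Jm j v⟫_ℝ = 0 := by
      rw [hAs, real_inner_comm]
      exact hAJ j v _ hnm
    have hS := schur_inner_S K (A j) (G j) (Jm j) τ (hAJ j) (hJK j) h4 u v
    have hM : ∀ z, (A j - τ • G j) z = A j z - τ • G j z := by intro z; simp
    have e1 : ⟪schur_S K (A j) (G j) (Jm j) τ u, v⟫_ℝ - (⟪A j (Jm j u), Jm j v⟫_ℝ - τ * ⟪u, v⟫_ℝ)
        = -(τ * ((⟪((G j ∘L Jm j) - K.subtypeL) u, Jm j v⟫_ℝ + ⟪K.subtypeL u, (Jm j - K.subtypeL) v⟫_ℝ)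
          + ⟪G j (schur_nn K (A j) (G j) (Jm j) τ u), Jm j v⟫_ℝ)) := by
      rw [hS, map_add, hM, hM]
      have e2 : ((G j ∘L Jm j) - K.subtypeL) u = G j (Jm j u) - (u : F) := by simp
      have e3 : (Jm j - K.subtypeL) v = Jm j v - (v : F) := by simp
      have e4 : K.subtypeL u = (u : F) := rfl
      have e5 : ⟪u, v⟫_ℝ = ⟪(u : F), (v : F)⟫_ℝ := rfl
      rw [e2, e3, e4, e5]
      simp only [inner_add_left, inner_sub_left, inner_sub_right, real_inner_smul_left]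
      rw [hAz]
      ring
    rw [e1, abs_neg, abs_mul]
    have b1 : |⟪((G j ∘L Jm j) - K.subtypeL) u, Jm j v⟫_ℝ|
        ≤ (‖(G j ∘L Jm j) - K.subtypeL‖ * i) * (‖u‖ * ‖v‖) := by
      refine (abs_real_inner_le_norm _ _).trans ?_
      have c1 := ((G j ∘L Jm j) - K.subtypeL).le_opNorm u
      have c2 := ((Jm j).le_opNorm v).trans (mul_le_mul_of_nonneg_right h3.le (norm_nonneg _))
      calc _ ≤ (‖(G j ∘L Jm j) - K.subtypeL‖ * ‖u‖) * (i * ‖v‖) := by gcongr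
        _ = _ := by ring
    have b2 : |⟪K.subtypeL u, (Jm j - K.subtypeL) v⟫_ℝ|
        ≤ (‖K.subtypeL‖ * ‖Jm j - K.subtypeL‖) * (‖u‖ * ‖v‖) := by
      refine (abs_real_inner_le_norm _ _).trans ?_
      have c1 := (K.subtypeL).le_opNorm u
      have c2 := (Jm j - K.subtypeL).le_opNorm v
      calc _ ≤ (‖K.subtypeL‖ * ‖u‖) * (‖Jm j - K.subtypeL‖ * ‖v‖) := by gcongr
        _ = _ := by ring
    have b3 : |⟪G j (schur_nn K (A j) (G j) (Jm j) τ u), Jm j v⟫_ℝ|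
        ≤ (ε / 2) * (‖u‖ * ‖v‖) := by
      refine (abs_real_inner_le_norm _ _).trans ?_
      have c1 := ((G j).le_opNorm (schur_nn K (A j) (G j) (Jm j) τ u))
      have c2 := ((Jm j).le_opNorm v).trans (mul_le_mul_of_nonneg_right h3.le (norm_nonneg _))
      have c3 := ((schur_nn K (A j) (G j) (Jm j) τ).le_opNorm u).trans
        (mul_le_mul_of_nonneg_right hn' (norm_nonneg _))
      have c4 : ‖G j (schur_nn K (A j) (G j) (Jm j) τ u)‖ ≤ g * (C * |τ| * ‖u‖) :=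
        c1.trans (mul_le_mul h2.le c3 (norm_nonneg _) hgp.le)
      have c5 : |τ| ≤ ε / (2 * (g * C * i)) := (hτ.le).trans (min_le_right _ _)
      have c6 : g * C * i * |τ| ≤ ε / 2 := by
        rw [le_div_iff₀ (by positivity)] at c5
        linarith
      calc _ ≤ (g * (C * |τ| * ‖u‖)) * (i * ‖v‖) := by gcongr
        _ = (g * C * i * |τ|) * (‖u‖ * ‖v‖) := by ring
        _ ≤ _ := by gcongr
    have huv : 0 ≤ ‖u‖ * ‖v‖ := by positivity
    have b4 : |⟪((G j ∘L Jm j) - K.subtypeL) u, Jm j v⟫_ℝ + ⟪K.subtypeL u, (Jm j - K.subtypeL) v⟫_ℝ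
          + ⟪G j (schur_nn K (A j) (G j) (Jm j) τ u), Jm j v⟫_ℝ| ≤ ε * (‖u‖ * ‖v‖) := by
      have d1 : (‖(G j ∘L Jm j) - K.subtypeL‖ * i + ‖K.subtypeL‖ * ‖Jm j - K.subtypeL‖) * (‖u‖ * ‖v‖)
          ≤ (ε / 2) * (‖u‖ * ‖v‖) := mul_le_mul_of_nonneg_right h5.le huv
      refine (abs_add_le _ _).trans ?_
      have d2 := abs_add_le ⟪((G j ∘L Jm j) - K.subtypeL) u, Jm j v⟫_ℝ ⟪K.subtypeL u, (Jm j - K.subtypeL) v⟫_ℝ
      nlinarith [b1, b2, b3, d1, d2]
    calc _ ≤ |τ| * (ε * (‖u‖ * ‖v‖)) := mul_le_mul_of_nonneg_left b4 (abs_nonneg _)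
      _ = _ := by ring

end

end Pool.Agent.H469
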