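import Mathlib

set_option autoImplicit false

open Set Filter Topology MeasureTheory
open scoped ContDiff InnerProductSpace

namespace Pool.Agent.H469


section topaux

variable {K : Type} [NormedAddCommGroup K] [InnerProductSpace ℝ K] [FiniteDimensional ℝ K]

/-- the top of the quadratic form -/
noncomputable def toppert_top (T : K →L[ℝ] K) : ℝ :=
  sSup ((fun v => ⟪T v, v⟫_ℝ) '' Metric.sphere (0 : K) 1)

theorem toppert_max (e₀ : K) (he : ‖e₀‖ = 1) (T : K →L[ℝ] K) :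
    ∃ v : K, ‖v‖ = 1 ∧ toppert_top T = ⟪T v, v⟫_ℝ ∧ ∀ u : K, ‖u‖ = 1 → ⟪T u, u⟫_ℝ ≤ ⟪T v, v⟫_ℝ := by
  have hne : (Metric.sphere (0 : K) 1).Nonempty := ⟨e₀, by simpa using he⟩
  have hcont : ContinuousOn (fun v => ⟪T v, v⟫_ℝ) (Metric.sphere (0 : K) 1) := by fun_prop
  obtain ⟨v, hv, hmax⟩ := (isCompact_sphere (0 : K) 1).exists_isMaxOn hne hcont
  have hmax' : ∀ u : K, ‖u‖ = 1 → ⟪T u, u⟫_ℝ ≤ ⟪T v, v⟫_ℝ := by
    intro u hu
    exact hmax (by simpa using hu)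
  refine ⟨v, by simpa using hv, ?_, hmax'⟩
  apply IsGreatest.csSup_eq
  refine ⟨⟨v, hv, rfl⟩, ?_⟩
  rintro _ ⟨u, hu, rfl⟩
  exact hmax' u (by simpa using hu)

theorem toppert_le (e₀ : K) (he : ‖e₀‖ = 1) (T : K →L[ℝ] K) (u : K) :
    ⟪T u, u⟫_ℝ ≤ toppert_top T * ‖u‖ ^ 2 := by
  obtain ⟨v, hv, htop, hmax⟩ := toppert_max e₀ he T
  by_cases hu : u = 0
  · rw [hu]; simp
  have hn : 0 < ‖u‖ := norm_pos_iff.mpr hu
  have h1 := hmax (‖u‖⁻¹ • u) (by rw [norm_smul, norm_inv, norm_norm]; field_simp)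
  rw [map_smul, real_inner_smul_left, real_inner_smul_right, ← htop] at h1
  have h2 : ⟪T u, u⟫_ℝ = (‖u‖⁻¹ * (‖u‖⁻¹ * ⟪T u, u⟫_ℝ)) * ‖u‖ ^ 2 := by
    field_simp
  rw [h2]
  exact mul_le_mul_of_nonneg_right h1 (by positivity)

theorem toppert_norm (T T' : K →L[ℝ] K) (δ : ℝ) (h : ‖T - T'‖ ≤ δ) (u : K) :
    ⟪T u, u⟫_ℝ ≤ ⟪T' u, u⟫_ℝ + δ * ‖u‖ ^ 2 := by
  have h1 : ⟪T u, u⟫_ℝ = ⟪T' u, u⟫_ℝ + ⟪(T - T') u, u⟫_ℝ := by
    rw [← inner_add_left, ContinuousLinearMap.sub_apply]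
    congr 1
    abel
  have h2 : ⟪(T - T') u, u⟫_ℝ ≤ δ * ‖u‖ ^ 2 := by
    calc ⟪(T - T') u, u⟫_ℝ ≤ ‖(T - T') u‖ * ‖u‖ := real_inner_le_norm _ _
      _ ≤ (δ * ‖u‖) * ‖u‖ := by
          refine mul_le_mul_of_nonneg_right ?_ (norm_nonneg _)
          exact ((T - T').le_opNorm u).trans (mul_le_mul_of_nonneg_right h (norm_nonneg _))
      _ = δ * ‖u‖ ^ 2 := by ring
  linarith

theorem toppert_lip (e₀ : K) (he : ‖e₀‖ = 1) (T T' : K →L[ℝ] K) (δ : ℝ) (h : ‖T - T'‖ ≤ δ) :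
    toppert_top T ≤ toppert_top T' + δ := by
  obtain ⟨v, hv, htop, hmax⟩ := toppert_max e₀ he T
  have h1 := toppert_norm T T' δ h v
  have h2 := toppert_le e₀ he T' v
  rw [hv] at h1 h2
  rw [htop]
  linarith

theorem toppert_ker (e₀ : K) (he : ‖e₀‖ = 1) (T : K →L[ℝ] K)
    (hT : ∀ u v, ⟪T u, v⟫_ℝ = ⟪u, T v⟫_ℝ) (h0 : toppert_top T = 0) :
    ∃ v : K, ‖v‖ = 1 ∧ T v = 0 := by
  obtain ⟨v, hv, htop, hmax⟩ := toppert_max e₀ he T
  refine ⟨v, hv, ?_⟩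
  have hle : ∀ u, ⟪T u, u⟫_ℝ ≤ 0 := by
    intro u
    have := toppert_le e₀ he T u
    rw [h0, zero_mul] at this
    exact this
  have hvv : ⟪T v, v⟫_ℝ = 0 := by rw [← htop, h0]
  have h1 : ∀ t : ℝ, 2 * t * ‖T v‖ ^ 2 + t ^ 2 * ⟪T (T v), T v⟫_ℝ ≤ 0 := by
    intro t
    have h2 := hle (v + t • T v)
    rw [map_add, map_smul, inner_add_left, inner_add_right, inner_add_right, real_inner_smul_left,
      real_inner_smul_right, real_inner_smul_left, real_inner_smul_right, hvv,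
      hT (T v) v, real_inner_self_eq_norm_sq] at h2
    linarith
  by_contra hne
  have hpos : 0 < ‖T v‖ ^ 2 := by
    have := norm_pos_iff.mpr hne
    positivity
  set a := ‖T v‖ ^ 2 with ha
  set b := ⟪T (T v), T v⟫_ℝ with hb
  have h3 := h1 (a / (1 + |b|))
  have hb1 : 0 < 1 + |b| := by positivity
  have h4 : -|b| ≤ b := neg_abs_le b
  set t := a / (1 + |b|) with ht
  have ht0 : 0 < t := by positivity
  have ht1 : t * (1 + |b|) = a := by rw [ht]; field_simp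
  have h5 : t ^ 2 * b ≥ - (t * a) := by
    have h6 : t ^ 2 * b ≥ t ^ 2 * (-|b|) := mul_le_mul_of_nonneg_left h4 (by positivity)
    have h7 : t ^ 2 * |b| ≤ t * a := by
      rw [← ht1]
      nlinarith [sq_nonneg t]
    linarith
  nlinarith [mul_pos ht0 hpos]

variable {B : K →L[ℝ] K} {s₀ γ : ℝ} {e₀ : K}

theorem toppert_B (hB : ∀ u v, ⟪B u, v⟫_ℝ = ⟪u, B v⟫_ℝ) (hγ : 0 < γ)
    (he : ‖e₀‖ = 1) (hBe : B e₀ = s₀ • e₀)
    (hgap : ∀ v, ⟪e₀, v⟫_ℝ = 0 → ⟪B v, v⟫_ℝ ≤ (s₀ - γ) * ‖v‖ ^ 2) (v : K) :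
    ⟪B v, v⟫_ℝ ≤ s₀ * ‖v‖ ^ 2 := by
  set α := ⟪e₀, v⟫_ℝ with hα
  set w := v - α • e₀ with hw
  have hee : ⟪e₀, e₀⟫_ℝ = 1 := by rw [real_inner_self_eq_norm_sq, he]; norm_num
  have hew : ⟪e₀, w⟫_ℝ = 0 := by
    rw [hw, inner_sub_right, real_inner_smul_right, hee, ← hα]; ring
  have hwe : ⟪w, e₀⟫_ℝ = 0 := by rw [real_inner_comm]; exact hew
  have hv : v = α • e₀ + w := by rw [hw]; abel
  have h1 : ⟪B v, v⟫_ℝ = s₀ * α ^ 2 + ⟪B w, w⟫_ℝ := by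
    have h2 : ⟪B w, e₀⟫_ℝ = 0 := by
      rw [hB, hBe, real_inner_smul_right, hwe, mul_zero]
    conv_lhs => rw [hv]
    rw [map_add, map_smul, hBe, inner_add_left, inner_add_right, inner_add_right,
      real_inner_smul_left, real_inner_smul_right, real_inner_smul_left, hee,
      real_inner_smul_left, real_inner_smul_left, hew, real_inner_smul_right, h2]
    ring
  have h2 : ‖v‖ ^ 2 = α ^ 2 + ‖w‖ ^ 2 := by
    rw [← real_inner_self_eq_norm_sq, ← real_inner_self_eq_norm_sq]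
    conv_lhs => rw [hv]
    rw [inner_add_left, inner_add_right, inner_add_right,
      real_inner_smul_left, real_inner_smul_right, real_inner_smul_left, hee,
      hew, real_inner_smul_right, hwe]
    ring
  have h3 := hgap w hew
  rw [h1, h2]
  nlinarith [mul_nonneg hγ.le (sq_nonneg ‖w‖)]

theorem toppert_topB (hB : ∀ u v, ⟪B u, v⟫_ℝ = ⟪u, B v⟫_ℝ) (hγ : 0 < γ)
    (he : ‖e₀‖ = 1) (hBe : B e₀ = s₀ • e₀)
    (hgap : ∀ v, ⟪e₀, v⟫_ℝ = 0 → ⟪B v, v⟫_ℝ ≤ (s₀ - γ) * ‖v‖ ^ 2) (s : ℝ) :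
    toppert_top (B - s • ContinuousLinearMap.id ℝ K) = s₀ - s := by
  have happ : ∀ v : K, ⟪(B - s • ContinuousLinearMap.id ℝ K) v, v⟫_ℝ =
      ⟪B v, v⟫_ℝ - s * ‖v‖ ^ 2 := by
    intro v
    rw [ContinuousLinearMap.sub_apply, ContinuousLinearMap.smul_apply,
      ContinuousLinearMap.id_apply, inner_sub_left, real_inner_smul_left,
      real_inner_self_eq_norm_sq]
  apply le_antisymm
  · obtain ⟨v, hv, htop, -⟩ := toppert_max e₀ he (B - s • ContinuousLinearMap.id ℝ K)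
    rw [htop, happ]
    have := toppert_B hB hγ he hBe hgap v
    rw [hv] at this ⊢
    linarith
  · have h1 := toppert_le e₀ he (B - s • ContinuousLinearMap.id ℝ K) e₀
    rw [happ, hBe, real_inner_smul_left, real_inner_self_eq_norm_sq, he] at h1
    linarith

/-- everything for one operator family -/
theorem toppert_one (hB : ∀ u v, ⟪B u, v⟫_ℝ = ⟪u, B v⟫_ℝ) (hγ : 0 < γ)
    (he : ‖e₀‖ = 1) (hBe : B e₀ = s₀ • e₀)
    (hgap : ∀ v, ⟪e₀, v⟫_ℝ = 0 → ⟪B v, v⟫_ℝ ≤ (s₀ - γ) * ‖v‖ ^ 2)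
    (T : K →L[ℝ] K) (hT : ∀ u v, ⟪T u, v⟫_ℝ = ⟪u, T v⟫_ℝ) (s δ : ℝ)
    (hδγ : 4 * δ ≤ γ) (hTδ : ‖T - (B - s • ContinuousLinearMap.id ℝ K)‖ ≤ δ)
    (h0 : toppert_top T = 0) :
    |s - s₀| ≤ δ ∧ (∃ v, T v = 0 ∧ ⟪e₀, v⟫_ℝ = 1) ∧
      ∀ v, T v = 0 → ⟪e₀, v⟫_ℝ = 1 → ‖v - e₀‖ ≤ 2 * δ / γ ∧ ∀ u, T u = 0 ↔ ∃ r : ℝ, u = r • v := by
  have hδ0 : 0 ≤ δ := (norm_nonneg _).trans hTδ
  have hs : |s - s₀| ≤ δ := by
    have h1 := toppert_lip e₀ he _ _ δ hTδ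
    have h2 := toppert_lip e₀ he _ _ δ (by rw [norm_sub_rev]; exact hTδ)
    rw [toppert_topB hB hγ he hBe hgap, h0] at h1 h2
    rw [abs_le]
    constructor <;> linarith
  have hs' := abs_le.mp hs
  have hneg : ∀ w, ⟪e₀, w⟫_ℝ = 0 → ⟪T w, w⟫_ℝ ≤ (2 * δ - γ) * ‖w‖ ^ 2 := by
    intro w hw
    have h1 := toppert_norm _ _ δ hTδ w
    have h2 := hgap w hw
    rw [ContinuousLinearMap.sub_apply, ContinuousLinearMap.smul_apply,
      ContinuousLinearMap.id_apply, inner_sub_left, real_inner_smul_left,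
      real_inner_self_eq_norm_sq] at h1
    nlinarith [sq_nonneg ‖w‖]
  have hker : ∀ w, ⟪e₀, w⟫_ℝ = 0 → T w = 0 → w = 0 := by
    intro w hw hTw
    have h1 := hneg w hw
    rw [hTw, inner_zero_left] at h1
    by_contra hne
    have h2 : 0 < ‖w‖ ^ 2 := by
      have := norm_pos_iff.mpr hne
      positivity
    nlinarith
  refine ⟨hs, ?_, ?_⟩
  · obtain ⟨u, hu, hTu⟩ := toppert_ker e₀ he T hT h0
    have hne : ⟪e₀, u⟫_ℝ ≠ 0 := by
      intro h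
      have := hker u h hTu
      rw [this, norm_zero] at hu
      exact zero_ne_one hu
    refine ⟨(⟪e₀, u⟫_ℝ)⁻¹ • u, ?_, ?_⟩
    · rw [map_smul, hTu, smul_zero]
    · rw [real_inner_smul_right, inv_mul_cancel₀ hne]
  · intro v hTv hv
    constructor
    · set w := v - e₀ with hw
      have hee : ⟪e₀, e₀⟫_ℝ = 1 := by rw [real_inner_self_eq_norm_sq, he]; norm_num
      have hew : ⟪e₀, w⟫_ℝ = 0 := by rw [hw, inner_sub_right, hv, hee, sub_self]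
      have h1 : ⟪T e₀, w⟫_ℝ + ⟪T w, w⟫_ℝ = 0 := by
        rw [← inner_add_left, ← map_add, hw, add_sub_cancel, hTv, inner_zero_left]
      have h2 : ⟪T e₀, w⟫_ℝ ≤ δ * ‖w‖ := by
        have h3 : ⟪T e₀, w⟫_ℝ = ⟪(T - (B - s • ContinuousLinearMap.id ℝ K)) e₀, w⟫_ℝ := by
          rw [ContinuousLinearMap.sub_apply, ContinuousLinearMap.sub_apply,
            ContinuousLinearMap.smul_apply, ContinuousLinearMap.id_apply, hBe, inner_sub_left,
            inner_sub_left, real_inner_smul_left, real_inner_smul_left, hew]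
          ring
        rw [h3]
        refine (real_inner_le_norm _ _).trans (mul_le_mul_of_nonneg_right ?_ (norm_nonneg _))
        refine ((T - (B - s • ContinuousLinearMap.id ℝ K)).le_opNorm e₀).trans ?_
        rw [he, mul_one]
        exact hTδ
      have h3 := hneg w hew
      have h4 : (γ / 2) * ‖w‖ ^ 2 ≤ δ * ‖w‖ := by nlinarith [sq_nonneg ‖w‖]
      rw [le_div_iff₀ hγ]
      rcases eq_or_lt_of_le (norm_nonneg w) with h5 | h5
      · rw [← h5]; linarith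
      · have h6 : (γ / 2) * ‖w‖ ≤ δ := by
          have : ((γ / 2) * ‖w‖) * ‖w‖ ≤ δ * ‖w‖ := by nlinarith
          exact le_of_mul_le_mul_right this h5
        linarith
    · intro u
      constructor
      · intro hTu
        refine ⟨⟪e₀, u⟫_ℝ, ?_⟩
        have h1 : u - ⟪e₀, u⟫_ℝ • v = 0 := by
          apply hker
          · rw [inner_sub_right, real_inner_smul_right, hv, mul_one, sub_self]
          · rw [map_sub, map_smul, hTu, hTv, smul_zero, sub_zero]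
        exact sub_eq_zero.mp h1
      · rintro ⟨r, rfl⟩
        rw [map_smul, hTv, smul_zero]

end topaux

/-! PLAIN PROOF OF THE TARGET(S)

For symmetric S let top(S) = max of <S v, v> over the unit sphere (compact, nonempty as |e0| = 1); |top(S) - top(S')| ≤ ‖S - S'‖, and if S is symmetric
with top(S) = 0, a maximiser v satisfies S v = 0.  top(B - s) = s0 - s: for v = α e0 + w, w ⊥ e0: <Bv,v> = s0 α² + <Bw,w> ≤ s0 α² + (s0-γ)|w|²
(cross terms 2α<Be0,w> = 0).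
WLOG look at η' = min(η, γ/2, any ε > 0).  For j large, top(S j (s0-η')) ≥ η' - ‖..‖ > 0 and top(S j (s0+η')) ≤ -η' + ‖..‖ < 0; s ↦ top(S j s) is
continuous on [s0-η', s0+η'], so there is a zero s_j there.  To have one sequence with s_j → s0: define s_j as a zero of top(S j ·) in
[s0-η,s0+η] when one exists (and s0 otherwise); for ANY zero s_j of top(S j ·) in the interval, |s0 - s_j| = |top(B - s_j)| =
|top(B-s_j) - top(S j s_j)| ≤ ‖S j s_j - (B - s_j)‖ → 0.  So s_j → s0 automatically.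
Let v_j be a unit vector with S j s_j v_j = 0.  Then |(B - s_j) v_j| → 0, so (B - s0)v_j → 0.  Write v_j = α_j e0 + w_j: <(B-s0)v_j, w_j> = <(B - s0)w_j,w_j>
≤ -γ|w_j|², so γ|w_j|² ≤ |(B-s0)v_j| |w_j| → 0, so w_j → 0 and |α_j| → 1; replace v_j by v_j/α_j (or multiply by the sign) to get v_j → e0.
Kernel is a line: if S j s_j u = 0 then u' = u - (<u,e0>/<v_j,e0>) v_j is in the kernel and orthogonal to e0, so 0 = <S j s_j u',u'> ≤
<(B-s_j)u',u'> + small|u'|² ≤ (s0 - γ - s_j + small)|u'|² < 0 unless u' = 0.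
-/

section
variable {F : Type} [NormedAddCommGroup F] [InnerProductSpace ℝ F] [FiniteDimensional ℝ F]

/-- TARGET -/
theorem toppert {K : Type} [NormedAddCommGroup K] [InnerProductSpace ℝ K] [FiniteDimensional ℝ K]
    (B : K →L[ℝ] K) (hB : ∀ u v, ⟪B u, v⟫_ℝ = ⟪u, B v⟫_ℝ) (s₀ γ η : ℝ) (hγ : 0 < γ) (hη : 0 < η) (e₀ : K)
    (he : ‖e₀‖ = 1) (hBe : B e₀ = s₀ • e₀) (hgap : ∀ v, ⟪e₀, v⟫_ℝ = 0 → ⟪B v, v⟫_ℝ ≤ (s₀ - γ) * ‖v‖ ^ 2)
    (S : ℕ → ℝ → K →L[ℝ] K)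
    (hsymm : ∀ᶠ j in atTop, ∀ s ∈ Icc (s₀ - η) (s₀ + η), ∀ u v, ⟪S j s u, v⟫_ℝ = ⟪u, S j s v⟫_ℝ)
    (hcont : ∀ᶠ j in atTop, ContinuousOn (S j) (Icc (s₀ - η) (s₀ + η)))
    (hlim : ∀ ε > 0, ∀ᶠ j in atTop, ∀ s ∈ Icc (s₀ - η) (s₀ + η),
      ‖S j s - (B - s • ContinuousLinearMap.id ℝ K)‖ ≤ ε) :
    ∃ (s : ℕ → ℝ) (v : ℕ → K), Tendsto s atTop (𝓝 s₀) ∧ Tendsto v atTop (𝓝 e₀) ∧
      ∀ᶠ j in atTop, s j ∈ Icc (s₀ - η) (s₀ + η) ∧ v j ≠ 0 ∧
        ∀ u, S j (s j) u = 0 ↔ ∃ r : ℝ, u = r • v j := by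
  classical
  have hgood : ∀ δ : ℝ, 0 < δ → 4 * δ ≤ γ → δ < η → ∀ᶠ j in atTop,
      (∃ p : ℝ × K, p.1 ∈ Icc (s₀ - η) (s₀ + η) ∧ toppert_top (S j p.1) = 0 ∧ S j p.1 p.2 = 0 ∧
        ⟪e₀, p.2⟫_ℝ = 1) ∧
      ∀ p : ℝ × K, (p.1 ∈ Icc (s₀ - η) (s₀ + η) ∧ toppert_top (S j p.1) = 0 ∧ S j p.1 p.2 = 0 ∧
        ⟪e₀, p.2⟫_ℝ = 1) → |p.1 - s₀| ≤ δ ∧ ‖p.2 - e₀‖ ≤ 2 * δ / γ ∧
          ∀ u, S j p.1 u = 0 ↔ ∃ r : ℝ, u = r • p.2 := by
    intro δ hδ hδγ hδη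
    filter_upwards [hsymm, hcont, hlim δ hδ] with j hs hc hl
    constructor
    · have hcont' : ContinuousOn (fun s => toppert_top (S j s)) (Icc (s₀ - η) (s₀ + η)) := by
        rw [Metric.continuousOn_iff] at hc ⊢
        intro s hs' ε hε
        obtain ⟨d, hd, hd'⟩ := hc s hs' (ε / 2) (by positivity)
        refine ⟨d, hd, fun s' hs'' hdist => ?_⟩
        have h1 := hd' s' hs'' hdist
        rw [dist_eq_norm] at h1
        have h2 := toppert_lip e₀ he (S j s') (S j s) (ε / 2) h1.le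
        have h3 := toppert_lip e₀ he (S j s) (S j s') (ε / 2) (by rw [norm_sub_rev]; exact h1.le)
        rw [Real.dist_eq, abs_lt]
        constructor <;> linarith
      have hab : s₀ - η ≤ s₀ + η := by linarith
      have hl1 := hl (s₀ - η) ⟨le_rfl, hab⟩
      have hl2 := hl (s₀ + η) ⟨hab, le_rfl⟩
      have ha : 0 ≤ toppert_top (S j (s₀ - η)) := by
        have h2 := toppert_lip e₀ he _ _ δ (by rw [norm_sub_rev]; exact hl1)
        rw [toppert_topB hB hγ he hBe hgap] at h2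
        linarith
      have hb : toppert_top (S j (s₀ + η)) ≤ 0 := by
        have h2 := toppert_lip e₀ he _ _ δ hl2
        rw [toppert_topB hB hγ he hBe hgap] at h2
        linarith
      obtain ⟨s, hs1, hs2⟩ := intermediate_value_Icc' hab hcont' ⟨hb, ha⟩
      obtain ⟨-, ⟨v, hv1, hv2⟩, -⟩ := toppert_one hB hγ he hBe hgap (S j s) (hs s hs1) s δ hδγ
        (hl s hs1) hs2
      exact ⟨(s, v), hs1, hs2, hv1, hv2⟩
    · rintro ⟨s, v⟩ ⟨hs1, hs2, hv1, hv2⟩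
      obtain ⟨h1, -, h2⟩ := toppert_one hB hγ he hBe hgap (S j s) (hs s hs1) s δ hδγ
        (hl s hs1) hs2
      exact ⟨h1, h2 v hv1 hv2⟩
  let P : ℕ → ℝ × K → Prop := fun j p => p.1 ∈ Icc (s₀ - η) (s₀ + η) ∧
    toppert_top (S j p.1) = 0 ∧ S j p.1 p.2 = 0 ∧ ⟪e₀, p.2⟫_ℝ = 1
  let c : ℕ → ℝ × K := fun j => if h : ∃ p, P j p then h.choose else (s₀, e₀)
  have hc : ∀ j, (∃ p, P j p) → P j (c j) := by
    intro j h
    have : c j = h.choose := dif_pos h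
    rw [this]
    exact h.choose_spec
  have hsmall : ∀ ε : ℝ, 0 < ε → ∃ δ : ℝ, 0 < δ ∧ 4 * δ ≤ γ ∧ δ < η ∧ δ < ε ∧ 2 * δ / γ < ε := by
    intro ε hε
    refine ⟨min (min (γ / 4) (η / 2)) (min (ε / 2) (γ * ε / 4)), by positivity, ?_, ?_, ?_, ?_⟩
    · have := (min_le_left (min (γ / 4) (η / 2)) (min (ε / 2) (γ * ε / 4))).trans (min_le_left _ _)
      linarith
    · have := (min_le_left (min (γ / 4) (η / 2)) (min (ε / 2) (γ * ε / 4))).trans (min_le_right _ _)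
      linarith
    · have := (min_le_right (min (γ / 4) (η / 2)) (min (ε / 2) (γ * ε / 4))).trans (min_le_left _ _)
      linarith
    · have := (min_le_right (min (γ / 4) (η / 2)) (min (ε / 2) (γ * ε / 4))).trans (min_le_right _ _)
      rw [div_lt_iff₀ hγ]
      nlinarith [mul_pos hγ hε]
  refine ⟨fun j => (c j).1, fun j => (c j).2, ?_, ?_, ?_⟩
  · rw [Metric.tendsto_nhds]
    intro ε hε
    obtain ⟨δ, h1, h2, h3, h4, h5⟩ := hsmall ε hε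
    filter_upwards [hgood δ h1 h2 h3] with j hj
    obtain ⟨h6, -⟩ := hj.2 (c j) (hc j hj.1)
    rw [Real.dist_eq]
    linarith
  · rw [Metric.tendsto_nhds]
    intro ε hε
    obtain ⟨δ, h1, h2, h3, h4, h5⟩ := hsmall ε hε
    filter_upwards [hgood δ h1 h2 h3] with j hj
    obtain ⟨-, h6, -⟩ := hj.2 (c j) (hc j hj.1)
    rw [dist_eq_norm]
    linarith
  · obtain ⟨δ, h1, h2, h3, h4, h5⟩ := hsmall 1 one_pos
    filter_upwards [hgood δ h1 h2 h3] with j hj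
    have hP := hc j hj.1
    obtain ⟨-, -, h6⟩ := hj.2 (c j) hP
    refine ⟨hP.1, ?_, h6⟩
    intro h0
    have h7 := hP.2.2.2
    rw [h0, inner_zero_right] at h7
    exact zero_ne_one h7

end

end Pool.Agent.H469
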