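import Mathlib
import Pool.Agent.Helper469_Dupin.Jcenter
import Pool.Agent.Helper469_Dupin.Jredder
import Pool.Agent.Helper469_Dupin.Jleading
import Pool.Agent.Helper469_Dupin.Jtoppert
import Pool.Agent.Helper469_Dupin.Jschur

set_option autoImplicit false

open Set Filter Topology MeasureTheory
open scoped ContDiff InnerProductSpace

namespace Pool.Agent.H469


/-! PLAIN PROOF OF THE TARGET(S)

Take h from `center`, ψ(e) = a0 + e + h(e), H(e) = f(ψ(e)) on K, analytic at 0.  If H is constant near 0 then DH = 0 near 0, by red_derivs (1)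
Df(ψ e) v = 0 for v ∈ K, and for v ∈ K^⊥ by `center`; so Df(ψ e) = 0 and we are done.  Otherwise: DH(0) = Df(a0)|_K = 0, D²H(0) = D²f(a0)
on K = 0 (red_derivs (3) at e = 0, h'(0) = 0, K = ker).  `leading` gives d, σ, m, e0, B, C.  Let ρ_j = 1/(j+1) → 0+, e_j = ρ_j e0, a_j = ψ(e_j),
A_j = the operator of D²f(a_j) (<A_j u,v> = D²f(a_j)(u,v); e.g. via `InnerProductSpace.toDual`), G_j = G(a_j), Jm_j = ψ'(e_j) (v ↦ v + h'(e_j)v),
modified for the finitely many j where things are not yet valid (shift the sequence).  `schur` applies (hAJ is red_derivs (2)), giving δ1, C1, nn, S.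
Let s0 = d(d-1)m, γ = d(d-2)m > 0, η = 1, S'_j(s) := σ ρ_j^{-(d-2)} S_j(σ ρ_j^{d-2} s).  By the last claim of `schur` and red_derivs (3):
<S'_j(s)u,v> = σ ρ_j^{-(d-2)} D²H(e_j)(u,v) - s<u,v> + o(1) uniformly on [s0-1,s0+1], so S'_j(s) → B - s (B as an operator).  `toppert` gives
s_j → s0, v_j → e0 with ker S'_j(s_j) = R v_j.  Put τ_j = σ ρ_j^{d-2} s_j → 0, k_j = Jm_j v_j + nn_j(τ_j) v_j; its K-component is v_j ≠ 0, so
k_j ≠ 0, and by `schur` the kernel of A_j - τ_j G_j is R k_j.  hDC: |D³f(a_j)(k_j,k_j,k_j)| ≤ C|τ_j||k_j|³ = O(ρ_j^{d-2}).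
Since |nn_j| = O(|τ_j|), D³f(a_j)(k_j³) = D³f(a_j)((Jm_j v_j)³) + O(ρ_j^{d-2}) = D³H(e_j)(v_j³) + O(ρ_j^{d-2}) (red_derivs (4)).  So
σ ρ_j^{-(d-3)} D³H(e_j)(v_j,v_j,v_j) → 0; but it tends to C(e0,e0,e0) = d(d-1)(d-2)m > 0 by `leading` (operator norm convergence and v_j → e0).
Contradiction.
-/


theorem abstractC_app {E G : Type} [NormedAddCommGroup E] [NormedSpace ℝ E]
    [NormedAddCommGroup G] [NormedSpace ℝ G] {ι : Type} {l : Filter ι}
    {f : ι → E →L[ℝ] G} {g : ι → E} {f₀ : E →L[ℝ] G} {g₀ : E}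
    (hf : Tendsto f l (𝓝 f₀)) (hg : Tendsto g l (𝓝 g₀)) :
    Tendsto (fun j => f j (g j)) l (𝓝 (f₀ g₀)) := by
  have h1 : Continuous fun p : (E →L[ℝ] G) × E => p.1 p.2 := isBoundedBilinearMap_apply.continuous
  exact (h1.tendsto (f₀, g₀)).comp (hf.prodMk_nhds hg)


theorem abstractC_op {E : Type} [NormedAddCommGroup E] [InnerProductSpace ℝ E]
    [FiniteDimensional ℝ E] :
    ∃ T : (E →L[ℝ] E →L[ℝ] ℝ) → (E →L[ℝ] E), Continuous T ∧
      ∀ B u v, ⟪T B u, v⟫_ℝ = B u v := by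
  let b := stdOrthonormalBasis ℝ E
  refine ⟨fun B => ∑ i, (B.flip (b i)).smulRight (b i), ?_, ?_⟩
  · apply continuous_finsetSum
    intro i _
    have h1 : Continuous fun B : E →L[ℝ] E →L[ℝ] ℝ => B.flip (b i) := by
      have h2 : Continuous fun B : E →L[ℝ] E →L[ℝ] ℝ => B.flip := by
        have := (ContinuousLinearMap.flipₗᵢ ℝ E E ℝ).continuous
        exact this
      exact h2.clm_apply continuous_const
    have h3 : Continuous fun c : E →L[ℝ] ℝ => c.smulRight (b i) := by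
      have := ((ContinuousLinearMap.smulRightL ℝ E E).flip (b i)).continuous
      exact this
    exact h3.comp h1
  · intro B u v
    rw [sum_apply, sum_inner]
    have h4 : v = ∑ i, ⟪b i, v⟫_ℝ • b i := (b.sum_repr' v).symm
    conv_rhs => rw [h4]
    rw [map_sum]
    apply Finset.sum_congr rfl
    intro i _
    rw [ContinuousLinearMap.smulRight_apply, inner_smul_left, map_smul, smul_eq_mul]
    simp [mul_comm]

theorem abstractC_bound {E : Type} [NormedAddCommGroup E] [InnerProductSpace ℝ E]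
    (X : E →L[ℝ] E) (ε : ℝ) (hε : 0 ≤ ε) (h : ∀ u v, |⟪X u, v⟫_ℝ| ≤ ε * ‖u‖ * ‖v‖) : ‖X‖ ≤ ε := by
  apply ContinuousLinearMap.opNorm_le_bound _ hε
  intro u
  have h1 := h u (X u)
  rw [real_inner_self_eq_norm_sq, abs_of_nonneg (sq_nonneg _)] at h1
  by_cases h0 : ‖X u‖ = 0
  · rw [h0]; positivity
  · have h2 : 0 < ‖X u‖ := lt_of_le_of_ne (norm_nonneg _) (Ne.symm h0)
    have h3 : ‖X u‖ * ‖X u‖ ≤ (ε * ‖u‖) * ‖X u‖ := by rw [← sq]; exact h1
    exact le_of_mul_le_mul_right h3 h2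


set_option maxSynthPendingDepth 3 in
theorem abstractC_kernel {F : Type} [NormedAddCommGroup F] [InnerProductSpace ℝ F]
    [FiniteDimensional ℝ F]
    (K : Submodule ℝ F) (A₀ : F →L[ℝ] F) (hA₀ : ∀ u v, ⟪A₀ u, v⟫_ℝ = ⟪u, A₀ v⟫_ℝ)
    (hK : ∀ k, k ∈ K ↔ A₀ k = 0)
    (A G : ℕ → F →L[ℝ] F) (Jm : ℕ → K →L[ℝ] F) (hA : Tendsto A atTop (𝓝 A₀))
    (hG : Tendsto G atTop (𝓝 (ContinuousLinearMap.id ℝ F))) (hJ : Tendsto Jm atTop (𝓝 K.subtypeL))
    (hAs : ∀ j, ∀ u v, ⟪A j u, v⟫_ℝ = ⟪u, A j v⟫_ℝ) (hGs : ∀ j, ∀ u v, ⟪G j u, v⟫_ℝ = ⟪u, G j v⟫_ℝ)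
    (hJK : ∀ j, ∀ v : K, Jm j v - (v : F) ∈ Kᗮ) (hAJ : ∀ j, ∀ v : K, ∀ w ∈ Kᗮ, ⟪A j (Jm j v), w⟫_ℝ = 0)
    (d : ℕ) (hd : 3 ≤ d) (σ m : ℝ) (hσ : σ = 1 ∨ σ = -1) (hm : 0 < m) (e₀ : K) (he₀ : ‖e₀‖ = 1)
    (B : K →L[ℝ] K →L[ℝ] ℝ) (hBs : ∀ u v, B u v = B v u)
    (hBe : ∀ v, B e₀ v = (d * (d - 1) * m : ℝ) * ⟪e₀, v⟫_ℝ)
    (hBg : ∀ v, ⟪e₀, v⟫_ℝ = 0 → B v v ≤ (d * m : ℝ) * ‖v‖ ^ 2)
    (ρ : ℕ → ℝ) (hρ : ∀ j, 0 < ρ j) (hρ0 : Tendsto ρ atTop (𝓝 0))
    (D2 : ℕ → K →L[ℝ] K →L[ℝ] ℝ) (hD2 : ∀ j u v, ⟪A j (Jm j u), Jm j v⟫_ℝ = D2 j u v)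
    (hlim : Tendsto (fun j => (σ * (ρ j ^ (d - 2))⁻¹) • D2 j) atTop (𝓝 B)) :
    ∃ (s : ℕ → ℝ) (k : ℕ → F) (v : ℕ → K) (M : ℝ), 0 ≤ M ∧
      Tendsto v atTop (𝓝 e₀) ∧ Tendsto k atTop (𝓝 (e₀ : F)) ∧
      ∀ᶠ j in atTop, |s j| ≤ M ∧ ‖k j - Jm j (v j)‖ ≤ M * ρ j ^ (d - 2) ∧
        ∀ u, A j u - (σ * ρ j ^ (d - 2) * s j) • G j u = 0 ↔ ∃ r : ℝ, u = r • k j := by
  obtain ⟨δ, C, nn, S, hδ, hC, h1, h2, h3⟩ := schur K A₀ hA₀ hK A G Jm hA hG hJ hAs hGs hJK hAJ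
  obtain ⟨T, _, hT⟩ := abstractC_op (E := K)
  obtain ⟨q, hq⟩ : ∃ q : ℕ → ℝ, q = fun j => σ * ρ j ^ (d - 2) := ⟨_, rfl⟩
  obtain ⟨c, hc⟩ : ∃ c : ℕ → ℝ, c = fun j => σ * (ρ j ^ (d - 2))⁻¹ := ⟨_, rfl⟩
  have hσ2 : σ * σ = 1 := by rcases hσ with h | h <;> rw [h] <;> norm_num
  have hσa : |σ| = 1 := by rcases hσ with h | h <;> rw [h] <;> norm_num
  have hpow : ∀ j, 0 < ρ j ^ (d - 2) := fun j => pow_pos (hρ j) _
  have hcq : ∀ j, c j * q j = 1 := by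
    intro j
    rw [hc, hq]
    have := (hpow j).ne'
    show σ * (ρ j ^ (d - 2))⁻¹ * (σ * ρ j ^ (d - 2)) = 1
    rw [show σ * (ρ j ^ (d - 2))⁻¹ * (σ * ρ j ^ (d - 2)) =
      (σ * σ) * ((ρ j ^ (d - 2))⁻¹ * ρ j ^ (d - 2)) by ring, hσ2, inv_mul_cancel₀ this, one_mul]
  have hqabs : ∀ j, |q j| = ρ j ^ (d - 2) := by
    intro j
    rw [hq]
    show |σ * ρ j ^ (d - 2)| = _
    rw [abs_mul, hσa, one_mul, abs_of_pos (hpow j)]
  have hpow0 : Tendsto (fun j => ρ j ^ (d - 2)) atTop (𝓝 0) := by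
    have := hρ0.pow (d - 2)
    rwa [zero_pow (by omega)] at this
  obtain ⟨s₀, hs₀⟩ : ∃ s₀ : ℝ, s₀ = d * (d - 1) * m := ⟨_, rfl⟩
  have hd' : (3 : ℝ) ≤ d := by exact_mod_cast hd
  have hR : 0 < |s₀| + 1 := by positivity
  have hIcc : ∀ s ∈ Icc (s₀ - 1) (s₀ + 1), |s| ≤ |s₀| + 1 := by
    intro s hs
    have h5 : |s - s₀| ≤ 1 := abs_le.2 ⟨by linarith [hs.1], by linarith [hs.2]⟩
    have h6 : |s| ≤ |s - s₀| + |s₀| := by
      have := abs_add_le (s - s₀) s₀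
      simpa using this
    linarith
  have hsmall : ∀ η' > 0, ∀ᶠ j in atTop, ∀ s ∈ Icc (s₀ - 1) (s₀ + 1), |q j * s| < η' := by
    intro η' hη'
    have h5 : Tendsto (fun j => ρ j ^ (d - 2) * (|s₀| + 1)) atTop (𝓝 0) := by
      have := hpow0.mul_const (|s₀| + 1)
      rwa [zero_mul] at this
    filter_upwards [h5.eventually (gt_mem_nhds hη')] with j hj s hs
    rw [abs_mul, hqabs]
    exact lt_of_le_of_lt (mul_le_mul_of_nonneg_left (hIcc s hs) (hpow j).le) hj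
  have hTBs : ∀ u v, ⟪T B u, v⟫_ℝ = ⟪u, T B v⟫_ℝ := by
    intro u v
    rw [hT, real_inner_comm, hT, hBs]
  have hTBe : T B e₀ = s₀ • e₀ := by
    apply ext_inner_right ℝ
    intro v
    rw [hT, hBe, inner_smul_left, hs₀]
    simp
  obtain ⟨S', hS'⟩ : ∃ S' : ℕ → ℝ → K →L[ℝ] K, S' = fun j s => c j • S j (q j * s) := ⟨_, rfl⟩
  have htop := toppert (T B) hTBs s₀ (d * (d - 2) * m) 1 (by
      have : 0 < (d : ℝ) - 2 := by linarith
      have : 0 < (d : ℝ) := by linarith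
      positivity) one_pos e₀ he₀ hTBe (by
      intro v hv
      rw [hT]
      have := hBg v hv
      rw [hs₀, show (d * (d - 1) * m - d * (d - 2) * m : ℝ) = d * m by ring]
      exact this) S' (by
      filter_upwards [h1, hsmall δ hδ] with j hj hj2 s hs u v
      have := (hj (q j * s) (hj2 s hs)).2.1 u v
      rw [hS']
      show ⟪c j • S j (q j * s) u, v⟫_ℝ = ⟪u, c j • S j (q j * s) v⟫_ℝ
      rw [real_inner_smul_left, real_inner_smul_right, this]) (by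
      filter_upwards [h2, hsmall δ hδ] with j hj hj2
      rw [hS']
      show ContinuousOn (fun s => c j • S j (q j * s)) _
      refine ContinuousOn.const_smul (ContinuousOn.comp hj ?_ ?_) (c j)
      · exact (continuous_const.mul continuous_id).continuousOn
      · intro s hs
        have := hj2 s hs
        exact ⟨(abs_lt.1 this).1, (abs_lt.1 this).2⟩) (by
      intro ε hε
      obtain ⟨δ', hδ', h4⟩ := h3 (ε / 2 / (|s₀| + 1)) (by positivity)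
      have h5 : ∀ᶠ j in atTop, ‖c j • D2 j - B‖ ≤ ε / 2 := by
        have h6 := tendsto_iff_norm_sub_tendsto_zero.1 hlim
        have h7 := h6.eventually (gt_mem_nhds (show (0 : ℝ) < ε / 2 by positivity))
        filter_upwards [h7] with j hj
        rw [hc]
        exact hj.le
      filter_upwards [h4, h5, hsmall δ' hδ'] with j hj4 hj5 hj6 s hs
      apply abstractC_bound _ _ hε.le
      intro u v
      have h7 := hj4 (q j * s) (hj6 s hs) u v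
      rw [hD2] at h7
      have h8 : ⟪(S' j s - (T B - s • ContinuousLinearMap.id ℝ K)) u, v⟫_ℝ =
          c j * (⟪S j (q j * s) u, v⟫_ℝ - (D2 j u v - q j * s * ⟪u, v⟫_ℝ)) +
            (c j • D2 j - B) u v := by
        rw [hS']
        show ⟪(c j • S j (q j * s)) u - (T B u - s • u), v⟫_ℝ = _
        rw [inner_sub_left, inner_sub_left, hT, real_inner_smul_left]
        show ⟪c j • (S j (q j * s) u), v⟫_ℝ - _ = _ + (c j * D2 j u v - B u v)
        rw [real_inner_smul_left]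
        linear_combination (-s * ⟪u, v⟫_ℝ) * hcq j
      rw [h8]
      have h9 : |(c j • D2 j - B) u v| ≤ ε / 2 * ‖u‖ * ‖v‖ := by
        have h10 := (c j • D2 j - B).le_opNorm₂ u v
        rw [Real.norm_eq_abs] at h10
        refine h10.trans ?_
        gcongr
      have h10 : |c j * (⟪S j (q j * s) u, v⟫_ℝ - (D2 j u v - q j * s * ⟪u, v⟫_ℝ))| ≤
          ε / 2 * ‖u‖ * ‖v‖ := by
        rw [abs_mul]
        have h11 : |c j| * (ε / 2 / (|s₀| + 1) * |q j * s| * ‖u‖ * ‖v‖) =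
            (|c j * q j|) * |s| * (ε / 2 / (|s₀| + 1)) * ‖u‖ * ‖v‖ := by
          rw [abs_mul, abs_mul]; ring
        refine (mul_le_mul_of_nonneg_left h7 (abs_nonneg _)).trans ?_
        rw [h11, hcq, abs_one, one_mul]
        have h12 := hIcc s hs
        have h13 : |s| * (ε / 2 / (|s₀| + 1)) ≤ ε / 2 := by
          calc |s| * (ε / 2 / (|s₀| + 1)) ≤ (|s₀| + 1) * (ε / 2 / (|s₀| + 1)) := by gcongr
            _ = ε / 2 := by field_simp
        gcongr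
      calc _ ≤ _ := abs_add_le _ _
        _ ≤ ε / 2 * ‖u‖ * ‖v‖ + ε / 2 * ‖u‖ * ‖v‖ := add_le_add h10 h9
        _ = ε * ‖u‖ * ‖v‖ := by ring)
  obtain ⟨s, v, hs, hv, hev⟩ := htop
  have hnn : ∀ᶠ j in atTop, ‖nn j (q j * s j) (v j)‖ ≤ (C * (|s₀| + 1) * 2) * ρ j ^ (d - 2) := by
    have h5 : ∀ᶠ j in atTop, ‖v j‖ < 2 := by
      have h6 := hv.norm
      rw [he₀] at h6
      exact h6.eventually (gt_mem_nhds (by norm_num))
    filter_upwards [h1, hsmall δ hδ, hev, h5] with j hj1 hj2 hj3 hj4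
    have h7 := (hj1 _ (hj2 _ hj3.1)).1
    have h8 := hIcc _ hj3.1
    calc ‖nn j (q j * s j) (v j)‖ ≤ ‖nn j (q j * s j)‖ * ‖v j‖ := ContinuousLinearMap.le_opNorm _ _
      _ ≤ (C * |q j * s j|) * 2 := by gcongr
      _ = C * |s j| * 2 * ρ j ^ (d - 2) := by rw [abs_mul, hqabs]; ring
      _ ≤ (C * (|s₀| + 1) * 2) * ρ j ^ (d - 2) := by
        have := (hpow j).le
        gcongr
  refine ⟨s, fun j => Jm j (v j) + nn j (q j * s j) (v j), v,
    max (|s₀| + 1) (C * (|s₀| + 1) * 2), le_max_of_le_left hR.le, hv, ?_, ?_⟩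
  · have h5 : Tendsto (fun j => Jm j (v j)) atTop (𝓝 (K.subtypeL e₀)) := abstractC_app hJ hv
    have h6 : Tendsto (fun j => nn j (q j * s j) (v j)) atTop (𝓝 0) := by
      apply squeeze_zero_norm' hnn
      have := hpow0.const_mul (C * (|s₀| + 1) * 2)
      rwa [mul_zero] at this
    have h7 := h5.add h6
    rw [add_zero] at h7
    exact h7
  · filter_upwards [h1, hsmall δ hδ, hev, hnn] with j hj1 hj2 hj3 hj4
    refine ⟨(hIcc _ hj3.1).trans (le_max_left _ _), ?_, ?_⟩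
    · rw [add_sub_cancel_left]
      refine hj4.trans ?_
      have := (hpow j).le
      gcongr
      exact le_max_right _ _
    · intro u
      have h5 := (hj1 _ (hj2 _ hj3.1)).2.2 u
      have h6 : σ * ρ j ^ (d - 2) * s j = q j * s j := by rw [hq]
      rw [h6, h5]
      have hc0 : c j ≠ 0 := by
        intro h0
        have := hcq j
        rw [h0, zero_mul] at this
        exact zero_ne_one this
      have h7 : ∀ w : K, S j (q j * s j) w = 0 ↔ ∃ r : ℝ, w = r • v j := by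
        intro w
        rw [← hj3.2.2 w, hS']
        show _ ↔ c j • (S j (q j * s j) w) = 0
        rw [smul_eq_zero_iff_right hc0]
      constructor
      · rintro ⟨w, hw, hw0⟩
        obtain ⟨r, hr⟩ := (h7 w).1 hw0
        refine ⟨r, ?_⟩
        rw [hw, hr, map_smul, map_smul, smul_add]
      · rintro ⟨r, hr⟩
        refine ⟨r • v j, ?_, (h7 _).2 ⟨r, rfl⟩⟩
        rw [hr, map_smul, map_smul, smul_add]

set_option maxSynthPendingDepth 3 in
theorem abstractC_limit {F : Type} [NormedAddCommGroup F] [NormedSpace ℝ F]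
    (D : ℕ → F →L[ℝ] F →L[ℝ] F →L[ℝ] ℝ) (D₀ : F →L[ℝ] F →L[ℝ] F →L[ℝ] ℝ)
    (hD : Tendsto D atTop (𝓝 D₀)) (k x : ℕ → F) (e : F) (hk : Tendsto k atTop (𝓝 e))
    (hx : Tendsto x atTop (𝓝 e)) (d : ℕ) (hd : 3 ≤ d) (M : ℝ)
    (ρ : ℕ → ℝ) (hρ : ∀ j, 0 < ρ j) (hρ0 : Tendsto ρ atTop (𝓝 0))
    (h1 : ∀ᶠ j in atTop, ‖k j - x j‖ ≤ M * ρ j ^ (d - 2))
    (h2 : ∀ᶠ j in atTop, |D j (k j) (k j) (k j)| ≤ M * ρ j ^ (d - 2))
    (σ c : ℝ) (h3 : Tendsto (fun j => (σ * (ρ j ^ (d - 3))⁻¹) * D j (x j) (x j) (x j)) atTop (𝓝 c)) :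
    c = 0 := by
  have hpow : ∀ j, 0 < ρ j ^ (d - 3) := fun j => pow_pos (hρ j) _
  have hp : ∀ j, ρ j ^ (d - 2) = ρ j ^ (d - 3) * ρ j := by
    intro j
    rw [← pow_succ]
    congr 1
    omega
  have hM : Tendsto (fun j => M * ρ j) atTop (𝓝 0) := by
    have := hρ0.const_mul M
    rwa [mul_zero] at this
  have hw : Tendsto (fun j => (ρ j ^ (d - 3))⁻¹ • (k j - x j)) atTop (𝓝 0) := by
    refine squeeze_zero_norm' ?_ hM
    filter_upwards [h1] with j hj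
    rw [norm_smul, norm_inv, Real.norm_eq_abs, abs_of_pos (hpow j), inv_mul_le_iff₀ (hpow j)]
    refine hj.trans ?_
    rw [hp]
    apply le_of_eq
    ring
  have hk3 : Tendsto (fun j => (ρ j ^ (d - 3))⁻¹ * D j (k j) (k j) (k j)) atTop (𝓝 0) := by
    refine squeeze_zero_norm' ?_ hM
    filter_upwards [h2] with j hj
    rw [norm_mul, norm_inv, Real.norm_eq_abs, Real.norm_eq_abs, abs_of_pos (hpow j),
      inv_mul_le_iff₀ (hpow j)]
    refine hj.trans ?_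
    rw [hp]
    apply le_of_eq
    ring
  have ha : Tendsto (fun j => D j ((ρ j ^ (d - 3))⁻¹ • (k j - x j)) (k j) (k j)) atTop (𝓝 0) := by
    have := abstractC_app (abstractC_app (abstractC_app hD hw) hk) hk
    simpa using this
  have hb : Tendsto (fun j => D j (x j) ((ρ j ^ (d - 3))⁻¹ • (k j - x j)) (k j)) atTop (𝓝 0) := by
    have := abstractC_app (abstractC_app (abstractC_app hD hx) hw) hk
    simpa using this
  have hc : Tendsto (fun j => D j (x j) (x j) ((ρ j ^ (d - 3))⁻¹ • (k j - x j))) atTop (𝓝 0) := by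
    have := abstractC_app (abstractC_app (abstractC_app hD hx) hx) hw
    simpa using this
  have hfin : Tendsto (fun j => (σ * (ρ j ^ (d - 3))⁻¹) * D j (x j) (x j) (x j)) atTop (𝓝 0) := by
    have h5 := (((hk3.sub ha).sub hb).sub hc).const_mul σ
    simp only [sub_zero, mul_zero] at h5
    refine h5.congr ?_
    intro j
    simp only [map_smul, map_sub, smul_apply, sub_apply, smul_eq_mul]
    ring
  exact tendsto_nhds_unique h3 hfin


set_option maxSynthPendingDepth 3 in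
theorem abstractC_contra {F : Type} [NormedAddCommGroup F] [InnerProductSpace ℝ F]
    [FiniteDimensional ℝ F] (f : F → ℝ) (a₀ : F) (hf : AnalyticAt ℝ f a₀)
    (h0 : fderiv ℝ f a₀ = 0)
    (G : F → F →L[ℝ] F) (hG : ContinuousAt G a₀) (hG0 : G a₀ = ContinuousLinearMap.id ℝ F)
    (hGs : ∀ a u v, ⟪G a u, v⟫_ℝ = ⟪u, G a v⟫_ℝ) (C δ : ℝ) (hδ : 0 < δ)
    (hDC : ∀ᶠ a in 𝓝 a₀, ∀ (τ : ℝ) (k : F), |τ| < δ → k ≠ 0 →
      (∀ u, (∀ v, fderiv ℝ (fderiv ℝ f) a u v = τ * ⟪G a u, v⟫_ℝ) ↔ ∃ r : ℝ, u = r • k) →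
      |fderiv ℝ (fderiv ℝ (fderiv ℝ f)) a k k k| ≤ C * |τ| * ‖k‖ ^ 3)
    (K : Submodule ℝ F) (hK : ∀ k, k ∈ K ↔ fderiv ℝ (fderiv ℝ f) a₀ k = 0)
    (h : K → Kᗮ) (hh : AnalyticAt ℝ h 0) (h00 : h 0 = 0) (hh' : fderiv ℝ h 0 = 0)
    (ψ : K → F) (hψ : ∀ e, ψ e = a₀ + (e : F) + (h e : F)) (hψa : AnalyticAt ℝ ψ 0)
    (H : K → ℝ) (hHa : AnalyticAt ℝ H 0)
    (rd : ∀ᶠ e : K in 𝓝 0,
      (∀ v, fderiv ℝ H e v = fderiv ℝ f (ψ e) (v : F)) ∧
      (∀ v : K, ∀ w ∈ Kᗮ, fderiv ℝ (fderiv ℝ f) (ψ e) ((v : F) + (fderiv ℝ h e v : F)) w = 0) ∧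
      (∀ u v, fderiv ℝ (fderiv ℝ H) e u v =
        fderiv ℝ (fderiv ℝ f) (ψ e) ((u : F) + (fderiv ℝ h e u : F))
          ((v : F) + (fderiv ℝ h e v : F))) ∧
      (∀ v, fderiv ℝ (fderiv ℝ (fderiv ℝ H)) e v v v =
        fderiv ℝ (fderiv ℝ (fderiv ℝ f)) (ψ e) ((v : F) + (fderiv ℝ h e v : F))
          ((v : F) + (fderiv ℝ h e v : F)) ((v : F) + (fderiv ℝ h e v : F))))
    (hne : ¬ ∀ᶠ e : K in 𝓝 0, H e = H 0) : False := by
  have hψ0 : ψ 0 = a₀ := by rw [hψ, h00]; simp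
  have rd0 := rd.self_of_nhds
  have hH1 : fderiv ℝ H 0 = 0 := by
    ext v
    rw [rd0.1 v, hψ0, h0]
    rfl
  have hH2 : fderiv ℝ (fderiv ℝ H) 0 = 0 := by
    ext u v
    have h3 := rd0.2.2.1 u v
    rw [hψ0, hh'] at h3
    have h4 : ((0 : K →L[ℝ] Kᗮ) u : F) = 0 := rfl
    rw [h4, add_zero, (hK (u : F)).1 u.2] at h3
    exact h3
  obtain ⟨d, σ, m, e₀, B, Cc, hd, hσ, hm, he₀, hB2, hC3, hBs, hBe, hBg, hCe⟩ :=
    leading H hHa hH1 hH2 hne
  obtain ⟨T, hTc, hT⟩ := abstractC_op (E := F)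
  have hT0 : ∀ B k, T B k = 0 ↔ B k = 0 := by
    intro B k
    constructor
    · intro h5
      ext v
      rw [← hT, h5, inner_zero_left]
      rfl
    · intro h5
      have h6 := hT B k (T B k)
      rw [h5] at h6
      exact inner_self_eq_zero.1 h6
  have hsym : ∀ a, AnalyticAt ℝ f a → ∀ u v, fderiv ℝ (fderiv ℝ f) a u v =
      fderiv ℝ (fderiv ℝ f) a v u := by
    intro a ha u v
    have h5 : IsSymmSndFDerivAt ℝ f a := (ha.contDiffAt (n := 2)).isSymmSndFDerivAt (by simp)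
    exact h5 u v
  have hψc : Tendsto ψ (𝓝 0) (𝓝 a₀) := by
    have := hψa.continuousAt.tendsto
    rwa [hψ0] at this
  have hP := rd.and ((hψc.eventually hf.eventually_analyticAt).and (hψc.eventually hDC))
  obtain ⟨r₀, hr₀, hball⟩ := Metric.eventually_nhds_iff.1 hP
  obtain ⟨ρ, hρd⟩ : ∃ ρ : ℕ → ℝ, ρ = fun j => r₀ / ((j + 2 : ℕ) : ℝ) := ⟨_, rfl⟩
  have hρ : ∀ j, 0 < ρ j := by
    intro j
    rw [hρd]
    positivity
  have hρ0 : Tendsto ρ atTop (𝓝 0) := by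
    rw [hρd]
    exact (tendsto_const_div_atTop_nhds_zero_nat r₀).comp (tendsto_add_atTop_nat 2)
  have hρr : ∀ j, ρ j < r₀ := by
    intro j
    rw [hρd]
    show r₀ / ((j + 2 : ℕ) : ℝ) < r₀
    rw [div_lt_iff₀ (by positivity)]
    have : (1 : ℝ) < ((j + 2 : ℕ) : ℝ) := by
      have : 1 < j + 2 := by omega
      exact_mod_cast this
    nlinarith
  obtain ⟨ev, hev⟩ : ∃ ev : ℕ → K, ev = fun j => ρ j • e₀ := ⟨_, rfl⟩
  have hevb : ∀ j, dist (ev j) 0 < r₀ := by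
    intro j
    rw [hev, dist_zero_right]
    show ‖ρ j • e₀‖ < r₀
    rw [norm_smul, he₀, mul_one, Real.norm_eq_abs, abs_of_pos (hρ j)]
    exact hρr j
  have hQ := fun j => hball (hevb j)
  have hev0 : Tendsto ev atTop (𝓝 0) := by
    rw [hev]
    have := hρ0.smul_const e₀
    rwa [zero_smul] at this
  have haj : Tendsto (fun j => ψ (ev j)) atTop (𝓝 a₀) := hψc.comp hev0
  have hρw : Tendsto ρ atTop (𝓝[>] 0) :=
    tendsto_nhdsWithin_iff.2 ⟨hρ0, Eventually.of_forall hρ⟩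
  obtain ⟨Jm, hJm⟩ : ∃ Jm : ℕ → K →L[ℝ] F,
    Jm = fun j => K.subtypeL + Kᗮ.subtypeL ∘L (fderiv ℝ h (ev j)) := ⟨_, rfl⟩
  have hJa : ∀ j v, Jm j v = (v : F) + (fderiv ℝ h (ev j) v : F) := by
    intro j v
    rw [hJm]
    rfl
  have hfh : Tendsto (fun j => fderiv ℝ h (ev j)) atTop (𝓝 0) := by
    have h5 := hh.fderiv.continuousAt.tendsto
    rw [hh'] at h5
    exact h5.comp hev0
  have hJ : Tendsto Jm atTop (𝓝 K.subtypeL) := by
    rw [hJm]
    have h6 : Tendsto (fun j => Kᗮ.subtypeL ∘L (fderiv ℝ h (ev j))) atTop (𝓝 0) := by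
      have h7 := ((ContinuousLinearMap.compL ℝ K Kᗮ F Kᗮ.subtypeL).continuous.tendsto 0).comp hfh
      rw [map_zero] at h7
      exact h7
    have h8 := h6.const_add K.subtypeL
    rw [add_zero] at h8
    exact h8
  have hker := abstractC_kernel K (T (fderiv ℝ (fderiv ℝ f) a₀)) (by
      intro u v
      rw [hT, real_inner_comm, hT, hsym a₀ hf]) (by
      intro k
      rw [hT0, hK]) (fun j => T (fderiv ℝ (fderiv ℝ f) (ψ (ev j)))) (fun j => G (ψ (ev j))) Jm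
      ((hTc.tendsto _).comp (hf.fderiv.fderiv.continuousAt.tendsto.comp haj)) (by
      have := hG.tendsto
      rw [hG0] at this
      exact this.comp haj) hJ (by
      intro j u v
      rw [hT, real_inner_comm, hT, hsym _ (hQ j).2.1]) (fun j => hGs _) (by
      intro j v
      rw [hJa, add_sub_cancel_left]
      exact (fderiv ℝ h (ev j) v).2) (by
      intro j v w hw
      rw [hT, hJa]
      exact (hQ j).1.2.1 v w hw) d hd σ m hσ hm e₀ he₀ B hBs hBe hBg ρ hρ hρ0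
      (fun j => fderiv ℝ (fderiv ℝ H) (ev j)) (by
      intro j u v
      rw [hT, hJa, hJa]
      exact ((hQ j).1.2.2.1 u v).symm) (by
      have := hB2.comp hρw
      rw [hev]
      exact this)
  obtain ⟨s, k, v, M, hM0, hv, hk, hM⟩ := hker
  have he₀F : (e₀ : F) ≠ 0 := by
    intro h5
    have h6 : e₀ = 0 := Subtype.ext h5
    rw [h6, norm_zero] at he₀
    exact zero_ne_one he₀
  have hσa : |σ| = 1 := by rcases hσ with h | h <;> rw [h] <;> norm_num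
  have hpow : ∀ j, 0 < ρ j ^ (d - 2) := fun j => pow_pos (hρ j) _
  have hpow0 : Tendsto (fun j => ρ j ^ (d - 2) * M) atTop (𝓝 0) := by
    have := (hρ0.pow (d - 2)).mul_const M
    rwa [zero_pow (by omega), zero_mul] at this
  have hk2 : ∀ᶠ j in atTop, ‖k j‖ < 2 := by
    have h6 := hk.norm
    have h7 : ‖(e₀ : F)‖ = 1 := he₀
    rw [h7] at h6
    exact h6.eventually (gt_mem_nhds (by norm_num))
  have hx : Tendsto (fun j => Jm j (v j)) atTop (𝓝 (e₀ : F)) := abstractC_app hJ hv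
  have hlim := abstractC_limit (fun j => fderiv ℝ (fderiv ℝ (fderiv ℝ f)) (ψ (ev j)))
    (fderiv ℝ (fderiv ℝ (fderiv ℝ f)) a₀) (hf.fderiv.fderiv.fderiv.continuousAt.tendsto.comp haj)
    k (fun j => Jm j (v j)) (e₀ : F) hk hx d hd (max M (|C| * M * 8)) ρ hρ hρ0 (by
      filter_upwards [hM] with j hj
      refine hj.2.1.trans ?_
      have := (hpow j).le
      gcongr
      exact le_max_left _ _) (by
      filter_upwards [hM, hk2, hk.eventually_ne he₀F, hpow0.eventually (gt_mem_nhds hδ)] with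
        j hj hj2 hj3 hj4
      have hτ : |σ * ρ j ^ (d - 2) * s j| ≤ ρ j ^ (d - 2) * M := by
        rw [abs_mul, abs_mul, hσa, one_mul, abs_of_pos (hpow j)]
        exact mul_le_mul_of_nonneg_left hj.1 (hpow j).le
      have h5 := (hQ j).2.2 (σ * ρ j ^ (d - 2) * s j) (k j) (lt_of_le_of_lt hτ hj4) hj3 (by
        intro u
        rw [← hj.2.2 u]
        constructor
        · intro h6
          rw [sub_eq_zero]
          apply ext_inner_right ℝ
          intro w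
          rw [hT, real_inner_smul_left, h6 w]
        · intro h6 w
          rw [sub_eq_zero] at h6
          rw [← hT, h6, real_inner_smul_left])
      refine h5.trans ?_
      have h7 : ‖k j‖ ^ 3 ≤ 8 := by
        have : ‖k j‖ ^ 3 ≤ 2 ^ 3 := pow_le_pow_left₀ (norm_nonneg _) hj2.le 3
        linarith
      calc C * |σ * ρ j ^ (d - 2) * s j| * ‖k j‖ ^ 3
          ≤ |C| * (ρ j ^ (d - 2) * M) * 8 := by
            have h8 : C ≤ |C| := le_abs_self C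
            have h9 : 0 ≤ |C| := abs_nonneg C
            have h10 : 0 ≤ ρ j ^ (d - 2) * M := mul_nonneg (hpow j).le hM0
            gcongr
        _ = (|C| * M * 8) * ρ j ^ (d - 2) := by ring
        _ ≤ _ := by
            have := (hpow j).le
            gcongr
            exact le_max_right _ _) σ (Cc e₀ e₀ e₀) (by
      have h5 : Tendsto (fun j => (σ * (ρ j ^ (d - 3))⁻¹) •
          fderiv ℝ (fderiv ℝ (fderiv ℝ H)) (ρ j • e₀)) atTop (𝓝 Cc) := hC3.comp hρw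
      have h6 := abstractC_app (abstractC_app (abstractC_app h5 hv) hv) hv
      refine h6.congr ?_
      intro j
      have h7 := (hQ j).1.2.2.2 (v j)
      rw [← hJa] at h7
      rw [← h7, hev]
      rfl)
  rw [hCe] at hlim
  have hd' : (3 : ℝ) ≤ d := by exact_mod_cast hd
  have h8 : 0 < (d : ℝ) := by linarith
  have h9 : 0 < (d : ℝ) - 1 := by linarith
  have h10 : 0 < (d : ℝ) - 2 := by linarith
  have : (0 : ℝ) < d * (d - 1) * (d - 2) * m := by positivity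
  exact absurd hlim this.ne'

theorem abstractC_const {F : Type} [NormedAddCommGroup F] [InnerProductSpace ℝ F]
    [FiniteDimensional ℝ F] (f : F → ℝ) (K : Submodule ℝ F) (ψ : K → F) (H : K → ℝ)
    (hN : ∀ᶠ e : K in 𝓝 0, ∀ v ∈ Kᗮ, fderiv ℝ f (ψ e) v = 0)
    (rd : ∀ᶠ e : K in 𝓝 0, ∀ v, fderiv ℝ H e v = fderiv ℝ f (ψ e) (v : F))
    (hc : ∀ᶠ e : K in 𝓝 0, H e = H 0) : ∀ᶠ e : K in 𝓝 0, fderiv ℝ f (ψ e) = 0 := by
  filter_upwards [hN, rd, hc.eventually_nhds] with e h1 h2 h3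
  have h4 : fderiv ℝ H e = 0 := by
    have h5 : H =ᶠ[𝓝 e] fun _ => H 0 := h3
    rw [h5.fderiv_eq]
    simp
  ext v
  obtain ⟨y, hy, z, hz, hv⟩ := K.exists_add_mem_mem_orthogonal v
  rw [hv, map_add, h1 z hz, add_zero]
  have h6 := h2 ⟨y, hy⟩
  rw [h4] at h6
  exact h6.symm

section
variable {F : Type} [NormedAddCommGroup F] [InnerProductSpace ℝ F] [FiniteDimensional ℝ F]

/-- TARGET -/
theorem abstractC (f : F → ℝ) (a₀ : F) (hf : AnalyticAt ℝ f a₀) (h0 : fderiv ℝ f a₀ = 0)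
    (G : F → F →L[ℝ] F) (hG : ContinuousAt G a₀) (hG0 : G a₀ = ContinuousLinearMap.id ℝ F)
    (hGs : ∀ a u v, ⟪G a u, v⟫_ℝ = ⟪u, G a v⟫_ℝ) (C δ : ℝ) (hδ : 0 < δ)
    (hDC : ∀ᶠ a in 𝓝 a₀, ∀ (τ : ℝ) (k : F), |τ| < δ → k ≠ 0 →
      (∀ u, (∀ v, fderiv ℝ (fderiv ℝ f) a u v = τ * ⟪G a u, v⟫_ℝ) ↔ ∃ r : ℝ, u = r • k) →
      |fderiv ℝ (fderiv ℝ (fderiv ℝ f)) a k k k| ≤ C * |τ| * ‖k‖ ^ 3)
    (K : Submodule ℝ F) (hK : ∀ k, k ∈ K ↔ fderiv ℝ (fderiv ℝ f) a₀ k = 0) :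
    ∃ h : K → Kᗮ, AnalyticAt ℝ h 0 ∧ h 0 = 0 ∧ fderiv ℝ h 0 = 0 ∧
      ∀ᶠ e : K in 𝓝 0, fderiv ℝ f (a₀ + (e : F) + (h e : F)) = 0 := by
  obtain ⟨h, hh, h00, hh', hN, _⟩ := center f a₀ hf h0 K hK
  refine ⟨h, hh, h00, hh', ?_⟩
  have rd := red_derivs f a₀ hf K h hh h00 hN
  have hψa : AnalyticAt ℝ (fun e : K => a₀ + (e : F) + (h e : F)) 0 := by
    have h1 : AnalyticAt ℝ (fun e : K => (e : F)) 0 := K.subtypeL.analyticAt 0
    have h2 : AnalyticAt ℝ (fun e : K => (h e : F)) 0 :=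
      (Kᗮ.subtypeL.analyticAt (h 0)).comp hh
    exact (analyticAt_const.add h1).add h2
  have hHa : AnalyticAt ℝ (fun e : K => f (a₀ + (e : F) + (h e : F))) 0 := by
    have h1 : AnalyticAt ℝ f ((fun e : K => a₀ + (e : F) + (h e : F)) 0) := by
      simpa [h00] using hf
    exact AnalyticAt.comp (g := f) (f := fun e : K => a₀ + (e : F) + (h e : F)) h1 hψa
  by_cases hc : ∀ᶠ e : K in 𝓝 0, (fun e : K => f (a₀ + (e : F) + (h e : F))) e =
      (fun e : K => f (a₀ + (e : F) + (h e : F))) 0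
  · exact abstractC_const f K (fun e : K => a₀ + (e : F) + (h e : F)) _ hN
      (rd.mono fun e he => he.1) hc
  · exact absurd hc fun _ => abstractC_contra f a₀ hf h0 G hG hG0 hGs C δ hδ hDC K hK h hh h00 hh'
      (fun e : K => a₀ + (e : F) + (h e : F)) (fun _ => rfl) hψa
      (fun e : K => f (a₀ + (e : F) + (h e : F))) hHa rd hc

end

end Pool.Agent.H469
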