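import Mathlib
import Pool.Agent.Helper469_Dupin.JabstractC

set_option autoImplicit false

open Set Filter Topology MeasureTheory
open scoped ContDiff InnerProductSpace

namespace Pool.Agent.H469


theorem abstractC'_sqrt {F : Type} [NormedAddCommGroup F] [InnerProductSpace ℝ F]
    [FiniteDimensional ℝ F] (A : F →L[ℝ] F) (hs : ∀ u v, ⟪A u, v⟫_ℝ = ⟪u, A v⟫_ℝ)
    (hp : ∀ u, u ≠ 0 → 0 < ⟪A u, u⟫_ℝ) :
    ∃ R : F ≃L[ℝ] F, ∀ u v, ⟪A (R u), R v⟫_ℝ = ⟪u, v⟫_ℝ := by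
  have hA : (A : F →ₗ[ℝ] F).IsSymmetric := fun u v => hs u v
  set n := Module.finrank ℝ F with hn
  set b := hA.eigenvectorBasis hn.symm with hb
  set l := hA.eigenvalues hn.symm with hl
  have hAb : ∀ i, A (b i) = l i • b i := by
    intro i
    have := hA.apply_eigenvectorBasis hn.symm i
    simp only [RCLike.ofReal_real_eq_id, id] at this
    exact this
  have hbb : ∀ i j, ⟪b i, b j⟫_ℝ = if i = j then 1 else 0 := fun i j =>
    orthonormal_iff_ite.1 b.orthonormal i j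
  have hlp : ∀ i, 0 < l i := by
    intro i
    have hne : b i ≠ 0 := by
      intro h
      have := hbb i i
      rw [h, inner_zero_left, if_pos rfl] at this
      exact zero_ne_one this
    have := hp (b i) hne
    rw [hAb, inner_smul_left, hbb, if_pos rfl] at this
    simpa using this
  have hw : ∀ i, (√(l i))⁻¹ ≠ 0 := fun i => inv_ne_zero (Real.sqrt_pos.2 (hlp i)).ne'
  set b' := b.toBasis.unitsSMul (fun i => Units.mk0 _ (hw i)) with hb'
  set R₀ : F ≃ₗ[ℝ] F := b.toBasis.equiv b' (Equiv.refl _) with hR₀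
  have hR₀b : ∀ i, R₀ (b i) = (√(l i))⁻¹ • b i := by
    intro i
    have := b.toBasis.equiv_apply i b' (Equiv.refl _)
    rw [Equiv.refl_apply] at this
    rw [← hR₀] at this
    simpa [hb', Module.Basis.unitsSMul_apply, Units.smul_def] using this
  refine ⟨R₀.toContinuousLinearEquiv, ?_⟩
  have key : (innerₗ F).compl₁₂ ((A : F →ₗ[ℝ] F).comp (R₀ : F →ₗ[ℝ] F)) (R₀ : F →ₗ[ℝ] F) =
      innerₗ F := by
    refine LinearMap.ext_basis b.toBasis b.toBasis ?_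
    intro i j
    show ⟪A (R₀ (b.toBasis i)), R₀ (b.toBasis j)⟫_ℝ = ⟪b.toBasis i, b.toBasis j⟫_ℝ
    rw [OrthonormalBasis.coe_toBasis, hR₀b, hR₀b, map_smul, hAb, inner_smul_left, inner_smul_left,
      inner_smul_right, hbb]
    by_cases h : i = j
    · subst h
      simp only [if_pos]
      have h1 : √(l i) * √(l i) = l i := Real.mul_self_sqrt (hlp i).le
      have h2 : √(l i) ≠ 0 := (Real.sqrt_pos.2 (hlp i)).ne'
      simp only [conj_trivial]
      field_simp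
      nlinarith
    · rw [if_neg h]
      simp
  intro u v
  exact congrArg (fun B : F →ₗ[ℝ] F →ₗ[ℝ] ℝ => B u v) key

theorem abstractC'_L0 {F E : Type} [NormedAddCommGroup F] [InnerProductSpace ℝ F]
    [NormedAddCommGroup E] [NormedSpace ℝ E] (H : F → E) (a₀ : F) (R : F ≃L[ℝ] F) (y : F) :
    fderiv ℝ (fun y => H (a₀ + R y)) y = (fderiv ℝ H (a₀ + R y)).comp (R : F →L[ℝ] F) := by
  have h1 : fderiv ℝ ((fun x => H (a₀ + x)) ∘ R) y =
      (fderiv ℝ (fun x => H (a₀ + x)) (R y)).comp (R : F →L[ℝ] F) := R.comp_right_fderiv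
  rw [fderiv_comp_add_left] at h1
  exact h1

theorem abstractC'_L1 {F E E' : Type} [NormedAddCommGroup F] [InnerProductSpace ℝ F]
    [NormedAddCommGroup E] [NormedSpace ℝ E] [NormedAddCommGroup E'] [NormedSpace ℝ E']
    (H : F → E) (a₀ : F) (R : F ≃L[ℝ] F) (e : E ≃L[ℝ] E') (y : F) :
    fderiv ℝ (fun y => e (H (a₀ + R y))) y =
      (e : E →L[ℝ] E').comp ((fderiv ℝ H (a₀ + R y)).comp (R : F →L[ℝ] F)) := by
  have h1 : fderiv ℝ (e ∘ fun y => H (a₀ + R y)) y =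
      (e : E →L[ℝ] E').comp (fderiv ℝ (fun y => H (a₀ + R y)) y) := e.comp_fderiv
  rw [abstractC'_L0] at h1
  exact h1


/-! PLAIN PROOF OF THE TARGET(S)

There is a linear automorphism R of F with <G(a0) R u, R v> = <u,v> (G(a0) is symmetric positive definite: take a basis orthonormal for the inner product
<G(a0)·,·>, or R = G(a0)^{-1/2}, e.g. from the orthonormal eigenbasis `LinearMap.IsSymmetric.eigenvectorBasis` of G(a0), R = sum of λ_i^{-1/2} times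
the projections; R may be taken symmetric).  Put f1(y) = f(a0 + R y), G1(y) = R† G(a0 + R y) R, a1 = 0.  D²f1(y)(u,v) = D²f(a0+Ry)(Ru,Rv) etc.
G1(0) = 1.  The hypothesis hDC transfers: the pencil equation for (f1,G1,τ,u) is that for (f,G,τ,Ru), |D³f1(y)(k³)| = |D³f(a)( (Rk)³)| ≤ C|τ||Rk|³ ≤
C‖R‖³|τ||k|³.  K1 = R^{-1}K is the kernel of D²f1(0).  abstractC gives h1 : K1 → K1^⊥; put ψ(e) = a0 + R(R^{-1}e + h1(R^{-1}e)) for e ∈ K;
ψ'(0)v = R(R^{-1}v + 0) = v and Df(ψ e) ∘ R = Df1(..) = 0, so Df(ψ e) = 0.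
-/

section
variable {F : Type} [NormedAddCommGroup F] [InnerProductSpace ℝ F] [FiniteDimensional ℝ F]

/-- TARGET -/
theorem abstractC' (f : F → ℝ) (a₀ : F) (hf : AnalyticAt ℝ f a₀) (h0 : fderiv ℝ f a₀ = 0)
    (G : F → F →L[ℝ] F) (hG : ContinuousAt G a₀) (hG0 : ∀ u, u ≠ 0 → 0 < ⟪G a₀ u, u⟫_ℝ)
    (hGs : ∀ a u v, ⟪G a u, v⟫_ℝ = ⟪u, G a v⟫_ℝ) (C δ : ℝ) (hδ : 0 < δ)
    (hDC : ∀ᶠ a in 𝓝 a₀, ∀ (τ : ℝ) (k : F), |τ| < δ → k ≠ 0 →
      (∀ u, (∀ v, fderiv ℝ (fderiv ℝ f) a u v = τ * ⟪G a u, v⟫_ℝ) ↔ ∃ r : ℝ, u = r • k) →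
      |fderiv ℝ (fderiv ℝ (fderiv ℝ f)) a k k k| ≤ C * |τ| * ‖k‖ ^ 3)
    (K : Submodule ℝ F) (hK : ∀ k, k ∈ K ↔ fderiv ℝ (fderiv ℝ f) a₀ k = 0) :
    ∃ ψ : K → F, AnalyticAt ℝ ψ 0 ∧ ψ 0 = a₀ ∧ (∀ v, fderiv ℝ ψ 0 v = v) ∧
      ∀ᶠ e in 𝓝 (0 : K), fderiv ℝ f (ψ e) = 0 := by
  have hcF : CompleteSpace F := FiniteDimensional.complete ℝ F
  obtain ⟨R, hR⟩ := abstractC'_sqrt (G a₀) (hGs a₀) hG0
  set f₁ : F → ℝ := fun y => f (a₀ + R y) with hf₁
  set P : (F →L[ℝ] ℝ) ≃L[ℝ] (F →L[ℝ] ℝ) :=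
    R.symm.arrowCongr (ContinuousLinearEquiv.refl ℝ ℝ) with hP
  have hPa : ∀ (T : F →L[ℝ] ℝ) (v : F), P T v = T (R v) := fun T v => rfl
  set P2 : (F →L[ℝ] F →L[ℝ] ℝ) ≃L[ℝ] (F →L[ℝ] F →L[ℝ] ℝ) := R.symm.arrowCongr P with hP2
  have hP2a : ∀ (T : F →L[ℝ] F →L[ℝ] ℝ) (u v : F), P2 T u v = T (R u) (R v) := fun T u v => rfl
  have D1 : fderiv ℝ f₁ = fun y => P (fderiv ℝ f (a₀ + R y)) := by
    funext y
    rw [hf₁, abstractC'_L0]
    rfl
  have D2 : fderiv ℝ (fderiv ℝ f₁) = fun y => P2 (fderiv ℝ (fderiv ℝ f) (a₀ + R y)) := by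
    funext y
    rw [D1, abstractC'_L1 (fderiv ℝ f) a₀ R P y]
    rfl
  have D3 : ∀ y u v w, fderiv ℝ (fderiv ℝ (fderiv ℝ f₁)) y u v w =
      fderiv ℝ (fderiv ℝ (fderiv ℝ f)) (a₀ + R y) (R u) (R v) (R w) := by
    intro y u v w
    rw [D2, abstractC'_L1 (E := F →L[ℝ] F →L[ℝ] ℝ) (E' := F →L[ℝ] F →L[ℝ] ℝ)
      (fderiv ℝ (fderiv ℝ f)) a₀ R P2 y]
    rfl
  have D2a : ∀ y u v, fderiv ℝ (fderiv ℝ f₁) y u v =
      fderiv ℝ (fderiv ℝ f) (a₀ + R y) (R u) (R v) := by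
    intro y u v
    rw [D2]
    rfl
  have hφ0 : a₀ + R 0 = a₀ := by rw [map_zero, add_zero]
  have hφc : Continuous fun y : F => a₀ + R y := continuous_const.add R.continuous
  have hφt : Tendsto (fun y : F => a₀ + R y) (𝓝 0) (𝓝 a₀) := by
    have := hφc.tendsto 0
    rwa [hφ0] at this
  set G₁ : F → F →L[ℝ] F := fun y =>
    (ContinuousLinearMap.adjoint (R : F →L[ℝ] F)).comp ((G (a₀ + R y)).comp (R : F →L[ℝ] F)) with hG₁
  have hG₁a : ∀ y u v, ⟪G₁ y u, v⟫_ℝ = ⟪G (a₀ + R y) (R u), R v⟫_ℝ := by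
    intro y u v
    show ⟪ContinuousLinearMap.adjoint (R : F →L[ℝ] F) (G (a₀ + R y) (R u)), v⟫_ℝ = _
    rw [ContinuousLinearMap.adjoint_inner_left]
    rfl
  have hG₁b : ∀ y u v, ⟪u, G₁ y v⟫_ℝ = ⟪R u, G (a₀ + R y) (R v)⟫_ℝ := by
    intro y u v
    rw [real_inner_comm, hG₁a, real_inner_comm]
  obtain ⟨K₁, hK₁⟩ : ∃ K₁ : Submodule ℝ F, ∀ k, k ∈ K₁ ↔ R k ∈ K :=
    ⟨K.comap (R : F →ₗ[ℝ] F), fun k => Iff.rfl⟩
  obtain ⟨h, ha, hh0, hfh, hev⟩ := abstractC f₁ 0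
    (by
      have h1 : AnalyticAt ℝ f (a₀ + R 0) := by rw [hφ0]; exact hf
      have h2 : AnalyticAt ℝ (fun y : F => a₀ + R y) 0 :=
        analyticAt_const.add ((R : F →L[ℝ] F).analyticAt 0)
      exact AnalyticAt.fun_comp h1 h2)
    (by
      rw [D1]
      show P (fderiv ℝ f (a₀ + R 0)) = 0
      rw [hφ0, h0, map_zero])
    G₁
    (by
      have h1 : ContinuousAt (fun y : F => G (a₀ + R y)) 0 := by
        refine ContinuousAt.comp (f := fun y : F => a₀ + R y) (g := G) ?_ hφc.continuousAt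
        show ContinuousAt G (a₀ + R 0)
        rw [hφ0]; exact hG
      exact continuousAt_const.clm_comp (h1.clm_comp continuousAt_const))
    (by
      ext u
      refine ext_inner_right ℝ fun v => ?_
      rw [hG₁a, hφ0, hR]
      rfl)
    (by
      intro y u v
      rw [hG₁a, hG₁b, hGs])
    (|C| * ‖(R : F →L[ℝ] F)‖ ^ 3) δ hδ
    (by
      filter_upwards [hφt.eventually hDC] with y hy τ k hτ hk hu
      have hRk : R k ≠ 0 := by
        intro h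
        exact hk (R.injective (by rw [h, map_zero]))
      have h1 := hy τ (R k) hτ hRk (by
        intro u'
        have h2 := hu (R.symm u')
        have e1 : (∀ v, fderiv ℝ (fderiv ℝ f₁) y (R.symm u') v = τ * ⟪G₁ y (R.symm u'), v⟫_ℝ) ↔
            (∀ v, fderiv ℝ (fderiv ℝ f) (a₀ + R y) u' v = τ * ⟪G (a₀ + R y) u', v⟫_ℝ) := by
          constructor
          · intro h3 v
            have h4 := h3 (R.symm v)
            rw [D2a, hG₁a, R.apply_symm_apply, R.apply_symm_apply] at h4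
            exact h4
          · intro h3 v
            rw [D2a, hG₁a, R.apply_symm_apply]
            exact h3 (R v)
        have e2 : (∃ r : ℝ, R.symm u' = r • k) ↔ (∃ r : ℝ, u' = r • R k) := by
          constructor
          · rintro ⟨r, hr⟩
            refine ⟨r, ?_⟩
            rw [← map_smul, ← hr, R.apply_symm_apply]
          · rintro ⟨r, hr⟩
            refine ⟨r, ?_⟩
            rw [hr, map_smul, R.symm_apply_apply]
        exact e1.symm.trans (h2.trans e2))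
      rw [D3]
      refine h1.trans ?_
      have h5 : ‖R k‖ ≤ ‖(R : F →L[ℝ] F)‖ * ‖k‖ := (R : F →L[ℝ] F).le_opNorm k
      have h6 : ‖R k‖ ^ 3 ≤ (‖(R : F →L[ℝ] F)‖ * ‖k‖) ^ 3 :=
        pow_le_pow_left₀ (norm_nonneg _) h5 3
      calc C * |τ| * ‖R k‖ ^ 3 ≤ |C| * |τ| * ‖R k‖ ^ 3 := by
            gcongr
            exact le_abs_self C
        _ ≤ |C| * |τ| * (‖(R : F →L[ℝ] F)‖ * ‖k‖) ^ 3 := by gcongr
        _ = |C| * ‖(R : F →L[ℝ] F)‖ ^ 3 * |τ| * ‖k‖ ^ 3 := by ring)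
    K₁
    (by
      intro k
      rw [hK₁, hK, D2]
      show _ ↔ P2 (fderiv ℝ (fderiv ℝ f) (a₀ + R 0)) k = 0
      rw [hφ0]
      show _ ↔ P (fderiv ℝ (fderiv ℝ f) a₀ (R k)) = 0
      rw [map_eq_zero_iff P P.injective])
  set J : K →L[ℝ] K₁ := ((R.symm : F →L[ℝ] F).comp K.subtypeL).codRestrict K₁ (by
    intro e
    show R.symm (e : F) ∈ K₁
    rw [hK₁, R.apply_symm_apply]
    exact e.2) with hJ
  have hJa : ∀ e : K, ((J e : K₁) : F) = R.symm (e : F) := fun e => rfl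
  have hJ0 : J 0 = 0 := map_zero J
  have haJ : AnalyticAt ℝ (fun e : K => h (J e)) 0 := by
    have h1 : AnalyticAt ℝ h (J 0) := by rw [hJ0]; exact ha
    exact AnalyticAt.fun_comp h1 (J.analyticAt 0)
  refine ⟨fun e => a₀ + R ((J e : F) + (h (J e) : F)), ?_, ?_, ?_, ?_⟩
  · refine analyticAt_const.add ?_
    have h1 : AnalyticAt ℝ (fun e : K => ((J e : K₁) : F) + ((h (J e) : K₁ᗮ) : F)) 0 := by
      refine AnalyticAt.add ?_ ?_
      · exact (K₁.subtypeL.comp J).analyticAt 0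
      · exact AnalyticAt.fun_comp (K₁ᗮ.subtypeL.analyticAt _) haJ
    exact AnalyticAt.fun_comp ((R : F →L[ℝ] F).analyticAt _) h1
  · show a₀ + R (((J 0 : K₁) : F) + ((h (J 0) : K₁ᗮ) : F)) = a₀
    rw [hJ0, hh0]
    simp
  · intro v
    have h1 : HasFDerivAt (fun e : K => h (J e)) ((fderiv ℝ h 0).comp J) 0 := by
      have h2 : HasFDerivAt h (fderiv ℝ h 0) (J 0) := by
        rw [hJ0]; exact ha.differentiableAt.hasFDerivAt
      exact h2.comp 0 J.hasFDerivAt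
    rw [hfh] at h1
    have h3 : HasFDerivAt (fun e : K => ((h (J e) : K₁ᗮ) : F))
        (K₁ᗮ.subtypeL.comp ((0 : K₁ →L[ℝ] K₁ᗮ).comp J)) 0 :=
      K₁ᗮ.subtypeL.hasFDerivAt.comp 0 h1
    have h4 : HasFDerivAt (fun e : K => ((J e : K₁) : F)) (K₁.subtypeL.comp J) 0 :=
      (K₁.subtypeL.comp J).hasFDerivAt
    have h5 := ((R : F →L[ℝ] F).hasFDerivAt.comp 0 (h4.add h3)).const_add a₀
    have h6 : HasFDerivAt (fun e : K => a₀ + R (((J e : K₁) : F) + ((h (J e) : K₁ᗮ) : F)))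
      ((R : F →L[ℝ] F).comp (K₁.subtypeL.comp J +
        K₁ᗮ.subtypeL.comp ((0 : K₁ →L[ℝ] K₁ᗮ).comp J))) 0 := h5
    rw [h6.fderiv]
    show R (((J v : K₁) : F) + ((0 : K₁ᗮ) : F)) = v
    rw [hJa, Submodule.coe_zero, add_zero, R.apply_symm_apply]
  · have hJt : Tendsto J (𝓝 0) (𝓝 0) := by
      have := J.continuous.tendsto 0
      rwa [hJ0] at this
    filter_upwards [hJt.eventually hev] with e he
    rw [D1] at he
    have h1 : P (fderiv ℝ f (a₀ + R (0 + ((J e : K₁) : F) + ((h (J e) : K₁ᗮ) : F)))) = 0 := he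
    rw [map_eq_zero_iff P P.injective, zero_add] at h1
    exact h1


end

end Pool.Agent.H469
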