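import Pool.Agent.Helper469_Dupin.DefsB

set_option autoImplicit false

open Set Filter Topology MeasureTheory
open scoped ContDiff InnerProductSpace

namespace Pool.Agent.H469


section
variable {n : ℕ}

theorem circ_deriv_D (k s : ℝ) : HasDerivAt (fun s : ℝ => 1 + s ^ 2 * k) (2 * s * k) s := by
  have := ((hasDerivAt_pow 2 s).mul_const k).const_add 1
  simpa using this

theorem circ_deriv_1 (k s : ℝ) (h : 1 + s ^ 2 * k ≠ 0) :
    HasDerivAt (fun s : ℝ => s / (1 + s ^ 2 * k)) ((1 - s ^ 2 * k) / (1 + s ^ 2 * k) ^ 2) s := by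
  have := (hasDerivAt_id' s).div (circ_deriv_D k s) h
  refine this.congr_deriv ?_
  ring

theorem circ_deriv_2 (k s : ℝ) (h : 1 + s ^ 2 * k ≠ 0) :
    HasDerivAt (fun s : ℝ => s ^ 2 / (1 + s ^ 2 * k)) (2 * s / (1 + s ^ 2 * k) ^ 2) s := by
  have := (hasDerivAt_pow 2 s).div (circ_deriv_D k s) h
  refine this.congr_deriv ?_
  push_cast
  ring

theorem circ_deriv_3 (k s : ℝ) (h : 1 + s ^ 2 * k ≠ 0) :
    HasDerivAt (fun s : ℝ => (1 - s ^ 2 * k) / (1 + s ^ 2 * k))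
      (-(4 * s * k) / (1 + s ^ 2 * k) ^ 2) s := by
  have h0 : HasDerivAt (fun s : ℝ => 1 - s ^ 2 * k) (-(2 * s * k)) s := by
    have := ((hasDerivAt_pow 2 s).mul_const k).const_sub 1
    simpa using this
  have := h0.div (circ_deriv_D k s) h
  refine this.congr_deriv ?_
  ring

theorem circ_deriv_4 (k s : ℝ) (h : 1 + s ^ 2 * k ≠ 0) :
    HasDerivAt (fun s : ℝ => (2 * s) / (1 + s ^ 2 * k))
      (2 * (1 - s ^ 2 * k) / (1 + s ^ 2 * k) ^ 2) s := by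
  have h0 : HasDerivAt (fun s : ℝ => 2 * s) 2 s := by
    simpa using (hasDerivAt_id' s).const_mul 2
  have := h0.div (circ_deriv_D k s) h
  refine this.congr_deriv ?_
  ring

theorem circ_deriv_pos (q : Eu n) (s : ℝ) : 0 < 1 + s ^ 2 * ‖q‖ ^ 2 := by positivity

theorem circ_group_inner (e q : Eu n) (he : ‖e‖ = 1) (heq : ⟪e, q⟫_ℝ = 0) (a b c d : ℝ) :
    ⟪a • e + b • q, c • e + d • q⟫_ℝ = a * c + b * d * ‖q‖ ^ 2 := by
  have h1 : ⟪e, e⟫_ℝ = 1 := by rw [real_inner_self_eq_norm_sq, he]; norm_num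
  have h2 : ⟪q, q⟫_ℝ = ‖q‖ ^ 2 := real_inner_self_eq_norm_sq q
  have h3 : ⟪q, e⟫_ℝ = 0 := by rw [real_inner_comm]; exact heq
  simp only [inner_add_left, inner_add_right, real_inner_smul_left, real_inner_smul_right, h1, h2,
    h3, heq]
  ring

theorem circ_group_norm (e q : Eu n) (he : ‖e‖ = 1) (heq : ⟪e, q⟫_ℝ = 0) (a b : ℝ) :
    ‖a • e + b • q‖ ^ 2 = a ^ 2 + b ^ 2 * ‖q‖ ^ 2 := by
  rw [← real_inner_self_eq_norm_sq, circ_group_inner e q he heq]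
  ring

theorem circ_group_E (e q : Eu n) (s : ℝ) : circE e q s =
    ((1 - s ^ 2 * ‖q‖ ^ 2) / (1 + s ^ 2 * ‖q‖ ^ 2)) • e + (2 * s / (1 + s ^ 2 * ‖q‖ ^ 2)) • q := by
  unfold circE
  module

theorem circ_group_Q (e q : Eu n) (s : ℝ) : circQ e q s =
    (-(2 * s * ‖q‖ ^ 2) / (1 + s ^ 2 * ‖q‖ ^ 2)) • e +
      ((1 - s ^ 2 * ‖q‖ ^ 2) / (1 + s ^ 2 * ‖q‖ ^ 2)) • q := by
  unfold circQ
  module

theorem circ_group_C (x e q : Eu n) (s : ℝ) : circ x e q s =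
    x + ((s / (1 + s ^ 2 * ‖q‖ ^ 2)) • e + (s ^ 2 / (1 + s ^ 2 * ‖q‖ ^ 2)) • q) := by
  unfold circ
  module

theorem circ_group_s0 (P Q d r k : ℝ) (hd : d ≠ 0) (h : d ^ 2 + r ^ 2 * k = P * Q) :
    1 + (r / d) ^ 2 * k = P * Q / d ^ 2 := by
  rw [← h]
  field_simp

theorem circ_group_s1 (P Q d r s σ a b : ℝ) (hP : P ≠ 0) (hQ : Q ≠ 0) (hd : d ≠ 0)
    (h : s * Q + σ * a + σ ^ 2 * b = r * d) :
    s / P + σ / Q * (a / P) + σ ^ 2 / Q * (b / P) = r / d / (P * Q / d ^ 2) := by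
  have e1 : s / P + σ / Q * (a / P) + σ ^ 2 / Q * (b / P) =
      (s * Q + σ * a + σ ^ 2 * b) / (P * Q) := by
    field_simp
  have e2 : r / d / (P * Q / d ^ 2) = (r * d) / (P * Q) := by
    field_simp
  rw [e1, e2, h]

theorem circ_group_s2 (P Q d r s σ a b : ℝ) (hP : P ≠ 0) (hQ : Q ≠ 0) (hd : d ≠ 0)
    (h : s ^ 2 * Q + σ * a + σ ^ 2 * b = r ^ 2) :
    s ^ 2 / P + σ / Q * (a / P) + σ ^ 2 / Q * (b / P) = (r / d) ^ 2 / (P * Q / d ^ 2) := by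
  have e1 : s ^ 2 / P + σ / Q * (a / P) + σ ^ 2 / Q * (b / P) =
      (s ^ 2 * Q + σ * a + σ ^ 2 * b) / (P * Q) := by
    field_simp
  have e2 : (r / d) ^ 2 / (P * Q / d ^ 2) = r ^ 2 / (P * Q) := by
    field_simp
  rw [e1, e2, h]

end


/-! PLAIN PROOF OF THE TARGET(S)

k = |q|², Dn = 1 + s² k > 0.  circ_deriv: coordinates: circ = x + (s/Dn) e + (s²/Dn) q, circE = ((1-s²k)/Dn) e + (2s/Dn) q,
circQ = ((1-s²k)/Dn) q - (2sk/Dn) e; d/ds (s/Dn) = (1-s²k)/Dn², d/ds (s²/Dn) = 2s/Dn², d/ds ((1-s²k)/Dn) = -4sk/Dn²,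
d/ds (2s/Dn) = 2(1-s²k)/Dn².
circ_group: inner products with |e| = 1, <e,q> = 0, <q,q> = k; |circ - x|² = (s² + s⁴ k)/Dn² = s²/Dn.  The last identity: both sides are
x + (scalar) e + (scalar) q; compare the two scalars (rational identities in s, σ, k with |circQ| = |q|, so the second circle has the same k;
Dn ≠ 0, 1 + σ² k ≠ 0, 1 - k s σ ≠ 0; note (1-ksσ)² + k (s+σ)² = (1+k s²)(1+k σ²)); field_simp; ring.
-/

section
variable {n : ℕ}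

/-- TARGET -/
theorem circ_deriv (x e q : Eu n) (s : ℝ) :
    HasDerivAt (circ x e q) ((1 + s ^ 2 * ‖q‖ ^ 2)⁻¹ • circE e q s) s ∧
    HasDerivAt (circE e q) ((2 * (1 + s ^ 2 * ‖q‖ ^ 2)⁻¹) • circQ e q s) s ∧
    HasDerivAt (circQ e q) (-((2 * ‖q‖ ^ 2 * (1 + s ^ 2 * ‖q‖ ^ 2)⁻¹) • circE e q s)) s := by
  have h := (circ_deriv_pos q s).ne'
  refine ⟨?_, ?_, ?_⟩
  · have e1 : circ x e q = fun s => x + ((s / (1 + s ^ 2 * ‖q‖ ^ 2)) • e +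
        (s ^ 2 / (1 + s ^ 2 * ‖q‖ ^ 2)) • q) := by
      ext1 s
      exact circ_group_C x e q s
    rw [e1]
    have := (((circ_deriv_1 (‖q‖ ^ 2) s h).smul_const e).add
      ((circ_deriv_2 (‖q‖ ^ 2) s h).smul_const q)).const_add x
    refine this.congr_deriv ?_
    rw [circ_group_E]
    generalize 1 + s ^ 2 * ‖q‖ ^ 2 = D
    module
  · have e1 : circE e q = fun s => ((1 - s ^ 2 * ‖q‖ ^ 2) / (1 + s ^ 2 * ‖q‖ ^ 2)) • e +
        (2 * s / (1 + s ^ 2 * ‖q‖ ^ 2)) • q := by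
      ext1 s
      exact circ_group_E e q s
    rw [e1]
    have := (((circ_deriv_3 (‖q‖ ^ 2) s h).smul_const e).add
      ((circ_deriv_4 (‖q‖ ^ 2) s h).smul_const q))
    refine this.congr_deriv ?_
    rw [circ_group_Q]
    generalize 1 + s ^ 2 * ‖q‖ ^ 2 = D
    module
  · have e1 : circQ e q = fun s => (-(‖q‖ ^ 2) * (2 * s / (1 + s ^ 2 * ‖q‖ ^ 2))) • e +
        ((1 - s ^ 2 * ‖q‖ ^ 2) / (1 + s ^ 2 * ‖q‖ ^ 2)) • q := by
      ext1 s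
      rw [circ_group_Q]
      module
    rw [e1]
    have := ((((circ_deriv_4 (‖q‖ ^ 2) s h).const_mul (-(‖q‖ ^ 2))).smul_const e).add
      ((circ_deriv_3 (‖q‖ ^ 2) s h).smul_const q))
    refine this.congr_deriv ?_
    rw [circ_group_E]
    generalize 1 + s ^ 2 * ‖q‖ ^ 2 = D
    module

/-- TARGET -/
theorem circ_group (x e q : Eu n) (he : ‖e‖ = 1) (heq : ⟪e, q⟫_ℝ = 0) (s : ℝ) :
    ‖circE e q s‖ = 1 ∧ ⟪circE e q s, circQ e q s⟫_ℝ = 0 ∧ ‖circQ e q s‖ = ‖q‖ ∧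
      ‖circ x e q s - x‖ ^ 2 = s ^ 2 * (1 + s ^ 2 * ‖q‖ ^ 2)⁻¹ ∧
      ∀ σ : ℝ, 1 - ‖q‖ ^ 2 * s * σ ≠ 0 →
        circ (circ x e q s) (circE e q s) (circQ e q s) σ =
          circ x e q ((s + σ) / (1 - ‖q‖ ^ 2 * s * σ)) := by
  have h := (circ_deriv_pos q s).ne'
  have hQ : ‖circQ e q s‖ = ‖q‖ := by
    have h2 : ‖circQ e q s‖ ^ 2 = ‖q‖ ^ 2 := by
      rw [circ_group_Q, circ_group_norm e q he heq]
      field_simp
      ring
    exact (sq_eq_sq₀ (norm_nonneg _) (norm_nonneg _)).1 h2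
  refine ⟨?_, ?_, hQ, ?_, ?_⟩
  · have h2 : ‖circE e q s‖ ^ 2 = 1 ^ 2 := by
      rw [circ_group_E, circ_group_norm e q he heq]
      field_simp
      ring
    exact (sq_eq_sq₀ (norm_nonneg _) zero_le_one).1 h2
  · rw [circ_group_E, circ_group_Q, circ_group_inner e q he heq]
    field_simp
    ring
  · rw [circ_group_C, add_sub_cancel_left, circ_group_norm e q he heq]
    field_simp
  · intro σ hσ
    have h1 := (circ_deriv_pos q σ).ne'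
    rw [circ_group_C (circ x e q s), hQ, circ_group_E, circ_group_Q, circ_group_C, circ_group_C]
    have h2 : 1 + ((s + σ) / (1 - ‖q‖ ^ 2 * s * σ)) ^ 2 * ‖q‖ ^ 2 =
        (1 + s ^ 2 * ‖q‖ ^ 2) * (1 + σ ^ 2 * ‖q‖ ^ 2) / (1 - ‖q‖ ^ 2 * s * σ) ^ 2 :=
      circ_group_s0 _ _ _ _ _ hσ (by ring)
    rw [h2]
    generalize ‖q‖ ^ 2 = k at *
    have e1 : s / (1 + s ^ 2 * k) + σ / (1 + σ ^ 2 * k) * ((1 - s ^ 2 * k) / (1 + s ^ 2 * k)) +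
        σ ^ 2 / (1 + σ ^ 2 * k) * (-(2 * s * k) / (1 + s ^ 2 * k)) =
        (s + σ) / (1 - k * s * σ) / ((1 + s ^ 2 * k) * (1 + σ ^ 2 * k) / (1 - k * s * σ) ^ 2) :=
      circ_group_s1 _ _ _ _ _ _ _ _ h h1 hσ (by ring)
    have e2 : s ^ 2 / (1 + s ^ 2 * k) + σ / (1 + σ ^ 2 * k) * (2 * s / (1 + s ^ 2 * k)) +
        σ ^ 2 / (1 + σ ^ 2 * k) * ((1 - s ^ 2 * k) / (1 + s ^ 2 * k)) =
        ((s + σ) / (1 - k * s * σ)) ^ 2 /
          ((1 + s ^ 2 * k) * (1 + σ ^ 2 * k) / (1 - k * s * σ) ^ 2) :=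
      circ_group_s2 _ _ _ _ _ _ _ _ h h1 hσ (by ring)
    rw [← e1, ← e2]
    module

end

end Pool.Agent.H469
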