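import Pool.Agent.Helper469_Dupin.Chart

set_option autoImplicit false

open Set Filter Topology MeasureTheory
open scoped ContDiff InnerProductSpace

namespace Pool.Agent.H469


/-! PLAIN PROOF OF THE TARGET(S)

For a in O, g is C^∞ near a.  <Hop g a b u, v> = d/dt <nrm g (a+tu) b, v> = d/dt <b, Dg(a+tu) v> = <b, D²g(a)(u,v)>, i.e.
Hop g a b u = (adjoint (fderiv ℝ (fderiv ℝ g) a u)) b, symmetric in u, v by symmetry of second derivatives
(`ContDiffAt.isSymmSndFDerivAt`); Gop is symmetric.  Smoothness: on the open set O, `fderiv ℝ g` and `fderiv ℝ (fderiv ℝ g)` are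
C^∞ (`ContDiffOn.fderiv_of_isOpen`), `ContinuousLinearMap.adjoint` is a continuous (semi)linear isometric equivalence (over ℝ view it
as a continuous linear map), composition and evaluation are continuous bilinear.  For `Hop` as an operator valued function of
(a, b) use the formula Hop g a b = the continuous linear map u ↦ adjoint (fderiv ℝ (fderiv ℝ g) a u) b (a composition of continuous
(bi)linear maps applied to the smooth data).
-/

section
variable {F W : Type} [NormedAddCommGroup F] [InnerProductSpace ℝ F] [FiniteDimensional ℝ F]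
  [NormedAddCommGroup W] [InnerProductSpace ℝ W] [FiniteDimensional ℝ W]

/-- adjoint as a real continuous linear map -/
noncomputable def lop_symm_adj : (F →L[ℝ] W) →L[ℝ] (W →L[ℝ] F) :=
  LinearMap.mkContinuous
    { toFun := fun A => ContinuousLinearMap.adjoint A
      map_add' := fun A B => map_add _ A B
      map_smul' := fun r A => by simp } 1 (fun A => by simp)

theorem lop_symm_adj_apply (A : F →L[ℝ] W) :
    lop_symm_adj A = ContinuousLinearMap.adjoint A := rfl

theorem lop_symm_hop (g : F → W) (O : Set F) (hO : IsOpen O) (hg : ContDiffOn ℝ ∞ g O) (a : F)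
    (ha : a ∈ O) (b : W) :
    Hop g a b = ((ContinuousLinearMap.apply ℝ F b).comp lop_symm_adj).comp
      (fderiv ℝ (fderiv ℝ g) a) := by
  have h1 : ContDiffOn ℝ ∞ (fderiv ℝ g) O := hg.fderiv_of_isOpen hO (by simp)
  have h2 : DifferentiableAt ℝ (fderiv ℝ g) a :=
    (h1.contDiffAt (hO.mem_nhds ha)).differentiableAt (by simp)
  have h3 : (fun a' => nrm g a' b) =
      ((ContinuousLinearMap.apply ℝ F b).comp lop_symm_adj) ∘ (fderiv ℝ g) := by
    funext a'
    rfl
  rw [Hop, h3]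
  exact (((ContinuousLinearMap.apply ℝ F b).comp lop_symm_adj).hasFDerivAt.comp a
    h2.hasFDerivAt).fderiv

/-- TARGET -/
theorem lop_symm (g : F → W) (O : Set F) (hO : IsOpen O) (hg : ContDiffOn ℝ ∞ g O) (a : F) (ha : a ∈ O)
    (b : W) (ε : ℝ) (u v : F) : ⟪Lop g a b ε u, v⟫_ℝ = ⟪u, Lop g a b ε v⟫_ℝ := by
  have hs : IsSymmSndFDerivAt ℝ g a :=
    (hg.contDiffAt (hO.mem_nhds ha)).isSymmSndFDerivAt (by
      rw [minSmoothness_of_isRCLikeNormedField]
      exact WithTop.coe_le_coe.mpr le_top)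
  have hH : ∀ x y : F, ⟪Hop g a b x, y⟫_ℝ = ⟪b, fderiv ℝ (fderiv ℝ g) a x y⟫_ℝ := by
    intro x y
    rw [lop_symm_hop g O hO hg a ha b]
    simp only [ContinuousLinearMap.comp_apply, ContinuousLinearMap.apply_apply, lop_symm_adj_apply]
    rw [ContinuousLinearMap.adjoint_inner_left]
  have hG : ⟪Gop g a u, v⟫_ℝ = ⟪u, Gop g a v⟫_ℝ := by
    simp only [Gop, _root_.add_apply, ContinuousLinearMap.id_apply,
      ContinuousLinearMap.comp_apply, inner_add_left, inner_add_right,
      ContinuousLinearMap.adjoint_inner_left, ContinuousLinearMap.adjoint_inner_right]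
  simp only [Lop, _root_.sub_apply, _root_.smul_apply, inner_sub_left,
    inner_sub_right, inner_smul_left, inner_smul_right]
  rw [hG, hH u v, real_inner_comm (Hop g a b v) u, hH v u, hs.eq u v]
  simp

/-- TARGET -/
theorem lop_smooth (g : F → W) (O : Set F) (hO : IsOpen O) (hg : ContDiffOn ℝ ∞ g O) :
    ContDiffOn ℝ ∞ (fun p : (F × W) × ℝ => Lop g p.1.1 p.1.2 p.2) {p | p.1.1 ∈ O} := by
  have h1 : ContDiffOn ℝ ∞ (fderiv ℝ g) O := hg.fderiv_of_isOpen hO (by simp)
  have h2 : ContDiffOn ℝ ∞ (fderiv ℝ (fderiv ℝ g)) O := h1.fderiv_of_isOpen hO (by simp)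
  have hm : MapsTo (fun p : (F × W) × ℝ => p.1.1) {p | p.1.1 ∈ O} O := fun p hp => hp
  have hf : ContDiffOn ℝ ∞ (fun p : (F × W) × ℝ => p.1.1) {p | p.1.1 ∈ O} :=
    (contDiff_fst.comp contDiff_fst).contDiffOn
  have k1 : ContDiffOn ℝ ∞ (fun p : (F × W) × ℝ => fderiv ℝ g p.1.1) {p | p.1.1 ∈ O} :=
    h1.comp hf hm
  have k2 : ContDiffOn ℝ ∞ (fun p : (F × W) × ℝ => fderiv ℝ (fderiv ℝ g) p.1.1)
      {p | p.1.1 ∈ O} := h2.comp hf hm
  have k3 : ContDiffOn ℝ ∞ (fun p : (F × W) × ℝ => lop_symm_adj (fderiv ℝ g p.1.1))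
      {p | p.1.1 ∈ O} := (lop_symm_adj (F := F) (W := W)).contDiff.comp_contDiffOn k1
  have k4 : ContDiffOn ℝ ∞ (fun p : (F × W) × ℝ => Gop g p.1.1) {p | p.1.1 ∈ O} := by
    have := contDiffOn_const (c := ContinuousLinearMap.id ℝ F) |>.add (k3.clm_comp k1)
    exact this
  have k5 : ContDiffOn ℝ ∞ (fun p : (F × W) × ℝ =>
      (ContinuousLinearMap.apply ℝ F p.1.2).comp (lop_symm_adj (F := F) (W := W)))
      {p | p.1.1 ∈ O} := by
    have e0 : ContDiff ℝ ∞ (fun w : W => ContinuousLinearMap.apply ℝ F w) := by fun_prop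
    have e1 : ContDiff ℝ ∞ (fun p : (F × W) × ℝ => ContinuousLinearMap.apply ℝ F p.1.2) :=
      e0.comp (contDiff_snd.comp contDiff_fst)
    exact (e1.clm_comp contDiff_const).contDiffOn
  have k6 : ContDiffOn ℝ ∞ (fun p : (F × W) × ℝ => Hop g p.1.1 p.1.2) {p | p.1.1 ∈ O} := by
    refine (k5.clm_comp k2).congr ?_
    intro p hp
    exact lop_symm_hop g O hO hg p.1.1 hp p.1.2
  have k7 : ContDiffOn ℝ ∞ (fun p : (F × W) × ℝ => p.2) {p | p.1.1 ∈ O} :=
    contDiff_snd.contDiffOn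
  exact (k7.smul k4).sub k6

end

end Pool.Agent.H469
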