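import Pool.Agent.Helper469_Dupin.DefsB
import Pool.Agent.Helper469_Dupin.Jlop

set_option autoImplicit false

open Set Filter Topology MeasureTheory
open scoped ContDiff InnerProductSpace

namespace Pool.Agent.H469


/-! PLAIN PROOF OF THE TARGET(S)

Write z = (a,b), P e, Q e the projections of e(z) to T, Tᗮ, so e = P e + Q e, Q e = Dg(a)(P e) (tang), Xf z = (P e, -ρ Q e).  g is smooth on O
(open), z.1 ∈ O for z ∈ N; nrm g a b = Dg(a)† b is smooth in (a,b) (the adjoint is a continuous linear map), so xpt, nvec, wpt, Xf are smooth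
on N, and qf = (1/2) De(Xf) is smooth on N (fderiv of a smooth function on an open set).
leaf_id.  D xpt(z)(u,v) = u + Dg(a) u; for Xf it is P e + Dg(a) P e = e.  D nvec(z)(u,v) = -(Hop g a b u + nrm g a v) + v
(Hop g a b u is by definition the derivative of a' ↦ nrm g a' b).  For (u,v) = Xf: Lop g a b ρ (P e) = 0 (ker with r = 1) says
ρ (P e + Dg† Dg P e) - Hop P e = 0, so -(Hop P e - ρ nrm g a (Q e)) - ρ Q e = -ρ P e - ρ Q e = -ρ e.  D wpt = D nvec + Dρ • x + ρ D xpt, at Xf: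
-ρ e + 0 + ρ e = 0 (dr).  |e|² = 1 on the open set N gives <e, De(Xf)> = 0, so <e, qf> = 0.  nvec ≠ 0: its Tᗮ-part is z.2 ≠ 0.
Kernel: if D wpt(u,v) = 0 and Dρ(u,v) = 0 then D nvec(u,v) + ρ D xpt(u,v) = 0: T-part: -(Hop u + nrm g a v) + ρ u = 0, Tᗮ-part: v + ρ Dg u = 0.
So v = -ρ Dg u and ρ u - Hop u + ρ Dg†Dg u = Lop g a b ρ u = 0, so u = r P e and v = -ρ r Q e.  Last: <-nrm g a b + b, u + Dg(a)u> =
-<Dg† b, u> + <b, Dg u> = 0.
-/

section
variable {F W : Type} [NormedAddCommGroup F] [InnerProductSpace ℝ F] [FiniteDimensional ℝ F]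
  [NormedAddCommGroup W] [InnerProductSpace ℝ W] [FiniteDimensional ℝ W]

/-- the adjoint as a real linear map -/
noncomputable def leaf_smooth_adj : (F →L[ℝ] W) →L[ℝ] (W →L[ℝ] F) :=
  LinearMap.mkContinuous
    { toFun := fun A => ContinuousLinearMap.adjoint A
      map_add' := fun A B => map_add _ A B
      map_smul' := fun c A => by
        rw [map_smulₛₗ]
        simp } 1 (fun A => by
          rw [one_mul]
          exact le_of_eq (LinearIsometryEquiv.norm_map ContinuousLinearMap.adjoint A))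

theorem leaf_smooth_adj_apply (A : F →L[ℝ] W) :
    leaf_smooth_adj A = ContinuousLinearMap.adjoint A := rfl

theorem leaf_smooth_fd {g : F → W} {O : Set F} (hO : IsOpen O) (hg : ContDiffOn ℝ ∞ g O) :
    ContDiffOn ℝ ∞ (fderiv ℝ g) O := hg.fderiv_of_isOpen hO (by simp)

theorem leaf_smooth_A {g : F → W} {O : Set F} (hO : IsOpen O) (hg : ContDiffOn ℝ ∞ g O) :
    ContDiffOn ℝ ∞ (fun a => leaf_smooth_adj (fderiv ℝ g a)) O :=
  (leaf_smooth_adj (F := F) (W := W)).contDiff.comp_contDiffOn (leaf_smooth_fd hO hg)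

theorem leaf_smooth_nrm {g : F → W} {O : Set F} (hO : IsOpen O) (hg : ContDiffOn ℝ ∞ g O) :
    ContDiffOn ℝ ∞ (fun z : F × W => nrm g z.1 z.2) {z | z.1 ∈ O} := by
  have h1 : ContDiffOn ℝ ∞ (fun z : F × W => leaf_smooth_adj (fderiv ℝ g z.1)) {z | z.1 ∈ O} :=
    (leaf_smooth_A hO hg).comp contDiff_fst.contDiffOn (fun z hz => hz)
  exact h1.clm_apply contDiff_snd.contDiffOn

theorem leaf_id_nrm {g : F → W} {O : Set F} (hO : IsOpen O) (hg : ContDiffOn ℝ ∞ g O) (a : F)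
    (ha : a ∈ O) (b : W) (ζ : F × W) :
    fderiv ℝ (fun z : F × W => nrm g z.1 z.2) (a, b) ζ = Hop g a b ζ.1 + nrm g a ζ.2 := by
  have h1 : DifferentiableAt ℝ (fun a => leaf_smooth_adj (fderiv ℝ g a)) a :=
    ((leaf_smooth_A hO hg).contDiffAt (hO.mem_nhds ha)).differentiableAt (by simp)
  have h2 : HasFDerivAt (fun z : F × W => leaf_smooth_adj (fderiv ℝ g z.1))
      ((fderiv ℝ (fun a => leaf_smooth_adj (fderiv ℝ g a)) a).comp
        (ContinuousLinearMap.fst ℝ F W)) (a, b) := by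
    have h3 : HasFDerivAt (fun a => leaf_smooth_adj (fderiv ℝ g a))
      (fderiv ℝ (fun a => leaf_smooth_adj (fderiv ℝ g a)) a) ((a, b) : F × W).1 := h1.hasFDerivAt
    exact h3.comp (a, b) hasFDerivAt_fst
  have h4 := h2.clm_apply (hasFDerivAt_snd (𝕜 := ℝ) (p := (a, b)))
  have h5 : (fun z : F × W => nrm g z.1 z.2) =
      fun z : F × W => leaf_smooth_adj (fderiv ℝ g z.1) z.2 := rfl
  rw [h5, h4.fderiv]
  have h6 : HasFDerivAt (fun a' => nrm g a' b)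
      ((fderiv ℝ (fun a => leaf_smooth_adj (fderiv ℝ g a)) a).flip b) a := by
    have h7 := h1.hasFDerivAt.clm_apply (hasFDerivAt_const b a)
    have h8 : (fun a' => nrm g a' b) = fun a' => leaf_smooth_adj (fderiv ℝ g a') b := rfl
    rw [h8]
    convert h7 using 1
    ext u
    simp
  unfold Hop
  rw [h6.fderiv]
  simp [nrm, leaf_smooth_adj_apply]
  abel

end

section
variable {n m : ℕ} {M : Set (Eu n)} {T : Submodule ℝ (Eu n)} {g : T → Tᗮ} {O : Set T} {V : Set (Eu n)}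
  {N : Set (T × Tᗮ)} {ρ : T × Tᗮ → ℝ} {e : T × Tᗮ → Eu n}

theorem leaf_id_decomp (v : Eu n) :
    (T.orthogonalProjectionOnto v : Eu n) + (Tᗮ.orthogonalProjectionOnto v : Eu n) = v :=
  Submodule.starProjection_add_starProjection_orthogonal (K := T) v

theorem leaf_id_split {t : T} {s : Tᗮ} (h : (t : Eu n) + (s : Eu n) = 0) : t = 0 ∧ s = 0 := by
  have h1 : T.orthogonalProjectionOnto ((t : Eu n) + (s : Eu n)) = t := by
    rw [map_add, Submodule.orthogonalProjectionOnto_mem_subspace_eq_self,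
      Submodule.orthogonalProjectionOnto_apply_of_mem_orthogonal s.2, add_zero]
  rw [h, map_zero] at h1
  refine ⟨h1.symm, ?_⟩
  rw [← h1] at h
  apply Subtype.ext
  simpa using h

theorem leaf_id_dx (hO : IsOpen O) (hg : ContDiffOn ℝ ∞ g O) (z : T × Tᗮ) (hz : z.1 ∈ O) :
    HasFDerivAt (xpt T g)
      (T.subtypeL.comp (ContinuousLinearMap.fst ℝ T Tᗮ) +
        Tᗮ.subtypeL.comp ((fderiv ℝ g z.1).comp (ContinuousLinearMap.fst ℝ T Tᗮ))) z := by
  have hgd : HasFDerivAt g (fderiv ℝ g z.1) z.1 :=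
    ((hg.contDiffAt (hO.mem_nhds hz)).differentiableAt (by simp)).hasFDerivAt
  have h1 : HasFDerivAt (fun z : T × Tᗮ => g z.1)
      ((fderiv ℝ g z.1).comp (ContinuousLinearMap.fst ℝ T Tᗮ)) z :=
    HasFDerivAt.comp z hgd hasFDerivAt_fst
  exact (T.subtypeL.hasFDerivAt.comp z hasFDerivAt_fst).add (Tᗮ.subtypeL.hasFDerivAt.comp z h1)

theorem leaf_id_dn (hO : IsOpen O) (hg : ContDiffOn ℝ ∞ g O) (z : T × Tᗮ) (hz : z.1 ∈ O) :
    HasFDerivAt (nvec T g)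
      (T.subtypeL.comp (-(fderiv ℝ (fun z : T × Tᗮ => nrm g z.1 z.2) z)) +
        Tᗮ.subtypeL.comp (ContinuousLinearMap.snd ℝ T Tᗮ)) z := by
  have hop : IsOpen {z : T × Tᗮ | z.1 ∈ O} := hO.preimage continuous_fst
  have h1 : HasFDerivAt (fun z : T × Tᗮ => nrm g z.1 z.2)
      (fderiv ℝ (fun z : T × Tᗮ => nrm g z.1 z.2) z) z :=
    (((leaf_smooth_nrm hO hg).contDiffAt (hop.mem_nhds hz)).differentiableAt (by simp)).hasFDerivAt
  exact (T.subtypeL.hasFDerivAt.comp z h1.neg).add (Tᗮ.subtypeL.hasFDerivAt.comp z hasFDerivAt_snd)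

theorem leaf_id_perp (a : T) (b : Tᗮ) (u : T) :
    ⟪((-(nrm g a b) : T) : Eu n) + (b : Eu n), (u : Eu n) + (fderiv ℝ g a u : Eu n)⟫_ℝ = 0 := by
  have h0 : ∀ (t u : T) (b c : Tᗮ), ⟪(t : Eu n) + (b : Eu n), (u : Eu n) + (c : Eu n)⟫_ℝ =
      ⟪t, u⟫_ℝ + ⟪b, c⟫_ℝ := by
    intro t u b c
    have h1 : ⟪(t : Eu n), (c : Eu n)⟫_ℝ = 0 :=
      Submodule.inner_right_of_mem_orthogonal t.2 c.2
    have h2 : ⟪(b : Eu n), (u : Eu n)⟫_ℝ = 0 :=
      Submodule.inner_left_of_mem_orthogonal u.2 b.2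
    rw [inner_add_left, inner_add_right, inner_add_right, h1, h2, Submodule.coe_inner,
      Submodule.coe_inner]
    ring
  rw [h0, inner_neg_left]
  have h3 : ⟪nrm g a b, u⟫_ℝ = ⟪b, fderiv ℝ g a u⟫_ℝ :=
    ContinuousLinearMap.adjoint_inner_left _ _ _
  rw [h3]
  ring

/-- TARGET -/
theorem leaf_smooth (hO : IsOpen O) (hg : ContDiffOn ℝ ∞ g O) (h : LeafPre T g O N ρ e) :
    ContDiffOn ℝ ∞ (xpt T g) N ∧ ContDiffOn ℝ ∞ (nvec T g) N ∧ ContDiffOn ℝ ∞ (wpt T g ρ) N ∧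
      ContDiffOn ℝ ∞ (Xf T ρ e) N ∧ ContDiffOn ℝ ∞ (qf T ρ e) N := by
  have hgz : ContDiffOn ℝ ∞ (fun z : T × Tᗮ => g z.1) N :=
    hg.comp contDiff_fst.contDiffOn (fun z hz => (h.sub z hz).1)
  have hx : ContDiffOn ℝ ∞ (xpt T g) N :=
    (T.subtypeL.contDiff.comp_contDiffOn contDiff_fst.contDiffOn).add
      (Tᗮ.subtypeL.contDiff.comp_contDiffOn hgz)
  have hnr : ContDiffOn ℝ ∞ (fun z : T × Tᗮ => nrm g z.1 z.2) N :=
    (leaf_smooth_nrm hO hg).mono (fun z hz => (h.sub z hz).1)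
  have hn : ContDiffOn ℝ ∞ (nvec T g) N :=
    (T.subtypeL.contDiff.comp_contDiffOn hnr.neg).add
      (Tᗮ.subtypeL.contDiff.comp_contDiffOn contDiff_snd.contDiffOn)
  have hw : ContDiffOn ℝ ∞ (wpt T g ρ) N := hn.add (h.smr.smul hx)
  have hX : ContDiffOn ℝ ∞ (Xf T ρ e) N :=
    (T.orthogonalProjectionOnto.contDiff.comp_contDiffOn h.sme).prodMk
      ((h.smr.smul (Tᗮ.orthogonalProjectionOnto.contDiff.comp_contDiffOn h.sme)).neg)
  have hfe : ContDiffOn ℝ ∞ (fderiv ℝ e) N := h.sme.fderiv_of_isOpen h.openN (by simp)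
  have hq : ContDiffOn ℝ ∞ (qf T ρ e) N := (hfe.clm_apply hX).const_smul (1 / 2 : ℝ)
  exact ⟨hx, hn, hw, hX, hq⟩

set_option maxHeartbeats 2000000 in
/-- TARGET -/
theorem leaf_id (hO : IsOpen O) (hg : ContDiffOn ℝ ∞ g O) (h : LeafPre T g O N ρ e) (z : T × Tᗮ)
    (hz : z ∈ N) :
    fderiv ℝ (xpt T g) z (Xf T ρ e z) = e z ∧
    fderiv ℝ (nvec T g) z (Xf T ρ e z) = -(ρ z • e z) ∧
    fderiv ℝ (wpt T g ρ) z (Xf T ρ e z) = 0 ∧ ⟪e z, qf T ρ e z⟫_ℝ = 0 ∧ nvec T g z ≠ 0 ∧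
    (∀ ζ, fderiv ℝ (wpt T g ρ) z ζ = 0 → fderiv ℝ ρ z ζ = 0 → ∃ r : ℝ, ζ = r • Xf T ρ e z) ∧
    (∀ ζ, ⟪nvec T g z, fderiv ℝ (xpt T g) z ζ⟫_ℝ = 0) := by
  have hzO := (h.sub z hz).1
  have hz2 := (h.sub z hz).2
  have hdx := leaf_id_dx hO hg z hzO
  have hdn := leaf_id_dn hO hg z hzO
  have hρ : HasFDerivAt ρ (fderiv ℝ ρ z) z :=
    ((h.smr.contDiffAt (h.openN.mem_nhds hz)).differentiableAt (by simp)).hasFDerivAt
  have hed : HasFDerivAt e (fderiv ℝ e z) z :=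
    ((h.sme.contDiffAt (h.openN.mem_nhds hz)).differentiableAt (by simp)).hasFDerivAt
  have hdw := hdn.add (hρ.smul hdx)
  have hdw' : HasFDerivAt (wpt T g ρ) _ z := hdw
  have ex : ∀ ζ, fderiv ℝ (xpt T g) z ζ = (ζ.1 : Eu n) + (fderiv ℝ g z.1 ζ.1 : Eu n) := by
    intro ζ
    rw [hdx.fderiv]
    rfl
  have en : ∀ ζ, fderiv ℝ (nvec T g) z ζ =
      ((-(Hop g z.1 z.2 ζ.1 + nrm g z.1 ζ.2) : T) : Eu n) + (ζ.2 : Eu n) := by
    intro ζ
    rw [hdn.fderiv, ← leaf_id_nrm hO hg z.1 hzO z.2 ζ]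
    rfl
  have ew : ∀ ζ, fderiv ℝ (wpt T g ρ) z ζ =
      fderiv ℝ (nvec T g) z ζ + (ρ z • fderiv ℝ (xpt T g) z ζ + fderiv ℝ ρ z ζ • xpt T g z) := by
    intro ζ
    rw [hdw'.fderiv, hdn.fderiv, hdx.fderiv]
    rfl
  have ht := h.tang z hz
  have hk : Lop g z.1 z.2 (ρ z) (T.orthogonalProjectionOnto (e z)) = 0 :=
    (h.ker z hz _).2 ⟨1, (one_smul _ _).symm⟩
  have hLop : ∀ u : T, Lop g z.1 z.2 (ρ z) u =
      ρ z • (u + nrm g z.1 (fderiv ℝ g z.1 u)) - Hop g z.1 z.2 u := by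
    intro u
    simp [Lop, Gop, nrm]
  have e1 : fderiv ℝ (xpt T g) z (Xf T ρ e z) = e z := by
    rw [ex]
    show (T.orthogonalProjectionOnto (e z) : Eu n) +
      (fderiv ℝ g z.1 (T.orthogonalProjectionOnto (e z)) : Eu n) = e z
    rw [← ht]
    exact leaf_id_decomp (e z)
  have e2 : fderiv ℝ (nvec T g) z (Xf T ρ e z) = -(ρ z • e z) := by
    rw [en]
    have h1 : Hop g z.1 z.2 (Xf T ρ e z).1 + nrm g z.1 (Xf T ρ e z).2 =
        ρ z • T.orthogonalProjectionOnto (e z) := by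
      rw [hLop, sub_eq_zero] at hk
      show Hop g z.1 z.2 (T.orthogonalProjectionOnto (e z)) +
        nrm g z.1 (-(ρ z • Tᗮ.orthogonalProjectionOnto (e z))) = _
      rw [← hk, ht]
      simp only [nrm, map_neg, map_smul, smul_add]
      abel
    rw [h1]
    show ((-(ρ z • T.orthogonalProjectionOnto (e z)) : T) : Eu n) +
      ((-(ρ z • Tᗮ.orthogonalProjectionOnto (e z)) : Tᗮ) : Eu n) = _
    conv_rhs => rw [← leaf_id_decomp (T := T) (e z)]
    push_cast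
    rw [smul_add, neg_add]
  have e3 : fderiv ℝ (wpt T g ρ) z (Xf T ρ e z) = 0 := by
    rw [ew, e1, e2, h.dr z hz, zero_smul, add_zero, neg_add_cancel]
  have e4 : ⟪e z, qf T ρ e z⟫_ℝ = 0 := by
    have h1 : HasFDerivAt (fun y => ⟪e y, e y⟫_ℝ)
        ((fderivInnerCLM ℝ (e z, e z)).comp ((fderiv ℝ e z).prod (fderiv ℝ e z))) z :=
      hed.inner ℝ hed
    have h2 : (fun y => ⟪e y, e y⟫_ℝ) =ᶠ[𝓝 z] fun _ => (1 : ℝ) := by
      filter_upwards [h.openN.mem_nhds hz] with y hy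
      rw [real_inner_self_eq_norm_sq, h.unit y hy, one_pow]
    have h3 : HasFDerivAt (fun y => ⟪e y, e y⟫_ℝ) (0 : T × Tᗮ →L[ℝ] ℝ) z :=
      (hasFDerivAt_const (1 : ℝ) z).congr_of_eventuallyEq h2
    have h4 := congrArg (fun L => L (Xf T ρ e z)) (h1.unique h3)
    simp only [ContinuousLinearMap.comp_apply, ContinuousLinearMap.prod_apply,
      fderivInnerCLM_apply, zero_apply] at h4
    rw [real_inner_comm (e z) (fderiv ℝ e z (Xf T ρ e z))] at h4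
    unfold qf
    rw [inner_smul_right]
    linarith
  have e5 : nvec T g z ≠ 0 := by
    intro h0
    exact hz2 (leaf_id_split h0).2
  refine ⟨e1, e2, e3, e4, e5, ?_, ?_⟩
  · intro ζ h1 h2
    rw [ew, h2, zero_smul, add_zero, en, ex] at h1
    have h3 : ((-(Hop g z.1 z.2 ζ.1 + nrm g z.1 ζ.2) + ρ z • ζ.1 : T) : Eu n) +
        ((ζ.2 + ρ z • fderiv ℝ g z.1 ζ.1 : Tᗮ) : Eu n) = 0 := by
      rw [← h1]
      push_cast
      rw [smul_add]
      abel
    obtain ⟨h4, h5⟩ := leaf_id_split h3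
    have h6 : ζ.2 = -(ρ z • fderiv ℝ g z.1 ζ.1) := eq_neg_of_add_eq_zero_left h5
    have h7 : Lop g z.1 z.2 (ρ z) ζ.1 = 0 := by
      rw [hLop, ← h4, h6]
      simp only [nrm, map_neg, map_smul, smul_add]
      abel
    obtain ⟨r, hr⟩ := (h.ker z hz _).1 h7
    refine ⟨r, ?_⟩
    apply Prod.ext
    · exact hr
    · show ζ.2 = r • -(ρ z • Tᗮ.orthogonalProjectionOnto (e z))
      have h8 : fderiv ℝ g z.1 ζ.1 =
          r • fderiv ℝ g z.1 (T.orthogonalProjectionOnto (e z)) := by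
        rw [hr]
        exact (fderiv ℝ g z.1).map_smul r _
      rw [h6, h8, ht]
      generalize fderiv ℝ g z.1 (T.orthogonalProjectionOnto (e z)) = X
      generalize ρ z = c
      rw [smul_neg, smul_comm]
  · intro ζ
    rw [ex]
    exact leaf_id_perp z.1 z.2 ζ.1

end

end Pool.Agent.H469
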