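import Pool.Agent.Helper469_Dupin.Chart

set_option autoImplicit false

open Set Filter Topology MeasureTheory
open scoped ContDiff InnerProductSpace

namespace Pool.Agent.H469


/-! PLAIN PROOF OF THE TARGET(S)

Let a = P x (P the projection onto T, Q onto T^⊥), φ = cmap T g, so x = φ(a) (x ∈ M ∩ V means Q x = g(P x)).
(⊆) If c is a smooth curve in M through x, then c(t) ∈ V for small t (continuity at 0), so with α(t) = P c(t) we have α(t) ∈ O,
Q c(t) = g(α(t)), α smooth, α(0) = a; so c'(0) = α'(0) + Dg(a) α'(0).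
(⊇) For u ∈ T take α(t) = a + t u; for small t, α(t) ∈ O and φ(α(t)) ∈ V (φ is continuous at a), and Q φ(α(t)) = g(α(t)) = g(P φ(α(t))),
so φ(α(t)) ∈ M; the curve c(t) = φ(a + t u) is smooth on a small (-δ,δ) and c'(0) = u + Dg(a) u.
-/

section
variable {n m : ℕ} {M : Set (Eu n)} {T : Submodule ℝ (Eu n)} {g : T → Tᗮ} {O : Set T} {V : Set (Eu n)}

theorem br_vel_sum (T : Submodule ℝ (Eu n)) (y : Eu n) :
    ((T.orthogonalProjectionOnto y : T) : Eu n) + ((Tᗮ.orthogonalProjectionOnto y : Tᗮ) : Eu n) = y := by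
  rw [Submodule.orthogonalProjectionOnto_orthogonal]
  simp only [Submodule.starProjection_apply]
  abel

theorem br_vel_P (T : Submodule ℝ (Eu n)) (a : T) (b : Tᗮ) :
    T.orthogonalProjectionOnto ((a : Eu n) + (b : Eu n)) = a := by
  rw [map_add, Submodule.orthogonalProjectionOnto_mem_subspace_eq_self,
    Submodule.orthogonalProjectionOnto_apply_of_mem_orthogonal b.2, add_zero]

theorem br_vel_Q (T : Submodule ℝ (Eu n)) (a : T) (b : Tᗮ) :
    Tᗮ.orthogonalProjectionOnto ((a : Eu n) + (b : Eu n)) = b := by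
  rw [map_add, Submodule.orthogonalProjectionOnto_orthogonal_apply_eq_zero a.2,
    Submodule.orthogonalProjectionOnto_mem_subspace_eq_self, zero_add]

/-- derivative of `t ↦ α t + g (α t)` -/
theorem br_vel_deriv {T : Submodule ℝ (Eu n)} {g : T → Tᗮ} {a : T} (hg : DifferentiableAt ℝ g a) {α : ℝ → T} {w : T}
    (hα : HasDerivAt α w 0) (h0 : α 0 = a) :
    HasDerivAt (fun t => ((α t : T) : Eu n) + ((g (α t) : Tᗮ) : Eu n))
      ((w : Eu n) + ((fderiv ℝ g a w : Tᗮ) : Eu n)) 0 := by
  have h1 : HasDerivAt (fun t => ((α t : T) : Eu n)) (w : Eu n) 0 :=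
    (T.subtypeL.hasFDerivAt (x := α 0)).comp_hasDerivAt 0 hα
  have h2 : HasDerivAt (fun t => g (α t)) (fderiv ℝ g a w) 0 := by
    have h3 : HasFDerivAt g (fderiv ℝ g a) (α 0) := by rw [h0]; exact hg.hasFDerivAt
    exact h3.comp_hasDerivAt 0 hα
  have h4 : HasDerivAt (fun t => ((g (α t) : Tᗮ) : Eu n)) ((fderiv ℝ g a w : Tᗮ) : Eu n) 0 := by
    have h5 := (Tᗮ.subtypeL.hasFDerivAt (x := g (α 0))).comp_hasDerivAt (𝕜 := ℝ) 0 h2
    exact h5
  exact h1.add h4

/-- TARGET -/
theorem br_vel (h : IsChart ∞ m M T g O V) (x : Eu n) (hx : x ∈ M) (hxV : x ∈ V) :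
    velocities M x = Set.range (fun u : T =>
      (u : Eu n) + (fderiv ℝ g (T.orthogonalProjectionOnto x) u : Eu n)) := by
  have hO : T.orthogonalProjectionOnto x ∈ O := (h.mem x hxV).1
  have hgx : Tᗮ.orthogonalProjectionOnto x = g (T.orthogonalProjectionOnto x) := (h.mem x hxV).2.1 hx
  have hgat : ContDiffAt ℝ ∞ g (T.orthogonalProjectionOnto x) := h.smooth.contDiffAt (h.openO.mem_nhds hO)
  have hgd : DifferentiableAt ℝ g (T.orthogonalProjectionOnto x) := hgat.differentiableAt (by simp)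
  apply Set.Subset.antisymm
  · rintro v ⟨c, ⟨hc0, δ, hδ, hcs, hcM⟩, rfl⟩
    have hnhds : Ioo (-δ) δ ∈ 𝓝 (0 : ℝ) := Ioo_mem_nhds (by linarith) hδ
    have hcat : ContDiffAt ℝ ∞ c 0 := hcs.contDiffAt hnhds
    have hcd : HasDerivAt c (deriv c 0) 0 := (hcat.differentiableAt (by simp)).hasDerivAt
    have hPc : HasDerivAt (fun t => T.orthogonalProjectionOnto (c t)) (T.orthogonalProjectionOnto (deriv c 0)) 0 :=
      (T.orthogonalProjectionOnto.hasFDerivAt (x := c 0)).comp_hasDerivAt 0 hcd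
    have hP0 : (fun t => T.orthogonalProjectionOnto (c t)) 0 = T.orthogonalProjectionOnto x := by
      simp only [hc0]
    have hder := br_vel_deriv hgd hPc hP0
    have hV : ∀ᶠ t in 𝓝 (0 : ℝ), c t ∈ V :=
      hcd.continuousAt.eventually (by rw [hc0]; exact h.openV.mem_nhds hxV)
    have hev : (fun t => (((T.orthogonalProjectionOnto (c t)) : T) : Eu n) +
        ((g (T.orthogonalProjectionOnto (c t)) : Tᗮ) : Eu n)) =ᶠ[𝓝 0] c := by
      filter_upwards [hV, hnhds] with t ht1 ht2
      have h1 := (h.mem (c t) ht1).2.1 (hcM t ht2)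
      have h2 := br_vel_sum T (c t)
      rw [h1] at h2
      exact h2
    have hder2 := hder.congr_of_eventuallyEq hev.symm
    refine ⟨T.orthogonalProjectionOnto (deriv c 0), ?_⟩
    exact hder2.unique hcd
  · rintro v ⟨u, rfl⟩
    have hα : HasDerivAt (fun t : ℝ => T.orthogonalProjectionOnto x + t • u) u 0 := by
      have h1 : HasDerivAt (fun t : ℝ => t • u) ((1 : ℝ) • u) 0 := (hasDerivAt_id (0 : ℝ)).smul_const u
      rw [one_smul] at h1
      simpa using h1.const_add (T.orthogonalProjectionOnto x)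
    have hα0 : (fun t : ℝ => T.orthogonalProjectionOnto x + t • u) 0 = T.orthogonalProjectionOnto x := by simp
    have hder := br_vel_deriv hgd hα hα0
    have hc0 : (fun t : ℝ => ((T.orthogonalProjectionOnto x + t • u : T) : Eu n) +
        ((g (T.orthogonalProjectionOnto x + t • u) : Tᗮ) : Eu n)) 0 = x := by
      simp only [zero_smul, add_zero]
      rw [← hgx]
      exact br_vel_sum T x
    have hev1 : ∀ᶠ t in 𝓝 (0 : ℝ), T.orthogonalProjectionOnto x + t • u ∈ O :=
      hα.continuousAt.eventually (by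
        simp only [zero_smul, add_zero]
        exact h.openO.mem_nhds hO)
    have hev2 : ∀ᶠ t in 𝓝 (0 : ℝ), ((T.orthogonalProjectionOnto x + t • u : T) : Eu n) +
        ((g (T.orthogonalProjectionOnto x + t • u) : Tᗮ) : Eu n) ∈ V :=
      hder.continuousAt.eventually (by
        rw [hc0]
        exact h.openV.mem_nhds hxV)
    obtain ⟨δ, hδ, hball⟩ := Metric.eventually_nhds_iff.1 (hev1.and hev2)
    have hin : ∀ t ∈ Ioo (-δ) δ, dist t 0 < δ := by
      intro t ht
      rw [Real.dist_eq, sub_zero, abs_lt]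
      exact ht
    refine ⟨_, ⟨hc0, δ, hδ, ?_, ?_⟩, hder.deriv⟩
    · have hαs : ContDiff ℝ ∞ (fun t : ℝ => T.orthogonalProjectionOnto x + t • u) :=
        contDiff_const.add (contDiff_id.smul contDiff_const)
      have hgα : ContDiffOn ℝ ∞ (fun t : ℝ => g (T.orthogonalProjectionOnto x + t • u)) (Ioo (-δ) δ) :=
        h.smooth.comp hαs.contDiffOn (fun t ht => (hball (hin t ht)).1)
      exact (T.subtypeL.contDiff.comp hαs).contDiffOn.add (Tᗮ.subtypeL.contDiff.comp_contDiffOn hgα)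
    · intro t ht
      obtain ⟨h1, h2⟩ := hball (hin t ht)
      refine (h.mem _ h2).2.2 ?_
      rw [br_vel_P, br_vel_Q]

end

end Pool.Agent.H469
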