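import Pool.Agent.Helper469_Dupin.Chart
import Pool.Agent.Helper469_Dupin.Jbrvel

set_option autoImplicit false

open Set Filter Topology MeasureTheory
open scoped ContDiff InnerProductSpace

namespace Pool.Agent.H469


section
variable {n m : ℕ} {M : Set (Eu n)} {T : Submodule ℝ (Eu n)} {g : T → Tᗮ} {O : Set T} {V : Set (Eu n)}

theorem br_crit_sum (x : Eu n) : ((T.orthogonalProjectionOnto x : T) : Eu n) +
    ((Tᗮ.orthogonalProjectionOnto x : Tᗮ) : Eu n) = x :=
  T.starProjection_add_starProjection_orthogonal x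

theorem br_crit_P (a : T) : T.orthogonalProjectionOnto (cmap T g a) = a := by
  rw [cmap, map_add, Submodule.orthogonalProjectionOnto_mem_subspace_eq_self,
    Submodule.orthogonalProjectionOnto_apply_of_mem_orthogonal (g a).2, add_zero]

theorem br_crit_Q (a : T) : Tᗮ.orthogonalProjectionOnto (cmap T g a) = g a := by
  rw [cmap, map_add, Submodule.orthogonalProjectionOnto_mem_subspace_eq_self,
    Submodule.orthogonalProjectionOnto_orthogonal_apply_eq_zero a.2, zero_add]

theorem br_crit_cmap (h : IsChart ∞ m M T g O V) (y : Eu n) (hy : y ∈ M) (hyV : y ∈ V) :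
    cmap T g (T.orthogonalProjectionOnto y) = y := by
  rw [cmap, ← ((h.mem y hyV).2.1 hy), br_crit_sum]

theorem br_crit_smooth (h : IsChart ∞ m M T g O V) : ContDiffOn ℝ ∞ (cmap T g) O := by
  have h1 : ContDiffOn ℝ ∞ (fun a : T => T.subtypeL a) O := T.subtypeL.contDiff.contDiffOn
  have h2 : ContDiffOn ℝ ∞ (fun a : T => Tᗮ.subtypeL (g a)) O :=
    Tᗮ.subtypeL.contDiff.comp_contDiffOn h.smooth
  exact h1.add h2

theorem br_crit_ev (h : IsChart ∞ m M T g O V) (x : Eu n) (hxV : x ∈ V) (c : ℝ → Eu n)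
    (hc : IsCurveAt M x c) :
    ContDiffAt ℝ ∞ c 0 ∧ ∀ᶠ t in 𝓝 (0 : ℝ), T.orthogonalProjectionOnto (c t) ∈ O ∧
      cmap T g (T.orthogonalProjectionOnto (c t)) = c t := by
  obtain ⟨hc0, δ, hδ, hcs, hcM⟩ := hc
  have hn : Ioo (-δ) δ ∈ 𝓝 (0 : ℝ) := Ioo_mem_nhds (by linarith) hδ
  have hcd : ContDiffAt ℝ ∞ c 0 := hcs.contDiffAt hn
  refine ⟨hcd, ?_⟩
  have hV : ∀ᶠ t in 𝓝 (0 : ℝ), c t ∈ V := by
    refine hcd.continuousAt.eventually ?_
    rw [hc0]
    exact h.openV.mem_nhds hxV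
  filter_upwards [hV, hn] with t ht1 ht2
  exact ⟨(h.mem _ ht1).1, br_crit_cmap h _ (hcM t ht2) ht1⟩

theorem br_crit_F (h : IsChart ∞ m M T g O V) (f : Eu n → ℝ) (hf : ContDiff ℝ ∞ f) (a : T)
    (ha : a ∈ O) : ContDiffAt ℝ ∞ (f ∘ cmap T g) a :=
  (hf.comp_contDiffOn (br_crit_smooth h)).contDiffAt (h.openO.mem_nhds ha)

theorem br_crit_deriv (h : IsChart ∞ m M T g O V) (x : Eu n) (hx : x ∈ M) (hxV : x ∈ V)
    (f : Eu n → ℝ) (hf : ContDiff ℝ ∞ f) (c : ℝ → Eu n) (hc : IsCurveAt M x c) :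
    ∀ᶠ t in 𝓝 (0 : ℝ), deriv (f ∘ c) t =
      fderiv ℝ (f ∘ cmap T g) (T.orthogonalProjectionOnto (c t))
        (T.orthogonalProjectionOnto (deriv c t)) := by
  obtain ⟨h1, h2⟩ := br_crit_ev h x hxV c hc
  have h3 : ∀ᶠ t in 𝓝 (0 : ℝ), DifferentiableAt ℝ c t := by
    have : ∀ᶠ t in 𝓝 (0 : ℝ), ContDiffAt ℝ 1 c t :=
      (h1.of_le (by exact_mod_cast le_top)).eventually (by simp)
    exact this.mono fun t ht => ht.differentiableAt (by norm_num)
  have h4 : ∀ᶠ t in 𝓝 (0 : ℝ), (f ∘ c) =ᶠ[𝓝 t]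
      (fun s => (f ∘ cmap T g) (T.orthogonalProjectionOnto (c s))) := by
    have := h2.eventually_nhds
    filter_upwards [this] with t ht
    filter_upwards [ht] with s hs
    simp only [Function.comp_apply]
    rw [hs.2]
  filter_upwards [h2, h3, h4] with t ht2 ht3 ht4
  rw [ht4.deriv_eq]
  have e1 : HasDerivAt (fun s => T.orthogonalProjectionOnto (c s))
      (T.orthogonalProjectionOnto (deriv c t)) t :=
    T.orthogonalProjectionOnto.hasFDerivAt.comp_hasDerivAt t ht3.hasDerivAt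
  have e2 : DifferentiableAt ℝ (f ∘ cmap T g) (T.orthogonalProjectionOnto (c t)) :=
    (br_crit_F h f hf _ ht2.1).differentiableAt (by simp)
  exact (e2.hasFDerivAt.comp_hasDerivAt t e1).deriv

theorem br_crit_line (h : IsChart ∞ m M T g O V) (x : Eu n) (hx : x ∈ M) (hxV : x ∈ V) (u : T) :
    IsCurveAt M x (fun t : ℝ => cmap T g (T.orthogonalProjectionOnto x + t • u)) := by
  obtain ⟨a, ha⟩ : ∃ a : T, a = T.orthogonalProjectionOnto x := ⟨_, rfl⟩
  have haO : a ∈ O := ha ▸ (h.mem x hxV).1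
  have hax : cmap T g a = x := ha ▸ br_crit_cmap h x hx hxV
  rw [← ha]
  have hl : ContDiff ℝ ∞ (fun t : ℝ => a + t • u) := contDiff_const.add (contDiff_id.smul contDiff_const)
  have hl0 : (fun t : ℝ => a + t • u) 0 = a := by simp
  have hO : ∀ᶠ t in 𝓝 (0 : ℝ), a + t • u ∈ O := by
    refine (hl.continuous.continuousAt (x := (0 : ℝ))).eventually ?_
    rw [hl0]
    exact h.openO.mem_nhds haO
  have hcd : ContDiffAt ℝ ∞ (fun t : ℝ => cmap T g (a + t • u)) 0 := by
    refine ContDiffAt.comp (0 : ℝ) (g := cmap T g) (f := fun t : ℝ => a + t • u) ?_ hl.contDiffAt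
    rw [zero_smul, add_zero]
    exact (br_crit_smooth h).contDiffAt (h.openO.mem_nhds haO)
  have hV : ∀ᶠ t in 𝓝 (0 : ℝ), cmap T g (a + t • u) ∈ V := by
    refine hcd.continuousAt.eventually ?_
    rw [show (fun t : ℝ => cmap T g (a + t • u)) 0 = x by simp only [zero_smul, add_zero]; exact hax]
    exact h.openV.mem_nhds hxV
  obtain ⟨δ, hδ, hδs⟩ := Metric.eventually_nhds_iff.1 (hO.and hV)
  have hδ' : ∀ t ∈ Ioo (-δ) δ, a + t • u ∈ O ∧ cmap T g (a + t • u) ∈ V := by
    intro t ht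
    refine hδs ?_
    rw [Real.dist_eq, sub_zero, abs_lt]
    exact ht
  refine ⟨by simp only [zero_smul, add_zero]; exact hax, δ, hδ, ?_, ?_⟩
  · exact (br_crit_smooth h).comp hl.contDiffOn fun t ht => (hδ' t ht).1
  · intro t ht
    refine (h.mem _ (hδ' t ht).2).2.2 ?_
    rw [br_crit_P, br_crit_Q]

end

/-! PLAIN PROOF OF THE TARGET(S)

Notation as in the definitions: P, Q the projections onto T, T^⊥; a = P x; φ = cmap T g; x = φ(a); Fφ = f ∘ φ, smooth near a.
If c is a smooth curve in M through x then for small t: α(t) = P c(t) ∈ O, c(t) = φ(α(t)) (c(t) ∈ V by continuity and c(t) ∈ M), so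
f ∘ c = Fφ ∘ α near 0 and (f∘c)'(0) = DFφ(a) α'(0), α'(0) = P c'(0).  Conversely for u ∈ T the curve t ↦ φ(a+tu) is a smooth curve in
M through x (for small t; see br_vel) and gives DFφ(a) u = 0 if x is critical.
br_hess: (f∘c)''(0) = D²Fφ(a)(α',α') + DFφ(a) α'' = D²Fφ(a)(α',α') since DFφ(a) = 0.  (iteratedDeriv 2 h 0 = deriv (deriv h) 0; near 0
deriv (f∘c) t = DFφ(α t) (α' t).)
-/

section
variable {n m : ℕ} {M : Set (Eu n)} {T : Submodule ℝ (Eu n)} {g : T → Tᗮ} {O : Set T} {V : Set (Eu n)}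

/-- TARGET -/
theorem br_crit (h : IsChart ∞ m M T g O V) (x : Eu n) (hx : x ∈ M) (hxV : x ∈ V) (f : Eu n → ℝ)
    (hf : ContDiff ℝ ∞ f) :
    x ∈ critSet M f ↔ fderiv ℝ (f ∘ cmap T g) (T.orthogonalProjectionOnto x) = 0 := by
  constructor
  · rintro ⟨-, hcr⟩
    ext u
    have hc := br_crit_line h x hx hxV u
    have h1 := (br_crit_deriv h x hx hxV f hf _ hc).self_of_nhds
    rw [hcr _ hc] at h1
    have haO : T.orthogonalProjectionOnto x ∈ O := (h.mem x hxV).1
    have h2 : HasDerivAt (fun t : ℝ => cmap T g (T.orthogonalProjectionOnto x + t • u))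
        (fderiv ℝ (cmap T g) (T.orthogonalProjectionOnto x) u) 0 := by
      have e1 : HasDerivAt (fun t : ℝ => T.orthogonalProjectionOnto x + t • u) u 0 := by
        have := ((hasDerivAt_id (0 : ℝ)).smul_const u).const_add (T.orthogonalProjectionOnto x)
        rwa [one_smul] at this
      have e2 : DifferentiableAt ℝ (cmap T g) (T.orthogonalProjectionOnto x + (0 : ℝ) • u) := by
        rw [zero_smul, add_zero]
        exact ((br_crit_smooth h).contDiffAt (h.openO.mem_nhds haO)).differentiableAt (by simp)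
      have e3 := e2.hasFDerivAt.comp_hasDerivAt (0 : ℝ) e1
      rwa [zero_smul, add_zero] at e3
    have h3 : T.orthogonalProjectionOnto (deriv (fun t : ℝ =>
        cmap T g (T.orthogonalProjectionOnto x + t • u)) 0) = u := by
      have e1 : HasDerivAt (fun t : ℝ => T.orthogonalProjectionOnto (cmap T g
          (T.orthogonalProjectionOnto x + t • u))) (T.orthogonalProjectionOnto
          (deriv (fun t : ℝ => cmap T g (T.orthogonalProjectionOnto x + t • u)) 0)) 0 :=
        T.orthogonalProjectionOnto.hasFDerivAt.comp_hasDerivAt (0 : ℝ)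
          h2.differentiableAt.hasDerivAt
      have e2 : HasDerivAt (fun t : ℝ => T.orthogonalProjectionOnto x + t • u) u 0 := by
        have := ((hasDerivAt_id (0 : ℝ)).smul_const u).const_add (T.orthogonalProjectionOnto x)
        rwa [one_smul] at this
      have e3 : (fun t : ℝ => T.orthogonalProjectionOnto (cmap T g
          (T.orthogonalProjectionOnto x + t • u))) =
          (fun t : ℝ => T.orthogonalProjectionOnto x + t • u) := by
        funext t
        rw [br_crit_P]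
      rw [e3] at e1
      exact e1.unique e2
    rw [h3] at h1
    simp only [zero_smul, add_zero] at h1
    rw [br_crit_P] at h1
    rw [← h1]
    rfl
  · intro hF
    refine ⟨hx, fun c hc => ?_⟩
    rw [(br_crit_deriv h x hx hxV f hf c hc).self_of_nhds, hc.1, hF]
    rfl

/-- TARGET -/
theorem br_hess (h : IsChart ∞ m M T g O V) (x : Eu n) (hx : x ∈ M) (hxV : x ∈ V) (f : Eu n → ℝ)
    (hf : ContDiff ℝ ∞ f) (hxc : x ∈ critSet M f) (c : ℝ → Eu n) (hc : IsCurveAt M x c) :
    iteratedDeriv 2 (f ∘ c) 0 = fderiv ℝ (fderiv ℝ (f ∘ cmap T g)) (T.orthogonalProjectionOnto x)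
      (T.orthogonalProjectionOnto (deriv c 0)) (T.orthogonalProjectionOnto (deriv c 0)) := by
  have hF := (br_crit h x hx hxV f hf).1 hxc
  have h1 := br_crit_deriv h x hx hxV f hf c hc
  have h2 : iteratedDeriv 2 (f ∘ c) 0 = deriv (deriv (f ∘ c)) 0 := by
    rw [iteratedDeriv_succ, iteratedDeriv_one]
  have h1' : deriv (f ∘ c) =ᶠ[𝓝 0] fun t => fderiv ℝ (f ∘ cmap T g)
      (T.orthogonalProjectionOnto (c t)) (T.orthogonalProjectionOnto (deriv c t)) := h1
  rw [h2, h1'.deriv_eq]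
  have hcd := (br_crit_ev h x hxV c hc).1
  have haO : T.orthogonalProjectionOnto x ∈ O := (h.mem x hxV).1
  have hc1 : HasDerivAt c (deriv c 0) 0 := (hcd.differentiableAt (by simp)).hasDerivAt
  have hc2 : DifferentiableAt ℝ (deriv c) 0 := by
    have : ContDiffAt ℝ 1 (deriv c) 0 := by
      have e1 : ContDiffAt ℝ (1 + 1) c 0 := hcd.of_le (by
        norm_num
        exact WithTop.coe_le_coe.2 (le_top : (2 : ℕ∞) ≤ ⊤))
      have e2 := e1.fderiv_right (m := 1) le_rfl
      exact e2.clm_apply contDiffAt_const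
    exact this.differentiableAt (by norm_num)
  have e1 : HasDerivAt (fun s => T.orthogonalProjectionOnto (c s))
      (T.orthogonalProjectionOnto (deriv c 0)) 0 :=
    T.orthogonalProjectionOnto.hasFDerivAt.comp_hasDerivAt (0 : ℝ) hc1
  have e2 : HasDerivAt (fun s => T.orthogonalProjectionOnto (deriv c s))
      (T.orthogonalProjectionOnto (deriv (deriv c) 0)) 0 :=
    T.orthogonalProjectionOnto.hasFDerivAt.comp_hasDerivAt (0 : ℝ) hc2.hasDerivAt
  have e3 : DifferentiableAt ℝ (fderiv ℝ (f ∘ cmap T g)) (T.orthogonalProjectionOnto (c 0)) := by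
    rw [hc.1]
    have e4 : ContDiffAt ℝ (1 + 1) (f ∘ cmap T g) (T.orthogonalProjectionOnto x) :=
      (br_crit_F h f hf _ haO).of_le (by
        norm_num
        exact WithTop.coe_le_coe.2 (le_top : (2 : ℕ∞) ≤ ⊤))
    exact (e4.fderiv_right (m := 1) le_rfl).differentiableAt (by norm_num)
  have e5 : HasDerivAt (fun s => fderiv ℝ (f ∘ cmap T g) (T.orthogonalProjectionOnto (c s)))
      (fderiv ℝ (fderiv ℝ (f ∘ cmap T g)) (T.orthogonalProjectionOnto (c 0))
        (T.orthogonalProjectionOnto (deriv c 0))) 0 :=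
    HasFDerivAt.comp_hasDerivAt (l := fderiv ℝ (f ∘ cmap T g)) (0 : ℝ) e3.hasFDerivAt e1
  have e6 := (e5.clm_apply e2).deriv
  rw [e6, hc.1, hF]
  simp

end

end Pool.Agent.H469
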