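import Pool.Agent.Helper469_Dupin.Chart
import Pool.Agent.Helper469_Dupin.Jbrvel
import Pool.Agent.Helper469_Dupin.Jbrcrit

set_option autoImplicit false

open Set Filter Topology MeasureTheory
open scoped ContDiff InnerProductSpace

namespace Pool.Agent.H469


section
variable {n m : ℕ} {M : Set (Eu n)} {T : Submodule ℝ (Eu n)} {g : T → Tᗮ} {O : Set T} {V : Set (Eu n)}

/-- The derivative of the graph parametrisation. -/
noncomputable def br_index_io (T : Submodule ℝ (Eu n)) (g : T → Tᗮ) (a : T) : T →ₗ[ℝ] Eu n :=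
  T.subtype + Tᗮ.subtype ∘ₗ (fderiv ℝ g a : T →ₗ[ℝ] Tᗮ)

theorem br_index_io_apply (T : Submodule ℝ (Eu n)) (g : T → Tᗮ) (a u : T) :
    br_index_io T g a u = (u : Eu n) + (fderiv ℝ g a u : Eu n) := rfl

theorem br_index_proj (T : Submodule ℝ (Eu n)) (g : T → Tᗮ) (a u : T) :
    T.orthogonalProjectionOnto (br_index_io T g a u) = u := by
  rw [br_index_io_apply, map_add]
  rw [Submodule.orthogonalProjectionOnto_mem_subspace_eq_self]
  rw [Submodule.orthogonalProjectionOnto_eq_zero_iff.2
    (Submodule.coe_mem _), add_zero]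

theorem br_index_inj (T : Submodule ℝ (Eu n)) (g : T → Tᗮ) (a : T) :
    Function.Injective (br_index_io T g a) := fun u v h => by
  rw [← br_index_proj T g a u, h, br_index_proj]

end

/-! PLAIN PROOF OF THE TARGET(S)

a = P x.  By br_vel the tangent space velocities M x is the range of the injective linear map ι u = u + Dg(a) u (T → R^n) with left
inverse P.  (→) given N, P' ⊆ velocities M x in R^n, put N1 = map P N (P is injective on the range of ι, so the dimensions are preserved); for
u ∈ N1, u ≠ 0, ι u ∈ N, there is a curve c in M with c'(0) = ι u, and br_hess gives D²(u,u) = (f∘c)''(0) < 0.  (←) put N = map ι N1 etc.;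
for a curve c in M with c'(0) ∈ N, c'(0) ≠ 0, br_hess gives (f∘c)''(0) = D²(P c'(0), P c'(0)) < 0.  x ∈ critSet ↔ derivative zero by br_crit.
-/

section
variable {n m : ℕ} {M : Set (Eu n)} {T : Submodule ℝ (Eu n)} {g : T → Tᗮ} {O : Set T} {V : Set (Eu n)}

/-- TARGET -/
theorem br_index (h : IsChart ∞ m M T g O V) (x : Eu n) (hx : x ∈ M) (hxV : x ∈ V) (f : Eu n → ℝ)
    (hf : ContDiff ℝ ∞ f) (k : ℕ) :
    HasIndex m M f x k ↔ fderiv ℝ (f ∘ cmap T g) (T.orthogonalProjectionOnto x) = 0 ∧
      ∃ N P : Submodule ℝ T, Module.finrank ℝ N = k ∧ Module.finrank ℝ P + k = m ∧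
        (∀ u ∈ N, u ≠ 0 → fderiv ℝ (fderiv ℝ (f ∘ cmap T g)) (T.orthogonalProjectionOnto x) u u < 0) ∧
        (∀ u ∈ P, u ≠ 0 → 0 < fderiv ℝ (fderiv ℝ (f ∘ cmap T g)) (T.orthogonalProjectionOnto x) u u) := by
  have hvel : velocities M x = Set.range (br_index_io T g (T.orthogonalProjectionOnto x)) :=
    br_vel h x hx hxV
  constructor
  · rintro ⟨hc, N, P, hN, hP, hNv, hPv, hN1, hP1⟩
    refine ⟨(br_crit h x hx hxV f hf).1 hc, ?_⟩
    have hdim : ∀ Q : Submodule ℝ (Eu n), (Q : Set (Eu n)) ⊆ velocities M x →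
        Module.finrank ℝ (Q.comap (br_index_io T g (T.orthogonalProjectionOnto x))) =
          Module.finrank ℝ Q := by
      intro Q hQ
      have h1 : Q ≤ LinearMap.range (br_index_io T g (T.orthogonalProjectionOnto x)) := by
        intro y hy
        have h2 := hQ hy
        rw [hvel] at h2
        exact h2
      have h3 := Submodule.map_comap_eq_self h1
      rw [← LinearEquiv.finrank_eq (Submodule.equivMapOfInjective _
        (br_index_inj T g (T.orthogonalProjectionOnto x))
        (Q.comap (br_index_io T g (T.orthogonalProjectionOnto x)))).symm, h3]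
    refine ⟨_, _, (hdim N hNv).trans hN, (congrArg (· + k) (hdim P hPv)).trans hP, ?_, ?_⟩
    · intro u hu hu0
      have h1 : br_index_io T g (T.orthogonalProjectionOnto x) u ∈ N := hu
      obtain ⟨c, hc1, hc2⟩ := hNv h1
      have h2 := hN1 c hc1 (by rw [hc2]; exact h1) (by
        rw [hc2]
        intro h0
        exact hu0 (br_index_inj T g _ (h0.trans (map_zero _).symm)))
      rw [br_hess h x hx hxV f hf hc c hc1, hc2, br_index_proj] at h2
      exact h2
    · intro u hu hu0
      have h1 : br_index_io T g (T.orthogonalProjectionOnto x) u ∈ P := hu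
      obtain ⟨c, hc1, hc2⟩ := hPv h1
      have h2 := hP1 c hc1 (by rw [hc2]; exact h1) (by
        rw [hc2]
        intro h0
        exact hu0 (br_index_inj T g _ (h0.trans (map_zero _).symm)))
      rw [br_hess h x hx hxV f hf hc c hc1, hc2, br_index_proj] at h2
      exact h2
  · rintro ⟨hc0, N, P, hN, hP, hN1, hP1⟩
    have hc := (br_crit h x hx hxV f hf).2 hc0
    have hdim : ∀ Q : Submodule ℝ T,
        Module.finrank ℝ (Q.map (br_index_io T g (T.orthogonalProjectionOnto x))) =
          Module.finrank ℝ Q := by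
      intro Q
      exact (LinearEquiv.finrank_eq (Submodule.equivMapOfInjective _
        (br_index_inj T g (T.orthogonalProjectionOnto x)) Q)).symm
    have hsub : ∀ Q : Submodule ℝ T,
        ((Q.map (br_index_io T g (T.orthogonalProjectionOnto x)) : Submodule ℝ (Eu n)) :
          Set (Eu n)) ⊆ velocities M x := by
      intro Q y hy
      rw [hvel]
      obtain ⟨u, -, hu⟩ := hy
      exact ⟨u, hu⟩
    refine ⟨hc, N.map (br_index_io T g (T.orthogonalProjectionOnto x)),
      P.map (br_index_io T g (T.orthogonalProjectionOnto x)), (hdim N).trans hN,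
      (congrArg (· + k) (hdim P)).trans hP, hsub N, hsub P, ?_, ?_⟩
    · intro c hc1 hc2 hc3
      obtain ⟨u, hu, hu2⟩ := hc2
      rw [br_hess h x hx hxV f hf hc c hc1, ← hu2, br_index_proj]
      refine hN1 u hu fun h0 => hc3 ?_
      rw [← hu2, h0, map_zero]
    · intro c hc1 hc2 hc3
      obtain ⟨u, hu, hu2⟩ := hc2
      rw [br_hess h x hx hxV f hf hc c hc1, ← hu2, br_index_proj]
      refine hP1 u hu fun h0 => hc3 ?_
      rw [← hu2, h0, map_zero]

end

end Pool.Agent.H469
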