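import Pool.Agent.Helper469_Dupin.Chart

set_option autoImplicit false

open Set Filter Topology MeasureTheory
open scoped ContDiff InnerProductSpace

namespace Pool.Agent.H469


section
variable {F W : Type} [NormedAddCommGroup F] [InnerProductSpace ℝ F] [FiniteDimensional ℝ F]
  [NormedAddCommGroup W] [InnerProductSpace ℝ W] [FiniteDimensional ℝ W]

/-- the adjoint as a continuous linear map -/
noncomputable def fam_d2_adj : (F →L[ℝ] W) →L[ℝ] (W →L[ℝ] F) :=
  LinearMap.mkContinuous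
    { toFun := fun A => ContinuousLinearMap.adjoint A
      map_add' := fun A B => map_add _ A B
      map_smul' := fun c A => by simp } 1 (fun A => by simp)

theorem fam_d2_adj_apply (A : F →L[ℝ] W) :
    fam_d2_adj A = ContinuousLinearMap.adjoint A := rfl

theorem fam_d2_vec {g : F → W} {O : Set F} (hO : IsOpen O) (hg : ContDiffOn ℝ ∞ g O) {a : F}
    (ha : a ∈ O) (w : F) (w' : W) (ε : ℝ) :
    HasFDerivAt (fun a' => w - ε • a' + nrm g a' (w' - ε • g a'))
      (-(Lop g a (w' - ε • g a) ε)) a := by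
  have hga : ContDiffAt ℝ ∞ g a := hg.contDiffAt (hO.mem_nhds ha)
  have hg1 : HasFDerivAt g (fderiv ℝ g a) a :=
    (hga.differentiableAt (by simp)).hasFDerivAt
  have hD : ContDiffAt ℝ 1 (fderiv ℝ g) a := hga.fderiv_right (m := 1) (by exact le_of_lt (WithTop.coe_lt_coe.2 (WithTop.coe_lt_top 2)))
  have hg2 : HasFDerivAt (fderiv ℝ g) (fderiv ℝ (fderiv ℝ g) a) a :=
    (hD.differentiableAt (by simp)).hasFDerivAt
  have hA : HasFDerivAt (fun a' => fam_d2_adj (fderiv ℝ g a'))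
      (fam_d2_adj.comp (fderiv ℝ (fderiv ℝ g) a)) a :=
    (fam_d2_adj (F := F) (W := W)).hasFDerivAt.comp a hg2
  have hb : HasFDerivAt (fun a' => w' - ε • g a') (-(ε • fderiv ℝ g a)) a :=
    (hg1.const_smul ε).const_sub w'
  have hAb := hA.clm_apply hb
  have hH : ∀ b : W, HasFDerivAt (fun a' => nrm g a' b)
      ((fam_d2_adj.comp (fderiv ℝ (fderiv ℝ g) a)).flip b) a := by
    intro b
    have h := hA.clm_apply (hasFDerivAt_const b a)
    simpa [nrm, fam_d2_adj_apply] using h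
  have hHop : Hop g a (w' - ε • g a) =
      (fam_d2_adj.comp (fderiv ℝ (fderiv ℝ g) a)).flip (w' - ε • g a) := by
    unfold Hop
    exact (hH _).fderiv
  have h1 : HasFDerivAt (fun a' : F => w - ε • a') (-(ε • ContinuousLinearMap.id ℝ F)) a :=
    ((hasFDerivAt_id a).const_smul ε).const_sub w
  have h2 := h1.add hAb
  refine h2.congr_fderiv ?_
  ext u
  simp only [Lop, Gop, hHop]
  generalize (fam_d2_adj ∘SL fderiv ℝ (fderiv ℝ g) a).flip (w' - ε • g a) = K
  rw [fam_d2_adj_apply]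
  simp only [_root_.add_apply, _root_.neg_apply,
    _root_.smul_apply, _root_.sub_apply,
    ContinuousLinearMap.comp_apply, ContinuousLinearMap.id_apply, map_neg, map_smul]
  module

end

section
variable {F : Type} [NormedAddCommGroup F] [InnerProductSpace ℝ F]

/-- the inner product as a continuous linear map -/
noncomputable def fam_d2_inn : F →L[ℝ] F →L[ℝ] ℝ :=
  LinearMap.mkContinuous
    { toFun := fun x => innerSL ℝ x
      map_add' := fun x y => map_add _ x y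
      map_smul' := fun c x => by simp } 1 (fun x => by simp)

theorem fam_d2_inn_apply (x y : F) : fam_d2_inn x y = ⟪x, y⟫_ℝ := rfl

end

/-! PLAIN PROOF OF THE TARGET(S)

On O: fam p (a + g a) = <w,a> + <w,g a> - ε (|a|² + |g a|²)/2 with p = (w,ε) (a ∈ T, g a ∈ T^⊥ are orthogonal).  Its derivative in the direction
u ∈ T is <Pw - ε a, u> + <Qw - ε g a, Dg(a)u> = <Pw - ε a + nrm g a (Qw - ε g a), u>  (nrm g a b = Dg(a)† b).
Second: on the open set O the first derivative is the above; differentiate the vector Pw - ε a + nrm g a (Qw - ε g a) in the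
direction u: -ε u + Hop g a b u + nrm g a (-ε Dg(a) u) with b = Qw - ε g a, which is -(ε (u + Dg†Dg u) - Hop u) = -Lop g a b ε u.
(nrm g a b is linear in b and smooth in a on O; Hop g a b is by definition the derivative of nrm g · b.)
-/

section
variable {n m : ℕ} {M : Set (Eu n)} {T : Submodule ℝ (Eu n)} {g : T → Tᗮ} {O : Set T} {V : Set (Eu n)}

/-- TARGET -/
theorem fam_d1 (g : T → Tᗮ) (O : Set T) (hO : IsOpen O) (hg : ContDiffOn ℝ ∞ g O) (a : T) (ha : a ∈ O)
    (p : Eu n × ℝ) (u : T) :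
    fderiv ℝ (fam p ∘ cmap T g) a u = ⟪T.orthogonalProjectionOnto p.1 - p.2 • a +
      nrm g a (Tᗮ.orthogonalProjectionOnto p.1 - p.2 • g a), u⟫_ℝ := by
  have hga : ContDiffAt ℝ ∞ g a := hg.contDiffAt (hO.mem_nhds ha)
  have hg1 : HasFDerivAt g (fderiv ℝ g a) a :=
    (hga.differentiableAt (by simp)).hasFDerivAt
  have hc : HasFDerivAt (cmap T g) (T.subtypeL + Tᗮ.subtypeL ∘L fderiv ℝ g a) a :=
    (T.subtypeL.hasFDerivAt).add (Tᗮ.subtypeL.hasFDerivAt.comp a hg1)
  have hf : HasFDerivAt (fam p) (innerSL ℝ p.1 - p.2 • innerSL ℝ (cmap T g a)) (cmap T g a) := by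
    have h1 : HasFDerivAt (fun x : Eu n => ⟪p.1, x⟫_ℝ) (innerSL ℝ p.1) (cmap T g a) :=
      (innerSL ℝ p.1).hasFDerivAt
    have h2 : HasFDerivAt (fun x : Eu n => ‖x‖ ^ 2) (2 • innerSL ℝ (cmap T g a)) (cmap T g a) :=
      (hasStrictFDerivAt_norm_sq _).hasFDerivAt
    have h3 := h1.sub ((h2.const_mul p.2).mul_const (2⁻¹ : ℝ))
    refine (h3.congr_fderiv ?_).congr_of_eventuallyEq ?_
    · ext x
      simp
      ring
    · exact Filter.Eventually.of_forall fun x => by simp [fam]; ring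
  have h := hf.comp a hc
  rw [h.fderiv]
  have k1 : ∀ (x : Eu n) (y : T), ⟪x, (y : Eu n)⟫_ℝ = ⟪T.orthogonalProjectionOnto x, y⟫_ℝ :=
    fun x y => (Submodule.inner_orthogonalProjectionOnto_eq_of_mem_right (K := T) y x).symm
  have k2 : ∀ (x : Eu n) (y : Tᗮ), ⟪x, (y : Eu n)⟫_ℝ = ⟪Tᗮ.orthogonalProjectionOnto x, y⟫_ℝ :=
    fun x y => (Submodule.inner_orthogonalProjectionOnto_eq_of_mem_right (K := Tᗮ) y x).symm
  have k3 : ∀ (x : T) (y : Tᗮ), ⟪(x : Eu n), (y : Eu n)⟫_ℝ = 0 := fun x y =>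
    Submodule.inner_right_of_mem_orthogonal x.2 y.2
  have k4 : ∀ (x : Tᗮ) (y : T), ⟪(x : Eu n), (y : Eu n)⟫_ℝ = 0 := fun x y =>
    Submodule.inner_left_of_mem_orthogonal y.2 x.2
  have k5 : ⟪nrm g a (Tᗮ.orthogonalProjectionOnto p.1 - p.2 • g a), u⟫_ℝ =
      ⟪Tᗮ.orthogonalProjectionOnto p.1 - p.2 • g a, fderiv ℝ g a u⟫_ℝ :=
    ContinuousLinearMap.adjoint_inner_left _ _ _
  rw [inner_add_left, k5, inner_sub_left, inner_sub_left, ← k1, ← k2, real_inner_smul_left,
    real_inner_smul_left]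
  have e : (((innerSL ℝ) p.1 - p.2 • (innerSL ℝ) (cmap T g a)) ∘SL
      (T.subtypeL + Tᗮ.subtypeL ∘SL fderiv ℝ g a)) u =
      ⟪p.1, (u : Eu n) + (fderiv ℝ g a u : Eu n)⟫_ℝ -
        p.2 * ⟪(a : Eu n) + (g a : Eu n), (u : Eu n) + (fderiv ℝ g a u : Eu n)⟫_ℝ := rfl
  rw [e]
  simp only [inner_add_left, inner_add_right, k3, k4]
  rw [Submodule.coe_inner, Submodule.coe_inner]
  ring

/-- TARGET -/
theorem fam_d2 (g : T → Tᗮ) (O : Set T) (hO : IsOpen O) (hg : ContDiffOn ℝ ∞ g O) (a : T) (ha : a ∈ O)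
    (p : Eu n × ℝ) (u v : T) :
    fderiv ℝ (fderiv ℝ (fam p ∘ cmap T g)) a u v =
      -⟪Lop g a (Tᗮ.orthogonalProjectionOnto p.1 - p.2 • g a) p.2 u, v⟫_ℝ := by
  have h1 : fderiv ℝ (fam p ∘ cmap T g) =ᶠ[𝓝 a] fun a' => fam_d2_inn
      (T.orthogonalProjectionOnto p.1 - p.2 • a' +
        nrm g a' (Tᗮ.orthogonalProjectionOnto p.1 - p.2 • g a')) := by
    filter_upwards [hO.mem_nhds ha] with a' ha'
    ext u
    rw [fam_d1 g O hO hg a' ha' p u]
    rfl
  have h2 := fam_d2_vec hO hg ha (T.orthogonalProjectionOnto p.1)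
    (Tᗮ.orthogonalProjectionOnto p.1) p.2
  have h3 : HasFDerivAt (fun a' : T => fam_d2_inn
      (T.orthogonalProjectionOnto p.1 - p.2 • a' +
        nrm g a' (Tᗮ.orthogonalProjectionOnto p.1 - p.2 • g a')))
      (fam_d2_inn ∘SL (-Lop g a (Tᗮ.orthogonalProjectionOnto p.1 - p.2 • g a) p.2)) a :=
    HasFDerivAt.comp (E := T) (F := T) (G := T →L[ℝ] ℝ) a (ContinuousLinearMap.hasFDerivAt _) h2
  rw [h1.fderiv_eq, h3.fderiv]
  rw [ContinuousLinearMap.comp_apply, _root_.neg_apply, fam_d2_inn_apply, inner_neg_left]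

end

end Pool.Agent.H469
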