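import Mathlib

set_option autoImplicit false

open Set Filter Topology MeasureTheory
open scoped ContDiff InnerProductSpace

namespace Pool.Agent.H469


/-! PLAIN PROOF OF THE TARGET(S)

index_unique: N ∩ P' = 0 by the signs, so k + (dim F - k') ≤ dim F, k ≤ k'; symmetric.
index_iff: (→) if B u = 0, write u = n + p (N, P are complementary: N ∩ P = 0 and dimensions add up to dim F).  0 = B u n = B n n + B p n,
0 = B u p = B n p + B p p, so B n n = B p p (symmetry), but B n n ≤ 0 ≤ B p p, so both vanish, so n = p = 0.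
(←) represent B by a symmetric operator A (<A u, v> = B u v, `InnerProductSpace.toDual` or `LinearMap.BilinForm`), take its orthonormal
eigenbasis (`LinearMap.IsSymmetric.eigenvectorBasis`), no eigenvalue is 0, N = span of the eigenvectors with negative eigenvalues, P = span
of those with positive eigenvalues.
index_stable: the unit sphere of N is compact, so B₀ u u ≤ -γ on it (γ > 0; if N = 0 trivial), and |B u u - B₀ u u| ≤ ‖B - B₀‖ ‖u‖².
-/

section
variable {F : Type} [NormedAddCommGroup F] [InnerProductSpace ℝ F] [FiniteDimensional ℝ F]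

theorem index_unique_disj (B : F →L[ℝ] F →L[ℝ] ℝ) (N P : Submodule ℝ F)
    (h3 : ∀ u ∈ N, u ≠ 0 → B u u < 0) (h4 : ∀ u ∈ P, u ≠ 0 → 0 < B u u) : Disjoint N P := by
  rw [Submodule.disjoint_def]
  intro u hu1 hu2
  by_contra h
  linarith [h3 u hu1 h, h4 u hu2 h]

/-- TARGET -/
theorem index_unique (B : F →L[ℝ] F →L[ℝ] ℝ) (k k' : ℕ) (N P N' P' : Submodule ℝ F)
    (h1 : Module.finrank ℝ N = k) (h2 : Module.finrank ℝ P + k = Module.finrank ℝ F)
    (h3 : ∀ u ∈ N, u ≠ 0 → B u u < 0) (h4 : ∀ u ∈ P, u ≠ 0 → 0 < B u u)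
    (h1' : Module.finrank ℝ N' = k') (h2' : Module.finrank ℝ P' + k' = Module.finrank ℝ F)
    (h3' : ∀ u ∈ N', u ≠ 0 → B u u < 0) (h4' : ∀ u ∈ P', u ≠ 0 → 0 < B u u) : k = k' := by
  have d1 : Disjoint N P' := index_unique_disj B N P' h3 h4'
  have d2 : Disjoint N' P := index_unique_disj B N' P h3' h4
  have e1 := Submodule.finrank_add_finrank_le_of_disjoint d1
  have e2 := Submodule.finrank_add_finrank_le_of_disjoint d2
  omega

theorem index_iff_mp (B : F →L[ℝ] F →L[ℝ] ℝ) (hB : ∀ u v, B u v = B v u)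
    (k : ℕ) (N P : Submodule ℝ F) (h1 : Module.finrank ℝ N = k)
    (h2 : Module.finrank ℝ P + k = Module.finrank ℝ F)
    (h3 : ∀ u ∈ N, u ≠ 0 → B u u < 0) (h4 : ∀ u ∈ P, u ≠ 0 → 0 < B u u) :
    ∀ u, B u = 0 → u = 0 := by
  intro u hu
  have hd := index_unique_disj B N P h3 h4
  have ht := Submodule.eq_top_of_disjoint N P (by omega) hd
  have hu' : u ∈ N ⊔ P := by rw [ht]; trivial
  obtain ⟨n, hn, p, hp, rfl⟩ := Submodule.mem_sup.1 hu'
  have e1 : B (n + p) n = 0 := by rw [hu]; rfl
  have e2 : B (n + p) p = 0 := by rw [hu]; rfl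
  rw [map_add, ContinuousLinearMap.add_apply] at e1 e2
  have e3 := hB n p
  have e4 : B n n = B p p := by linarith
  have hn0 : n = 0 := by
    by_contra h
    have g1 := h3 n hn h
    by_cases hp0 : p = 0
    · rw [hp0] at e4
      simp only [map_zero, ContinuousLinearMap.zero_apply] at e4
      linarith
    · linarith [h4 p hp hp0]
  have hp0 : p = 0 := by
    by_contra h
    have g1 := h4 p hp h
    rw [hn0] at e4
    simp only [map_zero, ContinuousLinearMap.zero_apply] at e4
    linarith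
  rw [hn0, hp0, add_zero]

/-- the operator of the form -/
noncomputable def index_iff_A (B : F →L[ℝ] F →L[ℝ] ℝ) : F →ₗ[ℝ] F where
  toFun u := (InnerProductSpace.toDual ℝ F).symm (B u)
  map_add' u v := by rw [map_add, map_add]
  map_smul' c u := by
    rw [map_smul]
    simp

theorem index_iff_A_inner (B : F →L[ℝ] F →L[ℝ] ℝ) (u v : F) :
    ⟪index_iff_A B u, v⟫_ℝ = B u v :=
  InnerProductSpace.toDual_symm_apply

theorem index_iff_span {ι : Type} [Fintype ι] (b : OrthonormalBasis ι ℝ F) (S : Set ι) (u : F)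
    (hu : u ∈ Submodule.span ℝ (Set.range fun i : S => b i)) (j : ι) (hj : j ∉ S) :
    ⟪b j, u⟫_ℝ = 0 := by
  induction hu using Submodule.span_induction with
  | mem x hx =>
    obtain ⟨i, rfl⟩ := hx
    exact b.orthonormal.2 (fun h => hj (h ▸ i.2))
  | zero => exact inner_zero_right _
  | add x y _ _ hx hy => rw [inner_add_right, hx, hy, add_zero]
  | smul c x _ hx => rw [inner_smul_right, hx, mul_zero]

theorem index_iff_mpr (B : F →L[ℝ] F →L[ℝ] ℝ) (hB : ∀ u v, B u v = B v u)
    (h : ∀ u, B u = 0 → u = 0) : ∃ (k : ℕ) (N P : Submodule ℝ F), Module.finrank ℝ N = k ∧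
      Module.finrank ℝ P + k = Module.finrank ℝ F ∧
      (∀ u ∈ N, u ≠ 0 → B u u < 0) ∧ (∀ u ∈ P, u ≠ 0 → 0 < B u u) := by
  classical
  have hA : (index_iff_A B).IsSymmetric := by
    intro u v
    rw [index_iff_A_inner, real_inner_comm, index_iff_A_inner, hB]
  let b := hA.eigenvectorBasis rfl
  let l := hA.eigenvalues rfl
  have hb : ∀ i, index_iff_A B (b i) = l i • b i := fun i => hA.apply_eigenvectorBasis rfl i
  have hl : ∀ i, l i ≠ 0 := by
    intro i hi
    have h1 := hb i
    rw [hi, zero_smul] at h1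
    have h2 : B (b i) = 0 := by
      ext v
      rw [← index_iff_A_inner, h1, inner_zero_left]
      rfl
    have h3 := h _ h2
    have h4 := b.orthonormal.1 i
    rw [h3, norm_zero] at h4
    exact zero_ne_one h4
  have hBu : ∀ u, B u u = ∑ i, l i * ⟪b i, u⟫_ℝ ^ 2 := by
    intro u
    rw [← index_iff_A_inner, ← b.sum_inner_mul_inner]
    refine Finset.sum_congr rfl fun i _ => ?_
    rw [hA u (b i), hb i, inner_smul_right, real_inner_comm]
    ring
  have hfin : ∀ S : Set (Fin (Module.finrank ℝ F)),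
      Module.finrank ℝ (Submodule.span ℝ (Set.range fun i : S => b i)) = Fintype.card S := by
    intro S
    apply finrank_span_eq_card
    exact b.toBasis.linearIndependent.comp (fun i : S => (i : Fin (Module.finrank ℝ F)))
      Subtype.val_injective |> fun h => by simpa [Function.comp_def] using h
  refine ⟨_, Submodule.span ℝ (Set.range fun i : {i | l i < 0} => b i),
    Submodule.span ℝ (Set.range fun i : {i | 0 < l i} => b i), rfl, ?_, ?_, ?_⟩
  · rw [hfin, hfin, Fintype.card_subtype, Fintype.card_subtype]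
    have h1 := Finset.card_filter_add_card_filter_not (s := (Finset.univ : Finset (Fin (Module.finrank ℝ F))))
      (fun i => 0 < l i)
    rw [Finset.card_univ, Fintype.card_fin] at h1
    have h2 : (Finset.univ.filter fun i => ¬ 0 < l i) = Finset.univ.filter fun i => l i < 0 := by
      refine Finset.filter_congr fun i _ => ?_
      have := hl i
      constructor
      · intro h; exact lt_of_le_of_ne (not_lt.1 h) this
      · intro h; exact not_lt.2 h.le
    rw [h2] at h1
    convert h1 using 2 <;> congr 1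
  · intro u hu hu0
    rw [hBu]
    have hz := index_iff_span b {i | l i < 0} u hu
    have hle : ∀ i ∈ Finset.univ, l i * ⟪b i, u⟫_ℝ ^ 2 ≤ 0 := by
      intro i _
      by_cases hi : l i < 0
      · exact mul_nonpos_of_nonpos_of_nonneg hi.le (sq_nonneg _)
      · rw [hz i hi]; simp
    refine Finset.sum_neg' hle ?_
    by_contra hcon
    push Not at hcon
    apply hu0
    apply b.toBasis.ext_elem
    intro i
    by_cases hi : l i < 0
    · have h1 := hcon i (Finset.mem_univ i)
      have h2 : ⟪b i, u⟫_ℝ ^ 2 = 0 := by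
        by_contra h3
        have h4 : 0 < ⟪b i, u⟫_ℝ ^ 2 := lt_of_le_of_ne (sq_nonneg _) (Ne.symm h3)
        linarith [mul_neg_of_neg_of_pos hi h4]
      simpa [b.repr_apply_apply] using h2
    · simpa [b.repr_apply_apply] using hz i hi
  · intro u hu hu0
    rw [hBu]
    have hz := index_iff_span b {i | 0 < l i} u hu
    have hle : ∀ i ∈ Finset.univ, 0 ≤ l i * ⟪b i, u⟫_ℝ ^ 2 := by
      intro i _
      by_cases hi : 0 < l i
      · exact mul_nonneg hi.le (sq_nonneg _)
      · rw [hz i hi]; simp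
    refine Finset.sum_pos' hle ?_
    by_contra hcon
    push Not at hcon
    apply hu0
    apply b.toBasis.ext_elem
    intro i
    by_cases hi : 0 < l i
    · have h1 := hcon i (Finset.mem_univ i)
      have h2 : ⟪b i, u⟫_ℝ ^ 2 = 0 := by
        by_contra h3
        have h4 : 0 < ⟪b i, u⟫_ℝ ^ 2 := lt_of_le_of_ne (sq_nonneg _) (Ne.symm h3)
        linarith [mul_pos hi h4]
      simpa [b.repr_apply_apply] using h2
    · simpa [b.repr_apply_apply] using hz i hi

/-- TARGET -/
theorem index_iff (B : F →L[ℝ] F →L[ℝ] ℝ) (hB : ∀ u v, B u v = B v u) :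
    (∃ (k : ℕ) (N P : Submodule ℝ F), Module.finrank ℝ N = k ∧
      Module.finrank ℝ P + k = Module.finrank ℝ F ∧
      (∀ u ∈ N, u ≠ 0 → B u u < 0) ∧ (∀ u ∈ P, u ≠ 0 → 0 < B u u)) ↔ ∀ u, B u = 0 → u = 0 := by
  constructor
  · rintro ⟨k, N, P, h1, h2, h3, h4⟩
    exact index_iff_mp B hB k N P h1 h2 h3 h4
  · exact index_iff_mpr B hB

set_option maxSynthPendingDepth 3 in
theorem index_stable_pos (B₀ : F →L[ℝ] F →L[ℝ] ℝ) (N : Submodule ℝ F)
    (h3 : ∀ u ∈ N, u ≠ 0 → 0 < B₀ u u) :
    ∀ᶠ B in 𝓝 B₀, ∀ u ∈ N, u ≠ 0 → 0 < B u u := by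
  have hcomp : IsCompact ((N : Set F) ∩ Metric.sphere (0 : F) 1) :=
    (isCompact_sphere (0 : F) 1).inter_left N.closed_of_finiteDimensional
  have hnorm : ∀ u ∈ N, u ≠ 0 → ‖u‖⁻¹ • u ∈ (N : Set F) ∩ Metric.sphere (0 : F) 1 := by
    intro u hu hu0
    refine ⟨N.smul_mem _ hu, ?_⟩
    rw [mem_sphere_zero_iff_norm, norm_smul, norm_inv, norm_norm,
      inv_mul_cancel₀ (norm_ne_zero_iff.2 hu0)]
  rcases ((N : Set F) ∩ Metric.sphere (0 : F) 1).eq_empty_or_nonempty with he | hne
  · refine Eventually.of_forall fun B u hu hu0 => ?_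
    have := hnorm u hu hu0
    rw [he] at this
    exact absurd this (Set.notMem_empty _)
  · have hcont : Continuous fun u : F => B₀ u u := B₀.continuous.clm_apply continuous_id
    obtain ⟨v, hv, hmin⟩ := hcomp.exists_isMinOn hne hcont.continuousOn
    have hv0 : v ≠ 0 := by
      rintro rfl
      have := hv.2
      rw [mem_sphere_zero_iff_norm, norm_zero] at this
      exact zero_ne_one this
    have hg := h3 v hv.1 hv0
    filter_upwards [Metric.ball_mem_nhds B₀ hg] with B hB u hu hu0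
    replace hB : ‖B - B₀‖ < B₀ v v := by
      rw [← dist_eq_norm]
      exact hB
    obtain ⟨hw1, hw2⟩ := hnorm u hu hu0
    obtain ⟨w, hw⟩ : ∃ w, w = ‖u‖⁻¹ • u := ⟨_, rfl⟩
    rw [← hw] at hw1 hw2
    rw [mem_sphere_zero_iff_norm] at hw2
    have h5 : B₀ v v ≤ B₀ w w := hmin ⟨hw1, by rw [mem_sphere_zero_iff_norm]; exact hw2⟩
    have h6 : |(B - B₀) w w| ≤ ‖B - B₀‖ := by
      have := (B - B₀).le_opNorm₂ w w
      rw [hw2, mul_one, mul_one, Real.norm_eq_abs] at this
      exact this
    have h7 : (B - B₀) w w = B w w - B₀ w w := rfl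
    rw [h7] at h6
    have h8 : 0 < B w w := by
      have := (abs_le.1 h6).1
      linarith
    have hn : 0 < ‖u‖ := norm_pos_iff.2 hu0
    have h9 : u = ‖u‖ • w := by
      rw [hw, smul_smul, mul_inv_cancel₀ hn.ne', one_smul]
    rw [h9]
    simp only [map_smul, ContinuousLinearMap.smul_apply, smul_eq_mul]
    positivity

set_option maxSynthPendingDepth 3 in
/-- TARGET -/
theorem index_stable (B₀ : F →L[ℝ] F →L[ℝ] ℝ) (N P : Submodule ℝ F)
    (h3 : ∀ u ∈ N, u ≠ 0 → B₀ u u < 0) (h4 : ∀ u ∈ P, u ≠ 0 → 0 < B₀ u u) :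
    ∀ᶠ B in 𝓝 B₀, (∀ u ∈ N, u ≠ 0 → B u u < 0) ∧ (∀ u ∈ P, u ≠ 0 → 0 < B u u) := by
  have h5 := index_stable_pos (-B₀) N (fun u hu hu0 => by
    have := h3 u hu hu0
    simp only [ContinuousLinearMap.neg_apply]
    linarith)
  have h6 := (continuous_neg.tendsto B₀).eventually h5
  filter_upwards [h6, index_stable_pos B₀ P h4] with B h7 h8
  refine ⟨fun u hu hu0 => ?_, h8⟩
  have := h7 u hu hu0
  simp only [ContinuousLinearMap.neg_apply] at this
  linarith

end

end Pool.Agent.H469
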