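import Pool.Agent.Helper469_Dupin.Chart
import Pool.Agent.Helper469_Dupin.Jlop
import Pool.Agent.Helper469_Dupin.Jbrcrit
import Pool.Agent.Helper469_Dupin.Jbrindex
import Pool.Agent.Helper469_Dupin.Jfamd
import Pool.Agent.Helper469_Dupin.Jindex

set_option autoImplicit false

open Set Filter Topology MeasureTheory
open scoped ContDiff InnerProductSpace

namespace Pool.Agent.H469


section
variable {n m : ℕ} {M : Set (Eu n)} {T : Submodule ℝ (Eu n)} {g : T → Tᗮ} {O : Set T} {V : Set (Eu n)}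

theorem crit_iff_smooth (p : Eu n × ℝ) : ContDiff ℝ ∞ (fam p) := by
  unfold fam
  exact (contDiff_const.inner ℝ contDiff_id).sub ((contDiff_const.mul (contDiff_norm_sq ℝ)).div_const 2)

theorem crit_iff_J (T : Submodule ℝ (Eu n)) (p : Eu n × ℝ) (y : T) (z : Tᗮ) (e : ℝ) :
    p = Jmap T (y, z, e) ↔ T.orthogonalProjectionOnto p.1 = y ∧ Tᗮ.orthogonalProjectionOnto p.1 = z ∧ p.2 = e := by
  have hJ : Jmap T (y, z, e) = ((y : Eu n) + (z : Eu n), e) := by simp [Jmap]
  rw [hJ]
  constructor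
  · intro h
    rw [h]
    refine ⟨?_, ?_, rfl⟩
    · simp only [map_add]
      rw [Submodule.orthogonalProjectionOnto_mem_subspace_eq_self,
        Submodule.orthogonalProjectionOnto_apply_of_mem_orthogonal z.2, add_zero]
    · simp only [map_add]
      rw [Submodule.orthogonalProjectionOnto_mem_subspace_eq_self,
        Submodule.orthogonalProjectionOnto_orthogonal_apply_eq_zero y.2, zero_add]
  · rintro ⟨h1, h2, h3⟩
    have h4 := T.starProjection_add_starProjection_orthogonal p.1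
    rw [Submodule.starProjection_apply, Submodule.starProjection_apply, h1, h2] at h4
    rw [h4, ← h3]

theorem crit_iff_Th (T : Submodule ℝ (Eu n)) (g : T → Tᗮ) (p : Eu n × ℝ) (a : T) (b : Tᗮ) :
    p = Jmap T (Th g (a, b, p.2)) ↔
      T.orthogonalProjectionOnto p.1 = p.2 • a - nrm g a b ∧ Tᗮ.orthogonalProjectionOnto p.1 = p.2 • g a + b := by
  unfold Th
  simp only
  rw [crit_iff_J]
  simp

end


/-! PLAIN PROOF OF THE TARGET(S)

x = φ(a), a = P x ∈ O.  br_crit: x critical for fam p ↔ D(fam p ∘ cmap)(a) = 0 ↔ (fam_d1) Pw - ε a + nrm g a (Qw - ε g a) = 0, where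
p = (w,ε).  Jmap T (Th g (a,b,ε)) = ((ε a - nrm g a b) + (ε g a + b), ε); p equals this iff Pw = ε a - nrm g a b and Qw = ε g a + b.  So b must be
Qw - ε g a and the condition is the one above.
nondeg_iff: with that b, D²(fam p ∘ cmap)(a)(u,v) = -<Lop g a b ε u, v> (fam_d2); br_index and index_iff (with the symmetric form B, dim T = m
by h.dim) give: some index exists ↔ B nondegenerate ↔ ker Lop = 0.  (fam p is smooth: ContDiff ℝ ∞ (fam p).)
-/

section
variable {n m : ℕ} {M : Set (Eu n)} {T : Submodule ℝ (Eu n)} {g : T → Tᗮ} {O : Set T} {V : Set (Eu n)}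

/-- TARGET -/
theorem crit_iff (h : IsChart ∞ m M T g O V) (x : Eu n) (hx : x ∈ M) (hxV : x ∈ V) (p : Eu n × ℝ) :
    x ∈ critSet M (fam p) ↔ ∃ b : Tᗮ, p = Jmap T (Th g (T.orthogonalProjectionOnto x, b, p.2)) := by
  have ha : T.orthogonalProjectionOnto x ∈ O := (h.mem x hxV).1
  rw [br_crit h x hx hxV (fam p) (crit_iff_smooth p)]
  set a : T := T.orthogonalProjectionOnto x with hadef
  have h1 : fderiv ℝ (fam p ∘ cmap T g) a = 0 ↔ T.orthogonalProjectionOnto p.1 - p.2 • a +
      nrm g a (Tᗮ.orthogonalProjectionOnto p.1 - p.2 • g a) = 0 := by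
    constructor
    · intro h2
      apply ext_inner_right ℝ
      intro u
      rw [← fam_d1 g O h.openO h.smooth a ha p u, h2, inner_zero_left]
      rfl
    · intro h2
      ext u
      rw [fam_d1 g O h.openO h.smooth a ha p u, h2, inner_zero_left]
      rfl
  rw [h1]
  constructor
  · intro h2
    refine ⟨Tᗮ.orthogonalProjectionOnto p.1 - p.2 • g a, ?_⟩
    rw [crit_iff_Th]
    refine ⟨?_, by abel⟩
    have h3 := eq_neg_of_add_eq_zero_left h2
    rw [sub_eq_iff_eq_add] at h3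
    rw [h3]
    abel
  · rintro ⟨b, hb⟩
    rw [crit_iff_Th] at hb
    obtain ⟨hb1, hb2⟩ := hb
    rw [hb2, hb1, add_sub_cancel_left]
    abel

/-- TARGET -/
theorem nondeg_iff (h : IsChart ∞ m M T g O V) (x : Eu n) (hx : x ∈ M) (hxV : x ∈ V) (p : Eu n × ℝ)
    (b : Tᗮ) (hp : p = Jmap T (Th g (T.orthogonalProjectionOnto x, b, p.2))) :
    (∃ k, HasIndex m M (fam p) x k) ↔
      LinearMap.ker (Lop g (T.orthogonalProjectionOnto x) b p.2 : T →ₗ[ℝ] T) = ⊥ := by
  have ha : T.orthogonalProjectionOnto x ∈ O := (h.mem x hxV).1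
  have hcrit := (crit_iff h x hx hxV p).2 ⟨b, hp⟩
  rw [br_crit h x hx hxV (fam p) (crit_iff_smooth p)] at hcrit
  set a : T := T.orthogonalProjectionOnto x with hadef
  have hb : Tᗮ.orthogonalProjectionOnto p.1 - p.2 • g a = b := by
    rw [crit_iff_Th] at hp
    rw [hp.2, add_sub_cancel_left]
  set B : T →L[ℝ] T →L[ℝ] ℝ := fderiv ℝ (fderiv ℝ (fam p ∘ cmap T g)) a with hB
  have hBL : ∀ u v, B u v = -⟪Lop g a b p.2 u, v⟫_ℝ := by
    intro u v
    rw [hB, fam_d2 g O h.openO h.smooth a ha p u v, hb]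
  have hsymm : ∀ u v, B u v = B v u := by
    intro u v
    rw [hBL, hBL, lop_symm g O h.openO h.smooth a ha, real_inner_comm]
  have h1 : (∃ k, HasIndex m M (fam p) x k) ↔ ∃ (k : ℕ) (N P : Submodule ℝ T), Module.finrank ℝ N = k ∧
      Module.finrank ℝ P + k = Module.finrank ℝ T ∧
      (∀ u ∈ N, u ≠ 0 → B u u < 0) ∧ (∀ u ∈ P, u ≠ 0 → 0 < B u u) := by
    apply exists_congr
    intro k
    rw [br_index h x hx hxV (fam p) (crit_iff_smooth p) k, h.dim]
    constructor
    · rintro ⟨_, N, P, h2⟩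
      exact ⟨N, P, h2⟩
    · rintro ⟨N, P, h2⟩
      exact ⟨hcrit, N, P, h2⟩
  rw [h1, index_iff B hsymm, LinearMap.ker_eq_bot']
  constructor
  · intro h2 u hu
    apply h2 u
    ext v
    rw [hBL]
    have hu' : Lop g a b p.2 u = 0 := hu
    rw [hu', inner_zero_left, neg_zero]
    rfl
  · intro h2 u hu
    apply h2 u
    change Lop g a b p.2 u = 0
    apply ext_inner_right ℝ
    intro v
    have h3 := hBL u v
    rw [hu] at h3
    rw [inner_zero_left]
    have h4 : (0 : ℝ) = -⟪Lop g a b p.2 u, v⟫_ℝ := h3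
    linarith

end

end Pool.Agent.H469
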