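import Pool.Agent.Helper469_Dupin.DefsB
import Pool.Agent.Helper469_Dupin.Jbcirc
import Pool.Agent.Helper469_Dupin.Jbid
import Pool.Agent.Helper469_Dupin.Jbrcrit
import Pool.Agent.Helper469_Dupin.Jfamd
import Pool.Agent.Helper469_Dupin.Jcritiff

set_option autoImplicit false

open Set Filter Topology MeasureTheory
open scoped ContDiff InnerProductSpace

namespace Pool.Agent.H469


section
variable {F W : Type} [NormedAddCommGroup F] [InnerProductSpace ℝ F] [FiniteDimensional ℝ F]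
  [NormedAddCommGroup W] [InnerProductSpace ℝ W] [FiniteDimensional ℝ W]

/-- the adjoint as a linear map -/
noncomputable def leaf_complete_adjL : (F →L[ℝ] W) →ₗ[ℝ] (W →L[ℝ] F) where
  toFun A := ContinuousLinearMap.adjoint A
  map_add' A B := by rw [map_add]
  map_smul' r A := by rw [LinearIsometryEquiv.map_smulₛₗ]; rfl

/-- the adjoint as a continuous linear map -/
noncomputable def leaf_complete_adjC : (F →L[ℝ] W) →L[ℝ] (W →L[ℝ] F) :=
  LinearMap.mkContinuous (leaf_complete_adjL (F := F) (W := W)) 1 (fun A => by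
    rw [one_mul]
    exact (LinearIsometryEquiv.norm_map ContinuousLinearMap.adjoint A).le)

theorem leaf_complete_nrm_eq (g : F → W) (a : F) (b : W) :
    nrm g a b = leaf_complete_adjC (fderiv ℝ g a) b := rfl

theorem leaf_complete_adj_diff (g : F → W) (a : F) (hg : ContDiffAt ℝ ∞ g a) :
    DifferentiableAt ℝ (fun a' => leaf_complete_adjC (fderiv ℝ g a')) a := by
  have hfd : DifferentiableAt ℝ (fderiv ℝ g) a := by
    have h3 : ContDiffAt ℝ 1 (fderiv ℝ g) a := hg.fderiv_right (by norm_cast)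
    exact h3.differentiableAt (by simp)
  have h2 : DifferentiableAt ℝ (fun A : F →L[ℝ] W => leaf_complete_adjC A) (fderiv ℝ g a) :=
    (leaf_complete_adjC (F := F) (W := W)).hasFDerivAt.differentiableAt
  exact h2.comp a hfd

theorem leaf_complete_Hop_eq (g : F → W) (a u : F) (b : W) (hg : ContDiffAt ℝ ∞ g a) :
    Hop g a b u = (fderiv ℝ (fun a' => leaf_complete_adjC (fderiv ℝ g a')) a u) b := by
  have hA := (leaf_complete_adj_diff g a hg).hasFDerivAt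
  have h4 := hA.clm_apply (hasFDerivAt_const b a)
  have h5 : HasFDerivAt (fun a' => nrm g a' b) _ a := h4
  unfold Hop
  rw [h5.fderiv]
  simp

theorem leaf_complete_core (g : F → W) (α : ℝ → F) (β : ℝ → W) (s : ℝ) (α' : F)
    (β' : W) (hα : HasDerivAt α α' s) (hβ : HasDerivAt β β' s)
    (hg : ContDiffAt ℝ ∞ g (α s)) :
    HasDerivAt (fun t => nrm g (α t) (β t)) (Hop g (α s) (β s) α' + nrm g (α s) β') s := by
  have hA := (leaf_complete_adj_diff g (α s) hg).hasFDerivAt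
  have hAα := hA.comp_hasDerivAt s hα
  have hN := hAα.clm_apply hβ
  rw [leaf_complete_Hop_eq g (α s) α' (β s) hg]
  exact hN

theorem leaf_complete_core2 (g : F → W) (α : ℝ → F) (β : ℝ → W) (γ : ℝ → F) (s ε : ℝ) (α' : F)
    (hα : HasDerivAt α α' s) (hg : ContDiffAt ℝ ∞ g (α s))
    (hβ : HasDerivAt β (-(ε • fderiv ℝ g (α s) α')) s) (hγ : HasDerivAt γ (-(ε • α')) s)
    (h2 : ∀ᶠ t in 𝓝 s, γ t = -nrm g (α t) (β t)) : Lop g (α s) (β s) ε α' = 0 := by
  have h0 := leaf_complete_core g α β s _ _ hα hβ hg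
  have h := hγ.unique ((h0.neg).congr_of_eventuallyEq h2)
  have h3 := neg_injective h
  have h4 : nrm g (α s) (-(ε • fderiv ℝ g (α s) α')) =
      -(ε • ContinuousLinearMap.adjoint (fderiv ℝ g (α s)) (fderiv ℝ g (α s) α')) := by
    unfold nrm
    rw [map_neg, map_smul]
  rw [h4] at h3
  unfold Lop Gop
  have h5 : (ε • (ContinuousLinearMap.id ℝ F +
      (ContinuousLinearMap.adjoint (fderiv ℝ g (α s))).comp (fderiv ℝ g (α s))) -
      Hop g (α s) (β s)) α' = ε • α' +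
      ε • ContinuousLinearMap.adjoint (fderiv ℝ g (α s)) (fderiv ℝ g (α s) α') -
      Hop g (α s) (β s) α' := by
    simp [smul_add]
  rw [h5, h3]
  abel

end

section
variable {n m : ℕ} {M : Set (Eu n)} {T : Submodule ℝ (Eu n)} {g : T → Tᗮ} {O : Set T} {V : Set (Eu n)}

theorem leaf_complete_projT (a : T) (b : Tᗮ) :
    T.orthogonalProjectionOnto ((a : Eu n) + (b : Eu n)) = a := by
  rw [map_add, Submodule.orthogonalProjectionOnto_mem_subspace_eq_self,
    Submodule.orthogonalProjectionOnto_apply_of_mem_orthogonal b.2, add_zero]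

theorem leaf_complete_projN (a : T) (b : Tᗮ) :
    Tᗮ.orthogonalProjectionOnto ((a : Eu n) + (b : Eu n)) = b := by
  rw [map_add, Submodule.orthogonalProjectionOnto_orthogonal_apply_eq_zero a.2,
    Submodule.orthogonalProjectionOnto_mem_subspace_eq_self, zero_add]

theorem leaf_complete_decomp (v : Eu n) :
    ((T.orthogonalProjectionOnto v : T) : Eu n) + ((Tᗮ.orthogonalProjectionOnto v : Tᗮ) : Eu n) = v := by
  rw [Submodule.orthogonalProjectionOnto_orthogonal]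
  simp

theorem leaf_complete_step1 (hc : IsChart ∞ m M T g O V) (y w : Eu n) (ε : ℝ) (hyV : y ∈ V)
    (hcr : y ∈ critSet M (fam (w, ε))) :
    T.orthogonalProjectionOnto y ∈ O ∧
    Tᗮ.orthogonalProjectionOnto y = g (T.orthogonalProjectionOnto y) ∧
    T.orthogonalProjectionOnto (w - ε • y) =
      -nrm g (T.orthogonalProjectionOnto y) (Tᗮ.orthogonalProjectionOnto (w - ε • y)) := by
  have hyM : y ∈ M := hcr.1
  have h1 := hc.mem y hyV
  have h2 := h1.2.1 hyM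
  obtain ⟨b, hb⟩ := (crit_iff hc y hyM hyV (w, ε)).1 hcr
  have h3 : w = ((ε • T.orthogonalProjectionOnto y - nrm g (T.orthogonalProjectionOnto y) b : T) : Eu n)
      + ((ε • g (T.orthogonalProjectionOnto y) + b : Tᗮ) : Eu n) := congrArg Prod.fst hb
  have h4 : T.orthogonalProjectionOnto w =
      ε • T.orthogonalProjectionOnto y - nrm g (T.orthogonalProjectionOnto y) b := by
    conv_lhs => rw [h3]
    exact leaf_complete_projT _ _
  have h5 : Tᗮ.orthogonalProjectionOnto w = ε • g (T.orthogonalProjectionOnto y) + b := by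
    conv_lhs => rw [h3]
    exact leaf_complete_projN _ _
  have h6 : Tᗮ.orthogonalProjectionOnto (w - ε • y) = b := by
    rw [map_sub, map_smul, h5, h2]
    abel
  refine ⟨h1.1, h2, ?_⟩
  rw [h6, map_sub, map_smul, h4]
  abel

theorem leaf_complete_step2 (w : Eu n) (ε : ℝ) (y : ℝ → Eu n) (y' : Eu n) (s : ℝ)
    (hy : HasDerivAt y y' s)
    (hg : ContDiffAt ℝ ∞ g (T.orthogonalProjectionOnto (y s)))
    (h1 : ∀ᶠ t in 𝓝 s, Tᗮ.orthogonalProjectionOnto (y t) = g (T.orthogonalProjectionOnto (y t)))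
    (h2 : ∀ᶠ t in 𝓝 s, T.orthogonalProjectionOnto (w - ε • y t) =
      -nrm g (T.orthogonalProjectionOnto (y t)) (Tᗮ.orthogonalProjectionOnto (w - ε • y t))) :
    Tᗮ.orthogonalProjectionOnto y' =
      fderiv ℝ g (T.orthogonalProjectionOnto (y s)) (T.orthogonalProjectionOnto y') ∧
    Lop g (T.orthogonalProjectionOnto (y s)) (Tᗮ.orthogonalProjectionOnto (w - ε • y s)) ε
      (T.orthogonalProjectionOnto y') = 0 := by
  have hα : HasDerivAt (fun t => T.orthogonalProjectionOnto (y t)) (T.orthogonalProjectionOnto y') s :=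
    (T.orthogonalProjectionOnto.hasFDerivAt (x := y s)).comp_hasDerivAt s hy
  have hQ : HasDerivAt (fun t => Tᗮ.orthogonalProjectionOnto (y t))
      (Tᗮ.orthogonalProjectionOnto y') s :=
    (Tᗮ.orthogonalProjectionOnto.hasFDerivAt (x := y s)).comp_hasDerivAt s hy
  have hwy : HasDerivAt (fun t => w - ε • y t) (-(ε • y')) s := (hy.const_smul ε).const_sub w
  have hβ : HasDerivAt (fun t => Tᗮ.orthogonalProjectionOnto (w - ε • y t))
      (Tᗮ.orthogonalProjectionOnto (-(ε • y'))) s :=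
    (Tᗮ.orthogonalProjectionOnto.hasFDerivAt (x := w - ε • y s)).comp_hasDerivAt s hwy
  have hγ : HasDerivAt (fun t => T.orthogonalProjectionOnto (w - ε • y t))
      (T.orthogonalProjectionOnto (-(ε • y'))) s :=
    (T.orthogonalProjectionOnto.hasFDerivAt (x := w - ε • y s)).comp_hasDerivAt s hwy
  have hgd : HasFDerivAt g (fderiv ℝ g (T.orthogonalProjectionOnto (y s)))
      (T.orthogonalProjectionOnto (y s)) := (hg.differentiableAt (by simp)).hasFDerivAt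
  have hgα : HasDerivAt (fun t => g (T.orthogonalProjectionOnto (y t)))
      (fderiv ℝ g (T.orthogonalProjectionOnto (y s)) (T.orthogonalProjectionOnto y')) s :=
    hgd.comp_hasDerivAt s hα
  have e1 : Tᗮ.orthogonalProjectionOnto y' =
      fderiv ℝ g (T.orthogonalProjectionOnto (y s)) (T.orthogonalProjectionOnto y') :=
    hQ.unique (hgα.congr_of_eventuallyEq h1)
  refine ⟨e1, ?_⟩
  rw [map_neg, map_smul, e1] at hβ
  rw [map_neg, map_smul] at hγ
  exact leaf_complete_core2 g (fun t => T.orthogonalProjectionOnto (y t))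
    (fun t => Tᗮ.orthogonalProjectionOnto (w - ε • y t))
    (fun t => T.orthogonalProjectionOnto (w - ε • y t)) s ε _ hα hg hβ hγ h2

end

section
variable {n m : ℕ} {M : Set (Eu n)} {T : Submodule ℝ (Eu n)} {g : T → Tᗮ} {O : Set T} {V : Set (Eu n)}
  {N : Set (T × Tᗮ)} {ρ : T × Tᗮ → ℝ} {e : T × Tᗮ → Eu n}

theorem leaf_complete_cmap_cont (hc : IsChart ∞ m M T g O V) : ContinuousOn (cmap T g) O := by
  have hg : ContinuousOn g O := hc.smooth.continuousOn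
  unfold cmap
  exact (continuous_subtype_val.continuousOn).add (continuous_subtype_val.comp_continuousOn hg)

theorem leaf_complete_open (hc : IsChart ∞ m M T g O V) :
    IsOpen {a | a ∈ O ∧ cmap T g a ∈ V} :=
  (leaf_complete_cmap_cont hc).isOpen_inter_preimage hc.openO hc.openV

end


/-! PLAIN PROOF OF THE TARGET(S)

Let w = nvec z + ε x, x = xpt z, y(s) = circ x e' q' s, y(0) = x, so w - ε y(0) = nvec z.  ζ(s) = (P y(s), Q(w - ε y(s))), ζ(0) = z (P x = z.1,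
Q nvec z = z.2).  For s ∈ (-η,0], shrinking η, y(s) ∈ V and ζ(s) ∈ N (continuity, N open), y(s) ∈ M.  So y(s) = cmap T g (P y(s)) and, by
br_crit and fam_d1 at y(s) for p = (w,ε) (or crit_iff): P w - ε P y + nrm g (P y)(Q w - ε g(P y)) = 0, that is nvec(ζ(s)) = w - ε y(s), xpt(ζ(s)) = y(s).
Differentiate at s ∈ (-η,0) (interior) the identities Q y = g(P y) and P(w - ε y) = -nrm g (P y)(Q(w - ε y)): with y' ≠ 0,
Q y' = Dg P y', -ε P y' = -(Hop P y' - ε nrm g (Q y')), so Lop g (ζ s).1 (ζ s).2 ε (P y') = 0, and P y' ≠ 0 as otherwise y' = 0.  By huniq ε = ρ(ζ(s)) for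
s ∈ (-η,0), by continuity ε = ρ(ζ(0)) = ρ z.  By LeafPre.ker P y'(s) = r P e(ζ s), so y' = P y' + Dg P y' = r e(ζ s) (LeafPre.tang), and
y' = (1+s²|q'|²)⁻¹ circE e' q' s (circ_deriv) with |circE| = 1 (circ_group), so circE e' q' s = ± e(ζ s).  The function s ↦ <circE e' q' s, e(ζ s)> is
continuous on (-η,0] with values in {1,-1}, so the sign σ is constant, and at s = 0 (circE at 0 is e') e' = σ e(z).  For s ∈ (-η,0):
ζ'(s) = (P y', -ε Q y') = σ (1+s²|q'|²)⁻¹ Xf(ζ s).  Differentiate circE e' q' s = σ e(ζ s): 2(1+s²|q'|²)⁻¹ circQ e' q' s =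
σ De(ζ s)(ζ') = (1+s²|q'|²)⁻¹ De(Xf) = (1+s²|q'|²)⁻¹ 2 qf(ζ s) (σ² = 1).  So circQ e' q' s = qf(ζ s), and s → 0: q' = qf z (circQ at 0 is q').
-/

section
variable {n m : ℕ} {M : Set (Eu n)} {T : Submodule ℝ (Eu n)} {g : T → Tᗮ} {O : Set T} {V : Set (Eu n)}
  {N : Set (T × Tᗮ)} {ρ : T × Tᗮ → ℝ} {e : T × Tᗮ → Eu n}

/-- TARGET -/
theorem leaf_complete (hc : IsChart ∞ m M T g O V)
    (h : LeafPre T g {a | a ∈ O ∧ cmap T g a ∈ V} N ρ e) (ε₀ δ : ℝ)
    (huniq : ∀ z ∈ N, ∀ ε, |ε - ε₀| < δ → (∃ u : T, u ≠ 0 ∧ Lop g z.1 z.2 ε u = 0) → ε = ρ z)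
    (z : T × Tᗮ) (hz : z ∈ N) (ε : ℝ) (hε : |ε - ε₀| < δ) (e' q' : Eu n) (he' : ‖e'‖ = 1)
    (hq' : ⟪e', q'⟫_ℝ = 0) (η : ℝ) (hη : 0 < η)
    (hcrit : ∀ s ∈ Ioc (-η) 0,
      circ (xpt T g z) e' q' s ∈ critSet M (fam (nvec T g z + ε • xpt T g z, ε))) :
    ε = ρ z ∧ (e' = e z ∨ e' = -(e z)) ∧ q' = qf T ρ e z := by
  classical
  have hO' : IsOpen {a | a ∈ O ∧ cmap T g a ∈ V} := leaf_complete_open hc
  have hgO' : ContDiffOn ℝ ∞ g {a | a ∈ O ∧ cmap T g a ∈ V} := hc.smooth.mono (fun a ha => ha.1)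
  have hqfs := (leaf_smooth hO' hgO' h).2.2.2.2
  obtain ⟨⟨hzO, hzV⟩, hz2⟩ := h.sub z hz
  obtain ⟨x, hx⟩ : ∃ x, x = xpt T g z := ⟨_, rfl⟩
  obtain ⟨w, hw⟩ : ∃ w, w = nvec T g z + ε • xpt T g z := ⟨_, rfl⟩
  obtain ⟨y, hy⟩ : ∃ y : ℝ → Eu n, y = circ x e' q' := ⟨_, rfl⟩
  rw [← hw, ← hx, ← hy] at hcrit
  have hy0 : y 0 = x := by rw [hy]; simp [circ]
  have hyd : ∀ s, HasDerivAt y ((1 + s ^ 2 * ‖q'‖ ^ 2)⁻¹ • circE e' q' s) s := fun s => by
    rw [hy]; exact (circ_deriv x e' q' s).1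
  have hEd : ∀ s, HasDerivAt (circE e' q') ((2 * (1 + s ^ 2 * ‖q'‖ ^ 2)⁻¹) • circQ e' q' s) s :=
    fun s => (circ_deriv x e' q' s).2.1
  have hQd : ∀ s, HasDerivAt (circQ e' q')
      (-((2 * ‖q'‖ ^ 2 * (1 + s ^ 2 * ‖q'‖ ^ 2)⁻¹) • circE e' q' s)) s :=
    fun s => (circ_deriv x e' q' s).2.2
  have hyc : Continuous y := continuous_iff_continuousAt.2 fun s => (hyd s).continuousAt
  have hEc : Continuous (circE e' q') := continuous_iff_continuousAt.2 fun s => (hEd s).continuousAt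
  have hQc : Continuous (circQ e' q') := continuous_iff_continuousAt.2 fun s => (hQd s).continuousAt
  have hkpos : ∀ s : ℝ, 0 < (1 + s ^ 2 * ‖q'‖ ^ 2) := fun s => by positivity
  obtain ⟨ζ, hζdef⟩ : ∃ ζ : ℝ → T × Tᗮ, ζ = fun s => (T.orthogonalProjectionOnto (y s),
      Tᗮ.orthogonalProjectionOnto (w - ε • y s)) := ⟨_, rfl⟩
  have hζ1 : ∀ s, (ζ s).1 = T.orthogonalProjectionOnto (y s) := fun s => by rw [hζdef]
  have hζ2 : ∀ s, (ζ s).2 = Tᗮ.orthogonalProjectionOnto (w - ε • y s) := fun s => by rw [hζdef]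
  have hζd : ∀ s, HasDerivAt ζ (T.orthogonalProjectionOnto ((1 + s ^ 2 * ‖q'‖ ^ 2)⁻¹ • circE e' q' s),
      Tᗮ.orthogonalProjectionOnto (-(ε • ((1 + s ^ 2 * ‖q'‖ ^ 2)⁻¹ • circE e' q' s)))) s := by
    intro s
    rw [hζdef]
    have h1 := (T.orthogonalProjectionOnto.hasFDerivAt (x := y s)).comp_hasDerivAt s (hyd s)
    have h2 : HasDerivAt (fun t => w - ε • y t)
        (-(ε • ((1 + s ^ 2 * ‖q'‖ ^ 2)⁻¹ • circE e' q' s))) s := ((hyd s).const_smul ε).const_sub w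
    have h3 := (Tᗮ.orthogonalProjectionOnto.hasFDerivAt (x := w - ε • y s)).comp_hasDerivAt s h2
    exact h1.prodMk h3
  have hζc : Continuous ζ := continuous_iff_continuousAt.2 fun s => (hζd s).continuousAt
  have hζ0 : ζ 0 = z := by
    apply Prod.ext
    · rw [hζ1, hy0, hx]
      exact leaf_complete_projT _ _
    · rw [hζ2, hy0, hw, hx, add_sub_cancel_right]
      exact leaf_complete_projN _ _
  have hev : ∀ᶠ s in 𝓝 (0 : ℝ), y s ∈ V ∧ ζ s ∈ N := by
    have h1 : ∀ᶠ s in 𝓝 (0 : ℝ), y s ∈ V := by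
      apply hyc.continuousAt.eventually_mem
      rw [hy0, hx]
      exact hc.openV.mem_nhds hzV
    have h2 : ∀ᶠ s in 𝓝 (0 : ℝ), ζ s ∈ N := by
      apply hζc.continuousAt.eventually_mem
      rw [hζ0]
      exact h.openN.mem_nhds hz
    exact h1.and h2
  obtain ⟨δ', hδ', hball⟩ := Metric.eventually_nhds_iff_ball.1 hev
  obtain ⟨η', hη'⟩ : ∃ η', η' = min η δ' := ⟨_, rfl⟩
  have hη'pos : 0 < η' := by rw [hη']; exact lt_min hη hδ'
  have hη'1 : η' ≤ η := by rw [hη']; exact min_le_left _ _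
  have hη'2 : η' ≤ δ' := by rw [hη']; exact min_le_right _ _
  have hin : ∀ s ∈ Ioo (-η') 0, y s ∈ V ∧ ζ s ∈ N := by
    intro s hs
    apply hball
    rw [Metric.mem_ball, dist_zero_right, Real.norm_eq_abs, abs_of_neg hs.2]
    linarith [hs.1]
  have hst1 : ∀ s ∈ Ioo (-η') 0, T.orthogonalProjectionOnto (y s) ∈ O ∧
      Tᗮ.orthogonalProjectionOnto (y s) = g (T.orthogonalProjectionOnto (y s)) ∧
      T.orthogonalProjectionOnto (w - ε • y s) =
        -nrm g (T.orthogonalProjectionOnto (y s)) (Tᗮ.orthogonalProjectionOnto (w - ε • y s)) := by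
    intro s hs
    exact leaf_complete_step1 hc (y s) w ε (hin s hs).1
      (hcrit s ⟨by linarith [hs.1], hs.2.le⟩)
  have hst2 : ∀ s ∈ Ioo (-η') 0,
      Tᗮ.orthogonalProjectionOnto ((1 + s ^ 2 * ‖q'‖ ^ 2)⁻¹ • circE e' q' s) =
      fderiv ℝ g (ζ s).1
        (T.orthogonalProjectionOnto ((1 + s ^ 2 * ‖q'‖ ^ 2)⁻¹ • circE e' q' s)) ∧
      Lop g (ζ s).1 (ζ s).2 ε
        (T.orthogonalProjectionOnto ((1 + s ^ 2 * ‖q'‖ ^ 2)⁻¹ • circE e' q' s)) = 0 := by
    intro s hs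
    have hnb : Ioo (-η') 0 ∈ 𝓝 s := isOpen_Ioo.mem_nhds hs
    rw [hζ1, hζ2]
    refine leaf_complete_step2 w ε y _ s (hyd s) ?_ ?_ ?_
    · exact hc.smooth.contDiffAt (hc.openO.mem_nhds (hst1 s hs).1)
    · filter_upwards [hnb] with t ht
      exact (hst1 t ht).2.1
    · filter_upwards [hnb] with t ht
      exact (hst1 t ht).2.2
  have hEn : ∀ s, ‖circE e' q' s‖ = 1 := fun s => (circ_group x e' q' he' hq' s).1
  have hPne : ∀ s ∈ Ioo (-η') 0,
      T.orthogonalProjectionOnto ((1 + s ^ 2 * ‖q'‖ ^ 2)⁻¹ • circE e' q' s) ≠ 0 := by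
    intro s hs h0
    have h1 := (hst2 s hs).1
    rw [h0, map_zero] at h1
    have h2 := leaf_complete_decomp (T := T) ((1 + s ^ 2 * ‖q'‖ ^ 2)⁻¹ • circE e' q' s)
    rw [h0, h1] at h2
    simp only [Submodule.coe_zero, add_zero] at h2
    have h3 : circE e' q' s = 0 := by
      rcases smul_eq_zero.1 h2.symm with h4 | h4
      · exact absurd h4 (inv_ne_zero (hkpos s).ne')
      · exact h4
    have h4 := hEn s
    rw [h3, norm_zero] at h4
    exact zero_ne_one h4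
  have hρ : ∀ s ∈ Ioo (-η') 0, ε = ρ (ζ s) := fun s hs =>
    huniq (ζ s) (hin s hs).2 ε hε ⟨_, hPne s hs, (hst2 s hs).2⟩
  have hIoo : Ioo (-η') 0 ∈ 𝓝[<] (0 : ℝ) := Ioo_mem_nhdsLT (by linarith)
  have hζt : Tendsto ζ (𝓝[<] (0 : ℝ)) (𝓝 z) := by
    have h1 := hζc.tendsto 0
    rw [hζ0] at h1
    exact h1.mono_left nhdsWithin_le_nhds
  have hρz : ε = ρ z := by
    have h1 : Tendsto (fun s => ρ (ζ s)) (𝓝[<] (0 : ℝ)) (𝓝 (ρ z)) :=
      ((h.smr.contDiffAt (h.openN.mem_nhds hz)).continuousAt.tendsto).comp hζt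
    have h2 : Tendsto (fun s => ρ (ζ s)) (𝓝[<] (0 : ℝ)) (𝓝 ε) := by
      apply tendsto_const_nhds.congr'
      filter_upwards [hIoo] with s hs
      exact hρ s hs
    exact tendsto_nhds_unique h2 h1
  have hr : ∀ s ∈ Ioo (-η') 0, ∃ r : ℝ, circE e' q' s = r • e (ζ s) := by
    intro s hs
    have h1 := (hst2 s hs).2
    have h1' : Lop g (ζ s).1 (ζ s).2 (ρ (ζ s))
        (T.orthogonalProjectionOnto ((1 + s ^ 2 * ‖q'‖ ^ 2)⁻¹ • circE e' q' s)) = 0 := by
      rw [← hρ s hs]; exact h1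
    obtain ⟨r, hr⟩ := (h.ker (ζ s) (hin s hs).2 _).1 h1'
    have h2 : (1 + s ^ 2 * ‖q'‖ ^ 2)⁻¹ • circE e' q' s = r • e (ζ s) := by
      rw [← leaf_complete_decomp (T := T) ((1 + s ^ 2 * ‖q'‖ ^ 2)⁻¹ • circE e' q' s),
        ← leaf_complete_decomp (T := T) (r • e (ζ s)), (hst2 s hs).1, hr, map_smul, map_smul,
        map_smul, h.tang (ζ s) (hin s hs).2]
    refine ⟨(1 + s ^ 2 * ‖q'‖ ^ 2) * r, ?_⟩
    rw [mul_smul, ← h2, smul_smul, mul_inv_cancel₀ (hkpos s).ne', one_smul]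
  have heC : ContinuousOn (fun s => e (ζ s)) (Ioo (-η') 0) :=
    h.sme.continuousOn.comp hζc.continuousOn (fun s hs => (hin s hs).2)
  have hφ : ∀ s ∈ Ioo (-η') 0, circE e' q' s = ⟪circE e' q' s, e (ζ s)⟫_ℝ • e (ζ s) ∧
      ⟪circE e' q' s, e (ζ s)⟫_ℝ ^ 2 = 1 := by
    intro s hs
    obtain ⟨r, hr⟩ := hr s hs
    have h1 : ⟪circE e' q' s, e (ζ s)⟫_ℝ = r := by
      rw [hr, real_inner_smul_left, real_inner_self_eq_norm_sq, h.unit _ (hin s hs).2]
      ring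
    refine ⟨by rw [h1]; exact hr, ?_⟩
    rw [h1]
    have h2 := hEn s
    rw [hr, norm_smul, h.unit _ (hin s hs).2, mul_one, Real.norm_eq_abs] at h2
    rw [← sq_abs, h2, one_pow]
  have hφc : ContinuousOn (fun s => ⟪circE e' q' s, e (ζ s)⟫_ℝ) (Ioo (-η') 0) :=
    hEc.continuousOn.inner heC
  obtain ⟨σ, hσ1, hσ⟩ : ∃ σ : ℝ, (σ = 1 ∨ σ = -1) ∧
      ∀ s ∈ Ioo (-η') 0, circE e' q' s = σ • e (ζ s) := by
    rcases isPreconnected_Ioo.eq_one_or_eq_neg_one_of_sq_eq hφc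
      (fun s hs => (hφ s hs).2) with h1 | h1
    · refine ⟨1, Or.inl rfl, fun s hs => ?_⟩
      have h2 := (hφ s hs).1
      have h3 : ⟪circE e' q' s, e (ζ s)⟫_ℝ = 1 := h1 hs
      rw [h3] at h2
      exact h2
    · refine ⟨-1, Or.inr rfl, fun s hs => ?_⟩
      have h2 := (hφ s hs).1
      have h3 : ⟪circE e' q' s, e (ζ s)⟫_ℝ = -1 := h1 hs
      rw [h3] at h2
      exact h2
  have hσσ : σ * σ = 1 := by rcases hσ1 with h1 | h1 <;> rw [h1] <;> norm_num
  have he0 : e' = σ • e z := by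
    have h1 : Tendsto (fun s => σ • e (ζ s)) (𝓝[<] (0 : ℝ)) (𝓝 (σ • e z)) :=
      (((h.sme.contDiffAt (h.openN.mem_nhds hz)).continuousAt.tendsto).comp hζt).const_smul σ
    have h2 : Tendsto (fun s => σ • e (ζ s)) (𝓝[<] (0 : ℝ)) (𝓝 e') := by
      have h3 : Tendsto (circE e' q') (𝓝[<] (0 : ℝ)) (𝓝 e') := by
        have h4 := hEc.tendsto 0
        have h5 : circE e' q' 0 = e' := by simp [circE]
        rw [h5] at h4
        exact h4.mono_left nhdsWithin_le_nhds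
      apply h3.congr'
      filter_upwards [hIoo] with s hs
      exact hσ s hs
    exact tendsto_nhds_unique h2 h1
  have hQq : ∀ s ∈ Ioo (-η') 0, circQ e' q' s = qf T ρ e (ζ s) := by
    intro s hs
    have hnb : Ioo (-η') 0 ∈ 𝓝 s := isOpen_Ioo.mem_nhds hs
    have h1 : HasFDerivAt e (fderiv ℝ e (ζ s)) (ζ s) :=
      ((h.sme.contDiffAt (h.openN.mem_nhds (hin s hs).2)).differentiableAt (by simp)).hasFDerivAt
    have h2 := (h1.comp_hasDerivAt s (hζd s)).const_smul σ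
    have h3 := h2.congr_of_eventuallyEq (f₁ := circE e' q') (by
      filter_upwards [hnb] with t ht
      exact hσ t ht)
    have h4 := (hEd s).unique h3
    have h5 : (T.orthogonalProjectionOnto ((1 + s ^ 2 * ‖q'‖ ^ 2)⁻¹ • circE e' q' s),
      Tᗮ.orthogonalProjectionOnto (-(ε • ((1 + s ^ 2 * ‖q'‖ ^ 2)⁻¹ • circE e' q' s)))) =
      ((1 + s ^ 2 * ‖q'‖ ^ 2)⁻¹ * σ) • Xf T ρ e (ζ s) := by
      rw [hσ s hs, Xf, ← hρ s hs]
      apply Prod.ext
      · simp only [map_smul, Prod.smul_mk, smul_smul]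
      · simp only [map_smul, map_neg, Prod.smul_mk, smul_smul, smul_neg]
        congr 2
        ring
    rw [h5, map_smul, smul_smul] at h4
    have h6 : σ * ((1 + s ^ 2 * ‖q'‖ ^ 2)⁻¹ * σ) = (1 + s ^ 2 * ‖q'‖ ^ 2)⁻¹ := by
      calc σ * ((1 + s ^ 2 * ‖q'‖ ^ 2)⁻¹ * σ) = (σ * σ) * (1 + s ^ 2 * ‖q'‖ ^ 2)⁻¹ := by ring
        _ = _ := by rw [hσσ, one_mul]
    rw [h6] at h4
    unfold qf
    have h7 : (1 + s ^ 2 * ‖q'‖ ^ 2)⁻¹ ≠ 0 := inv_ne_zero (hkpos s).ne'
    have h8 : fderiv ℝ e (ζ s) (Xf T ρ e (ζ s)) = (2 : ℝ) • circQ e' q' s := by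
      have h9 : (1 + s ^ 2 * ‖q'‖ ^ 2)⁻¹ • ((2 : ℝ) • circQ e' q' s) =
          (1 + s ^ 2 * ‖q'‖ ^ 2)⁻¹ • fderiv ℝ e (ζ s) (Xf T ρ e (ζ s)) := by
        rw [← h4, smul_smul, mul_comm]
      exact (smul_right_injective _ h7 h9).symm
    rw [h8, smul_smul]
    norm_num
  have hq0 : q' = qf T ρ e z := by
    have h1 : Tendsto (fun s => qf T ρ e (ζ s)) (𝓝[<] (0 : ℝ)) (𝓝 (qf T ρ e z)) :=
      ((hqfs.contDiffAt (h.openN.mem_nhds hz)).continuousAt.tendsto).comp hζt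
    have h2 : Tendsto (fun s => qf T ρ e (ζ s)) (𝓝[<] (0 : ℝ)) (𝓝 q') := by
      have h3 : Tendsto (circQ e' q') (𝓝[<] (0 : ℝ)) (𝓝 q') := by
        have h4 := hQc.tendsto 0
        have h5 : circQ e' q' 0 = q' := by simp [circQ]
        rw [h5] at h4
        exact h4.mono_left nhdsWithin_le_nhds
      apply h3.congr'
      filter_upwards [hIoo] with s hs
      exact hQq s hs
    exact tendsto_nhds_unique h2 h1
  refine ⟨hρz, ?_, hq0⟩
  rcases hσ1 with h1 | h1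
  · left
    rw [he0, h1, one_smul]
  · right
    rw [he0, h1, neg_smul, one_smul]

end

end Pool.Agent.H469
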