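import Mathlib

set_option autoImplicit false

open Set Filter Topology MeasureTheory
open scoped ContDiff InnerProductSpace

namespace Pool.Agent.H469


/-! PLAIN PROOF OF THE TARGET(S)

Fix ζ.  Let z ∈ N.  Differentiate h1 (valid on the open set N) at z in the direction ζ: D²K(z)(ζ, X z) + DK(z)(DX(z) ζ) = 0.
Differentiate h2 (with this fixed ζ) at z in the direction X z: (DY(z)(X z))(DK(z) ζ) + Y(z)(D²K(z)(X z, ζ)) = 0.  By symmetry of the
second derivative (K is C² at z: `ContDiffAt.isSymmSndFDerivAt` or similar) D²K(z)(X z, ζ) = D²K(z)(ζ, X z) = -DK(z)(DX(z)ζ), and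
Y(z)(DK(z)(DX(z)ζ)) = 0 by h2.  So (DY(z)(X z))(DK(z)ζ) = 0.
-/

section

/-- TARGET -/
theorem lie_ann {D E : Type} [NormedAddCommGroup D] [NormedSpace ℝ D] [NormedAddCommGroup E]
    [NormedSpace ℝ E] (N : Set D) (hN : IsOpen N) (K : D → E) (X : D → D) (Y : D → E →L[ℝ] ℝ)
    (hK : ContDiffOn ℝ ∞ K N) (hX : ContDiffOn ℝ ∞ X N) (hY : ContDiffOn ℝ ∞ Y N)
    (h1 : ∀ z ∈ N, fderiv ℝ K z (X z) = 0) (h2 : ∀ z ∈ N, ∀ ζ, Y z (fderiv ℝ K z ζ) = 0) :
    ∀ z ∈ N, ∀ ζ, (fderiv ℝ Y z (X z)) (fderiv ℝ K z ζ) = 0 := by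
  intro z hz ζ
  have hNz : N ∈ 𝓝 z := hN.mem_nhds hz
  have hKz : ContDiffAt ℝ ((⊤ : ℕ∞) : WithTop ℕ∞) K z := (hK z hz).contDiffAt hNz
  have hXz : ContDiffAt ℝ ((⊤ : ℕ∞) : WithTop ℕ∞) X z := (hX z hz).contDiffAt hNz
  have hYz : ContDiffAt ℝ ((⊤ : ℕ∞) : WithTop ℕ∞) Y z := (hY z hz).contDiffAt hNz
  have hXd : DifferentiableAt ℝ X z := hXz.differentiableAt (by simp)
  have hYd : DifferentiableAt ℝ Y z := hYz.differentiableAt (by simp)
  have hK1 : ContDiffAt ℝ 1 (fderiv ℝ K) z := by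
    have h2le : ((1 : WithTop ℕ∞) + 1) ≤ ((⊤ : ℕ∞) : WithTop ℕ∞) := by
      rw [one_add_one_eq_two]
      exact WithTop.coe_le_coe.mpr (le_top (a := (2 : ℕ∞)))
    exact hKz.fderiv_right (m := 1) h2le
  have hKd : DifferentiableAt ℝ (fderiv ℝ K) z := hK1.differentiableAt (by simp)
  have hsymm : IsSymmSndFDerivAt ℝ K z := by
    refine ContDiffAt.isSymmSndFDerivAt (n := ((⊤ : ℕ∞) : WithTop ℕ∞)) hKz ?_
    rw [minSmoothness_of_isRCLikeNormedField]
    exact WithTop.coe_le_coe.mpr (le_top (a := (2 : ℕ∞)))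
  -- derivative of h1
  have e1 : fderiv ℝ (fun w => fderiv ℝ K w (X w)) z = 0 := by
    have : (fun w => fderiv ℝ K w (X w)) =ᶠ[𝓝 z] fun _ => (0 : E) := by
      filter_upwards [hNz] with w hw using h1 w hw
    rw [this.fderiv_eq]
    simp
  have e2 : fderiv ℝ (fun w => Y w (fderiv ℝ K w ζ)) z = 0 := by
    have : (fun w => Y w (fderiv ℝ K w ζ)) =ᶠ[𝓝 z] fun _ => (0 : ℝ) := by
      filter_upwards [hNz] with w hw using h2 w hw ζ
    rw [this.fderiv_eq]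
    simp
  have d1 := (hKd.hasFDerivAt.clm_apply hXd.hasFDerivAt).fderiv
  have hKζ : HasFDerivAt (fun w => fderiv ℝ K w ζ) ((fderiv ℝ (fderiv ℝ K) z).flip ζ) z := by
    have := hKd.hasFDerivAt.clm_apply (hasFDerivAt_const ζ z)
    convert this using 1
    ext v
    simp
  have d2 := (hYd.hasFDerivAt.clm_apply hKζ).fderiv
  rw [e1] at d1
  rw [e2] at d2
  have f1 := congrArg (fun L => L ζ) d1
  have f2 := congrArg (fun L => L (X z)) d2
  simp only [_root_.add_apply, _root_.zero_apply,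
    ContinuousLinearMap.comp_apply, ContinuousLinearMap.flip_apply] at f1 f2
  have hs := hsymm.eq (X z) ζ
  have f3 : Y z ((fderiv ℝ (fderiv ℝ K) z ζ) (X z)) = 0 := by
    have : (fderiv ℝ (fderiv ℝ K) z ζ) (X z) = - fderiv ℝ K z (fderiv ℝ X z ζ) := by
      rw [eq_neg_iff_add_eq_zero, add_comm]
      exact f1.symm
    rw [this, map_neg, h2 z hz, neg_zero]
  rw [hs, f3, zero_add] at f2
  exact f2.symm

end

end Pool.Agent.H469
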