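import Pool.Agent.Helper469_Dupin.DefsB
import Pool.Agent.Helper469_Dupin.Jblie
import Pool.Agent.Helper469_Dupin.Jbid

set_option autoImplicit false

open Set Filter Topology MeasureTheory
open scoped ContDiff InnerProductSpace

namespace Pool.Agent.H469


section LeafDqAux

/-- the functional with coefficients `v` -/
noncomputable def leaf_dq_LL (n : ℕ) : (Eu n × ℝ × ℝ) →L[ℝ] ((Eu n × ℝ × ℝ) →L[ℝ] ℝ) :=
  LinearMap.toContinuousLinearMap
    { toFun := fun v => (innerSL ℝ v.1).comp (ContinuousLinearMap.fst ℝ (Eu n) (ℝ × ℝ)) +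
        v.2.1 • ((ContinuousLinearMap.fst ℝ ℝ ℝ).comp (ContinuousLinearMap.snd ℝ (Eu n) (ℝ × ℝ))) +
        v.2.2 • ((ContinuousLinearMap.snd ℝ ℝ ℝ).comp (ContinuousLinearMap.snd ℝ (Eu n) (ℝ × ℝ)))
      map_add' := by
        intro v w
        ext u
        · simp
        · simp
        · simp
      map_smul' := by
        intro c v
        ext u
        · simp
        · simp
        · simp }

theorem leaf_dq_LL_apply {n : ℕ} (v u : Eu n × ℝ × ℝ) :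
    leaf_dq_LL n v u = ⟪v.1, u.1⟫_ℝ + v.2.1 * u.2.1 + v.2.2 * u.2.2 := rfl

theorem leaf_dq_LL_inj {n : ℕ} (v : Eu n × ℝ × ℝ) (h : ∀ u, leaf_dq_LL n v u = 0) : v = 0 := by
  have h1 := h v
  rw [leaf_dq_LL_apply, real_inner_self_eq_norm_sq] at h1
  have h2 : ‖v.1‖ ^ 2 = 0 := by nlinarith [mul_self_nonneg v.2.1, mul_self_nonneg v.2.2, sq_nonneg ‖v.1‖]
  have h3 : v.2.1 * v.2.1 = 0 := by nlinarith [mul_self_nonneg v.2.1, mul_self_nonneg v.2.2, sq_nonneg ‖v.1‖]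
  have h4 : v.2.2 * v.2.2 = 0 := by nlinarith [mul_self_nonneg v.2.1, mul_self_nonneg v.2.2, sq_nonneg ‖v.1‖]
  have h5 : v.1 = 0 := norm_eq_zero.1 (pow_eq_zero_iff (by norm_num) |>.1 h2)
  have h6 : v.2.1 = 0 := mul_self_eq_zero.1 h3
  have h7 : v.2.2 = 0 := mul_self_eq_zero.1 h4
  exact Prod.ext h5 (Prod.ext h6 h7)

theorem leaf_dq_step {D : Type} [NormedAddCommGroup D] [NormedSpace ℝ D] {n : ℕ} (N : Set D)
    (hN : IsOpen N) (K : D → Eu n × ℝ × ℝ) (X : D → D) (v : D → Eu n × ℝ × ℝ)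
    (hK : ContDiffOn ℝ ∞ K N) (hX : ContDiffOn ℝ ∞ X N) (hv : ContDiffOn ℝ ∞ v N)
    (h1 : ∀ z ∈ N, fderiv ℝ K z (X z) = 0)
    (h2 : ∀ z ∈ N, ∀ ζ, leaf_dq_LL n (v z) (fderiv ℝ K z ζ) = 0) :
    ∀ z ∈ N, ∀ ζ, leaf_dq_LL n (fderiv ℝ v z (X z)) (fderiv ℝ K z ζ) = 0 := by
  intro z hz ζ
  have h3 := lie_ann N hN K X (fun z => leaf_dq_LL n (v z)) hK hX
    ((leaf_dq_LL n).contDiff.comp_contDiffOn hv) h1 h2 z hz ζ
  have h4 : DifferentiableAt ℝ v z := (hv.contDiffAt (hN.mem_nhds hz)).differentiableAt (by simp)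
  have h5 : HasFDerivAt (fun z => leaf_dq_LL n (v z)) ((leaf_dq_LL n).comp (fderiv ℝ v z)) z :=
    (leaf_dq_LL n).hasFDerivAt.comp z h4.hasFDerivAt
  rw [h5.fderiv] at h3
  exact h3

/-- linear algebra: four annihilating vectors are linearly dependent -/
theorem leaf_dq_dep {D : Type} [NormedAddCommGroup D] [NormedSpace ℝ D] [FiniteDimensional ℝ D]
    {n : ℕ} (hD : Module.finrank ℝ D = n) (L : D →L[ℝ] Eu n × ℝ × ℝ) (X : D)
    (hker : ∀ ζ, L ζ = 0 → ∃ r : ℝ, ζ = r • X) (v : Fin 4 → Eu n × ℝ × ℝ)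
    (hv : ∀ i ζ, leaf_dq_LL n (v i) (L ζ) = 0) :
    ∃ c : Fin 4 → ℝ, ∑ i, c i • v i = 0 ∧ ∃ i, c i ≠ 0 := by
  have h1 : Module.finrank ℝ (LinearMap.ker (L : D →ₗ[ℝ] Eu n × ℝ × ℝ)) ≤ 1 := by
    have h2 : LinearMap.ker (L : D →ₗ[ℝ] Eu n × ℝ × ℝ) ≤ Submodule.span ℝ {X} := by
      intro ζ hζ
      obtain ⟨r, hr⟩ := hker ζ hζ
      rw [hr]
      exact Submodule.smul_mem _ _ (Submodule.mem_span_singleton_self X)
    refine (Submodule.finrank_mono h2).trans ?_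
    refine (finrank_span_le_card ({X} : Set D)).trans ?_
    simp
  have h3 := LinearMap.finrank_range_add_finrank_ker (L : D →ₗ[ℝ] Eu n × ℝ × ℝ)
  have h4 := Subspace.finrank_add_finrank_dualAnnihilator_eq (LinearMap.range (L : D →ₗ[ℝ] Eu n × ℝ × ℝ))
  have h5 : Module.finrank ℝ (Eu n × ℝ × ℝ) = n + 2 := by
    rw [Module.finrank_prod, Module.finrank_prod, finrank_euclideanSpace_fin, Module.finrank_self]
  rw [hD] at h3
  rw [h5] at h4
  obtain ⟨W, hW⟩ : ∃ W, W = LinearMap.range (L : D →ₗ[ℝ] Eu n × ℝ × ℝ) := ⟨_, rfl⟩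
  rw [← hW] at h3 h4
  let f : (Eu n × ℝ × ℝ) →ₗ[ℝ] Module.Dual ℝ (Eu n × ℝ × ℝ) :=
    { toFun := fun u => ((leaf_dq_LL n u : (Eu n × ℝ × ℝ) →L[ℝ] ℝ) : (Eu n × ℝ × ℝ) →ₗ[ℝ] ℝ)
      map_add' := by
        intro a b
        rw [map_add]
        rfl
      map_smul' := by
        intro a b
        rw [map_smul]
        rfl }
  have hf : LinearMap.ker f = ⊥ := by
    rw [LinearMap.ker_eq_bot']
    intro u hu
    apply leaf_dq_LL_inj
    intro u'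
    exact LinearMap.congr_fun hu u'
  have hdep : ¬ LinearIndependent ℝ v := by
    intro hli
    have h6 := finrank_span_eq_card (hli.map' f hf)
    have h7 : Submodule.span ℝ (Set.range (f ∘ v)) ≤ W.dualAnnihilator := by
      rw [Submodule.span_le]
      rintro _ ⟨i, rfl⟩
      show f (v i) ∈ W.dualAnnihilator
      rw [Submodule.mem_dualAnnihilator, hW]
      rintro w ⟨ζ, rfl⟩
      exact hv i ζ
    have h8 := Submodule.finrank_mono h7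
    rw [Fintype.card_fin] at h6
    omega
  exact Fintype.not_linearIndependent_iff.1 hdep

end LeafDqAux


/-! PLAIN PROOF OF THE TARGET(S)

On N put x = xpt, w = wpt, ξ = nvec (so w - ρ x = ξ), h(z) = <w,x> - ρ|x|²/2, K = (w, ρ, h) : T × Tᗮ → R^n × ℝ × ℝ, X = Xf,
Y(z)(w',ρ',h') = <x, w'> - |x|² ρ'/2 - h'.  For every ζ: Dh ζ = <Dw ζ, x> - Dρ ζ |x|²/2 + <w - ρx, Dx ζ> and the last term vanishes (leaf_id),
so Y(z)(DK(z)ζ) = 0.  DK(z)(X z) = 0: Dw X = 0, Dρ X = 0, Dh X = <w - ρ x, Dx X> = 0.  By lie_ann applied three times (Y_{j+1}(z) = DY_j(z)(X z) is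
again smooth and annihilates the range of DK(z)) the functionals Y, Y1, Y2, Y3 annihilate range DK(z).  With q = qf (De X = 2q, <e,q> = 0,
|e| = 1, Dx X = e) and q' = Dq(z)(X z) they are: Y1 = (e, -<x,e>, 0), Y2 = (2q, -1 - 2<x,q>, 0), Y3 = (2q', -2<x,q'>, 0), where
(y, r, s) stands for (w',ρ',h') ↦ <y,w'> + r ρ' + s h', and Y = (x, -|x|²/2, -1).  The kernel of DK(z) is the line R X(z) (leaf_id: Dw ζ = 0,
Dρ ζ = 0 imply ζ ∈ R X z; X z ≠ 0 as P e ≠ 0, because e = P e + Dg P e ≠ 0), T × Tᗮ has dimension n, so range DK(z) has dimension n-1 in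
a space of dimension n+2 and its annihilator has dimension 3.  So α Y + β Y1 + γ Y2 + δ Y3 = 0 with (α,β,γ,δ) ≠ 0.  Last components:
α = 0.  If δ = 0: β e + 2γ q = 0, pairing with e gives β = 0, so γ q = 0, and the middle component -β<x,e> - γ(1+2<x,q>) = 0 gives γ = 0: a
contradiction.  So δ ≠ 0: 2δ q' = -β e - 2γ q, and the middle component -β<x,e> - γ - 2γ<x,q> - 2δ<x,q'> = 0 gives -γ = 0.  So q' = c e with a
real c.  Differentiating <e,q> = 0 along X: <2q, q> + <e, q'> = 0, so c = -2|q|².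
-/

section
variable {n m : ℕ} {M : Set (Eu n)} {T : Submodule ℝ (Eu n)} {g : T → Tᗮ} {O : Set T} {V : Set (Eu n)}
  {N : Set (T × Tᗮ)} {ρ : T × Tᗮ → ℝ} {e : T × Tᗮ → Eu n}

/-- TARGET -/
theorem leaf_dq (hO : IsOpen O) (hg : ContDiffOn ℝ ∞ g O) (h : LeafPre T g O N ρ e) (z : T × Tᗮ)
    (hz : z ∈ N) :
    fderiv ℝ (qf T ρ e) z (Xf T ρ e z) = -((2 * ‖qf T ρ e z‖ ^ 2) • e z) := by
  obtain ⟨sx, sn, sw, sX, sq⟩ := leaf_smooth hO hg h
  have hN := h.openN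
  have hid := fun z hz => leaf_id hO hg h z hz
  obtain ⟨x, hx⟩ : ∃ x, x = xpt T g := ⟨_, rfl⟩
  obtain ⟨w, hw⟩ : ∃ w, w = wpt T g ρ := ⟨_, rfl⟩
  obtain ⟨ξ, hξ⟩ : ∃ ξ, ξ = nvec T g := ⟨_, rfl⟩
  obtain ⟨X, hX⟩ : ∃ X, X = Xf T ρ e := ⟨_, rfl⟩
  obtain ⟨q, hq⟩ : ∃ q, q = qf T ρ e := ⟨_, rfl⟩
  have hwx : ∀ z, w z = ξ z + ρ z • x z := by
    intro z
    rw [hw, hξ, hx]
    rfl
  have hqe : ∀ z, fderiv ℝ e z (X z) = (2 : ℝ) • q z := by
    intro z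
    rw [hq, hX]
    show _ = (2 : ℝ) • ((1 / 2 : ℝ) • fderiv ℝ e z (Xf T ρ e z))
    rw [smul_smul]
    norm_num
  rw [← hx] at sx hid
  rw [← hξ] at sn hid
  rw [← hw] at sw hid
  rw [← hX] at sX hid
  rw [← hq] at sq hid
  rw [← hX, ← hq]
  have sr := h.smr
  have se := h.sme
  -- differentiability
  have dx : ∀ z ∈ N, HasFDerivAt x (fderiv ℝ x z) z := fun z hz =>
    ((sx.contDiffAt (hN.mem_nhds hz)).differentiableAt (by simp)).hasFDerivAt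
  have dw : ∀ z ∈ N, HasFDerivAt w (fderiv ℝ w z) z := fun z hz =>
    ((sw.contDiffAt (hN.mem_nhds hz)).differentiableAt (by simp)).hasFDerivAt
  have dr : ∀ z ∈ N, HasFDerivAt ρ (fderiv ℝ ρ z) z := fun z hz =>
    ((sr.contDiffAt (hN.mem_nhds hz)).differentiableAt (by simp)).hasFDerivAt
  have de : ∀ z ∈ N, HasFDerivAt e (fderiv ℝ e z) z := fun z hz =>
    ((se.contDiffAt (hN.mem_nhds hz)).differentiableAt (by simp)).hasFDerivAt
  have dq : ∀ z ∈ N, HasFDerivAt q (fderiv ℝ q z) z := fun z hz =>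
    ((sq.contDiffAt (hN.mem_nhds hz)).differentiableAt (by simp)).hasFDerivAt
  -- the map `K`
  obtain ⟨K, hK⟩ : ∃ K : T × Tᗮ → Eu n × ℝ × ℝ, K = fun z =>
    (w z, ρ z, ⟪w z, x z⟫_ℝ - 1 / 2 * (ρ z * ‖x z‖ ^ 2)) := ⟨_, rfl⟩
  have sK : ContDiffOn ℝ ∞ K N := by
    rw [hK]
    exact sw.prodMk (sr.prodMk ((sw.inner ℝ sx).sub (contDiffOn_const.mul (sr.mul (sx.norm_sq ℝ)))))
  have dK : ∀ z ∈ N, ∀ ζ, fderiv ℝ K z ζ = (fderiv ℝ w z ζ, fderiv ℝ ρ z ζ,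
      ⟪fderiv ℝ w z ζ, x z⟫_ℝ - fderiv ℝ ρ z ζ * ‖x z‖ ^ 2 / 2) := by
    intro z hz ζ
    have h1 := (dw z hz).inner ℝ (dx z hz)
    have h2 := (((dr z hz).mul ((dx z hz).norm_sq)).const_mul (1 / 2))
    have h3 := (dw z hz).prodMk ((dr z hz).prodMk (h1.sub h2))
    have h4 : fderiv ℝ (fun z => (w z, ρ z, ⟪w z, x z⟫_ℝ - 1 / 2 * (ρ z * ‖x z‖ ^ 2))) z = _ :=
      h3.fderiv
    rw [hK, h4]
    have h5 := (hid z hz).2.2.2.2.2.2 ζ
    have h6 : ξ z = w z - ρ z • x z := by rw [hwx]; abel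
    rw [h6, inner_sub_left, inner_smul_left] at h5
    simp only [conj_trivial] at h5
    refine Prod.ext rfl (Prod.ext rfl ?_)
    simp only [ContinuousLinearMap.prod_apply, _root_.sub_apply, ContinuousLinearMap.comp_apply,
      fderivInnerCLM_apply, _root_.smul_apply, _root_.add_apply,
      smul_eq_mul, innerSL_apply_apply, nsmul_eq_mul, Nat.cast_ofNat]
    linarith
  have dKX : ∀ z ∈ N, fderiv ℝ K z (X z) = 0 := by
    intro z hz
    rw [dK z hz, (hid z hz).2.2.1]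
    have h1 := h.dr z hz
    rw [← hX] at h1
    rw [h1]
    simp
  -- the annihilating vectors
  have sv0 : ContDiffOn ℝ ∞ (fun z => (x z, -(1 / 2 * ‖x z‖ ^ 2), (-1 : ℝ))) N :=
    sx.prodMk (((contDiffOn_const.mul (sx.norm_sq ℝ))).neg.prodMk contDiffOn_const)
  have dv0 : ∀ z ∈ N, fderiv ℝ (fun z => (x z, -(1 / 2 * ‖x z‖ ^ 2), (-1 : ℝ))) z (X z) =
      (e z, -⟪x z, e z⟫_ℝ, 0) := by
    intro z hz
    have h1 := (dx z hz).prodMk ((((dx z hz).norm_sq).const_mul (1 / 2)).neg.prodMk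
      (hasFDerivAt_const (-1 : ℝ) z))
    have h2 : fderiv ℝ (fun z => (x z, -(1 / 2 * ‖x z‖ ^ 2), (-1 : ℝ))) z = _ := h1.fderiv
    rw [h2]
    refine Prod.ext (hid z hz).1 (Prod.ext ?_ rfl)
    simp only [ContinuousLinearMap.prod_apply, _root_.neg_apply, ContinuousLinearMap.comp_apply,
      _root_.smul_apply, smul_eq_mul, innerSL_apply_apply, nsmul_eq_mul, Nat.cast_ofNat]
    rw [(hid z hz).1]
    ring
  have sv1 : ContDiffOn ℝ ∞ (fun z => (e z, -⟪x z, e z⟫_ℝ, (0 : ℝ))) N :=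
    se.prodMk ((sx.inner ℝ se).neg.prodMk contDiffOn_const)
  have dv1 : ∀ z ∈ N, fderiv ℝ (fun z => (e z, -⟪x z, e z⟫_ℝ, (0 : ℝ))) z (X z) =
      ((2 : ℝ) • q z, -(1 + 2 * ⟪x z, q z⟫_ℝ), 0) := by
    intro z hz
    have h1 := (de z hz).prodMk (((dx z hz).inner ℝ (de z hz)).neg.prodMk
      (hasFDerivAt_const (0 : ℝ) z))
    have h2 : fderiv ℝ (fun z => (e z, -⟪x z, e z⟫_ℝ, (0 : ℝ))) z = _ := h1.fderiv
    rw [h2]
    refine Prod.ext (hqe z) (Prod.ext ?_ rfl)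
    simp only [ContinuousLinearMap.prod_apply, _root_.neg_apply, ContinuousLinearMap.comp_apply,
      fderivInnerCLM_apply]
    rw [(hid z hz).1, hqe, inner_smul_right, real_inner_self_eq_norm_sq, h.unit z hz]
    ring
  have sv2 : ContDiffOn ℝ ∞ (fun z => ((2 : ℝ) • q z, -(1 + 2 * ⟪x z, q z⟫_ℝ), (0 : ℝ))) N :=
    (sq.const_smul (2 : ℝ)).prodMk ((contDiffOn_const.add
      (contDiffOn_const.mul (sx.inner ℝ sq))).neg.prodMk contDiffOn_const)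
  have dv2 : ∀ z ∈ N, fderiv ℝ (fun z => ((2 : ℝ) • q z, -(1 + 2 * ⟪x z, q z⟫_ℝ), (0 : ℝ))) z (X z) =
      ((2 : ℝ) • fderiv ℝ q z (X z), -(2 * ⟪x z, fderiv ℝ q z (X z)⟫_ℝ), 0) := by
    intro z hz
    have h1 := ((dq z hz).const_smul (2 : ℝ)).prodMk ((((((dx z hz).inner ℝ (dq z hz)).const_mul 2).const_add 1)).neg.prodMk
      (hasFDerivAt_const (0 : ℝ) z))
    have h2 : fderiv ℝ (fun z => ((2 : ℝ) • q z, -(1 + 2 * ⟪x z, q z⟫_ℝ), (0 : ℝ))) z = _ := h1.fderiv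
    rw [h2]
    refine Prod.ext rfl (Prod.ext ?_ rfl)
    simp only [ContinuousLinearMap.prod_apply, _root_.neg_apply, ContinuousLinearMap.comp_apply,
      fderivInnerCLM_apply, _root_.smul_apply, smul_eq_mul]
    rw [(hid z hz).1, (hid z hz).2.2.2.1]
    ring
  have a0 : ∀ z ∈ N, ∀ ζ, leaf_dq_LL n (x z, -(1 / 2 * ‖x z‖ ^ 2), (-1 : ℝ)) (fderiv ℝ K z ζ) = 0 := by
    intro z hz ζ
    rw [leaf_dq_LL_apply, dK z hz]
    simp only
    rw [real_inner_comm]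
    ring
  have a1 := leaf_dq_step N hN K X _ sK sX sv0 dKX a0
  have a1' : ∀ z ∈ N, ∀ ζ, leaf_dq_LL n (e z, -⟪x z, e z⟫_ℝ, (0 : ℝ)) (fderiv ℝ K z ζ) = 0 := by
    intro z hz ζ
    rw [← dv0 z hz]
    exact a1 z hz ζ
  have a2 := leaf_dq_step N hN K X _ sK sX sv1 dKX a1'
  have a2' : ∀ z ∈ N, ∀ ζ, leaf_dq_LL n ((2 : ℝ) • q z, -(1 + 2 * ⟪x z, q z⟫_ℝ), (0 : ℝ))
      (fderiv ℝ K z ζ) = 0 := by
    intro z hz ζ
    rw [← dv1 z hz]
    exact a2 z hz ζ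
  have a3 := leaf_dq_step N hN K X _ sK sX sv2 dKX a2'
  have a3' : ∀ ζ, leaf_dq_LL n ((2 : ℝ) • fderiv ℝ q z (X z), -(2 * ⟪x z, fderiv ℝ q z (X z)⟫_ℝ),
      (0 : ℝ)) (fderiv ℝ K z ζ) = 0 := by
    intro ζ
    rw [← dv2 z hz]
    exact a3 z hz ζ
  have hdim : Module.finrank ℝ (T × Tᗮ) = n := by
    rw [Module.finrank_prod, Submodule.finrank_add_finrank_orthogonal, finrank_euclideanSpace_fin]
  obtain ⟨c, hc, i, hci⟩ := leaf_dq_dep hdim (fderiv ℝ K z) (X z)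
    (by
      intro ζ hζ
      rw [dK z hz] at hζ
      have h1 := congrArg Prod.fst hζ
      have h2 := congrArg (fun p : Eu n × ℝ × ℝ => p.2.1) hζ
      exact (hid z hz).2.2.2.2.2.1 ζ h1 h2)
    ![(x z, -(1 / 2 * ‖x z‖ ^ 2), (-1 : ℝ)), (e z, -⟪x z, e z⟫_ℝ, (0 : ℝ)),
      ((2 : ℝ) • q z, -(1 + 2 * ⟪x z, q z⟫_ℝ), (0 : ℝ)),
      ((2 : ℝ) • fderiv ℝ q z (X z), -(2 * ⟪x z, fderiv ℝ q z (X z)⟫_ℝ), (0 : ℝ))]
    (by
      intro i ζ
      fin_cases i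
      · exact a0 z hz ζ
      · exact a1' z hz ζ
      · exact a2' z hz ζ
      · exact a3' ζ)
  rw [Fin.sum_univ_four] at hc
  simp only [Matrix.cons_val] at hc
  have c1 := congrArg Prod.fst hc
  have c2 := congrArg (fun p : Eu n × ℝ × ℝ => p.2.1) hc
  have c3 := congrArg (fun p : Eu n × ℝ × ℝ => p.2.2) hc
  simp only [Prod.fst_add, Prod.smul_fst, Prod.snd_add, Prod.smul_snd, Prod.fst_zero, Prod.snd_zero,
    smul_eq_mul] at c1 c2 c3
  have hc0 : c 0 = 0 := by linarith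
  rw [hc0, zero_smul, zero_add] at c1
  rw [hc0] at c2
  obtain ⟨q', hq'⟩ : ∃ q', q' = fderiv ℝ q z (X z) := ⟨_, rfl⟩
  rw [← hq'] at c1 c2 ⊢
  have c4 := congrArg (fun y => ⟪x z, y⟫_ℝ) c1
  simp only [inner_add_right, inner_smul_right, inner_zero_right] at c4
  have hc2 : c 2 = 0 := by linarith
  rw [hc2, zero_smul, add_zero] at c1
  have hee : ⟪e z, e z⟫_ℝ = 1 := by
    rw [real_inner_self_eq_norm_sq, h.unit z hz]
    norm_num
  have hc3 : c 3 ≠ 0 := by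
    intro h0
    rw [h0, zero_smul, add_zero] at c1
    have h1 := congrArg (fun y => ⟪e z, y⟫_ℝ) c1
    simp only [inner_smul_right, inner_zero_right, hee, mul_one] at h1
    apply hci
    fin_cases i
    · exact hc0
    · exact h1
    · exact hc2
    · exact h0
  -- the derivative of `⟪e, q⟫ = 0`
  have hdq : ⟪e z, q'⟫_ℝ = -(2 * ‖q z‖ ^ 2) := by
    have h1 := (de z hz).inner ℝ (dq z hz)
    have h2 : (fun z => ⟪e z, q z⟫_ℝ) =ᶠ[𝓝 z] fun _ => (0 : ℝ) := by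
      filter_upwards [hN.mem_nhds hz] with y hy
      exact (hid y hy).2.2.2.1
    have h3 := h1.fderiv
    rw [h2.fderiv_eq, fderiv_const_apply] at h3
    have h4 := congrArg (fun f : (T × Tᗮ) →L[ℝ] ℝ => f (X z)) h3
    simp only [ContinuousLinearMap.comp_apply, ContinuousLinearMap.prod_apply, fderivInnerCLM_apply,
      _root_.zero_apply] at h4
    rw [hqe, inner_smul_left, real_inner_self_eq_norm_sq, ← hq'] at h4
    simp only [conj_trivial] at h4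
    linarith
  have c5 := congrArg (fun y => ⟪e z, y⟫_ℝ) c1
  simp only [inner_add_right, inner_smul_right, inner_zero_right, hee, hdq] at c5
  have c6 : c 1 = c 3 * (4 * ‖q z‖ ^ 2) := by linarith
  have c9 : c 3 • ((4 * ‖q z‖ ^ 2) • e z + (2 : ℝ) • q') = 0 := by
    rw [smul_add, smul_smul (c 3) (4 * ‖q z‖ ^ 2), ← c6]
    exact c1
  have c7 := (smul_eq_zero.1 c9).resolve_left hc3
  have c8 : q' = -((1 / 2 : ℝ) • ((4 * ‖q z‖ ^ 2) • e z)) + (1 / 2 : ℝ) • ((4 * ‖q z‖ ^ 2) • e z + (2 : ℝ) • q') := by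
    rw [smul_add, smul_smul, smul_smul]
    norm_num
  rw [c7, smul_zero, add_zero] at c8
  rw [c8, smul_smul]
  congr 2
  ring

end

end Pool.Agent.H469
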