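import Pool.Agent.Helper469_Dupin.DefsB
import Pool.Agent.Helper469_Dupin.Jbcirc
import Pool.Agent.Helper469_Dupin.Jbid
import Pool.Agent.Helper469_Dupin.Jbdq
import Pool.Agent.Helper469_Dupin.Jlop
import Pool.Agent.Helper469_Dupin.Jbrcrit
import Pool.Agent.Helper469_Dupin.Jfamd
import Pool.Agent.Helper469_Dupin.Jcritiff

set_option autoImplicit false

open Set Filter Topology MeasureTheory
open scoped ContDiff InnerProductSpace

namespace Pool.Agent.H469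


set_option maxHeartbeats 4000000


section
variable {n m : ℕ} {M : Set (Eu n)} {T : Submodule ℝ (Eu n)} {g : T → Tᗮ} {O : Set T} {V : Set (Eu n)}

lemma leaf_limit_split (T : Submodule ℝ (Eu n)) (v : Eu n) :
    ((T.orthogonalProjectionOnto v : T) : Eu n) + ((Tᗮ.orthogonalProjectionOnto v : Tᗮ) : Eu n) = v := by
  have := T.orthogonalProjectionOnto_orthogonal v
  rw [this]
  simp

lemma leaf_limit_PT (T : Submodule ℝ (Eu n)) (t : T) : T.orthogonalProjectionOnto (t : Eu n) = t :=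
  T.orthogonalProjectionOnto_mem_subspace_eq_self t
lemma leaf_limit_PQ (T : Submodule ℝ (Eu n)) (b : Tᗮ) : T.orthogonalProjectionOnto (b : Eu n) = 0 :=
  Submodule.orthogonalProjectionOnto_apply_of_mem_orthogonal b.2
lemma leaf_limit_QQ (T : Submodule ℝ (Eu n)) (b : Tᗮ) : Tᗮ.orthogonalProjectionOnto (b : Eu n) = b :=
  Tᗮ.orthogonalProjectionOnto_mem_subspace_eq_self b
lemma leaf_limit_QT (T : Submodule ℝ (Eu n)) (t : T) : Tᗮ.orthogonalProjectionOnto (t : Eu n) = 0 :=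
  Submodule.orthogonalProjectionOnto_orthogonal_apply_eq_zero t.2

lemma leaf_limit_inner (T : Submodule ℝ (Eu n)) (v w : Eu n) :
    ⟪v, w⟫_ℝ = ⟪T.orthogonalProjectionOnto v, T.orthogonalProjectionOnto w⟫_ℝ +
      ⟪Tᗮ.orthogonalProjectionOnto v, Tᗮ.orthogonalProjectionOnto w⟫_ℝ := by
  conv_lhs => rw [← leaf_limit_split T v, ← leaf_limit_split T w]
  rw [inner_add_left, inner_add_right, inner_add_right]
  have h1 : ⟪((T.orthogonalProjectionOnto v : T) : Eu n), ((Tᗮ.orthogonalProjectionOnto w : Tᗮ) : Eu n)⟫_ℝ = 0 :=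
    Submodule.inner_right_of_mem_orthogonal (T.orthogonalProjectionOnto v).2 (Tᗮ.orthogonalProjectionOnto w).2
  have h2 : ⟪((Tᗮ.orthogonalProjectionOnto v : Tᗮ) : Eu n), ((T.orthogonalProjectionOnto w : T) : Eu n)⟫_ℝ = 0 :=
    Submodule.inner_left_of_mem_orthogonal (T.orthogonalProjectionOnto w).2 (Tᗮ.orthogonalProjectionOnto v).2
  rw [h1, h2, add_zero, zero_add]
  rfl

lemma leaf_limit_crit (h : IsChart ∞ m M T g O V) (x : Eu n) (hx : x ∈ M) (hxV : x ∈ V) (p : Eu n × ℝ) :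
    x ∈ critSet M (fam p) ↔ T.orthogonalProjectionOnto (p.1 - p.2 • x) =
      -nrm g (T.orthogonalProjectionOnto x) (Tᗮ.orthogonalProjectionOnto (p.1 - p.2 • x)) := by
  have hg : Tᗮ.orthogonalProjectionOnto x = g (T.orthogonalProjectionOnto x) := ((h.mem x hxV).2).1 hx
  have hJ : ∀ (t : T) (b : Tᗮ) (r : ℝ), Jmap T (t, b, r) = ((t : Eu n) + (b : Eu n), r) := by
    intro t b r
    simp [Jmap]
  rw [crit_iff h x hx hxV p]
  constructor
  · rintro ⟨b, hb⟩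
    simp only [Th, hJ] at hb
    have h1 : p.1 = (((p.2 • T.orthogonalProjectionOnto x - nrm g (T.orthogonalProjectionOnto x) b : T) : Eu n) +
      ((p.2 • g (T.orthogonalProjectionOnto x) + b : Tᗮ) : Eu n)) := congrArg Prod.fst hb
    have h2 : T.orthogonalProjectionOnto p.1 =
        p.2 • T.orthogonalProjectionOnto x - nrm g (T.orthogonalProjectionOnto x) b := by
      rw [h1, map_add, leaf_limit_PT, leaf_limit_PQ, add_zero]
    have h3 : Tᗮ.orthogonalProjectionOnto p.1 = p.2 • g (T.orthogonalProjectionOnto x) + b := by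
      rw [h1, map_add, leaf_limit_QT, leaf_limit_QQ, zero_add]
    have h4 : Tᗮ.orthogonalProjectionOnto (p.1 - p.2 • x) = b := by
      rw [map_sub, map_smul, h3, hg]; simp
    rw [h4, map_sub, map_smul, h2]; simp
  · intro hp
    refine ⟨Tᗮ.orthogonalProjectionOnto (p.1 - p.2 • x), ?_⟩
    simp only [Th, hJ]
    refine Prod.ext ?_ rfl
    simp only
    have h5 : nrm g (T.orthogonalProjectionOnto x) (Tᗮ.orthogonalProjectionOnto (p.1 - p.2 • x)) =
      - T.orthogonalProjectionOnto (p.1 - p.2 • x) := by rw [hp, neg_neg]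
    rw [h5, ← hg]
    have h6 := leaf_limit_split T p.1
    conv_lhs => rw [← h6]
    simp only [map_sub, map_smul]
    push_cast
    module

end

section
variable {F W : Type} [NormedAddCommGroup F] [InnerProductSpace ℝ F] [FiniteDimensional ℝ F]
  [NormedAddCommGroup W] [InnerProductSpace ℝ W] [FiniteDimensional ℝ W]

/-- the adjoint as a linear map -/
noncomputable def leaf_limit_adj : (F →L[ℝ] W) →ₗ[ℝ] (W →L[ℝ] F) where
  toFun B := ContinuousLinearMap.adjoint B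
  map_add' := by intro x y; simp
  map_smul' := by intro c x; simp

/-- the adjoint of the derivative -/
noncomputable def leaf_limit_A (g : F → W) (a : F) : W →L[ℝ] F :=
  (LinearMap.toContinuousLinearMap (leaf_limit_adj (F := F) (W := W))) (fderiv ℝ g a)

lemma leaf_limit_A_apply (g : F → W) (a : F) (b : W) : leaf_limit_A g a b = nrm g a b := rfl

lemma leaf_limit_fderiv_smooth {g : F → W} {O : Set F} (hO : IsOpen O) (hg : ContDiffOn ℝ ∞ g O) :
    ContDiffOn ℝ ∞ (fderiv ℝ g) O :=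
  hg.fderiv_of_isOpen hO (by exact_mod_cast le_refl _)

lemma leaf_limit_A_smooth {g : F → W} {O : Set F} (hO : IsOpen O) (hg : ContDiffOn ℝ ∞ g O) :
    ContDiffOn ℝ ∞ (leaf_limit_A g) O :=
  (LinearMap.toContinuousLinearMap (leaf_limit_adj (F := F) (W := W))).contDiff.comp_contDiffOn
    (leaf_limit_fderiv_smooth hO hg)

lemma leaf_limit_A_diff {g : F → W} {O : Set F} (hO : IsOpen O) (hg : ContDiffOn ℝ ∞ g O) {a : F} (ha : a ∈ O) :
    DifferentiableAt ℝ (leaf_limit_A g) a :=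
  ((leaf_limit_A_smooth hO hg).contDiffAt (hO.mem_nhds ha)).differentiableAt (by simp)

lemma leaf_limit_Hop {g : F → W} {O : Set F} (hO : IsOpen O) (hg : ContDiffOn ℝ ∞ g O) {a : F} (ha : a ∈ O)
    (b : W) (u : F) : Hop g a b u = (fderiv ℝ (leaf_limit_A g) a u) b := by
  have h1 := (leaf_limit_A_diff hO hg ha).hasFDerivAt
  have h2 : HasFDerivAt (fun a' => leaf_limit_A g a' b)
      ((ContinuousLinearMap.apply ℝ F b).comp (fderiv ℝ (leaf_limit_A g) a)) a :=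
    (ContinuousLinearMap.apply ℝ F b).hasFDerivAt.comp a h1
  have h3 : (fun a' => leaf_limit_A g a' b) = fun a' => nrm g a' b := rfl
  unfold Hop
  rw [← h3, h2.fderiv]
  simp

lemma leaf_limit_nrm_deriv {g : F → W} {O : Set F} (hO : IsOpen O) (hg : ContDiffOn ℝ ∞ g O)
    {a : ℝ → F} {b : ℝ → W} {a' : F} {b' : W} (ha : HasDerivAt a a' 0) (hb : HasDerivAt b b' 0)
    (h0 : a 0 ∈ O) :
    HasDerivAt (fun t => nrm g (a t) (b t)) (Hop g (a 0) (b 0) a' + nrm g (a 0) b') 0 := by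
  have h1 := (leaf_limit_A_diff hO hg h0).hasFDerivAt
  have h2 : HasDerivAt (fun t => leaf_limit_A g (a t)) (fderiv ℝ (leaf_limit_A g) (a 0) a') 0 :=
    h1.comp_hasDerivAt (0 : ℝ) ha
  have h3 := h2.clm_apply hb
  rw [leaf_limit_Hop hO hg h0]
  exact h3

lemma leaf_limit_clm {E G : Type} [NormedAddCommGroup E] [NormedSpace ℝ E] [NormedAddCommGroup G] [NormedSpace ℝ G]
    {l : Filter ℝ} {A : ℝ → E →L[ℝ] G} {b : ℝ → E} {A0 : E →L[ℝ] G} {b0 : E}
    (hA : Tendsto A l (𝓝 A0)) (hb : Tendsto b l (𝓝 b0)) : Tendsto (fun s => A s (b s)) l (𝓝 (A0 b0)) :=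
  (isBoundedBilinearMap_apply.continuous.tendsto (A0, b0)).comp (hA.prodMk_nhds hb)

lemma leaf_limit_tend {g : F → W} {O : Set F} (hO : IsOpen O) (hg : ContDiffOn ℝ ∞ g O)
    {l : Filter ℝ} {a c : ℝ → F} {b : ℝ → W} {a0 c0 : F} {b0 : W} (ha : Tendsto a l (𝓝 a0)) (h0 : a0 ∈ O)
    (hb : Tendsto b l (𝓝 b0)) (hc : Tendsto c l (𝓝 c0)) :
    Tendsto (fun s => nrm g (a s) (b s)) l (𝓝 (nrm g a0 b0)) ∧
    Tendsto (fun s => Hop g (a s) (b s) (c s)) l (𝓝 (Hop g a0 b0 c0)) ∧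
    Tendsto (fun s => fderiv ℝ g (a s) (c s)) l (𝓝 (fderiv ℝ g a0 c0)) := by
  have hA : ContinuousAt (leaf_limit_A g) a0 := (leaf_limit_A_diff hO hg h0).continuousAt
  have hD : ContinuousAt (fderiv ℝ g) a0 :=
    ((leaf_limit_fderiv_smooth hO hg).continuousOn).continuousAt (hO.mem_nhds h0)
  have hDA : ContinuousAt (fderiv ℝ (leaf_limit_A g)) a0 :=
    (((leaf_limit_A_smooth hO hg).fderiv_of_isOpen hO (m := ∞)
      (by exact_mod_cast le_refl _)).continuousOn).continuousAt (hO.mem_nhds h0)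
  refine ⟨?_, ?_, ?_⟩
  · have h1 : Tendsto (fun s => leaf_limit_A g (a s)) l (𝓝 (leaf_limit_A g a0)) := hA.tendsto.comp ha
    exact leaf_limit_clm h1 hb
  · have h1 : Tendsto (fun s => fderiv ℝ (leaf_limit_A g) (a s)) l (𝓝 (fderiv ℝ (leaf_limit_A g) a0)) :=
      hDA.tendsto.comp ha
    have h2 := leaf_limit_clm (leaf_limit_clm h1 hc) hb
    rw [leaf_limit_Hop hO hg h0]
    refine h2.congr' ?_
    filter_upwards [ha.eventually_mem (hO.mem_nhds h0)] with s hs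
    rw [leaf_limit_Hop hO hg hs]
  · have h1 : Tendsto (fun s => fderiv ℝ g (a s)) l (𝓝 (fderiv ℝ g a0)) := hD.tendsto.comp ha
    exact leaf_limit_clm h1 hc

lemma leaf_limit_line {E F : Type} [NormedAddCommGroup E] [NormedSpace ℝ E] [NormedAddCommGroup F] [NormedSpace ℝ F]
    {f : E → F} {z : E} (hf : DifferentiableAt ℝ f z) (ζ : E) :
    HasDerivAt (fun t : ℝ => f (z + t • ζ)) (fderiv ℝ f z ζ) 0 := by
  have h1 : HasDerivAt (fun t : ℝ => z + t • ζ) ζ 0 := by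
    simpa using ((hasDerivAt_id (0 : ℝ)).smul_const ζ).const_add z
  have h2 : HasFDerivAt f (fderiv ℝ f z) (z + (0 : ℝ) • ζ) := by simpa using hf.hasFDerivAt
  exact h2.comp_hasDerivAt (0 : ℝ) h1

lemma leaf_limit_line_ev {E : Type} [NormedAddCommGroup E] [NormedSpace ℝ E]
    {p : E → Prop} {z : E} (hf : ∀ᶠ z' in 𝓝 z, p z') (ζ : E) :
    ∀ᶠ t : ℝ in 𝓝 0, p (z + t • ζ) := by
  have h1 : Tendsto (fun t : ℝ => z + t • ζ) (𝓝 0) (𝓝 z) := by
    have : Continuous (fun t : ℝ => z + t • ζ) := by fun_prop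
    simpa using this.tendsto 0
  exact h1.eventually hf

end

section
variable {n : ℕ}

/-- the derivative of the point of the circle with respect to the data -/
noncomputable def leaf_limit_yd (e q x' e' q' : Eu n) (s : ℝ) : Eu n :=
  x' + ((1 + s ^ 2 * ‖q‖ ^ 2)⁻¹ • (s • e' + s ^ 2 • q') -
    (((1 + s ^ 2 * ‖q‖ ^ 2) ^ 2)⁻¹ * (s ^ 2 * (2 * ⟪q, q'⟫_ℝ))) • (s • e + s ^ 2 • q))

lemma leaf_limit_pos (s r : ℝ) : 0 < 1 + s ^ 2 * r ^ 2 := by positivity

lemma leaf_limit_circ_d {X E Q : ℝ → Eu n} {x' e' q' : Eu n} (hX : HasDerivAt X x' 0) (hE : HasDerivAt E e' 0)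
    (hQ : HasDerivAt Q q' 0) (s : ℝ) :
    HasDerivAt (fun t => circ (X t) (E t) (Q t) s) (leaf_limit_yd (E 0) (Q 0) x' e' q' s) 0 := by
  have h1 : HasDerivAt (fun t => ‖Q t‖ ^ 2) (2 * ⟪Q 0, q'⟫_ℝ) 0 := hQ.norm_sq
  have h2 : HasDerivAt (fun t => 1 + s ^ 2 * ‖Q t‖ ^ 2) (s ^ 2 * (2 * ⟪Q 0, q'⟫_ℝ)) 0 :=
    (h1.const_mul (s ^ 2)).const_add 1
  have h3 : HasDerivAt (fun t => (1 + s ^ 2 * ‖Q t‖ ^ 2)⁻¹)
      (-(s ^ 2 * (2 * ⟪Q 0, q'⟫_ℝ)) / (1 + s ^ 2 * ‖Q 0‖ ^ 2) ^ 2) 0 :=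
    h2.inv (leaf_limit_pos s _).ne'
  have h4 : HasDerivAt (fun t => s • E t + s ^ 2 • Q t) (s • e' + s ^ 2 • q') 0 :=
    (hE.const_smul s).add (hQ.const_smul (s ^ 2))
  have h5 := hX.add (h3.smul h4)
  refine h5.congr_deriv ?_
  simp only [leaf_limit_yd]
  rw [neg_div, neg_smul, div_eq_inv_mul, sub_eq_add_neg]

lemma leaf_limit_circ_cont (x e q : Eu n) : ContDiff ℝ ∞ (fun s => circ x e q s) := by
  unfold circ
  have h1 : ContDiff ℝ ∞ (fun s : ℝ => (1 + s ^ 2 * ‖q‖ ^ 2)⁻¹) := by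
    apply ContDiff.inv
    · fun_prop
    · intro s
      exact (leaf_limit_pos s _).ne'
  have h2 : ContDiff ℝ ∞ (fun s : ℝ => s • e + s ^ 2 • q) := by fun_prop
  exact contDiff_const.add (h1.smul h2)

lemma leaf_limit_yd_cont (e q x' e' q' : Eu n) : Continuous (fun s => leaf_limit_yd e q x' e' q' s) := by
  unfold leaf_limit_yd
  have h1 : Continuous (fun s : ℝ => (1 + s ^ 2 * ‖q‖ ^ 2)⁻¹) := by
    apply Continuous.inv₀
    · fun_prop
    · intro s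
      exact (leaf_limit_pos s _).ne'
  have h2 : Continuous (fun s : ℝ => ((1 + s ^ 2 * ‖q‖ ^ 2) ^ 2)⁻¹) := by
    apply Continuous.inv₀
    · fun_prop
    · intro s
      exact (pow_pos (leaf_limit_pos s _) 2).ne'
  fun_prop

end


section
variable {n m : ℕ} {M : Set (Eu n)} {T : Submodule ℝ (Eu n)} {g : T → Tᗮ} {O : Set T} {V : Set (Eu n)}

lemma leaf_limit_open (hc : IsChart ∞ m M T g O V) : IsOpen {a | a ∈ O ∧ cmap T g a ∈ V} ∧
    ContDiffOn ℝ ∞ g {a | a ∈ O ∧ cmap T g a ∈ V} := by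
  have h1 : ContinuousOn (cmap T g) O := by
    unfold cmap
    have h2 : ContinuousOn (fun a => ((g a : Tᗮ) : Eu n)) O :=
      continuous_subtype_val.comp_continuousOn hc.smooth.continuousOn
    exact (continuous_subtype_val.continuousOn).add h2
  refine ⟨?_, hc.smooth.mono (fun a ha => ha.1)⟩
  exact h1.isOpen_inter_preimage hc.openO hc.openV

lemma leaf_limit_const (p : Eu n × ℝ) (x e q : Eu n) (s : ℝ) (hs : 0 < s)
    (h : ∀ s' ∈ Icc 0 s, circ x e q s' ∈ critSet M (fam p)) :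
    fam p (circ x e q s) = fam p x := by
  have hsm : ContDiff ℝ ∞ (fun s => fam p (circ x e q s)) := by
    unfold fam
    have h1 := leaf_limit_circ_cont x e q
    have h2 : ContDiff ℝ ∞ (fun s => ⟪p.1, circ x e q s⟫_ℝ) := contDiff_const.inner ℝ h1
    have h3 : ContDiff ℝ ∞ (fun s => ‖circ x e q s‖ ^ 2) := h1.norm_sq ℝ
    exact h2.sub ((contDiff_const.mul h3).div_const 2)
  have hx : circ x e q 0 = x := by simp [circ]
  obtain ⟨c, hc, hd⟩ := exists_deriv_eq_slope (fun s => fam p (circ x e q s)) hs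
    hsm.continuous.continuousOn (hsm.differentiable (by simp)).differentiableOn
  have h0 : deriv (fun s => fam p (circ x e q s)) c = 0 := by
    have hcv : IsCurveAt M (circ x e q c) (fun t => circ x e q (c + t)) := by
      refine ⟨by simp, min c (s - c), lt_min hc.1 (sub_pos.2 hc.2), ?_, ?_⟩
      · have : ContDiff ℝ ∞ (fun t : ℝ => circ x e q (c + t)) :=
          (leaf_limit_circ_cont x e q).comp (contDiff_const.add contDiff_id)
        exact this.contDiffOn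
      · intro t ht
        have h1 := ht.1
        have h2 := ht.2
        have h3 := min_le_left c (s - c)
        have h4 := min_le_right c (s - c)
        exact (h (c + t) ⟨by linarith, by linarith⟩).1
    have h1 := (h c ⟨hc.1.le, hc.2.le⟩).2 _ hcv
    have h2 : (fam p ∘ fun t => circ x e q (c + t)) =
        fun t => (fun s => fam p (circ x e q s)) (c + t) := rfl
    have h3 : deriv (fun t => (fun s => fam p (circ x e q s)) (c + t)) 0 =
        deriv (fun s => fam p (circ x e q s)) (c + 0) :=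
      deriv_comp_const_add (fun s => fam p (circ x e q s)) c 0
    rw [h2, h3] at h1
    simpa using h1
  rw [h0] at hd
  have h5 : (fam p (circ x e q s) - fam p (circ x e q 0)) / (s - 0) = 0 := hd.symm
  rw [sub_zero, div_eq_zero_iff] at h5
  rcases h5 with h5 | h5
  · rw [hx] at h5
    linarith
  · exact absurd h5 hs.ne'

lemma leaf_limit_s3 {T' : Submodule ℝ (Eu n)} {g' : T' → T'ᗮ} {O' : Set T'} {V' : Set (Eu n)}
    {E0 : Type} [NormedAddCommGroup E0] [NormedSpace ℝ E0] {X E Qf Wf : E0 → Eu n}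
    {R : E0 → ℝ} {z : E0} (hX : DifferentiableAt ℝ X z) (hE : DifferentiableAt ℝ E z)
    (hQ : DifferentiableAt ℝ Qf z) (hW : DifferentiableAt ℝ Wf z) (hR : DifferentiableAt ℝ R z)
    (hc' : IsChart ∞ m M T' g' O' V') (s : ℝ) (hV : circ (X z) (E z) (Qf z) s ∈ V')
    (hcr : ∀ᶠ z' in 𝓝 z, circ (X z') (E z') (Qf z') s ∈ critSet M (fam (Wf z', R z')))
    (hco : ∀ᶠ z' in 𝓝 z, fam (Wf z', R z') (circ (X z') (E z') (Qf z') s) = fam (Wf z', R z') (X z'))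
    (ζ : E0) (y yd xd : Eu n) (hy : y = circ (X z) (E z) (Qf z) s)
    (hyd : yd = leaf_limit_yd (E z) (Qf z) (fderiv ℝ X z ζ) (fderiv ℝ E z ζ) (fderiv ℝ Qf z ζ) s)
    (hxd : xd = fderiv ℝ Wf z ζ - (R z • yd + fderiv ℝ R z ζ • y)) :
    T'ᗮ.orthogonalProjectionOnto yd =
      fderiv ℝ g' (T'.orthogonalProjectionOnto y) (T'.orthogonalProjectionOnto yd) ∧
    T'.orthogonalProjectionOnto xd = -(Hop g' (T'.orthogonalProjectionOnto y)
      (T'ᗮ.orthogonalProjectionOnto (Wf z - R z • y)) (T'.orthogonalProjectionOnto yd) +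
      nrm g' (T'.orthogonalProjectionOnto y) (T'ᗮ.orthogonalProjectionOnto xd)) ∧
    ⟪Wf z, yd⟫_ℝ + ⟪fderiv ℝ Wf z ζ, y⟫_ℝ - (R z * (2 * ⟪y, yd⟫_ℝ) + fderiv ℝ R z ζ * ‖y‖ ^ 2) / 2 =
      ⟪Wf z, fderiv ℝ X z ζ⟫_ℝ + ⟪fderiv ℝ Wf z ζ, X z⟫_ℝ -
        (R z * (2 * ⟪X z, fderiv ℝ X z ζ⟫_ℝ) + fderiv ℝ R z ζ * ‖X z‖ ^ 2) / 2 := by
  have dX := leaf_limit_line hX ζ
  have dE := leaf_limit_line hE ζ
  have dQ := leaf_limit_line hQ ζ
  have dW := leaf_limit_line hW ζ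
  have dR := leaf_limit_line hR ζ
  have z0 : z + (0 : ℝ) • ζ = z := by simp
  have dY : HasDerivAt (fun t : ℝ => circ (X (z + t • ζ)) (E (z + t • ζ)) (Qf (z + t • ζ)) s) yd 0 := by
    have := leaf_limit_circ_d dX dE dQ s
    simp only [z0] at this
    rw [hyd]
    exact this
  have hy0 : (fun t : ℝ => circ (X (z + t • ζ)) (E (z + t • ζ)) (Qf (z + t • ζ)) s) 0 = y := by
    simp only [z0, hy]
  have dPY : HasDerivAt (fun t : ℝ => T'.orthogonalProjectionOnto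
      (circ (X (z + t • ζ)) (E (z + t • ζ)) (Qf (z + t • ζ)) s)) (T'.orthogonalProjectionOnto yd) 0 :=
    (T'.orthogonalProjectionOnto).hasFDerivAt.comp_hasDerivAt (0 : ℝ) dY
  have dQY : HasDerivAt (fun t : ℝ => T'ᗮ.orthogonalProjectionOnto
      (circ (X (z + t • ζ)) (E (z + t • ζ)) (Qf (z + t • ζ)) s)) (T'ᗮ.orthogonalProjectionOnto yd) 0 :=
    (T'ᗮ.orthogonalProjectionOnto).hasFDerivAt.comp_hasDerivAt (0 : ℝ) dY
  have hyO : T'.orthogonalProjectionOnto y ∈ O' := by rw [hy]; exact (hc'.mem _ hV).1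
  have dg : HasFDerivAt g' (fderiv ℝ g' (T'.orthogonalProjectionOnto y)) (T'.orthogonalProjectionOnto y) :=
    ((hc'.smooth.contDiffAt (hc'.openO.mem_nhds hyO)).differentiableAt (by simp)).hasFDerivAt
  have dgY : HasDerivAt (fun t : ℝ => g' (T'.orthogonalProjectionOnto
      (circ (X (z + t • ζ)) (E (z + t • ζ)) (Qf (z + t • ζ)) s)))
      (fderiv ℝ g' (T'.orthogonalProjectionOnto y) (T'.orthogonalProjectionOnto yd)) 0 := by
    refine HasFDerivAt.comp_hasDerivAt_of_eq (0 : ℝ) dg dPY ?_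
    simp only [z0, hy]
  have dxi : HasDerivAt (fun t : ℝ => Wf (z + t • ζ) - R (z + t • ζ) •
      circ (X (z + t • ζ)) (E (z + t • ζ)) (Qf (z + t • ζ)) s) xd 0 := by
    have h1 := dW.sub (dR.smul dY)
    simp only [z0] at h1
    rw [hxd, hy]
    exact h1
  have dPxi : HasDerivAt (fun t : ℝ => T'.orthogonalProjectionOnto (Wf (z + t • ζ) - R (z + t • ζ) •
      circ (X (z + t • ζ)) (E (z + t • ζ)) (Qf (z + t • ζ)) s)) (T'.orthogonalProjectionOnto xd) 0 :=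
    (T'.orthogonalProjectionOnto).hasFDerivAt.comp_hasDerivAt (0 : ℝ) dxi
  have dQxi : HasDerivAt (fun t : ℝ => T'ᗮ.orthogonalProjectionOnto (Wf (z + t • ζ) - R (z + t • ζ) •
      circ (X (z + t • ζ)) (E (z + t • ζ)) (Qf (z + t • ζ)) s)) (T'ᗮ.orthogonalProjectionOnto xd) 0 :=
    (T'ᗮ.orthogonalProjectionOnto).hasFDerivAt.comp_hasDerivAt (0 : ℝ) dxi
  have dnr := leaf_limit_nrm_deriv hc'.openO hc'.smooth dPY dQxi (by simp only [z0]; rw [← hy]; exact hyO)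
  simp only [z0] at dnr
  rw [← hy] at dnr
  have dnr2 := dnr.neg
  have evV : ∀ᶠ t : ℝ in 𝓝 0, circ (X (z + t • ζ)) (E (z + t • ζ)) (Qf (z + t • ζ)) s ∈ V' := by
    have := dY.continuousAt
    refine this.eventually_mem (hc'.openV.mem_nhds ?_)
    simpa only [z0] using hV
  have evc := leaf_limit_line_ev hcr ζ
  have evo := leaf_limit_line_ev hco ζ
  refine ⟨?_, ?_, ?_⟩
  · refine (dQY.congr_of_eventuallyEq ?_).unique dgY
    filter_upwards [evV, evc] with t h1 h2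
    exact (((hc'.mem _ h1).2).1 h2.1).symm
  · refine (dPxi.congr_of_eventuallyEq ?_).unique dnr2
    filter_upwards [evV, evc] with t h1 h2
    exact ((leaf_limit_crit hc' _ h2.1 h1 _).1 h2).symm
  · have f1 : HasDerivAt (fun t : ℝ => fam (Wf (z + t • ζ), R (z + t • ζ))
        (circ (X (z + t • ζ)) (E (z + t • ζ)) (Qf (z + t • ζ)) s))
        (⟪Wf z, yd⟫_ℝ + ⟪fderiv ℝ Wf z ζ, y⟫_ℝ -
          (fderiv ℝ R z ζ * ‖y‖ ^ 2 + R z * (2 * ⟪y, yd⟫_ℝ)) / 2) 0 := by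
      have h1 := (dW.inner ℝ dY).sub ((dR.mul dY.norm_sq).div_const 2)
      simp only [z0] at h1
      rw [← hy] at h1
      exact h1
    have f2 : HasDerivAt (fun t : ℝ => fam (Wf (z + t • ζ), R (z + t • ζ)) (X (z + t • ζ)))
        (⟪Wf z, fderiv ℝ X z ζ⟫_ℝ + ⟪fderiv ℝ Wf z ζ, X z⟫_ℝ -
          (fderiv ℝ R z ζ * ‖X z‖ ^ 2 + R z * (2 * ⟪X z, fderiv ℝ X z ζ⟫_ℝ)) / 2) 0 := by
      have h1 := (dW.inner ℝ dX).sub ((dR.mul dX.norm_sq).div_const 2)
      simp only [z0] at h1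
      exact h1
    have f3 := (f1.congr_of_eventuallyEq (by filter_upwards [evo] with t h1; exact h1.symm)).unique f2
    linarith

end


section
variable {n m : ℕ} {M : Set (Eu n)} {T : Submodule ℝ (Eu n)} {g : T → Tᗮ} {O : Set T} {V : Set (Eu n)}

lemma leaf_limit_s4 {T' : Submodule ℝ (Eu n)} {g' : T' → T'ᗮ} {O' : Set T'} {V' : Set (Eu n)}
    {E0 : Type} [NormedAddCommGroup E0] [NormedSpace ℝ E0] {X E Qf Wf : E0 → Eu n}
    {R : E0 → ℝ} {z : E0} (hX : DifferentiableAt ℝ X z) (hE : DifferentiableAt ℝ E z)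
    (hQ : DifferentiableAt ℝ Qf z) (hW : DifferentiableAt ℝ Wf z) (hR : DifferentiableAt ℝ R z)
    (hc' : IsChart ∞ m M T' g' O' V') (s₁ : ℝ) (hs₁ : 0 < s₁)
    (hfam : ∀ s ∈ Ioo 0 s₁, ∀ᶠ z' in 𝓝 z, ∀ s' ∈ Icc 0 s,
      circ (X z') (E z') (Qf z') s' ∈ critSet M (fam (Wf z', R z')))
    (y : Eu n) (hy : y = circ (X z) (E z) (Qf z) s₁) (hyM : y ∈ M) (hyV : y ∈ V') :
    T'.orthogonalProjectionOnto (Wf z - R z • y) = -nrm g' (T'.orthogonalProjectionOnto y)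
      (T'ᗮ.orthogonalProjectionOnto (Wf z - R z • y)) ∧
    fam (Wf z, R z) y = fam (Wf z, R z) (X z) ∧
    ∀ (ζ : E0) (yd xd : Eu n)
    (_hyd : yd = leaf_limit_yd (E z) (Qf z) (fderiv ℝ X z ζ) (fderiv ℝ E z ζ) (fderiv ℝ Qf z ζ) s₁)
    (_hxd : xd = fderiv ℝ Wf z ζ - (R z • yd + fderiv ℝ R z ζ • y)),
    T'ᗮ.orthogonalProjectionOnto yd =
      fderiv ℝ g' (T'.orthogonalProjectionOnto y) (T'.orthogonalProjectionOnto yd) ∧
    T'.orthogonalProjectionOnto xd = -(Hop g' (T'.orthogonalProjectionOnto y)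
      (T'ᗮ.orthogonalProjectionOnto (Wf z - R z • y)) (T'.orthogonalProjectionOnto yd) +
      nrm g' (T'.orthogonalProjectionOnto y) (T'ᗮ.orthogonalProjectionOnto xd)) ∧
    ⟪Wf z, yd⟫_ℝ + ⟪fderiv ℝ Wf z ζ, y⟫_ℝ - (R z * (2 * ⟪y, yd⟫_ℝ) + fderiv ℝ R z ζ * ‖y‖ ^ 2) / 2 =
      ⟪Wf z, fderiv ℝ X z ζ⟫_ℝ + ⟪fderiv ℝ Wf z ζ, X z⟫_ℝ -
        (R z * (2 * ⟪X z, fderiv ℝ X z ζ⟫_ℝ) + fderiv ℝ R z ζ * ‖X z‖ ^ 2) / 2 := by
  have hcy : Continuous (fun s => circ (X z) (E z) (Qf z) s) :=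
    (leaf_limit_circ_cont (X z) (E z) (Qf z)).continuous
  have ty : Tendsto (fun s => circ (X z) (E z) (Qf z) s) (𝓝[<] s₁) (𝓝 y) := by
    rw [hy]; exact (hcy.tendsto s₁).mono_left nhdsWithin_le_nhds
  have ePl : T'.orthogonalProjectionOnto y ∈ O' := (hc'.mem y hyV).1
  have evs : ∀ᶠ s in 𝓝[<] s₁, s ∈ Ioo 0 s₁ := Ioo_mem_nhdsLT hs₁
  have evV : ∀ᶠ s in 𝓝[<] s₁, circ (X z) (E z) (Qf z) s ∈ V' :=
    ty.eventually_mem (hc'.openV.mem_nhds hyV)
  have tP : Tendsto (fun s => T'.orthogonalProjectionOnto (circ (X z) (E z) (Qf z) s)) (𝓝[<] s₁)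
      (𝓝 (T'.orthogonalProjectionOnto y)) :=
    ((T'.orthogonalProjectionOnto).continuous.tendsto y).comp ty
  have txi : Tendsto (fun s => Wf z - R z • circ (X z) (E z) (Qf z) s) (𝓝[<] s₁)
      (𝓝 (Wf z - R z • y)) := tendsto_const_nhds.sub (ty.const_smul (R z))
  have tPxi : Tendsto (fun s => T'.orthogonalProjectionOnto (Wf z - R z • circ (X z) (E z) (Qf z) s))
      (𝓝[<] s₁) (𝓝 (T'.orthogonalProjectionOnto (Wf z - R z • y))) :=
    ((T'.orthogonalProjectionOnto).continuous.tendsto _).comp txi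
  have tQxi : Tendsto (fun s => T'ᗮ.orthogonalProjectionOnto (Wf z - R z • circ (X z) (E z) (Qf z) s))
      (𝓝[<] s₁) (𝓝 (T'ᗮ.orthogonalProjectionOnto (Wf z - R z • y))) :=
    ((T'ᗮ.orthogonalProjectionOnto).continuous.tendsto _).comp txi
  have key : ∀ s ∈ Ioo 0 s₁, ∀ᶠ z' in 𝓝 z, circ (X z') (E z') (Qf z') s ∈ critSet M (fam (Wf z', R z')) := by
    intro s hs
    filter_upwards [hfam s hs] with z' h
    exact h s ⟨hs.1.le, le_refl _⟩
  have keyc : ∀ s ∈ Ioo 0 s₁, ∀ᶠ z' in 𝓝 z,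
      fam (Wf z', R z') (circ (X z') (E z') (Qf z') s) = fam (Wf z', R z') (X z') := by
    intro s hs
    filter_upwards [hfam s hs] with z' h
    exact leaf_limit_const _ _ _ _ s hs.1 h
  refine ⟨?_, ?_, ?_⟩
  · have t2 := ((leaf_limit_tend hc'.openO hc'.smooth tP ePl tQxi tP).1).neg
    refine tendsto_nhds_unique_of_eventuallyEq tPxi t2 ?_
    filter_upwards [evs, evV] with s h1 h2
    have h3 := (key s h1).self_of_nhds
    exact (leaf_limit_crit hc' _ h3.1 h2 _).1 h3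
  · have t1 : Tendsto (fun s => fam (Wf z, R z) (circ (X z) (E z) (Qf z) s)) (𝓝[<] s₁)
        (𝓝 (fam (Wf z, R z) y)) := by
      have hcf : Continuous (fam (Wf z, R z)) := by unfold fam; fun_prop
      exact (hcf.tendsto y).comp ty
    refine tendsto_nhds_unique_of_eventuallyEq t1 tendsto_const_nhds ?_
    filter_upwards [evs] with s h1
    exact (keyc s h1).self_of_nhds
  · intro ζ yd xd hyd hxd
    have hcd : Continuous (fun s => leaf_limit_yd (E z) (Qf z) (fderiv ℝ X z ζ) (fderiv ℝ E z ζ)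
      (fderiv ℝ Qf z ζ) s) := leaf_limit_yd_cont _ _ _ _ _
    have tyd : Tendsto (fun s => leaf_limit_yd (E z) (Qf z) (fderiv ℝ X z ζ) (fderiv ℝ E z ζ)
      (fderiv ℝ Qf z ζ) s) (𝓝[<] s₁) (𝓝 yd) := by
      rw [hyd]; exact (hcd.tendsto s₁).mono_left nhdsWithin_le_nhds
    have txd : Tendsto (fun s => fderiv ℝ Wf z ζ - (R z • leaf_limit_yd (E z) (Qf z) (fderiv ℝ X z ζ)
        (fderiv ℝ E z ζ) (fderiv ℝ Qf z ζ) s + fderiv ℝ R z ζ • circ (X z) (E z) (Qf z) s)) (𝓝[<] s₁)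
        (𝓝 xd) := by
      rw [hxd]
      exact tendsto_const_nhds.sub ((tyd.const_smul _).add (ty.const_smul _))
    have tPyd := ((T'.orthogonalProjectionOnto).continuous.tendsto _).comp tyd
    have tQyd := ((T'ᗮ.orthogonalProjectionOnto).continuous.tendsto _).comp tyd
    have tPxd := ((T'.orthogonalProjectionOnto).continuous.tendsto _).comp txd
    have tQxd := ((T'ᗮ.orthogonalProjectionOnto).continuous.tendsto _).comp txd
    have all := fun s (h1 : s ∈ Ioo 0 s₁) (h2 : circ (X z) (E z) (Qf z) s ∈ V') =>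
      leaf_limit_s3 hX hE hQ hW hR hc' s h2 (key s h1) (keyc s h1) ζ _ _ _ rfl rfl rfl
    refine ⟨?_, ?_, ?_⟩
    · refine tendsto_nhds_unique_of_eventuallyEq tQyd
        (leaf_limit_tend hc'.openO hc'.smooth tP ePl tQxi tPyd).2.2 ?_
      filter_upwards [evs, evV] with s h1 h2
      exact (all s h1 h2).1
    · refine tendsto_nhds_unique_of_eventuallyEq tPxd
        ((leaf_limit_tend hc'.openO hc'.smooth tP ePl tQxi tPyd).2.1.add
          (leaf_limit_tend hc'.openO hc'.smooth tP ePl tQxd tPyd).1).neg ?_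
      filter_upwards [evs, evV] with s h1 h2
      exact (all s h1 h2).2.1
    · have t1 : Tendsto (fun s => ⟪Wf z, leaf_limit_yd (E z) (Qf z) (fderiv ℝ X z ζ)
          (fderiv ℝ E z ζ) (fderiv ℝ Qf z ζ) s⟫_ℝ + ⟪fderiv ℝ Wf z ζ, circ (X z) (E z) (Qf z) s⟫_ℝ -
          (R z * (2 * ⟪circ (X z) (E z) (Qf z) s, leaf_limit_yd (E z) (Qf z) (fderiv ℝ X z ζ)
          (fderiv ℝ E z ζ) (fderiv ℝ Qf z ζ) s⟫_ℝ) + fderiv ℝ R z ζ *
          ‖circ (X z) (E z) (Qf z) s‖ ^ 2) / 2) (𝓝[<] s₁)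
          (𝓝 (⟪Wf z, yd⟫_ℝ + ⟪fderiv ℝ Wf z ζ, y⟫_ℝ -
            (R z * (2 * ⟪y, yd⟫_ℝ) + fderiv ℝ R z ζ * ‖y‖ ^ 2) / 2)) := by
        refine ((tendsto_const_nhds.inner tyd).add (tendsto_const_nhds.inner ty)).sub ?_
        exact ((((ty.inner tyd).const_mul 2).const_mul _).add ((ty.norm.pow 2).const_mul _)).div_const 2
      refine tendsto_nhds_unique_of_eventuallyEq t1 tendsto_const_nhds ?_
      filter_upwards [evs, evV] with s h1 h2
      exact (all s h1 h2).2.2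

lemma leaf_limit_yd_self (x e q : Eu n) (he : ‖e‖ = 1) (heq : ⟪e, q⟫_ℝ = 0) (s : ℝ) :
    leaf_limit_yd e q e ((2 : ℝ) • q) (-((2 * ‖q‖ ^ 2) • e)) s = circE e q s := by
  have hp := (leaf_limit_pos s ‖q‖).ne'
  have h1 : ⟪q, -((2 * ‖q‖ ^ 2) • e)⟫_ℝ = 0 := by
    rw [inner_neg_right, inner_smul_right, real_inner_comm, heq]; simp
  unfold leaf_limit_yd circE
  rw [h1]
  simp only [mul_zero, zero_smul, sub_zero]
  have h2 : e = (1 + s ^ 2 * ‖q‖ ^ 2)⁻¹ • ((1 + s ^ 2 * ‖q‖ ^ 2) • e) := by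
    rw [smul_smul, inv_mul_cancel₀ hp, one_smul]
  have h3 : e + (1 + s ^ 2 * ‖q‖ ^ 2)⁻¹ • (s • (2 : ℝ) • q + s ^ 2 • -((2 * ‖q‖ ^ 2) • e)) =
      (1 + s ^ 2 * ‖q‖ ^ 2)⁻¹ • ((1 + s ^ 2 * ‖q‖ ^ 2) • e + (s • (2 : ℝ) • q + s ^ 2 • -((2 * ‖q‖ ^ 2) • e))) := by
    rw [smul_add (1 + s ^ 2 * ‖q‖ ^ 2)⁻¹ ((1 + s ^ 2 * ‖q‖ ^ 2) • e), ← h2]
  rw [h3]
  congr 1
  module

end

/-! PLAIN PROOF OF THE TARGET(S)

Notation: x = xpt, e, q = qf, w = wpt, ρ at z; y(z,s) = circ (x z)(e z)(q z) s, smooth in (z,s) for z ∈ N (1+s²|q|² > 0).  O' = {a ∈ O | cmap a ∈ V}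
open, apply leaf_* with it.  P', Q' the projections of the chart T'.  y0(s) = y(z0,s), y = y0(s1).
Step 1.  For s < s1 near s1, y0(s) ∈ V' and for z near z0: y(z,s) ∈ V' ∩ M and critical for fam (w z, ρ z).  As in crit_iff / br_crit + fam_d1:
(I0) Q' y(z,s) = g'(P' y(z,s)), (I1) P'(w - ρ y) = -nrm g' (P' y)(Q'(w - ρ y)), P' y ∈ O'_chart.  At z = z0 let s → s1: (I0), (I1) at y (g', Dg' continuous
on O'), so y is critical for fam (w z0, ρ z0) (br_crit, fam_d1), the first claim.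
Step 2.  Along a leaf s ↦ y(z,s) ∈ crit set (s ∈ [0,s]) the function fam (w z, ρ z) is constant (its derivative in s is <w - ρy, y'>, and y' is a velocity of
a curve in M, or use br_crit/I0-I1: the normal vector w - ρ y is orthogonal to y' = P'y' + Dg' P'y'); simplest: s' ↦ y(z,s') for s' ∈ (0,s) is a smooth curve
in M and critSet kills its velocity.  So |w - ρ y|² = |w|² - 2ρ fam(y) is constant along the leaf, = |nvec z|² ≠ 0; at z0, s1: w - ρ y ≠ 0, and as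
its T'-part is -nrm g'(Q'(w - ρy)) its T'ᗮ-part Q'(w - ρ y) is ≠ 0: second claim.  Also for ζ ∈ T × Tᗮ put ẇ = Dw(z0)ζ, ρ̇ = Dρ(z0)ζ,
ẏ(s) = D_z y(z0,s) ζ.  Differentiating fam (w z, ρ z)(y(z,s)) = fam (w z, ρ z)(x z) in z at z0 (both sides agree for z near z0):
<ẇ, y0> - ρ̇|y0|²/2 + <w - ρ y0, ẏ> = <ẇ, x0> - ρ̇ |x0|²/2 + <w - ρ x0, Dx ζ>, where the last term is 0 (leaf_id) and <w - ρ y0, ẏ> = 0 (by (D0) and (I1)
below, a normal vector against P'ẏ + Dg'P'ẏ).  Let s → s1: (D2) <ẇ, y - x0> = ρ̇ (|y|² - |x0|²)/2.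
Step 3.  Differentiate (I0), (I1) in z at z0 in the direction ζ for s < s1 and let s → s1 (everything is continuous in s):
(D0) Q'ẏ = Dg' P'ẏ, (D1) P' ξ̇ = -(Hop g' (P'y)(b') P'ẏ + nrm g' (P'y)(Q' ξ̇)), ξ̇ = ẇ - ρ̇ y - ρ ẏ, b' = Q'(w - ρ y).
Step 4.  If ξ̇ = -ρ ẏ, that is ẇ = ρ̇ y, then by (D2) ρ̇(<y,y-x0> - (|y|²-|x0|²)/2) = ρ̇ |y - x0|²/2 = 0 and |y-x0|² = s1²/(1+s1²|q|²) ≠ 0 (circ_group), so ρ̇ = 0,
ẇ = 0, and ζ = r Xf z0 (leaf_id), and then ẏ = r circE(e,q)(s1) (Step 5).  In particular if ẏ = 0 and ξ̇ = 0 then r = 0 and ζ = 0.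
Step 5.  D_z y(z0,s)(Xf) = circE e q s: with D x(Xf) = e, D e(Xf) = 2q, D q(Xf) = -2|q|² e, k = |q|² (its derivative along Xf is 0 since <e,q> = 0):
the derivative of x + (s e + s² q)/(1+s²k) is e + (2 s q - 2 s² k e)/(1+s²k) = ((1 - s²k) e + 2 s q)/(1+s²k) = circE e q s.
Step 6.  The linear map ζ ↦ (P'ẏ(s1), Q'ξ̇) from T × Tᗮ to T' × T'ᗮ (both of dimension n) is injective: if both vanish then (D0) ẏ = 0, (D1) P'ξ̇ = 0, so
ξ̇ = 0, so ζ = 0 by Step 4.  So it is surjective.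
Step 7.  Third claim: take ζ = Xf z0: ẏ = circE(s1) =: E1, |E1| = 1, and by (D0) Q'E1 = Dg'P'E1, so P'E1 ≠ 0.  Moreover ẇ = 0, ρ̇ = 0, ξ̇ = -ρ E1, so (D1):
-ρ P'E1 = -(Hop P'E1 - ρ nrm g' (Dg'P'E1)), that is Lop g' (P'y) b' ρ (P'E1) = 0, which gives (←) of the last claim by linearity.
(→): let Lop g' (P'y) b' ρ u = 0.  By Step 6 choose ζ with P'ẏ = u, Q'ξ̇ = -ρ Dg' u.  (D0): ẏ = u + Dg'u.  (D1): P'ξ̇ = -Hop u + ρ Dg'†Dg'u = -ρ u.  So
ξ̇ = -ρ ẏ, Step 4: ẏ = r E1, u = P'ẏ = r P'E1.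
-/

section
variable {n m : ℕ} {M : Set (Eu n)} {T : Submodule ℝ (Eu n)} {g : T → Tᗮ} {O : Set T} {V : Set (Eu n)}
  {N : Set (T × Tᗮ)} {ρ : T × Tᗮ → ℝ} {e : T × Tᗮ → Eu n}

/-- TARGET -/
theorem leaf_limit (hc : IsChart ∞ m M T g O V)
    (h : LeafPre T g {a | a ∈ O ∧ cmap T g a ∈ V} N ρ e) (z₀ : T × Tᗮ) (hz : z₀ ∈ N) (s₁ : ℝ)
    (hs₁ : 0 < s₁)
    (hfam : ∀ s ∈ Ioo 0 s₁, ∀ᶠ z in 𝓝 z₀, ∀ s' ∈ Icc 0 s,
      circ (xpt T g z) (e z) (qf T ρ e z) s' ∈ critSet M (fam (wpt T g ρ z, ρ z)))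
    {T' : Submodule ℝ (Eu n)} {g' : T' → T'ᗮ} {O' : Set T'} {V' : Set (Eu n)}
    (hc' : IsChart ∞ m M T' g' O' V') (y : Eu n)
    (hy : y = circ (xpt T g z₀) (e z₀) (qf T ρ e z₀) s₁) (hyM : y ∈ M) (hyV : y ∈ V') :
    y ∈ critSet M (fam (wpt T g ρ z₀, ρ z₀)) ∧
    T'ᗮ.orthogonalProjectionOnto (wpt T g ρ z₀ - ρ z₀ • y) ≠ 0 ∧
    T'.orthogonalProjectionOnto (circE (e z₀) (qf T ρ e z₀) s₁) ≠ 0 ∧
    ∀ u : T', Lop g' (T'.orthogonalProjectionOnto y)
      (T'ᗮ.orthogonalProjectionOnto (wpt T g ρ z₀ - ρ z₀ • y)) (ρ z₀) u = 0 ↔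
      ∃ r : ℝ, u = r • T'.orthogonalProjectionOnto (circE (e z₀) (qf T ρ e z₀) s₁) := by
  obtain ⟨hO1, hg1⟩ := leaf_limit_open hc
  obtain ⟨sx, sn, sw, sX, sq⟩ := leaf_smooth hO1 hg1 h
  obtain ⟨i1, i2, i3, i4, i5, i6, i7⟩ := leaf_id hO1 hg1 h z₀ hz
  have idq := leaf_dq hO1 hg1 h z₀ hz
  have hN : N ∈ 𝓝 z₀ := h.openN.mem_nhds hz
  have dX : DifferentiableAt ℝ (xpt T g) z₀ := (sx.contDiffAt hN).differentiableAt (by simp)
  have dE : DifferentiableAt ℝ e z₀ := (h.sme.contDiffAt hN).differentiableAt (by simp)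
  have dQ : DifferentiableAt ℝ (qf T ρ e) z₀ := (sq.contDiffAt hN).differentiableAt (by simp)
  have dW : DifferentiableAt ℝ (wpt T g ρ) z₀ := (sw.contDiffAt hN).differentiableAt (by simp)
  have dR : DifferentiableAt ℝ ρ z₀ := (h.smr.contDiffAt hN).differentiableAt (by simp)
  obtain ⟨I1, Fc, key⟩ := leaf_limit_s4 dX dE dQ dW dR hc' s₁ hs₁ hfam y hy hyM hyV
  have he : ‖e z₀‖ = 1 := h.unit z₀ hz
  have heX : fderiv ℝ e z₀ (Xf T ρ e z₀) = (2 : ℝ) • qf T ρ e z₀ := by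
    unfold qf
    rw [smul_smul]; norm_num
  obtain ⟨g1, g2, g3, g4, g5⟩ := circ_group (xpt T g z₀) (e z₀) (qf T ρ e z₀) he i4 s₁
  have hwx : wpt T g ρ z₀ - ρ z₀ • xpt T g z₀ = nvec T g z₀ := by
    unfold wpt; simp
  have hwx' : wpt T g ρ z₀ = nvec T g z₀ + ρ z₀ • xpt T g z₀ := rfl
  -- the linear maps
  let yl : (T × Tᗮ) →ₗ[ℝ] Eu n :=
    { toFun := fun ζ => leaf_limit_yd (e z₀) (qf T ρ e z₀) (fderiv ℝ (xpt T g) z₀ ζ)
        (fderiv ℝ e z₀ ζ) (fderiv ℝ (qf T ρ e) z₀ ζ) s₁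
      map_add' := by
        intro a b
        simp only [leaf_limit_yd, map_add, inner_add_right]
        module
      map_smul' := by
        intro c a
        simp only [leaf_limit_yd, map_smul, inner_smul_right, RingHom.id_apply]
        module }
  let xl : (T × Tᗮ) →ₗ[ℝ] Eu n :=
    { toFun := fun ζ => fderiv ℝ (wpt T g ρ) z₀ ζ - (ρ z₀ • yl ζ + fderiv ℝ ρ z₀ ζ • y)
      map_add' := by
        intro a b
        simp only [map_add]
        module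
      map_smul' := by
        intro c a
        simp only [map_smul, RingHom.id_apply, smul_eq_mul]
        module }
  have hyl : ∀ ζ, yl ζ = leaf_limit_yd (e z₀) (qf T ρ e z₀) (fderiv ℝ (xpt T g) z₀ ζ)
        (fderiv ℝ e z₀ ζ) (fderiv ℝ (qf T ρ e) z₀ ζ) s₁ := fun ζ => rfl
  have hxl : ∀ ζ, xl ζ = fderiv ℝ (wpt T g ρ) z₀ ζ - (ρ z₀ • yl ζ + fderiv ℝ ρ z₀ ζ • y) :=
    fun ζ => rfl
  have K := fun ζ => key ζ (yl ζ) (xl ζ) (hyl ζ) (hxl ζ)
  -- the leaf direction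
  have hylX : yl (Xf T ρ e z₀) = circE (e z₀) (qf T ρ e z₀) s₁ := by
    rw [hyl, i1, heX, idq]
    exact leaf_limit_yd_self (xpt T g z₀) (e z₀) (qf T ρ e z₀) he i4 s₁
  have hxlX : xl (Xf T ρ e z₀) = -(ρ z₀ • circE (e z₀) (qf T ρ e z₀) s₁) := by
    rw [hxl, i3, h.dr z₀ hz, hylX]; simp
  have hE1 : circE (e z₀) (qf T ρ e z₀) s₁ ≠ 0 := by
    intro h0; rw [h0] at g1; simp at g1
  -- step 4
  have orth : ∀ ζ, ⟪wpt T g ρ z₀ - ρ z₀ • y, yl ζ⟫_ℝ = 0 := by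
    intro ζ
    rw [leaf_limit_inner T', (K ζ).1, I1, inner_neg_left]
    unfold nrm
    rw [ContinuousLinearMap.adjoint_inner_left]
    ring
  have st4 : ∀ ζ, xl ζ = -(ρ z₀ • yl ζ) → ∃ r : ℝ, ζ = r • Xf T ρ e z₀ := by
    intro ζ hζ
    have w1 : fderiv ℝ (wpt T g ρ) z₀ ζ = fderiv ℝ ρ z₀ ζ • y := by
      rw [hxl] at hζ
      have : fderiv ℝ (wpt T g ρ) z₀ ζ = -(ρ z₀ • yl ζ) + (ρ z₀ • yl ζ + fderiv ℝ ρ z₀ ζ • y) := by
        rw [← hζ]; abel
      rw [this]; abel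
    have e1 := (K ζ).2.2
    have o1 := orth ζ
    have o2 := i7 ζ
    rw [inner_sub_left, inner_smul_left] at o1
    simp only [conj_trivial] at o1
    rw [← hwx, inner_sub_left, inner_smul_left] at o2
    simp only [conj_trivial] at o2
    rw [w1, inner_smul_left, inner_smul_left] at e1
    simp only [conj_trivial] at e1
    have n1 : ‖y - xpt T g z₀‖ ^ 2 = ‖y‖ ^ 2 - 2 * ⟪y, xpt T g z₀⟫_ℝ + ‖xpt T g z₀‖ ^ 2 :=
      norm_sub_sq_real _ _
    have n2 : ⟪y, y⟫_ℝ = ‖y‖ ^ 2 := real_inner_self_eq_norm_sq y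
    have n3 : fderiv ℝ ρ z₀ ζ * ‖y - xpt T g z₀‖ ^ 2 = 0 := by
      rw [n1]
      rw [n2] at e1
      linear_combination 2 * e1 - 2 * o1 + 2 * o2
    have n4 : ‖y - xpt T g z₀‖ ^ 2 ≠ 0 := by
      rw [hy, g4]
      have := leaf_limit_pos s₁ ‖qf T ρ e z₀‖
      positivity
    have n5 : fderiv ℝ ρ z₀ ζ = 0 := by
      rcases mul_eq_zero.1 n3 with h0 | h0
      · exact h0
      · exact absurd h0 n4
    exact i6 ζ (by rw [w1, n5, zero_smul]) n5
  -- the normal vector does not vanish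
  have hb : T'ᗮ.orthogonalProjectionOnto (wpt T g ρ z₀ - ρ z₀ • y) ≠ 0 := by
    intro hb0
    have hP0 : T'.orthogonalProjectionOnto (wpt T g ρ z₀ - ρ z₀ • y) = 0 := by
      rw [I1, hb0]
      unfold nrm
      simp
    have h0 : wpt T g ρ z₀ - ρ z₀ • y = 0 := by
      rw [← leaf_limit_split T' (wpt T g ρ z₀ - ρ z₀ • y), hP0, hb0]; simp
    have a1 : ‖wpt T g ρ z₀ - ρ z₀ • y‖ ^ 2 = ‖nvec T g z₀‖ ^ 2 := by
      rw [← hwx, norm_sub_sq_real, norm_sub_sq_real, inner_smul_right, inner_smul_right, norm_smul,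
        norm_smul, mul_pow, mul_pow, Real.norm_eq_abs, sq_abs]
      unfold fam at Fc
      simp only at Fc
      linear_combination (-2 * ρ z₀) * Fc
    rw [h0, norm_zero] at a1
    have a2 : ‖nvec T g z₀‖ ^ 2 = 0 := by rw [← a1]; norm_num
    exact i5 (norm_eq_zero.1 (pow_eq_zero_iff two_ne_zero |>.1 a2))
  have hcr : y ∈ critSet M (fam (wpt T g ρ z₀, ρ z₀)) := (leaf_limit_crit hc' y hyM hyV _).2 I1
  have hD0E := (K (Xf T ρ e z₀)).1
  have hD1E := (K (Xf T ρ e z₀)).2.1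
  rw [hylX] at hD0E hD1E
  rw [hxlX] at hD1E
  refine ⟨hcr, hb, ?_, ?_⟩
  · intro hP0
    rw [hP0, map_zero] at hD0E
    apply hE1
    rw [← leaf_limit_split T' (circE (e z₀) (qf T ρ e z₀) s₁), hP0, hD0E]; simp
  · -- the kernel
    have hA : ∀ b : T'ᗮ, nrm g' (T'.orthogonalProjectionOnto y) b =
        leaf_limit_A g' (T'.orthogonalProjectionOnto y) b := fun b => rfl
    have hL : ∀ u : T', Lop g' (T'.orthogonalProjectionOnto y)
        (T'ᗮ.orthogonalProjectionOnto (wpt T g ρ z₀ - ρ z₀ • y)) (ρ z₀) u =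
        ρ z₀ • (u + nrm g' (T'.orthogonalProjectionOnto y) (fderiv ℝ g' (T'.orthogonalProjectionOnto y) u)) -
        Hop g' (T'.orthogonalProjectionOnto y)
          (T'ᗮ.orthogonalProjectionOnto (wpt T g ρ z₀ - ρ z₀ • y)) u := by
      intro u
      simp [Lop, Gop, nrm]
    intro u
    constructor
    · intro hu
      -- surjectivity
      let Φ : (T × Tᗮ) →ₗ[ℝ] (T' × T'ᗮ) :=
        ((T'.orthogonalProjectionOnto : Eu n →L[ℝ] T').toLinearMap.comp yl).prod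
          ((T'ᗮ.orthogonalProjectionOnto : Eu n →L[ℝ] T'ᗮ).toLinearMap.comp xl)
      have hΦ : ∀ ζ, Φ ζ = (T'.orthogonalProjectionOnto (yl ζ), T'ᗮ.orthogonalProjectionOnto (xl ζ)) :=
        fun ζ => rfl
      have hinj : Function.Injective Φ := by
        rw [← LinearMap.ker_eq_bot, LinearMap.ker_eq_bot']
        intro ζ hζ
        rw [hΦ] at hζ
        have z1 : T'.orthogonalProjectionOnto (yl ζ) = 0 := congrArg Prod.fst hζ
        have z2 : T'ᗮ.orthogonalProjectionOnto (xl ζ) = 0 := congrArg Prod.snd hζ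
        have z3 := (K ζ).1
        have z4 := (K ζ).2.1
        rw [z1, map_zero] at z3
        rw [z1, z2, hA, map_zero, map_zero, add_zero, neg_zero] at z4
        have z5 : yl ζ = 0 := by
          rw [← leaf_limit_split T' (yl ζ), z1, z3]; simp
        have z6 : xl ζ = 0 := by
          rw [← leaf_limit_split T' (xl ζ), z4, z2]; simp
        obtain ⟨r, hr⟩ := st4 ζ (by rw [z5, z6]; simp)
        have z7 : r • circE (e z₀) (qf T ρ e z₀) s₁ = 0 := by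
          rw [← hylX, ← map_smul, ← hr, z5]
        rcases smul_eq_zero.1 z7 with h0 | h0
        · rw [hr, h0, zero_smul]
        · exact absurd h0 hE1
      have hfr : Module.finrank ℝ (T × Tᗮ) = Module.finrank ℝ (T' × T'ᗮ) := by
        rw [Module.finrank_prod, Module.finrank_prod, Submodule.finrank_add_finrank_orthogonal,
          Submodule.finrank_add_finrank_orthogonal]
      have hsurj : Function.Surjective Φ :=
        (LinearMap.injective_iff_surjective_of_finrank_eq_finrank hfr).1 hinj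
      obtain ⟨ζ, hζ⟩ := hsurj (u, -(ρ z₀ • fderiv ℝ g' (T'.orthogonalProjectionOnto y) u))
      rw [hΦ] at hζ
      have z1 : T'.orthogonalProjectionOnto (yl ζ) = u := congrArg Prod.fst hζ
      have z2 : T'ᗮ.orthogonalProjectionOnto (xl ζ) =
        -(ρ z₀ • fderiv ℝ g' (T'.orthogonalProjectionOnto y) u) := congrArg Prod.snd hζ
      have z3 := (K ζ).1
      have z4 := (K ζ).2.1
      rw [z1] at z3
      rw [z1, z2, hA, map_neg, map_smul] at z4
      rw [hL, hA] at hu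
      have z5 : T'.orthogonalProjectionOnto (xl ζ) = -(ρ z₀ • u) := by
        rw [z4]
        have : Hop g' (T'.orthogonalProjectionOnto y)
          (T'ᗮ.orthogonalProjectionOnto (wpt T g ρ z₀ - ρ z₀ • y)) u = ρ z₀ • (u +
            leaf_limit_A g' (T'.orthogonalProjectionOnto y) (fderiv ℝ g' (T'.orthogonalProjectionOnto y) u)) :=
          (sub_eq_zero.1 hu).symm
        rw [this]
        module
      obtain ⟨r, hr⟩ := st4 ζ (by
        rw [← leaf_limit_split T' (xl ζ), z5, z2, ← leaf_limit_split T' (yl ζ), z1, z3]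
        simp only [Submodule.coe_neg, Submodule.coe_smul]
        module)
      refine ⟨r, ?_⟩
      rw [← z1, hr, map_smul, map_smul, hylX]
    · rintro ⟨r, rfl⟩
      rw [map_smul, hL, ← hD0E]
      rw [hA] at hD1E ⊢
      have z1 : Hop g' (T'.orthogonalProjectionOnto y)
          (T'ᗮ.orthogonalProjectionOnto (wpt T g ρ z₀ - ρ z₀ • y))
          (T'.orthogonalProjectionOnto (circE (e z₀) (qf T ρ e z₀) s₁)) =
          ρ z₀ • (T'.orthogonalProjectionOnto (circE (e z₀) (qf T ρ e z₀) s₁) +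
            leaf_limit_A g' (T'.orthogonalProjectionOnto y)
              (T'ᗮ.orthogonalProjectionOnto (circE (e z₀) (qf T ρ e z₀) s₁))) := by
        simp only [map_neg, map_smul] at hD1E
        have := neg_eq_iff_eq_neg.1 hD1E
        rw [neg_neg] at this
        rw [smul_add, this]
        module
      rw [z1, sub_self, smul_zero]

end

end Pool.Agent.H469

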