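import Pool.Agent.Helper469_Dupin.DefsB
import Pool.Agent.Helper469_Dupin.Jbrcrit
import Pool.Agent.Helper469_Dupin.Jfamd

set_option autoImplicit false

open Set Filter Topology MeasureTheory
open scoped ContDiff InnerProductSpace

namespace Pool.Agent.H469


/-! PLAIN PROOF OF THE TARGET(S)

x = xpt z = cmap T g z.1 ∈ V, P x = z.1 ∈ O, Q x = g(z.1), so x ∈ M by hc.mem.  By br_crit (f = fam p, p = (nvec z + ε x, ε), smooth) we need
D(fam p ∘ cmap)(z.1) = 0.  fam_d1: this is u ↦ <P p.1 - ε a + nrm g a (Q p.1 - ε g a), u> with a = z.1: P p.1 = -nrm g a b + ε a,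
Q p.1 = b + ε g a (b = z.2), so the vector is -nrm g a b + nrm g a b = 0.
-/

section
variable {n m : ℕ} {M : Set (Eu n)} {T : Submodule ℝ (Eu n)} {g : T → Tᗮ} {O : Set T} {V : Set (Eu n)}
  {N : Set (T × Tᗮ)} {ρ : T × Tᗮ → ℝ} {e : T × Tᗮ → Eu n}

theorem leaf_crit_P (T : Submodule ℝ (Eu n)) (a : T) (b : Tᗮ) :
    T.orthogonalProjectionOnto ((a : Eu n) + (b : Eu n)) = a := by
  rw [map_add, Submodule.orthogonalProjectionOnto_mem_subspace_eq_self,
    Submodule.orthogonalProjectionOnto_apply_of_mem_orthogonal b.2, add_zero]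

theorem leaf_crit_Q (T : Submodule ℝ (Eu n)) (a : T) (b : Tᗮ) :
    Tᗮ.orthogonalProjectionOnto ((a : Eu n) + (b : Eu n)) = b := by
  rw [map_add, Submodule.orthogonalProjectionOnto_mem_subspace_eq_self,
    Submodule.orthogonalProjectionOnto_orthogonal_apply_eq_zero a.2, zero_add]

/-- TARGET -/
theorem leaf_crit (hc : IsChart ∞ m M T g O V) (z : T × Tᗮ) (hz : z.1 ∈ O) (hV : cmap T g z.1 ∈ V)
    (ε : ℝ) : xpt T g z ∈ critSet M (fam (nvec T g z + ε • xpt T g z, ε)) := by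
  have hP : T.orthogonalProjectionOnto (xpt T g z) = z.1 := leaf_crit_P T z.1 (g z.1)
  have hQ : Tᗮ.orthogonalProjectionOnto (xpt T g z) = g z.1 := leaf_crit_Q T z.1 (g z.1)
  have hPn : T.orthogonalProjectionOnto (nvec T g z) = -(nrm g z.1 z.2) :=
    leaf_crit_P T _ z.2
  have hQn : Tᗮ.orthogonalProjectionOnto (nvec T g z) = z.2 :=
    leaf_crit_Q T _ z.2
  have hM : xpt T g z ∈ M := by
    have h1 := (hc.mem (xpt T g z) hV).2
    rw [hP, hQ] at h1
    exact h1.2 rfl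
  have hf : ContDiff ℝ ∞ (fam (nvec T g z + ε • xpt T g z, ε)) := by
    unfold fam
    exact (contDiff_const.inner ℝ contDiff_id).sub
      ((contDiff_const.mul (contDiff_id.norm_sq ℝ)).div_const _)
  rw [br_crit hc (xpt T g z) hM hV _ hf, hP]
  ext u
  rw [fam_d1 g O hc.openO hc.smooth z.1 hz]
  have h2 : T.orthogonalProjectionOnto (nvec T g z + ε • xpt T g z) = -(nrm g z.1 z.2) + ε • z.1 := by
    rw [map_add, map_smul, hP, hPn]
  have h3 : Tᗮ.orthogonalProjectionOnto (nvec T g z + ε • xpt T g z) = z.2 + ε • g z.1 := by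
    rw [map_add, map_smul, hQ, hQn]
  simp only [h2, h3]
  have h4 : -(nrm g z.1 z.2) + ε • z.1 - ε • z.1 + nrm g z.1 (z.2 + ε • g z.1 - ε • g z.1) = 0 := by
    rw [add_sub_cancel_right, add_sub_cancel_right, neg_add_cancel]
  rw [h4, inner_zero_left]
  rfl

end

end Pool.Agent.H469
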