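import Pool.Agent.Helper469_Dupin.DefsB
import Pool.Agent.Helper469_Dupin.Jbcirc

set_option autoImplicit false

open Set Filter Topology MeasureTheory
open scoped ContDiff InnerProductSpace

namespace Pool.Agent.H469


/-! PLAIN PROOF OF THE TARGET(S)

k := |Q 0|².  First |Q t| is constant: (|Q|²)' = 2<Q, -2|Q|² E> = 0 (h2), so |Q t|² = k on (-δ,δ).  If k > 0 put K = |Q 0|,
τ(s) = arctan(K s)/K, if k = 0 put τ(s) = s.  Then τ(0) = 0, τ'(s) = 1/(1+s²k), |τ(s)| ≤ |s|.  For |s| < δ let t = τ(s).  Claim the three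
identities.  Both curves s ↦ (X,E,Q)(τ s) and s ↦ (circ, circE, circQ)(s) (with x = X 0, e = E 0, q = Q 0) solve on (-δ,δ) the linear
system  x' = E/(1+s²k), E' = 2Q/(1+s²k), Q' = -2k E/(1+s²k) (circ_deriv; k is the constant |Q 0|²) with the same initial values at s = 0;
use ODE uniqueness (`ODE_solution_unique_of_mem_Ioo`, right hand side is Lipschitz in (x,E,Q) with a constant independent of s since
0 < 1/(1+s²k) ≤ 1), or directly: u = E∘τ - circE, v = Q∘τ - circQ satisfy (k|u|² + |v|²)' = 0 and, when k = 0, treat Q constant,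
E linear, X quadratic by hand.
-/

section
variable {n : ℕ}

/-- a function with vanishing derivative on a symmetric interval is constant -/
theorem circle_ode_const {G : Type} [NormedAddCommGroup G] [NormedSpace ℝ G] (f : ℝ → G) (δ : ℝ)
    (hδ : 0 < δ) (h : ∀ s ∈ Ioo (-δ) δ, HasDerivAt f 0 s) : ∀ s ∈ Ioo (-δ) δ, f s = f 0 := by
  intro s hs
  have h0 : (0 : ℝ) ∈ Ioo (-δ) δ := ⟨by linarith, hδ⟩
  have h1 := Convex.norm_image_sub_le_of_norm_hasDerivWithin_le (f := f) (f' := fun _ => (0 : G))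
    (C := 0) (s := Ioo (-δ) δ) (fun x hx => (h x hx).hasDerivWithinAt) (fun x _ => by simp)
    (convex_Ioo _ _) h0 hs
  rw [zero_mul] at h1
  exact sub_eq_zero.1 (norm_le_zero_iff.1 h1)

/-- TARGET -/
theorem circle_ode (X E Q : ℝ → Eu n) (δ : ℝ) (hδ : 0 < δ)
    (hX : ∀ t ∈ Ioo (-δ) δ, HasDerivAt X (E t) t)
    (hE : ∀ t ∈ Ioo (-δ) δ, HasDerivAt E ((2 : ℝ) • Q t) t)
    (hQ : ∀ t ∈ Ioo (-δ) δ, HasDerivAt Q (-((2 * ‖Q t‖ ^ 2) • E t)) t)
    (h1 : ∀ t ∈ Ioo (-δ) δ, ‖E t‖ = 1) (h2 : ∀ t ∈ Ioo (-δ) δ, ⟪E t, Q t⟫_ℝ = 0)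
    (s : ℝ) (hs : |s| < δ) :
    ∃ t ∈ Ioo (-δ) δ, X t = circ (X 0) (E 0) (Q 0) s ∧ E t = circE (E 0) (Q 0) s ∧
      Q t = circQ (E 0) (Q 0) s := by
  have h00 : (0 : ℝ) ∈ Ioo (-δ) δ := ⟨by linarith, hδ⟩
  have hQk : ∀ t ∈ Ioo (-δ) δ, ‖Q t‖ ^ 2 = ‖Q 0‖ ^ 2 := by
    intro t ht
    have h3 := circle_ode_const (fun t => ⟪Q t, Q t⟫_ℝ) δ hδ (fun t ht => by
      have h4 := (hQ t ht).inner ℝ (hQ t ht)
      have h5 : ⟪Q t, -((2 * ‖Q t‖ ^ 2) • E t)⟫_ℝ + ⟪-((2 * ‖Q t‖ ^ 2) • E t), Q t⟫_ℝ = 0 := by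
        rw [inner_neg_right, inner_neg_left, inner_smul_right, inner_smul_left,
          real_inner_comm (E t) (Q t), h2 t ht]
        simp
      rw [h5] at h4
      exact h4) t ht
    simp only [real_inner_self_eq_norm_sq] at h3
    exact h3
  have hpos : ∀ s : ℝ, 0 < 1 + s ^ 2 * ‖Q 0‖ ^ 2 := fun s => by positivity
  have hcont : Continuous fun r : ℝ => (1 + r ^ 2 * ‖Q 0‖ ^ 2)⁻¹ :=
    Continuous.inv₀ (by fun_prop) (fun r => (hpos r).ne')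
  obtain ⟨τ, hτ, hτ0, hτle⟩ : ∃ τ : ℝ → ℝ, (∀ s, HasDerivAt τ ((1 + s ^ 2 * ‖Q 0‖ ^ 2)⁻¹) s) ∧
      τ 0 = 0 ∧ ∀ s, |τ s| ≤ |s| := by
    refine ⟨fun s => ∫ r in (0 : ℝ)..s, (1 + r ^ 2 * ‖Q 0‖ ^ 2)⁻¹, fun s => ?_, ?_, fun s => ?_⟩
    · exact intervalIntegral.integral_hasDerivAt_right (hcont.intervalIntegrable _ _)
        (hcont.stronglyMeasurableAtFilter _ _) hcont.continuousAt
    · exact intervalIntegral.integral_same
    · have h3 := intervalIntegral.norm_integral_le_of_norm_le_const (a := 0) (b := s) (C := 1)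
        (f := fun r : ℝ => (1 + r ^ 2 * ‖Q 0‖ ^ 2)⁻¹) (fun r _ => by
          rw [Real.norm_of_nonneg (inv_nonneg.2 (hpos r).le)]
          exact inv_le_one_of_one_le₀ (by nlinarith [sq_nonneg r, sq_nonneg ‖Q 0‖, mul_nonneg (sq_nonneg r) (sq_nonneg ‖Q 0‖)]))
      rw [one_mul, sub_zero] at h3
      exact h3
  have hτm : ∀ s ∈ Ioo (-δ) δ, τ s ∈ Ioo (-δ) δ := fun s hs => by
    have h3 : |s| < δ := abs_lt.2 hs
    exact abs_lt.1 (lt_of_le_of_lt (hτle s) h3)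
  have hQd : ∀ s ∈ Ioo (-δ) δ, HasDerivAt (fun s => Q (τ s) - circQ (E 0) (Q 0) s)
      (-((2 * ‖Q 0‖ ^ 2 * (1 + s ^ 2 * ‖Q 0‖ ^ 2)⁻¹) • (E (τ s) - circE (E 0) (Q 0) s))) s := by
    intro s hs
    have h3 := HasDerivAt.scomp s (hQ (τ s) (hτm s hs)) (hτ s)
    have h4 := (circ_deriv (X 0) (E 0) (Q 0) s).2.2
    have h5 := h3.sub h4
    rw [hQk (τ s) (hτm s hs)] at h5
    refine HasDerivAt.congr_deriv h5 ?_
    module
  have hEd : ∀ s ∈ Ioo (-δ) δ, HasDerivAt (fun s => E (τ s) - circE (E 0) (Q 0) s)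
      ((2 * (1 + s ^ 2 * ‖Q 0‖ ^ 2)⁻¹) • (Q (τ s) - circQ (E 0) (Q 0) s)) s := by
    intro s hs
    have h3 := HasDerivAt.scomp s (hE (τ s) (hτm s hs)) (hτ s)
    have h4 := (circ_deriv (X 0) (E 0) (Q 0) s).2.1
    have h5 := h3.sub h4
    refine HasDerivAt.congr_deriv h5 ?_
    module
  have hXd : ∀ s ∈ Ioo (-δ) δ, HasDerivAt (fun s => X (τ s) - circ (X 0) (E 0) (Q 0) s)
      ((1 + s ^ 2 * ‖Q 0‖ ^ 2)⁻¹ • (E (τ s) - circE (E 0) (Q 0) s)) s := by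
    intro s hs
    have h3 := HasDerivAt.scomp s (hX (τ s) (hτm s hs)) (hτ s)
    have h4 := (circ_deriv (X 0) (E 0) (Q 0) s).1
    have h5 := h3.sub h4
    refine HasDerivAt.congr_deriv h5 ?_
    module
  have c0 : circ (X 0) (E 0) (Q 0) 0 = X 0 := by simp [circ]
  have cE0 : circE (E 0) (Q 0) 0 = E 0 := by simp [circE]
  have cQ0 : circQ (E 0) (Q 0) 0 = Q 0 := by simp [circQ]
  have hv : ∀ s ∈ Ioo (-δ) δ, Q (τ s) - circQ (E 0) (Q 0) s = 0 := by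
    intro s hs
    have h3 := circle_ode_const (fun s => ‖Q 0‖ ^ 2 * ⟪E (τ s) - circE (E 0) (Q 0) s,
        E (τ s) - circE (E 0) (Q 0) s⟫_ℝ + ⟪Q (τ s) - circQ (E 0) (Q 0) s,
        Q (τ s) - circQ (E 0) (Q 0) s⟫_ℝ) δ hδ (fun s hs => by
      have h4 := (((hEd s hs).inner ℝ (hEd s hs)).const_mul (‖Q 0‖ ^ 2)).add
        ((hQd s hs).inner ℝ (hQd s hs))
      refine HasDerivAt.congr_deriv h4 ?_
      simp only [inner_neg_right, inner_neg_left, real_inner_smul_right, real_inner_smul_left]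
      rw [real_inner_comm (E (τ s) - circE (E 0) (Q 0) s) (Q (τ s) - circQ (E 0) (Q 0) s)]
      ring) s hs
    simp only [hτ0, cE0, cQ0, sub_self, inner_zero_left, mul_zero, add_zero,
      real_inner_self_eq_norm_sq] at h3
    have h4 : 0 ≤ ‖Q 0‖ ^ 2 * ‖E (τ s) - circE (E 0) (Q 0) s‖ ^ 2 := by positivity
    have h5 : ‖Q (τ s) - circQ (E 0) (Q 0) s‖ ^ 2 = 0 := by
      have : 0 ≤ ‖Q (τ s) - circQ (E 0) (Q 0) s‖ ^ 2 := by positivity
      linarith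
    exact norm_eq_zero.1 (pow_eq_zero_iff (by norm_num) |>.1 h5)
  have hu : ∀ s ∈ Ioo (-δ) δ, E (τ s) - circE (E 0) (Q 0) s = 0 := by
    intro s hs
    have h3 := circle_ode_const (fun s => E (τ s) - circE (E 0) (Q 0) s) δ hδ (fun s hs => by
      have h4 := hEd s hs
      rw [hv s hs, smul_zero] at h4
      exact h4) s hs
    simp only [hτ0, cE0, sub_self] at h3
    exact h3
  have hw : ∀ s ∈ Ioo (-δ) δ, X (τ s) - circ (X 0) (E 0) (Q 0) s = 0 := by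
    intro s hs
    have h3 := circle_ode_const (fun s => X (τ s) - circ (X 0) (E 0) (Q 0) s) δ hδ (fun s hs => by
      have h4 := hXd s hs
      rw [hu s hs, smul_zero] at h4
      exact h4) s hs
    simp only [hτ0, c0, sub_self] at h3
    exact h3
  have hs' : s ∈ Ioo (-δ) δ := abs_lt.1 hs
  exact ⟨τ s, hτm s hs', sub_eq_zero.1 (hw s hs'), sub_eq_zero.1 (hu s hs'), sub_eq_zero.1 (hv s hs')⟩

end

end Pool.Agent.H469
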