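import Mathlib
import Pool.Agent.Helper469_Dupin.DefsB
import Pool.Agent.Helper469_Dupin.Jbode
import Pool.Agent.Helper469_Dupin.Jbid
import Pool.Agent.Helper469_Dupin.Jbdq
import Pool.Agent.Helper469_Dupin.Jbcrit2

set_option autoImplicit false

open Set Filter Topology MeasureTheory
open scoped ContDiff InnerProductSpace

namespace Pool.Agent.H469


theorem leaf_local_flow {E : Type} [NormedAddCommGroup E] [NormedSpace ℝ E] [CompleteSpace E]
    (f : E → E) (N : Set E) (hN : IsOpen N) (x₀ : E) (hx₀ : x₀ ∈ N) (hf : ContDiffAt ℝ 1 f x₀) :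
    ∃ (N' : Set E) (δ : ℝ), 0 < δ ∧ IsOpen N' ∧ x₀ ∈ N' ∧ N' ⊆ N ∧
      ∀ x ∈ N', ∃ α : ℝ → E, α 0 = x ∧
        ∀ t ∈ Ioo (-δ) δ, α t ∈ N ∧ HasDerivAt α (f (α t)) t := by
  obtain ⟨ε, hε, a, r, L, K, hr, hpl⟩ := IsPicardLindelof.of_contDiffAt_one hf
  obtain ⟨α, hα, hcont⟩ :=
    (hpl 0).exists_forall_mem_closedBall_eq_hasDerivWithinAt_continuousOn
  have h0 : x₀ ∈ Metric.closedBall x₀ r :=
    Metric.mem_closedBall_self (le_of_lt (by exact_mod_cast hr))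
  have hnb : Metric.closedBall x₀ r ×ˢ Icc (0 - ε) (0 + ε) ∈ 𝓝 (x₀, (0 : ℝ)) :=
    prod_mem_nhds (Metric.closedBall_mem_nhds x₀ (by exact_mod_cast hr))
      (Icc_mem_nhds (by linarith) (by linarith))
  have hc0 : ContinuousAt α (x₀, (0 : ℝ)) := hcont.continuousAt hnb
  have hv : α (x₀, (0 : ℝ)) = x₀ := (hα x₀ h0).1
  have hpre : α ⁻¹' N ∈ 𝓝 (x₀, (0 : ℝ)) := by
    apply hc0
    rw [hv]
    exact hN.mem_nhds hx₀
  obtain ⟨u, v, hu, hxu, hvo, h0v, huv⟩ := mem_nhds_prod_iff'.1 (Filter.inter_mem hpre hnb)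
  obtain ⟨δ, hδ, hδv⟩ := Metric.isOpen_iff.1 hvo 0 h0v
  have hsub : ∀ t ∈ Ioo (-δ) δ, t ∈ v := by
    intro t ht
    apply hδv
    rw [Real.ball_eq_Ioo]
    simpa using ht
  refine ⟨u ∩ N, δ, hδ, hu.inter hN, ⟨hxu, hx₀⟩, inter_subset_right, ?_⟩
  rintro x ⟨hxu', hxN⟩
  have hxb : x ∈ Metric.closedBall x₀ r := (huv (mk_mem_prod hxu' h0v)).2.1
  refine ⟨fun t => α (x, t), (hα x hxb).1, fun t ht => ?_⟩
  have htv := hsub t ht
  refine ⟨(huv (mk_mem_prod hxu' htv)).1, ?_⟩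
  have hI : t ∈ Icc (0 - ε) (0 + ε) := (huv (mk_mem_prod hxu' htv)).2.2
  have hIn : Icc (0 - ε) (0 + ε) ∈ 𝓝 t := by
    have : v ⊆ Icc (0 - ε) (0 + ε) := fun s hs => (huv (mk_mem_prod hxu' hs)).2.2
    exact Filter.mem_of_superset (hvo.mem_nhds htv) this
  exact ((hα x hxb).2 t hI).hasDerivAt hIn

section
variable {n m : ℕ} {M : Set (Eu n)} {T : Submodule ℝ (Eu n)} {g : T → Tᗮ} {O : Set T} {V : Set (Eu n)}
  {N : Set (T × Tᗮ)} {ρ : T × Tᗮ → ℝ} {e : T × Tᗮ → Eu n}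

theorem leaf_local_open (hc : IsChart ∞ m M T g O V) :
    IsOpen {a | a ∈ O ∧ cmap T g a ∈ V} := by
  have hg : ContinuousOn g O := hc.smooth.continuousOn
  have : ContinuousOn (cmap T g) O := by
    unfold cmap
    exact (continuous_subtype_val.continuousOn).add (continuous_subtype_val.comp_continuousOn hg)
  exact this.isOpen_inter_preimage hc.openO hc.openV

/-- TARGET -/
theorem leaf_local (hc : IsChart ∞ m M T g O V)
    (h : LeafPre T g {a | a ∈ O ∧ cmap T g a ∈ V} N ρ e) (z₀ : T × Tᗮ) (hz : z₀ ∈ N) :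
    ∃ (N' : Set (T × Tᗮ)) (δ : ℝ), N' ⊆ N ∧ IsOpen N' ∧ z₀ ∈ N' ∧ 0 < δ ∧
      ∀ z ∈ N', ∀ s : ℝ, |s| < δ →
        circ (xpt T g z) (e z) (qf T ρ e z) s ∈ critSet M (fam (wpt T g ρ z, ρ z)) := by
  have hO' : IsOpen {a | a ∈ O ∧ cmap T g a ∈ V} := leaf_local_open hc
  have hg' : ContDiffOn ℝ ∞ g {a | a ∈ O ∧ cmap T g a ∈ V} := hc.smooth.mono (fun a ha => ha.1)
  obtain ⟨sx, sn, sw, sX, sq⟩ := leaf_smooth hO' hg' h
  have hdiff : ∀ {F : Type} [NormedAddCommGroup F] [NormedSpace ℝ F] {k : T × Tᗮ → F},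
      ContDiffOn ℝ ∞ k N → ∀ z ∈ N, HasFDerivAt k (fderiv ℝ k z) z := by
    intro F _ _ k hk z hz
    exact ((hk.contDiffAt (h.openN.mem_nhds hz)).differentiableAt (by simp)).hasFDerivAt
  have hX1 : ContDiffAt ℝ 1 (Xf T ρ e) z₀ :=
    (sX.contDiffAt (h.openN.mem_nhds hz)).of_le (by exact_mod_cast le_top)
  obtain ⟨N', δ, hδ, hN'o, hz₀, hN'N, hflow⟩ := leaf_local_flow (Xf T ρ e) N h.openN z₀ hz hX1
  refine ⟨N', δ, hN'N, hN'o, hz₀, hδ, ?_⟩
  intro z hzN' s hs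
  obtain ⟨α, hα0, hα⟩ := hflow z hzN'
  have key : ∀ {F : Type} [NormedAddCommGroup F] [NormedSpace ℝ F] {k : T × Tᗮ → F},
      ContDiffOn ℝ ∞ k N → ∀ t ∈ Ioo (-δ) δ,
        HasDerivAt (fun t => k (α t)) (fderiv ℝ k (α t) (Xf T ρ e (α t))) t := by
    intro F _ _ k hk t ht
    exact (hdiff hk (α t) (hα t ht).1).comp_hasDerivAt t (hα t ht).2
  have hX : ∀ t ∈ Ioo (-δ) δ, HasDerivAt (fun t => xpt T g (α t)) (e (α t)) t := by
    intro t ht
    have h1 := key sx t ht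
    rwa [(leaf_id hO' hg' h (α t) (hα t ht).1).1] at h1
  have hE : ∀ t ∈ Ioo (-δ) δ,
      HasDerivAt (fun t => e (α t)) ((2 : ℝ) • qf T ρ e (α t)) t := by
    intro t ht
    have h1 := key h.sme t ht
    have h2 : (2 : ℝ) • qf T ρ e (α t) = fderiv ℝ e (α t) (Xf T ρ e (α t)) := by
      unfold qf
      rw [smul_smul]
      norm_num
    rwa [h2]
  have hQ : ∀ t ∈ Ioo (-δ) δ, HasDerivAt (fun t => qf T ρ e (α t))
      (-((2 * ‖qf T ρ e (α t)‖ ^ 2) • e (α t))) t := by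
    intro t ht
    have h1 := key sq t ht
    rwa [leaf_dq hO' hg' h (α t) (hα t ht).1] at h1
  obtain ⟨t, ht, hXt, -, -⟩ := circle_ode (fun t => xpt T g (α t)) (fun t => e (α t))
    (fun t => qf T ρ e (α t)) δ hδ hX hE hQ (fun t ht => h.unit _ (hα t ht).1)
    (fun t ht => (leaf_id hO' hg' h (α t) (hα t ht).1).2.2.2.1) s hs
  have h0 : (0 : ℝ) ∈ Ioo (-δ) δ := ⟨by linarith, hδ⟩
  have hconst : ∀ {F : Type} [NormedAddCommGroup F] [NormedSpace ℝ F] {k : T × Tᗮ → F},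
      ContDiffOn ℝ ∞ k N → (∀ z ∈ N, fderiv ℝ k z (Xf T ρ e z) = 0) → k (α t) = k (α 0) := by
    intro F _ _ k hk h0' 
    have hd : ∀ t ∈ Ioo (-δ) δ, HasDerivAt (fun t => k (α t)) 0 t := by
      intro t ht
      have := key hk t ht
      rwa [h0' _ (hα t ht).1] at this
    refine isOpen_Ioo.is_const_of_deriv_eq_zero (isPreconnected_Ioo)
      (fun t ht => (hd t ht).differentiableAt.differentiableWithinAt)
      (fun t ht => (hd t ht).deriv) ht h0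
  have hw : wpt T g ρ (α t) = wpt T g ρ z := by
    rw [← hα0]
    exact hconst sw (fun z hz => (leaf_id hO' hg' h z hz).2.2.1)
  have hr : ρ (α t) = ρ z := by
    rw [← hα0]
    exact hconst h.smr h.dr
  have hmem := h.sub (α t) (hα t ht).1
  have hcr := leaf_crit hc (α t) hmem.1.1 hmem.1.2 (ρ (α t))
  have hXt' : xpt T g (α t) = circ (xpt T g z) (e z) (qf T ρ e z) s := by
    have := hXt
    beta_reduce at this
    rw [hα0] at this
    exact this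
  rw [← hXt', ← hw, ← hr]
  exact hcr

end

end Pool.Agent.H469
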