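import Mathlib

set_option autoImplicit false

open Set Filter Topology MeasureTheory
open scoped ContDiff InnerProductSpace

namespace Pool.Agent.H469


/-! PLAIN PROOF OF THE TARGET(S)

Let K0 = ker L(z0,e0) (dim c), P0 the orthogonal projection onto K0, L0 = L(z0,e0).  L0 is symmetric, so F = K0 + range L0 and
Lt(p) := L p + P0 is invertible at p = (z0,e0), hence (units are open, inversion is smooth) invertible on a neighbourhood, with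
p ↦ Lt(p)^{-1} smooth (`ContDiffAt.clm_inverse`/`contDiffAt_map_inverse`, `ContinuousLinearMap.inverse`).
Semicontinuity: if Lt(p) is injective then P0 is injective on ker L(p), so dim ker L(p) ≤ c.
Fix a unit vector k1 in K0 and put kap(p) := Lt(p)^{-1} k1, theta(p) := <L(p) kap(p), k1>.  Facts:
(a) L(p) kap(p) = k1 - P0 kap(p) lies in K0.
(b) if dim ker L(p) = c then P0 : ker L(p) → K0 is bijective, so there is u in ker L(p) with Lt(p) u = P0 u = k1, so kap(p) = u,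
    L(p) kap(p) = 0 and theta(p) = 0.
(c) kap(z0,e0) = k1, and d/de theta at (z0,e0) = <(d/de L) k1, k1> + <L0 (d/de kap), k1> = <(d/de L) k1,k1> > 0 (L0 k1 = 0, symmetry).
By the implicit function theorem the zero set of theta near (z0,e0) is the graph of a smooth function rho on a neighbourhood N.
(Convenient: apply the inverse function theorem to Φ(z,e) = (z, theta(z,e)), `ContDiffAt.toOpenPartialHomeomorph`, the derivative of Φ is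
invertible at all points near (z0,e0), so the local inverse is smooth near Φ(z0,e0) (`OpenPartialHomeomorph.contDiffAt_symm`);
rho(z) := second component of the inverse at (z,0).)  Choose δ and then N small so that N × (e0-δ,e0+δ) lies in the source of
the chart, in Ω and in the set where Lt is invertible and |rho - e0| < δ on N.
For c = 1: K0 = R k1, so by (a) L(p)kap(p) = theta(p) k1, so L(z,rho z) kap(z,rho z) = 0, and P0 kap(z, rho z) = k1 (by (a) again),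
so kap(z,rho z) ≠ 0; since the kernel has dimension ≤ 1 it is spanned by kap(z,rho z).  For k0 = r k1 put κ z = r • kap(z, rho z).
-/

section

theorem lh_equiv {Z : Type} [NormedAddCommGroup Z] [NormedSpace ℝ Z] (T : Z × ℝ →L[ℝ] ℝ)
    (hT : T (0, 1) ≠ 0) : ∃ e : (Z × ℝ) ≃L[ℝ] (Z × ℝ),
      (e : Z × ℝ →L[ℝ] Z × ℝ) = (ContinuousLinearMap.fst ℝ Z ℝ).prod T := by
  set a : ℝ := T (0, 1) with ha
  let f₁ : Z × ℝ →L[ℝ] Z × ℝ := (ContinuousLinearMap.fst ℝ Z ℝ).prod T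
  let f₂ : Z × ℝ →L[ℝ] Z × ℝ := (ContinuousLinearMap.fst ℝ Z ℝ).prod
    (a⁻¹ • (ContinuousLinearMap.snd ℝ Z ℝ -
      T.comp ((ContinuousLinearMap.inl ℝ Z ℝ).comp (ContinuousLinearMap.fst ℝ Z ℝ))))
  have hTs : ∀ (v : Z) (s : ℝ), T (v, s) = T (v, 0) + s * a := by
    intro v s
    have h1 : ((v, s) : Z × ℝ) = (v, 0) + s • ((0, 1) : Z × ℝ) := by
      ext <;> simp
    rw [h1, map_add, map_smul, smul_eq_mul]
  refine ⟨ContinuousLinearEquiv.equivOfInverse f₁ f₂ ?_ ?_, rfl⟩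
  · rintro ⟨v, s⟩
    change (v, a⁻¹ • (T (v, s) - T (v, 0))) = (v, s)
    rw [hTs v s, add_sub_cancel_left, smul_eq_mul]
    congr 1
    field_simp
  · rintro ⟨w, t⟩
    change (w, T (w, a⁻¹ • (t - T (w, 0)))) = (w, t)
    rw [hTs w, smul_eq_mul]
    congr 1
    field_simp
    ring

theorem lh_ift {Z : Type} [NormedAddCommGroup Z] [NormedSpace ℝ Z] [FiniteDimensional ℝ Z]
    (θ : Z × ℝ → ℝ) (Ω : Set (Z × ℝ)) (hΩ : IsOpen Ω) (hθ : ContDiffOn ℝ ∞ θ Ω)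
    (z₀ : Z) (ε₀ : ℝ) (h0 : (z₀, ε₀) ∈ Ω) (hz : θ (z₀, ε₀) = 0)
    (hd : fderiv ℝ θ (z₀, ε₀) (0, 1) ≠ 0) :
    ∃ (N : Set Z) (δ : ℝ) (ρ : Z → ℝ), IsOpen N ∧ z₀ ∈ N ∧ 0 < δ ∧ ρ z₀ = ε₀ ∧
      ContDiffOn ℝ ∞ ρ N ∧ (∀ z ∈ N, |ρ z - ε₀| < δ) ∧
      (∀ z ∈ N, ∀ ε, |ε - ε₀| < δ → (z, ε) ∈ Ω ∧ (θ (z, ε) = 0 → ε = ρ z)) ∧
      ∀ z ∈ N, θ (z, ρ z) = 0 := by
  have hcs : CompleteSpace Z := FiniteDimensional.complete ℝ Z
  have hinf : (∞ : WithTop ℕ∞) ≠ 0 := by simp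
  have hfc : ContinuousOn (fun p => fderiv ℝ θ p (0, 1)) Ω :=
    (hθ.continuousOn_fderiv_of_isOpen hΩ (by simp)).clm_apply continuousOn_const
  set Ω₁ : Set (Z × ℝ) := Ω ∩ (fun p => fderiv ℝ θ p (0, 1)) ⁻¹' {0}ᶜ with hΩ₁
  have hΩ₁o : IsOpen Ω₁ := hfc.isOpen_inter_preimage hΩ isOpen_compl_singleton
  have h01 : (z₀, ε₀) ∈ Ω₁ := ⟨h0, hd⟩
  set Φ : Z × ℝ → Z × ℝ := fun p => (p.1, θ p) with hΦ
  have hΦc : ∀ p ∈ Ω₁, ContDiffAt ℝ ∞ Φ p := by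
    intro p hp
    exact contDiffAt_fst.prodMk (hθ.contDiffAt (hΩ.mem_nhds hp.1))
  have hΦd : ∀ p ∈ Ω₁, ∃ e : (Z × ℝ) ≃L[ℝ] (Z × ℝ),
      HasFDerivAt Φ (e : Z × ℝ →L[ℝ] Z × ℝ) p := by
    intro p hp
    obtain ⟨e, he⟩ := lh_equiv (fderiv ℝ θ p) hp.2
    refine ⟨e, ?_⟩
    rw [he]
    exact hasFDerivAt_fst.prodMk
      ((hθ.contDiffAt (hΩ.mem_nhds hp.1)).differentiableAt hinf).hasFDerivAt
  obtain ⟨e₀, he₀⟩ := hΦd _ h01
  set h := (hΦc _ h01).toOpenPartialHomeomorph Φ he₀ hinf with hh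
  have hcoe : ∀ p, h p = Φ p := fun p => rfl
  have hsrc : (z₀, ε₀) ∈ h.source :=
    (hΦc _ h01).mem_toOpenPartialHomeomorph_source he₀ hinf
  have hWo : IsOpen (h.source ∩ Ω₁) := h.open_source.inter hΩ₁o
  obtain ⟨δ, hδ, hball⟩ := Metric.isOpen_iff.1 hWo (z₀, ε₀) ⟨hsrc, h01⟩
  rw [← ball_prod_same] at hball
  set B : Set (Z × ℝ) := Metric.ball z₀ δ ×ˢ Metric.ball ε₀ δ with hB
  have hBo : IsOpen B := Metric.isOpen_ball.prod Metric.isOpen_ball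
  have hp0B : (z₀, ε₀) ∈ B := ⟨Metric.mem_ball_self hδ, Metric.mem_ball_self hδ⟩
  have hΦ0 : h (z₀, ε₀) = (z₀, 0) := by
    rw [hcoe, hΦ]
    simp only [hz]
  refine ⟨Metric.ball z₀ δ ∩ (fun z => ((z, 0) : Z × ℝ)) ⁻¹' (h.target ∩ h.symm ⁻¹' B), δ,
    fun z => (h.symm (z, 0)).2, ?_, ?_, hδ, ?_, ?_, ?_, ?_, ?_⟩
  · exact Metric.isOpen_ball.inter ((h.isOpen_inter_preimage_symm hBo).preimage (by fun_prop))
  · refine ⟨Metric.mem_ball_self hδ, ?_, ?_⟩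
    · change (z₀, 0) ∈ h.target
      rw [← hΦ0]
      exact h.map_source hsrc
    · change h.symm (z₀, 0) ∈ B
      rw [← hΦ0, h.left_inv hsrc]
      exact hp0B
  · change (h.symm (z₀, 0)).2 = ε₀
    rw [← hΦ0, h.left_inv hsrc]
  · rintro z ⟨hz1, hz2, hz3⟩
    have hq : h.symm (z, 0) ∈ Ω₁ := (hball hz3).2
    obtain ⟨e, he⟩ := hΦd _ hq
    have h1 : ContDiffAt ℝ ∞ h.symm (z, 0) := h.contDiffAt_symm hz2 he (hΦc _ hq)
    have h2 : ContDiffAt ℝ ∞ (fun z : Z => ((z, 0) : Z × ℝ)) z :=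
      contDiffAt_id.prodMk contDiffAt_const
    have h3 : ContDiffAt ℝ ∞ (fun z : Z => h.symm (z, 0)) z := ContDiffAt.comp z h1 h2
    exact h3.snd.contDiffWithinAt
  · rintro z ⟨hz1, hz2, hz3⟩
    have h1 := hz3.2
    rw [Metric.mem_ball, Real.dist_eq] at h1
    exact h1
  · rintro z ⟨hz1, hz2, hz3⟩ ε hε
    have hmem : (z, ε) ∈ B := by
      refine ⟨hz1, ?_⟩
      change ε ∈ Metric.ball ε₀ δ
      rw [Metric.mem_ball, Real.dist_eq]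
      exact hε
    refine ⟨(hball hmem).2.1, fun hθ0 => ?_⟩
    have h1 : h (z, ε) = (z, 0) := by
      rw [hcoe, hΦ]
      simp only [hθ0]
    have h2 : h.symm (h (z, ε)) = (z, ε) := h.left_inv (hball hmem).1
    rw [h1] at h2
    change ε = (h.symm (z, 0)).2
    rw [h2]
  · rintro z ⟨hz1, hz2, hz3⟩
    have h1 : h (h.symm (z, 0)) = (z, 0) := h.right_inv hz2
    rw [hcoe, hΦ] at h1
    have h2 : (h.symm (z, 0)).1 = z := congrArg Prod.fst h1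
    have h3 : θ (h.symm (z, 0)) = 0 := congrArg Prod.snd h1
    have h4 : h.symm (z, 0) = (z, (h.symm (z, 0)).2) := Prod.ext h2 rfl
    change θ (z, (h.symm (z, 0)).2) = 0
    rw [← h4]
    exact h3

/-- TARGET -/
theorem lh {Z F : Type} [NormedAddCommGroup Z] [NormedSpace ℝ Z] [FiniteDimensional ℝ Z]
    [NormedAddCommGroup F] [InnerProductSpace ℝ F] [FiniteDimensional ℝ F]
    (L : Z × ℝ → F →L[ℝ] F) (Ω : Set (Z × ℝ)) (hΩ : IsOpen Ω) (hL : ContDiffOn ℝ ∞ L Ω)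
    (hsymm : ∀ p ∈ Ω, ∀ u v : F, ⟪L p u, v⟫_ℝ = ⟪u, L p v⟫_ℝ)
    (z₀ : Z) (ε₀ : ℝ) (h0 : (z₀, ε₀) ∈ Ω)
    (hpos : ∀ u : F, u ≠ 0 → 0 < ⟪fderiv ℝ L (z₀, ε₀) (0, 1) u, u⟫_ℝ)
    (c : ℕ) (hc : 1 ≤ c)
    (hker : Module.finrank ℝ (LinearMap.ker (L (z₀, ε₀) : F →ₗ[ℝ] F)) = c) :
    ∃ (N : Set Z) (δ : ℝ) (ρ : Z → ℝ), IsOpen N ∧ z₀ ∈ N ∧ 0 < δ ∧ ρ z₀ = ε₀ ∧
      ContDiffOn ℝ ∞ ρ N ∧ (∀ z ∈ N, |ρ z - ε₀| < δ) ∧
      (∀ z ∈ N, ∀ ε, |ε - ε₀| < δ → (z, ε) ∈ Ω ∧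
        Module.finrank ℝ (LinearMap.ker (L (z, ε) : F →ₗ[ℝ] F)) ≤ c ∧
        (Module.finrank ℝ (LinearMap.ker (L (z, ε) : F →ₗ[ℝ] F)) = c → ε = ρ z)) ∧
      (c = 1 → ∀ k₀ : F, k₀ ≠ 0 → L (z₀, ε₀) k₀ = 0 → ∃ κ : Z → F, κ z₀ = k₀ ∧
        ContDiffOn ℝ ∞ κ N ∧ ∀ z ∈ N, κ z ≠ 0 ∧ ∀ u : F, L (z, ρ z) u = 0 ↔ ∃ r : ℝ, u = r • κ z) := by
  have hcs : CompleteSpace F := FiniteDimensional.complete ℝ F
  have hinf : (∞ : WithTop ℕ∞) ≠ 0 := by simp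
  set K0 : Submodule ℝ F := LinearMap.ker (L (z₀, ε₀) : F →ₗ[ℝ] F) with hK0
  have hK0m : ∀ u, u ∈ K0 ↔ L (z₀, ε₀) u = 0 := fun u => Iff.rfl
  set P0 : F →L[ℝ] F := K0.starProjection with hP0
  have hP0m : ∀ u, P0 u ∈ K0 := fun u => K0.starProjection_apply_mem u
  have hP0s : ∀ u ∈ K0, P0 u = u := fun u hu => Submodule.starProjection_eq_self_iff.2 hu
  set Lt : Z × ℝ → F →L[ℝ] F := fun p => L p + P0 with hLt
  have hLtc : ContDiffOn ℝ ∞ Lt Ω := hL.add contDiffOn_const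
  -- injectivity at the point
  have hinj0 : ∀ u, Lt (z₀, ε₀) u = 0 → u = 0 := by
    intro u hu
    have h1 : L (z₀, ε₀) u + P0 u = 0 := hu
    have h2 : ⟪P0 u, P0 u⟫_ℝ = 0 := by
      have h3 : ⟪L (z₀, ε₀) u + P0 u, P0 u⟫_ℝ = 0 := by rw [h1, inner_zero_left]
      rw [inner_add_left, hsymm _ h0, (hK0m _).1 (hP0m u), inner_zero_right, zero_add] at h3
      exact h3
    have h4 : P0 u = 0 := inner_self_eq_zero.1 h2
    rw [h4, add_zero] at h1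
    rw [← hP0s u ((hK0m u).2 h1), h4]
  obtain ⟨e₀, he₀⟩ : ∃ e : F ≃L[ℝ] F, (e : F →L[ℝ] F) = Lt (z₀, ε₀) := by
    have hinj : Function.Injective (Lt (z₀, ε₀) : F →ₗ[ℝ] F) :=
      (injective_iff_map_eq_zero _).2 hinj0
    refine ⟨(LinearEquiv.ofInjectiveEndo _ hinj).toContinuousLinearEquiv, ?_⟩
    ext u
    rfl
  -- the open set
  set Ω₁ : Set (Z × ℝ) := Ω ∩ Lt ⁻¹' (range ((↑) : (F ≃L[ℝ] F) → F →L[ℝ] F)) with hΩ₁
  have hΩ₁o : IsOpen Ω₁ := hLtc.continuousOn.isOpen_inter_preimage hΩ ContinuousLinearEquiv.isOpen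
  have h01 : (z₀, ε₀) ∈ Ω₁ := ⟨h0, e₀, he₀⟩
  -- a nonzero vector of the kernel
  obtain ⟨k1, hk1, hk1n⟩ : ∃ k1 ∈ K0, k1 ≠ 0 := by
    have h1 : K0 ≠ ⊥ := by
      intro h2
      rw [h2, finrank_bot] at hker
      omega
    exact Submodule.exists_mem_ne_zero_of_ne_bot h1
  set kap : Z × ℝ → F := fun p => ContinuousLinearMap.inverse (Lt p) k1 with hkap
  have hkap1 : ∀ p ∈ Ω₁, Lt p (kap p) = k1 := by
    rintro p ⟨_, e, he⟩
    rw [hkap]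
    simp only []
    rw [← he, ContinuousLinearMap.inverse_equiv]
    exact e.apply_symm_apply k1
  have hinjp : ∀ p ∈ Ω₁, ∀ u v, Lt p u = Lt p v → u = v := by
    rintro p ⟨_, e, he⟩ u v huv
    rw [← he] at huv
    exact e.injective huv
  have hLtc' : ∀ p ∈ Ω₁, ContDiffAt ℝ ∞ Lt p := fun p hp => hLtc.contDiffAt (hΩ.mem_nhds hp.1)
  have hLc' : ∀ p ∈ Ω₁, ContDiffAt ℝ ∞ L p := fun p hp => hL.contDiffAt (hΩ.mem_nhds hp.1)
  have hkapc : ∀ p ∈ Ω₁, ContDiffAt ℝ ∞ kap p := by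
    intro p hp
    obtain ⟨e, he⟩ := hp.2
    have h1 : ContDiffAt ℝ ∞ (ContinuousLinearMap.inverse (R := ℝ) (M := F) (M₂ := F)) (Lt p) := by
      rw [← he]
      exact contDiffAt_map_inverse e
    have h2 : ContDiffAt ℝ ∞ (fun p => ContinuousLinearMap.inverse (Lt p)) p :=
      ContDiffAt.comp p h1 (hLtc' p hp)
    exact h2.clm_apply contDiffAt_const
  have hLk : ∀ p ∈ Ω₁, L p (kap p) = k1 - P0 (kap p) := by
    intro p hp
    have h1 : L p (kap p) + P0 (kap p) = k1 := hkap1 p hp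
    rw [← h1, add_sub_cancel_right]
  have hkap0 : kap (z₀, ε₀) = k1 := by
    refine hinjp _ h01 _ _ ?_
    rw [hkap1 _ h01]
    change k1 = L (z₀, ε₀) k1 + P0 k1
    rw [(hK0m k1).1 hk1, hP0s k1 hk1, zero_add]
  set θ : Z × ℝ → ℝ := fun p => ⟪k1, L p (kap p)⟫_ℝ with hθ
  have hθc : ContDiffOn ℝ ∞ θ Ω₁ := by
    intro p hp
    exact (contDiffAt_const.inner ℝ ((hLc' p hp).clm_apply (hkapc p hp))).contDiffWithinAt
  have hθ0 : θ (z₀, ε₀) = 0 := by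
    rw [hθ]
    simp only [hkap0]
    rw [(hK0m k1).1 hk1, inner_zero_right]
  have hθd : fderiv ℝ θ (z₀, ε₀) (0, 1) ≠ 0 := by
    have h1 : HasFDerivAt L (fderiv ℝ L (z₀, ε₀)) (z₀, ε₀) :=
      ((hLc' _ h01).differentiableAt hinf).hasFDerivAt
    have h2 : HasFDerivAt kap (fderiv ℝ kap (z₀, ε₀)) (z₀, ε₀) :=
      ((hkapc _ h01).differentiableAt hinf).hasFDerivAt
    have h3 := (innerSL ℝ k1).hasFDerivAt.comp (z₀, ε₀) (h1.clm_apply h2)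
    have h4 : fderiv ℝ θ (z₀, ε₀) = _ := h3.fderiv
    rw [h4]
    have h5 : ((innerSL ℝ k1).comp ((L (z₀, ε₀)).comp (fderiv ℝ kap (z₀, ε₀)) +
        (fderiv ℝ L (z₀, ε₀)).flip (kap (z₀, ε₀)))) (0, 1) =
        ⟪k1, L (z₀, ε₀) (fderiv ℝ kap (z₀, ε₀) (0, 1))⟫_ℝ +
        ⟪k1, fderiv ℝ L (z₀, ε₀) (0, 1) (kap (z₀, ε₀))⟫_ℝ := by
      rw [← inner_add_right]
      rfl
    rw [h5, ← hsymm _ h0, (hK0m k1).1 hk1, inner_zero_left, zero_add, hkap0, real_inner_comm]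
    exact (hpos k1 hk1n).ne'
  obtain ⟨N, δ, ρ, hN, hzN, hδ, hρ0, hρc, hρδ, hNδ, hNθ⟩ :=
    lh_ift θ Ω₁ hΩ₁o hθc z₀ ε₀ h01 hθ0 hθd
  -- the projection restricted to the kernels
  have hTker : ∀ p ∈ Ω₁, ∀ u, L p u = 0 → P0 u = 0 → u = 0 := by
    intro p hp u h1 h2
    refine hinjp p hp u 0 ?_
    rw [map_zero]
    change L p u + P0 u = 0
    rw [h1, h2, add_zero]
  let T : ∀ p : Z × ℝ, LinearMap.ker (L p : F →ₗ[ℝ] F) →ₗ[ℝ] K0 := fun p =>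
    LinearMap.codRestrict K0 ((P0 : F →ₗ[ℝ] F).domRestrict (LinearMap.ker (L p : F →ₗ[ℝ] F)))
      (fun u => hP0m u.1)
  have hTinj : ∀ p ∈ Ω₁, Function.Injective (T p) := by
    intro p hp
    rw [injective_iff_map_eq_zero]
    intro u hu
    have h1 : P0 u.1 = 0 := congrArg Subtype.val hu
    exact Subtype.ext (hTker p hp u.1 u.2 h1)
  have hle : ∀ p ∈ Ω₁, Module.finrank ℝ (LinearMap.ker (L p : F →ₗ[ℝ] F)) ≤ c := by
    intro p hp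
    rw [← hker]
    exact LinearMap.finrank_le_finrank_of_injective (hTinj p hp)
  refine ⟨N, δ, ρ, hN, hzN, hδ, hρ0, hρc, hρδ, ?_, ?_⟩
  · intro z hz ε hε
    obtain ⟨h1, h2⟩ := hNδ z hz ε hε
    refine ⟨h1.1, hle _ h1, fun hc' => h2 ?_⟩
    have h3 : Function.Surjective (T (z, ε)) :=
      (LinearMap.injective_iff_surjective_of_finrank_eq_finrank (hc'.trans hker.symm)).1
        (hTinj _ h1)
    obtain ⟨u, hu⟩ := h3 ⟨k1, hk1⟩
    have h4 : P0 u.1 = k1 := congrArg Subtype.val hu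
    have h5 : L (z, ε) u.1 = 0 := u.2
    have h6 : kap (z, ε) = u.1 := by
      refine hinjp _ h1 _ _ ?_
      rw [hkap1 _ h1]
      change k1 = L (z, ε) u.1 + P0 u.1
      rw [h5, h4, zero_add]
    change ⟪k1, L (z, ε) (kap (z, ε))⟫_ℝ = 0
    rw [h6, h5, inner_zero_right]
  · intro hc1 k₀ hk₀ hLk₀
    have hK1 : ∀ w ∈ K0, ∃ r : ℝ, w = r • k1 := by
      intro w hw
      have h1 : Module.finrank ℝ K0 = 1 := by rw [hker, hc1]
      have h2 : (⟨k1, hk1⟩ : K0) ≠ 0 := fun h => hk1n (congrArg Subtype.val h)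
      obtain ⟨r, hr⟩ := (finrank_eq_one_iff_of_nonzero' _ h2).1 h1 ⟨w, hw⟩
      exact ⟨r, (congrArg Subtype.val hr).symm⟩
    obtain ⟨r, hr⟩ := hK1 k₀ ((hK0m k₀).2 hLk₀)
    have hr0 : r ≠ 0 := by
      rintro rfl
      rw [zero_smul] at hr
      exact hk₀ hr
    have hmem : ∀ z ∈ N, (z, ρ z) ∈ Ω₁ := fun z hz => (hNδ z hz (ρ z) (hρδ z hz)).1
    have hLkap : ∀ z ∈ N, L (z, ρ z) (kap (z, ρ z)) = 0 := by
      intro z hz
      have h1 : L (z, ρ z) (kap (z, ρ z)) ∈ K0 := by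
        rw [hLk _ (hmem z hz)]
        exact K0.sub_mem hk1 (hP0m _)
      obtain ⟨t, ht⟩ := hK1 _ h1
      have h2 : ⟪k1, L (z, ρ z) (kap (z, ρ z))⟫_ℝ = 0 := hNθ z hz
      rw [ht, inner_smul_right] at h2
      have h3 : ⟪k1, k1⟫_ℝ ≠ 0 := fun h => hk1n (inner_self_eq_zero.1 h)
      have h4 : t = 0 := (mul_eq_zero.1 h2).resolve_right h3
      rw [ht, h4, zero_smul]
    refine ⟨fun z => r • kap (z, ρ z), ?_, ?_, ?_⟩
    · simp only [hρ0, hkap0]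
      exact hr.symm
    · intro z hz
      have h1 : ContDiffAt ℝ ∞ ρ z := hρc.contDiffAt (hN.mem_nhds hz)
      have h2 : ContDiffAt ℝ ∞ (fun z : Z => ((z, ρ z) : Z × ℝ)) z := contDiffAt_id.prodMk h1
      have h3 : ContDiffAt ℝ ∞ (fun z : Z => kap (z, ρ z)) z :=
        ContDiffAt.comp z (hkapc _ (hmem z hz)) h2
      exact (contDiffAt_const.smul h3).contDiffWithinAt
    · intro z hz
      have h1 := hLkap z hz
      have h2 : P0 (kap (z, ρ z)) = k1 := by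
        have h3 := hLk _ (hmem z hz)
        rw [h1] at h3
        exact (sub_eq_zero.1 h3.symm).symm
      refine ⟨?_, fun u => ⟨fun hu => ?_, ?_⟩⟩
      · refine smul_ne_zero hr0 fun h3 => ?_
        rw [h3, map_zero] at h2
        exact hk1n h2.symm
      · obtain ⟨t, ht⟩ := hK1 _ (hP0m u)
        refine ⟨t * r⁻¹, ?_⟩
        refine hinjp _ (hmem z hz) _ _ ?_
        rw [smul_smul, mul_assoc, inv_mul_cancel₀ hr0, mul_one, map_smul, hkap1 _ (hmem z hz)]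
        change L (z, ρ z) u + P0 u = t • k1
        rw [hu, zero_add, ht]
      · rintro ⟨t, rfl⟩
        rw [map_smul, map_smul, h1, smul_zero, smul_zero]

end

end Pool.Agent.H469

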