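import Pool.Agent.Helper469_Dupin.Chart
import Pool.Agent.Helper469_Dupin.Jlh
import Pool.Agent.Helper469_Dupin.Jlop

set_option autoImplicit false

open Set Filter Topology MeasureTheory
open scoped ContDiff InnerProductSpace

namespace Pool.Agent.H469


section

/-- smooth integral curves -/
theorem clh_curve {E : Type} [NormedAddCommGroup E] [NormedSpace ℝ E] [CompleteSpace E]
    (X : E → E) (N : Set E) (hN : IsOpen N) (hX : ContDiffOn ℝ ∞ X N) (z₁ : E) (hz : z₁ ∈ N) :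
    ∃ (z : ℝ → E) (η : ℝ), 0 < η ∧ z 0 = z₁ ∧ ContDiffOn ℝ ∞ z (Ioo (-η) η) ∧
      ∀ t ∈ Ioo (-η) η, z t ∈ N ∧ HasDerivAt z (X (z t)) t := by
  have h1 : ContDiffAt ℝ 1 X z₁ :=
    ((contDiffOn_infty.1 hX 1).contDiffAt (hN.mem_nhds hz))
  obtain ⟨z, hz0, ε, hε, hd⟩ :=
    h1.exists_forall_mem_closedBall_exists_eq_forall_mem_Ioo_hasDerivAt₀ 0
  rw [zero_sub, zero_add] at hd
  have hc : ContinuousAt z 0 := (hd 0 ⟨by linarith, hε⟩).continuousAt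
  have hev : ∀ᶠ t in 𝓝 (0 : ℝ), z t ∈ N := by
    apply hc.eventually_mem
    rw [hz0]
    exact hN.mem_nhds hz
  obtain ⟨δ, hδ, hδN⟩ := Metric.eventually_nhds_iff.1 hev
  obtain ⟨η, hη0, hηε, hηδ⟩ : ∃ η : ℝ, 0 < η ∧ η ≤ ε ∧ η ≤ δ :=
    ⟨min ε δ, lt_min hε hδ, min_le_left _ _, min_le_right _ _⟩
  have hd' : ∀ t ∈ Ioo (-η) η, HasDerivAt z (X (z t)) t := fun t ht =>
    hd t ⟨by linarith [ht.1], by linarith [ht.2]⟩
  have hN' : ∀ t ∈ Ioo (-η) η, z t ∈ N := by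
    intro t ht
    apply hδN
    rw [Real.dist_eq, sub_zero, abs_lt]
    exact ⟨by linarith [ht.1], by linarith [ht.2]⟩
  refine ⟨z, η, hη0, hz0, ?_, fun t ht => ⟨hN' t ht, hd' t ht⟩⟩
  rw [contDiffOn_infty]
  intro k
  induction k with
  | zero =>
    rw [Nat.cast_zero, contDiffOn_zero]
    exact fun t ht => (hd' t ht).continuousAt.continuousWithinAt
  | succ k ih =>
    rw [Nat.cast_succ, contDiffOn_succ_iff_deriv_of_isOpen isOpen_Ioo]
    refine ⟨fun t ht => (hd' t ht).differentiableAt.differentiableWithinAt, ?_, ?_⟩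
    · intro h
      exact absurd h (by simp)
    · have h2 : ContDiffOn ℝ k (X ∘ z) (Ioo (-η) η) :=
        (contDiffOn_infty.1 hX k).comp ih (fun t ht => hN' t ht)
      exact h2.congr fun t ht => (hd' t ht).deriv

end

section
variable {F W : Type} [NormedAddCommGroup F] [InnerProductSpace ℝ F] [FiniteDimensional ℝ F]
  [NormedAddCommGroup W] [InnerProductSpace ℝ W] [FiniteDimensional ℝ W]

theorem clh_gop (g : F → W) (a u : F) (hu : u ≠ 0) : 0 < ⟪Gop g a u, u⟫_ℝ := by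
  have h1 : ⟪Gop g a u, u⟫_ℝ = ‖u‖ ^ 2 + ‖fderiv ℝ g a u‖ ^ 2 := by
    unfold Gop
    rw [add_apply, inner_add_left, ContinuousLinearMap.id_apply,
      real_inner_self_eq_norm_sq, ContinuousLinearMap.comp_apply,
      ContinuousLinearMap.adjoint_inner_left, real_inner_self_eq_norm_sq]
  rw [h1]
  have : 0 < ‖u‖ := norm_pos_iff.2 hu
  positivity

theorem clh_deriv (g : F → W) (O : Set F) (hO : IsOpen O) (hg : ContDiffOn ℝ ∞ g O)
    (a₀ : F) (b₀ : W) (ε₀ : ℝ) (ha : a₀ ∈ O) :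
    fderiv ℝ (fun p : (F × W) × ℝ => Lop g p.1.1 p.1.2 p.2) ((a₀, b₀), ε₀) (0, 1) = Gop g a₀ := by
  have hΩ : IsOpen {p : (F × W) × ℝ | p.1.1 ∈ O} :=
    hO.preimage (continuous_fst.comp continuous_fst)
  have hL := lop_smooth g O hO hg
  have hd : DifferentiableAt ℝ (fun p : (F × W) × ℝ => Lop g p.1.1 p.1.2 p.2) ((a₀, b₀), ε₀) :=
    (hL.contDiffAt (hΩ.mem_nhds ha)).differentiableAt (by simp)
  have hc : HasDerivAt (fun t : ℝ => ((a₀, b₀), t)) ((0 : F × W), (1 : ℝ)) ε₀ :=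
    (hasDerivAt_const ε₀ (a₀, b₀)).prodMk (hasDerivAt_id ε₀)
  have h1 := hd.hasFDerivAt.comp_hasDerivAt ε₀ hc
  have h2 : HasDerivAt (fun t : ℝ => t • Gop g a₀ - Hop g a₀ b₀) ((1 : ℝ) • Gop g a₀) ε₀ :=
    ((hasDerivAt_id ε₀).smul_const _).sub_const _
  rw [one_smul] at h2
  exact h1.unique h2

end

/-! PLAIN PROOF OF THE TARGET(S)

Apply the given lemma `lh` with Z = F × W, L p = Lop g p.1.1 p.1.2 p.2, Ω = {p | p.1.1 ∈ O}, c = 1 (the kernel is the line R k0):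
the derivative of Lop in the ε direction is Gop g a, and <Gop g a u,u> = |u|² + |Dg u|² > 0.  Intersect the N obtained with the open
set {z | z.1 ∈ O, z.2 ≠ 0}.  If |ε-ε0| < δ and the kernel at (z,ε) is nonzero it has dimension ≥ 1, hence = 1, hence ε = ρ z.
Last claim: X(z) := (κ z, -(ρ z • Dg(z.1)(κ z))) is a smooth vector field on the open set N.  Let z1 ∈ N.  By Picard-Lindelöf there is
a solution z(t) on some (-η,η), z(0) = z1, z' = X(z), staying in N (shrink η), and it is C^∞ on (-η,η) (bootstrap; see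
`contDiffOn_enat_Icc_of_hasDerivWithinAt` and the integral curve API in Mathlib/Analysis/ODE, or prove by induction with
`contDiffOn_succ_iff_deriv_of_isOpen` that z is C^k for all k).  With α = z.1, β = z.2, e = ρ ∘ z the definition of DupinLoc applies
(deriv α = κ ≠ 0, deriv β = -(e • Dg α')), the kernel of Lop at (α,β,e) is spanned by κ = deriv α), so ρ ∘ z is constant and its
derivative at 0, fderiv ℝ ρ z1 (X z1), is 0.
-/

section
variable {F W : Type} [NormedAddCommGroup F] [InnerProductSpace ℝ F] [FiniteDimensional ℝ F]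
  [NormedAddCommGroup W] [InnerProductSpace ℝ W] [FiniteDimensional ℝ W]

/-- TARGET -/
theorem clh (g : F → W) (O : Set F) (hO : IsOpen O) (hg : ContDiffOn ℝ ∞ g O) (hD : DupinLoc g O)
    (a₀ : F) (b₀ : W) (ε₀ : ℝ) (ha : a₀ ∈ O) (hb : b₀ ≠ 0) (k₀ : F) (hk : k₀ ≠ 0)
    (hker : ∀ u, Lop g a₀ b₀ ε₀ u = 0 ↔ ∃ r : ℝ, u = r • k₀) :
    ∃ (N : Set (F × W)) (δ : ℝ) (ρ : F × W → ℝ) (κ : F × W → F), 0 < δ ∧ IsOpen N ∧ (a₀, b₀) ∈ N ∧
      (∀ z ∈ N, z.1 ∈ O ∧ z.2 ≠ 0) ∧ ρ (a₀, b₀) = ε₀ ∧ κ (a₀, b₀) = k₀ ∧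
      ContDiffOn ℝ ∞ ρ N ∧ ContDiffOn ℝ ∞ κ N ∧
      (∀ z ∈ N, |ρ z - ε₀| < δ ∧ κ z ≠ 0 ∧ ∀ u, Lop g z.1 z.2 (ρ z) u = 0 ↔ ∃ r : ℝ, u = r • κ z) ∧
      (∀ z ∈ N, ∀ ε, |ε - ε₀| < δ → (∃ u : F, u ≠ 0 ∧ Lop g z.1 z.2 ε u = 0) → ε = ρ z) ∧
      (∀ z ∈ N, fderiv ℝ ρ z (κ z, -(ρ z • fderiv ℝ g z.1 (κ z))) = 0) := by
  have hΩ : IsOpen {p : (F × W) × ℝ | p.1.1 ∈ O} :=
    hO.preimage (continuous_fst.comp continuous_fst)
  have hkerdim : Module.finrank ℝ (LinearMap.ker (Lop g a₀ b₀ ε₀ : F →ₗ[ℝ] F)) = 1 := by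
    have h1 : LinearMap.ker (Lop g a₀ b₀ ε₀ : F →ₗ[ℝ] F) = Submodule.span ℝ {k₀} := by
      ext u
      rw [LinearMap.mem_ker, Submodule.mem_span_singleton]
      change Lop g a₀ b₀ ε₀ u = 0 ↔ _
      rw [hker u]
      constructor
      · rintro ⟨r, hr⟩
        exact ⟨r, hr.symm⟩
      · rintro ⟨r, hr⟩
        exact ⟨r, hr.symm⟩
    rw [h1]
    exact finrank_span_singleton hk
  obtain ⟨N, δ, ρ, hNo, hN0, hδ, hρ0, hρ, hρδ, hN1, hN2⟩ :=
    lh (Z := F × W) (fun p : (F × W) × ℝ => Lop g p.1.1 p.1.2 p.2) {p | p.1.1 ∈ O} hΩ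
      (lop_smooth g O hO hg) (fun p hp u v => lop_symm g O hO hg p.1.1 hp p.1.2 p.2 u v)
      (a₀, b₀) ε₀ ha
      (fun u hu => by
        rw [clh_deriv g O hO hg a₀ b₀ ε₀ ha]
        exact clh_gop g a₀ u hu) 1 le_rfl hkerdim
  obtain ⟨κ, hκ0, hκ, hκ1⟩ := hN2 rfl k₀ hk ((hker k₀).2 ⟨1, (one_smul _ _).symm⟩)
  have hN'o : IsOpen (N ∩ {z : F × W | z.1 ∈ O ∧ z.2 ≠ 0}) :=
    hNo.inter ((hO.preimage continuous_fst).inter (isOpen_ne.preimage continuous_snd))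
  refine ⟨N ∩ {z : F × W | z.1 ∈ O ∧ z.2 ≠ 0}, δ, ρ, κ, hδ, hN'o, ⟨hN0, ha, hb⟩,
    fun z hz => hz.2, hρ0, hκ0, hρ.mono inter_subset_left, hκ.mono inter_subset_left, ?_, ?_, ?_⟩
  · intro z hz
    exact ⟨hρδ z hz.1, hκ1 z hz.1⟩
  · intro z hz ε hε hu
    obtain ⟨u, hu0, hu⟩ := hu
    obtain ⟨-, h2, h3⟩ := hN1 z hz.1 ε hε
    apply h3
    apply le_antisymm h2
    have hne : Nontrivial (LinearMap.ker (Lop g z.1 z.2 ε : F →ₗ[ℝ] F)) := by
      refine ⟨⟨⟨u, hu⟩, 0, ?_⟩⟩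
      intro h
      exact hu0 (congrArg Subtype.val h)
    exact Nat.succ_le_of_lt (Module.finrank_pos)
  · intro z₁ hz₁
    have hg' : ContDiffOn ℝ ∞ (fderiv ℝ g) O := hg.fderiv_of_isOpen hO (by simp)
    have hX : ContDiffOn ℝ ∞ (fun z : F × W => (κ z, -(ρ z • fderiv ℝ g z.1 (κ z))))
        (N ∩ {z : F × W | z.1 ∈ O ∧ z.2 ≠ 0}) := by
      have e1 := hκ.mono (inter_subset_left (s := N) (t := {z : F × W | z.1 ∈ O ∧ z.2 ≠ 0}))
      have e2 := hρ.mono (inter_subset_left (s := N) (t := {z : F × W | z.1 ∈ O ∧ z.2 ≠ 0}))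
      have e3 : ContDiffOn ℝ ∞ (fun z : F × W => fderiv ℝ g z.1)
          (N ∩ {z : F × W | z.1 ∈ O ∧ z.2 ≠ 0}) :=
        hg'.comp contDiff_fst.contDiffOn (fun z hz => hz.2.1)
      exact e1.prodMk (e2.smul (e3.clm_apply e1)).neg
    obtain ⟨z, η, hη, hz0, hzs, hzd⟩ := clh_curve _ _ hN'o hX z₁ hz₁
    have hα : ∀ t ∈ Ioo (-η) η, HasDerivAt (fun t => (z t).1) (κ (z t)) t := fun t ht =>
      (hasFDerivAt_fst (𝕜 := ℝ) (p := z t)).comp_hasDerivAt t (hzd t ht).2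
    have hβ : ∀ t ∈ Ioo (-η) η, HasDerivAt (fun t => (z t).2)
        (-(ρ (z t) • fderiv ℝ g (z t).1 (κ (z t)))) t := fun t ht =>
      (hasFDerivAt_snd (𝕜 := ℝ) (p := z t)).comp_hasDerivAt t (hzd t ht).2
    have hconst := hD (fun t => (z t).1) (fun t => (z t).2) (fun t => ρ (z t)) (-η) η
      (contDiff_fst.comp_contDiffOn hzs) (contDiff_snd.comp_contDiffOn hzs) (by
        intro t ht
        have hm := (hzd t ht).1
        rw [(hα t ht).deriv, (hβ t ht).deriv]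
        exact ⟨hm.2.1, hm.2.2, (hκ1 _ hm.1).1, rfl, (hκ1 _ hm.1).2⟩)
    have h0 : (0 : ℝ) ∈ Ioo (-η) η := ⟨by linarith, hη⟩
    have hρd : DifferentiableAt ℝ ρ (z 0) := by
      rw [hz0]
      exact (hρ.contDiffAt (hNo.mem_nhds hz₁.1)).differentiableAt (by simp)
    have h1 := hρd.hasFDerivAt.comp_hasDerivAt 0 (hzd 0 h0).2
    have h2 : HasDerivAt (ρ ∘ z) 0 0 := by
      apply (hasDerivAt_const (0 : ℝ) (ρ (z 0))).congr_of_eventuallyEq
      filter_upwards [isOpen_Ioo.mem_nhds h0] with t ht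
      exact hconst t ht 0 h0
    have h3 := h1.unique h2
    rw [hz0] at h3
    exact h3

end

end Pool.Agent.H469
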