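import Pool.Agent.Helper469_Dupin.DefsB
import Pool.Agent.Helper469_Dupin.Jclh

set_option autoImplicit false

open Set Filter Topology MeasureTheory
open scoped ContDiff InnerProductSpace

namespace Pool.Agent.H469


/-! PLAIN PROOF OF THE TARGET(S)

Apply clh with F = T, W = Tᗮ: N, δ, ρ, κ.  Put v(z) = κ(z) + Dg(z.1) κ(z) ∈ R^n (T-part κ(z) ≠ 0, so v ≠ 0), e(z) = v(z)/|v(z)|; smooth on N since
κ, g and z ↦ Dg(z.1) are smooth there and v ≠ 0.  P e = κ/|v|, Q e = Dg(z.1)(κ)/|v| = Dg(z.1)(P e) (tang).  ker: the line R κ = R P e.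
Xf z = (κ, -ρ Dg κ)/|v|, so dr follows from the last claim of clh by linearity.
-/


theorem leaf_pre_projT {n : ℕ} (T : Submodule ℝ (Eu n)) (a : T) (b : Tᗮ) :
    T.orthogonalProjectionOnto ((a : Eu n) + (b : Eu n)) = a := by
  have h1 : T.orthogonalProjectionOnto ((b : Tᗮ) : Eu n) = 0 :=
    (Submodule.orthogonalProjectionOnto_eq_zero_iff).mpr b.2
  rw [map_add, Submodule.orthogonalProjectionOnto_mem_subspace_eq_self, h1, add_zero]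

theorem leaf_pre_projN {n : ℕ} (T : Submodule ℝ (Eu n)) (a : T) (b : Tᗮ) :
    Tᗮ.orthogonalProjectionOnto ((a : Eu n) + (b : Eu n)) = b := by
  have h1 : Tᗮ.orthogonalProjectionOnto ((a : T) : Eu n) = 0 :=
    (Submodule.orthogonalProjectionOnto_eq_zero_iff).mpr
      (Submodule.le_orthogonal_orthogonal T a.2)
  rw [map_add, Submodule.orthogonalProjectionOnto_mem_subspace_eq_self, h1, zero_add]

section
variable {n m : ℕ} {M : Set (Eu n)} {T : Submodule ℝ (Eu n)} {g : T → Tᗮ} {O : Set T} {V : Set (Eu n)}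
  {N : Set (T × Tᗮ)} {ρ : T × Tᗮ → ℝ} {e : T × Tᗮ → Eu n}

/-- TARGET -/
theorem leaf_pre (hO : IsOpen O) (hg : ContDiffOn ℝ ∞ g O) (hD : DupinLoc g O)
    (a₀ : T) (b₀ : Tᗮ) (ε₀ : ℝ) (ha : a₀ ∈ O) (hb : b₀ ≠ 0) (k₀ : T) (hk : k₀ ≠ 0)
    (hker : ∀ u, Lop g a₀ b₀ ε₀ u = 0 ↔ ∃ r : ℝ, u = r • k₀) :
    ∃ (N : Set (T × Tᗮ)) (δ : ℝ) (ρ : T × Tᗮ → ℝ) (e : T × Tᗮ → Eu n), LeafPre T g O N ρ e ∧
      0 < δ ∧ (a₀, b₀) ∈ N ∧ ρ (a₀, b₀) = ε₀ ∧ (∀ z ∈ N, |ρ z - ε₀| < δ) ∧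
      ∀ z ∈ N, ∀ ε, |ε - ε₀| < δ → (∃ u : T, u ≠ 0 ∧ Lop g z.1 z.2 ε u = 0) → ε = ρ z := by
  obtain ⟨N, δ, ρ, κ, hδ, hN, hmem, hsub, hρ0, _, hρs, hκs, h1, h2, h3⟩ :=
    clh g O hO hg hD a₀ b₀ ε₀ ha hb k₀ hk hker
  let v : T × Tᗮ → Eu n := fun z => (κ z : Eu n) + ((fderiv ℝ g z.1 (κ z) : Tᗮ) : Eu n)
  let e : T × Tᗮ → Eu n := fun z => ‖v z‖⁻¹ • v z
  have hv0 : ∀ z ∈ N, v z ≠ 0 := by
    intro z hz h
    apply (h1 z hz).2.1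
    have := leaf_pre_projT T (κ z) (fderiv ℝ g z.1 (κ z))
    rw [← this]
    change T.orthogonalProjectionOnto (v z) = 0
    rw [h, map_zero]
  have hPe : ∀ z, T.orthogonalProjectionOnto (e z) = ‖v z‖⁻¹ • κ z := by
    intro z
    change T.orthogonalProjectionOnto (‖v z‖⁻¹ • v z) = _
    rw [map_smul]
    congr 1
    exact leaf_pre_projT T (κ z) (fderiv ℝ g z.1 (κ z))
  have hQe : ∀ z, Tᗮ.orthogonalProjectionOnto (e z) = ‖v z‖⁻¹ • fderiv ℝ g z.1 (κ z) := by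
    intro z
    change Tᗮ.orthogonalProjectionOnto (‖v z‖⁻¹ • v z) = _
    rw [map_smul]
    congr 1
    exact leaf_pre_projN T (κ z) (fderiv ℝ g z.1 (κ z))
  have hD1 : ContDiffOn ℝ ∞ (fun z : T × Tᗮ => fderiv ℝ g z.1) N := by
    have h := hg.fderiv_of_isOpen (m := ∞) hO (by simp)
    exact h.comp contDiff_fst.contDiffOn (fun z hz => (hsub z hz).1)
  have hvs : ContDiffOn ℝ ∞ v N := by
    have hA : ContDiffOn ℝ ∞ (fun z : T × Tᗮ => fderiv ℝ g z.1 (κ z)) N := hD1.clm_apply hκs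
    have hB : ContDiffOn ℝ ∞ (fun z : T × Tᗮ => T.subtypeL (κ z)) N :=
      T.subtypeL.contDiff.comp_contDiffOn hκs
    have hC : ContDiffOn ℝ ∞ (fun z : T × Tᗮ => Tᗮ.subtypeL (fderiv ℝ g z.1 (κ z))) N :=
      Tᗮ.subtypeL.contDiff.comp_contDiffOn hA
    exact hB.add hC
  have hes : ContDiffOn ℝ ∞ e N := by
    have hn : ContDiffOn ℝ ∞ (fun z => ‖v z‖) N := hvs.norm ℝ hv0
    exact (hn.inv (fun z hz => norm_ne_zero_iff.mpr (hv0 z hz))).smul hvs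
  have hinv : ∀ z ∈ N, ‖v z‖⁻¹ ≠ 0 := fun z hz => inv_ne_zero (norm_ne_zero_iff.mpr (hv0 z hz))
  refine ⟨N, δ, ρ, e, ?_, hδ, hmem, hρ0, fun z hz => (h1 z hz).1, h2⟩
  refine ⟨hN, hsub, hρs, hes, ?_, ?_, ?_, ?_⟩
  · intro z hz
    change ‖‖v z‖⁻¹ • v z‖ = 1
    rw [norm_smul, norm_inv, norm_norm, inv_mul_cancel₀ (norm_ne_zero_iff.mpr (hv0 z hz))]
  · intro z hz
    rw [hPe, hQe, map_smul]
  · intro z hz u
    rw [(h1 z hz).2.2 u, hPe]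
    constructor
    · rintro ⟨r, rfl⟩
      refine ⟨r * ‖v z‖, ?_⟩
      rw [smul_smul, mul_assoc, mul_inv_cancel₀ (norm_ne_zero_iff.mpr (hv0 z hz)), mul_one]
    · rintro ⟨r, rfl⟩
      exact ⟨r * ‖v z‖⁻¹, by rw [smul_smul]⟩
  · intro z hz
    have hX : Xf T ρ e z = ‖v z‖⁻¹ • (κ z, -(ρ z • fderiv ℝ g z.1 (κ z))) := by
      unfold Xf
      rw [hPe, hQe, Prod.smul_mk, smul_neg, smul_comm]
    rw [hX, map_smul, h3 z hz, smul_zero]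


end

end Pool.Agent.H469
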