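import Pool.Agent.Helper469_Dupin.Chart
import Pool.Agent.Helper469_Dupin.Jbrcrit
import Pool.Agent.Helper469_Dupin.Jfamd

set_option autoImplicit false

open Set Filter Topology MeasureTheory
open scoped ContDiff InnerProductSpace

namespace Pool.Agent.H469


/-! PLAIN PROOF OF THE TARGET(S)

Let (x_j, p_j) in the set converge to (x,p) (or argue with closures / filters).  x ∈ M since M is closed.  Take a chart (T,g,O,V) at x
(isSubmanifold_iff).  Eventually x_j ∈ V, and by br_crit and fam_d1: Pw_j - ε_j a_j + nrm g a_j (Qw_j - ε_j g a_j) = 0 with a_j = P x_j → a = P x,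
p_j = (w_j,ε_j).  This expression is continuous in (p,a) for a ∈ O (g and Dg are continuous on O), so it vanishes at (p,a), so x is critical
for fam p by br_crit, fam_d1.
-/

section
variable {n m : ℕ} {M : Set (Eu n)}

theorem crit_closed_grad {T : Submodule ℝ (Eu n)} {g : T → Tᗮ} {O : Set T} {V : Set (Eu n)}
    (h : IsChart ∞ m M T g O V) (x : Eu n) (hx : x ∈ M) (hxV : x ∈ V) (p : Eu n × ℝ) :
    x ∈ critSet M (fam p) ↔ T.orthogonalProjectionOnto p.1 - p.2 • (T.orthogonalProjectionOnto x) +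
      nrm g (T.orthogonalProjectionOnto x) (Tᗮ.orthogonalProjectionOnto p.1 -
        p.2 • g (T.orthogonalProjectionOnto x)) = 0 := by
  have hf : ContDiff ℝ ∞ (fam p) := by
    unfold fam
    exact (contDiff_const.inner ℝ contDiff_id).sub ((contDiff_const.mul (contDiff_norm_sq ℝ)).div_const 2)
  rw [br_crit h x hx hxV (fam p) hf]
  have hO := (h.mem x hxV).1
  constructor
  · intro h0
    have h1 := fam_d1 g O h.openO h.smooth _ hO p
    rw [h0] at h1
    have h2 := h1 (T.orthogonalProjectionOnto p.1 - p.2 • (T.orthogonalProjectionOnto x) +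
      nrm g (T.orthogonalProjectionOnto x) (Tᗮ.orthogonalProjectionOnto p.1 -
        p.2 • g (T.orthogonalProjectionOnto x)))
    rw [_root_.zero_apply] at h2
    exact inner_self_eq_zero.1 h2.symm
  · intro h0
    ext u
    rw [fam_d1 g O h.openO h.smooth _ hO p, h0]
    simp

theorem crit_closed_cont {T : Submodule ℝ (Eu n)} {g : T → Tᗮ} {O : Set T} {V : Set (Eu n)}
    (h : IsChart ∞ m M T g O V) :
    ContinuousOn (fun q : Eu n × (Eu n × ℝ) => T.orthogonalProjectionOnto q.2.1 -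
      q.2.2 • (T.orthogonalProjectionOnto q.1) +
      nrm g (T.orthogonalProjectionOnto q.1) (Tᗮ.orthogonalProjectionOnto q.2.1 -
        q.2.2 • g (T.orthogonalProjectionOnto q.1))) {q | q.1 ∈ V} := by
  have hP : ContinuousOn (fun q : Eu n × (Eu n × ℝ) => T.orthogonalProjectionOnto q.1) {q | q.1 ∈ V} := by
    fun_prop
  have hm : MapsTo (fun q : Eu n × (Eu n × ℝ) => T.orthogonalProjectionOnto q.1) {q | q.1 ∈ V} O :=
    fun q hq => (h.mem q.1 hq).1
  have hg : ContinuousOn (fun q : Eu n × (Eu n × ℝ) => g (T.orthogonalProjectionOnto q.1)) {q | q.1 ∈ V} :=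
    h.smooth.continuousOn.comp hP hm
  have hd0 : ContinuousOn (fderiv ℝ g) O := h.smooth.continuousOn_fderiv_of_isOpen h.openO (by simp)
  have hd : ContinuousOn (fun q : Eu n × (Eu n × ℝ) => fderiv ℝ g (T.orthogonalProjectionOnto q.1))
      {q | q.1 ∈ V} := hd0.comp hP hm
  have ha : ContinuousOn (fun q : Eu n × (Eu n × ℝ) =>
      ContinuousLinearMap.adjoint (fderiv ℝ g (T.orthogonalProjectionOnto q.1))) {q | q.1 ∈ V} :=
    (ContinuousLinearMap.adjoint (𝕜 := ℝ) (E := T) (F := Tᗮ)).continuous.comp_continuousOn hd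
  unfold nrm
  refine ContinuousOn.add ?_ ?_
  · fun_prop
  · refine ContinuousOn.clm_apply ha ?_
    have h1 : ContinuousOn (fun q : Eu n × (Eu n × ℝ) => Tᗮ.orthogonalProjectionOnto q.2.1)
        {q | q.1 ∈ V} := by fun_prop
    have h2 : ContinuousOn (fun q : Eu n × (Eu n × ℝ) => q.2.2) {q | q.1 ∈ V} := by fun_prop
    exact h1.sub (h2.smul hg)

/-- TARGET -/
theorem crit_closed (hM : IsSubmanifold ∞ m M) (hc : IsClosed M) :
    IsClosed {q : Eu n × (Eu n × ℝ) | q.1 ∈ critSet M (fam q.2)} := by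
  refine isClosed_of_closure_subset ?_
  intro q hq
  have hSM : {q : Eu n × (Eu n × ℝ) | q.1 ∈ critSet M (fam q.2)} ⊆ Prod.fst ⁻¹' M := fun z hz => hz.1
  have hqM : q.1 ∈ M := closure_minimal hSM (hc.preimage continuous_fst) hq
  obtain ⟨T, g, O, V, hV, h⟩ := (isSubmanifold_iff _ m M).1 hM q.1 hqM
  have hW : IsOpen {q : Eu n × (Eu n × ℝ) | q.1 ∈ V} := h.openV.preimage continuous_fst
  have hqW : q ∈ {q : Eu n × (Eu n × ℝ) | q.1 ∈ V} := hV
  have hcat := (crit_closed_cont h).continuousAt (hW.mem_nhds hqW)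
  have hq2 : q ∈ closure ({q : Eu n × (Eu n × ℝ) | q.1 ∈ V} ∩
      {q : Eu n × (Eu n × ℝ) | q.1 ∈ critSet M (fam q.2)}) := by
    have := hW.inter_closure (t := {q : Eu n × (Eu n × ℝ) | q.1 ∈ critSet M (fam q.2)})
    exact this ⟨hqW, hq⟩
  show q.1 ∈ critSet M (fam q.2)
  rw [crit_closed_grad h q.1 hqM hV q.2]
  have h3 := mem_closure_image hcat hq2
  have h4 : ((fun q : Eu n × (Eu n × ℝ) => T.orthogonalProjectionOnto q.2.1 -
      q.2.2 • (T.orthogonalProjectionOnto q.1) +
      nrm g (T.orthogonalProjectionOnto q.1) (Tᗮ.orthogonalProjectionOnto q.2.1 -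
        q.2.2 • g (T.orthogonalProjectionOnto q.1))) '' ({q : Eu n × (Eu n × ℝ) | q.1 ∈ V} ∩
      {q : Eu n × (Eu n × ℝ) | q.1 ∈ critSet M (fam q.2)})) ⊆ {0} := by
    rintro _ ⟨z, ⟨hz1, hz2⟩, rfl⟩
    exact (crit_closed_grad h z.1 hz2.1 hz1 z.2).1 hz2
  have h5 := closure_mono h4 h3
  rw [closure_singleton] at h5
  exact h5

end

end Pool.Agent.H469
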