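import Pool.Agent.Helper469_Dupin.Chart
import Pool.Agent.Helper469_Dupin.Jbrvel
import Pool.Agent.Helper469_Dupin.Jlop

set_option autoImplicit false

open Set Filter Topology MeasureTheory
open scoped ContDiff InnerProductSpace

namespace Pool.Agent.H469


section
variable {F W : Type} [NormedAddCommGroup F] [InnerProductSpace ℝ F] [FiniteDimensional ℝ F]
  [NormedAddCommGroup W] [InnerProductSpace ℝ W] [FiniteDimensional ℝ W]

/-- the adjoint as a real linear map -/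
noncomputable def br_principal_adj (F W : Type) [NormedAddCommGroup F] [InnerProductSpace ℝ F] [FiniteDimensional ℝ F]
    [NormedAddCommGroup W] [InnerProductSpace ℝ W] [FiniteDimensional ℝ W] : (F →L[ℝ] W) →L[ℝ] (W →L[ℝ] F) :=
  AddMonoidHom.toRealLinearMap
    { toFun := fun A => ContinuousLinearMap.adjoint A
      map_zero' := map_zero _
      map_add' := fun a b => map_add _ a b }
    (ContinuousLinearMap.adjoint (𝕜 := ℝ) (E := F) (F := W)).continuous

theorem br_principal_adj_apply (A : F →L[ℝ] W) : br_principal_adj F W A = ContinuousLinearMap.adjoint A := rfl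

theorem br_principal_contDiff {g : F → W} {O : Set F} (hO : IsOpen O) (hg : ContDiffOn ℝ ∞ g O) :
    ContDiffOn ℝ ∞ (fun a => br_principal_adj F W (fderiv ℝ g a)) O := by
  refine (br_principal_adj F W).contDiff.comp_contDiffOn ?_
  exact hg.fderiv_of_isOpen hO (by norm_num)

theorem br_principal_nrm {g : F → W} {O : Set F} (hO : IsOpen O) (hg : ContDiffOn ℝ ∞ g O)
    {α : ℝ → F} {β : ℝ → W} {α' : F} {β' : W} {t : ℝ} (hα : HasDerivAt α α' t) (hβ : HasDerivAt β β' t)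
    (ha : α t ∈ O) :
    HasDerivAt (fun t => nrm g (α t) (β t)) (Hop g (α t) (β t) α' + nrm g (α t) β') t := by
  have h1 : DifferentiableAt ℝ (fun a => br_principal_adj F W (fderiv ℝ g a)) (α t) :=
    ((br_principal_contDiff hO hg).differentiableOn (by norm_num)).differentiableAt (hO.mem_nhds ha)
  have h2 := h1.hasFDerivAt
  have h3 : HasDerivAt (fun t => br_principal_adj F W (fderiv ℝ g (α t)))
    (fderiv ℝ (fun a => br_principal_adj F W (fderiv ℝ g a)) (α t) α') t := h2.comp_hasDerivAt t hα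
  have h4 := h3.clm_apply hβ
  have h5 : Hop g (α t) (β t) α' =
      (fderiv ℝ (fun a => br_principal_adj F W (fderiv ℝ g a)) (α t) α') (β t) := by
    have h6 := h2.clm_apply (hasFDerivAt_const (β t) (α t))
    have h7 : Hop g (α t) (β t) = _ := h6.fderiv
    rw [h7]
    simp
  rw [h5]
  exact h4

theorem br_principal_nrm_smooth {g : F → W} {O : Set F} (hO : IsOpen O) (hg : ContDiffOn ℝ ∞ g O)
    {α : ℝ → F} {β : ℝ → W} {S : Set ℝ} (hα : ContDiffOn ℝ ∞ α S) (hβ : ContDiffOn ℝ ∞ β S)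
    (ha : ∀ t ∈ S, α t ∈ O) :
    ContDiffOn ℝ ∞ (fun t => nrm g (α t) (β t)) S :=
  ((br_principal_contDiff hO hg).comp hα ha).clm_apply hβ

end

section
variable {n m : ℕ} {M : Set (Eu n)} {T : Submodule ℝ (Eu n)} {g : T → Tᗮ} {O : Set T} {V : Set (Eu n)}

theorem br_principal_split (T : Submodule ℝ (Eu n)) (x : Eu n) :
    ((T.orthogonalProjectionOnto x : T) : Eu n) + ((Tᗮ.orthogonalProjectionOnto x : Tᗮ) : Eu n) = x :=
  T.starProjection_add_starProjection_orthogonal x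

theorem br_principal_P (T : Submodule ℝ (Eu n)) (u : T) (w : Tᗮ) :
    T.orthogonalProjectionOnto ((u : Eu n) + (w : Eu n)) = u := by
  rw [map_add, Submodule.orthogonalProjectionOnto_mem_subspace_eq_self,
    Submodule.orthogonalProjectionOnto_apply_of_mem_orthogonal w.2, add_zero]

theorem br_principal_Q (T : Submodule ℝ (Eu n)) (u : T) (w : Tᗮ) :
    Tᗮ.orthogonalProjectionOnto ((u : Eu n) + (w : Eu n)) = w := by
  rw [map_add, Submodule.orthogonalProjectionOnto_mem_subspace_eq_self,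
    Submodule.orthogonalProjectionOnto_orthogonal_apply_eq_zero u.2, zero_add]

theorem br_normal_inner (T : Submodule ℝ (Eu n)) (A : T →L[ℝ] Tᗮ) (ξ : Eu n) (u : T) :
    ⟪ξ, (u : Eu n) + (A u : Eu n)⟫_ℝ = ⟪T.orthogonalProjectionOnto ξ
      + ContinuousLinearMap.adjoint A (Tᗮ.orthogonalProjectionOnto ξ), u⟫_ℝ := by
  rw [inner_add_right, inner_add_left, ContinuousLinearMap.adjoint_inner_left,
    Submodule.inner_orthogonalProjectionOnto_eq_of_mem_right,
    Submodule.inner_orthogonalProjectionOnto_eq_of_mem_right]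

theorem br_principal_nd {v : ℝ → Eu n} {v' : Eu n} (hvd : HasDerivAt v v' 0) (h0 : ‖v 0‖ = 1)
    (h2 : ⟪v 0, v'⟫_ℝ = 0) : HasDerivAt (fun t => (‖v t‖)⁻¹ • v t) v' 0 := by
  have h1 : HasDerivAt (fun t => ‖v t‖ ^ 2) (2 * ⟪v 0, v'⟫_ℝ) 0 := hvd.norm_sq
  rw [h2, mul_zero] at h1
  have h4 : HasDerivAt (fun t => Real.sqrt (‖v t‖ ^ 2)) 0 0 := by
    have := h1.sqrt (by rw [h0]; norm_num)
    simpa using this
  have h5 : HasDerivAt (fun t => ‖v t‖) 0 0 := by
    refine h4.congr_of_eventuallyEq (Filter.Eventually.of_forall fun t => ?_)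
    exact (Real.sqrt_sq (norm_nonneg _)).symm
  have h6' : HasDerivAt (fun t => (‖v t‖)⁻¹) (-0 / ‖v 0‖ ^ 2) 0 := h5.inv (by rw [h0]; norm_num)
  rw [neg_zero, zero_div] at h6'
  have h6 : HasDerivAt (fun t => (‖v t‖)⁻¹) 0 0 := h6'
  have h3 := h6.smul hvd
  rw [h0, inv_one, one_smul, zero_smul, add_zero] at h3
  exact h3

theorem br_principal_alpha (a u : T) (t : ℝ) : HasDerivAt (fun t : ℝ => a + t • u) u t := by
  have := ((hasDerivAt_id t).smul_const u).const_add a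
  rw [one_smul] at this
  exact this

theorem br_principal_beta (b w : Tᗮ) (κ : ℝ) (t : ℝ) :
    HasDerivAt (fun t : ℝ => b - (t * κ) • w) (-(κ • w)) t := by
  have := (((hasDerivAt_id t).mul_const κ).smul_const w).const_sub b
  rw [one_mul] at this
  exact this

theorem br_principal_lop {a : T} {b : Tᗮ} {κ : ℝ} {u : T} (hu : Lop g a b κ u = 0) :
    Hop g a b u + nrm g a (-(κ • fderiv ℝ g a u)) = κ • u := by
  unfold Lop Gop at hu
  simp only [sub_apply, smul_apply, add_apply,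
    ContinuousLinearMap.id_apply, ContinuousLinearMap.comp_apply] at hu
  have h6 : nrm g a (-(κ • fderiv ℝ g a u)) = -(κ • ContinuousLinearMap.adjoint (fderiv ℝ g a) (fderiv ℝ g a u)) := by
    unfold nrm
    rw [map_neg, map_smul]
  rw [h6, ← sub_eq_zero.1 hu, smul_add]
  abel

theorem br_principal_vd (hO : IsOpen O) (hg : ContDiffOn ℝ ∞ g O) {a : T} {b : Tᗮ} (haO : a ∈ O)
    {κ : ℝ} {u : T} (hu : Lop g a b κ u = 0) :
    HasDerivAt (fun t : ℝ => ((-nrm g (a + t • u) (b - (t * κ) • fderiv ℝ g a u) : T) : Eu n)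
      + ((b - (t * κ) • fderiv ℝ g a u : Tᗮ) : Eu n)) (-κ • ((u : Eu n) + (fderiv ℝ g a u : Eu n))) 0 := by
  have h1 := br_principal_nrm hO hg (br_principal_alpha a u 0) (br_principal_beta b (fderiv ℝ g a u) κ 0) (by
    rw [zero_smul, add_zero]; exact haO)
  rw [zero_smul, add_zero, zero_mul, zero_smul, sub_zero, br_principal_lop hu] at h1
  have h2 := T.subtypeL.hasFDerivAt.comp_hasDerivAt (0 : ℝ) h1.neg
  have h3 := Tᗮ.subtypeL.hasFDerivAt.comp_hasDerivAt (0 : ℝ) (br_principal_beta b (fderiv ℝ g a u) κ 0)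
  have h4 := h2.add h3
  have h5 : T.subtypeL (-(κ • u)) + Tᗮ.subtypeL (-(κ • fderiv ℝ g a u))
    = -κ • ((u : Eu n) + (fderiv ℝ g a u : Eu n)) := by
    rw [map_neg, map_neg, map_smul, map_smul, Submodule.subtypeL_apply, Submodule.subtypeL_apply,
      smul_add, neg_smul, neg_smul]
  rw [h5] at h4
  exact h4

theorem br_principal_phid {a : T} (hgd : HasFDerivAt g (fderiv ℝ g a) a) (u : T) :
    HasDerivAt (fun t : ℝ => ((a + t • u : T) : Eu n) + (g (a + t • u) : Eu n))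
      ((u : Eu n) + (fderiv ℝ g a u : Eu n)) 0 := by
  have h2 := T.subtypeL.hasFDerivAt.comp_hasDerivAt (0 : ℝ) (br_principal_alpha a u 0)
  have h3 : HasDerivAt (fun t : ℝ => g (a + t • u)) (fderiv ℝ g a u) 0 := by
    have h4 : HasFDerivAt g (fderiv ℝ g a) (a + (0 : ℝ) • u) := by
      rw [zero_smul, add_zero]; exact hgd
    exact h4.comp_hasDerivAt (0 : ℝ) (br_principal_alpha a u 0)
  have h5 := Tᗮ.subtypeL.hasFDerivAt.comp_hasDerivAt (0 : ℝ) h3
  exact h2.add h5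

end

/-! PLAIN PROOF OF THE TARGET(S)

P, Q projections onto T, T^⊥; a = P x; ι u = u + Dg(a)u.  br_normal: <ξ, u + Dg u> = <Pξ,u> + <Qξ, Dg u> = <Pξ + nrm g a (Qξ), u>
for all u ∈ T.
br_principal (⊆): let C = (c1,c2) be a smooth curve in the unit normal bundle through (x,ξ) with velocity X, X.2 = -κ X.1.  Let α = P c1,
β = Q c2 (for small t, c1(t) ∈ V ∩ M, c1 = φ(α)).  By br_normal at the point c1(t): P c2(t) = -nrm g (α t) (β t).  Differentiate at 0:
P c2' = -(Hop g a b α' + nrm g a β'), b = Qξ, and Q c2' = β'.  X.1 = c1' = α' + Dg α' (so X.1 = ι u, u = α'), X.2 = -κ X.1 gives β' = -κ Dg u and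
P X.2 = -κ u, so -κ u = -(Hop u - κ Dg†Dg u), i.e. Lop g a b κ u = κ(u + Dg†Dg u) - Hop u = 0.
(⊇): given u with Lop g a b κ u = 0 let α(t) = a + t u, β(t) = b - t κ Dg(a) u, v(t) = -nrm g (α t)(β t) + β(t) (in R^n), v(0) = ξ (br_normal),
and C(t) = (φ(α t), v(t)/|v(t)|), for small t a smooth curve in the unit normal bundle (|v(0)| = 1; at φ(α t) ∈ M ∩ V use br_normal,
linear in ξ).  v'(0) = -(Hop u - κ Dg†Dg u) - κ Dg u = -κ (u + Dg u) by Lop u = 0, and <v(0), v'(0)> = -κ <ξ, ι u> = 0 because ξ is normal; so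
(v/|v|)'(0) = v'(0) = -κ X.1.
-/

section
variable {n m : ℕ} {M : Set (Eu n)} {T : Submodule ℝ (Eu n)} {g : T → Tᗮ} {O : Set T} {V : Set (Eu n)}

/-- TARGET -/
theorem br_normal (h : IsChart ∞ m M T g O V) (x : Eu n) (hx : x ∈ M) (hxV : x ∈ V) (ξ : Eu n) :
    (∀ v ∈ velocities M x, ⟪ξ, v⟫_ℝ = 0) ↔ T.orthogonalProjectionOnto ξ =
      -nrm g (T.orthogonalProjectionOnto x) (Tᗮ.orthogonalProjectionOnto ξ) := by
  rw [br_vel h x hx hxV]
  constructor
  · intro h1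
    have h2 : ∀ u : T, ⟪T.orthogonalProjectionOnto ξ + nrm g (T.orthogonalProjectionOnto x)
        (Tᗮ.orthogonalProjectionOnto ξ), u⟫_ℝ = 0 := by
      intro u
      have h3 := h1 _ ⟨u, rfl⟩
      rw [br_normal_inner] at h3
      exact h3
    have h4 := inner_self_eq_zero.1 (h2 (T.orthogonalProjectionOnto ξ + nrm g (T.orthogonalProjectionOnto x)
        (Tᗮ.orthogonalProjectionOnto ξ)))
    exact eq_neg_of_add_eq_zero_left h4
  · rintro h1 _ ⟨u, rfl⟩
    beta_reduce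
    rw [br_normal_inner, h1]
    unfold nrm
    rw [neg_add_cancel, inner_zero_left]

theorem br_principal_sub (h : IsChart ∞ m M T g O V) (x : Eu n) (hxV : x ∈ V) (ξ : Eu n)
    (hz : (x, ξ) ∈ unitNormalBundle M) (κ : ℝ) (X : Eu n × Eu n) :
    (X ∈ principalSpace M (x, ξ) κ) → (∃ u : T,
      Lop g (T.orthogonalProjectionOnto x) (Tᗮ.orthogonalProjectionOnto ξ) κ u = 0 ∧
      X.1 = (u : Eu n) + (fderiv ℝ g (T.orthogonalProjectionOnto x) u : Eu n) ∧ X.2 = -κ • X.1) := by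
  obtain ⟨hxM, hξ1, hξn⟩ := hz
  change x ∈ M at hxM
  change ‖ξ‖ = 1 at hξ1
  change ∀ v ∈ velocities M x, ⟪ξ, v⟫_ℝ = 0 at hξn
  set a : T := T.orthogonalProjectionOnto x with ha
  set b : Tᗮ := Tᗮ.orthogonalProjectionOnto ξ with hb
  have haO : a ∈ O := (h.mem x hxV).1
  have hga : Tᗮ.orthogonalProjectionOnto x = g a := (h.mem x hxV).2.1 hxM
  have hgd : HasFDerivAt g (fderiv ℝ g a) a :=
    ((h.smooth.differentiableOn (by norm_num)).differentiableAt (h.openO.mem_nhds haO)).hasFDerivAt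
  have hPξ : T.orthogonalProjectionOnto ξ = -nrm g a b := (br_normal h x hxM hxV ξ).1 hξn
  rintro ⟨⟨C, ⟨hC0, δ, hδ, hCs, hCm⟩, hCd⟩, hX⟩
  have h0 : (0 : ℝ) ∈ Ioo (-δ) δ := ⟨by linarith, hδ⟩
  have hCD : HasDerivAt C X 0 := by
    rw [← hCd]
    exact ((hCs.differentiableOn (by norm_num)).differentiableAt
      (isOpen_Ioo.mem_nhds h0)).hasDerivAt
  have hc1 : HasDerivAt (fun t => (C t).1) X.1 0 :=
    (hasFDerivAt_fst (𝕜 := ℝ) (p := C 0)).comp_hasDerivAt (0 : ℝ) hCD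
  have hc2 : HasDerivAt (fun t => (C t).2) X.2 0 :=
    (hasFDerivAt_snd (𝕜 := ℝ) (p := C 0)).comp_hasDerivAt (0 : ℝ) hCD
  have hα : HasDerivAt (fun t => T.orthogonalProjectionOnto (C t).1) (T.orthogonalProjectionOnto X.1) 0 :=
    T.orthogonalProjectionOnto.hasFDerivAt.comp_hasDerivAt (0 : ℝ) hc1
  have hα2 : HasDerivAt (fun t => Tᗮ.orthogonalProjectionOnto (C t).1) (Tᗮ.orthogonalProjectionOnto X.1) 0 :=
    Tᗮ.orthogonalProjectionOnto.hasFDerivAt.comp_hasDerivAt (0 : ℝ) hc1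
  have hβ2 : HasDerivAt (fun t => T.orthogonalProjectionOnto (C t).2) (T.orthogonalProjectionOnto X.2) 0 :=
    T.orthogonalProjectionOnto.hasFDerivAt.comp_hasDerivAt (0 : ℝ) hc2
  have hβ : HasDerivAt (fun t => Tᗮ.orthogonalProjectionOnto (C t).2) (Tᗮ.orthogonalProjectionOnto X.2) 0 :=
    Tᗮ.orthogonalProjectionOnto.hasFDerivAt.comp_hasDerivAt (0 : ℝ) hc2
  have hev : ∀ᶠ t in 𝓝 (0 : ℝ), (C t).1 ∈ V ∧ C t ∈ unitNormalBundle M := by
    have e1 : ∀ᶠ t in 𝓝 (0 : ℝ), (C t).1 ∈ V := by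
      refine hc1.continuousAt.eventually_mem (h.openV.mem_nhds ?_)
      beta_reduce
      rw [hC0]; exact hxV
    have e2 : ∀ᶠ t in 𝓝 (0 : ℝ), t ∈ Ioo (-δ) δ := isOpen_Ioo.mem_nhds h0
    filter_upwards [e1, e2] with t ht1 ht2
    exact ⟨ht1, hCm t ht2⟩
  have hα0 : T.orthogonalProjectionOnto (C 0).1 = a := by rw [hC0]
  have hβ0 : Tᗮ.orthogonalProjectionOnto (C 0).2 = b := by rw [hC0]
  -- first relation
  have r1 : Tᗮ.orthogonalProjectionOnto X.1 = fderiv ℝ g a (T.orthogonalProjectionOnto X.1) := by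
    have h1 : HasDerivAt (fun t => g (T.orthogonalProjectionOnto (C t).1))
        (fderiv ℝ g a (T.orthogonalProjectionOnto X.1)) 0 := by
      have h2 : HasFDerivAt g (fderiv ℝ g a) (T.orthogonalProjectionOnto (C 0).1) := by
        rw [hα0]; exact hgd
      exact h2.comp_hasDerivAt (0 : ℝ) hα
    have h3 : (fun t => g (T.orthogonalProjectionOnto (C t).1)) =ᶠ[𝓝 0]
        (fun t => Tᗮ.orthogonalProjectionOnto (C t).1) := by
      filter_upwards [hev] with t ht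
      exact ((h.mem _ ht.1).2.1 ht.2.1).symm
    exact hα2.unique (h1.congr_of_eventuallyEq h3.symm)
  have r2 : T.orthogonalProjectionOnto X.2 = -(Hop g a b (T.orthogonalProjectionOnto X.1)
      + nrm g a (Tᗮ.orthogonalProjectionOnto X.2)) := by
    have h1 := br_principal_nrm h.openO h.smooth hα hβ (by
      beta_reduce; rw [hα0]; exact haO)
    beta_reduce at h1
    rw [hα0, hβ0] at h1
    have h3 : (fun t => T.orthogonalProjectionOnto (C t).2) =ᶠ[𝓝 0]
        (fun t => -nrm g (T.orthogonalProjectionOnto (C t).1) (Tᗮ.orthogonalProjectionOnto (C t).2)) := by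
      filter_upwards [hev] with t ht
      exact (br_normal h _ ht.2.1 ht.1 _).1 ht.2.2.2
    exact hβ2.unique (h1.neg.congr_of_eventuallyEq h3)
  have hX1 : X.1 = ((T.orthogonalProjectionOnto X.1 : T) : Eu n)
      + (fderiv ℝ g a (T.orthogonalProjectionOnto X.1) : Eu n) := by
    rw [← r1]
    exact (br_principal_split T X.1).symm
  refine ⟨T.orthogonalProjectionOnto X.1, ?_, hX1, hX⟩
  have q1 : T.orthogonalProjectionOnto X.2 = -κ • T.orthogonalProjectionOnto X.1 := by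
    rw [hX, map_smul]
  have q2 : Tᗮ.orthogonalProjectionOnto X.2 = -κ • fderiv ℝ g a (T.orthogonalProjectionOnto X.1) := by
    rw [hX, map_smul, r1]
  rw [q1, q2] at r2
  unfold Lop Gop
  unfold nrm at r2
  simp only [sub_apply, smul_apply, add_apply,
    ContinuousLinearMap.id_apply, ContinuousLinearMap.comp_apply, map_smul] at r2 ⊢
  rw [neg_smul, neg_smul, neg_inj] at r2
  rw [smul_add, r2]
  abel


theorem br_principal_curve (h : IsChart ∞ m M T g O V) {a : T} {b : Tᗮ} {x ξ : Eu n} {κ : ℝ} {X : Eu n × Eu n}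
    {α : ℝ → T} {β : ℝ → Tᗮ} (hαs : ContDiff ℝ ∞ α) (hβs : ContDiff ℝ ∞ β) (hSo : IsOpen (α ⁻¹' O))
    (h0S : (0 : ℝ) ∈ α ⁻¹' O) (hα0 : α 0 = a) (hβ0 : β 0 = b)
    (hxs : x = (a : Eu n) + (g a : Eu n)) (hξs : ξ = ((-nrm g a b : T) : Eu n) + (b : Eu n))
    (hxV : x ∈ V) (hξ1 : ‖ξ‖ = 1)
    (hvd : HasDerivAt (fun t : ℝ => ((-nrm g (α t) (β t) : T) : Eu n) + (β t : Eu n)) (-κ • X.1) 0)
    (hφd : HasDerivAt (fun t : ℝ => (α t : Eu n) + (g (α t) : Eu n)) X.1 0)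
    (hperp : ⟪ξ, -κ • X.1⟫_ℝ = 0) (hX2 : X.2 = -κ • X.1) :
    X ∈ velocities (unitNormalBundle M) (x, ξ) := by
  set φ : ℝ → Eu n := fun t => (α t : Eu n) + (g (α t) : Eu n) with hφ
  set v : ℝ → Eu n := fun t => ((-nrm g (α t) (β t) : T) : Eu n) + (β t : Eu n) with hv
  have hφ0 : φ 0 = x := by
    simp only [hφ, hα0]
    exact hxs.symm
  have hv0 : v 0 = ξ := by
    simp only [hv, hα0, hβ0]
    exact hξs.symm
  have hgs : ContDiffOn ℝ ∞ (fun t => g (α t)) (α ⁻¹' O) := h.smooth.comp hαs.contDiffOn (fun t ht => ht)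
  have hφs : ContDiffOn ℝ ∞ φ (α ⁻¹' O) :=
    (T.subtypeL.contDiff.comp_contDiffOn hαs.contDiffOn).add (Tᗮ.subtypeL.contDiff.comp_contDiffOn hgs)
  have hns : ContDiffOn ℝ ∞ (fun t => nrm g (α t) (β t)) (α ⁻¹' O) :=
    br_principal_nrm_smooth h.openO h.smooth hαs.contDiffOn hβs.contDiffOn (fun t ht => ht)
  have hvs : ContDiffOn ℝ ∞ v (α ⁻¹' O) :=
    (T.subtypeL.contDiff.comp_contDiffOn hns.neg).add (Tᗮ.subtypeL.contDiff.comp_contDiffOn hβs.contDiffOn)
  have hev : ∀ᶠ t in 𝓝 (0 : ℝ), α t ∈ O ∧ φ t ∈ V ∧ v t ≠ 0 := by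
    have e1 : ∀ᶠ t in 𝓝 (0 : ℝ), α t ∈ O := hSo.mem_nhds h0S
    have e2 : ∀ᶠ t in 𝓝 (0 : ℝ), φ t ∈ V := by
      refine ((hφs.continuousOn).continuousAt (hSo.mem_nhds h0S)).eventually_mem (h.openV.mem_nhds ?_)
      rw [hφ0]; exact hxV
    have e3 : ∀ᶠ t in 𝓝 (0 : ℝ), v t ≠ 0 := by
      refine ((hvs.continuousOn).continuousAt (hSo.mem_nhds h0S)).eventually_ne ?_
      rw [hv0]
      intro h9
      rw [h9, norm_zero] at hξ1
      exact zero_ne_one hξ1
    filter_upwards [e1, e2, e3] with t h1 h2 h3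
    exact ⟨h1, h2, h3⟩
  obtain ⟨δ, hδ, hball⟩ := Metric.eventually_nhds_iff.1 hev
  have hIoo : ∀ t ∈ Ioo (-δ) δ, α t ∈ O ∧ φ t ∈ V ∧ v t ≠ 0 := by
    intro t ht
    apply hball
    rw [Real.dist_eq, sub_zero, abs_lt]
    exact ht
  refine ⟨fun t => (φ t, (‖v t‖)⁻¹ • v t), ⟨?_, δ, hδ, ?_, ?_⟩, ?_⟩
  · beta_reduce
    rw [hφ0, hv0, hξ1, inv_one, one_smul]
  · have hsub : Ioo (-δ) δ ⊆ α ⁻¹' O := fun t ht => (hIoo t ht).1
    have hvI : ContDiffOn ℝ ∞ v (Ioo (-δ) δ) := hvs.mono hsub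
    have hn1 : ContDiffOn ℝ ∞ (fun t => ‖v t‖) (Ioo (-δ) δ) := hvI.norm ℝ (fun t ht => (hIoo t ht).2.2)
    have hn2 : ContDiffOn ℝ ∞ (fun t => (‖v t‖)⁻¹) (Ioo (-δ) δ) := by
      refine ContDiffOn.inv hn1 ?_
      intro t ht
      exact norm_ne_zero_iff.2 (hIoo t ht).2.2
    have hn3 : ContDiffOn ℝ ∞ (fun t => (‖v t‖)⁻¹ • v t) (Ioo (-δ) δ) := hn2.smul hvI
    exact (hφs.mono hsub).prodMk hn3
  · intro t ht
    obtain ⟨i1, i2, i3⟩ := hIoo t ht
    have hPφ : T.orthogonalProjectionOnto (φ t) = α t := br_principal_P T _ _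
    have hQφ : Tᗮ.orthogonalProjectionOnto (φ t) = g (α t) := br_principal_Q T _ _
    have hφM : φ t ∈ M := by
      rw [(h.mem _ i2).2, hPφ, hQφ]
    refine ⟨hφM, ?_, ?_⟩
    · change ‖(‖v t‖)⁻¹ • v t‖ = 1
      rw [norm_smul, norm_inv, norm_norm]
      exact inv_mul_cancel₀ (norm_ne_zero_iff.2 i3)
    · change ∀ w ∈ velocities M (φ t), ⟪(‖v t‖)⁻¹ • v t, w⟫_ℝ = 0
      rw [br_normal h _ hφM i2, hPφ, map_smul, map_smul]
      have hPv : T.orthogonalProjectionOnto (v t) = -nrm g (α t) (β t) := br_principal_P T _ _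
      have hQv : Tᗮ.orthogonalProjectionOnto (v t) = β t := br_principal_Q T _ _
      rw [hPv, hQv]
      unfold nrm
      rw [map_smul, smul_neg]
  · rw [← hX2] at hvd hperp
    exact (hφd.prodMk (br_principal_nd hvd (by rw [hv0]; exact hξ1) (by rw [hv0]; exact hperp))).deriv

theorem br_principal_sup (h : IsChart ∞ m M T g O V) (x : Eu n) (hxV : x ∈ V) (ξ : Eu n)
    (hz : (x, ξ) ∈ unitNormalBundle M) (κ : ℝ) (X : Eu n × Eu n) :
    (∃ u : T,
      Lop g (T.orthogonalProjectionOnto x) (Tᗮ.orthogonalProjectionOnto ξ) κ u = 0 ∧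
      X.1 = (u : Eu n) + (fderiv ℝ g (T.orthogonalProjectionOnto x) u : Eu n) ∧ X.2 = -κ • X.1) → (X ∈ principalSpace M (x, ξ) κ) := by
  obtain ⟨hxM, hξ1, hξn⟩ := hz
  change x ∈ M at hxM
  change ‖ξ‖ = 1 at hξ1
  change ∀ v ∈ velocities M x, ⟪ξ, v⟫_ℝ = 0 at hξn
  set a : T := T.orthogonalProjectionOnto x with ha
  set b : Tᗮ := Tᗮ.orthogonalProjectionOnto ξ with hb
  have haO : a ∈ O := (h.mem x hxV).1
  have hga : Tᗮ.orthogonalProjectionOnto x = g a := (h.mem x hxV).2.1 hxM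
  have hgd : HasFDerivAt g (fderiv ℝ g a) a :=
    ((h.smooth.differentiableOn (by norm_num)).differentiableAt (h.openO.mem_nhds haO)).hasFDerivAt
  have hPξ : T.orthogonalProjectionOnto ξ = -nrm g a b := (br_normal h x hxM hxV ξ).1 hξn
  rintro ⟨u, hu, hX1, hX2⟩
  refine ⟨?_, hX2⟩
  have hvd := br_principal_vd h.openO h.smooth haO hu
  have hφd := br_principal_phid hgd u
  have hxs : x = (a : Eu n) + (g a : Eu n) := by
    rw [← hga]; exact (br_principal_split T x).symm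
  have hξs : ξ = ((-nrm g a b : T) : Eu n) + (b : Eu n) := by
    rw [← hPξ]; exact (br_principal_split T ξ).symm
  rw [← hX1] at hvd hφd
  have hperp : ⟪ξ, -κ • X.1⟫_ℝ = 0 := by
    rw [inner_smul_right]
    have h3 : ⟪ξ, X.1⟫_ℝ = 0 := by
      apply hξn
      rw [br_vel h x hxM hxV]
      exact ⟨u, hX1.symm⟩
    rw [h3, mul_zero]
  clear_value a b
  clear hX1 hga hPξ hb ha
  set w : Tᗮ := fderiv ℝ g a u with hw
  clear_value w
  set α : ℝ → T := fun t => a + t • u with hα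
  set β : ℝ → Tᗮ := fun t => b - (t * κ) • w with hβ
  have hα0 : α 0 = a := by simp [hα]
  have hβ0 : β 0 = b := by simp [hβ]
  have hαs : ContDiff ℝ ∞ α := contDiff_const.add (contDiff_id.smul contDiff_const)
  have hβs : ContDiff ℝ ∞ β := contDiff_const.sub ((contDiff_id.mul contDiff_const).smul contDiff_const)
  have hSo : IsOpen (α ⁻¹' O) := h.openO.preimage hαs.continuous
  have h0S : (0 : ℝ) ∈ α ⁻¹' O := by
    change α 0 ∈ O
    rw [hα0]; exact haO
  exact br_principal_curve h hαs hβs hSo h0S hα0 hβ0 hxs hξs hxV hξ1 hvd hφd hperp hX2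

/-- TARGET -/
theorem br_principal (h : IsChart ∞ m M T g O V) (x : Eu n) (hxV : x ∈ V) (ξ : Eu n)
    (hz : (x, ξ) ∈ unitNormalBundle M) (κ : ℝ) :
    principalSpace M (x, ξ) κ = {X | ∃ u : T,
      Lop g (T.orthogonalProjectionOnto x) (Tᗮ.orthogonalProjectionOnto ξ) κ u = 0 ∧
      X.1 = (u : Eu n) + (fderiv ℝ g (T.orthogonalProjectionOnto x) u : Eu n) ∧ X.2 = -κ • X.1} := by
  ext X
  exact ⟨br_principal_sub h x hxV ξ hz κ X, br_principal_sup h x hxV ξ hz κ X⟩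

end

end Pool.Agent.H469
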