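import Pool.Agent.Helper469_Dupin.Chart
import Pool.Agent.Helper469_Dupin.Jbrvel
import Pool.Agent.Helper469_Dupin.Jbrprin
import Pool.Agent.Helper469_Dupin.Jlop

set_option autoImplicit false

open Set Filter Topology MeasureTheory
open scoped ContDiff InnerProductSpace

namespace Pool.Agent.H469


section aux
variable {F W : Type} [NormedAddCommGroup F] [InnerProductSpace ℝ F] [FiniteDimensional ℝ F]
  [NormedAddCommGroup W] [InnerProductSpace ℝ W] [FiniteDimensional ℝ W]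

/-- the adjoint as a real linear map -/
noncomputable def dupinLoc_of_isDupin_adj : (F →L[ℝ] W) →L[ℝ] (W →L[ℝ] F) :=
  LinearMap.toContinuousLinearMap
    { toFun := fun A => ContinuousLinearMap.adjoint A
      map_add' := fun A B => map_add _ A B
      map_smul' := fun c A => by simp }

theorem dupinLoc_of_isDupin_adj_apply (A : F →L[ℝ] W) :
    dupinLoc_of_isDupin_adj A = ContinuousLinearMap.adjoint A := rfl

theorem dupinLoc_of_isDupin_nrm (g : F → W) (a : F) (b : W) :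
    nrm g a b = dupinLoc_of_isDupin_adj (fderiv ℝ g a) b := rfl

theorem dupinLoc_of_isDupin_nrm_smul (g : F → W) (a : F) (b : W) (c : ℝ) : nrm g a (c • b) = c • nrm g a b := by
  simp [nrm]

omit [FiniteDimensional ℝ F] [FiniteDimensional ℝ W] in
theorem dupinLoc_of_isDupin_smoothFd (g : F → W) (O : Set F) (hO : IsOpen O) (hg : ContDiffOn ℝ ∞ g O) :
    ContDiffOn ℝ ∞ (fderiv ℝ g) O := hg.fderiv_of_isOpen hO (by simp)

theorem dupinLoc_of_isDupin_hop (g : F → W) (O : Set F) (hO : IsOpen O) (hg : ContDiffOn ℝ ∞ g O) (a : F) (ha : a ∈ O)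
    (b : W) (u : F) : Hop g a b u = dupinLoc_of_isDupin_adj (fderiv ℝ (fderiv ℝ g) a u) b := by
  have h1 : HasFDerivAt (fderiv ℝ g) (fderiv ℝ (fderiv ℝ g) a) a :=
    (((dupinLoc_of_isDupin_smoothFd g O hO hg).differentiableOn (by simp)).differentiableAt
      (hO.mem_nhds ha)).hasFDerivAt
  have h2 : HasFDerivAt (fun a' => dupinLoc_of_isDupin_adj (fderiv ℝ g a'))
      (dupinLoc_of_isDupin_adj.comp (fderiv ℝ (fderiv ℝ g) a)) a :=
    (dupinLoc_of_isDupin_adj (F := F) (W := W)).hasFDerivAt.comp a h1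
  have h3 : HasFDerivAt ((ContinuousLinearMap.apply ℝ F b : (W →L[ℝ] F) →L[ℝ] F) ∘
        fun a' => dupinLoc_of_isDupin_adj (fderiv ℝ g a'))
      ((ContinuousLinearMap.apply ℝ F b : (W →L[ℝ] F) →L[ℝ] F).comp
        (dupinLoc_of_isDupin_adj.comp (fderiv ℝ (fderiv ℝ g) a))) a :=
    HasFDerivAt.comp a (ContinuousLinearMap.hasFDerivAt _) h2
  have h4 : ((ContinuousLinearMap.apply ℝ F b : (W →L[ℝ] F) →L[ℝ] F) ∘
        fun a' => dupinLoc_of_isDupin_adj (fderiv ℝ g a')) = fun a' => nrm g a' b := rfl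
  unfold Hop
  rw [← h4, h3.fderiv]
  rfl

theorem dupinLoc_of_isDupin_hop_smul (g : F → W) (O : Set F) (hO : IsOpen O) (hg : ContDiffOn ℝ ∞ g O) (a : F)
    (ha : a ∈ O) (b : W) (c : ℝ) (u : F) : Hop g a (c • b) u = c • Hop g a b u := by
  rw [dupinLoc_of_isDupin_hop g O hO hg a ha, dupinLoc_of_isDupin_hop g O hO hg a ha]
  simp

theorem dupinLoc_of_isDupin_lop (g : F → W) (a : F) (b : W) (ε : ℝ) (u : F) :
    Lop g a b ε u = ε • (u + ContinuousLinearMap.adjoint (fderiv ℝ g a) (fderiv ℝ g a u)) - Hop g a b u := by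
  simp [Lop, Gop]

theorem dupinLoc_of_isDupin_lop_smul (g : F → W) (O : Set F) (hO : IsOpen O) (hg : ContDiffOn ℝ ∞ g O) (a : F)
    (ha : a ∈ O) (b : W) (c ε : ℝ) (u : F) : Lop g a (c • b) (c * ε) u = c • Lop g a b ε u := by
  rw [dupinLoc_of_isDupin_lop, dupinLoc_of_isDupin_lop, dupinLoc_of_isDupin_hop_smul g O hO hg a ha, smul_sub,
    mul_smul]

/-- the derivative of the tangential part of the normal vector -/
theorem dupinLoc_of_isDupin_dnrm (g : F → W) (O : Set F) (hO : IsOpen O) (hg : ContDiffOn ℝ ∞ g O) (α : ℝ → F)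
    (β : ℝ → W) (τ : ℝ) (α' : F) (β' : W) (hα : HasDerivAt α α' τ) (hβ : HasDerivAt β β' τ) (ha : α τ ∈ O) :
    HasDerivAt (fun x => nrm g (α x) (β x)) (Hop g (α τ) (β τ) α' + nrm g (α τ) β') τ := by
  have h1 : HasFDerivAt (fderiv ℝ g) (fderiv ℝ (fderiv ℝ g) (α τ)) (α τ) :=
    (((dupinLoc_of_isDupin_smoothFd g O hO hg).differentiableOn (by simp)).differentiableAt
      (hO.mem_nhds ha)).hasFDerivAt
  have h2 : HasDerivAt (fun x => fderiv ℝ g (α x)) (fderiv ℝ (fderiv ℝ g) (α τ) α') τ := h1.comp_hasDerivAt τ hα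
  have h3 : HasDerivAt (fun x => dupinLoc_of_isDupin_adj (fderiv ℝ g (α x)))
      (dupinLoc_of_isDupin_adj (fderiv ℝ (fderiv ℝ g) (α τ) α')) τ :=
    (dupinLoc_of_isDupin_adj (F := F) (W := W)).hasFDerivAt.comp_hasDerivAt τ h2
  have h4 := h3.clm_apply hβ
  rw [dupinLoc_of_isDupin_hop g O hO hg _ ha]
  exact h4

theorem dupinLoc_of_isDupin_smoothAdj {s t : ℝ} {A : ℝ → F →L[ℝ] W} (hA : ContDiffOn ℝ ∞ A (Ioo s t)) :
    ContDiffOn ℝ ∞ (fun x => dupinLoc_of_isDupin_adj (A x)) (Ioo s t) :=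
  (ContinuousLinearMap.contDiff (dupinLoc_of_isDupin_adj (F := F) (W := W))).comp_contDiffOn hA

end aux

section aux2
variable {n : ℕ} {T : Submodule ℝ (Eu n)}

theorem dupinLoc_of_isDupin_P (a : T) (b : Tᗮ) : T.orthogonalProjectionOnto ((a : Eu n) + (b : Eu n)) = a := by
  rw [map_add, Submodule.orthogonalProjectionOnto_mem_subspace_eq_self,
    Submodule.orthogonalProjectionOnto_apply_of_mem_orthogonal b.2, add_zero]

theorem dupinLoc_of_isDupin_Q (a : T) (b : Tᗮ) : Tᗮ.orthogonalProjectionOnto ((a : Eu n) + (b : Eu n)) = b := by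
  rw [map_add, Submodule.orthogonalProjectionOnto_mem_subspace_eq_self,
    Submodule.orthogonalProjectionOnto_orthogonal_apply_eq_zero a.2, zero_add]

/-- the map of a curve on the interval of the first coordinate -/
theorem dupinLoc_of_isDupin_fd {G : Type} [NormedAddCommGroup G] [NormedSpace ℝ G] (Φ : ℝ → G) (Φ' : G)
    (u : Eu 1) (h : HasDerivAt Φ Φ' (u 0)) :
    HasFDerivAt (fun u : Eu 1 => Φ (u 0))
      ((EuclideanSpace.proj (0 : Fin 1) : Eu 1 →L[ℝ] ℝ).smulRight Φ') u := by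
  have h1 : HasFDerivAt (fun u : Eu 1 => u 0) (EuclideanSpace.proj (0 : Fin 1) : Eu 1 →L[ℝ] ℝ) u :=
    (EuclideanSpace.proj (0 : Fin 1) : Eu 1 →L[ℝ] ℝ).hasFDerivAt
  have h2 := h.hasFDerivAt.comp u h1
  refine h2.congr_fderiv ?_
  ext v
  simp

end aux2

section main
variable {n m : ℕ} {M : Set (Eu n)} {T : Submodule ℝ (Eu n)} {g : T → Tᗮ} {O : Set T} {V : Set (Eu n)}

/-- the normal vector along the curve -/
noncomputable def dupinLoc_of_isDupin_v (g : T → Tᗮ) (α : ℝ → T) (β : ℝ → Tᗮ) (τ : ℝ) : Eu n :=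
  ((-nrm g (α τ) (β τ) : T) : Eu n) + (β τ : Eu n)

theorem dupinLoc_of_isDupin_X (h : IsChart ∞ m M T g O V) (α : ℝ → T) (τ : ℝ) (α' : T)
    (hα : HasDerivAt α α' τ) (ha : α τ ∈ O) :
    HasDerivAt (fun x => cmap T g (α x)) ((α' : Eu n) + (fderiv ℝ g (α τ) α' : Eu n)) τ := by
  have h1 : HasFDerivAt g (fderiv ℝ g (α τ)) (α τ) :=
    ((h.smooth.differentiableOn (by simp)).differentiableAt (h.openO.mem_nhds ha)).hasFDerivAt
  have h2 : HasDerivAt (fun x => g (α x)) (fderiv ℝ g (α τ) α') τ := h1.comp_hasDerivAt τ hα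
  have h3 : HasDerivAt (fun x => (T.subtypeL (α x))) (T.subtypeL α') τ := T.subtypeL.hasFDerivAt.comp_hasDerivAt τ hα
  have h4 : HasDerivAt (fun x => (Tᗮ.subtypeL (g (α x)))) (Tᗮ.subtypeL (fderiv ℝ g (α τ) α')) τ :=
    Tᗮ.subtypeL.hasFDerivAt.comp_hasDerivAt τ h2
  exact h3.add h4

theorem dupinLoc_of_isDupin_dv (h : IsChart ∞ m M T g O V) (α : ℝ → T) (β : ℝ → Tᗮ) (τ : ℝ) (ε : ℝ) (α' : T)
    (hα : HasDerivAt α α' τ) (hβ : HasDerivAt β (-(ε • fderiv ℝ g (α τ) α')) τ) (ha : α τ ∈ O)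
    (hL : Lop g (α τ) (β τ) ε α' = 0) :
    HasDerivAt (dupinLoc_of_isDupin_v g α β) (-(ε • ((α' : Eu n) + (fderiv ℝ g (α τ) α' : Eu n)))) τ := by
  have h1 := dupinLoc_of_isDupin_dnrm g O h.openO h.smooth α β τ α' _ hα hβ ha
  rw [dupinLoc_of_isDupin_lop, sub_eq_zero] at hL
  have h2 : Hop g (α τ) (β τ) α' + nrm g (α τ) (-(ε • fderiv ℝ g (α τ) α')) = ε • α' := by
    rw [← hL]
    simp only [nrm, map_neg, map_smul, smul_add]
    abel
  rw [h2] at h1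
  have h3 : HasDerivAt (fun x => (T.subtypeL (-nrm g (α x) (β x)))) (T.subtypeL (-(ε • α'))) τ :=
    T.subtypeL.hasFDerivAt.comp_hasDerivAt τ h1.neg
  have h4 : HasDerivAt (fun x => (Tᗮ.subtypeL (β x))) (Tᗮ.subtypeL (-(ε • fderiv ℝ g (α τ) α'))) τ :=
    Tᗮ.subtypeL.hasFDerivAt.comp_hasDerivAt τ hβ
  have h5 := h3.add h4
  refine h5.congr_deriv ?_
  simp only [Submodule.subtypeL_apply, Submodule.coe_neg, Submodule.coe_smul, smul_add]
  abel

theorem dupinLoc_of_isDupin_smoothX (h : IsChart ∞ m M T g O V) (α : ℝ → T) (s t : ℝ)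
    (hα : ContDiffOn ℝ ∞ α (Ioo s t)) (ha : ∀ x ∈ Ioo s t, α x ∈ O) :
    ContDiffOn ℝ ∞ (fun x => cmap T g (α x)) (Ioo s t) := by
  have h1 : ContDiffOn ℝ ∞ (fun x => g (α x)) (Ioo s t) := h.smooth.comp hα ha
  have h2 : ContDiffOn ℝ ∞ (fun x => T.subtypeL (α x)) (Ioo s t) := T.subtypeL.contDiff.comp_contDiffOn hα
  have h3 : ContDiffOn ℝ ∞ (fun x => Tᗮ.subtypeL (g (α x))) (Ioo s t) := Tᗮ.subtypeL.contDiff.comp_contDiffOn h1
  exact h2.add h3

theorem dupinLoc_of_isDupin_smoothv (h : IsChart ∞ m M T g O V) (α : ℝ → T) (β : ℝ → Tᗮ) (s t : ℝ)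
    (hα : ContDiffOn ℝ ∞ α (Ioo s t)) (hβ : ContDiffOn ℝ ∞ β (Ioo s t)) (ha : ∀ x ∈ Ioo s t, α x ∈ O) :
    ContDiffOn ℝ ∞ (dupinLoc_of_isDupin_v g α β) (Ioo s t) := by
  have h0 := dupinLoc_of_isDupin_smoothFd g O h.openO h.smooth
  have h1 : ContDiffOn ℝ ∞ (fun x => fderiv ℝ g (α x)) (Ioo s t) := h0.comp hα ha
  have h2 : ContDiffOn ℝ ∞ (fun x => dupinLoc_of_isDupin_adj (fderiv ℝ g (α x))) (Ioo s t) :=
    dupinLoc_of_isDupin_smoothAdj h1
  have h3 : ContDiffOn ℝ ∞ (fun x => nrm g (α x) (β x)) (Ioo s t) := h2.clm_apply hβ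
  have h4 : ContDiffOn ℝ ∞ (fun x => T.subtypeL (-nrm g (α x) (β x))) (Ioo s t) :=
    T.subtypeL.contDiff.comp_contDiffOn h3.neg
  have h5 : ContDiffOn ℝ ∞ (fun x => Tᗮ.subtypeL (β x)) (Ioo s t) := Tᗮ.subtypeL.contDiff.comp_contDiffOn hβ
  exact h4.add h5

end main


/-! PLAIN PROOF OF THE TARGET(S)

Given α, β, e on (s,t) as in the definition of DupinLoc for the set {a ∈ O | φ(a) ∈ V}, φ = cmap T g.  Put X(τ) = φ(α τ) ∈ M ∩ V (as
Q φ(a) = g(a) = g(P φ(a))), v(τ) = -nrm g (α τ)(β τ) + β(τ) ∈ R^n.  By br_normal v(τ) is normal to M at X(τ), and v ≠ 0 as its T^⊥-part β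
is ≠ 0.  Derivative: P v' = -(Hop g α β α' + nrm g α β') with β' = -e Dg α', and Lop g α β e α' = 0 (α' is in the kernel) gives P v' = -e α',
Q v' = β' = -e Dg α', so v' = -e X', X' = α' + Dg α' ≠ 0.  So (|v|²)' = 2<v,v'> = -2e <v,X'> = 0 (X' is tangent, br_vel): |v| = ν > 0 is
constant on (s,t) (connected).  Apply IsDupin with d = 1, U = {u : Eu 1 | u 0 ∈ (s,t)}, ψ(u) = (X(u 0), v(u 0)/ν), κ(u) = e(u 0)/ν
(the case (s,t) empty is trivial; U is open, connected: the image of an interval / convex).  IsCurvatureSurface: smooth; in the unit normal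
bundle; fderiv ψ(u) h = (h 0) • (X', v'/ν), injective since X' ≠ 0; tangent: by br_principal at (X, v/ν) with κ = e/ν, Q(v/ν) = β/ν and
Lop g α (β/ν) (e/ν) = ν^{-1} Lop g α β e (linearity of nrm, Hop in b), whose kernel is R α', so the principal space is
{r (X', -(e/ν) X')} = {r (X', v'/ν)}.  Conclusion: e/ν constant, so e constant.
-/

section
variable {n m : ℕ} {M : Set (Eu n)} {T : Submodule ℝ (Eu n)} {g : T → Tᗮ} {O : Set T} {V : Set (Eu n)}

/-- TARGET -/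
theorem dupinLoc_of_isDupin (h : IsChart ∞ m M T g O V) (hD : IsDupin M) :
    DupinLoc g {a | a ∈ O ∧ cmap T g a ∈ V} := by
  intro α β e s t hα hβ hall x hx y hy
  have hαO : ∀ τ ∈ Ioo s t, α τ ∈ O := fun τ hτ => (hall τ hτ).1.1
  have hdα : ∀ τ ∈ Ioo s t, HasDerivAt α (deriv α τ) τ := fun τ hτ =>
    ((hα.differentiableOn (by simp)).differentiableAt (isOpen_Ioo.mem_nhds hτ)).hasDerivAt
  have hdβ : ∀ τ ∈ Ioo s t, HasDerivAt β (-(e τ • fderiv ℝ g (α τ) (deriv α τ))) τ := fun τ hτ => by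
    rw [← (hall τ hτ).2.2.2.1]
    exact ((hβ.differentiableOn (by simp)).differentiableAt (isOpen_Ioo.mem_nhds hτ)).hasDerivAt
  have hker : ∀ τ ∈ Ioo s t, Lop g (α τ) (β τ) (e τ) (deriv α τ) = 0 := fun τ hτ =>
    ((hall τ hτ).2.2.2.2 _).2 ⟨1, (one_smul _ _).symm⟩
  set X : ℝ → Eu n := fun τ => cmap T g (α τ) with hX
  set X' : ℝ → Eu n := fun τ => ((deriv α τ : T) : Eu n) + ((fderiv ℝ g (α τ) (deriv α τ) : Tᗮ) : Eu n) with hX'
  set v : ℝ → Eu n := dupinLoc_of_isDupin_v g α β with hv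
  have hdX : ∀ τ ∈ Ioo s t, HasDerivAt X (X' τ) τ := fun τ hτ =>
    dupinLoc_of_isDupin_X h α τ _ (hdα τ hτ) (hαO τ hτ)
  have hdv : ∀ τ ∈ Ioo s t, HasDerivAt v (-(e τ • X' τ)) τ := fun τ hτ =>
    dupinLoc_of_isDupin_dv h α β τ (e τ) _ (hdα τ hτ) (hdβ τ hτ) (hαO τ hτ) (hker τ hτ)
  have hPX : ∀ τ, T.orthogonalProjectionOnto (X τ) = α τ := fun τ => dupinLoc_of_isDupin_P _ _
  have hQX : ∀ τ, Tᗮ.orthogonalProjectionOnto (X τ) = g (α τ) := fun τ => dupinLoc_of_isDupin_Q _ _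
  have hPv : ∀ τ, T.orthogonalProjectionOnto (v τ) = -nrm g (α τ) (β τ) := fun τ => dupinLoc_of_isDupin_P _ _
  have hQv : ∀ τ, Tᗮ.orthogonalProjectionOnto (v τ) = β τ := fun τ => dupinLoc_of_isDupin_Q _ _
  have hXV : ∀ τ ∈ Ioo s t, X τ ∈ V := fun τ hτ => (hall τ hτ).1.2
  have hXM : ∀ τ ∈ Ioo s t, X τ ∈ M := fun τ hτ => by
    refine ((h.mem _ (hXV τ hτ)).2).2 ?_
    rw [hPX, hQX]
  -- normality
  have hnorm : ∀ τ ∈ Ioo s t, ∀ w ∈ velocities M (X τ), ⟪v τ, w⟫_ℝ = 0 := fun τ hτ => by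
    rw [br_normal h (X τ) (hXM τ hτ) (hXV τ hτ), hPX, hPv, hQv]
  have hX'v : ∀ τ ∈ Ioo s t, X' τ ∈ velocities M (X τ) := fun τ hτ => by
    rw [br_vel h (X τ) (hXM τ hτ) (hXV τ hτ), hPX]
    exact ⟨deriv α τ, rfl⟩
  have hX'0 : ∀ τ ∈ Ioo s t, X' τ ≠ 0 := fun τ hτ h0 => by
    have h1 : T.orthogonalProjectionOnto (X' τ) = deriv α τ := dupinLoc_of_isDupin_P _ _
    rw [h0, map_zero] at h1
    exact (hall τ hτ).2.2.1 h1.symm
  -- the norm is constant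
  have hconst : ∀ τ ∈ Ioo s t, ‖v τ‖ = ‖v x‖ := by
    intro τ hτ
    have hd : ∀ τ ∈ Ioo s t, HasDerivAt (fun τ => ⟪v τ, v τ⟫_ℝ) 0 τ := by
      intro τ hτ
      have h1 := (hdv τ hτ).inner ℝ (hdv τ hτ)
      refine h1.congr_deriv ?_
      have h2 := hnorm τ hτ _ (hX'v τ hτ)
      rw [real_inner_comm (v τ) (-(e τ • X' τ)), inner_neg_right, inner_smul_right, h2]
      simp
    have h3 := isOpen_Ioo.is_const_of_deriv_eq_zero (convex_Ioo s t).isPreconnected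
      (fun τ hτ => (hd τ hτ).differentiableAt.differentiableWithinAt) (fun τ hτ => (hd τ hτ).deriv) hτ hx
    change ⟪v τ, v τ⟫_ℝ = ⟪v x, v x⟫_ℝ at h3
    rw [real_inner_self_eq_norm_sq, real_inner_self_eq_norm_sq] at h3
    exact (sq_eq_sq₀ (norm_nonneg _) (norm_nonneg _)).1 h3
  have hν : 0 < ‖v x‖ := by
    rw [norm_pos_iff]
    intro h0
    have h1 := hQv x
    rw [h0, map_zero] at h1
    exact (hall x hx).2.1 h1.symm
  set ν : ℝ := ‖v x‖ with hνdef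
  -- the curvature surface
  set Φ : ℝ → Eu n × Eu n := fun τ => (X τ, ν⁻¹ • v τ) with hΦ
  have hdΦ : ∀ τ ∈ Ioo s t, HasDerivAt Φ (X' τ, ν⁻¹ • -(e τ • X' τ)) τ := fun τ hτ =>
    (hdX τ hτ).prodMk ((hdv τ hτ).const_smul ν⁻¹)
  have hfd : ∀ u : Eu 1, u 0 ∈ Ioo s t → fderiv ℝ (fun u : Eu 1 => Φ (u 0)) u =
      (EuclideanSpace.proj (0 : Fin 1) : Eu 1 →L[ℝ] ℝ).smulRight (X' (u 0), ν⁻¹ • -(e (u 0) • X' (u 0))) :=
    fun u hu => (dupinLoc_of_isDupin_fd Φ _ u (hdΦ _ hu)).fderiv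
  have hmem : ∀ τ ∈ Ioo s t, Φ τ ∈ unitNormalBundle M := by
    intro τ hτ
    refine ⟨hXM τ hτ, ?_, ?_⟩
    · change ‖ν⁻¹ • v τ‖ = 1
      rw [norm_smul, hconst τ hτ, norm_inv, Real.norm_of_nonneg hν.le]
      exact inv_mul_cancel₀ hν.ne'
    · intro w hw
      change ⟪ν⁻¹ • v τ, w⟫_ℝ = 0
      rw [real_inner_smul_left, hnorm τ hτ w hw, mul_zero]
  have hU : Convex ℝ {u : Eu 1 | u 0 ∈ Ioo s t} :=
    (convex_Ioo s t).linear_preimage (EuclideanSpace.proj (0 : Fin 1) : Eu 1 →L[ℝ] ℝ).toLinearMap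
  have hcs : IsCurvatureSurface M {u : Eu 1 | u 0 ∈ Ioo s t} (fun u => Φ (u 0)) (fun u => ν⁻¹ * e (u 0)) := by
    refine ⟨?_, ?_, ?_, ?_⟩
    · have h1 : ContDiffOn ℝ ∞ Φ (Ioo s t) :=
        (dupinLoc_of_isDupin_smoothX h α s t hα hαO).prodMk
          ((dupinLoc_of_isDupin_smoothv h α β s t hα hβ hαO).const_smul ν⁻¹)
      exact h1.comp (EuclideanSpace.proj (0 : Fin 1) : Eu 1 →L[ℝ] ℝ).contDiff.contDiffOn (fun u hu => hu)
    · intro u hu; exact hmem _ hu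
    · intro u hu
      rw [hfd u hu]
      intro a b hab
      have h1 : (a 0) • X' (u 0) = (b 0) • X' (u 0) := congrArg Prod.fst hab
      have h2 : a 0 = b 0 := smul_left_injective ℝ (hX'0 _ hu) h1
      ext i
      rw [Subsingleton.elim i 0]
      exact h2
    · intro u hu
      have hz := hmem _ hu
      change Set.range (fderiv ℝ (fun u : Eu 1 => Φ (u 0)) u) =
        principalSpace M (X (u 0), ν⁻¹ • v (u 0)) (ν⁻¹ * e (u 0))
      rw [hfd u hu, br_principal h (X (u 0)) (hXV _ hu) (ν⁻¹ • v (u 0)) hz, hPX, map_smul, hQv]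
      ext Y
      constructor
      · rintro ⟨w, rfl⟩
        refine ⟨w 0 • deriv α (u 0), ?_, ?_, ?_⟩
        · rw [dupinLoc_of_isDupin_lop_smul g O h.openO h.smooth _ (hαO _ hu), map_smul, hker _ hu, smul_zero,
            smul_zero]
        · change w 0 • X' (u 0) = _
          simp [hX', smul_add]
        · change w 0 • (ν⁻¹ • -(e (u 0) • X' (u 0))) = -(ν⁻¹ * e (u 0)) • (w 0 • X' (u 0))
          module
      · rintro ⟨w, h1, h2, h3⟩
        rw [dupinLoc_of_isDupin_lop_smul g O h.openO h.smooth _ (hαO _ hu)] at h1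
        have h4 : Lop g (α (u 0)) (β (u 0)) (e (u 0)) w = 0 := (smul_eq_zero.1 h1).resolve_left (inv_ne_zero hν.ne')
        obtain ⟨r, hr⟩ := ((hall _ hu).2.2.2.2 w).1 h4
        refine ⟨EuclideanSpace.single 0 r, ?_⟩
        have h5 : Y.1 = r • X' (u 0) := by
          rw [h2, hr]
          simp [hX', smul_add]
        have h6 : (EuclideanSpace.single (0 : Fin 1) r : Eu 1) 0 = r := by simp
        refine Prod.ext ?_ ?_
        · change (EuclideanSpace.single (0 : Fin 1) r : Eu 1) 0 • X' (u 0) = Y.1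
          rw [h6, h5]
        · change (EuclideanSpace.single (0 : Fin 1) r : Eu 1) 0 • (ν⁻¹ • -(e (u 0) • X' (u 0))) = Y.2
          rw [h6, h3, h5]
          module
  have hx1 : (EuclideanSpace.single (0 : Fin 1) x : Eu 1) 0 = x := by simp
  have hy1 : (EuclideanSpace.single (0 : Fin 1) y : Eu 1) 0 = y := by simp
  have hxU : (EuclideanSpace.single (0 : Fin 1) x : Eu 1) ∈ {u : Eu 1 | u 0 ∈ Ioo s t} := by
    change (EuclideanSpace.single (0 : Fin 1) x : Eu 1) 0 ∈ Ioo s t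
    rw [hx1]; exact hx
  have hyU : (EuclideanSpace.single (0 : Fin 1) y : Eu 1) ∈ {u : Eu 1 | u 0 ∈ Ioo s t} := by
    change (EuclideanSpace.single (0 : Fin 1) y : Eu 1) 0 ∈ Ioo s t
    rw [hy1]; exact hy
  have hopen : IsOpen {u : Eu 1 | u 0 ∈ Ioo s t} :=
    isOpen_Ioo.preimage (EuclideanSpace.proj (0 : Fin 1) : Eu 1 →L[ℝ] ℝ).continuous
  have key := hD 1 _ _ _ one_pos hopen ⟨⟨_, hxU⟩, hU.isPreconnected⟩ hcs _ hxU _ hyU
  simp only [hx1, hy1] at key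
  exact mul_left_cancel₀ (inv_ne_zero hν.ne') key

end

end Pool.Agent.H469
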