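import Mathlib
import Pool.Agent.Helper469_Dupin.DefsB
import Pool.Agent.Helper469_Dupin.Jbcirc
import Pool.Agent.Helper469_Dupin.Jbpre
import Pool.Agent.Helper469_Dupin.Jbid
import Pool.Agent.Helper469_Dupin.Jblocal
import Pool.Agent.Helper469_Dupin.Jbcomplete
import Pool.Agent.Helper469_Dupin.Jblimit
import Pool.Agent.Helper469_Dupin.Jdupinloc
import Pool.Agent.Helper469_Dupin.Jcritclosed

set_option autoImplicit false

open Set Filter Topology MeasureTheory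
open scoped ContDiff InnerProductSpace

namespace Pool.Agent.H469

theorem leaf_cont_contc {n : ℕ} : Continuous fun p : (Eu n × Eu n × Eu n) × ℝ =>
    circ p.1.1 p.1.2.1 p.1.2.2 p.2 := by
  unfold circ
  have h1 : Continuous fun p : (Eu n × Eu n × Eu n) × ℝ =>
      (1 + p.2 ^ 2 * ‖p.1.2.2‖ ^ 2)⁻¹ := by
    refine Continuous.inv₀ (by fun_prop) fun p => ?_
    positivity
  exact continuous_fst.fst.add (h1.smul (by fun_prop))

theorem leaf_cont_alg (κ s s₂ : ℝ) (hs : 0 ≤ s) (hs2 : 0 ≤ s₂) :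
    1 - κ ^ 2 * s₂ * ((s - s₂) / (1 + κ ^ 2 * s * s₂)) =
      (1 + κ ^ 2 * s₂ ^ 2) / (1 + κ ^ 2 * s * s₂) ∧
    (s₂ + (s - s₂) / (1 + κ ^ 2 * s * s₂)) /
      (1 - κ ^ 2 * s₂ * ((s - s₂) / (1 + κ ^ 2 * s * s₂))) = s := by
  have h1 : (1 + κ ^ 2 * s * s₂) ≠ 0 := by positivity
  have h2 : (1 + κ ^ 2 * s₂ ^ 2) ≠ 0 := by positivity
  have h3 : 1 - κ ^ 2 * s₂ * ((s - s₂) / (1 + κ ^ 2 * s * s₂)) =
      (1 + κ ^ 2 * s₂ ^ 2) / (1 + κ ^ 2 * s * s₂) := by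
    rw [eq_div_iff h1, sub_mul, mul_assoc (κ ^ 2 * s₂), div_mul_cancel₀ _ h1]
    ring
  refine ⟨h3, ?_⟩
  rw [h3, div_eq_iff (div_ne_zero h2 h1)]
  rw [← mul_div_assoc, eq_div_iff h1, add_mul, div_mul_cancel₀ _ h1]
  ring

theorem leaf_cont_neg {n : ℕ} (x e q : Eu n) (s : ℝ) : circ x (-e) q s = circ x e q (-s) := by
  simp [circ]

section
variable {n m : ℕ} {M : Set (Eu n)} {T : Submodule ℝ (Eu n)} {g : T → Tᗮ} {O : Set T} {V : Set (Eu n)}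
  {N : Set (T × Tᗮ)} {ρ : T × Tᗮ → ℝ} {e : T × Tᗮ → Eu n}

/-- the point of the normal bundle from a critical point -/
theorem leaf_cont_base (hc : IsChart ∞ m M T g O V) (y w : Eu n) (ε : ℝ) (hyV : y ∈ V)
    (hcr : y ∈ critSet M (fam (w, ε))) :
    xpt T g (T.orthogonalProjectionOnto y, Tᗮ.orthogonalProjectionOnto (w - ε • y)) = y ∧
    nvec T g (T.orthogonalProjectionOnto y, Tᗮ.orthogonalProjectionOnto (w - ε • y)) = w - ε • y := by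
  obtain ⟨h1, h2, h3⟩ := leaf_complete_step1 hc y w ε hyV hcr
  constructor
  · unfold xpt cmap
    dsimp only
    rw [← h2]
    exact leaf_complete_decomp y
  · unfold nvec
    dsimp only
    rw [← h3]
    exact leaf_complete_decomp _

set_option maxHeartbeats 2000000 in
/-- one step of the continuation -/
theorem leaf_cont_step (hM : IsSubmanifold ∞ m M) (hcl : IsClosed M) (hD : IsDupin M)
    (hc : IsChart ∞ m M T g O V) (h : LeafPre T g {a | a ∈ O ∧ cmap T g a ∈ V} N ρ e)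
    (z₀ : T × Tᗮ) (hz : z₀ ∈ N) (s₁ : ℝ) (hs₁ : 0 < s₁)
    (hfam : ∀ s ∈ Ioo 0 s₁, ∀ᶠ z in 𝓝 z₀, ∀ s' ∈ Icc 0 s,
      circ (xpt T g z) (e z) (qf T ρ e z) s' ∈ critSet M (fam (wpt T g ρ z, ρ z))) :
    ∃ η : ℝ, 0 < η ∧ ∀ᶠ z in 𝓝 z₀, ∀ s' ∈ Icc 0 (s₁ + η),
      circ (xpt T g z) (e z) (qf T ρ e z) s' ∈ critSet M (fam (wpt T g ρ z, ρ z)) := by
  have hO' : IsOpen {a | a ∈ O ∧ cmap T g a ∈ V} := leaf_local_open hc
  have hg' : ContDiffOn ℝ ∞ g {a | a ∈ O ∧ cmap T g a ∈ V} := hc.smooth.mono (fun a ha => ha.1)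
  obtain ⟨sx, sn, sw, sX, sq⟩ := leaf_smooth hO' hg' h
  have hNn : N ∈ 𝓝 z₀ := h.openN.mem_nhds hz
  have cx : ContinuousAt (xpt T g) z₀ := sx.continuousOn.continuousAt hNn
  have ce : ContinuousAt e z₀ := h.sme.continuousOn.continuousAt hNn
  have cq : ContinuousAt (qf T ρ e) z₀ := sq.continuousOn.continuousAt hNn
  have cw : ContinuousAt (wpt T g ρ) z₀ := sw.continuousOn.continuousAt hNn
  have cr : ContinuousAt ρ z₀ := h.smr.continuousOn.continuousAt hNn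
  have hperp : ∀ z ∈ N, ⟪e z, qf T ρ e z⟫_ℝ = 0 := fun z hz => (leaf_id hO' hg' h z hz).2.2.2.1
  set y : T × Tᗮ → ℝ → Eu n := fun z s => circ (xpt T g z) (e z) (qf T ρ e z) s with hy
  have cy : ContinuousAt (fun p : (T × Tᗮ) × ℝ => y p.1 p.2) (z₀, s₁) := by
    have h1 : ContinuousAt (fun p : (T × Tᗮ) × ℝ =>
        (((xpt T g p.1, e p.1, qf T ρ e p.1), p.2) : (Eu n × Eu n × Eu n) × ℝ)) (z₀, s₁) := by
      have c1 : ContinuousAt (fun p : (T × Tᗮ) × ℝ => p.1) (z₀, s₁) := continuousAt_fst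
      exact ((ContinuousAt.comp (f := fun p : (T × Tᗮ) × ℝ => p.1) (g := xpt T g) cx c1).prodMk
        ((ContinuousAt.comp (f := fun p : (T × Tᗮ) × ℝ => p.1) (g := e) ce c1).prodMk
          (ContinuousAt.comp (f := fun p : (T × Tᗮ) × ℝ => p.1) (g := qf T ρ e) cq c1))).prodMk
        continuousAt_snd
    exact (leaf_cont_contc (n := n)).continuousAt.comp h1
  have cy0 : Continuous (y z₀) := by
    have := leaf_cont_contc (n := n)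
    exact this.comp (Continuous.prodMk
      (continuous_const (y := (xpt T g z₀, e z₀, qf T ρ e z₀))) continuous_id)
  -- the end point lies in `M`
  have hyM : y z₀ s₁ ∈ M := by
    have hcl' := crit_closed hM hcl
    have ht : Tendsto (fun s => (y z₀ s, ((wpt T g ρ z₀, ρ z₀) : Eu n × ℝ))) (𝓝[<] s₁)
        (𝓝 (y z₀ s₁, (wpt T g ρ z₀, ρ z₀))) :=
      ((cy0.tendsto s₁).mono_left nhdsWithin_le_nhds).prodMk_nhds tendsto_const_nhds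
    have hev : ∀ᶠ s in 𝓝[<] s₁, (y z₀ s, ((wpt T g ρ z₀, ρ z₀) : Eu n × ℝ)) ∈
        {q : Eu n × (Eu n × ℝ) | q.1 ∈ critSet M (fam q.2)} := by
      filter_upwards [Ioo_mem_nhdsLT hs₁] with s hs
      exact (hfam s hs).self_of_nhds s ⟨hs.1.le, le_refl _⟩
    exact (hcl'.mem_of_tendsto ht hev).1
  obtain ⟨T', g', O', V', hyV, hc'⟩ := (isSubmanifold_iff ∞ m M).1 hM (y z₀ s₁) hyM
  obtain ⟨hcr1, hb1, hk1, hker1⟩ := leaf_limit hc h z₀ hz s₁ hs₁ hfam hc' (y z₀ s₁) rfl hyM hyV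
  have hO'' : IsOpen {a | a ∈ O' ∧ cmap T' g' a ∈ V'} := leaf_local_open hc'
  have hg'' : ContDiffOn ℝ ∞ g' {a | a ∈ O' ∧ cmap T' g' a ∈ V'} :=
    hc'.smooth.mono (fun a ha => ha.1)
  have hD'' := dupinLoc_of_isDupin hc' hD
  have hmem1 := hc'.mem (y z₀ s₁) hyV
  have hcm1 : cmap T' g' (T'.orthogonalProjectionOnto (y z₀ s₁)) = y z₀ s₁ := by
    unfold cmap
    rw [← hmem1.2.1 hyM]
    exact leaf_complete_decomp _
  have hP1 : T'.orthogonalProjectionOnto (y z₀ s₁) ∈ {a | a ∈ O' ∧ cmap T' g' a ∈ V'} :=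
    ⟨hmem1.1, by rw [hcm1]; exact hyV⟩
  obtain ⟨N₁, δ₁, ρ₁, e₁, h₁, hδ₁, hz₁N, hρ₁, hclose, huniq⟩ :=
    leaf_pre hO'' hg'' hD'' _ _ (ρ z₀) hP1 hb1 _ hk1 hker1
  set z₁ : T' × T'ᗮ := (T'.orthogonalProjectionOnto (y z₀ s₁),
    T'ᗮ.orthogonalProjectionOnto (wpt T g ρ z₀ - ρ z₀ • y z₀ s₁)) with hz₁
  obtain ⟨N₁', δ₂, hN₁', hN₁'o, hz₁N', hδ₂, hloc⟩ := leaf_local hc' h₁ z₁ hz₁N
  -- the map Φ
  set Φ : (T × Tᗮ) × ℝ → T' × T'ᗮ := fun p => (T'.orthogonalProjectionOnto (y p.1 p.2),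
    T'ᗮ.orthogonalProjectionOnto (wpt T g ρ p.1 - ρ p.1 • y p.1 p.2)) with hΦ
  have c1 : ContinuousAt (fun p : (T × Tᗮ) × ℝ => p.1) (z₀, s₁) := continuousAt_fst
  have cr' : ContinuousAt (fun p : (T × Tᗮ) × ℝ => ρ p.1) (z₀, s₁) :=
    ContinuousAt.comp (f := fun p : (T × Tᗮ) × ℝ => p.1) (g := ρ) cr c1
  have cw' : ContinuousAt (fun p : (T × Tᗮ) × ℝ => wpt T g ρ p.1) (z₀, s₁) :=
    ContinuousAt.comp (f := fun p : (T × Tᗮ) × ℝ => p.1) (g := wpt T g ρ) cw c1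
  have cΦ : ContinuousAt Φ (z₀, s₁) := by
    refine ContinuousAt.prodMk ?_ ?_
    · exact T'.orthogonalProjectionOnto.continuous.continuousAt.comp cy
    · exact T'ᗮ.orthogonalProjectionOnto.continuous.continuousAt.comp (cw'.sub (cr'.smul cy))
  have e1 : ∀ᶠ p in 𝓝 (z₀, s₁), Φ p ∈ N₁' := cΦ (hN₁'o.mem_nhds hz₁N')
  have e2 : ∀ᶠ p in 𝓝 (z₀, s₁), y p.1 p.2 ∈ V' := cy (hc'.openV.mem_nhds hyV)
  have e3 : ∀ᶠ p : (T × Tᗮ) × ℝ in 𝓝 (z₀, s₁), |ρ p.1 - ρ z₀| < δ₁ := by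
    have : ContinuousAt (fun p : (T × Tᗮ) × ℝ => |ρ p.1 - ρ z₀|) (z₀, s₁) :=
      (cr'.sub continuousAt_const).abs
    refine this.eventually_lt continuousAt_const ?_
    simpa using hδ₁
  have e4 : ∀ᶠ p : (T × Tᗮ) × ℝ in 𝓝 (z₀, s₁), p.1 ∈ N := c1 hNn
  obtain ⟨u, v, hu, hzu, hv, hsv, huv⟩ := mem_nhds_prod_iff'.1 (e1.and (e2.and (e3.and e4)))
  obtain ⟨η₀, hη₀, hη₀v⟩ := Metric.isOpen_iff.1 hv s₁ hsv
  set η : ℝ := min (η₀ / 2) (min (δ₂ / 2) (s₁ / 2)) / 2 with hη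
  have hηpos : 0 < η := by positivity
  have hη1 : η < η₀ := by
    have : min (η₀ / 2) (min (δ₂ / 2) (s₁ / 2)) ≤ η₀ / 2 := min_le_left _ _
    linarith
  have hη2 : 4 * η ≤ δ₂ := by
    have : min (η₀ / 2) (min (δ₂ / 2) (s₁ / 2)) ≤ δ₂ / 2 :=
      (min_le_right _ _).trans (min_le_left _ _)
    linarith
  have hη3 : 4 * η ≤ s₁ := by
    have : min (η₀ / 2) (min (δ₂ / 2) (s₁ / 2)) ≤ s₁ / 2 :=
      (min_le_right _ _).trans (min_le_right _ _)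
    linarith
  refine ⟨η, hηpos, ?_⟩
  set s₂ : ℝ := s₁ - η with hs₂
  have hs₂pos : 0 < s₂ := by rw [hs₂]; linarith
  filter_upwards [hfam s₂ ⟨hs₂pos, by rw [hs₂]; linarith⟩, hu.mem_nhds hzu] with z hz2 hzu'
  intro s hs
  by_cases hss : s ≤ s₂
  · exact hz2 s ⟨hs.1, hss⟩
  push Not at hss
  have hs₂v : s₂ ∈ v := by
    apply hη₀v
    rw [Metric.mem_ball, Real.dist_eq, hs₂]
    have : s₁ - η - s₁ = -η := by ring
    rw [this, abs_neg, abs_of_pos hηpos]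
    exact hη1
  obtain ⟨f1, f2, f3, f4⟩ := huv (mk_mem_prod hzu' hs₂v)
  dsimp only at f2 f3 f4
  have hez : ‖e z‖ = 1 := h.unit z f4
  have hqz : ⟪e z, qf T ρ e z⟫_ℝ = 0 := hperp z f4
  set κ : ℝ := ‖qf T ρ e z‖ with hκ
  obtain ⟨g1, g2, g3, -, g5⟩ := circ_group (xpt T g z) (e z) (qf T ρ e z) hez hqz s₂
  have hcr2 : y z s₂ ∈ critSet M (fam (wpt T g ρ z, ρ z)) := hz2 s₂ ⟨hs₂pos.le, le_refl _⟩
  obtain ⟨b1, b2⟩ := leaf_cont_base hc' (y z s₂) (wpt T g ρ z) (ρ z) f2 hcr2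
  set z' : T' × T'ᗮ := (T'.orthogonalProjectionOnto (y z s₂),
    T'ᗮ.orthogonalProjectionOnto (wpt T g ρ z - ρ z • y z s₂)) with hz'
  have hz'N' : z' ∈ N₁' := f1
  have hw' : nvec T' g' z' + ρ z • xpt T' g' z' = wpt T g ρ z := by
    rw [b1, b2]
    abel
  set e' : Eu n := circE (e z) (qf T ρ e z) s₂ with he'
  set q' : Eu n := circQ (e z) (qf T ρ e z) s₂ with hq'
  have hκ0 : 0 ≤ κ := norm_nonneg _
  -- critical points behind `s₂`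
  obtain ⟨ζ, hζ, hζ2⟩ : ∃ ζ : ℝ, 0 < ζ ∧ ∀ σ ∈ Ioc (-ζ) 0,
      circ (xpt T' g' z') e' q' σ ∈ critSet M (fam (nvec T' g' z' + ρ z • xpt T' g' z', ρ z)) := by
    refine ⟨s₂, hs₂pos, fun σ hσ => ?_⟩
    rw [hw', b1]
    have hd : 1 - κ ^ 2 * s₂ * σ > 0 := by
      have : κ ^ 2 * s₂ * σ ≤ 0 :=
        mul_nonpos_of_nonneg_of_nonpos (by positivity) hσ.2
      linarith
    have := g5 σ hd.ne'
    change circ (y z s₂) e' q' σ = _ at this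
    rw [this]
    apply hz2
    have hσ2 : 0 < s₂ + σ := by linarith [hσ.1]
    constructor
    · positivity
    · rw [div_le_iff₀ hd]
      have h5 : κ ^ 2 * s₂ * σ ≤ 0 :=
        mul_nonpos_of_nonneg_of_nonpos (by positivity) hσ.2
      have h6 : 0 ≤ s₂ * (-(κ ^ 2 * s₂ * σ)) := mul_nonneg hs₂pos.le (neg_nonneg.2 h5)
      have h7 : s₂ * (1 - κ ^ 2 * s₂ * σ) = s₂ + s₂ * (-(κ ^ 2 * s₂ * σ)) := by ring
      rw [h7]
      linarith [hσ.2]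
  obtain ⟨r1, r2, r3⟩ := leaf_complete hc' h₁ (ρ z₀) δ₁ huniq z' (hN₁' hz'N') (ρ z) f3 e' q'
    (by rw [he']; exact g1) (by rw [he', hq']; exact g2) ζ hζ hζ2
  have hwz' : wpt T' g' ρ₁ z' = wpt T g ρ z := by
    unfold wpt
    rw [← r1]
    exact hw'
  have hall : ∀ σ : ℝ, |σ| < δ₂ →
      circ (y z s₂) e' q' σ ∈ critSet M (fam (wpt T g ρ z, ρ z)) := by
    intro σ hσ
    rcases r2 with r2 | r2
    · have := hloc z' hz'N' σ hσ
      rw [b1, ← r2, ← r3, hwz', ← r1] at this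
      exact this
    · have := hloc z' hz'N' (-σ) (by rwa [abs_neg])
      rw [b1, ← r3, hwz', ← r1, ← leaf_cont_neg, ← r2] at this
      exact this
  have hs₂s : 0 < 1 + κ ^ 2 * s * s₂ := by
    have : 0 ≤ κ ^ 2 * s * s₂ := by
      have : 0 ≤ s := hs.1
      positivity
    linarith
  set σ : ℝ := (s - s₂) / (1 + κ ^ 2 * s * s₂) with hσ
  have hσ0 : 0 ≤ σ := div_nonneg (by linarith) hs₂s.le
  have hσ1 : σ ≤ s - s₂ := by
    rw [hσ, div_le_iff₀ hs₂s]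
    have : 0 ≤ κ ^ 2 * s * s₂ := by
      have : 0 ≤ s := hs.1
      positivity
    have h6 : 0 ≤ (s - s₂) * (κ ^ 2 * s * s₂) := mul_nonneg (sub_pos.2 hss).le this
    have h7 : (s - s₂) * (1 + κ ^ 2 * s * s₂) = (s - s₂) + (s - s₂) * (κ ^ 2 * s * s₂) := by ring
    rw [h7]
    linarith
  have hσ2 : |σ| < δ₂ := by
    rw [abs_of_nonneg hσ0]
    have h6 : s ≤ s₁ + η := hs.2
    have : s - s₂ ≤ 2 * η := by rw [hs₂]; linarith
    linarith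
  obtain ⟨hd, hval⟩ := leaf_cont_alg κ s s₂ hs.1 hs₂pos.le
  rw [← hσ] at hd hval
  have hdpos : 0 < 1 - κ ^ 2 * s₂ * σ := by
    rw [hd]
    exact div_pos (by positivity) hs₂s
  have hfin := g5 σ hdpos.ne'
  rw [hval] at hfin
  have := hall σ hσ2
  change circ (y z s₂) e' q' σ = _ at hfin
  rw [hfin] at this
  exact this

theorem leaf_cont (hM : IsSubmanifold ∞ m M) (hcl : IsClosed M) (hD : IsDupin M)
    (hc : IsChart ∞ m M T g O V) (h : LeafPre T g {a | a ∈ O ∧ cmap T g a ∈ V} N ρ e)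
    (z₀ : T × Tᗮ) (hz : z₀ ∈ N) (s : ℝ) :
    ∀ᶠ z in 𝓝 z₀, ∀ s' ∈ Icc 0 s,
      circ (xpt T g z) (e z) (qf T ρ e z) s' ∈ critSet M (fam (wpt T g ρ z, ρ z)) := by
  by_contra hcon
  set G : Set ℝ := {s | ∀ᶠ z in 𝓝 z₀, ∀ s' ∈ Icc 0 s,
    circ (xpt T g z) (e z) (qf T ρ e z) s' ∈ critSet M (fam (wpt T g ρ z, ρ z))} with hG
  have hdown : ∀ a ∈ G, ∀ b ≤ a, b ∈ G := by
    intro a ha b hb
    filter_upwards [ha] with z hz s' hs'
    exact hz s' ⟨hs'.1, hs'.2.trans hb⟩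
  obtain ⟨N', δ, hN', hN'o, hz₀', hδ, hloc⟩ := leaf_local hc h z₀ hz
  have hδG : δ / 2 ∈ G := by
    filter_upwards [hN'o.mem_nhds hz₀'] with z hz s' hs'
    exact hloc z hz s' (by rw [abs_of_nonneg hs'.1]; linarith [hs'.2])
  have hbdd : BddAbove G := by
    refine ⟨s, fun a ha => ?_⟩
    by_contra h1
    push Not at h1
    exact hcon (hdown a ha s h1.le)
  set s₁ : ℝ := sSup G with hs₁
  have hs₁pos : 0 < s₁ := lt_of_lt_of_le (by linarith) (le_csSup hbdd hδG)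
  have hfam : ∀ a ∈ Ioo 0 s₁, a ∈ G := by
    intro a ha
    obtain ⟨b, hb, hab⟩ := exists_lt_of_lt_csSup ⟨_, hδG⟩ ha.2
    exact hdown b hb a hab.le
  obtain ⟨η, hη, hη2⟩ := leaf_cont_step hM hcl hD hc h z₀ hz s₁ hs₁pos hfam
  have : s₁ + η ≤ s₁ := le_csSup hbdd hη2
  linarith

end

end Pool.Agent.H469
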