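import Pool.Agent.Helper469_Dupin.DefsB
import Pool.Agent.Helper469_Dupin.Jbcirc
import Pool.Agent.Helper469_Dupin.Jbpre
import Pool.Agent.Helper469_Dupin.Jbid
import Pool.Agent.Helper469_Dupin.Jbcont
import Pool.Agent.Helper469_Dupin.Jdupinloc
import Pool.Agent.Helper469_Dupin.Jcritiff

set_option autoImplicit false

open Set Filter Topology MeasureTheory
open scoped ContDiff InnerProductSpace

namespace Pool.Agent.H469


section
variable {n m : ℕ} {M : Set (Eu n)} {T : Submodule ℝ (Eu n)} {g : T → Tᗮ} {O : Set T} {V : Set (Eu n)}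
  {N : Set (T × Tᗮ)} {ρ : T × Tᗮ → ℝ} {e : T × Tᗮ → Eu n}

theorem full_circle_smooth (x e q : Eu n) : ContDiff ℝ ∞ (circ x e q) := by
  unfold circ
  have h1 : ContDiff ℝ ∞ fun s : ℝ => (1 + s ^ 2 * ‖q‖ ^ 2) :=
    contDiff_const.add ((contDiff_id.pow 2).mul contDiff_const)
  have h2 : ContDiff ℝ ∞ fun s : ℝ => (1 + s ^ 2 * ‖q‖ ^ 2)⁻¹ :=
    h1.inv fun s => by positivity
  exact contDiff_const.add (h2.smul ((contDiff_id.smul contDiff_const).add
    ((contDiff_id.pow 2).smul contDiff_const)))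

theorem full_circle_neg (x e q : Eu n) (s : ℝ) : circ x (-e) q s = circ x e q (-s) := by
  unfold circ
  simp

theorem full_circle_zero (x e q : Eu n) : circ x e q 0 = x := by
  unfold circ
  simp

theorem full_circle_fam (p : Eu n × ℝ) : Differentiable ℝ (fam p) := by
  unfold fam
  have h1 : Differentiable ℝ fun x : Eu n => ⟪p.1, x⟫_ℝ :=
    (innerSL ℝ p.1).differentiable
  have h2 : Differentiable ℝ fun x : Eu n => ‖x‖ ^ 2 := differentiable_id.norm_sq ℝ
  simp only [div_eq_mul_inv]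
  exact h1.sub ((h2.const_mul p.2).mul_const _)

theorem full_circle_Xf (z : T × Tᗮ) : Xf T ρ (fun z => -e z) z = -Xf T ρ e z := by
  unfold Xf
  simp

theorem full_circle_qf (z : T × Tᗮ) : qf T ρ (fun z => -e z) z = qf T ρ e z := by
  unfold qf
  rw [full_circle_Xf, fderiv_fun_neg]
  simp

theorem full_circle_pre (h : LeafPre T g O N ρ e) : LeafPre T g O N ρ (fun z => -e z) where
  openN := h.openN
  sub := h.sub
  smr := h.smr
  sme := h.sme.neg
  unit := fun z hz => by rw [norm_neg, h.unit z hz]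
  tang := fun z hz => by rw [map_neg, map_neg, map_neg, h.tang z hz]
  ker := fun z hz u => by
    rw [h.ker z hz u]
    constructor
    · rintro ⟨r, hr⟩
      exact ⟨-r, by rw [map_neg, neg_smul_neg, hr]⟩
    · rintro ⟨r, hr⟩
      exact ⟨-r, by rw [hr, map_neg, smul_neg, neg_smul]⟩
  dr := fun z hz => by rw [full_circle_Xf, map_neg, h.dr z hz, neg_zero]

end

/-! PLAIN PROOF OF THE TARGET(S)

a = P x.  O'' = {a ∈ O | cmap T g a ∈ V}, open, contains a (cmap a = x since x ∈ M ∩ V).  dupinLoc_of_isDupin and leaf_pre at (a,b), ε0 = p.2, k0: N, δ, ρ, e.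
z0 = (a,b): xpt z0 = x, ρ z0 = p.2, and p = Jmap (Th g (a,b,p.2)) says p.1 = p.2 • x + nvec z0 (Jmap T (y,z,ε) = (y+z, ε); Th = (ε a - nrm g a b, ε g a + b, ε)), so
p = (wpt z0, ρ z0).  By leaf_cont at z = z0: circ x (e z0)(qf z0) s is critical for fam p for all s ≥ 0.  The data (N, ρ, z ↦ -e z) also satisfy LeafPre
(Xf for -e is -Xf, qf for -e is qf (fderiv of -e is -fderiv e), tang, ker, dr by linearity), so the same for circ x (-e z0)(qf z0) s = circ x (e z0)(qf z0)(-s),
s ≥ 0.  Take e := e z0, q := qf z0: |e| = 1, <e,q> = 0 (leaf_id), P e = r k0 by LeafPre.ker (Lop (P e) = 0 taking r = 1, then hker).  q ≠ 0: otherwise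
circ = x + s e for all s in the bounded set M, |e| = 1.  fam p constant along the circle: s ↦ fam p (circ x e q s) is differentiable and its derivative at
each s0 is 0 because σ ↦ circ x e q (s0 + σ) is a smooth curve in M through the critical point circ x e q s0 (IsCurveAt with any δ; deriv of fam p ∘ c at 0).
-/

section
variable {n m : ℕ} {M : Set (Eu n)} {T : Submodule ℝ (Eu n)} {g : T → Tᗮ} {O : Set T} {V : Set (Eu n)}
  {N : Set (T × Tᗮ)} {ρ : T × Tᗮ → ℝ} {e : T × Tᗮ → Eu n}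

/-- TARGET -/
theorem full_circle (hM : IsSubmanifold ∞ m M) (hcpt : IsCompact M) (hD : IsDupin M)
    (hc : IsChart ∞ m M T g O V) (x : Eu n) (hx : x ∈ M) (hxV : x ∈ V) (p : Eu n × ℝ) (b : Tᗮ)
    (hp : p = Jmap T (Th g (T.orthogonalProjectionOnto x, b, p.2))) (hb : b ≠ 0) (k₀ : T)
    (hk : k₀ ≠ 0)
    (hker : ∀ u, Lop g (T.orthogonalProjectionOnto x) b p.2 u = 0 ↔ ∃ r : ℝ, u = r • k₀) :
    ∃ e q : Eu n, ‖e‖ = 1 ∧ ⟪e, q⟫_ℝ = 0 ∧ q ≠ 0 ∧
      (∃ r : ℝ, T.orthogonalProjectionOnto e = r • k₀) ∧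
      ∀ s : ℝ, circ x e q s ∈ critSet M (fam p) ∧ fam p (circ x e q s) = fam p x := by
  classical
  set a : T := T.orthogonalProjectionOnto x with ha_def
  have hmem := hc.mem x hxV
  have haO : a ∈ O := hmem.1
  have hga : Tᗮ.orthogonalProjectionOnto x = g a := hmem.2.1 hx
  have hcx : cmap T g a = x := by
    unfold cmap
    rw [← hga, ha_def]
    have h1 := T.starProjection_add_starProjection_orthogonal x
    simpa using h1
  let O' : Set T := {a | a ∈ O ∧ cmap T g a ∈ V}
  have hO'O : O' ⊆ O := fun a h => h.1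
  have hgO' : ContDiffOn ℝ ∞ g O' := hc.smooth.mono hO'O
  have hO' : IsOpen O' := by
    have h1 : ContinuousOn (cmap T g) O := by
      unfold cmap
      exact continuous_subtype_val.continuousOn.add
        (continuous_subtype_val.comp_continuousOn hc.smooth.continuousOn)
    exact h1.isOpen_inter_preimage hc.openO hc.openV
  have haO' : a ∈ O' := ⟨haO, by rw [hcx]; exact hxV⟩
  have hDL : DupinLoc g O' := dupinLoc_of_isDupin hc hD
  obtain ⟨N, δ, ρ, e, hL, -, hzN, hρ, -, -⟩ :=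
    leaf_pre hO' hgO' hDL a b p.2 haO' hb k₀ hk hker
  set z₀ : T × Tᗮ := (a, b) with hz₀
  have hxz : xpt T g z₀ = x := hcx
  have hpz : (wpt T g ρ z₀, ρ z₀) = p := by
    rw [hρ]
    have h1 : wpt T g ρ z₀ = p.1 := by
      rw [hp]
      unfold wpt nvec
      rw [hxz, hρ]
      simp only [Jmap, Th, hz₀]
      simp only [ContinuousLinearMap.prod_apply, ContinuousLinearMap.add_apply,
        ContinuousLinearMap.comp_apply, ContinuousLinearMap.coe_fst', ContinuousLinearMap.coe_snd',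
        Submodule.subtypeL_apply, Submodule.coe_add, Submodule.coe_smul, Submodule.coe_sub,
        Submodule.coe_neg]
      have h2 : x = (a : Eu n) + (g a : Eu n) := hcx.symm
      conv_lhs => rw [h2]
      rw [smul_add]
      abel
    rw [h1]
  have key : ∀ e' : T × Tᗮ → Eu n, LeafPre T g O' N ρ e' → ∀ s : ℝ, 0 ≤ s →
      circ x (e' z₀) (qf T ρ e' z₀) s ∈ critSet M (fam p) := by
    intro e' hL' s hs
    have h1 := (leaf_cont hM hcpt.isClosed hD hc hL' z₀ hzN s).self_of_nhds s ⟨hs, le_rfl⟩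
    rw [hxz, hpz] at h1
    exact h1
  have hall : ∀ s : ℝ, circ x (e z₀) (qf T ρ e z₀) s ∈ critSet M (fam p) := by
    intro s
    rcases le_total 0 s with hs | hs
    · exact key e hL s hs
    · have h1 := key _ (full_circle_pre hL) (-s) (by linarith)
      rw [full_circle_qf, full_circle_neg, neg_neg] at h1
      exact h1
  have hnorm : ‖e z₀‖ = 1 := hL.unit z₀ hzN
  have horth : ⟪e z₀, qf T ρ e z₀⟫_ℝ = 0 := (leaf_id hO' hgO' hL z₀ hzN).2.2.2.1
  refine ⟨e z₀, qf T ρ e z₀, hnorm, horth, ?_, ?_, ?_⟩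
  · -- the circle is no line
    intro hq
    obtain ⟨R, hR⟩ := hcpt.isBounded.exists_norm_le
    have h1 : circ x (e z₀) (qf T ρ e z₀) (R + ‖x‖ + 1) = x + (R + ‖x‖ + 1) • e z₀ := by
      rw [hq]
      unfold circ
      simp
    have h2 := hR _ (hall (R + ‖x‖ + 1)).1
    rw [h1] at h2
    have hR0 : 0 ≤ R := (norm_nonneg _).trans (hR x hx)
    have h3 : ‖(R + ‖x‖ + 1) • e z₀‖ = R + ‖x‖ + 1 := by
      rw [norm_smul, hnorm, mul_one, Real.norm_eq_abs, abs_of_nonneg]
      positivity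
    have h4 : ‖(R + ‖x‖ + 1) • e z₀‖ ≤ ‖x + (R + ‖x‖ + 1) • e z₀‖ + ‖x‖ := by
      have h5 := norm_sub_le (x + (R + ‖x‖ + 1) • e z₀) x
      rwa [add_sub_cancel_left] at h5
    linarith
  · -- the tangent vector
    have h1 := (hL.ker z₀ hzN (T.orthogonalProjectionOnto (e z₀))).2 ⟨1, (one_smul _ _).symm⟩
    rw [hρ] at h1
    exact (hker _).1 h1
  · -- constancy
    intro s
    refine ⟨hall s, ?_⟩
    set q := qf T ρ e z₀ with hq
    have hsm := full_circle_smooth x (e z₀) q
    have hdiff : Differentiable ℝ fun s => fam p (circ x (e z₀) q s) :=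
      (full_circle_fam p).comp (hsm.differentiable (by simp))
    have hder : ∀ s₀, deriv (fun s => fam p (circ x (e z₀) q s)) s₀ = 0 := by
      intro s₀
      have h1 := (hall s₀).2 (fun σ => circ x (e z₀) q (s₀ + σ)) (by
        refine ⟨by simp, 1, one_pos, ?_, fun t _ => (hall _).1⟩
        exact (hsm.comp (contDiff_const.add contDiff_id)).contDiffOn)
      have h2 : (fam p ∘ fun σ => circ x (e z₀) q (s₀ + σ)) =
          fun σ => (fun s => fam p (circ x (e z₀) q s)) (s₀ + σ) := rfl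
      have h3 := deriv_comp_const_add (fun s => fam p (circ x (e z₀) q s)) s₀ 0
      rw [h2, h3, add_zero] at h1
      exact h1
    have h1 := is_const_of_deriv_eq_zero hdiff hder s 0
    rw [h1, full_circle_zero]

end

end Pool.Agent.H469

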