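import Pool.Agent.Helper469_Dupin.Chart
import Pool.Agent.Helper469_Dupin.Jbrcrit
import Pool.Agent.Helper469_Dupin.Jbrindex
import Pool.Agent.Helper469_Dupin.Jfamd
import Pool.Agent.Helper469_Dupin.Jindex

set_option autoImplicit false

open Set Filter Topology MeasureTheory
open scoped ContDiff InnerProductSpace

namespace Pool.Agent.H469


/-! PLAIN PROOF OF THE TARGET(S)

index_unique_pt: x ∈ M, take a chart (isSubmanifold_iff), br_index for both, index_unique.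
loc_crit: take a chart (T,g,O,V1) at x0, a0 = P x0, h(p,a) := Pw - ε a + nrm g a (Qw - ε g a) (the gradient of fam p ∘ cmap at a ∈ O,
fam_d1), a smooth map of (p,a), with h(p0,a0) = 0 and the partial derivative in a at (p0,a0) equal to -Lop, an injective map since the Hessian is
nondegenerate (if Lop u = 0 and u = n + p', split as in the index definition: D²(u,·) = 0 forces u = 0).  By the implicit function theorem
there are a neighbourhood U of a0 and a neighbourhood Ω of p0 and a continuous a(p) such that for p ∈ Ω, a ∈ U: h(p,a) = 0 ↔ a = a(p).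
Choose V = {x ∈ V1 ∩ interior V0 | P x ∈ U'} with U' ⊆ U open around a0, then shrink Ω such that for p ∈ Ω: a(p) ∈ U', a(p) ∈ O,
φ(a(p)) ∈ V (φ = cmap T g is continuous at a0) and (index_stable, continuity of (p,a) ↦ D²(fam p∘cmap)(a) = -<Lop ..>) the same subspaces
N, P of T are negative / positive definite at a(p).  Then x = φ(a(p)) ∈ M ∩ V has index k by br_index, and y ∈ V critical has
h(p, P y) = 0, P y ∈ U, so P y = a(p), y = φ(P y) = x.
-/

section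
variable {n m : ℕ} {M : Set (Eu n)} {T : Submodule ℝ (Eu n)} {g : T → Tᗮ} {O : Set T} {V : Set (Eu n)}

theorem loc_crit_proj (a : T) : T.orthogonalProjectionOnto (cmap T g a) = a := by
  unfold cmap
  rw [map_add, Submodule.orthogonalProjectionOnto_mem_subspace_eq_self,
    Submodule.orthogonalProjectionOnto_apply_of_mem_orthogonal (g a).2, add_zero]

theorem loc_crit_proj' (a : T) : Tᗮ.orthogonalProjectionOnto (cmap T g a) = g a := by
  unfold cmap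
  rw [map_add, Submodule.orthogonalProjectionOnto_orthogonal_apply_eq_zero a.2,
    Submodule.orthogonalProjectionOnto_mem_subspace_eq_self, zero_add]

theorem loc_crit_cmap (hch : IsChart ∞ m M T g O V) {x : Eu n} (hx : x ∈ M) (hxV : x ∈ V) :
    cmap T g (T.orthogonalProjectionOnto x) = x := by
  have h1 := (hch.mem x hxV).2.1 hx
  unfold cmap
  rw [← h1]
  exact T.starProjection_add_starProjection_orthogonal x

theorem loc_crit_smooth (hch : IsChart ∞ m M T g O V) : ContDiffOn ℝ ∞ (cmap T g) O := by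
  unfold cmap
  exact T.subtypeL.contDiff.contDiffOn.add (Tᗮ.subtypeL.contDiff.comp_contDiffOn hch.smooth)

theorem loc_crit_fam : ContDiff ℝ ∞ (fun q : (Eu n × ℝ) × Eu n => fam q.1 q.2) := by
  unfold fam
  exact (contDiff_fst.fst.inner ℝ contDiff_snd).sub
    ((contDiff_fst.snd.mul (contDiff_snd.norm_sq ℝ)).div_const 2)

theorem loc_crit_fam' (p : Eu n × ℝ) : ContDiff ℝ ∞ (fam p) :=
  loc_crit_fam.comp (contDiff_const.prodMk contDiff_id)

end

section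
variable {n : ℕ} {F : Type} [NormedAddCommGroup F] [InnerProductSpace ℝ F] {φ : F → Eu n}
  {O : Set F}

theorem loc_crit_psi (hO : IsOpen O) (hφ : ContDiffOn ℝ ∞ φ O) (q : (Eu n × ℝ) × F) (hq : q.2 ∈ O) :
    ContDiffAt ℝ ∞ (fun q : (Eu n × ℝ) × F => fderiv ℝ (fam q.1 ∘ φ) q.2) q := by
  have h0 : ContDiffAt ℝ ∞ φ q.2 := hφ.contDiffAt (hO.mem_nhds hq)
  have h1 : ContDiffAt ℝ ∞ (Function.uncurry fun (q : (Eu n × ℝ) × F) (a : F) =>
      (fam q.1 ∘ φ) a) (q, q.2) := by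
    have h3 : ContDiffAt ℝ ∞ (fun z : ((Eu n × ℝ) × F) × F => φ z.2) (q, q.2) :=
      ContDiffAt.comp (g := φ) (f := Prod.snd) (q, q.2) h0 contDiffAt_snd
    have h2 : ContDiffAt ℝ ∞ (fun z : ((Eu n × ℝ) × F) × F => (z.1.1, φ z.2)) (q, q.2) :=
      (contDiff_fst.fst.contDiffAt).prodMk h3
    exact ContDiffAt.comp (g := fun q : (Eu n × ℝ) × Eu n => fam q.1 q.2) (q, q.2)
      loc_crit_fam.contDiffAt h2
  exact ContDiffAt.fderiv (f := fun (q : (Eu n × ℝ) × F) (a : F) => (fam q.1 ∘ φ) a)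
    (g := fun q => q.2) h1 contDiffAt_snd (by rfl)

theorem loc_crit_psi2 (hO : IsOpen O) (hφ : ContDiffOn ℝ ∞ φ O) (q : (Eu n × ℝ) × F) (hq : q.2 ∈ O) :
    ContDiffAt ℝ ∞ (fun q : (Eu n × ℝ) × F => fderiv ℝ (fderiv ℝ (fam q.1 ∘ φ)) q.2) q := by
  have h1 : ContDiffAt ℝ ∞ (Function.uncurry fun (q : (Eu n × ℝ) × F) (a : F) =>
      fderiv ℝ (fam q.1 ∘ φ) a) (q, q.2) := by
    have h2 : ContDiffAt ℝ ∞ (fun z : ((Eu n × ℝ) × F) × F => (z.1.1, z.2)) (q, q.2) :=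
      (contDiff_fst.fst.contDiffAt).prodMk contDiffAt_snd
    exact ContDiffAt.comp (g := fun q : (Eu n × ℝ) × F => fderiv ℝ (fam q.1 ∘ φ) q.2) (q, q.2)
      (loc_crit_psi hO hφ (q.1, q.2) hq) h2
  exact ContDiffAt.fderiv (f := fun (q : (Eu n × ℝ) × F) (a : F) => fderiv ℝ (fam q.1 ∘ φ) a)
    (g := fun q => q.2) h1 contDiffAt_snd (by rfl)

theorem loc_crit_nondeg [FiniteDimensional ℝ F] (B : F →L[ℝ] F →L[ℝ] ℝ)
    (hsymm : ∀ u v, B u v = B v u)
    (N P : Submodule ℝ F) (h2 : Module.finrank ℝ P + Module.finrank ℝ N = Module.finrank ℝ F)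
    (h3 : ∀ u ∈ N, u ≠ 0 → B u u < 0) (h4 : ∀ u ∈ P, u ≠ 0 → 0 < B u u) :
    B.IsInvertible := by
  have hdis : Disjoint N P := by
    rw [Submodule.disjoint_def]
    intro u hu hu'
    by_contra hne
    exact absurd (h3 u hu hne) (not_lt.2 (h4 u hu' hne).le)
  have hsup : N ⊔ P = ⊤ := by
    apply Submodule.eq_top_of_finrank_eq
    have := Submodule.finrank_sup_add_finrank_inf_eq N P
    rw [hdis.eq_bot, finrank_bot, add_zero] at this
    omega
  have hinj : Function.Injective B := by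
    rw [injective_iff_map_eq_zero]
    intro u hu
    have hu' : u ∈ N ⊔ P := by rw [hsup]; exact Submodule.mem_top
    obtain ⟨a, ha, b, hb, rfl⟩ := Submodule.mem_sup.1 hu'
    have e1 : B (a + b) a = 0 := by rw [hu]; rfl
    have e2 : B (a + b) b = 0 := by rw [hu]; rfl
    have e1' : B a a + B b a = 0 := by rw [← e1, map_add]; rfl
    have e2' : B a b + B b b = 0 := by rw [← e2, map_add]; rfl
    have e3 := hsymm a b
    have ha0 : a = 0 := by
      by_contra hne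
      have f1 := h3 a ha hne
      by_cases hb0 : b = 0
      · subst hb0
        simp at e1'
        linarith
      · have f2 := h4 b hb hb0
        linarith
    subst ha0
    by_cases hb0 : b = 0
    · rw [hb0, add_zero]
    · have f2 := h4 b hb hb0
      simp at e2'
      linarith
  have hfr : Module.finrank ℝ F = Module.finrank ℝ (F →L[ℝ] ℝ) := by
    have h5 : Module.finrank ℝ (F →L[ℝ] ℝ) = Module.finrank ℝ (F →ₗ[ℝ] ℝ) :=
      LinearEquiv.finrank_eq LinearMap.toContinuousLinearMap.symm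
    rw [h5]
    exact (Subspace.dual_finrank_eq (K := ℝ) (V := F)).symm
  let e := LinearEquiv.ofInjectiveOfFinrankEq (B : F →ₗ[ℝ] F →L[ℝ] ℝ) hinj hfr
  exact ⟨e.toContinuousLinearEquiv, by ext u v; rfl⟩

theorem loc_crit_gen [FiniteDimensional ℝ F] (hO : IsOpen O) (hφ : ContDiffOn ℝ ∞ φ O)
    (p₀ : Eu n × ℝ) (a₀ : F)
    (ha₀ : a₀ ∈ O) (hcr : fderiv ℝ (fam p₀ ∘ φ) a₀ = 0) (N P : Submodule ℝ F)
    (h2 : Module.finrank ℝ P + Module.finrank ℝ N = Module.finrank ℝ F)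
    (h3 : ∀ u ∈ N, u ≠ 0 → fderiv ℝ (fderiv ℝ (fam p₀ ∘ φ)) a₀ u u < 0)
    (h4 : ∀ u ∈ P, u ≠ 0 → 0 < fderiv ℝ (fderiv ℝ (fam p₀ ∘ φ)) a₀ u u) :
    ∃ ψ : Eu n × ℝ → F, Tendsto ψ (𝓝 p₀) (𝓝 a₀) ∧ ∃ U : Set F, IsOpen U ∧ a₀ ∈ U ∧
      (∀ᶠ p in 𝓝 p₀, ∀ a ∈ U, fderiv ℝ (fam p ∘ φ) a = 0 → ψ p = a) ∧
      (∀ᶠ p in 𝓝 p₀, fderiv ℝ (fam p ∘ φ) (ψ p) = 0) ∧
      (∀ᶠ p in 𝓝 p₀, (∀ u ∈ N, u ≠ 0 → fderiv ℝ (fderiv ℝ (fam p ∘ φ)) (ψ p) u u < 0) ∧
        (∀ u ∈ P, u ≠ 0 → 0 < fderiv ℝ (fderiv ℝ (fam p ∘ φ)) (ψ p) u u)) := by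
  set Ψ : (Eu n × ℝ) × F → (F →L[ℝ] ℝ) := fun q => fderiv ℝ (fam q.1 ∘ φ) q.2 with hΨ
  have hΨ1 : ContDiffAt ℝ ∞ Ψ (p₀, a₀) := loc_crit_psi hO hφ (p₀, a₀) ha₀
  have hΨs : HasStrictFDerivAt Ψ (fderiv ℝ Ψ (p₀, a₀)) (p₀, a₀) :=
    hΨ1.hasStrictFDerivAt (by simp)
  have hB : (fderiv ℝ Ψ (p₀, a₀)).comp (ContinuousLinearMap.inr ℝ (Eu n × ℝ) F) =
      fderiv ℝ (fderiv ℝ (fam p₀ ∘ φ)) a₀ := by
    have e1 : HasFDerivAt (fun a : F => (p₀, a)) (ContinuousLinearMap.inr ℝ (Eu n × ℝ) F) a₀ :=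
      hasFDerivAt_prodMk_right p₀ a₀
    have e2 := HasFDerivAt.comp (g := Ψ) a₀ hΨs.hasFDerivAt e1
    exact e2.fderiv.symm
  have hsm : ContDiffAt ℝ ∞ (fam p₀ ∘ φ) a₀ :=
    (loc_crit_fam' p₀).contDiffAt.comp a₀ (hφ.contDiffAt (hO.mem_nhds ha₀))
  have hinv : ((fderiv ℝ Ψ (p₀, a₀)).comp
      (ContinuousLinearMap.inr ℝ (Eu n × ℝ) F)).IsInvertible := by
    rw [hB]
    refine loc_crit_nondeg _ ?_ N P h2 h3 h4
    have e3 : IsSymmSndFDerivAt ℝ (fam p₀ ∘ φ) a₀ :=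
      hsm.isSymmSndFDerivAt (by
        rw [minSmoothness_of_isRCLikeNormedField]
        exact WithTop.coe_le_coe.2 (le_top : (2 : ℕ∞) ≤ ⊤))
    exact fun u v => e3 u v
  have hiff := hΨs.eventually_apply_eq_iff_implicitFunctionOfProdDomain hinv
  have hev := hΨs.eventually_apply_implicitFunctionOfProdDomain hinv
  have htend := hΨs.tendsto_implicitFunctionOfProdDomain hinv
  have hΨ0 : Ψ (p₀, a₀) = 0 := hcr
  rw [hΨ0] at hiff hev
  set ψ := hΨs.implicitFunctionOfProdDomain hinv with hψ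
  rw [nhds_prod_eq] at hiff
  obtain ⟨pa, hpa, pb, hpb, hab⟩ := eventually_prod_iff.1 hiff
  obtain ⟨U, hU1, hU2, hU3⟩ := mem_nhds_iff.1 hpb
  refine ⟨ψ, htend, U, hU2, hU3, ?_, hev, ?_⟩
  · filter_upwards [hpa] with p hp a ha h0
    exact (hab hp (hU1 ha)).1 h0
  · have e5 := (loc_crit_psi2 hO hφ (p₀, a₀) ha₀).continuousAt.tendsto
    have e6 : Tendsto (fun p => (p, ψ p)) (𝓝 p₀) (𝓝 (p₀, a₀)) :=
      tendsto_id.prodMk_nhds htend
    have e7 := e5.comp e6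
    exact e7.eventually (index_stable _ N P h3 h4)

end

section
variable {n m : ℕ} {M : Set (Eu n)}

/-- TARGET -/
theorem index_unique_pt (hM : IsSubmanifold ∞ m M) (f : Eu n → ℝ) (hf : ContDiff ℝ ∞ f) (x : Eu n)
    (k k' : ℕ) (h : HasIndex m M f x k) (h' : HasIndex m M f x k') : k = k' := by
  have hx : x ∈ M := h.1.1
  obtain ⟨T, g, O, V, hxV, hch⟩ := (isSubmanifold_iff ∞ m M).1 hM x hx
  obtain ⟨-, N, P, h1, h2, h3, h4⟩ := (br_index hch x hx hxV f hf k).1 h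
  obtain ⟨-, N', P', h1', h2', h3', h4'⟩ := (br_index hch x hx hxV f hf k').1 h'
  exact index_unique _ k k' N P N' P' h1 (by rw [hch.dim]; exact h2) h3 h4 h1'
    (by rw [hch.dim]; exact h2') h3' h4'

/-- TARGET -/
theorem loc_crit (hM : IsSubmanifold ∞ m M) (p₀ : Eu n × ℝ) (x₀ : Eu n) (k : ℕ)
    (h : HasIndex m M (fam p₀) x₀ k) (V₀ : Set (Eu n)) (hV : V₀ ∈ 𝓝 x₀) :
    ∃ V : Set (Eu n), V ⊆ V₀ ∧ IsOpen V ∧ x₀ ∈ V ∧ ∀ᶠ p in 𝓝 p₀, ∃ x ∈ V,
      HasIndex m M (fam p) x k ∧ ∀ y ∈ V, y ∈ critSet M (fam p) → y = x := by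
  have hx : x₀ ∈ M := h.1.1
  obtain ⟨T, g, O, V₁, hxV, hch⟩ := (isSubmanifold_iff ∞ m M).1 hM x₀ hx
  obtain ⟨hcr, N, P, h1, h2, h3, h4⟩ := (br_index hch x₀ hx hxV (fam p₀) (loc_crit_fam' p₀) k).1 h
  have ha₀O : T.orthogonalProjectionOnto x₀ ∈ O := (hch.mem x₀ hxV).1
  obtain ⟨ψ, htend, U, hU2, hU3, hiff, hev, hev2⟩ := loc_crit_gen hch.openO (loc_crit_smooth hch)
    p₀ (T.orthogonalProjectionOnto x₀) ha₀O hcr N P (by rw [h1, hch.dim]; exact h2) h3 h4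
  have hcont : Continuous fun x : Eu n => T.orthogonalProjectionOnto x :=
    T.orthogonalProjectionOnto.continuous
  set V : Set (Eu n) := (V₁ ∩ interior V₀) ∩ {x | T.orthogonalProjectionOnto x ∈ U} with hVdef
  have hVo : IsOpen V := (hch.openV.inter isOpen_interior).inter (hU2.preimage hcont)
  have hx₀V : x₀ ∈ V := ⟨⟨hxV, mem_interior_iff_mem_nhds.2 hV⟩, hU3⟩
  refine ⟨V, fun x hx => interior_subset hx.1.2, hVo, hx₀V, ?_⟩
  have hcm : cmap T g (T.orthogonalProjectionOnto x₀) = x₀ := loc_crit_cmap hch hx hxV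
  have hcmc : ContinuousAt (cmap T g) (T.orthogonalProjectionOnto x₀) :=
    ((loc_crit_smooth hch).contDiffAt (hch.openO.mem_nhds ha₀O)).continuousAt
  have ev1 : ∀ᶠ p in 𝓝 p₀, cmap T g (ψ p) ∈ V := by
    have e4 : Tendsto (fun p => cmap T g (ψ p)) (𝓝 p₀)
        (𝓝 (cmap T g (T.orthogonalProjectionOnto x₀))) :=
      hcmc.tendsto.comp htend
    rw [hcm] at e4
    exact e4.eventually (hVo.mem_nhds hx₀V)
  filter_upwards [hiff, hev, ev1, hev2] with p hp1 hp2 hp3 hp4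
  have hxM : cmap T g (ψ p) ∈ M := by
    rw [(hch.mem _ hp3.1.1).2, loc_crit_proj, loc_crit_proj']
  refine ⟨cmap T g (ψ p), hp3, ?_, ?_⟩
  · rw [br_index hch _ hxM hp3.1.1 (fam p) (loc_crit_fam' p) k, loc_crit_proj]
    exact ⟨hp2, N, P, h1, h2, hp4.1, hp4.2⟩
  · intro y hy hyc
    have hyM : y ∈ M := hyc.1
    rw [br_crit hch y hyM hy.1.1 (fam p) (loc_crit_fam' p)] at hyc
    have hyU : T.orthogonalProjectionOnto y ∈ U := hy.2
    rw [hp1 _ hyU hyc, loc_crit_cmap hch hyM hy.1.1]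

end

end Pool.Agent.H469
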