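import Pool.Agent.Helper469_Dupin.Chart
import Pool.Agent.Helper469_Dupin.Jloccrit
import Pool.Agent.Helper469_Dupin.Jcritclosed

set_option autoImplicit false

open Set Filter Topology MeasureTheory
open scoped ContDiff InnerProductSpace

namespace Pool.Agent.H469



section
variable {n m : ℕ} {M : Set (Eu n)}

theorem count_loc_smooth (p : Eu n × ℝ) : ContDiff ℝ ∞ (fam p) :=
  (contDiff_const.inner ℝ contDiff_id).sub
    ((contDiff_const.mul (contDiff_id.norm_sq ℝ)).div_const 2)

theorem count_loc_finite (hM : IsSubmanifold ∞ m M) (hc : IsCompact M) (p₀ : Eu n × ℝ)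
    (h₀ : IsMorse m M (fam p₀)) : (critSet M (fam p₀)).Finite := by
  have hcl : IsClosed (critSet M (fam p₀)) :=
    (crit_closed hM hc.isClosed).preimage (Continuous.prodMk_left p₀)
  have hcomp : IsCompact (critSet M (fam p₀)) := hc.of_isClosed_subset hcl fun x hx => hx.1
  have h1 : ∀ x ∈ critSet M (fam p₀), ∃ V : Set (Eu n), V ∈ 𝓝 x ∧
      ∀ y ∈ V, y ∈ critSet M (fam p₀) → y = x := by
    intro x hx
    obtain ⟨k, hk⟩ := h₀ x hx
    obtain ⟨V, -, hVo, hxV, hV⟩ := loc_crit hM p₀ x k hk univ univ_mem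
    obtain ⟨z, hzV, -, hz⟩ := hV.self_of_nhds
    refine ⟨V, hVo.mem_nhds hxV, fun y hy hyc => ?_⟩
    rw [hz y hy hyc, hz x hxV hx]
  choose! V hV hV' using h1
  obtain ⟨t, ht, hcov⟩ := hcomp.elim_nhds_subcover V hV
  refine t.finite_toSet.subset fun x hx => ?_
  obtain ⟨y, hy, hxy⟩ := mem_iUnion₂.1 (hcov hx)
  rw [hV' y (ht y hy) x hxy hx]
  exact hy

end

/-! PLAIN PROOF OF THE TARGET(S)

Let C0 = critSet M (fam p0), closed in M (crit_closed), compact.  Each x ∈ C0 has an index and by loc_crit (p = p0 itself is in the eventual set)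
a neighbourhood V_x with C0 ∩ V_x = {x}; so C0 is finite.  Let C0 = {x_1..x_N} with indices k_i; choose pairwise disjoint neighbourhoods
V0_i of x_i, and V_i ⊆ V0_i from loc_crit.  For p near p0: in each V_i there is exactly one critical point x_i(p) of fam p and it has index
k_i.  Moreover for p near p0 all critical points of fam p lie in the union of the V_i: the set {(x,p) | x critical for fam p} is closed and M minus
the union is compact and contains no critical point of fam p0, so by the tube lemma (`IsCompact.eventually_forall_of_forall_eventually` or the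
projection along a compact set is closed) for p near p0 it contains no critical point of fam p.  So fam p is Morse and x_i ↦ x_i(p) is a
bijection from C0 onto critSet M (fam p) preserving the index (the index of a point is unique, index_unique_pt), so the numbers agree
(`Set.ncard_congr`).  ({x | HasIndex ..} is a subset of the critical set.)
-/

section
variable {n m : ℕ} {M : Set (Eu n)}

/-- TARGET -/
theorem count_loc (hM : IsSubmanifold ∞ m M) (hc : IsCompact M) (p₀ : Eu n × ℝ)
    (h₀ : IsMorse m M (fam p₀)) :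
    (critSet M (fam p₀)).Finite ∧ ∀ᶠ p in 𝓝 p₀, IsMorse m M (fam p) ∧
      ∀ k, {x | HasIndex m M (fam p) x k}.ncard = {x | HasIndex m M (fam p₀) x k}.ncard := by
  have hfin := count_loc_finite hM hc p₀ h₀
  refine ⟨hfin, ?_⟩
  obtain ⟨U, hU, hdisj⟩ := hfin.t2_separation
  have h1 : ∀ x ∈ critSet M (fam p₀), ∃ (k : ℕ) (V : Set (Eu n)), V ⊆ U x ∧ IsOpen V ∧ x ∈ V ∧
      HasIndex m M (fam p₀) x k ∧ ∀ᶠ p in 𝓝 p₀, ∃ y ∈ V,
        HasIndex m M (fam p) y k ∧ ∀ z ∈ V, z ∈ critSet M (fam p) → z = y := by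
    intro x hx
    obtain ⟨k, hk⟩ := h₀ x hx
    obtain ⟨V, hVU, hVo, hxV, hV⟩ := loc_crit hM p₀ x k hk (U x) ((hU x).2.mem_nhds (hU x).1)
    exact ⟨k, V, hVU, hVo, hxV, hk, hV⟩
  choose! κ V hVU hVo hxV hκ hev using h1
  have hW : IsOpen (⋃ x ∈ critSet M (fam p₀), V x) := isOpen_biUnion fun x hx => hVo x hx
  have hKc : IsCompact (M \ ⋃ x ∈ critSet M (fam p₀), V x) := hc.diff hW
  have hKev : ∀ᶠ p in 𝓝 p₀, ∀ y ∈ M \ ⋃ x ∈ critSet M (fam p₀), V x, y ∉ critSet M (fam p) := by
    refine hKc.eventually_forall_of_forall_eventually fun y hy => ?_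
    have hop : IsOpen {q : (Eu n × ℝ) × Eu n | q.2 ∉ critSet M (fam q.1)} :=
      (crit_closed hM hc.isClosed).isOpen_compl.preimage continuous_swap
    refine hop.mem_nhds ?_
    intro hyc
    exact hy.2 (mem_iUnion₂.2 ⟨y, hyc, hxV y hyc⟩)
  filter_upwards [(Filter.eventually_all_finite hfin).2 hev, hKev] with p hp hp'
  choose! y hyV hyI hyu using hp
  have hcrit : ∀ z ∈ critSet M (fam p), ∃ x ∈ critSet M (fam p₀), z = y x := by
    intro z hz
    have hzW : z ∈ ⋃ x ∈ critSet M (fam p₀), V x := by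
      by_contra hzW
      exact hp' z ⟨hz.1, hzW⟩ hz
    obtain ⟨x, hx, hzx⟩ := mem_iUnion₂.1 hzW
    exact ⟨x, hx, hyu x hx z hzx hz⟩
  refine ⟨fun z hz => ?_, fun k => ?_⟩
  · obtain ⟨x, hx, rfl⟩ := hcrit z hz
    exact ⟨_, hyI x hx⟩
  · symm
    refine Set.ncard_congr (fun x _ => y x) ?_ ?_ ?_
    · intro x hx
      have hxc : x ∈ critSet M (fam p₀) := hx.1
      have := index_unique_pt hM (fam p₀) (count_loc_smooth p₀) x _ _ (hκ x hxc) hx
      rw [← this]
      exact hyI x hxc
    · intro a b ha hb hab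
      have hac : a ∈ critSet M (fam p₀) := ha.1
      have hbc : b ∈ critSet M (fam p₀) := hb.1
      by_contra hne
      have hd := hdisj hac hbc hne
      have hab' : y a = y b := hab
      exact Set.disjoint_left.1 hd (hVU a hac (hyV a hac)) (hab' ▸ hVU b hbc (hyV b hbc))
    · intro z hz
      obtain ⟨x, hx, rfl⟩ := hcrit z hz.1
      have := index_unique_pt hM (fam p) (count_loc_smooth p) _ _ _ (hyI x hx) hz
      refine ⟨x, ?_, rfl⟩
      rw [← this]
      exact hκ x hx

end

end Pool.Agent.H469
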