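import Mathlib

set_option autoImplicit false

open Set Filter Topology MeasureTheory
open scoped ContDiff InnerProductSpace

namespace Pool.Agent.H469


/-! PLAIN PROOF OF THE TARGET(S)

Consider Ψ : D × ℝ → D', Ψ(z,s) = Φ z + s • d, on the set A ×ˢ univ, with derivative (v,t) ↦ Φ'(z) v + t • d, which kills (v,0) with
v ≠ 0.  Choose a linear equivalence e : D' ≃L[ℝ] D × ℝ (equal finite dimensions) and apply
`MeasureTheory.addHaar_image_eq_zero_of_det_fderivWithin_eq_zero` to e ∘ Ψ : D × ℝ → D × ℝ (put Borel σ-algebras on D, D × ℝ locally,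
any Haar measure; det = 0 because the derivative is not injective), then transport back: a linear equivalence maps null sets to
null sets (`MeasureTheory.Measure.addHaar_image_continuousLinearEquiv`, or uniqueness of Haar measure up to a factor).  Alternatively apply the
lemma to Ψ ∘ e : D' → D' on the preimage of A ×ˢ univ.
-/

section
variable {F W : Type} [NormedAddCommGroup F] [InnerProductSpace ℝ F] [FiniteDimensional ℝ F]
  [NormedAddCommGroup W] [InnerProductSpace ℝ W] [FiniteDimensional ℝ W]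

/-- TARGET -/
theorem null_of_deriv {D D' : Type} [NormedAddCommGroup D] [NormedSpace ℝ D] [FiniteDimensional ℝ D]
    [NormedAddCommGroup D'] [NormedSpace ℝ D'] [FiniteDimensional ℝ D'] [MeasurableSpace D']
    [BorelSpace D'] (μ : Measure D') [μ.IsAddHaarMeasure]
    (hdim : Module.finrank ℝ D' = Module.finrank ℝ D + 1) (A : Set D) (Φ : D → D')
    (Φ' : D → D →L[ℝ] D') (h : ∀ z ∈ A, HasFDerivAt Φ (Φ' z) z)
    (hs : ∀ z ∈ A, ∃ v : D, v ≠ 0 ∧ Φ' z v = 0) (d : D') :
    μ {q | ∃ z ∈ A, ∃ s : ℝ, q = Φ z + s • d} = 0 := by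
  have hfr : Module.finrank ℝ D' = Module.finrank ℝ (D × ℝ) := by
    rw [Module.finrank_prod, Module.finrank_self, hdim]
  let e : D' ≃L[ℝ] D × ℝ := ContinuousLinearEquiv.ofFinrankEq hfr
  let f : D' → D' := fun q => Φ (e q).1 + (e q).2 • d
  let f' : D' → D' →L[ℝ] D' := fun q =>
    (Φ' (e q).1).comp ((ContinuousLinearMap.fst ℝ D ℝ).comp (e : D' →L[ℝ] D × ℝ)) +
      ((ContinuousLinearMap.snd ℝ D ℝ).comp (e : D' →L[ℝ] D × ℝ)).smulRight d
  let S : Set D' := {q | (e q).1 ∈ A}
  have hf : ∀ q ∈ S, HasFDerivWithinAt f (f' q) S q := by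
    intro q hq
    have h1 : HasFDerivAt (fun q : D' => (e q).1)
        ((ContinuousLinearMap.fst ℝ D ℝ).comp (e : D' →L[ℝ] D × ℝ)) q :=
      ((ContinuousLinearMap.fst ℝ D ℝ).comp (e : D' →L[ℝ] D × ℝ)).hasFDerivAt
    have h2 : HasFDerivAt (fun q : D' => (e q).2)
        ((ContinuousLinearMap.snd ℝ D ℝ).comp (e : D' →L[ℝ] D × ℝ)) q :=
      ((ContinuousLinearMap.snd ℝ D ℝ).comp (e : D' →L[ℝ] D × ℝ)).hasFDerivAt
    have h3 : HasFDerivAt (fun q : D' => Φ (e q).1)
        ((Φ' (e q).1).comp ((ContinuousLinearMap.fst ℝ D ℝ).comp (e : D' →L[ℝ] D × ℝ))) q :=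
      (h (e q).1 hq).comp q h1
    exact (h3.add (h2.smul_const d)).hasFDerivWithinAt
  have hdet : ∀ q ∈ S, (f' q).det = 0 := by
    intro q hq
    obtain ⟨v, hv, hv0⟩ := hs (e q).1 hq
    by_contra hne
    have hne' : LinearMap.det ((f' q : D' →L[ℝ] D') : D' →ₗ[ℝ] D') ≠ 0 := hne
    let G := LinearMap.equivOfDetNeZero ((f' q : D' →L[ℝ] D') : D' →ₗ[ℝ] D') hne'
    have h0 : G (e.symm (v, 0)) = 0 := by
      show f' q (e.symm (v, 0)) = 0
      simp [f', hv0]
    have h1 : e.symm (v, 0) = 0 := by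
      simpa using h0
    have h2 : ((v, 0) : D × ℝ) = 0 := by
      simpa using h1
    exact hv (congrArg Prod.fst h2)
  have hmain := addHaar_image_eq_zero_of_det_fderivWithin_eq_zero μ hf hdet
  refine measure_mono_null ?_ hmain
  rintro q ⟨z, hz, s, rfl⟩
  exact ⟨e.symm (z, s), by simpa [S] using hz, by simp [f]⟩

end

end Pool.Agent.H469
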