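import Pool.Agent.Helper469_Dupin.Chart
import Pool.Agent.Helper469_Dupin.Jlh
import Pool.Agent.Helper469_Dupin.Jlop
import Pool.Agent.Helper469_Dupin.Jclh
import Pool.Agent.Helper469_Dupin.Jnullder

set_option autoImplicit false

open Set Filter Topology MeasureTheory
open scoped ContDiff InnerProductSpace

namespace Pool.Agent.H469


/-! PLAIN PROOF OF THE TARGET(S)

If c = 1: pick k0 ≠ 0 spanning the kernel and take N1, δ, ρ, κ from `clh`.  If c ≥ 2: take N1, δ, ρ from `lh` with Z = F × W,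
L p = Lop g p.1.1 p.1.2 p.2, Ω = {p | p.1.1 ∈ O} (hpos: the ε-derivative of Lop is Gop, <Gop u,u> = |u|²+|Dg u|²).  Put
N = {(a,b,ε) | (a,b) ∈ N1, |ε-ε0| < δ}.  For p ∈ N with dim ker Lop = c we have ε = ρ(a,b).  Let Φ(z) = J (Th g (z.1,z.2,ρ z)) on
A = {z ∈ N1 | dim ker Lop g z.1 z.2 (ρ z) = c}.  Apply `null_of_deriv` (finrank D = finrank F + finrank W + 1; F × W plays D).
Derivative of z ↦ Th g (z.1,z.2,ρ z) = (ρ a - nrm g a b, ρ g(a) + b, ρ) in the direction v = (u, -(ρ • Dg u)) with Lop u = 0 and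
Dρ(z) v = 0:  (ρ u - Hop u + ρ Dg†Dg u, ρ Dg u - ρ Dg u, 0) = (Lop u, 0, 0) = 0.  Such v ≠ 0 exists: for c = 1 by the last claim of
`clh` (u = κ z); for c ≥ 2 the linear functional u ↦ Dρ(z)(u, -(ρ Dg u)) on the c-dimensional kernel has a nonzero kernel.
-/

section
variable {F W : Type} [NormedAddCommGroup F] [InnerProductSpace ℝ F] [FiniteDimensional ℝ F]
  [NormedAddCommGroup W] [InnerProductSpace ℝ W] [FiniteDimensional ℝ W]

/-- the adjoint as a real linear map -/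
noncomputable def nullPiece_Ad (F W : Type) [NormedAddCommGroup F] [InnerProductSpace ℝ F]
    [FiniteDimensional ℝ F] [NormedAddCommGroup W] [InnerProductSpace ℝ W] [FiniteDimensional ℝ W] :
    (F →L[ℝ] W) →L[ℝ] (W →L[ℝ] F) :=
  LinearMap.toContinuousLinearMap
    { toFun := fun T => ContinuousLinearMap.adjoint T
      map_add' := fun S T => map_add _ S T
      map_smul' := fun r T => by simp }

theorem nullPiece_Ad_apply (T : F →L[ℝ] W) :
    nullPiece_Ad F W T = ContinuousLinearMap.adjoint T := rfl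

theorem nullPiece_nrm (g : F → W) (a : F) (b : W) :
    nrm g a b = nullPiece_Ad F W (fderiv ℝ g a) b := rfl

theorem nullPiece_hop (g : F → W) (a : F) (b : W) (u : F)
    (hg2 : HasFDerivAt (fderiv ℝ g) (fderiv ℝ (fderiv ℝ g) a) a) :
    Hop g a b u = nullPiece_Ad F W (fderiv ℝ (fderiv ℝ g) a u) b := by
  have h1 : HasFDerivAt (fun a' => nullPiece_Ad F W (fderiv ℝ g a'))
      ((nullPiece_Ad F W).comp (fderiv ℝ (fderiv ℝ g) a)) a :=
    (nullPiece_Ad F W).hasFDerivAt.comp a hg2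
  have h2 := h1.clm_apply (hasFDerivAt_const b a)
  unfold Hop
  have h3 : (fun a' => nrm g a' b) = fun a' => nullPiece_Ad F W (fderiv ℝ g a') b := rfl
  rw [h3, h2.fderiv]
  simp

theorem nullPiece_deriv (g : F → W) (O : Set F) (hO : IsOpen O) (hg : ContDiffOn ℝ ∞ g O)
    (N : Set (F × W)) (hN : IsOpen N) (hNO : ∀ z ∈ N, z.1 ∈ O) (ρ : F × W → ℝ)
    (hρ : ContDiffOn ℝ ∞ ρ N) (z : F × W) (hz : z ∈ N) :
    DifferentiableAt ℝ (fun z : F × W => Th g (z.1, z.2, ρ z)) z ∧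
      ∀ u : F, Lop g z.1 z.2 (ρ z) u = 0 →
        fderiv ℝ ρ z (u, -(ρ z • fderiv ℝ g z.1 u)) = 0 →
        fderiv ℝ (fun z : F × W => Th g (z.1, z.2, ρ z)) z (u, -(ρ z • fderiv ℝ g z.1 u)) = 0 := by
  have hgz : ContDiffAt ℝ ∞ g z.1 := hg.contDiffAt (hO.mem_nhds (hNO z hz))
  have hg1 : HasFDerivAt g (fderiv ℝ g z.1) z.1 :=
    (hgz.differentiableAt (by simp)).hasFDerivAt
  have hg2 : HasFDerivAt (fderiv ℝ g) (fderiv ℝ (fderiv ℝ g) z.1) z.1 := by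
    have h1 : ContDiffAt ℝ 1 (fderiv ℝ g) z.1 := hgz.fderiv_right (m := 1) (by
      norm_num
      exact WithTop.coe_le_coe.2 le_top)
    exact (h1.differentiableAt (by simp)).hasFDerivAt
  have hr : HasFDerivAt ρ (fderiv ℝ ρ z) z :=
    ((hρ.contDiffAt (hN.mem_nhds hz)).differentiableAt (by simp)).hasFDerivAt
  have hf : HasFDerivAt (fun z : F × W => z.1) (ContinuousLinearMap.fst ℝ F W) z := hasFDerivAt_fst
  have hsn : HasFDerivAt (fun z : F × W => z.2) (ContinuousLinearMap.snd ℝ F W) z := hasFDerivAt_snd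
  have k1 : HasFDerivAt (fun z : F × W => g z.1)
      ((fderiv ℝ g z.1).comp (ContinuousLinearMap.fst ℝ F W)) z := hg1.comp z hf
  have k2 : HasFDerivAt (fun z : F × W => fderiv ℝ g z.1)
      ((fderiv ℝ (fderiv ℝ g) z.1).comp (ContinuousLinearMap.fst ℝ F W)) z := hg2.comp z hf
  have k3 : HasFDerivAt (fun z : F × W => nullPiece_Ad F W (fderiv ℝ g z.1))
      ((nullPiece_Ad F W).comp
        ((fderiv ℝ (fderiv ℝ g) z.1).comp (ContinuousLinearMap.fst ℝ F W))) z :=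
    (nullPiece_Ad F W).hasFDerivAt.comp z k2
  have k4 := k3.clm_apply hsn
  have k5 := hr.smul hf
  have k6 := hr.smul k1
  have k7 := (k5.sub k4).prodMk ((k6.add hsn).prodMk hr)
  have k8 : HasFDerivAt (fun z : F × W => Th g (z.1, z.2, ρ z)) _ z := k7
  refine ⟨k8.differentiableAt, ?_⟩
  intro u hu hd
  rw [k8.fderiv]
  have hL : ρ z • u + ρ z • nullPiece_Ad F W (fderiv ℝ g z.1) (fderiv ℝ g z.1 u) -
      nullPiece_Ad F W (fderiv ℝ (fderiv ℝ g) z.1 u) z.2 = 0 := by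
    rw [← nullPiece_hop g z.1 z.2 u hg2, ← hu]
    simp [Lop, Gop, nullPiece_Ad_apply, smul_add]
  have e1 : ρ z • u - (nullPiece_Ad F W (fderiv ℝ (fderiv ℝ g) z.1 u) z.2 -
      ρ z • nullPiece_Ad F W (fderiv ℝ g z.1) (fderiv ℝ g z.1 u)) = 0 := by
    rw [← hL]
    abel
  simp only [ContinuousLinearMap.prod_apply, sub_apply,
    add_apply, smul_apply, ContinuousLinearMap.coe_fst',
    ContinuousLinearMap.coe_snd', ContinuousLinearMap.comp_apply, ContinuousLinearMap.flip_apply,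
    ContinuousLinearMap.smulRight_apply, hd, zero_smul, add_zero, map_neg, map_smul, Prod.mk_eq_zero]
  refine ⟨?_, ?_, trivial⟩
  · rw [← hL]
    abel
  · abel

theorem nullPiece_pos (g : F → W) (O : Set F) (hO : IsOpen O) (hg : ContDiffOn ℝ ∞ g O)
    (a : F) (b : W) (ε : ℝ) (ha : a ∈ O) (u : F) (hu : u ≠ 0) :
    0 < ⟪fderiv ℝ (fun p : (F × W) × ℝ => Lop g p.1.1 p.1.2 p.2) ((a, b), ε) (0, 1) u, u⟫_ℝ := by
  have hopen : IsOpen {p : (F × W) × ℝ | p.1.1 ∈ O} :=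
    hO.preimage (continuous_fst.comp continuous_fst)
  have hsm := lop_smooth g O hO hg
  have hd : DifferentiableAt ℝ (fun p : (F × W) × ℝ => Lop g p.1.1 p.1.2 p.2) ((a, b), ε) :=
    (hsm.contDiffAt (hopen.mem_nhds (show ((a, b), ε) ∈ {p : (F × W) × ℝ | p.1.1 ∈ O} from ha))).differentiableAt
      (by simp)
  have h1 : HasDerivAt (fun t : ℝ => (((a, b), t) : (F × W) × ℝ)) ((0, 1) : (F × W) × ℝ) ε :=
    (hasDerivAt_const ε ((a, b) : F × W)).prodMk (hasDerivAt_id ε)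
  have h2 : HasDerivAt (fun t : ℝ => Lop g a b t)
      (fderiv ℝ (fun p : (F × W) × ℝ => Lop g p.1.1 p.1.2 p.2) ((a, b), ε) (0, 1)) ε :=
    HasFDerivAt.comp_hasDerivAt (f := fun t : ℝ => (((a, b), t) : (F × W) × ℝ)) ε
      hd.hasFDerivAt h1
  have h3 : HasDerivAt (fun t : ℝ => Lop g a b t) (Gop g a) ε := by
    have h4 := ((hasDerivAt_id ε).smul_const (Gop g a)).sub_const (Hop g a b)
    simpa [Lop] using h4
  rw [h2.unique h3]
  have h5 : ⟪Gop g a u, u⟫_ℝ = ‖u‖ ^ 2 + ‖fderiv ℝ g a u‖ ^ 2 := by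
    simp only [Gop, add_apply, ContinuousLinearMap.comp_apply,
      inner_add_left, ContinuousLinearMap.adjoint_inner_left, real_inner_self_eq_norm_sq]
    simp
  rw [h5]
  have h6 : 0 < ‖u‖ := norm_pos_iff.2 hu
  positivity

theorem nullPiece_core (g : F → W) (O : Set F) (hO : IsOpen O) (hg : ContDiffOn ℝ ∞ g O)
    (hD : DupinLoc g O) (a₀ : F) (b₀ : W) (ε₀ : ℝ) (ha : a₀ ∈ O) (hb : b₀ ≠ 0) (c : ℕ) (hc : 1 ≤ c)
    (hker : Module.finrank ℝ (LinearMap.ker (Lop g a₀ b₀ ε₀ : F →ₗ[ℝ] F)) = c) :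
    ∃ (N : Set (F × W)) (δ : ℝ) (ρ : F × W → ℝ), IsOpen N ∧ (a₀, b₀) ∈ N ∧ 0 < δ ∧
      (∀ z ∈ N, z.1 ∈ O) ∧ ContDiffOn ℝ ∞ ρ N ∧
      (∀ z ∈ N, ∀ ε, |ε - ε₀| < δ →
        Module.finrank ℝ (LinearMap.ker (Lop g z.1 z.2 ε : F →ₗ[ℝ] F)) = c → ε = ρ z) ∧
      (∀ z ∈ N, Module.finrank ℝ (LinearMap.ker (Lop g z.1 z.2 (ρ z) : F →ₗ[ℝ] F)) = c →
        ∃ u : F, u ≠ 0 ∧ Lop g z.1 z.2 (ρ z) u = 0 ∧
          fderiv ℝ ρ z (u, -(ρ z • fderiv ℝ g z.1 u)) = 0) := by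
  rcases Nat.lt_or_ge c 2 with h2 | h2
  · have hc1 : c = 1 := by omega
    subst hc1
    obtain ⟨v, hv, hvs⟩ := finrank_eq_one_iff'.1 hker
    obtain ⟨N, δ, ρ, κ, hδ, hN, hmem, hO', -, -, hρ, -, h1, h3, h4⟩ := clh g O hO hg hD a₀ b₀ ε₀ ha hb
      (v : F) (fun h => hv (Subtype.ext h)) (by
        intro u
        constructor
        · intro hu
          obtain ⟨r, hr⟩ := hvs ⟨u, hu⟩
          exact ⟨r, (congrArg Subtype.val hr).symm⟩
        · rintro ⟨r, rfl⟩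
          have hv2 : Lop g a₀ b₀ ε₀ (v : F) = 0 := v.2
          rw [map_smul, hv2, smul_zero])
    refine ⟨N, δ, ρ, hN, hmem, hδ, fun z hz => (hO' z hz).1, hρ, ?_, ?_⟩
    · intro z hz ε hε hr
      obtain ⟨w, hw, -⟩ := finrank_eq_one_iff'.1 hr
      exact h3 z hz ε hε ⟨(w : F), fun h => hw (Subtype.ext h), w.2⟩
    · intro z hz _
      exact ⟨κ z, (h1 z hz).2.1, ((h1 z hz).2.2 (κ z)).2 ⟨1, (one_smul _ _).symm⟩, h4 z hz⟩
  · have hopen : IsOpen {p : (F × W) × ℝ | p.1.1 ∈ O} :=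
      hO.preimage (continuous_fst.comp continuous_fst)
    obtain ⟨N, δ, ρ, hN, hmem, hδ, -, hρ, -, h1, -⟩ := lh (fun p : (F × W) × ℝ => Lop g p.1.1 p.1.2 p.2)
      {p | p.1.1 ∈ O} hopen (lop_smooth g O hO hg)
      (fun p hp u v => lop_symm g O hO hg p.1.1 hp p.1.2 p.2 u v) (a₀, b₀) ε₀ ha
      (fun u hu => nullPiece_pos g O hO hg a₀ b₀ ε₀ ha u hu) c hc hker
    refine ⟨N, δ, ρ, hN, hmem, hδ, ?_, hρ, ?_, ?_⟩
    · intro z hz
      exact (h1 z hz ε₀ (by simpa using hδ)).1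
    · intro z hz ε hε hr
      exact (h1 z hz ε hε).2.2 hr
    · intro z hz hr
      let ℓ : F →ₗ[ℝ] ℝ := (fderiv ℝ ρ z : F × W →ₗ[ℝ] ℝ).comp
        (LinearMap.prod LinearMap.id (-(ρ z • (fderiv ℝ g z.1 : F →ₗ[ℝ] W))))
      have hlt : Module.finrank ℝ ℝ <
          Module.finrank ℝ (LinearMap.ker (Lop g z.1 z.2 (ρ z) : F →ₗ[ℝ] F)) := by
        rw [hr, Module.finrank_self]
        omega
      have hne := LinearMap.ker_ne_bot_of_finrank_lt
        (f := ℓ.comp (LinearMap.ker (Lop g z.1 z.2 (ρ z) : F →ₗ[ℝ] F)).subtype) hlt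
      obtain ⟨x, hx, hx0⟩ := Submodule.exists_mem_ne_zero_of_ne_bot hne
      refine ⟨(x : F), fun h => hx0 (Subtype.ext h), x.2, ?_⟩
      have hx1 : ℓ (x : F) = 0 := hx
      have hx2 : ℓ (x : F) = fderiv ℝ ρ z ((x : F), -(ρ z • fderiv ℝ g z.1 (x : F))) := rfl
      rw [← hx2, hx1]

/-- TARGET -/
theorem nullPiece (g : F → W) (O : Set F) (hO : IsOpen O) (hg : ContDiffOn ℝ ∞ g O) (hD : DupinLoc g O)
    (a₀ : F) (b₀ : W) (ε₀ : ℝ) (ha : a₀ ∈ O) (hb : b₀ ≠ 0) (c : ℕ) (hc : 1 ≤ c)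
    (hker : Module.finrank ℝ (LinearMap.ker (Lop g a₀ b₀ ε₀ : F →ₗ[ℝ] F)) = c) :
    ∃ N : Set (F × W × ℝ), IsOpen N ∧ (a₀, b₀, ε₀) ∈ N ∧
      ∀ (D : Type) [NormedAddCommGroup D] [NormedSpace ℝ D] [MeasurableSpace D] [BorelSpace D]
        (μ : Measure D) [μ.IsAddHaarMeasure] (J : (F × W × ℝ) ≃L[ℝ] D) (d : D),
        μ {q | ∃ p ∈ N, ∃ s : ℝ,
          Module.finrank ℝ (LinearMap.ker (Lop g p.1 p.2.1 p.2.2 : F →ₗ[ℝ] F)) = c ∧
          q = J (Th g p) + s • d} = 0 := by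
  obtain ⟨N, δ, ρ, hN, hmem, hδ, hNO, hρ, h1, h2⟩ :=
    nullPiece_core g O hO hg hD a₀ b₀ ε₀ ha hb c hc hker
  refine ⟨{p | (p.1, p.2.1) ∈ N ∧ |p.2.2 - ε₀| < δ}, ?_, ?_, ?_⟩
  · refine IsOpen.inter (hN.preimage ?_) ?_
    · exact continuous_fst.prodMk (continuous_fst.comp continuous_snd)
    · have hc2 : Continuous (fun p : F × W × ℝ => |p.2.2 - ε₀|) := by fun_prop
      exact isOpen_lt hc2 continuous_const
  · exact ⟨hmem, by simpa using hδ⟩
  · intro D _ _ _ _ μ _ J d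
    have : FiniteDimensional ℝ D := J.toLinearEquiv.finiteDimensional
    have hdim : Module.finrank ℝ D = Module.finrank ℝ (F × W) + 1 := by
      rw [← J.toLinearEquiv.finrank_eq]
      simp only [Module.finrank_prod, Module.finrank_self]
      omega
    have hd := fun z hz => nullPiece_deriv g O hO hg N hN hNO ρ hρ z hz
    have hnull := null_of_deriv μ hdim
      {z | z ∈ N ∧ Module.finrank ℝ (LinearMap.ker (Lop g z.1 z.2 (ρ z) : F →ₗ[ℝ] F)) = c}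
      (fun z => J (Th g (z.1, z.2, ρ z)))
      (fun z => (J : (F × W × ℝ) →L[ℝ] D).comp
        (fderiv ℝ (fun z : F × W => Th g (z.1, z.2, ρ z)) z))
      (by
        intro z hz
        exact ((J : (F × W × ℝ) →L[ℝ] D).hasFDerivAt).comp z (hd z hz.1).1.hasFDerivAt)
      (by
        intro z hz
        obtain ⟨u, hu, hu1, hu2⟩ := h2 z hz.1 hz.2
        refine ⟨(u, -(ρ z • fderiv ℝ g z.1 u)), fun h => hu (congrArg Prod.fst h), ?_⟩
        rw [ContinuousLinearMap.comp_apply, (hd z hz.1).2 u hu1 hu2, map_zero])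
      d
    refine measure_mono_null ?_ hnull
    rintro q ⟨p, hp, s, hr, rfl⟩
    have he : p.2.2 = ρ (p.1, p.2.1) := h1 (p.1, p.2.1) hp.1 p.2.2 hp.2 hr
    refine ⟨(p.1, p.2.1), ⟨hp.1, ?_⟩, s, ?_⟩
    · rw [← he]
      exact hr
    · simp only
      rw [← he]

end

end Pool.Agent.H469
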