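import Pool.Agent.Helper469_Dupin.Chart
import Pool.Agent.Helper469_Dupin.Jnullpiece
import Pool.Agent.Helper469_Dupin.Jcritiff
import Pool.Agent.Helper469_Dupin.Jdupinloc

set_option autoImplicit false

open Set Filter Topology MeasureTheory
open scoped ContDiff InnerProductSpace

namespace Pool.Agent.H469


/-! PLAIN PROOF OF THE TARGET(S)

Write B = {p | fam p is not Morse}.  If p ∈ B there is x ∈ critSet M (fam p) with no index.  Cover M by countably many chart domains V_i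
(`IsSubmanifold` gives a chart at each point, cf. `isSubmanifold_iff`; M is Lindelöf: `TopologicalSpace.countable_cover_nhds` or
`TopologicalSpace.isOpen_iUnion_countable`).  For x ∈ M ∩ V_i with a = P x: by crit_iff p = Jmap T (Th g (a,b,ε)), ε = p.2, and by nondeg_iff
ker Lop g a b ε ≠ 0; a ∈ O' = {a ∈ O | cmap T g a ∈ V} (open, g is smooth on it, DupinLoc g O' by dupinLoc_of_isDupin).
If b = 0: Lop g a 0 ε = ε Gop g a (Hop is linear in b; Hop g a 0 = 0), Gop is positive definite, so ε = 0 and p = (0,0).  The line R d through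
(0,0) is null: then T ≠ 0, n ≥ 1, so R^n × ℝ has dimension ≥ 2 and the proper subspace R d is null (`Measure.addHaar_submodule`).
If b ≠ 0: for each c ≥ 1 consider S_c = {(a,b,ε) | a ∈ O', b ≠ 0, dim ker Lop = c}.  nullPiece gives for each point of S_c an open N; countably
many of them cover S_c (second countability of T × T^⊥ × ℝ), so {J(Th g p) + s d | p ∈ S_c, s ∈ ℝ} is null, where J : T × T^⊥ × ℝ ≃L R^n × ℝ
is Jmap T made an equivalence (inverse (x,ε) ↦ (Px,Qx,ε)).  A countable union (over i, c) of null sets is null.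
-/

section
variable {n m : ℕ} {M : Set (Eu n)}

theorem focal_null_decomp (T : Submodule ℝ (Eu n)) (x : Eu n) :
    ((T.orthogonalProjectionOnto x : T) : Eu n) + ((Tᗮ.orthogonalProjectionOnto x : Tᗮ) : Eu n) = x := by
  rw [Submodule.orthogonalProjectionOnto_orthogonal]
  simp

theorem focal_null_P (T : Submodule ℝ (Eu n)) (a : T) (b : Tᗮ) :
    T.orthogonalProjectionOnto ((a : Eu n) + (b : Eu n)) = a := by
  rw [map_add, Submodule.orthogonalProjectionOnto_mem_subspace_eq_self,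
    Submodule.orthogonalProjectionOnto_apply_of_mem_orthogonal b.2, add_zero]

theorem focal_null_Q (T : Submodule ℝ (Eu n)) (a : T) (b : Tᗮ) :
    Tᗮ.orthogonalProjectionOnto ((a : Eu n) + (b : Eu n)) = b := by
  rw [map_add, Submodule.orthogonalProjectionOnto_mem_subspace_eq_self,
    Submodule.orthogonalProjectionOnto_orthogonal_apply_eq_zero a.2, zero_add]

/-- `Jmap` as an equivalence -/
noncomputable def focal_null_J (T : Submodule ℝ (Eu n)) : (T × Tᗮ × ℝ) ≃L[ℝ] Eu n × ℝ :=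
  ContinuousLinearEquiv.equivOfInverse (Jmap T)
    ((T.orthogonalProjectionOnto ∘L ContinuousLinearMap.fst ℝ (Eu n) ℝ).prod
      ((Tᗮ.orthogonalProjectionOnto ∘L ContinuousLinearMap.fst ℝ (Eu n) ℝ).prod
        (ContinuousLinearMap.snd ℝ (Eu n) ℝ)))
    (by
      rintro ⟨a, b, ε⟩
      change ((T.orthogonalProjectionOnto ((a : Eu n) + (b : Eu n)),
        (Tᗮ.orthogonalProjectionOnto ((a : Eu n) + (b : Eu n)), ε)) : T × Tᗮ × ℝ) = (a, b, ε)
      rw [focal_null_P, focal_null_Q])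
    (by
      rintro ⟨x, ε⟩
      change (((T.orthogonalProjectionOnto x : T) : Eu n) +
        ((Tᗮ.orthogonalProjectionOnto x : Tᗮ) : Eu n), ε) = (x, ε)
      rw [focal_null_decomp])

theorem focal_null_J_apply (T : Submodule ℝ (Eu n)) (z : T × Tᗮ × ℝ) :
    focal_null_J T z = Jmap T z := rfl

section ops
variable {F W : Type} [NormedAddCommGroup F] [InnerProductSpace ℝ F] [FiniteDimensional ℝ F]
  [NormedAddCommGroup W] [InnerProductSpace ℝ W] [FiniteDimensional ℝ W]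

theorem focal_null_nrm (g : F → W) (a : F) : nrm g a 0 = 0 := by
  unfold nrm
  exact map_zero _

theorem focal_null_Hop (g : F → W) (a : F) : Hop g a 0 = 0 := by
  unfold Hop
  have : (fun a' => nrm g a' 0) = fun _ => (0 : F) := by
    funext a'
    exact focal_null_nrm g a'
  rw [this]
  simp

theorem focal_null_eps (g : F → W) (a : F) (ε : ℝ) (u : F) (hu : u ≠ 0) (h : Lop g a 0 ε u = 0) :
    ε = 0 := by
  unfold Lop at h
  rw [focal_null_Hop, sub_zero] at h
  have h1 : ⟪(ε • Gop g a) u, u⟫_ℝ = 0 := by rw [h, inner_zero_left]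
  have h2 : (ε • Gop g a) u = ε • (u + ContinuousLinearMap.adjoint (fderiv ℝ g a) (fderiv ℝ g a u)) := rfl
  rw [h2, inner_smul_left, inner_add_left, ContinuousLinearMap.adjoint_inner_left] at h1
  have h3 : 0 < ⟪u, u⟫_ℝ := real_inner_self_pos.2 hu
  have h4 : 0 ≤ ⟪fderiv ℝ g a u, fderiv ℝ g a u⟫_ℝ := real_inner_self_nonneg
  have h5 : (starRingEnd ℝ) ε = ε := rfl
  rw [h5] at h1
  rcases mul_eq_zero.1 h1 with h6 | h6
  · exact h6
  · linarith

end ops

theorem focal_null_chart {T : Submodule ℝ (Eu n)} {g : T → Tᗮ} {O : Set T} {V : Set (Eu n)}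
    (h : IsChart ∞ m M T g O V) (hD : IsDupin M) (μ : Measure (Eu n × ℝ))
    [μ.IsAddHaarMeasure] (d : Eu n × ℝ) :
    μ {q | ∃ (p : Eu n × ℝ) (x : Eu n), x ∈ M ∧ x ∈ V ∧ x ∈ critSet M (fam p) ∧
      (¬ ∃ k, HasIndex m M (fam p) x k) ∧ ∃ s : ℝ, q = p + s • d} = 0 := by
  classical
  -- the domain
  have hcm : ContinuousOn (cmap T g) O := by
    have h1 : ContinuousOn g O := h.smooth.continuousOn
    have h2 : ContinuousOn (fun a : T => (a : Eu n)) O := continuous_subtype_val.continuousOn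
    have h3 : ContinuousOn (fun a : T => (g a : Eu n)) O := continuous_subtype_val.comp_continuousOn h1
    exact h2.add h3
  have hO' : IsOpen {a | a ∈ O ∧ cmap T g a ∈ V} := hcm.isOpen_inter_preimage h.openO h.openV
  have hg' : ContDiffOn ℝ ∞ g {a | a ∈ O ∧ cmap T g a ∈ V} := h.smooth.mono (fun a ha => ha.1)
  have hD' := dupinLoc_of_isDupin h hD
  -- the pieces
  let S : ℕ → Set (T × Tᗮ × ℝ) := fun c => {z | (z.1 ∈ O ∧ cmap T g z.1 ∈ V) ∧ z.2.1 ≠ 0 ∧
    Module.finrank ℝ (LinearMap.ker (Lop g z.1 z.2.1 z.2.2 : T →ₗ[ℝ] T)) = c}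
  have hnull : ∀ c : ℕ, 1 ≤ c → μ {q | ∃ z ∈ S c, ∃ s : ℝ, q = Jmap T (Th g z) + s • d} = 0 := by
    intro c hc
    have hN : ∀ z : S c, ∃ N : Set (T × Tᗮ × ℝ), IsOpen N ∧ z.1 ∈ N ∧
        μ {q | ∃ p ∈ N, ∃ s : ℝ,
          Module.finrank ℝ (LinearMap.ker (Lop g p.1 p.2.1 p.2.2 : T →ₗ[ℝ] T)) = c ∧
          q = focal_null_J T (Th g p) + s • d} = 0 := by
      rintro ⟨⟨a, b, ε⟩, hz1, hz2, hz3⟩
      obtain ⟨N, h1, h2, h3⟩ := nullPiece g _ hO' hg' hD' a b ε hz1 hz2 c hc hz3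
      exact ⟨N, h1, h2, h3 (Eu n × ℝ) μ (focal_null_J T) d⟩
    choose N hN1 hN2 hN3 using hN
    obtain ⟨I, hI, hIU⟩ := TopologicalSpace.isOpen_iUnion_countable N hN1
    have hsub : {q | ∃ z ∈ S c, ∃ s : ℝ, q = Jmap T (Th g z) + s • d} ⊆
        ⋃ i ∈ I, {q | ∃ p ∈ N i, ∃ s : ℝ,
          Module.finrank ℝ (LinearMap.ker (Lop g p.1 p.2.1 p.2.2 : T →ₗ[ℝ] T)) = c ∧
          q = focal_null_J T (Th g p) + s • d} := by
      rintro q ⟨z, hz, s, rfl⟩
      have h1 : z ∈ ⋃ i, N i := Set.mem_iUnion.2 ⟨⟨z, hz⟩, hN2 ⟨z, hz⟩⟩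
      rw [← hIU] at h1
      obtain ⟨i, hi, hzi⟩ := Set.mem_iUnion₂.1 h1
      exact Set.mem_iUnion₂.2 ⟨i, hi, z, hzi, s, hz.2.2, rfl⟩
    refine measure_mono_null hsub ?_
    exact (measure_biUnion_null_iff hI).2 (fun i _ => hN3 i)
  have hline : T ≠ ⊥ → μ {q | ∃ s : ℝ, q = s • d} = 0 := by
    intro hT
    have h1 : μ ((Submodule.span ℝ {d} : Submodule ℝ (Eu n × ℝ)) : Set (Eu n × ℝ)) = 0 := by
      apply Measure.addHaar_submodule
      intro htop
      have h2 : Module.finrank ℝ (Submodule.span ℝ {d} : Submodule ℝ (Eu n × ℝ)) ≤ 1 :=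
        (finrank_span_le_card ({d} : Set (Eu n × ℝ))).trans (by simp)
      rw [htop, finrank_top, Module.finrank_prod, Module.finrank_self] at h2
      have h3 : 1 ≤ Module.finrank ℝ T := by
        rw [Nat.one_le_iff_ne_zero]
        intro h0
        exact hT (Submodule.finrank_eq_zero.1 h0)
      have h4 : Module.finrank ℝ T ≤ Module.finrank ℝ (Eu n) := Submodule.finrank_le T
      omega
    refine measure_mono_null ?_ h1
    rintro q ⟨s, rfl⟩
    exact Submodule.smul_mem _ _ (Submodule.mem_span_singleton_self d)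
  have hline' : μ {q : Eu n × ℝ | T ≠ ⊥ ∧ ∃ s : ℝ, q = s • d} = 0 := by
    by_cases hT : T ≠ ⊥
    · refine measure_mono_null ?_ (hline hT)
      rintro q ⟨_, hq⟩
      exact hq
    · have : {q : Eu n × ℝ | T ≠ ⊥ ∧ ∃ s : ℝ, q = s • d} = ∅ := by
        ext q
        simp only [Set.mem_ofPred_eq, Set.mem_empty_iff_false, iff_false]
        exact fun hq => hT hq.1
      rw [this, measure_empty]
  have hall : μ ({q : Eu n × ℝ | T ≠ ⊥ ∧ ∃ s : ℝ, q = s • d} ∪
      ⋃ c : ℕ, {q | ∃ z ∈ S (c + 1), ∃ s : ℝ, q = Jmap T (Th g z) + s • d}) = 0 := by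
    rw [measure_union_null_iff]
    exact ⟨hline', measure_iUnion_null (fun c => hnull (c + 1) (by omega))⟩
  refine measure_mono_null ?_ hall
  rintro q ⟨p, x, hxM, hxV, hcrit, hind, s, rfl⟩
  obtain ⟨b, hb⟩ := (crit_iff h x hxM hxV p).1 hcrit
  have hker := mt (nondeg_iff h x hxM hxV p b hb).2 hind
  obtain ⟨hxO, hxg⟩ := h.mem x hxV
  have hxg' := hxg.1 hxM
  have hcx : cmap T g (T.orthogonalProjectionOnto x) = x := by
    unfold cmap
    rw [← hxg']
    exact focal_null_decomp T x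
  by_cases hb0 : b = 0
  · left
    subst hb0
    obtain ⟨u, hu1, hu2⟩ := Submodule.exists_mem_ne_zero_of_ne_bot hker
    have hε := focal_null_eps g _ _ u hu2 hu1
    have hp0 : p = 0 := by
      rw [hb, hε]
      unfold Th
      rw [focal_null_nrm]
      have : (((0 : ℝ) • (T.orthogonalProjectionOnto x) - 0,
        (0 : ℝ) • g (T.orthogonalProjectionOnto x) + 0, (0 : ℝ)) : T × Tᗮ × ℝ) = 0 := by
        rw [zero_smul, zero_smul, sub_zero, add_zero]
        rfl
      exact (congrArg (Jmap T) this).trans (map_zero _)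
    refine ⟨?_, s, ?_⟩
    · intro hT
      subst hT
      exact hu2 (Subsingleton.elim _ _)
    · rw [hp0, zero_add]
  · right
    have hc : Module.finrank ℝ (LinearMap.ker
        (Lop g (T.orthogonalProjectionOnto x) b p.2 : T →ₗ[ℝ] T)) ≠ 0 := by
      intro h0
      exact hker (Submodule.finrank_eq_zero.1 h0)
    obtain ⟨c, hc'⟩ := Nat.exists_eq_succ_of_ne_zero hc
    refine Set.mem_iUnion.2 ⟨c, (T.orthogonalProjectionOnto x, b, p.2), ⟨⟨hxO, ?_⟩, hb0, hc'⟩, s, ?_⟩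
    · rw [hcx]
      exact hxV
    · rw [← hb]

/-- TARGET -/
theorem focal_null (hM : IsSubmanifold ∞ m M) (hD : IsDupin M) (μ : Measure (Eu n × ℝ))
    [μ.IsAddHaarMeasure] (d : Eu n × ℝ) :
    μ {q | ∃ p : Eu n × ℝ, p ∈ {p | ¬ IsMorse m M (fam p)} ∧ ∃ s : ℝ, q = p + s • d} = 0 := by
  classical
  rw [isSubmanifold_iff] at hM
  have hM' : ∀ x : M, ∃ V : Set (Eu n), IsOpen V ∧ x.1 ∈ V ∧
      ∃ (T : Submodule ℝ (Eu n)) (g : T → Tᗮ) (O : Set T), IsChart ∞ m M T g O V := by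
    rintro ⟨x, hx⟩
    obtain ⟨T, g, O, V, h1, h2⟩ := hM x hx
    exact ⟨V, h2.openV, h1, T, g, O, h2⟩
  choose V hV1 hV2 hV3 using hM'
  obtain ⟨I, hI, hIU⟩ := TopologicalSpace.isOpen_iUnion_countable V hV1
  have hsub : {q | ∃ p : Eu n × ℝ, p ∈ {p | ¬ IsMorse m M (fam p)} ∧ ∃ s : ℝ, q = p + s • d} ⊆
      ⋃ i ∈ I, {q | ∃ (p : Eu n × ℝ) (x : Eu n), x ∈ M ∧ x ∈ V i ∧ x ∈ critSet M (fam p) ∧
        (¬ ∃ k, HasIndex m M (fam p) x k) ∧ ∃ s : ℝ, q = p + s • d} := by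
    rintro q ⟨p, hp, s, rfl⟩
    have hp' : ∃ x ∈ critSet M (fam p), ¬ ∃ k, HasIndex m M (fam p) x k := by
      by_contra hcon
      push Not at hcon
      exact hp hcon
    obtain ⟨x, hx, hxk⟩ := hp'
    have hxM : x ∈ M := hx.1
    have h1 : x ∈ ⋃ i, V i := Set.mem_iUnion.2 ⟨⟨x, hxM⟩, hV2 ⟨x, hxM⟩⟩
    rw [← hIU] at h1
    obtain ⟨i, hi, hxi⟩ := Set.mem_iUnion₂.1 h1
    exact Set.mem_iUnion₂.2 ⟨i, hi, p, x, hxM, hxi, hx, hxk, s, rfl⟩
  refine measure_mono_null hsub ((measure_biUnion_null_iff hI).2 (fun i _ => ?_))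
  obtain ⟨T, g, O, hch⟩ := hV3 i
  exact focal_null_chart hch hD μ d

end

end Pool.Agent.H469
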