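import Pool.Agent.Helper469_Dupin.Chart
import Pool.Agent.Helper469_Dupin.Jfocalnull
import Pool.Agent.Helper469_Dupin.Jcountloc

set_option autoImplicit false

open Set Filter Topology MeasureTheory
open scoped ContDiff InnerProductSpace

namespace Pool.Agent.H469


/-! PLAIN PROOF OF THE TARGET(S)

focal_null with d = 0 and μ a Haar measure (volume on R^n × ℝ: give the Borel structure; `MeasureTheory.volume` is an additive Haar measure there) says that the set of p with fam p not Morse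
is a null set, so Morse parameters are dense; by count_loc they form an open set.  So there is a Morse p1 within δ/4 of p0 and r ∈ (0,δ/4) such that all p within r
of p1 are Morse.  Choose p2 = (w2, ε2) within r/2 of p1 with ε2 ≠ 0.  The set M has empty interior in R^n: in a chart (T,g,O,V) at x ∈ M, as dim T = m < n there is ν ∈ Tᗮ,
ν ≠ 0, and x + s ν ∉ M for small s ≠ 0 (P(x+sν) = P x but Q changes).  So x ↦ ε2 x maps M to a set with empty interior, so there is w with |w - w2| < r/2 and w ∉ ε2 • M.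
p = (w, ε2).
-/

section
variable {n m : ℕ} {M : Set (Eu n)}

theorem generic_p_int (hM : IsSubmanifold ∞ m M) (hmn : m < n) : interior M = ∅ := by
  rw [Set.eq_empty_iff_forall_notMem]
  intro x hx
  obtain ⟨T, g, O, V, hdim, hO, hV, hxV, hg, hmem⟩ := hM x (interior_subset hx)
  have hT : T ≠ ⊤ := by
    intro h
    rw [h, finrank_top, finrank_euclideanSpace, Fintype.card_fin] at hdim
    omega
  have hTo : Tᗮ ≠ ⊥ := fun h => hT (Submodule.orthogonal_eq_bot_iff.1 h)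
  obtain ⟨ν, hν, hν0⟩ := Submodule.exists_mem_ne_zero_of_ne_bot hTo
  have hcont : Continuous fun s : ℝ => x + s • ν := by fun_prop
  have hev : ∀ᶠ s in 𝓝 (0 : ℝ), x + s • ν ∈ interior M ∩ V := by
    have h1 : (fun s : ℝ => x + s • ν) ⁻¹' (interior M ∩ V) ∈ 𝓝 (0 : ℝ) := by
      apply ((isOpen_interior.inter hV).preimage hcont).mem_nhds
      simp [hx, hxV]
    exact h1
  have hev2 : ∀ᶠ s in 𝓝[≠] (0 : ℝ), x + s • ν ∈ interior M ∩ V := hev.filter_mono nhdsWithin_le_nhds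
  obtain ⟨s, hs, hs0⟩ := (hev2.and self_mem_nhdsWithin).exists
  have h1 := (hmem x hxV).2.1 (interior_subset hx)
  have h2 := (hmem _ hs.2).2.1 (interior_subset hs.1)
  have hT0 : T.orthogonalProjectionOnto ν = 0 :=
    Submodule.orthogonalProjectionOnto_apply_of_mem_orthogonal hν
  have hT1 : Tᗮ.orthogonalProjectionOnto ν = ⟨ν, hν⟩ :=
    Submodule.orthogonalProjectionOnto_mem_subspace_eq_self ⟨ν, hν⟩
  rw [map_add, map_add, map_smul, map_smul, hT0, smul_zero, add_zero, ← h1, hT1] at h2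
  have h3 : s • (⟨ν, hν⟩ : Tᗮ) = 0 := by simpa using h2
  rcases smul_eq_zero.1 h3 with h4 | h4
  · exact hs0 h4
  · exact hν0 (congrArg Subtype.val h4)

theorem generic_p_dense (hM : IsSubmanifold ∞ m M) (hD : IsDupin M) (p₀ : Eu n × ℝ) (δ : ℝ)
    (hδ : 0 < δ) : ∃ p, ‖p - p₀‖ < δ ∧ IsMorse m M (fam p) := by
  by_contra hcon
  push Not at hcon
  have h1 := focal_null hM hD (Measure.addHaar : Measure (Eu n × ℝ)) 0
  have h2 : Metric.ball p₀ δ ⊆ {q | ∃ p : Eu n × ℝ, p ∈ {p | ¬ IsMorse m M (fam p)} ∧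
      ∃ s : ℝ, q = p + s • (0 : Eu n × ℝ)} := by
    intro q hq
    refine ⟨q, ?_, 0, by simp⟩
    exact hcon q (by rw [← dist_eq_norm]; exact hq)
  have h3 := measure_mono_null h2 h1
  exact (Metric.measure_ball_pos Measure.addHaar p₀ hδ).ne' h3

/-- TARGET -/
theorem generic_p (hM : IsSubmanifold ∞ m M) (hcpt : IsCompact M) (hD : IsDupin M) (hmn : m < n)
    (p₀ : Eu n × ℝ) (δ : ℝ) (hδ : 0 < δ) :
    ∃ p : Eu n × ℝ, ‖p - p₀‖ < δ ∧ IsMorse m M (fam p) ∧ ∀ y ∈ M, p.1 ≠ p.2 • y := by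
  obtain ⟨p₁, hp₁, hm₁⟩ := generic_p_dense hM hD p₀ (δ / 4) (by positivity)
  obtain ⟨-, hev⟩ := count_loc hM hcpt p₁ hm₁
  have hev2 : ∀ᶠ p in 𝓝 p₁, IsMorse m M (fam p) := hev.mono fun p h => h.1
  obtain ⟨r₀, hr₀, hball⟩ := Metric.eventually_nhds_iff.1 hev2
  obtain ⟨r, hr, hr1, hr2⟩ : ∃ r : ℝ, 0 < r ∧ r ≤ r₀ ∧ r ≤ δ / 4 :=
    ⟨min r₀ (δ / 4), lt_min hr₀ (by positivity), min_le_left _ _, min_le_right _ _⟩
  obtain ⟨ε, hε0, hε1⟩ : ∃ ε : ℝ, ε ≠ 0 ∧ |ε - p₁.2| < r := by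
    by_cases h : p₁.2 = 0
    · refine ⟨r / 2, by positivity, ?_⟩
      rw [h, sub_zero, abs_of_pos (by positivity)]
      linarith
    · exact ⟨p₁.2, h, by simpa using hr⟩
  -- a point off `ε • M`
  obtain ⟨w, hw1, hw2⟩ : ∃ w : Eu n, ‖w - p₁.1‖ < r ∧ ∀ y ∈ M, w ≠ ε • y := by
    by_contra hcon
    push Not at hcon
    have h1 : Metric.ball (ε⁻¹ • p₁.1) (|ε|⁻¹ * r) ⊆ M := by
      intro z hz
      rw [Metric.mem_ball, dist_eq_norm] at hz
      obtain ⟨y, hy, hy2⟩ := hcon (ε • z) (by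
        have e1 : ε • z - p₁.1 = ε • (z - ε⁻¹ • p₁.1) := by
          rw [smul_sub, smul_inv_smul₀ hε0]
        rw [e1, norm_smul, Real.norm_eq_abs]
        have h2 := mul_lt_mul_of_pos_left hz (abs_pos.2 hε0)
        rwa [← mul_assoc, mul_inv_cancel₀ (abs_pos.2 hε0).ne', one_mul] at h2)
      have h3 : z = y := by
        have h4 := congrArg (fun v => ε⁻¹ • v) hy2
        simpa only [inv_smul_smul₀ hε0] using h4
      rw [h3]
      exact hy
    have h5 : ε⁻¹ • p₁.1 ∈ interior M :=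
      mem_interior.2 ⟨_, h1, Metric.isOpen_ball, Metric.mem_ball_self (by positivity)⟩
    rw [generic_p_int hM hmn] at h5
    exact h5
  have hd : ‖((w, ε) : Eu n × ℝ) - p₁‖ < r := by
    rw [Prod.norm_def]
    exact max_lt hw1 (by rw [Real.norm_eq_abs]; exact hε1)
  refine ⟨(w, ε), ?_, ?_, hw2⟩
  · have h6 : ((w, ε) : Eu n × ℝ) - p₀ = ((w, ε) - p₁) + (p₁ - p₀) := by abel
    rw [h6]
    refine (norm_add_le _ _).trans_lt ?_
    linarith
  · exact hball (by rw [dist_eq_norm]; exact hd.trans_le hr1)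


end

end Pool.Agent.H469
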