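import Pool.Agent.Helper469_Dupin.DefsB
import Pool.Agent.Helper469_Dupin.Jloccrit
import Pool.Agent.Helper469_Dupin.Jbrcrit
import Pool.Agent.Helper469_Dupin.Jfamd

set_option autoImplicit false

open Set Filter Topology MeasureTheory
open scoped ContDiff InnerProductSpace

namespace Pool.Agent.H469


/-! PLAIN PROOF OF THE TARGET(S)

If y is critical: it has an index (hp), loc_crit with p₀ = p, V₀ = univ gives V open ∋ y and, for q near p, in particular for q = p
(`Filter.Eventually.self_of_nhds`), a critical point x ∈ V such that every critical point in V equals x; y ∈ V is critical so x = y.  If y is not critical: take a chart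
at y; by br_crit and fam_d1 the gradient P w - ε a + nrm g a (Q w - ε g a) is nonzero at a = P y, it is continuous in a ∈ O, so for x ∈ M near y it is nonzero at P x
and x is not critical (a critical point is in M); so the implication is vacuous near y.
-/

theorem crit_isolated_famSmooth {n : ℕ} (p : Eu n × ℝ) : ContDiff ℝ ∞ (fam p) := by
  unfold fam
  exact (contDiff_const.inner ℝ contDiff_id).sub
    ((contDiff_const.mul (contDiff_norm_sq ℝ)).div_const 2)

theorem crit_isolated_cmap {n : ℕ} (T : Submodule ℝ (Eu n)) (g : T → Tᗮ) (O : Set T)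
    (hg : ContDiffOn ℝ ∞ g O) : ContDiffOn ℝ ∞ (cmap T g) O := by
  unfold cmap
  exact (T.subtypeL.contDiff.contDiffOn).add (Tᗮ.subtypeL.contDiff.comp_contDiffOn hg)

section
variable {n m : ℕ} {M : Set (Eu n)}

/-- TARGET -/
theorem crit_isolated (hM : IsSubmanifold ∞ m M) (p : Eu n × ℝ) (hp : IsMorse m M (fam p))
    (y : Eu n) (hy : y ∈ M) : ∀ᶠ x in 𝓝 y, x ∈ critSet M (fam p) → x = y := by
  by_cases hc : y ∈ critSet M (fam p)
  · obtain ⟨k, hk⟩ := hp y hc
    obtain ⟨V, _, hVo, hyV, hev⟩ := loc_crit hM p y k hk univ univ_mem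
    obtain ⟨x, _, _, hx⟩ := hev.self_of_nhds
    have hyx : y = x := hx y hyV hc
    filter_upwards [hVo.mem_nhds hyV] with z hz hzc
    rw [hyx]; exact hx z hz hzc
  · obtain ⟨T, g, O, V, hyV, h⟩ := (isSubmanifold_iff ∞ m M).1 hM y hy
    have hsm : ContDiff ℝ ∞ (fam p) := crit_isolated_famSmooth p
    have hF : ContDiffOn ℝ ∞ (fam p ∘ cmap T g) O :=
      hsm.comp_contDiffOn (crit_isolated_cmap T g O h.smooth)
    have hcont : ContinuousOn (fderiv ℝ (fam p ∘ cmap T g)) O :=
      hF.continuousOn_fderiv_of_isOpen h.openO (by simp)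
    have hPy : T.orthogonalProjectionOnto y ∈ O := (h.mem y hyV).1
    have hne : fderiv ℝ (fam p ∘ cmap T g) (T.orthogonalProjectionOnto y) ≠ 0 := fun h0 =>
      hc ((br_crit h y hy hyV (fam p) hsm).2 h0)
    have hca : ContinuousAt (fun x => fderiv ℝ (fam p ∘ cmap T g) (T.orthogonalProjectionOnto x)) y :=
      ContinuousAt.comp (f := fun x => T.orthogonalProjectionOnto x)
        (hcont.continuousAt (h.openO.mem_nhds hPy)) (by fun_prop)
    filter_upwards [hca.eventually_ne hne, h.openV.mem_nhds hyV] with z hz hzV hzc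
    exact absurd ((br_crit h z hzc.1 hzV (fam p) hsm).1 hzc) hz

end

end Pool.Agent.H469
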