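import Pool.Agent.Helper469_Dupin.DefsB
import Pool.Agent.Helper469_Dupin.Jbrcrit
import Pool.Agent.Helper469_Dupin.Jbrindex
import Pool.Agent.Helper469_Dupin.Jindex

set_option autoImplicit false

open Set Filter Topology MeasureTheory
open scoped ContDiff InnerProductSpace

namespace Pool.Agent.H469



section link_one_aux
variable {E : Type} [NormedAddCommGroup E] [NormedSpace ℝ E]

theorem link_one_d1 {F : E → ℝ} {O : Set E} (hO : IsOpen O) (hF : ContDiffOn ℝ ∞ F O) (a v : E)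
    (s : ℝ) (hs : a + s • v ∈ O) :
    HasDerivAt (fun s : ℝ => F (a + s • v)) (fderiv ℝ F (a + s • v) v) s := by
  have h1 : HasFDerivAt F (fderiv ℝ F (a + s • v)) (a + s • v) :=
    ((hF.contDiffAt (hO.mem_nhds hs)).differentiableAt (by simp)).hasFDerivAt
  have h2 : HasDerivAt (fun s : ℝ => a + s • v) v s := by
    simpa using ((hasDerivAt_id s).smul_const v).const_add a
  exact h1.comp_hasDerivAt s h2

theorem link_one_d2 {F : E → ℝ} {O : Set E} (hO : IsOpen O) (hF : ContDiffOn ℝ ∞ F O) (a v : E)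
    (s : ℝ) (hs : a + s • v ∈ O) :
    HasDerivAt (fun s : ℝ => fderiv ℝ F (a + s • v) v)
      (fderiv ℝ (fderiv ℝ F) (a + s • v) v v) s := by
  have h0 : ContDiffAt ℝ ∞ (fderiv ℝ F) (a + s • v) :=
    (hF.contDiffAt (hO.mem_nhds hs)).fderiv_right (by simp)
  have h1 : HasFDerivAt (fderiv ℝ F) (fderiv ℝ (fderiv ℝ F) (a + s • v)) (a + s • v) :=
    (h0.differentiableAt (by simp)).hasFDerivAt
  have h2 : HasDerivAt (fun s : ℝ => a + s • v) v s := by
    simpa using ((hasDerivAt_id s).smul_const v).const_add a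
  have h3 := h1.comp_hasDerivAt s h2
  have h4 := h3.clm_apply (hasDerivAt_const s v)
  simpa using h4

/-- concave along the segment: the values are at least the smaller end value -/
theorem link_one_conc {F : E → ℝ} {O : Set E} (hO : IsOpen O) (hF : ContDiffOn ℝ ∞ F O) (a v : E)
    (hseg : ∀ s ∈ Icc (0 : ℝ) 1, a + s • v ∈ O)
    (hneg : ∀ s ∈ Icc (0 : ℝ) 1, fderiv ℝ (fderiv ℝ F) (a + s • v) v v ≤ 0) (s : ℝ)
    (hs : s ∈ Icc (0 : ℝ) 1) : min (F a) (F (a + v)) ≤ F (a + s • v) := by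
  have hc : ConcaveOn ℝ (Icc (0 : ℝ) 1) (fun s : ℝ => F (a + s • v)) := by
    refine concaveOn_of_hasDerivWithinAt2_nonpos (f' := fun s => fderiv ℝ F (a + s • v) v)
      (f'' := fun s => fderiv ℝ (fderiv ℝ F) (a + s • v) v v) (convex_Icc 0 1) ?_ ?_ ?_ ?_
    · intro t ht
      exact (link_one_d1 hO hF a v t (hseg t ht)).continuousAt.continuousWithinAt
    · intro t ht
      exact (link_one_d1 hO hF a v t (hseg t (interior_subset ht))).hasDerivWithinAt
    · intro t ht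
      exact (link_one_d2 hO hF a v t (hseg t (interior_subset ht))).hasDerivWithinAt
    · intro t ht
      exact hneg t (interior_subset ht)
  have h1 := hc.min_le_of_mem_Icc (left_mem_Icc.mpr zero_le_one) (right_mem_Icc.mpr zero_le_one) hs
  simpa using h1

theorem link_one_max {F : E → ℝ} {O : Set E} (hO : IsOpen O) (hF : ContDiffOn ℝ ∞ F O) (a v : E)
    (hseg : ∀ s ∈ Icc (0 : ℝ) 1, a + s • v ∈ O)
    (hneg : ∀ s ∈ Icc (0 : ℝ) 1, fderiv ℝ (fderiv ℝ F) (a + s • v) v v ≤ 0)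
    (h0 : fderiv ℝ F a = 0) : F (a + v) ≤ F a := by
  have hK : AntitoneOn (fun s : ℝ => fderiv ℝ F (a + s • v) v) (Icc 0 1) := by
    refine antitoneOn_of_hasDerivWithinAt_nonpos
      (f' := fun s => fderiv ℝ (fderiv ℝ F) (a + s • v) v v) (convex_Icc 0 1) ?_ ?_ ?_
    · intro t ht
      exact (link_one_d2 hO hF a v t (hseg t ht)).continuousAt.continuousWithinAt
    · intro t ht
      exact (link_one_d2 hO hF a v t (hseg t (interior_subset ht))).hasDerivWithinAt
    · intro t ht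
      exact hneg t (interior_subset ht)
  have hG : AntitoneOn (fun s : ℝ => F (a + s • v)) (Icc 0 1) := by
    refine antitoneOn_of_hasDerivWithinAt_nonpos
      (f' := fun s => fderiv ℝ F (a + s • v) v) (convex_Icc 0 1) ?_ ?_ ?_
    · intro t ht
      exact (link_one_d1 hO hF a v t (hseg t ht)).continuousAt.continuousWithinAt
    · intro t ht
      exact (link_one_d1 hO hF a v t (hseg t (interior_subset ht))).hasDerivWithinAt
    · intro t ht
      have ht' := interior_subset ht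
      have := hK (left_mem_Icc.mpr zero_le_one) ht' ht'.1
      simpa [h0] using this
  have := hG (left_mem_Icc.mpr zero_le_one) (right_mem_Icc.mpr zero_le_one) zero_le_one
  simpa using this

theorem link_one_min {F : E → ℝ} {O : Set E} (hO : IsOpen O) (hF : ContDiffOn ℝ ∞ F O) (a v : E)
    (hseg : ∀ s ∈ Icc (0 : ℝ) 1, a + s • v ∈ O)
    (hpos : ∀ s ∈ Icc (0 : ℝ) 1, 0 < fderiv ℝ (fderiv ℝ F) (a + s • v) v v)
    (h0 : fderiv ℝ F a = 0) : F a < F (a + v) := by
  have hK : StrictMonoOn (fun s : ℝ => fderiv ℝ F (a + s • v) v) (Icc 0 1) := by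
    refine strictMonoOn_of_hasDerivWithinAt_pos
      (f' := fun s => fderiv ℝ (fderiv ℝ F) (a + s • v) v v) (convex_Icc 0 1) ?_ ?_ ?_
    · intro t ht
      exact (link_one_d2 hO hF a v t (hseg t ht)).continuousAt.continuousWithinAt
    · intro t ht
      exact (link_one_d2 hO hF a v t (hseg t (interior_subset ht))).hasDerivWithinAt
    · intro t ht
      exact hpos t (interior_subset ht)
  have hG : StrictMonoOn (fun s : ℝ => F (a + s • v)) (Icc 0 1) := by
    refine strictMonoOn_of_hasDerivWithinAt_pos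
      (f' := fun s => fderiv ℝ F (a + s • v) v) (convex_Icc 0 1) ?_ ?_ ?_
    · intro t ht
      exact (link_one_d1 hO hF a v t (hseg t ht)).continuousAt.continuousWithinAt
    · intro t ht
      exact (link_one_d1 hO hF a v t (hseg t (interior_subset ht))).hasDerivWithinAt
    · intro t ht
      have ht' := interior_subset ht
      have ht0 : 0 < t := by rw [interior_Icc] at ht; exact ht.1
      have := hK (left_mem_Icc.mpr zero_le_one) ht' ht0
      simpa [h0] using this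
  have := hG (left_mem_Icc.mpr zero_le_one) (right_mem_Icc.mpr zero_le_one) zero_lt_one
  simpa using this

end link_one_aux

section link_one_aux2
variable {E : Type} [NormedAddCommGroup E] [NormedSpace ℝ E]

/-- the box -/
def link_one_box (a0 u0 : E) (l : E →L[ℝ] ℝ) (r : ℝ) : Set E :=
  {a | |l (a - a0)| < r ∧ ‖(a - a0) - l (a - a0) • u0‖ < r}

theorem link_one_box_open (a0 u0 : E) (l : E →L[ℝ] ℝ) (r : ℝ) :
    IsOpen (link_one_box a0 u0 l r) := by
  have h1 : Continuous (fun a : E => |l (a - a0)|) := by fun_prop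
  have h2 : Continuous (fun a : E => ‖(a - a0) - l (a - a0) • u0‖) := by fun_prop
  exact (isOpen_lt h1 continuous_const).inter (isOpen_lt h2 continuous_const)

theorem link_one_box_neg (a0 u0 : E) (l : E →L[ℝ] ℝ) (r : ℝ) :
    link_one_box a0 (-u0) (-l) r = link_one_box a0 u0 l r := by
  have h1 : ∀ a : E, (-l) (a - a0) = -(l (a - a0)) := fun a => rfl
  ext a
  simp only [link_one_box, Set.mem_ofPred_eq, h1, abs_neg, neg_smul_neg]

theorem link_one_box_mem (a0 u0 : E) (l : E →L[ℝ] ℝ) (r : ℝ) (hl : l u0 = 1) (τ s : ℝ) (v : E)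
    (hv : l v = 0) (hτ : |τ| < r) (hs : s ∈ Icc (0 : ℝ) 1) (hvr : ‖v‖ < r) :
    a0 + τ • u0 + s • v ∈ link_one_box a0 u0 l r := by
  have h1 : a0 + τ • u0 + s • v - a0 = τ • u0 + s • v := by abel
  have h2 : l (a0 + τ • u0 + s • v - a0) = τ := by
    rw [h1, map_add, map_smul, map_smul, hl, hv]; simp
  refine ⟨by rw [h2]; exact hτ, ?_⟩
  rw [h2, h1]
  have h3 : τ • u0 + s • v - τ • u0 = s • v := by abel
  rw [h3, norm_smul, Real.norm_eq_abs, abs_of_nonneg hs.1]
  calc s * ‖v‖ ≤ 1 * ‖v‖ := mul_le_mul_of_nonneg_right hs.2 (norm_nonneg _)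
    _ < r := by rw [one_mul]; exact hvr

theorem link_one_side {F : E → ℝ} {O : Set E} (hO : IsOpen O) (hF : ContDiffOn ℝ ∞ F O)
    (a0 u0 : E) (l : E →L[ℝ] ℝ) (r : ℝ) (hr : 0 < r) (hl : l u0 = 1)
    (hW : ∀ a ∈ link_one_box a0 u0 l r, a ∈ O ∧
      (∀ v, l v = 0 → fderiv ℝ (fderiv ℝ F) a v v ≤ 0) ∧
      (∀ τ : ℝ, τ ≠ 0 → 0 < fderiv ℝ (fderiv ℝ F) a (τ • u0) (τ • u0)))
    (h0 : fderiv ℝ F a0 = 0) :
    IsPreconnected {a | a ∈ link_one_box a0 u0 l r ∧ F a0 < F a ∧ 0 < l (a - a0)} := by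
  -- points on the line
  have hline : ∀ τ : ℝ, 0 < τ → τ < r →
      a0 + τ • u0 ∈ {a | a ∈ link_one_box a0 u0 l r ∧ F a0 < F a ∧ 0 < l (a - a0)} := by
    intro τ h1 h2
    refine ⟨?_, ?_, ?_⟩
    · have := link_one_box_mem a0 u0 l r hl τ 0 0 (map_zero l)
        (by rw [abs_of_pos h1]; exact h2) (left_mem_Icc.mpr zero_le_one) (by simpa using hr)
      simpa using this
    · refine link_one_min hO hF a0 (τ • u0) (fun s hs => ?_) (fun s hs => ?_) h0
      · have hm := link_one_box_mem a0 u0 l r hl (s * τ) 0 0 (map_zero l)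
          (by
            rw [abs_of_nonneg (mul_nonneg hs.1 h1.le)]
            exact lt_of_le_of_lt (mul_le_of_le_one_left h1.le hs.2) h2)
          (left_mem_Icc.mpr zero_le_one) (by simpa using hr)
        have := (hW _ hm).1
        simpa [mul_smul] using this
      · have hm := link_one_box_mem a0 u0 l r hl (s * τ) 0 0 (map_zero l)
          (by
            rw [abs_of_nonneg (mul_nonneg hs.1 h1.le)]
            exact lt_of_le_of_lt (mul_le_of_le_one_left h1.le hs.2) h2)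
          (left_mem_Icc.mpr zero_le_one) (by simpa using hr)
        have := (hW _ hm).2.2 τ h1.ne'
        simpa [mul_smul] using this
    · have : a0 + τ • u0 - a0 = τ • u0 := by abel
      rw [this, map_smul, hl]; simpa using h1
  refine isPreconnected_of_forall (a0 + (r / 2) • u0) (fun a ha => ?_)
  obtain ⟨haW, haF, hal⟩ := ha
  set τ : ℝ := l (a - a0) with hτ
  set v : E := (a - a0) - τ • u0 with hv
  have hlv : l v = 0 := by
    rw [hv, map_sub, map_smul, hl, ← hτ]; simp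
  have hτr : τ < r := lt_of_le_of_lt (le_abs_self _) haW.1
  have hvr : ‖v‖ < r := haW.2
  have ha : a = a0 + τ • u0 + v := by rw [hv]; abel
  refine ⟨segment ℝ (a0 + τ • u0) a ∪ segment ℝ (a0 + τ • u0) (a0 + (r / 2) • u0), ?_, ?_, ?_, ?_⟩
  · apply Set.union_subset
    · intro x hx
      rw [segment_eq_image'] at hx
      obtain ⟨s, hs, rfl⟩ := hx
      have e1 : a - (a0 + τ • u0) = v := by rw [hv]; abel
      simp only [e1]
      have hm := link_one_box_mem a0 u0 l r hl τ s v hlv haW.1 hs hvr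
      refine ⟨hm, ?_, ?_⟩
      · have h1 := link_one_conc hO hF (a0 + τ • u0) v
          (fun t ht => (hW _ (link_one_box_mem a0 u0 l r hl τ t v hlv haW.1 ht hvr)).1)
          (fun t ht => (hW _ (link_one_box_mem a0 u0 l r hl τ t v hlv haW.1 ht hvr)).2.1 v hlv)
          s hs
        refine lt_of_lt_of_le (lt_min ?_ ?_) h1
        · exact (hline τ hal hτr).2.1
        · rw [← ha]; exact haF
      · have e2 : a0 + τ • u0 + s • v - a0 = τ • u0 + s • v := by abel
        rw [e2, map_add, map_smul, map_smul, hl, hlv]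
        simpa using hal
    · intro x hx
      rw [segment_eq_image'] at hx
      obtain ⟨s, hs, rfl⟩ := hx
      have e1 : a0 + τ • u0 + s • (a0 + (r / 2) • u0 - (a0 + τ • u0)) =
          a0 + (τ + s * (r / 2 - τ)) • u0 := by module
      simp only [e1]
      refine hline _ ?_ ?_
      · nlinarith [hs.1, hs.2]
      · nlinarith [hs.1, hs.2]
  · exact Or.inr (right_mem_segment _ _ _)
  · exact Or.inl (right_mem_segment _ _ _)
  · exact IsPreconnected.union (a0 + τ • u0) (left_mem_segment _ _ _) (left_mem_segment _ _ _)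
      (convex_segment _ _).isPreconnected (convex_segment _ _).isPreconnected

theorem link_one_ne {F : E → ℝ} {O : Set E} (hO : IsOpen O) (hF : ContDiffOn ℝ ∞ F O)
    (a0 u0 : E) (l : E →L[ℝ] ℝ) (r : ℝ) (hr : 0 < r) (hl : l u0 = 1)
    (hW : ∀ a ∈ link_one_box a0 u0 l r, a ∈ O ∧
      (∀ v, l v = 0 → fderiv ℝ (fderiv ℝ F) a v v ≤ 0))
    (h0 : fderiv ℝ F a0 = 0) (a : E) (ha : a ∈ link_one_box a0 u0 l r) (haF : F a0 < F a) :
    l (a - a0) ≠ 0 := by
  intro h
  have h1 : ‖a - a0‖ < r := by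
    have := ha.2
    rw [h] at this
    simpa using this
  have key : ∀ s ∈ Icc (0 : ℝ) 1, a0 + s • (a - a0) ∈ link_one_box a0 u0 l r := by
    intro s hs
    have := link_one_box_mem a0 u0 l r hl 0 s (a - a0) h (by simpa using hr) hs h1
    simpa using this
  have := link_one_max hO hF a0 (a - a0) (fun s hs => (hW _ (key s hs)).1)
    (fun s hs => (hW _ (key s hs)).2 _ h) h0
  rw [add_sub_cancel] at this
  linarith

theorem link_one_cont {F : E → ℝ} {O : Set E} (hO : IsOpen O) (hF : ContDiffOn ℝ ∞ F O) (a0 : E)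
    (ha : a0 ∈ O) : ContinuousAt (fderiv ℝ (fderiv ℝ F)) a0 := by
  have h1 : ContDiffAt ℝ ∞ F a0 := hF.contDiffAt (hO.mem_nhds ha)
  have h2 : ContDiffAt ℝ ∞ (fderiv ℝ F) a0 := h1.fderiv_right (by simp)
  have h3 : ContDiffAt ℝ ∞ (fderiv ℝ (fderiv ℝ F)) a0 := h2.fderiv_right (by simp)
  exact h3.continuousAt

/-- the box is small -/
theorem link_one_small (a0 u0 : E) (l : E →L[ℝ] ℝ) (U : Set E) (hU : U ∈ 𝓝 a0) :
    ∃ r : ℝ, 0 < r ∧ link_one_box a0 u0 l r ⊆ U := by
  obtain ⟨ε, hε, hεU⟩ := Metric.mem_nhds_iff.mp hU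
  refine ⟨ε / (‖u0‖ + 1), by positivity, fun a ha => hεU ?_⟩
  rw [Metric.mem_ball, dist_eq_norm]
  have h1 : a - a0 = ((a - a0) - l (a - a0) • u0) + l (a - a0) • u0 := by abel
  rw [h1]
  calc _ ≤ ‖(a - a0) - l (a - a0) • u0‖ + ‖l (a - a0) • u0‖ := norm_add_le _ _
    _ < ε / (‖u0‖ + 1) + ε / (‖u0‖ + 1) * ‖u0‖ := by
        refine add_lt_add_of_lt_of_le ha.2 ?_
        rw [norm_smul]
        exact mul_le_mul_of_nonneg_right ha.1.le (norm_nonneg _)
    _ = ε := by field_simp; ring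

end link_one_aux2

section link_one_aux3
variable {n : ℕ}

theorem link_one_proj (T : Submodule ℝ (Eu n)) (g : T → Tᗮ) (a : T) :
    T.orthogonalProjectionOnto (cmap T g a) = a ∧
      Tᗮ.orthogonalProjectionOnto (cmap T g a) = g a := by
  constructor
  · rw [cmap, map_add, Submodule.orthogonalProjectionOnto_mem_subspace_eq_self,
      Submodule.orthogonalProjectionOnto_apply_of_mem_orthogonal (g a).2, add_zero]
  · rw [cmap, map_add, Submodule.orthogonalProjectionOnto_mem_subspace_eq_self,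
      Submodule.orthogonalProjectionOnto_orthogonal_apply_eq_zero a.2, zero_add]

theorem link_one_fix (T : Submodule ℝ (Eu n)) (g : T → Tᗮ) (x : Eu n)
    (h : Tᗮ.orthogonalProjectionOnto x = g (T.orthogonalProjectionOnto x)) :
    cmap T g (T.orthogonalProjectionOnto x) = x := by
  rw [cmap, ← h, Submodule.orthogonalProjectionOnto_orthogonal]
  simp

/-- a functional with kernel `N` and value one at `u0` -/
theorem link_one_fun {E : Type} [NormedAddCommGroup E] [NormedSpace ℝ E] [FiniteDimensional ℝ E]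
    (N : Submodule ℝ E) (hN : Module.finrank ℝ N + 1 = Module.finrank ℝ E) (u0 : E)
    (hu : u0 ∉ N) : ∃ l : E →L[ℝ] ℝ, l u0 = 1 ∧ ∀ v, l v = 0 → v ∈ N := by
  obtain ⟨f, hf, hNf⟩ := Submodule.exists_le_ker_of_notMem hu
  have hker : N = LinearMap.ker f := by
    apply Submodule.eq_of_le_of_finrank_eq hNf
    have h1 := LinearMap.finrank_range_add_finrank_ker f
    have h2 : Module.finrank ℝ (LinearMap.range f) = 1 := by
      have hr : LinearMap.range f = ⊤ := by
        rw [LinearMap.range_eq_top]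
        exact LinearMap.surjective (fun h => hf (by rw [h]; rfl))
      rw [hr, finrank_top, Module.finrank_self]
    omega
  refine ⟨LinearMap.toContinuousLinearMap ((f u0)⁻¹ • f), ?_, ?_⟩
  · show (f u0)⁻¹ • f u0 = 1
    rw [smul_eq_mul, inv_mul_cancel₀ hf]
  · intro v hv
    have hv' : (f u0)⁻¹ • f v = 0 := hv
    rw [hker, LinearMap.mem_ker]
    rcases smul_eq_zero.mp hv' with h | h
    · exact absurd h (inv_ne_zero hf)
    · exact h

end link_one_aux3
/-! PLAIN PROOF OF THE TARGET(S)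

Same set up as for nondegenerate critical points: chart (T,g,O,V) at y, a0 = P y, φ = cmap T g, F = f∘φ smooth on O'' = {a ∈ O | φ a ∈ V}; br_index gives N, P ⊆ T
with dim N = k, dim P = 1, T = N ⊕ P, D²F(a0) < 0 on N, > 0 on P, by index_stable also at all a in a ball B.  P = R u0.  Box: a0 + τ u0 + v, |τ| < r,
v ∈ N, |v| < r, inside B ∩ O''.  As there: F(a0 + v) ≤ F(a0); F(a0 + τ u0) > F(a0) for τ ≠ 0; if F(a0+τu0+v) > F(a0) then τ ≠ 0 and the segment to a0 + τ u0 stays in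
{F > F(a0)} (concavity in v).  So S+ = {a in the box, F(a) > F(a0), τ > 0} and S- (τ < 0) are preconnected.  Let β(s) = P(c s) - a0 = τ(s) u0 + v(s) for the given
curve; β'(0) = P c'(0) =: h.  By br_hess D²F(a0)(h,h) = (f∘c)''(0) > 0, so h ∉ N, τ'(0) ≠ 0, so for small s > 0, τ(s) has the sign of τ'(0), for small s < 0
the opposite sign, and c(s) = φ(P c(s)) ∈ D, f(c s) > f(y).  So D meets φ(S+) and φ(S-), and Q = φ(S+) ∪ D ∪ φ(S-) is preconnected, contained in {x ∈ M, f y < f x}, and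
contains all x ∈ M near y with f x > f y.
-/

section
variable {n m : ℕ} {M : Set (Eu n)}

/-- TARGET -/
theorem link_one (hM : IsSubmanifold ∞ m M) (f : Eu n → ℝ) (hf : ContDiff ℝ ∞ f) (y : Eu n)
    (k : ℕ) (hy : HasIndex m M f y k) (hk : k + 1 = m) (c : ℝ → Eu n) (hc : IsCurveAt M y c)
    (h2 : 0 < iteratedDeriv 2 (f ∘ c) 0) (D : Set (Eu n)) (hD : IsPreconnected D)
    (hDs : D ⊆ {x | x ∈ M ∧ f y < f x}) (hcD : ∀ᶠ s in 𝓝[≠] (0 : ℝ), c s ∈ D) : Link M f y := by
  have hyc : y ∈ critSet M f := hy.1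
  have hyM : y ∈ M := hyc.1
  obtain ⟨T, g, O, V, hyV, h⟩ := (isSubmanifold_iff ∞ m M).mp hM y hyM
  obtain ⟨hF0, N, P, hN, hP, hNneg, hPpos⟩ := (br_index h y hyM hyV f hf k).mp hy
  have hhess := br_hess h y hyM hyV f hf hyc c hc
  set a0 : T := T.orthogonalProjectionOnto y with ha0
  set F : T → ℝ := f ∘ cmap T g with hF
  have hcm : ContDiffOn ℝ ∞ (cmap T g) O :=
    T.subtypeL.contDiff.contDiffOn.add (Tᗮ.subtypeL.contDiff.comp_contDiffOn h.smooth)
  have hFs : ContDiffOn ℝ ∞ F O := hf.comp_contDiffOn hcm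
  set O' : Set T := O ∩ cmap T g ⁻¹' V with hO'
  have hO'o : IsOpen O' := hcm.continuousOn.isOpen_inter_preimage h.openO h.openV
  have hfix : ∀ x ∈ M, x ∈ V → cmap T g (T.orthogonalProjectionOnto x) = x := fun x hx hxV =>
    link_one_fix T g x (((h.mem x hxV).2).mp hx)
  have hya : cmap T g a0 = y := hfix y hyM hyV
  have ha0O : a0 ∈ O' := ⟨(h.mem y hyV).1, by show cmap T g a0 ∈ V; rw [hya]; exact hyV⟩
  have hM' : ∀ a ∈ O', cmap T g a ∈ M := by
    intro a ha
    rw [(h.mem _ ha.2).2, (link_one_proj T g a).1, (link_one_proj T g a).2]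
  have hPr : Module.finrank ℝ P = 1 := by omega
  obtain ⟨u0, hu0P, hu0⟩ : ∃ u0 ∈ P, u0 ≠ 0 := by
    apply Submodule.exists_mem_ne_zero_of_ne_bot
    intro h
    rw [h, finrank_bot] at hPr
    omega
  have hu0N : u0 ∉ N := fun h => by
    have h1 := hNneg u0 h hu0
    have h2 := hPpos u0 hu0P hu0
    linarith
  obtain ⟨l, hl1, hlN⟩ := link_one_fun N (by rw [hN, h.dim]; exact hk) u0 hu0N
  -- stability
  have hst := index_stable (fderiv ℝ (fderiv ℝ F) a0) N P hNneg hPpos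
  have hcont : ContinuousAt (fderiv ℝ (fderiv ℝ F)) a0 := link_one_cont h.openO hFs a0 ha0O.1
  have hev : ∀ᶠ a in 𝓝 a0, a ∈ O' ∧ (∀ u ∈ N, u ≠ 0 → fderiv ℝ (fderiv ℝ F) a u u < 0) ∧
      (∀ u ∈ P, u ≠ 0 → 0 < fderiv ℝ (fderiv ℝ F) a u u) := by
    have h1 : ∀ᶠ a in 𝓝 a0, a ∈ O' := hO'o.mem_nhds ha0O
    have h2 := hcont.eventually hst
    filter_upwards [h1, h2] with a ha1 ha2
    exact ⟨ha1, ha2.1, ha2.2⟩
  obtain ⟨r, hr, hrW⟩ := link_one_small a0 u0 l _ hev
  have hW1 : ∀ a ∈ link_one_box a0 u0 l r, a ∈ O' ∧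
      (∀ v, l v = 0 → fderiv ℝ (fderiv ℝ F) a v v ≤ 0) ∧
      (∀ τ : ℝ, τ ≠ 0 → 0 < fderiv ℝ (fderiv ℝ F) a (τ • u0) (τ • u0)) := by
    intro a ha
    obtain ⟨h1, h2, h3⟩ := hrW ha
    refine ⟨h1, fun v hv => ?_, fun τ hτ => ?_⟩
    · by_cases hv0 : v = 0
      · rw [hv0]; simp
      · exact (h2 v (hlN v hv) hv0).le
    · exact h3 _ (P.smul_mem τ hu0P) (smul_ne_zero hτ hu0)
  have hFs' : ContDiffOn ℝ ∞ F O' := hFs.mono Set.inter_subset_left
  have ha0W : a0 ∈ link_one_box a0 u0 l r := by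
    simp [link_one_box, hr]
  -- the two sides
  have hS1 := link_one_side hO'o hFs' a0 u0 l r hr hl1 hW1 hF0
  have hS2 := link_one_side hO'o hFs' a0 (-u0) (-l) r hr (by simpa using hl1) (by
    intro a ha
    rw [link_one_box_neg] at ha
    obtain ⟨h1, h2, h3⟩ := hW1 a ha
    refine ⟨h1, fun v hv => h2 v (by simpa using hv), fun τ hτ => ?_⟩
    have := h3 (-τ) (neg_ne_zero.mpr hτ)
    simpa using this) hF0
  rw [link_one_box_neg] at hS2
  set S1 : Set T := {a | a ∈ link_one_box a0 u0 l r ∧ F a0 < F a ∧ 0 < l (a - a0)} with hS1d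
  set S2 : Set T := {a | a ∈ link_one_box a0 u0 l r ∧ F a0 < F a ∧ 0 < (-l) (a - a0)} with hS2d
  have hcW : ContinuousOn (cmap T g) (link_one_box a0 u0 l r) :=
    hcm.continuousOn.mono (fun a ha => (hW1 a ha).1.1)
  have hI1 : IsPreconnected (cmap T g '' S1) := hS1.image _ (hcW.mono (fun a ha => ha.1))
  have hI2 : IsPreconnected (cmap T g '' S2) := hS2.image _ (hcW.mono (fun a ha => ha.1))
  have hFy : F a0 = f y := by rw [hF]; simp only [Function.comp]; rw [hya]
  -- the points near `y`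
  have hcase1 : ∀ x ∈ M, x ∈ V → T.orthogonalProjectionOnto x ∈ link_one_box a0 u0 l r →
      f y < f x → 0 < l (T.orthogonalProjectionOnto x - a0) → x ∈ cmap T g '' S1 := by
    intro x hx hxV hxW hfx hlx
    refine ⟨T.orthogonalProjectionOnto x, ⟨hxW, ?_, hlx⟩, hfix x hx hxV⟩
    rw [hFy, hF]; simp only [Function.comp]; rw [hfix x hx hxV]; exact hfx
  have hcase2 : ∀ x ∈ M, x ∈ V → T.orthogonalProjectionOnto x ∈ link_one_box a0 u0 l r →
      f y < f x → l (T.orthogonalProjectionOnto x - a0) < 0 → x ∈ cmap T g '' S2 := by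
    intro x hx hxV hxW hfx hlx
    refine ⟨T.orthogonalProjectionOnto x, ⟨hxW, ?_, ?_⟩, hfix x hx hxV⟩
    · rw [hFy, hF]; simp only [Function.comp]; rw [hfix x hx hxV]; exact hfx
    · show 0 < -(l (T.orthogonalProjectionOnto x - a0)); linarith
  have hVn : V ∩ T.orthogonalProjectionOnto ⁻¹' (link_one_box a0 u0 l r) ∈ 𝓝 y := by
    refine inter_mem (h.openV.mem_nhds hyV) ?_
    exact T.orthogonalProjectionOnto.continuous.continuousAt.preimage_mem_nhds
      ((link_one_box_open a0 u0 l r).mem_nhds ha0W)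
  -- the curve
  obtain ⟨hc0, δ, hδ, hcs, hcM⟩ := hc
  have hcd : HasDerivAt c (deriv c 0) 0 :=
    ((hcs.contDiffAt (Ioo_mem_nhds (by linarith) hδ)).differentiableAt (by simp)).hasDerivAt
  set β : ℝ → ℝ := fun s => l (T.orthogonalProjectionOnto (c s) - a0) with hβ
  set d : ℝ := l (T.orthogonalProjectionOnto (deriv c 0)) with hd
  have hβd : HasDerivAt β d 0 := by
    have h1 : HasDerivAt (fun s => T.orthogonalProjectionOnto (c s) - a0)
        (T.orthogonalProjectionOnto (deriv c 0)) 0 :=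
      (T.orthogonalProjectionOnto.hasFDerivAt.comp_hasDerivAt (0 : ℝ) hcd).sub_const a0
    exact l.hasFDerivAt.comp_hasDerivAt (0 : ℝ) h1
  have hβ0 : β 0 = 0 := by
    simp only [hβ, hc0]
    rw [← ha0, sub_self, map_zero]
  have hd0 : d ≠ 0 := by
    intro h0
    have h1 := (hW1 a0 ha0W).2.1 _ h0
    rw [hhess] at h2
    linarith
  -- the good parameters
  have hgood : ∀ᶠ s in 𝓝[≠] (0 : ℝ), c s ∈ D ∧
      c s ∈ V ∩ T.orthogonalProjectionOnto ⁻¹' (link_one_box a0 u0 l r) := by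
    have h1 : ∀ᶠ s in 𝓝 (0 : ℝ), c s ∈ V ∩ T.orthogonalProjectionOnto ⁻¹'
        (link_one_box a0 u0 l r) := by
      have h3 : Tendsto c (𝓝 0) (𝓝 y) := by
        have := hcd.continuousAt.tendsto
        rwa [hc0] at this
      exact h3 hVn
    exact hcD.and (h1.filter_mono nhdsWithin_le_nhds)
  have hslope : ∀ᶠ s in 𝓝[≠] (0 : ℝ), 0 < slope β 0 s * d := by
    have h1 := (hasDerivAt_iff_tendsto_slope.mp hβd).mul_const d
    exact h1.eventually (lt_mem_nhds (mul_self_pos.mpr hd0))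
  have hall := hgood.and hslope
  obtain ⟨s1, ⟨⟨hs1D, hs1V⟩, hs1⟩, hs1p⟩ : ∃ s, ((c s ∈ D ∧
      c s ∈ V ∩ T.orthogonalProjectionOnto ⁻¹' (link_one_box a0 u0 l r)) ∧
      0 < slope β 0 s * d) ∧ 0 < s := by
    have h1 := (hall.filter_mono (nhdsWithin_mono (0 : ℝ)
      (show Ioi (0 : ℝ) ⊆ {0}ᶜ from fun s hs => ne_of_gt hs))).and self_mem_nhdsWithin
    exact h1.exists
  obtain ⟨s2, ⟨⟨hs2D, hs2V⟩, hs2⟩, hs2p⟩ : ∃ s, ((c s ∈ D ∧
      c s ∈ V ∩ T.orthogonalProjectionOnto ⁻¹' (link_one_box a0 u0 l r)) ∧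
      0 < slope β 0 s * d) ∧ s < 0 := by
    have h1 := (hall.filter_mono (nhdsWithin_mono (0 : ℝ)
      (show Iio (0 : ℝ) ⊆ {0}ᶜ from fun s hs => ne_of_lt hs))).and self_mem_nhdsWithin
    exact h1.exists
  have hsl : ∀ s, slope β 0 s = s⁻¹ * β s := by
    intro s
    rw [slope_def_field, hβ0, sub_zero, sub_zero, div_eq_inv_mul]
  rw [hsl] at hs1 hs2
  have hb1 : 0 < β s1 * d := by
    have h1 : β s1 * d = s1 * (s1⁻¹ * β s1 * d) := by field_simp
    rw [h1]; exact mul_pos hs1p hs1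
  have hb2 : β s2 * d < 0 := by
    have h1 : β s2 * d = s2 * (s2⁻¹ * β s2 * d) := by
      have : s2 ≠ 0 := ne_of_lt hs2p
      field_simp
    rw [h1]; exact mul_neg_of_neg_of_pos hs2p hs2
  have hmeet : (∃ x ∈ D, x ∈ cmap T g '' S1) ∧ (∃ x ∈ D, x ∈ cmap T g '' S2) := by
    rcases lt_or_gt_of_ne hd0 with hneg | hpos
    · have e1 : β s1 < 0 := by
        by_contra hcon
        have := mul_nonpos_of_nonneg_of_nonpos (not_lt.mp hcon) hneg.le
        linarith
      have e2 : 0 < β s2 := by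
        by_contra hcon
        have := mul_nonneg_of_nonpos_of_nonpos (not_lt.mp hcon) hneg.le
        linarith
      exact ⟨⟨c s2, hs2D, hcase1 _ (hDs hs2D).1 hs2V.1 hs2V.2 (hDs hs2D).2 e2⟩,
        ⟨c s1, hs1D, hcase2 _ (hDs hs1D).1 hs1V.1 hs1V.2 (hDs hs1D).2 e1⟩⟩
    · have e1 : 0 < β s1 := by
        by_contra hcon
        have := mul_nonpos_of_nonpos_of_nonneg (not_lt.mp hcon) hpos.le
        linarith
      have e2 : β s2 < 0 := by
        by_contra hcon
        have := mul_nonneg (not_lt.mp hcon) hpos.le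
        linarith
      exact ⟨⟨c s1, hs1D, hcase1 _ (hDs hs1D).1 hs1V.1 hs1V.2 (hDs hs1D).2 e1⟩,
        ⟨c s2, hs2D, hcase2 _ (hDs hs2D).1 hs2V.1 hs2V.2 (hDs hs2D).2 e2⟩⟩
  obtain ⟨⟨x1, hx1D, hx1⟩, ⟨x2, hx2D, hx2⟩⟩ := hmeet
  refine ⟨_, hVn, cmap T g '' S1 ∪ D ∪ cmap T g '' S2, ?_, ?_, ?_⟩
  · refine IsPreconnected.union' ⟨x2, Or.inr hx2D, hx2⟩ ?_ hI2
    exact IsPreconnected.union' ⟨x1, hx1, hx1D⟩ hI1 hD
  · rintro x ((⟨a, ha, rfl⟩ | hx) | ⟨a, ha, rfl⟩)
    · exact ⟨hM' a (hW1 a ha.1).1, by rw [← hFy]; exact ha.2.1⟩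
    · exact hDs hx
    · exact ⟨hM' a (hW1 a ha.1).1, by rw [← hFy]; exact ha.2.1⟩
  · rintro x ⟨⟨hxV, hxW⟩, hxM, hfx⟩
    have hne := link_one_ne hO'o hFs' a0 u0 l r hr hl1 (fun a ha => ⟨(hW1 a ha).1, (hW1 a ha).2.1⟩)
      hF0 (T.orthogonalProjectionOnto x) hxW (by
        rw [hFy, hF]; simp only [Function.comp]; rw [hfix x hxM hxV]; exact hfx)
    rcases lt_or_gt_of_ne hne with hlt | hgt
    · exact Or.inr (hcase2 x hxM hxV hxW hfx hlt)
    · exact Or.inl (Or.inl (hcase1 x hxM hxV hxW hfx hgt))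

end

end Pool.Agent.H469
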