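import Mathlib

set_option autoImplicit false

open Set Filter Topology MeasureTheory
open scoped ContDiff InnerProductSpace

namespace Pool.Agent.H469


/-! PLAIN PROOF OF THE TARGET(S)

Let S = {u | <G u,u> = 1}, compact (G is positive definite: <G u,u> ≥ c|u|² with c > 0 by compactness of the unit sphere) and nonempty.  Let l be the maximum
of <B u,u> on S, attained at u0.  l ≥ <B u1,u1>/<G u1,u1> > 0.  <B u,u> ≤ l <G u,u> for all u by homogeneity, so the symmetric operator l G - B is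
positive semidefinite and <(l G - B)u0,u0> = 0, hence (l G - B)u0 = 0 (Cauchy-Schwarz for the semidefinite form).  If B u = l G u for some u not in R u0, then
for all v in the plane spanned by u0, u: B v = l G v, so <B v,v> = l<G v,v> > 0 for v ≠ 0 there; but this plane meets N (dimension dim F - 1) in
some v ≠ 0 with <B v,v> < 0, a contradiction.
-/

section

/-- TARGET -/
theorem top_eig {F : Type} [NormedAddCommGroup F] [InnerProductSpace ℝ F] [FiniteDimensional ℝ F]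
    (B G : F →L[ℝ] F) (hB : ∀ u v : F, ⟪B u, v⟫_ℝ = ⟪u, B v⟫_ℝ)
    (hG : ∀ u v : F, ⟪G u, v⟫_ℝ = ⟪u, G v⟫_ℝ) (hGpos : ∀ u : F, u ≠ 0 → 0 < ⟪G u, u⟫_ℝ)
    (N : Submodule ℝ F) (hN : Module.finrank ℝ N + 1 = Module.finrank ℝ F)
    (hneg : ∀ u ∈ N, u ≠ 0 → ⟪B u, u⟫_ℝ < 0) (u₁ : F) (hu₁ : 0 < ⟪B u₁, u₁⟫_ℝ) :
    ∃ l : ℝ, 0 < l ∧ ∃ u₀ : F, u₀ ≠ 0 ∧ ∀ u : F, B u = l • G u ↔ ∃ r : ℝ, u = r • u₀ := by
  classical
  have hu1ne : u₁ ≠ 0 := by
    rintro rfl
    simp at hu₁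
  have hScomp : IsCompact (Metric.sphere (0 : F) 1) := isCompact_sphere _ _
  have hmem1 : (‖u₁‖⁻¹) • u₁ ∈ Metric.sphere (0 : F) 1 := by
    have : ‖u₁‖ ≠ 0 := norm_ne_zero_iff.mpr hu1ne
    simp [norm_smul, this]
  have hSne : (Metric.sphere (0 : F) 1).Nonempty := ⟨_, hmem1⟩
  have hne_of : ∀ u ∈ Metric.sphere (0 : F) 1, u ≠ 0 := by
    intro u hu h
    rw [h] at hu
    simp at hu
  have hcont : ContinuousOn (fun u : F => ⟪B u, u⟫_ℝ / ⟪G u, u⟫_ℝ) (Metric.sphere (0 : F) 1) := by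
    apply ContinuousOn.div
    · exact (B.continuous.inner continuous_id).continuousOn
    · exact (G.continuous.inner continuous_id).continuousOn
    · intro u hu
      exact (hGpos u (hne_of u hu)).ne'
  obtain ⟨u₀, hu₀S, hmax⟩ := hScomp.exists_isMaxOn hSne hcont
  have hu0ne : u₀ ≠ 0 := hne_of u₀ hu₀S
  set l : ℝ := ⟪B u₀, u₀⟫_ℝ / ⟪G u₀, u₀⟫_ℝ with hl
  have hmain : ∀ u : F, ⟪B u, u⟫_ℝ ≤ l * ⟪G u, u⟫_ℝ := by
    intro u
    by_cases hu : u = 0
    · subst hu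
      simp
    · have hn : ‖u‖ ≠ 0 := norm_ne_zero_iff.mpr hu
      have hS : (‖u‖⁻¹) • u ∈ Metric.sphere (0 : F) 1 := by
        simp [norm_smul, hn]
      have h1 := hmax hS
      simp only [Set.mem_ofPred_eq, map_smul, inner_smul_left, inner_smul_right] at h1
      have h2 : (starRingEnd ℝ) ‖u‖⁻¹ = ‖u‖⁻¹ := by simp
      rw [h2] at h1
      have hc : ‖u‖⁻¹ * (‖u‖⁻¹ : ℝ) ≠ 0 := by positivity
      have h3 : ‖u‖⁻¹ * (‖u‖⁻¹ * ⟪B u, u⟫_ℝ) / (‖u‖⁻¹ * (‖u‖⁻¹ * ⟪G u, u⟫_ℝ)) = ⟪B u, u⟫_ℝ / ⟪G u, u⟫_ℝ := by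
        rw [← mul_assoc, ← mul_assoc, mul_div_mul_left _ _ hc]
      rw [h3] at h1
      exact (div_le_iff₀ (hGpos u hu)).mp h1
  have hlpos : 0 < l := by
    by_contra h
    push Not at h
    have h1 := hmain u₁
    have h2 := hGpos u₁ hu1ne
    nlinarith
  have heq0 : ⟪B u₀, u₀⟫_ℝ = l * ⟪G u₀, u₀⟫_ℝ := by
    rw [hl, div_mul_cancel₀ _ (hGpos u₀ hu0ne).ne']
  have hT : ∀ v : F, ⟪l • G u₀ - B u₀, v⟫_ℝ = 0 := by
    intro v
    have hq : ∀ t : ℝ, 0 ≤ (l * ⟪G v, v⟫_ℝ - ⟪B v, v⟫_ℝ) * (t * t) + (2 * ⟪l • G u₀ - B u₀, v⟫_ℝ) * t + 0 := by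
      intro t
      have h1 := hmain (u₀ + t • v)
      have hBs : ⟪B v, u₀⟫_ℝ = ⟪B u₀, v⟫_ℝ := by rw [hB, real_inner_comm]
      have hGs : ⟪G v, u₀⟫_ℝ = ⟪G u₀, v⟫_ℝ := by rw [hG, real_inner_comm]
      simp only [map_add, map_smul, inner_add_left, inner_add_right, inner_smul_left, inner_smul_right,
        inner_sub_left, conj_trivial] at h1 ⊢
      rw [hBs, hGs, heq0] at h1
      nlinarith [h1]
    have h2 := discrim_le_zero hq
    unfold discrim at h2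
    nlinarith [h2]
  have hTu0 : B u₀ = l • G u₀ := by
    have := hT (l • G u₀ - B u₀)
    rw [inner_self_eq_zero] at this
    exact (sub_eq_zero.mp this).symm
  refine ⟨l, hlpos, u₀, hu0ne, fun u => ⟨fun hu => ?_, ?_⟩⟩
  · have hposeig : ∀ w : F, w ≠ 0 → B w = l • G w → w ∉ N := by
      intro w hw hBw hwN
      have h1 := hneg w hwN hw
      rw [hBw, inner_smul_left] at h1
      have h2 := hGpos w hw
      have h3 : (starRingEnd ℝ) l = l := by simp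
      rw [h3] at h1
      nlinarith [mul_pos hlpos h2]
    have hq1 : Module.finrank ℝ (F ⧸ N) = 1 := by
      have := N.finrank_quotient_add_finrank
      omega
    have hmk : (Submodule.Quotient.mk u₀ : F ⧸ N) ≠ 0 := by
      intro h
      rw [Submodule.Quotient.mk_eq_zero] at h
      exact hposeig u₀ hu0ne hTu0 h
    obtain ⟨c, hc⟩ := exists_smul_eq_of_finrank_eq_one hq1 hmk (Submodule.Quotient.mk u)
    refine ⟨c, ?_⟩
    by_contra hne
    have hw : u - c • u₀ ≠ 0 := sub_ne_zero.mpr hne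
    have hwN : u - c • u₀ ∈ N := by
      rw [← Submodule.Quotient.mk_eq_zero, Submodule.Quotient.mk_sub, Submodule.Quotient.mk_smul, hc, sub_self]
    refine hposeig _ hw ?_ hwN
    rw [map_sub, map_sub, map_smul, map_smul, hu, hTu0, smul_sub, smul_comm c l]
  · rintro ⟨r, rfl⟩
    rw [map_smul, map_smul, hTu0, smul_comm]

end

end Pool.Agent.H469
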