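import Pool.Agent.Helper469_Dupin.DefsB
import Pool.Agent.Helper469_Dupin.Jbfull
import Pool.Agent.Helper469_Dupin.Jbtopeig
import Pool.Agent.Helper469_Dupin.Jblinkone
import Pool.Agent.Helper469_Dupin.Jbcirc
import Pool.Agent.Helper469_Dupin.Jcritiff
import Pool.Agent.Helper469_Dupin.Jbrindex
import Pool.Agent.Helper469_Dupin.Jfamd
import Pool.Agent.Helper469_Dupin.Jlop
import Pool.Agent.Helper469_Dupin.Jbrvel

set_option autoImplicit false

open Set Filter Topology MeasureTheory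
open scoped ContDiff InnerProductSpace

namespace Pool.Agent.H469


/-! PLAIN PROOF OF THE TARGET(S)

Chart (T,g,O,V) at y, a = P y, p = (w,ε), b = Q(w - ε y); by crit_iff p = Jmap T (Th g (a,b,ε)) (the b there is this one), i.e. w = ε y + (-nrm g a b + b), so
b ≠ 0 since w ≠ ε y (hne).  br_index, fam_d2: the bilinear form of the Hessian is -<Lop g a b ε u, v>; N, P ⊆ T with dim N = k, dim P = 1, negative on N,
positive on P.  Apply top_eig in F = T with B = -Lop g a b ε (symmetric by lop_symm), G = Gop g a (symmetric, <G u,u> = |u|² + |Dg u|²): l > 0, u0 ≠ 0 and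
-Lop g a b ε u = l G u ↔ u ∈ R u0; that is Lop g a b (ε + l) u = 0 ↔ u ∈ R u0.  Put p1 = (w + l y, ε + l): p1 = Jmap T (Th g (a,b,ε+l)) (because Q(w + l y - (ε+l) y) = b and
P(w + l y) = (ε+l) a - nrm g a b).  full_circle at y, p1: e, q.  c(s) = circ y e q s ∈ M critical for fam p1 and fam p1 (c s) = fam p1 y.  As
fam p x = fam p1 x - l(<y,x> - |x|²/2), fam p (c s) - fam p y = (l/2)|c s - y|² = (l/2) s²/(1+s²|q|²) (circ_group).  So c is a curve in M through y (circ is smooth in s),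
iteratedDeriv 2 (fam p ∘ c) 0 = l > 0.  D = {c s | s ≠ 0} ∪ {y + |q|⁻² q}: the last point is the limit of c(s) for s → ±∞, it is in M (closed) and fam p there is
fam p y + l/(2|q|²) > fam p y.  D is preconnected: c((0,∞)) and c((-∞,0)) are connected and have that point in their closures
(`IsPreconnected.subset_closure`, `IsPreconnected.union`).  link_one.
-/

section
variable {n : ℕ}

/-- the circle in the inverse parameter -/
noncomputable def link_circle_inv (y e q : Eu n) (t : ℝ) : Eu n :=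
  y + (t ^ 2 + ‖q‖ ^ 2)⁻¹ • (t • e + q)

theorem link_circle_inv_eq (y e q : Eu n) {t : ℝ} (ht : t ≠ 0) :
    link_circle_inv y e q t = circ y e q t⁻¹ := by
  unfold link_circle_inv circ
  have hpos : 0 < t ^ 2 + ‖q‖ ^ 2 := by positivity
  have h1 : (1 + t⁻¹ ^ 2 * ‖q‖ ^ 2)⁻¹ = t ^ 2 * (t ^ 2 + ‖q‖ ^ 2)⁻¹ := by
    have : 1 + t⁻¹ ^ 2 * ‖q‖ ^ 2 = (t ^ 2 + ‖q‖ ^ 2) / t ^ 2 := by
      field_simp
    rw [this, inv_div, div_eq_mul_inv]
  rw [h1]
  congr 1
  rw [smul_add, smul_add, smul_smul, smul_smul, smul_smul]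
  congr 2
  · field_simp
  · field_simp

theorem link_circle_norm (y e q : Eu n) (he : ‖e‖ = 1) (heq : ⟪e, q⟫_ℝ = 0) (hq : q ≠ 0) (t : ℝ) :
    0 < ‖link_circle_inv y e q t - y‖ := by
  have hq' : 0 < ‖q‖ := norm_pos_iff.2 hq
  have hpos : 0 < t ^ 2 + ‖q‖ ^ 2 := by positivity
  unfold link_circle_inv
  rw [add_sub_cancel_left, norm_pos_iff]
  refine smul_ne_zero (inv_ne_zero hpos.ne') ?_
  intro h0
  have h1 : ⟪t • e + q, q⟫_ℝ = 0 := by rw [h0, inner_zero_left]
  rw [inner_add_left, inner_smul_left, heq, real_inner_self_eq_norm_sq] at h1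
  simp at h1
  exact hq h1

theorem link_circle_cont (y e q : Eu n) (hq : q ≠ 0) : Continuous (link_circle_inv y e q) := by
  have hq' : 0 < ‖q‖ := norm_pos_iff.2 hq
  have h1 : Continuous fun t : ℝ => (t ^ 2 + ‖q‖ ^ 2)⁻¹ :=
    Continuous.inv₀ (by fun_prop) fun t => by positivity
  have h2 : Continuous fun t : ℝ => t • e + q := by fun_prop
  exact continuous_const.add (h1.smul h2)

theorem link_circle_smooth (y e q : Eu n) : ContDiff ℝ ∞ (circ y e q) := by
  have h1 : ContDiff ℝ ∞ fun s : ℝ => (1 + s ^ 2 * ‖q‖ ^ 2)⁻¹ :=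
    ContDiff.inv (by fun_prop) fun t => by positivity
  have h2 : ContDiff ℝ ∞ fun s : ℝ => s • e + s ^ 2 • q := by fun_prop
  exact contDiff_const.add (h1.smul h2)

theorem link_circle_fam_smooth (p : Eu n × ℝ) : ContDiff ℝ ∞ (fam p) := by
  unfold fam
  refine ContDiff.sub ?_ ?_
  · exact contDiff_const.inner ℝ contDiff_id
  · exact (contDiff_const.mul (contDiff_id.norm_sq ℝ)).div_const 2

/-- comparison of the two functions -/
theorem link_circle_fam (p : Eu n × ℝ) (y x : Eu n) (l : ℝ)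
    (h : fam (p.1 + l • y, p.2 + l) x = fam (p.1 + l • y, p.2 + l) y) :
    fam p x = fam p y + l / 2 * ‖x - y‖ ^ 2 := by
  unfold fam at *
  simp only at *
  rw [inner_add_left, inner_add_left, inner_smul_left, inner_smul_left] at h
  simp only [conj_trivial] at h
  rw [real_inner_self_eq_norm_sq] at h
  have hc : ⟪x, y⟫_ℝ = ⟪y, x⟫_ℝ := real_inner_comm _ _
  rw [norm_sub_sq_real, hc]
  linarith

theorem link_circle_d2 (c₀ l Q : ℝ) (hQ : 0 < Q) :
    iteratedDeriv 2 (fun s : ℝ => c₀ + l / 2 * (s ^ 2 * (1 + s ^ 2 * Q)⁻¹)) 0 = l := by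
  have h1 : ∀ s : ℝ, HasDerivAt (fun s : ℝ => c₀ + l / 2 * (s ^ 2 * (1 + s ^ 2 * Q)⁻¹))
      (l * s * ((1 + s ^ 2 * Q) ^ 2)⁻¹) s := by
    intro s
    have hpos : 0 < 1 + s ^ 2 * Q := by positivity
    have h2 : HasDerivAt (fun s : ℝ => 1 + s ^ 2 * Q) (2 * s * Q) s := by
      have h3 := ((hasDerivAt_pow 2 s).mul_const Q).const_add 1
      simpa using h3
    have h4 := ((hasDerivAt_pow 2 s).mul (h2.inv hpos.ne')).const_mul (l / 2)
    have h5 := h4.const_add c₀
    refine h5.congr_deriv ?_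
    simp
    field_simp
    ring
  have h2 : deriv (fun s : ℝ => c₀ + l / 2 * (s ^ 2 * (1 + s ^ 2 * Q)⁻¹)) =
      fun s => l * s * ((1 + s ^ 2 * Q) ^ 2)⁻¹ := funext fun s => (h1 s).deriv
  rw [iteratedDeriv_succ, iteratedDeriv_one, h2]
  have h3 : HasDerivAt (fun s : ℝ => l * s * ((1 + s ^ 2 * Q) ^ 2)⁻¹) l 0 := by
    have h4 : HasDerivAt (fun s : ℝ => (1 + s ^ 2 * Q) ^ 2) 0 0 := by
      have h5 : HasDerivAt (fun s : ℝ => 1 + s ^ 2 * Q) 0 0 := by
        have h6 := ((hasDerivAt_pow 2 (0 : ℝ)).mul_const Q).const_add 1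
        simpa using h6
      simpa using h5.fun_pow 2
    have h7 := ((hasDerivAt_id (0 : ℝ)).const_mul l).mul (h4.inv (by simp))
    refine h7.congr_deriv ?_
    simp
  exact h3.deriv

end

section
variable {n m : ℕ} {M : Set (Eu n)} {T : Submodule ℝ (Eu n)} {g : T → Tᗮ} {O : Set T} {V : Set (Eu n)}

theorem link_circle_jmap (T : Submodule ℝ (Eu n)) (q : T × Tᗮ × ℝ) :
    Jmap T q = ((q.1 : Eu n) + (q.2.1 : Eu n), q.2.2) := by
  simp [Jmap]

theorem link_circle_proj (T : Submodule ℝ (Eu n)) (y : Eu n) :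
    ((T.orthogonalProjectionOnto y : T) : Eu n) + ((Tᗮ.orthogonalProjectionOnto y : Tᗮ) : Eu n) =
      y := by
  have h := Submodule.starProjection_add_starProjection_orthogonal (K := T) y
  exact h

/-- the direction of the top eigenvalue -/
theorem link_circle_dir (h : IsChart ∞ m M T g O V) (y : Eu n) (hy : y ∈ M) (hyV : y ∈ V)
    (p : Eu n × ℝ) (k : ℕ) (hyk : HasIndex m M (fam p) y k) (hk : k + 1 = m) (b : Tᗮ)
    (hb : b = Tᗮ.orthogonalProjectionOnto p.1 - p.2 • g (T.orthogonalProjectionOnto y)) :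
    ∃ l : ℝ, 0 < l ∧ ∃ u₀ : T, u₀ ≠ 0 ∧ ∀ u : T,
      Lop g (T.orthogonalProjectionOnto y) b (p.2 + l) u = 0 ↔ ∃ r : ℝ, u = r • u₀ := by
  set a := T.orthogonalProjectionOnto y with ha
  have haO : a ∈ O := (h.mem y hyV).1
  obtain ⟨-, N, P, hN, hP, hneg, hpos⟩ :=
    (br_index h y hy hyV (fam p) (link_circle_fam_smooth p) k).1 hyk
  have hd2 : ∀ u v : T, fderiv ℝ (fderiv ℝ (fam p ∘ cmap T g)) a u v = -⟪Lop g a b p.2 u, v⟫_ℝ := by
    intro u v
    rw [fam_d2 g O h.openO h.smooth a haO p u v, hb]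
  have hPne : ∃ u₁ ∈ P, u₁ ≠ 0 := by
    have h1 : Module.finrank ℝ P = 1 := by omega
    by_contra hc
    push Not at hc
    have h2 : P = ⊥ := (Submodule.eq_bot_iff P).2 hc
    rw [h2, finrank_bot] at h1
    exact absurd h1 (by norm_num)
  obtain ⟨u₁, hu₁P, hu₁⟩ := hPne
  have hGin : ∀ u v : T, ⟪Gop g a u, v⟫_ℝ = ⟪u, v⟫_ℝ + ⟪fderiv ℝ g a u, fderiv ℝ g a v⟫_ℝ := by
    intro u v
    simp only [Gop, add_apply, ContinuousLinearMap.coe_id', id_eq,
      ContinuousLinearMap.comp_apply, inner_add_left, ContinuousLinearMap.adjoint_inner_left]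
  obtain ⟨l, hl, u₀, hu₀, hker⟩ := top_eig (-(Lop g a b p.2)) (Gop g a)
    (fun u v => by
      simp only [neg_apply, inner_neg_left, inner_neg_right]
      rw [lop_symm g O h.openO h.smooth a haO b p.2 u v])
    (fun u v => by
      rw [hGin, real_inner_comm (Gop g a v) u, hGin, real_inner_comm u v,
        real_inner_comm (fderiv ℝ g a u) (fderiv ℝ g a v)])
    (fun u hu => by
      rw [hGin, real_inner_self_eq_norm_sq, real_inner_self_eq_norm_sq]
      have : 0 < ‖u‖ := norm_pos_iff.2 hu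
      positivity)
    N (by rw [hN, hk, h.dim])
    (fun u hu hu0 => by
      have h1 := hneg u hu hu0
      rw [hd2] at h1
      simpa [inner_neg_left] using h1)
    u₁ (by
      have h1 := hpos u₁ hu₁P hu₁
      rw [hd2] at h1
      simpa [inner_neg_left] using h1)
  refine ⟨l, hl, u₀, hu₀, fun u => ?_⟩
  rw [← hker u]
  have h2 : Lop g a b (p.2 + l) u = Lop g a b p.2 u + l • Gop g a u := by
    have h3 : Lop g a b (p.2 + l) = Lop g a b p.2 + l • Gop g a := by
      unfold Lop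
      rw [add_smul]
      abel
    rw [h3]
    rfl
  rw [h2, neg_apply]
  constructor
  · intro h3
    exact (eq_neg_of_add_eq_zero_right h3).symm
  · intro h3
    rw [← h3]
    simp

end

section
variable {n m : ℕ} {M : Set (Eu n)}

/-- TARGET -/
theorem link_circle (hM : IsSubmanifold ∞ m M) (hcpt : IsCompact M) (hD : IsDupin M)
    (p : Eu n × ℝ) (y : Eu n) (k : ℕ) (hy : HasIndex m M (fam p) y k) (hk : k + 1 = m)
    (hne : p.1 ≠ p.2 • y) : Link M (fam p) y := by
  have hyM : y ∈ M := hy.1.1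
  obtain ⟨T, g, O, V, hyV, h⟩ := (isSubmanifold_iff ∞ m M).1 hM y hyM
  obtain ⟨b, hb⟩ := (crit_iff h y hyM hyV p).1 hy.1
  have hQy : Tᗮ.orthogonalProjectionOnto y = g (T.orthogonalProjectionOnto y) :=
    (h.mem y hyV).2.1 hyM
  set a := T.orthogonalProjectionOnto y with ha
  have hyab : (a : Eu n) + (g a : Eu n) = y := by
    rw [← hQy]
    exact link_circle_proj T y
  have hp1 : p.1 = ((p.2 • a - nrm g a b : T) : Eu n) + ((p.2 • g a + b : Tᗮ) : Eu n) := by
    have h1 := congrArg Prod.fst hb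
    rw [link_circle_jmap] at h1
    exact h1
  have hb' : b = Tᗮ.orthogonalProjectionOnto p.1 - p.2 • g a := by
    rw [hp1, map_add, Submodule.orthogonalProjectionOnto_orthogonal_apply_eq_zero
      (Submodule.coe_mem _), Submodule.orthogonalProjectionOnto_mem_subspace_eq_self]
    abel
  have hb0 : b ≠ 0 := by
    rintro rfl
    apply hne
    have h2 : nrm g a (0 : Tᗮ) = 0 := by simp [nrm]
    rw [hp1, h2, sub_zero, add_zero, ← hyab, smul_add]
    rfl
  obtain ⟨l, hl, u₀, hu₀, hker⟩ := link_circle_dir h y hyM hyV p k hy hk b hb'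
  obtain ⟨e, q, he, heq, hq, -, hcirc⟩ := full_circle hM hcpt hD h y hyM hyV
    (p.1 + l • y, p.2 + l) b (by
      rw [link_circle_jmap]
      refine Prod.ext ?_ rfl
      simp only [Th]
      rw [hp1, ← ha]
      have h2 : l • y = l • (a : Eu n) + l • (g a : Eu n) := by rw [← smul_add, hyab]
      rw [h2]
      simp only [Submodule.coe_add, Submodule.coe_sub, Submodule.coe_smul, add_smul]
      abel) hb0 u₀ hu₀ hker
  have hq' : 0 < ‖q‖ := norm_pos_iff.2 hq
  -- values on the circle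
  have hval : ∀ s, fam p (circ y e q s) =
      fam p y + l / 2 * (s ^ 2 * (1 + s ^ 2 * ‖q‖ ^ 2)⁻¹) := by
    intro s
    rw [link_circle_fam p y _ l (hcirc s).2, (circ_group y e q he heq s).2.2.2.1]
  have hall : ∀ t : ℝ, link_circle_inv y e q t ∈ M ∧
      fam (p.1 + l • y, p.2 + l) (link_circle_inv y e q t) = fam (p.1 + l • y, p.2 + l) y := by
    have hcl : IsClosed {t : ℝ | link_circle_inv y e q t ∈ M ∧
        fam (p.1 + l • y, p.2 + l) (link_circle_inv y e q t) =
          fam (p.1 + l • y, p.2 + l) y} := by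
      apply IsClosed.inter
      · exact hcpt.isClosed.preimage (link_circle_cont y e q hq)
      · exact isClosed_eq ((link_circle_fam_smooth _).continuous.comp
          (link_circle_cont y e q hq)) continuous_const
    have hd : Dense ({0}ᶜ : Set ℝ) := dense_compl_singleton 0
    have h3 : ({0}ᶜ : Set ℝ) ⊆ {t : ℝ | link_circle_inv y e q t ∈ M ∧
        fam (p.1 + l • y, p.2 + l) (link_circle_inv y e q t) =
          fam (p.1 + l • y, p.2 + l) y} := by
      intro t ht
      have ht0 : t ≠ 0 := ht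
      change _ ∧ _
      rw [link_circle_inv_eq y e q ht0]
      exact ⟨(hcirc _).1.1, (hcirc _).2⟩
    intro t
    have h4 := hcl.closure_subset_iff.2 h3 (hd t)
    exact h4
  refine link_one hM (fam p) (link_circle_fam_smooth p) y k hy hk (circ y e q) ?_ ?_
    (Set.range (link_circle_inv y e q)) (isPreconnected_range (link_circle_cont y e q hq)) ?_ ?_
  · refine ⟨by simp [circ], 1, one_pos, (link_circle_smooth y e q).contDiffOn, fun t _ => ?_⟩
    exact (hcirc t).1.1
  · have h1 : fam p ∘ circ y e q = fun s : ℝ =>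
        fam p y + l / 2 * (s ^ 2 * (1 + s ^ 2 * ‖q‖ ^ 2)⁻¹) := funext hval
    rw [h1, link_circle_d2 _ _ _ (by positivity)]
    exact hl
  · rintro _ ⟨t, rfl⟩
    refine ⟨(hall t).1, ?_⟩
    rw [link_circle_fam p y _ l (hall t).2]
    have h1 := link_circle_norm y e q he heq hq t
    have h2 : 0 < l / 2 * ‖link_circle_inv y e q t - y‖ ^ 2 := by positivity
    linarith
  · filter_upwards [self_mem_nhdsWithin] with s hs
    have hs0 : s ≠ 0 := hs
    refine ⟨s⁻¹, ?_⟩
    rw [link_circle_inv_eq y e q (inv_ne_zero hs0), inv_inv]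

end

end Pool.Agent.H469
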