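import Pool.Agent.Helper469_Dupin.DefsB
import Pool.Agent.Helper469_Dupin.Jbrcrit
import Pool.Agent.Helper469_Dupin.Jbrindex
import Pool.Agent.Helper469_Dupin.Jindex

set_option autoImplicit false

open Set Filter Topology MeasureTheory
open scoped ContDiff InnerProductSpace

namespace Pool.Agent.H469


/-! PLAIN PROOF OF THE TARGET(S)

Chart (T,g,O,V) at y (isSubmanifold_iff), a0 = P y, φ = cmap T g, F = f ∘ φ, smooth on the open set O'' = {a ∈ O | φ a ∈ V} ∋ a0; points of M ∩ V near y are φ(a), a ∈ O''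
near a0 (a = P x), and φ(a) ∈ M for a ∈ O''.
link_noncrit: by br_crit DF(a0) ≠ 0; take v with DF(a0)v > 0.  Choose s0 > 0 and r > 0 such that the set {a + s v : |a - a0| ≤ r, 0 ≤ s ≤ s0} is in O'' and
DF(·) v > 0 on it, and F(a + s0 v) > F(a0) for |a - a0| ≤ r.  Q = φ(Q'), Q' = {a + s v : |a-a0| < r, F(a) > F(a0), 0 ≤ s ≤ s0} ∪ {a + s0 v: |a - a0| < r}:
on Q' F > F(a0) (F increases along s ↦ a + s v) and each point is joined by a segment in Q' to the connected set ball(a0,r) + s0 v.  So Q' is preconnected,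
φ continuous.  V' = {x ∈ V : |P x - a0| < r}.  Closure: φ(a0 + s v) → y as s ↓ 0, F(a0 + s v) > F(a0).
link_index: br_index gives DF(a0) = 0 and subspaces N, P of T, dim N = k, dim P + k = m = dim T, with D²F(a0) negative on N and positive on P; so
T = N ⊕ P.  By index_stable the same signs hold for D²F(a), a in a ball B around a0 contained in O''.  Choose r such that a0 + u + v ∈ B for
u ∈ P, |u| < r, v ∈ N, |v| < r.  On this box: t ↦ F(a0 + u + t v), t ∈ [0,1], is concave, so ≥ min of its end values; t ↦ F(a0 + t u) has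
derivative 0 at 0 and is strictly convex for u ≠ 0, so F(a0+u) > F(a0) for u ≠ 0; F(a0 + v) ≤ F(a0) for v ∈ N by concavity.  So F(a0+u+v) > F(a0) implies
u ≠ 0, and then the segment from a0+u+v to a0+u stays in {F > F(a0)}.  Here dim P = m - k ≠ 1.  If dim P = 0 the set {F > F(a0)} in the box is empty, Q = ∅.  If
dim P ≥ 2 the set {a0+u : u ∈ P, 0 < |u| < r} is connected (`isPreconnected` of a punctured ball in dimension ≥ 2: e.g. image of the
connected (0,r) × sphere, or `IsConnected`/`isPathConnected_compl_singleton_of_one_lt_rank`), so Q' = {a in the box, F(a) > F(a0)} is preconnected, Q = φ(Q').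
The neighbourhood V' = {x ∈ V | the P- and N-components of P x - a0 have norm < r} (continuous linear projections onto the summands).
-/


theorem link_noncrit_line {E : Type} [NormedAddCommGroup E] [NormedSpace ℝ E] {F : E → ℝ}
    {a v : E} {s : ℝ} (h : DifferentiableAt ℝ F (a + s • v)) :
    HasDerivAt (fun s : ℝ => F (a + s • v)) (fderiv ℝ F (a + s • v) v) s := by
  have h1 : HasDerivAt (fun s : ℝ => a + s • v) v s := by
    simpa using ((hasDerivAt_id s).smul_const v).const_add a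
  exact h.hasFDerivAt.comp_hasDerivAt s h1

theorem link_noncrit_abs {E : Type} [NormedAddCommGroup E] [NormedSpace ℝ E] {F : E → ℝ}
    {W : Set E} (hW : IsOpen W) {a0 : E} (ha : a0 ∈ W) (hF : ∀ a ∈ W, ContDiffAt ℝ 2 F a)
    (h0 : fderiv ℝ F a0 ≠ 0) :
    ∃ Q' : Set E, IsPreconnected Q' ∧ Q' ⊆ {a | a ∈ W ∧ F a0 < F a} ∧
      ∃ U ∈ 𝓝 a0, ∀ a ∈ U, a ∈ W → F a0 < F a → a ∈ Q' := by
  obtain ⟨v, hv⟩ : ∃ v, 0 < fderiv ℝ F a0 v := by
    by_contra hcon
    push Not at hcon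
    apply h0
    ext v
    have h1 := hcon v
    have h2 := hcon (-v)
    rw [map_neg] at h2
    show fderiv ℝ F a0 v = 0
    linarith
  have hc : ContinuousAt (fun a => fderiv ℝ F a v) a0 := by
    have h1 : ContDiffAt ℝ 1 (fderiv ℝ F) a0 := (hF a0 ha).fderiv_right (by norm_num)
    exact h1.continuousAt.clm_apply continuousAt_const
  obtain ⟨R, hR, hRW⟩ : ∃ R > 0, ∀ a ∈ Metric.ball a0 R, a ∈ W ∧ 0 < fderiv ℝ F a v := by
    have h1 : ∀ᶠ a in 𝓝 a0, a ∈ W ∧ 0 < fderiv ℝ F a v :=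
      (hW.eventually_mem ha).and (hc.eventually (lt_mem_nhds hv))
    obtain ⟨R, hR, h2⟩ := Metric.eventually_nhds_iff_ball.1 h1
    exact ⟨R, hR, h2⟩
  set s0 : ℝ := R / (2 * (‖v‖ + 1)) with hs0
  have hv1 : 0 < ‖v‖ + 1 := by positivity
  have hs0p : 0 < s0 := by positivity
  have hs0v : s0 * ‖v‖ < R / 2 := by
    have h1 : s0 * (‖v‖ + 1) = R / 2 := by
      rw [hs0]
      field_simp
    nlinarith
  have hball : ∀ a ∈ Metric.ball a0 (R / 2), ∀ s ∈ Icc 0 s0, a + s • v ∈ Metric.ball a0 R := by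
    intro a ha1 s hs
    rw [Metric.mem_ball, dist_eq_norm] at ha1 ⊢
    have h1 : ‖s • v‖ ≤ s0 * ‖v‖ := by
      rw [norm_smul, Real.norm_eq_abs, abs_of_nonneg hs.1]
      exact mul_le_mul_of_nonneg_right hs.2 (norm_nonneg v)
    have h2 : a + s • v - a0 = (a - a0) + s • v := by abel
    rw [h2]
    have h3 := norm_add_le (a - a0) (s • v)
    linarith
  have hmono : ∀ a ∈ Metric.ball a0 (R / 2), StrictMonoOn (fun s : ℝ => F (a + s • v))
      (Icc 0 s0) := by
    intro a ha1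
    have hd : ∀ s ∈ Icc 0 s0, HasDerivAt (fun s : ℝ => F (a + s • v))
        (fderiv ℝ F (a + s • v) v) s := fun s hs =>
      link_noncrit_line ((hF _ (hRW _ (hball a ha1 s hs)).1).differentiableAt (by norm_num))
    refine strictMonoOn_of_deriv_pos (convex_Icc _ _)
      (fun s hs => (hd s hs).continuousAt.continuousWithinAt) (fun s hs => ?_)
    rw [interior_Icc] at hs
    have hs' : s ∈ Icc 0 s0 := Ioo_subset_Icc_self hs
    rw [(hd s hs').deriv]
    exact (hRW _ (hball a ha1 s hs')).2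
  have ha0 : a0 ∈ Metric.ball a0 (R / 2) := Metric.mem_ball_self (by positivity)
  have htop : F a0 < F (a0 + s0 • v) := by
    have h1 := hmono a0 ha0 (left_mem_Icc.2 hs0p.le) (right_mem_Icc.2 hs0p.le) hs0p
    simpa using h1
  obtain ⟨r, hr, hrt⟩ : ∃ r > 0, ∀ a ∈ Metric.ball a0 r,
      a ∈ Metric.ball a0 (R / 2) ∧ F a0 < F (a + s0 • v) := by
    have hcF : ContinuousAt (fun a => F (a + s0 • v)) a0 := by
      have h1 : ContinuousAt F (a0 + s0 • v) :=
        (hF _ (hRW _ (hball a0 ha0 s0 (right_mem_Icc.2 hs0p.le))).1).continuousAt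
      exact ContinuousAt.comp (f := fun a => a + s0 • v) h1
        (continuous_id.add continuous_const).continuousAt
    have h1 : ∀ᶠ a in 𝓝 a0, a ∈ Metric.ball a0 (R / 2) ∧ F a0 < F (a + s0 • v) :=
      (Metric.isOpen_ball.eventually_mem ha0).and (hcF.eventually (lt_mem_nhds htop))
    obtain ⟨r, hr, h2⟩ := Metric.eventually_nhds_iff_ball.1 h1
    exact ⟨r, hr, h2⟩
  have hr0 : a0 ∈ Metric.ball a0 r := Metric.mem_ball_self hr
  refine ⟨{b | F a0 < F b ∧ ∃ a ∈ Metric.ball a0 r, ∃ s ∈ Icc 0 s0, b = a + s • v}, ?_, ?_,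
    Metric.ball a0 r, Metric.ball_mem_nhds a0 hr, ?_⟩
  · refine isPreconnected_of_forall (a0 + s0 • v) ?_
    rintro b ⟨hb, a, haB, s, hs, rfl⟩
    have hTop : IsPreconnected ((fun a => a + s0 • v) '' Metric.ball a0 r) :=
      (convex_ball a0 r).isPreconnected.image _
        (continuous_id.add continuous_const).continuousOn
    have hSeg : IsPreconnected ((fun s : ℝ => a + s • v) '' Icc s s0) :=
      isPreconnected_Icc.image _
        (continuous_const.add (continuous_id.smul continuous_const)).continuousOn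
    refine ⟨(fun s : ℝ => a + s • v) '' Icc s s0 ∪ (fun a => a + s0 • v) '' Metric.ball a0 r,
      ?_, Or.inr ⟨a0, hr0, rfl⟩, Or.inl ⟨s, left_mem_Icc.2 hs.2, rfl⟩,
      IsPreconnected.union (a + s0 • v) ⟨s0, right_mem_Icc.2 hs.2, rfl⟩ ⟨a, haB, rfl⟩ hSeg hTop⟩
    rintro _ (⟨s', hs', rfl⟩ | ⟨a', ha', rfl⟩)
    · have hs'' : s' ∈ Icc 0 s0 := ⟨hs.1.trans hs'.1, hs'.2⟩
      refine ⟨?_, a, haB, s', hs'', rfl⟩
      have h1 := (hmono a (hrt a haB).1).monotoneOn hs hs'' hs'.1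
      exact lt_of_lt_of_le hb h1
    · exact ⟨(hrt a' ha').2, a', ha', s0, right_mem_Icc.2 hs0p.le, rfl⟩
  · rintro b ⟨hb, a, haB, s, hs, rfl⟩
    exact ⟨(hRW _ (hball a (hrt a haB).1 s hs)).1, hb⟩
  · intro a haB _ hFa
    exact ⟨hFa, a, haB, 0, left_mem_Icc.2 hs0p.le, by simp⟩

theorem link_index_der2 {E : Type} [NormedAddCommGroup E] [NormedSpace ℝ E] {F : E → ℝ}
    {a v : E} {s : ℝ} (h : ContDiffAt ℝ 2 F (a + s • v)) :
    HasDerivAt (fun s : ℝ => fderiv ℝ F (a + s • v) v)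
      (fderiv ℝ (fderiv ℝ F) (a + s • v) v v) s := by
  have h1 : HasDerivAt (fun s : ℝ => a + s • v) v s := by
    simpa using ((hasDerivAt_id s).smul_const v).const_add a
  have h2 : ContDiffAt ℝ 1 (fderiv ℝ F) (a + s • v) := h.fderiv_right (by norm_num)
  have h3 := (h2.differentiableAt (by norm_num)).hasFDerivAt.comp_hasDerivAt s h1
  have h4 := h3.clm_apply (hasDerivAt_const s v)
  simpa using h4

theorem link_index_pos {E : Type} [NormedAddCommGroup E] [NormedSpace ℝ E] {F : E → ℝ} {a w : E}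
    (hF : ∀ t ∈ Icc (0 : ℝ) 1, ContDiffAt ℝ 2 F (a + t • w)) (h0 : fderiv ℝ F a w = 0)
    (h2 : ∀ t ∈ Icc (0 : ℝ) 1, 0 < fderiv ℝ (fderiv ℝ F) (a + t • w) w w) :
    F a < F (a + w) := by
  have hk : StrictMonoOn (fun s : ℝ => fderiv ℝ F (a + s • w) w) (Icc 0 1) := by
    refine strictMonoOn_of_deriv_pos (convex_Icc _ _)
      (fun s hs => (link_index_der2 (hF s hs)).continuousAt.continuousWithinAt) (fun s hs => ?_)
    rw [interior_Icc] at hs
    rw [(link_index_der2 (hF s (Ioo_subset_Icc_self hs))).deriv]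
    exact h2 s (Ioo_subset_Icc_self hs)
  have hd : ∀ s ∈ Icc (0 : ℝ) 1, HasDerivAt (fun s : ℝ => F (a + s • w))
      (fderiv ℝ F (a + s • w) w) s := fun s hs =>
    link_noncrit_line ((hF s hs).differentiableAt (by norm_num))
  have hh : StrictMonoOn (fun s : ℝ => F (a + s • w)) (Icc 0 1) := by
    refine strictMonoOn_of_deriv_pos (convex_Icc _ _)
      (fun s hs => (hd s hs).continuousAt.continuousWithinAt) (fun s hs => ?_)
    rw [interior_Icc] at hs
    rw [(hd s (Ioo_subset_Icc_self hs)).deriv]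
    have h3 := hk (left_mem_Icc.2 zero_le_one) (Ioo_subset_Icc_self hs) hs.1
    simpa [h0] using h3
  have h4 := hh (left_mem_Icc.2 zero_le_one) (right_mem_Icc.2 zero_le_one) one_pos
  simpa using h4

theorem link_index_conc {E : Type} [NormedAddCommGroup E] [NormedSpace ℝ E] {F : E → ℝ}
    {a w : E} (hF : ∀ t ∈ Icc (0 : ℝ) 1, ContDiffAt ℝ 2 F (a + t • w))
    (h2 : ∀ t ∈ Icc (0 : ℝ) 1, fderiv ℝ (fderiv ℝ F) (a + t • w) w w ≤ 0) :
    ∀ t ∈ Icc (0 : ℝ) 1, min (F a) (F (a + w)) ≤ F (a + t • w) := by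
  have hd : ∀ s ∈ Icc (0 : ℝ) 1, HasDerivAt (fun s : ℝ => F (a + s • w))
      (fderiv ℝ F (a + s • w) w) s := fun s hs =>
    link_noncrit_line ((hF s hs).differentiableAt (by norm_num))
  have hc : ConcaveOn ℝ (Icc (0 : ℝ) 1) (fun s : ℝ => F (a + s • w)) := by
    refine concaveOn_of_hasDerivWithinAt2_nonpos (convex_Icc _ _)
      (fun s hs => (hd s hs).continuousAt.continuousWithinAt)
      (f' := fun s => fderiv ℝ F (a + s • w) w)
      (f'' := fun s => fderiv ℝ (fderiv ℝ F) (a + s • w) w w) ?_ ?_ ?_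
    · intro s hs
      rw [interior_Icc] at hs
      exact (hd s (Ioo_subset_Icc_self hs)).hasDerivWithinAt
    · intro s hs
      rw [interior_Icc] at hs
      exact (link_index_der2 (hF s (Ioo_subset_Icc_self hs))).hasDerivWithinAt
    · intro s hs
      rw [interior_Icc] at hs
      exact h2 s (Ioo_subset_Icc_self hs)
  intro t ht
  have h3 := hc.ge_on_segment (left_mem_Icc.2 zero_le_one) (right_mem_Icc.2 zero_le_one)
    (z := t) (by rw [segment_eq_Icc zero_le_one]; exact ht)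
  simpa using h3

theorem link_index_abs {E : Type} [NormedAddCommGroup E] [InnerProductSpace ℝ E]
    [FiniteDimensional ℝ E] {F : E → ℝ}
    {W : Set E} (hW : IsOpen W) {a0 : E} (ha : a0 ∈ W) (hF : ∀ a ∈ W, ContDiffAt ℝ 2 F a)
    (h0 : fderiv ℝ F a0 = 0) (N P : Submodule ℝ E)
    (hdim : Module.finrank ℝ P + Module.finrank ℝ N = Module.finrank ℝ E)
    (hP1 : Module.finrank ℝ P ≠ 1)
    (hN : ∀ u ∈ N, u ≠ 0 → fderiv ℝ (fderiv ℝ F) a0 u u < 0)
    (hP : ∀ u ∈ P, u ≠ 0 → 0 < fderiv ℝ (fderiv ℝ F) a0 u u) :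
    ∃ Q' : Set E, IsPreconnected Q' ∧ Q' ⊆ {a | a ∈ W ∧ F a0 < F a} ∧
      ∃ U ∈ 𝓝 a0, ∀ a ∈ U, a ∈ W → F a0 < F a → a ∈ Q' := by
  have hdisj : Disjoint P N := by
    rw [Submodule.disjoint_def]
    intro u h1 h2
    by_contra h3
    have := hN u h2 h3
    have := hP u h1 h3
    linarith
  have hcompl : IsCompl P N := by
    refine ⟨hdisj, ?_⟩
    rw [codisjoint_iff]
    apply Submodule.eq_top_of_finrank_eq
    have h1 := Submodule.finrank_sup_add_finrank_inf_eq P N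
    rw [disjoint_iff.1 hdisj, finrank_bot] at h1
    omega
  obtain ⟨R, hR, hRW⟩ : ∃ R > 0, ∀ a ∈ Metric.ball a0 R, a ∈ W ∧
      (∀ u ∈ N, u ≠ 0 → fderiv ℝ (fderiv ℝ F) a u u < 0) ∧
      (∀ u ∈ P, u ≠ 0 → 0 < fderiv ℝ (fderiv ℝ F) a u u) := by
    have hc : ContinuousAt (fderiv ℝ (fderiv ℝ F)) a0 := by
      have h1 : ContDiffAt ℝ 1 (fderiv ℝ F) a0 := (hF a0 ha).fderiv_right (by norm_num)
      have h2 : ContDiffAt ℝ 0 (fderiv ℝ (fderiv ℝ F)) a0 := h1.fderiv_right (by norm_num)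
      exact h2.continuousAt
    have h1 := (hW.eventually_mem ha).and (hc.eventually (index_stable _ N P hN hP))
    obtain ⟨R, hR, h2⟩ := Metric.eventually_nhds_iff_ball.1 h1
    exact ⟨R, hR, h2⟩
  have hr : 0 < R / 2 := by positivity
  set r : ℝ := R / 2 with hrdef
  have hball : ∀ u v : E, ‖u‖ < r → ‖v‖ < r → ∀ t ∈ Icc (0 : ℝ) 1,
      a0 + u + t • v ∈ Metric.ball a0 R := by
    intro u v hu hv t ht
    rw [Metric.mem_ball, dist_eq_norm]
    have h2 : a0 + u + t • v - a0 = u + t • v := by abel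
    rw [h2]
    have h3 := norm_add_le u (t • v)
    have h4 : ‖t • v‖ ≤ ‖v‖ := by
      rw [norm_smul, Real.norm_eq_abs, abs_of_nonneg ht.1]
      exact mul_le_of_le_one_left (norm_nonneg v) ht.2
    linarith
  have hr0 : ‖(0 : E)‖ < r := by rw [norm_zero]; exact hr
  -- positive on `P`
  have hposP : ∀ u ∈ P, u ≠ 0 → ‖u‖ < r → F a0 < F (a0 + u) := by
    intro u hu hu0 hur
    have hb : ∀ t ∈ Icc (0 : ℝ) 1, a0 + t • u ∈ Metric.ball a0 R := by
      intro t ht
      have := hball 0 u hr0 hur t ht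
      rwa [add_zero] at this
    exact link_index_pos (fun t ht => hF _ (hRW _ (hb t ht)).1) (by rw [h0]; rfl)
      (fun t ht => (hRW _ (hb t ht)).2.2 u hu hu0)
  -- nonpositive on `N`
  have hnegN : ∀ v ∈ N, ‖v‖ < r → F (a0 + v) ≤ F a0 := by
    intro v hv hvr
    by_cases hv0 : v = 0
    · rw [hv0, add_zero]
    have hb : ∀ t ∈ Icc (0 : ℝ) 1, a0 + t • v ∈ Metric.ball a0 R := by
      intro t ht
      have := hball 0 v hr0 hvr t ht
      rwa [add_zero] at this
    have hneg1 : fderiv ℝ (fun x => -F x) = fun x => -fderiv ℝ F x := by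
      funext x
      exact fderiv_fun_neg
    have hneg2 : ∀ x, fderiv ℝ (fderiv ℝ (fun x => -F x)) x = -fderiv ℝ (fderiv ℝ F) x := by
      intro x
      rw [hneg1]
      exact fderiv_fun_neg
    have h1 := link_index_pos (F := fun x => -F x) (a := a0) (w := v)
      (fun t ht => (hF _ (hRW _ (hb t ht)).1).neg) (by rw [hneg1]; simp [h0])
      (fun t ht => by
        rw [hneg2]
        have := (hRW _ (hb t ht)).2.1 v hv hv0
        simpa using this)
    linarith
  -- segments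
  have hseg : ∀ u ∈ P, ∀ v ∈ N, ‖u‖ < r → ‖v‖ < r → F a0 < F (a0 + u + v) → u ≠ 0 ∧
      ∀ t ∈ Icc (0 : ℝ) 1, F a0 < F (a0 + u + t • v) := by
    intro u hu v hv hur hvr hlt
    have hu0 : u ≠ 0 := by
      rintro rfl
      rw [add_zero] at hlt
      exact absurd hlt (not_lt.2 (hnegN v hv hvr))
    refine ⟨hu0, fun t ht => ?_⟩
    have h1 := link_index_conc (F := F) (a := a0 + u) (w := v)
      (fun t ht => hF _ (hRW _ (hball u v hur hvr t ht)).1)
      (fun t ht => by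
        by_cases hv0 : v = 0
        · rw [hv0]; simp
        · exact ((hRW _ (hball u v hur hvr t ht)).2.1 v hv hv0).le) t ht
    exact lt_of_lt_of_le (lt_min (hposP u hu hu0 hur) hlt) h1
  refine ⟨{a | F a0 < F a ∧ ∃ u ∈ P, ∃ v ∈ N, ‖u‖ < r ∧ ‖v‖ < r ∧ a = a0 + u + v}, ?_, ?_, ?_⟩
  · by_cases hP0 : Module.finrank ℝ P = 0
    · have hPb : P = ⊥ := Submodule.finrank_eq_zero.1 hP0
      have hemp : {a | F a0 < F a ∧ ∃ u ∈ P, ∃ v ∈ N, ‖u‖ < r ∧ ‖v‖ < r ∧ a = a0 + u + v} = ∅ := by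
        rw [Set.eq_empty_iff_forall_notMem]
        rintro a ⟨hlt, u, hu, v, hv, hur, hvr, rfl⟩
        have hu0 := (hseg u hu v hv hur hvr hlt).1
        rw [hPb, Submodule.mem_bot] at hu
        exact hu0 hu
      rw [hemp]
      exact isPreconnected_empty
    · have hP2 : 2 ≤ Module.finrank ℝ P := by omega
      have hrank : 1 < Module.rank ℝ P := by
        rw [← Module.finrank_eq_rank]
        exact_mod_cast hP2
      -- the punctured ball
      have hS : IsPreconnected ((fun p : ℝ × P => a0 + ((p.1 • p.2 : P) : E)) ''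
          (Ioo 0 r ×ˢ Metric.sphere (0 : P) 1)) := by
        refine (isPreconnected_Ioo.prod (isPreconnected_sphere hrank 0 1)).image _ ?_
        have : Continuous (fun p : ℝ × P => a0 + ((p.1 • p.2 : P) : E)) := by fun_prop
        exact this.continuousOn
      have hSmem : ∀ u ∈ P, u ≠ 0 → ‖u‖ < r → a0 + u ∈
          ((fun p : ℝ × P => a0 + ((p.1 • p.2 : P) : E)) ''
            (Ioo 0 r ×ˢ Metric.sphere (0 : P) 1)) := by
        intro u hu hu0 hur
        have hun : 0 < ‖u‖ := norm_pos_iff.2 hu0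
        refine ⟨(‖u‖, ‖u‖⁻¹ • ⟨u, hu⟩), ⟨⟨hun, hur⟩, ?_⟩, ?_⟩
        · rw [mem_sphere_zero_iff_norm, norm_smul, norm_inv, norm_norm]
          show ‖u‖⁻¹ * ‖u‖ = 1
          exact inv_mul_cancel₀ hun.ne'
        · show a0 + ‖u‖ • ‖u‖⁻¹ • u = a0 + u
          rw [smul_smul, mul_inv_cancel₀ hun.ne', one_smul]
      have hSsub : ((fun p : ℝ × P => a0 + ((p.1 • p.2 : P) : E)) ''
            (Ioo 0 r ×ˢ Metric.sphere (0 : P) 1)) ⊆
          {a | F a0 < F a ∧ ∃ u ∈ P, ∃ v ∈ N, ‖u‖ < r ∧ ‖v‖ < r ∧ a = a0 + u + v} := by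
        rintro _ ⟨⟨t, w⟩, ⟨ht, hw⟩, rfl⟩
        have hw1 : ‖w‖ = 1 := by simpa using hw
        have hnorm : ‖((t • w : P) : E)‖ = t := by
          show ‖(t • w : P)‖ = t
          rw [norm_smul, hw1, Real.norm_eq_abs, abs_of_pos ht.1, mul_one]
        have hur : ‖((t • w : P) : E)‖ < r := by rw [hnorm]; exact ht.2
        have hne : ((t • w : P) : E) ≠ 0 := by
          rw [← norm_pos_iff, hnorm]
          exact ht.1
        exact ⟨hposP _ (t • w).2 hne hur, _, (t • w).2, 0, N.zero_mem, hur, hr0, by simp⟩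
      have hnt : Nontrivial P := Module.nontrivial_of_finrank_pos (R := ℝ) (by omega)
      obtain ⟨w, hw⟩ := exists_ne (0 : P)
      have hwn : 0 < ‖w‖ := norm_pos_iff.2 hw
      set u0 : P := (r / 2 / ‖w‖) • w with hu0def
      have hu0n : ‖(u0 : E)‖ = r / 2 := by
        show ‖u0‖ = r / 2
        rw [hu0def, norm_smul, Real.norm_eq_abs,
          abs_of_pos (by positivity), div_mul_cancel₀ _ hwn.ne']
      have hu0r : ‖(u0 : E)‖ < r := by rw [hu0n]; linarith
      have hu0ne : (u0 : E) ≠ 0 := by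
        rw [← norm_pos_iff, hu0n]
        positivity
      refine isPreconnected_of_forall (a0 + (u0 : E)) ?_
      rintro b ⟨hb, u, hu, v, hv, hur, hvr, rfl⟩
      obtain ⟨hune, hsegt⟩ := hseg u hu v hv hur hvr hb
      have hSeg : IsPreconnected ((fun t : ℝ => a0 + u + t • v) '' Icc 0 1) :=
        isPreconnected_Icc.image _
          (continuous_const.add (continuous_id.smul continuous_const)).continuousOn
      refine ⟨(fun t : ℝ => a0 + u + t • v) '' Icc 0 1 ∪
        ((fun p : ℝ × P => a0 + ((p.1 • p.2 : P) : E)) '' (Ioo 0 r ×ˢ Metric.sphere (0 : P) 1)),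
        ?_, Or.inr (hSmem _ u0.2 hu0ne hu0r), Or.inl ⟨1, right_mem_Icc.2 zero_le_one, by simp⟩,
        IsPreconnected.union (a0 + u) ⟨0, left_mem_Icc.2 zero_le_one, by simp⟩
          (hSmem u hu hune hur) hSeg hS⟩
      rintro _ (⟨t, ht, rfl⟩ | hx)
      · refine ⟨hsegt t ht, u, hu, t • v, N.smul_mem t hv, hur, ?_, rfl⟩
        rw [norm_smul, Real.norm_eq_abs, abs_of_nonneg ht.1]
        exact lt_of_le_of_lt (mul_le_of_le_one_left (norm_nonneg v) ht.2) hvr
      · exact hSsub hx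
  · rintro a ⟨hlt, u, hu, v, hv, hur, hvr, rfl⟩
    have h1 := hball u v hur hvr 1 (right_mem_Icc.2 zero_le_one)
    rw [one_smul] at h1
    exact ⟨(hRW _ h1).1, hlt⟩
  · let e := Submodule.prodEquivOfIsCompl P N hcompl
    have hec : Continuous (fun a : E => e.symm (a - a0)) := by
      have h1 : Continuous (e.symm : E →ₗ[ℝ] (P × N)) := LinearMap.continuous_of_finiteDimensional _
      exact h1.comp (continuous_id.sub continuous_const)
    refine ⟨{a | ‖(e.symm (a - a0)).1‖ < r ∧ ‖(e.symm (a - a0)).2‖ < r}, ?_, ?_⟩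
    · refine IsOpen.mem_nhds ?_ ?_
      · exact (isOpen_lt (continuous_fst.comp hec).norm continuous_const).inter
          (isOpen_lt (continuous_snd.comp hec).norm continuous_const)
      · simp only [Set.mem_ofPred_eq, sub_self, map_zero, Prod.fst_zero, Prod.snd_zero, norm_zero]
        exact ⟨hr, hr⟩
    · rintro a ⟨h1, h2⟩ _ h3
      refine ⟨h3, _, (e.symm (a - a0)).1.2, _, (e.symm (a - a0)).2.2, h1, h2, ?_⟩
      have h4 : e (e.symm (a - a0)) = a - a0 := e.apply_symm_apply _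
      rw [Submodule.coe_prodEquivOfIsCompl'] at h4
      rw [add_assoc, h4]
      abel

section
variable {n m : ℕ} {M : Set (Eu n)}

theorem link_noncrit_chart {T : Submodule ℝ (Eu n)} {g : T → Tᗮ} {O : Set T} {V : Set (Eu n)}
    (h : IsChart ∞ m M T g O V) :
    IsOpen (O ∩ cmap T g ⁻¹' V) ∧ ContDiffOn ℝ ∞ (cmap T g) O ∧
      (∀ x ∈ V, x ∈ M → cmap T g (T.orthogonalProjectionOnto x) = x ∧
        T.orthogonalProjectionOnto x ∈ O) ∧ ∀ a, cmap T g a ∈ V → cmap T g a ∈ M := by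
  have hsm : ContDiffOn ℝ ∞ (cmap T g) O := by
    have h1 : ContDiffOn ℝ ∞ (fun a : T => (a : Eu n)) O := T.subtypeL.contDiff.contDiffOn
    have h2 : ContDiffOn ℝ ∞ (fun a : T => (g a : Eu n)) O :=
      Tᗮ.subtypeL.contDiff.comp_contDiffOn h.smooth
    exact h1.add h2
  refine ⟨hsm.continuousOn.isOpen_inter_preimage h.openO h.openV, hsm, ?_, ?_⟩
  · intro x hx hxM
    obtain ⟨h1, h2⟩ := h.mem x hx
    refine ⟨?_, h1⟩
    show ((T.orthogonalProjectionOnto x : T) : Eu n) + (g (T.orthogonalProjectionOnto x) : Eu n) = x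
    rw [← h2.1 hxM]
    exact T.starProjection_add_starProjection_orthogonal x
  · intro a ha
    obtain ⟨h1, h2⟩ := h.mem _ ha
    apply h2.2
    have e1 : T.orthogonalProjectionOnto (cmap T g a) = a := by
      unfold cmap
      rw [map_add, Submodule.orthogonalProjectionOnto_mem_subspace_eq_self,
        Submodule.orthogonalProjectionOnto_eq_zero_iff.2 (g a).2, add_zero]
    have e2 : Tᗮ.orthogonalProjectionOnto (cmap T g a) = g a := by
      unfold cmap
      rw [map_add, Submodule.orthogonalProjectionOnto_mem_subspace_eq_self,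
        Submodule.orthogonalProjectionOnto_eq_zero_iff.2
          (T.le_orthogonal_orthogonal a.2), zero_add]
    rw [e1, e2]

theorem link_noncrit_transfer {T : Submodule ℝ (Eu n)} {g : T → Tᗮ} {O : Set T} {V : Set (Eu n)}
    (h : IsChart ∞ m M T g O V) (f : Eu n → ℝ) (y : Eu n) (hy : y ∈ M) (hyV : y ∈ V)
    (hex : ∃ Q' : Set T, IsPreconnected Q' ∧ Q' ⊆ {a | a ∈ (O ∩ cmap T g ⁻¹' V) ∧
        (f ∘ cmap T g) (T.orthogonalProjectionOnto y) < (f ∘ cmap T g) a} ∧
      ∃ U ∈ 𝓝 (T.orthogonalProjectionOnto y), ∀ a ∈ U, a ∈ (O ∩ cmap T g ⁻¹' V) →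
        (f ∘ cmap T g) (T.orthogonalProjectionOnto y) < (f ∘ cmap T g) a → a ∈ Q') :
    Link M f y := by
  obtain ⟨-, hsm, hin, hout⟩ := link_noncrit_chart h
  obtain ⟨Q', hQ, hQs, U, hU, hUs⟩ := hex
  have hy0 : cmap T g (T.orthogonalProjectionOnto y) = y := (hin y hyV hy).1
  have hcont : ContinuousAt (fun x : Eu n => T.orthogonalProjectionOnto x) y :=
    T.orthogonalProjectionOnto.continuous.continuousAt
  refine ⟨V ∩ (fun x : Eu n => T.orthogonalProjectionOnto x) ⁻¹' U,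
    inter_mem (h.openV.mem_nhds hyV) (hcont.preimage_mem_nhds hU), cmap T g '' Q', ?_, ?_, ?_⟩
  · exact hQ.image _ (hsm.continuousOn.mono (fun a ha => (hQs ha).1.1))
  · rintro _ ⟨a, ha, rfl⟩
    obtain ⟨h1, h2⟩ := hQs ha
    refine ⟨hout a h1.2, ?_⟩
    have h3 : f (cmap T g (T.orthogonalProjectionOnto y)) < f (cmap T g a) := h2
    rwa [hy0] at h3
  · rintro x ⟨⟨hxV, hxU⟩, hxM, hxf⟩
    obtain ⟨h1, h2⟩ := hin x hxV hxM
    refine ⟨T.orthogonalProjectionOnto x, hUs _ hxU ⟨h2, ?_⟩ ?_, h1⟩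
    · show cmap T g (T.orthogonalProjectionOnto x) ∈ V
      rw [h1]; exact hxV
    · show f (cmap T g (T.orthogonalProjectionOnto y)) < f (cmap T g (T.orthogonalProjectionOnto x))
      rw [hy0, h1]; exact hxf

theorem link_noncrit_smooth {T : Submodule ℝ (Eu n)} {g : T → Tᗮ} {O : Set T} {V : Set (Eu n)}
    (h : IsChart ∞ m M T g O V) (f : Eu n → ℝ) (hf : ContDiff ℝ ∞ f) :
    ∀ a ∈ O ∩ cmap T g ⁻¹' V, ContDiffAt ℝ 2 (f ∘ cmap T g) a := by
  obtain ⟨-, hsm, -, -⟩ := link_noncrit_chart h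
  intro a ha
  have h1 : ContDiffAt ℝ ∞ (cmap T g) a := hsm.contDiffAt (h.openO.mem_nhds ha.1)
  have h2 : ContDiffAt ℝ ∞ (f ∘ cmap T g) a := hf.contDiffAt.comp a h1
  have h3 : (2 : WithTop ℕ∞) ≤ ∞ := by
    have h4 : ((2 : ℕ∞) : WithTop ℕ∞) ≤ ((⊤ : ℕ∞) : WithTop ℕ∞) := WithTop.coe_le_coe.2 le_top
    exact h4
  exact h2.of_le h3

/-- TARGET -/
theorem link_noncrit (hM : IsSubmanifold ∞ m M) (f : Eu n → ℝ) (hf : ContDiff ℝ ∞ f) (y : Eu n)
    (hy : y ∈ M) (hn : y ∉ critSet M f) :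
    Link M f y ∧ y ∈ closure {x | x ∈ M ∧ f y < f x} := by
  obtain ⟨T, g, O, V, hyV, h⟩ := (isSubmanifold_iff ∞ m M).1 hM y hy
  obtain ⟨hopen, hsm, hin, hout⟩ := link_noncrit_chart h
  have hd := link_noncrit_smooth h f hf
  have hy0 : cmap T g (T.orthogonalProjectionOnto y) = y := (hin y hyV hy).1
  have hyO : T.orthogonalProjectionOnto y ∈ O := (hin y hyV hy).2
  have hyW : T.orthogonalProjectionOnto y ∈ O ∩ cmap T g ⁻¹' V :=
    ⟨hyO, by rw [Set.mem_preimage, hy0]; exact hyV⟩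
  have h0 : fderiv ℝ (f ∘ cmap T g) (T.orthogonalProjectionOnto y) ≠ 0 := fun h0 =>
    hn ((br_crit h y hy hyV f hf).2 h0)
  refine ⟨link_noncrit_transfer h f y hy hyV (link_noncrit_abs hopen hyW hd h0), ?_⟩
  by_contra hcl
  apply h0
  apply IsLocalMax.fderiv_eq_zero
  have hc : ContinuousAt (cmap T g) (T.orthogonalProjectionOnto y) :=
    (hsm.contDiffAt (h.openO.mem_nhds hyO)).continuousAt
  have h1 : (closure {x | x ∈ M ∧ f y < f x})ᶜ ∈ 𝓝 (cmap T g (T.orthogonalProjectionOnto y)) := by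
    rw [hy0]
    exact isClosed_closure.isOpen_compl.mem_nhds hcl
  show ∀ᶠ a in 𝓝 (T.orthogonalProjectionOnto y),
    (f ∘ cmap T g) a ≤ (f ∘ cmap T g) (T.orthogonalProjectionOnto y)
  filter_upwards [hc.preimage_mem_nhds h1, hopen.mem_nhds hyW] with a h2 h3
  by_contra h4
  apply h2
  apply subset_closure
  refine ⟨hout a h3.2, ?_⟩
  rw [not_le] at h4
  have h5 : f (cmap T g (T.orthogonalProjectionOnto y)) < f (cmap T g a) := h4
  rwa [hy0] at h5

/-- TARGET -/
theorem link_index (hM : IsSubmanifold ∞ m M) (f : Eu n → ℝ) (hf : ContDiff ℝ ∞ f) (y : Eu n)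
    (k : ℕ) (hy : HasIndex m M f y k) (hk : k + 1 ≠ m) : Link M f y := by
  have hyM : y ∈ M := hy.1.1
  obtain ⟨T, g, O, V, hyV, h⟩ := (isSubmanifold_iff ∞ m M).1 hM y hyM
  obtain ⟨hopen, hsm, hin, hout⟩ := link_noncrit_chart h
  have hd := link_noncrit_smooth h f hf
  have hy0 : cmap T g (T.orthogonalProjectionOnto y) = y := (hin y hyV hyM).1
  have hyO : T.orthogonalProjectionOnto y ∈ O := (hin y hyV hyM).2
  have hyW : T.orthogonalProjectionOnto y ∈ O ∩ cmap T g ⁻¹' V :=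
    ⟨hyO, by rw [Set.mem_preimage, hy0]; exact hyV⟩
  obtain ⟨h0, N, P, hNk, hPk, hN, hP⟩ := (br_index h y hyM hyV f hf k).1 hy
  refine link_noncrit_transfer h f y hyM hyV (link_index_abs hopen hyW hd h0 N P ?_ ?_ hN hP)
  · rw [hNk, hPk, h.dim]
  · omega

end

end Pool.Agent.H469
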