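import Pool.Agent.Helper469_Dupin.DefsB

set_option autoImplicit false

open Set Filter Topology MeasureTheory
open scoped ContDiff InnerProductSpace

namespace Pool.Agent.H469


/-! PLAIN PROOF OF THE TARGET(S)

Use isSubmanifold_iff: charts (T,g,O,V).  For x ∈ M and a neighbourhood U of x in the subtype M, take the chart at x, a0 = P x, φ = cmap T g continuous on the open set
O'' = {a ∈ O | φ a ∈ V}; φ maps O'' into M (Q φ(a) = g a = g(P φ(a)), φ a ∈ V), P φ(a) = a and φ(P y) = y for y ∈ M ∩ V.  Choose r > 0 with ball(a0,r) ⊆ O'' and φ(ball) ⊆ U.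
The set φ(ball) ⊆ M is path connected (image of a convex set under a continuous map) and a neighbourhood of x in M: it contains
{y ∈ M ∩ V : |P y - a0| < r}.  So the path connected neighbourhoods form a basis (`locPathConnectedSpace`-type constructors: the class needs
`∀ x, (𝓝 x).HasBasis (fun s => s ∈ 𝓝 x ∧ IsPathConnected s) id`).
-/

section
variable {n m : ℕ} {M : Set (Eu n)}

theorem loc_path_P (T : Submodule ℝ (Eu n)) (g : T → Tᗮ) (a : T) :
    T.orthogonalProjectionOnto (cmap T g a) = a := by
  unfold cmap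
  rw [map_add, Submodule.orthogonalProjectionOnto_mem_subspace_eq_self,
    Submodule.orthogonalProjectionOnto_apply_of_mem_orthogonal (g a).2, add_zero]

theorem loc_path_Q (T : Submodule ℝ (Eu n)) (g : T → Tᗮ) (a : T) :
    Tᗮ.orthogonalProjectionOnto (cmap T g a) = g a := by
  unfold cmap
  rw [map_add, Submodule.orthogonalProjectionOnto_mem_subspace_eq_self,
    Submodule.orthogonalProjectionOnto_orthogonal_apply_eq_zero, zero_add]
  exact a.2

theorem loc_path_sum (T : Submodule ℝ (Eu n)) (y : Eu n) :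
    ((T.orthogonalProjectionOnto y : T) : Eu n) + ((Tᗮ.orthogonalProjectionOnto y : Tᗮ) : Eu n) = y := by
  rw [Submodule.orthogonalProjectionOnto_orthogonal]
  change ((T.orthogonalProjectionOnto y : T) : Eu n) + (y - T.starProjection y) = y
  rw [Submodule.starProjection_apply]
  exact add_sub_cancel _ _

/-- TARGET -/
theorem loc_path (hM : IsSubmanifold ∞ m M) : LocallyPathConnectedSpace M := by
  rw [isSubmanifold_iff] at hM
  refine ⟨fun x => ?_⟩
  rw [Filter.hasBasis_self]
  intro t ht
  obtain ⟨T, g, O, V, hxV, hc⟩ := hM x.1 x.2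
  rw [mem_nhds_induced] at ht
  obtain ⟨U, hU, hUt⟩ := ht
  obtain ⟨U', hU'U, hU'o, hxU'⟩ := mem_nhds_iff.mp hU
  have hg : ContinuousOn g O := hc.smooth.continuousOn
  have hφ : ContinuousOn (cmap T g) O := by
    unfold cmap
    exact (continuous_subtype_val.continuousOn).add (continuous_subtype_val.comp_continuousOn hg)
  have hO2 : IsOpen (O ∩ cmap T g ⁻¹' (V ∩ U')) := hφ.isOpen_inter_preimage hc.openO (hc.openV.inter hU'o)
  have hback : ∀ y ∈ V, y ∈ M → cmap T g (T.orthogonalProjectionOnto y) = y := by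
    intro y hyV hyM
    have h1 := ((hc.mem y hyV).2).mp hyM
    unfold cmap
    rw [← h1]
    exact loc_path_sum T y
  have ha0 : T.orthogonalProjectionOnto x.1 ∈ O ∩ cmap T g ⁻¹' (V ∩ U') := by
    refine ⟨(hc.mem x.1 hxV).1, ?_⟩
    rw [Set.mem_preimage, hback x.1 hxV x.2]
    exact ⟨hxV, hxU'⟩
  obtain ⟨r, hr, hball⟩ := Metric.isOpen_iff.mp hO2 _ ha0
  have hSM : cmap T g '' Metric.ball (T.orthogonalProjectionOnto x.1) r ⊆ M := by
    rintro _ ⟨a, ha, rfl⟩
    have h1 := hball ha
    rw [(hc.mem _ h1.2.1).2, loc_path_Q, loc_path_P]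
  refine ⟨Subtype.val ⁻¹' (cmap T g '' Metric.ball (T.orthogonalProjectionOnto x.1) r), ?_, ?_, ?_⟩
  · rw [mem_nhds_iff]
    have hPc : Continuous (fun y : Eu n => T.orthogonalProjectionOnto y) :=
      T.orthogonalProjectionOnto.continuous
    refine ⟨Subtype.val ⁻¹' (V ∩ (fun y : Eu n => T.orthogonalProjectionOnto y) ⁻¹'
      Metric.ball (T.orthogonalProjectionOnto x.1) r), ?_, ?_, ?_⟩
    · intro y hy
      exact ⟨T.orthogonalProjectionOnto y.1, hy.2, hback y.1 hy.1 y.2⟩
    · exact (hc.openV.inter (Metric.isOpen_ball.preimage hPc)).preimage continuous_subtype_val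
    · rw [Set.mem_preimage, Set.mem_inter_iff, Set.mem_preimage]
      constructor
      · exact hxV
      · rw [Metric.mem_ball, dist_self]
        exact hr
  · rw [Topology.IsInducing.subtypeVal.isPathConnected_iff, Subtype.image_preimage_coe,
      Set.inter_eq_right.mpr hSM]
    refine IsPathConnected.image' ?_ ?_
    · exact (convex_ball _ _).isPathConnected (Metric.nonempty_ball.mpr hr)
    · exact hφ.mono fun a ha => (hball ha).1
  · rintro y ⟨a, ha, hay⟩
    apply hUt
    apply hU'U
    have := (hball ha).2.2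
    rw [hay] at this
    exact this

end

end Pool.Agent.H469
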