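import Mathlib

set_option autoImplicit false

open Set Filter Topology MeasureTheory
open scoped ContDiff InnerProductSpace

namespace Pool.Agent.H469


/-! PLAIN PROOF OF THE TARGET(S)

Work with U_t = {x ∈ M | t < f x} and S_t = {x ∈ M | t ≤ f x} (compact).  Suppose S_{t0} is not preconnected: it is contained in the union of two disjoint
open sets OA, OB of E and meets both (compact sets: S_{t0} = A ⊔ B with A, B disjoint nonempty compact; separate by disjoint open sets).  Let x1 ∈ A, x2 ∈ B.  By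
compactness there is δ > 0 with S_{t0-δ} ⊆ OA ∪ OB.  Let R = {t | x1, x2 ∈ U_t and x2 is in the connected component of x1 in U_t}.  R contains all t below the
minimum of f (U_t = M is connected), R is downward closed, and t ∉ R for t ≥ t0 - δ.  Let t* = sup R ≤ t0 - δ < f x1, f x2.  t* ∉ R: M is locally path connected, so the
component of x1 in the relatively open U_{t*} is path connected; if it contained x2 there were a path K (compact) in U_{t*}, min_K f > t*, so larger t would be in R.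
Let G be the component of x1 in U_{t*} (`connectedComponentIn`), it is open in M (M locally connected) and closed in U_{t*}; x2 ∉ G.  Let E1 = closure G (in
M) and E2 = S_{t*} minus E1.  E1 ⊆ S_{t*}, E1 ∩ U_{t*} = G, so x2 ∈ E2.  Claim: E2 is closed, i.e. each y ∈ E1 has a neighbourhood whose intersection with S_{t*} is in
E1.  If f y > t*: y ∈ G and G is open in M.  If f y = t*: take V, Q from h1 and V2 from h2 at y, and an open W ∋ y inside V ∩ V2.  y ∈ closure G so W meets G ⊆ U_{t*}, at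
a point in V ∩ {f y < f}, thus in Q; Q ⊆ U_{t*} is preconnected and meets G so Q ⊆ G; so W ∩ U_{t*} ⊆ G.  If y' ∈ W ∩ M, f y' = t*, y' ≠ y then y' ∈ closure U_{t*} by h2, and W is a
neighbourhood of y', so y' ∈ closure (W ∩ U_{t*}) ⊆ closure G.  So W ∩ S_{t*} ⊆ E1.  So E1, E2 are disjoint compact sets with union S_{t*}; separate them by disjoint
open sets O1, O2 and choose by compactness δ' > 0 with S_{t*-δ'} ⊆ O1 ∪ O2.  Choose t ∈ R with t > t* - δ' (t* = sup R): the component of x1 in U_t is a connected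
set in O1 ∪ O2 containing x1 ∈ O1 and x2 ∈ O2: contradiction.
-/


theorem top_link_push {X : Type} [TopologicalSpace X] [CompactSpace X] {g : X → ℝ}
    (hg : Continuous g) {s : ℝ} {O : Set X} (hO : IsOpen O) (hs : {x | s ≤ g x} ⊆ O) :
    ∃ s' < s, {x | s' ≤ g x} ⊆ O := by
  have hK : IsCompact Oᶜ := hO.isClosed_compl.isCompact
  rcases (Oᶜ).eq_empty_or_nonempty with h0 | h0
  · refine ⟨s - 1, by linarith, fun x _ => ?_⟩
    by_contra hx
    have : x ∈ Oᶜ := hx
    rw [h0] at this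
    exact this
  · obtain ⟨z, hz, hmax⟩ := hK.exists_isMaxOn h0 hg.continuousOn
    have hzs : g z < s := by
      by_contra hc
      exact hz (hs (not_lt.1 hc))
    refine ⟨(g z + s) / 2, by linarith, fun x hx => ?_⟩
    by_contra hxO
    have h1 : g x ≤ g z := hmax hxO
    have h2 : (g z + s) / 2 ≤ g x := hx
    linarith

theorem top_link_aux {X : Type} [MetricSpace X] [CompactSpace X] [PreconnectedSpace X]
    [LocallyPathConnectedSpace X] (g : X → ℝ) (hg : Continuous g)
    (h1 : ∀ y : X, ∃ V ∈ 𝓝 y, ∃ Q : Set X, IsPreconnected Q ∧ Q ⊆ {x | g y < g x} ∧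
      V ∩ {x | g y < g x} ⊆ Q)
    (h2 : ∀ y : X, ∃ V ∈ 𝓝 y, ∀ y' ∈ V, y' ≠ y → g y' = g y → y' ∈ closure {x | g y < g x})
    (t0 : ℝ) : IsPreconnected {x | t0 ≤ g x} := by
  have hUo : ∀ t : ℝ, IsOpen {x | t < g x} := fun t => isOpen_lt continuous_const hg
  have hSc : ∀ t : ℝ, IsClosed {x | t ≤ g x} := fun t => isClosed_le continuous_const hg
  -- two points in disjoint open sets covering a lower level set cannot be joined
  have sep : ∀ (s t : ℝ) (O1 O2 : Set X) (x1 x2 : X), IsOpen O1 → IsOpen O2 → Disjoint O1 O2 →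
      {x | s ≤ g x} ⊆ O1 ∪ O2 → x1 ∈ O1 → x2 ∈ O2 → s ≤ t → ¬ JoinedIn {x | t < g x} x1 x2 := by
    intro s t O1 O2 x1 x2 ho1 ho2 hd hcov hx1 hx2 hst hj
    obtain ⟨γ, hγ⟩ := hj
    have hp : IsPreconnected (range γ) := isPreconnected_range γ.continuous
    have hsub : range γ ⊆ O1 ∪ O2 := by
      rintro _ ⟨r, rfl⟩
      apply hcov
      have := hγ r
      simp only [mem_ofPred_eq] at this ⊢
      linarith
    have : range γ ⊆ O1 := hp.subset_left_of_subset_union ho1 ho2 hd hsub
      ⟨x1, ⟨0, γ.source⟩, hx1⟩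
    exact (disjoint_left.1 hd) (this ⟨1, γ.target⟩) hx2
  rw [isPreconnected_closed_iff]
  intro C D hC hD hcov ⟨x1, hx1S, hx1C⟩ ⟨x2, hx2S, hx2D⟩
  by_contra hne
  rw [not_nonempty_iff_eq_empty] at hne
  have hAc : IsClosed ({x | t0 ≤ g x} ∩ C) := (hSc t0).inter hC
  have hBc : IsClosed ({x | t0 ≤ g x} ∩ D) := (hSc t0).inter hD
  have hAB : Disjoint ({x | t0 ≤ g x} ∩ C) ({x | t0 ≤ g x} ∩ D) := by
    rw [disjoint_left]
    rintro x ⟨h, hc⟩ ⟨_, hd⟩
    have : x ∈ {x | t0 ≤ g x} ∩ (C ∩ D) := ⟨h, hc, hd⟩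
    rw [hne] at this
    exact this
  obtain ⟨OA, OB, hOA, hOB, hAO, hBO, hdis⟩ := normal_separation hAc hBc hAB
  have hcov2 : {x | t0 ≤ g x} ⊆ OA ∪ OB := by
    intro x hx
    rcases hcov hx with h | h
    · exact Or.inl (hAO ⟨hx, h⟩)
    · exact Or.inr (hBO ⟨hx, h⟩)
  obtain ⟨s0, hs0, hs0O⟩ := top_link_push hg (hOA.union hOB) hcov2
  have hx1A : x1 ∈ OA := hAO ⟨hx1S, hx1C⟩
  have hx2B : x2 ∈ OB := hBO ⟨hx2S, hx2D⟩
  have hgx1 : t0 ≤ g x1 := hx1S
  have hgx2 : t0 ≤ g x2 := hx2S
  set R : Set ℝ := {t | JoinedIn {x | t < g x} x1 x2} with hR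
  have hRb : ∀ t ∈ R, t < s0 := by
    intro t ht
    by_contra hc
    exact sep s0 t OA OB x1 x2 hOA hOB hdis hs0O hx1A hx2B (not_lt.1 hc) ht
  have hRbdd : BddAbove R := ⟨s0, fun t ht => (hRb t ht).le⟩
  have hRne : R.Nonempty := by
    haveI : Nonempty X := ⟨x1⟩
    haveI : ConnectedSpace X := ConnectedSpace.mk ‹Nonempty X›
    haveI : PathConnectedSpace X := PathConnectedSpace.of_locallyPathConnectedSpace
    obtain ⟨z, -, hz⟩ := isCompact_univ.exists_isMinOn (s := (univ : Set X)) ⟨x1, mem_univ _⟩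
      hg.continuousOn
    refine ⟨g z - 1, ?_⟩
    obtain ⟨γ⟩ := PathConnectedSpace.joined x1 x2
    refine ⟨γ, fun r => ?_⟩
    have : g z ≤ g (γ r) := hz (mem_univ _)
    simp only [mem_ofPred_eq]
    linarith
  set ts := sSup R with hts
  have htsle : ts ≤ s0 := csSup_le hRne fun t ht => (hRb t ht).le
  have hx1U : ts < g x1 := by linarith
  have hx2U : ts < g x2 := by linarith
  have htsR : ¬ JoinedIn {x | ts < g x} x1 x2 := by
    rintro ⟨γ, hγ⟩
    obtain ⟨r, -, hr⟩ := isCompact_univ.exists_isMinOn (s := (univ : Set unitInterval))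
      ⟨0, mem_univ _⟩ (hg.comp γ.continuous).continuousOn
    have hr1 : ts < g (γ r) := hγ r
    have : (ts + g (γ r)) / 2 ∈ R := by
      refine ⟨γ, fun q => ?_⟩
      have hq : g (γ r) ≤ g (γ q) := hr (mem_univ q)
      simp only [mem_ofPred_eq]
      linarith
    have := le_csSup hRbdd this
    rw [← hts] at this
    linarith
  set U : Set X := {x | ts < g x} with hU
  set G : Set X := pathComponentIn U x1 with hG
  have hGo : IsOpen G := (hUo ts).pathComponentIn x1
  have hGU : G ⊆ U := pathComponentIn_subset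
  have hx1G : x1 ∈ G := mem_pathComponentIn_self hx1U
  have hx2G : x2 ∉ G := htsR
  have hclG : ∀ y ∈ closure G, y ∈ U → y ∈ G := by
    intro y hy hyU
    have ho : IsOpen (pathComponentIn U y) := (hUo ts).pathComponentIn y
    obtain ⟨z, hz1, hz2⟩ := mem_closure_iff.1 hy _ ho (mem_pathComponentIn_self hyU)
    exact JoinedIn.trans hz2 (JoinedIn.symm hz1)
  have hGcl : closure G ⊆ {x | ts ≤ g x} :=
    closure_minimal (fun x hx => le_of_lt (show ts < g x from hGU hx)) (hSc ts)
  have hQG : ∀ Q : Set X, IsPreconnected Q → Q ⊆ U → (Q ∩ G).Nonempty → Q ⊆ G := by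
    intro Q hQ hQU hQG
    refine hQ.subset_left_of_subset_union hGo (isClosed_closure (s := G)).isOpen_compl ?_ ?_ hQG
    · rw [disjoint_left]
      intro x hx hx'
      exact hx' (subset_closure hx)
    · intro x hx
      by_cases h : x ∈ closure G
      · exact Or.inl (hclG x h (hQU hx))
      · exact Or.inr h
  have hE2 : IsClosed ({x | ts ≤ g x} \ closure G) := by
    rw [← isOpen_compl_iff, isOpen_iff_mem_nhds]
    intro y hy
    by_cases hyS : ts ≤ g y
    · have hyG : y ∈ closure G := by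
        by_contra h
        exact hy ⟨hyS, h⟩
      rcases hyS.lt_or_eq with hlt | heq
      · have : y ∈ G := hclG y hyG hlt
        filter_upwards [hGo.mem_nhds this] with z hz hz'
        exact hz'.2 (subset_closure hz)
      · obtain ⟨V, hV, Q, hQ, hQU, hVQ⟩ := h1 y
        obtain ⟨V2, hV2, h2'⟩ := h2 y
        rw [← heq] at hQU hVQ h2'
        obtain ⟨W, hW, hWo, hyW⟩ := mem_nhds_iff.1 (Filter.inter_mem hV hV2)
        obtain ⟨g0, hg0W, hg0G⟩ := mem_closure_iff.1 hyG W hWo hyW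
        have hQG' : Q ⊆ G := hQG Q hQ hQU ⟨g0, hVQ ⟨(hW hg0W).1, hGU hg0G⟩, hg0G⟩
        have hWU : W ∩ U ⊆ G := fun x hx => hQG' (hVQ ⟨(hW hx.1).1, hx.2⟩)
        filter_upwards [hWo.mem_nhds hyW] with z hz hz'
        obtain ⟨hzS, hzG⟩ := hz'
        have hzS' : ts ≤ g z := hzS
        rcases hzS'.lt_or_eq with hzlt | hzeq
        · exact hzG (subset_closure (hWU ⟨hz, hzlt⟩))
        · by_cases hzy : z = y
          · exact hzG (hzy ▸ hyG)
          · have hzc : z ∈ closure U := h2' z (hW hz).2 hzy hzeq.symm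
            apply hzG
            have : z ∈ closure (W ∩ U) := by
              rw [mem_closure_iff]
              intro O hO hzO
              obtain ⟨w, hw1, hw2⟩ := mem_closure_iff.1 hzc (O ∩ W) (hO.inter hWo) ⟨hzO, hz⟩
              exact ⟨w, hw1.1, hw1.2, hw2⟩
            exact closure_mono hWU this
    · have : {x | ts ≤ g x}ᶜ ∈ 𝓝 y := (hSc ts).isOpen_compl.mem_nhds hyS
      filter_upwards [this] with z hz hz'
      exact hz hz'.1
  obtain ⟨O1, O2, hO1, hO2, hc1, hc2, hd12⟩ := normal_separation (isClosed_closure (s := G)) hE2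
    (disjoint_left.2 fun x hx hx' => hx'.2 hx)
  have hcov3 : {x | ts ≤ g x} ⊆ O1 ∪ O2 := by
    intro x hx
    by_cases h : x ∈ closure G
    · exact Or.inl (hc1 h)
    · exact Or.inr (hc2 ⟨hx, h⟩)
  obtain ⟨s1, hs1, hs1O⟩ := top_link_push hg (hO1.union hO2) hcov3
  obtain ⟨t, htR, hts1⟩ := exists_lt_of_lt_csSup hRne hs1
  refine sep s1 t O1 O2 x1 x2 hO1 hO2 hd12 hs1O (hc1 (subset_closure hx1G)) (hc2 ⟨hx2U.le, ?_⟩)
    hts1.le htR
  intro h
  exact hx2G (hclG x2 h hx2U)

section

/-- TARGET -/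
theorem top_link {E : Type} [MetricSpace E] (M : Set E) (hc : IsCompact M)
    (hconn : IsPreconnected M) (hloc : LocallyPathConnectedSpace M) (f : E → ℝ) (hf : ContinuousOn f M)
    (h1 : ∀ y ∈ M, ∃ V ∈ 𝓝 y, ∃ Q : Set E, IsPreconnected Q ∧ Q ⊆ {x | x ∈ M ∧ f y < f x} ∧
      V ∩ {x | x ∈ M ∧ f y < f x} ⊆ Q)
    (h2 : ∀ y ∈ M, ∃ V ∈ 𝓝 y, ∀ y' ∈ V, y' ∈ M → y' ≠ y → f y' = f y →
      y' ∈ closure {x | x ∈ M ∧ f y < f x}) :
    ∀ t : ℝ, IsPreconnected {x | x ∈ M ∧ t ≤ f x} := by
  intro t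
  haveI : CompactSpace M := isCompact_iff_compactSpace.1 hc
  haveI : PreconnectedSpace M := isPreconnected_iff_preconnectedSpace.1 hconn
  have key := top_link_aux (X := M) (fun x => f x) (continuousOn_iff_continuous_domRestrict.1 hf)
    (fun y => ?_) (fun y => ?_) t
  · have h3 := key.image Subtype.val continuous_subtype_val.continuousOn
    convert h3 using 1
    ext x
    simp only [mem_ofPred_eq, mem_image, Subtype.exists, exists_and_right, exists_eq_right]
    constructor
    · rintro ⟨a, b⟩; exact ⟨a, b⟩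
    · rintro ⟨a, b⟩; exact ⟨a, b⟩
  · obtain ⟨V, hV, Q, hQ, hQ1, hQ2⟩ := h1 y y.2
    refine ⟨Subtype.val ⁻¹' V, continuous_subtype_val.continuousAt.preimage_mem_nhds hV,
      Subtype.val ⁻¹' Q, ?_, ?_, ?_⟩
    · have : IsPreconnected (Subtype.val '' (Subtype.val ⁻¹' Q : Set M)) := by
        rw [Subtype.image_preimage_coe]
        rwa [inter_eq_right.2 fun x hx => (hQ1 hx).1]
      exact Topology.IsInducing.subtypeVal.isPreconnected_image.1 this
    · intro x hx
      exact (hQ1 hx).2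
    · rintro x ⟨hx, hx'⟩
      exact hQ2 ⟨hx, x.2, hx'⟩
  · obtain ⟨V, hV, hV2⟩ := h2 y y.2
    refine ⟨Subtype.val ⁻¹' V, continuous_subtype_val.continuousAt.preimage_mem_nhds hV, ?_⟩
    intro y' hy' hne heq
    have := hV2 y' hy' y'.2 (fun h => hne (Subtype.ext h)) heq
    rw [closure_subtype]
    convert this using 2
    ext x
    simp only [mem_ofPred_eq, mem_image, Subtype.exists, exists_and_right, exists_eq_right]
    constructor
    · rintro ⟨a, b⟩; exact ⟨a, b⟩
    · rintro ⟨a, b⟩; exact ⟨a, b⟩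

end

end Pool.Agent.H469
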