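import Pool.Agent.Helper469_Dupin.DefsB
import Pool.Agent.Helper469_Dupin.Jblinkn
import Pool.Agent.Helper469_Dupin.Jblinkc
import Pool.Agent.Helper469_Dupin.Jbisol
import Pool.Agent.Helper469_Dupin.Jbloc
import Pool.Agent.Helper469_Dupin.Jbtop
import Pool.Agent.Helper469_Dupin.Jbgen

set_option autoImplicit false

open Set Filter Topology MeasureTheory
open scoped ContDiff InnerProductSpace

namespace Pool.Agent.H469


/-! PLAIN PROOF OF THE TARGET(S)

Case m ≥ n.  If M = ∅ trivial.  Otherwise a chart has dim T = m ≤ n, so m = n, T = ⊤, Tᗮ = 0 and M is open (every x in V is in M), closed, so M = R^n, compact, so n = 0 (for n ≥ 1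
R^n is not bounded), and R^0 is a subsingleton: every set is preconnected.
Case m < n.  Step 1: p with fam p Morse and p.1 ≠ p.2 • y for all y ∈ M.  Apply top_link with f = fam p (continuous; M compact, loc_path).  h1: y not
critical: link_noncrit; y critical: HasIndex m M (fam p) y k; if k + 1 ≠ m link_index, else link_circle.  h2: crit_isolated gives V ∈ 𝓝 y; y' ∈ V ∩ M, y' ≠ y is not critical so
y' ∈ closure {x ∈ M | f y' < f x} by link_noncrit, and f y' = f y.
Step 2: arbitrary p0, t0.  Suppose S = {x ∈ M | t0 ≤ fam p0 x} (compact) is not preconnected: S = A ⊔ B, disjoint nonempty compact sets; separate by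
disjoint open sets OA ⊇ A, OB ⊇ B.  On the compact set M \ (OA ∪ OB) fam p0 < t0, so fam p0 ≤ t0 - 2η there for some η > 0 (if it is empty any η works).  There is δ > 0 such that
‖p - p0‖ < δ implies |fam p x - fam p0 x| < η for all x ∈ M (M is bounded; |<v,x>| ≤ |v||x|).  Take p from generic_p.  S' = {x ∈ M | t0 - η ≤ fam p x} ⊇ A ∪ B and S' ⊆ {fam p0 > t0 - 2η} ⊆ OA ∪ OB,
so S' is not preconnected, contradicting Step 1.
-/

section
variable {n m : ℕ} {M : Set (Eu n)}

theorem resultB_contDiff (p : Eu n × ℝ) : ContDiff ℝ ∞ (fam p) := by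
  unfold fam
  exact (contDiff_const.inner ℝ contDiff_id).sub
    ((contDiff_const.mul (contDiff_norm_sq ℝ)).div_const 2)

theorem resultB_big (hM : IsSubmanifold ∞ m M) (hcpt : IsCompact M) (hmn : n ≤ m)
    (S : Set (Eu n)) (hS : S ⊆ M) : IsPreconnected S := by
  rcases subsingleton_or_nontrivial (Eu n) with h | h
  · exact Set.subsingleton_of_subsingleton.isPreconnected
  · rcases M.eq_empty_or_nonempty with hM0 | hM0
    · have : S = ∅ := by rw [← Set.subset_empty_iff, ← hM0]; exact hS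
      rw [this]
      exact isPreconnected_empty
    · exfalso
      have hopen : IsOpen M := by
        rw [isOpen_iff_mem_nhds]
        intro x hx
        obtain ⟨T, g, O, V, h1, h2, h3, h4, h5, h6⟩ := hM x hx
        have h7 : Module.finrank ℝ T ≤ n := by
          have := Submodule.finrank_le T
          rwa [finrank_euclideanSpace, Fintype.card_fin] at this
        have hT : T = ⊤ := by
          apply Submodule.eq_top_of_finrank_eq
          rw [finrank_euclideanSpace, Fintype.card_fin]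
          omega
        have hsub : Subsingleton (Tᗮ : Submodule ℝ (Eu n)) := by
          rw [hT, Submodule.top_orthogonal_eq_bot]
          infer_instance
        filter_upwards [h3.mem_nhds h4] with y hy
        exact ((h6 y hy).2).2 (Subsingleton.elim _ _)
      have hcl : IsClopen M := ⟨hcpt.isClosed, hopen⟩
      rw [isClopen_iff] at hcl
      rcases hcl with hcl | hcl
      · exact hM0.ne_empty hcl
      · rw [hcl] at hcpt
        have h8 : NoncompactSpace (Eu n) := inferInstance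
        exact noncompact_univ (Eu n) hcpt

theorem resultB_step1 (hM : IsSubmanifold ∞ m M) (hcpt : IsCompact M) (hconn : IsPreconnected M)
    (hD : IsDupin M) (p : Eu n × ℝ) (hp : IsMorse m M (fam p)) (hne : ∀ y ∈ M, p.1 ≠ p.2 • y)
    (t : ℝ) : IsPreconnected {x | x ∈ M ∧ t ≤ fam p x} := by
  refine top_link M hcpt hconn (loc_path hM) (fam p) (resultB_contDiff p).continuous.continuousOn
    ?_ ?_ t
  · intro y hy
    by_cases hc : y ∈ critSet M (fam p)
    · obtain ⟨k, hk⟩ := hp y hc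
      by_cases hkm : k + 1 = m
      · exact link_circle hM hcpt hD p y k hk hkm (hne y hy)
      · exact link_index hM (fam p) (resultB_contDiff p) y k hk hkm
    · exact (link_noncrit hM (fam p) (resultB_contDiff p) y hy hc).1
  · intro y hy
    refine ⟨_, crit_isolated hM p hp y hy, ?_⟩
    intro y' hy' hy'M hne' hf
    have hc : y' ∉ critSet M (fam p) := fun h => hne' (hy' h)
    have h := (link_noncrit hM (fam p) (resultB_contDiff p) y' hy'M hc).2
    rw [hf] at h
    exact h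

theorem resultB_diff (p q : Eu n × ℝ) (x : Eu n) (R : ℝ) (hR : ‖x‖ ≤ R) :
    |fam p x - fam q x| ≤ ‖p - q‖ * (R + R ^ 2 / 2) := by
  have h0 : 0 ≤ ‖x‖ := norm_nonneg x
  have e : fam p x - fam q x = ⟪p.1 - q.1, x⟫_ℝ - (p.2 - q.2) * ‖x‖ ^ 2 / 2 := by
    unfold fam
    rw [inner_sub_left]
    ring
  have h1 : ‖p.1 - q.1‖ ≤ ‖p - q‖ := norm_fst_le (p - q)
  have h2 : |p.2 - q.2| ≤ ‖p - q‖ := by
    have := norm_snd_le (p - q)
    rwa [Prod.snd_sub, Real.norm_eq_abs] at this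
  have h3 : |⟪p.1 - q.1, x⟫_ℝ| ≤ ‖p.1 - q.1‖ * ‖x‖ := abs_real_inner_le_norm _ _
  have h4 : |(p.2 - q.2) * ‖x‖ ^ 2 / 2| = |p.2 - q.2| * ‖x‖ ^ 2 / 2 := by
    rw [abs_div, abs_mul, abs_of_nonneg (by positivity : (0 : ℝ) ≤ ‖x‖ ^ 2),
      abs_of_pos (by norm_num : (0 : ℝ) < 2)]
  have h5 : ‖x‖ ^ 2 ≤ R ^ 2 := pow_le_pow_left₀ h0 hR 2
  have h6 : 0 ≤ ‖p - q‖ := norm_nonneg _
  calc |fam p x - fam q x| ≤ |⟪p.1 - q.1, x⟫_ℝ| + |(p.2 - q.2) * ‖x‖ ^ 2 / 2| := by
        rw [e]
        exact abs_sub _ _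
    _ ≤ ‖p.1 - q.1‖ * ‖x‖ + |p.2 - q.2| * ‖x‖ ^ 2 / 2 := by rw [h4]; linarith
    _ ≤ ‖p - q‖ * R + ‖p - q‖ * R ^ 2 / 2 := by
        have h7 : ‖p.1 - q.1‖ * ‖x‖ ≤ ‖p - q‖ * R :=
          mul_le_mul h1 hR h0 h6
        have h8 : |p.2 - q.2| * ‖x‖ ^ 2 ≤ ‖p - q‖ * R ^ 2 :=
          mul_le_mul h2 h5 (by positivity) h6
        linarith
    _ = ‖p - q‖ * (R + R ^ 2 / 2) := by ring

/-- TARGET -/
theorem resultB (hM : IsSubmanifold ∞ m M) (hcpt : IsCompact M) (hconn : IsPreconnected M)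
    (hD : IsDupin M) (p : Eu n × ℝ) (t : ℝ) : IsPreconnected {x | x ∈ M ∧ t ≤ fam p x} := by
  rcases Nat.lt_or_ge m n with hmn | hmn
  swap
  · exact resultB_big hM hcpt hmn _ (fun x hx => hx.1)
  have hcont : Continuous (fam p) := (resultB_contDiff p).continuous
  have hScl : IsCompact {x | x ∈ M ∧ t ≤ fam p x} := by
    have : {x | x ∈ M ∧ t ≤ fam p x} = M ∩ {x | t ≤ fam p x} := rfl
    rw [this]
    exact hcpt.inter_right (isClosed_le continuous_const hcont)
  rw [isPreconnected_closed_iff]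
  intro F F' hF hF' hcov hne hne'
  by_contra hcon
  rw [Set.not_nonempty_iff_eq_empty] at hcon
  have hA : IsCompact ({x | x ∈ M ∧ t ≤ fam p x} ∩ F) := hScl.inter_right hF
  have hB : IsCompact ({x | x ∈ M ∧ t ≤ fam p x} ∩ F') := hScl.inter_right hF'
  have hdisj : Disjoint ({x | x ∈ M ∧ t ≤ fam p x} ∩ F) ({x | x ∈ M ∧ t ≤ fam p x} ∩ F') := by
    rw [Set.disjoint_left]
    intro x hx hx'
    have : x ∈ {x | x ∈ M ∧ t ≤ fam p x} ∩ (F ∩ F') := ⟨hx.1, hx.2, hx'.2⟩
    rw [hcon] at this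
    exact this
  obtain ⟨OA, OB, hOA, hOB, hAO, hBO, hO⟩ := SeparatedNhds.of_isCompact_isCompact hA hB hdisj
  have hK : IsCompact (M \ (OA ∪ OB)) := hcpt.diff (hOA.union hOB)
  have hlt : ∀ x ∈ M \ (OA ∪ OB), fam p x < t := by
    intro x hx
    by_contra hge
    rw [not_lt] at hge
    have hxS : x ∈ {x | x ∈ M ∧ t ≤ fam p x} := ⟨hx.1, hge⟩
    rcases hcov hxS with h | h
    · exact hx.2 (Or.inl (hAO ⟨hxS, h⟩))
    · exact hx.2 (Or.inr (hBO ⟨hxS, h⟩))
  obtain ⟨η, hη, hηK⟩ : ∃ η > 0, ∀ x ∈ M \ (OA ∪ OB), fam p x ≤ t - 2 * η := by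
    rcases (M \ (OA ∪ OB)).eq_empty_or_nonempty with h | h
    · refine ⟨1, one_pos, ?_⟩
      intro x hx
      rw [h] at hx
      exact absurd hx (Set.notMem_empty x)
    · obtain ⟨x1, hx1, hmax⟩ := hK.exists_isMaxOn h hcont.continuousOn
      refine ⟨(t - fam p x1) / 2, by linarith [hlt x1 hx1], ?_⟩
      intro x hx
      have := hmax hx
      simp only [Set.mem_ofPred_eq] at this
      linarith
  obtain ⟨R, hR⟩ : ∃ R : ℝ, ∀ x ∈ M, ‖x‖ ≤ R := hcpt.isBounded.exists_norm_le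
  obtain ⟨a, ha⟩ := hne
  obtain ⟨b, hb⟩ := hne'
  have hR0 : 0 ≤ R := (norm_nonneg a).trans (hR a ha.1.1)
  have hC : 0 < R + R ^ 2 / 2 + 1 := by positivity
  obtain ⟨q, hq, hqM, hqne⟩ := generic_p hM hcpt hD hmn p (η / (R + R ^ 2 / 2 + 1)) (by positivity)
  have hclose : ∀ x ∈ M, |fam q x - fam p x| < η := by
    intro x hx
    have h1 := resultB_diff q p x R (hR x hx)
    rw [lt_div_iff₀ hC] at hq
    have h2 : 0 ≤ ‖q - p‖ := norm_nonneg _
    nlinarith
  have hpre := resultB_step1 hM hcpt hconn hD q hqM hqne (t - η)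
  have hsub : {x | x ∈ M ∧ t - η ≤ fam q x} ⊆ OA ∪ OB := by
    intro x hx
    by_contra hx'
    have h1 := hηK x ⟨hx.1, hx'⟩
    have h2 := abs_lt.1 (hclose x hx.1)
    have h3 : t - η ≤ fam q x := hx.2
    linarith [h2.1, h2.2]
  have hane : ({x | x ∈ M ∧ t - η ≤ fam q x} ∩ OA).Nonempty := by
    refine ⟨a, ⟨ha.1.1, ?_⟩, hAO ha⟩
    have h2 := abs_lt.1 (hclose a ha.1.1)
    have h3 : t ≤ fam p a := ha.1.2
    linarith [h2.1, h2.2]
  have hbne : ({x | x ∈ M ∧ t - η ≤ fam q x} ∩ OB).Nonempty := by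
    refine ⟨b, ⟨hb.1.1, ?_⟩, hBO hb⟩
    have h2 := abs_lt.1 (hclose b hb.1.1)
    have h3 : t ≤ fam p b := hb.1.2
    linarith [h2.1, h2.2]
  obtain ⟨x, -, hxA, hxB⟩ := hpre OA OB hOA hOB hsub hane hbne
  exact Set.disjoint_left.1 hO hxA hxB

end

end Pool.Agent.H469
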