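import Mathlib

-- const_of_null proved



set_option autoImplicit false

open Set Filter Topology MeasureTheory
open scoped ContDiff InnerProductSpace

namespace Pool.Agent.H469


/-! PLAIN PROOF OF THE TARGET(S)

Let p, q ∉ B, d = q - p.  By hN and the definition of neighbourhoods there is r > 0 with: for |e| < r, p + e ∉ B, N(p+e) = N p and
q + e ∉ B, N(q+e) = N q.  The set {x | ∃ p' ∈ B, ∃ s, x = p' + s • d} is null, so its translate by -p is null, so some e in the ball of radius
r (positive measure) has p + e not in that set, i.e. p + e + s • d ∉ B for all real s.  The function s ↦ N(p+e+s•d) is locally constant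
on ℝ (each point is outside B; use hN), hence constant (ℝ is connected: `IsLocallyConstant`), so N(p+e) = N(p+e+d) = N(q+e).
-/

section

/-- TARGET -/
theorem const_of_null {D : Type} [NormedAddCommGroup D] [NormedSpace ℝ D] [FiniteDimensional ℝ D]
    [MeasurableSpace D] [BorelSpace D] (μ : Measure D) [μ.IsAddHaarMeasure] (B : Set D)
    (hB : ∀ d : D, μ {q | ∃ p ∈ B, ∃ s : ℝ, q = p + s • d} = 0) {α : Type} (N : D → α)
    (hN : ∀ p, p ∉ B → ∀ᶠ q in 𝓝 p, q ∉ B ∧ N q = N p) :
    ∀ p, p ∉ B → ∀ q, q ∉ B → N p = N q := by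
  intro p hp q hq
  set d : D := q - p with hd
  obtain ⟨r1, hr1, h1⟩ := Metric.eventually_nhds_iff_ball.1 (hN p hp)
  obtain ⟨r2, hr2, h2⟩ := Metric.eventually_nhds_iff_ball.1 (hN q hq)
  have hA : μ ((fun e => p + e) ⁻¹' {x | ∃ p' ∈ B, ∃ s : ℝ, x = p' + s • d}) = 0 := by
    rw [measure_preimage_add]
    exact hB d
  have hr : 0 < min r1 r2 := lt_min hr1 hr2
  obtain ⟨e, he, he2⟩ : ∃ e ∈ Metric.ball (0 : D) (min r1 r2),
      e ∉ (fun e => p + e) ⁻¹' {x | ∃ p' ∈ B, ∃ s : ℝ, x = p' + s • d} := by
    by_contra hcon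
    push Not at hcon
    have h3 := measure_mono (μ := μ) hcon
    rw [hA] at h3
    exact (Metric.measure_ball_pos μ (0 : D) hr).ne' (le_antisymm h3 zero_le)
  have hout : ∀ s : ℝ, p + e + s • d ∉ B := by
    intro s hs
    refine he2 ⟨_, hs, -s, ?_⟩
    rw [neg_smul, add_neg_cancel_right]
  have hloc : IsLocallyConstant (fun s : ℝ => N (p + e + s • d)) := by
    rw [IsLocallyConstant.iff_eventually_eq]
    intro s
    have h3 : Tendsto (fun s : ℝ => p + e + s • d) (𝓝 s) (𝓝 (p + e + s • d)) := by
      have h4 : Continuous (fun s : ℝ => p + e + s • d) := by fun_prop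
      exact h4.tendsto s
    exact (h3.eventually (hN _ (hout s))).mono fun _ h => h.2
  have h3 := hloc.apply_eq_of_preconnectedSpace 0 1
  have he' : ‖e‖ < min r1 r2 := by simpa using he
  have h4 : N (p + e) = N p := (h1 (p + e) (by
    rw [Metric.mem_ball, dist_eq_norm, add_sub_cancel_left]
    exact he'.trans_le (min_le_left _ _))).2
  have h5 : N (q + e) = N q := (h2 (q + e) (by
    rw [Metric.mem_ball, dist_eq_norm, add_sub_cancel_left]
    exact he'.trans_le (min_le_right _ _))).2
  have h6 : p + e + (1 : ℝ) • d = q + e := by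
    rw [one_smul, hd]
    abel
  simp only [zero_smul, add_zero] at h3
  rw [h6, h4, h5] at h3
  exact h3

end

end Pool.Agent.H469
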