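import Mathlib

set_option autoImplicit false

open Set Filter Topology MeasureTheory
open scoped ContDiff InnerProductSpace

namespace Pool.Agent.H469


/-! PLAIN PROOF OF THE TARGET(S)

Differentiate hD at u near u0 in the direction v: D³h(v)(k,k') = Dτ(v) <Γ k,k'> + τ <DΓ(v) k,k'>.  D³h is symmetric in v and k, so
|Dτ(v)<Γk,k'> - Dτ(k)<Γv,k'>| ≤ C|τ| |v||k||k'| near u0.  Given a unit vector v choose a unit vector k ⊥ Γ(u) v (dim K ≥ 2) and k' = k: |Dτ(v)| <Γ k,k> ≤ C|τ|, and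
<Γ(u)k,k> ≥ c > 0 for u near u0 by continuity (compact unit sphere).  So |Dτ| ≤ C'|τ| near u0.  τ(u0) = 0 since 0 = D²h(u0)(k,k) = τ(u0)<Γ(u0)k,k> for some k ≠ 0.  By Gronwall along
segments (`norm_le_gronwallBound_of_norm_deriv_right_le` or ODE uniqueness) τ = 0 near u0, so D²h = 0 near u0, Dh is constant near u0, equal to Dh(u0) = 0.
-/

section

theorem conformal_flat_perp {K : Type} [NormedAddCommGroup K] [InnerProductSpace ℝ K]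
    [FiniteDimensional ℝ K] (hdim : 2 ≤ Module.finrank ℝ K) (w : K) :
    ∃ k : K, ‖k‖ = 1 ∧ ⟪w, k⟫_ℝ = 0 := by
  have h1 : LinearMap.ker ((innerSL ℝ w : K →L[ℝ] ℝ) : K →ₗ[ℝ] ℝ) ≠ ⊥ := by
    apply LinearMap.ker_ne_bot_of_finrank_lt
    simp only [Module.finrank_self]
    omega
  obtain ⟨k, hk, hk0⟩ := (Submodule.ne_bot_iff _).1 h1
  have hn : ‖k‖ ≠ 0 := norm_ne_zero_iff.2 hk0
  refine ⟨‖k‖⁻¹ • k, ?_, ?_⟩
  · rw [norm_smul, norm_inv, norm_norm, inv_mul_cancel₀ hn]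
  · have h2 : ⟪w, k⟫_ℝ = 0 := by simpa using hk
    rw [inner_smul_right, h2, mul_zero]

theorem conformal_flat_coer {K : Type} [NormedAddCommGroup K] [InnerProductSpace ℝ K]
    [FiniteDimensional ℝ K] (hdim : 2 ≤ Module.finrank ℝ K) (A : K →L[ℝ] K)
    (hA : ∀ k : K, k ≠ 0 → 0 < ⟪A k, k⟫_ℝ) :
    ∃ c : ℝ, 0 < c ∧ ∀ k : K, ‖k‖ = 1 → c ≤ ⟪A k, k⟫_ℝ := by
  obtain ⟨k₁, hk₁, -⟩ := conformal_flat_perp hdim (0 : K)
  have hc : IsCompact (Metric.sphere (0 : K) 1) := isCompact_sphere _ _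
  have hne : (Metric.sphere (0 : K) 1).Nonempty := ⟨k₁, by simpa using hk₁⟩
  have hcont : ContinuousOn (fun k : K => ⟪A k, k⟫_ℝ) (Metric.sphere (0 : K) 1) := by
    fun_prop
  obtain ⟨k₂, hk₂, hmin⟩ := hc.exists_isMinOn hne hcont
  have hk2 : ‖k₂‖ = 1 := by simpa using hk₂
  have hk20 : k₂ ≠ 0 := by
    intro h0
    rw [h0, norm_zero] at hk2
    exact zero_ne_one hk2
  refine ⟨⟪A k₂, k₂⟫_ℝ, hA _ hk20, ?_⟩
  intro k hk
  exact hmin (by simpa using hk : k ∈ Metric.sphere (0 : K) 1)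

theorem conformal_flat_evnorm {E F : Type} [NormedAddCommGroup E] [NormedSpace ℝ E]
    [NormedAddCommGroup F] [NormedSpace ℝ F] (f : E → F) (x : E) (hf : ContDiffAt ℝ 2 f x) :
    ∀ᶠ u in 𝓝 x, ‖fderiv ℝ f u‖ ≤ ‖fderiv ℝ f x‖ + 1 := by
  have h2 : ContDiffAt ℝ 1 (fderiv ℝ f) x := hf.fderiv_right (by norm_num)
  have h4 : ∀ᶠ u in 𝓝 x, dist (fderiv ℝ f u) (fderiv ℝ f x) < 1 :=
    Metric.tendsto_nhds.1 h2.continuousAt 1 one_pos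
  refine h4.mono fun u hu => ?_
  rw [dist_eq_norm] at hu
  have h5 : ‖fderiv ℝ f u‖ ≤ ‖fderiv ℝ f x‖ + ‖fderiv ℝ f u - fderiv ℝ f x‖ :=
    norm_le_insert' _ _
  linarith

/-- the differential inequality -/
theorem conformal_flat_ineq {K : Type} [NormedAddCommGroup K] [InnerProductSpace ℝ K]
    [FiniteDimensional ℝ K] (hdim : 2 ≤ Module.finrank ℝ K) (h : K → ℝ) (u : K)
    (hh : ContDiffAt ℝ 3 h u) (τ : K → ℝ) (hτ : ContDiffAt ℝ 1 τ u) (Γ : K → K →L[ℝ] K)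
    (hΓ : ContDiffAt ℝ 1 Γ u)
    (hD : ∀ᶠ u in 𝓝 u, ∀ k k' : K, fderiv ℝ (fderiv ℝ h) u k k' = τ u * ⟪Γ u k, k'⟫_ℝ)
    (c C : ℝ) (hc : 0 < c) (hcc : ∀ k : K, ‖k‖ = 1 → c ≤ ⟪Γ u k, k⟫_ℝ)
    (hC : ‖fderiv ℝ Γ u‖ ≤ C) :
    ‖fderiv ℝ τ u‖ ≤ (2 * C / c) * |τ u| := by
  have hC0 : 0 ≤ C := (ContinuousLinearMap.opNorm_nonneg (fderiv ℝ Γ u)).trans hC
  set G : K → (K →L[ℝ] ℝ) := fderiv ℝ h with hG
  have hG2 : ContDiffAt ℝ 2 G u := hh.fderiv_right (by norm_num)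
  have hG3 : ContDiffAt ℝ 1 (fderiv ℝ G) u := hG2.fderiv_right (by norm_num)
  have hsym : IsSymmSndFDerivAt ℝ G u := hG2.isSymmSndFDerivAt (by simp)
  have hGd : DifferentiableAt ℝ (fderiv ℝ G) u := hG3.differentiableAt one_ne_zero
  have hτd : HasFDerivAt τ (fderiv ℝ τ u) u := (hτ.differentiableAt one_ne_zero).hasFDerivAt
  have hΓd : HasFDerivAt Γ (fderiv ℝ Γ u) u := (hΓ.differentiableAt one_ne_zero).hasFDerivAt
  have key : ∀ v k k' : K, fderiv ℝ (fderiv ℝ G) u v k k' =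
      fderiv ℝ τ u v * ⟪Γ u k, k'⟫_ℝ + τ u * ⟪fderiv ℝ Γ u v k, k'⟫_ℝ := by
    intro v k k'
    have e0 := (hGd.hasFDerivAt.clm_apply (hasFDerivAt_const k u)).clm_apply
      (hasFDerivAt_const k' u)
    have e2 : HasFDerivAt (fun u => Γ u k)
        ((ContinuousLinearMap.apply ℝ K k).comp (fderiv ℝ Γ u)) u :=
      ((ContinuousLinearMap.apply ℝ K k).hasFDerivAt).comp u hΓd
    have e3 : HasFDerivAt (fun u => ⟪Γ u k, k'⟫_ℝ)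
        ((innerSL ℝ k').comp ((ContinuousLinearMap.apply ℝ K k).comp (fderiv ℝ Γ u))) u := by
      have e := ((innerSL ℝ k').hasFDerivAt).comp u e2
      refine e.congr_of_eventuallyEq ?_
      filter_upwards with y
      simp only [Function.comp, innerSL_apply_apply]
      exact real_inner_comm _ _
    have e4 := hτd.mul e3
    have e5 : HasFDerivAt (fun u => fderiv ℝ G u k k') (τ u • (innerSL ℝ k').comp
        ((ContinuousLinearMap.apply ℝ K k).comp (fderiv ℝ Γ u)) + ⟪Γ u k, k'⟫_ℝ • fderiv ℝ τ u)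
        u := by
      refine e4.congr_of_eventuallyEq ?_
      filter_upwards [hD] with y hy
      exact hy k k'
    have e6 := e0.unique e5
    have e7 := congrArg (fun L : K →L[ℝ] ℝ => L v) e6
    simp only [ContinuousLinearMap.comp_apply, ContinuousLinearMap.apply_apply,
      ContinuousLinearMap.flip_apply, ContinuousLinearMap.comp_zero, zero_add,
      add_apply, smul_apply, innerSL_apply_apply,
      smul_eq_mul] at e7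
    rw [e7, real_inner_comm (fderiv ℝ Γ u v k) k']
    ring
  refine ContinuousLinearMap.opNorm_le_bound _ (by positivity) ?_
  intro v
  obtain ⟨k, hk, hperp⟩ := conformal_flat_perp hdim (Γ u v)
  have h1 := key v k k
  have h2 := key k v k
  have h3 : fderiv ℝ (fderiv ℝ G) u v k = fderiv ℝ (fderiv ℝ G) u k v := hsym.eq v k
  rw [h3, h2, hperp, mul_zero, zero_add] at h1
  have h4 : fderiv ℝ τ u v * ⟪Γ u k, k⟫_ℝ =
      τ u * (⟪fderiv ℝ Γ u k v, k⟫_ℝ - ⟪fderiv ℝ Γ u v k, k⟫_ℝ) := by linarith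
  have h5 : |⟪fderiv ℝ Γ u k v, k⟫_ℝ| ≤ C * ‖v‖ := by
    calc |⟪fderiv ℝ Γ u k v, k⟫_ℝ| ≤ ‖fderiv ℝ Γ u k v‖ * ‖k‖ := abs_real_inner_le_norm _ _
      _ = ‖fderiv ℝ Γ u k v‖ := by rw [hk, mul_one]
      _ ≤ ‖fderiv ℝ Γ u k‖ * ‖v‖ := (fderiv ℝ Γ u k).le_opNorm v
      _ ≤ (‖fderiv ℝ Γ u‖ * ‖k‖) * ‖v‖ := by
        gcongr
        exact (fderiv ℝ Γ u).le_opNorm k
      _ = ‖fderiv ℝ Γ u‖ * ‖v‖ := by rw [hk, mul_one]
      _ ≤ C * ‖v‖ := by gcongr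
  have h6 : |⟪fderiv ℝ Γ u v k, k⟫_ℝ| ≤ C * ‖v‖ := by
    calc |⟪fderiv ℝ Γ u v k, k⟫_ℝ| ≤ ‖fderiv ℝ Γ u v k‖ * ‖k‖ := abs_real_inner_le_norm _ _
      _ = ‖fderiv ℝ Γ u v k‖ := by rw [hk, mul_one]
      _ ≤ ‖fderiv ℝ Γ u v‖ * ‖k‖ := (fderiv ℝ Γ u v).le_opNorm k
      _ = ‖fderiv ℝ Γ u v‖ := by rw [hk, mul_one]
      _ ≤ ‖fderiv ℝ Γ u‖ * ‖v‖ := (fderiv ℝ Γ u).le_opNorm v
      _ ≤ C * ‖v‖ := by gcongr
  have h7 : |fderiv ℝ τ u v| * c ≤ |τ u| * (2 * C * ‖v‖) := by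
    calc |fderiv ℝ τ u v| * c ≤ |fderiv ℝ τ u v| * ⟪Γ u k, k⟫_ℝ := by
          gcongr
          exact hcc k hk
      _ = |fderiv ℝ τ u v * ⟪Γ u k, k⟫_ℝ| := by
          rw [abs_mul, abs_of_pos (hc.trans_le (hcc k hk))]
      _ = |τ u| * |⟪fderiv ℝ Γ u k v, k⟫_ℝ - ⟪fderiv ℝ Γ u v k, k⟫_ℝ| := by
          rw [h4, abs_mul]
      _ ≤ |τ u| * (2 * C * ‖v‖) := by
          gcongr
          calc |⟪fderiv ℝ Γ u k v, k⟫_ℝ - ⟪fderiv ℝ Γ u v k, k⟫_ℝ|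
              ≤ |⟪fderiv ℝ Γ u k v, k⟫_ℝ| + |⟪fderiv ℝ Γ u v k, k⟫_ℝ| := abs_sub _ _
            _ ≤ 2 * C * ‖v‖ := by linarith
  rw [Real.norm_eq_abs]
  have h8 : |fderiv ℝ τ u v| ≤ |τ u| * (2 * C * ‖v‖) / c := by
    rw [le_div_iff₀ hc]
    exact h7
  calc |fderiv ℝ τ u v| ≤ |τ u| * (2 * C * ‖v‖) / c := h8
    _ = 2 * C / c * |τ u| * ‖v‖ := by ring

/-- TARGET -/
theorem conformal_flat {K : Type} [NormedAddCommGroup K] [InnerProductSpace ℝ K]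
    [FiniteDimensional ℝ K] (hdim : 2 ≤ Module.finrank ℝ K) (h : K → ℝ) (u₀ : K)
    (hh : ContDiffAt ℝ ∞ h u₀) (τ : K → ℝ) (hτ : ContDiffAt ℝ ∞ τ u₀) (Γ : K → K →L[ℝ] K)
    (hΓ : ContDiffAt ℝ ∞ Γ u₀) (hΓp : ∀ k : K, k ≠ 0 → 0 < ⟪Γ u₀ k, k⟫_ℝ)
    (hD : ∀ᶠ u in 𝓝 u₀, ∀ k k' : K, fderiv ℝ (fderiv ℝ h) u k k' = τ u * ⟪Γ u k, k'⟫_ℝ)
    (h0 : fderiv ℝ (fderiv ℝ h) u₀ = 0) (h1 : fderiv ℝ h u₀ = 0) :
    ∀ᶠ u in 𝓝 u₀, fderiv ℝ h u = 0 := by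
  -- eventual facts
  have hh3 : ∀ᶠ u in 𝓝 u₀, ContDiffAt ℝ 3 h u :=
    (hh.of_le (WithTop.coe_le_coe.2 (le_top : (3 : ℕ∞) ≤ ⊤) : (3 : ℕ∞ω) ≤ ∞)).eventually (by simp)
  have hτ1 : ∀ᶠ u in 𝓝 u₀, ContDiffAt ℝ 1 τ u :=
    (hτ.of_le (by exact_mod_cast (le_top : (1 : ℕ∞) ≤ ⊤))).eventually (by simp)
  have hΓ1 : ∀ᶠ u in 𝓝 u₀, ContDiffAt ℝ 1 Γ u :=
    (hΓ.of_le (by exact_mod_cast (le_top : (1 : ℕ∞) ≤ ⊤))).eventually (by simp)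
  have hD' : ∀ᶠ u in 𝓝 u₀, ∀ᶠ w in 𝓝 u, ∀ k k' : K,
      fderiv ℝ (fderiv ℝ h) w k k' = τ w * ⟪Γ w k, k'⟫_ℝ := eventually_eventually_nhds.2 hD
  obtain ⟨c, hc, hcc⟩ := conformal_flat_coer hdim (Γ u₀) hΓp
  have hΓc : ContinuousAt Γ u₀ := hΓ.continuousAt
  have hcu : ∀ᶠ u in 𝓝 u₀, ∀ k : K, ‖k‖ = 1 → c / 2 ≤ ⟪Γ u k, k⟫_ℝ := by
    have h2 : ∀ᶠ u in 𝓝 u₀, dist (Γ u) (Γ u₀) < c / 2 :=
      Metric.tendsto_nhds.1 hΓc (c / 2) (by positivity)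
    filter_upwards [h2] with u hu k hk
    rw [dist_eq_norm] at hu
    have h3 : |⟪(Γ u - Γ u₀) k, k⟫_ℝ| ≤ c / 2 := by
      calc |⟪(Γ u - Γ u₀) k, k⟫_ℝ| ≤ ‖(Γ u - Γ u₀) k‖ * ‖k‖ := abs_real_inner_le_norm _ _
        _ = ‖(Γ u - Γ u₀) k‖ := by rw [hk, mul_one]
        _ ≤ ‖Γ u - Γ u₀‖ * ‖k‖ := (Γ u - Γ u₀).le_opNorm k
        _ = ‖Γ u - Γ u₀‖ := by rw [hk, mul_one]
        _ ≤ c / 2 := hu.le
    have h4 : ⟪(Γ u - Γ u₀) k, k⟫_ℝ = ⟪Γ u k, k⟫_ℝ - ⟪Γ u₀ k, k⟫_ℝ := by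
      rw [sub_apply, inner_sub_left]
    have h5 := (abs_le.1 h3).1
    have h6 := hcc k hk
    linarith
  set C : ℝ := ‖fderiv ℝ Γ u₀‖ + 1 with hCdef
  have hCu : ∀ᶠ u in 𝓝 u₀, ‖fderiv ℝ Γ u‖ ≤ C :=
    conformal_flat_evnorm Γ u₀ (hΓ.of_le (WithTop.coe_le_coe.2 (le_top : (2 : ℕ∞) ≤ ⊤)))
  have hineq : ∀ᶠ u in 𝓝 u₀, ‖fderiv ℝ τ u‖ ≤ (2 * C / (c / 2)) * |τ u| := by
    filter_upwards [hh3, hτ1, hΓ1, hD', hcu, hCu] with u a1 a2 a3 a4 a5 a6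
    exact conformal_flat_ineq hdim h u a1 τ a2 Γ a3 a4 (c / 2) C (by positivity) a5 a6
  -- tau vanishes at u₀
  have hτ0 : τ u₀ = 0 := by
    obtain ⟨k, hk, -⟩ := conformal_flat_perp hdim (0 : K)
    have h2 := hD.self_of_nhds k k
    rw [h0] at h2
    have h3 : (0 : ℝ) < ⟪Γ u₀ k, k⟫_ℝ := hc.trans_le (hcc k hk)
    have h4 : τ u₀ * ⟪Γ u₀ k, k⟫_ℝ = 0 := by
      rw [← h2]
      simp
    exact (mul_eq_zero.1 h4).resolve_right h3.ne'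
  -- a ball
  obtain ⟨r, hr, hball⟩ := Metric.eventually_nhds_iff_ball.1 (hineq.and (hτ1.and (hh3.and hD)))
  have hτball : ∀ u ∈ Metric.ball u₀ r, τ u = 0 := by
    intro u hu
    set γ : ℝ → K := fun t => u₀ + t • (u - u₀) with hγ
    have hγd : ∀ t, HasDerivAt γ (u - u₀) t := by
      intro t
      have e := ((hasDerivAt_id t).smul_const (u - u₀)).const_add u₀
      rw [one_smul] at e
      exact e
    have hγb : ∀ t ∈ Icc (0 : ℝ) 1, γ t ∈ Metric.ball u₀ r := by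
      intro t ht
      rw [Metric.mem_ball, dist_eq_norm] at hu ⊢
      have e1 : γ t - u₀ = t • (u - u₀) := by simp [hγ]
      rw [e1, norm_smul, Real.norm_eq_abs, abs_of_nonneg ht.1]
      calc t * ‖u - u₀‖ ≤ 1 * ‖u - u₀‖ := by
            gcongr
            exact ht.2
        _ < r := by rw [one_mul]; exact hu
    have hcomp : ∀ t ∈ Icc (0 : ℝ) 1,
        HasDerivAt (fun t => τ (γ t)) (fderiv ℝ τ (γ t) (u - u₀)) t := by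
      intro t ht
      have e1 : HasFDerivAt τ (fderiv ℝ τ (γ t)) (γ t) :=
        ((hball _ (hγb t ht)).2.1.differentiableAt one_ne_zero).hasFDerivAt
      exact e1.comp_hasDerivAt t (hγd t)
    have hz := eq_zero_of_abs_deriv_le_mul_abs_self_of_eq_zero_right (f := fun t => τ (γ t))
      (f' := fun t => fderiv ℝ τ (γ t) (u - u₀)) (K := (2 * C / (c / 2)) * ‖u - u₀‖)
      (a := 0) (b := 1)
      (fun t ht => (hcomp t ht).continuousAt.continuousWithinAt)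
      (fun t ht => (hcomp t ⟨ht.1, ht.2.le⟩).hasDerivWithinAt)
      (by simp [hγ, hτ0])
      (by
        intro t ht
        have e1 := (hball _ (hγb t ⟨ht.1, ht.2.le⟩)).1
        calc ‖fderiv ℝ τ (γ t) (u - u₀)‖ ≤ ‖fderiv ℝ τ (γ t)‖ * ‖u - u₀‖ :=
              (fderiv ℝ τ (γ t)).le_opNorm _
          _ ≤ ((2 * C / (c / 2)) * |τ (γ t)|) * ‖u - u₀‖ := by gcongr
          _ = (2 * C / (c / 2)) * ‖u - u₀‖ * ‖τ (γ t)‖ := by
              rw [Real.norm_eq_abs]; ring)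
      1 (by simp)
    simpa [hγ] using hz
  have hD2 : ∀ u ∈ Metric.ball u₀ r, fderiv ℝ (fderiv ℝ h) u = 0 := by
    intro u hu
    ext k k'
    rw [(hball u hu).2.2.2 k k', hτball u hu]
    simp
  have hdiff : DifferentiableOn ℝ (fderiv ℝ h) (Metric.ball u₀ r) := by
    intro u hu
    have e1 : ContDiffAt ℝ 2 (fderiv ℝ h) u := (hball u hu).2.2.1.fderiv_right (by norm_num)
    exact (e1.differentiableAt two_ne_zero).differentiableWithinAt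
  filter_upwards [Metric.ball_mem_nhds u₀ hr] with u hu
  have e := Metric.isOpen_ball.is_const_of_fderiv_eq_zero
    (convex_ball u₀ r).isPreconnected hdiff (fun x hx => hD2 x hx) hu (Metric.mem_ball_self hr)
  rw [e, h1]

end

end Pool.Agent.H469

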