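import Pool.Agent.Helper469_Dupin.DefsD
import Pool.Agent.Helper469_Dupin.Jfamd
import Pool.Agent.Helper469_Dupin.Jlop
import Pool.Agent.Helper469_Dupin.Jbrcrit

set_option autoImplicit false

open Set Filter Topology MeasureTheory
open scoped ContDiff InnerProductSpace

namespace Pool.Agent.H469


section
variable {n m : ℕ} {M : Set (Eu n)} {T : Submodule ℝ (Eu n)} {g : T → Tᗮ} {O : Set T} {V : Set (Eu n)}

theorem red_facts_cmapP (T : Submodule ℝ (Eu n)) (g : T → Tᗮ) (a : T) :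
    T.orthogonalProjectionOnto (cmap T g a) = a := by
  have h1 : T.orthogonalProjectionOnto (g a : Eu n) = 0 :=
    Submodule.orthogonalProjectionOnto_apply_of_mem_orthogonal (g a).2
  have h2 : T.orthogonalProjectionOnto (a : Eu n) = a :=
    Submodule.orthogonalProjectionOnto_mem_subspace_eq_self a
  simp only [cmap, map_add, h1, h2, add_zero]

theorem red_facts_cmapQ (T : Submodule ℝ (Eu n)) (g : T → Tᗮ) (a : T) :
    Tᗮ.orthogonalProjectionOnto (cmap T g a) = g a := by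
  have h1 : Tᗮ.orthogonalProjectionOnto (a : Eu n) = 0 :=
    Submodule.orthogonalProjectionOnto_orthogonal_apply_eq_zero a.2
  have h2 : Tᗮ.orthogonalProjectionOnto (g a : Eu n) = g a :=
    Submodule.orthogonalProjectionOnto_mem_subspace_eq_self (g a)
  simp only [cmap, map_add, h1, h2, zero_add]

theorem red_facts_cmap_smooth (hg : ContDiffOn ℝ ∞ g O) : ContDiffOn ℝ ∞ (cmap T g) O := by
  unfold cmap
  exact (T.subtypeL.contDiff.contDiffOn).add (Tᗮ.subtypeL.contDiff.comp_contDiffOn hg)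

theorem red_facts_fam_smooth : ContDiff ℝ ∞ (fun z : (Eu n × ℝ) × Eu n => fam z.1 z.2) := by
  unfold fam
  have h1 : ContDiff ℝ ∞ (fun z : (Eu n × ℝ) × Eu n => ⟪z.1.1, z.2⟫_ℝ) :=
    (contDiff_fst.comp contDiff_fst).inner ℝ contDiff_snd
  have h2 : ContDiff ℝ ∞ (fun z : (Eu n × ℝ) × Eu n => ‖z.2‖ ^ 2) := contDiff_snd.norm_sq ℝ
  have h3 : ContDiff ℝ ∞ (fun z : (Eu n × ℝ) × Eu n => z.1.2) := contDiff_snd.comp contDiff_fst
  exact h1.sub ((h3.mul h2).div_const 2)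

theorem red_facts_fam_smooth' (p : Eu n × ℝ) : ContDiff ℝ ∞ (fam p : Eu n → ℝ) := by
  have := (red_facts_fam_smooth (n := n)).comp
    (contDiff_const (c := p) |>.prodMk (contDiff_id (𝕜 := ℝ) (E := Eu n)))
  exact this

/-- derivative of the family jointly in the parameter and the point -/
theorem red_facts_fam_deriv (p : Eu n × ℝ) (x : Eu n) (δ : Eu n × ℝ) (v : Eu n) :
    fderiv ℝ (fun z : (Eu n × ℝ) × Eu n => fam z.1 z.2) (p, x) (δ, v) =
      fderiv ℝ (fam p : Eu n → ℝ) x v + fam δ x := by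
  have hd : DifferentiableAt ℝ (fun z : (Eu n × ℝ) × Eu n => fam z.1 z.2) (p, x) :=
    (red_facts_fam_smooth.differentiable (by simp)) _
  have hsplit : ((δ, v) : (Eu n × ℝ) × Eu n) = (0, v) + (δ, 0) := by simp
  rw [hsplit, map_add]
  congr 1
  · have h1 : HasFDerivAt (fun y : Eu n => ((p, y) : (Eu n × ℝ) × Eu n))
        (ContinuousLinearMap.inr ℝ (Eu n × ℝ) (Eu n)) x := hasFDerivAt_prodMk_right p x
    have h2 := hd.hasFDerivAt.comp x h1
    have h3 : fderiv ℝ (fam p : Eu n → ℝ) x =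
        (fderiv ℝ (fun z : (Eu n × ℝ) × Eu n => fam z.1 z.2) (p, x)).comp
          (ContinuousLinearMap.inr ℝ (Eu n × ℝ) (Eu n)) := h2.fderiv
    rw [h3]; simp
  · have h1 : HasFDerivAt (fun y : Eu n × ℝ => ((y, x) : (Eu n × ℝ) × Eu n))
        (ContinuousLinearMap.inl ℝ (Eu n × ℝ) (Eu n)) p := hasFDerivAt_prodMk_left p x
    have h2 := hd.hasFDerivAt.comp p h1
    have h4 : HasFDerivAt (fun y : Eu n × ℝ => (fam y x : ℝ))
        ((innerSL ℝ x).comp (ContinuousLinearMap.fst ℝ (Eu n) ℝ) -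
          (‖x‖ ^ 2 / 2) • ContinuousLinearMap.snd ℝ (Eu n) ℝ) p := by
      have : (fun y : Eu n × ℝ => (fam y x : ℝ)) =
          fun y => ((innerSL ℝ x).comp (ContinuousLinearMap.fst ℝ (Eu n) ℝ) -
          (‖x‖ ^ 2 / 2) • ContinuousLinearMap.snd ℝ (Eu n) ℝ) y := by
        funext y
        simp only [fam, ContinuousLinearMap.sub_apply, ContinuousLinearMap.comp_apply,
          ContinuousLinearMap.smul_apply, ContinuousLinearMap.coe_fst', ContinuousLinearMap.coe_snd',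
          innerSL_apply_apply, smul_eq_mul]
        rw [real_inner_comm]; ring
      rw [this]
      exact ContinuousLinearMap.hasFDerivAt _
    have h5 := (h2.unique h4 : (fderiv ℝ (fun z : (Eu n × ℝ) × Eu n => fam z.1 z.2) (p, x)).comp
          (ContinuousLinearMap.inl ℝ (Eu n × ℝ) (Eu n)) = _)
    have h6 := congrArg (fun L : (Eu n × ℝ) →L[ℝ] ℝ => L δ) h5
    simp only [ContinuousLinearMap.comp_apply, ContinuousLinearMap.inl_apply,
      ContinuousLinearMap.sub_apply, ContinuousLinearMap.smul_apply, ContinuousLinearMap.coe_fst',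
      ContinuousLinearMap.coe_snd', innerSL_apply_apply, smul_eq_mul] at h6
    rw [h6]
    simp only [fam]
    rw [real_inner_comm]; ring

end

section
variable {n m : ℕ} {M : Set (Eu n)} {T : Submodule ℝ (Eu n)} {g : T → Tᗮ} {O : Set T} {V : Set (Eu n)}

theorem red_facts_proj {a₀ : T} {p₀ : Eu n × ℝ} {K : Submodule ℝ T}
    {U : Set (K × (Eu n × ℝ))} {W : Set (T × (Eu n × ℝ))} {A : K × (Eu n × ℝ) → T}
    (hR : Red T g O V a₀ p₀ K U W A) (q : K × (Eu n × ℝ)) (hq : q ∈ U) (k : K) (δ : Eu n × ℝ) :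
    K.orthogonalProjectionOnto (fderiv ℝ A q (k, δ)) = k := by
  have hA : DifferentiableAt ℝ A q :=
    (hR.smooth.contDiffAt (hR.openU.mem_nhds hq)).differentiableAt (by simp)
  have h0 : HasFDerivAt (fun q' : K × (Eu n × ℝ) => A q' - a₀) (fderiv ℝ A q) q :=
    HasFDerivAt.sub_const (𝕜 := ℝ) (E := K × (Eu n × ℝ)) (F := T) a₀ hA.hasFDerivAt
  have hP : HasFDerivAt (fun x : T => K.orthogonalProjectionOnto x) K.orthogonalProjectionOnto
      (A q - a₀) := ContinuousLinearMap.hasFDerivAt _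
  have h1 : HasFDerivAt (fun q' : K × (Eu n × ℝ) => K.orthogonalProjectionOnto (A q' - a₀))
      (K.orthogonalProjectionOnto ∘L fderiv ℝ A q) q :=
    HasFDerivAt.comp (𝕜 := ℝ) (E := K × (Eu n × ℝ)) (F := T) (G := K) q hP h0
  have h2 : HasFDerivAt (fun q' : K × (Eu n × ℝ) => q'.1)
      (K.orthogonalProjectionOnto ∘L fderiv ℝ A q) q := by
    refine h1.congr_of_eventuallyEq ?_
    filter_upwards [hR.openU.mem_nhds hq] with q' hq'
    exact (hR.proj q' hq').symm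
  have h2' := hasFDerivAt_fst (𝕜 := ℝ) (E := K) (F := Eu n × ℝ) (p := q)
  have h3 := h2.unique h2'
  have h4 := congrArg (fun L : (K × (Eu n × ℝ)) →L[ℝ] K => L (k, δ)) h3
  simpa using h4

theorem red_facts_perp {a₀ : T} {p₀ : Eu n × ℝ} {K : Submodule ℝ T}
    {U : Set (K × (Eu n × ℝ))} {W : Set (T × (Eu n × ℝ))} {A : K × (Eu n × ℝ) → T}
    (hR : Red T g O V a₀ p₀ K U W A) (q : K × (Eu n × ℝ)) (hq : q ∈ U) (k : K) (δ : Eu n × ℝ) :
    fderiv ℝ A q (k, δ) - (k : T) ∈ Kᗮ := by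
  have h := red_facts_proj hR q hq k δ
  rw [← Submodule.orthogonalProjectionOnto_eq_zero_iff, map_sub, h,
    Submodule.orthogonalProjectionOnto_mem_subspace_eq_self, sub_self]

end

/-! PLAIN PROOF OF THE TARGET(S)

f(a,p) = fam p (φ a), φ = cmap T g; X = φ(A q).  redH q = f(A q, q.2) is smooth on U (A smooth, A q ∈ O, fam is polynomial).  Let DA = fderiv A q.  P_K(A q' - a0) = q'.1 for q' ∈ U (open) gives
P_K DA(k,δ) = k, so DA(k,δ) - k ∈ Kᗮ; and D_a f(A q) vanishes on Kᗮ (perp), so D_a f(A q)(DA(k,δ)) = D_a f(A q)(k).  f is linear in p, so D_p f δ = fam δ (X).  This gives the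
second and third clauses (redHp is the restriction to fixed p).  Write J k = DA(k,0).  Differentiate perp in the direction (k,0): D_a²f(A q)(J k, w) = 0 for w ∈ Kᗮ.
Second derivative of redHp: D(redHp)(u)(k) = D_a f(A(u,p))(k) on the slice, so D²redHp(k',k)... = D_a²f(A q)(J k', k) = D_a²f(A q)(J k', J k) since J k - k ∈ Kᗮ; symmetric.
Kernel: if D_a²f(A q) u = 0 put k = P_K u; then u - J k ∈ Kᗮ and D_a²f(A q)(u - J k, w) = 0 for w ∈ Kᗮ, so u = J k by inv, and D²redHp k k' = D_a²f(u, J k') = 0.  Conversely if D²redHp k = 0, then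
D_a²f(J k, J k') = 0 for all k' ∈ K and D_a²f(J k, w) = 0 for w ∈ Kᗮ, and every vector of T is J k' + w.  Critical: br_crit (X ∈ M ∩ V by hc.mem: Q X = g(A q), P X = A q): X is critical iff
D_a f(A q) = 0 iff it vanishes on K (it vanishes on Kᗮ).
-/

section
variable {n m : ℕ} {M : Set (Eu n)} {T : Submodule ℝ (Eu n)} {g : T → Tᗮ} {O : Set T} {V : Set (Eu n)}

set_option maxHeartbeats 4000000 in
/-- TARGET -/
theorem red_facts (hc : IsChart ∞ m M T g O V) {a₀ : T} {p₀ : Eu n × ℝ} {K : Submodule ℝ T}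
    {U : Set (K × (Eu n × ℝ))} {W : Set (T × (Eu n × ℝ))} {A : K × (Eu n × ℝ) → T}
    (hR : Red T g O V a₀ p₀ K U W A) (q : K × (Eu n × ℝ)) (hq : q ∈ U) :
    ContDiffOn ℝ ∞ (redH T g K A) U ∧
    (∀ (k : K) (δ : Eu n × ℝ), fderiv ℝ (redH T g K A) q (k, δ) =
      fderiv ℝ (fam q.2 ∘ cmap T g) (A q) (k : T) + fam δ (cmap T g (A q))) ∧
    (∀ k : K, fderiv ℝ (redHp T g K A q.2) q.1 k = fderiv ℝ (fam q.2 ∘ cmap T g) (A q) (k : T)) ∧
    (∀ k k' : K, fderiv ℝ (fderiv ℝ (redHp T g K A q.2)) q.1 k k' =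
      fderiv ℝ (fderiv ℝ (fam q.2 ∘ cmap T g)) (A q) (fderiv ℝ A q (k, 0)) (fderiv ℝ A q (k', 0))) ∧
    (∀ k : K, fderiv ℝ A q (k, 0) - (k : T) ∈ Kᗮ) ∧
    (∀ u : T, fderiv ℝ (fderiv ℝ (fam q.2 ∘ cmap T g)) (A q) u = 0 ↔
      ∃ k : K, u = fderiv ℝ A q (k, 0) ∧ fderiv ℝ (fderiv ℝ (redHp T g K A q.2)) q.1 k = 0) ∧
    (cmap T g (A q) ∈ critSet M (fam q.2) ↔ fderiv ℝ (redHp T g K A q.2) q.1 = 0) := by
  have hA : DifferentiableAt ℝ A q :=
    (hR.smooth.contDiffAt (hR.openU.mem_nhds hq)).differentiableAt (by simp)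
  have hcm : ContDiffOn ℝ ∞ (cmap T g) O := red_facts_cmap_smooth hc.smooth
  have hfm : ∀ p : Eu n × ℝ, ContDiffOn ℝ ∞ (fam p ∘ cmap T g) O := fun p =>
    (red_facts_fam_smooth' p).comp_contDiffOn hcm
  have hAO : ∀ q' ∈ U, A q' ∈ O := fun q' h => (hR.dom q' h).2.1
  -- the point map
  have hX : ContDiffOn ℝ ∞ (fun q' => cmap T g (A q')) U := hcm.comp hR.smooth hAO
  have hred : ContDiffOn ℝ ∞ (redH T g K A) U := by
    have h1 : ContDiffOn ℝ ∞ (fun q' : K × (Eu n × ℝ) => ((q'.2, cmap T g (A q')) :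
      (Eu n × ℝ) × Eu n)) U := contDiffOn_snd.prodMk hX
    exact red_facts_fam_smooth.comp_contDiffOn h1
  -- first derivative
  have hd1 : ∀ q' ∈ U, ∀ (k : K) (δ : Eu n × ℝ), fderiv ℝ (redH T g K A) q' (k, δ) =
      fderiv ℝ (fam q'.2 ∘ cmap T g) (A q') (k : T) + fam δ (cmap T g (A q')) := by
    intro q' hq' k δ
    have hA' : HasFDerivAt A (fderiv ℝ A q') q' :=
      ((hR.smooth.contDiffAt (hR.openU.mem_nhds hq')).differentiableAt (by simp)).hasFDerivAt
    have hO : O ∈ 𝓝 (A q') := hc.openO.mem_nhds (hAO q' hq')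
    have hc1 : HasFDerivAt (cmap T g) (fderiv ℝ (cmap T g) (A q')) (A q') :=
      ((hcm.contDiffAt hO).differentiableAt (by simp)).hasFDerivAt
    have hX1 : HasFDerivAt (fun z => cmap T g (A z)) ((fderiv ℝ (cmap T g) (A q')).comp
      (fderiv ℝ A q')) q' := 
      HasFDerivAt.comp (𝕜 := ℝ) (E := K × (Eu n × ℝ)) (F := T) (G := Eu n) q' hc1 hA'
    have hs := hasFDerivAt_snd (𝕜 := ℝ) (E := K) (F := Eu n × ℝ) (p := q')
    have hp := HasFDerivAt.prodMk (𝕜 := ℝ) (E := K × (Eu n × ℝ)) (F := Eu n × ℝ) (G := Eu n) hs hX1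
    have hF : HasFDerivAt (fun z : (Eu n × ℝ) × Eu n => fam z.1 z.2)
        (fderiv ℝ (fun z : (Eu n × ℝ) × Eu n => fam z.1 z.2) (q'.2, cmap T g (A q')))
        (q'.2, cmap T g (A q')) :=
      ((red_facts_fam_smooth.differentiable (by simp)) _).hasFDerivAt
    have hcomp := HasFDerivAt.comp (𝕜 := ℝ) (E := K × (Eu n × ℝ)) (F := (Eu n × ℝ) × Eu n)
      (G := ℝ) q' hF hp
    have h1 : fderiv ℝ (redH T g K A) q' = _ := hcomp.fderiv
    rw [h1]
    change fderiv ℝ (fun z : (Eu n × ℝ) × Eu n => fam z.1 z.2) (q'.2, cmap T g (A q'))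
          (δ, fderiv ℝ (cmap T g) (A q') (fderiv ℝ A q' (k, δ))) = _
    rw [red_facts_fam_deriv]
    congr 1
    have hfx : HasFDerivAt (fam q'.2 : Eu n → ℝ) (fderiv ℝ (fam q'.2) (cmap T g (A q')))
      (cmap T g (A q')) := (((red_facts_fam_smooth' q'.2).differentiable (by simp)) _).hasFDerivAt
    have h3 : fderiv ℝ (fam q'.2 ∘ cmap T g) (A q') =
        (fderiv ℝ (fam q'.2) (cmap T g (A q'))).comp (fderiv ℝ (cmap T g) (A q')) :=
      (hfx.comp (A q') hc1).fderiv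
    have h4 : fderiv ℝ (fam q'.2) (cmap T g (A q')) (fderiv ℝ (cmap T g) (A q')
        (fderiv ℝ A q' (k, δ))) = fderiv ℝ (fam q'.2 ∘ cmap T g) (A q')
        (fderiv ℝ A q' (k, δ)) := by rw [h3]; rfl
    rw [h4]
    have h5 := hR.perp q' hq' _ (red_facts_perp hR q' hq' k δ)
    rw [map_sub, sub_eq_zero] at h5
    exact h5
  -- the slice
  have hsl := fun u : K => (hasFDerivAt_prodMk_left (𝕜 := ℝ) (E := K) (F := Eu n × ℝ) u q.2)
  have hd2 : ∀ u : K, (u, q.2) ∈ U → fderiv ℝ (redHp T g K A q.2) u =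
      (fderiv ℝ (fam q.2 ∘ cmap T g) (A (u, q.2))).comp K.subtypeL := by
    intro u hu
    have hr : HasFDerivAt (redH T g K A) (fderiv ℝ (redH T g K A) (u, q.2)) (u, q.2) :=
      ((hred.contDiffAt (hR.openU.mem_nhds hu)).differentiableAt (by simp)).hasFDerivAt
    have hcp := HasFDerivAt.comp (𝕜 := ℝ) (E := K) (F := K × (Eu n × ℝ)) (G := ℝ) u hr (hsl u)
    obtain ⟨L, hL, hL'⟩ : ∃ L : K →L[ℝ] ℝ, HasFDerivAt (redHp T g K A q.2) L u ∧
        ∀ k : K, L k = fderiv ℝ (redH T g K A) (u, q.2) (k, 0) := ⟨_, hcp, fun k => rfl⟩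
    rw [hL.fderiv]
    ext k
    rw [hL']
    have h2 := hd1 (u, q.2) hu k 0
    have h3 : fam (0 : Eu n × ℝ) (cmap T g (A (u, q.2))) = 0 := by simp [fam]
    rw [h3, add_zero] at h2
    simpa using h2
  have hqU : (q.1, q.2) ∈ U := hq
  have hUs : ∀ᶠ u in 𝓝 q.1, (u, q.2) ∈ U := by
    have hcont : ContinuousAt (fun v : K => ((v, q.2) : K × (Eu n × ℝ))) q.1 :=
      (continuous_id.prodMk continuous_const).continuousAt
    exact hcont.eventually (hR.openU.mem_nhds hqU)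
  -- derivative of the first derivative along the slice
  have hO : O ∈ 𝓝 (A q) := hc.openO.mem_nhds (hAO q hq)
  have hf2 : HasFDerivAt (fderiv ℝ (fam q.2 ∘ cmap T g)) (fderiv ℝ (fderiv ℝ (fam q.2 ∘ cmap T g))
      (A q)) (A q) := by
    have h1 : ContDiffAt ℝ ∞ (fderiv ℝ (fam q.2 ∘ cmap T g)) (A q) :=
      ((hfm q.2).contDiffAt hO).fderiv_right (by simp)
    exact (h1.differentiableAt (by simp)).hasFDerivAt
  obtain ⟨DA, hAs, hDA⟩ : ∃ DA : K →L[ℝ] T, HasFDerivAt (fun u : K => A (u, q.2)) DA q.1 ∧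
      ∀ k : K, DA k = fderiv ℝ A q (k, 0) := by
    have h0 : HasFDerivAt A (fderiv ℝ A q) (q.1, q.2) := hA.hasFDerivAt
    exact ⟨_, HasFDerivAt.comp (𝕜 := ℝ) (E := K) (F := K × (Eu n × ℝ)) (G := T) q.1 h0 (hsl q.1),
      fun k => rfl⟩
  have hfs : HasFDerivAt (fun u : K => fderiv ℝ (fam q.2 ∘ cmap T g) (A (u, q.2)))
      ((fderiv ℝ (fderiv ℝ (fam q.2 ∘ cmap T g)) (A q)).comp DA) q.1 := by
    have h0 : HasFDerivAt (fderiv ℝ (fam q.2 ∘ cmap T g)) (fderiv ℝ (fderiv ℝ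
      (fam q.2 ∘ cmap T g)) (A q)) (A (q.1, q.2)) := hf2
    exact HasFDerivAt.comp (𝕜 := ℝ) (E := K) (F := T) (G := T →L[ℝ] ℝ) q.1 h0 hAs
  -- vanishing on the complement
  have hvan : ∀ (k : K), ∀ w ∈ Kᗮ,
      fderiv ℝ (fderiv ℝ (fam q.2 ∘ cmap T g)) (A q) (fderiv ℝ A q (k, 0)) w = 0 := by
    intro k w hw
    have h1 : HasFDerivAt (fun u : K => fderiv ℝ (fam q.2 ∘ cmap T g) (A (u, q.2)) w)
        ((ContinuousLinearMap.apply ℝ ℝ w).comp
        ((fderiv ℝ (fderiv ℝ (fam q.2 ∘ cmap T g)) (A q)).comp DA)) q.1 := by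
      have h0 : HasFDerivAt (fun L : T →L[ℝ] ℝ => L w) (ContinuousLinearMap.apply ℝ ℝ w)
        (fderiv ℝ (fam q.2 ∘ cmap T g) (A (q.1, q.2))) :=
        (ContinuousLinearMap.apply ℝ ℝ w).hasFDerivAt
      exact HasFDerivAt.comp (𝕜 := ℝ) (E := K) (F := T →L[ℝ] ℝ) (G := ℝ) q.1 h0 hfs
    have h2 : HasFDerivAt (fun u : K => fderiv ℝ (fam q.2 ∘ cmap T g) (A (u, q.2)) w)
        (0 : K →L[ℝ] ℝ) q.1 := by
      refine (hasFDerivAt_const (𝕜 := ℝ) (E := K) (0 : ℝ) q.1).congr_of_eventuallyEq ?_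
      filter_upwards [hUs] with u hu
      exact hR.perp (u, q.2) hu w hw
    have h3 := congrArg (fun L : K →L[ℝ] ℝ => L k) (h1.unique h2)
    rw [← hDA]
    simpa using h3
  have hsec : ∀ k k' : K, fderiv ℝ (fderiv ℝ (redHp T g K A q.2)) q.1 k k' =
      fderiv ℝ (fderiv ℝ (fam q.2 ∘ cmap T g)) (A q) (fderiv ℝ A q (k, 0))
        (fderiv ℝ A q (k', 0)) := by
    intro k k'
    let R : (T →L[ℝ] ℝ) →L[ℝ] (K →L[ℝ] ℝ) := K.subtypeL.precomp ℝ
    have hRr : ∀ (L : T →L[ℝ] ℝ) (v : K), R L v = L (v : T) := fun L v => rfl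
    have h1 : HasFDerivAt (fun u : K => R (fderiv ℝ (fam q.2 ∘ cmap T g) (A (u, q.2))))
        (R.comp ((fderiv ℝ (fderiv ℝ (fam q.2 ∘ cmap T g)) (A q)).comp DA)) q.1 := by
      have h0 : HasFDerivAt (fun L : T →L[ℝ] ℝ => R L) R
        (fderiv ℝ (fam q.2 ∘ cmap T g) (A (q.1, q.2))) := ContinuousLinearMap.hasFDerivAt _
      exact HasFDerivAt.comp (𝕜 := ℝ) (E := K) (F := T →L[ℝ] ℝ) (G := K →L[ℝ] ℝ) q.1 h0 hfs
    have h2 : HasFDerivAt (fderiv ℝ (redHp T g K A q.2))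
        (R.comp ((fderiv ℝ (fderiv ℝ (fam q.2 ∘ cmap T g)) (A q)).comp DA)) q.1 := by
      refine h1.congr_of_eventuallyEq ?_
      filter_upwards [hUs] with u hu
      exact hd2 u hu
    rw [h2.fderiv]
    have h3 := hvan k _ (red_facts_perp hR q hq k' 0)
    rw [map_sub, sub_eq_zero] at h3
    rw [h3, ← hDA]
    exact hRr _ _
  refine ⟨hred, hd1 q hq, ?_, hsec, fun k => red_facts_perp hR q hq k 0, ?_, ?_⟩
  · intro k
    rw [hd2 q.1 hqU]
    rfl
  · intro u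
    have hproj : ∀ k : K, K.orthogonalProjectionOnto (fderiv ℝ A q (k, 0)) = k := fun k =>
      red_facts_proj hR q hq k 0
    have hdiff : ∀ v : T, v - fderiv ℝ A q (K.orthogonalProjectionOnto v, 0) ∈ Kᗮ := by
      intro v
      rw [← Submodule.orthogonalProjectionOnto_eq_zero_iff, map_sub, hproj, sub_self]
    constructor
    · intro hu
      refine ⟨K.orthogonalProjectionOnto u, ?_, ?_⟩
      · have h1 := hR.inv q hq _ (hdiff u) (by
          intro w hw
          rw [map_sub, hu, ContinuousLinearMap.sub_apply, hvan _ w hw]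
          simp)
        exact sub_eq_zero.mp h1
      · have h1 := hR.inv q hq _ (hdiff u) (by
          intro w hw
          rw [map_sub, hu, ContinuousLinearMap.sub_apply, hvan _ w hw]
          simp)
        ext k'
        rw [hsec, ← sub_eq_zero.mp h1, hu]
        simp
    · rintro ⟨k, rfl, hk⟩
      ext v
      have h1 : v = fderiv ℝ A q (K.orthogonalProjectionOnto v, 0) +
        (v - fderiv ℝ A q (K.orthogonalProjectionOnto v, 0)) := by abel
      rw [h1, map_add, hvan k _ (hdiff v), ← hsec, hk]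
      simp
  · have hV : cmap T g (A q) ∈ V := (hR.dom q hq).2.2
    have hM : cmap T g (A q) ∈ M := by
      rw [(hc.mem _ hV).2, red_facts_cmapP, red_facts_cmapQ]
    rw [br_crit hc _ hM hV (fam q.2) (red_facts_fam_smooth' q.2), red_facts_cmapP, hd2 q.1 hqU]
    constructor
    · intro h
      have h' : fderiv ℝ (fam q.2 ∘ cmap T g) (A (q.1, q.2)) = 0 := h
      rw [h']; simp
    · intro h
      ext v
      have h1 : fderiv ℝ (fam q.2 ∘ cmap T g) (A q) (v - (K.orthogonalProjectionOnto v : T)) = 0 :=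
        hR.perp q hq _ (by
          rw [← Submodule.orthogonalProjectionOnto_eq_zero_iff, map_sub,
            Submodule.orthogonalProjectionOnto_mem_subspace_eq_self, sub_self])
      have h2 := congrArg (fun L : K →L[ℝ] ℝ => L (K.orthogonalProjectionOnto v)) h
      have h3 : fderiv ℝ (fam q.2 ∘ cmap T g) (A q) (K.orthogonalProjectionOnto v : T) = 0 := by
        simpa using h2
      rw [map_sub, h3, sub_zero] at h1
      rw [h1]; simp

end

end Pool.Agent.H469
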