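import Pool.Agent.Helper469_Dupin.DefsD
import Pool.Agent.Helper469_Dupin.Jlh
import Pool.Agent.Helper469_Dupin.Jlop
import Pool.Agent.Helper469_Dupin.Jdredf
import Pool.Agent.Helper469_Dupin.Jfamd
import Pool.Agent.Helper469_Dupin.Jdconf
import Pool.Agent.Helper469_Dupin.Jbrcrit

set_option autoImplicit false

open Set Filter Topology MeasureTheory
open scoped ContDiff InnerProductSpace

namespace Pool.Agent.H469


/-! PLAIN PROOF OF THE TARGET(S)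

f0 = fam p0 ∘ cmap T g, ε0 = p0.2, b(a) = Q p0.1 - ε0 g(a), z(a) = (a, b(a)).  fam_d2: D²f0(a)(u,v) = -<Lop g a b(a) ε0 u, v> for every a ∈ O.  By lh (F := T, Z := T × Tᗮ, L = Lop, c = 2, at z0 = (P x0, b(P x0)), ε0; <Gop u,u> > 0)
there are a neighbourhood N of z0, δ0 and a smooth ρ on N such that |ε - ε0| < δ0 and finrank ker Lop(z,ε) = 2 imply ε = ρ(z).  With hcase (δ = δ0): for z near z0 finrank ker Lop(z,ρ(z)) = 2.  For u near u0 put
A(u) = A(u,p0), z(u) = z(A(u)) (→ z0 as u → u0), t(u) = ε0 - ρ(z(u)), smooth, L0(u) = Lop(z(u),ρ(z(u))), with 2-dimensional kernel, Lt(u) = Lop(z(u),ε0) = L0(u) + t(u) G(u), G = Gop g (A u).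
For a symmetric operator L near Lop(z0,ε0) define J_L : K → T, J_L k = k - (L_⊥⊥)⁻¹ P_⊥ L k (the unique vector k + w, w ∈ Kᗮ, with <L J_L k, w'> = 0 for all w' ∈ Kᗮ); L_⊥⊥, the Kᗮ-block, is invertible near (the field inv of Red at (u0,p0) and openness).  J_L is smooth in L.
Since L0(u) has a 2-dimensional kernel, dim K = 2 and L_⊥⊥ is invertible: L0 J_{L0} = 0 (kernel vectors v satisfy v = J_{L0}(P_K v), so P_K : ker → K is injective, hence bijective).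
By red_facts D²(redHp p0)(u)(k,k') = D²f0(A u)(J k, J k') with J k = DA(k,0) = J_{Lt} k (uniqueness), = -<Lt J_{Lt}k, k'> = -<Lt J_{Lt} k, J_{L0} k'> = -<(L0 + tG) J_{Lt}k, J_{L0}k'> = -t <G J_{Lt}k, J_{L0}k'> =: τ(u) <Γ(u)k,k'>, τ = -t,
Γ(u) = J_{L0}† G J_{Lt}, smooth near u0, and Γ(u0) is positive definite: at u0, t = 0 (nullity 2 at (x0,p0), uniqueness), J_{Lt} = J_{L0} injective.  conformal_flat (D²(redHp)(u0) = 0 because t(u0) = 0, D redHp(u0) = 0 because x0 is critical, red_facts) gives the claim.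
-/

section
variable {F : Type} [NormedAddCommGroup F] [InnerProductSpace ℝ F] [FiniteDimensional ℝ F]

/-- the auxiliary operator `P_K + P_⊥ L` -/
noncomputable def case_oneM (K : Submodule ℝ F) (L : F →L[ℝ] F) : F →L[ℝ] F :=
  K.starProjection + (Kᗮ.starProjection).comp L

theorem case_one_M_iff (K : Submodule ℝ F) (L : F →L[ℝ] F) (v : F) (k : K) :
    case_oneM K L v = (k : F) ↔ (v - (k : F) ∈ Kᗮ ∧ ∀ w ∈ Kᗮ, ⟪L v, w⟫_ℝ = 0) := by
  have hM : case_oneM K L v = K.starProjection v + Kᗮ.starProjection (L v) := rfl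
  rw [hM]
  constructor
  · intro h
    have h1 : Kᗮ.starProjection (L v) ∈ K := by
      have : Kᗮ.starProjection (L v) = (k : F) - K.starProjection v := by
        rw [← h]; abel
      rw [this]
      exact K.sub_mem k.2 (Submodule.starProjection_apply_mem _ _)
    have h2 : Kᗮ.starProjection (L v) ∈ Kᗮ := Submodule.starProjection_apply_mem _ _
    have h3 : Kᗮ.starProjection (L v) = 0 := by
      have := (Submodule.mem_orthogonal K _).1 h2 _ h1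
      exact inner_self_eq_zero.1 this
    rw [h3, add_zero] at h
    refine ⟨?_, ?_⟩
    · rw [← h]
      exact Submodule.sub_starProjection_mem_orthogonal v
    · intro w hw
      have h4 : L v - Kᗮ.starProjection (L v) ∈ Kᗮᗮ := Submodule.sub_starProjection_mem_orthogonal _
      rw [h3, sub_zero] at h4
      exact (Submodule.mem_orthogonal' Kᗮ _).1 h4 _ hw
  · rintro ⟨h1, h2⟩
    have h3 : K.starProjection v = (k : F) :=
      Submodule.eq_starProjection_of_mem_orthogonal k.2 h1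
    have h4 : Kᗮ.starProjection (L v) = 0 := by
      rw [Submodule.starProjection_apply_eq_zero_iff]
      rw [Submodule.mem_orthogonal']
      exact h2
    rw [h3, h4, add_zero]

theorem case_one_inv (K : Submodule ℝ F) (L : F →L[ℝ] F)
    (h : ∀ v ∈ Kᗮ, (∀ w ∈ Kᗮ, ⟪L v, w⟫_ℝ = 0) → v = 0) :
    (case_oneM K L).IsInvertible := by
  have hinj : Function.Injective (case_oneM K L : F →ₗ[ℝ] F) := by
    rw [← LinearMap.ker_eq_bot, LinearMap.ker_eq_bot']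
    intro v hv
    have hv' : case_oneM K L v = ((0 : K) : F) := by simpa using hv
    rw [case_one_M_iff] at hv'
    obtain ⟨h1, h2⟩ := hv'
    have h3 : v ∈ Kᗮ := by simpa using h1
    exact h v h3 h2
  let e : F ≃ₗ[ℝ] F := LinearEquiv.ofInjectiveEndo (case_oneM K L : F →ₗ[ℝ] F) hinj
  refine ⟨e.toContinuousLinearEquiv, ?_⟩
  ext v
  rfl

/-- the map `K → F` -/
noncomputable def case_oneJ (K : Submodule ℝ F) (L : F →L[ℝ] F) : K →L[ℝ] F :=
  (ContinuousLinearMap.inverse (case_oneM K L)).comp K.subtypeL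

theorem case_one_J_iff (K : Submodule ℝ F) (L : F →L[ℝ] F) (hM : (case_oneM K L).IsInvertible)
    (k : K) (v : F) : case_oneJ K L k = v ↔ (v - (k : F) ∈ Kᗮ ∧ ∀ w ∈ Kᗮ, ⟪L v, w⟫_ℝ = 0) := by
  rw [← case_one_M_iff]
  obtain ⟨e, he⟩ := hM
  have h1 : case_oneJ K L k = e.symm (k : F) := by
    unfold case_oneJ
    rw [← he, ContinuousLinearMap.inverse_equiv]
    rfl
  rw [h1, ← he]
  constructor
  · intro h
    rw [← h]
    simp
  · intro h
    rw [← h]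
    simp

theorem case_one_ker (K : Submodule ℝ F) (L : F →L[ℝ] F) (hM : (case_oneM K L).IsInvertible)
    (hK : Module.finrank ℝ K = 2)
    (hker : Module.finrank ℝ (LinearMap.ker (L : F →ₗ[ℝ] F)) = 2) (k : K) :
    L (case_oneJ K L k) = 0 := by
  have hinv := hM
  obtain ⟨e, he⟩ := hM
  -- the projection from the kernel to K
  let P : LinearMap.ker (L : F →ₗ[ℝ] F) →ₗ[ℝ] K :=
    (K.orthogonalProjectionOnto : F →ₗ[ℝ] K).comp (LinearMap.ker (L : F →ₗ[ℝ] F)).subtype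
  have hkerL : ∀ v : LinearMap.ker (L : F →ₗ[ℝ] F), L (v : F) = 0 := fun v => v.2
  have hPM : ∀ v : LinearMap.ker (L : F →ₗ[ℝ] F), case_oneM K L (v : F) = ((P v : K) : F) := by
    intro v
    have : case_oneM K L (v : F) = K.starProjection v + Kᗮ.starProjection (L v) := rfl
    rw [this, hkerL v, map_zero, add_zero]
    rfl
  have hPinj : Function.Injective P := by
    intro v w hvw
    apply Subtype.ext
    apply e.injective
    have h1 := hPM v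
    have h2 := hPM w
    rw [← he] at h1 h2
    have h1' : e (v : F) = ((P v : K) : F) := h1
    have h2' : e (w : F) = ((P w : K) : F) := h2
    rw [h1', h2', hvw]
  have hPsurj : Function.Surjective P := by
    have hfr : Module.finrank ℝ (LinearMap.ker (L : F →ₗ[ℝ] F)) = Module.finrank ℝ K := by
      rw [hker, hK]
    exact (LinearMap.injective_iff_surjective_of_finrank_eq_finrank hfr).1 hPinj
  obtain ⟨v, hv⟩ := hPsurj k
  have h3 : case_oneJ K L k = (v : F) := by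
    rw [case_one_J_iff K L hinv, ← case_one_M_iff, hPM, hv]
  rw [h3]
  exact hkerL v

theorem case_one_adj {X G : Type} [NormedAddCommGroup X] [NormedSpace ℝ X]
    [NormedAddCommGroup G] [InnerProductSpace ℝ G] [FiniteDimensional ℝ G]
    (J : X → G →L[ℝ] F) (x : X) (hJ : ContDiffAt ℝ ∞ J x) :
    ContDiffAt ℝ ∞ (fun u => ContinuousLinearMap.adjoint (J u)) x := by
  let ad : (G →L[ℝ] F) →ₗ[ℝ] (F →L[ℝ] G) :=
    { toFun := fun L => ContinuousLinearMap.adjoint L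
      map_add' := fun L M => map_add _ L M
      map_smul' := fun c L => by
        rw [LinearIsometryEquiv.map_smulₛₗ]
        rfl }
  have h1 : ContDiff ℝ ∞ (LinearMap.toContinuousLinearMap ad) := ContinuousLinearMap.contDiff _
  exact h1.contDiffAt.comp x hJ

theorem case_one_M_smooth {X : Type} [NormedAddCommGroup X] [NormedSpace ℝ X]
    (K : Submodule ℝ F) (L : X → F →L[ℝ] F) (x : X) (hL : ContDiffAt ℝ ∞ L x) :
    ContDiffAt ℝ ∞ (fun u => case_oneM K (L u)) x := by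
  unfold case_oneM
  exact contDiffAt_const.add (contDiffAt_const.clm_comp hL)

theorem case_one_J_smooth {X : Type} [NormedAddCommGroup X] [NormedSpace ℝ X]
    (K : Submodule ℝ F) (L : X → F →L[ℝ] F) (x : X) (hL : ContDiffAt ℝ ∞ L x)
    (hinv : (case_oneM K (L x)).IsInvertible) :
    ContDiffAt ℝ ∞ (fun u => case_oneJ K (L u)) x := by
  unfold case_oneJ
  have h0 : ContDiffAt ℝ ∞ (ContinuousLinearMap.inverse : (F →L[ℝ] F) → (F →L[ℝ] F))
      (case_oneM K (L x)) := ContinuousLinearMap.IsInvertible.contDiffAt_map_inverse hinv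
  have h2 := ContDiffAt.comp (f := fun u => case_oneM K (L u)) x h0 (case_one_M_smooth K L x hL)
  have h1 : ContDiffAt ℝ ∞ (fun u => ContinuousLinearMap.inverse (case_oneM K (L u))) x := h2
  exact h1.clm_comp contDiffAt_const

theorem case_one_inv_near {X : Type} [NormedAddCommGroup X] [NormedSpace ℝ X]
    (K : Submodule ℝ F) (L : X → F →L[ℝ] F) (x : X) (hL : ContDiffAt ℝ ∞ L x)
    (hinv : (case_oneM K (L x)).IsInvertible) :
    ∀ᶠ u in 𝓝 x, (case_oneM K (L u)).IsInvertible := by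
  have h1 : ContinuousAt (fun u => case_oneM K (L u)) x :=
    (case_one_M_smooth K L x hL).continuousAt
  have h2 : ∀ᶠ M in 𝓝 (case_oneM K (L x)), M.IsInvertible := by
    obtain ⟨e, he⟩ := hinv
    rw [← he]
    filter_upwards [ContinuousLinearEquiv.nhds e] with M hM
    obtain ⟨f, hf⟩ := hM
    exact ⟨f, hf⟩
  exact h1.eventually h2

end

section
variable {F W : Type} [NormedAddCommGroup F] [InnerProductSpace ℝ F] [FiniteDimensional ℝ F]
  [NormedAddCommGroup W] [InnerProductSpace ℝ W] [FiniteDimensional ℝ W]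

theorem case_one_Gpos (g : F → W) (a : F) (u : F) (hu : u ≠ 0) : 0 < ⟪Gop g a u, u⟫_ℝ := by
  have h1 : Gop g a u = u + ContinuousLinearMap.adjoint (fderiv ℝ g a) (fderiv ℝ g a u) := rfl
  rw [h1, inner_add_left, ContinuousLinearMap.adjoint_inner_left]
  have h2 : 0 < ⟪u, u⟫_ℝ := real_inner_self_pos.2 hu
  have h3 : 0 ≤ ⟪fderiv ℝ g a u, fderiv ℝ g a u⟫_ℝ := real_inner_self_nonneg
  linarith

theorem case_one_split (g : F → W) (a : F) (b : W) (ε r : ℝ) :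
    Lop g a b ε = Lop g a b r + (ε - r) • Gop g a := by
  unfold Lop
  module

theorem case_one_rho (g : F → W) (O : Set F) (hO : IsOpen O) (hg : ContDiffOn ℝ ∞ g O)
    (a₀ : F) (ha : a₀ ∈ O) (b₀ : W) (ε₀ : ℝ)
    (hker : Module.finrank ℝ (LinearMap.ker (Lop g a₀ b₀ ε₀ : F →ₗ[ℝ] F)) = 2)
    (hcase : ∀ δ > 0, ∀ᶠ z in 𝓝 ((a₀, b₀) : F × W), ∃ ε, |ε - ε₀| < δ ∧
      Module.finrank ℝ (LinearMap.ker (Lop g z.1 z.2 ε : F →ₗ[ℝ] F)) = 2) :
    ∃ ρ : F × W → ℝ, ρ (a₀, b₀) = ε₀ ∧ ContDiffAt ℝ ∞ ρ (a₀, b₀) ∧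
      ∀ᶠ z in 𝓝 ((a₀, b₀) : F × W),
        Module.finrank ℝ (LinearMap.ker (Lop g z.1 z.2 (ρ z) : F →ₗ[ℝ] F)) = 2 := by
  have hΩ : IsOpen {p : (F × W) × ℝ | p.1.1 ∈ O} :=
    hO.preimage (continuous_fst.comp continuous_fst)
  have hL := lop_smooth g O hO hg
  have hmem : (((a₀, b₀) : F × W), ε₀) ∈ {p : (F × W) × ℝ | p.1.1 ∈ O} := ha
  have hder : fderiv ℝ (fun p : (F × W) × ℝ => Lop g p.1.1 p.1.2 p.2) ((a₀, b₀), ε₀) (0, 1) =
      Gop g a₀ := by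
    have h1 : HasFDerivAt (fun p : (F × W) × ℝ => Lop g p.1.1 p.1.2 p.2)
        (fderiv ℝ (fun p : (F × W) × ℝ => Lop g p.1.1 p.1.2 p.2) ((a₀, b₀), ε₀)) ((a₀, b₀), ε₀) :=
      ((hL.contDiffAt (hΩ.mem_nhds hmem)).differentiableAt (by simp)).hasFDerivAt
    have h2 : HasDerivAt (fun s : ℝ => (((a₀, b₀) : F × W), s)) ((0 : F × W), (1 : ℝ)) ε₀ :=
      (hasDerivAt_const ε₀ ((a₀, b₀) : F × W)).prodMk (hasDerivAt_id ε₀)
    have h3 := HasFDerivAt.comp_hasDerivAt ε₀ h1 h2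
    have h4 : HasDerivAt (fun s : ℝ => s • Gop g a₀ - Hop g a₀ b₀) (Gop g a₀) ε₀ := by
      have := ((hasDerivAt_id ε₀).smul_const (Gop g a₀)).sub_const (Hop g a₀ b₀)
      simpa using this
    exact h3.unique h4
  obtain ⟨N, δ, ρ, hNo, hzN, hδ, hρ0, hρs, -, hN, -⟩ := lh (Z := F × W) (F := F)
    (fun p => Lop g p.1.1 p.1.2 p.2) {p : (F × W) × ℝ | p.1.1 ∈ O} hΩ hL
    (fun p hp u v => lop_symm g O hO hg p.1.1 hp p.1.2 p.2 u v) (a₀, b₀) ε₀ hmem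
    (fun u hu => by rw [hder]; exact case_one_Gpos g a₀ u hu) 2 (by norm_num) hker
  refine ⟨ρ, hρ0, hρs.contDiffAt (hNo.mem_nhds hzN), ?_⟩
  filter_upwards [hcase δ hδ, hNo.mem_nhds hzN] with z hz hzN'
  obtain ⟨ε, hε, hf⟩ := hz
  have h1 := (hN z hzN' ε hε).2.2 hf
  rw [← h1]
  exact hf


theorem case_one_adj_inner {K : Type} [NormedAddCommGroup K] [InnerProductSpace ℝ K]
    [FiniteDimensional ℝ K] (J L : K →L[ℝ] F) (k k' : K) :
    ⟪((ContinuousLinearMap.adjoint J).comp L) k, k'⟫_ℝ = ⟪L k, J k'⟫_ℝ := by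
  rw [ContinuousLinearMap.comp_apply, ContinuousLinearMap.adjoint_inner_left]

theorem case_one_abs (g : F → W) (O : Set F) (hO : IsOpen O) (hg : ContDiffOn ℝ ∞ g O)
    (a₀ : F) (haO : a₀ ∈ O) (β : W) (ε₀ : ℝ) (f : F → ℝ)
    (hf : ∀ a ∈ O, ∀ v w : F, fderiv ℝ (fderiv ℝ f) a v w = -⟪Lop g a (β - ε₀ • g a) ε₀ v, w⟫_ℝ)
    (hker : Module.finrank ℝ (LinearMap.ker (Lop g a₀ (β - ε₀ • g a₀) ε₀ : F →ₗ[ℝ] F)) = 2)
    (hcase : ∀ δ > 0, ∀ᶠ z in 𝓝 ((a₀, β - ε₀ • g a₀) : F × W), ∃ ε, |ε - ε₀| < δ ∧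
      Module.finrank ℝ (LinearMap.ker (Lop g z.1 z.2 ε : F →ₗ[ℝ] F)) = 2)
    (K : Submodule ℝ F) (hK : Module.finrank ℝ K = 2) (u₀ : K) (a : K → F)
    (has : ContDiffAt ℝ ∞ a u₀) (ha0 : a u₀ = a₀) (Jt : K → K →L[ℝ] F)
    (hJts : ContDiffAt ℝ ∞ Jt u₀)
    (hinv : ∀ v ∈ Kᗮ, (∀ w ∈ Kᗮ, fderiv ℝ (fderiv ℝ f) a₀ v w = 0) → v = 0)
    (hJtp : ∀ᶠ u in 𝓝 u₀, ∀ k : K, Jt u k - (k : F) ∈ Kᗮ)
    (hperp : ∀ᶠ u in 𝓝 u₀, ∀ k : K, ∀ w ∈ Kᗮ, fderiv ℝ (fderiv ℝ f) (a u) (Jt u k) w = 0)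
    (h : K → ℝ) (hh : ContDiffAt ℝ ∞ h u₀)
    (hdd : ∀ᶠ u in 𝓝 u₀, ∀ k k' : K, fderiv ℝ (fderiv ℝ h) u k k' =
      fderiv ℝ (fderiv ℝ f) (a u) (Jt u k) (Jt u k'))
    (hd : fderiv ℝ h u₀ = 0) :
    ∀ᶠ u in 𝓝 u₀, fderiv ℝ h u = 0 := by
  obtain ⟨ρ, hρ0, hρs, hρk⟩ := case_one_rho g O hO hg a₀ haO (β - ε₀ • g a₀) ε₀ hker hcase
  have haOn : ∀ᶠ u in 𝓝 u₀, a u ∈ O := by
    refine has.continuousAt.eventually (hO.mem_nhds ?_)
    rw [ha0]
    exact haO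
  have hgs : ContDiffAt ℝ ∞ g (a u₀) := by
    rw [ha0]
    exact hg.contDiffAt (hO.mem_nhds haO)
  have hbs : ContDiffAt ℝ ∞ (fun u => β - ε₀ • g (a u)) u₀ := by
    have h1 : ContDiffAt ℝ ∞ (fun u => g (a u)) u₀ := ContDiffAt.comp (f := a) u₀ hgs has
    exact contDiffAt_const.sub (h1.const_smul ε₀)
  have hz0 : (a u₀, β - ε₀ • g (a u₀)) = (a₀, β - ε₀ • g a₀) := by rw [ha0]
  have hzs : ContDiffAt ℝ ∞ (fun u => (a u, β - ε₀ • g (a u))) u₀ := has.prodMk hbs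
  have hrs : ContDiffAt ℝ ∞ (fun u => ρ (a u, β - ε₀ • g (a u))) u₀ := by
    have h1 : ContDiffAt ℝ ∞ ρ (a u₀, β - ε₀ • g (a u₀)) := by rw [hz0]; exact hρs
    exact ContDiffAt.comp (f := fun u => (a u, β - ε₀ • g (a u))) u₀ h1 hzs
  obtain ⟨r, hr⟩ : ∃ r : K → ℝ, r = fun u => ρ (a u, β - ε₀ • g (a u)) := ⟨_, rfl⟩
  have hru : ∀ u, r u = ρ (a u, β - ε₀ • g (a u)) := fun u => by rw [hr]
  rw [← hr] at hrs
  have hr0 : r u₀ = ε₀ := by rw [hru, hz0, hρ0]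
  have hLs : ∀ (y : F × W) (s : ℝ), y.1 ∈ O →
      ContDiffAt ℝ ∞ (fun p : (F × W) × ℝ => Lop g p.1.1 p.1.2 p.2) (y, s) := by
    intro y s hy
    refine (lop_smooth g O hO hg).contDiffAt ?_
    exact (hO.preimage (continuous_fst.comp continuous_fst)).mem_nhds hy
  have ha0O : a u₀ ∈ O := by rw [ha0]; exact haO
  have hL0s : ContDiffAt ℝ ∞ (fun u => Lop g (a u) (β - ε₀ • g (a u)) (r u)) u₀ :=
    ContDiffAt.comp (g := fun p : (F × W) × ℝ => Lop g p.1.1 p.1.2 p.2)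
      (f := fun u => ((a u, β - ε₀ • g (a u)), r u)) u₀ (hLs (a u₀, β - ε₀ • g (a u₀)) (r u₀) ha0O)
        (hzs.prodMk hrs)
  obtain ⟨L0, hL0⟩ : ∃ L0 : K → F →L[ℝ] F, L0 = fun u => Lop g (a u) (β - ε₀ • g (a u)) (r u) :=
    ⟨_, rfl⟩
  have hL0u : ∀ u, L0 u = Lop g (a u) (β - ε₀ • g (a u)) (r u) := fun u => by rw [hL0]
  rw [← hL0] at hL0s
  obtain ⟨G, hG⟩ : ∃ G : K → F →L[ℝ] F, G = fun u => Gop g (a u) := ⟨_, rfl⟩
  have hGu : ∀ u, G u = Gop g (a u) := fun u => by rw [hG]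
  have hGs : ContDiffAt ℝ ∞ G u₀ := by
    have h1 : ContDiffAt ℝ ∞ (fun u => Lop g (a u) (0 : W) 1) u₀ :=
      ContDiffAt.comp (g := fun p : (F × W) × ℝ => Lop g p.1.1 p.1.2 p.2)
        (f := fun u => ((a u, (0 : W)), (1 : ℝ))) u₀ (hLs (a u₀, 0) 1 ha0O)
        ((has.prodMk contDiffAt_const).prodMk contDiffAt_const)
    have h2 : ContDiffAt ℝ ∞ (fun u => Lop g (a u) (0 : W) 0) u₀ :=
      ContDiffAt.comp (g := fun p : (F × W) × ℝ => Lop g p.1.1 p.1.2 p.2)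
        (f := fun u => ((a u, (0 : W)), (0 : ℝ))) u₀ (hLs (a u₀, 0) 0 ha0O)
        ((has.prodMk contDiffAt_const).prodMk contDiffAt_const)
    have h3 : G = fun u => Lop g (a u) (0 : W) 1 - Lop g (a u) (0 : W) 0 := by
      funext u
      rw [hG]
      simp only [Lop]
      module
    rw [h3]
    exact h1.sub h2
  have hL00 : L0 u₀ = Lop g a₀ (β - ε₀ • g a₀) ε₀ := by
    rw [hL0u, hr0, ha0]
  have hinv0 : (case_oneM K (L0 u₀)).IsInvertible := by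
    apply case_one_inv
    intro v hv hvw
    apply hinv v hv
    intro w hw
    rw [hf a₀ haO v w, ← hL00, hvw w hw, neg_zero]
  have hinvn := case_one_inv_near K L0 u₀ hL0s hinv0
  have hJ0s : ContDiffAt ℝ ∞ (fun u => case_oneJ K (L0 u)) u₀ :=
    case_one_J_smooth K L0 u₀ hL0s hinv0
  have hkn : ∀ᶠ u in 𝓝 u₀,
      Module.finrank ℝ (LinearMap.ker (L0 u : F →ₗ[ℝ] F)) = 2 := by
    rw [← hz0] at hρk
    filter_upwards [hzs.continuousAt.eventually hρk] with u hu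
    rw [hL0u, hru]
    exact hu
  obtain ⟨J0, hJ0⟩ : ∃ J0 : K → K →L[ℝ] F, J0 = fun u => case_oneJ K (L0 u) := ⟨_, rfl⟩
  have hJ0u : ∀ u, J0 u = case_oneJ K (L0 u) := fun u => by rw [hJ0]
  rw [← hJ0] at hJ0s
  obtain ⟨Γ, hΓ⟩ : ∃ Γ : K → K →L[ℝ] K, Γ = fun u =>
    (ContinuousLinearMap.adjoint (J0 u)).comp ((G u).comp (Jt u)) := ⟨_, rfl⟩
  have hΓs : ContDiffAt ℝ ∞ Γ u₀ := by
    rw [hΓ]
    exact (case_one_adj J0 u₀ hJ0s).clm_comp (hGs.clm_comp hJts)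
  have hΓk : ∀ u k k', ⟪Γ u k, k'⟫_ℝ = ⟪G u (Jt u k), J0 u k'⟫_ℝ := by
    intro u k k'
    rw [hΓ]
    exact case_one_adj_inner (J0 u) ((G u).comp (Jt u)) k k'
  have hD : ∀ᶠ u in 𝓝 u₀, ∀ k k' : K, fderiv ℝ (fderiv ℝ h) u k k' =
      (r u - ε₀) * ⟪Γ u k, k'⟫_ℝ := by
    filter_upwards [haOn, hkn, hinvn, hJtp, hperp, hdd] with u hau huk hui hujp hup hudd
    intro k k'
    have h2 : J0 u k' - (k' : F) ∈ Kᗮ := by
      rw [hJ0u]
      exact ((case_one_J_iff K (L0 u) hui k' _).1 rfl).1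
    have h3 : Jt u k' - J0 u k' ∈ Kᗮ := by
      have := Kᗮ.sub_mem (hujp k') h2
      simpa using this
    have h4 : fderiv ℝ (fderiv ℝ f) (a u) (Jt u k) (Jt u k') =
        fderiv ℝ (fderiv ℝ f) (a u) (Jt u k) (J0 u k') := by
      have h5 := hup k _ h3
      rw [map_sub] at h5
      linarith
    have h6 : L0 u (J0 u k') = 0 := by
      rw [hJ0u]
      exact case_one_ker K (L0 u) hui hK huk k'
    have h7 : ⟪L0 u (Jt u k), J0 u k'⟫_ℝ = 0 := by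
      have h8 : ⟪L0 u (Jt u k), J0 u k'⟫_ℝ = ⟪Jt u k, L0 u (J0 u k')⟫_ℝ := by
        rw [hL0u]
        exact lop_symm g O hO hg (a u) hau (β - ε₀ • g (a u)) (r u) _ _
      rw [h8, h6, inner_zero_right]
    rw [hudd, h4, hf (a u) hau, hΓk, case_one_split g (a u) (β - ε₀ • g (a u)) ε₀ (r u),
      ← hL0u, ← hGu]
    have h9 : (L0 u + (ε₀ - r u) • G u) (Jt u k) =
        L0 u (Jt u k) + (ε₀ - r u) • G u (Jt u k) := rfl
    rw [h9, inner_add_left, h7, real_inner_smul_left]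
    ring
  have hΓp : ∀ k : K, k ≠ 0 → 0 < ⟪Γ u₀ k, k⟫_ℝ := by
    intro k hk
    have hjp := hJtp.self_of_nhds k
    have h1 : J0 u₀ k = Jt u₀ k := by
      rw [hJ0u, case_one_J_iff K (L0 u₀) hinv0]
      refine ⟨hjp, ?_⟩
      intro w hw
      have h2 := hperp.self_of_nhds k w hw
      rw [hf (a u₀) ha0O, ha0, ← hL00] at h2
      linarith
    rw [hΓk, ← h1, hGu]
    apply case_one_Gpos
    intro h0
    have h2 := hjp
    rw [← h1, h0, zero_sub] at h2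
    have h3 : (k : F) ∈ Kᗮ := by
      have := Kᗮ.neg_mem h2
      simpa using this
    have h4 : ⟪(k : F), (k : F)⟫_ℝ = 0 := (Submodule.mem_orthogonal K _).1 h3 _ k.2
    have h5 : (k : F) = 0 := inner_self_eq_zero.1 h4
    exact hk (Subtype.ext h5)
  have hτs : ContDiffAt ℝ ∞ (fun u => r u - ε₀) u₀ := hrs.sub contDiffAt_const
  have h0 : fderiv ℝ (fderiv ℝ h) u₀ = 0 := by
    have h1 := hD.self_of_nhds
    ext k k'
    rw [h1 k k', hr0]
    simp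
  exact conformal_flat (by rw [hK]) h u₀ hh (fun u => r u - ε₀) hτs Γ hΓs hΓp hD h0 hd

omit [FiniteDimensional ℝ F] in
theorem case_one_Jt {K P : Type} [NormedAddCommGroup K] [NormedSpace ℝ K]
    [NormedAddCommGroup P] [NormedSpace ℝ P] (A : K × P → F) (u₀ : K) (p₀ : P)
    (hA : ContDiffAt ℝ ∞ A (u₀, p₀)) :
    ContDiffAt ℝ ∞ (fun u => A (u, p₀)) u₀ ∧
    ContDiffAt ℝ ∞ (fun u => (fderiv ℝ A (u, p₀)).comp (ContinuousLinearMap.inl ℝ K P)) u₀ := by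
  have hinl : ContDiffAt ℝ ∞ (fun u : K => (u, p₀)) u₀ := contDiffAt_id.prodMk contDiffAt_const
  refine ⟨ContDiffAt.comp (f := fun u : K => (u, p₀)) u₀ hA hinl, ?_⟩
  have h1 : ContDiffAt ℝ ∞ (fderiv ℝ A) (u₀, p₀) := hA.fderiv_right (m := ∞) (by simp)
  have h2 : ContDiffAt ℝ ∞ (fun u : K => fderiv ℝ A (u, p₀)) u₀ :=
    ContDiffAt.comp (f := fun u : K => (u, p₀)) u₀ h1 hinl
  exact h2.clm_comp contDiffAt_const

omit [FiniteDimensional ℝ F] in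
theorem case_one_perp {K P : Type} [NormedAddCommGroup K] [NormedSpace ℝ K]
    [NormedAddCommGroup P] [NormedSpace ℝ P] (A : K × P → F) (u₀ : K) (p₀ : P)
    (hA : ContDiffAt ℝ ∞ A (u₀, p₀)) (f : F → ℝ) (hf : ContDiffAt ℝ ∞ f (A (u₀, p₀))) (w : F)
    (hz : ∀ᶠ u in 𝓝 u₀, fderiv ℝ f (A (u, p₀)) w = 0) (k : K) :
    fderiv ℝ (fderiv ℝ f) (A (u₀, p₀)) (fderiv ℝ A (u₀, p₀) (k, 0)) w = 0 := by
  have h1 : HasFDerivAt (fderiv ℝ f)
      (fderiv ℝ (fderiv ℝ f) (A (u₀, p₀))) (A (u₀, p₀)) :=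
    ((hf.fderiv_right (m := ∞) (by simp)).differentiableAt (by simp)).hasFDerivAt
  have h2 : HasFDerivAt A (fderiv ℝ A (u₀, p₀)) (u₀, p₀) :=
    (hA.differentiableAt (by simp)).hasFDerivAt
  have h3 : HasFDerivAt (fun u : K => (u, p₀)) (ContinuousLinearMap.inl ℝ K P) u₀ :=
    hasFDerivAt_prodMk_left u₀ p₀
  have h4 : HasFDerivAt (fun u : K => A (u, p₀))
      ((fderiv ℝ A (u₀, p₀)).comp (ContinuousLinearMap.inl ℝ K P)) u₀ :=
    HasFDerivAt.comp (g := A) (f := fun u : K => (u, p₀)) u₀ h2 h3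
  have h5 : HasFDerivAt (fun u : K => fderiv ℝ f (A (u, p₀)))
      ((fderiv ℝ (fderiv ℝ f) (A (u₀, p₀))).comp
        ((fderiv ℝ A (u₀, p₀)).comp (ContinuousLinearMap.inl ℝ K P))) u₀ :=
    HasFDerivAt.comp (g := fderiv ℝ f) (f := fun u : K => A (u, p₀)) u₀ h1 h4
  have h6 : HasFDerivAt (fun u : K => fderiv ℝ f (A (u, p₀)) w)
      ((ContinuousLinearMap.apply ℝ ℝ w).comp
      ((fderiv ℝ (fderiv ℝ f) (A (u₀, p₀))).comp
        ((fderiv ℝ A (u₀, p₀)).comp (ContinuousLinearMap.inl ℝ K P)))) u₀ :=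
    HasFDerivAt.comp (g := ContinuousLinearMap.apply ℝ ℝ w)
      (f := fun u : K => fderiv ℝ f (A (u, p₀))) u₀
      (ContinuousLinearMap.hasFDerivAt _) h5
  have h7 : HasFDerivAt (fun u : K => fderiv ℝ f (A (u, p₀)) w) (0 : K →L[ℝ] ℝ) u₀ :=
    (hasFDerivAt_const (0 : ℝ) u₀).congr_of_eventuallyEq hz
  have h9 := h6.unique h7
  have h10 := congrArg (fun L : K →L[ℝ] ℝ => L k) h9
  simpa using h10

end

section
variable {n m : ℕ} {M : Set (Eu n)} {T : Submodule ℝ (Eu n)} {g : T → Tᗮ} {O : Set T} {V : Set (Eu n)}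

theorem case_one_cmap_smooth (hg : ContDiffOn ℝ ∞ g O) : ContDiffOn ℝ ∞ (cmap T g) O := by
  have h1 : ContDiffOn ℝ ∞ (fun a : T => (a : Eu n)) O := T.subtypeL.contDiff.contDiffOn
  have h2 : ContDiffOn ℝ ∞ (fun a : T => (g a : Eu n)) O :=
    Tᗮ.subtypeL.contDiff.comp_contDiffOn hg
  exact h1.add h2

theorem case_one_fam_smooth (p : Eu n × ℝ) : ContDiff ℝ ∞ (fam p) := by
  unfold fam
  exact (contDiff_const.inner ℝ contDiff_id).sub
    ((contDiff_const.mul (contDiff_norm_sq ℝ)).div_const 2)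

/-- TARGET -/
theorem case_one (hc : IsChart ∞ m M T g O V) (x₀ : Eu n) (hx : x₀ ∈ M) (hxV : x₀ ∈ V)
    (p₀ : Eu n × ℝ) (hnull : Module.finrank ℝ (nullK T g x₀ p₀) = 2)
    (hcr : x₀ ∈ critSet M (fam p₀))
    (hcase : ∀ δ > 0, ∀ᶠ z in 𝓝 ((T.orthogonalProjectionOnto x₀,
        Tᗮ.orthogonalProjectionOnto (p₀.1 - p₀.2 • x₀)) : T × Tᗮ), ∃ ε, |ε - p₀.2| < δ ∧
        Module.finrank ℝ (LinearMap.ker (Lop g z.1 z.2 ε : T →ₗ[ℝ] T)) = 2)
    {a₁ : T} {p₁ : Eu n × ℝ} {K : Submodule ℝ T} (hK : Module.finrank ℝ K = 2)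
    {U : Set (K × (Eu n × ℝ))} {W : Set (T × (Eu n × ℝ))} {A : K × (Eu n × ℝ) → T}
    (hR : Red T g O V a₁ p₁ K U W A) (u₀ : K) (hu : (u₀, p₀) ∈ U)
    (hAu : A (u₀, p₀) = T.orthogonalProjectionOnto x₀) :
    ∀ᶠ u in 𝓝 u₀, fderiv ℝ (redHp T g K A p₀) u = 0 := by
  obtain ⟨haO, hxg⟩ := hc.mem x₀ hxV
  have hQ : Tᗮ.orthogonalProjectionOnto x₀ = g (T.orthogonalProjectionOnto x₀) := hxg.1 hx
  have hO := hc.openO
  have hg := hc.smooth
  have hb0 : Tᗮ.orthogonalProjectionOnto (p₀.1 - p₀.2 • x₀) =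
      Tᗮ.orthogonalProjectionOnto p₀.1 - p₀.2 • g (T.orthogonalProjectionOnto x₀) := by
    rw [map_sub, map_smul, hQ]
  have hAs : ContDiffAt ℝ ∞ A (u₀, p₀) := hR.smooth.contDiffAt (hR.openU.mem_nhds hu)
  obtain ⟨has, hJts⟩ := case_one_Jt A u₀ p₀ hAs
  have hinl : ContinuousAt (fun u : K => (u, p₀)) u₀ := by fun_prop
  have hUn : ∀ᶠ u in 𝓝 u₀, (u, p₀) ∈ U := hinl.eventually (hR.openU.mem_nhds hu)
  have hrf := red_facts hc hR
  unfold nullK at hnull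
  rw [hb0] at hnull hcase
  refine case_one_abs g O hO hg (T.orthogonalProjectionOnto x₀) haO
    (Tᗮ.orthogonalProjectionOnto p₀.1) p₀.2 (fam p₀ ∘ cmap T g)
    (fun a ha v w => fam_d2 g O hO hg a ha p₀ v w) hnull hcase K hK u₀ (fun u => A (u, p₀)) has hAu
    _ hJts ?_ ?_ ?_ (redHp T g K A p₀) ?_ ?_ ?_
  · intro v hv hw
    refine hR.inv (u₀, p₀) hu v hv ?_
    rw [hAu]
    exact hw
  · filter_upwards [hUn] with u huU k
    exact (hrf (u, p₀) huU).2.2.2.2.1 k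
  · filter_upwards [hUn, hUn.eventually_nhds] with u huU huU2 k w hw
    refine case_one_perp A u p₀ (hR.smooth.contDiffAt (hR.openU.mem_nhds huU)) _ ?_ w ?_ k
    · exact ((case_one_fam_smooth p₀).comp_contDiffOn (case_one_cmap_smooth hg)).contDiffAt
        (hO.mem_nhds (hR.dom _ huU).2.1)
    · filter_upwards [huU2] with u' hu'
      exact hR.perp (u', p₀) hu' w hw
  · have h1 : ContDiffAt ℝ ∞ (redH T g K A) (u₀, p₀) :=
      (hrf (u₀, p₀) hu).1.contDiffAt (hR.openU.mem_nhds hu)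
    exact ContDiffAt.comp (g := redH T g K A) (f := fun u : K => (u, p₀)) u₀ h1
      (contDiffAt_id.prodMk contDiffAt_const)
  · filter_upwards [hUn] with u huU k k'
    exact (hrf (u, p₀) huU).2.2.2.1 k k'
  · refine (hrf (u₀, p₀) hu).2.2.2.2.2.2.1 ?_
    have h2 : cmap T g (A (u₀, p₀)) = x₀ := by
      rw [hAu]
      unfold cmap
      rw [← hQ]
      exact Submodule.starProjection_add_starProjection_orthogonal x₀
    rw [h2]
    exact hcr

end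

end Pool.Agent.H469
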