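import Pool.Agent.Helper469_Dupin.Chart

set_option autoImplicit false

open Set Filter Topology MeasureTheory
open scoped ContDiff InnerProductSpace

namespace Pool.Agent.H469


/-! PLAIN PROOF OF THE TARGET(S)

ffun g q a = <q1,a> + <q21, g a> - ε (|a|² + |g a|²)/2 with ε = q.2.2.  Its derivative in the direction u is
<q1 - ε a, u> + <q21 - ε g a, Dg(a)u> = <q1 - ε a + nrm g a (q21 - ε g a), u>  (nrm g a b = Dg(a)† b).
Second: on the open set O the first derivative is the above; differentiate the vector q1 - ε a + nrm g a (q21 - ε g a) in the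
direction u: -ε u + Hop g a b u + nrm g a (-ε Dg(a) u) with b = q21 - ε g a, which is -(ε (u + Dg†Dg u) - Hop u) = -Lop g a b ε u.
(nrm g a b is linear in b and smooth in a on O; Hop g a b is by definition the derivative of nrm g · b.)
-/

section
variable {F W : Type} [NormedAddCommGroup F] [InnerProductSpace ℝ F] [FiniteDimensional ℝ F]
  [NormedAddCommGroup W] [InnerProductSpace ℝ W] [FiniteDimensional ℝ W]

theorem ffun_d1_hasFDerivAt (g : F → W) (q : F × W × ℝ) (a : F)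
    (hgd : HasFDerivAt g (fderiv ℝ g a) a) :
    HasFDerivAt (ffun g q) (innerSL ℝ q.1 + (innerSL ℝ q.2.1).comp (fderiv ℝ g a) -
      q.2.2 • (innerSL ℝ a + (innerSL ℝ (g a)).comp (fderiv ℝ g a))) a := by
  have h1 : HasFDerivAt (fun x : F => ⟪q.1, x⟫_ℝ) (innerSL ℝ q.1) a := (innerSL ℝ q.1).hasFDerivAt
  have h2 : HasFDerivAt (fun x : F => ⟪q.2.1, g x⟫_ℝ) ((innerSL ℝ q.2.1).comp (fderiv ℝ g a)) a :=
    (innerSL ℝ q.2.1).hasFDerivAt.comp a hgd
  have h3 : HasFDerivAt (fun x : F => ‖x‖ ^ 2) (2 • (innerSL ℝ a).comp (ContinuousLinearMap.id ℝ F)) a :=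
    (hasFDerivAt_id a).norm_sq
  have h4 : HasFDerivAt (fun x : F => ‖g x‖ ^ 2) (2 • (innerSL ℝ (g a)).comp (fderiv ℝ g a)) a :=
    hgd.norm_sq
  have h5 := (h1.add h2).sub ((h3.add h4).const_mul (q.2.2 / 2))
  refine (h5.congr_of_eventuallyEq ?_).congr_fderiv ?_
  · refine Filter.Eventually.of_forall fun x => ?_
    simp only [ffun, Pi.add_apply, Pi.sub_apply]
    ring
  · ext u
    simp only [ContinuousLinearMap.add_apply, ContinuousLinearMap.sub_apply, ContinuousLinearMap.smul_apply,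
      ContinuousLinearMap.comp_apply, innerSL_apply_apply, ContinuousLinearMap.id_apply, nsmul_eq_mul, smul_eq_mul,
      Nat.cast_ofNat]
    ring

/-- the adjoint as a real linear map -/
noncomputable def ffun_d2_adj : (F →L[ℝ] W) →L[ℝ] (W →L[ℝ] F) :=
  LinearMap.toContinuousLinearMap
    { toFun := fun A => ContinuousLinearMap.adjoint A
      map_add' := fun A B => map_add _ A B
      map_smul' := fun c A => by
        rw [map_smulₛₗ]
        simp }

end

section
variable {F W : Type} [NormedAddCommGroup F] [InnerProductSpace ℝ F] [FiniteDimensional ℝ F]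
  [NormedAddCommGroup W] [InnerProductSpace ℝ W] [FiniteDimensional ℝ W]

/-- TARGET -/
theorem ffun_d1 (g : F → W) (O : Set F) (hO : IsOpen O) (hg : ContDiffOn ℝ ∞ g O) (q : F × W × ℝ) (a : F)
    (ha : a ∈ O) (u : F) :
    fderiv ℝ (ffun g q) a u = ⟪q.1 - q.2.2 • a + nrm g a (q.2.1 - q.2.2 • g a), u⟫_ℝ := by
  have hgd : HasFDerivAt g (fderiv ℝ g a) a :=
    ((hg.contDiffAt (hO.mem_nhds ha)).differentiableAt (by simp)).hasFDerivAt
  rw [(ffun_d1_hasFDerivAt g q a hgd).fderiv]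
  simp only [nrm, ContinuousLinearMap.add_apply, ContinuousLinearMap.sub_apply, ContinuousLinearMap.smul_apply,
    ContinuousLinearMap.comp_apply, innerSL_apply_apply, inner_add_left, inner_sub_left, inner_smul_left,
    ContinuousLinearMap.adjoint_inner_left, smul_eq_mul, RCLike.conj_to_real]
  ring

/-- TARGET -/
theorem ffun_d2 (g : F → W) (O : Set F) (hO : IsOpen O) (hg : ContDiffOn ℝ ∞ g O) (q : F × W × ℝ) (a : F)
    (ha : a ∈ O) (u v : F) :
    fderiv ℝ (fderiv ℝ (ffun g q)) a u v = -⟪Lop g a (q.2.1 - q.2.2 • g a) q.2.2 u, v⟫_ℝ := by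
  have hca : ContDiffAt ℝ ∞ g a := hg.contDiffAt (hO.mem_nhds ha)
  have hgd : HasFDerivAt g (fderiv ℝ g a) a := (hca.differentiableAt (by simp)).hasFDerivAt
  have hdd : DifferentiableAt ℝ (fderiv ℝ g) a := by
    have h1 : ContDiffAt ℝ 1 (fderiv ℝ g) a := hca.fderiv_right (by norm_cast)
    exact h1.differentiableAt (by simp)
  have hA : HasFDerivAt (fun x => ffun_d2_adj (F := F) (W := W) (fderiv ℝ g x))
      ((ffun_d2_adj (F := F) (W := W)).comp (fderiv ℝ (fderiv ℝ g) a)) a :=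
    (ffun_d2_adj (F := F) (W := W)).hasFDerivAt.comp a hdd.hasFDerivAt
  have hH : ∀ b : W, Hop g a b =
      ((ffun_d2_adj (F := F) (W := W)).comp (fderiv ℝ (fderiv ℝ g) a)).flip b := by
    intro b
    have h2 := hA.clm_apply (hasFDerivAt_const b a)
    have h3 : (fun x => (ffun_d2_adj (F := F) (W := W) (fderiv ℝ g x)) b) = fun x => nrm g x b := by
      funext x
      rfl
    rw [h3] at h2
    rw [Hop, h2.fderiv]
    ext w
    simp
  have hc : HasFDerivAt (fun x => q.2.1 - q.2.2 • g x) (-(q.2.2 • fderiv ℝ g a)) a := by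
    exact (hgd.const_smul q.2.2).const_sub q.2.1
  have hN := hA.clm_apply hc
  have hV : HasFDerivAt (fun x => q.1 - q.2.2 • x) (-(q.2.2 • ContinuousLinearMap.id ℝ F)) a :=
    ((hasFDerivAt_id a).const_smul q.2.2).const_sub q.1
  have hT := (innerSL ℝ : F →L[ℝ] F →L[ℝ] ℝ).hasFDerivAt.comp a (hV.add hN)
  have heq : fderiv ℝ (ffun g q) =ᶠ[𝓝 a]
      ((innerSL ℝ : F →L[ℝ] F →L[ℝ] ℝ) ∘ fun x => q.1 - q.2.2 • x +
        (ffun_d2_adj (F := F) (W := W) (fderiv ℝ g x)) (q.2.1 - q.2.2 • g x)) := by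
    filter_upwards [hO.mem_nhds ha] with x hx
    ext w
    rw [ffun_d1 g O hO hg q x hx w]
    rfl
  rw [heq.fderiv_eq]
  have hT' := hT.fderiv
  have hfun : ((innerSL ℝ : F →L[ℝ] F →L[ℝ] ℝ) ∘ fun x => q.1 - q.2.2 • x +
        (ffun_d2_adj (F := F) (W := W) (fderiv ℝ g x)) (q.2.1 - q.2.2 • g x)) =
      ((innerSL ℝ : F →L[ℝ] F →L[ℝ] ℝ) ∘ ((fun x => q.1 - q.2.2 • x) + fun x =>
        (ffun_d2_adj (F := F) (W := W) (fderiv ℝ g x)) (q.2.1 - q.2.2 • g x))) := rfl
  rw [hfun, hT']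
  rw [Lop, hH]
  have hin : ∀ x y : F, (innerSL ℝ : F →L[ℝ] F →L[ℝ] ℝ) x y = ⟪x, y⟫_ℝ := fun _ _ => rfl
  have hadj : ∀ (A : F →L[ℝ] W), ffun_d2_adj (F := F) (W := W) A = ContinuousLinearMap.adjoint A := fun A => rfl
  simp only [ContinuousLinearMap.comp_apply, ContinuousLinearMap.add_apply, ContinuousLinearMap.sub_apply,
    ContinuousLinearMap.neg_apply, ContinuousLinearMap.smul_apply, ContinuousLinearMap.flip_apply,
    hin, hadj, Gop, ContinuousLinearMap.id_apply, inner_add_left, inner_sub_left,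
    inner_neg_left, inner_smul_left, map_neg, map_smul, RCLike.conj_to_real,
    ContinuousLinearMap.adjoint_inner_left]
  ring

end

end Pool.Agent.H469
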