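import Pool.Agent.Helper469_Dupin.Chart
import Pool.Agent.Helper469_Dupin.Jlop
import Pool.Agent.Helper469_Dupin.Jclh

set_option autoImplicit false

open Set Filter Topology MeasureTheory
open scoped ContDiff InnerProductSpace

namespace Pool.Agent.H469


/-! PLAIN PROOF OF THE TARGET(S)

Take N, ρ, κ from `clh` with k0 = k.  For z ∈ N: Lop g z.1 z.2 (ρ z) (κ z) = 0.  So the smooth function
φ(z) = <Lop g z.1 z.2 (ρ z) (κ z), κ z> vanishes on N.  Differentiate at z1 = (a1,b1) in the direction X = (k, -(ε1 • Dg(a1) k)), where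
Dρ(z1) X = 0 by the last claim of `clh` (ρ z1 = ε1, κ z1 = k): the derivative of φ is
<(D_z Lop)(X) k, k> + Dρ(X) <Gop k,k> + <Lop (Dκ X), k> + <Lop k, Dκ X> = <(D_z Lop)(X)k,k> + 0 + 0 + 0 by symmetry and Lop k = 0.
-/

section
variable {F W : Type} [NormedAddCommGroup F] [InnerProductSpace ℝ F] [FiniteDimensional ℝ F]
  [NormedAddCommGroup W] [InnerProductSpace ℝ W] [FiniteDimensional ℝ W]

/-- TARGET -/
theorem third (g : F → W) (O : Set F) (hO : IsOpen O) (hg : ContDiffOn ℝ ∞ g O) (hD : DupinLoc g O)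
    (a₁ : F) (b₁ : W) (ε₁ : ℝ) (ha : a₁ ∈ O) (hb : b₁ ≠ 0) (k : F) (hk : k ≠ 0)
    (hker : ∀ u, Lop g a₁ b₁ ε₁ u = 0 ↔ ∃ r : ℝ, u = r • k) :
    fderiv ℝ (fun z : F × W => ⟪Lop g z.1 z.2 ε₁ k, k⟫_ℝ) (a₁, b₁) (k, -(ε₁ • fderiv ℝ g a₁ k)) = 0 := by
  obtain ⟨N, δ, ρ, κ, hδ, hN, hzN, hNO, hρ0, hκ0, hρs, hκs, hker2, -, hlast⟩ :=
    clh g O hO hg hD a₁ b₁ ε₁ ha hb k hk hker
  have hX := hlast _ hzN
  rw [hρ0, hκ0] at hX
  have hopen : IsOpen {p : (F × W) × ℝ | p.1.1 ∈ O} :=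
    hO.preimage (continuous_fst.comp continuous_fst)
  have hLs := lop_smooth g O hO hg
  have hL : HasFDerivAt (fun p : (F × W) × ℝ => Lop g p.1.1 p.1.2 p.2)
      (fderiv ℝ (fun p : (F × W) × ℝ => Lop g p.1.1 p.1.2 p.2) ((a₁, b₁), ε₁))
      ((a₁, b₁), ε₁) := by
    apply DifferentiableAt.hasFDerivAt
    exact (hLs.contDiffAt (hopen.mem_nhds ha)).differentiableAt (by simp)
  set L' := fderiv ℝ (fun p : (F × W) × ℝ => Lop g p.1.1 p.1.2 p.2) ((a₁, b₁), ε₁) with hL'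
  have hρ : HasFDerivAt ρ (fderiv ℝ ρ (a₁, b₁)) (a₁, b₁) :=
    ((hρs.contDiffAt (hN.mem_nhds hzN)).differentiableAt (by simp)).hasFDerivAt
  have hκ : HasFDerivAt κ (fderiv ℝ κ (a₁, b₁)) (a₁, b₁) :=
    ((hκs.contDiffAt (hN.mem_nhds hzN)).differentiableAt (by simp)).hasFDerivAt
  have hA : HasFDerivAt (fun z : F × W => Lop g z.1 z.2 (ρ z))
      (L' ∘L ((ContinuousLinearMap.id ℝ (F × W)).prod (fderiv ℝ ρ (a₁, b₁)))) (a₁, b₁) := by
    have h1 : HasFDerivAt (fun z : F × W => (z, ρ z))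
        ((ContinuousLinearMap.id ℝ (F × W)).prod (fderiv ℝ ρ (a₁, b₁))) (a₁, b₁) :=
      (hasFDerivAt_id (a₁, b₁)).prodMk hρ
    have h2 : HasFDerivAt (fun p : (F × W) × ℝ => Lop g p.1.1 p.1.2 p.2) L'
        ((fun z : F × W => (z, ρ z)) (a₁, b₁)) := by
      simp only [hρ0]
      exact hL
    exact h2.comp (a₁, b₁) h1
  have hB : HasFDerivAt (fun z : F × W => Lop g z.1 z.2 ε₁)
      (L' ∘L ((ContinuousLinearMap.id ℝ (F × W)).prod 0)) (a₁, b₁) := by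
    have h1 : HasFDerivAt (fun z : F × W => (z, ε₁))
        ((ContinuousLinearMap.id ℝ (F × W)).prod 0) (a₁, b₁) :=
      (hasFDerivAt_id (a₁, b₁)).prodMk (hasFDerivAt_const ε₁ (a₁, b₁))
    exact HasFDerivAt.comp (a₁, b₁) (g := fun p : (F × W) × ℝ => Lop g p.1.1 p.1.2 p.2) hL h1
  have hφ := (hA.clm_apply hκ).inner ℝ hκ
  have hφ0 : (fun z : F × W => ⟪Lop g z.1 z.2 (ρ z) (κ z), κ z⟫_ℝ) =ᶠ[𝓝 (a₁, b₁)]
      fun _ => (0 : ℝ) := by
    filter_upwards [hN.mem_nhds hzN] with z hz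
    have h1 := (hker2 z hz).2.2 (κ z)
    rw [h1.2 ⟨1, by rw [one_smul]⟩, inner_zero_left]
  have hφ1 := hφ.unique ((hasFDerivAt_const (0 : ℝ) (a₁, b₁)).congr_of_eventuallyEq hφ0)
  have hk0 : Lop g a₁ b₁ ε₁ k = 0 := (hker k).2 ⟨1, by rw [one_smul]⟩
  have hev := congrArg (fun T : (F × W) →L[ℝ] ℝ => T (k, -(ε₁ • fderiv ℝ g a₁ k))) hφ1
  have hC := (hB.clm_apply (hasFDerivAt_const k (a₁, b₁))).inner ℝ
    (hasFDerivAt_const k (a₁, b₁))
  rw [hC.fderiv]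
  simp only [ContinuousLinearMap.comp_apply, ContinuousLinearMap.prod_apply,
    fderivInnerCLM_apply, ContinuousLinearMap.add_apply, ContinuousLinearMap.flip_apply,
    ContinuousLinearMap.id_apply, hρ0, hκ0, hX, hk0, inner_zero_left,
    ContinuousLinearMap.zero_apply, inner_zero_right, map_zero, zero_add, add_zero,
    inner_add_left] at hev ⊢
  rw [lop_symm g O hO hg a₁ ha b₁ ε₁ _ k, hk0, inner_zero_right] at hev
  simpa using hev

end

end Pool.Agent.H469
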