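import Pool.Agent.Helper469_Dupin.Chart
import Pool.Agent.Helper469_Dupin.Jlop
import Pool.Agent.Helper469_Dupin.Jthird
import Pool.Agent.Helper469_Dupin.Jffund

set_option autoImplicit false

open Set Filter Topology MeasureTheory
open scoped ContDiff InnerProductSpace

namespace Pool.Agent.H469


section
variable {F W : Type} [NormedAddCommGroup F] [InnerProductSpace ℝ F] [FiniteDimensional ℝ F]
  [NormedAddCommGroup W] [InnerProductSpace ℝ W] [FiniteDimensional ℝ W]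

/-- the quadratic form of an operator, as a function of the operator -/
noncomputable def dc_bound_B (k : F) : (F →L[ℝ] F) →L[ℝ] ℝ :=
  (innerSL ℝ k).comp (ContinuousLinearMap.apply ℝ F k)

theorem dc_bound_two : (1 + 1 : WithTop ℕ∞) ≤ ∞ := by
  have : (1 + 1 : WithTop ℕ∞) = 2 := by norm_num
  rw [this]
  exact ENat.LEInfty.out

omit [FiniteDimensional ℝ F] in
theorem dc_bound_B_apply (k : F) (T : F →L[ℝ] F) : dc_bound_B k T = ⟪T k, k⟫_ℝ := by
  show ⟪k, T k⟫_ℝ = ⟪T k, k⟫_ℝ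
  exact real_inner_comm _ _

omit [FiniteDimensional ℝ F] in
theorem dc_bound_B_le (k : F) (T : F →L[ℝ] F) : |dc_bound_B k T| ≤ ‖T‖ * ‖k‖ ^ 2 := by
  rw [dc_bound_B_apply]
  calc |⟪T k, k⟫_ℝ| ≤ ‖T k‖ * ‖k‖ := abs_real_inner_le_norm _ _
    _ ≤ (‖T‖ * ‖k‖) * ‖k‖ := mul_le_mul_of_nonneg_right (T.le_opNorm k) (norm_nonneg _)
    _ = ‖T‖ * ‖k‖ ^ 2 := by ring

theorem dc_bound_lop_add (g : F → W) (a : F) (b : W) (ε τ : ℝ) (u : F) :
    Lop g a b (ε + τ) u = Lop g a b ε u + τ • Gop g a u := by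
  show ((ε + τ) • Gop g a - Hop g a b) u = (ε • Gop g a - Hop g a b) u + τ • Gop g a u
  have h1 : ((ε + τ) • Gop g a - Hop g a b) u = (ε + τ) • Gop g a u - Hop g a b u := rfl
  have h2 : (ε • Gop g a - Hop g a b) u = ε • Gop g a u - Hop g a b u := rfl
  rw [h1, h2, add_smul]
  abel

/-- the third derivative of the function along the kernel -/
theorem dc_bound_d3 (g : F → W) (O : Set F) (hO : IsOpen O) (hg : ContDiffOn ℝ ∞ g O)
    (q : F × W × ℝ) (a : F) (ha : a ∈ O)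
    (hdiff : DifferentiableAt ℝ (fderiv ℝ (fderiv ℝ (ffun g q))) a) (k : F) :
    fderiv ℝ (fderiv ℝ (fderiv ℝ (ffun g q))) a k k k =
      -dc_bound_B k (fderiv ℝ (fun p : (F × W) × ℝ => Lop g p.1.1 p.1.2 p.2)
        ((a, q.2.1 - q.2.2 • g a), q.2.2) ((k, -(q.2.2 • fderiv ℝ g a k)), 0)) := by
  set D2 : F → F →L[ℝ] F →L[ℝ] ℝ := fderiv ℝ (fderiv ℝ (ffun g q)) with hD2
  set L : (F × W) × ℝ → F →L[ℝ] F := fun p => Lop g p.1.1 p.1.2 p.2 with hL
  have hgd : DifferentiableAt ℝ g a :=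
    (hg.contDiffAt (hO.mem_nhds ha)).differentiableAt (by simp)
  have hU : IsOpen {p : (F × W) × ℝ | p.1.1 ∈ O} :=
    hO.preimage (continuous_fst.comp continuous_fst)
  have hLd : DifferentiableAt ℝ L ((a, q.2.1 - q.2.2 • g a), q.2.2) :=
    ((lop_smooth g O hO hg).contDiffAt (hU.mem_nhds ha)).differentiableAt (by simp)
  let A : (F →L[ℝ] F →L[ℝ] ℝ) →L[ℝ] ℝ :=
    (ContinuousLinearMap.apply ℝ ℝ k).comp (ContinuousLinearMap.apply ℝ (F →L[ℝ] ℝ) k)
  have h1 : HasFDerivAt (fun a' => D2 a' k k) (A.comp (fderiv ℝ D2 a)) a := by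
    have h11 := A.hasFDerivAt (x := D2 a)
    have h12 := h11.comp (f := D2) (f' := fderiv ℝ D2 a) a hdiff.hasFDerivAt
    exact h12
  have h2 : HasFDerivAt (fun a' : F => (((a', q.2.1 - q.2.2 • g a'), q.2.2) : (F × W) × ℝ))
      (((ContinuousLinearMap.id ℝ F).prod (-(q.2.2 • fderiv ℝ g a))).prod 0) a := by
    have h3 : HasFDerivAt (fun a' : F => q.2.1 - q.2.2 • g a') (-(q.2.2 • fderiv ℝ g a)) a := by
      have := (hgd.hasFDerivAt.const_smul q.2.2).const_sub q.2.1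
      exact this
    exact ((hasFDerivAt_id a).prodMk h3).prodMk (hasFDerivAt_const _ _)
  have h4 : HasFDerivAt (fun a' : F => dc_bound_B k (L ((a', q.2.1 - q.2.2 • g a'), q.2.2)))
      ((dc_bound_B k).comp ((fderiv ℝ L ((a, q.2.1 - q.2.2 • g a), q.2.2)).comp
        (((ContinuousLinearMap.id ℝ F).prod (-(q.2.2 • fderiv ℝ g a))).prod 0))) a :=
    ((dc_bound_B k).hasFDerivAt).comp
      (f := fun a' : F => L ((a', q.2.1 - q.2.2 • g a'), q.2.2)) a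
      (HasFDerivAt.comp (g := L) (g' := fderiv ℝ L ((a, q.2.1 - q.2.2 • g a), q.2.2)) a
        hLd.hasFDerivAt h2)
  have h5 : (fun a' => D2 a' k k) =ᶠ[𝓝 a]
      fun a' : F => -dc_bound_B k (L ((a', q.2.1 - q.2.2 • g a'), q.2.2)) := by
    filter_upwards [hO.mem_nhds ha] with a' ha'
    rw [dc_bound_B_apply]
    exact ffun_d2 g O hO hg q a' ha' k k
  have h6 := (h4.neg).congr_of_eventuallyEq h5
  have h7 := h1.unique h6
  have h8 := congrArg (fun T : F →L[ℝ] ℝ => T k) h7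
  exact h8

end

/-! PLAIN PROOF OF THE TARGET(S)

Let ε0 = q.2.2, b(a) = q.2.1 - ε0 g(a), f = ffun g q.  For a ∈ O near a0 we have b(a) ≠ 0.  D²f(a)(u,v) = -<Lop g a b(a) ε0 u, v> (ffun_d2), so
D²f(a)(u,·) = τ<Gop g a u,·> iff Lop g a b(a) (ε0+τ) u = 0 (Lop is affine in ε with slope Gop).  If the solutions u form the line R k, then
`third` applies at (a, b(a), ε1 = ε0+τ): the derivative of z ↦ <Lop g z.1 z.2 ε1 k,k> at (a,b(a)) in the direction (k, -ε1 Dg(a)k) is 0.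
On the other hand D³f(a)(k,k,k) = -(derivative at a in the direction k of a ↦ <Lop g a b(a) ε0 k,k>) = -(derivative of z ↦ <Lop g z.1 z.2 ε0 k,k> at
(a,b(a)) in the direction (k, -ε0 Dg(a)k)).  Lop g a b ε = ε Gop g a - Hop g a b with Hop linear in b:
D_z(<Lop_{ε1} k,k>)(k, -ε1 Dg k) - D_z(<Lop_{ε0} k,k>)(k,-ε0 Dg k) = τ <(D Gop(a) k) k,k> + τ <Hop g a (Dg(a) k) k,k>.
So D³f(a)(k,k,k) = τ ( <(D Gop(a)k)k,k> + <Hop g a (Dg(a)k) k,k> ), and the bracket is bounded by C|k|³ for a near a0 by continuity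
(Gop is smooth in a, Hop g a b continuous in (a,b) and linear in b).  δ = 1 works.
-/

section
variable {F W : Type} [NormedAddCommGroup F] [InnerProductSpace ℝ F] [FiniteDimensional ℝ F]
  [NormedAddCommGroup W] [InnerProductSpace ℝ W] [FiniteDimensional ℝ W]

/-- TARGET -/
theorem dc_bound (g : F → W) (O : Set F) (hO : IsOpen O) (hg : ContDiffOn ℝ ∞ g O) (hD : DupinLoc g O)
    (q : F × W × ℝ) (a₀ : F) (ha : a₀ ∈ O) (hb : q.2.1 - q.2.2 • g a₀ ≠ 0) :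
    ∃ C δ : ℝ, 0 < δ ∧ ∀ᶠ a in 𝓝 a₀, ∀ (τ : ℝ) (k : F), |τ| < δ → k ≠ 0 →
      (∀ u, (∀ v, fderiv ℝ (fderiv ℝ (ffun g q)) a u v = τ * ⟪Gop g a u, v⟫_ℝ) ↔ ∃ r : ℝ, u = r • k) →
      |fderiv ℝ (fderiv ℝ (fderiv ℝ (ffun g q))) a k k k| ≤ C * |τ| * ‖k‖ ^ 3 := by
  classical
  set L : (F × W) × ℝ → F →L[ℝ] F := fun p => Lop g p.1.1 p.1.2 p.2 with hL
  set p₀ : (F × W) × ℝ := ((a₀, q.2.1 - q.2.2 • g a₀), q.2.2) with hp₀
  have hU : IsOpen {p : (F × W) × ℝ | p.1.1 ∈ O} :=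
    hO.preimage (continuous_fst.comp continuous_fst)
  have hLs : ContDiffOn ℝ ∞ L {p : (F × W) × ℝ | p.1.1 ∈ O} := lop_smooth g O hO hg
  have hLat : ContDiffAt ℝ ∞ L p₀ := hLs.contDiffAt (hU.mem_nhds ha)
  have hDL : ContDiffAt ℝ 1 (fderiv ℝ L) p₀ :=
    hLat.fderiv_right (m := 1) dc_bound_two
  obtain ⟨K, t, ht, hK⟩ := hDL.exists_lipschitzOnWith
  obtain ⟨ρ, hρ, hρt⟩ := Metric.mem_nhds_iff.1 ht
  have hgat : ContDiffAt ℝ ∞ g a₀ := hg.contDiffAt (hO.mem_nhds ha)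
  have hgc : ContinuousAt g a₀ := hgat.continuousAt
  have hDg : ContinuousAt (fderiv ℝ g) a₀ :=
    (hgat.fderiv_right (m := 1) dc_bound_two).continuousAt
  have hbc : ContinuousAt (fun a : F => ((a, q.2.1 - q.2.2 • g a) : F × W)) a₀ :=
    continuousAt_id.prodMk (continuousAt_const.sub (continuousAt_const.smul hgc))
  -- the bounds
  have e1 : ∀ᶠ a in 𝓝 a₀, a ∈ O := hO.mem_nhds ha
  have e2 : ∀ᶠ a in 𝓝 a₀, q.2.1 - q.2.2 • g a ≠ 0 :=
    (continuousAt_const.sub (continuousAt_const.smul hgc)).eventually_ne hb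
  have e3 : ∀ᶠ a in 𝓝 a₀, dist ((a, q.2.1 - q.2.2 • g a) : F × W) (a₀, q.2.1 - q.2.2 • g a₀) < ρ :=
    hbc.eventually (Metric.ball_mem_nhds _ hρ)
  have e4 : ∀ᶠ a in 𝓝 a₀, ‖fderiv ℝ g a‖ < ‖fderiv ℝ g a₀‖ + 1 :=
    hDg.norm.eventually_lt continuousAt_const (lt_add_one _)
  have hM : ∀ p ∈ Metric.ball p₀ ρ, ‖fderiv ℝ L p‖ ≤ ‖fderiv ℝ L p₀‖ + K * ρ := by
    intro p hp
    have h1 := hK.dist_le_mul p (hρt hp) p₀ (hρt (Metric.mem_ball_self hρ))
    have h2 : dist p p₀ ≤ ρ := (Metric.mem_ball.1 hp).le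
    have h3 : ‖fderiv ℝ L p‖ ≤ ‖fderiv ℝ L p₀‖ + dist (fderiv ℝ L p) (fderiv ℝ L p₀) := by
      rw [dist_eq_norm (fderiv ℝ L p) (fderiv ℝ L p₀)]
      have := norm_add_le (fderiv ℝ L p₀) (fderiv ℝ L p - fderiv ℝ L p₀)
      rwa [add_sub_cancel] at this
    have h4 : (K : ℝ) * dist p p₀ ≤ K * ρ := mul_le_mul_of_nonneg_left h2 K.2
    linarith
  set M : ℝ := ‖fderiv ℝ L p₀‖ + K * ρ with hMdef
  have hM0 : 0 ≤ M := by
    have : (0 : ℝ) ≤ K := K.2
    positivity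
  set D : ℝ := ‖fderiv ℝ g a₀‖ + 1 with hDdef
  have hD0 : 0 ≤ D := by positivity
  have hK0 : (0 : ℝ) ≤ K := K.2
  refine ⟨K * (1 + (|q.2.2| + 1) * D) + M * D, min ρ 1, lt_min hρ one_pos, ?_⟩
  filter_upwards [e1, e2, e3, e4] with a haO hba had haD τ k hτ hk hiff
  have hC0 : 0 ≤ K * (1 + (|q.2.2| + 1) * D) + M * D := by positivity
  by_cases hdiff : DifferentiableAt ℝ (fderiv ℝ (fderiv ℝ (ffun g q))) a
  swap
  · rw [fderiv_zero_of_not_differentiableAt hdiff]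
    simp only [zero_apply, abs_zero]
    positivity
  have hτρ : |τ| < ρ := lt_of_lt_of_le hτ (min_le_left _ _)
  have hτ1 : |τ| < 1 := lt_of_lt_of_le hτ (min_le_right _ _)
  set b : W := q.2.1 - q.2.2 • g a with hbdef
  set p0 : (F × W) × ℝ := ((a, b), q.2.2) with hp0
  set p1 : (F × W) × ℝ := ((a, b), q.2.2 + τ) with hp1
  have hp0b : p0 ∈ Metric.ball p₀ ρ := by
    rw [Metric.mem_ball, Prod.dist_eq]
    refine max_lt had ?_
    show dist q.2.2 q.2.2 < ρ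
    rw [dist_self]
    exact hρ
  have hp1b : p1 ∈ Metric.ball p₀ ρ := by
    rw [Metric.mem_ball, Prod.dist_eq]
    refine max_lt had ?_
    show dist (q.2.2 + τ) q.2.2 < ρ
    rw [Real.dist_eq, add_sub_cancel_left]
    exact hτρ
  have hp01 : dist p1 p0 = |τ| := by
    rw [Prod.dist_eq]
    show max (dist (a, b) (a, b)) (dist (q.2.2 + τ) q.2.2) = |τ|
    rw [dist_self, Real.dist_eq, add_sub_cancel_left]
    exact max_eq_right (abs_nonneg _)
  have hker : ∀ u, Lop g a b (q.2.2 + τ) u = 0 ↔ ∃ r : ℝ, u = r • k := by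
    intro u
    rw [← hiff u]
    constructor
    · intro h v
      rw [ffun_d2 g O hO hg q a haO u v]
      have h1 : Lop g a b q.2.2 u = -(τ • Gop g a u) := by
        rw [dc_bound_lop_add] at h
        exact eq_neg_of_add_eq_zero_left h
      rw [← hbdef, h1, inner_neg_left, neg_neg, inner_smul_left]
      rfl
    · intro h
      have h1 : ∀ v, ⟪Lop g a b (q.2.2 + τ) u, v⟫_ℝ = 0 := by
        intro v
        have h2 := h v
        rw [ffun_d2 g O hO hg q a haO u v, ← hbdef] at h2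
        rw [dc_bound_lop_add, inner_add_left, inner_smul_left]
        simp only [conj_trivial]
        linarith
      exact inner_self_eq_zero.1 (h1 _)
  have hthird := third g O hO hg hD a b (q.2.2 + τ) haO hba k hk hker
  have hLd1 : DifferentiableAt ℝ L p1 :=
    (hLs.contDiffAt (hU.mem_nhds haO)).differentiableAt (by simp)
  have hz : HasFDerivAt (fun z : F × W => ⟪Lop g z.1 z.2 (q.2.2 + τ) k, k⟫_ℝ)
      ((dc_bound_B k).comp ((fderiv ℝ L p1).comp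
        ((ContinuousLinearMap.id ℝ (F × W)).prod 0))) (a, b) := by
    have h1 : HasFDerivAt (fun z : F × W => ((z, q.2.2 + τ) : (F × W) × ℝ))
        ((ContinuousLinearMap.id ℝ (F × W)).prod 0) (a, b) :=
      (hasFDerivAt_id _).prodMk (hasFDerivAt_const _ _)
    have h2 : HasFDerivAt (fun z : F × W => dc_bound_B k (L (z, q.2.2 + τ)))
        ((dc_bound_B k).comp ((fderiv ℝ L p1).comp
          ((ContinuousLinearMap.id ℝ (F × W)).prod 0))) (a, b) :=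
      ((dc_bound_B k).hasFDerivAt).comp (f := fun z : F × W => L (z, q.2.2 + τ)) (a, b)
        (HasFDerivAt.comp (g := L) (g' := fderiv ℝ L p1) (a, b) hLd1.hasFDerivAt h1)
    have h3 : (fun z : F × W => ⟪Lop g z.1 z.2 (q.2.2 + τ) k, k⟫_ℝ) =
        fun z : F × W => dc_bound_B k (L (z, q.2.2 + τ)) := by
      funext z
      rw [dc_bound_B_apply]
    rw [h3]
    exact h2
  rw [hz.fderiv] at hthird
  have hthird' : dc_bound_B k (fderiv ℝ L p1 ((k, -((q.2.2 + τ) • fderiv ℝ g a k)), 0)) = 0 :=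
    hthird
  have hd3 := dc_bound_d3 g O hO hg q a haO hdiff k
  have hd3' : fderiv ℝ (fderiv ℝ (fderiv ℝ (ffun g q))) a k k k =
      -dc_bound_B k (fderiv ℝ L p0 ((k, -(q.2.2 • fderiv ℝ g a k)), 0)) := hd3
  -- the difference
  have hvec : (((k, -(q.2.2 • fderiv ℝ g a k)), 0) : (F × W) × ℝ) =
      ((k, -((q.2.2 + τ) • fderiv ℝ g a k)), 0) + ((0, τ • fderiv ℝ g a k), 0) := by
    ext1
    · ext1
      · show k = k + 0
        rw [add_zero]
      · show -(q.2.2 • fderiv ℝ g a k) = -((q.2.2 + τ) • fderiv ℝ g a k) + τ • fderiv ℝ g a k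
        rw [add_smul]
        abel
    · show (0 : ℝ) = 0 + 0
      rw [add_zero]
  have hDgk : ‖fderiv ℝ g a k‖ ≤ D * ‖k‖ :=
    ((fderiv ℝ g a).le_opNorm k).trans (mul_le_mul_of_nonneg_right haD.le (norm_nonneg _))
  have hv1 : ‖(((k, -((q.2.2 + τ) • fderiv ℝ g a k)), 0) : (F × W) × ℝ)‖ ≤
      (1 + (|q.2.2| + 1) * D) * ‖k‖ := by
    have h1 : |q.2.2 + τ| ≤ |q.2.2| + 1 := (abs_add_le _ _).trans (by linarith)
    have h2 : ‖-((q.2.2 + τ) • fderiv ℝ g a k)‖ ≤ (|q.2.2| + 1) * (D * ‖k‖) := by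
      rw [norm_neg, norm_smul, Real.norm_eq_abs]
      exact mul_le_mul h1 hDgk (norm_nonneg _) (by positivity)
    have h3 : 0 ≤ (|q.2.2| + 1) * (D * ‖k‖) := by positivity
    rw [Prod.norm_def, Prod.norm_def]
    refine max_le (max_le ?_ ?_) ?_
    · show ‖k‖ ≤ _
      linarith
    · refine h2.trans ?_
      have := norm_nonneg k
      linarith
    · show ‖(0 : ℝ)‖ ≤ _
      rw [norm_zero]
      positivity
  have hv2 : ‖(((0, τ • fderiv ℝ g a k), 0) : (F × W) × ℝ)‖ ≤ |τ| * (D * ‖k‖) := by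
    have h3 : 0 ≤ |τ| * (D * ‖k‖) := by positivity
    rw [Prod.norm_def, Prod.norm_def]
    refine max_le (max_le ?_ ?_) ?_
    · show ‖(0 : F)‖ ≤ _
      rw [norm_zero]
      exact h3
    · show ‖τ • fderiv ℝ g a k‖ ≤ _
      rw [norm_smul, Real.norm_eq_abs]
      exact mul_le_mul_of_nonneg_left hDgk (abs_nonneg _)
    · show ‖(0 : ℝ)‖ ≤ _
      rw [norm_zero]
      exact h3
  have hdK : ‖fderiv ℝ L p1 - fderiv ℝ L p0‖ ≤ K * |τ| := by
    rw [← dist_eq_norm (fderiv ℝ L p1) (fderiv ℝ L p0), ← hp01]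
    exact hK.dist_le_mul p1 (hρt hp1b) p0 (hρt hp0b)
  have heq : fderiv ℝ (fderiv ℝ (fderiv ℝ (ffun g q))) a k k k =
      dc_bound_B k ((fderiv ℝ L p1 - fderiv ℝ L p0)
        ((k, -((q.2.2 + τ) • fderiv ℝ g a k)), 0)) -
      dc_bound_B k (fderiv ℝ L p0 ((0, τ • fderiv ℝ g a k), 0)) := by
    rw [hd3', hvec, map_add, map_add, sub_apply, map_sub, hthird']
    ring
  rw [heq]
  have hb1 : |dc_bound_B k ((fderiv ℝ L p1 - fderiv ℝ L p0)
      ((k, -((q.2.2 + τ) • fderiv ℝ g a k)), 0))| ≤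
      (K * |τ|) * ((1 + (|q.2.2| + 1) * D) * ‖k‖) * ‖k‖ ^ 2 := by
    refine (dc_bound_B_le k _).trans ?_
    refine mul_le_mul_of_nonneg_right ?_ (by positivity)
    refine ((fderiv ℝ L p1 - fderiv ℝ L p0).le_opNorm _).trans ?_
    exact mul_le_mul hdK hv1 (norm_nonneg _) (by positivity)
  have hb2 : |dc_bound_B k (fderiv ℝ L p0 ((0, τ • fderiv ℝ g a k), 0))| ≤
      M * (|τ| * (D * ‖k‖)) * ‖k‖ ^ 2 := by
    refine (dc_bound_B_le k _).trans ?_
    refine mul_le_mul_of_nonneg_right ?_ (by positivity)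
    refine ((fderiv ℝ L p0).le_opNorm _).trans ?_
    exact mul_le_mul (hM p0 hp0b) hv2 (norm_nonneg _) hM0
  calc _ ≤ _ := abs_sub _ _
    _ ≤ (K * |τ|) * ((1 + (|q.2.2| + 1) * D) * ‖k‖) * ‖k‖ ^ 2 +
        M * (|τ| * (D * ‖k‖)) * ‖k‖ ^ 2 := add_le_add hb1 hb2
    _ = (K * (1 + (|q.2.2| + 1) * D) + M * D) * |τ| * ‖k‖ ^ 3 := by ring

end

end Pool.Agent.H469
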