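import Mathlib

set_option autoImplicit false

open Set Filter Topology MeasureTheory
open scoped ContDiff InnerProductSpace

namespace Pool.Agent.H469


/-! PLAIN PROOF OF THE TARGET(S)

Let p, q ∈ S \ B, d = q - p.  There is r > 0 such that for |e| < r: p + e, q + e ∈ S, p + e ∉ B, N(p+e) = N p, q + e ∉ B, N(q+e) = N q (S open, hN).  The set
{x | ∃ p' ∈ B, ∃ s, x = p' + s • d} is null, so its translate by -p is null and some e in the ball of radius r (positive measure) has
p + e + s • d ∉ B for all real s.  For s ∈ [0,1] the point p + e + s • d is in S (convexity, segment from p+e to q+e).  The function s ↦ N(p+e+s•d) is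
locally constant on [0,1] (hN), hence constant, so N p = N(p+e) = N(q+e) = N q.
-/

section

/-- TARGET -/
theorem const_of_null_on {D : Type} [NormedAddCommGroup D] [NormedSpace ℝ D] [FiniteDimensional ℝ D]
    [MeasurableSpace D] [BorelSpace D] (μ : Measure D) [μ.IsAddHaarMeasure] (B : Set D)
    (hB : ∀ d : D, μ {q | ∃ p ∈ B, ∃ s : ℝ, q = p + s • d} = 0) (S : Set D) (hS : IsOpen S)
    (hSc : Convex ℝ S) {α : Type} (N : D → α)
    (hN : ∀ p ∈ S, p ∉ B → ∀ᶠ q in 𝓝 p, q ∉ B ∧ N q = N p) :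
    ∀ p ∈ S, p ∉ B → ∀ q ∈ S, q ∉ B → N p = N q := by
  intro p hp hpB q hq hqB
  set d : D := q - p with hd
  have hdense : Dense {x : D | x ∉ {q | ∃ p ∈ B, ∃ s : ℝ, q = p + s • d}} := by
    apply Measure.dense_of_ae (μ := μ)
    exact measure_eq_zero_iff_ae_notMem.1 (hB d)
  have h1 : ∀ᶠ x in 𝓝 p, x ∈ S ∧ x ∉ B ∧ N x = N p :=
    (hS.eventually_mem hp).and (hN p hp hpB)
  have ht : Tendsto (fun x : D => x + d) (𝓝 p) (𝓝 q) := by
    have : Tendsto (fun x : D => x + d) (𝓝 p) (𝓝 (p + d)) :=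
      (continuous_id.add continuous_const).tendsto p
    rwa [hd, add_sub_cancel] at this
  have h2 : ∀ᶠ x in 𝓝 p, x + d ∈ S ∧ x + d ∉ B ∧ N (x + d) = N q :=
    ht.eventually ((hS.eventually_mem hq).and (hN q hq hqB))
  obtain ⟨x, hxZ, ⟨hxS, _, hxN⟩, hxdS, _, hxdN⟩ := hdense.inter_nhds_nonempty (h1.and h2)
  have hxB : ∀ s : ℝ, x + s • d ∉ B := by
    intro s hs
    apply hxZ
    refine ⟨x + s • d, hs, -s, ?_⟩
    rw [neg_smul]
    abel
  have hxseg : ∀ s ∈ Icc (0 : ℝ) 1, x + s • d ∈ S := by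
    intro s hs
    have := hSc hxS hxdS (sub_nonneg.2 hs.2) hs.1 (sub_add_cancel 1 s)
    have e : (1 - s) • x + s • (x + d) = x + s • d := by
      rw [sub_smul, one_smul, smul_add]
      abel
    rwa [e] at this
  have hloc : ∀ s ∈ Icc (0 : ℝ) 1, ∀ᶠ t in 𝓝[Icc (0 : ℝ) 1] s,
      N (x + s • d) = N (x + t • d) := by
    intro s hs
    have hc : Tendsto (fun t : ℝ => x + t • d) (𝓝[Icc (0 : ℝ) 1] s) (𝓝 (x + s • d)) :=
      ((continuous_const.add (continuous_id.smul continuous_const)).tendsto s).mono_left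
        nhdsWithin_le_nhds
    filter_upwards [hc.eventually (hN _ (hxseg s hs) (hxB s))] with t ht using ht.2.symm
  have hconst : N (x + (0 : ℝ) • d) = N (x + (1 : ℝ) • d) :=
    isPreconnected_Icc.induction₂ (fun s t => N (x + s • d) = N (x + t • d)) hloc
      (fun _ _ _ _ _ _ h h' => h.trans h') (fun _ _ _ _ h => h.symm)
      (left_mem_Icc.2 zero_le_one) (right_mem_Icc.2 zero_le_one)
  rw [zero_smul, add_zero, one_smul] at hconst
  rw [← hxN, hconst, hxdN]

end

end Pool.Agent.H469
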