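import Pool.Agent.Helper469_Dupin.DefsD
import Pool.Agent.Helper469_Dupin.Jbcirc
import Pool.Agent.Helper469_Dupin.Jbpre
import Pool.Agent.Helper469_Dupin.Jbid
import Pool.Agent.Helper469_Dupin.Jbcomplete
import Pool.Agent.Helper469_Dupin.Jbcont
import Pool.Agent.Helper469_Dupin.Jblimit
import Pool.Agent.Helper469_Dupin.Jbfull
import Pool.Agent.Helper469_Dupin.Jdupinloc
import Pool.Agent.Helper469_Dupin.Jcritiff

set_option autoImplicit false

open Set Filter Topology MeasureTheory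
open scoped ContDiff InnerProductSpace

namespace Pool.Agent.H469


section
variable {n m : ℕ} {M : Set (Eu n)} {T : Submodule ℝ (Eu n)} {g : T → Tᗮ} {O : Set T} {V : Set (Eu n)}
  {N : Set (T × Tᗮ)} {ρ : T × Tᗮ → ℝ} {e : T × Tᗮ → Eu n}

theorem full_circle_ker_circ_neg (x e q : Eu n) (s : ℝ) : circ x (-e) q s = circ x e q (-s) := by
  simp [circ]

theorem full_circle_ker_circE_neg (e q : Eu n) (s : ℝ) : circE (-e) q s = -(circE e q (-s)) := by
  unfold circE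
  rw [← smul_neg]
  have h : (-s) ^ 2 = s ^ 2 := by ring
  rw [h]
  congr 1
  module

theorem full_circle_ker_cmap (x : Eu n)
    (hQ : Tᗮ.orthogonalProjectionOnto x = g (T.orthogonalProjectionOnto x)) :
    cmap T g (T.orthogonalProjectionOnto x) = x := by
  unfold cmap
  rw [← hQ, Submodule.orthogonalProjectionOnto_orthogonal]
  simp

theorem full_circle_ker_Xneg (z : T × Tᗮ) :
    Xf T ρ (fun z => -(e z)) z = -(Xf T ρ e z) := by
  simp [Xf]

theorem full_circle_ker_qneg (z : T × Tᗮ) :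
    qf T ρ (fun z => -(e z)) z = qf T ρ e z := by
  unfold qf
  rw [full_circle_ker_Xneg, fderiv_fun_neg]
  simp

theorem full_circle_ker_neg (h : LeafPre T g O N ρ e) :
    LeafPre T g O N ρ (fun z => -(e z)) := by
  refine ⟨h.openN, h.sub, h.smr, h.sme.neg, ?_, ?_, ?_, ?_⟩
  · intro z hz
    rw [norm_neg]
    exact h.unit z hz
  · intro z hz
    rw [map_neg, map_neg, map_neg, h.tang z hz]
  · intro z hz u
    rw [h.ker z hz u]
    constructor
    · rintro ⟨r, hr⟩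
      exact ⟨-r, by rw [map_neg, hr, smul_neg, neg_smul, neg_neg]⟩
    · rintro ⟨r, hr⟩
      exact ⟨-r, by rw [hr, map_neg, smul_neg, neg_smul]⟩
  · intro z hz
    rw [full_circle_ker_Xneg, map_neg, h.dr z hz, neg_zero]

theorem full_circle_ker_lim_pos (hM : IsSubmanifold ∞ m M) (hcl : IsClosed M) (hD : IsDupin M)
    (hc : IsChart ∞ m M T g O V) (h : LeafPre T g {a | a ∈ O ∧ cmap T g a ∈ V} N ρ e)
    (z₀ : T × Tᗮ) (hz : z₀ ∈ N) (s : ℝ) (hs : 0 < s)
    {T' : Submodule ℝ (Eu n)} {g' : T' → T'ᗮ} {O' : Set T'} {V' : Set (Eu n)}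
    (hc' : IsChart ∞ m M T' g' O' V') (y : Eu n)
    (hy : y = circ (xpt T g z₀) (e z₀) (qf T ρ e z₀) s) (hyM : y ∈ M) (hyV : y ∈ V') :
    T'ᗮ.orthogonalProjectionOnto (wpt T g ρ z₀ - ρ z₀ • y) ≠ 0 ∧
    T'.orthogonalProjectionOnto (circE (e z₀) (qf T ρ e z₀) s) ≠ 0 ∧
    ∀ u : T', Lop g' (T'.orthogonalProjectionOnto y)
      (T'ᗮ.orthogonalProjectionOnto (wpt T g ρ z₀ - ρ z₀ • y)) (ρ z₀) u = 0 ↔
      ∃ r : ℝ, u = r • T'.orthogonalProjectionOnto (circE (e z₀) (qf T ρ e z₀) s) :=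
  (leaf_limit hc h z₀ hz s hs (fun s' _ => leaf_cont hM hcl hD hc h z₀ hz s') hc' y hy hyM hyV).2

theorem full_circle_ker_lim (hM : IsSubmanifold ∞ m M) (hcl : IsClosed M) (hD : IsDupin M)
    (hc : IsChart ∞ m M T g O V) (h : LeafPre T g {a | a ∈ O ∧ cmap T g a ∈ V} N ρ e)
    (z₀ : T × Tᗮ) (hz : z₀ ∈ N) (s : ℝ) (hs : s ≠ 0)
    {T' : Submodule ℝ (Eu n)} {g' : T' → T'ᗮ} {O' : Set T'} {V' : Set (Eu n)}
    (hc' : IsChart ∞ m M T' g' O' V') (y : Eu n)
    (hy : y = circ (xpt T g z₀) (e z₀) (qf T ρ e z₀) s) (hyM : y ∈ M) (hyV : y ∈ V') :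
    T'ᗮ.orthogonalProjectionOnto (wpt T g ρ z₀ - ρ z₀ • y) ≠ 0 ∧
    T'.orthogonalProjectionOnto (circE (e z₀) (qf T ρ e z₀) s) ≠ 0 ∧
    ∀ u : T', Lop g' (T'.orthogonalProjectionOnto y)
      (T'ᗮ.orthogonalProjectionOnto (wpt T g ρ z₀ - ρ z₀ • y)) (ρ z₀) u = 0 ↔
      ∃ r : ℝ, u = r • T'.orthogonalProjectionOnto (circE (e z₀) (qf T ρ e z₀) s) := by
  rcases lt_or_gt_of_ne hs with h1 | h1
  · have hy' : y = circ (xpt T g z₀) ((fun z => -(e z)) z₀) (qf T ρ (fun z => -(e z)) z₀) (-s) := by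
      rw [full_circle_ker_qneg]
      show y = circ (xpt T g z₀) (-(e z₀)) (qf T ρ e z₀) (-s)
      rw [full_circle_ker_circ_neg, neg_neg]
      exact hy
    have h2 := full_circle_ker_lim_pos hM hcl hD hc (full_circle_ker_neg h) z₀ hz (-s)
      (neg_pos.2 h1) hc' y hy' hyM hyV
    rw [full_circle_ker_qneg] at h2
    have h3 : circE ((fun z => -(e z)) z₀) (qf T ρ e z₀) (-s) = -(circE (e z₀) (qf T ρ e z₀) s) := by
      show circE (-(e z₀)) (qf T ρ e z₀) (-s) = _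
      rw [full_circle_ker_circE_neg, neg_neg]
    rw [h3, map_neg] at h2
    obtain ⟨h4, h5, h6⟩ := h2
    refine ⟨h4, neg_ne_zero.1 h5, fun u => ?_⟩
    rw [h6 u]
    constructor
    · rintro ⟨r, hr⟩
      exact ⟨-r, by rw [hr, smul_neg, neg_smul]⟩
    · rintro ⟨r, hr⟩
      exact ⟨-r, by rw [hr, smul_neg, neg_smul, neg_neg]⟩
  · exact full_circle_ker_lim_pos hM hcl hD hc h z₀ hz s h1 hc' y hy hyM hyV

/-- one base point -/
theorem full_circle_ker_base (hM : IsSubmanifold ∞ m M) (hcpt : IsCompact M) (hD : IsDupin M)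
    (hc : IsChart ∞ m M T g O V) (x : Eu n) (hx : x ∈ M) (hxV : x ∈ V) (p : Eu n × ℝ)
    (hcr : x ∈ critSet M (fam p)) (hb : Tᗮ.orthogonalProjectionOnto (p.1 - p.2 • x) ≠ 0) (k₀ : T)
    (hk : k₀ ≠ 0) (hker : ∀ u, Lop g (T.orthogonalProjectionOnto x)
      (Tᗮ.orthogonalProjectionOnto (p.1 - p.2 • x)) p.2 u = 0 ↔ ∃ r : ℝ, u = r • k₀) :
    (∃ e q : Eu n, ‖e‖ = 1 ∧ ⟪e, q⟫_ℝ = 0 ∧ q ≠ 0 ∧
      (∃ r : ℝ, T.orthogonalProjectionOnto e = r • k₀) ∧
      ∀ s : ℝ, circ x e q s ∈ critSet M (fam p)) ∧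
    ∀ (e' q' : Eu n), ‖e'‖ = 1 → ⟪e', q'⟫_ℝ = 0 → ∀ η : ℝ, 0 < η →
      (∀ s ∈ Ioc (-η) 0, circ x e' q' s ∈ critSet M (fam p)) →
      (∀ s : ℝ, circ x e' q' s ∈ critSet M (fam p)) ∧
      ∀ s : ℝ, s ≠ 0 → ∀ (T' : Submodule ℝ (Eu n)) (g' : T' → T'ᗮ) (O' : Set T') (V' : Set (Eu n)),
        IsChart ∞ m M T' g' O' V' → circ x e' q' s ∈ V' →
        T'ᗮ.orthogonalProjectionOnto (p.1 - p.2 • circ x e' q' s) ≠ 0 ∧
        T'.orthogonalProjectionOnto (circE e' q' s) ≠ 0 ∧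
        ∀ u : T', Lop g' (T'.orthogonalProjectionOnto (circ x e' q' s))
          (T'ᗮ.orthogonalProjectionOnto (p.1 - p.2 • circ x e' q' s)) p.2 u = 0 ↔
          ∃ r : ℝ, u = r • T'.orthogonalProjectionOnto (circE e' q' s) := by
  have hmem := hc.mem x hxV
  have hQ : Tᗮ.orthogonalProjectionOnto x = g (T.orthogonalProjectionOnto x) := hmem.2.1 hx
  have hcx : cmap T g (T.orthogonalProjectionOnto x) = x := full_circle_ker_cmap x hQ
  obtain ⟨b, hp⟩ := (crit_iff hc x hx hxV p).1 hcr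
  have hp1 : p.1 = nvec T g (T.orthogonalProjectionOnto x, b) +
      p.2 • xpt T g (T.orthogonalProjectionOnto x, b) := by
    have h1 := congrArg Prod.fst hp
    rw [h1]
    simp only [Jmap, Th, nvec, xpt, cmap]
    simp
    module
  have hbb : Tᗮ.orthogonalProjectionOnto (p.1 - p.2 • x) = b := by
    have h1 : p.1 - p.2 • x = nvec T g (T.orthogonalProjectionOnto x, b) := by
      rw [hp1]
      simp only [xpt, hcx]
      abel
    rw [h1]
    simp only [nvec, map_add]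
    rw [Submodule.orthogonalProjectionOnto_mem_subspace_eq_self]
    rw [Submodule.orthogonalProjectionOnto_orthogonal_apply_eq_zero (Submodule.coe_mem _), zero_add]
  rw [hbb] at hb hker
  have hO' : IsOpen {a | a ∈ O ∧ cmap T g a ∈ V} := by
    have h1 : ContinuousOn (cmap T g) O := by
      unfold cmap
      exact (continuous_subtype_val.continuousOn).add
        (continuous_subtype_val.comp_continuousOn hc.smooth.continuousOn)
    exact h1.isOpen_inter_preimage hc.openO hc.openV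
  have hz0 : T.orthogonalProjectionOnto x ∈ {a | a ∈ O ∧ cmap T g a ∈ V} := by
    refine ⟨hmem.1, ?_⟩
    rw [hcx]
    exact hxV
  obtain ⟨N, δ, ρ, e, h, hδ, hzN, hρ, hδN, huniq⟩ := leaf_pre hO'
    (hc.smooth.mono fun a ha => ha.1) (dupinLoc_of_isDupin hc hD) (T.orthogonalProjectionOnto x) b
    p.2 hz0 hb k₀ hk hker
  have hxz : xpt T g (T.orthogonalProjectionOnto x, b) = x := hcx
  have hwz : wpt T g ρ (T.orthogonalProjectionOnto x, b) = p.1 := by
    unfold wpt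
    rw [hρ, hp1]
  have hpp : (nvec T g (T.orthogonalProjectionOnto x, b) +
      p.2 • xpt T g (T.orthogonalProjectionOnto x, b), p.2) = p := by
    rw [← hp1]
  have hcomp : ∀ (e' q' : Eu n), ‖e'‖ = 1 → ⟪e', q'⟫_ℝ = 0 → ∀ η : ℝ, 0 < η →
      (∀ s ∈ Ioc (-η) 0, circ x e' q' s ∈ critSet M (fam p)) →
      (e' = e (T.orthogonalProjectionOnto x, b) ∨ e' = -(e (T.orthogonalProjectionOnto x, b))) ∧
        q' = qf T ρ e (T.orthogonalProjectionOnto x, b) := by
    intro e' q' he' hq' η hη hs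
    have h1 := leaf_complete hc h p.2 δ huniq (T.orthogonalProjectionOnto x, b) hzN p.2
      (by simpa using hδ) e' q' he' hq' η hη (by
        intro s hs'
        rw [hxz]
        have := hs s hs'
        rw [hxz] at hpp
        rw [hpp]
        exact this)
    exact h1.2
  obtain ⟨e₂, q₂, he₂, hq₂, hq0, ⟨r, hr⟩, hall⟩ := full_circle hM hcpt hD hc x hx hxV p b hp hb k₀ hk
    hker
  refine ⟨⟨e₂, q₂, he₂, hq₂, hq0, ⟨r, hr⟩, fun s => (hall s).1⟩, ?_⟩
  intro e' q' he' hq' η hη hs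
  obtain ⟨h1, h2⟩ := hcomp e₂ q₂ he₂ hq₂ 1 one_pos fun s _ => (hall s).1
  obtain ⟨h3, h4⟩ := hcomp e' q' he' hq' η hη hs
  have hcrit : ∀ s : ℝ, circ x e' q' s ∈ critSet M (fam p) := by
    have h5 : e' = e₂ ∨ e' = -e₂ := by
      rcases h1 with h1 | h1 <;> rcases h3 with h3 | h3
      · left; rw [h1, h3]
      · right; rw [h1, h3]
      · right; rw [h1, h3, neg_neg]
      · left; rw [h1, h3]
    intro s
    rw [h4, ← h2]
    rcases h5 with h5 | h5
    · rw [h5]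
      exact (hall s).1
    · rw [h5, full_circle_ker_circ_neg]
      exact (hall (-s)).1
  refine ⟨hcrit, ?_⟩
  intro s hs0 T' g' O' V' hc' hyV
  rcases h3 with h3 | h3
  · have h6 := full_circle_ker_lim hM hcpt.isClosed hD hc h (T.orthogonalProjectionOnto x, b) hzN s hs0
      hc' (circ x e' q' s) (by rw [hxz, ← h3, ← h4]) (hcrit s).1 hyV
    rw [hwz, hρ, ← h3, ← h4] at h6
    exact h6
  · have h6 := full_circle_ker_lim hM hcpt.isClosed hD hc (full_circle_ker_neg h)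
      (T.orthogonalProjectionOnto x, b) hzN s hs0
      hc' (circ x e' q' s) (by rw [hxz, full_circle_ker_qneg, ← h3, ← h4]) (hcrit s).1 hyV
    rw [hwz, hρ, full_circle_ker_qneg, ← h3, ← h4] at h6
    exact h6

end

/-! PLAIN PROOF OF THE TARGET(S)

b = Q(p.1 - p.2 x) ≠ 0 (crit_iff: p.1 - p.2 x = -nrm g a b + b ≠ 0, a = P x), p = Jmap T (Th g (a,b,p.2)), and nullK T g x p is the kernel of Lop g a b p.2.  O' = {a ∈ O | cmap a ∈ V}.
leaf_pre (dupinLoc_of_isDupin) gives N, ρ, e at z0 = (a,b); xpt z0 = x, (wpt z0, ρ z0) = p.  Put e0 = e z0, q0 = qf z0.  As in full_circle (leaf_cont for e and for -e, boundedness of M):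
q0 ≠ 0 and circ x e0 q0 s ∈ critSet M (fam p) for all real s.  Put κ = |q0|, r = 1/(2κ), c = x + q0/(2κ²), eA = -q0/κ, ν = e0.  Then circA c eA ν r θ = circ x e0 q0 (tan(θ/2)/κ) and
circT eA ν θ = circE e0 q0 (tan(θ/2)/κ) for cos(θ/2) ≠ 0 (sin θ = 2t/(1+t²), cos θ = (1-t²)/(1+t²), t = tan(θ/2)).  P ν = P e0 is a multiple of k0 by LeafPre.ker at z0 and hker.
Kernel statement: for s > 0 leaf_limit (with hfam from leaf_cont) gives, for every chart (T',g',O',V') at y = circ x e0 q0 s, that P' circE ≠ 0 and that the kernel is R P' circE.  For s < 0 the same with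
-e (circ x (-e) q s = circ x e q (-s), circE (-e) q s = -circE e q (-s)).  This covers all θ except θ ≡ 0 and θ ≡ π mod 2π.  For these repeat with another base point: take θ1 = π/2, x1 = circA(θ1) with parameter
s1 = 1/κ, and a chart at x1; the kernel there is R P'(circE(s1)), leaf_pre, the new e1 = ± circE(s1) and the new q1 = circQ(s1) by leaf_complete (the arc of the first circle near x1 is
critical for fam p); so the circle from x1 is the same circle (circ_group) with x1 at parameter 0, and the points θ = 0, π have finite nonzero parameters for it (±1/κ), so the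
kernel statement holds there too with circT.  The points of the circle are in the critical set by continuity / the same argument.  θ is any real (periodicity).
-/

section
variable {n m : ℕ} {M : Set (Eu n)} {T : Submodule ℝ (Eu n)} {g : T → Tᗮ} {O : Set T} {V : Set (Eu n)}

/-- TARGET -/
theorem full_circle_ker (hM : IsSubmanifold ∞ m M) (hcpt : IsCompact M) (hD : IsDupin M)
    (hc : IsChart ∞ m M T g O V) (x : Eu n) (hx : x ∈ M) (hxV : x ∈ V) (p : Eu n × ℝ)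
    (hcr : x ∈ critSet M (fam p)) (hb : p.1 ≠ p.2 • x) (k₀ : T) (hk : k₀ ≠ 0)
    (hker : ∀ u, u ∈ nullK T g x p ↔ ∃ r : ℝ, u = r • k₀) :
    ∃ (c e ν : Eu n) (r : ℝ), 0 < r ∧ ‖e‖ = 1 ∧ ‖ν‖ = 1 ∧ ⟪e, ν⟫_ℝ = 0 ∧ circA c e ν r 0 = x ∧
      (∃ s : ℝ, T.orthogonalProjectionOnto ν = s • k₀) ∧
      ∀ θ : ℝ, circA c e ν r θ ∈ critSet M (fam p) ∧
        ∀ (T' : Submodule ℝ (Eu n)) (g' : T' → T'ᗮ) (O' : Set T') (V' : Set (Eu n)),
          IsChart ∞ m M T' g' O' V' → circA c e ν r θ ∈ V' →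
          T'.orthogonalProjectionOnto (circT e ν θ) ≠ 0 ∧
          ∀ u : T', u ∈ nullK T' g' (circA c e ν r θ) p ↔
            ∃ s : ℝ, u = s • T'.orthogonalProjectionOnto (circT e ν θ) := by
  have hmem := hc.mem x hxV
  have hQ : Tᗮ.orthogonalProjectionOnto x = g (T.orthogonalProjectionOnto x) := hmem.2.1 hx
  have hcx : cmap T g (T.orthogonalProjectionOnto x) = x := full_circle_ker_cmap x hQ
  have hb0 : Tᗮ.orthogonalProjectionOnto (p.1 - p.2 • x) ≠ 0 := by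
    obtain ⟨b, hp⟩ := (crit_iff hc x hx hxV p).1 hcr
    have hp1 : p.1 - p.2 • x = nvec T g (T.orthogonalProjectionOnto x, b) := by
      have h1 := congrArg Prod.fst hp
      have h2 : p.1 = nvec T g (T.orthogonalProjectionOnto x, b) +
          p.2 • cmap T g (T.orthogonalProjectionOnto x) := by
        rw [h1]
        simp only [Jmap, Th, nvec, cmap]
        simp
        module
      rw [h2, hcx]
      abel
    have hbb : Tᗮ.orthogonalProjectionOnto (p.1 - p.2 • x) = b := by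
      rw [hp1]
      simp only [nvec, map_add]
      rw [Submodule.orthogonalProjectionOnto_mem_subspace_eq_self]
      rw [Submodule.orthogonalProjectionOnto_orthogonal_apply_eq_zero (Submodule.coe_mem _), zero_add]
    rw [hbb]
    rintro rfl
    apply hb
    rw [← sub_eq_zero, hp1]
    simp [nvec, nrm]
  have hnull : ∀ (T' : Submodule ℝ (Eu n)) (g' : T' → T'ᗮ) (y : Eu n) (u : T'), u ∈ nullK T' g' y p ↔
      Lop g' (T'.orthogonalProjectionOnto y)
        (T'ᗮ.orthogonalProjectionOnto (p.1 - p.2 • y)) p.2 u = 0 := by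
    intro T' g' y u
    unfold nullK
    rw [LinearMap.mem_ker]
    rfl
  have hker' : ∀ u, Lop g (T.orthogonalProjectionOnto x)
      (Tᗮ.orthogonalProjectionOnto (p.1 - p.2 • x)) p.2 u = 0 ↔ ∃ r : ℝ, u = r • k₀ := by
    intro u
    rw [← hnull, hker]
  obtain ⟨⟨e, q, he, heq, hq, hPe, hall⟩, hB⟩ := full_circle_ker_base hM hcpt hD hc x hx hxV p hcr hb0
    k₀ hk hker'
  obtain ⟨-, hlim⟩ := hB e q he heq 1 one_pos fun s _ => hall s
  have hκ : 0 < ‖q‖ := norm_pos_iff.2 hq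
  have hκ0 : ‖q‖ ≠ 0 := hκ.ne'
  -- the second base point
  have hs1 : (‖q‖⁻¹ : ℝ) ≠ 0 := inv_ne_zero hκ0
  have hx1 : circ x e q ‖q‖⁻¹ ∈ critSet M (fam p) := hall _
  obtain ⟨T₁, g₁, O₁, V₁, hx1V, hc₁⟩ := (isSubmanifold_iff ∞ m M).1 hM _ hx1.1
  obtain ⟨hb1, hP1, hker1⟩ := hlim ‖q‖⁻¹ hs1 T₁ g₁ O₁ V₁ hc₁ hx1V
  obtain ⟨-, hB1⟩ := full_circle_ker_base hM hcpt hD hc₁ _ hx1.1 hx1V p hx1 hb1 _ hP1 hker1
  obtain ⟨g1, g2, g3, g4, g5⟩ := circ_group x e q he heq ‖q‖⁻¹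
  obtain ⟨hall1, hlim1⟩ := hB1 (circE e q ‖q‖⁻¹) (circQ e q ‖q‖⁻¹) g1 g2 ‖q‖⁻¹ (inv_pos.2 hκ) (by
    intro σ hσ
    have h1 : 1 - ‖q‖ ^ 2 * ‖q‖⁻¹ * σ ≠ 0 := by
      have h2 : ‖q‖ ^ 2 * ‖q‖⁻¹ = ‖q‖ := by field_simp
      rw [h2]
      have h3 : ‖q‖ * σ ≤ 0 := mul_nonpos_of_nonneg_of_nonpos hκ.le hσ.2
      linarith
    rw [g5 σ h1]
    exact hall _)
  -- explicit formulas at the second base point
  have hE1 : circE e q ‖q‖⁻¹ = ‖q‖⁻¹ • q := by
    unfold circE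
    have h1 : (‖q‖⁻¹) ^ 2 * ‖q‖ ^ 2 = 1 := by field_simp
    rw [h1, sub_self, zero_smul, zero_add, smul_smul]
    congr 1
    ring
  have hQ1 : circQ e q ‖q‖⁻¹ = -(‖q‖ • e) := by
    unfold circQ
    have h1 : (‖q‖⁻¹) ^ 2 * ‖q‖ ^ 2 = 1 := by field_simp
    have h2 : 2 * ‖q‖⁻¹ * ‖q‖ ^ 2 = 2 * ‖q‖ := by field_simp
    rw [h1, h2, sub_self, zero_smul, zero_sub, smul_neg, smul_smul]
    congr 2
    ring
  have hX1 : circ x e q ‖q‖⁻¹ = x + (1 / 2 : ℝ) • (‖q‖⁻¹ • e + (‖q‖⁻¹) ^ 2 • q) := by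
    unfold circ
    have h1 : (‖q‖⁻¹) ^ 2 * ‖q‖ ^ 2 = 1 := by field_simp
    rw [h1]
    norm_num
  have hnQ1 : ‖-(‖q‖ • e)‖ = ‖q‖ := by
    rw [norm_neg, norm_smul, he, mul_one, norm_norm]
  have hXp : circ (circ x e q ‖q‖⁻¹) (circE e q ‖q‖⁻¹) (circQ e q ‖q‖⁻¹) ‖q‖⁻¹ =
      x + (‖q‖⁻¹) ^ 2 • q := by
    rw [hE1, hQ1, hX1]
    unfold circ
    rw [hnQ1]
    have h1 : (‖q‖⁻¹) ^ 2 * ‖q‖ ^ 2 = 1 := by field_simp
    rw [h1]
    have h2 : (‖q‖⁻¹) ^ 2 • -(‖q‖ • e) = -(‖q‖⁻¹ • e) := by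
      rw [smul_neg, smul_smul]
      congr 2
      field_simp
    rw [h2, smul_smul]
    module
  have hXm : circ (circ x e q ‖q‖⁻¹) (circE e q ‖q‖⁻¹) (circQ e q ‖q‖⁻¹) (-‖q‖⁻¹) = x := by
    rw [hE1, hQ1, hX1]
    unfold circ
    rw [hnQ1, neg_sq]
    have h1 : (‖q‖⁻¹) ^ 2 * ‖q‖ ^ 2 = 1 := by field_simp
    rw [h1]
    have h2 : (‖q‖⁻¹) ^ 2 • -(‖q‖ • e) = -(‖q‖⁻¹ • e) := by
      rw [smul_neg, smul_smul]
      congr 2
      field_simp
    rw [h2, smul_smul]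
    module
  have hEp : circE (circE e q ‖q‖⁻¹) (circQ e q ‖q‖⁻¹) ‖q‖⁻¹ = -e := by
    rw [hE1, hQ1]
    unfold circE
    rw [hnQ1]
    have h1 : (‖q‖⁻¹) ^ 2 * ‖q‖ ^ 2 = 1 := by field_simp
    rw [h1, sub_self, zero_smul, zero_add, smul_neg, smul_neg, smul_smul, smul_smul]
    congr 1
    have h2 : ((1 + 1)⁻¹ * (2 * ‖q‖⁻¹) * ‖q‖ : ℝ) = 1 := by
      rw [mul_assoc, mul_assoc, inv_mul_cancel₀ hκ0]
      norm_num
    rw [h2, one_smul]
  have hEm : circE (circE e q ‖q‖⁻¹) (circQ e q ‖q‖⁻¹) (-‖q‖⁻¹) = e := by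
    rw [hE1, hQ1]
    unfold circE
    rw [hnQ1, neg_sq]
    have h1 : (‖q‖⁻¹) ^ 2 * ‖q‖ ^ 2 = 1 := by field_simp
    rw [h1, sub_self, zero_smul, zero_add, smul_neg, smul_neg, smul_smul, smul_smul]
    have h2 : ((1 + 1)⁻¹ * (2 * -‖q‖⁻¹) * ‖q‖ : ℝ) = -1 := by
      rw [mul_assoc, mul_assoc, neg_mul, inv_mul_cancel₀ hκ0]
      norm_num
    rw [h2, neg_smul, one_smul, neg_neg]
  -- the three kinds of points
  have key : ∀ (y t : Eu n), y ∈ critSet M (fam p) →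
      (∀ (T' : Submodule ℝ (Eu n)) (g' : T' → T'ᗮ) (O' : Set T') (V' : Set (Eu n)),
        IsChart ∞ m M T' g' O' V' → y ∈ V' →
        T'ᗮ.orthogonalProjectionOnto (p.1 - p.2 • y) ≠ 0 ∧
        T'.orthogonalProjectionOnto t ≠ 0 ∧
        ∀ u : T', Lop g' (T'.orthogonalProjectionOnto y)
          (T'ᗮ.orthogonalProjectionOnto (p.1 - p.2 • y)) p.2 u = 0 ↔
          ∃ r : ℝ, u = r • T'.orthogonalProjectionOnto t) →
      y ∈ critSet M (fam p) ∧
        ∀ (T' : Submodule ℝ (Eu n)) (g' : T' → T'ᗮ) (O' : Set T') (V' : Set (Eu n)),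
          IsChart ∞ m M T' g' O' V' → y ∈ V' →
          T'.orthogonalProjectionOnto t ≠ 0 ∧
          ∀ u : T', u ∈ nullK T' g' y p ↔ ∃ s : ℝ, u = s • T'.orthogonalProjectionOnto t := by
    intro y t hy h1
    refine ⟨hy, fun T' g' O' V' hc' hyV => ?_⟩
    obtain ⟨-, h2, h3⟩ := h1 T' g' O' V' hc' hyV
    refine ⟨h2, fun u => ?_⟩
    rw [hnull]
    exact h3 u
  refine ⟨x + (2 * ‖q‖ ^ 2)⁻¹ • q, -(‖q‖⁻¹ • q), e, (2 * ‖q‖)⁻¹, by positivity, ?_, he, ?_, ?_, hPe, ?_⟩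
  · rw [norm_neg, norm_smul, norm_inv, norm_norm, inv_mul_cancel₀ hκ0]
  · rw [inner_neg_left, inner_smul_left, real_inner_comm, heq]
    simp
  · unfold circA
    rw [Real.cos_zero, Real.sin_zero, one_smul, zero_smul, add_zero, smul_neg, smul_smul]
    have h1 : (2 * ‖q‖ : ℝ)⁻¹ * ‖q‖⁻¹ = (2 * ‖q‖ ^ 2)⁻¹ := by
      rw [← mul_inv]
      congr 1
      ring
    rw [h1]
    abel
  · intro θ
    have hAgen : circA (x + (2 * ‖q‖ ^ 2)⁻¹ • q) (-(‖q‖⁻¹ • q)) e (2 * ‖q‖)⁻¹ θ =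
        x + ((1 - Real.cos θ) * (2 * ‖q‖ ^ 2)⁻¹) • q + (Real.sin θ * (2 * ‖q‖)⁻¹) • e := by
      unfold circA
      have h1 : (2 * ‖q‖ : ℝ)⁻¹ * ‖q‖⁻¹ = (2 * ‖q‖ ^ 2)⁻¹ := by
        rw [← mul_inv]
        congr 1
        ring
      rw [smul_add, smul_neg, smul_neg, smul_smul, smul_smul, smul_smul]
      have h2 : (2 * ‖q‖ : ℝ)⁻¹ * Real.cos θ * ‖q‖⁻¹ = Real.cos θ * (2 * ‖q‖ ^ 2)⁻¹ := by
        rw [← h1]
        ring
      rw [h2]
      module
    have hTgen : circT (-(‖q‖⁻¹ • q)) e θ = (Real.sin θ * ‖q‖⁻¹) • q + Real.cos θ • e := by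
      unfold circT
      rw [smul_neg, neg_smul, neg_neg, smul_smul]
    rw [hAgen, hTgen]
    by_cases hc0 : Real.cos (θ / 2) = 0
    · -- the point opposite to x
      have hcos : Real.cos θ = -1 := by
        have := Real.cos_two_mul (θ / 2)
        rw [mul_div_cancel₀ θ (two_ne_zero)] at this
        rw [this, hc0]
        norm_num
      have hsin : Real.sin θ = 0 := by
        have := Real.sin_two_mul (θ / 2)
        rw [mul_div_cancel₀ θ (two_ne_zero)] at this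
        rw [this, hc0]
        ring
      have hpt : x + ((1 - Real.cos θ) * (2 * ‖q‖ ^ 2)⁻¹) • q + (Real.sin θ * (2 * ‖q‖)⁻¹) • e =
          x + (‖q‖⁻¹) ^ 2 • q := by
        rw [hcos, hsin, zero_mul, zero_smul, add_zero]
        congr 2
        rw [mul_inv, inv_pow]
        ring
      have htt : (Real.sin θ * ‖q‖⁻¹) • q + Real.cos θ • e = -e := by
        rw [hcos, hsin, zero_mul, zero_smul, zero_add, neg_smul, one_smul]
      rw [hpt, htt, ← hXp, ← hEp]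
      exact key _ _ (hall1 _) (hlim1 _ hs1)
    · by_cases hs0 : Real.sin (θ / 2) = 0
      · have hcos : Real.cos θ = 1 := by
          have := Real.cos_two_mul' (θ / 2)
          rw [mul_div_cancel₀ θ (two_ne_zero)] at this
          have h2 := Real.sin_sq_add_cos_sq (θ / 2)
          rw [this, hs0]
          rw [hs0] at h2
          nlinarith
        have hsin : Real.sin θ = 0 := by
          have := Real.sin_two_mul (θ / 2)
          rw [mul_div_cancel₀ θ (two_ne_zero)] at this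
          rw [this, hs0]
          ring
        have hpt : x + ((1 - Real.cos θ) * (2 * ‖q‖ ^ 2)⁻¹) • q + (Real.sin θ * (2 * ‖q‖)⁻¹) • e =
            x := by
          rw [hcos, hsin]
          simp
        have htt : (Real.sin θ * ‖q‖⁻¹) • q + Real.cos θ • e = e := by
          rw [hcos, hsin]
          simp
        rw [hpt, htt]
        have h1 := key _ _ (hall1 (-‖q‖⁻¹)) (hlim1 (-‖q‖⁻¹) (neg_ne_zero.2 hs1))
        rw [hXm, hEm] at h1
        exact h1
      · -- the general point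
        have hC : Real.cos (θ / 2) ^ 2 ≠ 0 := pow_ne_zero 2 hc0
        have h2 := Real.sin_sq_add_cos_sq (θ / 2)
        have hsin : Real.sin θ = 2 * Real.sin (θ / 2) * Real.cos (θ / 2) := by
          have := Real.sin_two_mul (θ / 2)
          rwa [mul_div_cancel₀ θ (two_ne_zero)] at this
        have hcos : Real.cos θ = Real.cos (θ / 2) ^ 2 - Real.sin (θ / 2) ^ 2 := by
          have := Real.cos_two_mul' (θ / 2)
          rwa [mul_div_cancel₀ θ (two_ne_zero)] at this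
        obtain ⟨s, hs⟩ : ∃ s : ℝ, s = Real.sin (θ / 2) / (Real.cos (θ / 2) * ‖q‖) := ⟨_, rfl⟩
        have hsne : s ≠ 0 := by
          rw [hs]
          exact div_ne_zero hs0 (mul_ne_zero hc0 hκ0)
        have hD1 : (1 + s ^ 2 * ‖q‖ ^ 2)⁻¹ = Real.cos (θ / 2) ^ 2 := by
          rw [inv_eq_iff_eq_inv, hs]
          field_simp
          linarith
        have hpt : x + ((1 - Real.cos θ) * (2 * ‖q‖ ^ 2)⁻¹) • q + (Real.sin θ * (2 * ‖q‖)⁻¹) • e =
            circ x e q s := by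
          unfold circ
          rw [hD1]
          have h3 : (1 - Real.cos θ) * (2 * ‖q‖ ^ 2)⁻¹ = Real.cos (θ / 2) ^ 2 * s ^ 2 := by
            rw [hs, hcos]
            field_simp
            linear_combination -h2
          have h4 : Real.sin θ * (2 * ‖q‖)⁻¹ = Real.cos (θ / 2) ^ 2 * s := by
            rw [hs, hsin]
            field_simp
          rw [h3, h4]
          module
        have htt : (Real.sin θ * ‖q‖⁻¹) • q + Real.cos θ • e = circE e q s := by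
          unfold circE
          rw [hD1]
          have h3 : Real.sin θ * ‖q‖⁻¹ = Real.cos (θ / 2) ^ 2 * (2 * s) := by
            rw [hs, hsin]
            field_simp
          have h4 : Real.cos θ = Real.cos (θ / 2) ^ 2 * (1 - s ^ 2 * ‖q‖ ^ 2) := by
            rw [hs, hcos]
            field_simp
          rw [h3, h4]
          module
        rw [hpt, htt]
        exact key _ _ (hall s) (hlim s hsne)

end

end Pool.Agent.H469
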