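import Pool.Agent.Helper469_Dupin.DefsD
import Pool.Agent.Helper469_Dupin.Jfamd
import Pool.Agent.Helper469_Dupin.Jlop
import Pool.Agent.Helper469_Dupin.Jbrcrit

set_option autoImplicit false

open Set Filter Topology MeasureTheory
open scoped ContDiff InnerProductSpace

namespace Pool.Agent.H469


section
variable {X P : Type} [NormedAddCommGroup X] [InnerProductSpace ℝ X] [FiniteDimensional ℝ X]
  [NormedAddCommGroup P] [NormedSpace ℝ P] [FiniteDimensional ℝ P]

theorem red_exists_abs (F : X × P → X) (D : Set (X × P)) (hD : IsOpen D) (hF : ContDiffOn ℝ ∞ F D)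
    (a₀ : X) (p₀ : P) (h0 : (a₀, p₀) ∈ D) (hF0 : F (a₀, p₀) = 0) (K : Submodule ℝ X)
    (hK : ∀ v : X, fderiv ℝ F (a₀, p₀) (v, 0) = 0 ↔ v ∈ K)
    (hsym : ∀ u v : X, ⟪fderiv ℝ F (a₀, p₀) (u, 0), v⟫_ℝ = ⟪u, fderiv ℝ F (a₀, p₀) (v, 0)⟫_ℝ) :
    ∃ (U : Set (K × P)) (W : Set (X × P)) (A : K × P → X), W ⊆ D ∧ IsOpen U ∧ IsOpen W ∧
      ((0 : K), p₀) ∈ U ∧ (a₀, p₀) ∈ W ∧ A (0, p₀) = a₀ ∧ ContDiffOn ℝ ∞ A U ∧
      (∀ q ∈ U, (A q, q.2) ∈ W) ∧
      (∀ q ∈ U, K.orthogonalProjectionOnto (A q - a₀) = q.1) ∧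
      (∀ q ∈ U, ∀ v ∈ Kᗮ, ⟪F (A q, q.2), v⟫_ℝ = 0) ∧
      (∀ a p, (a, p) ∈ W → (∀ v ∈ Kᗮ, ⟪F (a, p), v⟫_ℝ = 0) →
        (K.orthogonalProjectionOnto (a - a₀), p) ∈ U ∧ A (K.orthogonalProjectionOnto (a - a₀), p) = a) ∧
      (∀ k : K, fderiv ℝ A (0, p₀) (k, 0) = (k : X)) ∧
      (∀ q ∈ U, ∀ v ∈ Kᗮ, (∀ w ∈ Kᗮ, ⟪fderiv ℝ F (A q, q.2) (v, 0), w⟫_ℝ = 0) → v = 0) := by
  classical
  have hKperp : ∀ x : X, (∀ v ∈ Kᗮ, ⟪x, v⟫_ℝ = 0) → Kᗮ.starProjection x = 0 := by
    intro x hx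
    rw [Submodule.starProjection_apply_eq_zero_iff]
    intro v hv
    rw [real_inner_comm]
    exact hx v hv
  have hKperp' : ∀ x : X, Kᗮ.starProjection x = 0 → x ∈ K := by
    intro x hx
    rw [Submodule.starProjection_apply_eq_zero_iff, Submodule.orthogonal_orthogonal] at hx
    exact hx
  have hsum : ∀ x y : X, K.starProjection x + Kᗮ.starProjection y = 0 →
      K.starProjection x = 0 ∧ Kᗮ.starProjection y = 0 := by
    intro x y h
    have h1 : K.starProjection x = -(Kᗮ.starProjection y) := eq_neg_of_add_eq_zero_left h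
    have h2 : K.starProjection x ∈ Kᗮ := by
      rw [h1]
      exact Kᗮ.neg_mem (Submodule.starProjection_apply_mem _ _)
    have h3 : K.starProjection x ∈ K := Submodule.starProjection_apply_mem _ _
    have h4 : K.starProjection x = 0 := by
      have := Submodule.inner_right_of_mem_orthogonal h3 h2
      exact inner_self_eq_zero.1 this
    refine ⟨h4, ?_⟩
    rw [h4, zero_add] at h
    exact h
  -- the map
  let Φ : X × P → X × P := fun z => (K.starProjection (z.1 - a₀) + Kᗮ.starProjection (F z), z.2)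
  let Ψ : X × P → (X × P →L[ℝ] X × P) := fun z =>
    ((K.starProjection ∘L ContinuousLinearMap.fst ℝ X P) + (Kᗮ.starProjection ∘L fderiv ℝ F z)).prod
      (ContinuousLinearMap.snd ℝ X P)
  have hΨap : ∀ z v, Ψ z v = (K.starProjection v.1 + Kᗮ.starProjection (fderiv ℝ F z v), v.2) :=
    fun z v => rfl
  have hΦs : ContDiffOn ℝ ∞ Φ D := by
    apply ContDiffOn.prodMk
    · apply ContDiffOn.add
      · exact ((K.starProjection.contDiff).comp (contDiff_fst.sub contDiff_const)).contDiffOn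
      · exact (Kᗮ.starProjection.contDiff).comp_contDiffOn hF
    · exact contDiff_snd.contDiffOn
  have hFd : ∀ z ∈ D, HasFDerivAt F (fderiv ℝ F z) z := by
    intro z hz
    exact ((hF.contDiffAt (hD.mem_nhds hz)).differentiableAt (by simp)).hasFDerivAt
  have hΦd : ∀ z ∈ D, HasFDerivAt Φ (Ψ z) z := by
    intro z hz
    have h1 : HasFDerivAt (fun z : X × P => K.starProjection (z.1 - a₀))
        (K.starProjection ∘L ContinuousLinearMap.fst ℝ X P) z := by
      apply K.starProjection.hasFDerivAt.comp z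
      exact hasFDerivAt_fst.sub_const a₀
    have h2 : HasFDerivAt (fun z : X × P => Kᗮ.starProjection (F z))
        (Kᗮ.starProjection ∘L fderiv ℝ F z) z :=
      Kᗮ.starProjection.hasFDerivAt.comp z (hFd z hz)
    exact (h1.add h2).prodMk hasFDerivAt_snd
  have hΨc : ContinuousOn Ψ D := by
    have h1 : ContinuousOn (fderiv ℝ F) D := hF.continuousOn_fderiv_of_isOpen hD (by simp)
    have h2 : ContinuousOn (fun z => Kᗮ.starProjection ∘L fderiv ℝ F z) D :=
      continuousOn_const.clm_comp h1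
    have h3 : ContinuousOn (fun z => (K.starProjection ∘L ContinuousLinearMap.fst ℝ X P) +
      (Kᗮ.starProjection ∘L fderiv ℝ F z)) D := continuousOn_const.add h2
    have h4 : Continuous (fun L : (X × P →L[ℝ] X) =>
        L.prod (ContinuousLinearMap.snd ℝ X P)) := by
      have : (fun L : (X × P →L[ℝ] X) => L.prod (ContinuousLinearMap.snd ℝ X P)) =
        fun L => (ContinuousLinearMap.inl ℝ X P) ∘L L +
          (ContinuousLinearMap.inr ℝ X P) ∘L (ContinuousLinearMap.snd ℝ X P) := by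
        funext L
        ext v <;> simp
      rw [this]
      fun_prop
    exact h4.comp_continuousOn h3
  -- invertibility
  have hinjz : Function.Injective (Ψ (a₀, p₀)) := by
    rw [injective_iff_map_eq_zero]
    rintro ⟨a', p'⟩ h
    rw [hΨap] at h
    obtain ⟨h1, h2⟩ := Prod.mk.inj h
    simp only at h1 h2
    subst h2
    obtain ⟨h3, h4⟩ := hsum _ _ h1
    have h5 := hKperp' _ h4
    have h6 : fderiv ℝ F (a₀, p₀) (a', 0) ∈ Kᗮ := by
      intro k hk
      rw [real_inner_comm, hsym, (hK k).2 hk, inner_zero_right]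
    have h7 : fderiv ℝ F (a₀, p₀) (a', 0) = 0 := by
      have := Submodule.inner_right_of_mem_orthogonal h5 h6
      exact inner_self_eq_zero.1 this
    have h8 : a' ∈ K := (hK a').1 h7
    have h9 : K.starProjection a' = a' := Submodule.starProjection_eq_self_iff.2 h8
    rw [h9] at h3
    rw [h3]
    rfl
  let f' : (X × P) ≃L[ℝ] (X × P) :=
    (LinearEquiv.ofInjectiveEndo (Ψ (a₀, p₀) : X × P →ₗ[ℝ] X × P) hinjz).toContinuousLinearEquiv
  have hf' : (f' : X × P →L[ℝ] X × P) = Ψ (a₀, p₀) := by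
    ext v <;> rfl
  have hd0 : HasFDerivAt Φ (f' : X × P →L[ℝ] X × P) (a₀, p₀) := by
    rw [hf']; exact hΦd _ h0
  have hcd0 : ContDiffAt ℝ ∞ Φ (a₀, p₀) := hΦs.contDiffAt (hD.mem_nhds h0)
  let e := hcd0.toOpenPartialHomeomorph Φ hd0 (by simp)
  have he : (e : X × P → X × P) = Φ := rfl
  have hes : (a₀, p₀) ∈ e.source := hcd0.mem_toOpenPartialHomeomorph_source hd0 (by simp)
  let W0 : Set (X × P) := D ∩ Ψ ⁻¹' (Set.range ((↑) : ((X × P) ≃L[ℝ] (X × P)) → (X × P →L[ℝ] X × P)))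
  have hW0 : IsOpen W0 := hΨc.isOpen_inter_preimage hD ContinuousLinearEquiv.isOpen
  let e' := e.restrOpen W0 hW0
  have he' : (e' : X × P → X × P) = Φ := rfl
  have hsrc : e'.source = e.source ∩ W0 := e.restrOpen_source W0 hW0
  let j : K × P → X × P := fun q => ((q.1 : X), q.2)
  have hjs : ContDiff ℝ ∞ j := by
    apply ContDiff.prodMk
    · exact (K.subtypeL.contDiff).comp contDiff_fst
    · exact contDiff_snd
  let U : Set (K × P) := j ⁻¹' e'.target
  let A : K × P → X := fun q => (e'.symm (j q)).1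
  have hz0 : (a₀, p₀) ∈ e'.source := by
    rw [hsrc]
    exact ⟨hes, h0, ⟨f', hf'⟩⟩
  have hΦ0 : Φ (a₀, p₀) = j (0, p₀) := by
    show (K.starProjection (a₀ - a₀) + Kᗮ.starProjection (F (a₀, p₀)), p₀) = (((0 : K) : X), p₀)
    rw [sub_self, map_zero, hF0, map_zero, add_zero]
    rfl
  have hjt : j (0, p₀) ∈ e'.target := by
    rw [← hΦ0]
    exact e'.map_source hz0
  have hsy0 : e'.symm (j (0, p₀)) = (a₀, p₀) := by
    rw [← hΦ0]
    exact e'.left_inv hz0
  -- basic facts for q in U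
  have hq : ∀ q ∈ U, e'.symm (j q) = (A q, q.2) ∧ (A q, q.2) ∈ e'.source ∧
      Φ (A q, q.2) = j q := by
    intro q hqU
    have h1 : e'.symm (j q) ∈ e'.source := e'.map_target hqU
    have h2 : Φ (e'.symm (j q)) = j q := e'.right_inv hqU
    have h3 : (e'.symm (j q)).2 = q.2 := congrArg Prod.snd h2
    have h4 : e'.symm (j q) = (A q, q.2) := by
      rw [← h3]
    rw [h4] at h1 h2
    exact ⟨h4, h1, h2⟩
  have hmemW : ∀ z ∈ e'.source, z ∈ D ∧ ∃ g' : (X × P) ≃L[ℝ] (X × P),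
      (g' : X × P →L[ℝ] X × P) = Ψ z := by
    intro z hz
    rw [hsrc] at hz
    exact ⟨hz.2.1, hz.2.2⟩
  have hperp : ∀ q ∈ U, Kᗮ.starProjection (F (A q, q.2)) = 0 ∧
      K.starProjection (A q - a₀) = (q.1 : X) := by
    intro q hqU
    obtain ⟨-, -, h3⟩ := hq q hqU
    have h4 : K.starProjection (A q - a₀) + Kᗮ.starProjection (F (A q, q.2)) = (q.1 : X) :=
      congrArg Prod.fst h3
    have h5 : K.starProjection (q.1 : X) = (q.1 : X) := Submodule.starProjection_eq_self_iff.2 q.1.2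
    have h6 : K.starProjection (A q - a₀ - (q.1 : X)) + Kᗮ.starProjection (F (A q, q.2)) = 0 := by
      rw [map_sub, h5, sub_add_eq_add_sub, h4, sub_self]
    obtain ⟨h7, h8⟩ := hsum _ _ h6
    refine ⟨h8, ?_⟩
    rw [map_sub, h5, sub_eq_zero] at h7
    exact h7
  have hderiv0 : HasFDerivAt e'.symm ((f'.symm : (X × P) ≃L[ℝ] (X × P)) : X × P →L[ℝ] X × P)
      (j (0, p₀)) := by
    apply e'.hasFDerivAt_symm hjt
    rw [hsy0]
    exact hd0
  refine ⟨U, e'.source, A, fun z hz => (hmemW z hz).1, e'.open_target.preimage hjs.continuous,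
    e'.open_source, hjt, hz0, ?_, ?_, ?_, ?_, ?_, ?_, ?_, ?_⟩
  · show (e'.symm (j (0, p₀))).1 = a₀
    rw [hsy0]
  · intro q hqU
    obtain ⟨h1, h2, -⟩ := hq q hqU
    obtain ⟨h3, g', hg'⟩ := hmemW _ h2
    apply ContDiffAt.contDiffWithinAt
    have h4 : ContDiffAt ℝ ∞ e'.symm (j q) := by
      apply e'.contDiffAt_symm (f₀' := g') hqU
      · rw [h1, hg']
        exact hΦd _ h3
      · rw [h1]
        exact hΦs.contDiffAt (hD.mem_nhds h3)
    exact contDiffAt_fst.comp q (h4.comp q hjs.contDiffAt)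
  · intro q hqU
    exact (hq q hqU).2.1
  · intro q hqU
    apply Subtype.ext
    exact (hperp q hqU).2
  · intro q hqU v hv
    have h1 := (hperp q hqU).1
    have h2 := hKperp' _ h1
    exact Submodule.inner_right_of_mem_orthogonal h2 hv
  · intro a p hap hv
    have h1 := hKperp _ hv
    have h2 : Φ (a, p) = j (K.orthogonalProjectionOnto (a - a₀), p) := by
      show (K.starProjection (a - a₀) + Kᗮ.starProjection (F (a, p)), p) = _
      rw [h1, add_zero]
      rfl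
    constructor
    · show j _ ∈ e'.target
      rw [← h2]
      exact e'.map_source hap
    · show (e'.symm (j _)).1 = a
      rw [← h2]
      have : e'.symm (Φ (a, p)) = (a, p) := e'.left_inv hap
      rw [this]
  · intro k
    have hj : HasFDerivAt j (K.subtypeL.prodMap (ContinuousLinearMap.id ℝ P)) ((0 : K), p₀) := by
      have := (K.subtypeL.prodMap (ContinuousLinearMap.id ℝ P)).hasFDerivAt (x := ((0 : K), p₀))
      exact this
    have h1 : HasFDerivAt A ((ContinuousLinearMap.fst ℝ X P) ∘L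
        (((f'.symm : (X × P) ≃L[ℝ] (X × P)) : X × P →L[ℝ] X × P) ∘L
          (K.subtypeL.prodMap (ContinuousLinearMap.id ℝ P)))) ((0 : K), p₀) := by
      exact hasFDerivAt_fst.comp _ (hderiv0.comp _ hj)
    rw [h1.fderiv]
    have h2 : f' ((k : X), (0 : P)) = ((k : X), (0 : P)) := by
      have h3 : f' ((k : X), (0 : P)) = Ψ (a₀, p₀) ((k : X), (0 : P)) := by
        rw [← hf']; rfl
      rw [h3, hΨap]
      have h4 : K.starProjection (k : X) = (k : X) := Submodule.starProjection_eq_self_iff.2 k.2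
      rw [(hK (k : X)).2 k.2, map_zero, add_zero]
      simp only [h4]
    have h5 : f'.symm ((k : X), (0 : P)) = ((k : X), (0 : P)) := by
      rw [ContinuousLinearEquiv.symm_apply_eq, h2]
    show (f'.symm ((k : X), (0 : P))).1 = (k : X)
    rw [h5]
  · intro q hqU v hv hw
    obtain ⟨h1, h2, -⟩ := hq q hqU
    obtain ⟨h3, g', hg'⟩ := hmemW _ h2
    have h4 : Ψ (A q, q.2) (v, 0) = 0 := by
      rw [hΨap]
      have h5 : K.starProjection v = 0 := (Submodule.starProjection_apply_eq_zero_iff _).2 hv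
      have h6 := hKperp _ hw
      simp only [h5, h6, add_zero]
      rfl
    rw [← hg'] at h4
    have h7 : g' (v, 0) = g' 0 := by
      rw [map_zero]
      exact h4
    have h8 := g'.injective h7
    exact congrArg Prod.fst h8

end

/-! PLAIN PROOF OF THE TARGET(S)

a0 = P x0 ∈ O, φ = cmap T g, φ(a0) = x0 ∈ V.  f(a,p) = fam p (φ a) is smooth on O'' × (R^n × ℝ), O'' = {a ∈ O | φ a ∈ V} open.  K = nullK T g x0 p0 is the kernel of
Lop g a0 (Q(p0.1 - p0.2 x0)) p0.2, and Q(p.1 - p.2 x0) = Q p.1 - p.2 g(a0), so by fam_d2 D_a²f(a0,p0)(u,v) = -<Lop .. u, v>, K is the null space of this symmetric form (lop_symm), and the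
restriction of the form to Kᗮ is nondegenerate.  Consider Φ : T × P → T × P, P = R^n × ℝ, Φ(a,p) = (P_K(a - a0) + P_{Kᗮ} grad_a f(a,p), p), where
grad_a f(a,p) = P p.1 - p.2 a + nrm g a (Q p.1 - p.2 g a) (fam_d1), smooth.  Its derivative at (a0,p0) is (a',p') ↦ (P_K a' - P_{Kᗮ} Lop a' + P_{Kᗮ}(..)p', p'), invertible.  By the
inverse function theorem (`ContDiffAt.toOpenPartialHomeomorph` with n = ∞ or at each finite order; the inverse is smooth near Φ(a0,p0)) Φ is a diffeomorphism from a neighbourhood W of (a0,p0),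
W ⊆ S ∩ (O'' × P), to a neighbourhood of (0,p0).  P_{Kᗮ}grad f(a0,p0) = 0 since x0 is critical (br_crit).  A(u,p) = first component of Φ^{-1}(u,p) (u ∈ K), U = {(u,p) : (u,p) ∈ Φ(W)}.  All
clauses: Φ(A(u,p),p) = (u,p) says P_K(A - a0) = u and P_{Kᗮ}grad = 0 (perp); uniq: injectivity of Φ on W.  dA0: DA(0,p0)(k,0) = k since DΦ(a0,p0)(k,0) = (k,0) for k ∈ K
(Lop k = 0).  inv: nondegeneracy on Kᗮ is an open condition, shrink W (and U).
-/

section
variable {n m : ℕ} {M : Set (Eu n)} {T : Submodule ℝ (Eu n)} {g : T → Tᗮ} {O : Set T} {V : Set (Eu n)}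


/-- the gradient of `fam p ∘ cmap T g` at `a` -/
noncomputable def red_existsF (T : Submodule ℝ (Eu n)) (g : T → Tᗮ) (z : T × (Eu n × ℝ)) : T :=
  T.orthogonalProjectionOnto z.2.1 - z.2.2 • z.1 +
    nrm g z.1 (Tᗮ.orthogonalProjectionOnto z.2.1 - z.2.2 • g z.1)

theorem red_exists_smooth (hO : IsOpen O) (hg : ContDiffOn ℝ ∞ g O) :
    ContDiffOn ℝ ∞ (red_existsF T g) {z : T × (Eu n × ℝ) | z.1 ∈ O} := by
  have hrep : ∀ z : T × (Eu n × ℝ), red_existsF T g z = ∑ i,
      (⟪stdOrthonormalBasis ℝ T i, T.orthogonalProjectionOnto z.2.1 - z.2.2 • z.1⟫_ℝ +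
        ⟪fderiv ℝ g z.1 (stdOrthonormalBasis ℝ T i),
          Tᗮ.orthogonalProjectionOnto z.2.1 - z.2.2 • g z.1⟫_ℝ) • stdOrthonormalBasis ℝ T i := by
    intro z
    conv_lhs => rw [← (stdOrthonormalBasis ℝ T).sum_repr' (red_existsF T g z)]
    apply Finset.sum_congr rfl
    intro i _
    rw [red_existsF, inner_add_right, nrm, ContinuousLinearMap.adjoint_inner_right]
  have hg1 : ContDiffOn ℝ ∞ (fun z : T × (Eu n × ℝ) => g z.1) {z : T × (Eu n × ℝ) | z.1 ∈ O} :=
    hg.comp contDiff_fst.contDiffOn (fun z hz => hz)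
  have hdg : ContDiffOn ℝ ∞ (fun z : T × (Eu n × ℝ) => fderiv ℝ g z.1)
      {z : T × (Eu n × ℝ) | z.1 ∈ O} :=
    (hg.fderiv_of_isOpen hO (m := ∞) (by simp)).comp contDiff_fst.contDiffOn (fun z hz => hz)
  have h1 : ContDiff ℝ ∞ (fun z : T × (Eu n × ℝ) => T.orthogonalProjectionOnto z.2.1 - z.2.2 • z.1) := by
    apply ContDiff.sub
    · exact T.orthogonalProjectionOnto.contDiff.comp (contDiff_fst.comp contDiff_snd)
    · exact (contDiff_snd.comp contDiff_snd).smul contDiff_fst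
  have h2 : ContDiffOn ℝ ∞ (fun z : T × (Eu n × ℝ) => Tᗮ.orthogonalProjectionOnto z.2.1 - z.2.2 • g z.1)
      {z : T × (Eu n × ℝ) | z.1 ∈ O} := by
    apply ContDiffOn.sub
    · exact (Tᗮ.orthogonalProjectionOnto.contDiff.comp (contDiff_fst.comp contDiff_snd)).contDiffOn
    · exact (contDiff_snd.comp contDiff_snd).contDiffOn.smul hg1
  have hfun : red_existsF T g = fun z => ∑ i,
      (⟪stdOrthonormalBasis ℝ T i, T.orthogonalProjectionOnto z.2.1 - z.2.2 • z.1⟫_ℝ +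
        ⟪fderiv ℝ g z.1 (stdOrthonormalBasis ℝ T i),
          Tᗮ.orthogonalProjectionOnto z.2.1 - z.2.2 • g z.1⟫_ℝ) • stdOrthonormalBasis ℝ T i :=
    funext hrep
  rw [hfun]
  apply ContDiffOn.sum
  intro i _
  have h3 : ContDiffOn ℝ ∞ (fun z : T × (Eu n × ℝ) =>
      ⟪stdOrthonormalBasis ℝ T i, T.orthogonalProjectionOnto z.2.1 - z.2.2 • z.1⟫_ℝ +
        ⟪fderiv ℝ g z.1 (stdOrthonormalBasis ℝ T i),
          Tᗮ.orthogonalProjectionOnto z.2.1 - z.2.2 • g z.1⟫_ℝ)
      {z : T × (Eu n × ℝ) | z.1 ∈ O} := by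
    apply ContDiffOn.add
    · exact contDiffOn_const.inner ℝ h1.contDiffOn
    · exact (hdg.clm_apply contDiffOn_const).inner ℝ h2
  exact h3.smul contDiffOn_const

theorem red_exists_d1 (hO : IsOpen O) (hg : ContDiffOn ℝ ∞ g O) (a : T) (ha : a ∈ O)
    (p : Eu n × ℝ) (u : T) :
    fderiv ℝ (fam p ∘ cmap T g) a u = ⟪red_existsF T g (a, p), u⟫_ℝ :=
  fam_d1 g O hO hg a ha p u

theorem red_exists_fam (p : Eu n × ℝ) : ContDiff ℝ ∞ (fam p) := by
  unfold fam
  exact (contDiff_const.inner ℝ contDiff_id).sub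
    ((contDiff_const.mul (contDiff_id.norm_sq ℝ)).div_const 2)

theorem red_exists_d2 (hO : IsOpen O) (hg : ContDiffOn ℝ ∞ g O) (a : T) (ha : a ∈ O)
    (p : Eu n × ℝ) (u v : T) :
    fderiv ℝ (fderiv ℝ (fam p ∘ cmap T g)) a u v =
      ⟪fderiv ℝ (red_existsF T g) (a, p) (u, 0), v⟫_ℝ := by
  have hopen : IsOpen {z : T × (Eu n × ℝ) | z.1 ∈ O} := hO.preimage continuous_fst
  have hF : HasFDerivAt (red_existsF T g) (fderiv ℝ (red_existsF T g) (a, p)) (a, p) :=
    (((red_exists_smooth hO hg).contDiffAt (hopen.mem_nhds (show (a, p).1 ∈ O from ha))).differentiableAt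
      (by simp)).hasFDerivAt
  have h1 : HasFDerivAt (fun a' : T => red_existsF T g (a', p))
      ((fderiv ℝ (red_existsF T g) (a, p)) ∘L ContinuousLinearMap.inl ℝ T (Eu n × ℝ)) a :=
    HasFDerivAt.comp (g := red_existsF T g) (f := fun e : T => (e, p)) a hF
      (hasFDerivAt_prodMk_left a p)
  have h2 : HasFDerivAt (fun a' : T => ⟪red_existsF T g (a', p), v⟫_ℝ)
      (fderiv ℝ (fun a' : T => ⟪red_existsF T g (a', p), v⟫_ℝ) a) a :=
    (h1.differentiableAt.inner ℝ (differentiableAt_const v)).hasFDerivAt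
  have h2' : fderiv ℝ (fun a' : T => ⟪red_existsF T g (a', p), v⟫_ℝ) a u =
      ⟪fderiv ℝ (red_existsF T g) (a, p) (u, 0), v⟫_ℝ := by
    rw [fderiv_inner_apply ℝ h1.differentiableAt (differentiableAt_const v), h1.fderiv]
    simp
  have hcm : ContDiffOn ℝ ∞ (cmap T g) O := by
    unfold cmap
    exact (T.subtypeL.contDiff.contDiffOn).add (Tᗮ.subtypeL.contDiff.comp_contDiffOn hg)
  have hfc : ContDiffOn ℝ ∞ (fam p ∘ cmap T g) O := (red_exists_fam p).comp_contDiffOn hcm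
  have h3 : DifferentiableAt ℝ (fderiv ℝ (fam p ∘ cmap T g)) a :=
    ((hfc.contDiffAt (hO.mem_nhds ha)).fderiv_right (m := ∞) (by simp)).differentiableAt (by simp)
  have h4 : HasFDerivAt (fun a' : T => fderiv ℝ (fam p ∘ cmap T g) a' v)
      (fderiv ℝ (fun a' : T => fderiv ℝ (fam p ∘ cmap T g) a' v) a) a :=
    (h3.clm_apply (differentiableAt_const v)).hasFDerivAt
  have h5 : (fun a' : T => fderiv ℝ (fam p ∘ cmap T g) a' v) =ᶠ[𝓝 a]
      (fun a' : T => ⟪red_existsF T g (a', p), v⟫_ℝ) := by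
    filter_upwards [hO.mem_nhds ha] with a' ha'
    exact red_exists_d1 hO hg a' ha' p v
  have h6 := h5.fderiv_eq (𝕜 := ℝ)
  have h7 : fderiv ℝ (fun a' : T => fderiv ℝ (fam p ∘ cmap T g) a' v) a u =
      fderiv ℝ (fderiv ℝ (fam p ∘ cmap T g)) a u v := by
    rw [fderiv_clm_apply h3 (differentiableAt_const v)]
    simp
  rw [← h7, h6, h2']

/-- TARGET -/
theorem red_exists (hc : IsChart ∞ m M T g O V) (x₀ : Eu n) (hx : x₀ ∈ M) (hxV : x₀ ∈ V)
    (p₀ : Eu n × ℝ) (hcr : x₀ ∈ critSet M (fam p₀)) (S : Set (T × (Eu n × ℝ)))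
    (hS : S ∈ 𝓝 (T.orthogonalProjectionOnto x₀, p₀)) :
    ∃ (U : Set (nullK T g x₀ p₀ × (Eu n × ℝ))) (W : Set (T × (Eu n × ℝ)))
      (A : nullK T g x₀ p₀ × (Eu n × ℝ) → T), W ⊆ S ∧
      Red T g O V (T.orthogonalProjectionOnto x₀) p₀ (nullK T g x₀ p₀) U W A := by
  have hO := hc.openO
  have hg := hc.smooth
  obtain ⟨ha, hmem⟩ := hc.mem x₀ hxV
  have hga := hmem.1 hx
  have hcm : ContDiffOn ℝ ∞ (cmap T g) O := by
    unfold cmap
    exact (T.subtypeL.contDiff.contDiffOn).add (Tᗮ.subtypeL.contDiff.comp_contDiffOn hg)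
  have hx0 : cmap T g (T.orthogonalProjectionOnto x₀) = x₀ := by
    rw [cmap, ← hga]
    exact Submodule.starProjection_add_starProjection_orthogonal (K := T) x₀
  have hO2 : IsOpen (O ∩ cmap T g ⁻¹' V) := hcm.continuousOn.isOpen_inter_preimage hO hc.openV
  set a₀ := T.orthogonalProjectionOnto x₀ with ha₀
  let D : Set (T × (Eu n × ℝ)) := interior S ∩ {z | z.1 ∈ O ∩ cmap T g ⁻¹' V}
  have hD : IsOpen D := isOpen_interior.inter (hO2.preimage continuous_fst)
  have h0 : (a₀, p₀) ∈ D := ⟨mem_interior_iff_mem_nhds.2 hS, ha, by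
    show cmap T g a₀ ∈ V
    rw [hx0]; exact hxV⟩
  have hF : ContDiffOn ℝ ∞ (red_existsF T g) D :=
    (red_exists_smooth hO hg).mono (fun z hz => hz.2.1)
  have hcrit : fderiv ℝ (fam p₀ ∘ cmap T g) a₀ = 0 :=
    (br_crit hc x₀ hx hxV (fam p₀) (red_exists_fam p₀)).1 hcr
  have hF0 : red_existsF T g (a₀, p₀) = 0 := by
    apply ext_inner_right ℝ
    intro v
    rw [← red_exists_d1 hO hg a₀ ha p₀ v, hcrit, inner_zero_left]
    rfl
  have hb : Tᗮ.orthogonalProjectionOnto (p₀.1 - p₀.2 • x₀) =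
      Tᗮ.orthogonalProjectionOnto p₀.1 - p₀.2 • g a₀ := by
    rw [map_sub, map_smul, hga]
  have hL : ∀ u : T, fderiv ℝ (red_existsF T g) (a₀, p₀) (u, 0) =
      -(Lop g a₀ (Tᗮ.orthogonalProjectionOnto (p₀.1 - p₀.2 • x₀)) p₀.2 u) := by
    intro u
    apply ext_inner_right ℝ
    intro v
    rw [← red_exists_d2 hO hg a₀ ha p₀ u v, fam_d2 g O hO hg a₀ ha p₀ u v, hb, inner_neg_left]
  have hK : ∀ v : T, fderiv ℝ (red_existsF T g) (a₀, p₀) (v, 0) = 0 ↔ v ∈ nullK T g x₀ p₀ := by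
    intro v
    rw [hL v, neg_eq_zero, nullK, LinearMap.mem_ker]
    rfl
  have hsym : ∀ u v : T, ⟪fderiv ℝ (red_existsF T g) (a₀, p₀) (u, 0), v⟫_ℝ =
      ⟪u, fderiv ℝ (red_existsF T g) (a₀, p₀) (v, 0)⟫_ℝ := by
    intro u v
    rw [hL u, hL v, inner_neg_left, inner_neg_right,
      lop_symm g O hO hg a₀ ha _ p₀.2 u v]
  obtain ⟨U, W, A, hWD, hU, hW, hmU, hmW, hA0, hAs, hdom, hproj, hperp, huniq, hdA, hinv⟩ :=
    red_exists_abs (red_existsF T g) D hD hF a₀ p₀ h0 hF0 (nullK T g x₀ p₀) hK hsym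
  have hAO : ∀ q ∈ U, A q ∈ O := fun q hq => (hWD (hdom q hq)).2.1
  refine ⟨U, W, A, fun z hz => interior_subset (hWD hz).1, ?_⟩
  refine
    { openU := hU
      openW := hW
      memU := hmU
      memW := hmW
      A0 := hA0
      smooth := hAs
      dom := fun q hq => ⟨hdom q hq, hAO q hq, (hWD (hdom q hq)).2.2⟩
      proj := hproj
      perp := ?_
      uniq := ?_
      dA0 := hdA
      inv := ?_ }
  · intro q hq v hv
    rw [red_exists_d1 hO hg (A q) (hAO q hq) q.2 v]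
    exact hperp q hq v hv
  · intro a p hap hv
    apply huniq a p hap
    intro v hvK
    rw [← red_exists_d1 hO hg a (hWD hap).2.1 p v]
    exact hv v hvK
  · intro q hq v hv hw
    apply hinv q hq v hv
    intro w hwK
    rw [← red_exists_d2 hO hg (A q) (hAO q hq) q.2 v w]
    exact hw w hwK

end

end Pool.Agent.H469
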