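import Mathlib
import Pool.Agent.Helper469_Dupin.Jdconst

set_option autoImplicit false

open Set Filter Topology MeasureTheory
open scoped ContDiff InnerProductSpace

namespace Pool.Agent.H469


section

variable {K P F : Type} [NormedAddCommGroup K] [NormedSpace ℝ K] [FiniteDimensional ℝ K]
  [NormedAddCommGroup P] [NormedSpace ℝ P] [FiniteDimensional ℝ P]
  [NormedAddCommGroup F] [NormedSpace ℝ F]

/-- the linear equivalence `(k, p) ↦ (e k + B p, p)` -/
def trap_abs_equiv (e : K ≃L[ℝ] F) (B : P →L[ℝ] F) : (K × P) ≃L[ℝ] (F × P) :=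
  ContinuousLinearEquiv.equivOfInverse
    (((e : K →L[ℝ] F).coprod B).prod (ContinuousLinearMap.snd ℝ K P))
    (((e.symm : F →L[ℝ] K).comp ((ContinuousLinearMap.fst ℝ F P) -
      B.comp (ContinuousLinearMap.snd ℝ F P))).prod (ContinuousLinearMap.snd ℝ F P))
    (by rintro ⟨k, p⟩; simp)
    (by rintro ⟨f, p⟩; simp)

theorem trap_abs_local (g : K × P → F) (u : K) (p₀ : P) (hg : ContDiffAt ℝ ∞ g (u, p₀))
    (h0 : g (u, p₀) = 0)
    (hnd : ∃ e : K ≃L[ℝ] F, ∀ k, fderiv ℝ g (u, p₀) (k, 0) = e k) (O : Set K) (hO : O ∈ 𝓝 u) :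
    ∃ O' ⊆ O, IsOpen O' ∧ u ∈ O' ∧
      ∀ᶠ p in 𝓝 p₀, (∃ v ∈ O', g (v, p) = 0) ∧
        ∀ v ∈ O', ∀ w ∈ O', g (v, p) = 0 → g (w, p) = 0 → v = w := by
  obtain ⟨e, he⟩ := hnd
  set B : P →L[ℝ] F := (fderiv ℝ g (u, p₀)).comp (ContinuousLinearMap.inr ℝ K P) with hB
  have hs : HasStrictFDerivAt g (fderiv ℝ g (u, p₀)) (u, p₀) :=
    hg.hasStrictFDerivAt (by simp)
  have hE : (trap_abs_equiv e B : (K × P) →L[ℝ] (F × P)) =
      (fderiv ℝ g (u, p₀)).prod (ContinuousLinearMap.snd ℝ K P) := by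
    refine ContinuousLinearMap.ext fun q => ?_
    obtain ⟨k, p⟩ := q
    have h1 : fderiv ℝ g (u, p₀) (k, p) = fderiv ℝ g (u, p₀) (k, 0) + fderiv ℝ g (u, p₀) (0, p) := by
      rw [← map_add]; simp
    refine Prod.ext ?_ ?_
    · change e k + B p = fderiv ℝ g (u, p₀) (k, p)
      rw [h1, he]
      rfl
    · rfl
  have hΦ : HasStrictFDerivAt (fun q : K × P => (g q, q.2))
      (trap_abs_equiv e B : (K × P) →L[ℝ] (F × P)) (u, p₀) := by
    rw [hE]
    exact hs.prodMk (hasStrictFDerivAt_snd (𝕜 := ℝ) (E := K) (F := P) (p := (u, p₀)))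
  have : CompleteSpace (K × P) := FiniteDimensional.complete ℝ (K × P)
  set Ψ := hΦ.toOpenPartialHomeomorph (fun q : K × P => (g q, q.2)) with hΨ
  have hcoe : ∀ q, Ψ q = (g q, q.2) := fun q => by
    rw [hΨ, HasStrictFDerivAt.toOpenPartialHomeomorph_coe]
  have hsrc : (u, p₀) ∈ Ψ.source := hΦ.mem_toOpenPartialHomeomorph_source
  have hnb : Ψ.source ∩ (O ×ˢ (univ : Set P)) ∈ 𝓝 (u, p₀) :=
    Filter.inter_mem (Ψ.open_source.mem_nhds hsrc) (prod_mem_nhds hO univ_mem)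
  obtain ⟨O1, hO1, W1, hW1, hsub⟩ := mem_nhds_prod_iff.1 hnb
  obtain ⟨O', hO'1, hO'o, huO'⟩ := mem_nhds_iff.1 hO1
  refine ⟨O', fun v hv => ?_, hO'o, huO', ?_⟩
  · have := hsub (mk_mem_prod (hO'1 hv) (mem_of_mem_nhds hW1))
    exact this.2.1
  · have hval : Ψ (u, p₀) = (0, p₀) := by rw [hcoe, h0]
    have htgt : ((0 : F), p₀) ∈ Ψ.target := hval ▸ Ψ.map_source hsrc
    have hinv : Ψ.symm ((0 : F), p₀) = (u, p₀) := by rw [← hval, Ψ.left_inv hsrc]
    have hcont : Tendsto (fun p : P => Ψ.symm ((0 : F), p)) (𝓝 p₀) (𝓝 (u, p₀)) := by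
      have h1 : ContinuousAt Ψ.symm ((0 : F), p₀) := Ψ.continuousAt_symm htgt
      have h2 : ContinuousAt (fun p : P => ((0 : F), p)) p₀ := by fun_prop
      have h3 := ContinuousAt.comp (g := Ψ.symm) (f := fun p : P => ((0 : F), p)) h1 h2
      have h4 : Tendsto (fun p : P => Ψ.symm ((0 : F), p)) (𝓝 p₀) (𝓝 (Ψ.symm ((0 : F), p₀))) := h3
      rwa [hinv] at h4
    have he1 : ∀ᶠ p in 𝓝 p₀, Ψ.symm ((0 : F), p) ∈ O' ×ˢ (univ : Set P) :=
      hcont.eventually_mem (prod_mem_nhds (hO'o.mem_nhds huO') univ_mem)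
    have he2 : ∀ᶠ p in 𝓝 p₀, ((0 : F), p) ∈ Ψ.target := by
      have h2 : ContinuousAt (fun p : P => ((0 : F), p)) p₀ := by fun_prop
      exact h2.eventually_mem (Ψ.open_target.mem_nhds htgt)
    filter_upwards [he1, he2, hW1] with p hp1 hp2 hp3
    constructor
    · refine ⟨(Ψ.symm ((0 : F), p)).1, hp1.1, ?_⟩
      have h3 := Ψ.right_inv hp2
      rw [hcoe] at h3
      have h4 : (Ψ.symm ((0 : F), p)).2 = p := congrArg Prod.snd h3
      have h5 : g (Ψ.symm ((0 : F), p)) = 0 := congrArg Prod.fst h3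
      have h6 : ((Ψ.symm ((0 : F), p)).1, p) = Ψ.symm ((0 : F), p) := Prod.ext rfl h4.symm
      rw [h6, h5]
    · intro v hv w hw h3 h4
      have hv' : (v, p) ∈ Ψ.source := (hsub (mk_mem_prod (hO'1 hv) hp3)).1
      have hw' : (w, p) ∈ Ψ.source := (hsub (mk_mem_prod (hO'1 hw) hp3)).1
      have h5 : Ψ (v, p) = Ψ (w, p) := by rw [hcoe, hcoe, h3, h4]
      exact congrArg Prod.fst (Ψ.injOn hv' hw' h5)

theorem trap_abs_ncard (g : K × P → F) (U : Set (K × P)) (hU : IsOpen U) (hg : ContDiffOn ℝ ∞ g U)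
    (D V : Set K) (hD : IsCompact D) (hV : IsOpen V) (hVD : V ⊆ D) (p₀ : P)
    (hDU : ∀ u ∈ D, (u, p₀) ∈ U) (hbd : ∀ u ∈ D, u ∉ V → g (u, p₀) ≠ 0)
    (hnd : ∀ u ∈ V, g (u, p₀) = 0 →
      ∃ e : K ≃L[ℝ] F, ∀ k, fderiv ℝ g (u, p₀) (k, 0) = e k) :
    ∀ᶠ p in 𝓝 p₀, {u | u ∈ V ∧ g (u, p) = 0}.ncard = {u | u ∈ V ∧ g (u, p₀) = 0}.ncard := by
  classical
  have hgc : ContinuousOn g U := hg.continuousOn
  have hcd : ∀ u ∈ D, ContDiffAt ℝ ∞ g (u, p₀) := fun u hu =>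
    hg.contDiffAt (hU.mem_nhds (hDU u hu))
  -- nonzero points
  have hnz : ∀ u ∈ D, g (u, p₀) ≠ 0 → ∀ᶠ q in 𝓝 (u, p₀), g q ≠ 0 := fun u hu h =>
    (hgc.continuousAt (hU.mem_nhds (hDU u hu))).eventually_ne h
  set Z : Set K := {u | u ∈ V ∧ g (u, p₀) = 0} with hZ
  have hZfin : Z.Finite := by
    have h1 : (D ∩ Z).Finite := by
      refine hD.induction_on (p := fun s => (s ∩ Z).Finite) (by simp)
        (fun s t hst ht => ht.subset (inter_subset_inter_left _ hst))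
        (fun s t hs ht => by rw [union_inter_distrib_right]; exact hs.union ht) ?_
      intro u hu
      by_cases h : g (u, p₀) = 0
      · have huV : u ∈ V := by
          by_contra h2
          exact hbd u hu h2 h
        obtain ⟨O', -, hO', huO', hev⟩ := trap_abs_local g u p₀ (hcd u hu) h (hnd u huV h) univ univ_mem
        refine ⟨O', mem_nhdsWithin_of_mem_nhds (hO'.mem_nhds huO'), ?_⟩
        have h3 := (hev.self_of_nhds).2
        refine (finite_singleton u).subset ?_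
        rintro v ⟨hv, hv2⟩
        exact h3 v hv u huO' hv2.2 h
      · have h3 := hnz u hu h
        have h4 : ∀ᶠ v in 𝓝 u, g (v, p₀) ≠ 0 := by
          have h5 : ContinuousAt (fun v : K => (v, p₀)) u := by fun_prop
          exact h5.eventually h3
        refine ⟨{v | g (v, p₀) ≠ 0}, mem_nhdsWithin_of_mem_nhds h4, ?_⟩
        have h5 : {v | g (v, p₀) ≠ 0} ∩ Z = ∅ := by
          ext v
          simp only [mem_inter_iff, mem_ofPred_eq, mem_empty_iff_false, iff_false, not_and, hZ]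
          intro h1 _
          exact h1
        rw [h5]
        exact finite_empty
    refine h1.subset fun v hv => ⟨hVD hv.1, hv⟩
  obtain ⟨T, hT, hTd⟩ := hZfin.t2_separation
  have hloc : ∀ u ∈ Z, ∃ O' ⊆ T u ∩ V, IsOpen O' ∧ u ∈ O' ∧
      ∀ᶠ p in 𝓝 p₀, (∃ v ∈ O', g (v, p) = 0) ∧
        ∀ v ∈ O', ∀ w ∈ O', g (v, p) = 0 → g (w, p) = 0 → v = w := fun u hu =>
    trap_abs_local g u p₀ (hcd u (hVD hu.1)) hu.2 (hnd u hu.1 hu.2) _
      (((hT u).2.inter hV).mem_nhds ⟨(hT u).1, hu.1⟩)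
  choose! Q hQ1 hQ2 hQ3 hQ4 using hloc
  have hall : ∀ᶠ p in 𝓝 p₀, ∀ u ∈ Z, (∃ v ∈ Q u, g (v, p) = 0) ∧
        ∀ v ∈ Q u, ∀ w ∈ Q u, g (v, p) = 0 → g (w, p) = 0 → v = w := by
    rw [eventually_all_finite hZfin]
    exact hQ4
  -- the complement
  set C : Set K := D \ ⋃ u ∈ Z, Q u with hC
  have hCc : IsCompact C := hD.diff (isOpen_biUnion fun u hu => hQ2 u hu)
  have hCn : ∀ᶠ p in 𝓝 p₀, ∀ v ∈ C, g (v, p) ≠ 0 := by
    refine hCc.induction_on (p := fun s => ∀ᶠ p in 𝓝 p₀, ∀ v ∈ s, g (v, p) ≠ 0) (by simp)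
      (fun s t hst ht => ht.mono fun p hp v hv => hp v (hst hv))
      (fun s t hs ht => by
        filter_upwards [hs, ht] with p h1 h2 v hv
        exact hv.elim (h1 v) (h2 v)) ?_
    intro v hv
    have h1 : g (v, p₀) ≠ 0 := by
      intro h2
      have hvV : v ∈ V := by
        by_contra h3
        exact hbd v hv.1 h3 h2
      exact hv.2 (mem_biUnion (show v ∈ Z from ⟨hvV, h2⟩) (hQ3 v ⟨hvV, h2⟩))
    have h2 := hnz v hv.1 h1
    rw [nhds_prod_eq] at h2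
    obtain ⟨pa, hpa, pb, hpb, h3⟩ := Filter.eventually_prod_iff.1 h2
    exact ⟨{w | pa w}, mem_nhdsWithin_of_mem_nhds hpa, hpb.mono fun p hp w hw => h3 hw hp⟩
  filter_upwards [hall, hCn] with p hp1 hp2
  -- bijection
  choose! φ hφ1 hφ2 using fun u (hu : u ∈ Z) => (hp1 u hu).1
  have himg : {u | u ∈ V ∧ g (u, p) = 0} = φ '' Z := by
    ext v
    constructor
    · rintro ⟨hv, hv0⟩
      by_cases h : v ∈ ⋃ u ∈ Z, Q u
      · obtain ⟨u, hu, hvu⟩ := mem_iUnion₂.1 h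
        exact ⟨u, hu, (hp1 u hu).2 _ (hφ1 u hu) _ hvu (hφ2 u hu) hv0⟩
      · exact absurd hv0 (hp2 v ⟨hVD hv, h⟩)
    · rintro ⟨u, hu, rfl⟩
      exact ⟨(hQ1 u hu (hφ1 u hu)).2, hφ2 u hu⟩
  rw [himg]
  refine InjOn.ncard_image ?_
  intro a ha b hb hab
  by_contra hne
  have h1 := hTd ha hb hne
  exact (Set.disjoint_left.1 h1) (hQ1 a ha (hφ1 a ha)).1 (hab ▸ (hQ1 b hb (hφ1 b hb)).1)

theorem trap_abs_second (f : K → ℝ) (u₀ : K) (hf : ContDiffAt ℝ ∞ f u₀) (hmax : IsLocalMax f u₀)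
    (k : K) : fderiv ℝ (fderiv ℝ f) u₀ k k ≤ 0 := by
  by_contra hneg
  push Not at hneg
  set ψ : ℝ → ℝ := fun t => f (u₀ + t • k) with hψ
  have hline : ∀ t : ℝ, HasDerivAt (fun t : ℝ => u₀ + t • k) k t := fun t => by
    have h1 : HasDerivAt (fun t : ℝ => t • k) ((1 : ℝ) • k) t := (hasDerivAt_id t).smul_const k
    rw [one_smul] at h1
    exact h1.const_add u₀
  have hl0 : Tendsto (fun t : ℝ => u₀ + t • k) (𝓝 0) (𝓝 u₀) := by
    have h1 : ContinuousAt (fun t : ℝ => u₀ + t • k) 0 := (hline 0).continuousAt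
    have h2 : u₀ + (0 : ℝ) • k = u₀ := by simp
    have h3 : Tendsto (fun t : ℝ => u₀ + t • k) (𝓝 0) (𝓝 (u₀ + (0 : ℝ) • k)) := h1
    rwa [h2] at h3
  have hev : ∀ᶠ v in 𝓝 u₀, ContDiffAt ℝ 2 f v :=
    (hf.of_le ENat.LEInfty.out).eventually (by simp)
  have hd1 : deriv ψ =ᶠ[𝓝 0] fun t => fderiv ℝ f (u₀ + t • k) k := by
    filter_upwards [hl0.eventually hev] with t ht
    have h1 : HasFDerivAt f (fderiv ℝ f (u₀ + t • k)) (u₀ + t • k) :=
      (ht.differentiableAt (by norm_num)).hasFDerivAt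
    exact (h1.comp_hasDerivAt t (hline t)).deriv
  have hdd : HasFDerivAt (fderiv ℝ f) (fderiv ℝ (fderiv ℝ f) u₀) u₀ := by
    have h1 : ContDiffAt ℝ 1 (fderiv ℝ f) u₀ :=
      (hf.of_le (m := 2) ENat.LEInfty.out).fderiv_right (m := 1) (by norm_num)
    exact (h1.differentiableAt (by norm_num)).hasFDerivAt
  have hd2 : HasDerivAt (fun t : ℝ => fderiv ℝ f (u₀ + t • k) k) (fderiv ℝ (fderiv ℝ f) u₀ k k) 0 := by
    have h2 : u₀ + (0 : ℝ) • k = u₀ := by simp
    have h3 : HasFDerivAt (fderiv ℝ f) (fderiv ℝ (fderiv ℝ f) u₀) (u₀ + (0 : ℝ) • k) := by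
      rw [h2]; exact hdd
    have h4 : HasDerivAt (fun t : ℝ => fderiv ℝ f (u₀ + t • k)) (fderiv ℝ (fderiv ℝ f) u₀ k) 0 :=
      h3.comp_hasDerivAt 0 (hline 0)
    have h5 := h4.clm_apply (hasDerivAt_const (0 : ℝ) k)
    simpa using h5
  have hdd2 : deriv (deriv ψ) 0 = fderiv ℝ (fderiv ℝ f) u₀ k k := by
    rw [hd1.deriv_eq]
    exact hd2.deriv
  have hmaxψ : IsLocalMax ψ 0 := by
    have h2 : u₀ + (0 : ℝ) • k = u₀ := by simp
    have h3 : ∀ᶠ t in 𝓝 (0 : ℝ), f (u₀ + t • k) ≤ f u₀ := hl0.eventually hmax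
    change ∀ᶠ t in 𝓝 (0 : ℝ), ψ t ≤ ψ 0
    simp only [hψ, h2]
    exact h3
  have hd0 : deriv ψ 0 = 0 := hmaxψ.deriv_eq_zero
  have hcψ : ContinuousAt ψ 0 := by
    have h1 : ContinuousAt f u₀ := hf.continuousAt
    have h2 : u₀ + (0 : ℝ) • k = u₀ := by simp
    have h3 : Tendsto ψ (𝓝 0) (𝓝 (f u₀)) := h1.tendsto.comp hl0
    change Tendsto ψ (𝓝 0) (𝓝 (f (u₀ + (0 : ℝ) • k)))
    rw [h2]; exact h3
  have hmin : IsLocalMin ψ 0 := isLocalMin_of_deriv_deriv_pos (by rw [hdd2]; exact hneg) hd0 hcψ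
  have hconst : ψ =ᶠ[𝓝 0] fun _ => ψ 0 := by
    filter_upwards [hmaxψ, hmin] with t h1 h2
    exact le_antisymm h1 h2
  have h1 : deriv ψ =ᶠ[𝓝 0] deriv (fun _ => ψ 0) := hconst.deriv
  have h2 := h1.deriv_eq
  rw [hdd2] at h2
  simp at h2
  rw [h2] at hneg
  exact lt_irrefl _ hneg

theorem trap_abs_unique (f : K → ℝ) (u₀ u₁ : K)
    (hf : ∀ t ∈ Icc (0 : ℝ) 1, ContDiffAt ℝ ∞ f (u₀ + t • (u₁ - u₀)))
    (h0 : fderiv ℝ f u₀ = 0) (h1 : fderiv ℝ f u₁ = 0)
    (hneg : ∀ t ∈ Icc (0 : ℝ) 1, ∀ k : K, k ≠ 0 →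
      fderiv ℝ (fderiv ℝ f) (u₀ + t • (u₁ - u₀)) k k < 0) : u₀ = u₁ := by
  by_contra hne
  set k : K := u₁ - u₀ with hk
  have hk0 : k ≠ 0 := sub_ne_zero.2 (Ne.symm hne)
  have hline : ∀ t : ℝ, HasDerivAt (fun t : ℝ => u₀ + t • k) k t := fun t => by
    have h1 : HasDerivAt (fun t : ℝ => t • k) ((1 : ℝ) • k) t := (hasDerivAt_id t).smul_const k
    rw [one_smul] at h1
    exact h1.const_add u₀
  have hφ : ∀ t ∈ Icc (0 : ℝ) 1, HasDerivAt (fun t : ℝ => fderiv ℝ f (u₀ + t • k) k)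
      (fderiv ℝ (fderiv ℝ f) (u₀ + t • k) k k) t := by
    intro t ht
    have hdd : HasFDerivAt (fderiv ℝ f) (fderiv ℝ (fderiv ℝ f) (u₀ + t • k)) (u₀ + t • k) := by
      have h1 : ContDiffAt ℝ 1 (fderiv ℝ f) (u₀ + t • k) :=
        ((hf t ht).of_le (m := 2) ENat.LEInfty.out).fderiv_right (m := 1) (by norm_num)
      exact (h1.differentiableAt (by norm_num)).hasFDerivAt
    have h4 : HasDerivAt (fun t : ℝ => fderiv ℝ f (u₀ + t • k))
        (fderiv ℝ (fderiv ℝ f) (u₀ + t • k) k) t := hdd.comp_hasDerivAt t (hline t)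
    have h5 := h4.clm_apply (hasDerivAt_const t k)
    simpa using h5
  obtain ⟨c, hc, hc2⟩ := exists_hasDerivAt_eq_slope (fun t : ℝ => fderiv ℝ f (u₀ + t • k) k)
    (fun t => fderiv ℝ (fderiv ℝ f) (u₀ + t • k) k k) (zero_lt_one)
    (fun t ht => (hφ t ht).continuousAt.continuousWithinAt)
    (fun t ht => hφ t (Ioo_subset_Icc_self ht))
  have e0 : u₀ + (0 : ℝ) • k = u₀ := by simp
  have e1 : u₀ + (1 : ℝ) • k = u₁ := by simp [hk]
  simp only [e0, e1, h0, h1] at hc2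
  have h6 := hneg c (Ioo_subset_Icc_self hc) k hk0
  rw [hc2] at h6
  simp at h6

end

/-! PLAIN PROOF OF THE TARGET(S)

Write Dh(u,p) for the partial derivative in u, D²h for the second, D' = {u : ‖L(u-uc)‖ ≤ r1} (compact, convex), D'' = {‖L(u-uc)‖ ≤ r2}.  The radial derivative is
Dh(u,p)(u-uc).  By compactness of [0,σ1] × ∂D' etc. there are an ε > 0 such that for all p in the convex open set S = {p : dist(p, segment [p1, p1+σ1 δ]) < ε} (a thickening of a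
convex set is convex): (u,p) ∈ U for u ∈ D', and Dh(u,p)(u-uc) < 0 for u ∈ ∂D'; for |p - p1| < ε: Dh(u,p)(u-uc) > 0 on ∂D''; for |p - (p1+σ1δ)| < ε: D²h(u,p)(k,k) < 0
for u ∈ D', k ≠ 0 (Dh, D²h are continuous on the open set U; generalized tube lemma, `IsCompact.eventually_forall...`).
Let N(p) = number (ncard) of u with ‖L(u-uc)‖ < r1 and Dh(u,p) = 0.  For p ∈ S \ B all these critical points are nondegenerate (hnd), so isolated, and there are none on
∂D', so they are finitely many; by the implicit function theorem each persists uniquely for q near p, and by compactness there are no others; B is closed, so N is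
constant near p and q ∉ B.  By const_of_null_on N is constant on S \ B.
B has empty interior (hB with d = 0, null sets have dense complement), so choose p ∉ B with |p - (p1 + σ1 δ)| < ε.  The function h(·,p) on the compact D' attains its
maximum; at a boundary point u, moving to u - t(u-uc) increases h, so the maximum is interior, a critical point; strict concavity on the convex D' gives
uniqueness of critical points, N(p) = 1.  Choose p' ∉ B with |p' - p1| < ε: the maximum over D' is an interior critical point u1 with D²h(u1,p') ≤ 0; the minimum over D'' is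
not on ∂D'' (moving inwards decreases h), so it is an interior critical point u2 with D²h(u2,p') ≥ 0.  If u1 = u2 then D²h(u1,p')(k,k) = 0 for all k, so D²h = 0 by symmetry, contradicting
nondegeneracy (K is nontrivial).  So N(p') ≥ 2, a contradiction.
-/

section

/-- TARGET -/
theorem trap_abs {K P : Type} [NormedAddCommGroup K] [InnerProductSpace ℝ K] [FiniteDimensional ℝ K]
    [Nontrivial K] [NormedAddCommGroup P] [NormedSpace ℝ P] [FiniteDimensional ℝ P] [MeasurableSpace P]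
    [BorelSpace P] (μ : Measure P) [μ.IsAddHaarMeasure] (B : Set P)
    (hB : ∀ d : P, μ {q | ∃ p ∈ B, ∃ s : ℝ, q = p + s • d} = 0) (hBc : IsClosed B)
    (h : K × P → ℝ) (U : Set (K × P)) (hU : IsOpen U) (hh : ContDiffOn ℝ ∞ h U)
    (hnd : ∀ q ∈ U, q.2 ∉ B → fderiv ℝ (fun u => h (u, q.2)) q.1 = 0 →
      ∀ k : K, fderiv ℝ (fderiv ℝ (fun u => h (u, q.2))) q.1 k = 0 → k = 0)
    (uc : K) (L : K ≃L[ℝ] K) (r₂ r₁ : ℝ) (hr₂ : 0 < r₂) (hr : r₂ < r₁) (p₁ δ : P) (σ₁ : ℝ)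
    (hσ : 0 < σ₁)
    (hdom : ∀ u, ‖L (u - uc)‖ ≤ r₁ → ∀ σ ∈ Icc 0 σ₁, (u, p₁ + σ • δ) ∈ U)
    (h1 : ∀ σ ∈ Icc 0 σ₁, ∀ u, ‖L (u - uc)‖ = r₁ →
      fderiv ℝ (fun u => h (u, p₁ + σ • δ)) u (u - uc) < 0)
    (h2 : ∀ u, ‖L (u - uc)‖ = r₂ → 0 < fderiv ℝ (fun u => h (u, p₁)) u (u - uc))
    (h3 : ∀ u, ‖L (u - uc)‖ ≤ r₁ → ∀ k : K, k ≠ 0 →
      fderiv ℝ (fderiv ℝ (fun u => h (u, p₁ + σ₁ • δ))) u k k < 0) : False := by
  classical
  set G : K × P → (K →L[ℝ] ℝ) := fun q => (fderiv ℝ h q).comp (ContinuousLinearMap.inl ℝ K P) with hG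
  have hcdh : ∀ q ∈ U, ContDiffAt ℝ ∞ h q := fun q hq => hh.contDiffAt (hU.mem_nhds hq)
  have hfG : ∀ u p, (u, p) ∈ U → fderiv ℝ (fun u => h (u, p)) u = G (u, p) := by
    intro u p hq
    have h4 : HasFDerivAt h (fderiv ℝ h (u, p)) (u, p) :=
      ((hcdh _ hq).differentiableAt (by simp)).hasFDerivAt
    have h5 : HasFDerivAt (fun u : K => (u, p)) (ContinuousLinearMap.inl ℝ K P) u :=
      hasFDerivAt_prodMk_left u p
    exact (h4.comp u h5).fderiv
  have hGcd : ContDiffOn ℝ ∞ G U := by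
    have h4 : ContDiffOn ℝ ∞ (fderiv ℝ h) U := hh.fderiv_of_isOpen hU (by simp)
    exact h4.clm_comp contDiffOn_const
  have hGat : ∀ q ∈ U, ContDiffAt ℝ ∞ G q := fun q hq => hGcd.contDiffAt (hU.mem_nhds hq)
  have hsec : ∀ u p, (u, p) ∈ U → ∀ᶠ v in 𝓝 u, (v, p) ∈ U := by
    intro u p hq
    have h5 : ContinuousAt (fun v : K => (v, p)) u := by fun_prop
    exact h5.eventually_mem (hU.mem_nhds hq)
  have hfH : ∀ u p, (u, p) ∈ U → ∀ k, fderiv ℝ (fderiv ℝ (fun u => h (u, p))) u k =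
      fderiv ℝ G (u, p) (k, 0) := by
    intro u p hq k
    have h4 : fderiv ℝ (fun u => h (u, p)) =ᶠ[𝓝 u] fun v => G (v, p) := by
      filter_upwards [hsec u p hq] with v hv
      exact hfG v p hv
    rw [h4.fderiv_eq]
    have h5 : HasFDerivAt G (fderiv ℝ G (u, p)) (u, p) :=
      ((hGat _ hq).differentiableAt (by simp)).hasFDerivAt
    have h6 : HasFDerivAt (fun u : K => (u, p)) (ContinuousLinearMap.inl ℝ K P) u :=
      hasFDerivAt_prodMk_left u p
    have h7 := (h5.comp u h6).fderiv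
    have h8 : fderiv ℝ (fun v => G (v, p)) u =
        (fderiv ℝ G (u, p)).comp (ContinuousLinearMap.inl ℝ K P) := h7
    rw [h8]
    rfl
  have hfcd : ∀ u p, (u, p) ∈ U → ContDiffAt ℝ ∞ (fun u => h (u, p)) u := by
    intro u p hq
    exact (hcdh _ hq).comp u (contDiffAt_id.prodMk contDiffAt_const)
  -- the discs
  have hLc : Continuous fun u : K => ‖L (u - uc)‖ := by fun_prop
  have hDc : ∀ r : ℝ, IsCompact {u : K | ‖L (u - uc)‖ ≤ r} := by
    intro r
    have h4 : {u : K | ‖L (u - uc)‖ ≤ r} = (fun w : K => uc + L.symm w) '' Metric.closedBall 0 r := by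
      ext u
      simp only [mem_image, Metric.mem_closedBall, dist_zero_right]
      constructor
      · intro hu
        exact ⟨L (u - uc), hu, by simp⟩
      · rintro ⟨w, hw, rfl⟩
        simpa using hw
    rw [h4]
    exact (isCompact_closedBall 0 r).image (by fun_prop)
  have hsegD : ∀ r : ℝ, ∀ u v : K, ‖L (u - uc)‖ ≤ r → ‖L (v - uc)‖ ≤ r → ∀ t ∈ Icc (0 : ℝ) 1,
      ‖L (u + t • (v - u) - uc)‖ ≤ r := by
    intro r u v hu hv t ht
    have h4 : u + t • (v - u) - uc = (1 - t) • (u - uc) + t • (v - uc) := by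
      module
    rw [h4, map_add, map_smul, map_smul]
    calc ‖(1 - t) • L (u - uc) + t • L (v - uc)‖ ≤ ‖(1 - t) • L (u - uc)‖ + ‖t • L (v - uc)‖ := norm_add_le _ _
      _ = (1 - t) * ‖L (u - uc)‖ + t * ‖L (v - uc)‖ := by
        rw [norm_smul, norm_smul, Real.norm_of_nonneg (by linarith [ht.2]), Real.norm_of_nonneg ht.1]
      _ ≤ (1 - t) * r + t * r := by
        have := mul_le_mul_of_nonneg_left hu (by linarith [ht.2] : (0 : ℝ) ≤ 1 - t)
        have := mul_le_mul_of_nonneg_left hv ht.1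
        linarith
      _ = r := by ring
  set D : Set K := {u : K | ‖L (u - uc)‖ ≤ r₁} with hD
  set V : Set K := {u : K | ‖L (u - uc)‖ < r₁} with hV
  have hVo : IsOpen V := isOpen_lt hLc continuous_const
  have hVD : V ⊆ D := fun u hu => le_of_lt (show ‖L (u - uc)‖ < r₁ from hu)
  have hbdc : ∀ r : ℝ, IsCompact {u : K | ‖L (u - uc)‖ = r} := fun r =>
    (hDc r).of_isClosed_subset (isClosed_eq hLc continuous_const) fun u hu => le_of_eq hu
  -- the segment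
  set T : Set P := (fun σ : ℝ => p₁ + σ • δ) '' Icc 0 σ₁ with hT
  have hTc : IsCompact T := isCompact_Icc.image (by fun_prop)
  have hTconv : Convex ℝ T := by
    rintro _ ⟨s, hs, rfl⟩ _ ⟨t, ht, rfl⟩ a b ha hb hab
    refine ⟨a * s + b * t, ⟨by nlinarith [hs.1, ht.1], ?_⟩, ?_⟩
    · calc a * s + b * t ≤ a * σ₁ + b * σ₁ := by
            have := mul_le_mul_of_nonneg_left hs.2 ha
            have := mul_le_mul_of_nonneg_left ht.2 hb
            linarith
        _ = σ₁ := by rw [← add_mul, hab, one_mul]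
    · change p₁ + (a * s + b * t) • δ = a • (p₁ + s • δ) + b • (p₁ + t • δ)
      have h4 : p₁ = a • p₁ + b • p₁ := by rw [← add_smul, hab, one_smul]
      conv_lhs => rw [h4]
      module
  have hp₁T : p₁ ∈ T := ⟨0, ⟨le_refl _, hσ.le⟩, by simp⟩
  have hpeT : p₁ + σ₁ • δ ∈ T := ⟨σ₁, ⟨hσ.le, le_refl _⟩, rfl⟩
  obtain ⟨a1, b1, -, hb1, ha1D, hb1T, hab1⟩ := generalized_tube_lemma (hDc r₁) hTc hU (by
    rintro ⟨u, p⟩ ⟨hu, σ, hσ2, rfl⟩
    exact hdom u hu σ hσ2)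
  have hU2 : IsOpen {q : K × P | q ∈ U ∧ G q (q.1 - uc) < 0} := by
    have h4 : ContinuousOn (fun q : K × P => G q (q.1 - uc)) U :=
      hGcd.continuousOn.clm_apply (by fun_prop)
    exact h4.isOpen_inter_preimage hU isOpen_Iio
  obtain ⟨a2, b2, -, hb2, ha2D, hb2T, hab2⟩ := generalized_tube_lemma (hbdc r₁) hTc hU2 (by
    rintro ⟨u, p⟩ ⟨hu, σ, hσ2, rfl⟩
    have h4 := hdom u (le_of_eq hu) σ hσ2
    refine ⟨h4, ?_⟩
    have h5 := h1 σ hσ2 u hu
    rw [hfG _ _ h4] at h5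
    exact h5)
  obtain ⟨ε, hε, hεsub⟩ := hTc.exists_thickening_subset_open (hb1.inter hb2)
    (subset_inter hb1T hb2T)
  set S : Set P := Metric.thickening ε T with hS
  have hSo : IsOpen S := Metric.isOpen_thickening
  have hSconv : Convex ℝ S := hTconv.thickening ε
  have hTS : T ⊆ S := Metric.self_subset_thickening hε T
  have hSU : ∀ p ∈ S, ∀ u ∈ D, (u, p) ∈ U := fun p hp u hu =>
    hab1 ⟨ha1D hu, (hεsub hp).1⟩
  have hSbd : ∀ p ∈ S, ∀ u, ‖L (u - uc)‖ = r₁ → G (u, p) (u - uc) < 0 := fun p hp u hu =>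
    (hab2 ⟨ha2D (show u ∈ {u : K | ‖L (u - uc)‖ = r₁} from hu), (hεsub hp).2⟩).2
  set N : P → ℕ := fun p => {u | u ∈ V ∧ G (u, p) = 0}.ncard with hN
  have hfin : Module.finrank ℝ K = Module.finrank ℝ (K →L[ℝ] ℝ) := by
    have h4 : Module.finrank ℝ (Module.Dual ℝ K) = Module.finrank ℝ K := Subspace.dual_finrank_eq
    have h5 : Module.finrank ℝ (Module.Dual ℝ K) = Module.finrank ℝ (K →L[ℝ] ℝ) :=
      (LinearMap.toContinuousLinearMap : (K →ₗ[ℝ] ℝ) ≃ₗ[ℝ] (K →L[ℝ] ℝ)).finrank_eq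
    rw [← h4, h5]
  have hconst := const_of_null_on μ B hB S hSo hSconv N (by
    intro p hp hpB
    have h4 : ∀ᶠ q in 𝓝 p, q ∉ B := hBc.isOpen_compl.mem_nhds hpB
    have h5 := trap_abs_ncard G U hU hGcd D V (hDc r₁) hVo hVD p (hSU p hp) (by
      intro u hu hu2 h0
      have h6 : ‖L (u - uc)‖ = r₁ := le_antisymm hu (not_lt.1 hu2)
      have h7 := hSbd p hp u h6
      rw [h0] at h7
      simp at h7) (by
      intro u hu h0
      have hq := hSU p hp u (hVD hu)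
      set A : K →L[ℝ] (K →L[ℝ] ℝ) := (fderiv ℝ G (u, p)).comp (ContinuousLinearMap.inl ℝ K P) with hA
      have hinj : Function.Injective (A : K →ₗ[ℝ] (K →L[ℝ] ℝ)) := by
        rw [← LinearMap.ker_eq_bot, LinearMap.ker_eq_bot']
        intro k hk
        refine hnd (u, p) hq hpB ?_ k ?_
        · change fderiv ℝ (fun u => h (u, p)) u = 0
          rw [hfG u p hq]; exact h0
        · change fderiv ℝ (fderiv ℝ (fun u => h (u, p))) u k = 0
          rw [hfH u p hq]; exact hk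
      refine ⟨(LinearMap.linearEquivOfInjective (A : K →ₗ[ℝ] (K →L[ℝ] ℝ)) hinj hfin).toContinuousLinearEquiv,
        fun k => rfl⟩)
    filter_upwards [h4, h5] with q hq1 hq2
    exact ⟨hq1, hq2⟩)
  -- density
  have hB0 : μ B = 0 := by
    refine measure_mono_null ?_ (hB 0)
    intro p hp
    exact ⟨p, hp, 0, by simp⟩
  have hdense : ∀ x : P, ∀ Q : P → Prop, (∀ᶠ p in 𝓝 x, Q p) → ∃ p, p ∉ B ∧ Q p := by
    intro x Q hQ
    by_contra hcon
    push Not at hcon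
    have h4 : {p | Q p} ⊆ B := by
      intro p hp
      by_contra h5
      exact hcon p h5 hp
    have h5 : 0 < μ {p | Q p} := MeasureTheory.Measure.measure_pos_of_mem_nhds μ hQ
    exact absurd (measure_mono_null h4 hB0) h5.ne'
  -- boundary behaviour
  have hcone : ∀ r : ℝ, 0 < r → ∀ u : K, ‖L (u - uc)‖ ≤ r →
      uc - u ∈ posTangentConeAt {u : K | ‖L (u - uc)‖ ≤ r} u := by
    intro r hr0 u hu
    refine mem_posTangentConeAt_of_segment_subset ?_
    rw [segment_eq_image']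
    rintro _ ⟨t, ht, rfl⟩
    have h4 := hsegD r u uc hu (by simp [hr0.le]) t ht
    have h5 : u + (uc - u) - u = uc - u := by abel
    change ‖L (u + t • (u + (uc - u) - u) - uc)‖ ≤ r
    rw [h5]
    exact h4
  have hcontD : ∀ p ∈ S, ContinuousOn (fun u => h (u, p)) D := fun p hp u hu =>
    (hfcd u p (hSU p hp u hu)).continuousAt.continuousWithinAt
  have hr₁ : 0 < r₁ := hr₂.trans hr
  have hmaxex : ∀ p ∈ S, ∃ u ∈ V, IsLocalMax (fun u => h (u, p)) u ∧ G (u, p) = 0 := by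
    intro p hp
    obtain ⟨u, hu, humax⟩ := (hDc r₁).exists_isMaxOn (f := fun u => h (u, p))
      ⟨uc, by simp [hr₁.le]⟩ (hcontD p hp)
    have huU := hSU p hp u hu
    have huV : u ∈ V := by
      by_contra hnv
      have h4 : ‖L (u - uc)‖ = r₁ := le_antisymm hu (not_lt.1 hnv)
      have h5 := hSbd p hp u h4
      have h6 : HasFDerivAt (fun u => h (u, p)) (G (u, p)) u := by
        rw [← hfG u p huU]
        exact ((hfcd u p huU).differentiableAt (by simp)).hasFDerivAt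
      have h7 := humax.localize.hasFDerivWithinAt_nonpos h6.hasFDerivWithinAt (hcone r₁ hr₁ u hu)
      have h8 : G (u, p) (uc - u) = - G (u, p) (u - uc) := by
        rw [← map_neg, neg_sub]
      rw [h8] at h7
      linarith
    have hloc : IsLocalMax (fun u => h (u, p)) u := by
      filter_upwards [hVo.mem_nhds huV] with v hv
      exact humax (hVD hv)
    refine ⟨u, huV, hloc, ?_⟩
    rw [← hfG u p huU]
    exact hloc.fderiv_eq_zero
  -- near the end
  have hend : ∀ᶠ p in 𝓝 (p₁ + σ₁ • δ), ∀ w ∈ D ×ˢ Metric.sphere (0 : K) 1,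
      fderiv ℝ G (w.1, p) (w.2, 0) w.2 < 0 := by
    refine IsCompact.eventually_forall_of_forall_eventually
      (K := D ×ˢ Metric.sphere (0 : K) 1) ((hDc r₁).prod (isCompact_sphere 0 1)) ?_
    rintro ⟨u, k⟩ ⟨hu, hk⟩
    have hq : (u, p₁ + σ₁ • δ) ∈ U := hSU _ (hTS hpeT) u hu
    have h4 : ContinuousAt (fderiv ℝ G) (u, p₁ + σ₁ • δ) := by
      have h5 : ContDiffAt ℝ 1 (fderiv ℝ G) (u, p₁ + σ₁ • δ) :=
        ((hGat _ hq).of_le (m := 2) ENat.LEInfty.out).fderiv_right (m := 1) (by norm_num)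
      exact h5.continuousAt
    have h5 : ContinuousAt (fun z : P × (K × K) => fderiv ℝ G (z.2.1, z.1)) (p₁ + σ₁ • δ, (u, k)) := by
      have h6 : ContinuousAt (fun z : P × (K × K) => (z.2.1, z.1)) (p₁ + σ₁ • δ, (u, k)) := by fun_prop
      exact ContinuousAt.comp (g := fderiv ℝ G) (f := fun z : P × (K × K) => (z.2.1, z.1)) h4 h6
    have h6 : ContinuousAt (fun z : P × (K × K) => fderiv ℝ G (z.2.1, z.1) (z.2.2, 0) z.2.2)
        (p₁ + σ₁ • δ, (u, k)) := by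
      refine (h5.clm_apply ?_).clm_apply ?_
      · fun_prop
      · fun_prop
    have h7 : fderiv ℝ G (u, p₁ + σ₁ • δ) (k, 0) k < 0 := by
      rw [← hfH u _ hq]
      refine h3 u hu k ?_
      rintro rfl
      simp at hk
    exact h6.eventually_lt continuousAt_const h7
  have hSe : ∀ᶠ p in 𝓝 (p₁ + σ₁ • δ), p ∈ S := hSo.mem_nhds (hTS hpeT)
  obtain ⟨pe, hpeB, hpeS, hpeneg⟩ := hdense (p₁ + σ₁ • δ) _ (hSe.and hend)
  have hnegdef : ∀ u ∈ D, ∀ k : K, k ≠ 0 → fderiv ℝ (fderiv ℝ (fun u => h (u, pe))) u k k < 0 := by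
    intro u hu k hk
    rw [hfH u pe (hSU pe hpeS u hu)]
    have hn : 0 < ‖k‖ := norm_pos_iff.2 hk
    have h4 := hpeneg (u, ‖k‖⁻¹ • k) ⟨hu, by
      rw [mem_sphere_zero_iff_norm, norm_smul, norm_inv, norm_norm, inv_mul_cancel₀ hn.ne']⟩
    have h5 : fderiv ℝ G (u, pe) (k, 0) k =
        (‖k‖ * ‖k‖) * fderiv ℝ G (u, pe) (‖k‖⁻¹ • k, 0) (‖k‖⁻¹ • k) := by
      have h6 : ((‖k‖⁻¹ • k, 0) : K × P) = ‖k‖⁻¹ • ((k, 0) : K × P) := by simp
      rw [h6, map_smul]
      simp only [ContinuousLinearMap.smul_apply, map_smul, smul_eq_mul]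
      field_simp
    rw [h5]
    exact mul_neg_of_pos_of_neg (mul_pos hn hn) h4
  have hNe : N pe = 1 := by
    obtain ⟨u0, hu0V, -, hu00⟩ := hmaxex pe hpeS
    have h4 : {u | u ∈ V ∧ G (u, pe) = 0} = {u0} := by
      ext v
      constructor
      · rintro ⟨hv, hv0⟩
        have hval : ∀ t ∈ Icc (0 : ℝ) 1, v + t • (u0 - v) ∈ D := fun t ht =>
          hsegD r₁ v u0 (hVD hv) (hVD hu0V) t ht
        refine trap_abs_unique (fun u => h (u, pe)) v u0 ?_ ?_ ?_ ?_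
        · intro t ht
          exact hfcd _ pe (hSU pe hpeS _ (hval t ht))
        · rw [hfG v pe (hSU pe hpeS _ (hVD hv)), hv0]
        · rw [hfG u0 pe (hSU pe hpeS _ (hVD hu0V)), hu00]
        · intro t ht k hk
          exact hnegdef _ (hval t ht) k hk
      · rintro rfl
        exact ⟨hu0V, hu00⟩
    change {u | u ∈ V ∧ G (u, pe) = 0}.ncard = 1
    rw [h4, ncard_singleton]
  -- near the start
  have hstart : ∀ᶠ p in 𝓝 p₁, ∀ u ∈ {u : K | ‖L (u - uc)‖ = r₂}, 0 < G (u, p) (u - uc) := by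
    refine IsCompact.eventually_forall_of_forall_eventually (K := {u : K | ‖L (u - uc)‖ = r₂})
      (hbdc r₂) ?_
    intro u hu
    have huD : u ∈ D := (le_of_eq hu).trans hr.le
    have hq : (u, p₁) ∈ U := hSU _ (hTS hp₁T) u huD
    have h4 : ContinuousAt G (u, p₁) := (hGat _ hq).continuousAt
    have h5 : ContinuousAt (fun z : P × K => G (z.2, z.1)) (p₁, u) := by
      have h6 : ContinuousAt (fun z : P × K => (z.2, z.1)) (p₁, u) := by fun_prop
      exact ContinuousAt.comp (g := G) (f := fun z : P × K => (z.2, z.1)) h4 h6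
    have h6 : ContinuousAt (fun z : P × K => G (z.2, z.1) (z.2 - uc)) (p₁, u) :=
      h5.clm_apply (by fun_prop)
    have h7 : 0 < G (u, p₁) (u - uc) := by
      rw [← hfG u _ hq]
      exact h2 u hu
    exact (continuousAt_const (y := (0 : ℝ))).eventually_lt h6 h7
  have hSs : ∀ᶠ p in 𝓝 p₁, p ∈ S := hSo.mem_nhds (hTS hp₁T)
  obtain ⟨ps, hpsB, hpsS, hpspos⟩ := hdense p₁ _ (hSs.and hstart)
  have hNs : N ps = 1 := by rw [hconst ps hpsS hpsB pe hpeS hpeB, hNe]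
  obtain ⟨u1, hu1V, hu1max, hu10⟩ := hmaxex ps hpsS
  have hsubD : {u : K | ‖L (u - uc)‖ ≤ r₂} ⊆ D := fun u hu => le_trans hu hr.le
  obtain ⟨u2, hu2, hu2min⟩ := (hDc r₂).exists_isMinOn (f := fun u => h (u, ps))
      ⟨uc, by simp [hr₂.le]⟩ ((hcontD ps hpsS).mono hsubD)
  have hu2U := hSU ps hpsS u2 (hsubD hu2)
  have hu2lt : ‖L (u2 - uc)‖ < r₂ := by
    by_contra hnv
    have h4 : ‖L (u2 - uc)‖ = r₂ := le_antisymm hu2 (not_lt.1 hnv)
    have h5 := hpspos u2 h4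
    have h6 : HasFDerivAt (fun u => h (u, ps)) (G (u2, ps)) u2 := by
      rw [← hfG u2 ps hu2U]
      exact ((hfcd u2 ps hu2U).differentiableAt (by simp)).hasFDerivAt
    have h7 := hu2min.localize.hasFDerivWithinAt_nonneg h6.hasFDerivWithinAt (hcone r₂ hr₂ u2 hu2)
    have h8 : G (u2, ps) (uc - u2) = - G (u2, ps) (u2 - uc) := by
      rw [← map_neg, neg_sub]
    rw [h8] at h7
    linarith
  have hu2loc : IsLocalMin (fun u => h (u, ps)) u2 := by
    have h4 : IsOpen {u : K | ‖L (u - uc)‖ < r₂} := isOpen_lt hLc continuous_const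
    filter_upwards [h4.mem_nhds hu2lt] with v hv
    exact hu2min (le_of_lt hv)
  have hu20 : G (u2, ps) = 0 := by
    rw [← hfG u2 ps hu2U]
    exact hu2loc.fderiv_eq_zero
  have hu2V : u2 ∈ V := lt_trans hu2lt hr
  obtain ⟨a, ha⟩ := ncard_eq_one.1 (show {u | u ∈ V ∧ G (u, ps) = 0}.ncard = 1 from hNs)
  have e1 : u1 = a := by
    have : u1 ∈ {u | u ∈ V ∧ G (u, ps) = 0} := ⟨hu1V, hu10⟩
    rw [ha] at this; exact this
  have e2 : u2 = a := by
    have : u2 ∈ {u | u ∈ V ∧ G (u, ps) = 0} := ⟨hu2V, hu20⟩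
    rw [ha] at this; exact this
  have e12 : u1 = u2 := e1.trans e2.symm
  subst e12
  have hcd1 := hfcd u1 ps hu2U
  have hle : ∀ k, fderiv ℝ (fderiv ℝ (fun u => h (u, ps))) u1 k k ≤ 0 := fun k =>
    trap_abs_second _ u1 hcd1 hu1max k
  have hge : ∀ k, 0 ≤ fderiv ℝ (fderiv ℝ (fun u => h (u, ps))) u1 k k := by
    intro k
    have h4 := trap_abs_second (fun u => - h (u, ps)) u1 hcd1.neg hu2loc.neg k
    have h5 : fderiv ℝ (fun u => - h (u, ps)) = fun u => - fderiv ℝ (fun u => h (u, ps)) u := by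
      funext u
      exact fderiv_fun_neg
    rw [h5] at h4
    have h6 : fderiv ℝ (fun u => - fderiv ℝ (fun u => h (u, ps)) u) u1 =
        - fderiv ℝ (fderiv ℝ (fun u => h (u, ps))) u1 := fderiv_fun_neg
    rw [h6] at h4
    simpa using h4
  have hsym : IsSymmSndFDerivAt ℝ (fun u => h (u, ps)) u1 :=
    hcd1.isSymmSndFDerivAt (by simpa using (ENat.LEInfty.out : (2 : WithTop ℕ∞) ≤ ∞))
  have hzero : ∀ k, fderiv ℝ (fderiv ℝ (fun u => h (u, ps))) u1 k = 0 := by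
    intro k
    refine ContinuousLinearMap.ext fun l => ?_
    have a1 := le_antisymm (hle k) (hge k)
    have a2 := le_antisymm (hle l) (hge l)
    have a3 := le_antisymm (hle (k + l)) (hge (k + l))
    have a4 := hsym.eq k l
    simp only [map_add, ContinuousLinearMap.add_apply] at a3
    rw [a1, a2] at a3
    rw [← a4] at a3
    have : fderiv ℝ (fderiv ℝ (fun u => h (u, ps))) u1 k l = 0 := by linarith
    rw [this]; rfl
  obtain ⟨k, hk⟩ := exists_ne (0 : K)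
  refine hk (hnd (u1, ps) hu2U hpsB ?_ k (hzero k))
  change fderiv ℝ (fun u => h (u, ps)) u1 = 0
  rw [hfG u1 ps hu2U]
  exact hu20

end

end Pool.Agent.H469
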