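import Pool.Agent.Helper469_Dupin.DefsD
import Pool.Agent.Helper469_Dupin.Jdtrap
import Pool.Agent.Helper469_Dupin.Jdred
import Pool.Agent.Helper469_Dupin.Jdredf
import Pool.Agent.Helper469_Dupin.Jfocalnull
import Pool.Agent.Helper469_Dupin.Jcountloc
import Pool.Agent.Helper469_Dupin.Jcritiff
import Pool.Agent.Helper469_Dupin.Jfamd
import Pool.Agent.Helper469_Dupin.Jbrvel

set_option autoImplicit false

open Set Filter Topology MeasureTheory
open scoped ContDiff InnerProductSpace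

namespace Pool.Agent.H469


section trap_geo_aux1
set_option maxSynthPendingDepth 3
variable {n m : ℕ} {M : Set (Eu n)} {T : Submodule ℝ (Eu n)} {g : T → Tᗮ} {O : Set T} {V : Set (Eu n)}

theorem trap_geo_cmap_smooth (hg : ContDiffOn ℝ ∞ g O) : ContDiffOn ℝ ∞ (cmap T g) O := by
  unfold cmap
  exact (T.subtypeL.contDiff.contDiffOn).add (Tᗮ.subtypeL.contDiff.comp_contDiffOn hg)

/-- the derivative of the graph parametrisation -/
noncomputable def trap_geo_D (T : Submodule ℝ (Eu n)) (g : T → Tᗮ) (a : T) : T →L[ℝ] Eu n :=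
  T.subtypeL + Tᗮ.subtypeL.comp (fderiv ℝ g a)

theorem trap_geo_D_apply (a v : T) :
    trap_geo_D T g a v = (v : Eu n) + (fderiv ℝ g a v : Eu n) := rfl

theorem trap_geo_cmap_hasFDerivAt (hO : IsOpen O) (hg : ContDiffOn ℝ ∞ g O) (a : T) (ha : a ∈ O) :
    HasFDerivAt (cmap T g) (trap_geo_D T g a) a := by
  have h1 : HasFDerivAt g (fderiv ℝ g a) a :=
    ((hg.contDiffAt (hO.mem_nhds ha)).differentiableAt (by simp)).hasFDerivAt
  exact (T.subtypeL.hasFDerivAt).add ((Tᗮ.subtypeL.hasFDerivAt).comp a h1)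

theorem trap_geo_fam_hasFDerivAt (p : Eu n × ℝ) (x : Eu n) :
    HasFDerivAt (fam p) (innerSL ℝ (p.1 - p.2 • x)) x := by
  have h1 : HasFDerivAt (fun x : Eu n => ⟪p.1, x⟫_ℝ) (innerSL ℝ p.1) x :=
    (innerSL ℝ p.1).hasFDerivAt
  have h2 : HasFDerivAt (fun x : Eu n => ‖x‖ ^ 2) (2 • (innerSL ℝ x)) x :=
    (hasStrictFDerivAt_norm_sq x).hasFDerivAt
  have h3 := h1.sub ((h2.const_mul (p.2)).mul_const ((2:ℝ)⁻¹))
  have h4 : fam p = fun x : Eu n => ⟪p.1, x⟫_ℝ - p.2 * ‖x‖ ^ 2 * (2:ℝ)⁻¹ := by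
    funext y
    unfold fam
    rw [div_eq_mul_inv]
  rw [h4]
  have h5 : innerSL ℝ (p.1 - p.2 • x)
      = innerSL ℝ p.1 - (2:ℝ)⁻¹ • p.2 • 2 • innerSL ℝ x := by
    ext v
    simp only [innerSL_apply_apply, sub_apply, inner_sub_left, inner_smul_left,
      RCLike.conj_to_real, smul_apply, smul_eq_mul, nsmul_eq_mul]
    push_cast
    ring
  rw [h5]
  exact h3

theorem trap_geo_d1 (hO : IsOpen O) (hg : ContDiffOn ℝ ∞ g O) (a : T) (ha : a ∈ O)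
    (p : Eu n × ℝ) (v : T) :
    fderiv ℝ (fam p ∘ cmap T g) a v = ⟪p.1 - p.2 • cmap T g a, trap_geo_D T g a v⟫_ℝ := by
  have h := (trap_geo_fam_hasFDerivAt p (cmap T g a)).comp a (trap_geo_cmap_hasFDerivAt hO hg a ha)
  rw [h.fderiv]
  rfl

theorem trap_geo_joint (hO : IsOpen O) (hg : ContDiffOn ℝ ∞ g O) (a : T) (ha : a ∈ O)
    (p : Eu n × ℝ) :
    ContDiffAt ℝ ∞ (fun z : T × (Eu n × ℝ) => fam z.2 (cmap T g z.1)) (a, p) := by
  have h1 : ContDiffAt ℝ ∞ (fun z : T × (Eu n × ℝ) => cmap T g z.1) (a, p) :=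
    ContDiffAt.comp (g := cmap T g) (f := Prod.fst) (a, p)
      ((trap_geo_cmap_smooth hg).contDiffAt (hO.mem_nhds ha)) contDiffAt_fst
  have h2 : ContDiffAt ℝ ∞ (fun z : T × (Eu n × ℝ) => z.2.1) (a, p) :=
    contDiffAt_fst.comp (a, p) contDiffAt_snd
  have h3 : ContDiffAt ℝ ∞ (fun z : T × (Eu n × ℝ) => z.2.2) (a, p) :=
    contDiffAt_snd.comp (a, p) contDiffAt_snd
  unfold fam
  exact (h2.inner ℝ h1).sub ((h3.mul (h1.norm_sq ℝ)).div_const 2)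

theorem trap_geo_joint1 (hO : IsOpen O) (hg : ContDiffOn ℝ ∞ g O) (a : T) (ha : a ∈ O)
    (p : Eu n × ℝ) :
    ContDiffAt ℝ ∞ (fun z : T × (Eu n × ℝ) => fderiv ℝ (fam z.2 ∘ cmap T g) z.1) (a, p) := by
  refine ContDiffAt.fderiv (n := ∞) (f := fun z : T × (Eu n × ℝ) => fam z.2 ∘ cmap T g)
    (g := fun z : T × (Eu n × ℝ) => z.1) ?_ contDiffAt_fst (by simp)
  have h1 : ContDiffAt ℝ ∞ (fun w : (T × (Eu n × ℝ)) × T => ((w.2, w.1.2) : T × (Eu n × ℝ)))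
      ((a, p), a) := contDiffAt_snd.prodMk (contDiffAt_snd.comp _ contDiffAt_fst)
  exact ContDiffAt.comp ((a, p), a) (trap_geo_joint hO hg a ha p) h1

theorem trap_geo_joint2 (hO : IsOpen O) (hg : ContDiffOn ℝ ∞ g O) (a : T) (ha : a ∈ O)
    (p : Eu n × ℝ) :
    ContDiffAt ℝ ∞ (fun z : T × (Eu n × ℝ) => fderiv ℝ (fderiv ℝ (fam z.2 ∘ cmap T g)) z.1)
      (a, p) := by
  refine ContDiffAt.fderiv (n := ∞) (f := fun z : T × (Eu n × ℝ) => fderiv ℝ (fam z.2 ∘ cmap T g))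
    (g := fun z : T × (Eu n × ℝ) => z.1) ?_ contDiffAt_fst (by simp)
  have h1 : ContDiffAt ℝ ∞ (fun w : (T × (Eu n × ℝ)) × T => ((w.2, w.1.2) : T × (Eu n × ℝ)))
      ((a, p), a) := contDiffAt_snd.prodMk (contDiffAt_snd.comp _ contDiffAt_fst)
  exact ContDiffAt.comp ((a, p), a) (trap_geo_joint1 hO hg a ha p) h1

theorem trap_geo_smooth1 (hO : IsOpen O) (hg : ContDiffOn ℝ ∞ g O) (a : T) (ha : a ∈ O)
    (p : Eu n × ℝ) : ContDiffAt ℝ ∞ (fam p ∘ cmap T g) a := by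
  have h1 : ContDiffAt ℝ ∞ (fun a : T => ((a, p) : T × (Eu n × ℝ))) a :=
    contDiffAt_id.prodMk contDiffAt_const
  exact ContDiffAt.comp (g := fun z : T × (Eu n × ℝ) => fam z.2 (cmap T g z.1))
    (f := fun a : T => ((a, p) : T × (Eu n × ℝ))) a (trap_geo_joint hO hg a ha p) h1

theorem trap_geo_smooth2 (hO : IsOpen O) (hg : ContDiffOn ℝ ∞ g O) (a : T) (ha : a ∈ O)
    (p : Eu n × ℝ) : ContDiffAt ℝ ∞ (fderiv ℝ (fam p ∘ cmap T g)) a := by
  have h1 : ContDiffAt ℝ ∞ (fun a : T => ((a, p) : T × (Eu n × ℝ))) a :=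
    contDiffAt_id.prodMk contDiffAt_const
  exact ContDiffAt.comp (g := fun z : T × (Eu n × ℝ) => fderiv ℝ (fam z.2 ∘ cmap T g) z.1)
    (f := fun a : T => ((a, p) : T × (Eu n × ℝ))) a (trap_geo_joint1 hO hg a ha p) h1

theorem trap_geo_symm (hO : IsOpen O) (hg : ContDiffOn ℝ ∞ g O) (a : T) (ha : a ∈ O)
    (p : Eu n × ℝ) (u v : T) : fderiv ℝ (fderiv ℝ (fam p ∘ cmap T g)) a u v
      = fderiv ℝ (fderiv ℝ (fam p ∘ cmap T g)) a v u := by
  have h := (trap_geo_smooth1 hO hg a ha p).isSymmSndFDerivAt (by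
    rw [minSmoothness_of_isRCLikeNormedField]
    have h2 : ((2 : ℕ∞) : WithTop ℕ∞) ≤ ((⊤ : ℕ∞) : WithTop ℕ∞) := WithTop.coe_le_coe.2 le_top
    exact h2)
  exact h.eq u v

theorem trap_geo_fam_add (p δ : Eu n × ℝ) (s : ℝ) (x : Eu n) :
    fam (p + s • δ) x = fam p x + s * fam δ x := by
  unfold fam
  simp only [Prod.fst_add, Prod.snd_add, Prod.smul_fst, Prod.smul_snd, inner_add_left,
    inner_smul_left, smul_eq_mul, RCLike.conj_to_real]
  ring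

theorem trap_geo_lin1 (hO : IsOpen O) (hg : ContDiffOn ℝ ∞ g O) (a : T) (ha : a ∈ O)
    (p δ : Eu n × ℝ) (s : ℝ) :
    fderiv ℝ (fam (p + s • δ) ∘ cmap T g) a
      = fderiv ℝ (fam p ∘ cmap T g) a + s • fderiv ℝ (fam δ ∘ cmap T g) a := by
  have h1 : fam (p + s • δ) ∘ cmap T g
      = (fam p ∘ cmap T g) + s • (fam δ ∘ cmap T g) := by
    funext y
    simp only [Function.comp_apply, Pi.add_apply, Pi.smul_apply, smul_eq_mul, trap_geo_fam_add]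
  have h2 : DifferentiableAt ℝ (fam p ∘ cmap T g) a :=
    (trap_geo_smooth1 hO hg a ha p).differentiableAt (by simp)
  have h3 : DifferentiableAt ℝ (fam δ ∘ cmap T g) a :=
    (trap_geo_smooth1 hO hg a ha δ).differentiableAt (by simp)
  rw [h1, fderiv_add h2 (h3.const_smul s), fderiv_const_smul h3]

theorem trap_geo_lin2 (hO : IsOpen O) (hg : ContDiffOn ℝ ∞ g O) (a : T) (ha : a ∈ O)
    (p δ : Eu n × ℝ) (s : ℝ) :
    fderiv ℝ (fderiv ℝ (fam (p + s • δ) ∘ cmap T g)) a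
      = fderiv ℝ (fderiv ℝ (fam p ∘ cmap T g)) a
        + s • fderiv ℝ (fderiv ℝ (fam δ ∘ cmap T g)) a := by
  have h1 : fderiv ℝ (fam (p + s • δ) ∘ cmap T g)
      =ᶠ[𝓝 a] (fderiv ℝ (fam p ∘ cmap T g)) + s • (fderiv ℝ (fam δ ∘ cmap T g)) := by
    filter_upwards [hO.mem_nhds ha] with b hb
    rw [trap_geo_lin1 hO hg b hb]
    rfl
  have h2 : DifferentiableAt ℝ (fderiv ℝ (fam p ∘ cmap T g)) a :=
    (trap_geo_smooth2 hO hg a ha p).differentiableAt (by simp)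
  have h3 : DifferentiableAt ℝ (fderiv ℝ (fam δ ∘ cmap T g)) a :=
    (trap_geo_smooth2 hO hg a ha δ).differentiableAt (by simp)
  rw [h1.fderiv_eq, fderiv_add h2 (h3.const_smul s), fderiv_const_smul h3]

/-- the Hessian for the parameter `(x₀, 1)` at the point `x₀` -/
theorem trap_geo_G0 (hc : IsChart ∞ m M T g O V) (x₀ : Eu n) (hx : x₀ ∈ M) (hxV : x₀ ∈ V) (u v : T) :
    fderiv ℝ (fderiv ℝ (fam (x₀, 1) ∘ cmap T g)) (T.orthogonalProjectionOnto x₀) u v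
      = -⟪trap_geo_D T g (T.orthogonalProjectionOnto x₀) u,
          trap_geo_D T g (T.orthogonalProjectionOnto x₀) v⟫_ℝ := by
  have ha := (hc.mem x₀ hxV).1
  have hgx := ((hc.mem x₀ hxV).2).1 hx
  rw [fam_d2 g O hc.openO hc.smooth _ ha]
  have h1 : Tᗮ.orthogonalProjectionOnto (x₀, (1:ℝ)).1
      - (x₀, (1:ℝ)).2 • g (T.orthogonalProjectionOnto x₀) = 0 := by
    simp only [one_smul]
    rw [hgx, sub_self]
  rw [h1]
  have h2 : Hop g (T.orthogonalProjectionOnto x₀) 0 = 0 := by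
    unfold Hop
    have : (fun a' : T => nrm g a' (0 : Tᗮ)) = fun _ => 0 := by
      funext a'
      simp [nrm]
    rw [this]
    simp
  unfold Lop
  rw [h2, sub_zero]
  simp only [one_smul]
  unfold Gop
  simp only [add_apply, ContinuousLinearMap.id_apply,
    ContinuousLinearMap.comp_apply, inner_add_left, ContinuousLinearMap.adjoint_inner_left]
  rw [trap_geo_D_apply, trap_geo_D_apply]
  rw [inner_add_left, inner_add_right, inner_add_right]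
  have h3 : ⟪(u : Eu n), (fderiv ℝ g (T.orthogonalProjectionOnto x₀) v : Eu n)⟫_ℝ = 0 :=
    Submodule.inner_right_of_mem_orthogonal u.2 (fderiv ℝ g (T.orthogonalProjectionOnto x₀) v).2
  have h4 : ⟪(fderiv ℝ g (T.orthogonalProjectionOnto x₀) u : Eu n), (v : Eu n)⟫_ℝ = 0 :=
    Submodule.inner_left_of_mem_orthogonal v.2 (fderiv ℝ g (T.orthogonalProjectionOnto x₀) u).2
  rw [h3, h4]
  simp only [Submodule.coe_inner]
  ring

theorem trap_geo_D_norm (a v : T) : ‖v‖ ≤ ‖trap_geo_D T g a v‖ := by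
  rw [trap_geo_D_apply]
  have h3 : ⟪(v : Eu n), (fderiv ℝ g a v : Eu n)⟫_ℝ = 0 :=
    Submodule.inner_right_of_mem_orthogonal v.2 (fderiv ℝ g a v).2
  have h := norm_add_sq_real (v : Eu n) (fderiv ℝ g a v : Eu n)
  rw [h3] at h
  have h5 : ‖v‖ = ‖(v : Eu n)‖ := rfl
  rw [h5]
  refine le_of_sq_le_sq ?_ (norm_nonneg _)
  rw [h]
  nlinarith [sq_nonneg ‖(fderiv ℝ g a v : Eu n)‖]

end trap_geo_aux1

section trap_geo_aux2
set_option maxSynthPendingDepth 3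
variable {n m : ℕ} {M : Set (Eu n)} {T : Submodule ℝ (Eu n)} {g : T → Tᗮ} {O : Set T} {V : Set (Eu n)}

theorem trap_geo_null (hc : IsChart ∞ m M T g O V) (x : Eu n) (hx : x ∈ M) (hxV : x ∈ V)
    (p : Eu n × ℝ) (u : T) : u ∈ nullK T g x p ↔
      fderiv ℝ (fderiv ℝ (fam p ∘ cmap T g)) (T.orthogonalProjectionOnto x) u = 0 := by
  have ha := (hc.mem x hxV).1
  have hgx := ((hc.mem x hxV).2).1 hx
  have h1 : Tᗮ.orthogonalProjectionOnto (p.1 - p.2 • x)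
      = Tᗮ.orthogonalProjectionOnto p.1 - p.2 • g (T.orthogonalProjectionOnto x) := by
    rw [map_sub, map_smul, hgx]
  unfold nullK
  rw [h1, LinearMap.mem_ker]
  constructor
  · intro h
    ext v
    rw [fam_d2 g O hc.openO hc.smooth _ ha]
    have h' : Lop g (T.orthogonalProjectionOnto x) (Tᗮ.orthogonalProjectionOnto p.1
      - p.2 • g (T.orthogonalProjectionOnto x)) p.2 u = 0 := h
    rw [h', inner_zero_left, neg_zero]
    rfl
  · intro h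
    have h2 := fam_d2 g O hc.openO hc.smooth _ ha p u
      (Lop g (T.orthogonalProjectionOnto x) (Tᗮ.orthogonalProjectionOnto p.1
      - p.2 • g (T.orthogonalProjectionOnto x)) p.2 u)
    rw [h] at h2
    have h3 : (0 : ℝ) = -⟪Lop g (T.orthogonalProjectionOnto x) (Tᗮ.orthogonalProjectionOnto p.1
      - p.2 • g (T.orthogonalProjectionOnto x)) p.2 u, Lop g (T.orthogonalProjectionOnto x)
      (Tᗮ.orthogonalProjectionOnto p.1
      - p.2 • g (T.orthogonalProjectionOnto x)) p.2 u⟫_ℝ := h2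
    have h4 := neg_eq_zero.1 h3.symm
    exact inner_self_eq_zero.1 h4

theorem trap_geo_nondeg {a₀ : T} {p₀ : Eu n × ℝ} {K : Submodule ℝ T}
    {U : Set (K × (Eu n × ℝ))} {W : Set (T × (Eu n × ℝ))} {A : K × (Eu n × ℝ) → T}
    (hR : Red T g O V a₀ p₀ K U W A) :
    ∃ κ : ℝ, 0 < κ ∧ ∀ v ∈ Kᗮ, ∀ C : ℝ, 0 ≤ C →
      (∀ w ∈ Kᗮ, |fderiv ℝ (fderiv ℝ (fam p₀ ∘ cmap T g)) a₀ v w| ≤ C * ‖w‖) → κ * ‖v‖ ≤ C := by
  set B : T →L[ℝ] T →L[ℝ] ℝ := fderiv ℝ (fderiv ℝ (fam p₀ ∘ cmap T g)) a₀ with hB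
  let Λ : Kᗮ →ₗ[ℝ] (Kᗮ →L[ℝ] ℝ) :=
    { toFun := fun v => (B (v : T)).comp Kᗮ.subtypeL
      map_add' := by intro v w; ext x; simp
      map_smul' := by intro r v; ext x; simp }
  have hker : LinearMap.ker Λ = ⊥ := by
    rw [LinearMap.ker_eq_bot']
    intro v hv
    have h0 := hR.inv (0, p₀) hR.memU v v.2 (by
      intro w hw
      have := DFunLike.congr_fun hv (⟨w, hw⟩ : Kᗮ)
      rw [hR.A0]
      exact this)
    exact Subtype.ext h0
  obtain ⟨κ, hκ, hal⟩ := LinearMap.exists_antilipschitzWith Λ hker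
  refine ⟨(κ : ℝ)⁻¹, inv_pos.2 (by exact_mod_cast hκ), ?_⟩
  intro v hv C hC h
  have h1 := hal.le_mul_dist (⟨v, hv⟩ : Kᗮ) 0
  rw [dist_zero_right, map_zero, dist_zero_right] at h1
  have h2 : ‖Λ ⟨v, hv⟩‖ ≤ C := by
    refine ContinuousLinearMap.opNorm_le_bound _ hC ?_
    intro w
    exact h w w.2
  have h3 : ‖v‖ ≤ κ * C := by
    have h4 : ‖v‖ = ‖(⟨v, hv⟩ : Kᗮ)‖ := rfl
    rw [h4]
    exact h1.trans (mul_le_mul_of_nonneg_left h2 (by positivity))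
  have hκ' : (0:ℝ) < κ := by exact_mod_cast hκ
  rw [inv_mul_le_iff₀ hκ']
  exact h3

theorem trap_geo_D2_near (hO : IsOpen O) (hg : ContDiffOn ℝ ∞ g O) (a₀ : T) (ha : a₀ ∈ O)
    (p₀ : Eu n × ℝ) (θ : ℝ) (hθ : 0 < θ) : ∃ ρ : ℝ, 0 < ρ ∧ ∀ (a : T) (p : Eu n × ℝ),
      ‖a - a₀‖ < ρ → ‖p - p₀‖ < ρ → a ∈ O ∧
      ‖fderiv ℝ (fderiv ℝ (fam p ∘ cmap T g)) a
        - fderiv ℝ (fderiv ℝ (fam p₀ ∘ cmap T g)) a₀‖ ≤ θ := by
  have h1 := (trap_geo_joint2 hO hg a₀ ha p₀).continuousAt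
  have h2 : ∀ᶠ z : T × (Eu n × ℝ) in 𝓝 (a₀, p₀), z.1 ∈ O ∧
      ‖fderiv ℝ (fderiv ℝ (fam z.2 ∘ cmap T g)) z.1
        - fderiv ℝ (fderiv ℝ (fam p₀ ∘ cmap T g)) a₀‖ < θ := by
    refine Filter.Eventually.and ?_ ?_
    · exact (continuousAt_fst (p := ((a₀, p₀) : T × (Eu n × ℝ)))).preimage_mem_nhds
        (hO.mem_nhds ha)
    · have := Metric.continuousAt_iff'.1 h1 θ hθ
      filter_upwards [this] with z hz
      rw [dist_eq_norm] at hz
      exact hz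
  obtain ⟨ρ, hρ, h3⟩ := Metric.eventually_nhds_iff.1 h2
  refine ⟨ρ, hρ, fun a p h4 h5 => ?_⟩
  have h6 : dist (a, p) (a₀, p₀) < ρ := by
    rw [Prod.dist_eq, max_lt_iff, dist_eq_norm, dist_eq_norm]
    exact ⟨h4, h5⟩
  exact ⟨(h3 h6).1, (h3 h6).2.le⟩

theorem trap_geo_mv (hO : IsOpen O) (hg : ContDiffOn ℝ ∞ g O) (a₀ : T) (ha : a₀ ∈ O)
    (p₀ : Eu n × ℝ) (θ : ℝ) (hθ : 0 < θ) : ∃ ρ : ℝ, 0 < ρ ∧ (∀ (a : T) (p : Eu n × ℝ),
      ‖a - a₀‖ < ρ → ‖p - p₀‖ < ρ → a ∈ O ∧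
      ‖fderiv ℝ (fderiv ℝ (fam p ∘ cmap T g)) a
        - fderiv ℝ (fderiv ℝ (fam p₀ ∘ cmap T g)) a₀‖ ≤ θ) ∧
      ∀ (a a' : T) (p : Eu n × ℝ), ‖a - a₀‖ < ρ → ‖a' - a₀‖ < ρ → ‖p - p₀‖ < ρ →
      ‖fderiv ℝ (fam p ∘ cmap T g) a' - fderiv ℝ (fam p ∘ cmap T g) a
        - fderiv ℝ (fderiv ℝ (fam p₀ ∘ cmap T g)) a₀ (a' - a)‖ ≤ θ * ‖a' - a‖ := by
  obtain ⟨ρ, hρ, h1⟩ := trap_geo_D2_near hO hg a₀ ha p₀ θ hθ
  refine ⟨ρ, hρ, h1, ?_⟩
  intro a a' p h2 h3 h4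
  have h5 : ∀ x ∈ Metric.ball a₀ ρ, ‖x - a₀‖ < ρ := by
    intro x hx
    rw [← dist_eq_norm]
    exact hx
  refine (convex_ball a₀ ρ).norm_image_sub_le_of_norm_fderiv_le' (𝕜 := ℝ)
    (f := fderiv ℝ (fam p ∘ cmap T g)) ?_ ?_ ?_ ?_
  · intro x hx
    exact (trap_geo_smooth2 hO hg x (h1 x p (h5 x hx) h4).1 p).differentiableAt (by simp)
  · intro x hx
    exact (h1 x p (h5 x hx) h4).2
  · rw [Metric.mem_ball, dist_eq_norm]; exact h2
  · rw [Metric.mem_ball, dist_eq_norm]; exact h3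

theorem trap_geo_phi (hO : IsOpen O) (hg : ContDiffOn ℝ ∞ g O) (a₀ : T) (ha : a₀ ∈ O) (θ : ℝ)
    (hθ : 0 < θ) :
    ∃ C ρ : ℝ, 1 ≤ C ∧ 0 < ρ ∧ C ≤ ‖trap_geo_D T g a₀‖ + 1 + θ ∧
     (∀ a : T, ‖a - a₀‖ < ρ → a ∈ O ∧ ‖trap_geo_D T g a - trap_geo_D T g a₀‖ ≤ θ ∧
      ‖trap_geo_D T g a‖ ≤ C) ∧
     ∀ a a' : T, ‖a - a₀‖ < ρ → ‖a' - a₀‖ < ρ →
      ‖cmap T g a' - cmap T g a‖ ≤ C * ‖a' - a‖ := by
  have h0 : ContDiffAt ℝ ∞ (fderiv ℝ (cmap T g)) a₀ :=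
    ((trap_geo_cmap_smooth hg).contDiffAt (hO.mem_nhds ha)).fderiv_right (by simp)
  have h1 : ∀ᶠ a in 𝓝 a₀, a ∈ O ∧ ‖trap_geo_D T g a - trap_geo_D T g a₀‖ < θ := by
    refine Filter.Eventually.and (hO.mem_nhds ha) ?_
    have := Metric.continuousAt_iff'.1 h0.continuousAt θ hθ
    filter_upwards [this, hO.mem_nhds ha] with z hz hzO
    rw [dist_eq_norm, (trap_geo_cmap_hasFDerivAt hO hg z hzO).fderiv,
      (trap_geo_cmap_hasFDerivAt hO hg a₀ ha).fderiv] at hz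
    exact hz
  obtain ⟨ρ, hρ, h3⟩ := Metric.eventually_nhds_iff.1 h1
  have h4 : ∀ a : T, ‖a - a₀‖ < ρ → a ∈ O ∧ ‖trap_geo_D T g a - trap_geo_D T g a₀‖ ≤ θ ∧
      ‖trap_geo_D T g a‖ ≤ ‖trap_geo_D T g a₀‖ + 1 + θ := by
    intro a h
    rw [← dist_eq_norm] at h
    have h5 := h3 h
    refine ⟨h5.1, h5.2.le, ?_⟩
    have h6 : ‖trap_geo_D T g a‖ ≤ ‖trap_geo_D T g a₀‖ + ‖trap_geo_D T g a - trap_geo_D T g a₀‖ := by
      have := norm_add_le (trap_geo_D T g a₀) (trap_geo_D T g a - trap_geo_D T g a₀)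
      rwa [add_sub_cancel] at this
    linarith [h5.2]
  refine ⟨‖trap_geo_D T g a₀‖ + 1 + θ, ρ, by linarith [norm_nonneg (trap_geo_D T g a₀)], hρ,
    le_refl _, h4, ?_⟩
  intro a a' h5 h6
  refine (convex_ball a₀ ρ).norm_image_sub_le_of_norm_fderiv_le (𝕜 := ℝ)
    (f := cmap T g) ?_ ?_ ?_ ?_
  · intro x hx
    rw [Metric.mem_ball, dist_eq_norm] at hx
    exact (trap_geo_cmap_hasFDerivAt hO hg x (h4 x hx).1).differentiableAt
  · intro x hx
    rw [Metric.mem_ball, dist_eq_norm] at hx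
    rw [(trap_geo_cmap_hasFDerivAt hO hg x (h4 x hx).1).fderiv]
    exact (h4 x hx).2.2
  · rw [Metric.mem_ball, dist_eq_norm]; exact h5
  · rw [Metric.mem_ball, dist_eq_norm]; exact h6

theorem trap_geo_A_near {a₀ : T} {p₀ : Eu n × ℝ} {K : Submodule ℝ T}
    {U : Set (K × (Eu n × ℝ))} {W : Set (T × (Eu n × ℝ))} {A : K × (Eu n × ℝ) → T}
    (hR : Red T g O V a₀ p₀ K U W A) (ε : ℝ) (hε : 0 < ε) :
    ∃ ρ : ℝ, 0 < ρ ∧ ∀ (u : K) (p : Eu n × ℝ), ‖u‖ < ρ → ‖p - p₀‖ < ρ →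
      (u, p) ∈ U ∧ ‖A (u, p) - a₀‖ < ε := by
  have h0 : ContinuousAt A (0, p₀) :=
    (hR.smooth.contDiffAt (hR.openU.mem_nhds hR.memU)).continuousAt
  have h2 : ∀ᶠ z : K × (Eu n × ℝ) in 𝓝 (0, p₀), z ∈ U ∧ ‖A z - a₀‖ < ε := by
    refine Filter.Eventually.and (hR.openU.mem_nhds hR.memU) ?_
    have := Metric.continuousAt_iff'.1 h0 ε hε
    filter_upwards [this] with z hz
    rw [dist_eq_norm, hR.A0] at hz
    exact hz
  obtain ⟨ρ, hρ, h3⟩ := Metric.eventually_nhds_iff.1 h2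
  refine ⟨ρ, hρ, fun u p h4 h5 => ?_⟩
  have h6 : dist (u, p) ((0 : K), p₀) < ρ := by
    rw [Prod.dist_eq, max_lt_iff, dist_eq_norm, dist_eq_norm, sub_zero]
    exact ⟨h4, h5⟩
  exact h3 h6

/-- bound for the derivative of the function with the parameter `(c, 1)` -/
theorem trap_geo_d1_le (hO : IsOpen O) (hg : ContDiffOn ℝ ∞ g O) (a : T) (ha : a ∈ O) (c : Eu n)
    (C : ℝ) (hC : ‖trap_geo_D T g a‖ ≤ C) (w : T) :
    |fderiv ℝ (fam (c, 1) ∘ cmap T g) a w| ≤ C * ‖c - cmap T g a‖ * ‖w‖ := by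
  rw [trap_geo_d1 hO hg a ha]
  simp only [one_smul]
  refine (abs_real_inner_le_norm _ _).trans ?_
  have h1 : ‖trap_geo_D T g a w‖ ≤ C * ‖w‖ :=
    (ContinuousLinearMap.le_opNorm _ _).trans (mul_le_mul_of_nonneg_right hC (norm_nonneg _))
  calc ‖c - cmap T g a‖ * ‖trap_geo_D T g a w‖ ≤ ‖c - cmap T g a‖ * (C * ‖w‖) :=
        mul_le_mul_of_nonneg_left h1 (norm_nonneg _)
    _ = _ := by ring

theorem trap_geo_norm_delta (x₀ c : Eu n) (h : ‖c - x₀‖ ≤ 1) : ‖((c, 1) : Eu n × ℝ)‖ ≤ ‖x₀‖ + 1 := by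
  rw [Prod.norm_def, max_le_iff]
  constructor
  · have := norm_add_le x₀ (c - x₀)
    rw [add_sub_cancel] at this
    simp only
    linarith
  · simp

/-- moving the parameter in the direction `(c, 1)` moves the point only a little if it is near to `c` -/
theorem trap_geo_move (hc : IsChart ∞ m M T g O V) (x₀ : Eu n) {a₀ : T} (ha₀ : a₀ ∈ O)
    {p₀ : Eu n × ℝ} {K : Submodule ℝ T}
    {U : Set (K × (Eu n × ℝ))} {W : Set (T × (Eu n × ℝ))} {A : K × (Eu n × ℝ) → T}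
    (hR : Red T g O V a₀ p₀ K U W A) :
    ∃ C ρ : ℝ, 0 ≤ C ∧ 0 < ρ ∧ ∀ (u : K) (p : Eu n × ℝ) (c : Eu n) (σ : ℝ), ‖u‖ < ρ →
      ‖p - p₀‖ < ρ → ‖c - x₀‖ < ρ → |σ| < ρ →
      ‖A (u, p + σ • (c, (1:ℝ))) - A (u, p)‖ ≤ C * |σ| * ‖c - cmap T g (A (u, p))‖ := by
  obtain ⟨κ, hκ, hnd⟩ := trap_geo_nondeg hR
  obtain ⟨ρ₁, hρ₁, hmv1, hmv⟩ := trap_geo_mv hc.openO hc.smooth a₀ ha₀ p₀ (κ / 4) (by positivity)
  obtain ⟨C₀, ρ₂, hC₀, hρ₂, -, hφ1, hφ2⟩ := trap_geo_phi hc.openO hc.smooth a₀ ha₀ 1 one_pos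
  obtain ⟨ρ₃, hρ₃, hA⟩ := trap_geo_A_near hR (min ρ₁ ρ₂) (lt_min hρ₁ hρ₂)
  have hx0 := norm_nonneg x₀
  set D : ℝ := ‖x₀‖ + 2 with hD
  refine ⟨2 * C₀ / κ, min (min 1 (ρ₁)) (min (ρ₃ / D) (κ / (4 * C₀ ^ 2))), by positivity, ?_, ?_⟩
  · refine lt_min (lt_min one_pos hρ₁) (lt_min (by positivity) (by positivity))
  intro u p c σ hu hp hcx hσ
  simp only [lt_min_iff] at hu hp hcx hσ
  have hD1 : (1:ℝ) ≤ D := by linarith
  have hρD : ρ₃ / D ≤ ρ₃ := div_le_self hρ₃.le hD1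
  have hδ : ‖((c, 1) : Eu n × ℝ)‖ ≤ D - 1 := by
    have := trap_geo_norm_delta x₀ c hcx.1.1.le
    rw [hD]; linarith
  have hp' : ‖p + σ • (c, (1:ℝ)) - p₀‖ < ρ₃ := by
    have h1 : p + σ • (c, (1:ℝ)) - p₀ = (p - p₀) + σ • (c, (1:ℝ)) := by abel
    rw [h1]
    have h2 := norm_add_le (p - p₀) (σ • (c, (1:ℝ)))
    rw [norm_smul, Real.norm_eq_abs] at h2
    have h3 : |σ| * ‖((c, 1) : Eu n × ℝ)‖ ≤ (ρ₃ / D) * (D - 1) :=
      mul_le_mul hσ.2.1.le hδ (norm_nonneg _) (by positivity)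
    have h4 : ρ₃ / D + (ρ₃ / D) * (D - 1) = ρ₃ := by
      field_simp
      ring
    linarith [hp.2.1]
  obtain ⟨hU1, hA1⟩ := hA u p (hu.2.1.trans_le hρD) (hp.2.1.trans_le hρD)
  obtain ⟨hU2, hA2⟩ := hA u (p + σ • (c, (1:ℝ))) (hu.2.1.trans_le hρD) hp'
  simp only [lt_min_iff] at hA1 hA2
  set a := A (u, p) with ha
  set a' := A (u, p + σ • (c, (1:ℝ))) with ha'
  have hy : a' - a ∈ Kᗮ := by
    rw [← Submodule.orthogonalProjectionOnto_eq_zero_iff]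
    have e1 := hR.proj _ hU1
    have e2 := hR.proj _ hU2
    rw [← ha] at e1
    rw [← ha'] at e2
    have e3 : a' - a = (a' - a₀) - (a - a₀) := by abel
    rw [e3, map_sub, e1, e2, sub_self]
  have hmv' := hmv a a' p hA1.1 hA2.1 hp.1.2
  have hbound : ∀ w ∈ Kᗮ, |fderiv ℝ (fderiv ℝ (fam p₀ ∘ cmap T g)) a₀ (a' - a) w|
      ≤ (κ / 4 * ‖a' - a‖ + |σ| * (C₀ * (‖c - cmap T g a‖ + C₀ * ‖a' - a‖))) * ‖w‖ := by
    intro w hw
    have h1 := hR.perp _ hU1 w hw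
    have h2 := hR.perp _ hU2 w hw
    rw [← ha] at h1
    rw [← ha', trap_geo_lin1 hc.openO hc.smooth a' (hφ1 a' hA2.2).1] at h2
    simp only [add_apply, smul_apply, smul_eq_mul] at h1 h2
    have h3 := ContinuousLinearMap.le_opNorm (fderiv ℝ (fam p ∘ cmap T g) a'
      - fderiv ℝ (fam p ∘ cmap T g) a
        - fderiv ℝ (fderiv ℝ (fam p₀ ∘ cmap T g)) a₀ (a' - a)) w
    have h4 := h3.trans (mul_le_mul_of_nonneg_right hmv' (norm_nonneg w))
    simp only [sub_apply] at h4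
    rw [h1, Real.norm_eq_abs, sub_zero] at h4
    have h5 := trap_geo_d1_le hc.openO hc.smooth a' (hφ1 a' hA2.2).1 c C₀ (hφ1 a' hA2.2).2.2 w
    have h6 : ‖c - cmap T g a'‖ ≤ ‖c - cmap T g a‖ + C₀ * ‖a' - a‖ := by
      have h7 := norm_sub_le (c - cmap T g a) (cmap T g a' - cmap T g a)
      rw [sub_sub_sub_cancel_right] at h7
      exact h7.trans (by linarith [hφ2 a a' hA1.2 hA2.2])
    have h7 : |fderiv ℝ (fam (c, 1) ∘ cmap T g) a' w|
        ≤ C₀ * (‖c - cmap T g a‖ + C₀ * ‖a' - a‖) * ‖w‖ := by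
      refine h5.trans ?_
      gcongr
    have h8 : |fderiv ℝ (fam p ∘ cmap T g) a' w| ≤
        |σ| * (C₀ * (‖c - cmap T g a‖ + C₀ * ‖a' - a‖) * ‖w‖) := by
      have h9 : fderiv ℝ (fam p ∘ cmap T g) a' w
          = -(σ * fderiv ℝ (fam (c, 1) ∘ cmap T g) a' w) := by linarith
      rw [h9, abs_neg, abs_mul]
      exact mul_le_mul_of_nonneg_left h7 (abs_nonneg _)
    have h10 : |fderiv ℝ (fderiv ℝ (fam p₀ ∘ cmap T g)) a₀ (a' - a) w|
        ≤ |fderiv ℝ (fam p ∘ cmap T g) a' w| + |fderiv ℝ (fam p ∘ cmap T g) a' w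
          - fderiv ℝ (fderiv ℝ (fam p₀ ∘ cmap T g)) a₀ (a' - a) w| := by
      have := abs_sub (fderiv ℝ (fam p ∘ cmap T g) a' w)
        (fderiv ℝ (fam p ∘ cmap T g) a' w
          - fderiv ℝ (fderiv ℝ (fam p₀ ∘ cmap T g)) a₀ (a' - a) w)
      rwa [sub_sub_cancel] at this
    calc _ ≤ _ := h10
      _ ≤ |σ| * (C₀ * (‖c - cmap T g a‖ + C₀ * ‖a' - a‖) * ‖w‖) + κ / 4 * ‖a' - a‖ * ‖w‖ :=
          add_le_add h8 h4
      _ = _ := by ring
  have hfin := hnd (a' - a) hy _ (by positivity) hbound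
  have hσ' : |σ| * C₀ ^ 2 ≤ κ / 4 := by
    have := mul_le_mul_of_nonneg_right hσ.2.2.le (by positivity : 0 ≤ C₀ ^ 2)
    refine this.trans (le_of_eq ?_)
    field_simp
  have hy0 := norm_nonneg (a' - a)
  have h11 : |σ| * C₀ ^ 2 * ‖a' - a‖ ≤ κ / 4 * ‖a' - a‖ := mul_le_mul_of_nonneg_right hσ' hy0
  have h12 : κ / 2 * ‖a' - a‖ ≤ |σ| * C₀ * ‖c - cmap T g a‖ := by nlinarith
  have h13 : ‖a' - a‖ ≤ (κ / 2)⁻¹ * (|σ| * C₀ * ‖c - cmap T g a‖) := by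
    rw [← div_eq_inv_mul, le_div_iff₀ (by positivity)]
    linarith
  refine h13.trans (le_of_eq ?_)
  field_simp

end trap_geo_aux2

section trap_geo_aux3
set_option maxSynthPendingDepth 3
variable {n m : ℕ} {M : Set (Eu n)} {T : Submodule ℝ (Eu n)} {g : T → Tᗮ} {O : Set T} {V : Set (Eu n)}

theorem trap_geo_DA {a₀ : T} {p₀ : Eu n × ℝ} {K : Submodule ℝ T}
    {U : Set (K × (Eu n × ℝ))} {W : Set (T × (Eu n × ℝ))} {A : K × (Eu n × ℝ) → T}
    (hR : Red T g O V a₀ p₀ K U W A) :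
    ∃ C ρ : ℝ, 0 ≤ C ∧ 0 < ρ ∧ ∀ (u : K) (p : Eu n × ℝ), ‖u‖ < ρ → ‖p - p₀‖ < ρ →
      ∀ k : K, ‖fderiv ℝ A (u, p) (k, 0) - (k : T)‖ ≤ C * max ‖u‖ ‖p - p₀‖ * ‖k‖ := by
  have h0 : ContDiffAt ℝ 1 (fderiv ℝ A) (0, p₀) :=
    (hR.smooth.contDiffAt (hR.openU.mem_nhds hR.memU)).fderiv_right (by
      have h2 : ((2 : ℕ∞) : WithTop ℕ∞) ≤ ((⊤ : ℕ∞) : WithTop ℕ∞) := WithTop.coe_le_coe.2 le_top
      have h3 : ((1 : WithTop ℕ∞) + 1) = ((2 : ℕ∞) : WithTop ℕ∞) := by norm_num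
      rw [h3]
      exact h2)
  obtain ⟨C, t, ht, hL⟩ := h0.exists_lipschitzOnWith
  obtain ⟨ρ, hρ, h3⟩ := Metric.mem_nhds_iff.1 ht
  refine ⟨C, ρ, C.2, hρ, ?_⟩
  intro u p hu hp k
  have hd : dist ((u, p) : K × (Eu n × ℝ)) (0, p₀) = max ‖u‖ ‖p - p₀‖ := by
    rw [Prod.dist_eq, dist_eq_norm, dist_eq_norm, sub_zero]
  have h4 : ((u, p) : K × (Eu n × ℝ)) ∈ t := h3 (by
    rw [Metric.mem_ball, hd, max_lt_iff]
    exact ⟨hu, hp⟩)
  have h5 : ((0, p₀) : K × (Eu n × ℝ)) ∈ t := mem_of_mem_nhds ht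
  have h6 := hL.dist_le_mul _ h4 _ h5
  rw [hd, dist_eq_norm] at h6
  have h7 := ContinuousLinearMap.le_opNorm (fderiv ℝ A (u, p) - fderiv ℝ A (0, p₀)) (k, 0)
  rw [sub_apply, hR.dA0] at h7
  have h8 : ‖((k, 0) : K × (Eu n × ℝ))‖ = ‖k‖ := by
    rw [Prod.norm_def, norm_zero, max_eq_left (norm_nonneg _)]
  rw [h8] at h7
  exact h7.trans (mul_le_mul_of_nonneg_right h6 (norm_nonneg _))

theorem trap_geo_cmap_self (hc : IsChart ∞ m M T g O V) (x : Eu n) (hx : x ∈ M) (hxV : x ∈ V) :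
    cmap T g (T.orthogonalProjectionOnto x) = x := by
  have hgx := ((hc.mem x hxV).2).1 hx
  unfold cmap
  rw [← hgx]
  exact T.starProjection_add_starProjection_orthogonal x

/-- the estimate for the boundary of the disc -/
theorem trap_geo_est1 (N : ℝ) (v e f : Eu n) (hv : ‖v‖ = N) (he : ‖e‖ ≤ 13 / 32 * N)
    (hf : ‖f‖ ≤ 1 / 24 * N) : N ^ 2 / 2 ≤ ⟪v + e, v + f⟫_ℝ := by
  have hN : 0 ≤ N := hv ▸ norm_nonneg v
  rw [inner_add_left, inner_add_right, inner_add_right, real_inner_self_eq_norm_sq, hv]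
  have h1 := abs_le.1 (abs_real_inner_le_norm v f)
  have h2 := abs_le.1 (abs_real_inner_le_norm e v)
  have h3 := abs_le.1 (abs_real_inner_le_norm e f)
  rw [hv] at h1 h2
  have h4 : N * ‖f‖ ≤ 1 / 24 * N ^ 2 := by nlinarith
  have h5 : ‖e‖ * N ≤ 13 / 32 * N ^ 2 := by nlinarith
  have h6 : ‖e‖ * ‖f‖ ≤ (13 / 32 * N) * (1 / 24 * N) :=
    mul_le_mul he hf (norm_nonneg _) (by positivity)
  nlinarith [h1.1, h2.1, h3.1, sq_nonneg N]


theorem trap_geo_est_b (hO : IsOpen O) (hg : ContDiffOn ℝ ∞ g O) (a₀ a a' k : T) (ha' : a' ∈ O)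
    (p : Eu n × ℝ) (c : Eu n) (s σ θ C C₀ : ℝ) (B : T →L[ℝ] T →L[ℝ] ℝ) (hs : s = 1 ∨ s = -1)
    (hσ : 0 ≤ σ) (hθ0 : 0 ≤ θ) (hθC : θ * C ≤ 1 / 16) (hC : 0 ≤ C) (hC₀ : 0 ≤ C₀)
    (hC0C : C₀ * C * σ ≤ 1 / 8) (hy : ‖a' - a‖ ≤ C * σ * ‖c - cmap T g a‖)
    (hmv : ‖fderiv ℝ (fam p ∘ cmap T g) a' - fderiv ℝ (fam p ∘ cmap T g) a - B (a' - a)‖
      ≤ θ * ‖a' - a‖) (hBk : B (a' - a) k = 0)
    (hφ : ‖cmap T g a' - cmap T g a‖ ≤ C₀ * ‖a' - a‖)
    (hD : ‖trap_geo_D T g a' - trap_geo_D T g a₀‖ ≤ 1 / 24)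
    (hk : ‖cmap T g a - c - trap_geo_D T g a₀ k‖ ≤ ‖trap_geo_D T g a₀ k‖ / 4) :
    s * fderiv ℝ (fam (p + (σ * s) • (c, (1:ℝ))) ∘ cmap T g) a' k
      ≤ s * fderiv ℝ (fam p ∘ cmap T g) a k := by
  have hsabs : |s| = 1 := by rcases hs with h | h <;> rw [h] <;> norm_num
  have hss : s * s = 1 := by rcases hs with h | h <;> rw [h] <;> norm_num
  obtain ⟨N, hN⟩ : ∃ N, N = ‖trap_geo_D T g a₀ k‖ := ⟨_, rfl⟩
  rw [← hN] at hk
  have hN0 : 0 ≤ N := hN ▸ norm_nonneg _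
  have hkN : ‖k‖ ≤ N := hN ▸ trap_geo_D_norm a₀ k
  have hcN : ‖c - cmap T g a‖ ≤ 5 / 4 * N := by
    have h1 := norm_add_le (cmap T g a - c - trap_geo_D T g a₀ k) (trap_geo_D T g a₀ k)
    rw [sub_add_cancel, norm_sub_rev] at h1
    linarith
  have hyN : ‖a' - a‖ ≤ 5 / 4 * (C * σ) * N := by
    refine hy.trans ?_
    have := mul_le_mul_of_nonneg_left hcN (mul_nonneg hC hσ)
    linarith
  have h2 := ContinuousLinearMap.le_opNorm (fderiv ℝ (fam p ∘ cmap T g) a'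
    - fderiv ℝ (fam p ∘ cmap T g) a - B (a' - a)) k
  have h3 := h2.trans (mul_le_mul_of_nonneg_right hmv (norm_nonneg _))
  rw [sub_apply, sub_apply, hBk, sub_zero, Real.norm_eq_abs] at h3
  have h4 : θ * ‖a' - a‖ * ‖k‖ ≤ 5 / 64 * (σ * N ^ 2) := by
    have h5 : θ * ‖a' - a‖ ≤ θ * (5 / 4 * (C * σ) * N) := mul_le_mul_of_nonneg_left hyN hθ0
    have h6 : θ * ‖a' - a‖ * ‖k‖ ≤ θ * (5 / 4 * (C * σ) * N) * N :=
      mul_le_mul h5 hkN (norm_nonneg _) (by positivity)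
    have h7 : θ * (5 / 4 * (C * σ) * N) * N = (θ * C) * (5 / 4 * (σ * N ^ 2)) := by ring
    have h8 : (θ * C) * (5 / 4 * (σ * N ^ 2)) ≤ 1 / 16 * (5 / 4 * (σ * N ^ 2)) :=
      mul_le_mul_of_nonneg_right hθC (by positivity)
    linarith
  have h5 : s * fderiv ℝ (fam p ∘ cmap T g) a' k
      ≤ s * fderiv ℝ (fam p ∘ cmap T g) a k + 5 / 64 * (σ * N ^ 2) := by
    have h6 := h3.trans h4
    have h7 : |s * (fderiv ℝ (fam p ∘ cmap T g) a' k
      - fderiv ℝ (fam p ∘ cmap T g) a k)| ≤ 5 / 64 * (σ * N ^ 2) := by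
      rw [abs_mul, hsabs, one_mul]
      exact h6
    have h8 := (abs_le.1 h7).2
    linarith
  rw [trap_geo_lin1 hO hg a' ha', add_apply, smul_apply, smul_eq_mul]
  have h9 : s * (fderiv ℝ (fam p ∘ cmap T g) a' k
      + σ * s * fderiv ℝ (fam (c, 1) ∘ cmap T g) a' k)
      = s * fderiv ℝ (fam p ∘ cmap T g) a' k
        + (s * s) * σ * fderiv ℝ (fam (c, 1) ∘ cmap T g) a' k := by ring
  rw [h9, hss, one_mul, trap_geo_d1 hO hg a' ha' (c, 1)]
  simp only [one_smul]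
  have h10 : N ^ 2 / 2 ≤ ⟪cmap T g a' - c, trap_geo_D T g a' k⟫_ℝ := by
    have e1 : cmap T g a' - c = trap_geo_D T g a₀ k
        + ((cmap T g a - c - trap_geo_D T g a₀ k) + (cmap T g a' - cmap T g a)) := by abel
    have e2 : trap_geo_D T g a' k
        = trap_geo_D T g a₀ k + (trap_geo_D T g a' - trap_geo_D T g a₀) k := by
      rw [sub_apply]; abel
    rw [e1, e2]
    refine trap_geo_est1 N _ _ _ hN.symm ?_ ?_
    · have h12 : C₀ * ‖a' - a‖ ≤ C₀ * (5 / 4 * (C * σ) * N) :=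
        mul_le_mul_of_nonneg_left hyN hC₀
      have h13 : C₀ * (5 / 4 * (C * σ) * N) ≤ 5 / 32 * N := by
        have h15 := mul_le_mul_of_nonneg_right hC0C (by positivity : 0 ≤ 5 / 4 * N)
        linarith
      have h16 := norm_add_le (cmap T g a - c - trap_geo_D T g a₀ k) (cmap T g a' - cmap T g a)
      linarith
    · have h11 := ContinuousLinearMap.le_opNorm (trap_geo_D T g a' - trap_geo_D T g a₀) k
      have h13 := mul_le_mul hD hkN (norm_nonneg _) (by norm_num)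
      exact h11.trans h13
  have h11 : ⟪c - cmap T g a', trap_geo_D T g a' k⟫_ℝ ≤ -(N ^ 2 / 2) := by
    rw [← neg_sub, inner_neg_left]
    linarith
  have h12 := mul_le_mul_of_nonneg_left h11 hσ
  have h13 : 0 ≤ σ * N ^ 2 := mul_nonneg hσ (sq_nonneg _)
  linarith

theorem trap_geo_est_h (hO : IsOpen O) (hg : ContDiffOn ℝ ∞ g O) (a₀ a' J k : T) (ha' : a' ∈ O)
    (p : Eu n × ℝ) (c : Eu n) (s σ₁ θ CA D : ℝ) (B G : T →L[ℝ] T →L[ℝ] ℝ) (hs : s = 1 ∨ s = -1)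
    (hσpos : 0 < σ₁) (hk : k ≠ 0) (hCA : 0 ≤ CA) (hD : 0 ≤ D) (hθ0 : 0 ≤ θ)
    (hCADs : CA * (D * σ₁) ≤ 1) (hBs : ‖B‖ * CA ^ 2 * D ^ 2 * σ₁ ≤ 1 / 4)
    (hJ2 : ‖J - k‖ ≤ CA * (D * σ₁) * ‖k‖) (hJ4 : ‖k‖ ≤ ‖J‖) (hB1 : B k = 0)
    (hB2 : ∀ z, B z k = 0) (hpB : ‖fderiv ℝ (fderiv ℝ (fam p ∘ cmap T g)) a' - B‖ ≤ θ)
    (hθ : θ ≤ σ₁ / 16) (hG : ‖fderiv ℝ (fderiv ℝ (fam (c, 1) ∘ cmap T g)) a' - G‖ ≤ 1 / 4)
    (hGJ : G J J = -‖trap_geo_D T g a₀ J‖ ^ 2) :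
    s * fderiv ℝ (fderiv ℝ (fam (p + (σ₁ * s) • (c, (1:ℝ))) ∘ cmap T g)) a' J J < 0 := by
  have hsabs : |s| = 1 := by rcases hs with h | h <;> rw [h] <;> norm_num
  have hss : s * s = 1 := by rcases hs with h | h <;> rw [h] <;> norm_num
  have hkpos : 0 < ‖k‖ := norm_pos_iff.2 hk
  have hJ3 : ‖J‖ ≤ 2 * ‖k‖ := by
    have h1 := norm_add_le (J - k) k
    rw [sub_add_cancel] at h1
    have h3 := mul_le_mul_of_nonneg_right hCADs hkpos.le
    linarith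
  rw [trap_geo_lin2 hO hg a' ha', add_apply, add_apply, smul_apply, smul_apply, smul_eq_mul]
  have h9 : s * (fderiv ℝ (fderiv ℝ (fam p ∘ cmap T g)) a' J J
      + σ₁ * s * fderiv ℝ (fderiv ℝ (fam (c, 1) ∘ cmap T g)) a' J J)
      = s * fderiv ℝ (fderiv ℝ (fam p ∘ cmap T g)) a' J J
        + (s * s) * σ₁ * fderiv ℝ (fderiv ℝ (fam (c, 1) ∘ cmap T g)) a' J J := by ring
  rw [h9, hss, one_mul]
  have hBJ : |B J J| ≤ σ₁ / 4 * ‖k‖ ^ 2 := by
    have h1 : B J J = B (J - k) (J - k) := by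
      rw [map_sub, map_sub, sub_apply, sub_apply, hB2, hB2, hB1]
      simp
    rw [h1]
    have h2 := ContinuousLinearMap.le_opNorm₂ B (J - k) (J - k)
    rw [Real.norm_eq_abs] at h2
    have h3 : ‖B‖ * ‖J - k‖ * ‖J - k‖
        ≤ ‖B‖ * (CA * (D * σ₁) * ‖k‖) * (CA * (D * σ₁) * ‖k‖) := by
      gcongr
    have h4 : ‖B‖ * (CA * (D * σ₁) * ‖k‖) * (CA * (D * σ₁) * ‖k‖)
        = (‖B‖ * CA ^ 2 * D ^ 2 * σ₁) * (σ₁ * ‖k‖ ^ 2) := by ring
    have h6 := mul_le_mul_of_nonneg_right hBs (by positivity : 0 ≤ σ₁ * ‖k‖ ^ 2)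
    linarith
  have hpJ : s * fderiv ℝ (fderiv ℝ (fam p ∘ cmap T g)) a' J J
      ≤ σ₁ / 4 * ‖k‖ ^ 2 + σ₁ / 4 * ‖k‖ ^ 2 := by
    have h2 := ContinuousLinearMap.le_opNorm₂
      (fderiv ℝ (fderiv ℝ (fam p ∘ cmap T g)) a' - B) J J
    rw [Real.norm_eq_abs, sub_apply, sub_apply] at h2
    have h3 : ‖fderiv ℝ (fderiv ℝ (fam p ∘ cmap T g)) a' - B‖ * ‖J‖ * ‖J‖
        ≤ θ * (2 * ‖k‖) * (2 * ‖k‖) := by
      gcongr
    have h4 : θ * (2 * ‖k‖) * (2 * ‖k‖) ≤ σ₁ / 16 * (2 * ‖k‖) * (2 * ‖k‖) := by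
      gcongr
    have h5 : |fderiv ℝ (fderiv ℝ (fam p ∘ cmap T g)) a' J J|
        ≤ σ₁ / 4 * ‖k‖ ^ 2 + σ₁ / 4 * ‖k‖ ^ 2 := by
      have h6 := abs_add_le (fderiv ℝ (fderiv ℝ (fam p ∘ cmap T g)) a' J J - B J J) (B J J)
      rw [sub_add_cancel] at h6
      have h7 : σ₁ / 16 * (2 * ‖k‖) * (2 * ‖k‖) = σ₁ / 4 * ‖k‖ ^ 2 := by ring
      linarith
    have h6 : |s * fderiv ℝ (fderiv ℝ (fam p ∘ cmap T g)) a' J J|
        ≤ σ₁ / 4 * ‖k‖ ^ 2 + σ₁ / 4 * ‖k‖ ^ 2 := by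
      rw [abs_mul, hsabs, one_mul]
      exact h5
    exact (le_abs_self _).trans h6
  have hδJ : fderiv ℝ (fderiv ℝ (fam (c, 1) ∘ cmap T g)) a' J J ≤ -(3 / 4 * ‖k‖ ^ 2) := by
    have h2 := ContinuousLinearMap.le_opNorm₂
      (fderiv ℝ (fderiv ℝ (fam (c, 1) ∘ cmap T g)) a' - G) J J
    rw [Real.norm_eq_abs, sub_apply, sub_apply, hGJ] at h2
    have h3 : ‖fderiv ℝ (fderiv ℝ (fam (c, 1) ∘ cmap T g)) a' - G‖ * ‖J‖ * ‖J‖
        ≤ 1 / 4 * ‖J‖ * ‖J‖ := by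
      gcongr
    have h4 := (abs_le.1 (h2.trans h3)).2
    have h5 := trap_geo_D_norm (g := g) a₀ J
    have h6 : ‖J‖ ^ 2 ≤ ‖trap_geo_D T g a₀ J‖ ^ 2 := by
      gcongr
    have h7 : ‖k‖ ^ 2 ≤ ‖J‖ ^ 2 := by
      gcongr
    nlinarith
  have h10 := mul_le_mul_of_nonneg_left hδJ hσpos.le
  have h11 : 0 < σ₁ * ‖k‖ ^ 2 := by positivity
  linarith

set_option maxHeartbeats 1000000 in
theorem trap_geo_est (hc : IsChart ∞ m M T g O V) (x₀ : Eu n) (hx : x₀ ∈ M) (hxV : x₀ ∈ V)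
    {p₀ : Eu n × ℝ} {K : Submodule ℝ T}
    {U : Set (K × (Eu n × ℝ))} {W : Set (T × (Eu n × ℝ))} {A : K × (Eu n × ℝ) → T}
    (a₀ : T) (ha₀ : a₀ = T.orthogonalProjectionOnto x₀)
    (B : T →L[ℝ] T →L[ℝ] ℝ) (hB : B = fderiv ℝ (fderiv ℝ (fam p₀ ∘ cmap T g)) a₀)
    (hR : Red T g O V a₀ p₀ K U W A)
    (hK : ∀ k ∈ K, B k = 0) :
    ∃ σ₁ ρ : ℝ, 0 < σ₁ ∧ 0 < ρ ∧ ∀ (u : K) (p : Eu n × ℝ) (c : Eu n) (s : ℝ), ‖u‖ < ρ →
      ‖p - p₀‖ < ρ → ‖c - x₀‖ < ρ → (s = 1 ∨ s = -1) →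
      (∀ σ ∈ Icc 0 σ₁, (u, p + σ • (s • (c, (1:ℝ)))) ∈ U) ∧
      (∀ σ ∈ Icc 0 σ₁, ∀ k : K, ‖cmap T g (A (u, p)) - c - trap_geo_D T g a₀ k‖
            ≤ ‖trap_geo_D T g a₀ k‖ / 4 →
        s * fderiv ℝ (fam (p + σ • (s • (c, (1:ℝ)))) ∘ cmap T g)
            (A (u, p + σ • (s • (c, (1:ℝ))))) (k : T)
          ≤ s * fderiv ℝ (fam p ∘ cmap T g) (A (u, p)) (k : T)) ∧
      (∀ k : K, k ≠ 0 →
        s * fderiv ℝ (fderiv ℝ (fam (p + σ₁ • (s • (c, (1:ℝ)))) ∘ cmap T g))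
            (A (u, p + σ₁ • (s • (c, (1:ℝ)))))
            (fderiv ℝ A (u, p + σ₁ • (s • (c, (1:ℝ)))) (k, 0))
            (fderiv ℝ A (u, p + σ₁ • (s • (c, (1:ℝ)))) (k, 0)) < 0) := by
  have haO : a₀ ∈ O := ha₀ ▸ (hc.mem x₀ hxV).1
  have hφ0 : cmap T g a₀ = x₀ := ha₀ ▸ trap_geo_cmap_self hc x₀ hx hxV
  obtain ⟨C, ρm, hC, hρm, hmove⟩ := trap_geo_move hc x₀ haO hR
  obtain ⟨C₀, ρ₂, hC₀, hρ₂, -, hφ1, hφ2⟩ :=
    trap_geo_phi hc.openO hc.smooth a₀ haO (1 / 24) (by norm_num)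
  obtain ⟨CA, ρA, hCA, hρA, hDA⟩ := trap_geo_DA hR
  obtain ⟨ρ₄, hρ₄, hG⟩ := trap_geo_D2_near hc.openO hc.smooth a₀ haO (x₀, 1) (1 / 4) (by norm_num)
  obtain ⟨ρU, hρU, hAU⟩ := trap_geo_A_near hR 1 one_pos
  have hx0 := norm_nonneg x₀
  obtain ⟨D, hD⟩ : ∃ D : ℝ, D = ‖x₀‖ + 2 := ⟨_, rfl⟩
  have hD1 : (1:ℝ) ≤ D := by linarith
  -- the choice of σ₁
  obtain ⟨σ₁, hσpos, hs1, hs2, hs3, hs4, hs5, hs6⟩ : ∃ σ₁ : ℝ, 0 < σ₁ ∧ σ₁ ≤ ρm / 2 ∧
      σ₁ ≤ 1 / (8 * C₀ * C + 8) ∧ σ₁ ≤ 1 / (4 * (‖B‖ * CA ^ 2 * D ^ 2 + 1)) ∧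
      σ₁ ≤ 1 / (CA * D + 1) ∧ σ₁ ≤ ρA / (2 * D) ∧ σ₁ ≤ ρU / (2 * D) := by
    refine ⟨min (min (ρm / 2) (1 / (8 * C₀ * C + 8)))
      (min (min (1 / (4 * (‖B‖ * CA ^ 2 * D ^ 2 + 1))) (1 / (CA * D + 1)))
      (min (ρA / (2 * D)) (ρU / (2 * D)))), ?_, ?_, ?_, ?_, ?_, ?_, ?_⟩
    · refine lt_min (lt_min (by positivity) (by positivity))
        (lt_min (lt_min (by positivity) (by positivity))
          (lt_min (by positivity) (by positivity)))
    · exact (min_le_left _ _).trans (min_le_left _ _)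
    · exact (min_le_left _ _).trans (min_le_right _ _)
    · exact (min_le_right _ _).trans ((min_le_left _ _).trans (min_le_left _ _))
    · exact (min_le_right _ _).trans ((min_le_left _ _).trans (min_le_right _ _))
    · exact (min_le_right _ _).trans ((min_le_right _ _).trans (min_le_left _ _))
    · exact (min_le_right _ _).trans ((min_le_right _ _).trans (min_le_right _ _))
  -- the second closeness
  obtain ⟨θ, hθ0, hθ1, hθ2⟩ : ∃ θ : ℝ, 0 < θ ∧ θ ≤ 1 / (16 * (C + 1)) ∧ θ ≤ σ₁ / 16 :=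
    ⟨min (1 / (16 * (C + 1))) (σ₁ / 16), lt_min (by positivity) (by positivity), min_le_left _ _,
      min_le_right _ _⟩
  obtain ⟨ρ₁, hρ₁, hmv1, hmv⟩ := trap_geo_mv hc.openO hc.smooth a₀ haO p₀ θ hθ0
  rw [← hB] at hmv1 hmv
  have hθC : θ * C ≤ 1 / 16 := by
    have h1 := mul_le_mul_of_nonneg_right hθ1 hC
    refine h1.trans ?_
    rw [div_mul_eq_mul_div, one_mul, div_le_div_iff₀ (by positivity) (by norm_num)]
    linarith only [hC]
  obtain ⟨ρ₅, hρ₅0, hρ51, hρ52, hρ54⟩ : ∃ ρ₅ : ℝ, 0 < ρ₅ ∧ ρ₅ ≤ ρ₁ ∧ ρ₅ ≤ ρ₂ ∧ ρ₅ ≤ ρ₄ :=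
    ⟨min ρ₁ (min ρ₂ ρ₄), lt_min hρ₁ (lt_min hρ₂ hρ₄), min_le_left _ _,
      (min_le_right _ _).trans (min_le_left _ _), (min_le_right _ _).trans (min_le_right _ _)⟩
  obtain ⟨ε, hε0, hε1⟩ : ∃ ε : ℝ, 0 < ε ∧ ε * (1 + C * σ₁ * (1 + C₀)) = ρ₅ / 2 :=
    ⟨ρ₅ / (2 * (1 + C * σ₁ * (1 + C₀))), by positivity, by field_simp⟩
  obtain ⟨ρ₆, hρ₆, hA6⟩ := trap_geo_A_near hR ε hε0
  refine ⟨σ₁, min (min (min ρm 1) (min σ₁ ε)) (min (min ρ₆ ρ₁) (min ρ₄ ρ₂)), hσpos,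
    lt_min (lt_min (lt_min hρm one_pos) (lt_min hσpos hε0))
      (lt_min (lt_min hρ₆ hρ₁) (lt_min hρ₄ hρ₂)), ?_⟩
  intro u p c s hu hp hcx hs
  simp only [lt_min_iff] at hu hp hcx
  obtain ⟨⟨⟨hu1, hu2⟩, hu3, hu4⟩, ⟨hu5, hu6⟩, hu7, hu8⟩ := hu
  obtain ⟨⟨⟨hp1, hp2⟩, hp3, hp4⟩, ⟨hp5, hp6⟩, hp7, hp8⟩ := hp
  obtain ⟨⟨⟨hc1, hc2⟩, hc3, hc4⟩, ⟨hc5, hc6⟩, hc7, hc8⟩ := hcx
  have hsabs : |s| = 1 := by rcases hs with h | h <;> rw [h] <;> norm_num
  have hδ : ‖((c, 1) : Eu n × ℝ)‖ ≤ D - 1 := by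
    have := trap_geo_norm_delta x₀ c hc2.le
    rw [hD]; linarith
  have hsm : ∀ σ : ℝ, σ • (s • ((c, 1) : Eu n × ℝ)) = (σ * s) • ((c, 1) : Eu n × ℝ) := by
    intro σ
    rw [smul_smul]
  have hdist : ∀ σ ∈ Icc 0 σ₁, ‖p + (σ * s) • ((c, 1) : Eu n × ℝ) - p₀‖ ≤ D * σ₁ := by
    intro σ hσ
    have h1 : p + (σ * s) • (c, (1:ℝ)) - p₀ = (p - p₀) + (σ * s) • (c, (1:ℝ)) := by abel
    rw [h1]
    have h2 := norm_add_le (p - p₀) ((σ * s) • (c, (1:ℝ)))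
    rw [norm_smul, Real.norm_eq_abs, abs_mul, hsabs, mul_one, abs_of_nonneg hσ.1] at h2
    have h3 : σ * ‖((c, 1) : Eu n × ℝ)‖ ≤ σ₁ * (D - 1) :=
      mul_le_mul hσ.2 hδ (norm_nonneg _) hσpos.le
    linarith only [h2, h3, hp3]
  have hDA1 : D * σ₁ ≤ ρA / 2 := by
    have := mul_le_mul_of_nonneg_left hs5 (by linarith : (0:ℝ) ≤ D)
    refine this.trans (le_of_eq ?_)
    field_simp
  have hDU1 : D * σ₁ ≤ ρU / 2 := by
    have := mul_le_mul_of_nonneg_left hs6 (by linarith : (0:ℝ) ≤ D)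
    refine this.trans (le_of_eq ?_)
    field_simp
  have hσD : σ₁ ≤ D * σ₁ := le_mul_of_one_le_left hσpos.le hD1
  have hUmem : ∀ σ ∈ Icc 0 σ₁, (u, p + (σ * s) • ((c, 1) : Eu n × ℝ)) ∈ U := by
    intro σ hσ
    refine (hAU u _ ?_ ?_).1
    · linarith only [hu3, hσD, hDU1, hρU]
    · have := hdist σ hσ
      linarith only [this, hDU1, hρU]
  -- the base point
  obtain ⟨hU1, hA1⟩ := hA6 u p hu5 hp5
  obtain ⟨a, ha⟩ : ∃ a, a = A (u, p) := ⟨_, rfl⟩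
  rw [← ha] at hA1
  have hca : ‖c - cmap T g a‖ ≤ ε + C₀ * ε := by
    have hε2 : ε < ρ₂ := by
      have h1 : ε ≤ ρ₅ / 2 := by
        rw [← hε1]
        have : 0 ≤ C * σ₁ * (1 + C₀) := by positivity
        have h2 := mul_nonneg hε0.le this
        linarith only [h2]
      linarith only [h1, hρ52, hρ₅0]
    have h1 := hφ2 a a₀ (hA1.trans hε2) (by rw [sub_self, norm_zero]; exact hρ₂)
    rw [hφ0, norm_sub_rev a₀ a] at h1
    have h2 := norm_add_le (c - x₀) (x₀ - cmap T g a)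
    rw [sub_add_sub_cancel] at h2
    have h3 : C₀ * ‖a - a₀‖ ≤ C₀ * ε := mul_le_mul_of_nonneg_left hA1.le (by linarith only [hC₀])
    linarith only [h1, h2, h3, hc4]
  have hmv' : ∀ σ ∈ Icc 0 σ₁, ‖A (u, p + (σ * s) • ((c, 1) : Eu n × ℝ)) - a‖
      ≤ C * σ * ‖c - cmap T g a‖ := by
    intro σ hσ
    have := hmove u p c (σ * s) hu1 hp1 hc1 (by
      rw [abs_mul, hsabs, mul_one, abs_of_nonneg hσ.1]
      linarith only [hσ.2, hs1, hρm])
    rwa [abs_mul, hsabs, mul_one, abs_of_nonneg hσ.1, ← ha] at this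
  have hnear : ∀ σ ∈ Icc 0 σ₁, ‖A (u, p + (σ * s) • ((c, 1) : Eu n × ℝ)) - a₀‖ < ρ₅ := by
    intro σ hσ
    have h1 := hmv' σ hσ
    have h2 : C * σ * ‖c - cmap T g a‖ ≤ C * σ₁ * (ε + C₀ * ε) := by
      refine mul_le_mul (mul_le_mul_of_nonneg_left hσ.2 hC) hca (norm_nonneg _) (by positivity)
    have h3 := norm_add_le (A (u, p + (σ * s) • ((c, 1) : Eu n × ℝ)) - a) (a - a₀)
    rw [sub_add_sub_cancel] at h3
    have h4 : ε + C * σ₁ * (ε + C₀ * ε) = ρ₅ / 2 := by rw [← hε1]; ring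
    linarith only [h1, h2, h3, h4, hA1, hρ₅0]
  have hann : ‖a - a₀‖ < ρ₅ := by
    have := hnear 0 ⟨le_refl _, hσpos.le⟩
    rwa [zero_mul, zero_smul, add_zero, ← ha] at this
  have hC0C : C₀ * C * σ₁ ≤ 1 / 8 := by
    have h1 := mul_le_mul_of_nonneg_left hs2 (by positivity : 0 ≤ C₀ * C)
    refine h1.trans ?_
    rw [mul_one_div, div_le_div_iff₀ (by positivity) (by norm_num)]
    linarith only [hC₀]
  have hBz : ∀ (k : K) (z : T), B z (k : T) = 0 := by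
    intro k z
    have h1 := hK k k.2
    rw [hB] at h1 ⊢
    rw [trap_geo_symm hc.openO hc.smooth a₀ haO p₀, h1]
    rfl
  refine ⟨fun σ hσ => by rw [hsm]; exact hUmem σ hσ, ?_, ?_⟩
  · -- the boundary estimate
    intro σ hσ k hk
    rw [hsm, ← ha]
    rw [← ha] at hk
    have ha'n := hnear σ hσ
    exact trap_geo_est_b hc.openO hc.smooth a₀ a _ k (hφ1 _ (ha'n.trans_le hρ52)).1 p c s σ θ C C₀
      B hs hσ.1 hθ0.le hθC hC (by linarith only [hC₀])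
      ((mul_le_mul_of_nonneg_left hσ.2 (by positivity)).trans hC0C) (hmv' σ hσ)
      (hmv a _ p (hann.trans_le hρ51) (ha'n.trans_le hρ51) hp6) (hBz k _)
      (hφ2 a _ (hann.trans_le hρ52) (ha'n.trans_le hρ52)) (hφ1 _ (ha'n.trans_le hρ52)).2.1 hk
  · -- the Hessian estimate
    intro k hk
    rw [hsm]
    have hσI : σ₁ ∈ Icc 0 σ₁ := ⟨hσpos.le, le_refl _⟩
    have ha'n := hnear σ₁ hσI
    have hUq := hUmem σ₁ hσI
    have hpq := hdist σ₁ hσI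
    have hJ1 := hDA u (p + (σ₁ * s) • ((c, 1) : Eu n × ℝ))
      (by linarith only [hu3, hσD, hDA1, hρA]) (by linarith only [hpq, hDA1, hρA]) k
    have hmax : max ‖u‖ ‖p + (σ₁ * s) • ((c, 1) : Eu n × ℝ) - p₀‖ ≤ D * σ₁ :=
      max_le (by linarith only [hu3, hσD]) hpq
    have hCADs : CA * (D * σ₁) ≤ 1 := by
      have h1 := mul_le_mul_of_nonneg_left hs4 (by positivity : 0 ≤ CA * D)
      have h2 : CA * D * (1 / (CA * D + 1)) ≤ 1 := by
        rw [mul_one_div, div_le_one (by positivity)]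
        linarith only
      linarith only [h1, h2]
    have hBs : ‖B‖ * CA ^ 2 * D ^ 2 * σ₁ ≤ 1 / 4 := by
      have h6 := mul_le_mul_of_nonneg_left hs3 (by positivity : 0 ≤ ‖B‖ * CA ^ 2 * D ^ 2)
      refine h6.trans ?_
      rw [mul_one_div, div_le_div_iff₀ (by positivity) (by norm_num)]
      linarith only
    have hJperp : fderiv ℝ A (u, p + (σ₁ * s) • ((c, 1) : Eu n × ℝ)) (k, 0) - (k : T) ∈ Kᗮ :=
      (red_facts hc hR _ hUq).2.2.2.2.1 k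
    have hJ4 : ‖(k : T)‖ ≤ ‖fderiv ℝ A (u, p + (σ₁ * s) • ((c, 1) : Eu n × ℝ)) (k, 0)‖ := by
      have h1 : K.orthogonalProjectionOnto
          (fderiv ℝ A (u, p + (σ₁ * s) • ((c, 1) : Eu n × ℝ)) (k, 0)) = k := by
        have h2 := Submodule.orthogonalProjectionOnto_eq_zero_iff.2 hJperp
        rw [map_sub, Submodule.orthogonalProjectionOnto_mem_subspace_eq_self, sub_eq_zero] at h2
        exact h2
      have h2 := K.norm_orthogonalProjectionOnto_apply_le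
        (fderiv ℝ A (u, p + (σ₁ * s) • ((c, 1) : Eu n × ℝ)) (k, 0))
      rwa [h1] at h2
    have hGJ := trap_geo_G0 hc x₀ hx hxV
      (fderiv ℝ A (u, p + (σ₁ * s) • ((c, 1) : Eu n × ℝ)) (k, 0))
      (fderiv ℝ A (u, p + (σ₁ * s) • ((c, 1) : Eu n × ℝ)) (k, 0))
    rw [real_inner_self_eq_norm_sq, ← ha₀] at hGJ
    refine trap_geo_est_h hc.openO hc.smooth a₀ _ _ (k : T) (hφ1 _ (ha'n.trans_le hρ52)).1 p c s
      σ₁ θ CA D B (fderiv ℝ (fderiv ℝ (fam (x₀, 1) ∘ cmap T g)) a₀) hs hσpos ?_ hCA (by linarith only [hD1])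
      hθ0.le hCADs hBs ?_ hJ4 (hK k k.2) (hBz k) (hmv1 _ p (ha'n.trans_le hρ51) hp6).2 hθ2 ?_ hGJ
    · intro h
      exact hk (Subtype.ext h)
    · exact hJ1.trans (mul_le_mul_of_nonneg_right (mul_le_mul_of_nonneg_left hmax hCA)
        (norm_nonneg _))
    · refine (hG _ (c, 1) (ha'n.trans_le hρ54) ?_).2
      rw [Prod.norm_def, max_lt_iff]
      refine ⟨hc7, ?_⟩
      simp only [Prod.snd_sub, sub_self, norm_zero]
      exact hρ₄

end trap_geo_aux3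

section trap_geo_aux4
set_option maxSynthPendingDepth 3
variable {n m : ℕ} {M : Set (Eu n)} {T : Submodule ℝ (Eu n)} {g : T → Tᗮ} {O : Set T} {V : Set (Eu n)}

theorem trap_geo_X (hc : IsChart ∞ m M T g O V) {a₀ : T} (ha₀ : a₀ ∈ O)
    {p₀ : Eu n × ℝ} {K : Submodule ℝ T}
    {U : Set (K × (Eu n × ℝ))} {W : Set (T × (Eu n × ℝ))} {A : K × (Eu n × ℝ) → T}
    (hR : Red T g O V a₀ p₀ K U W A) (θ : ℝ) (hθ : 0 < θ) :
    ∃ C ρ : ℝ, 0 ≤ C ∧ 0 < ρ ∧ (∀ (u u' : K) (p : Eu n × ℝ), ‖u‖ < ρ → ‖u'‖ < ρ → ‖p - p₀‖ < ρ →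
        ‖cmap T g (A (u', p)) - cmap T g (A (u, p))‖ ≤ C * ‖u' - u‖) ∧
      ∀ (u : K) (p : Eu n × ℝ), ‖u‖ < ρ → ‖p - p₀‖ < ρ → ∀ k : K,
        ‖trap_geo_D T g (A (u, p)) (fderiv ℝ A (u, p) (k, 0)) - trap_geo_D T g a₀ k‖
          ≤ θ * ‖k‖ := by
  -- Lipschitz
  have hA0 : ContDiffAt ℝ 1 A (0, p₀) :=
    (hR.smooth.contDiffAt (hR.openU.mem_nhds hR.memU)).of_le (by exact_mod_cast le_top)
  have hX0 : ContDiffAt ℝ 1 (fun q => cmap T g (A q)) (0, p₀) := by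
    have h1 : ContDiffAt ℝ 1 (cmap T g) (A (0, p₀)) := by
      rw [hR.A0]
      exact ((trap_geo_cmap_smooth hc.smooth).contDiffAt (hc.openO.mem_nhds ha₀)).of_le
        (by exact_mod_cast le_top)
    exact ContDiffAt.comp (g := cmap T g) (f := A) (0, p₀) h1 hA0
  obtain ⟨C, t, ht, hL⟩ := hX0.exists_lipschitzOnWith
  obtain ⟨ρ₁, hρ₁, h3⟩ := Metric.mem_nhds_iff.1 ht
  obtain ⟨CA, ρA, hCA, hρA, hDA⟩ := trap_geo_DA hR
  set N₀ : ℝ := ‖trap_geo_D T g a₀‖ with hN₀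
  have hN₀0 : 0 ≤ N₀ := norm_nonneg _
  obtain ⟨C₀, ρ₂, hC₀, hρ₂, -, hφ1, -⟩ :=
    trap_geo_phi hc.openO hc.smooth a₀ ha₀ (θ / 4) (by positivity)
  obtain ⟨ρ₃, hρ₃, hA3⟩ := trap_geo_A_near hR ρ₂ hρ₂
  refine ⟨C, min (min ρ₁ ρA) (min ρ₃ (min (1 / (CA + 1)) (θ / (2 * ((N₀ + 1) * (CA + 1)))))), C.2,
    lt_min (lt_min hρ₁ hρA) (lt_min hρ₃ (lt_min (by positivity) (by positivity))), ?_, ?_⟩
  · intro u u' p hu hu' hp
    simp only [lt_min_iff] at hu hu' hp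
    have h4 : ((u, p) : K × (Eu n × ℝ)) ∈ t := h3 (by
      rw [Metric.mem_ball, Prod.dist_eq, max_lt_iff, dist_eq_norm, dist_eq_norm, sub_zero]
      exact ⟨hu.1.1, hp.1.1⟩)
    have h5 : ((u', p) : K × (Eu n × ℝ)) ∈ t := h3 (by
      rw [Metric.mem_ball, Prod.dist_eq, max_lt_iff, dist_eq_norm, dist_eq_norm, sub_zero]
      exact ⟨hu'.1.1, hp.1.1⟩)
    have h6 := hL.dist_le_mul _ h5 _ h4
    rw [dist_eq_norm] at h6
    refine h6.trans (le_of_eq ?_)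
    rw [Prod.dist_eq, dist_self, dist_eq_norm, max_eq_left (norm_nonneg _)]
  · intro u p hu hp k
    simp only [lt_min_iff] at hu hp
    have h1 := hDA u p hu.1.2 hp.1.2 k
    have h2 := (hA3 u p hu.2.1 hp.2.1).2
    have h4 := (hφ1 _ h2).2.1
    have hmax : max ‖u‖ ‖p - p₀‖ ≤ 1 / (CA + 1) := max_le hu.2.2.1.le hp.2.2.1.le
    have hmax2 : max ‖u‖ ‖p - p₀‖ ≤ θ / (2 * ((N₀ + 1) * (CA + 1))) :=
      max_le hu.2.2.2.le hp.2.2.2.le
    have hmax0 : 0 ≤ max ‖u‖ ‖p - p₀‖ := le_max_of_le_left (norm_nonneg _)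
    have hk0 := norm_nonneg k
    have h5 : ‖fderiv ℝ A (u, p) (k, 0)‖ ≤ 2 * ‖k‖ := by
      have h6 := norm_add_le (fderiv ℝ A (u, p) (k, 0) - (k : T)) (k : T)
      rw [sub_add_cancel] at h6
      have h7 : ‖(k : T)‖ = ‖k‖ := rfl
      have h8 : CA * max ‖u‖ ‖p - p₀‖ ≤ 1 := by
        have h9 := mul_le_mul_of_nonneg_left hmax hCA
        have h10 : CA * (1 / (CA + 1)) ≤ 1 := by
          rw [mul_one_div, div_le_one (by positivity)]
          linarith only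
        linarith only [h9, h10]
      have h9 := mul_le_mul_of_nonneg_right h8 hk0
      linarith only [h6, h7, h9, h1]
    have e1 : trap_geo_D T g (A (u, p)) (fderiv ℝ A (u, p) (k, 0)) - trap_geo_D T g a₀ k
        = (trap_geo_D T g (A (u, p)) - trap_geo_D T g a₀) (fderiv ℝ A (u, p) (k, 0))
          + trap_geo_D T g a₀ (fderiv ℝ A (u, p) (k, 0) - (k : T)) := by
      rw [sub_apply, map_sub]; abel
    rw [e1]
    have h6 := ContinuousLinearMap.le_opNorm (trap_geo_D T g (A (u, p)) - trap_geo_D T g a₀)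
      (fderiv ℝ A (u, p) (k, 0))
    have h7 := ContinuousLinearMap.le_opNorm (trap_geo_D T g a₀)
      (fderiv ℝ A (u, p) (k, 0) - (k : T))
    have h8 : ‖trap_geo_D T g (A (u, p)) - trap_geo_D T g a₀‖ * ‖fderiv ℝ A (u, p) (k, 0)‖
        ≤ θ / 4 * (2 * ‖k‖) := mul_le_mul h4 h5 (norm_nonneg _) (by positivity)
    have h9 : ‖trap_geo_D T g a₀‖ * ‖fderiv ℝ A (u, p) (k, 0) - (k : T)‖ ≤ θ / 2 * ‖k‖ := by
      have h10 : N₀ * ‖fderiv ℝ A (u, p) (k, 0) - (k : T)‖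
          ≤ N₀ * (CA * max ‖u‖ ‖p - p₀‖ * ‖k‖) := mul_le_mul_of_nonneg_left h1 hN₀0
      have h11 : N₀ * (CA * max ‖u‖ ‖p - p₀‖) ≤ θ / 2 := by
        have h12 : N₀ * (CA * max ‖u‖ ‖p - p₀‖)
            ≤ (N₀ + 1) * ((CA + 1) * (θ / (2 * ((N₀ + 1) * (CA + 1))))) := by
          gcongr
          · linarith only
          · linarith only
        refine h12.trans (le_of_eq ?_)
        field_simp
      have h12 := mul_le_mul_of_nonneg_right h11 hk0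
      rw [← hN₀]
      linarith only [h10, h12]
    refine (norm_add_le _ _).trans ?_
    linarith only [h6, h7, h8, h9]

theorem trap_geo_circ_deriv (c e ν : Eu n) (r θ : ℝ) :
    HasDerivAt (circA c e ν r) (r • circT e ν θ) θ := by
  have h1 : HasDerivAt (fun θ : ℝ => Real.cos θ • e + Real.sin θ • ν)
      (-(Real.sin θ) • e + Real.cos θ • ν) θ :=
    ((Real.hasDerivAt_cos θ).smul_const e).add ((Real.hasDerivAt_sin θ).smul_const ν)
  exact (h1.const_smul r).const_add c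

theorem trap_geo_circ_smooth (c e ν : Eu n) (r : ℝ) : ContDiff ℝ ∞ (circA c e ν r) := by
  unfold circA
  exact contDiff_const.add (((Real.contDiff_cos.smul contDiff_const).add
    (Real.contDiff_sin.smul contDiff_const)).const_smul r)

/-- the unit tangent vector of the circle in the chart -/
theorem trap_geo_tau (hc : IsChart ∞ m M T g O V) (c e ν : Eu n) (r : ℝ) (hr : 0 < r)
    (hM : ∀ θ, circA c e ν r θ ∈ M) (θ : ℝ) (hV : circA c e ν r θ ∈ V) :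
    trap_geo_D T g (T.orthogonalProjectionOnto (circA c e ν r θ))
      (T.orthogonalProjectionOnto (circT e ν θ)) = circT e ν θ := by
  have h1 : circT e ν θ ∈ velocities M (circA c e ν r θ) := by
    refine ⟨fun t => circA c e ν r (θ + t * r⁻¹), ⟨by simp, 1, one_pos, ?_, ?_⟩, ?_⟩
    · refine ContDiff.contDiffOn ?_
      exact (trap_geo_circ_smooth c e ν r).comp (contDiff_const.add (contDiff_id.mul contDiff_const))
    · intro t _
      exact hM _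
    · have h2 : HasDerivAt (fun t : ℝ => θ + t * r⁻¹) (1 * r⁻¹) 0 :=
        ((hasDerivAt_id (0:ℝ)).mul_const r⁻¹).const_add θ
      have h3 : HasDerivAt (circA c e ν r) (r • circT e ν θ) (θ + 0 * r⁻¹) := by
        rw [zero_mul, add_zero]
        exact trap_geo_circ_deriv c e ν r θ
      have h4 := h3.scomp (0:ℝ) h2
      have h5 : deriv (fun t : ℝ => circA c e ν r (θ + t * r⁻¹)) 0
          = (1 * r⁻¹) • r • circT e ν θ := h4.deriv
      rw [h5, smul_smul, one_mul, inv_mul_cancel₀ hr.ne', one_smul]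
  rw [br_vel hc _ (hM θ) hV] at h1
  obtain ⟨u, hu⟩ := h1
  simp only at hu
  have h2 : T.orthogonalProjectionOnto (circT e ν θ) = u := by
    rw [← hu, map_add, Submodule.orthogonalProjectionOnto_mem_subspace_eq_self,
      Submodule.orthogonalProjectionOnto_apply_of_mem_orthogonal (SetLike.coe_mem _), add_zero]
  rw [h2, trap_geo_D_apply]
  exact hu

theorem trap_geo_b (a : T) (b : Tᗮ) (p : Eu n × ℝ) (h : p = Jmap T (Th g (a, b, p.2))) :
    T.orthogonalProjectionOnto p.1 = p.2 • a - nrm g a b ∧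
      Tᗮ.orthogonalProjectionOnto p.1 - p.2 • g a = b := by
  have h1 : p.1 = ((p.2 • a - nrm g a b : T) : Eu n) + ((p.2 • g a + b : Tᗮ) : Eu n) :=
    congrArg Prod.fst h
  have h2 : T.orthogonalProjectionOnto p.1 = p.2 • a - nrm g a b := by
    rw [h1, map_add, Submodule.orthogonalProjectionOnto_mem_subspace_eq_self,
      Submodule.orthogonalProjectionOnto_apply_of_mem_orthogonal (SetLike.coe_mem _), add_zero]
  have h3 : Tᗮ.orthogonalProjectionOnto p.1 = p.2 • g a + b := by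
    rw [h1, map_add, Submodule.orthogonalProjectionOnto_mem_subspace_eq_self,
      Submodule.orthogonalProjectionOnto_orthogonal_apply_eq_zero (SetLike.coe_mem _), zero_add]
  exact ⟨h2, by rw [h3]; abel⟩

theorem trap_geo_crit0 (hc : IsChart ∞ m M T g O V) (x : Eu n) (hx : x ∈ M) (hxV : x ∈ V)
    (p : Eu n × ℝ) (h : x ∈ critSet M (fam p)) :
    fderiv ℝ (fam p ∘ cmap T g) (T.orthogonalProjectionOnto x) = 0 := by
  obtain ⟨b, hb⟩ := (crit_iff hc x hx hxV p).1 h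
  obtain ⟨h1, h2⟩ := trap_geo_b _ b p hb
  ext u
  rw [fam_d1 g O hc.openO hc.smooth _ (hc.mem x hxV).1, h2, h1]
  simp

end trap_geo_aux4

section trap_geo_aux5
set_option maxSynthPendingDepth 3

/-- polar coordinates -/
theorem trap_geo_polar (α β : ℝ) : ∃ θ ∈ Icc (-Real.pi) Real.pi,
    α = Real.sqrt (α ^ 2 + β ^ 2) * Real.cos θ ∧ β = Real.sqrt (α ^ 2 + β ^ 2) * Real.sin θ := by
  have h1 : ‖(⟨α, β⟩ : ℂ)‖ = Real.sqrt (α ^ 2 + β ^ 2) := by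
    rw [Complex.norm_def, Complex.normSq_mk]
    congr 1
    ring
  refine ⟨Complex.arg ⟨α, β⟩, ⟨(Complex.neg_pi_lt_arg _).le, Complex.arg_le_pi _⟩, ?_, ?_⟩
  · rw [← h1, Complex.norm_mul_cos_arg]
  · rw [← h1, Complex.norm_mul_sin_arg]

theorem trap_geo_L {K : Type} [NormedAddCommGroup K] [InnerProductSpace ℝ K]
    [FiniteDimensional ℝ K] (h2 : Module.finrank ℝ K = 2) (e1 e2 : K)
    (hli : ∀ α β : ℝ, α • e1 + β • e2 = 0 → α = 0 ∧ β = 0) :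
    ∃ L : K ≃L[ℝ] K, (∀ α β : ℝ, ‖L (α • e1 + β • e2)‖ = Real.sqrt (α ^ 2 + β ^ 2)) ∧
      ∀ k : K, ∃ α β : ℝ, k = α • e1 + β • e2 := by
  have hlin : LinearIndependent ℝ ![e1, e2] := by
    rw [LinearIndependent.pair_iff]
    exact hli
  let b : Module.Basis (Fin 2) ℝ K :=
    basisOfLinearIndependentOfCardEqFinrank hlin (by rw [h2]; rfl)
  have hb0 : b 0 = e1 := by
    simp [b]
  have hb1 : b 1 = e2 := by
    simp [b]
  let ob : OrthonormalBasis (Fin 2) ℝ K := (stdOrthonormalBasis ℝ K).reindex (finCongr h2)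
  let L : K ≃ₗ[ℝ] K := b.equiv ob.toBasis (Equiv.refl _)
  have hL0 : L e1 = ob 0 := by
    rw [← hb0]
    simp [L]
  have hL1 : L e2 = ob 1 := by
    rw [← hb1]
    simp [L]
  refine ⟨L.toContinuousLinearEquiv, ?_, ?_⟩
  · intro α β
    have h3 : L.toContinuousLinearEquiv (α • e1 + β • e2) = α • ob 0 + β • ob 1 := by
      change L (α • e1 + β • e2) = _
      rw [map_add, map_smul, map_smul, hL0, hL1]
    rw [h3]
    have h4 : ‖α • ob 0 + β • ob 1‖ ^ 2 = α ^ 2 + β ^ 2 := by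
      have h5 : ⟪ob 0, ob 1⟫_ℝ = 0 := ob.orthonormal.2 (by decide)
      rw [norm_add_sq_real, norm_smul, norm_smul, ob.orthonormal.1, ob.orthonormal.1,
        real_inner_smul_left, real_inner_smul_right, h5]
      simp
    rw [← h4, Real.sqrt_sq (norm_nonneg _)]
  · intro k
    refine ⟨b.repr k 0, b.repr k 1, ?_⟩
    have h3 := b.sum_repr k
    rw [Fin.sum_univ_two, hb0, hb1] at h3
    exact h3.symm

theorem trap_geo_annulus {K : Type} [NormedAddCommGroup K] [NormedSpace ℝ K]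
    (f : K → ℝ) (Ω : Set K) (hΩ : IsOpen Ω) (hf : ContDiffOn ℝ ∞ f Ω) (uc : K) (κ : ℝ → K)
    (hκ : Continuous κ) (r : ℝ) (hr : 0 < r)
    (hmem : ∀ θ : ℝ, uc + r • κ θ ∈ Ω) (h0 : ∀ θ : ℝ, fderiv ℝ f (uc + r • κ θ) = 0)
    (h2 : ∀ θ : ℝ, fderiv ℝ (fderiv ℝ f) (uc + r • κ θ) (κ θ) (κ θ) ≠ 0) :
    ∃ s : ℝ, (s = 1 ∨ s = -1) ∧ ∃ η₀ : ℝ, 0 < η₀ ∧ ∀ η : ℝ, 0 < η → η ≤ η₀ →
      ∀ θ ∈ Icc (-Real.pi) Real.pi,
        s * fderiv ℝ f (uc + ((1 + η) * r) • κ θ) (κ θ) < 0 ∧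
        0 < s * fderiv ℝ f (uc + ((1 - η) * r) • κ θ) (κ θ) := by
  have hf1 : ContDiffOn ℝ ∞ (fderiv ℝ f) Ω := hf.fderiv_of_isOpen hΩ (by simp)
  have hf2 : ContinuousOn (fderiv ℝ (fderiv ℝ f)) Ω :=
    (hf1.fderiv_of_isOpen hΩ (m := ∞) (by simp)).continuousOn
  -- the function om
  obtain ⟨om, hom⟩ : ∃ om : ℝ × ℝ → ℝ, om = fun z =>
      fderiv ℝ (fderiv ℝ f) (uc + (z.1 * r) • κ z.2) (κ z.2) (κ z.2) := ⟨_, rfl⟩
  have hpt : Continuous fun z : ℝ × ℝ => uc + (z.1 * r) • κ z.2 :=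
    continuous_const.add ((continuous_fst.mul continuous_const).smul (hκ.comp continuous_snd))
  have homc : ∀ z : ℝ × ℝ, uc + (z.1 * r) • κ z.2 ∈ Ω → ContinuousAt om z := by
    intro z hz
    rw [hom]
    have h3 : ContinuousAt (fun z : ℝ × ℝ => fderiv ℝ (fderiv ℝ f) (uc + (z.1 * r) • κ z.2)) z :=
      ContinuousAt.comp (g := fderiv ℝ (fderiv ℝ f)) (f := fun z : ℝ × ℝ => uc + (z.1 * r) • κ z.2)
        (hf2.continuousAt (hΩ.mem_nhds hz)) hpt.continuousAt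
    have h4 : ContinuousAt (fun z : ℝ × ℝ => κ z.2) z := (hκ.comp continuous_snd).continuousAt
    exact (h3.clm_apply h4).clm_apply h4
  have hom1 : ∀ θ, om (1, θ) ≠ 0 := by
    intro θ
    rw [hom]
    simp only [one_mul]
    exact h2 θ
  have hom1c : Continuous fun θ : ℝ => om (1, θ) := by
    rw [continuous_iff_continuousAt]
    intro θ
    have h3 : ContinuousAt om (1, θ) := homc (1, θ) (by simp only [one_mul]; exact hmem θ)
    exact ContinuousAt.comp (g := om) (f := fun θ : ℝ => ((1 : ℝ), θ)) h3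
      (continuous_const.prodMk continuous_id).continuousAt
  obtain ⟨s, hs, hneg⟩ : ∃ s : ℝ, (s = 1 ∨ s = -1) ∧ ∀ θ, s * om (1, θ) < 0 := by
    by_cases hcase : ∃ θ₀, om (1, θ₀) < 0
    · obtain ⟨θ₀, hθ₀⟩ := hcase
      refine ⟨1, Or.inl rfl, fun θ => ?_⟩
      rw [one_mul]
      by_contra hcon
      rw [not_lt] at hcon
      obtain ⟨x, hx⟩ := mem_range_of_exists_le_of_exists_ge hom1c ⟨θ₀, hθ₀.le⟩ ⟨θ, hcon⟩
      exact hom1 x hx
    · refine ⟨-1, Or.inr rfl, fun θ => ?_⟩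
      rw [not_exists] at hcase
      have h3 := hcase θ
      rw [not_lt] at h3
      have h4 := lt_of_le_of_ne h3 (hom1 θ).symm
      linarith
  -- compactness
  have hev : ∀ᶠ t : ℝ in 𝓝 1, ∀ θ ∈ Icc (-Real.pi) Real.pi,
      uc + (t * r) • κ θ ∈ Ω ∧ s * om (t, θ) < 0 := by
    refine isCompact_Icc.eventually_forall_of_forall_eventually
      (P := fun t θ => uc + (t * r) • κ θ ∈ Ω ∧ s * om (t, θ) < 0) ?_
    intro θ _
    have hm : uc + (((1, θ) : ℝ × ℝ).1 * r) • κ ((1, θ) : ℝ × ℝ).2 ∈ Ω := by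
      simp only [one_mul]; exact hmem θ
    refine Filter.Eventually.and ?_ ?_
    · exact hpt.continuousAt.preimage_mem_nhds (hΩ.mem_nhds hm)
    · have h3 : ContinuousAt (fun z => s * om z) ((1, θ) : ℝ × ℝ) :=
        continuousAt_const.mul (homc _ hm)
      have h4 := h3.preimage_mem_nhds (isOpen_Iio.mem_nhds (hneg θ))
      exact h4
  obtain ⟨ε, hε, h3⟩ := Metric.eventually_nhds_iff.1 hev
  refine ⟨s, hs, ε / 2, by positivity, ?_⟩
  intro η hη hη2 θ hθ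
  have hin : ∀ t ∈ Icc (1 - η) (1 + η), uc + (t * r) • κ θ ∈ Ω ∧ s * om (t, θ) < 0 := by
    intro t ht
    refine h3 ?_ θ hθ
    rw [Real.dist_eq, abs_lt]
    constructor <;> linarith [ht.1, ht.2]
  have hder : ∀ t ∈ Icc (1 - η) (1 + η),
      HasDerivAt (fun t : ℝ => s * fderiv ℝ f (uc + (t * r) • κ θ) (κ θ))
        (s * (r * om (t, θ))) t := by
    intro t ht
    have h4 : HasFDerivAt (fderiv ℝ f) (fderiv ℝ (fderiv ℝ f) (uc + (t * r) • κ θ))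
        (uc + (t * r) • κ θ) :=
      ((hf1.contDiffAt (hΩ.mem_nhds (hin t ht).1)).differentiableAt (by simp)).hasFDerivAt
    have h5 : HasDerivAt (fun t : ℝ => uc + (t * r) • κ θ) ((1 * r) • κ θ) t :=
      (((hasDerivAt_id t).mul_const r).smul_const (κ θ)).const_add uc
    have h6 := h4.comp_hasDerivAt t h5
    have h7 := (h6.clm_apply (hasDerivAt_const t (κ θ))).const_mul s
    have e8 : s * (r * om (t, θ))
        = s * (fderiv ℝ (fderiv ℝ f) (uc + (t * r) • κ θ) ((1 * r) • κ θ) (κ θ) +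
          ((fderiv ℝ f ∘ fun t => uc + (t * r) • κ θ) t) 0) := by
      rw [hom, map_zero, add_zero, map_smul, smul_apply, smul_eq_mul, one_mul]
    rw [e8]
    exact h7
  have hanti : StrictAntiOn (fun t : ℝ => s * fderiv ℝ f (uc + (t * r) • κ θ) (κ θ))
      (Icc (1 - η) (1 + η)) := by
    refine strictAntiOn_of_deriv_neg (convex_Icc _ _) ?_ ?_
    · intro t ht
      exact (hder t ht).continuousAt.continuousWithinAt
    · intro t ht
      rw [interior_Icc] at ht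
      have ht' : t ∈ Icc (1 - η) (1 + η) := ⟨ht.1.le, ht.2.le⟩
      rw [(hder t ht').deriv]
      have h8 := mul_neg_of_pos_of_neg hr (hin t ht').2
      linarith
  have hval1 : s * fderiv ℝ f (uc + ((1:ℝ) * r) • κ θ) (κ θ) = 0 := by
    rw [one_mul, h0 θ]
    simp
  constructor
  · have := hanti (⟨by linarith, by linarith⟩ : (1:ℝ) ∈ Icc (1 - η) (1 + η))
      (⟨by linarith, le_refl _⟩ : (1 + η) ∈ Icc (1 - η) (1 + η)) (by linarith)
    simp only at this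
    rw [hval1] at this
    exact this
  · have := hanti (⟨le_refl _, by linarith⟩ : (1 - η) ∈ Icc (1 - η) (1 + η))
      (⟨by linarith, by linarith⟩ : (1:ℝ) ∈ Icc (1 - η) (1 + η)) (by linarith)
    simp only at this
    rw [hval1] at this
    exact this

end trap_geo_aux5

section trap_geo_aux6
set_option maxSynthPendingDepth 3
variable {n m : ℕ} {M : Set (Eu n)} {T : Submodule ℝ (Eu n)} {g : T → Tᗮ} {O : Set T} {V : Set (Eu n)}

theorem trap_geo_unit (e ν : Eu n) (he : ‖e‖ = 1) (hν : ‖ν‖ = 1) (h : ⟪e, ν⟫_ℝ = 0) (θ : ℝ) :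
    ‖Real.cos θ • e + Real.sin θ • ν‖ = 1 := by
  have h4 : ‖Real.cos θ • e + Real.sin θ • ν‖ ^ 2 = 1 := by
    rw [norm_add_sq_real, norm_smul, norm_smul, he, hν, real_inner_smul_left,
      real_inner_smul_right, h]
    simp
  have h5 := norm_nonneg (Real.cos θ • e + Real.sin θ • ν)
  nlinarith

theorem trap_geo_proj_cmap (a : T) : T.orthogonalProjectionOnto (cmap T g a) = a := by
  unfold cmap
  rw [map_add, Submodule.orthogonalProjectionOnto_mem_subspace_eq_self,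
    Submodule.orthogonalProjectionOnto_apply_of_mem_orthogonal (SetLike.coe_mem _), add_zero]

theorem trap_geo_circ (hc : IsChart ∞ m M T g O V) (x₀ : Eu n) (hxV : x₀ ∈ V)
    {p₀ : Eu n × ℝ} {K : Submodule ℝ T}
    {U : Set (K × (Eu n × ℝ))} {W : Set (T × (Eu n × ℝ))} {A : K × (Eu n × ℝ) → T}
    (a₀ : T) (ha₀ : a₀ = T.orthogonalProjectionOnto x₀)
    (hR : Red T g O V a₀ p₀ K U W A) :
    ∃ ρ : ℝ, 0 < ρ ∧ ∀ (p : Eu n × ℝ) (c e ν : Eu n) (r : ℝ), ‖p - p₀‖ < ρ → ‖c - x₀‖ < ρ →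
      0 < r → r < ρ → ‖e‖ = 1 → ‖ν‖ = 1 → ⟪e, ν⟫_ℝ = 0 →
      (∀ θ : ℝ, circA c e ν r θ ∈ critSet M (fam p)) → ∀ θ : ℝ,
        circA c e ν r θ ∈ M ∧ circA c e ν r θ ∈ V ∧
        (K.orthogonalProjectionOnto (T.orthogonalProjectionOnto c - a₀) + r •
          (Real.cos θ • K.orthogonalProjectionOnto (T.orthogonalProjectionOnto e)
          + Real.sin θ • K.orthogonalProjectionOnto (T.orthogonalProjectionOnto ν)), p) ∈ U ∧
        A (K.orthogonalProjectionOnto (T.orthogonalProjectionOnto c - a₀) + r •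
          (Real.cos θ • K.orthogonalProjectionOnto (T.orthogonalProjectionOnto e)
          + Real.sin θ • K.orthogonalProjectionOnto (T.orthogonalProjectionOnto ν)), p)
          = T.orthogonalProjectionOnto (circA c e ν r θ) := by
  obtain ⟨ρW, hρW, hW⟩ := Metric.mem_nhds_iff.1 (hR.openW.mem_nhds hR.memW)
  obtain ⟨ρV, hρV, hV⟩ := Metric.mem_nhds_iff.1 (hc.openV.mem_nhds hxV)
  refine ⟨min (ρW / 2) (ρV / 2), lt_min (by positivity) (by positivity), ?_⟩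
  intro p c e ν r hp hcx hr hrρ he hν heν hcr θ
  simp only [lt_min_iff] at hp hcx hrρ
  have hM : circA c e ν r θ ∈ M := (hcr θ).1
  have hdist : ‖circA c e ν r θ - x₀‖ ≤ ‖c - x₀‖ + r := by
    have h1 : circA c e ν r θ - x₀ = (c - x₀) + r • (Real.cos θ • e + Real.sin θ • ν) := by
      unfold circA
      abel
    rw [h1]
    refine (norm_add_le _ _).trans ?_
    rw [norm_smul, trap_geo_unit e ν he hν heν, Real.norm_eq_abs, abs_of_pos hr, mul_one]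
  have hVm : circA c e ν r θ ∈ V := hV (by
    rw [Metric.mem_ball, dist_eq_norm]
    linarith [hcx.2, hrρ.2])
  have hproj : ‖T.orthogonalProjectionOnto (circA c e ν r θ) - a₀‖ < ρW := by
    rw [ha₀, ← map_sub]
    refine (T.norm_orthogonalProjectionOnto_apply_le _).trans_lt ?_
    linarith [hcx.1, hrρ.1]
  have hWm : (T.orthogonalProjectionOnto (circA c e ν r θ), p) ∈ W := hW (by
    rw [Metric.mem_ball, Prod.dist_eq, max_lt_iff, dist_eq_norm, dist_eq_norm]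
    exact ⟨hproj, by linarith [hp.1]⟩)
  have huq := hR.uniq _ p hWm (by
    intro v _
    rw [trap_geo_crit0 hc _ hM hVm p (hcr θ)]
    rfl)
  have hu : K.orthogonalProjectionOnto (T.orthogonalProjectionOnto (circA c e ν r θ) - a₀)
      = K.orthogonalProjectionOnto (T.orthogonalProjectionOnto c - a₀) + r •
          (Real.cos θ • K.orthogonalProjectionOnto (T.orthogonalProjectionOnto e)
          + Real.sin θ • K.orthogonalProjectionOnto (T.orthogonalProjectionOnto ν)) := by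
    unfold circA
    simp only [map_add, map_sub, map_smul]
    abel
  rw [hu] at huq
  exact ⟨hM, hVm, huq.1, huq.2⟩

/-- everything about the reduced function along the circle -/
theorem trap_geo_circ2 (hc : IsChart ∞ m M T g O V)
    {p₀ : Eu n × ℝ} {K : Submodule ℝ T}
    {U : Set (K × (Eu n × ℝ))} {W : Set (T × (Eu n × ℝ))} {A : K × (Eu n × ℝ) → T}
    (a₀ : T) (hR : Red T g O V a₀ p₀ K U W A) (p : Eu n × ℝ) (c e ν : Eu n) (r : ℝ) (hr : 0 < r)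
    (hcrM : ∀ θ : ℝ, circA c e ν r θ ∈ critSet M (fam p)) (θ : ℝ)
    (hM : circA c e ν r θ ∈ M) (hV : circA c e ν r θ ∈ V) (u k : K) (hU : (u, p) ∈ U)
    (hA : A (u, p) = T.orthogonalProjectionOnto (circA c e ν r θ))
    (hk : k = K.orthogonalProjectionOnto (T.orthogonalProjectionOnto (circT e ν θ)))
    (hτ0 : T.orthogonalProjectionOnto (circT e ν θ) ≠ 0)
    (hnull : ∀ v : T, v ∈ nullK T g (circA c e ν r θ) p ↔
          ∃ s : ℝ, v = s • T.orthogonalProjectionOnto (circT e ν θ)) :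
    fderiv ℝ (redHp T g K A p) u = 0 ∧ k ≠ 0 ∧ fderiv ℝ (fderiv ℝ (redHp T g K A p)) u k = 0 ∧
      (∀ k' : K, fderiv ℝ (fderiv ℝ (redHp T g K A p)) u k' = 0 → ∃ s : ℝ, k' = s • k) ∧
      trap_geo_D T g (A (u, p)) (fderiv ℝ A (u, p) (k, 0)) = circT e ν θ := by
  obtain ⟨-, -, h3, h4, h5, h6, -⟩ := red_facts hc hR (u, p) hU
  simp only at h3 h4 h5 h6
  have hPJ : ∀ k' : K, K.orthogonalProjectionOnto (fderiv ℝ A (u, p) (k', 0)) = k' := by
    intro k'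
    have h7 := Submodule.orthogonalProjectionOnto_eq_zero_iff.2 (h5 k')
    rw [map_sub, Submodule.orthogonalProjectionOnto_mem_subspace_eq_self, sub_eq_zero] at h7
    exact h7
  have hmem : T.orthogonalProjectionOnto (circT e ν θ) ∈ nullK T g (circA c e ν r θ) p :=
    (hnull _).2 ⟨1, (one_smul _ _).symm⟩
  rw [trap_geo_null hc _ hM hV, ← hA] at hmem
  obtain ⟨k₁, hk₁, hk₂⟩ := (h6 _).1 hmem
  have hkk : k₁ = k := by
    rw [hk, hk₁, hPJ]
  rw [hkk] at hk₁ hk₂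
  refine ⟨?_, ?_, hk₂, ?_, ?_⟩
  · ext k'
    rw [h3 k', hA, trap_geo_crit0 hc _ hM hV p (hcrM θ)]
    rfl
  · intro h0
    apply hτ0
    rw [hk₁, h0]
    exact map_zero _
  · intro k' hk'
    have h7 := (h6 (fderiv ℝ A (u, p) (k', 0))).2 ⟨k', rfl, hk'⟩
    rw [hA, ← trap_geo_null hc _ hM hV, hnull] at h7
    obtain ⟨s, hs⟩ := h7
    refine ⟨s, ?_⟩
    have h8 := congrArg K.orthogonalProjectionOnto hs
    rw [hPJ, map_smul, ← hk] at h8
    exact h8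
  · rw [← hk₁, hA]
    exact trap_geo_tau hc c e ν r hr (fun θ => (hcrM θ).1) θ hV

/-- nondegeneracy of the reduced function off the focal set -/
theorem trap_geo_hnd (hc : IsChart ∞ m M T g O V)
    {p₀ : Eu n × ℝ} {K : Submodule ℝ T}
    {U : Set (K × (Eu n × ℝ))} {W : Set (T × (Eu n × ℝ))} {A : K × (Eu n × ℝ) → T}
    (a₀ : T) (hR : Red T g O V a₀ p₀ K U W A) (q : K × (Eu n × ℝ)) (hq : q ∈ U)
    (hB : IsMorse m M (fam q.2)) (h1 : fderiv ℝ (redHp T g K A q.2) q.1 = 0) (k : K)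
    (hk : fderiv ℝ (fderiv ℝ (redHp T g K A q.2)) q.1 k = 0) : k = 0 := by
  obtain ⟨-, -, -, -, h5, h6, h7⟩ := red_facts hc hR q hq
  have hcr := h7.2 h1
  have hV : cmap T g (A q) ∈ V := (hR.dom q hq).2.2
  have hO : A q ∈ O := (hR.dom q hq).2.1
  obtain ⟨b, hb⟩ := (crit_iff hc _ hcr.1 hV q.2).1 hcr
  have hker := (nondeg_iff hc _ hcr.1 hV q.2 b hb).1 (hB _ hcr)
  obtain ⟨-, hb2⟩ := trap_geo_b _ b q.2 hb
  have h8 := (h6 (fderiv ℝ A q (k, 0))).2 ⟨k, rfl, hk⟩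
  rw [trap_geo_proj_cmap] at hker hb2
  have h9 := fam_d2 g O hc.openO hc.smooth _ hO q.2 (fderiv ℝ A q (k, 0))
    (Lop g (A q) b q.2.2 (fderiv ℝ A q (k, 0)))
  rw [h8, hb2] at h9
  have h10 : (0 : ℝ) = -⟪Lop g (A q) b q.2.2 (fderiv ℝ A q (k, 0)),
    Lop g (A q) b q.2.2 (fderiv ℝ A q (k, 0))⟫_ℝ := h9
  have h11 : Lop g (A q) b q.2.2 (fderiv ℝ A q (k, 0)) = 0 :=
    inner_self_eq_zero.1 (neg_eq_zero.1 h10.symm)
  have h12 : fderiv ℝ A q (k, 0) ∈ LinearMap.ker (Lop g (A q) b q.2.2 : T →ₗ[ℝ] T) := h11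
  rw [hker, Submodule.mem_bot] at h12
  have h13 := Submodule.orthogonalProjectionOnto_eq_zero_iff.2 (h5 k)
  rw [map_sub, Submodule.orthogonalProjectionOnto_mem_subspace_eq_self, sub_eq_zero, h12,
    map_zero] at h13
  exact h13.symm

theorem trap_geo_closed (hM : IsSubmanifold ∞ m M) (hcpt : IsCompact M) :
    IsClosed {p : Eu n × ℝ | ¬ IsMorse m M (fam p)} := by
  rw [← isOpen_compl_iff]
  rw [isOpen_iff_mem_nhds]
  intro p hp
  have hp' : IsMorse m M (fam p) := by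
    by_contra h
    exact hp h
  filter_upwards [(count_loc hM hcpt p hp').2] with q hq
  exact fun h => h hq.1

end trap_geo_aux6

section trap_geo_aux7
set_option maxSynthPendingDepth 3
variable {n m : ℕ} {M : Set (Eu n)} {T : Submodule ℝ (Eu n)} {g : T → Tᗮ} {O : Set T} {V : Set (Eu n)}

/-- the Hessian of the reduced function is nonzero in the radial direction -/
theorem trap_geo_radial {K : Type} [NormedAddCommGroup K] [NormedSpace ℝ K] (e1 e2 : K)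
    (hspan : ∀ k : K, ∃ α β : ℝ, k = α • e1 + β • e2)
    (hli : ∀ α β : ℝ, α • e1 + β • e2 = 0 → α = 0 ∧ β = 0) (H : K →L[ℝ] K →L[ℝ] ℝ)
    (hsymm : ∀ x y, H x y = H y x) (θ : ℝ)
    (h0 : H (-Real.sin θ • e1 + Real.cos θ • e2) = 0)
    (hker : ∀ k, H k = 0 → ∃ s : ℝ, k = s • (-Real.sin θ • e1 + Real.cos θ • e2)) :
    H (Real.cos θ • e1 + Real.sin θ • e2) (Real.cos θ • e1 + Real.sin θ • e2) ≠ 0 := by
  intro hcon
  have hcs := Real.cos_sq_add_sin_sq θ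
  have h1 : H (Real.cos θ • e1 + Real.sin θ • e2) (-Real.sin θ • e1 + Real.cos θ • e2) = 0 := by
    rw [hsymm, h0]
    rfl
  have he1 : e1 = Real.cos θ • (Real.cos θ • e1 + Real.sin θ • e2)
      - Real.sin θ • (-Real.sin θ • e1 + Real.cos θ • e2) := by
    have : Real.cos θ • (Real.cos θ • e1 + Real.sin θ • e2)
      - Real.sin θ • (-Real.sin θ • e1 + Real.cos θ • e2)
      = (Real.cos θ ^ 2 + Real.sin θ ^ 2) • e1 := by module
    rw [this, hcs, one_smul]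
  have he2 : e2 = Real.sin θ • (Real.cos θ • e1 + Real.sin θ • e2)
      + Real.cos θ • (-Real.sin θ • e1 + Real.cos θ • e2) := by
    have : Real.sin θ • (Real.cos θ • e1 + Real.sin θ • e2)
      + Real.cos θ • (-Real.sin θ • e1 + Real.cos θ • e2)
      = (Real.cos θ ^ 2 + Real.sin θ ^ 2) • e2 := by module
    rw [this, hcs, one_smul]
  obtain ⟨w, hw⟩ : ∃ w, w = Real.cos θ • e1 + Real.sin θ • e2 := ⟨_, rfl⟩
  obtain ⟨w', hw'⟩ : ∃ w', w' = -Real.sin θ • e1 + Real.cos θ • e2 := ⟨_, rfl⟩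
  rw [← hw] at hcon h1 he1 he2
  rw [← hw'] at h1 he1 he2 hker
  have h2 : H w = 0 := by
    ext k
    obtain ⟨α, β, hk⟩ := hspan k
    have h3 : H w e1 = 0 := by
      rw [he1, map_sub, map_smul, map_smul, hcon, h1]
      simp
    have h4 : H w e2 = 0 := by
      rw [he2, map_add, map_smul, map_smul, hcon, h1]
      simp
    rw [hk, map_add, map_smul, map_smul, h3, h4]
    simp
  obtain ⟨s, hs⟩ := hker w h2
  have h5 : (Real.cos θ + s * Real.sin θ) • e1 + (Real.sin θ - s * Real.cos θ) • e2 = 0 := by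
    have : (Real.cos θ + s * Real.sin θ) • e1 + (Real.sin θ - s * Real.cos θ) • e2
        = (Real.cos θ • e1 + Real.sin θ • e2) - s • (-Real.sin θ • e1 + Real.cos θ • e2) := by
      module
    rw [this, ← hw, ← hw', ← hs, sub_self]
  obtain ⟨h6, h7⟩ := hli _ _ h5
  have h8 : Real.cos θ = -(s * Real.sin θ) := by linarith
  have h9 : Real.sin θ = s * Real.cos θ := by linarith
  have h10 : Real.cos θ ^ 2 + Real.sin θ ^ 2 = 0 := by
    calc Real.cos θ ^ 2 + Real.sin θ ^ 2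
        = Real.cos θ * Real.cos θ + Real.sin θ * Real.sin θ := by ring
      _ = Real.cos θ * (-(s * Real.sin θ)) + Real.sin θ * (s * Real.cos θ) := by
          rw [← h8, ← h9]
      _ = 0 := by ring
  rw [hcs] at h10
  exact one_ne_zero h10

theorem trap_geo_smul2 {K : Type} [NormedAddCommGroup K] [NormedSpace ℝ K] (s : ℝ) (f : K → ℝ)
    (u k : K) : fderiv ℝ (fderiv ℝ (s • f)) u k = s • fderiv ℝ (fderiv ℝ f) u k := by
  have h1 : fderiv ℝ (s • f) = s • fderiv ℝ f := fderiv_const_smul_field s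
  have h2 : fderiv ℝ (s • fderiv ℝ f) = s • fderiv ℝ (fderiv ℝ f) := fderiv_const_smul_field s
  rw [h1, h2]
  rfl

end trap_geo_aux7

/-! PLAIN PROOF OF THE TARGET(S)

P-space: Pp = R^n × ℝ.  K = nullK T g x0 p0 (dimension 2), a0 = P x0, φ = cmap T g.  red_exists: U, W, A with Red; h = redH, X(q) = φ(A q), hp = redHp.  Put ι0 k = k + Dg(a0)k ∈ R^n for k ∈ K ⊆ T; |ι0 k| ≥ |k|, |ι0 k| ≤ C0|k|.
Write D_uX(q) for k ↦ Dφ(A q)(DA q (k,0)).  Facts (for q = (u,p) near (0,p0)), with θ0 > 0 as small as we wish after shrinking the neighbourhood: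
 (a) |D_uX(q)k - ι0 k| ≤ θ0 |k| (dA0, continuity);
 (b) |D²_u h(q)(k,k)| ≤ θ0 |k|² (D²_u h(0,p0) = D_a²f(a0,p0)(k,k) = 0 on K, red_facts, continuity);
 (c) for δ ∈ Pp: |DA q (0,δ)| ≤ C1 |c - X(q)| when δ = (c,1): differentiate perp in the direction (0,δ): D_a²f(A q)(DA q(0,δ), w) + D_a(fam δ∘φ)(A q)(w) = 0 for w ∈ Kᗮ, DA q(0,δ) ∈ Kᗮ (proj), the form is uniformly
     nondegenerate on Kᗮ near (0,p0), and D_a(fam δ ∘φ)(A)(w) = <c - X, Dφ(A) w>;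
 (d) h is smooth, D_p h(q)δ = fam δ (X q) (red_facts), so D_u D_p h(q)(k;δ) = <c - X(q), D_uX(q)k> and D²_uD_p h(k,k;δ) = -|D_uX k|² + <c - X, D²_uX(k,k)> for δ = (c,1).
Choose θ0, then σ1 > 0 small (relative to C0, C1), then r0 small.  Suppose the circle c(θ) = circA c e ν r θ is as in the statement with r < r0.  All c(θ) ∈ V, near x0, p near p0.
 (1) (P c(θ), p) ∈ W, critical, so with u(θ) = P_K(P c(θ) - a0): A(u(θ),p) = P c(θ), X(u(θ),p) = c(θ), D_u h(u(θ),p) = 0.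
 (2) τ(θ) = circT e ν θ is a velocity of c at θ, P τ(θ) ∈ nullK at c(θ) (hypothesis with s = 1), so by red_facts P τ(θ) = J k(θ), τ(θ) = D_uX(u(θ),p) k(θ), k(θ) = P_K P τ(θ), |k(θ)| ≤ 1: |τ(θ) - ι0 k(θ)| ≤ θ0.  With
     e = τ(-π/2), ν = τ(0): |e - ι0 eK| ≤ θ0, |ν - ι0 νK| ≤ θ0, where eK = P_K P e, νK = P_K P ν.  So |ι0(α eK + β νK)| ≥ (1 - 2θ0)|(α,β)| and eK, νK are a basis of K; let L : K ≃ K be linear with L eK, L νK
     orthonormal.
 (3) u(θ) = uc + r kθ, kθ = cos θ eK + sin θ νK, uc = P_K(P c - a0) (linear).  {‖L(u-uc)‖ = r'} = {uc + r' kθ}.  |kθ| ≥ 1/(2 C0) and |kθ| ≤ 2.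
 (4) D²_u h(u(θ),p) is a symmetric form on the 2-dimensional K whose kernel is exactly R k(θ) (red_facts, hypothesis), k(θ) = P_K P τ(θ) = -sin θ eK + cos θ νK, so D²_u h(u(θ),p)(kθ,kθ) ≠ 0 (kθ, k(θ) are a basis).  It is continuous in θ, so
     it has a constant sign.  Assume first it is negative for all θ.  As D_u h(u(θ),p) = 0: for small η > 0 (depending on the circle), D_u h(uc + r'kθ,p)(kθ) < 0 for r' = (1+η) r and > 0 for r' = (1-η) r, all θ.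
 (5) Apply trap_abs to h on U (inside it), B = {p | ¬ IsMorse m M (fam p)} (closed: count_loc; hB: focal_null with volume on R^n × ℝ; hnd: D_u h(q) = 0 means X(q) is critical (red_facts), Morse gives an index, nondeg_iff gives
     trivial kernel of Lop, fam_d2 and red_facts give trivial kernel of D²_u h), uc, L, r2 = (1-η) r, r1 = (1+η) r, p1 = p, δ = (c,1), σ1.  h2 and h1 at σ = 0 are (4).  h1 for σ > 0: for u = uc + r1 kθ, k = u - uc,
     D_u h(u,p+σδ)(k) = D_u h(u,p)(k) - ∫_0^σ <X(u,p+tδ) - c, D_uX(u,p+tδ) k> dt, and the integrand is > 0: X(u(θ),p) - c = r(cos θ e + sin θ ν) = ι0(r kθ) + O(θ0 r); X(u,p) - X(u(θ),p) = O(η r);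
     |X(u,p+tδ) - X(u,p)| ≤ (e^{C t} - 1)|X(u,p) - c| = O(σ1 r) by (c) and Gronwall; so X(u,p+tδ) - c = ι0 k + O((θ0+σ1+η) r), D_uX k = ι0 k + O(θ0 r), and <.,.> ≥ |ι0 k|² - O((θ0+σ1+η) r²) > 0 because |ι0 k| ≥ |k| ≥ r/(2C0).
     Take η ≤ θ0.  hdom: all points stay near (0,p0).  h3: for u in the disc, D²_u h(u,p+σ1δ)(k,k) = D²_u h(u,p)(k,k) + ∫_0^{σ1} (-|D_uX k|² + <c - X, D²_uX(k,k)>) dt ≤ θ0|k|² - σ1 |k|²/4 < 0 when θ0 < σ1/8 is arranged by shrinking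
     r0 AFTER fixing σ1 (choose the constants in the order: σ1, and the smallness needed in (5) for h1; then r0 so small that (a), (b) hold with θ0 much smaller than σ1) and |X - c| = O(r).  Contradiction.
 (6) If the sign in (4) is positive apply trap_abs to -h, δ = (-c,-1): D_u(-h)(u,p+σδ)(k) = -D_u h(u,p)(k) - ∫_0^σ <X(u,p-t(c,1)) - c, D_uX k> dt < 0, and D²_u(-h)(u,p+σ1δ)(k,k) = -D²_u h(u,p)(k,k) - ∫ (|D_uX k|² - ...) < 0.
-/

section
variable {n m : ℕ} {M : Set (Eu n)} {T : Submodule ℝ (Eu n)} {g : T → Tᗮ} {O : Set T} {V : Set (Eu n)}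

set_option maxSynthPendingDepth 3 in
set_option maxHeartbeats 4000000 in
/-- TARGET -/
theorem trap_geo (hM : IsSubmanifold ∞ m M) (hcpt : IsCompact M) (hD : IsDupin M)
    (hc : IsChart ∞ m M T g O V) (x₀ : Eu n) (hx : x₀ ∈ M) (hxV : x₀ ∈ V) (p₀ : Eu n × ℝ)
    (hcr : x₀ ∈ critSet M (fam p₀)) (hnull : Module.finrank ℝ (nullK T g x₀ p₀) = 2)
    (hb : p₀.1 ≠ p₀.2 • x₀) :
    ∃ r₀ : ℝ, 0 < r₀ ∧ ∀ (p : Eu n × ℝ) (c e ν : Eu n) (r : ℝ), ‖p - p₀‖ < r₀ → ‖c - x₀‖ < r₀ →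
      0 < r → ‖e‖ = 1 → ‖ν‖ = 1 → ⟪e, ν⟫_ℝ = 0 →
      (∀ θ : ℝ, circA c e ν r θ ∈ critSet M (fam p) ∧ (circA c e ν r θ ∈ V →
        T.orthogonalProjectionOnto (circT e ν θ) ≠ 0 ∧
        ∀ u : T, u ∈ nullK T g (circA c e ν r θ) p ↔
          ∃ s : ℝ, u = s • T.orthogonalProjectionOnto (circT e ν θ))) → r₀ ≤ r := by
  obtain ⟨a₀, ha₀⟩ : ∃ a₀, a₀ = T.orthogonalProjectionOnto x₀ := ⟨_, rfl⟩
  obtain ⟨K, hKdef⟩ : ∃ K, K = nullK T g x₀ p₀ := ⟨_, rfl⟩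
  have hex := red_exists hc x₀ hx hxV p₀ hcr Set.univ Filter.univ_mem
  have hK0 : ∀ k ∈ K, fderiv ℝ (fderiv ℝ (fam p₀ ∘ cmap T g)) a₀ k = 0 := by
    intro k hk
    rw [hKdef] at hk
    rw [ha₀]
    exact (trap_geo_null hc x₀ hx hxV p₀ k).1 hk
  rw [← hKdef, ← ha₀] at hex
  rw [← hKdef] at hnull
  obtain ⟨U, W, A, -, hR⟩ := hex
  have ha₀O : a₀ ∈ O := ha₀ ▸ (hc.mem x₀ hxV).1
  obtain ⟨σ₁, ρe, hσ₁, hρe, hest⟩ := trap_geo_est hc x₀ hx hxV a₀ ha₀ _ rfl hR hK0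
  obtain ⟨CX, ρX, hCX, hρX, hX1, hX2⟩ := trap_geo_X hc ha₀O hR (1 / 16) (by norm_num)
  obtain ⟨ρc, hρc, hcirc⟩ := trap_geo_circ hc x₀ hxV a₀ ha₀ hR
  refine ⟨min (min (ρe / 4) (ρX / 4)) ρc, lt_min (lt_min (by positivity) (by positivity)) hρc, ?_⟩
  intro p c e ν r hp hcx hr he hν heν hcircle
  by_contra hlt
  rw [not_le] at hlt
  simp only [lt_min_iff] at hp hcx hlt
  obtain ⟨⟨hp1, hp2⟩, hp3⟩ := hp
  obtain ⟨⟨hc1, hc2⟩, hc3⟩ := hcx
  obtain ⟨⟨hr1, hr2⟩, hr3⟩ := hlt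
  have hC := hcirc p c e ν r hp3 hc3 hr hr3 he hν heν (fun θ => (hcircle θ).1)
  obtain ⟨eK, heK⟩ : ∃ x, x = K.orthogonalProjectionOnto (T.orthogonalProjectionOnto e) :=
    ⟨_, rfl⟩
  obtain ⟨νK, hνK⟩ : ∃ x, x = K.orthogonalProjectionOnto (T.orthogonalProjectionOnto ν) :=
    ⟨_, rfl⟩
  obtain ⟨uc, huc⟩ : ∃ x, x = K.orthogonalProjectionOnto (T.orthogonalProjectionOnto c - a₀) :=
    ⟨_, rfl⟩
  rw [← heK, ← hνK, ← huc] at hC
  -- bounds
  have hκn : ∀ θ : ℝ, ‖Real.cos θ • eK + Real.sin θ • νK‖ ≤ 1 := by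
    intro θ
    have h1 : Real.cos θ • eK + Real.sin θ • νK = K.orthogonalProjectionOnto
        (T.orthogonalProjectionOnto (Real.cos θ • e + Real.sin θ • ν)) := by
      rw [map_add, map_add, map_smul, map_smul, map_smul, map_smul, heK, hνK]
    rw [h1, ← trap_geo_unit e ν he hν heν θ]
    exact (K.norm_orthogonalProjectionOnto_apply_le _).trans
      (T.norm_orthogonalProjectionOnto_apply_le _)
  have hucn : ‖uc‖ ≤ ‖c - x₀‖ := by
    rw [huc, ha₀, ← map_sub]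
    exact (K.norm_orthogonalProjectionOnto_apply_le _).trans
      (T.norm_orthogonalProjectionOnto_apply_le _)
  have hk' : ∀ θ : ℝ, -Real.sin θ • eK + Real.cos θ • νK
      = K.orthogonalProjectionOnto (T.orthogonalProjectionOnto (circT e ν θ)) := by
    intro θ
    unfold circT
    rw [map_add, map_add, map_smul, map_smul, map_smul, map_smul, heK, hνK]
  have hfacts := fun θ : ℝ => trap_geo_circ2 hc a₀ hR p c e ν r hr (fun θ => (hcircle θ).1) θ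
    (hC θ).1 (hC θ).2.1 (uc + r • (Real.cos θ • eK + Real.sin θ • νK))
    (-Real.sin θ • eK + Real.cos θ • νK) (hC θ).2.2.1 (hC θ).2.2.2 (hk' θ)
    ((hcircle θ).2 (hC θ).2.1).1 ((hcircle θ).2 (hC θ).2.1).2
  -- the shift by a quarter turn
  have hshift : ∀ θ : ℝ, -Real.sin (θ - Real.pi / 2) • eK + Real.cos (θ - Real.pi / 2) • νK
      = Real.cos θ • eK + Real.sin θ • νK := by
    intro θ
    rw [Real.sin_sub_pi_div_two, Real.cos_sub_pi_div_two, neg_neg]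
  have hκ0 : ∀ θ : ℝ, Real.cos θ • eK + Real.sin θ • νK ≠ 0 := by
    intro θ
    rw [← hshift θ]
    exact (hfacts (θ - Real.pi / 2)).2.1
  have hli : ∀ α β : ℝ, α • eK + β • νK = 0 → α = 0 ∧ β = 0 := by
    intro α β h
    obtain ⟨θ, -, h1, h2⟩ := trap_geo_polar α β
    obtain ⟨R, hRd⟩ : ∃ R, R = Real.sqrt (α ^ 2 + β ^ 2) := ⟨_, rfl⟩
    rw [← hRd] at h1 h2
    have h3 : R • (Real.cos θ • eK + Real.sin θ • νK) = 0 := by
      rw [smul_add, smul_smul, smul_smul, ← h1, ← h2]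
      exact h
    rcases smul_eq_zero.1 h3 with h4 | h4
    · rw [h1, h2, h4]
      simp
    · exact absurd h4 (hκ0 θ)
  obtain ⟨L, hL, hspan⟩ := trap_geo_L hnull eK νK hli
  -- points of the spheres
  have hsph : ∀ (w : K) (R : ℝ), ‖L w‖ = R → ∃ θ ∈ Icc (-Real.pi) Real.pi,
      w = R • (Real.cos θ • eK + Real.sin θ • νK) := by
    intro w R hw
    obtain ⟨α, β, hαβ⟩ := hspan w
    obtain ⟨θ, hθ, h1, h2⟩ := trap_geo_polar α β
    refine ⟨θ, hθ, ?_⟩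
    rw [hαβ, hL] at hw
    rw [hw] at h1 h2
    rw [hαβ, smul_add, smul_smul, smul_smul, ← h1, ← h2]
  have hball : ∀ (w : K), ‖w‖ ≤ ‖L w‖ := by
    intro w
    obtain ⟨θ, -, h1⟩ := hsph w ‖L w‖ rfl
    have h2 : ‖w‖ = ‖‖L w‖ • (Real.cos θ • eK + Real.sin θ • νK)‖ := congrArg _ h1
    rw [norm_smul, norm_norm] at h2
    rw [h2]
    exact mul_le_of_le_one_right (norm_nonneg _) (hκn θ)
  -- the annulus
  obtain ⟨Ω, hΩ⟩ : ∃ Ω : Set K, Ω = {u | (u, p) ∈ U} := ⟨_, rfl⟩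
  have hΩo : IsOpen Ω := by
    rw [hΩ]
    exact hR.openU.preimage (continuous_id.prodMk continuous_const)
  have hredsm : ContDiffOn ℝ ∞ (redH T g K A) U := (red_facts hc hR (0, p₀) hR.memU).1
  have hfΩ : ContDiffOn ℝ ∞ (redHp T g K A p) Ω := by
    have h1 : ContDiffOn ℝ ∞ (fun u : K => ((u, p) : K × (Eu n × ℝ))) Ω :=
      (contDiff_id.prodMk contDiff_const).contDiffOn
    refine ContDiffOn.comp (g := redH T g K A) hredsm h1 ?_
    intro u hu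
    rw [hΩ] at hu
    exact hu
  have hsymmH : ∀ θ : ℝ, ∀ x y : K,
      fderiv ℝ (fderiv ℝ (redHp T g K A p)) (uc + r • (Real.cos θ • eK + Real.sin θ • νK)) x y
      = fderiv ℝ (fderiv ℝ (redHp T g K A p))
        (uc + r • (Real.cos θ • eK + Real.sin θ • νK)) y x := by
    intro θ x y
    have hUm := (hC θ).2.2.1
    have h4 := (red_facts hc hR _ hUm).2.2.2.1
    simp only at h4
    rw [h4 x y, h4 y x]
    exact trap_geo_symm hc.openO hc.smooth _ (hR.dom _ hUm).2.1 p _ _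
  obtain ⟨s, hs, η₀, hη₀, hann⟩ := trap_geo_annulus (redHp T g K A p) Ω hΩo hfΩ uc
    (fun θ => Real.cos θ • eK + Real.sin θ • νK)
    ((Real.continuous_cos.smul continuous_const).add (Real.continuous_sin.smul continuous_const))
    r hr (fun θ => by rw [hΩ]; exact (hC θ).2.2.1) (fun θ => (hfacts θ).1)
    (fun θ => trap_geo_radial eK νK hspan hli _ (hsymmH θ) θ (hfacts θ).2.2.1
      (hfacts θ).2.2.2.1)
  -- the choice of η
  obtain ⟨η, hη, hη1, hη2, hη3⟩ : ∃ η : ℝ, 0 < η ∧ η ≤ η₀ ∧ η ≤ 1 / 2 ∧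
      (CX + 1) * η ≤ 3 / 16 := by
    refine ⟨min η₀ (min (1 / 2) (3 / (16 * (CX + 1)))), lt_min hη₀ (lt_min (by norm_num)
      (by positivity)), min_le_left _ _, (min_le_right _ _).trans (min_le_left _ _), ?_⟩
    have h1 : min η₀ (min (1 / 2) (3 / (16 * (CX + 1)))) ≤ 3 / (16 * (CX + 1)) :=
      (min_le_right _ _).trans (min_le_right _ _)
    refine (mul_le_mul_of_nonneg_left h1 (by positivity)).trans (le_of_eq ?_)
    field_simp
  have hs0 : s ≠ 0 := by rcases hs with h | h <;> rw [h] <;> norm_num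
  have hfun : ∀ p' : Eu n × ℝ, (fun u : K => s * redH T g K A (u, p')) = s • redHp T g K A p' :=
    fun p' => rfl
  have hsmallu : ∀ u : K, ‖L (u - uc)‖ ≤ (1 + η) * r → ‖u‖ < ρe ∧ ‖u‖ < ρX := by
    intro u hu
    have h1 := (hball (u - uc)).trans hu
    have h2 := norm_add_le uc (u - uc)
    rw [add_sub_cancel] at h2
    have h3 : (1 + η) * r ≤ 3 / 2 * r := mul_le_mul_of_nonneg_right (by linarith only [hη2]) hr.le
    constructor
    · linarith only [h1, h2, h3, hr1, hc1, hucn, hρe]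
    · linarith only [h1, h2, h3, hr2, hc2, hucn, hρX]
  have : Nontrivial K := Module.nontrivial_of_finrank_pos (R := ℝ) (by rw [hnull]; norm_num)
  refine trap_abs ((volume : Measure (Eu n)).prod (volume : Measure ℝ)) {p | ¬ IsMorse m M (fam p)}
    (focal_null hM hD ((volume : Measure (Eu n)).prod (volume : Measure ℝ))) (trap_geo_closed hM hcpt) (fun q => s * redH T g K A q) U hR.openU
    (contDiffOn_const.mul hredsm) ?_ uc L ((1 - η) * r) ((1 + η) * r)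
    (mul_pos (by linarith only [hη2]) hr)
    (mul_lt_mul_of_pos_right (by linarith only [hη]) hr) p (s • (c, (1:ℝ))) σ₁ hσ₁ ?_ ?_ ?_ ?_
  · -- nondegeneracy
    intro q hq hqB h1 k hk
    have hM' : IsMorse m M (fam q.2) := by
      by_contra h
      exact hqB h
    rw [hfun, fderiv_const_smul_field] at h1
    rw [hfun, trap_geo_smul2] at hk
    have h2 : fderiv ℝ (redHp T g K A q.2) q.1 = 0 := by
      have h3 : s • fderiv ℝ (redHp T g K A q.2) q.1 = 0 := h1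
      exact (smul_eq_zero.1 h3).resolve_left hs0
    have h4 : fderiv ℝ (fderiv ℝ (redHp T g K A q.2)) q.1 k = 0 := by
      have h3 : s • fderiv ℝ (fderiv ℝ (redHp T g K A q.2)) q.1 k = 0 := hk
      exact (smul_eq_zero.1 h3).resolve_left hs0
    exact trap_geo_hnd hc a₀ hR q hq hM' h2 k h4
  · -- domain
    intro u hu σ hσ
    obtain ⟨h1, -⟩ := hsmallu u hu
    exact (hest u p c s h1 (by linarith only [hp1, hρe]) (by linarith only [hc1, hρe]) hs).1 σ hσ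
  · -- outer boundary
    intro σ hσ u hu
    obtain ⟨hue, huX⟩ := hsmallu u hu.le
    obtain ⟨θ, hθ, hθu⟩ := hsph _ _ hu
    have hu' : u = uc + ((1 + η) * r) • (Real.cos θ • eK + Real.sin θ • νK) := by
      rw [← hθu]; abel
    obtain ⟨hUm, hb1, -⟩ := hest u p c s hue (by linarith only [hp1, hρe])
      (by linarith only [hc1, hρe]) hs
    have hb2 := hb1 σ hσ (u - uc) (by
      -- the position of the point
      obtain ⟨k, hk⟩ : ∃ k : K, k = Real.cos θ • eK + Real.sin θ • νK := ⟨_, rfl⟩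
      obtain ⟨N, hN⟩ : ∃ N : ℝ, N = ‖trap_geo_D T g a₀ (k : T)‖ := ⟨_, rfl⟩
      have hkN : ‖k‖ ≤ N := hN ▸ trap_geo_D_norm a₀ (k : T)
      have hN0 : 0 ≤ N := hN ▸ norm_nonneg _
      have hucr : ‖L ((uc + r • k) - uc)‖ ≤ (1 + η) * r := by
        have h1 : (uc + r • k) - uc = (r * Real.cos θ) • eK + (r * Real.sin θ) • νK := by
          rw [hk, smul_add, smul_smul, smul_smul]; abel
        rw [h1, hL]
        have h2 : (r * Real.cos θ) ^ 2 + (r * Real.sin θ) ^ 2 = r ^ 2 := by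
          have := Real.cos_sq_add_sin_sq θ
          calc (r * Real.cos θ) ^ 2 + (r * Real.sin θ) ^ 2
              = r ^ 2 * (Real.cos θ ^ 2 + Real.sin θ ^ 2) := by ring
            _ = r ^ 2 := by rw [this, mul_one]
        rw [h2, Real.sqrt_sq hr.le]
        have h3 := mul_pos hη hr
        linarith only [h3]
      have hX3 := hX1 (uc + r • k) u p (hsmallu _ hucr).2 huX (by linarith only [hp2, hρX])
      have hX4 : u - (uc + r • k) = (η * r) • k := by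
        rw [hu', ← hk]
        module
      rw [hX4, norm_smul, Real.norm_eq_abs, abs_of_pos (mul_pos hη hr)] at hX3
      have hX5 : cmap T g (A (uc + r • k, p)) = circA c e ν r θ := by
        rw [hk, (hC θ).2.2.2]
        exact trap_geo_cmap_self hc _ (hC θ).1 (hC θ).2.1
      rw [hX5] at hX3
      -- the tangent vector a quarter turn before
      have hτ := (hfacts (θ - Real.pi / 2)).2.2.2.2
      rw [hshift θ, ← hk] at hτ
      have hucr2 : ‖L ((uc + r • (Real.cos (θ - Real.pi / 2) • eK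
          + Real.sin (θ - Real.pi / 2) • νK)) - uc)‖ ≤ (1 + η) * r := by
        have h1 : (uc + r • (Real.cos (θ - Real.pi / 2) • eK
          + Real.sin (θ - Real.pi / 2) • νK)) - uc
            = (r * Real.cos (θ - Real.pi / 2)) • eK + (r * Real.sin (θ - Real.pi / 2)) • νK := by
          rw [smul_add, smul_smul, smul_smul]; abel
        rw [h1, hL]
        have h2 : (r * Real.cos (θ - Real.pi / 2)) ^ 2 + (r * Real.sin (θ - Real.pi / 2)) ^ 2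
            = r ^ 2 := by
          have := Real.cos_sq_add_sin_sq (θ - Real.pi / 2)
          calc (r * Real.cos (θ - Real.pi / 2)) ^ 2 + (r * Real.sin (θ - Real.pi / 2)) ^ 2
              = r ^ 2 * (Real.cos (θ - Real.pi / 2) ^ 2 + Real.sin (θ - Real.pi / 2) ^ 2) := by
                ring
            _ = r ^ 2 := by rw [this, mul_one]
        rw [h2, Real.sqrt_sq hr.le]
        have h3 := mul_pos hη hr
        linarith only [h3]
      have hX6 := hX2 _ p (hsmallu _ hucr2).2 (by linarith only [hp2, hρX]) k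
      rw [hτ] at hX6
      have hcT : circT e ν (θ - Real.pi / 2) = Real.cos θ • e + Real.sin θ • ν := by
        unfold circT
        rw [Real.sin_sub_pi_div_two, Real.cos_sub_pi_div_two, neg_neg]
      rw [hcT] at hX6
      have hcA : circA c e ν r θ - c = r • (Real.cos θ • e + Real.sin θ • ν) := by
        unfold circA
        abel
      have huk : ((u - uc : K) : T) = ((1 + η) * r) • (k : T) := by
        rw [hθu, ← hk]
        rfl
      rw [huk, map_smul, norm_smul, Real.norm_eq_abs,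
        abs_of_pos (mul_pos (by linarith only [hη]) hr), ← hN]
      have e1 : cmap T g (A (u, p)) - c - ((1 + η) * r) • trap_geo_D T g a₀ (k : T)
          = (cmap T g (A (u, p)) - circA c e ν r θ)
            + r • (Real.cos θ • e + Real.sin θ • ν - trap_geo_D T g a₀ (k : T))
            - (η * r) • trap_geo_D T g a₀ (k : T) := by
        rw [smul_sub, ← hcA]
        module
      rw [e1]
      refine (norm_sub_le _ _).trans ?_
      refine (add_le_add (norm_add_le _ _) le_rfl).trans ?_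
      rw [norm_smul, norm_smul, Real.norm_eq_abs, Real.norm_eq_abs, abs_of_pos hr,
        abs_of_pos (mul_pos hη hr), ← hN]
      have h1 : CX * (η * r * ‖k‖) ≤ CX * (η * r * N) := by gcongr
      have h2 : r * ‖Real.cos θ • e + Real.sin θ • ν - trap_geo_D T g a₀ (k : T)‖
          ≤ r * (1 / 16 * N) := by
        refine mul_le_mul_of_nonneg_left (hX6.trans ?_) hr.le
        gcongr
      have h3 : (CX + 1) * η * (r * N) ≤ 3 / 16 * (r * N) :=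
        mul_le_mul_of_nonneg_right hη3 (by positivity)
      have h4 : 0 ≤ η * (r * N) := by positivity
      linarith only [h1, h2, h3, h4, hX3])
    rw [hfun, fderiv_const_smul_field]
    have h3 := (red_facts hc hR _ (hUm σ hσ)).2.2.1 (u - uc)
    have h4 := (red_facts hc hR (u, p) (by
      have := hUm 0 ⟨le_refl _, hσ₁.le⟩
      rwa [zero_smul, add_zero] at this)).2.2.1 (u - uc)
    simp only at h3 h4
    have h5 := (hann η hη hη1 θ hθ).1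
    have h6 : s * fderiv ℝ (redHp T g K A (p + σ • (s • (c, (1:ℝ))))) u (u - uc) < 0 := by
      rw [h3]
      refine hb2.trans_lt ?_
      rw [← h4]
      have h7 : fderiv ℝ (redHp T g K A p) u (u - uc)
          = ((1 + η) * r) * fderiv ℝ (redHp T g K A p)
            (uc + ((1 + η) * r) • (Real.cos θ • eK + Real.sin θ • νK))
            (Real.cos θ • eK + Real.sin θ • νK) := by
        rw [hθu, map_smul, smul_eq_mul, ← hu']
      rw [h7]
      have h8 : 0 < (1 + η) * r := mul_pos (by linarith only [hη]) hr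
      have h9 := mul_neg_of_pos_of_neg h8 h5
      linarith only [h9]
    exact h6
  · -- inner boundary
    intro u hu
    obtain ⟨θ, hθ, hθu⟩ := hsph _ _ hu
    have hu' : u = uc + ((1 - η) * r) • (Real.cos θ • eK + Real.sin θ • νK) := by
      rw [← hθu]; abel
    rw [hfun, fderiv_const_smul_field]
    have h5 := (hann η hη hη1 θ hθ).2
    have h7 : fderiv ℝ (redHp T g K A p) u (u - uc)
          = ((1 - η) * r) * fderiv ℝ (redHp T g K A p)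
            (uc + ((1 - η) * r) • (Real.cos θ • eK + Real.sin θ • νK))
            (Real.cos θ • eK + Real.sin θ • νK) := by
      rw [hθu, map_smul, smul_eq_mul, ← hu']
    have h6 : 0 < s * fderiv ℝ (redHp T g K A p) u (u - uc) := by
      rw [h7]
      have h8 : 0 < (1 - η) * r := mul_pos (by linarith only [hη2]) hr
      have h9 := mul_pos h8 h5
      linarith only [h9]
    exact h6
  · -- the Hessian at the end
    intro u hu k hk
    obtain ⟨hue, huX⟩ := hsmallu u hu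
    obtain ⟨hUm, -, hb3⟩ := hest u p c s hue (by linarith only [hp1, hρe])
      (by linarith only [hc1, hρe]) hs
    have hb4 := hb3 k hk
    have h4 := (red_facts hc hR _ (hUm σ₁ ⟨hσ₁.le, le_refl _⟩)).2.2.2.1 k k
    simp only at h4
    rw [← h4] at hb4
    rw [hfun, trap_geo_smul2]
    exact hb4

end

end Pool.Agent.H469
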