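import Pool.Agent.Helper469_Dupin.DefsD
import Pool.Agent.Helper469_Dupin.Jbcirc
import Pool.Agent.Helper469_Dupin.Jbid
import Pool.Agent.Helper469_Dupin.Jbcont
import Pool.Agent.Helper469_Dupin.Jbrcrit
import Pool.Agent.Helper469_Dupin.Jfamd
import Pool.Agent.Helper469_Dupin.Jcritiff

set_option autoImplicit false

open Set Filter Topology MeasureTheory
open scoped ContDiff InnerProductSpace

namespace Pool.Agent.H469


/-! PLAIN PROOF OF THE TARGET(S)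

First s ≥ 0.  By leaf_cont, for all z' near z: for all s' ∈ [0,s+1], y(z',s') = circ (xpt z')(e z')(qf z') s' is critical for fam (wpt z', ρ z').  For z' near z, y(z',s) ∈ V' ∩ M and is critical, so
(crit_iff or br_crit + fam_d1) Q'y = g'(P'y) and P'(w - ρ y) = -nrm g' (P'y)(Q'(w - ρ y)) with y = y(z',s), w = wpt z', ρ = ρ z'.  Differentiate both identities in z' at z in the direction ζ: the derivative
of y(z',s) is circD (...) (differentiate circ: D|q|² = 2<q,q'>, D (1+s²|q|²)⁻¹ = -2s²<q,q'>(1+s²|q|²)⁻²), so with y' = circD.., w' = D wpt ζ, ρ' = Dρ ζ: Q'y' = Dg'(P'y)(P'y') and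
P'ξ' = -(Hop g' (P'y)(Q'(w-ρy))(P'y') + nrm g' (P'y)(Q'ξ')), ξ' = w' - ρ'y - ρy' (Hop g' a b is the derivative of a ↦ nrm g' a b; g' smooth on O').  This is NRel.
The function s' ↦ fam (wpt z', ρ z')(y(z',s')) is constant on [0,s] (its derivative vanishes: s' ↦ y(z',s') is a smooth curve in M through a critical point, interior points; continuity at
the ends), so fam(ω(z'))(y(z',s)) = fam(ω(z'))(xpt z').  Differentiate at z in direction ζ: <w',y> - ρ'|y|²/2 + <w - ρy, y'> = <w',x> - ρ'|x|²/2 + <w - ρx, Dx ζ>; the last term is 0 (leaf_id, w - ρ x = nvec) and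
<w - ρy, y'> = 0 because w - ρy = -nrm g'(b') + b' and y' = P'y' + Dg'P'y'.  Second clause.  |e|² = 1 and <e,qf> = 0 on N (LeafPre.unit, leaf_id) differentiated give the third and fourth.
Last: D xpt ζ = 0 gives ζ.1 = 0 (P D xpt(u,v) = u), D wpt ζ = 0, Dρ ζ = 0 give D nvec ζ = 0, whose Tᗮ-part is v (when u = 0), so ζ = 0.
For s < 0 apply the case -s > 0 to the data (N, ρ, z ↦ -e z), which satisfy LeafPre: Xf for -e is -Xf, qf is the same, circ x (-e) q (-s) = circ x e q s, circD (-e) q x' (-e') q' (-s) = circD e q x' e' q' s.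
-/

section
variable {n : ℕ}

theorem leaf_rel_circ {X E Q : ℝ → Eu n} {x' e' q' : Eu n} (hX : HasDerivAt X x' 0)
    (hE : HasDerivAt E e' 0) (hQ : HasDerivAt Q q' 0) (s : ℝ) :
    HasDerivAt (fun t => circ (X t) (E t) (Q t) s) (circD (E 0) (Q 0) x' e' q' s) 0 := by
  have hpos : (1 + s ^ 2 * ‖Q 0‖ ^ 2) ≠ 0 := by positivity
  have hc : HasDerivAt (fun t => (1 + s ^ 2 * ‖Q t‖ ^ 2)⁻¹)
      (-(s ^ 2 * (2 * ⟪Q 0, q'⟫_ℝ)) / (1 + s ^ 2 * ‖Q 0‖ ^ 2) ^ 2) 0 := by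
    have h1 : HasDerivAt (fun t => ‖Q t‖ ^ 2) (2 * ⟪Q 0, q'⟫_ℝ) 0 := hQ.norm_sq
    exact ((h1.const_mul (s ^ 2)).const_add 1).fun_inv hpos
  have h2 : HasDerivAt (fun t => s • E t + s ^ 2 • Q t) (s • e' + s ^ 2 • q') 0 :=
    (hE.const_smul s).add (hQ.const_smul (s ^ 2))
  have h3 := hX.add (hc.smul h2)
  refine h3.congr_deriv ?_
  rw [circD]
  have h4 : -(s ^ 2 * (2 * ⟪Q 0, q'⟫_ℝ)) / (1 + s ^ 2 * ‖Q 0‖ ^ 2) ^ 2 =
      -(2 * s ^ 2 * ⟪Q 0, q'⟫_ℝ * ((1 + s ^ 2 * ‖Q 0‖ ^ 2)⁻¹) ^ 2) := by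
    rw [div_eq_mul_inv, ← inv_pow]
    ring
  rw [h4, neg_smul]
  abel

theorem leaf_rel_csm (x e q : Eu n) : ContDiff ℝ ∞ (circ x e q) := by
  have h1 : ContDiff ℝ ∞ (fun s : ℝ => (1 + s ^ 2 * ‖q‖ ^ 2)⁻¹) := by
    refine ContDiff.inv (by fun_prop) fun s => ?_
    positivity
  unfold circ
  exact contDiff_const.add (h1.smul (by fun_prop))

theorem leaf_rel_fsm (p : Eu n × ℝ) : ContDiff ℝ ∞ (fam p) := by
  unfold fam
  have h1 : ContDiff ℝ ∞ (fun x : Eu n => ⟪p.1, x⟫_ℝ) := contDiff_const.inner ℝ contDiff_id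
  have h2 : ContDiff ℝ ∞ (fun x : Eu n => ‖x‖ ^ 2) := contDiff_norm_sq ℝ
  exact h1.sub ((contDiff_const.mul h2).div_const 2)

theorem leaf_rel_const {M : Set (Eu n)} (p : Eu n × ℝ) (x e q : Eu n) (s : ℝ) (hs : 0 ≤ s)
    (h : ∀ s' ∈ Icc 0 (s + 1), circ x e q s' ∈ critSet M (fam p)) :
    fam p (circ x e q s) = fam p x := by
  have h0 : circ x e q 0 = x := by simp [circ]
  rcases hs.eq_or_lt with hs0 | hs0
  · rw [← hs0, h0]
  have hd : Differentiable ℝ (fun s' => fam p (circ x e q s')) :=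
    ((leaf_rel_fsm p).comp (leaf_rel_csm x e q)).differentiable (by simp)
  obtain ⟨c, hc, hdc⟩ := exists_deriv_eq_slope (fun s' => fam p (circ x e q s')) hs0
    hd.continuous.continuousOn hd.differentiableOn
  have h1 : deriv (fun s' => fam p (circ x e q s')) c = 0 := by
    have h2 := (h c ⟨hc.1.le, by linarith [hc.2]⟩).2 (fun σ => circ x e q (c + σ))
      ⟨by simp, min c 1, lt_min hc.1 one_pos, ?_, ?_⟩
    · have h3 := deriv_comp_const_add (f := fun s' => fam p (circ x e q s')) c 0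
      rw [add_zero] at h3
      rw [← h3]
      exact h2
    · exact ((leaf_rel_csm x e q).comp (contDiff_const.add contDiff_id)).contDiffOn
    · intro t ht
      have h4 := min_le_left c 1
      have h5 := min_le_right c 1
      exact (h (c + t) ⟨by linarith [ht.1], by linarith [ht.2, hc.2]⟩).1
  rw [h1] at hdc
  have h2 : fam p (circ x e q s) - fam p (circ x e q 0) = 0 := by
    have := hdc.symm
    rw [div_eq_zero_iff] at this
    rcases this with h | h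
    · exact h
    · linarith
  rw [h0] at h2
  linarith

theorem leaf_rel_fam {W Y : ℝ → Eu n} {R : ℝ → ℝ} {w' y' : Eu n} {r' : ℝ}
    (hW : HasDerivAt W w' 0) (hR : HasDerivAt R r' 0) (hY : HasDerivAt Y y' 0) :
    HasDerivAt (fun t => fam (W t, R t) (Y t))
      (⟪w', Y 0⟫_ℝ - r' * ‖Y 0‖ ^ 2 / 2 + ⟪W 0 - R 0 • Y 0, y'⟫_ℝ) 0 := by
  have h1 := hW.inner ℝ hY
  have h2 : HasDerivAt (fun t => ‖Y t‖ ^ 2) (2 * ⟪Y 0, y'⟫_ℝ) 0 := hY.norm_sq
  have h3 := h1.sub ((hR.mul h2).div_const 2)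
  refine h3.congr_deriv ?_
  rw [inner_sub_left, inner_smul_left]
  simp only [conj_trivial]
  ring

theorem leaf_rel_inner (T : Submodule ℝ (Eu n)) (v w : Eu n) :
    ⟪v, w⟫_ℝ = ⟪T.orthogonalProjectionOnto v, T.orthogonalProjectionOnto w⟫_ℝ +
      ⟪Tᗮ.orthogonalProjectionOnto v, Tᗮ.orthogonalProjectionOnto w⟫_ℝ := by
  rw [Submodule.inner_orthogonalProjectionOnto_eq_of_mem_right,
    Submodule.inner_orthogonalProjectionOnto_eq_of_mem_right, ← inner_add_right]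
  congr 1
  exact (T.starProjection_add_starProjection_orthogonal w).symm

end

section
variable {n : ℕ} {T : Submodule ℝ (Eu n)} {g : T → Tᗮ} {O : Set T}

theorem leaf_rel_line {F : Type} [NormedAddCommGroup F] [NormedSpace ℝ F] {f : T × Tᗮ → F}
    {z : T × Tᗮ} (ζ : T × Tᗮ) (hf : DifferentiableAt ℝ f z) :
    HasDerivAt (fun t : ℝ => f (z + t • ζ)) (fderiv ℝ f z ζ) 0 := by
  have h1 : HasDerivAt (fun t : ℝ => z + t • ζ) ζ 0 := by
    have := ((hasDerivAt_id (0 : ℝ)).smul_const ζ).const_add z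
    simpa using this
  have h2 : HasFDerivAt f (fderiv ℝ f z) ((fun t : ℝ => z + t • ζ) 0) := by
    simpa using hf.hasFDerivAt
  exact h2.comp_hasDerivAt 0 h1

theorem leaf_rel_ev {z : T × Tᗮ} (ζ : T × Tᗮ) {P : T × Tᗮ → Prop} (h : ∀ᶠ z' in 𝓝 z, P z') :
    ∀ᶠ t in 𝓝 (0 : ℝ), P (z + t • ζ) := by
  have h1 : Tendsto (fun t : ℝ => z + t • ζ) (𝓝 0) (𝓝 z) := by
    have : Continuous (fun t : ℝ => z + t • ζ) := by fun_prop
    simpa using this.tendsto 0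
  exact h1.eventually h

end

section
variable {F W : Type} [NormedAddCommGroup F] [InnerProductSpace ℝ F] [FiniteDimensional ℝ F]
  [NormedAddCommGroup W] [InnerProductSpace ℝ W] [FiniteDimensional ℝ W]

variable (F W) in
theorem leaf_rel_adj : ∃ adj : (F →L[ℝ] W) →L[ℝ] (W →L[ℝ] F),
    ∀ A, adj A = ContinuousLinearMap.adjoint A :=
  ⟨AddMonoidHom.toRealLinearMap
      ((ContinuousLinearMap.adjoint (𝕜 := ℝ) (E := F) (F := W)).toLinearEquiv.toAddEquiv.toAddMonoidHom)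
      (ContinuousLinearMap.adjoint (𝕜 := ℝ) (E := F) (F := W)).continuous, fun _ => rfl⟩

theorem leaf_rel_nrm {g : F → W} {O : Set F} (hO : IsOpen O) (hg : ContDiffOn ℝ ∞ g O) {a : ℝ → F}
    {b : ℝ → W} {a' : F} {b' : W} (ha : HasDerivAt a a' 0) (hb : HasDerivAt b b' 0)
    (haO : a 0 ∈ O) :
    HasDerivAt (fun t => nrm g (a t) (b t)) (Hop g (a 0) (b 0) a' + nrm g (a 0) b') 0 := by
  obtain ⟨adj, hadj⟩ := leaf_rel_adj F W
  have h1 : DifferentiableAt ℝ (fderiv ℝ g) (a 0) := by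
    have h2 : ContDiffOn ℝ ∞ (fderiv ℝ g) O := hg.fderiv_of_isOpen hO (by simp)
    exact (h2.contDiffAt (hO.mem_nhds haO)).differentiableAt (by simp)
  have h2 : HasFDerivAt (fun x => adj (fderiv ℝ g x)) (adj.comp (fderiv ℝ (fderiv ℝ g) (a 0))) (a 0) :=
    adj.hasFDerivAt.comp (a 0) h1.hasFDerivAt
  have hn : ∀ x β, nrm g x β = adj (fderiv ℝ g x) β := fun x β => by rw [hadj, nrm]
  have h3 : ∀ u : F, ∀ β : W, Hop g (a 0) β u =
      (adj (fderiv ℝ (fderiv ℝ g) (a 0) u)) β := by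
    intro u β
    have h4 := h2.clm_apply (hasFDerivAt_const β (a 0))
    have h5 : (fun x => nrm g x β) = fun x => adj (fderiv ℝ g x) β := funext fun x => hn x β
    rw [Hop, h5, h4.fderiv]
    simp
  have h5 : HasDerivAt (fun t => adj (fderiv ℝ g (a t))) (adj (fderiv ℝ (fderiv ℝ g) (a 0) a')) 0 :=
    h2.comp_hasDerivAt 0 ha
  have h6 := h5.clm_apply hb
  rw [h3, hn]
  simp only [hn]
  exact h6

end

section
variable {n m : ℕ} {M : Set (Eu n)}

theorem leaf_rel_eq {F : Type} [NormedAddCommGroup F] [NormedSpace ℝ F] {f1 f2 : ℝ → F} {a b : F}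
    (h1 : HasDerivAt f1 a 0) (h2 : HasDerivAt f2 b 0) (h : ∀ᶠ t in 𝓝 (0 : ℝ), f1 t = f2 t) : a = b :=
  h1.unique (h2.congr_of_eventuallyEq h)

theorem leaf_rel_core {T' : Submodule ℝ (Eu n)} {g' : T' → T'ᗮ} {O' : Set T'} {V' : Set (Eu n)}
    (hc' : IsChart ∞ m M T' g' O' V') {X E Q W : ℝ → Eu n} {R : ℝ → ℝ} {x' e' q' w' : Eu n}
    {r' : ℝ} (HX : HasDerivAt X x' 0) (HE : HasDerivAt E e' 0) (HQ : HasDerivAt Q q' 0)
    (HW : HasDerivAt W w' 0) (HR : HasDerivAt R r' 0) (s : ℝ) (hs : 0 ≤ s)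
    (hV' : circ (X 0) (E 0) (Q 0) s ∈ V')
    (hcr : ∀ᶠ t in 𝓝 (0 : ℝ), ∀ s' ∈ Icc 0 (s + 1),
      circ (X t) (E t) (Q t) s' ∈ critSet M (fam (W t, R t)))
    (hx : ⟪W 0 - R 0 • X 0, x'⟫_ℝ = 0) :
    NRel T' g' (circ (X 0) (E 0) (Q 0) s) (W 0) (R 0) (circD (E 0) (Q 0) x' e' q' s) w' r' ∧
    ⟪w', circ (X 0) (E 0) (Q 0) s - X 0⟫_ℝ =
      r' * (‖circ (X 0) (E 0) (Q 0) s‖ ^ 2 - ‖X 0‖ ^ 2) / 2 := by
  have HY := leaf_rel_circ HX HE HQ s
  obtain ⟨y', hy'⟩ : ∃ y', y' = circD (E 0) (Q 0) x' e' q' s := ⟨_, rfl⟩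
  obtain ⟨Y, hYd⟩ : ∃ Y : ℝ → Eu n, Y = fun t => circ (X t) (E t) (Q t) s := ⟨_, rfl⟩
  have hYt : ∀ t, Y t = circ (X t) (E t) (Q t) s := fun t => by rw [hYd]
  rw [← hy', ← hYd] at HY
  rw [← hYt 0] at hV'
  rw [← hYt 0, ← hy']
  have HPY : HasDerivAt (fun t => T'.orthogonalProjectionOnto (Y t))
      (T'.orthogonalProjectionOnto y') 0 :=
    T'.orthogonalProjectionOnto.hasFDerivAt.comp_hasDerivAt 0 HY
  have HQY : HasDerivAt (fun t => T'ᗮ.orthogonalProjectionOnto (Y t))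
      (T'ᗮ.orthogonalProjectionOnto y') 0 :=
    T'ᗮ.orthogonalProjectionOnto.hasFDerivAt.comp_hasDerivAt 0 HY
  have HU0 : HasDerivAt (fun t => W t - R t • Y t) (w' - (R 0 • y' + r' • Y 0)) 0 :=
    HW.sub (HR.smul HY)
  have HU : HasDerivAt (fun t => W t - R t • Y t) (w' - r' • Y 0 - R 0 • y') 0 :=
    HU0.congr_deriv (by abel)
  have HPU : HasDerivAt (fun t => T'.orthogonalProjectionOnto (W t - R t • Y t))
      (T'.orthogonalProjectionOnto (w' - r' • Y 0 - R 0 • y')) 0 :=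
    T'.orthogonalProjectionOnto.hasFDerivAt.comp_hasDerivAt 0 HU
  have HQU : HasDerivAt (fun t => T'ᗮ.orthogonalProjectionOnto (W t - R t • Y t))
      (T'ᗮ.orthogonalProjectionOnto (w' - r' • Y 0 - R 0 • y')) 0 :=
    T'ᗮ.orthogonalProjectionOnto.hasFDerivAt.comp_hasDerivAt 0 HU
  have hev : ∀ᶠ t in 𝓝 (0 : ℝ), T'.orthogonalProjectionOnto (Y t) ∈ O' ∧
      T'ᗮ.orthogonalProjectionOnto (Y t) = g' (T'.orthogonalProjectionOnto (Y t)) ∧
      T'.orthogonalProjectionOnto (W t - R t • Y t) =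
        -nrm g' (T'.orthogonalProjectionOnto (Y t)) (T'ᗮ.orthogonalProjectionOnto (W t - R t • Y t)) := by
    filter_upwards [hcr, HY.continuousAt.eventually (hc'.openV.mem_nhds hV')] with t ht hVt
    have h1 := ht s ⟨hs, by linarith⟩
    rw [← hYt t] at h1
    obtain ⟨h2, h3⟩ := hc'.mem (Y t) hVt
    have h4 := h3.1 h1.1
    refine ⟨h2, h4, ?_⟩
    have h5 := (br_crit hc' (Y t) h1.1 hVt (fam (W t, R t)) (leaf_rel_fsm _)).1 h1
    have h6 : T'.orthogonalProjectionOnto (W t) - R t • T'.orthogonalProjectionOnto (Y t) +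
        nrm g' (T'.orthogonalProjectionOnto (Y t)) (T'ᗮ.orthogonalProjectionOnto (W t) -
          R t • g' (T'.orthogonalProjectionOnto (Y t))) = 0 := by
      rw [← inner_self_eq_zero (𝕜 := ℝ)]
      have h7 := fam_d1 g' O' hc'.openO hc'.smooth _ h2 (W t, R t)
        (T'.orthogonalProjectionOnto (W t) - R t • T'.orthogonalProjectionOnto (Y t) +
        nrm g' (T'.orthogonalProjectionOnto (Y t)) (T'ᗮ.orthogonalProjectionOnto (W t) -
          R t • g' (T'.orthogonalProjectionOnto (Y t))))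
      rw [h5] at h7
      exact h7.symm
    rw [← h4] at h6
    rw [map_sub, map_smul, map_sub, map_smul]
    exact eq_neg_of_add_eq_zero_left h6
  obtain ⟨hO0, hQ0, hU0⟩ := hev.self_of_nhds
  have hNR : NRel T' g' (Y 0) (W 0) (R 0) y' w' r' := by
    constructor
    · have hgd : HasFDerivAt g' (fderiv ℝ g' (T'.orthogonalProjectionOnto (Y 0)))
          (T'.orthogonalProjectionOnto (Y 0)) :=
        ((hc'.smooth.contDiffAt (hc'.openO.mem_nhds hO0)).differentiableAt (by simp)).hasFDerivAt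
      have h1 : HasDerivAt (fun t => g' (T'.orthogonalProjectionOnto (Y t)))
          (fderiv ℝ g' (T'.orthogonalProjectionOnto (Y 0)) (T'.orthogonalProjectionOnto y')) 0 :=
        hgd.comp_hasDerivAt 0 HPY
      exact leaf_rel_eq HQY h1 (hev.mono fun t ht => ht.2.1)
    · have h1 := (leaf_rel_nrm hc'.openO hc'.smooth HPY HQU hO0).fun_neg
      exact leaf_rel_eq HPU h1 (hev.mono fun t ht => ht.2.2)
  refine ⟨hNR, ?_⟩
  have hyperp : ⟪W 0 - R 0 • Y 0, y'⟫_ℝ = 0 := by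
    rw [leaf_rel_inner T', hU0, hNR.1, inner_neg_left, nrm,
      ContinuousLinearMap.adjoint_inner_left]
    ring
  have h1 := leaf_rel_fam HW HR HY
  have h2 := leaf_rel_fam HW HR HX
  have h3 := leaf_rel_eq h1 h2 (hcr.mono fun t ht => by
    rw [hYt t]
    exact leaf_rel_const (W t, R t) (X t) (E t) (Q t) s hs ht)
  rw [hyperp, hx] at h3
  rw [inner_sub_right]
  linarith

end

section
variable {n m : ℕ} {M : Set (Eu n)} {T : Submodule ℝ (Eu n)} {g : T → Tᗮ} {O : Set T} {V : Set (Eu n)}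

theorem leaf_rel_pos (hM : IsSubmanifold ∞ m M) (hcl : IsClosed M) (hD : IsDupin M)
    (hc : IsChart ∞ m M T g O V) {N : Set (T × Tᗮ)} {ρ : T × Tᗮ → ℝ} {e : T × Tᗮ → Eu n}
    (h : LeafPre T g {a | a ∈ O ∧ cmap T g a ∈ V} N ρ e) (z : T × Tᗮ) (hz : z ∈ N) (s : ℝ)
    (hs : 0 ≤ s)
    (ζ : T × Tᗮ) {T' : Submodule ℝ (Eu n)} {g' : T' → T'ᗮ} {O' : Set T'} {V' : Set (Eu n)}
    (hc' : IsChart ∞ m M T' g' O' V') (hV' : circ (xpt T g z) (e z) (qf T ρ e z) s ∈ V') :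
    NRel T' g' (circ (xpt T g z) (e z) (qf T ρ e z) s) (wpt T g ρ z) (ρ z)
      (circD (e z) (qf T ρ e z) (fderiv ℝ (xpt T g) z ζ) (fderiv ℝ e z ζ)
        (fderiv ℝ (qf T ρ e) z ζ) s) (fderiv ℝ (wpt T g ρ) z ζ) (fderiv ℝ ρ z ζ) ∧
    ⟪fderiv ℝ (wpt T g ρ) z ζ, circ (xpt T g z) (e z) (qf T ρ e z) s - xpt T g z⟫_ℝ =
      fderiv ℝ ρ z ζ * (‖circ (xpt T g z) (e z) (qf T ρ e z) s‖ ^ 2 - ‖xpt T g z‖ ^ 2) / 2 ∧
    ⟪e z, fderiv ℝ e z ζ⟫_ℝ = 0 ∧
    ⟪fderiv ℝ e z ζ, qf T ρ e z⟫_ℝ + ⟪e z, fderiv ℝ (qf T ρ e) z ζ⟫_ℝ = 0 ∧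
    (fderiv ℝ (xpt T g) z ζ = 0 → fderiv ℝ (wpt T g ρ) z ζ = 0 → fderiv ℝ ρ z ζ = 0 → ζ = 0) := by
  have hsub : {a | a ∈ O ∧ cmap T g a ∈ V} ⊆ O := fun a ha => ha.1
  have hO1 : IsOpen {a | a ∈ O ∧ cmap T g a ∈ V} := by
    have hcont : ContinuousOn (cmap T g) O := by
      unfold cmap
      exact (continuous_subtype_val.continuousOn).add
        (continuous_subtype_val.comp_continuousOn hc.smooth.continuousOn)
    exact hcont.isOpen_inter_preimage hc.openO hc.openV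
  have hg1 : ContDiffOn ℝ ∞ g {a | a ∈ O ∧ cmap T g a ∈ V} := hc.smooth.mono hsub
  obtain ⟨sx, sn, sw, -, sq⟩ := leaf_smooth hO1 hg1 h
  have hN := h.openN.mem_nhds hz
  have dx : DifferentiableAt ℝ (xpt T g) z := (sx.contDiffAt hN).differentiableAt (by simp)
  have dn : DifferentiableAt ℝ (nvec T g) z := (sn.contDiffAt hN).differentiableAt (by simp)
  have dw : DifferentiableAt ℝ (wpt T g ρ) z := (sw.contDiffAt hN).differentiableAt (by simp)
  have dq : DifferentiableAt ℝ (qf T ρ e) z := (sq.contDiffAt hN).differentiableAt (by simp)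
  have de : DifferentiableAt ℝ e z := (h.sme.contDiffAt hN).differentiableAt (by simp)
  have dr : DifferentiableAt ℝ ρ z := (h.smr.contDiffAt hN).differentiableAt (by simp)
  have hid := fun z' hz' => leaf_id hO1 hg1 h z' hz'
  have HX := leaf_rel_line ζ dx
  have HN := leaf_rel_line ζ dn
  have HW := leaf_rel_line ζ dw
  have HQ := leaf_rel_line ζ dq
  have HE := leaf_rel_line ζ de
  have HR := leaf_rel_line ζ dr
  have hz0 : z + (0 : ℝ) • ζ = z := by simp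
  have hcr : ∀ᶠ t in 𝓝 (0 : ℝ), ∀ s' ∈ Icc 0 (s + 1),
      circ (xpt T g (z + t • ζ)) (e (z + t • ζ)) (qf T ρ e (z + t • ζ)) s' ∈
        critSet M (fam (wpt T g ρ (z + t • ζ), ρ (z + t • ζ))) :=
    leaf_rel_ev ζ (leaf_cont hM hcl hD hc h z hz (s + 1))
  have hNev : ∀ᶠ t in 𝓝 (0 : ℝ), z + t • ζ ∈ N := leaf_rel_ev ζ hN
  have hwx : ⟪wpt T g ρ z - ρ z • xpt T g z, fderiv ℝ (xpt T g) z ζ⟫_ℝ = 0 := by
    rw [wpt, add_sub_cancel_right]
    exact (hid z hz).2.2.2.2.2.2 ζ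
  have core := leaf_rel_core hc' HX HE HQ HW HR s hs (by simpa only [hz0] using hV') hcr
    (by simpa only [hz0] using hwx)
  simp only [hz0] at core
  refine ⟨core.1, core.2, ?_, ?_, ?_⟩
  · have h1 := HE.norm_sq
    have h2 : HasDerivAt (fun _ : ℝ => (1 : ℝ)) 0 0 := hasDerivAt_const _ _
    have h3 := leaf_rel_eq h1 h2 (hNev.mono fun t ht => by
      change ‖e (z + t • ζ)‖ ^ 2 = 1
      rw [h.unit _ ht, one_pow])
    simp only [hz0] at h3
    linarith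
  · have h1 := HE.inner ℝ HQ
    have h2 : HasDerivAt (fun _ : ℝ => (0 : ℝ)) 0 0 := hasDerivAt_const _ _
    have h3 := leaf_rel_eq h1 h2 (hNev.mono fun t ht => (hid _ ht).2.2.2.1)
    simp only [hz0] at h3
    linarith
  · intro h1 h2 h3
    have hPx : ∀ z' : T × Tᗮ, T.orthogonalProjectionOnto (xpt T g z') = z'.1 := by
      intro z'
      rw [xpt, cmap, map_add]
      simp
    have hQn : ∀ z' : T × Tᗮ, Tᗮ.orthogonalProjectionOnto (nvec T g z') = z'.2 := by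
      intro z'
      rw [nvec, map_add]
      simp
    have hl1 : HasDerivAt (fun t : ℝ => z.1 + t • ζ.1) ζ.1 0 := by
      simpa using ((hasDerivAt_id (0 : ℝ)).smul_const ζ.1).const_add z.1
    have hl2 : HasDerivAt (fun t : ℝ => z.2 + t • ζ.2) ζ.2 0 := by
      simpa using ((hasDerivAt_id (0 : ℝ)).smul_const ζ.2).const_add z.2
    have k1 : T.orthogonalProjectionOnto (fderiv ℝ (xpt T g) z ζ) = ζ.1 :=
      leaf_rel_eq (T.orthogonalProjectionOnto.hasFDerivAt.comp_hasDerivAt 0 HX) hl1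
        (Eventually.of_forall fun t => hPx _)
    have k2 : Tᗮ.orthogonalProjectionOnto (fderiv ℝ (nvec T g) z ζ) = ζ.2 :=
      leaf_rel_eq (Tᗮ.orthogonalProjectionOnto.hasFDerivAt.comp_hasDerivAt 0 HN) hl2
        (Eventually.of_forall fun t => hQn _)
    have k3 : fderiv ℝ (wpt T g ρ) z ζ = fderiv ℝ (nvec T g) z ζ +
        (ρ z • fderiv ℝ (xpt T g) z ζ + fderiv ℝ ρ z ζ • xpt T g z) := by
      have h4 := HN.add (HR.smul HX)
      simp only [hz0] at h4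
      exact leaf_rel_eq HW h4 (Eventually.of_forall fun t => rfl)
    rw [h1, h2, h3, smul_zero, zero_smul, add_zero, add_zero] at k3
    rw [h1, map_zero] at k1
    rw [← k3, map_zero] at k2
    exact Prod.ext k1.symm k2.symm

end
section
variable {n : ℕ} {T : Submodule ℝ (Eu n)} {g : T → Tᗮ} {O : Set T}

theorem leaf_rel_Xneg (ρ : T × Tᗮ → ℝ) (e : T × Tᗮ → Eu n) (z : T × Tᗮ) :
    Xf T ρ (fun z => -e z) z = -Xf T ρ e z := by
  simp [Xf]

theorem leaf_rel_qneg (ρ : T × Tᗮ → ℝ) (e : T × Tᗮ → Eu n) :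
    qf T ρ (fun z => -e z) = qf T ρ e := by
  funext z
  rw [qf, qf, leaf_rel_Xneg, fderiv_fun_neg]
  simp

theorem leaf_rel_preneg {N : Set (T × Tᗮ)} {ρ : T × Tᗮ → ℝ} {e : T × Tᗮ → Eu n}
    (h : LeafPre T g O N ρ e) : LeafPre T g O N ρ (fun z => -e z) where
  openN := h.openN
  sub := h.sub
  smr := h.smr
  sme := h.sme.neg
  unit := fun z hz => by rw [norm_neg]; exact h.unit z hz
  tang := fun z hz => by rw [map_neg, map_neg, map_neg, h.tang z hz]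
  ker := fun z hz u => by
    rw [h.ker z hz u, map_neg]
    constructor
    · rintro ⟨r, hr⟩
      exact ⟨-r, by rw [hr, smul_neg, neg_smul, neg_neg]⟩
    · rintro ⟨r, hr⟩
      exact ⟨-r, by rw [hr, smul_neg, neg_smul]⟩
  dr := fun z hz => by rw [leaf_rel_Xneg, map_neg, h.dr z hz, neg_zero]

theorem leaf_rel_cneg (x e q : Eu n) (s : ℝ) : circ x (-e) q (-s) = circ x e q s := by
  unfold circ
  rw [neg_sq, neg_smul_neg]

theorem leaf_rel_dneg (e q x' e' q' : Eu n) (s : ℝ) :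
    circD (-e) q x' (-e') q' (-s) = circD e q x' e' q' s := by
  unfold circD
  rw [neg_sq, neg_smul_neg, neg_smul_neg]

end

section
variable {n m : ℕ} {M : Set (Eu n)} {T : Submodule ℝ (Eu n)} {g : T → Tᗮ} {O : Set T} {V : Set (Eu n)}

/-- TARGET -/
theorem leaf_rel (hM : IsSubmanifold ∞ m M) (hcl : IsClosed M) (hD : IsDupin M)
    (hc : IsChart ∞ m M T g O V) {N : Set (T × Tᗮ)} {ρ : T × Tᗮ → ℝ} {e : T × Tᗮ → Eu n}
    (h : LeafPre T g {a | a ∈ O ∧ cmap T g a ∈ V} N ρ e) (z : T × Tᗮ) (hz : z ∈ N) (s : ℝ)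
    (ζ : T × Tᗮ) {T' : Submodule ℝ (Eu n)} {g' : T' → T'ᗮ} {O' : Set T'} {V' : Set (Eu n)}
    (hc' : IsChart ∞ m M T' g' O' V') (hV' : circ (xpt T g z) (e z) (qf T ρ e z) s ∈ V') :
    NRel T' g' (circ (xpt T g z) (e z) (qf T ρ e z) s) (wpt T g ρ z) (ρ z)
      (circD (e z) (qf T ρ e z) (fderiv ℝ (xpt T g) z ζ) (fderiv ℝ e z ζ)
        (fderiv ℝ (qf T ρ e) z ζ) s) (fderiv ℝ (wpt T g ρ) z ζ) (fderiv ℝ ρ z ζ) ∧
    ⟪fderiv ℝ (wpt T g ρ) z ζ, circ (xpt T g z) (e z) (qf T ρ e z) s - xpt T g z⟫_ℝ =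
      fderiv ℝ ρ z ζ * (‖circ (xpt T g z) (e z) (qf T ρ e z) s‖ ^ 2 - ‖xpt T g z‖ ^ 2) / 2 ∧
    ⟪e z, fderiv ℝ e z ζ⟫_ℝ = 0 ∧
    ⟪fderiv ℝ e z ζ, qf T ρ e z⟫_ℝ + ⟪e z, fderiv ℝ (qf T ρ e) z ζ⟫_ℝ = 0 ∧
    (fderiv ℝ (xpt T g) z ζ = 0 → fderiv ℝ (wpt T g ρ) z ζ = 0 → fderiv ℝ ρ z ζ = 0 → ζ = 0) := by
  rcases le_total 0 s with hs | hs
  · exact leaf_rel_pos hM hcl hD hc h z hz s hs ζ hc' hV'
  · have key := leaf_rel_pos hM hcl hD hc (leaf_rel_preneg h) z hz (-s) (neg_nonneg.2 hs) ζ hc'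
    rw [leaf_rel_qneg, leaf_rel_cneg, fderiv_fun_neg] at key
    have h1 : (-fderiv ℝ e z) ζ = -(fderiv ℝ e z ζ) := rfl
    rw [h1, leaf_rel_dneg] at key
    obtain ⟨k1, k2, k3, k4, k5⟩ := key hV'
    rw [inner_neg_neg] at k3
    rw [inner_neg_left, inner_neg_left] at k4
    exact ⟨k1, k2, k3, by linarith, k5⟩

end

end Pool.Agent.H469
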