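import Pool.Agent.Helper469_Dupin.DefsD
import Pool.Agent.Helper469_Dupin.Jbcirc
import Pool.Agent.Helper469_Dupin.Jbid
import Pool.Agent.Helper469_Dupin.Jbdq
import Pool.Agent.Helper469_Dupin.Jbcont
import Pool.Agent.Helper469_Dupin.Jdrel
import Pool.Agent.Helper469_Dupin.Jcritclosed
import Pool.Agent.Helper469_Dupin.Jcritiff
import Pool.Agent.Helper469_Dupin.Jfamd
import Pool.Agent.Helper469_Dupin.Jlop

set_option autoImplicit false

open Set Filter Topology MeasureTheory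
open scoped ContDiff InnerProductSpace

namespace Pool.Agent.H469


theorem limit_circle_lim1 {E : Type} [NormedAddCommGroup E] [InnerProductSpace ℝ E]
    [FiniteDimensional ℝ E] (d : ℕ) (V : ℕ → Submodule ℝ E)
    (hV : ∀ i, Module.finrank ℝ (V i) = d) :
    ∃ (φ : ℕ → ℕ) (W : Submodule ℝ E), StrictMono φ ∧ Module.finrank ℝ W = d ∧
      (∀ v ∈ W, ∃ u : ℕ → E, (∀ i, u i ∈ V (φ i)) ∧ Tendsto u atTop (𝓝 v)) ∧
      ∀ (u : ℕ → E) (v : E), (∀ i, u i ∈ V (φ i)) → Tendsto u atTop (𝓝 v) → v ∈ W := by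
  let B : ∀ i, OrthonormalBasis (Fin d) ℝ (V i) := fun i =>
    (stdOrthonormalBasis ℝ (V i)).reindex (finCongr (hV i))
  let b : ℕ → Fin d → E := fun i k => (B i k : E)
  have hbo : ∀ i, Orthonormal ℝ (b i) := fun i =>
    (B i).orthonormal.comp_linearIsometry (V i).subtypeₗᵢ
  have hbs : ∀ i, ∀ u ∈ V i, ∑ k, ⟪b i k, u⟫_ℝ • b i k = u := by
    intro i u hu
    have h1 := (B i).sum_repr' (⟨u, hu⟩ : V i)
    have h2 := congrArg (Subtype.val) h1
    rw [Submodule.coe_sum] at h2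
    simpa using h2
  have hbd : ∀ i, b i ∈ Metric.closedBall (0 : Fin d → E) 1 := by
    intro i
    rw [mem_closedBall_zero_iff, pi_norm_le_iff_of_nonneg zero_le_one]
    intro k
    exact ((hbo i).1 k).le
  obtain ⟨b', -, φ, hφ, hlim⟩ := (isCompact_closedBall (0 : Fin d → E) 1).tendsto_subseq hbd
  have hk : ∀ k, Tendsto (fun i => b (φ i) k) atTop (𝓝 (b' k)) := fun k =>
    (tendsto_pi_nhds.1 hlim) k
  have hbo' : Orthonormal ℝ b' := by
    rw [orthonormal_iff_ite]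
    intro k l
    have h1 : Tendsto (fun i => ⟪b (φ i) k, b (φ i) l⟫_ℝ) atTop (𝓝 ⟪b' k, b' l⟫_ℝ) :=
      (hk k).inner (hk l)
    have h2 : (fun i => ⟪b (φ i) k, b (φ i) l⟫_ℝ) = fun _ => if k = l then (1 : ℝ) else 0 := by
      funext i
      exact (orthonormal_iff_ite.1 (hbo (φ i))) k l
    rw [h2] at h1
    exact tendsto_nhds_unique h1 tendsto_const_nhds |>.symm ▸ rfl
  refine ⟨φ, Submodule.span ℝ (range b'), hφ, ?_, ?_, ?_⟩
  · rw [finrank_span_eq_card hbo'.linearIndependent, Fintype.card_fin]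
  · intro v hv
    obtain ⟨c, hc⟩ := (Submodule.mem_span_range_iff_exists_fun ℝ).1 hv
    refine ⟨fun i => ∑ k, c k • b (φ i) k, fun i => ?_, ?_⟩
    · exact Submodule.sum_mem _ fun k _ => Submodule.smul_mem _ _ (B (φ i) k).2
    · rw [← hc]
      exact tendsto_finsetSum _ fun k _ => (hk k).const_smul (c k)
  · intro u v hu hv
    have h1 : Tendsto (fun i => ∑ k, ⟪b (φ i) k, u i⟫_ℝ • b (φ i) k) atTop
        (𝓝 (∑ k, ⟪b' k, v⟫_ℝ • b' k)) :=
      tendsto_finsetSum _ fun k _ => ((hk k).inner hv).smul (hk k)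
    have h2 : (fun i => ∑ k, ⟪b (φ i) k, u i⟫_ℝ • b (φ i) k) = u := by
      funext i
      exact hbs (φ i) (u i) (hu i)
    rw [h2] at h1
    have h3 := tendsto_nhds_unique hv h1
    rw [h3]
    exact Submodule.sum_mem _ fun k _ =>
      Submodule.smul_mem _ _ (Submodule.subset_span (mem_range_self k))

theorem limit_circle_lim {E : Type} [NormedAddCommGroup E] [NormedSpace ℝ E]
    [FiniteDimensional ℝ E] (d : ℕ) (V : ℕ → Submodule ℝ E)
    (hV : ∀ i, Module.finrank ℝ (V i) = d) :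
    ∃ (φ : ℕ → ℕ) (W : Submodule ℝ E), StrictMono φ ∧ Module.finrank ℝ W = d ∧
      (∀ v ∈ W, ∃ u : ℕ → E, (∀ i, u i ∈ V (φ i)) ∧ Tendsto u atTop (𝓝 v)) ∧
      ∀ (u : ℕ → E) (v : E), (∀ i, u i ∈ V (φ i)) → Tendsto u atTop (𝓝 v) → v ∈ W := by
  let e : E ≃L[ℝ] EuclideanSpace ℝ (Fin (Module.finrank ℝ E)) := toEuclidean
  obtain ⟨φ, W, hφ, hW, h1, h2⟩ := limit_circle_lim1 d
    (fun i => (V i).map e.toLinearEquiv.toLinearMap) (fun i =>
      (LinearEquiv.finrank_map_eq e.toLinearEquiv (V i)).trans (hV i))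
  refine ⟨φ, W.map e.symm.toLinearEquiv.toLinearMap, hφ, ?_, ?_, ?_⟩
  · exact (LinearEquiv.finrank_map_eq e.symm.toLinearEquiv W).trans hW
  · rintro _ ⟨v, hv, rfl⟩
    obtain ⟨u, hu, hlim⟩ := h1 v hv
    refine ⟨fun i => e.symm (u i), fun i => ?_, ?_⟩
    · obtain ⟨w, hw, hwu⟩ := hu i
      have : e.symm (u i) = w := by
        rw [← hwu]
        exact e.symm_apply_apply w
      show e.symm (u i) ∈ V (φ i)
      rw [this]
      exact hw
    · exact (e.symm.continuous.tendsto v).comp hlim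
  · intro u v hu hv
    refine ⟨e v, h2 (fun i => e (u i)) (e v) (fun i => ⟨u i, hu i, rfl⟩)
      ((e.continuous.tendsto v).comp hv), ?_⟩
    exact e.symm_apply_apply v

theorem limit_circle_ker {F : Type} [NormedAddCommGroup F] [NormedSpace ℝ F]
    [FiniteDimensional ℝ F] (L : ℝ → F →L[ℝ] F) (s : ℝ) (hL : ContinuousAt L s)
    (h : ∃ᶠ s' in 𝓝[≠] s, 2 ≤ Module.finrank ℝ (LinearMap.ker (L s' : F →ₗ[ℝ] F))) :
    2 ≤ Module.finrank ℝ (LinearMap.ker (L s : F →ₗ[ℝ] F)) := by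
  by_contra hcon
  rw [not_le] at hcon
  have hr := fun s' => LinearMap.finrank_range_add_finrank_ker (L s' : F →ₗ[ℝ] F)
  have ho := isOpen_setOfPred_nat_le_rank (𝕜 := ℝ) (E := F) (F := F) (Module.finrank ℝ F - 1)
  have hs : L s ∈ {f : F →L[ℝ] F | ((Module.finrank ℝ F - 1 : ℕ) : Cardinal) ≤
      (f : F →ₗ[ℝ] F).rank} := by
    show ((Module.finrank ℝ F - 1 : ℕ) : Cardinal) ≤ (L s : F →ₗ[ℝ] F).rank
    rw [LinearMap.rank, ← Module.finrank_eq_rank, Nat.cast_le]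
    have := hr s
    omega
  have hev := hL.eventually (ho.mem_nhds hs)
  have hev' : ∀ᶠ s' in 𝓝[≠] s, ((Module.finrank ℝ F - 1 : ℕ) : Cardinal) ≤
      (L s' : F →ₗ[ℝ] F).rank := hev.filter_mono nhdsWithin_le_nhds
  obtain ⟨s', h1, h2⟩ := (h.and_eventually hev').exists
  rw [LinearMap.rank, ← Module.finrank_eq_rank, Nat.cast_le] at h2
  have := hr s'
  omega

theorem limit_circle_cont0 {E : Type} [NormedAddCommGroup E] [NormedSpace ℝ E] (f : ℝ → E)
    (hf : Continuous f) (h : ∀ s, s ≠ 0 → f s = 0) : f 0 = 0 := by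
  have h1 : Tendsto f (𝓝[≠] 0) (𝓝 (f 0)) := (hf.tendsto 0).mono_left nhdsWithin_le_nhds
  have h2 : Tendsto f (𝓝[≠] 0) (𝓝 0) := by
    refine tendsto_const_nhds.congr' ?_
    filter_upwards [self_mem_nhdsWithin] with s hs
    exact (h s hs).symm
  exact tendsto_nhds_unique h1 h2


section
variable {F W : Type} [NormedAddCommGroup F] [InnerProductSpace ℝ F] [FiniteDimensional ℝ F]
  [NormedAddCommGroup W] [InnerProductSpace ℝ W] [FiniteDimensional ℝ W]

/-- the adjoint as a continuous linear map -/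
noncomputable def limit_circle_adj (F W : Type) [NormedAddCommGroup F] [InnerProductSpace ℝ F]
    [FiniteDimensional ℝ F] [NormedAddCommGroup W] [InnerProductSpace ℝ W]
    [FiniteDimensional ℝ W] : (F →L[ℝ] W) →L[ℝ] (W →L[ℝ] F) :=
  LinearMap.toContinuousLinearMap
    { toFun := fun A => ContinuousLinearMap.adjoint A
      map_add' := fun A B => map_add _ A B
      map_smul' := fun c A => by simp }

theorem limit_circle_adj_apply (A : F →L[ℝ] W) :
    limit_circle_adj F W A = ContinuousLinearMap.adjoint A := rfl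

theorem limit_circle_contfd {g : F → W} {O : Set F} (hO : IsOpen O) (hg : ContDiffOn ℝ ∞ g O)
    {a : F} (ha : a ∈ O) : ContinuousAt (fderiv ℝ g) a := by
  have h1 : ContinuousOn (fderiv ℝ g) O := hg.continuousOn_fderiv_of_isOpen hO (by simp)
  exact h1.continuousAt (hO.mem_nhds ha)

theorem limit_circle_fdsmooth {g : F → W} {O : Set F} (hO : IsOpen O) (hg : ContDiffOn ℝ ∞ g O) :
    ContDiffOn ℝ ∞ (fun a => limit_circle_adj F W (fderiv ℝ g a)) O := by
  have h1 : ContDiffOn ℝ ∞ (fderiv ℝ g) O := hg.fderiv_of_isOpen hO (by simp)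
  exact (limit_circle_adj F W).contDiff.comp_contDiffOn h1

theorem limit_circle_hop {g : F → W} {O : Set F} (hO : IsOpen O) (hg : ContDiffOn ℝ ∞ g O)
    {a : F} (ha : a ∈ O) (b : W) :
    Hop g a b = (fderiv ℝ (fun a => limit_circle_adj F W (fderiv ℝ g a)) a).flip b := by
  have h1 := limit_circle_fdsmooth hO hg
  have h2 : DifferentiableAt ℝ (fun a => limit_circle_adj F W (fderiv ℝ g a)) a :=
    (h1.differentiableOn (by simp)).differentiableAt (hO.mem_nhds ha)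
  have h3 : HasFDerivAt (fun a' => nrm g a' b)
      ((ContinuousLinearMap.apply ℝ F b).comp
        (fderiv ℝ (fun a => limit_circle_adj F W (fderiv ℝ g a)) a)) a :=
    (ContinuousLinearMap.apply ℝ F b).hasFDerivAt.comp a h2.hasFDerivAt
  unfold Hop
  rw [h3.fderiv]
  ext v
  simp

theorem limit_circle_conthop {g : F → W} {O : Set F} (hO : IsOpen O) (hg : ContDiffOn ℝ ∞ g O)
    {a : F} (ha : a ∈ O) (b : W) : ContinuousAt (fun p : F × W => Hop g p.1 p.2) (a, b) := by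
  have h1 := limit_circle_fdsmooth hO hg
  have h2 : ContinuousAt (fderiv ℝ (fun a => limit_circle_adj F W (fderiv ℝ g a))) a :=
    (h1.continuousOn_fderiv_of_isOpen hO (by simp)).continuousAt (hO.mem_nhds ha)
  have h3 : ContinuousAt (fun p : F × W =>
      (fderiv ℝ (fun a => limit_circle_adj F W (fderiv ℝ g a)) p.1).flip p.2) (a, b) := by
    have h4 : ContinuousAt (fun p : F × W =>
        fderiv ℝ (fun a => limit_circle_adj F W (fderiv ℝ g a)) p.1) (a, b) :=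
      ContinuousAt.comp (x := ((a, b) : F × W)) (f := Prod.fst) h2 continuousAt_fst
    have h5 : ContinuousAt (fun p : F × W =>
        (fderiv ℝ (fun a => limit_circle_adj F W (fderiv ℝ g a)) p.1).flip) (a, b) :=
      (ContinuousLinearMap.flipₗᵢ ℝ F W F).continuous.continuousAt.comp h4
    exact h5.clm_apply continuousAt_snd
  refine h3.congr ?_
  have h6 : ∀ᶠ p : F × W in 𝓝 (a, b), p.1 ∈ O :=
    continuousAt_fst.eventually (hO.mem_nhds ha)
  filter_upwards [h6] with p hp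
  exact (limit_circle_hop hO hg hp p.2).symm

theorem limit_circle_contnrm {g : F → W} {O : Set F} (hO : IsOpen O) (hg : ContDiffOn ℝ ∞ g O)
    {a : F} (ha : a ∈ O) (b : W) : ContinuousAt (fun p : F × W => nrm g p.1 p.2) (a, b) := by
  have h1 := limit_circle_contfd hO hg ha
  have h4 : ContinuousAt (fun p : F × W => limit_circle_adj F W (fderiv ℝ g p.1)) (a, b) :=
    (limit_circle_adj F W).continuous.continuousAt.comp
      (ContinuousAt.comp (x := ((a, b) : F × W)) (f := Prod.fst) h1 continuousAt_fst)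
  exact h4.clm_apply continuousAt_snd

theorem limit_circle_contlop {g : F → W} {O : Set F} (hO : IsOpen O) (hg : ContDiffOn ℝ ∞ g O)
    {a : F} (ha : a ∈ O) (b : W) (ε : ℝ) :
    ContinuousAt (fun p : F × W => Lop g p.1 p.2 ε) (a, b) := by
  have h1 := limit_circle_contfd hO hg ha
  have h2 : ContinuousAt (fun p : F × W => fderiv ℝ g p.1) (a, b) :=
    ContinuousAt.comp (x := ((a, b) : F × W)) (f := Prod.fst) h1 continuousAt_fst
  have h4 : ContinuousAt (fun p : F × W => limit_circle_adj F W (fderiv ℝ g p.1)) (a, b) :=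
    (limit_circle_adj F W).continuous.continuousAt.comp h2
  have h5 : ContinuousAt (fun p : F × W => Gop g p.1) (a, b) :=
    continuousAt_const.add (h4.clm_comp h2)
  exact (h5.const_smul ε).sub (limit_circle_conthop hO hg ha b)

theorem limit_circle_thop {ι : Type} {l : Filter ι} {g : F → W} {O : Set F} (hO : IsOpen O)
    (hg : ContDiffOn ℝ ∞ g O) {a : F} (ha : a ∈ O) {b : W} {f : ι → F} {k : ι → W}
    (hf : Tendsto f l (𝓝 a)) (hk : Tendsto k l (𝓝 b)) :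
    Tendsto (fun i => Hop g (f i) (k i)) l (𝓝 (Hop g a b)) := by
  have h1 := (limit_circle_conthop hO hg ha b).tendsto
  have h2 := hf.prodMk_nhds hk
  exact Filter.Tendsto.comp (g := fun p : F × W => Hop g p.1 p.2) (f := fun i => (f i, k i)) h1 h2

theorem limit_circle_tlop {ι : Type} {l : Filter ι} {g : F → W} {O : Set F} (hO : IsOpen O)
    (hg : ContDiffOn ℝ ∞ g O) {a : F} (ha : a ∈ O) {b : W} {f : ι → F} {k : ι → W}
    (hf : Tendsto f l (𝓝 a)) (hk : Tendsto k l (𝓝 b)) (ε : ℝ) :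
    Tendsto (fun i => Lop g (f i) (k i) ε) l (𝓝 (Lop g a b ε)) := by
  have h1 := (limit_circle_contlop hO hg ha b ε).tendsto
  have h2 := hf.prodMk_nhds hk
  exact Filter.Tendsto.comp (g := fun p : F × W => Lop g p.1 p.2 ε) (f := fun i => (f i, k i)) h1 h2

theorem limit_circle_tnrm {ι : Type} {l : Filter ι} {g : F → W} {O : Set F} (hO : IsOpen O)
    (hg : ContDiffOn ℝ ∞ g O) {a : F} (ha : a ∈ O) {b : W} {f : ι → F} {k : ι → W}
    (hf : Tendsto f l (𝓝 a)) (hk : Tendsto k l (𝓝 b)) :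
    Tendsto (fun i => nrm g (f i) (k i)) l (𝓝 (nrm g a b)) := by
  have h1 := (limit_circle_contnrm hO hg ha b).tendsto
  have h2 := hf.prodMk_nhds hk
  exact Filter.Tendsto.comp (g := fun p : F × W => nrm g p.1 p.2) (f := fun i => (f i, k i)) h1 h2

end

theorem limit_circle_tapp {ι E1 E2 : Type} {l : Filter ι} [NormedAddCommGroup E1] [NormedSpace ℝ E1]
    [NormedAddCommGroup E2] [NormedSpace ℝ E2] {A : ι → E1 →L[ℝ] E2} {A0 : E1 →L[ℝ] E2}
    {u : ι → E1} {u0 : E1} (hA : Tendsto A l (𝓝 A0)) (hu : Tendsto u l (𝓝 u0)) :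
    Tendsto (fun i => A i (u i)) l (𝓝 (A0 u0)) := by
  have h1 : Continuous fun p : (E1 →L[ℝ] E2) × E1 => p.1 p.2 :=
    isBoundedBilinearMap_apply.continuous
  exact (h1.tendsto (A0, u0)).comp (hA.prodMk_nhds hu)

theorem limit_circle_nrel {n : ℕ} {T : Submodule ℝ (Eu n)} {g : T → Tᗮ} {O : Set T} (hO : IsOpen O)
    (hg : ContDiffOn ℝ ∞ g O) {y w y' w' : ℕ → Eu n} {r r' : ℕ → ℝ} {y0 w0 y0' w0' : Eu n}
    {r0 r0' : ℝ} (hy0 : T.orthogonalProjectionOnto y0 ∈ O) (hy : Tendsto y atTop (𝓝 y0))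
    (hw : Tendsto w atTop (𝓝 w0)) (hr : Tendsto r atTop (𝓝 r0)) (hy' : Tendsto y' atTop (𝓝 y0'))
    (hw' : Tendsto w' atTop (𝓝 w0')) (hr' : Tendsto r' atTop (𝓝 r0'))
    (h : ∀ᶠ i in atTop, NRel T g (y i) (w i) (r i) (y' i) (w' i) (r' i)) :
    NRel T g y0 w0 r0 y0' w0' r0' := by
  have hP : Tendsto (fun i => T.orthogonalProjectionOnto (y i)) atTop
      (𝓝 (T.orthogonalProjectionOnto y0)) :=
    (T.orthogonalProjectionOnto.continuous.tendsto _).comp hy
  have hP' : Tendsto (fun i => T.orthogonalProjectionOnto (y' i)) atTop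
      (𝓝 (T.orthogonalProjectionOnto y0')) :=
    (T.orthogonalProjectionOnto.continuous.tendsto _).comp hy'
  have hξ : Tendsto (fun i => w' i - r' i • y i - r i • y' i) atTop
      (𝓝 (w0' - r0' • y0 - r0 • y0')) := (hw'.sub (hr'.smul hy)).sub (hr.smul hy')
  have hν : Tendsto (fun i => w i - r i • y i) atTop (𝓝 (w0 - r0 • y0)) := hw.sub (hr.smul hy)
  have hQ : ∀ {f : ℕ → Eu n} {f0 : Eu n}, Tendsto f atTop (𝓝 f0) →
      Tendsto (fun i => Tᗮ.orthogonalProjectionOnto (f i)) atTop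
        (𝓝 (Tᗮ.orthogonalProjectionOnto f0)) := fun hf =>
    (Tᗮ.orthogonalProjectionOnto.continuous.tendsto _).comp hf
  have hPξ : Tendsto (fun i => T.orthogonalProjectionOnto (w' i - r' i • y i - r i • y' i)) atTop
      (𝓝 (T.orthogonalProjectionOnto (w0' - r0' • y0 - r0 • y0'))) :=
    (T.orthogonalProjectionOnto.continuous.tendsto _).comp hξ
  have hfd : Tendsto (fun i => fderiv ℝ g (T.orthogonalProjectionOnto (y i))) atTop
      (𝓝 (fderiv ℝ g (T.orthogonalProjectionOnto y0))) := by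
    have h1 := (limit_circle_contfd hO hg hy0).tendsto
    exact Filter.Tendsto.comp (g := fderiv ℝ g) (f := fun i => T.orthogonalProjectionOnto (y i)) h1 hP
  have hhop : Tendsto (fun i => Hop g (T.orthogonalProjectionOnto (y i))
      (Tᗮ.orthogonalProjectionOnto (w i - r i • y i))) atTop
      (𝓝 (Hop g (T.orthogonalProjectionOnto y0) (Tᗮ.orthogonalProjectionOnto (w0 - r0 • y0)))) :=
    limit_circle_thop hO hg hy0 hP (hQ hν)
  have hnrm : Tendsto (fun i => nrm g (T.orthogonalProjectionOnto (y i))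
      (Tᗮ.orthogonalProjectionOnto (w' i - r' i • y i - r i • y' i))) atTop
      (𝓝 (nrm g (T.orthogonalProjectionOnto y0)
        (Tᗮ.orthogonalProjectionOnto (w0' - r0' • y0 - r0 • y0')))) :=
    limit_circle_tnrm hO hg hy0 hP (hQ hξ)
  refine ⟨?_, ?_⟩
  · have h1 := limit_circle_tapp hfd hP'
    refine tendsto_nhds_unique (hQ hy') (h1.congr' ?_)
    filter_upwards [h] with i hi
    exact hi.1.symm
  · have h2 := limit_circle_tapp hhop hP'
    refine tendsto_nhds_unique hPξ ((h2.add hnrm).neg.congr' ?_)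
    filter_upwards [h] with i hi
    exact hi.2.symm


section
variable {n m : ℕ} {M : Set (Eu n)} {T : Submodule ℝ (Eu n)} {g : T → Tᗮ} {O : Set T} {V : Set (Eu n)}

theorem limit_circle_negX (ρ : T × Tᗮ → ℝ) (e : T × Tᗮ → Eu n) (z : T × Tᗮ) :
    Xf T ρ (fun z => -(e z)) z = -(Xf T ρ e z) := by
  unfold Xf
  ext <;> simp

theorem limit_circle_neg {N : Set (T × Tᗮ)} {ρ : T × Tᗮ → ℝ} {e : T × Tᗮ → Eu n}
    (h : LeafPre T g O N ρ e) : LeafPre T g O N ρ (fun z => -(e z)) where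
  openN := h.openN
  sub := h.sub
  smr := h.smr
  sme := h.sme.neg
  unit := fun z hz => by
    show ‖-(e z)‖ = 1
    rw [norm_neg]
    exact h.unit z hz
  tang := fun z hz => by
    show Tᗮ.orthogonalProjectionOnto (-(e z)) = fderiv ℝ g z.1 (T.orthogonalProjectionOnto (-(e z)))
    rw [map_neg, map_neg, map_neg, h.tang z hz]
  ker := fun z hz u => by
    rw [h.ker z hz u]
    constructor
    · rintro ⟨r, hr⟩
      refine ⟨-r, ?_⟩
      show u = (-r) • T.orthogonalProjectionOnto (-(e z))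
      rw [map_neg, neg_smul, smul_neg, neg_neg]
      exact hr
    · rintro ⟨r, hr⟩
      refine ⟨-r, ?_⟩
      have hr' : u = r • T.orthogonalProjectionOnto (-(e z)) := hr
      rw [map_neg] at hr'
      rw [hr', neg_smul, smul_neg]
  dr := fun z hz => by
    rw [limit_circle_negX, map_neg, h.dr z hz, neg_zero]

theorem limit_circle_negq (ρ : T × Tᗮ → ℝ) (e : T × Tᗮ → Eu n) (z : T × Tᗮ) :
    qf T ρ (fun z => -(e z)) z = qf T ρ e z := by
  unfold qf
  rw [limit_circle_negX]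
  have h1 : fderiv ℝ (fun z => -(e z)) z = -(fderiv ℝ e z) := fderiv_neg
  rw [h1]
  simp

theorem limit_circle_negc (x e q : Eu n) (s : ℝ) : circ x (-e) q (-s) = circ x e q s := by
  unfold circ
  simp

theorem limit_circle_all (hM : IsSubmanifold ∞ m M) (hcl : IsClosed M) (hD : IsDupin M)
    (hc : IsChart ∞ m M T g O V) {N : Set (T × Tᗮ)} {ρ : T × Tᗮ → ℝ} {e : T × Tᗮ → Eu n}
    (h : LeafPre T g {a | a ∈ O ∧ cmap T g a ∈ V} N ρ e)
    (z : T × Tᗮ) (hz : z ∈ N) (s : ℝ) :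
    circ (xpt T g z) (e z) (qf T ρ e z) s ∈ critSet M (fam (wpt T g ρ z, ρ z)) := by
  rcases le_total 0 s with hs | hs
  · exact (leaf_cont hM hcl hD hc h z hz s).self_of_nhds s ⟨hs, le_refl s⟩
  · have h1 := (leaf_cont hM hcl hD hc (limit_circle_neg h) z hz (-s)).self_of_nhds (-s)
      ⟨by linarith, le_refl _⟩
    rw [limit_circle_negq, limit_circle_negc] at h1
    exact h1

theorem limit_circle_contc : Continuous fun p : (Eu n × Eu n × Eu n) × ℝ =>
    circ p.1.1 p.1.2.1 p.1.2.2 p.2 := by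
  unfold circ
  have h1 : Continuous fun p : (Eu n × Eu n × Eu n) × ℝ =>
      (1 + p.2 ^ 2 * ‖p.1.2.2‖ ^ 2)⁻¹ := by
    refine Continuous.inv₀ (by fun_prop) fun p => ?_
    positivity
  exact continuous_fst.fst.add (h1.smul (by fun_prop))

theorem limit_circle_conty (x e q : Eu n) : Continuous (circ x e q) := by
  have h := limit_circle_contc (n := n)
  exact h.comp (Continuous.prodMk (continuous_const (y := (x, e, q))) continuous_id)

theorem limit_circle_ty {x e q : ℕ → Eu n} {x0 e0 q0 : Eu n} (hx : Tendsto x atTop (𝓝 x0))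
    (he : Tendsto e atTop (𝓝 e0)) (hq : Tendsto q atTop (𝓝 q0)) (s : ℝ) :
    Tendsto (fun i => circ (x i) (e i) (q i) s) atTop (𝓝 (circ x0 e0 q0 s)) := by
  have h := (limit_circle_contc (n := n)).tendsto ((x0, e0, q0), s)
  exact h.comp ((hx.prodMk_nhds (he.prodMk_nhds hq)).prodMk_nhds tendsto_const_nhds)

theorem limit_circle_td {x' e' q' e q : ℕ → Eu n} {x0' e0' q0' e0 q0 : Eu n}
    (hx' : Tendsto x' atTop (𝓝 x0')) (he' : Tendsto e' atTop (𝓝 e0'))
    (hq' : Tendsto q' atTop (𝓝 q0'))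
    (he : Tendsto e atTop (𝓝 e0)) (hq : Tendsto q atTop (𝓝 q0)) (s : ℝ) :
    Tendsto (fun i => circD (e i) (q i) (x' i) (e' i) (q' i) s) atTop
      (𝓝 (circD e0 q0 x0' e0' q0' s)) := by
  have h1 : Tendsto (fun i => (1 + s ^ 2 * ‖q i‖ ^ 2)⁻¹) atTop (𝓝 ((1 + s ^ 2 * ‖q0‖ ^ 2)⁻¹)) := by
    refine Tendsto.inv₀ (tendsto_const_nhds.add (tendsto_const_nhds.mul (hq.norm.pow 2))) ?_
    positivity
  unfold circD
  refine (hx'.add (h1.smul ((he'.const_smul s).add (hq'.const_smul (s ^ 2))))).sub ?_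
  exact ((tendsto_const_nhds.mul (hq.inner hq')).mul (h1.pow 2)).smul
    ((he.const_smul s).add (hq.const_smul (s ^ 2)))

theorem limit_circle_crit (hM : IsSubmanifold ∞ m M) (hcl : IsClosed M) (hD : IsDupin M)
    (hc : IsChart ∞ m M T g O V) (x₀ : Eu n) (p₀ : Eu n × ℝ) (e₀ q₀ : Eu n)
    (N : ℕ → Set (T × Tᗮ)) (ρ : ℕ → T × Tᗮ → ℝ) (e : ℕ → T × Tᗮ → Eu n) (z : ℕ → T × Tᗮ)
    (hL : ∀ i, LeafPre T g {a | a ∈ O ∧ cmap T g a ∈ V} (N i) (ρ i) (e i)) (hz : ∀ i, z i ∈ N i)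
    (hx' : Tendsto (fun i => xpt T g (z i)) atTop (𝓝 x₀))
    (hw' : Tendsto (fun i => (wpt T g (ρ i) (z i), ρ i (z i))) atTop (𝓝 p₀))
    (he' : Tendsto (fun i => e i (z i)) atTop (𝓝 e₀))
    (hq' : Tendsto (fun i => qf T (ρ i) (e i) (z i)) atTop (𝓝 q₀)) (s : ℝ) :
    circ x₀ e₀ q₀ s ∈ critSet M (fam p₀) := by
  have h1 := crit_closed hM hcl
  have h2 := (limit_circle_ty hx' he' hq' s).prodMk_nhds hw'
  have h3 := h1.mem_of_tendsto h2 (Eventually.of_forall fun i =>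
    limit_circle_all hM hcl hD hc (hL i) (z i) (hz i) s)
  exact h3

end

section
variable {n m : ℕ} {M : Set (Eu n)} {T : Submodule ℝ (Eu n)} {g : T → Tᗮ} {O : Set T} {V : Set (Eu n)}

/-- the derivative of the data of a leaf -/
noncomputable def limit_circle_Phi (T : Submodule ℝ (Eu n)) (g : T → Tᗮ) (ρ : T × Tᗮ → ℝ)
    (e : T × Tᗮ → Eu n) (z : T × Tᗮ) : (T × Tᗮ) →ₗ[ℝ] (Eu n × Eu n × Eu n × Eu n × ℝ) :=
  ((fderiv ℝ (xpt T g) z : T × Tᗮ →ₗ[ℝ] Eu n)).prod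
    (((fderiv ℝ e z : T × Tᗮ →ₗ[ℝ] Eu n)).prod
      (((fderiv ℝ (qf T ρ e) z : T × Tᗮ →ₗ[ℝ] Eu n)).prod
        (((fderiv ℝ (wpt T g ρ) z : T × Tᗮ →ₗ[ℝ] Eu n)).prod
          ((fderiv ℝ ρ z : T × Tᗮ →ₗ[ℝ] ℝ)))))

theorem limit_circle_Phi_apply (ρ : T × Tᗮ → ℝ) (e : T × Tᗮ → Eu n) (z ζ : T × Tᗮ) :
    limit_circle_Phi T g ρ e z ζ = (fderiv ℝ (xpt T g) z ζ, fderiv ℝ e z ζ,
      fderiv ℝ (qf T ρ e) z ζ, fderiv ℝ (wpt T g ρ) z ζ, fderiv ℝ ρ z ζ) := rfl

theorem limit_circle_opn (hc : IsChart ∞ m M T g O V) :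
    IsOpen {a | a ∈ O ∧ cmap T g a ∈ V} := by
  have h1 : ContinuousOn (cmap T g) O := by
    unfold cmap
    exact (continuous_subtype_val.continuousOn).add
      (continuous_subtype_val.comp_continuousOn hc.smooth.continuousOn)
  exact h1.isOpen_inter_preimage hc.openO hc.openV

theorem limit_circle_inj (hM : IsSubmanifold ∞ m M) (hcl : IsClosed M) (hD : IsDupin M)
    (hc : IsChart ∞ m M T g O V) {N : Set (T × Tᗮ)} {ρ : T × Tᗮ → ℝ} {e : T × Tᗮ → Eu n}
    (h : LeafPre T g {a | a ∈ O ∧ cmap T g a ∈ V} N ρ e)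
    (z : T × Tᗮ) (hz : z ∈ N) :
    Module.finrank ℝ (LinearMap.range (limit_circle_Phi T g ρ e z)) = n := by
  have h0 : circ (xpt T g z) (e z) (qf T ρ e z) 0 ∈ V := by
    have h1 : circ (xpt T g z) (e z) (qf T ρ e z) 0 = xpt T g z := by
      unfold circ
      simp
    rw [h1]
    exact (h.sub z hz).1.2
  rw [LinearMap.finrank_range_of_inj]
  · rw [Module.finrank_prod, Submodule.finrank_add_finrank_orthogonal, finrank_euclideanSpace_fin]
  · rw [injective_iff_map_eq_zero]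
    intro ζ hζ
    rw [limit_circle_Phi_apply] at hζ
    have h2 := (leaf_rel hM hcl hD hc h z hz 0 ζ hc h0).2.2.2.2
    simp only [Prod.mk_eq_zero] at hζ
    exact h2 hζ.1 hζ.2.2.2.1 hζ.2.2.2.2

/-- the tangent vector of the circle -/
noncomputable def limit_circle_vt (e q : Eu n) : Eu n × Eu n × Eu n × Eu n × ℝ :=
  (e, (2 : ℝ) • q, -((2 * ‖q‖ ^ 2) • e), 0, 0)

theorem limit_circle_W (hM : IsSubmanifold ∞ m M) (hcpt : IsCompact M) (hD : IsDupin M)
    (hc : IsChart ∞ m M T g O V) (x₀ : Eu n) (p₀ : Eu n × ℝ) (e₀ q₀ : Eu n)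
    (N : ℕ → Set (T × Tᗮ)) (ρ : ℕ → T × Tᗮ → ℝ) (e : ℕ → T × Tᗮ → Eu n) (z : ℕ → T × Tᗮ)
    (hL : ∀ i, LeafPre T g {a | a ∈ O ∧ cmap T g a ∈ V} (N i) (ρ i) (e i)) (hz : ∀ i, z i ∈ N i)
    (hx' : Tendsto (fun i => xpt T g (z i)) atTop (𝓝 x₀))
    (hw' : Tendsto (fun i => (wpt T g (ρ i) (z i), ρ i (z i))) atTop (𝓝 p₀))
    (he' : Tendsto (fun i => e i (z i)) atTop (𝓝 e₀))
    (hq' : Tendsto (fun i => qf T (ρ i) (e i) (z i)) atTop (𝓝 q₀)) :
    ‖e₀‖ = 1 ∧ ⟪e₀, q₀⟫_ℝ = 0 ∧ ∃ W : Submodule ℝ (Eu n × Eu n × Eu n × Eu n × ℝ),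
      Module.finrank ℝ W = n ∧ limit_circle_vt e₀ q₀ ∈ W ∧
      ∀ v ∈ W, ⟪e₀, v.2.1⟫_ℝ = 0 ∧ ⟪v.2.1, q₀⟫_ℝ + ⟪e₀, v.2.2.1⟫_ℝ = 0 ∧
        (∀ s, ⟪v.2.2.2.1, circ x₀ e₀ q₀ s - x₀⟫_ℝ =
          v.2.2.2.2 * (‖circ x₀ e₀ q₀ s‖ ^ 2 - ‖x₀‖ ^ 2) / 2) ∧
        ∀ (s : ℝ) (T' : Submodule ℝ (Eu n)) (g' : T' → T'ᗮ) (O' : Set T') (V' : Set (Eu n)),
          IsChart ∞ m M T' g' O' V' → circ x₀ e₀ q₀ s ∈ V' →
          NRel T' g' (circ x₀ e₀ q₀ s) p₀.1 p₀.2
            (circD e₀ q₀ v.1 v.2.1 v.2.2.1 s) v.2.2.2.1 v.2.2.2.2 := by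
  have hcl : IsClosed M := hcpt.isClosed
  have hO1 := limit_circle_opn hc
  have hg1 : ContDiffOn ℝ ∞ g {a | a ∈ O ∧ cmap T g a ∈ V} := hc.smooth.mono fun a ha => ha.1
  have he1 : ‖e₀‖ = 1 := by
    refine tendsto_nhds_unique he'.norm ?_
    have : (fun i => ‖e i (z i)‖) = fun _ => (1 : ℝ) := funext fun i => (hL i).unit _ (hz i)
    rw [this]
    exact tendsto_const_nhds
  have heq : ⟪e₀, q₀⟫_ℝ = 0 := by
    refine tendsto_nhds_unique (he'.inner hq') ?_
    have : (fun i => ⟪e i (z i), qf T (ρ i) (e i) (z i)⟫_ℝ) = fun _ => (0 : ℝ) :=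
      funext fun i => (leaf_id hO1 hg1 (hL i) _ (hz i)).2.2.2.1
    rw [this]
    exact tendsto_const_nhds
  obtain ⟨φ, W, hφ, hW, hW1, hW2⟩ := limit_circle_lim n
    (fun i => LinearMap.range (limit_circle_Phi T g (ρ i) (e i) (z i))) (fun i =>
      limit_circle_inj hM hcl hD hc (hL i) (z i) (hz i))
  have hφt := hφ.tendsto_atTop
  have hx2 := hx'.comp hφt
  have hw2 := (continuous_fst.tendsto _).comp (hw'.comp hφt)
  have hr2 := (continuous_snd.tendsto _).comp (hw'.comp hφt)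
  have he2 := he'.comp hφt
  have hq2 := hq'.comp hφt
  refine ⟨he1, heq, W, hW, ?_, ?_⟩
  · refine hW2 (fun i => limit_circle_vt (e (φ i) (z (φ i))) (qf T (ρ (φ i)) (e (φ i)) (z (φ i))))
      _ (fun i => ?_) ?_
    · refine ⟨Xf T (ρ (φ i)) (e (φ i)) (z (φ i)), ?_⟩
      have h1 := leaf_id hO1 hg1 (hL (φ i)) _ (hz (φ i))
      have h2 := leaf_dq hO1 hg1 (hL (φ i)) _ (hz (φ i))
      rw [limit_circle_Phi_apply, h1.1, h1.2.2.1, (hL (φ i)).dr _ (hz (φ i)), h2]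
      unfold limit_circle_vt
      have h3 : fderiv ℝ (e (φ i)) (z (φ i)) (Xf T (ρ (φ i)) (e (φ i)) (z (φ i))) =
          (2 : ℝ) • qf T (ρ (φ i)) (e (φ i)) (z (φ i)) := by
        unfold qf
        rw [smul_smul]
        norm_num
      rw [h3]
    · unfold limit_circle_vt
      refine he2.prodMk_nhds ((hq2.const_smul (2 : ℝ)).prodMk_nhds (Tendsto.prodMk_nhds ?_
        (tendsto_const_nhds.prodMk_nhds tendsto_const_nhds)))
      exact ((tendsto_const_nhds.mul (hq2.norm.pow 2)).smul he2).neg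
  · intro v hv
    obtain ⟨u, hu, hlim⟩ := hW1 v hv
    choose ζ hζ using hu
    have hu1 : Tendsto (fun i => fderiv ℝ (xpt T g) (z (φ i)) (ζ i)) atTop (𝓝 v.1) := by
      have := (continuous_fst.tendsto _).comp hlim
      refine this.congr fun i => ?_
      show (u i).1 = _
      rw [← hζ i]
      rfl
    have hu2 : Tendsto (fun i => fderiv ℝ (e (φ i)) (z (φ i)) (ζ i)) atTop (𝓝 v.2.1) := by
      have := (continuous_snd.fst.tendsto _).comp hlim
      refine this.congr fun i => ?_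
      show (u i).2.1 = _
      rw [← hζ i]
      rfl
    have hu3 : Tendsto (fun i => fderiv ℝ (qf T (ρ (φ i)) (e (φ i))) (z (φ i)) (ζ i)) atTop
        (𝓝 v.2.2.1) := by
      have := (continuous_snd.snd.fst.tendsto _).comp hlim
      refine this.congr fun i => ?_
      show (u i).2.2.1 = _
      rw [← hζ i]
      rfl
    have hu4 : Tendsto (fun i => fderiv ℝ (wpt T g (ρ (φ i))) (z (φ i)) (ζ i)) atTop
        (𝓝 v.2.2.2.1) := by
      have := (continuous_snd.snd.snd.fst.tendsto _).comp hlim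
      refine this.congr fun i => ?_
      show (u i).2.2.2.1 = _
      rw [← hζ i]
      rfl
    have hu5 : Tendsto (fun i => fderiv ℝ (ρ (φ i)) (z (φ i)) (ζ i)) atTop
        (𝓝 v.2.2.2.2) := by
      have := (continuous_snd.snd.snd.snd.tendsto _).comp hlim
      refine this.congr fun i => ?_
      show (u i).2.2.2.2 = _
      rw [← hζ i]
      rfl
    have hV1 : ∀ i, circ (xpt T g (z i)) (e i (z i)) (qf T (ρ i) (e i) (z i)) 0 ∈ V := by
      intro i
      have h1 : circ (xpt T g (z i)) (e i (z i)) (qf T (ρ i) (e i) (z i)) 0 = xpt T g (z i) := by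
        unfold circ
        simp
      rw [h1]
      exact ((hL i).sub _ (hz i)).1.2
    have hy := fun s => limit_circle_ty hx2 he2 hq2 s
    refine ⟨?_, ?_, ?_, ?_⟩
    · refine tendsto_nhds_unique (he2.inner hu2) (tendsto_const_nhds.congr fun i => ?_)
      exact (leaf_rel hM hcl hD hc (hL (φ i)) _ (hz (φ i)) 0 (ζ i) hc (hV1 (φ i))).2.2.1.symm
    · refine tendsto_nhds_unique ((hu2.inner hq2).add (he2.inner hu3))
        (tendsto_const_nhds.congr fun i => ?_)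
      exact (leaf_rel hM hcl hD hc (hL (φ i)) _ (hz (φ i)) 0 (ζ i) hc (hV1 (φ i))).2.2.2.1.symm
    · intro s
      have hcr : circ x₀ e₀ q₀ s ∈ critSet M (fam p₀) :=
        limit_circle_crit hM hcl hD hc x₀ p₀ e₀ q₀ N ρ e z hL hz hx' hw' he' hq' s
      obtain ⟨T', g', O', V', hV', hc'⟩ := (isSubmanifold_iff _ _ _).1 hM _ hcr.1
      have hev := (hy s).eventually (hc'.openV.mem_nhds hV')
      refine tendsto_nhds_unique (hu4.inner ((hy s).sub hx2))
        (((hu5.mul (((hy s).norm.pow 2).sub (hx2.norm.pow 2))).div_const 2).congr' ?_)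
      filter_upwards [hev] with i hi
      exact (leaf_rel hM hcl hD hc (hL (φ i)) _ (hz (φ i)) s (ζ i) hc' hi).2.1.symm
    · intro s T' g' O' V' hc' hV'
      have hev := (hy s).eventually (hc'.openV.mem_nhds hV')
      refine limit_circle_nrel hc'.openO hc'.smooth (hc'.mem _ hV').1 (hy s) hw2 hr2
        (limit_circle_td hu1 hu2 hu3 he2 hq2 s) hu4 hu5 ?_
      filter_upwards [hev] with i hi
      exact (leaf_rel hM hcl hD hc (hL (φ i)) _ (hz (φ i)) s (ζ i) hc' hi).1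

end

section
variable {n m : ℕ} {M : Set (Eu n)} {T : Submodule ℝ (Eu n)} {g : T → Tᗮ} {O : Set T} {V : Set (Eu n)}

theorem limit_circle_c0 (x e q : Eu n) : circ x e q 0 = x := by
  unfold circ
  simp

theorem limit_circle_d0 (e q x' e' q' : Eu n) : circD e q x' e' q' 0 = x' := by
  unfold circD
  simp

theorem limit_circle_split (T : Submodule ℝ (Eu n)) (x : Eu n) :
    x = (T.orthogonalProjectionOnto x : Eu n) + (Tᗮ.orthogonalProjectionOnto x : Eu n) := by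
  exact (T.starProjection_add_starProjection_orthogonal x).symm

theorem limit_circle_zero (T : Submodule ℝ (Eu n)) (x : Eu n)
    (h1 : T.orthogonalProjectionOnto x = 0) (h2 : Tᗮ.orthogonalProjectionOnto x = 0) : x = 0 := by
  rw [limit_circle_split T x, h1, h2]
  simp

theorem limit_circle_nrm0 (a : T) : nrm g a 0 = 0 := by
  unfold nrm
  exact map_zero _

theorem limit_circle_ne (x e q : Eu n) (he : ‖e‖ = 1) (heq : ⟪e, q⟫_ℝ = 0) :
    ‖circ x e q 1 - x‖ ^ 2 ≠ 0 := by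
  have h := (circ_group x e q he heq 1).2.2.2.1
  rw [h]
  positivity

/-- if `w' = ρ' x` then both vanish -/
theorem limit_circle_w0 (x w' y : Eu n) (ρ' : ℝ) (hw : w' = ρ' • x) (hy : ‖y - x‖ ^ 2 ≠ 0)
    (h : ⟪w', y - x⟫_ℝ = ρ' * (‖y‖ ^ 2 - ‖x‖ ^ 2) / 2) : ρ' = 0 := by
  rw [hw, inner_smul_left, inner_sub_right, real_inner_self_eq_norm_sq] at h
  have h1 := norm_sub_sq_real y x
  have h2 : ρ' * ‖y - x‖ ^ 2 = 0 := by
    rw [h1, real_inner_comm]
    simp only [conj_trivial] at h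
    linarith
  rcases mul_eq_zero.1 h2 with h3 | h3
  · exact h3
  · exact absurd h3 hy

theorem limit_circle_V0 (hc : IsChart ∞ m M T g O V) (x₀ : Eu n) (hxV : x₀ ∈ V) (p₀ : Eu n × ℝ)
    (hnull : 2 ≤ Module.finrank ℝ (nullK T g x₀ p₀)) (e₀ q₀ : Eu n) (he : ‖e₀‖ = 1)
    (heq : ⟪e₀, q₀⟫_ℝ = 0) (W : Submodule ℝ (Eu n × Eu n × Eu n × Eu n × ℝ))
    (hW : Module.finrank ℝ W = n)
    (hvt : limit_circle_vt e₀ q₀ ∈ W)
    (h : ∀ v ∈ W, ⟪e₀, v.2.1⟫_ℝ = 0 ∧ ⟪v.2.1, q₀⟫_ℝ + ⟪e₀, v.2.2.1⟫_ℝ = 0 ∧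
        (∀ s, ⟪v.2.2.2.1, circ x₀ e₀ q₀ s - x₀⟫_ℝ =
          v.2.2.2.2 * (‖circ x₀ e₀ q₀ s‖ ^ 2 - ‖x₀‖ ^ 2) / 2) ∧
        ∀ (s : ℝ) (T' : Submodule ℝ (Eu n)) (g' : T' → T'ᗮ) (O' : Set T') (V' : Set (Eu n)),
          IsChart ∞ m M T' g' O' V' → circ x₀ e₀ q₀ s ∈ V' →
          NRel T' g' (circ x₀ e₀ q₀ s) p₀.1 p₀.2
            (circD e₀ q₀ v.1 v.2.1 v.2.2.1 s) v.2.2.2.1 v.2.2.2.2) :
    ∃ v ∈ W, v.2.2.2.1 = 0 ∧ v.2.2.2.2 = 0 ∧ v ≠ 0 ∧ ⟪v.1, e₀⟫_ℝ = 0 := by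
  -- it suffices to find one outside the line
  suffices hs : ∃ v ∈ W, v.2.2.2.1 = 0 ∧ v.2.2.2.2 = 0 ∧
      ∀ r : ℝ, v ≠ r • limit_circle_vt e₀ q₀ by
    obtain ⟨v, hvW, hv1, hv2, hv3⟩ := hs
    refine ⟨v - ⟪v.1, e₀⟫_ℝ • limit_circle_vt e₀ q₀,
      W.sub_mem hvW (W.smul_mem _ hvt), ?_, ?_, ?_, ?_⟩
    · show v.2.2.2.1 - ⟪v.1, e₀⟫_ℝ • (0 : Eu n) = 0
      rw [hv1, smul_zero, sub_zero]
    · show v.2.2.2.2 - ⟪v.1, e₀⟫_ℝ • (0 : ℝ) = 0
      rw [hv2, smul_zero, sub_zero]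
    · intro h0
      exact hv3 _ (sub_eq_zero.1 h0)
    · show ⟪v.1 - ⟪v.1, e₀⟫_ℝ • e₀, e₀⟫_ℝ = 0
      rw [inner_sub_left, inner_smul_left, real_inner_self_eq_norm_sq, he]
      simp
  by_contra hcon
  push Not at hcon
  have hrel0 : ∀ v ∈ W, NRel T g x₀ p₀.1 p₀.2 v.1 v.2.2.2.1 v.2.2.2.2 := by
    intro v hv
    have h1 := (h v hv).2.2.2 0 T g O V hc (by rw [limit_circle_c0]; exact hxV)
    rw [limit_circle_c0, limit_circle_d0] at h1
    exact h1
  have hfin : ∀ v ∈ W, v.2.2.2.1 = v.2.2.2.2 • x₀ → ∃ r : ℝ, v = r • limit_circle_vt e₀ q₀ := by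
    intro v hv hw
    have h1 := (h v hv).2.2.1 1
    have h2 := limit_circle_w0 x₀ v.2.2.2.1 (circ x₀ e₀ q₀ 1) v.2.2.2.2 hw
      (limit_circle_ne x₀ e₀ q₀ he heq) h1
    refine hcon v hv ?_ h2
    rw [hw, h2, zero_smul]
  let Ψ : W →ₗ[ℝ] (T × Tᗮ) :=
    { toFun := fun v => (T.orthogonalProjectionOnto (v : Eu n × Eu n × Eu n × Eu n × ℝ).1,
        Tᗮ.orthogonalProjectionOnto ((v : Eu n × Eu n × Eu n × Eu n × ℝ).2.2.2.1 -
          (v : Eu n × Eu n × Eu n × Eu n × ℝ).2.2.2.2 • x₀ -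
          p₀.2 • (v : Eu n × Eu n × Eu n × Eu n × ℝ).1))
      map_add' := fun u v => by
        refine Prod.ext ?_ ?_
        · exact map_add _ _ _
        · show Tᗮ.orthogonalProjectionOnto _ =
            Tᗮ.orthogonalProjectionOnto _ + Tᗮ.orthogonalProjectionOnto _
          rw [← map_add]
          congr 1
          show (u.1.2.2.2.1 + v.1.2.2.2.1) - (u.1.2.2.2.2 + v.1.2.2.2.2) • x₀ -
            p₀.2 • (u.1.1 + v.1.1) = _
          module
      map_smul' := fun c v => by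
        refine Prod.ext ?_ ?_
        · exact map_smul _ _ _
        · show Tᗮ.orthogonalProjectionOnto _ = c • Tᗮ.orthogonalProjectionOnto _
          rw [← map_smul]
          congr 1
          show (c • v.1.2.2.2.1) - (c • v.1.2.2.2.2) • x₀ - p₀.2 • (c • v.1.1) = _
          rw [smul_eq_mul]
          module }
  have hΨ1 : ∀ v : W, (Ψ v).1 = T.orthogonalProjectionOnto v.1.1 := fun v => rfl
  have hΨ2 : ∀ v : W, (Ψ v).2 = Tᗮ.orthogonalProjectionOnto
    (v.1.2.2.2.1 - v.1.2.2.2.2 • x₀ - p₀.2 • v.1.1) := fun v => rfl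
  have hinj : Function.Injective Ψ := by
    rw [injective_iff_map_eq_zero]
    intro v hv
    have hr := hrel0 v.1 v.2
    have h1 : T.orthogonalProjectionOnto v.1.1 = 0 := by rw [← hΨ1, hv]; rfl
    have h2 : Tᗮ.orthogonalProjectionOnto (v.1.2.2.2.1 - v.1.2.2.2.2 • x₀ - p₀.2 • v.1.1) = 0 := by
      rw [← hΨ2, hv]; rfl
    have h3 : v.1.1 = 0 := by
      refine limit_circle_zero T _ h1 ?_
      rw [hr.1, h1, map_zero]
    have h4 : v.1.2.2.2.1 - v.1.2.2.2.2 • x₀ - p₀.2 • v.1.1 = 0 := by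
      refine limit_circle_zero T _ ?_ h2
      rw [hr.2, h1, h2, map_zero, limit_circle_nrm0, add_zero, neg_zero]
    rw [h3, smul_zero, sub_zero] at h4
    obtain ⟨r, hr'⟩ := hfin v.1 v.2 (sub_eq_zero.1 h4)
    have h5 : r • e₀ = 0 := by
      rw [← h3, hr']
      rfl
    have h6 : r = 0 := by
      rcases smul_eq_zero.1 h5 with h7 | h7
      · exact h7
      · rw [h7, norm_zero] at he
        norm_num at he
    apply Subtype.ext
    rw [hr', h6, zero_smul]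
    rfl
  have hdim : Module.finrank ℝ W = Module.finrank ℝ (T × Tᗮ) := by
    rw [hW, Module.finrank_prod, Submodule.finrank_add_finrank_orthogonal,
      finrank_euclideanSpace_fin]
  have hsurj : Function.Surjective Ψ :=
    (LinearMap.injective_iff_surjective_of_finrank_eq_finrank hdim).1 hinj
  have hle : nullK T g x₀ p₀ ≤ Submodule.span ℝ {T.orthogonalProjectionOnto e₀} := by
    intro u hu
    have hu' : Lop g (T.orthogonalProjectionOnto x₀)
      (Tᗮ.orthogonalProjectionOnto (p₀.1 - p₀.2 • x₀)) p₀.2 u = 0 := hu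
    obtain ⟨v, hv⟩ := hsurj (u, -(p₀.2 • fderiv ℝ g (T.orthogonalProjectionOnto x₀) u))
    have hr := hrel0 v.1 v.2
    have h1 : T.orthogonalProjectionOnto v.1.1 = u := by rw [← hΨ1, hv]
    have h2 : Tᗮ.orthogonalProjectionOnto (v.1.2.2.2.1 - v.1.2.2.2.2 • x₀ - p₀.2 • v.1.1) =
        -(p₀.2 • fderiv ℝ g (T.orthogonalProjectionOnto x₀) u) := by
      rw [← hΨ2, hv]
    have h3 : Tᗮ.orthogonalProjectionOnto v.1.1 =
        fderiv ℝ g (T.orthogonalProjectionOnto x₀) u := by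
      rw [hr.1, h1]
    have h4 : T.orthogonalProjectionOnto (v.1.2.2.2.1 - v.1.2.2.2.2 • x₀ - p₀.2 • v.1.1) =
        -(p₀.2 • u) := by
      rw [hr.2, h1, h2]
      unfold Lop Gop at hu'
      unfold nrm
      simp only [_root_.sub_apply, _root_.smul_apply, _root_.add_apply, ContinuousLinearMap.id_apply,
        ContinuousLinearMap.comp_apply] at hu'
      rw [map_neg, map_smul]
      rw [sub_eq_zero] at hu'
      rw [← hu']
      module
    have h5 : v.1.2.2.2.1 - v.1.2.2.2.2 • x₀ - p₀.2 • v.1.1 = -(p₀.2 • v.1.1) := by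
      rw [limit_circle_split T (v.1.2.2.2.1 - v.1.2.2.2.2 • x₀ - p₀.2 • v.1.1), h4, h2]
      conv_rhs => rw [limit_circle_split T v.1.1, h1, h3]
      push_cast
      module
    have h6 : v.1.2.2.2.1 = v.1.2.2.2.2 • x₀ := by
      have h7 : v.1.2.2.2.1 - v.1.2.2.2.2 • x₀ = 0 := by
        have h8 : v.1.2.2.2.1 - v.1.2.2.2.2 • x₀ =
          (v.1.2.2.2.1 - v.1.2.2.2.2 • x₀ - p₀.2 • v.1.1) + p₀.2 • v.1.1 := by abel
        rw [h8, h5]
        abel
      exact sub_eq_zero.1 h7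
    obtain ⟨r, hr'⟩ := hfin v.1 v.2 h6
    rw [Submodule.mem_span_singleton]
    refine ⟨r, ?_⟩
    rw [← h1, hr']
    show r • T.orthogonalProjectionOnto e₀ = T.orthogonalProjectionOnto (r • e₀)
    rw [map_smul]
  have h1 := Submodule.finrank_mono hle
  have h2 := finrank_span_le_card (R := ℝ) ({T.orthogonalProjectionOnto e₀} : Set T)
  simp only [Set.toFinset_singleton, Finset.card_singleton] at h2
  omega

end

section
variable {n m : ℕ} {M : Set (Eu n)} {T : Submodule ℝ (Eu n)} {g : T → Tᗮ} {O : Set T} {V : Set (Eu n)}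

theorem limit_circle_pair {F : Type} [NormedAddCommGroup F] [NormedSpace ℝ F]
    [FiniteDimensional ℝ F] (K : Submodule ℝ F) (u v : F) (hu : u ∈ K) (hv : v ∈ K)
    (h : LinearIndependent ℝ ![u, v]) : 2 ≤ Module.finrank ℝ K := by
  have h1 : LinearIndependent ℝ ![(⟨u, hu⟩ : K), (⟨v, hv⟩ : K)] := by
    rw [LinearIndependent.pair_iff] at h ⊢
    intro a b hab
    refine h a b ?_
    have := congrArg Subtype.val hab
    exact this
  simpa using h1.fintype_card_le_finrank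

theorem limit_circle_null (y : Eu n) (p : Eu n × ℝ) (y' : Eu n)
    (h : NRel T g y p.1 p.2 y' 0 0) :
    T.orthogonalProjectionOnto y' ∈ nullK T g y p := by
  show Lop g (T.orthogonalProjectionOnto y) (Tᗮ.orthogonalProjectionOnto (p.1 - p.2 • y)) p.2
    (T.orthogonalProjectionOnto y') = 0
  obtain ⟨h1, h2⟩ := h
  have h3 : (0 : Eu n) - (0 : ℝ) • y - p.2 • y' = -(p.2 • y') := by simp
  rw [h3, map_neg, map_neg, map_smul, map_smul, h1] at h2
  unfold nrm at h2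
  rw [map_neg, map_smul] at h2
  unfold Lop Gop
  simp only [_root_.sub_apply, _root_.smul_apply, _root_.add_apply, ContinuousLinearMap.id_apply,
    ContinuousLinearMap.comp_apply]
  have h4 := neg_injective h2
  rw [smul_add, h4]
  abel

theorem limit_circle_indep (y : Eu n) (p : Eu n × ℝ) (y1 y2 : Eu n)
    (h1 : NRel T g y p.1 p.2 y1 0 0) (h2 : NRel T g y p.1 p.2 y2 0 0)
    (hE : ‖y2‖ = 1) (hD : y1 - ⟪y1, y2⟫_ℝ • y2 ≠ 0) :
    2 ≤ Module.finrank ℝ (nullK T g y p) := by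
  refine limit_circle_pair _ _ _ (limit_circle_null y p y1 h1) (limit_circle_null y p y2 h2) ?_
  rw [LinearIndependent.pair_iff]
  intro a b hab
  have h3 : T.orthogonalProjectionOnto (a • y1 + b • y2) = 0 := by
    rw [map_add, map_smul, map_smul]
    exact hab
  have h4 : Tᗮ.orthogonalProjectionOnto (a • y1 + b • y2) = 0 := by
    have h5 := congrArg (fderiv ℝ g (T.orthogonalProjectionOnto y)) hab
    rw [map_add, map_smul, map_smul, map_zero] at h5
    rw [map_add, map_smul, map_smul, h1.1, h2.1]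
    exact h5
  have h5 := limit_circle_zero T _ h3 h4
  have ha : a = 0 := by
    by_contra ha
    apply hD
    have h6 : y1 = (-(a⁻¹ * b)) • y2 := by
      have h7 : a⁻¹ • (a • y1 + b • y2) = 0 := by rw [h5, smul_zero]
      rw [smul_add, smul_smul, smul_smul, inv_mul_cancel₀ ha, one_smul] at h7
      rw [neg_smul]
      exact eq_neg_of_add_eq_zero_left h7
    rw [h6, inner_smul_left, real_inner_self_eq_norm_sq, hE]
    simp
  rw [ha, zero_smul, zero_add] at h5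
  refine ⟨ha, ?_⟩
  rcases smul_eq_zero.1 h5 with h6 | h6
  · exact h6
  · rw [h6, norm_zero] at hE
    norm_num at hE

theorem limit_circle_dvt (e q : Eu n) (heq : ⟪e, q⟫_ℝ = 0) (s : ℝ) :
    circD e q e ((2 : ℝ) • q) (-((2 * ‖q‖ ^ 2) • e)) s = circE e q s := by
  unfold circD circE
  rw [inner_neg_right, inner_smul_right, real_inner_comm, heq]
  have h1 : (1 + s ^ 2 * ‖q‖ ^ 2) ≠ 0 := by positivity
  have h3 : 2 * s ^ 2 * -(2 * ‖q‖ ^ 2 * 0) * ((1 + s ^ 2 * ‖q‖ ^ 2)⁻¹) ^ 2 = 0 := by ring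
  rw [h3, zero_smul, sub_zero]
  match_scalars
  · field_simp
    ring
  · field_simp

theorem limit_circle_analytic (e q x' e' q' : Eu n) : AnalyticOnNhd ℝ (fun s =>
    circD e q x' e' q' s - ⟪circD e q x' e' q' s, circE e q s⟫_ℝ • circE e q s) univ := by
  have h1 : AnalyticOnNhd ℝ (fun s : ℝ => (1 + s ^ 2 * ‖q‖ ^ 2)⁻¹) univ := by
    intro s _
    refine AnalyticAt.inv (by fun_prop) ?_
    positivity
  have h2 : AnalyticOnNhd ℝ (fun s => circE e q s) univ := by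
    unfold circE
    intro s _
    exact (h1 s (mem_univ s)).fun_smul (by fun_prop)
  have h3 : AnalyticOnNhd ℝ (fun s => circD e q x' e' q' s) univ := by
    unfold circD
    intro s _
    refine (analyticAt_const.fun_add ((h1 s (mem_univ s)).fun_smul (by fun_prop))).fun_sub ?_
    refine AnalyticAt.fun_smul ?_ (by fun_prop)
    exact AnalyticAt.fun_mul (by fun_prop) ((h1 s (mem_univ s)).fun_pow 2)
  intro s hs
  refine (h3 s hs).fun_sub (AnalyticAt.fun_smul ?_ (h2 s hs))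
  have h4 : (fun s => ⟪circD e q x' e' q' s, circE e q s⟫_ℝ) =
      fun s => ∑ i, circD e q x' e' q' s i * circE e q s i := by
    funext s
    rw [PiLp.inner_apply]
    refine Finset.sum_congr rfl fun i _ => ?_
    simp [mul_comm]
  rw [h4]
  have h5 : ∀ (f : ℝ → Eu n), AnalyticAt ℝ f s → ∀ i, AnalyticAt ℝ (fun s => f s i) s := by
    intro f hf i
    have h6 := ((EuclideanSpace.proj i : Eu n →L[ℝ] ℝ).analyticAt (f s)).comp hf
    exact h6
  have h7 := Finset.analyticAt_fun_sum (𝕜 := ℝ) Finset.univ (f := fun i s =>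
    circD e q x' e' q' s i * circE e q s i) (c := s)
    (fun i _ => (h5 _ (h3 s hs) i).fun_mul (h5 _ (h2 s hs) i))
  exact h7

theorem limit_circle_conte (e q : Eu n) : Continuous (circE e q) := by
  unfold circE
  have hc : Continuous fun s : ℝ => (1 + s ^ 2 * ‖q‖ ^ 2)⁻¹ := by
    refine Continuous.inv₀ (by fun_prop) fun s => ?_
    positivity
  exact hc.fun_smul (by fun_prop)

theorem limit_circle_proj0 (e q f0 : Eu n) (f : ℝ → Eu n) (hf : Continuous f) (hf0 : f 0 = f0)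
    (h : ∀ s, s ≠ 0 → f s - ⟪f s, circE e q s⟫_ℝ • circE e q s = 0) (horth : ⟪e, f0⟫_ℝ = 0) :
    f0 = 0 := by
  have h1 := limit_circle_cont0 (fun s => f s - ⟪f s, circE e q s⟫_ℝ • circE e q s)
    (hf.fun_sub (Continuous.fun_smul (hf.inner (limit_circle_conte e q))
      (limit_circle_conte e q))) h
  have h2 : circE e q 0 = e := by
    unfold circE
    simp
  simp only [hf0, h2] at h1
  rw [real_inner_comm, horth, zero_smul, sub_zero] at h1
  exact h1

theorem limit_circle_nonpar (e q x' e' q' : Eu n) (hx : ⟪x', e⟫_ℝ = 0)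
    (he' : ⟪e, e'⟫_ℝ = 0) (hq' : ⟪e', q⟫_ℝ + ⟪e, q'⟫_ℝ = 0)
    (h : ∀ s, circD e q x' e' q' s - ⟪circD e q x' e' q' s, circE e q s⟫_ℝ • circE e q s = 0) :
    x' = 0 ∧ e' = 0 ∧ q' = 0 := by
  have h2 : circE e q 0 = e := by
    unfold circE
    simp
  have hx0 : x' = 0 := by
    have h1 := h 0
    rw [limit_circle_d0, h2, hx, zero_smul, sub_zero] at h1
    exact h1
  have hc : Continuous fun s : ℝ => (1 + s ^ 2 * ‖q‖ ^ 2)⁻¹ := by
    refine Continuous.inv₀ (by fun_prop) fun s => ?_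
    positivity
  have hmul : ∀ (s : ℝ) (f : Eu n), s ≠ 0 →
      (s • f) - ⟪s • f, circE e q s⟫_ℝ • circE e q s = 0 →
      f - ⟪f, circE e q s⟫_ℝ • circE e q s = 0 := by
    intro s f hs hf
    rw [inner_smul_left] at hf
    have h3 : s • (f - ⟪f, circE e q s⟫_ℝ • circE e q s) = 0 := by
      rw [smul_sub, smul_smul]
      exact hf
    rcases smul_eq_zero.1 h3 with h4 | h4
    · exact absurd h4 hs
    · exact h4
  have he0 : e' = 0 := by
    refine limit_circle_proj0 e q e' (fun s => (1 + s ^ 2 * ‖q‖ ^ 2)⁻¹ • (e' + s • q') -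
      (2 * s * ⟪q, q'⟫_ℝ * ((1 + s ^ 2 * ‖q‖ ^ 2)⁻¹) ^ 2) • (s • e + s ^ 2 • q)) ?_ ?_ ?_ he'
    · refine (hc.fun_smul (by fun_prop)).fun_sub (Continuous.fun_smul ?_ (by fun_prop))
      exact Continuous.fun_mul (by fun_prop) (hc.fun_pow 2)
    · simp
    · intro s hs
      refine hmul s _ hs ?_
      have h3 := h s
      have h4 : circD e q x' e' q' s = s • ((1 + s ^ 2 * ‖q‖ ^ 2)⁻¹ • (e' + s • q') -
          (2 * s * ⟪q, q'⟫_ℝ * ((1 + s ^ 2 * ‖q‖ ^ 2)⁻¹) ^ 2) • (s • e + s ^ 2 • q)) := by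
        unfold circD
        rw [hx0]
        module
      rw [h4] at h3
      exact h3
  have hq0 : q' = 0 := by
    rw [he0, inner_zero_left, zero_add] at hq'
    refine limit_circle_proj0 e q q' (fun s => (1 + s ^ 2 * ‖q‖ ^ 2)⁻¹ • q' -
      (2 * ⟪q, q'⟫_ℝ * ((1 + s ^ 2 * ‖q‖ ^ 2)⁻¹) ^ 2) • (s • e + s ^ 2 • q)) ?_ ?_ ?_ hq'
    · refine (hc.fun_smul (by fun_prop)).fun_sub (Continuous.fun_smul ?_ (by fun_prop))
      exact Continuous.fun_mul (by fun_prop) (hc.fun_pow 2)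
    · simp
    · intro s hs
      refine hmul s _ hs (hmul s _ hs ?_)
      have h3 := h s
      have h4 : circD e q x' e' q' s = s • (s • ((1 + s ^ 2 * ‖q‖ ^ 2)⁻¹ • q' -
          (2 * ⟪q, q'⟫_ℝ * ((1 + s ^ 2 * ‖q‖ ^ 2)⁻¹) ^ 2) • (s • e + s ^ 2 • q))) := by
        unfold circD
        rw [hx0, he0]
        module
      rw [h4] at h3
      exact h3
  exact ⟨hx0, he0, hq0⟩

end




section
variable {n m : ℕ} {M : Set (Eu n)} {T : Submodule ℝ (Eu n)} {g : T → Tᗮ} {O : Set T} {V : Set (Eu n)}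

theorem limit_circle_hnf (e₀ q₀ a b c : Eu n)
    (hnp : ¬ ∀ s, circD e₀ q₀ a b c s -
      ⟪circD e₀ q₀ a b c s, circE e₀ q₀ s⟫_ℝ • circE e₀ q₀ s = 0) (s : ℝ) :
    ∀ᶠ s' in 𝓝[≠] s, circD e₀ q₀ a b c s' -
      ⟪circD e₀ q₀ a b c s', circE e₀ q₀ s'⟫_ℝ • circE e₀ q₀ s' ≠ 0 := by
  by_contra hcon
  apply hnp
  have hfr : ∃ᶠ s' in 𝓝[≠] s, circD e₀ q₀ a b c s' -
      ⟪circD e₀ q₀ a b c s', circE e₀ q₀ s'⟫_ℝ • circE e₀ q₀ s' = 0 := by
    intro h1
    exact hcon h1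
  have h2 := (limit_circle_analytic e₀ q₀ a b c).eqOn_zero_of_preconnected_of_frequently_eq_zero
    isPreconnected_univ (mem_univ s) hfr
  intro s'
  exact h2 (mem_univ s')

theorem limit_circle_cl {T' : Submodule ℝ (Eu n)} {g' : T' → T'ᗮ} {O' : Set T'} {V' : Set (Eu n)}
    (hc' : IsChart ∞ m M T' g' O' V') (x₀ e₀ q₀ : Eu n) (p₀ : Eu n × ℝ) (s : ℝ)
    (hV' : circ x₀ e₀ q₀ s ∈ V') :
    ContinuousAt (fun s' => Lop g' (T'.orthogonalProjectionOnto (circ x₀ e₀ q₀ s'))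
      (T'ᗮ.orthogonalProjectionOnto (p₀.1 - p₀.2 • circ x₀ e₀ q₀ s')) p₀.2) s := by
  have hy := limit_circle_conty x₀ e₀ q₀
  have hP : Tendsto (fun s' => T'.orthogonalProjectionOnto (circ x₀ e₀ q₀ s')) (𝓝 s)
      (𝓝 (T'.orthogonalProjectionOnto (circ x₀ e₀ q₀ s))) :=
    (T'.orthogonalProjectionOnto.continuous.comp hy).tendsto s
  have hQ : Tendsto (fun s' => T'ᗮ.orthogonalProjectionOnto (p₀.1 - p₀.2 • circ x₀ e₀ q₀ s')) (𝓝 s)
      (𝓝 (T'ᗮ.orthogonalProjectionOnto (p₀.1 - p₀.2 • circ x₀ e₀ q₀ s))) :=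
    (T'ᗮ.orthogonalProjectionOnto.continuous.comp
      (continuous_const.sub (hy.const_smul p₀.2))).tendsto s
  exact limit_circle_tlop hc'.openO hc'.smooth (hc'.mem _ hV').1 hP hQ p₀.2

theorem limit_circle_fin {T' : Submodule ℝ (Eu n)} {g' : T' → T'ᗮ} {O' : Set T'} {V' : Set (Eu n)}
    (hc' : IsChart ∞ m M T' g' O' V') (x₀ e₀ q₀ : Eu n) (p₀ : Eu n × ℝ) (s : ℝ)
    (hV' : circ x₀ e₀ q₀ s ∈ V')
    (hnu : ∀ᶠ s' in 𝓝[≠] s, 2 ≤ Module.finrank ℝ (nullK T' g' (circ x₀ e₀ q₀ s') p₀)) :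
    2 ≤ Module.finrank ℝ (nullK T' g' (circ x₀ e₀ q₀ s) p₀) := by
  have hcont := limit_circle_cl hc' x₀ e₀ q₀ p₀ s hV'
  exact limit_circle_ker (fun s' => Lop g' (T'.orthogonalProjectionOnto (circ x₀ e₀ q₀ s'))
      (T'ᗮ.orthogonalProjectionOnto (p₀.1 - p₀.2 • circ x₀ e₀ q₀ s')) p₀.2) s hcont hnu.frequently

end

/-! PLAIN PROOF OF THE TARGET(S)

y(s) = circ x0 e0 q0 s.  (1) circ (xpt z_i)(e_i z_i)(qf z_i) s is critical for fam (wpt z_i, ρ_i z_i) (leaf_cont at z = z_i, for s < 0 use -e_i), so by crit_closed y(s) is critical for fam p0.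
(2) Let E = (R^n)^4 × ℝ, and V_i ⊆ E the range of ζ ↦ (D xpt ζ, D e_i ζ, D qf ζ, D wpt ζ, D ρ_i ζ) at z_i, of dimension n by leaf_rel (last clause) (dim T × Tᗮ = n).  Choose bases of V_i orthonormal for a
Euclidean structure on E (or: unit vectors with uniform independence) and pass to a convergent subsequence: a limit subspace V* of dimension n such that every v ∈ V* is a limit of v_i ∈ V_i along
the subsequence.  By leaf_rel and continuity, for each v = (x',e',q',w',ρ') ∈ V*, each s and each chart (T',g',O',V') at y(s): with y' = circD e0 q0 x' e' q' s,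
NRel T' g' (y s) w0 ρ0 y' w' ρ' (p0 = (w0,ρ0); NRel is a closed condition, Dg', Hop, nrm are continuous near P'y(s)), <w', y(s) - x0> = ρ'(|y(s)|² - |x0|²)/2, <e0,e'> = 0, <e',q0> + <e0,q'> = 0.
Also vt = (e0, 2q0, -2|q0|²e0, 0, 0) ∈ V* (take ζ = Xf: leaf_id, leaf_dq, definition of qf).
(3) Let V0 = {v ∈ V* : w' = 0, ρ' = 0}.  Claim: V0 is not contained in R vt.  Otherwise consider v ↦ (P x', Q ξ'), ξ' = w' - ρ'x0 - ρ0 x' in the chart T at x0 (s = 0, circD at s = 0 is x').  If both vanish then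
x' = 0 and ξ' = 0 by NRel, so w' = ρ' x0 and (second relation with s = 1, y(1) ≠ x0) ρ'(<x0,y-x0> - (|y|²-|x0|²)/2) = -ρ'|y - x0|²/2 = 0, so ρ' = 0, w' = 0, v ∈ V0 ⊆ R vt, and x' = 0 gives v = 0.  So the map is injective,
hence bijective onto T × Tᗮ (dimension n).  If u ∈ nullK T g x0 p0 choose v with P x' = u, Q ξ' = -ρ0 Dg u; NRel gives x' = u + Dg u, P ξ' = -(Hop u - ρ0 nrm(Dg u)) = -ρ0 u (as Lop u = 0), so ξ' = -ρ0 x', w' = ρ' x0, so
again w' = 0, ρ' = 0, v ∈ R vt, u ∈ R P e0.  So the nullity at x0 is ≤ 1, a contradiction.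
(4) Take v ∈ V0 not in R vt, y'(s) = circD e0 q0 x' e' q' s.  NRel with w' = 0, ρ' = 0: Q'y' = Dg'P'y', and -ρ0 P'y' = -(Hop P'y' - ρ0 nrm(Q'y')), i.e. P'y'(s) ∈ nullK T' g' (y s) p0.  The same for vt, for which circD is
circE e0 q0 s.  Both vectors are of the form u + Dg'u, so if y'(s) and circE(s) are linearly independent then so are P'y', P'circE and the nullity at y(s) is ≥ 2.
(5) y'(s) is parallel to circE(s) for at most finitely many s: otherwise the polynomial identities (multiply y'(s) by (1+s²|q0|²)², circE by 1+s²|q0|²; all 2x2 minors of the two vectors are polynomials in s) hold for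
all s: y'(s) = λ(s) circE(s) for all s.  s = 0: x' = λ(0) e0; subtracting λ(0) vt from v we may assume x' = 0.  Then near s = 0: y'(s) = s e' + s² q' + O(s³), circE = e0 + 2s q0 + O(s²).  So e' ∥ e0, and
<e0,e'> = 0 gives e' = 0; then q' ∥ e0 and <e',q0> + <e0,q'> = 0 gives q' = 0.  So v = 0, contradicting v ∉ R vt.
(6) For the remaining s: take s_j → s with nullity ≥ 2 at y(s_j) in the chart T' at y(s) (y(s_j) ∈ V' for large j); the operators Lop g' (P'y(s_j))(..) ρ0 converge and limits of operators with kernel of dimension ≥ 2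
have kernel of dimension ≥ 2 (symmetric or not: rank is lower semicontinuous).
-/

section
variable {n m : ℕ} {M : Set (Eu n)} {T : Submodule ℝ (Eu n)} {g : T → Tᗮ} {O : Set T} {V : Set (Eu n)}

/-- TARGET -/
theorem limit_circle (hM : IsSubmanifold ∞ m M) (hcpt : IsCompact M) (hD : IsDupin M)
    (hc : IsChart ∞ m M T g O V) (x₀ : Eu n) (hx : x₀ ∈ M) (hxV : x₀ ∈ V) (p₀ : Eu n × ℝ)
    (hcr : x₀ ∈ critSet M (fam p₀)) (hnull : 2 ≤ Module.finrank ℝ (nullK T g x₀ p₀))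
    (hb : p₀.1 ≠ p₀.2 • x₀) (e₀ q₀ : Eu n)
    (N : ℕ → Set (T × Tᗮ)) (ρ : ℕ → T × Tᗮ → ℝ) (e : ℕ → T × Tᗮ → Eu n) (z : ℕ → T × Tᗮ)
    (hL : ∀ i, LeafPre T g {a | a ∈ O ∧ cmap T g a ∈ V} (N i) (ρ i) (e i)) (hz : ∀ i, z i ∈ N i)
    (hx' : Tendsto (fun i => xpt T g (z i)) atTop (𝓝 x₀))
    (hw' : Tendsto (fun i => (wpt T g (ρ i) (z i), ρ i (z i))) atTop (𝓝 p₀))
    (he' : Tendsto (fun i => e i (z i)) atTop (𝓝 e₀))
    (hq' : Tendsto (fun i => qf T (ρ i) (e i) (z i)) atTop (𝓝 q₀)) (s : ℝ) :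
    circ x₀ e₀ q₀ s ∈ critSet M (fam p₀) ∧
    ∀ (T' : Submodule ℝ (Eu n)) (g' : T' → T'ᗮ) (O' : Set T') (V' : Set (Eu n)),
      IsChart ∞ m M T' g' O' V' → circ x₀ e₀ q₀ s ∈ V' →
      2 ≤ Module.finrank ℝ (nullK T' g' (circ x₀ e₀ q₀ s) p₀) := by
  have hcl : IsClosed M := hcpt.isClosed
  refine ⟨limit_circle_crit hM hcl hD hc x₀ p₀ e₀ q₀ N ρ e z hL hz hx' hw' he' hq' s, ?_⟩
  obtain ⟨he1, heq, W, hW, hvt, hrel⟩ :=
    limit_circle_W hM hcpt hD hc x₀ p₀ e₀ q₀ N ρ e z hL hz hx' hw' he' hq'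
  obtain ⟨v, hv, hv1, hv2, hv0, hvx⟩ :=
    limit_circle_V0 hc x₀ hxV p₀ hnull e₀ q₀ he1 heq W hW hvt hrel
  obtain ⟨hr1, hr2, hr3, hr4⟩ := hrel v hv
  have ht4 := (hrel _ hvt).2.2.2
  -- the component of the variation orthogonal to the circle
  have hnp : ¬ ∀ s, circD e₀ q₀ v.1 v.2.1 v.2.2.1 s -
      ⟪circD e₀ q₀ v.1 v.2.1 v.2.2.1 s, circE e₀ q₀ s⟫_ℝ • circE e₀ q₀ s = 0 := by
    intro hall
    obtain ⟨h1, h2, h3⟩ := limit_circle_nonpar e₀ q₀ v.1 v.2.1 v.2.2.1 hvx hr1 hr2 hall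
    apply hv0
    refine Prod.ext h1 (Prod.ext h2 (Prod.ext h3 (Prod.ext hv1 hv2)))
  have hnf := limit_circle_hnf e₀ q₀ v.1 v.2.1 v.2.2.1 hnp
  intro T' g' O' V' hc' hV'
  have hy := limit_circle_conty x₀ e₀ q₀
  have hnu : ∀ᶠ s' in 𝓝[≠] s, 2 ≤ Module.finrank ℝ (nullK T' g' (circ x₀ e₀ q₀ s') p₀) := by
    have h1 : ∀ᶠ s' in 𝓝[≠] s, circ x₀ e₀ q₀ s' ∈ V' :=
      ((hy.tendsto s).eventually (hc'.openV.mem_nhds hV')).filter_mono nhdsWithin_le_nhds
    filter_upwards [h1, hnf s] with s' hs1 hs2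
    have h3 := hr4 s' T' g' O' V' hc' hs1
    rw [hv1, hv2] at h3
    have h4 := ht4 s' T' g' O' V' hc' hs1
    have h5 : NRel T' g' (circ x₀ e₀ q₀ s') p₀.1 p₀.2 (circE e₀ q₀ s') 0 0 := by
      rw [← limit_circle_dvt e₀ q₀ heq s']
      exact h4
    exact limit_circle_indep _ p₀ _ _ h3 h5 (circ_group x₀ e₀ q₀ he1 heq s').1 hs2
  exact limit_circle_fin hc' x₀ e₀ q₀ p₀ s hV' hnu

end

end Pool.Agent.H469
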