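import Pool.Agent.Helper469_Dupin.DefsD
import Pool.Agent.Helper469_Dupin.Jbcirc
import Pool.Agent.Helper469_Dupin.Jbfull
import Pool.Agent.Helper469_Dupin.Jcritiff
import Pool.Agent.Helper469_Dupin.Jbrcrit
import Pool.Agent.Helper469_Dupin.Jfamd

set_option autoImplicit false

open Set Filter Topology MeasureTheory
open scoped ContDiff InnerProductSpace

namespace Pool.Agent.H469


/-! PLAIN PROOF OF THE TARGET(S)

If nullK = 0: ψ = constant P x0 (fderiv of a map from the zero space; v = 0), D(fam p0∘cmap)(P x0) = 0 by br_crit.  If the dimension is one: nullK = R k0, k0 ≠ 0.  b = Q(p0.1 - p0.2 x0) ≠ 0 (crit_iff and hb).  full_circle (hp from crit_iff) gives e, q with P e = r k0 and circ x0 e q s critical for all s.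
r ≠ 0: the curve is in M, so e = P e + Dg(P e) ≠ 0.  Let λ : nullK → ℝ be the linear functional with v = λ(v) P e (v ∈ nullK = R P e) and ψ(v) = P(circ x0 e q (λ v)), smooth, ψ(0) = P x0, Dψ(0)v = λ(v) P e = v (circ_deriv at 0), and for small v circ ∈ V is critical so br_crit gives the last claim.
-/

section
variable {n m : ℕ} {M : Set (Eu n)} {T : Submodule ℝ (Eu n)} {g : T → Tᗮ} {O : Set T} {V : Set (Eu n)}

theorem nullity_small_famSmooth {n : ℕ} (p : Eu n × ℝ) : ContDiff ℝ ∞ (fam p) := by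
  unfold fam
  have h1 : ContDiff ℝ ∞ (fun x : Eu n => ⟪p.1, x⟫_ℝ) := contDiff_const.inner ℝ contDiff_id
  have h2 : ContDiff ℝ ∞ (fun x : Eu n => ‖x‖ ^ 2) := contDiff_id.norm_sq ℝ
  exact h1.sub ((contDiff_const.mul h2).div_const 2)

theorem nullity_small_circSmooth {n : ℕ} (x e q : Eu n) : ContDiff ℝ ∞ (circ x e q) := by
  unfold circ
  have h0 : ∀ s : ℝ, 1 + s ^ 2 * ‖q‖ ^ 2 ≠ 0 := fun s => by positivity
  have h1 : ContDiff ℝ ∞ (fun s : ℝ => 1 + s ^ 2 * ‖q‖ ^ 2) := by fun_prop
  have h2 : ContDiff ℝ ∞ (fun s : ℝ => (1 + s ^ 2 * ‖q‖ ^ 2)⁻¹) := h1.inv h0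
  have h3 : ContDiff ℝ ∞ (fun s : ℝ => s • e + s ^ 2 • q) := by fun_prop
  exact contDiff_const.add (h2.smul h3)

theorem nullity_small_circ0 {n : ℕ} (x e q : Eu n) : circ x e q 0 = x := by
  unfold circ; simp

theorem nullity_small_circD {n : ℕ} (x e q : Eu n) : HasDerivAt (circ x e q) e 0 := by
  have h := (circ_deriv x e q 0).1
  have h2 : ((1 + (0 : ℝ) ^ 2 * ‖q‖ ^ 2)⁻¹ • circE e q 0) = e := by
    unfold circE; simp
  rwa [h2] at h

/-- TARGET -/
theorem nullity_small (hM : IsSubmanifold ∞ m M) (hcpt : IsCompact M) (hD : IsDupin M)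
    (hc : IsChart ∞ m M T g O V) (x₀ : Eu n) (hx : x₀ ∈ M) (hxV : x₀ ∈ V) (p₀ : Eu n × ℝ)
    (hcr : x₀ ∈ critSet M (fam p₀)) (hnull : Module.finrank ℝ (nullK T g x₀ p₀) ≤ 1)
    (hb : p₀.1 ≠ p₀.2 • x₀) :
    ∃ ψ : nullK T g x₀ p₀ → T, ContDiffAt ℝ ∞ ψ 0 ∧ ψ 0 = T.orthogonalProjectionOnto x₀ ∧
      (∀ v, fderiv ℝ ψ 0 v = v) ∧ ∀ᶠ e in 𝓝 0, fderiv ℝ (fam p₀ ∘ cmap T g) (ψ e) = 0 := by
  have hcr0 := (br_crit hc x₀ hx hxV (fam p₀) (nullity_small_famSmooth p₀)).1 hcr
  rcases Nat.lt_or_ge (Module.finrank ℝ (nullK T g x₀ p₀)) 1 with h0 | h1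
  · -- trivial null space
    have hz : Module.finrank ℝ (nullK T g x₀ p₀) = 0 := by omega
    have hsub : Subsingleton (nullK T g x₀ p₀) := Module.finrank_zero_iff.1 hz
    refine ⟨fun _ => T.orthogonalProjectionOnto x₀, contDiffAt_const, rfl, ?_, ?_⟩
    · intro v
      have : v = 0 := Subsingleton.elim _ _
      subst this
      simp
    · exact Eventually.of_forall fun _ => hcr0
  · have hone : Module.finrank ℝ (nullK T g x₀ p₀) = 1 := le_antisymm hnull h1
    obtain ⟨k, hk0, hk⟩ := finrank_eq_one_iff'.1 hone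
    obtain ⟨b, hpb⟩ := (crit_iff hc x₀ hx hxV p₀).1 hcr
    have hQx : Tᗮ.orthogonalProjectionOnto x₀ = g (T.orthogonalProjectionOnto x₀) :=
      ((hc.mem x₀ hxV).2).1 hx
    have hPO : T.orthogonalProjectionOnto x₀ ∈ O := (hc.mem x₀ hxV).1
    have hxdec : x₀ = ((T.orthogonalProjectionOnto x₀ : T) : Eu n) +
        ((g (T.orthogonalProjectionOnto x₀) : Tᗮ) : Eu n) := by
      rw [← hQx]
      exact (Submodule.starProjection_add_starProjection_orthogonal x₀).symm
    have hp1 : p₀.1 = ((p₀.2 • T.orthogonalProjectionOnto x₀ -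
        nrm g (T.orthogonalProjectionOnto x₀) b : T) : Eu n) +
        ((p₀.2 • g (T.orthogonalProjectionOnto x₀) + b : Tᗮ) : Eu n) := by
      have := congrArg Prod.fst hpb
      exact this
    have hbQ : Tᗮ.orthogonalProjectionOnto (p₀.1 - p₀.2 • x₀) = b := by
      rw [map_sub, map_smul, hQx, hp1, map_add,
        Submodule.orthogonalProjectionOnto_orthogonal_apply_eq_zero (Submodule.coe_mem _),
        Submodule.orthogonalProjectionOnto_mem_subspace_eq_self, zero_add, add_sub_cancel_left]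
    have hb0 : b ≠ 0 := by
      rintro rfl
      apply hb
      have hn0 : nrm g (T.orthogonalProjectionOnto x₀) (0 : Tᗮ) = 0 := by
        unfold nrm; exact map_zero _
      rw [hp1, hn0, sub_zero, add_zero]
      conv_rhs => rw [hxdec]
      rw [Submodule.coe_smul, Submodule.coe_smul, smul_add]
    have hker : ∀ u, Lop g (T.orthogonalProjectionOnto x₀) b p₀.2 u = 0 ↔
        ∃ r : ℝ, u = r • (k : T) := by
      intro u
      have hmem : u ∈ nullK T g x₀ p₀ ↔ Lop g (T.orthogonalProjectionOnto x₀) b p₀.2 u = 0 := by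
        unfold nullK
        rw [hbQ, LinearMap.mem_ker]
        rfl
      rw [← hmem]
      constructor
      · intro hu
        obtain ⟨c, hcu⟩ := hk ⟨u, hu⟩
        exact ⟨c, by have := congrArg Subtype.val hcu; exact this.symm⟩
      · rintro ⟨r, rfl⟩
        exact Submodule.smul_mem _ r k.2
    have hk0' : (k : T) ≠ 0 := fun h => hk0 (Subtype.ext h)
    obtain ⟨e, q, hne, -, -, ⟨r, hr⟩, hcirc⟩ :=
      full_circle hM hcpt hD hc x₀ hx hxV p₀ b hpb hb0 k hk0' hker
    have hcont : Continuous (circ x₀ e q) := (nullity_small_circSmooth x₀ e q).continuous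
    have hev : ∀ᶠ s in 𝓝 (0 : ℝ), circ x₀ e q s ∈ V := by
      have : Tendsto (circ x₀ e q) (𝓝 0) (𝓝 x₀) := by
        have h := hcont.tendsto 0
        rwa [nullity_small_circ0] at h
      exact this.eventually (hc.openV.mem_nhds hxV)
    have hM' : ∀ s, circ x₀ e q s ∈ M := fun s => (hcirc s).1.1
    have hgd : DifferentiableAt ℝ g (T.orthogonalProjectionOnto x₀) :=
      ((hc.smooth.contDiffAt (hc.openO.mem_nhds hPO)).differentiableAt (by simp))
    have hdc := nullity_small_circD x₀ e q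
    have hPd : HasDerivAt (fun s => T.orthogonalProjectionOnto (circ x₀ e q s))
        (T.orthogonalProjectionOnto e) 0 :=
      (T.orthogonalProjectionOnto.hasFDerivAt.comp_hasDerivAt (0 : ℝ) hdc)
    have hQd : HasDerivAt (fun s => Tᗮ.orthogonalProjectionOnto (circ x₀ e q s))
        (Tᗮ.orthogonalProjectionOnto e) 0 :=
      (Tᗮ.orthogonalProjectionOnto.hasFDerivAt.comp_hasDerivAt (0 : ℝ) hdc)
    have hgd' : HasFDerivAt g (fderiv ℝ g (T.orthogonalProjectionOnto x₀))
        (T.orthogonalProjectionOnto (circ x₀ e q 0)) := by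
      rw [nullity_small_circ0]; exact hgd.hasFDerivAt
    have hgP := hgd'.comp_hasDerivAt (0 : ℝ) hPd
    have heq : (fun s => Tᗮ.orthogonalProjectionOnto (circ x₀ e q s)) =ᶠ[𝓝 0]
        (g ∘ fun s => T.orthogonalProjectionOnto (circ x₀ e q s)) := by
      filter_upwards [hev] with s hs
      exact ((hc.mem _ hs).2).1 (hM' s)
    have hQe : Tᗮ.orthogonalProjectionOnto e =
        fderiv ℝ g (T.orthogonalProjectionOnto x₀) (T.orthogonalProjectionOnto e) :=
      hQd.unique (hgP.congr_of_eventuallyEq heq)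
    have hPe : T.orthogonalProjectionOnto e ≠ 0 := by
      intro h
      rw [h, map_zero] at hQe
      have := Submodule.starProjection_add_starProjection_orthogonal (K := T) e
      have h2 : ((T.orthogonalProjectionOnto e : T) : Eu n) +
          ((Tᗮ.orthogonalProjectionOnto e : Tᗮ) : Eu n) = e := this
      rw [h, hQe] at h2
      have h3 : e = 0 := by rw [← h2]; simp
      rw [h3] at hne
      simp at hne
    have hr0 : r ≠ 0 := by
      rintro rfl
      apply hPe; rw [hr, zero_smul]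
    have hPe2 : ‖T.orthogonalProjectionOnto e‖ ^ 2 ≠ 0 := by
      have := norm_pos_iff.2 hPe
      positivity
    let lam : nullK T g x₀ p₀ →L[ℝ] ℝ :=
      (‖T.orthogonalProjectionOnto e‖ ^ 2)⁻¹ •
        ((innerSL ℝ (T.orthogonalProjectionOnto e)).comp (nullK T g x₀ p₀).subtypeL)
    have hlam : ∀ v : nullK T g x₀ p₀, (v : T) = lam v • T.orthogonalProjectionOnto e := by
      intro v
      obtain ⟨c, hcv⟩ := hk v
      have h1 : (v : T) = (c / r) • T.orthogonalProjectionOnto e := by
        rw [hr, smul_smul, div_mul_cancel₀ _ hr0, ← hcv]; rfl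
      have h2 : lam v = c / r := by
        show (‖T.orthogonalProjectionOnto e‖ ^ 2)⁻¹ *
          ⟪T.orthogonalProjectionOnto e, (v : T)⟫_ℝ = c / r
        rw [h1, real_inner_smul_right, real_inner_self_eq_norm_sq]
        field_simp
      rw [h2]; exact h1
    refine ⟨fun v => T.orthogonalProjectionOnto (circ x₀ e q (lam v)), ?_, ?_, ?_, ?_⟩
    · have hlc : ContDiff ℝ ∞ (fun v : nullK T g x₀ p₀ => lam v) := by fun_prop
      have h4 : ContDiff ℝ ∞ (fun s : ℝ => T.orthogonalProjectionOnto (circ x₀ e q s)) :=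
        T.orthogonalProjectionOnto.contDiff.comp (nullity_small_circSmooth x₀ e q)
      have h5 : ContDiff ℝ ∞ (fun v : nullK T g x₀ p₀ =>
          T.orthogonalProjectionOnto (circ x₀ e q (lam v))) := h4.comp hlc
      exact h5.contDiffAt
    · simp only [map_zero, nullity_small_circ0]
    · intro v
      have hl : HasFDerivAt (fun v => lam v) lam (0 : nullK T g x₀ p₀) := lam.hasFDerivAt
      have hPd' : HasFDerivAt (fun s => T.orthogonalProjectionOnto (circ x₀ e q s))
          (ContinuousLinearMap.toSpanSingleton ℝ (T.orthogonalProjectionOnto e)) (lam 0) := by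
        rw [map_zero]; exact hPd.hasFDerivAt
      have hcomp : HasFDerivAt ((fun s => T.orthogonalProjectionOnto (circ x₀ e q s)) ∘
          (fun v : nullK T g x₀ p₀ => lam v))
          ((ContinuousLinearMap.toSpanSingleton ℝ (T.orthogonalProjectionOnto e)).comp lam) 0 :=
        HasFDerivAt.comp (0 : nullK T g x₀ p₀) hPd' hl
      have := hcomp.fderiv
      have h2 : fderiv ℝ (fun v => T.orthogonalProjectionOnto (circ x₀ e q (lam v))) 0 v =
          lam v • T.orthogonalProjectionOnto e := by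
        have h3 : (fun v => T.orthogonalProjectionOnto (circ x₀ e q (lam v))) =
          ((fun s => T.orthogonalProjectionOnto (circ x₀ e q s)) ∘ fun v => lam v) := rfl
        rw [h3, this]; rfl
      rw [h2, ← hlam]
    · have ht : Tendsto (fun v : nullK T g x₀ p₀ => lam v) (𝓝 0) (𝓝 0) := by
        have := lam.continuous.tendsto 0
        rwa [map_zero] at this
      filter_upwards [ht.eventually hev] with v hv
      exact (br_crit hc _ (hM' _) hv (fam p₀) (nullity_small_famSmooth p₀)).1 (hcirc _).1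

end

end Pool.Agent.H469
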