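import Mathlib

set_option autoImplicit false

open Set Filter Topology MeasureTheory
open scoped ContDiff InnerProductSpace

namespace Pool.Agent.H469


/-! PLAIN PROOF OF THE TARGET(S)

Suppose A is not a neighbourhood of 0.  Then there is u ∉ A with |u| < r/2.  Let a be a nearest point to u in the nonempty compact set A ∩ closedBall 0 r,
d = |a - u| > 0 (u ∉ A, but if u ∉ A then a ≠ u), d ≤ |0 - u| < r/2, |a| ≤ |u| + d < r.  Every point v with |v - u| < d has |v| < r, so v ∉ A.  Apply h at a.  If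
A ∈ 𝓝 a: points of the open ball B(u,d) arbitrarily near a are in A, a contradiction.  Otherwise take ν = u - a ≠ 0 and the curve c: |c(t) - u|² = d² - 2t <c'(0), ν> + o(t), so for
small t of the sign of <c'(0),ν> the point c(t) ∈ A satisfies |c(t) - u| < d, a contradiction.
-/

section

/-- TARGET -/
theorem touching {K : Type} [NormedAddCommGroup K] [InnerProductSpace ℝ K] [FiniteDimensional ℝ K]
    (A : Set K) (r : ℝ) (hr : 0 < r) (h0 : (0 : K) ∈ A) (hcl : IsClosed (A ∩ Metric.closedBall 0 r))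
    (h : ∀ a ∈ A, ‖a‖ < r → A ∈ 𝓝 a ∨ ∀ ν : K, ν ≠ 0 → ∃ c : ℝ → K, c 0 = a ∧
      (∀ᶠ t in 𝓝 (0 : ℝ), c t ∈ A) ∧ DifferentiableAt ℝ c 0 ∧ ⟪deriv c 0, ν⟫_ℝ ≠ 0) :
    A ∈ 𝓝 (0 : K) := by
  by_contra hA
  have hex : ∃ u : K, ‖u‖ < r / 2 ∧ u ∉ A := by
    by_contra hcon
    push Not at hcon
    apply hA
    refine Filter.mem_of_superset (Metric.ball_mem_nhds (0 : K) (half_pos hr)) ?_
    intro u hu
    exact hcon u (by simpa using hu)
  obtain ⟨u, hur, huA⟩ := hex
  have hcomp : IsCompact (A ∩ Metric.closedBall (0 : K) r) := by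
    refine (isCompact_closedBall (0 : K) r).of_isClosed_subset hcl Set.inter_subset_right
  have hne : (A ∩ Metric.closedBall (0 : K) r).Nonempty := ⟨0, h0, by simpa using hr.le⟩
  obtain ⟨a, haS, hda⟩ := hcomp.exists_infDist_eq_dist hne u
  have hle : ∀ v ∈ A ∩ Metric.closedBall (0 : K) r, dist u a ≤ dist u v := by
    intro v hv
    rw [← hda]
    exact Metric.infDist_le_dist_of_mem hv
  have h0S : (0 : K) ∈ A ∩ Metric.closedBall (0 : K) r := ⟨h0, by simpa using hr.le⟩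
  have hd0 : ‖u - a‖ ≤ ‖u‖ := by
    have := hle 0 h0S
    simpa [dist_eq_norm] using this
  have hune : u ≠ a := fun he => huA (he ▸ haS.1)
  have hdpos : 0 < ‖u - a‖ := norm_pos_iff.mpr (sub_ne_zero.mpr hune)
  have har : ‖a‖ < r := by
    have h1 : ‖a‖ ≤ ‖u‖ + ‖u - a‖ := by
      have h2 : a = u - (u - a) := by abel
      calc ‖a‖ = ‖u - (u - a)‖ := by rw [← h2]
        _ ≤ ‖u‖ + ‖u - a‖ := norm_sub_le _ _
    linarith
  have hout : ∀ v ∈ A, ‖u - a‖ ≤ ‖v - u‖ := by
    intro v hv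
    by_contra hlt
    push Not at hlt
    have hvr : ‖v‖ ≤ r := by
      have h1 : ‖v‖ ≤ ‖v - u‖ + ‖u‖ := by
        calc ‖v‖ = ‖(v - u) + u‖ := by rw [sub_add_cancel]
          _ ≤ ‖v - u‖ + ‖u‖ := norm_add_le _ _
      linarith
    have h3 := hle v ⟨hv, by simpa using hvr⟩
    rw [dist_eq_norm, dist_eq_norm, norm_sub_rev u v] at h3
    linarith
  rcases h a haS.1 har with hnb | hcurve
  · have hcont : Tendsto (fun t : ℝ => a + t • (u - a)) (𝓝 0) (𝓝 a) := by
      have : Continuous (fun t : ℝ => a + t • (u - a)) := by fun_prop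
      have h1 := this.tendsto 0
      simpa using h1
    have hev : ∀ᶠ t in 𝓝 (0 : ℝ), a + t • (u - a) ∈ A := hcont.eventually hnb
    have hev2 : ∀ᶠ t in 𝓝[>] (0 : ℝ), a + t • (u - a) ∈ A := hev.filter_mono nhdsWithin_le_nhds
    have hev3 : ∀ᶠ t in 𝓝[>] (0 : ℝ), t ∈ Set.Ioo (0 : ℝ) 1 := Ioo_mem_nhdsGT one_pos
    obtain ⟨t, ht1, ht2⟩ := (hev2.and hev3).exists
    have h4 := hout _ ht1
    have h5 : a + t • (u - a) - u = -((1 - t) • (u - a)) := by
      rw [sub_smul, one_smul]; abel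
    rw [h5, norm_neg, norm_smul, Real.norm_eq_abs, abs_of_pos (by linarith [ht2.2])] at h4
    nlinarith [ht2.1]
  · obtain ⟨c, hc0, hcA, hcd, hcν⟩ := hcurve (u - a) (sub_ne_zero.mpr hune)
    have hder : HasDerivAt (fun t => ‖c t - u‖ ^ 2) (2 * ⟪c 0 - u, deriv c 0⟫_ℝ) 0 := by
      have h6 : HasDerivAt (fun t => c t - u) (deriv c 0) 0 := hcd.hasDerivAt.sub_const u
      exact h6.norm_sq
    have hmin : IsLocalMin (fun t => ‖c t - u‖ ^ 2) 0 := by
      filter_upwards [hcA] with t ht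
      have h7 := hout _ ht
      rw [hc0, norm_sub_rev a u]
      exact pow_le_pow_left₀ (norm_nonneg _) h7 2
    have h8 := hmin.hasDerivAt_eq_zero hder
    apply hcν
    rw [hc0] at h8
    have h9 : ⟪a - u, deriv c 0⟫_ℝ = 0 := by linarith
    rw [real_inner_comm, ← neg_sub a u, inner_neg_left, h9, neg_zero]

end

end Pool.Agent.H469
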