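import Mathlib

set_option autoImplicit false

open Set Filter Topology MeasureTheory
open scoped ContDiff InnerProductSpace

namespace Pool.Agent.H469


/-! PLAIN PROOF OF THE TARGET(S)

Generalized symmetric eigenvalue problem H(z) u = ε G(z) u, G(z) positive definite.  At z0 the eigenvalues are finitely many (e.g. roots of the polynomial det(ε G - H), or
because eigenvectors for different eigenvalues are G-orthogonal), so after decreasing δ, ε0 is the only eigenvalue in [ε0-δ, ε0+δ], with 2-dimensional eigenspace K0; F has the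
G0-orthogonal basis of eigenvectors (spectral theorem: with the inner product <G0 u,v>, or apply it to G0^{-1/2} H0 G0^{-1/2}).  For a self-adjoint problem let n_-(z,ε) be the
maximal dimension of a subspace on which the form <(H - εG)u,u> is negative definite (= number of eigenvalues < ε), n_+(z,ε) similarly positive (= number > ε).  For ε = ε0 ± δ the
form at z0 is nondegenerate, so for z near z0 the numbers n_-(z,ε0-δ) and n_+(z,ε0+δ) are the same as at z0 (definiteness on fixed subspaces is an open condition and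
the two dimensions add up to dim F).  So the number of eigenvalues of (G(z),H(z)) in (ε0-δ,ε0+δ), counted with multiplicity, is 2: either one eigenvalue with eigenspace of dimension 2, or two
different ones with one-dimensional eigenspaces, which are G(z)-orthogonal: ε1<G k1,k2> = <H k1,k2> = <k1,H k2> = ε2<G k1,k2>.
Alternative: min-max, or work in the inner product <G(z)u,v> and use the sorted eigenvalues of a symmetric operator and their continuity.
-/

section

theorem two_eigs_diag {F : Type} [AddCommGroup F] [Module ℝ F] [FiniteDimensional ℝ F]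
    (B : F →ₗ[ℝ] F →ₗ[ℝ] ℝ) (hs : ∀ u v, B u v = B v u) (hp : ∀ u, u ≠ 0 → 0 < B u u)
    (T : F →ₗ[ℝ] F) (hT : ∀ u v, B (T u) v = B u (T v)) :
    ∃ (b : Module.Basis (Fin (Module.finrank ℝ F)) ℝ F) (l : Fin (Module.finrank ℝ F) → ℝ),
      (∀ i, T (b i) = l i • b i) ∧ ∀ i j, B (b i) (b j) = if i = j then 1 else 0 := by
  let core : InnerProductSpace.Core ℝ F :=
    { inner := fun u v => B u v
      conj_inner_symm := fun u v => by simp [hs u v]
      re_inner_nonneg := fun u => by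
        by_cases h : u = 0
        · simp [h]
        · simpa using (hp u h).le
      add_left := fun u v w => by simp
      smul_left := fun u v r => by simp
      definite := fun u h => by
        by_contra h0
        exact (hp u h0).ne' h }
  let _ := core.toNormedAddCommGroup
  let _ : InnerProductSpace ℝ F := InnerProductSpace.ofCore core.toCore
  have hS : T.IsSymmetric := hT
  refine ⟨(hS.eigenvectorBasis rfl).toBasis, hS.eigenvalues rfl, ?_, ?_⟩
  · intro i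
    simp
  · intro i j
    have := (orthonormal_iff_ite.mp (hS.eigenvectorBasis rfl).orthonormal) i j
    have h2 : B ((hS.eigenvectorBasis rfl) i) ((hS.eigenvectorBasis rfl) j)
      = if i = j then (1:ℝ) else 0 := this
    simpa using h2

theorem two_eigs_pencil {F : Type} [NormedAddCommGroup F] [InnerProductSpace ℝ F]
    [FiniteDimensional ℝ F] (G H : F →L[ℝ] F)
    (hGs : ∀ u v : F, ⟪G u, v⟫_ℝ = ⟪u, G v⟫_ℝ) (hHs : ∀ u v : F, ⟪H u, v⟫_ℝ = ⟪u, H v⟫_ℝ)
    (hGp : ∀ u : F, u ≠ 0 → 0 < ⟪G u, u⟫_ℝ) :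
    ∃ (b : Module.Basis (Fin (Module.finrank ℝ F)) ℝ F) (l : Fin (Module.finrank ℝ F) → ℝ),
      (∀ i, H (b i) = l i • G (b i)) ∧ ∀ i j, ⟪G (b i), b j⟫_ℝ = if i = j then 1 else 0 := by
  have hinj : Function.Injective (G : F →ₗ[ℝ] F) := by
    rw [← LinearMap.ker_eq_bot, LinearMap.ker_eq_bot']
    intro u hu
    by_contra h
    have h1 := hGp u h
    have h2 : G u = 0 := hu
    rw [h2, inner_zero_left] at h1
    exact lt_irrefl _ h1
  let e := LinearEquiv.ofInjectiveEndo (G : F →ₗ[ℝ] F) hinj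
  have he : ∀ u, G (e.symm u) = u := fun u => e.apply_symm_apply u
  let B : F →ₗ[ℝ] F →ₗ[ℝ] ℝ := (innerₗ F).comp (G : F →ₗ[ℝ] F)
  have hB : ∀ u v, B u v = ⟪G u, v⟫_ℝ := fun u v => rfl
  obtain ⟨b, l, h1, h2⟩ := two_eigs_diag B (fun u v => by rw [hB, hB, hGs, real_inner_comm])
    (fun u hu => by rw [hB]; exact hGp u hu) ((e.symm : F →ₗ[ℝ] F).comp (H : F →ₗ[ℝ] F))
    (fun u v => by
      rw [hB, hB]
      simp only [LinearMap.comp_apply, LinearEquiv.coe_coe, ContinuousLinearMap.coe_coe]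
      rw [he, hHs, hGs, he])
  refine ⟨b, l, fun i => ?_, fun i j => ?_⟩
  · have := congrArg G (h1 i)
    simp only [LinearMap.comp_apply, LinearEquiv.coe_coe, ContinuousLinearMap.coe_coe] at this
    rw [he, map_smul] at this
    exact this
  · rw [← h2 i j, hB]

theorem two_eigs_card {F : Type} [NormedAddCommGroup F] [InnerProductSpace ℝ F]
    [FiniteDimensional ℝ F] {n : ℕ} (b : Module.Basis (Fin n) ℝ F) (s : Finset (Fin n)) :
    Module.finrank ℝ (Submodule.span ℝ (b '' (s : Set (Fin n)))) = s.card := by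
  have h : (b '' (s : Set (Fin n))) = Set.range (b ∘ (Subtype.val : s → Fin n)) := by
    ext x; simp
  rw [h, finrank_span_eq_card (b.linearIndependent.comp _ Subtype.val_injective)]
  simp

/-- quadratic form in coordinates -/
theorem two_eigs_quad {F : Type} [NormedAddCommGroup F] [InnerProductSpace ℝ F]
    {n : ℕ} (G A : F →L[ℝ] F) (b : Module.Basis (Fin n) ℝ F) (m : Fin n → ℝ)
    (hb : ∀ i j, ⟪G (b i), b j⟫_ℝ = if i = j then 1 else 0)
    (hA : ∀ i, A (b i) = m i • G (b i)) (u : F) (j : Fin n) :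
    ⟪A u, b j⟫_ℝ = m j * b.repr u j := by
  conv_lhs => rw [← b.sum_repr u]
  rw [map_sum, sum_inner]
  rw [Finset.sum_eq_single j]
  · rw [map_smul, hA, inner_smul_left, inner_smul_left, hb]
    simp [mul_comm]
  · intro i _ hij
    rw [map_smul, hA, inner_smul_left, inner_smul_left, hb, if_neg hij]
    simp
  · simp

theorem two_eigs_form {F : Type} [NormedAddCommGroup F] [InnerProductSpace ℝ F]
    {n : ℕ} (G A : F →L[ℝ] F) (b : Module.Basis (Fin n) ℝ F) (m : Fin n → ℝ)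
    (hb : ∀ i j, ⟪G (b i), b j⟫_ℝ = if i = j then 1 else 0)
    (hA : ∀ i, A (b i) = m i • G (b i)) (u : F) :
    ⟪A u, u⟫_ℝ = ∑ j, m j * (b.repr u j) ^ 2 := by
  have h : ⟪A u, u⟫_ℝ = ⟪A u, ∑ j, b.repr u j • b j⟫_ℝ := by rw [b.sum_repr u]
  rw [h, inner_sum]
  refine Finset.sum_congr rfl fun j _ => ?_
  rw [inner_smul_right, two_eigs_quad G A b m hb hA]
  ring

theorem two_eigs_le {F : Type} [NormedAddCommGroup F] [InnerProductSpace ℝ F]
    [FiniteDimensional ℝ F]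
    {n : ℕ} (G A : F →L[ℝ] F) (b : Module.Basis (Fin n) ℝ F) (m : Fin n → ℝ)
    (hb : ∀ i j, ⟪G (b i), b j⟫_ℝ = if i = j then 1 else 0)
    (hA : ∀ i, A (b i) = m i • G (b i)) (W : Submodule ℝ F)
    (hW : ∀ u ∈ W, u ≠ 0 → 0 < ⟪A u, u⟫_ℝ) :
    Module.finrank ℝ W ≤ (Finset.univ.filter (fun i => 0 < m i)).card := by
  classical
  set s : Finset (Fin n) := Finset.univ.filter (fun i => ¬ 0 < m i) with hs
  have hd : Disjoint W (Submodule.span ℝ (b '' (s : Set (Fin n)))) := by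
    rw [Submodule.disjoint_def]
    intro u hu hu2
    by_contra h0
    have h1 := hW u hu h0
    rw [two_eigs_form G A b m hb hA] at h1
    rw [b.mem_span_image] at hu2
    refine absurd h1 (not_lt.mpr (Finset.sum_nonpos fun j _ => ?_))
    by_cases hj : j ∈ s
    · have : m j ≤ 0 := by simpa [hs] using hj
      exact mul_nonpos_of_nonpos_of_nonneg this (sq_nonneg _)
    · have : b.repr u j = 0 := by
        by_contra h
        exact hj (hu2 (Finsupp.mem_support_iff.mpr h))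
      simp [this]
  have h1 := Submodule.finrank_add_finrank_le_of_disjoint hd
  rw [two_eigs_card] at h1
  have h2 : (Finset.univ.filter (fun i => 0 < m i)).card + s.card = n := by
    rw [hs, Finset.card_filter_add_card_filter_not]
    simp
  have h3 : Module.finrank ℝ F = n := by
    rw [Module.finrank_eq_card_basis b]; simp
  omega

theorem two_eigs_pos {F : Type} [NormedAddCommGroup F] [InnerProductSpace ℝ F]
    {n : ℕ} (G A : F →L[ℝ] F) (b : Module.Basis (Fin n) ℝ F) (m : Fin n → ℝ)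
    (hb : ∀ i j, ⟪G (b i), b j⟫_ℝ = if i = j then 1 else 0)
    (hA : ∀ i, A (b i) = m i • G (b i)) (u : F)
    (hu : u ∈ Submodule.span ℝ (b '' ((Finset.univ.filter (fun i => 0 < m i) : Finset (Fin n))
      : Set (Fin n)))) (h0 : u ≠ 0) : 0 < ⟪A u, u⟫_ℝ := by
  classical
  rw [two_eigs_form G A b m hb hA]
  rw [b.mem_span_image] at hu
  have hex : ∃ j, b.repr u j ≠ 0 := by
    by_contra h
    push Not at h
    apply h0
    rw [← b.sum_repr u]
    simp [h]
  obtain ⟨j, hj⟩ := hex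
  apply Finset.sum_pos'
  · intro i _
    by_cases hi : b.repr u i = 0
    · simp [hi]
    · have := hu (Finsupp.mem_support_iff.mpr hi)
      simp only [Finset.coe_filter, Finset.mem_univ, true_and, Set.mem_ofPred_eq] at this
      positivity
  · refine ⟨j, Finset.mem_univ _, ?_⟩
    have := hu (Finsupp.mem_support_iff.mpr hj)
    simp only [Finset.coe_filter, Finset.mem_univ, true_and, Set.mem_ofPred_eq] at this
    positivity

theorem two_eigs_open {Z F : Type} [TopologicalSpace Z] [NormedAddCommGroup F]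
    [InnerProductSpace ℝ F] [FiniteDimensional ℝ F] (A : Z → F →L[ℝ] F) (z₀ : Z)
    (hA : ContinuousAt A z₀) (W : Submodule ℝ F)
    (hW : ∀ u ∈ W, u ≠ 0 → 0 < ⟪A z₀ u, u⟫_ℝ) :
    ∀ᶠ z in 𝓝 z₀, ∀ u ∈ W, u ≠ 0 → 0 < ⟪A z u, u⟫_ℝ := by
  have hK : IsCompact ((W : Set F) ∩ Metric.sphere 0 1) :=
    (isCompact_sphere (0 : F) 1).inter_left W.closed_of_finiteDimensional
  obtain ⟨c, hc, hcW⟩ : ∃ c > 0, ∀ u ∈ (W : Set F) ∩ Metric.sphere 0 1, c ≤ ⟪A z₀ u, u⟫_ℝ := by
    by_cases hne : ((W : Set F) ∩ Metric.sphere 0 1).Nonempty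
    · obtain ⟨x, hx, hmin⟩ := hK.exists_isMinOn hne
        (f := fun u => ⟪A z₀ u, u⟫_ℝ) (by fun_prop)
      refine ⟨⟪A z₀ x, x⟫_ℝ, hW x hx.1 ?_, fun u hu => hmin hu⟩
      intro h
      have := hx.2
      simp [h] at this
    · exact ⟨1, one_pos, fun u hu => absurd ⟨u, hu⟩ hne⟩
  have h1 : ∀ᶠ z in 𝓝 z₀, ‖A z - A z₀‖ < c := by
    have h2 : Tendsto (fun z => ‖A z - A z₀‖) (𝓝 z₀) (𝓝 ‖A z₀ - A z₀‖) :=
      (hA.sub (continuousAt_const (y := A z₀))).norm
    rw [sub_self, norm_zero] at h2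
    exact h2.eventually (gt_mem_nhds hc)
  filter_upwards [h1] with z hz u hu h0
  have hn : 0 < ‖u‖ := norm_pos_iff.mpr h0
  have h2 := hcW (‖u‖⁻¹ • u) ⟨W.smul_mem _ hu, by simp [norm_smul, hn.ne']⟩
  rw [map_smul, inner_smul_left, inner_smul_right] at h2
  have h3 : c * ‖u‖ ^ 2 ≤ ⟪A z₀ u, u⟫_ℝ := by
    have h4 : (‖u‖⁻¹ * (‖u‖⁻¹ * ⟪A z₀ u, u⟫_ℝ)) * ‖u‖ ^ 2 = ⟪A z₀ u, u⟫_ℝ := by
      field_simp
    rw [← h4]
    exact mul_le_mul_of_nonneg_right (by simpa using h2) (sq_nonneg _)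
  have h5 : |⟪(A z - A z₀) u, u⟫_ℝ| ≤ ‖A z - A z₀‖ * ‖u‖ ^ 2 := by
    calc |⟪(A z - A z₀) u, u⟫_ℝ| ≤ ‖(A z - A z₀) u‖ * ‖u‖ := abs_real_inner_le_norm _ _
      _ ≤ (‖A z - A z₀‖ * ‖u‖) * ‖u‖ := by gcongr; exact ContinuousLinearMap.le_opNorm _ _
      _ = _ := by ring
  have h6 : ⟪A z u, u⟫_ℝ = ⟪A z₀ u, u⟫_ℝ + ⟪(A z - A z₀) u, u⟫_ℝ := by
    rw [← inner_add_left]; simp
  have h7 : ‖A z - A z₀‖ * ‖u‖ ^ 2 < c * ‖u‖ ^ 2 := by gcongr
  have h8 := (abs_le.mp h5).1
  rw [h6]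
  linarith

/-- the number of positive coefficients is lower semicontinuous -/
theorem two_eigs_mono {Z F : Type} [TopologicalSpace Z] [NormedAddCommGroup F]
    [InnerProductSpace ℝ F] [FiniteDimensional ℝ F] (A G : Z → F →L[ℝ] F) (z₀ : Z)
    (hA : ContinuousAt A z₀) {n : ℕ} (b : Z → Module.Basis (Fin n) ℝ F) (m : Z → Fin n → ℝ)
    (hb : ∀ᶠ z in 𝓝 z₀, ∀ i j, ⟪G z (b z i), b z j⟫_ℝ = if i = j then 1 else 0)
    (hm : ∀ᶠ z in 𝓝 z₀, ∀ i, A z (b z i) = m z i • G z (b z i)) :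
    ∀ᶠ z in 𝓝 z₀, (Finset.univ.filter (fun i => 0 < m z₀ i)).card
      ≤ (Finset.univ.filter (fun i => 0 < m z i)).card := by
  have h1 := two_eigs_pos (G z₀) (A z₀) (b z₀) (m z₀) hb.self_of_nhds hm.self_of_nhds
  have h2 := two_eigs_open A z₀ hA _ h1
  filter_upwards [h2, hb, hm] with z hz hbz hmz
  have h3 := two_eigs_le (G z) (A z) (b z) (m z) hbz hmz _ hz
  rwa [two_eigs_card] at h3

theorem two_eigs_ker {F : Type} [NormedAddCommGroup F] [InnerProductSpace ℝ F]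
    {n : ℕ} (G H : F →L[ℝ] F) (b : Module.Basis (Fin n) ℝ F) (l : Fin n → ℝ)
    (hb : ∀ i j, ⟪G (b i), b j⟫_ℝ = if i = j then 1 else 0)
    (hH : ∀ i, H (b i) = l i • G (b i)) (ε : ℝ) (u : F) :
    (ε • G - H) u = 0 ↔ ∀ i, l i ≠ ε → b.repr u i = 0 := by
  have hA : ∀ i, (ε • G - H) (b i) = (ε - l i) • G (b i) := by
    intro i
    simp [hH i, sub_smul]
  constructor
  · intro h i hi
    have h1 := two_eigs_quad G (ε • G - H) b (fun i => ε - l i) hb hA u i
    rw [h, inner_zero_left] at h1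
    rcases mul_eq_zero.mp h1.symm with h2 | h2
    · exact absurd (sub_eq_zero.mp h2).symm hi
    · exact h2
  · intro h
    rw [← b.sum_repr u, map_sum]
    refine Finset.sum_eq_zero fun i _ => ?_
    rw [map_smul, hA]
    by_cases hi : l i = ε
    · simp [hi]
    · simp [h i hi]

theorem two_eigs_finrank {F : Type} [NormedAddCommGroup F] [InnerProductSpace ℝ F]
    [FiniteDimensional ℝ F]
    {n : ℕ} (G H : F →L[ℝ] F) (b : Module.Basis (Fin n) ℝ F) (l : Fin n → ℝ)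
    (hb : ∀ i j, ⟪G (b i), b j⟫_ℝ = if i = j then 1 else 0)
    (hH : ∀ i, H (b i) = l i • G (b i)) (ε : ℝ) :
    Module.finrank ℝ (LinearMap.ker (ε • G - H : F →L[ℝ] F).toLinearMap)
      = (Finset.univ.filter (fun i => l i = ε)).card := by
  rw [← two_eigs_card b]
  have h : LinearMap.ker (ε • G - H : F →L[ℝ] F).toLinearMap = Submodule.span ℝ
      (b '' ((Finset.univ.filter (fun i => l i = ε) : Finset (Fin n)) : Set (Fin n))) := by
    ext u
    rw [LinearMap.mem_ker, b.mem_span_image]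
    have h1 := two_eigs_ker G H b l hb hH ε u
    refine h1.trans ⟨fun h i hi => ?_, fun h i hi => ?_⟩
    · simp only [Finset.coe_filter, Finset.mem_univ, true_and, Set.mem_ofPred_eq]
      by_contra h2
      exact (Finsupp.mem_support_iff.mp hi) (h i h2)
    · by_contra h2
      have := h (Finsupp.mem_support_iff.mpr h2)
      simp only [Finset.coe_filter, Finset.mem_univ, true_and, Set.mem_ofPred_eq] at this
      exact hi this
  rw [h]

theorem two_eigs_choose {Z F : Type} [NormedAddCommGroup F]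
    [InnerProductSpace ℝ F] [FiniteDimensional ℝ F] (G H : Z → F →L[ℝ] F)
    (hGs : ∀ z, ∀ u v : F, ⟪G z u, v⟫_ℝ = ⟪u, G z v⟫_ℝ)
    (hGp : ∀ z, ∀ u : F, u ≠ 0 → 0 < ⟪G z u, u⟫_ℝ) :
    ∃ (b : Z → Module.Basis (Fin (Module.finrank ℝ F)) ℝ F)
      (l : Z → Fin (Module.finrank ℝ F) → ℝ), ∀ z,
      (∀ u v : F, ⟪H z u, v⟫_ℝ = ⟪u, H z v⟫_ℝ) →
      (∀ i, H z (b z i) = l z i • G z (b z i)) ∧
        ∀ i j, ⟪G z (b z i), b z j⟫_ℝ = if i = j then 1 else 0 := by
  have h : ∀ z, ∃ (b : Module.Basis (Fin (Module.finrank ℝ F)) ℝ F)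
      (l : Fin (Module.finrank ℝ F) → ℝ),
      (∀ u v : F, ⟪H z u, v⟫_ℝ = ⟪u, H z v⟫_ℝ) →
      (∀ i, H z (b i) = l i • G z (b i)) ∧
        ∀ i j, ⟪G z (b i), b j⟫_ℝ = if i = j then 1 else 0 := by
    intro z
    by_cases hz : ∀ u v : F, ⟪H z u, v⟫_ℝ = ⟪u, H z v⟫_ℝ
    · obtain ⟨b, l, h1⟩ := two_eigs_pencil (G z) (H z) (hGs z) hz (hGp z)
      exact ⟨b, l, fun _ => h1⟩
    · exact ⟨Module.finBasis ℝ F, 0, fun h => absurd h hz⟩
  choose b l h1 using h
  exact ⟨b, l, h1⟩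

/-- counting argument -/
theorem two_eigs_count {n : ℕ} (l₀ l : Fin n → ℝ) (a c : ℝ) (ε₀ : ℝ)
    (h₀ : ∀ i, l₀ i < a ∨ l₀ i = ε₀ ∨ c < l₀ i) (ha : a < ε₀) (hc : ε₀ < c)
    (h2 : (Finset.univ.filter (fun i => l₀ i = ε₀)).card = 2)
    (k1 : (Finset.univ.filter (fun i => 0 < a - l₀ i)).card
      ≤ (Finset.univ.filter (fun i => 0 < a - l i)).card)
    (k2 : (Finset.univ.filter (fun i => 0 < l₀ i - a)).card
      ≤ (Finset.univ.filter (fun i => 0 < l i - a)).card)
    (k3 : (Finset.univ.filter (fun i => 0 < c - l₀ i)).card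
      ≤ (Finset.univ.filter (fun i => 0 < c - l i)).card)
    (k4 : (Finset.univ.filter (fun i => 0 < l₀ i - c)).card
      ≤ (Finset.univ.filter (fun i => 0 < l i - c)).card) :
    (Finset.univ.filter (fun i => a ≤ l i ∧ l i ≤ c)).card = 2 := by
  have e1 : ∀ f : Fin n → ℝ, (Finset.univ.filter (fun i => 0 < a - f i)).card
      + (Finset.univ.filter (fun i => a ≤ f i ∧ f i ≤ c)).card
      + (Finset.univ.filter (fun i => 0 < f i - c)).card = n := by
    intro f
    rw [← Finset.card_union_of_disjoint, ← Finset.card_union_of_disjoint]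
    · conv_rhs => rw [← Finset.card_fin n]
      congr 1
      ext i
      simp only [Finset.mem_union, Finset.mem_filter, Finset.mem_univ, true_and, sub_pos, iff_true]
      rcases lt_or_ge (f i) a with h | h
      · exact Or.inl (Or.inl h)
      · rcases le_or_gt (f i) c with h' | h'
        · exact Or.inl (Or.inr ⟨h, h'⟩)
        · exact Or.inr h'
    · rw [Finset.disjoint_left]
      intro i hi hi'
      simp only [Finset.mem_union, Finset.mem_filter, Finset.mem_univ, true_and, sub_pos] at hi hi'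
      rcases hi with h | h
      · linarith
      · linarith [h.2]
    · rw [Finset.disjoint_left]
      intro i hi hi'
      simp only [Finset.mem_filter, Finset.mem_univ, true_and, sub_pos] at hi hi'
      linarith [hi'.1]
  have e2 : ∀ (f : Fin n → ℝ) (t : ℝ), (Finset.univ.filter (fun i => 0 < t - f i)).card
      + (Finset.univ.filter (fun i => 0 < f i - t)).card ≤ n := by
    intro f t
    rw [← Finset.card_union_of_disjoint]
    · conv_rhs => rw [← Finset.card_fin n]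
      exact Finset.card_le_univ _
    · rw [Finset.disjoint_left]
      intro i hi hi'
      simp only [Finset.mem_filter, Finset.mem_univ, true_and, sub_pos] at hi hi'
      linarith
  have e3 : ∀ (t : ℝ), (∀ i, l₀ i ≠ t) → (Finset.univ.filter (fun i => 0 < t - l₀ i)).card
      + (Finset.univ.filter (fun i => 0 < l₀ i - t)).card = n := by
    intro t ht
    rw [← Finset.card_union_of_disjoint]
    · conv_rhs => rw [← Finset.card_fin n]
      congr 1
      ext i
      simp only [Finset.mem_union, Finset.mem_filter, Finset.mem_univ, true_and, sub_pos, iff_true]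
      exact lt_or_gt_of_ne (ht i)
    · rw [Finset.disjoint_left]
      intro i hi hi'
      simp only [Finset.mem_filter, Finset.mem_univ, true_and, sub_pos] at hi hi'
      linarith
  have e4 : (Finset.univ.filter (fun i => a ≤ l₀ i ∧ l₀ i ≤ c)).card = 2 := by
    rw [← h2]
    congr 1
    ext i
    simp only [Finset.mem_filter, Finset.mem_univ, true_and]
    constructor
    · rintro ⟨h, h'⟩
      rcases h₀ i with h1 | h1 | h1
      · linarith
      · exact h1
      · linarith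
    · intro h
      rw [h]
      exact ⟨ha.le, hc.le⟩
  have f1 := e1 l₀
  have f2 := e1 l
  have f3 := e3 a (fun i h => by rcases h₀ i with h1 | h1 | h1 <;> linarith)
  have f4 := e3 c (fun i h => by rcases h₀ i with h1 | h1 | h1 <;> linarith)
  have f5 := e2 l a
  have f6 := e2 l c
  omega

theorem two_eigs_final {F : Type} [NormedAddCommGroup F]
    [InnerProductSpace ℝ F] [FiniteDimensional ℝ F] {n : ℕ} (G H : F →L[ℝ] F)
    (b : Module.Basis (Fin n) ℝ F) (l : Fin n → ℝ)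
    (hbz : ∀ i j, ⟪G (b i), b j⟫_ℝ = if i = j then 1 else 0)
    (hlz : ∀ i, H (b i) = l i • G (b i)) (ε₀ δ d : ℝ) (hdδ : d < δ)
    (hM : (Finset.univ.filter (fun i => ε₀ - d ≤ l i ∧ l i ≤ ε₀ + d)).card = 2) :
      (∃ ε, |ε - ε₀| < δ ∧
        Module.finrank ℝ (LinearMap.ker (ε • G - H : F →L[ℝ] F).toLinearMap) = 2) ∨
      (∃ (ε₁ ε₂ : ℝ) (k₁ k₂ : F), ε₁ ≠ ε₂ ∧ |ε₁ - ε₀| < δ ∧ |ε₂ - ε₀| < δ ∧ k₁ ≠ 0 ∧ k₂ ≠ 0 ∧
        (∀ u, (ε₁ • G - H) u = 0 ↔ ∃ r : ℝ, u = r • k₁) ∧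
        (∀ u, (ε₂ • G - H) u = 0 ↔ ∃ r : ℝ, u = r • k₂) ∧ ⟪G k₁, k₂⟫_ℝ = 0) := by
  obtain ⟨i, j, hij, hset⟩ := Finset.card_eq_two.mp hM
  have hmem : ∀ k, (ε₀ - d ≤ l k ∧ l k ≤ ε₀ + d) ↔ k = i ∨ k = j := by
    intro k
    have := Finset.ext_iff.mp hset k
    simpa using this
  have hi := (hmem i).mpr (Or.inl rfl)
  have hj := (hmem j).mpr (Or.inr rfl)
  have hid : |l i - ε₀| < δ := by
    rw [abs_lt]; constructor <;> linarith [hi.1, hi.2]
  have hjd : |l j - ε₀| < δ := by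
    rw [abs_lt]; constructor <;> linarith [hj.1, hj.2]
  by_cases heq : l i = l j
  · left
    refine ⟨l i, hid, ?_⟩
    rw [two_eigs_finrank G H b l hbz hlz, ← hM]
    congr 1
    ext k
    simp only [Finset.mem_filter, Finset.mem_univ, true_and]
    rw [hmem]
    constructor
    · intro hk
      rw [← hmem, hk]
      exact hi
    · rintro (hk | hk)
      · rw [hk]
      · rw [hk, heq]
  · right
    have hone : ∀ k, (k = i ∨ k = j) → ∀ u, ((l k) • G - H) u = 0 ↔ ∃ r : ℝ,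
        u = r • b k := by
      intro k hk u
      rw [two_eigs_ker G H b l hbz hlz]
      constructor
      · intro h
        refine ⟨b.repr u k, ?_⟩
        conv_lhs => rw [← b.sum_repr u]
        refine Finset.sum_eq_single k (fun m _ hm => ?_) (by simp)
        rw [h m, zero_smul]
        intro hmk
        have h1 : m = i ∨ m = j := by
          rw [← hmem, hmk, hmem]; exact hk
        rcases hk with rfl | rfl <;> rcases h1 with rfl | rfl
        · exact hm rfl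
        · exact heq hmk.symm
        · exact heq hmk
        · exact hm rfl
      · rintro ⟨r, rfl⟩ m hm
        have : m ≠ k := fun h => hm (by rw [h])
        simp [this.symm]
    refine ⟨l i, l j, b i, b j, heq, hid, hjd, b.ne_zero i, b.ne_zero j,
      hone i (Or.inl rfl), hone j (Or.inr rfl), ?_⟩
    rw [hbz, if_neg hij]

theorem two_eigs_m {Z F : Type} [TopologicalSpace Z] [NormedAddCommGroup F]
    [InnerProductSpace ℝ F] [FiniteDimensional ℝ F] (G H : Z → F →L[ℝ] F) (z₀ : Z)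
    (hG : ContinuousAt G z₀) (hH : ContinuousAt H z₀) {n : ℕ}
    (b : Z → Module.Basis (Fin n) ℝ F) (l : Z → Fin n → ℝ)
    (hb : ∀ᶠ z in 𝓝 z₀, ∀ i j, ⟪G z (b z i), b z j⟫_ℝ = if i = j then 1 else 0)
    (hl : ∀ᶠ z in 𝓝 z₀, ∀ i, H z (b z i) = l z i • G z (b z i)) (t : ℝ) :
    ∀ᶠ z in 𝓝 z₀, (Finset.univ.filter (fun i => 0 < t - l z₀ i)).card
      ≤ (Finset.univ.filter (fun i => 0 < t - l z i)).card := by
  have hc : ContinuousAt (fun z => t • G z - H z) z₀ := (hG.const_smul t).sub hH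
  exact two_eigs_mono (fun z => t • G z - H z) G z₀ hc b (fun z i => t - l z i) hb (by
      filter_upwards [hl] with z hz i
      simp [hz i, sub_smul])

theorem two_eigs_m' {Z F : Type} [TopologicalSpace Z] [NormedAddCommGroup F]
    [InnerProductSpace ℝ F] [FiniteDimensional ℝ F] (G H : Z → F →L[ℝ] F) (z₀ : Z)
    (hG : ContinuousAt G z₀) (hH : ContinuousAt H z₀) {n : ℕ}
    (b : Z → Module.Basis (Fin n) ℝ F) (l : Z → Fin n → ℝ)
    (hb : ∀ᶠ z in 𝓝 z₀, ∀ i j, ⟪G z (b z i), b z j⟫_ℝ = if i = j then 1 else 0)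
    (hl : ∀ᶠ z in 𝓝 z₀, ∀ i, H z (b z i) = l z i • G z (b z i)) (t : ℝ) :
    ∀ᶠ z in 𝓝 z₀, (Finset.univ.filter (fun i => 0 < l z₀ i - t)).card
      ≤ (Finset.univ.filter (fun i => 0 < l z i - t)).card := by
  have hc : ContinuousAt (fun z => H z - t • G z) z₀ := hH.sub (hG.const_smul t)
  exact two_eigs_mono (fun z => H z - t • G z) G z₀ hc b (fun z i => l z i - t) hb (by
      filter_upwards [hl] with z hz i
      simp [hz i, sub_smul])

theorem two_eigs_gap {n : ℕ} (l : Fin n → ℝ) (ε₀ δ : ℝ) (hδ : 0 < δ) :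
    ∃ d > 0, d < δ ∧ ∀ i, l i ≠ ε₀ → d < |l i - ε₀| := by
  have h1 : ∀ᶠ d in 𝓝[>] (0:ℝ), d < δ := by
    filter_upwards [Ioo_mem_nhdsGT hδ] with d hd using hd.2
  have h2 : ∀ᶠ d in 𝓝[>] (0:ℝ), ∀ i, l i ≠ ε₀ → d < |l i - ε₀| := by
    rw [eventually_all]
    intro i
    by_cases hi : l i = ε₀
    · simp [hi]
    · have : 0 < |l i - ε₀| := abs_pos.mpr (sub_ne_zero.mpr hi)
      filter_upwards [Ioo_mem_nhdsGT this] with d hd _ using hd.2
  obtain ⟨d, hd⟩ := ((h1.and h2).and self_mem_nhdsWithin).exists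
  exact ⟨d, hd.2, hd.1.1, hd.1.2⟩

/-- TARGET -/
theorem two_eigs {Z F : Type} [TopologicalSpace Z] [NormedAddCommGroup F]
    [InnerProductSpace ℝ F] [FiniteDimensional ℝ F] (G H : Z → F →L[ℝ] F) (z₀ : Z)
    (hG : ContinuousAt G z₀) (hH : ContinuousAt H z₀)
    (hGs : ∀ z, ∀ u v : F, ⟪G z u, v⟫_ℝ = ⟪u, G z v⟫_ℝ)
    (hHs : ∀ᶠ z in 𝓝 z₀, ∀ u v : F, ⟪H z u, v⟫_ℝ = ⟪u, H z v⟫_ℝ)
    (hGp : ∀ z, ∀ u : F, u ≠ 0 → 0 < ⟪G z u, u⟫_ℝ) (ε₀ : ℝ)
    (hker : Module.finrank ℝ (LinearMap.ker (ε₀ • G z₀ - H z₀ : F →L[ℝ] F).toLinearMap) = 2)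
    (δ : ℝ) (hδ : 0 < δ) :
    ∀ᶠ z in 𝓝 z₀,
      (∃ ε, |ε - ε₀| < δ ∧
        Module.finrank ℝ (LinearMap.ker (ε • G z - H z : F →L[ℝ] F).toLinearMap) = 2) ∨
      (∃ (ε₁ ε₂ : ℝ) (k₁ k₂ : F), ε₁ ≠ ε₂ ∧ |ε₁ - ε₀| < δ ∧ |ε₂ - ε₀| < δ ∧ k₁ ≠ 0 ∧ k₂ ≠ 0 ∧
        (∀ u, (ε₁ • G z - H z) u = 0 ↔ ∃ r : ℝ, u = r • k₁) ∧
        (∀ u, (ε₂ • G z - H z) u = 0 ↔ ∃ r : ℝ, u = r • k₂) ∧ ⟪G z k₁, k₂⟫_ℝ = 0) := by
  obtain ⟨b, l, hbl⟩ := two_eigs_choose G H hGs hGp
  have hl : ∀ᶠ z in 𝓝 z₀, ∀ i, H z (b z i) = l z i • G z (b z i) :=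
    hHs.mono fun z hz => (hbl z hz).1
  have hb : ∀ᶠ z in 𝓝 z₀, ∀ i j, ⟪G z (b z i), b z j⟫_ℝ = if i = j then 1 else 0 :=
    hHs.mono fun z hz => (hbl z hz).2
  have hcard : (Finset.univ.filter (fun i => l z₀ i = ε₀)).card = 2 :=
    (two_eigs_finrank (G z₀) (H z₀) (b z₀) (l z₀) hb.self_of_nhds hl.self_of_nhds ε₀).symm.trans
      hker
  obtain ⟨d, hd0, hdδ, hd⟩ := two_eigs_gap (l z₀) ε₀ δ hδ
  have h₀ : ∀ i, l z₀ i < ε₀ - d ∨ l z₀ i = ε₀ ∨ ε₀ + d < l z₀ i := by
    intro i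
    by_cases hi : l z₀ i = ε₀
    · exact Or.inr (Or.inl hi)
    · rcases lt_abs.mp (hd i hi) with h | h
      · right; right; linarith
      · left; linarith
  have m1 := two_eigs_m G H z₀ hG hH b l hb hl (ε₀ - d)
  have m2 := two_eigs_m' G H z₀ hG hH b l hb hl (ε₀ - d)
  have m3 := two_eigs_m G H z₀ hG hH b l hb hl (ε₀ + d)
  have m4 := two_eigs_m' G H z₀ hG hH b l hb hl (ε₀ + d)
  refine ((m1.and m2).and ((m3.and m4).and (hb.and hl))).mono fun z hz => ?_
  have hM := two_eigs_count (l z₀) (l z) (ε₀ - d) (ε₀ + d) ε₀ h₀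
    (by linarith) (by linarith) hcard hz.1.1 hz.1.2 hz.2.1.1 hz.2.1.2
  exact two_eigs_final (G z) (H z) (b z) (l z) hz.2.2.1 hz.2.2.2 ε₀ δ d hdδ hM

end

end Pool.Agent.H469
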