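import Pool.Agent.Helper469_Dupin.DefsD
import Pool.Agent.Helper469_Dupin.Jbcirc
import Pool.Agent.Helper469_Dupin.Jbpre
import Pool.Agent.Helper469_Dupin.Jbid
import Pool.Agent.Helper469_Dupin.Jbcomplete
import Pool.Agent.Helper469_Dupin.Jdfck
import Pool.Agent.Helper469_Dupin.Jdlim
import Pool.Agent.Helper469_Dupin.Jdgeo
import Pool.Agent.Helper469_Dupin.Jdtwo
import Pool.Agent.Helper469_Dupin.Jlop
import Pool.Agent.Helper469_Dupin.Jdupinloc
import Pool.Agent.Helper469_Dupin.Jcritiff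
import Pool.Agent.Helper469_Dupin.Jbcrit2

set_option autoImplicit false

open Set Filter Topology MeasureTheory
open scoped ContDiff InnerProductSpace

namespace Pool.Agent.H469


section TwoCirclesAux
variable {n m : ℕ} {M : Set (Eu n)} {T : Submodule ℝ (Eu n)} {g : T → Tᗮ} {O : Set T} {V : Set (Eu n)}

theorem two_circles_P (a : T) (b : Tᗮ) :
    T.orthogonalProjectionOnto ((a : Eu n) + (b : Eu n)) = a := by
  rw [map_add, Submodule.orthogonalProjectionOnto_mem_subspace_eq_self,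
    Submodule.orthogonalProjectionOnto_apply_of_mem_orthogonal b.2, add_zero]

theorem two_circles_Q (a : T) (b : Tᗮ) :
    Tᗮ.orthogonalProjectionOnto ((a : Eu n) + (b : Eu n)) = b := by
  rw [map_add, Submodule.orthogonalProjectionOnto_mem_subspace_eq_self,
    Submodule.orthogonalProjectionOnto_orthogonal_apply_eq_zero a.2, zero_add]

theorem two_circles_decomp (x : Eu n) :
    (T.orthogonalProjectionOnto x : Eu n) + (Tᗮ.orthogonalProjectionOnto x : Eu n) = x :=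
  T.starProjection_add_starProjection_orthogonal x

theorem two_circles_circ (x e ν : Eu n) (r s : ℝ) (hr : 0 < r) (he : ‖e‖ = 1) :
    circ x ν (-((2 * r)⁻¹ • e)) s =
      circA (x - r • e) e ν r (2 * Real.arctan (s / (2 * r))) := by
  set t := Real.arctan (s / (2 * r)) with ht
  have hc : 0 < Real.cos t := Real.cos_arctan_pos _
  have htan : Real.sin t = (s / (2 * r)) * Real.cos t := by
    have := Real.tan_arctan (s / (2 * r))
    rw [← ht, Real.tan_eq_sin_div_cos, div_eq_iff hc.ne'] at this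
    exact this
  have hsq := Real.sin_sq_add_cos_sq t
  have hq : ‖(-((2 * r)⁻¹ • e) : Eu n)‖ ^ 2 = ((2 * r)⁻¹) ^ 2 := by
    rw [norm_neg, norm_smul, he, mul_one, Real.norm_of_nonneg (by positivity)]
  have hC : (1 + s ^ 2 * ‖(-((2 * r)⁻¹ • e) : Eu n)‖ ^ 2)⁻¹ = Real.cos t ^ 2 := by
    rw [hq]
    have h0 : (1 + s ^ 2 * ((2 * r)⁻¹) ^ 2) ≠ 0 := by positivity
    rw [inv_eq_iff_eq_inv, eq_comm, inv_eq_iff_eq_inv, eq_comm, inv_eq_iff_eq_inv]
    have : Real.cos t ^ 2 * (1 + s ^ 2 * ((2 * r)⁻¹) ^ 2) = 1 := by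
      have h7 : Real.cos t ^ 2 * (1 + s ^ 2 * ((2 * r)⁻¹) ^ 2) =
          ((s / (2 * r)) * Real.cos t) ^ 2 + Real.cos t ^ 2 := by
        rw [div_eq_mul_inv]; ring
      rw [h7, ← htan, hsq]
    exact (eq_inv_of_mul_eq_one_right this)
  have h2 : Real.sin (2 * t) = 2 * Real.sin t * Real.cos t := Real.sin_two_mul t
  have h3 : Real.cos (2 * t) = 2 * Real.cos t ^ 2 - 1 := Real.cos_two_mul t
  have e1 : Real.cos t ^ 2 * s = r * Real.sin (2 * t) := by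
    rw [h2, htan]; field_simp
  have e2 : -(Real.cos t ^ 2 * s ^ 2 * (2 * r)⁻¹) = -r + r * Real.cos (2 * t) := by
    rw [h3]
    have : Real.cos t ^ 2 = 1 - (s / (2 * r)) ^ 2 * Real.cos t ^ 2 := by
      have h4 : Real.sin t ^ 2 = (s / (2 * r)) ^ 2 * Real.cos t ^ 2 := by rw [htan]; ring
      linarith
    have h5 : -r + r * (2 * Real.cos t ^ 2 - 1) = -(2 * r) * (1 - Real.cos t ^ 2) := by ring
    have h6 : 1 - Real.cos t ^ 2 = (s / (2 * r)) ^ 2 * Real.cos t ^ 2 := by linarith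
    rw [h5, h6]
    field_simp
  unfold circ circA
  rw [hC]
  have l1 : x + Real.cos t ^ 2 • (s • ν + s ^ 2 • (-((2 * r)⁻¹ • e))) =
      x + (Real.cos t ^ 2 * s) • ν + (-(Real.cos t ^ 2 * s ^ 2 * (2 * r)⁻¹)) • e := by
    module
  have l2 : x - r • e + r • (Real.cos (2 * t) • e + Real.sin (2 * t) • ν) =
      x + (r * Real.sin (2 * t)) • ν + (-r + r * Real.cos (2 * t)) • e := by
    module
  rw [l1, l2, e1, e2]

theorem two_circles_mem (hc : IsChart ∞ m M T g O V) (a : T)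
    (ha : a ∈ {a | a ∈ O ∧ cmap T g a ∈ V}) : cmap T g a ∈ M := by
  obtain ⟨-, h2⟩ := hc.mem (cmap T g a) ha.2
  rw [h2]
  unfold cmap
  rw [two_circles_P, two_circles_Q]

theorem two_circles_open (hc : IsChart ∞ m M T g O V) :
    IsOpen {a | a ∈ O ∧ cmap T g a ∈ V} := by
  have hcont : ContinuousOn (cmap T g) O := by
    unfold cmap
    exact continuous_subtype_val.continuousOn.add
      (continuous_subtype_val.comp_continuousOn hc.smooth.continuousOn)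
  exact hcont.isOpen_inter_preimage hc.openO hc.openV

theorem two_circles_base (hc : IsChart ∞ m M T g O V) (x₀ : Eu n) (hx : x₀ ∈ M) (hxV : x₀ ∈ V)
    (p₀ : Eu n × ℝ) (hcr : x₀ ∈ critSet M (fam p₀)) :
    T.orthogonalProjectionOnto x₀ ∈ {a | a ∈ O ∧ cmap T g a ∈ V} ∧
    cmap T g (T.orthogonalProjectionOnto x₀) = x₀ ∧
    nvec T g (T.orthogonalProjectionOnto x₀, Tᗮ.orthogonalProjectionOnto (p₀.1 - p₀.2 • x₀)) =
      p₀.1 - p₀.2 • x₀ := by
  obtain ⟨h1, h2⟩ := hc.mem x₀ hxV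
  have h3 := h2.1 hx
  have h4 : cmap T g (T.orthogonalProjectionOnto x₀) = x₀ := by
    unfold cmap
    rw [← h3]
    exact two_circles_decomp x₀
  refine ⟨⟨h1, by rw [h4]; exact hxV⟩, h4, ?_⟩
  obtain ⟨b, hb⟩ := (crit_iff hc x₀ hx hxV p₀).1 hcr
  have h5 : p₀.1 - p₀.2 • x₀ =
      ((-(nrm g (T.orthogonalProjectionOnto x₀) b) : T) : Eu n) + (b : Eu n) := by
    have h6 : p₀.1 = (Jmap T (Th g (T.orthogonalProjectionOnto x₀, b, p₀.2))).1 := by rw [← hb]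
    generalize T.orthogonalProjectionOnto x₀ = a at h4 h6
    generalize p₀.2 = ε at h6
    rw [h6, ← h4]
    unfold Jmap Th cmap
    simp only [ContinuousLinearMap.prod_apply, _root_.add_apply,
      ContinuousLinearMap.comp_apply, ContinuousLinearMap.coe_fst', ContinuousLinearMap.coe_snd',
      Submodule.subtypeL_apply, Submodule.coe_sub, Submodule.coe_add, Submodule.coe_smul,
      Submodule.coe_neg]
    module
  rw [h5, two_circles_Q]
  rfl

theorem two_circles_conv (hc : IsChart ∞ m M T g O V) (x₀ : Eu n) (hx : x₀ ∈ M) (hxV : x₀ ∈ V)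
    (p₀ : Eu n × ℝ) (hcr : x₀ ∈ critSet M (fam p₀)) (z : ℕ → T × Tᗮ) (ε : ℕ → ℝ)
    (hz : Tendsto z atTop (𝓝 (T.orthogonalProjectionOnto x₀,
      Tᗮ.orthogonalProjectionOnto (p₀.1 - p₀.2 • x₀)))) (hε : Tendsto ε atTop (𝓝 p₀.2)) :
    Tendsto (fun i => xpt T g (z i)) atTop (𝓝 x₀) ∧
    Tendsto (fun i => (nvec T g (z i) + ε i • xpt T g (z i), ε i)) atTop (𝓝 p₀) := by
  obtain ⟨h1, h2, h3⟩ := two_circles_base hc x₀ hx hxV p₀ hcr
  set z₀ : T × Tᗮ := (T.orthogonalProjectionOnto x₀,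
      Tᗮ.orthogonalProjectionOnto (p₀.1 - p₀.2 • x₀)) with hz₀
  have ho : O ∈ 𝓝 z₀.1 := hc.openO.mem_nhds h1.1
  have c1 : ContinuousAt (xpt T g) z₀ := by
    have hg : ContinuousAt g z₀.1 := hc.smooth.continuousOn.continuousAt ho
    unfold xpt cmap
    have k1 : ContinuousAt (fun z : T × Tᗮ => ((z.1 : T) : Eu n)) z₀ :=
      (continuous_subtype_val.comp continuous_fst).continuousAt
    have k2 : ContinuousAt (fun z : T × Tᗮ => ((g z.1 : Tᗮ) : Eu n)) z₀ :=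
      continuous_subtype_val.continuousAt.comp (hg.comp continuous_fst.continuousAt)
    exact k1.add k2
  have c2 : ContinuousAt (nvec T g) z₀ := by
    have hf : ContinuousAt (fderiv ℝ g) z₀.1 :=
      (hc.smooth.continuousOn_fderiv_of_isOpen hc.openO (by norm_num)).continuousAt ho
    have ha : ContinuousAt (fun z : T × Tᗮ =>
        (ContinuousLinearMap.adjoint (fderiv ℝ g z.1) : Tᗮ →L[ℝ] T) z.2) z₀ := by
      refine ContinuousAt.clm_apply ?_ continuous_snd.continuousAt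
      exact (LinearIsometryEquiv.continuous ContinuousLinearMap.adjoint).continuousAt.comp
        (hf.comp continuous_fst.continuousAt)
    unfold nvec nrm
    have k1 : ContinuousAt (fun z : T × Tᗮ =>
        ((-(ContinuousLinearMap.adjoint (fderiv ℝ g z.1) z.2) : T) : Eu n)) z₀ :=
      continuous_subtype_val.continuousAt.comp ha.neg
    have k2 : ContinuousAt (fun z : T × Tᗮ => ((z.2 : Tᗮ) : Eu n)) z₀ :=
      (continuous_subtype_val.comp continuous_snd).continuousAt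
    exact k1.add k2
  have t1 : Tendsto (fun i => xpt T g (z i)) atTop (𝓝 x₀) := by
    have := c1.tendsto.comp hz
    have e : xpt T g z₀ = x₀ := h2
    rw [e] at this
    exact this
  have t2 : Tendsto (fun i => nvec T g (z i)) atTop (𝓝 (p₀.1 - p₀.2 • x₀)) := by
    have := c2.tendsto.comp hz
    rw [h3] at this
    exact this
  refine ⟨t1, ?_⟩
  have t3 : Tendsto (fun i => nvec T g (z i) + ε i • xpt T g (z i)) atTop (𝓝 p₀.1) := by
    have := t2.add (hε.smul t1)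
    rw [sub_add_cancel] at this
    exact this
  exact t3.prodMk_nhds hε

theorem two_circles_side (hM : IsSubmanifold ∞ m M) (hcpt : IsCompact M) (hD : IsDupin M)
    (hc : IsChart ∞ m M T g O V) (x₀ : Eu n) (hx : x₀ ∈ M) (hxV : x₀ ∈ V) (p₀ : Eu n × ℝ)
    (hcr : x₀ ∈ critSet M (fam p₀)) (hnull : Module.finrank ℝ (nullK T g x₀ p₀) = 2)
    (hb : p₀.1 ≠ p₀.2 • x₀) (z : ℕ → T × Tᗮ) (ε : ℕ → ℝ) (k : ℕ → T)
    (hz : Tendsto z atTop (𝓝 (T.orthogonalProjectionOnto x₀,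
      Tᗮ.orthogonalProjectionOnto (p₀.1 - p₀.2 • x₀)))) (hε : Tendsto ε atTop (𝓝 p₀.2))
    (hzO : ∀ i, (z i).1 ∈ {a | a ∈ O ∧ cmap T g a ∈ V}) (hz2 : ∀ i, (z i).2 ≠ 0)
    (hk : ∀ i, k i ≠ 0)
    (hker : ∀ i, ∀ u, Lop g (z i).1 (z i).2 (ε i) u = 0 ↔ ∃ r : ℝ, u = r • k i) :
    ∃ (N : ℕ → Set (T × Tᗮ)) (ρ : ℕ → T × Tᗮ → ℝ) (e : ℕ → T × Tᗮ → Eu n) (B : ℝ),
      (∀ i, LeafPre T g {a | a ∈ O ∧ cmap T g a ∈ V} (N i) (ρ i) (e i)) ∧ (∀ i, z i ∈ N i) ∧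
      (∀ i, ρ i (z i) = ε i) ∧ ∀ᶠ i in atTop, ‖qf T (ρ i) (e i) (z i)‖ ≤ B := by
  have hOp := two_circles_open hc
  have hgO : ContDiffOn ℝ ∞ g {a | a ∈ O ∧ cmap T g a ∈ V} := hc.smooth.mono fun a ha => ha.1
  have hDL : DupinLoc g {a | a ∈ O ∧ cmap T g a ∈ V} := dupinLoc_of_isDupin hc hD
  choose N δ ρ e hN using fun i => leaf_pre hOp hgO hDL (z i).1 (z i).2 (ε i) (hzO i) (hz2 i)
    (k i) (hk i) (hker i)
  have hzN : ∀ i, z i ∈ N i := fun i => (hN i).2.2.1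
  have hρz : ∀ i, ρ i (z i) = ε i := fun i => (hN i).2.2.2.1
  have hcirc : ∀ i, ∃ (c e ν : Eu n) (r : ℝ), 0 < r ∧ ‖e‖ = 1 ∧ ‖ν‖ = 1 ∧ ⟪e, ν⟫_ℝ = 0 ∧
      circA c e ν r 0 = xpt T g (z i) ∧
      (∃ s : ℝ, T.orthogonalProjectionOnto ν = s • k i) ∧
      ∀ θ : ℝ, circA c e ν r θ ∈ critSet M (fam (nvec T g (z i) + ε i • xpt T g (z i), ε i)) ∧
        ∀ (T' : Submodule ℝ (Eu n)) (g' : T' → T'ᗮ) (O' : Set T') (V' : Set (Eu n)),
          IsChart ∞ m M T' g' O' V' → circA c e ν r θ ∈ V' →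
          T'.orthogonalProjectionOnto (circT e ν θ) ≠ 0 ∧
          ∀ u : T', u ∈ nullK T' g' (circA c e ν r θ)
            (nvec T g (z i) + ε i • xpt T g (z i), ε i) ↔
            ∃ s : ℝ, u = s • T'.orthogonalProjectionOnto (circT e ν θ) := by
    intro i
    have hP : T.orthogonalProjectionOnto (xpt T g (z i)) = (z i).1 := two_circles_P _ _
    have hQ : Tᗮ.orthogonalProjectionOnto (nvec T g (z i)) = (z i).2 := two_circles_Q _ _
    refine full_circle_ker hM hcpt hD hc (xpt T g (z i)) (two_circles_mem hc _ (hzO i))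
      (hzO i).2 _ (leaf_crit hc (z i) (hzO i).1 (hzO i).2 (ε i)) ?_ (k i) (hk i) ?_
    · intro h
      apply hz2 i
      rw [← hQ]
      have : nvec T g (z i) = 0 := by
        have h' : nvec T g (z i) + ε i • xpt T g (z i) = ε i • xpt T g (z i) := h
        simpa using h'
      rw [this, map_zero]
    · intro u
      unfold nullK
      rw [LinearMap.mem_ker]
      simp only [add_sub_cancel_right, hP, hQ]
      exact hker i u
  choose c e' ν r hr he' hν hev hA0 _ hall using hcirc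
  obtain ⟨r₀, hr₀, htrap⟩ := trap_geo hM hcpt hD hc x₀ hx hxV p₀ hcr hnull hb
  obtain ⟨t1, t2⟩ := two_circles_conv hc x₀ hx hxV p₀ hcr z ε hz hε
  refine ⟨N, ρ, e, 1 / r₀, fun i => (hN i).1, hzN, hρz, ?_⟩
  have ev1 : ∀ᶠ i in atTop, ‖(nvec T g (z i) + ε i • xpt T g (z i), ε i) - p₀‖ < r₀ := by
    have := (tendsto_iff_norm_sub_tendsto_zero.1 t2)
    exact this.eventually_lt_const hr₀
  have ev2 : ∀ᶠ i in atTop, ‖xpt T g (z i) - x₀‖ < r₀ / 2 := by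
    have := (tendsto_iff_norm_sub_tendsto_zero.1 t1)
    exact this.eventually_lt_const (by positivity)
  filter_upwards [ev1, ev2] with i h1 h2
  have hcx : c i = xpt T g (z i) - r i • e' i := by
    have := hA0 i
    unfold circA at this
    rw [Real.cos_zero, Real.sin_zero, one_smul, zero_smul, add_zero] at this
    rw [← this, add_sub_cancel_right]
  have hri : r₀ / 2 ≤ r i := by
    by_contra hlt
    push Not at hlt
    have hcn : ‖c i - x₀‖ < r₀ := by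
      rw [hcx]
      calc ‖xpt T g (z i) - r i • e' i - x₀‖ = ‖(xpt T g (z i) - x₀) - r i • e' i‖ := by
            congr 1; abel
        _ ≤ ‖xpt T g (z i) - x₀‖ + ‖r i • e' i‖ := norm_sub_le _ _
        _ < r₀ / 2 + r₀ / 2 := by
            rw [norm_smul, he' i, mul_one, Real.norm_of_nonneg (hr i).le]
            linarith
        _ = r₀ := by ring
    have := htrap _ (c i) (e' i) (ν i) (r i) h1 hcn (hr i) (he' i) (hν i) (hev i)
      (fun θ => ⟨(hall i θ).1, fun hV => (hall i θ).2 T g O V hc hV⟩)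
    linarith
  have hcomp := leaf_complete hc (hN i).1 (ε i) (δ i) (hN i).2.2.2.2.2 (z i) (hzN i) (ε i)
    (by rw [sub_self, abs_zero]; exact (hN i).2.1) (ν i) (-((2 * r i)⁻¹ • e' i)) (hν i)
    (by rw [inner_neg_right, inner_smul_right, real_inner_comm, hev i]; simp) 1 one_pos
    (fun s _ => by
      rw [two_circles_circ _ _ _ _ _ (hr i) (he' i), ← hcx]
      exact (hall i _).1)
  rw [← hcomp.2.2, norm_neg, norm_smul, he' i, mul_one,
    Real.norm_of_nonneg (inv_nonneg.2 (mul_nonneg zero_le_two (hr i).le)), one_div]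
  exact inv_anti₀ hr₀ (by linarith)

theorem two_circles_gop (g : T → Tᗮ) (a : T) (u v : T) :
    ⟪Gop g a u, v⟫_ℝ = ⟪u, v⟫_ℝ + ⟪fderiv ℝ g a u, fderiv ℝ g a v⟫_ℝ := by
  unfold Gop
  rw [_root_.add_apply, ContinuousLinearMap.id_apply, ContinuousLinearMap.comp_apply,
    inner_add_left, ContinuousLinearMap.adjoint_inner_left]

theorem two_circles_orth {N N' : Set (T × Tᗮ)} {ρ ρ' : T × Tᗮ → ℝ} {e e' : T × Tᗮ → Eu n}
    {O' : Set T} (h : LeafPre T g O' N ρ e) (h' : LeafPre T g O' N' ρ' e') (z : T × Tᗮ)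
    (hz : z ∈ N) (hz' : z ∈ N') (k k' : T)
    (hk : ∀ u, Lop g z.1 z.2 (ρ z) u = 0 ↔ ∃ r : ℝ, u = r • k)
    (hk' : ∀ u, Lop g z.1 z.2 (ρ' z) u = 0 ↔ ∃ r : ℝ, u = r • k')
    (hkk : ⟪Gop g z.1 k, k'⟫_ℝ = 0) : ⟪e z, e' z⟫_ℝ = 0 := by
  have a1 : ∃ r : ℝ, T.orthogonalProjectionOnto (e z) = r • k :=
    (hk _).1 ((h.ker z hz _).2 ⟨1, (one_smul _ _).symm⟩)
  have a2 : ∃ r : ℝ, T.orthogonalProjectionOnto (e' z) = r • k' :=
    (hk' _).1 ((h'.ker z hz' _).2 ⟨1, (one_smul _ _).symm⟩)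
  obtain ⟨r, hr⟩ := a1
  obtain ⟨r', hr'⟩ := a2
  have b1 : e z = (T.orthogonalProjectionOnto (e z) : Eu n) +
      (Tᗮ.orthogonalProjectionOnto (e z) : Eu n) := (two_circles_decomp _).symm
  have b2 : e' z = (T.orthogonalProjectionOnto (e' z) : Eu n) +
      (Tᗮ.orthogonalProjectionOnto (e' z) : Eu n) := (two_circles_decomp _).symm
  rw [b1, b2, h.tang z hz, h'.tang z hz', hr, hr']
  have c1 : ⟪((r • k : T) : Eu n), ((fderiv ℝ g z.1 (r' • k') : Tᗮ) : Eu n)⟫_ℝ = 0 :=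
    Submodule.inner_right_of_mem_orthogonal (r • k : T).2 (fderiv ℝ g z.1 (r' • k') : Tᗮ).2
  have c2 : ⟪((fderiv ℝ g z.1 (r • k) : Tᗮ) : Eu n), ((r' • k' : T) : Eu n)⟫_ℝ = 0 :=
    Submodule.inner_left_of_mem_orthogonal (r' • k' : T).2 (fderiv ℝ g z.1 (r • k) : Tᗮ).2
  rw [inner_add_left, inner_add_right, inner_add_right, c1, c2, add_zero, zero_add]
  have d : ⟪(k : Eu n), (k' : Eu n)⟫_ℝ + ⟪((fderiv ℝ g z.1 k : Tᗮ) : Eu n),
      ((fderiv ℝ g z.1 k' : Tᗮ) : Eu n)⟫_ℝ = 0 := by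
    have := two_circles_gop g z.1 k k'
    rw [hkk] at this
    exact this.symm
  rw [map_smul, map_smul, Submodule.coe_smul, Submodule.coe_smul, Submodule.coe_smul,
    Submodule.coe_smul, real_inner_smul_left, real_inner_smul_left, real_inner_smul_right,
    real_inner_smul_right]
  linear_combination (r * r') * d

theorem two_circles_csub {Z F : Type} [TopologicalSpace Z] [NormedAddCommGroup F]
    [InnerProductSpace ℝ F] {f h : Z → F →L[ℝ] F} {z : Z} (hf : ContinuousAt f z) (hh : ContinuousAt h z) :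
    ContinuousAt (fun x => f x - h x) z := hf.sub hh

theorem two_circles_cneg {Z F : Type} [TopologicalSpace Z] [NormedAddCommGroup F]
    [InnerProductSpace ℝ F] {f : Z → F →L[ℝ] F} {z : Z} (hf : ContinuousAt f z) : ContinuousAt (fun x => -f x) z := hf.neg

end TwoCirclesAux

/-! PLAIN PROOF OF THE TARGET(S)

z0 = (P x0, Q(p0.1 - p0.2 x0)), ε0 = p0.2; Lop g a b ε = ε Gop g a - Hop g a b; nullK T g x0 p0 = ker Lop g z0 ε0.  Suppose the first alternative fails: there is δ > 0 such that for z arbitrarily near z0 there is no ε with |ε - ε0| < δ and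
finrank ker = 2.  By two_eigs (G z = Gop g z.1, H z = Hop g z.1 z.2; symmetric: lop_symm, continuity: lop_smooth or directly) with δ_i → 0 we get a sequence z_i → z0 in {z.1 ∈ O', z.2 ≠ 0} (O' = {a ∈ O | cmap a ∈ V}) and for l = 1, 2
numbers ε_i^l → ε0 and vectors k_i^l ≠ 0 with ker Lop g z_i ε_i^l = R k_i^l and <Gop k_i^1, k_i^2> = 0 (the first alternative of two_eigs is excluded for δ_i ≤ δ).
For each i, l: leaf_pre at z_i: LeafPre T g O' N ρ e with z_i ∈ N, ρ z_i = ε_i^l.  x_i = xpt z_i → x0, p_i = (wpt z_i, ρ z_i) → p0, x_i is critical for fam p_i (leaf_crit), nullK T g x_i p_i = R k_i^l, p_i.1 - p_i.2 x_i = nvec z_i ≠ 0.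
full_circle_ker: a circle circA c_i e_i' ν_i r_i with circA(0) = x_i, all of whose points are critical with kernel R P circT.  trap_geo gives r0 with: r_i < r0/2 would imply |c_i - x0| ≤ |x_i - x0| + r_i < r0 and |p_i - p0| < r0 for large i, so
r_i ≥ r0/2 for large i.  Since circA c e' ν r θ = circ x (ν) (-(2r)⁻¹ e') (2 r tan(θ/2)) (with |q| = 1/(2r)), the arc near x_i is critical, so leaf_complete (with the uniqueness statement of leaf_pre) gives e(z_i) = ± ν_i and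
qf(z_i) = -(2 r_i)⁻¹ e_i', so |qf(z_i)| ≤ 1/r0.  Pass to a subsequence with e(z_i) → e_l, qf(z_i) → q_l (bounded sequences in R^n).  |e_l| = 1, <e_l,q_l> = 0.  limit_circle gives the statements for circ x0 e_l q_l s (nullity ≥ 2 in the
chart T when the point is in V).  e_1 ⊥ e_2: e(z_i) = P e + Dg(P e) (LeafPre.tang), P e ∈ R k_i^l, and <u + Dg u, v + Dg v> = <Gop u, v>.  (A common subsequence for l = 1, 2.)
-/

section
variable {n m : ℕ} {M : Set (Eu n)} {T : Submodule ℝ (Eu n)} {g : T → Tᗮ} {O : Set T} {V : Set (Eu n)}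

/-- TARGET -/
theorem two_circles (hM : IsSubmanifold ∞ m M) (hcpt : IsCompact M) (hD : IsDupin M)
    (hc : IsChart ∞ m M T g O V) (x₀ : Eu n) (hx : x₀ ∈ M) (hxV : x₀ ∈ V) (p₀ : Eu n × ℝ)
    (hcr : x₀ ∈ critSet M (fam p₀)) (hnull : Module.finrank ℝ (nullK T g x₀ p₀) = 2)
    (hb : p₀.1 ≠ p₀.2 • x₀) :
    (∀ δ > 0, ∀ᶠ z in 𝓝 ((T.orthogonalProjectionOnto x₀,
        Tᗮ.orthogonalProjectionOnto (p₀.1 - p₀.2 • x₀)) : T × Tᗮ), ∃ ε, |ε - p₀.2| < δ ∧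
        Module.finrank ℝ (LinearMap.ker (Lop g z.1 z.2 ε : T →ₗ[ℝ] T)) = 2) ∨
    ∃ e₁ q₁ e₂ q₂ : Eu n, ‖e₁‖ = 1 ∧ ‖e₂‖ = 1 ∧ ⟪e₁, e₂⟫_ℝ = 0 ∧ ⟪e₁, q₁⟫_ℝ = 0 ∧ ⟪e₂, q₂⟫_ℝ = 0 ∧
      ∀ s : ℝ,
        (circ x₀ e₁ q₁ s ∈ critSet M (fam p₀) ∧ (circ x₀ e₁ q₁ s ∈ V →
          2 ≤ Module.finrank ℝ (nullK T g (circ x₀ e₁ q₁ s) p₀))) ∧
        (circ x₀ e₂ q₂ s ∈ critSet M (fam p₀) ∧ (circ x₀ e₂ q₂ s ∈ V →
          2 ≤ Module.finrank ℝ (nullK T g (circ x₀ e₂ q₂ s) p₀))) := by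
  obtain ⟨hz1, hz2, hz3⟩ := two_circles_base hc x₀ hx hxV p₀ hcr
  set z₀ : T × Tᗮ := (T.orthogonalProjectionOnto x₀,
      Tᗮ.orthogonalProjectionOnto (p₀.1 - p₀.2 • x₀)) with hz₀
  have hz₀1 : z₀.1 ∈ {a | a ∈ O ∧ cmap T g a ∈ V} := hz1
  have hz₀2 : z₀.2 ≠ 0 := by
    intro h
    apply hb
    have h1 : nvec T g z₀ = 0 := by
      unfold nvec nrm
      rw [h, map_zero]
      simp
    rw [h1] at hz3
    exact (sub_eq_zero.1 hz3.symm)
  by_cases hfirst : (∀ δ > 0, ∀ᶠ z in 𝓝 z₀, ∃ ε, |ε - p₀.2| < δ ∧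
        Module.finrank ℝ (LinearMap.ker (Lop g z.1 z.2 ε : T →ₗ[ℝ] T)) = 2)
  · exact Or.inl hfirst
  right
  push Not at hfirst
  obtain ⟨δs, hδs, hfreq⟩ := hfirst
  -- continuity
  have hLc : ∀ t : ℝ, ContinuousAt (fun z : T × Tᗮ => Lop g z.1 z.2 t) z₀ := by
    intro t
    have hs := (lop_smooth g O hc.openO hc.smooth).continuousOn
    have ho : IsOpen {p : (T × Tᗮ) × ℝ | p.1.1 ∈ O} :=
      hc.openO.preimage (continuous_fst.comp continuous_fst)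
    have h1 := hs.continuousAt (ho.mem_nhds (show ((z₀, t) : (T × Tᗮ) × ℝ) ∈ _ from hz₀1.1))
    have h2 : ContinuousAt (fun z : T × Tᗮ => ((z, t) : (T × Tᗮ) × ℝ)) z₀ :=
      (continuous_id.prodMk continuous_const).continuousAt
    exact ContinuousAt.comp (f := fun z : T × Tᗮ => ((z, t) : (T × Tᗮ) × ℝ)) h1 h2
  have hG : ContinuousAt (fun z : T × Tᗮ => Gop g z.1) z₀ := by
    have := two_circles_csub (hLc 1) (hLc 0)
    refine this.congr (Eventually.of_forall fun z => ?_)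
    simp only [Lop]
    rw [one_smul, zero_smul, sub_sub_sub_cancel_right, sub_zero]
  have hH : ContinuousAt (fun z : T × Tᗮ => Hop g z.1 z.2) z₀ := by
    have := two_circles_cneg (hLc 0)
    refine this.congr (Eventually.of_forall fun z => ?_)
    simp only [Lop]
    rw [zero_smul, zero_sub, neg_neg]
  have hOev : ∀ᶠ z in 𝓝 z₀, z.1 ∈ {a | a ∈ O ∧ cmap T g a ∈ V} :=
    continuous_fst.continuousAt.eventually ((two_circles_open hc).mem_nhds hz₀1)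
  have hbev : ∀ᶠ z in 𝓝 z₀, z.2 ≠ 0 :=
    continuous_snd.continuousAt.eventually (isOpen_ne.mem_nhds hz₀2)
  have hHs : ∀ᶠ z in 𝓝 z₀, ∀ u v : T, ⟪Hop g z.1 z.2 u, v⟫_ℝ = ⟪u, Hop g z.1 z.2 v⟫_ℝ := by
    filter_upwards [hOev] with z hz u v
    have := lop_symm g O hc.openO hc.smooth z.1 hz.1 z.2 0 u v
    simp only [Lop, zero_smul, zero_sub, _root_.neg_apply, inner_neg_left,
      inner_neg_right, neg_inj] at this
    exact this
  have hGs : ∀ (z : T × Tᗮ) (u v : T), ⟪Gop g z.1 u, v⟫_ℝ = ⟪u, Gop g z.1 v⟫_ℝ := by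
    intro z u v
    rw [real_inner_comm (Gop g z.1 v) u, two_circles_gop, two_circles_gop, real_inner_comm u v,
      real_inner_comm (fderiv ℝ g z.1 u)]
  have hGp : ∀ (z : T × Tᗮ) (u : T), u ≠ 0 → 0 < ⟪Gop g z.1 u, u⟫_ℝ := by
    intro z u hu
    rw [two_circles_gop]
    exact add_pos_of_pos_of_nonneg (real_inner_self_pos.2 hu) real_inner_self_nonneg
  have hex : ∀ i : ℕ, ∃ z : T × Tᗮ, dist z z₀ < 1 / ((i : ℝ) + 1) ∧
      z.1 ∈ {a | a ∈ O ∧ cmap T g a ∈ V} ∧ z.2 ≠ 0 ∧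
      ∃ (ε₁ ε₂ : ℝ) (k₁ k₂ : T), ε₁ ≠ ε₂ ∧ |ε₁ - p₀.2| < 1 / ((i : ℝ) + 1) ∧
        |ε₂ - p₀.2| < 1 / ((i : ℝ) + 1) ∧ k₁ ≠ 0 ∧ k₂ ≠ 0 ∧
        (∀ u, (ε₁ • Gop g z.1 - Hop g z.1 z.2) u = 0 ↔ ∃ r : ℝ, u = r • k₁) ∧
        (∀ u, (ε₂ • Gop g z.1 - Hop g z.1 z.2) u = 0 ↔ ∃ r : ℝ, u = r • k₂) ∧
        ⟪Gop g z.1 k₁, k₂⟫_ℝ = 0 := by
    intro i
    have hi : (0 : ℝ) < 1 / ((i : ℝ) + 1) := by positivity
    have e1 := two_eigs (fun z : T × Tᗮ => Gop g z.1) (fun z : T × Tᗮ => Hop g z.1 z.2) z₀ hG hH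
      hGs hHs hGp p₀.2 hnull (min δs (1 / ((i : ℝ) + 1))) (lt_min hδs hi)
    have e2 : ∀ᶠ z in 𝓝 z₀, dist z z₀ < 1 / ((i : ℝ) + 1) := Metric.ball_mem_nhds _ hi
    obtain ⟨z, hz, h1, h2, h3, h4⟩ := (hfreq.and_eventually (e1.and (e2.and (hOev.and hbev)))).exists
    refine ⟨z, h2, h3, h4, ?_⟩
    rcases h1 with ⟨ε, hε, hfr⟩ | ⟨ε₁, ε₂, k₁, k₂, g1, g2, g3, g4, g5, g6, g7, g8⟩
    · exact absurd hfr (hz ε (lt_of_lt_of_le hε (min_le_left _ _)))
    · exact ⟨ε₁, ε₂, k₁, k₂, g1, lt_of_lt_of_le g2 (min_le_right _ _),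
        lt_of_lt_of_le g3 (min_le_right _ _), g4, g5, g6, g7, g8⟩
  choose z hzd hzO hzb ε₁ ε₂ k₁ k₂ _ hε₁ hε₂ hk₁ hk₂ hker₁ hker₂ horth using hex
  have hzt : Tendsto z atTop (𝓝 z₀) := by
    rw [tendsto_iff_dist_tendsto_zero]
    exact squeeze_zero (fun _ => dist_nonneg) (fun i => (hzd i).le)
      tendsto_one_div_add_atTop_nhds_zero_nat
  have hεt : ∀ ε : ℕ → ℝ, (∀ i : ℕ, |ε i - p₀.2| < 1 / ((i : ℝ) + 1)) →
      Tendsto ε atTop (𝓝 p₀.2) := by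
    intro ε h
    rw [tendsto_iff_dist_tendsto_zero]
    exact squeeze_zero (fun _ => dist_nonneg) (fun i => (by rw [Real.dist_eq]; exact (h i).le))
      tendsto_one_div_add_atTop_nhds_zero_nat
  obtain ⟨N₁, ρ₁, e₁, B₁, hL₁, hN₁, hρ₁, hB₁⟩ := two_circles_side hM hcpt hD hc x₀ hx hxV p₀ hcr
    hnull hb z ε₁ k₁ hzt (hεt ε₁ hε₁) hzO hzb hk₁ hker₁
  obtain ⟨N₂, ρ₂, e₂, B₂, hL₂, hN₂, hρ₂, hB₂⟩ := two_circles_side hM hcpt hD hc x₀ hx hxV p₀ hcr
    hnull hb z ε₂ k₂ hzt (hεt ε₂ hε₂) hzO hzb hk₂ hker₂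
  -- common subsequence
  set w : ℕ → (Eu n × Eu n) × (Eu n × Eu n) := fun i =>
    ((e₁ i (z i), qf T (ρ₁ i) (e₁ i) (z i)), (e₂ i (z i), qf T (ρ₂ i) (e₂ i) (z i))) with hw
  set R : ℝ := max 1 (max B₁ B₂) with hR
  have hwb : ∀ᶠ i in atTop, w i ∈ Metric.closedBall (0 : (Eu n × Eu n) × (Eu n × Eu n)) R := by
    filter_upwards [hB₁, hB₂] with i h1 h2
    rw [mem_closedBall_zero_iff, hw]
    simp only [Prod.norm_def]
    refine max_le (max_le ?_ ?_) (max_le ?_ ?_)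
    · rw [(hL₁ i).unit _ (hN₁ i)]; exact le_max_left _ _
    · exact h1.trans ((le_max_left _ _).trans (le_max_right _ _))
    · rw [(hL₂ i).unit _ (hN₂ i)]; exact le_max_left _ _
    · exact h2.trans ((le_max_right _ _).trans (le_max_right _ _))
  obtain ⟨⟨⟨a₁, b₁⟩, ⟨a₂, b₂⟩⟩, -, φ, hφ, hlim⟩ :=
    tendsto_subseq_of_frequently_bounded Metric.isBounded_closedBall hwb.frequently
  have l1 : Tendsto (fun i => e₁ (φ i) (z (φ i))) atTop (𝓝 a₁) :=
    (continuous_fst.comp continuous_fst).continuousAt.tendsto.comp hlim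
  have l2 : Tendsto (fun i => qf T (ρ₁ (φ i)) (e₁ (φ i)) (z (φ i))) atTop (𝓝 b₁) :=
    (continuous_snd.comp continuous_fst).continuousAt.tendsto.comp hlim
  have l3 : Tendsto (fun i => e₂ (φ i) (z (φ i))) atTop (𝓝 a₂) :=
    (continuous_fst.comp continuous_snd).continuousAt.tendsto.comp hlim
  have l4 : Tendsto (fun i => qf T (ρ₂ (φ i)) (e₂ (φ i)) (z (φ i))) atTop (𝓝 b₂) :=
    (continuous_snd.comp continuous_snd).continuousAt.tendsto.comp hlim
  have hgO : ContDiffOn ℝ ∞ g {a | a ∈ O ∧ cmap T g a ∈ V} := hc.smooth.mono fun a ha => ha.1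
  have hOp := two_circles_open hc
  have hφt : Tendsto φ atTop atTop := hφ.tendsto_atTop
  have hw₁ : ∀ i, (wpt T g (ρ₁ i) (z i), ρ₁ i (z i)) =
      (nvec T g (z i) + ε₁ i • xpt T g (z i), ε₁ i) := by
    intro i; unfold wpt; rw [hρ₁ i]
  have hw₂ : ∀ i, (wpt T g (ρ₂ i) (z i), ρ₂ i (z i)) =
      (nvec T g (z i) + ε₂ i • xpt T g (z i), ε₂ i) := by
    intro i; unfold wpt; rw [hρ₂ i]
  obtain ⟨c1, c2⟩ := two_circles_conv hc x₀ hx hxV p₀ hcr z ε₁ hzt (hεt ε₁ hε₁)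
  obtain ⟨-, c3⟩ := two_circles_conv hc x₀ hx hxV p₀ hcr z ε₂ hzt (hεt ε₂ hε₂)
  have hn2 : 2 ≤ Module.finrank ℝ (nullK T g x₀ p₀) := hnull.ge
  refine ⟨a₁, b₁, a₂, b₂, ?_, ?_, ?_, ?_, ?_, ?_⟩
  · refine tendsto_nhds_unique l1.norm ?_
    exact tendsto_const_nhds.congr fun i => ((hL₁ _).unit _ (hN₁ _)).symm
  · refine tendsto_nhds_unique l3.norm ?_
    exact tendsto_const_nhds.congr fun i => ((hL₂ _).unit _ (hN₂ _)).symm
  · refine tendsto_nhds_unique (l1.inner l3) ?_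
    refine tendsto_const_nhds.congr fun i => ?_
    refine (two_circles_orth (hL₁ _) (hL₂ _) (z (φ i)) (hN₁ _) (hN₂ _) (k₁ (φ i)) (k₂ (φ i))
      ?_ ?_ (horth _)).symm
    · rw [hρ₁]; exact hker₁ _
    · rw [hρ₂]; exact hker₂ _
  · refine tendsto_nhds_unique (l1.inner l2) ?_
    exact tendsto_const_nhds.congr fun i =>
      ((leaf_id hOp hgO (hL₁ _) _ (hN₁ _)).2.2.2.1).symm
  · refine tendsto_nhds_unique (l3.inner l4) ?_
    exact tendsto_const_nhds.congr fun i =>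
      ((leaf_id hOp hgO (hL₂ _) _ (hN₂ _)).2.2.2.1).symm
  · intro s
    have r1 := limit_circle hM hcpt hD hc x₀ hx hxV p₀ hcr hn2 hb a₁ b₁
      (fun i => N₁ (φ i)) (fun i => ρ₁ (φ i)) (fun i => e₁ (φ i)) (fun i => z (φ i))
      (fun i => hL₁ _) (fun i => hN₁ _) (c1.comp hφt)
      (by simp_rw [hw₁]; exact c2.comp hφt) l1 l2 s
    have r2 := limit_circle hM hcpt hD hc x₀ hx hxV p₀ hcr hn2 hb a₂ b₂
      (fun i => N₂ (φ i)) (fun i => ρ₂ (φ i)) (fun i => e₂ (φ i)) (fun i => z (φ i))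
      (fun i => hL₂ _) (fun i => hN₂ _) (c1.comp hφt)
      (by simp_rw [hw₂]; exact c3.comp hφt) l3 l4 s
    exact ⟨⟨r1.1, fun hV => r1.2 T g O V hc hV⟩, ⟨r2.1, fun hV => r2.2 T g O V hc hV⟩⟩

end


end Pool.Agent.H469
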