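import Pool.Agent.Helper469_Dupin.DefsD
import Pool.Agent.Helper469_Dupin.Jdred
import Pool.Agent.Helper469_Dupin.Jdredf
import Pool.Agent.Helper469_Dupin.Jdtwoc
import Pool.Agent.Helper469_Dupin.Jdcase
import Pool.Agent.Helper469_Dupin.Jdtouch
import Pool.Agent.Helper469_Dupin.Jbrcrit
import Pool.Agent.Helper469_Dupin.Jcritiff
import Pool.Agent.Helper469_Dupin.Jfamd
import Pool.Agent.Helper469_Dupin.Jbcirc
import Pool.Agent.Helper469_Dupin.Jbrvel

set_option autoImplicit false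

open Set Filter Topology MeasureTheory
open scoped ContDiff InnerProductSpace

namespace Pool.Agent.H469


/-! PLAIN PROOF OF THE TARGET(S)

K = nullK T g x0 p0, dim K = 2.  red_exists (S = univ, or a set making p0.1 ≠ p0.2 φ(a) hold): U, W, A.  h(u) = redHp T g K A p0 u, defined near u = 0 ((u,p0) ∈ U open).  Let AA = {u : (u,p0) ∈ U, Dh(u) = 0, D²h(u) = 0}; 0 ∈ AA (x0 critical; D²h(0) = D²f(a0) on K = 0).  Choose r with
the closed ball of radius r in the slice of U and p0.1 ≠ p0.2 φ(A(u,p0)) there (hb, continuity).  AA ∩ closedBall is closed (continuity of Dh, D²h).  We verify the hypothesis of touching with A = AA.  Let a ∈ AA, |a| < r, xa = φ(A(a,p0)) ∈ M ∩ V, critical for fam p0 (red_facts),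
nullK T g xa p0 is the image of K under the injective J (red_facts, D²h(a) = 0; nullK is the kernel of the Hessian by fam_d2), of dimension 2.  Apply two_circles at xa.  First case: case_one (hK, A(a,p0) = P xa) gives Dh = 0 near a, hence D²h = 0 near a and AA ∈ 𝓝 a.
Second case: c_l(s) = P_K(P(circ xa e_l q_l s) - a0), c_l(0) = a (proj).  For small s, circ ∈ V is critical for fam p0, (P circ, p0) ∈ W, so by uniq A(c_l(s),p0) = P circ and Dh(c_l(s)) = 0 (red_facts); nullity ≥ 2 means by red_facts that the kernel of D²h(c_l(s)) has dimension ≥ 2 (J injective) so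
D²h(c_l(s)) = 0: c_l(s) ∈ AA.  Derivative: P e_l = J(c_l'(0)) (differentiate A(c_l(s),p0) = P circ).  e_l = P e_l + Dg(P e_l) (velocity of a curve in M), e_1, e_2 independent, so P e_1, P e_2 are independent, so c_1'(0), c_2'(0) are independent and span the 2-dimensional K: for ν ≠ 0 one of them has
nonzero inner product with ν.  touching: AA ∈ 𝓝 0.  ψ(u) = A(u,p0): smooth at 0, ψ 0 = a0, Dψ(0)v = v (dA0), and D(fam p0∘cmap)(ψ u) = 0 near 0: it vanishes on Kᗮ (perp) and on K (red_facts).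
-/

section
variable {n m : ℕ} {M : Set (Eu n)} {T : Submodule ℝ (Eu n)} {g : T → Tᗮ} {O : Set T} {V : Set (Eu n)}

theorem nullity_two_proj (T : Submodule ℝ (Eu n)) (g : T → Tᗮ) (a : T) :
    T.orthogonalProjectionOnto (cmap T g a) = a := by
  unfold cmap
  rw [map_add, Submodule.orthogonalProjectionOnto_mem_subspace_eq_self,
    Submodule.orthogonalProjectionOnto_apply_of_mem_orthogonal (g a).2, add_zero]

theorem nullity_two_proj' (T : Submodule ℝ (Eu n)) (g : T → Tᗮ) (a : T) :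
    Tᗮ.orthogonalProjectionOnto (cmap T g a) = g a := by
  unfold cmap
  rw [map_add, Submodule.orthogonalProjectionOnto_mem_subspace_eq_self,
    Submodule.orthogonalProjectionOnto_apply_of_mem_orthogonal, zero_add]
  exact T.le_orthogonal_orthogonal a.2

theorem nullity_two_cmap (hc : IsChart ∞ m M T g O V) (x : Eu n) (hx : x ∈ M) (hxV : x ∈ V) :
    cmap T g (T.orthogonalProjectionOnto x) = x := by
  have h := ((hc.mem x hxV).2.1 hx)
  unfold cmap
  rw [← h]
  exact T.starProjection_add_starProjection_orthogonal x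

theorem nullity_two_mem (hc : IsChart ∞ m M T g O V) (a : T) (ha : cmap T g a ∈ V) :
    cmap T g a ∈ M := by
  rw [(hc.mem _ ha).2, nullity_two_proj, nullity_two_proj']

theorem nullity_two_nullK (hc : IsChart ∞ m M T g O V) (x : Eu n) (hx : x ∈ M) (hxV : x ∈ V)
    (p : Eu n × ℝ) (u : T) :
    u ∈ nullK T g x p ↔ fderiv ℝ (fderiv ℝ (fam p ∘ cmap T g)) (T.orthogonalProjectionOnto x) u = 0 := by
  have hO := (hc.mem x hxV).1
  have h := ((hc.mem x hxV).2.1 hx)
  have key : ∀ v, fderiv ℝ (fderiv ℝ (fam p ∘ cmap T g)) (T.orthogonalProjectionOnto x) u v =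
      -⟪Lop g (T.orthogonalProjectionOnto x) (Tᗮ.orthogonalProjectionOnto (p.1 - p.2 • x)) p.2 u, v⟫_ℝ := by
    intro v
    rw [fam_d2 g O hc.openO hc.smooth _ hO p u v, map_sub, map_smul, h]
  unfold nullK
  rw [LinearMap.mem_ker]
  constructor
  · intro h0
    ext v
    rw [key v]
    have : Lop g (T.orthogonalProjectionOnto x) (Tᗮ.orthogonalProjectionOnto (p.1 - p.2 • x)) p.2 u = 0 := h0
    rw [this]; simp
  · intro h0
    have := key (Lop g (T.orthogonalProjectionOnto x) (Tᗮ.orthogonalProjectionOnto (p.1 - p.2 • x)) p.2 u)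
    rw [h0] at this
    have h2 : ⟪Lop g (T.orthogonalProjectionOnto x) (Tᗮ.orthogonalProjectionOnto (p.1 - p.2 • x)) p.2 u,
      Lop g (T.orthogonalProjectionOnto x) (Tᗮ.orthogonalProjectionOnto (p.1 - p.2 • x)) p.2 u⟫_ℝ = 0 := by
      simpa using this.symm
    exact inner_self_eq_zero.1 h2


/-- smoothness of the reduced function and consequences at one point -/
theorem nullity_two_slice {K : Submodule ℝ T} {U : Set (K × (Eu n × ℝ))} (hU : IsOpen U) (p₀ : Eu n × ℝ) :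
    IsOpen {u : K | (u, p₀) ∈ U} :=
  hU.preimage (by fun_prop : Continuous fun u : K => (u, p₀))

theorem nullity_two_smooth (hc : IsChart ∞ m M T g O V) {a₀ : T} {p₀ : Eu n × ℝ} {K : Submodule ℝ T}
    {U : Set (K × (Eu n × ℝ))} {W : Set (T × (Eu n × ℝ))} {A : K × (Eu n × ℝ) → T}
    (hR : Red T g O V a₀ p₀ K U W A) :
    ContDiffOn ℝ ∞ (redHp T g K A p₀) {u : K | (u, p₀) ∈ U} := by
  have h1 : ContDiffOn ℝ ∞ (redH T g K A) U := (red_facts hc hR (0, p₀) hR.memU).1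
  have h2 : redHp T g K A p₀ = redH T g K A ∘ (fun u : K => (u, p₀)) := rfl
  rw [h2]
  refine h1.comp ?_ (fun u hu => hu)
  have : ContDiff ℝ ∞ (fun u : K => (u, p₀)) := by fun_prop
  exact this.contDiffOn

theorem nullity_two_c1 {K : Type} [NormedAddCommGroup K] [NormedSpace ℝ K] (f : K → ℝ) (s : Set K)
    (hs : IsOpen s) (hf : ContDiffOn ℝ ∞ f s) :
    ContinuousOn (fderiv ℝ f) s ∧ ContinuousOn (fderiv ℝ (fderiv ℝ f)) s := by
  have h1 : ContDiffOn ℝ ∞ (fderiv ℝ f) s := hf.fderiv_of_isOpen hs (by simp)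
  have h2 : ContDiffOn ℝ ∞ (fderiv ℝ (fderiv ℝ f)) s := h1.fderiv_of_isOpen hs (by simp)
  exact ⟨h1.continuousOn, h2.continuousOn⟩

theorem nullity_two_closed {K : Type} [NormedAddCommGroup K] [NormedSpace ℝ K] (f : K → ℝ) (U s : Set K)
    (hU : IsOpen U) (hs : IsClosed s) (hsU : s ⊆ U) (hf : ContDiffOn ℝ ∞ f U) :
    IsClosed ({u | u ∈ U ∧ fderiv ℝ f u = 0 ∧ fderiv ℝ (fderiv ℝ f) u = 0} ∩ s) := by
  have hcont2 := nullity_two_c1 f U hU hf
  have e1 : IsClosed (s ∩ fderiv ℝ f ⁻¹' {0}) :=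
    (hcont2.1.mono hsU).preimage_isClosed_of_isClosed hs isClosed_singleton
  have e2 : IsClosed (s ∩ fderiv ℝ (fderiv ℝ f) ⁻¹' {0}) :=
    (hcont2.2.mono hsU).preimage_isClosed_of_isClosed hs isClosed_singleton
  have e3 : {u | u ∈ U ∧ fderiv ℝ f u = 0 ∧ fderiv ℝ (fderiv ℝ f) u = 0} ∩ s =
      (s ∩ fderiv ℝ f ⁻¹' {0}) ∩ (s ∩ fderiv ℝ (fderiv ℝ f) ⁻¹' {0}) := by
    ext u
    constructor
    · rintro ⟨⟨h1, h2, h3⟩, h4⟩
      exact ⟨⟨h4, h2⟩, h4, h3⟩
    · rintro ⟨⟨h4, h2⟩, -, h3⟩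
      exact ⟨⟨hsU h4, h2, h3⟩, h4⟩
  rw [e3]
  exact e1.inter e2

theorem nullity_two_fd {K F : Type} [NormedAddCommGroup K] [NormedSpace ℝ K] [NormedAddCommGroup F]
    [NormedSpace ℝ F] {P : Type} [NormedAddCommGroup P] [NormedSpace ℝ P] (A : K × P → F) (p : P)
    (h : ContDiffAt ℝ ∞ A (0, p)) (v : K) :
    fderiv ℝ (fun u : K => A (u, p)) 0 v = fderiv ℝ A (0, p) (v, 0) := by
  have h1 : HasFDerivAt A (fderiv ℝ A (0, p)) (0, p) := (h.differentiableAt (by simp)).hasFDerivAt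
  have h2 : HasFDerivAt (fun u : K => (u, p)) (ContinuousLinearMap.inl ℝ K P) 0 :=
    hasFDerivAt_prodMk_left 0 p
  have h4 : fderiv ℝ (fun u : K => A (u, p)) 0 =
    (fderiv ℝ A ((0 : K), p)).comp (ContinuousLinearMap.inl ℝ K P) := (h1.comp 0 h2).fderiv
  rw [h4]
  rfl

theorem nullity_two_cda {K F : Type} [NormedAddCommGroup K] [NormedSpace ℝ K] [NormedAddCommGroup F]
    [NormedSpace ℝ F] {P : Type} [NormedAddCommGroup P] [NormedSpace ℝ P] (A : K × P → F) (p : P)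
    (h : ContDiffAt ℝ ∞ A (0, p)) : ContDiffAt ℝ ∞ (fun u : K => A (u, p)) 0 := by
  have h2 : ContDiffAt ℝ ∞ (fun u : K => (u, p)) 0 := by fun_prop
  exact h.comp 0 h2

/-- the map `J` at a point of the domain -/
theorem nullity_two_J (hc : IsChart ∞ m M T g O V) {a₀ : T} {p₀ : Eu n × ℝ} {K : Submodule ℝ T}
    {U : Set (K × (Eu n × ℝ))} {W : Set (T × (Eu n × ℝ))} {A : K × (Eu n × ℝ) → T}
    (hR : Red T g O V a₀ p₀ K U W A) (q : K × (Eu n × ℝ)) (hq : q ∈ U) :
    ∃ J : K →ₗ[ℝ] T, Function.Injective J ∧ (∀ k, J k = fderiv ℝ A q (k, 0)) := by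
  refine ⟨(fderiv ℝ A q).toLinearMap ∘ₗ LinearMap.inl ℝ K (Eu n × ℝ), ?_, fun k => rfl⟩
  rw [injective_iff_map_eq_zero]
  intro k hk
  have h5 := (red_facts hc hR q hq).2.2.2.2.1 k
  have hk' : fderiv ℝ A q (k, 0) = 0 := hk
  rw [hk', zero_sub, Submodule.neg_mem_iff] at h5
  have h6 : ⟪(k : T), (k : T)⟫_ℝ = 0 := (Submodule.mem_orthogonal K _).1 h5 k k.2
  have := inner_self_eq_zero.1 h6
  exact Subtype.ext (by simpa using this)

/-- the nullity at the point of parameter `q` -/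
theorem nullity_two_rank (hc : IsChart ∞ m M T g O V) {a₀ : T} {p₀ : Eu n × ℝ} {K : Submodule ℝ T}
    {U : Set (K × (Eu n × ℝ))} {W : Set (T × (Eu n × ℝ))} {A : K × (Eu n × ℝ) → T}
    (hR : Red T g O V a₀ p₀ K U W A) (q : K × (Eu n × ℝ)) (hq : q ∈ U) :
    Module.finrank ℝ (nullK T g (cmap T g (A q)) q.2) =
      Module.finrank ℝ (LinearMap.ker (fderiv ℝ (fderiv ℝ (redHp T g K A q.2)) q.1).toLinearMap) := by
  obtain ⟨J, hJ, hJ'⟩ := nullity_two_J hc hR q hq
  have hV : cmap T g (A q) ∈ V := (hR.dom q hq).2.2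
  have hM := nullity_two_mem hc (A q) hV
  have h1 : nullK T g (cmap T g (A q)) q.2 =
      (LinearMap.ker (fderiv ℝ (fderiv ℝ (redHp T g K A q.2)) q.1).toLinearMap).map J := by
    ext u
    rw [nullity_two_nullK hc _ hM hV, nullity_two_proj, (red_facts hc hR q hq).2.2.2.2.2.1 u,
      Submodule.mem_map]
    constructor
    · rintro ⟨k, hk, hk2⟩
      exact ⟨k, hk2, by rw [hJ' k, hk]⟩
    · rintro ⟨k, hk2, hk⟩
      exact ⟨k, by rw [← hk, hJ' k], hk2⟩
  rw [h1]
  exact LinearEquiv.finrank_eq (Submodule.equivMapOfInjective J hJ _).symm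


theorem nullity_two_fam (p : Eu n × ℝ) : ContDiff ℝ ∞ (fam p) := by
  unfold fam
  have h1 : ContDiff ℝ ∞ (fun x : Eu n => ⟪p.1, x⟫_ℝ) := contDiff_const.inner ℝ contDiff_id
  have h2 : ContDiff ℝ ∞ (fun x : Eu n => ‖x‖ ^ 2) := contDiff_norm_sq ℝ
  exact h1.sub ((contDiff_const.mul h2).div_const 2)

theorem nullity_two_cmapd (hc : IsChart ∞ m M T g O V) (b : T) (hb : b ∈ O) :
    DifferentiableAt ℝ (cmap T g) b := by
  have h1 : DifferentiableAt ℝ g b :=
    (hc.smooth.contDiffAt (hc.openO.mem_nhds hb)).differentiableAt (by simp)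
  have h2 : DifferentiableAt ℝ (fun a : T => T.subtypeL a) b := T.subtypeL.differentiableAt
  have h3 : DifferentiableAt ℝ (fun a : T => Tᗮ.subtypeL (g a)) b :=
    Tᗮ.subtypeL.differentiableAt.comp b h1
  exact h2.add h3

theorem nullity_two_comp {E F G : Type} [NormedAddCommGroup E] [NormedSpace ℝ E]
    [NormedAddCommGroup F] [NormedSpace ℝ F] [NormedAddCommGroup G] [NormedSpace ℝ G]
    (f : E → F) (g : F → G) (a : E) (hg : DifferentiableAt ℝ g (f a)) (hf : DifferentiableAt ℝ f a) :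
    DifferentiableAt ℝ (g ∘ f) a := hg.comp a hf

theorem nullity_two_Phi (hc : IsChart ∞ m M T g O V) {a₀ : T} {p₀ : Eu n × ℝ} {K : Submodule ℝ T}
    {U : Set (K × (Eu n × ℝ))} {W : Set (T × (Eu n × ℝ))} {A : K × (Eu n × ℝ) → T}
    (hR : Red T g O V a₀ p₀ K U W A) (a : K) (ha : (a, p₀) ∈ U) :
    DifferentiableAt ℝ (fun k : K => cmap T g (A (k, p₀))) a := by
  have h1 : DifferentiableAt ℝ A (a, p₀) :=
    (hR.smooth.contDiffAt (hR.openU.mem_nhds ha)).differentiableAt (by simp)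
  have h2 : DifferentiableAt ℝ (fun k : K => (k, p₀)) a := by fun_prop
  have h3 : DifferentiableAt ℝ (A ∘ fun k : K => (k, p₀)) a :=
    nullity_two_comp (E := K) (F := K × (Eu n × ℝ)) (G := T) _ _ a h1 h2
  have h4 : DifferentiableAt ℝ (cmap T g) ((A ∘ fun k : K => (k, p₀)) a) :=
    nullity_two_cmapd hc (A (a, p₀)) (hR.dom _ ha).2.1
  exact nullity_two_comp (E := K) (F := T) (G := Eu n) _ _ a h4 h3

theorem nullity_two_cd {E F : Type} [NormedAddCommGroup E] [NormedSpace ℝ E] [NormedAddCommGroup F]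
    [NormedSpace ℝ F] (L : E →L[ℝ] F) (f : ℝ → E) (s : ℝ) (hf : DifferentiableAt ℝ f s) :
    DifferentiableAt ℝ (fun t => L (f t)) s := L.differentiableAt.comp s hf

theorem nullity_two_chain {E F : Type} [NormedAddCommGroup E] [NormedSpace ℝ E] [NormedAddCommGroup F]
    [NormedSpace ℝ F] (Φ : E → F) (c : ℝ → E) (a : E) (h : DifferentiableAt ℝ Φ a)
    (hc : DifferentiableAt ℝ c 0) (h0 : c 0 = a) (f : ℝ → F) (hf : f =ᶠ[𝓝 0] fun s => Φ (c s)) (e : F)
    (hd : HasDerivAt f e 0) : fderiv ℝ Φ a (deriv c 0) = e := by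
  subst h0
  have h1 := h.hasFDerivAt.comp_hasDerivAt 0 hc.hasDerivAt
  exact (h1.congr_of_eventuallyEq hf).unique hd

theorem nullity_two_curve (hc : IsChart ∞ m M T g O V) {a₀ : T} {p₀ : Eu n × ℝ} {K : Submodule ℝ T}
    {U : Set (K × (Eu n × ℝ))} {W : Set (T × (Eu n × ℝ))} {A : K × (Eu n × ℝ) → T}
    (hR : Red T g O V a₀ p₀ K U W A) (hK : Module.finrank ℝ K = 2) (a : K) (ha : (a, p₀) ∈ U)
    (e q : Eu n)
    (hcirc : ∀ s : ℝ, circ (cmap T g (A (a, p₀))) e q s ∈ critSet M (fam p₀) ∧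
      (circ (cmap T g (A (a, p₀))) e q s ∈ V →
        2 ≤ Module.finrank ℝ (nullK T g (circ (cmap T g (A (a, p₀))) e q s) p₀))) :
    ∃ c : ℝ → K, c 0 = a ∧ (∀ᶠ t in 𝓝 (0 : ℝ), c t ∈ {u : K | (u, p₀) ∈ U ∧
      fderiv ℝ (redHp T g K A p₀) u = 0 ∧ fderiv ℝ (fderiv ℝ (redHp T g K A p₀)) u = 0}) ∧
      DifferentiableAt ℝ c 0 ∧
      fderiv ℝ (fun k : K => cmap T g (A (k, p₀))) a (deriv c 0) = e := by
  set x := cmap T g (A (a, p₀)) with hxdef
  have h0 : circ x e q 0 = x := by simp [circ]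
  have hd := (circ_deriv x e q 0).1
  have hE : circE e q 0 = e := by simp [circE]
  have hd' : HasDerivAt (circ x e q) e 0 := by
    have := hd
    rw [hE] at this
    simpa using this
  have hcont : ContinuousAt (circ x e q) 0 := hd'.continuousAt
  have hxV : x ∈ V := (hR.dom _ ha).2.2
  have hPx : T.orthogonalProjectionOnto x = A (a, p₀) := nullity_two_proj T g _
  -- eventually in V
  have ev1 : ∀ᶠ s in 𝓝 (0 : ℝ), circ x e q s ∈ V := by
    apply hcont
    rw [h0]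
    exact hc.openV.mem_nhds hxV
  have ev2 : ∀ᶠ s in 𝓝 (0 : ℝ), (T.orthogonalProjectionOnto (circ x e q s), p₀) ∈ W := by
    have hc2 : ContinuousAt (fun s => ((T.orthogonalProjectionOnto (circ x e q s), p₀) : T × (Eu n × ℝ))) 0 :=
      (T.orthogonalProjectionOnto.continuous.continuousAt.comp hcont).prodMk continuousAt_const
    apply hc2
    simp only [h0, hPx]
    exact hR.openW.mem_nhds (hR.dom _ ha).1
  have ev3 : ∀ᶠ s in 𝓝 (0 : ℝ),
      ((K.orthogonalProjectionOnto (T.orthogonalProjectionOnto (circ x e q s) - a₀), p₀) ∈ U ∧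
      A (K.orthogonalProjectionOnto (T.orthogonalProjectionOnto (circ x e q s) - a₀), p₀) =
        T.orthogonalProjectionOnto (circ x e q s)) ∧ circ x e q s ∈ V := by
    filter_upwards [ev1, ev2] with s hs1 hs2
    refine ⟨?_, hs1⟩
    have hcr := (hcirc s).1
    have hz := (br_crit hc _ hcr.1 hs1 (fam p₀) (nullity_two_fam p₀)).1 hcr
    exact hR.uniq _ _ hs2 (fun v _ => by rw [hz]; rfl)
  refine ⟨fun s => K.orthogonalProjectionOnto (T.orthogonalProjectionOnto (circ x e q s) - a₀), ?_, ?_, ?_, ?_⟩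
  · simp only [h0, hPx]
    exact hR.proj _ ha
  · filter_upwards [ev3] with s hs
    obtain ⟨⟨hsU, hsA⟩, hsV⟩ := hs
    refine ⟨hsU, ?_, ?_⟩
    · have h7 := (red_facts hc hR _ hsU).2.2.2.2.2.2
      simp only at h7
      rw [← h7, hsA, nullity_two_cmap hc _ (hcirc s).1.1 hsV]
      exact (hcirc s).1
    · have h8 := nullity_two_rank hc hR _ hsU
      simp only at h8
      rw [hsA, nullity_two_cmap hc _ (hcirc s).1.1 hsV] at h8
      have h9 := (hcirc s).2 hsV
      rw [h8] at h9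
      have h10 : LinearMap.ker (fderiv ℝ (fderiv ℝ (redHp T g K A p₀))
          (K.orthogonalProjectionOnto (T.orthogonalProjectionOnto (circ x e q s) - a₀))).toLinearMap = ⊤ := by
        apply Submodule.eq_top_of_finrank_eq
        apply le_antisymm (Submodule.finrank_le _)
        rw [hK]; exact h9
      ext1 v
      have : v ∈ LinearMap.ker (fderiv ℝ (fderiv ℝ (redHp T g K A p₀))
          (K.orthogonalProjectionOnto (T.orthogonalProjectionOnto (circ x e q s) - a₀))).toLinearMap := by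
        rw [h10]; trivial
      exact this
  · have : DifferentiableAt ℝ (fun s => T.orthogonalProjectionOnto (circ x e q s)) 0 :=
      nullity_two_cd (E := Eu n) (F := T) _ _ 0 hd'.differentiableAt
    exact nullity_two_cd (E := T) (F := K) _ _ 0 (this.sub_const a₀)
  · have hcd : DifferentiableAt ℝ (fun s => K.orthogonalProjectionOnto
        (T.orthogonalProjectionOnto (circ x e q s) - a₀)) 0 := by
      have : DifferentiableAt ℝ (fun s => T.orthogonalProjectionOnto (circ x e q s)) 0 :=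
        nullity_two_cd (E := Eu n) (F := T) _ _ 0 hd'.differentiableAt
      exact nullity_two_cd (E := T) (F := K) _ _ 0 (this.sub_const a₀)
    have hc0 : K.orthogonalProjectionOnto (T.orthogonalProjectionOnto (circ x e q 0) - a₀) = a := by
      simp only [h0, hPx]
      exact hR.proj _ ha
    have heq : circ x e q =ᶠ[𝓝 0] fun s => (fun k : K => cmap T g (A (k, p₀)))
        (K.orthogonalProjectionOnto (T.orthogonalProjectionOnto (circ x e q s) - a₀)) := by
      filter_upwards [ev3] with s hs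
      obtain ⟨⟨hsU, hsA⟩, hsV⟩ := hs
      change circ x e q s = cmap T g (A (K.orthogonalProjectionOnto
        (T.orthogonalProjectionOnto (circ x e q s) - a₀), p₀))
      rw [hsA, nullity_two_cmap hc _ (hcirc s).1.1 hsV]
    have hfin := @nullity_two_chain K (Eu n) inferInstance inferInstance inferInstance inferInstance (fun k : K => cmap T g (A (k, p₀)))
      (fun s => K.orthogonalProjectionOnto (T.orthogonalProjectionOnto (circ x e q s) - a₀)) a
      (nullity_two_Phi hc hR a ha) hcd hc0 (circ x e q) heq e hd'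
    exact hfin

theorem nullity_two_span {K F : Type} [NormedAddCommGroup K] [InnerProductSpace ℝ K]
    [FiniteDimensional ℝ K] [NormedAddCommGroup F] [InnerProductSpace ℝ F]
    (hK : Module.finrank ℝ K = 2) (L : K →L[ℝ] F) (v₁ v₂ : K) (e₁ e₂ : F) (h1 : L v₁ = e₁)
    (h2 : L v₂ = e₂) (n1 : ‖e₁‖ = 1) (n2 : ‖e₂‖ = 1) (n12 : ⟪e₁, e₂⟫_ℝ = 0) (ν : K) (hν : ν ≠ 0) :
    ⟪v₁, ν⟫_ℝ ≠ 0 ∨ ⟪v₂, ν⟫_ℝ ≠ 0 := by
  by_contra hcon
  push Not at hcon
  have hli : LinearIndependent ℝ ![v₁, v₂] := by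
    rw [LinearIndependent.pair_iff]
    intro s t hst
    have h3 : s • e₁ + t • e₂ = 0 := by
      rw [← h1, ← h2, ← map_smul, ← map_smul, ← map_add, hst, map_zero]
    constructor
    · have : ⟪s • e₁ + t • e₂, e₁⟫_ℝ = s := by
        rw [inner_add_left, inner_smul_left, inner_smul_left, real_inner_comm e₁ e₂, n12,
          real_inner_self_eq_norm_sq, n1]
        simp
      rw [← this, h3, inner_zero_left]
    · have : ⟪s • e₁ + t • e₂, e₂⟫_ℝ = t := by
        rw [inner_add_left, inner_smul_left, inner_smul_left, n12,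
          real_inner_self_eq_norm_sq, n2]
        simp
      rw [← this, h3, inner_zero_left]
  have hspan : Submodule.span ℝ (Set.range ![v₁, v₂]) = ⊤ :=
    hli.span_eq_top_of_card_eq_finrank' (by simp [hK])
  have hmem : ν ∈ Submodule.span ℝ (Set.range ![v₁, v₂]) := by rw [hspan]; trivial
  have hz : ∀ w ∈ Submodule.span ℝ (Set.range ![v₁, v₂]), ⟪w, ν⟫_ℝ = 0 := by
    intro w hw
    induction hw using Submodule.span_induction with
    | mem x hx =>
      obtain ⟨i, rfl⟩ := hx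
      fin_cases i
      · exact hcon.1
      · exact hcon.2
    | zero => simp
    | add x y _ _ hx hy => rw [inner_add_left, hx, hy, add_zero]
    | smul c x _ hx => rw [inner_smul_left, hx, mul_zero]
  exact hν (inner_self_eq_zero.1 (hz ν hmem))

theorem nullity_two_pt (hM : IsSubmanifold ∞ m M) (hcpt : IsCompact M) (hD : IsDupin M)
    (hc : IsChart ∞ m M T g O V) {a₀ : T} {p₀ : Eu n × ℝ} {K : Submodule ℝ T}
    (hK : Module.finrank ℝ K = 2)
    {U : Set (K × (Eu n × ℝ))} {W : Set (T × (Eu n × ℝ))} {A : K × (Eu n × ℝ) → T}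
    (hR : Red T g O V a₀ p₀ K U W A) (a : K) (ha : (a, p₀) ∈ U)
    (h1 : fderiv ℝ (redHp T g K A p₀) a = 0) (h2 : fderiv ℝ (fderiv ℝ (redHp T g K A p₀)) a = 0)
    (hb : p₀.1 ≠ p₀.2 • cmap T g (A (a, p₀))) :
    {u : K | (u, p₀) ∈ U ∧ fderiv ℝ (redHp T g K A p₀) u = 0 ∧
      fderiv ℝ (fderiv ℝ (redHp T g K A p₀)) u = 0} ∈ 𝓝 a ∨
    ∀ ν : K, ν ≠ 0 → ∃ c : ℝ → K, c 0 = a ∧
      (∀ᶠ t in 𝓝 (0 : ℝ), c t ∈ {u : K | (u, p₀) ∈ U ∧ fderiv ℝ (redHp T g K A p₀) u = 0 ∧
      fderiv ℝ (fderiv ℝ (redHp T g K A p₀)) u = 0}) ∧ DifferentiableAt ℝ c 0 ∧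
      ⟪deriv c 0, ν⟫_ℝ ≠ 0 := by
  have hV : cmap T g (A (a, p₀)) ∈ V := (hR.dom _ ha).2.2
  have hMem := nullity_two_mem hc (A (a, p₀)) hV
  have hcr : cmap T g (A (a, p₀)) ∈ critSet M (fam p₀) :=
    ((red_facts hc hR _ ha).2.2.2.2.2.2).2 h1
  have hrk : Module.finrank ℝ (nullK T g (cmap T g (A (a, p₀))) p₀) = 2 := by
    have h8 := nullity_two_rank hc hR _ ha
    simp only at h8
    rw [h8, h2]
    rw [← hK]
    have : LinearMap.ker (0 : K →L[ℝ] K →L[ℝ] ℝ).toLinearMap = ⊤ := by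
      ext v; simp
    rw [this, finrank_top]
  rcases two_circles hM hcpt hD hc _ hMem hV p₀ hcr hrk hb with hcase | ⟨e₁, q₁, e₂, q₂, n1, n2, n12, -, -, hcirc⟩
  · left
    have hAu : A (a, p₀) = T.orthogonalProjectionOnto (cmap T g (A (a, p₀))) :=
      (nullity_two_proj T g _).symm
    have h3 := case_one hc _ hMem hV p₀ hrk hcr hcase hK hR a ha hAu
    have h4 : ∀ᶠ u in 𝓝 a, (u, p₀) ∈ U := (nullity_two_slice hR.openU p₀).mem_nhds ha
    filter_upwards [h3, h4, eventually_eventually_nhds.2 h3] with u hu1 hu2 hu3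
    refine ⟨hu2, hu1, ?_⟩
    have : fderiv ℝ (redHp T g K A p₀) =ᶠ[𝓝 u] fun _ => 0 := hu3
    rw [this.fderiv_eq]
    exact fderiv_const_apply (𝕜 := ℝ) (0 : K →L[ℝ] ℝ)
  · right
    intro ν hν
    obtain ⟨c₁, hc10, hc1A, hc1d, hc1e⟩ := nullity_two_curve hc hR hK a ha e₁ q₁ (fun s => (hcirc s).1)
    obtain ⟨c₂, hc20, hc2A, hc2d, hc2e⟩ := nullity_two_curve hc hR hK a ha e₂ q₂ (fun s => (hcirc s).2)
    have hsp := @nullity_two_span K (Eu n) inferInstance inferInstance inferInstance inferInstance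
      inferInstance hK
      (fderiv ℝ (fun k : K => cmap T g (A (k, p₀))) a) (deriv c₁ 0) (deriv c₂ 0)
      e₁ e₂ hc1e hc2e n1 n2 n12 ν hν
    rcases hsp with h | h
    · exact ⟨c₁, hc10, hc1A, hc1d, h⟩
    · exact ⟨c₂, hc20, hc2A, hc2d, h⟩

theorem nullity_two_S (hc : IsChart ∞ m M T g O V) (x₀ : Eu n) (hx : x₀ ∈ M) (hxV : x₀ ∈ V)
    (p₀ : Eu n × ℝ) (hb : p₀.1 ≠ p₀.2 • x₀) :
    {q : T × (Eu n × ℝ) | q.2.1 - q.2.2 • cmap T g q.1 ≠ 0} ∈
      𝓝 (T.orthogonalProjectionOnto x₀, p₀) := by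
  have hPO := (hc.mem x₀ hxV).1
  have hcm := nullity_two_cmap hc x₀ hx hxV
  · have hcc : ContinuousAt (cmap T g) (T.orthogonalProjectionOnto x₀) :=
      (nullity_two_cmapd hc _ hPO).continuousAt
    have hcc2 : ContinuousAt (fun q : T × (Eu n × ℝ) => cmap T g q.1)
        (T.orthogonalProjectionOnto x₀, p₀) :=
      ContinuousAt.comp (f := fun q : T × (Eu n × ℝ) => q.1) (g := cmap T g) hcc continuousAt_fst
    have hcont : ContinuousAt (fun q : T × (Eu n × ℝ) => q.2.1 - q.2.2 • cmap T g q.1)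
        (T.orthogonalProjectionOnto x₀, p₀) := by
      have h1 : ContinuousAt (fun q : T × (Eu n × ℝ) => q.2.1) (T.orthogonalProjectionOnto x₀, p₀) := by
        fun_prop
      have h2 : ContinuousAt (fun q : T × (Eu n × ℝ) => q.2.2) (T.orthogonalProjectionOnto x₀, p₀) := by
        fun_prop
      exact h1.sub (h2.smul hcc2)
    apply hcont.eventually_ne
    simp only [hcm]
    exact sub_ne_zero.2 hb

theorem nullity_two_main (hM : IsSubmanifold ∞ m M) (hcpt : IsCompact M) (hD : IsDupin M)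
    (hc : IsChart ∞ m M T g O V) (x₀ : Eu n) (hx : x₀ ∈ M) (hxV : x₀ ∈ V) (p₀ : Eu n × ℝ)
    (hcr : x₀ ∈ critSet M (fam p₀)) {K : Submodule ℝ T} (hnull : Module.finrank ℝ K = 2)
    (hKn : ∀ k : K, (k : T) ∈ nullK T g x₀ p₀)
    {U : Set (K × (Eu n × ℝ))} {W : Set (T × (Eu n × ℝ))} {A : K × (Eu n × ℝ) → T}
    (hR : Red T g O V (T.orthogonalProjectionOnto x₀) p₀ K U W A)
    (hWS : W ⊆ {q : T × (Eu n × ℝ) | q.2.1 - q.2.2 • cmap T g q.1 ≠ 0}) :
    ∃ ψ : K → T, ContDiffAt ℝ ∞ ψ 0 ∧ ψ 0 = T.orthogonalProjectionOnto x₀ ∧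
      (∀ v, fderiv ℝ ψ 0 v = v) ∧ ∀ᶠ e in 𝓝 0, fderiv ℝ (fam p₀ ∘ cmap T g) (ψ e) = 0 := by
  have hcm := nullity_two_cmap hc x₀ hx hxV
  set AA : Set K := {u : K | (u, p₀) ∈ U ∧ fderiv ℝ (redHp T g K A p₀) u = 0 ∧
      fderiv ℝ (fderiv ℝ (redHp T g K A p₀)) u = 0} with hAA
  have hUo := nullity_two_slice hR.openU p₀
  have hsm := nullity_two_smooth hc hR
  have hcont2 := nullity_two_c1 (K := K) _ _ hUo hsm
  -- 0 ∈ AA
  have h0A : (0 : K) ∈ AA := by
    have hf := red_facts hc hR (0, p₀) hR.memU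
    refine ⟨hR.memU, ?_, ?_⟩
    · have h7 := hf.2.2.2.2.2.2
      simp only at h7
      rw [← h7, hR.A0, hcm]
      exact hcr
    · ext k k'
      have h4 := hf.2.2.2.1 k k'
      simp only at h4
      rw [h4, hR.A0, hR.dA0 k, hR.dA0 k', (nullity_two_nullK hc x₀ hx hxV p₀ (k : T)).1 (hKn k)]
      rfl
  obtain ⟨r, hr, hball⟩ := Metric.nhds_basis_closedBall.mem_iff.1
    (hUo.mem_nhds (show (0 : K) ∈ {u : K | (u, p₀) ∈ U} from hR.memU))
  have hcl : IsClosed (AA ∩ Metric.closedBall 0 r) := by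
    exact @nullity_two_closed K inferInstance inferInstance _ _ _ hUo Metric.isClosed_closedBall hball hsm
  have hnhd : AA ∈ 𝓝 (0 : K) := by
    refine @touching K inferInstance inferInstance inferInstance AA r hr h0A hcl ?_
    intro a ha _
    have hne : p₀.1 ≠ p₀.2 • cmap T g (A (a, p₀)) := by
      have := hWS (hR.dom _ ha.1).1
      exact sub_ne_zero.1 this
    exact nullity_two_pt hM hcpt hD hc hnull hR a ha.1 ha.2.1 ha.2.2 hne
  refine ⟨fun u => A (u, p₀), ?_, hR.A0, ?_, ?_⟩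
  · exact @nullity_two_cda K T inferInstance inferInstance inferInstance inferInstance _ _ _ A p₀
      (hR.smooth.contDiffAt (hR.openU.mem_nhds hR.memU))
  · intro v
    rw [@nullity_two_fd K T inferInstance inferInstance inferInstance inferInstance _ _ _ A p₀
      (hR.smooth.contDiffAt (hR.openU.mem_nhds hR.memU)) v]
    exact hR.dA0 v
  · filter_upwards [hnhd] with u hu
    have hV : cmap T g (A (u, p₀)) ∈ V := (hR.dom _ hu.1).2.2
    have hMem := nullity_two_mem hc (A (u, p₀)) hV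
    have hcr : cmap T g (A (u, p₀)) ∈ critSet M (fam p₀) :=
      ((red_facts hc hR _ hu.1).2.2.2.2.2.2).2 hu.2.1
    have := (br_crit hc _ hMem hV (fam p₀) (nullity_two_fam p₀)).1 hcr
    rwa [nullity_two_proj] at this

/-- TARGET -/
theorem nullity_two (hM : IsSubmanifold ∞ m M) (hcpt : IsCompact M) (hD : IsDupin M)
    (hc : IsChart ∞ m M T g O V) (x₀ : Eu n) (hx : x₀ ∈ M) (hxV : x₀ ∈ V) (p₀ : Eu n × ℝ)
    (hcr : x₀ ∈ critSet M (fam p₀)) (hnull : Module.finrank ℝ (nullK T g x₀ p₀) = 2)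
    (hb : p₀.1 ≠ p₀.2 • x₀) :
    ∃ ψ : nullK T g x₀ p₀ → T, ContDiffAt ℝ ∞ ψ 0 ∧ ψ 0 = T.orthogonalProjectionOnto x₀ ∧
      (∀ v, fderiv ℝ ψ 0 v = v) ∧ ∀ᶠ e in 𝓝 0, fderiv ℝ (fam p₀ ∘ cmap T g) (ψ e) = 0 := by
  obtain ⟨U, W, A, hWS, hR⟩ := red_exists hc x₀ hx hxV p₀ hcr _ (nullity_two_S hc x₀ hx hxV p₀ hb)
  exact nullity_two_main hM hcpt hD hc x₀ hx hxV p₀ hcr hnull (fun k => k.2) hR hWS

end

end Pool.Agent.H469
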