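import Pool.Agent.Helper469_Dupin.DefsD
import Pool.Agent.Helper469_Dupin.Jlop
import Pool.Agent.Helper469_Dupin.Jbrvel
import Pool.Agent.Helper469_Dupin.Jbrprin
import Pool.Agent.Helper469_Dupin.Jfamd

set_option autoImplicit false

open Set Filter Topology MeasureTheory
open scoped ContDiff InnerProductSpace

namespace Pool.Agent.H469


section SurfaceAux

theorem surface_of_param_rank {X E F : Type} [TopologicalSpace X] [NormedAddCommGroup E] [NormedSpace ℝ E]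
    [NormedAddCommGroup F] [NormedSpace ℝ F] [FiniteDimensional ℝ E] [FiniteDimensional ℝ F]
    (B : X → E →L[ℝ] F) (x0 : X) (hB : ContinuousAt B x0) :
    ∀ᶠ x in 𝓝 x0, Module.finrank ℝ (LinearMap.range (B x0 : E →ₗ[ℝ] F)) ≤
      Module.finrank ℝ (LinearMap.range (B x : E →ₗ[ℝ] F)) := by
  set r := Module.finrank ℝ (LinearMap.range (B x0 : E →ₗ[ℝ] F)) with hr
  have h := isOpen_setOfPred_nat_le_rank (𝕜 := ℝ) (E := E) (F := F) r
  have h2 : {f : E →L[ℝ] F | (r : Cardinal) ≤ (f : E →ₗ[ℝ] F).rank} ∈ 𝓝 (B x0) := by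
    apply h.mem_nhds
    show (r : Cardinal) ≤ (B x0 : E →ₗ[ℝ] F).rank
    rw [LinearMap.rank, ← Module.finrank_eq_rank, hr]
  filter_upwards [hB h2] with x hx
  have hx' : (r : Cardinal) ≤ (B x : E →ₗ[ℝ] F).rank := hx
  rw [LinearMap.rank, ← Module.finrank_eq_rank] at hx'
  exact_mod_cast hx'

theorem surface_of_param_emb {E Y : Type} [NormedAddCommGroup E] [NormedSpace ℝ E] [CompleteSpace E]
    [TopologicalSpace Y] (ψ : E → Y) (ρ : Y → E) (hρ : Continuous ρ) (Θ' : E ≃L[ℝ] E)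
    (h : HasStrictFDerivAt (fun u => ρ (ψ u)) (Θ' : E →L[ℝ] E) 0) :
    ∃ s : Set E, s ∈ 𝓝 (0 : E) ∧ ∀ U : Set E, U ⊆ s → ContinuousOn ψ U →
      Topology.IsEmbedding (U.domRestrict ψ) := by
  let e := h.toOpenPartialHomeomorph (fun u => ρ (ψ u))
  refine ⟨e.source, e.open_source.mem_nhds h.mem_toOpenPartialHomeomorph_source, ?_⟩
  intro U hU hψ
  have h1 : Topology.IsEmbedding (e.source.domRestrict e) := e.isOpenEmbedding_restrict.isEmbedding
  have h2 : Topology.IsEmbedding (Set.inclusion hU) := Topology.IsEmbedding.inclusion hU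
  have h3 := h1.comp h2
  have h4 : (e.source.domRestrict e) ∘ Set.inclusion hU = ρ ∘ (U.domRestrict ψ) := by
    funext u; rfl
  rw [h4] at h3
  exact Topology.IsEmbedding.of_comp (continuousOn_iff_continuous_domRestrict.1 hψ) hρ h3

theorem surface_of_param_inv {F E W : Type} [NormedAddCommGroup F] [NormedSpace ℝ F] [CompleteSpace F]
    [NormedAddCommGroup E] [NormedSpace ℝ E] [NormedAddCommGroup W] [NormedSpace ℝ W]
    (Ξ : F → E × W) (O : Set F) (hO : IsOpen O) (hΞ : ∀ a ∈ O, ContDiffAt ℝ ∞ Ξ a) (a₀ : F) (ha₀ : a₀ ∈ O)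
    (hΞ0 : Ξ a₀ = (0, 0)) (L : F ≃L[ℝ] E × W) (hL : HasFDerivAt Ξ (L : F →L[ℝ] E × W) a₀) :
    ∃ S : E → F, (∀ᶠ k in 𝓝 (0 : E), ContDiffAt ℝ ∞ S k) ∧ S 0 = a₀ ∧
      (∀ v, fderiv ℝ S 0 v = L.symm (v, 0)) ∧ ∀ᶠ a in 𝓝 a₀, (Ξ a).2 = 0 → S (Ξ a).1 = a := by
  have hDs : HasStrictFDerivAt Ξ (L : F →L[ℝ] E × W) a₀ := by
    have := (hΞ a₀ ha₀).hasStrictFDerivAt (by simp)
    rw [hL.fderiv] at this
    exact this
  let e := hDs.toOpenPartialHomeomorph Ξ
  have he : ∀ a, e a = Ξ a := fun a => rfl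
  have hes : a₀ ∈ e.source := hDs.mem_toOpenPartialHomeomorph_source
  have het : ((0 : E), (0 : W)) ∈ e.target := by
    have := hDs.image_mem_toOpenPartialHomeomorph_target
    rwa [hΞ0] at this
  have hsym0 : e.symm ((0 : E), (0 : W)) = a₀ := by
    rw [← hΞ0]
    exact e.left_inv hes
  -- invertible derivative nearby
  have hgood : ∀ᶠ a in 𝓝 a₀, a ∈ O ∧ ∃ L' : F ≃L[ℝ] E × W, HasFDerivAt Ξ (L' : F →L[ℝ] E × W) a := by
    have c1 : ContinuousAt (fderiv ℝ Ξ) a₀ :=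
      ((hΞ a₀ ha₀).fderiv_right (m := 0) (by simp)).continuousAt
    have c3 := c1.eventually_mem (by rw [hL.fderiv]; exact ContinuousLinearEquiv.nhds L)
    filter_upwards [c3, hO.mem_nhds ha₀] with a ha haO
    obtain ⟨L', hL'⟩ := ha
    refine ⟨haO, L', ?_⟩
    rw [hL']
    exact ((hΞ a haO).differentiableAt (by simp)).hasFDerivAt
  have hsm : ∀ᶠ b in 𝓝 ((0 : E), (0 : W)), ContDiffAt ℝ ∞ e.symm b := by
    have c1 : ContinuousAt e.symm ((0 : E), (0 : W)) := e.continuousAt_symm het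
    have c2 := c1.eventually (p := fun a => a ∈ O ∧ ∃ L' : F ≃L[ℝ] E × W,
      HasFDerivAt Ξ (L' : F →L[ℝ] E × W) a) (by rw [hsym0]; exact hgood)
    filter_upwards [c2, e.open_target.mem_nhds het] with b hb hbt
    obtain ⟨hbO, L', hL'⟩ := hb
    exact e.contDiffAt_symm hbt hL' (hΞ _ hbO)
  let ι : E →L[ℝ] E × W := ContinuousLinearMap.inl ℝ E W
  have hι : ∀ k, ι k = (k, 0) := fun k => rfl
  have hιc : Tendsto ι (𝓝 0) (𝓝 ((0 : E), (0 : W))) := by
    have := ι.continuous.tendsto 0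
    rwa [hι] at this
  refine ⟨fun k => e.symm (ι k), ?_, ?_, ?_, ?_⟩
  · filter_upwards [hιc.eventually hsm] with k hk
    exact hk.comp k ι.contDiff.contDiffAt
  · show e.symm (ι 0) = a₀
    rw [hι, hsym0]
  · intro v
    have c1 : HasStrictFDerivAt e.symm (L.symm : E × W →L[ℝ] F) (Ξ a₀) := hDs.to_localInverse
    rw [hΞ0] at c1
    have c2 : HasFDerivAt (fun k => e.symm (ι k)) ((L.symm : E × W →L[ℝ] F) ∘L ι) 0 := by
      have c3 : HasFDerivAt e.symm (L.symm : E × W →L[ℝ] F) (ι 0) := by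
        rw [hι]; exact c1.hasFDerivAt
      exact c3.comp 0 ι.hasFDerivAt
    rw [c2.fderiv]
    rfl
  · filter_upwards [e.open_source.mem_nhds hes] with a ha h0
    show e.symm (ι (Ξ a).1) = a
    have : ι (Ξ a).1 = e a := by
      rw [he, hι, ← h0]
    rw [this, e.left_inv ha]

set_option maxHeartbeats 4000000 in
/-- A parametrisation of the critical points near `a₀` by the null space which is of class `C^∞` on a whole
neighbourhood. -/
theorem surface_of_param_reparam {F : Type} [NormedAddCommGroup F] [InnerProductSpace ℝ F]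
    [FiniteDimensional ℝ F] (f : F → ℝ) (O : Set F) (hO : IsOpen O) (hf : ContDiffOn ℝ ∞ f O) (a₀ : F)
    (ha₀ : a₀ ∈ O) (K : Submodule ℝ F) (hK : ∀ k, k ∈ K ↔ fderiv ℝ (fderiv ℝ f) a₀ k = 0)
    (ψ₁ : K → F) (h1 : ContDiffAt ℝ 1 ψ₁ 0) (h2 : ψ₁ 0 = a₀) (h3 : ∀ v, fderiv ℝ ψ₁ 0 v = v)
    (h4 : ∀ᶠ e in 𝓝 (0 : K), fderiv ℝ f (ψ₁ e) = 0) :
    ∃ A : K → F, (∀ᶠ k in 𝓝 (0 : K), ContDiffAt ℝ ∞ A k) ∧ A 0 = a₀ ∧
      (∀ v, fderiv ℝ A 0 v = v) ∧ ∀ᶠ k in 𝓝 (0 : K), fderiv ℝ f (A k) = 0 := by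
  have hcrit : fderiv ℝ f a₀ = 0 := by
    have := h4.self_of_nhds
    rwa [h2] at this
  let P := K.orthogonalProjectionOnto
  let m := Module.finrank ℝ Kᗮ
  let w := Module.finBasis ℝ Kᗮ
  let D := fderiv ℝ (fderiv ℝ f) a₀
  let Ξ : F → K × (Fin m → ℝ) := fun a => (P (a - a₀), fun i => fderiv ℝ f a (w i : F))
  have hfd : ∀ a ∈ O, ContDiffAt ℝ ∞ (fderiv ℝ f) a := by
    intro a ha
    exact (hf.contDiffAt (hO.mem_nhds ha)).fderiv_right (m := ∞) (by simp)
  have hΞ : ∀ a ∈ O, ContDiffAt ℝ ∞ Ξ a := by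
    intro a ha
    have e1 : ContDiffAt ℝ ∞ (fun a => P (a - a₀)) a :=
      P.contDiff.contDiffAt.comp a (contDiffAt_id.sub contDiffAt_const)
    have e2 : ContDiffAt ℝ ∞ (fun a => fun i => fderiv ℝ f a (w i : F)) a :=
      contDiffAt_pi.2 fun i => (hfd a ha).clm_apply contDiffAt_const
    exact e1.prodMk e2
  have hΞ0 : Ξ a₀ = (0, 0) := by
    show (P (a₀ - a₀), fun i => fderiv ℝ f a₀ (w i : F)) = (0, 0)
    rw [hcrit, sub_self, map_zero]
    rfl
  -- the derivative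
  have hD1 : ∀ h, fderiv ℝ Ξ a₀ h = (P h, fun i => D h (w i : F)) := by
    intro h
    have e1 : HasFDerivAt (fun a => P (a - a₀)) P a₀ :=
      P.hasFDerivAt.comp a₀ ((hasFDerivAt_id (𝕜 := ℝ) a₀).sub_const a₀)
    have e2 : HasFDerivAt (fun a => fun i => fderiv ℝ f a (w i : F))
        (ContinuousLinearMap.pi fun i => D.flip (w i : F)) a₀ := by
      rw [hasFDerivAt_pi]
      intro i
      have := (((hfd a₀ ha₀).differentiableAt (by simp)).hasFDerivAt).clm_apply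
        (hasFDerivAt_const (w i : F) a₀)
      simpa using this
    have e3 := (e1.prodMk e2).fderiv
    show fderiv ℝ (fun a => (P (a - a₀), fun i => fderiv ℝ f a (w i : F))) a₀ h = _
    rw [e3]
    rfl
  have hsymm : ∀ u v, D u v = D v u := by
    have := (hf.contDiffAt (hO.mem_nhds ha₀)).isSymmSndFDerivAt (by
      rw [minSmoothness_of_isRCLikeNormedField]
      exact WithTop.coe_le_coe.2 (le_top : (2 : ℕ∞) ≤ ⊤))
    exact fun u v => this u v
  have hinj : Function.Injective (fderiv ℝ Ξ a₀) := by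
    rw [injective_iff_map_eq_zero]
    intro h hh
    rw [hD1] at hh
    have e1 : P h = 0 := congrArg Prod.fst hh
    have e2 : ∀ i, D h (w i : F) = 0 := fun i => congrFun (congrArg Prod.snd hh) i
    have e3 : h ∈ Kᗮ := Submodule.orthogonalProjectionOnto_eq_zero_iff.1 e1
    have e2' : ∀ y : Kᗮ, D h (y : F) = 0 := by
      intro y
      have e5 : ((D h : F →L[ℝ] ℝ) : F →ₗ[ℝ] ℝ) ∘ₗ Kᗮ.subtype = 0 := by
        apply w.ext
        intro i
        exact e2 i
      exact LinearMap.congr_fun e5 y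
    have e4 : D h = 0 := by
      ext v
      have e5 : v = ((K.orthogonalProjectionOnto v : K) : F) + ((Kᗮ.orthogonalProjectionOnto v : Kᗮ) : F) := by
        rw [Submodule.orthogonalProjectionOnto_orthogonal]
        simp
      rw [e5, map_add]
      have e6 : D h ((K.orthogonalProjectionOnto v : K) : F) = 0 := by
        rw [hsymm]
        have : D ((K.orthogonalProjectionOnto v : K) : F) = 0 := (hK _).1 (K.orthogonalProjectionOnto v).2
        rw [this]
        rfl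
      have e7 : D h ((Kᗮ.orthogonalProjectionOnto v : Kᗮ) : F) = 0 := e2' _
      rw [e6, e7]
      simp
    have e8 : h ∈ K := (hK h).2 e4
    have e9 : P h = ⟨h, e8⟩ := Submodule.orthogonalProjectionOnto_mem_subspace_eq_self (⟨h, e8⟩ : K)
    rw [e1] at e9
    exact (congrArg Subtype.val e9).symm
  have hdim : Module.finrank ℝ F = Module.finrank ℝ (K × (Fin m → ℝ)) := by
    rw [Module.finrank_prod, Module.finrank_fin_fun]
    exact (K.finrank_add_finrank_orthogonal).symm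
  let Lc : F ≃L[ℝ] (K × (Fin m → ℝ)) := (LinearEquiv.ofInjectiveOfFinrankEq
    ((fderiv ℝ Ξ a₀ : F →L[ℝ] _) : F →ₗ[ℝ] _) hinj hdim).toContinuousLinearEquiv
  have hLc : (Lc : F →L[ℝ] (K × (Fin m → ℝ))) = fderiv ℝ Ξ a₀ := by
    ext1 v
    rfl
  obtain ⟨S, hS1, hS2, hS3, hS4⟩ := surface_of_param_inv Ξ O hO hΞ a₀ ha₀ hΞ0 Lc (by
    rw [hLc]
    exact ((hΞ a₀ ha₀).differentiableAt (by simp)).hasFDerivAt)
  refine ⟨S, hS1, hS2, ?_, ?_⟩
  · intro v
    rw [hS3 v, ContinuousLinearEquiv.symm_apply_eq]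
    show (v, (0 : Fin m → ℝ)) = (Lc : F →L[ℝ] (K × (Fin m → ℝ))) (v : F)
    rw [hLc, hD1]
    refine Prod.ext ?_ ?_
    · exact (Submodule.orthogonalProjectionOnto_mem_subspace_eq_self v).symm
    · funext i
      show (0 : ℝ) = D (v : F) (w i : F)
      have : D (v : F) = 0 := (hK v).1 v.2
      rw [this]
      rfl
  · -- the parameters of the points on the given parametrisation
    have d1 : HasStrictFDerivAt ψ₁ K.subtypeL 0 := by
      have := h1.hasStrictFDerivAt (by simp)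
      have e2 : fderiv ℝ ψ₁ 0 = K.subtypeL := by ext v; rw [h3 v]; rfl
      rwa [e2] at this
    have d2 : HasStrictFDerivAt (fun k : K => P (ψ₁ k - a₀))
        ((ContinuousLinearEquiv.refl ℝ K : K ≃L[ℝ] K) : K →L[ℝ] K) 0 := by
      have e1 : HasStrictFDerivAt (fun k : K => P (ψ₁ k - a₀)) (P ∘L K.subtypeL) 0 :=
        P.hasStrictFDerivAt.comp (0 : K) (d1.sub_const a₀)
      have e2 : ((ContinuousLinearEquiv.refl ℝ K : K ≃L[ℝ] K) : K →L[ℝ] K) = P ∘L K.subtypeL := by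
        ext1 v
        exact (Submodule.orthogonalProjectionOnto_mem_subspace_eq_self v).symm
      rw [e2]
      exact e1
    have hσ0 : P (ψ₁ 0 - a₀) = 0 := by rw [h2, sub_self, map_zero]
    have d3 := d2.eventually_right_inverse
    have d4 := d2.localInverse_tendsto
    rw [hσ0] at d3 d4
    have d5 : Tendsto ψ₁ (𝓝 0) (𝓝 a₀) := by
      have := h1.continuousAt
      unfold ContinuousAt at this
      rwa [h2] at this
    filter_upwards [d3, d4.eventually h4, d4.eventually (d5.eventually hS4)] with k hk1 hk2 hk3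
    set k' := d2.localInverse (fun k : K => P (ψ₁ k - a₀)) (ContinuousLinearEquiv.refl ℝ K) 0 k with hk'
    have hk1' : P (ψ₁ k' - a₀) = k := hk1
    have e0 : (Ξ (ψ₁ k')).2 = 0 := by
      funext i
      show fderiv ℝ f (ψ₁ k') (w i : F) = 0
      rw [hk2]
      rfl
    have e1 : (Ξ (ψ₁ k')).1 = k := hk1'
    have e2 := hk3 e0
    rw [e1] at e2
    rw [e2]
    exact hk2

theorem surface_of_param_A {F : Type} [NormedAddCommGroup F] [InnerProductSpace ℝ F]
    [FiniteDimensional ℝ F] (f : F → ℝ) (a₀ : F) (K : Submodule ℝ F) (d : ℕ)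
    (hKd : Module.finrank ℝ K = d) (S : K → F) (hS1 : ∀ᶠ k in 𝓝 (0 : K), ContDiffAt ℝ ∞ S k)
    (hS2 : S 0 = a₀) (hS3 : ∀ v, fderiv ℝ S 0 v = v) (hS4 : ∀ᶠ e in 𝓝 (0 : K), fderiv ℝ f (S e) = 0) :
    ∃ (A : Eu d → F) (R : F →L[ℝ] Eu d), (∀ᶠ u in 𝓝 (0 : Eu d), ContDiffAt ℝ ∞ A u) ∧ A 0 = a₀ ∧
      (∀ u, R (fderiv ℝ A 0 u) = u) ∧ ∀ᶠ u in 𝓝 (0 : Eu d), fderiv ℝ f (A u) = 0 := by
  have hKE : Module.finrank ℝ (Eu d) = Module.finrank ℝ K := by rw [hKd]; simp [Eu]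
  let L : Eu d ≃L[ℝ] K := ContinuousLinearEquiv.ofFinrankEq hKE
  let A : Eu d → F := fun u => S (L u)
  have hLt : Tendsto (fun u : Eu d => L u) (𝓝 0) (𝓝 0) := by
    have := (L : Eu d →L[ℝ] K).continuous.tendsto 0
    simpa using this
  have hLs : ContDiff ℝ ∞ (fun u => L u) := (L : Eu d →L[ℝ] K).contDiff
  have hAs : ∀ᶠ u in 𝓝 (0 : Eu d), ContDiffAt ℝ ∞ A u := by
    filter_upwards [hLt.eventually hS1] with u hu
    exact ContDiffAt.comp u hu hLs.contDiffAt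
  have hA0 : A 0 = a₀ := by show S (L 0) = a₀; rw [map_zero, hS2]
  have hAc : ∀ᶠ u in 𝓝 (0 : Eu d), fderiv ℝ f (A u) = 0 := hLt.eventually hS4
  have hAd : HasFDerivAt A (K.subtypeL ∘L (L : Eu d →L[ℝ] K)) 0 := by
    have h1 : HasFDerivAt S K.subtypeL (L 0) := by
      rw [map_zero]
      have h2 : fderiv ℝ S 0 = K.subtypeL := by ext v; rw [hS3 v]; rfl
      rw [← h2]
      exact (hS1.self_of_nhds.differentiableAt (by simp)).hasFDerivAt
    exact h1.comp (0 : Eu d) (L : Eu d →L[ℝ] K).hasFDerivAt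
  refine ⟨A, (L.symm : K →L[ℝ] Eu d) ∘L K.orthogonalProjectionOnto, hAs, hA0, ?_, hAc⟩
  intro u
  rw [hAd.fderiv]
  show L.symm (K.orthogonalProjectionOnto ((L u : K) : F)) = u
  rw [Submodule.orthogonalProjectionOnto_mem_subspace_eq_self, ContinuousLinearEquiv.symm_apply_apply]

theorem surface_of_param_local {F : Type} [NormedAddCommGroup F] [InnerProductSpace ℝ F]
    [FiniteDimensional ℝ F] (f : F → ℝ) (O : Set F) (hO : IsOpen O) (hf : ContDiffOn ℝ ∞ f O)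
    (d : ℕ) (A : Eu d → F) (a₀ : F) (ha₀ : a₀ ∈ O) (hA : ∀ᶠ u in 𝓝 (0 : Eu d), ContDiffAt ℝ ∞ A u)
    (hA0 : A 0 = a₀) (hAi : Function.Injective (fderiv ℝ A 0))
    (hcrit : ∀ᶠ u in 𝓝 (0 : Eu d), fderiv ℝ f (A u) = 0)
    (hk : Module.finrank ℝ (LinearMap.ker (fderiv ℝ (fderiv ℝ f) a₀ : F →ₗ[ℝ] (F →L[ℝ] ℝ))) = d)
    (s : Set (Eu d)) (hs : s ∈ 𝓝 0) :
    ∃ r : ℝ, 0 < r ∧ Metric.ball (0 : Eu d) r ⊆ s ∧ ContDiffOn ℝ ∞ A (Metric.ball 0 r) ∧
      ∀ u ∈ Metric.ball (0 : Eu d) r,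
      A u ∈ O ∧ fderiv ℝ f (A u) = 0 ∧ f (A u) = f a₀ ∧
      Function.Injective (fderiv ℝ A u) ∧
      ∀ w, fderiv ℝ (fderiv ℝ f) (A u) w = 0 ↔ ∃ h, fderiv ℝ A u h = w := by
  have hA00 : ContDiffAt ℝ ∞ A 0 := hA.self_of_nhds
  have hAO : ∀ᶠ u in 𝓝 (0 : Eu d), A u ∈ O := by
    apply hA00.continuousAt.eventually_mem
    rw [hA0]; exact hO.mem_nhds ha₀
  have hdA : ContinuousAt (fderiv ℝ A) 0 := (hA00.fderiv_right (m := 0) (by simp)).continuousAt
  have hr1 := surface_of_param_rank (fderiv ℝ A) 0 hdA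
  have hf1 : ∀ a ∈ O, ContDiffAt ℝ ∞ (fderiv ℝ f) a := by
    intro a ha
    exact (hf.contDiffAt (hO.mem_nhds ha)).fderiv_right (m := ∞) (by simp)
  have hBc : ContinuousAt (fun u : Eu d => fderiv ℝ (fderiv ℝ f) (A u)) 0 := by
    have hc1 : ContinuousAt (fderiv ℝ (fderiv ℝ f)) (A 0) := by
      rw [hA0]
      exact ((hf1 a₀ ha₀).fderiv_right (m := 0) (by simp)).continuousAt
    exact ContinuousAt.comp (f := A) (g := fderiv ℝ (fderiv ℝ f)) hc1 hA00.continuousAt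
  have hr2 := surface_of_param_rank (fun u : Eu d => fderiv ℝ (fderiv ℝ f) (A u)) 0 hBc
  have hall : ∀ᶠ u in 𝓝 (0 : Eu d), u ∈ s ∧ ContDiffAt ℝ ∞ A u ∧ A u ∈ O ∧
      fderiv ℝ f (A u) = 0 ∧
      Module.finrank ℝ (LinearMap.range (fderiv ℝ A 0 : Eu d →ₗ[ℝ] F)) ≤
        Module.finrank ℝ (LinearMap.range (fderiv ℝ A u : Eu d →ₗ[ℝ] F)) ∧
      Module.finrank ℝ (LinearMap.range (fderiv ℝ (fderiv ℝ f) (A 0) : F →ₗ[ℝ] (F →L[ℝ] ℝ))) ≤
        Module.finrank ℝ (LinearMap.range (fderiv ℝ (fderiv ℝ f) (A u) : F →ₗ[ℝ] (F →L[ℝ] ℝ))) := by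
    filter_upwards [hs, hA, hAO, hcrit, hr1, hr2] with u h1 h2 h3 h4 h5 h6
    exact ⟨h1, h2, h3, h4, h5, h6⟩
  obtain ⟨r, hr, hball⟩ := Metric.eventually_nhds_iff_ball.1 hall
  have hrank0 : Module.finrank ℝ (LinearMap.range (fderiv ℝ A 0 : Eu d →ₗ[ℝ] F)) = d := by
    rw [LinearMap.finrank_range_of_inj]
    · simp [Eu]
    · exact hAi
  refine ⟨r, hr, fun u hu => (hball u hu).1, ?_, ?_⟩
  · intro u hu
    exact (hball u hu).2.1.contDiffWithinAt
  · intro u hu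
    obtain ⟨_, h2, h3, h4, h5, h6⟩ := hball u hu
    have hinj : Function.Injective (fderiv ℝ A u) := by
      rw [hrank0] at h5
      have e1 := LinearMap.finrank_range_add_finrank_ker (fderiv ℝ A u : Eu d →ₗ[ℝ] F)
      have e2 : Module.finrank ℝ (Eu d) = d := by simp [Eu]
      rw [e2] at e1
      have e3 : Module.finrank ℝ (LinearMap.ker (fderiv ℝ A u : Eu d →ₗ[ℝ] F)) = 0 := by omega
      have e4 : LinearMap.ker (fderiv ℝ A u : Eu d →ₗ[ℝ] F) = ⊥ := Submodule.finrank_eq_zero.1 e3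
      exact LinearMap.ker_eq_bot.1 e4
    refine ⟨h3, h4, ?_, hinj, ?_⟩
    · -- constant
      have hdiff : ∀ v ∈ Metric.ball (0 : Eu d) r, HasFDerivAt (fun u => f (A u)) (0 : Eu d →L[ℝ] ℝ) v := by
        intro v hv
        obtain ⟨_, k2, k3, k4, _, _⟩ := hball v hv
        have d1 : DifferentiableAt ℝ f (A v) :=
          (hf.contDiffAt (hO.mem_nhds k3)).differentiableAt (by simp)
        have d2 : DifferentiableAt ℝ A v := k2.differentiableAt (by simp)
        have d3 := d1.hasFDerivAt.comp v d2.hasFDerivAt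
        rw [k4, ContinuousLinearMap.zero_comp] at d3
        exact d3
      have hconv : Convex ℝ (Metric.ball (0 : Eu d) r) := convex_ball 0 r
      have hc := IsOpen.is_const_of_fderiv_eq_zero (𝕜 := ℝ) (f := fun u => f (A u)) Metric.isOpen_ball
        hconv.isPreconnected (fun v hv => (hdiff v hv).differentiableAt.differentiableWithinAt)
        (fun v hv => (hdiff v hv).fderiv) hu (Metric.mem_ball_self hr)
      have hc' : f (A u) = f (A 0) := hc
      rw [hc', hA0]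
    · -- kernel
      have hle : LinearMap.range (fderiv ℝ A u : Eu d →ₗ[ℝ] F) ≤
          LinearMap.ker (fderiv ℝ (fderiv ℝ f) (A u) : F →ₗ[ℝ] (F →L[ℝ] ℝ)) := by
        rintro w ⟨h, rfl⟩
        rw [LinearMap.mem_ker]
        have d1 : DifferentiableAt ℝ (fderiv ℝ f) (A u) := (hf1 _ h3).differentiableAt (by simp)
        have d2 : DifferentiableAt ℝ A u := h2.differentiableAt (by simp)
        have d3 := d1.hasFDerivAt.comp u d2.hasFDerivAt
        have d4 : (fderiv ℝ f ∘ A) =ᶠ[𝓝 u] fun _ => 0 := by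
          filter_upwards [Metric.isOpen_ball.mem_nhds hu] with v hv
          exact (hball v hv).2.2.2.1
        have d5 := d3.fderiv
        rw [d4.fderiv_eq] at d5
        have := congrArg (fun B => B h) d5
        simpa using this.symm
      have hker0 := LinearMap.finrank_range_add_finrank_ker
        (fderiv ℝ (fderiv ℝ f) (A 0) : F →ₗ[ℝ] (F →L[ℝ] ℝ))
      have hkeru := LinearMap.finrank_range_add_finrank_ker
        (fderiv ℝ (fderiv ℝ f) (A u) : F →ₗ[ℝ] (F →L[ℝ] ℝ))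
      have hk' : Module.finrank ℝ (LinearMap.ker (fderiv ℝ (fderiv ℝ f) (A 0) : F →ₗ[ℝ] (F →L[ℝ] ℝ))) = d := by
        rw [hA0]; exact hk
      have heq := Submodule.eq_of_le_of_finrank_le hle (by
        rw [LinearMap.finrank_range_of_inj (f := (fderiv ℝ A u : Eu d →ₗ[ℝ] F)) hinj]
        have e2 : Module.finrank ℝ (Eu d) = d := by simp [Eu]
        rw [e2]
        omega)
      intro w
      have hmem : w ∈ LinearMap.ker (fderiv ℝ (fderiv ℝ f) (A u) : F →ₗ[ℝ] (F →L[ℝ] ℝ)) ↔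
          w ∈ LinearMap.range (fderiv ℝ A u : Eu d →ₗ[ℝ] F) := by rw [heq]
      rw [LinearMap.mem_ker, LinearMap.mem_range] at hmem
      exact hmem

end SurfaceAux

section SurfaceMain
variable {n : ℕ} (T : Submodule ℝ (Eu n))

theorem surface_of_param_P (a : T) (b : Tᗮ) :
    T.orthogonalProjectionOnto ((a : Eu n) + (b : Eu n)) = a := by
  rw [map_add, Submodule.orthogonalProjectionOnto_mem_subspace_eq_self]
  have : T.orthogonalProjectionOnto (b : Eu n) = 0 :=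
    Submodule.orthogonalProjectionOnto_apply_of_mem_orthogonal b.2
  rw [this, add_zero]

theorem surface_of_param_Q (a : T) (b : Tᗮ) :
    Tᗮ.orthogonalProjectionOnto ((a : Eu n) + (b : Eu n)) = b := by
  rw [map_add, Submodule.orthogonalProjectionOnto_mem_subspace_eq_self]
  have : Tᗮ.orthogonalProjectionOnto (a : Eu n) = 0 := by
    apply Submodule.orthogonalProjectionOnto_apply_of_mem_orthogonal
    rw [Submodule.orthogonal_orthogonal]
    exact a.2
  rw [this, zero_add]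

theorem surface_of_param_dec (y : Eu n) :
    ((T.orthogonalProjectionOnto y : T) : Eu n) + ((Tᗮ.orthogonalProjectionOnto y : Tᗮ) : Eu n) = y := by
  rw [Submodule.orthogonalProjectionOnto_orthogonal]
  simp

theorem surface_of_param_norm (W y : Eu n) (κ : ℝ) :
    ‖W - κ • y‖ ^ 2 = ‖W‖ ^ 2 - 2 * κ * fam (W, κ) y := by
  unfold fam
  rw [norm_sub_sq_real, inner_smul_right, norm_smul, mul_pow, Real.norm_eq_abs, sq_abs]
  ring

end SurfaceMain

set_option maxHeartbeats 4000000 in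
theorem surface_of_param_main {n m : ℕ} {M : Set (Eu n)} {T : Submodule ℝ (Eu n)} {g : T → Tᗮ} {O : Set T}
    {V : Set (Eu n)} (hc : IsChart ∞ m M T g O V) (x₀ ξ₀ : Eu n) (hxV : x₀ ∈ V)
    (hz : (x₀, ξ₀) ∈ unitNormalBundle M) (κ : ℝ) (W0 : Eu n) (hW0 : W0 = ξ₀ + κ • x₀)
    (K : Submodule ℝ T) (hKeq : K = nullK T g x₀ (W0, κ)) (ψ₁ : K → T) (h1 : ContDiffAt ℝ 1 ψ₁ 0)
    (h2 : ψ₁ 0 = T.orthogonalProjectionOnto x₀) (h3 : ∀ v, fderiv ℝ ψ₁ 0 v = v)
    (h4 : ∀ᶠ e in 𝓝 0, fderiv ℝ (fam (W0, κ) ∘ cmap T g) (ψ₁ e) = 0) (d : ℕ)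
    (hd : Module.finrank ℝ (Submodule.span ℝ (principalSpace M (x₀, ξ₀) κ)) = d) :
    Module.finrank ℝ K = d ∧
    ∃ (U : Set (Eu d)) (ψ : Eu d → Eu n × Eu n), IsOpen U ∧ IsConnected U ∧ (0 : Eu d) ∈ U ∧
      ψ 0 = (x₀, ξ₀) ∧ Topology.IsEmbedding (U.domRestrict ψ) ∧
      IsCurvatureSurface M U ψ (fun _ => κ) := by
  obtain ⟨hxM, hξ1, hξn⟩ := hz
  simp only at hxM hξ1 hξn
  have hO := hc.openO
  have hg : ContDiffOn ℝ ∞ g O := hc.smooth
  set P := T.orthogonalProjectionOnto with hP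
  set Q := Tᗮ.orthogonalProjectionOnto with hQ
  set f : T → ℝ := fam (W0, κ) ∘ cmap T g with hf
  set a₀ : T := P x₀ with ha₀
  have hPc : ∀ (a : T) (b : Tᗮ), P ((a : Eu n) + (b : Eu n)) = a := surface_of_param_P T
  have hQc : ∀ (a : T) (b : Tᗮ), Q ((a : Eu n) + (b : Eu n)) = b := surface_of_param_Q T
  have hdec : ∀ y : Eu n, ((P y : T) : Eu n) + ((Q y : Tᗮ) : Eu n) = y := surface_of_param_dec T
  have hPφ : ∀ a, P (cmap T g a) = a := fun a => hPc _ _
  have hQφ : ∀ a, Q (cmap T g a) = g a := fun a => hQc _ _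
  have hx : cmap T g a₀ = x₀ := by
    have h1 := ((hc.mem x₀ hxV).2.1 hxM)
    unfold cmap
    rw [ha₀]
    rw [← h1]
    exact hdec x₀
  have ha₀O : a₀ ∈ O := (hc.mem x₀ hxV).1
  have hcms : ContDiffOn ℝ ∞ (cmap T g) O := by
    unfold cmap
    have h1 : ContDiffOn ℝ ∞ (fun a : T => (a : Eu n)) O := T.subtypeL.contDiff.contDiffOn
    have h2 : ContDiffOn ℝ ∞ (fun a : T => (g a : Eu n)) O := Tᗮ.subtypeL.contDiff.comp_contDiffOn hg
    exact h1.add h2
  set O' : Set T := {a | a ∈ O ∧ cmap T g a ∈ V} with hO'def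
  have hO' : IsOpen O' := hcms.continuousOn.isOpen_inter_preimage hO hc.openV
  have ha₀O' : a₀ ∈ O' := ⟨ha₀O, by rw [hx]; exact hxV⟩
  have hsub : O' ⊆ O := fun a ha => ha.1
  have hfam : ContDiff ℝ ∞ (fam (W0, κ) : Eu n → ℝ) := by
    unfold fam
    exact (contDiff_const.inner ℝ contDiff_id).sub
      ((contDiff_const.mul (contDiff_id.norm_sq ℝ)).div_const 2)
  have hfs : ContDiffOn ℝ ∞ f O' := hfam.comp_contDiffOn (hcms.mono hsub)
  -- the kernel of the second derivative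
  have hker2 : ∀ a ∈ O, ∀ k, fderiv ℝ (fderiv ℝ f) a k = 0 ↔ Lop g a (Q W0 - κ • g a) κ k = 0 := by
    intro a ha k
    constructor
    · intro h
      have h1 := fam_d2 g O hO hg a ha (W0, κ) k (Lop g a (Q W0 - κ • g a) κ k)
      rw [← hf, h] at h1
      have h2 : ⟪Lop g a (Q W0 - κ • g a) κ k, Lop g a (Q W0 - κ • g a) κ k⟫_ℝ = 0 := by
        have : (0 : ℝ) = -⟪Lop g a (Q W0 - κ • g a) κ k, Lop g a (Q W0 - κ • g a) κ k⟫_ℝ := h1
        linarith
      exact inner_self_eq_zero.1 h2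
    · intro h
      ext v
      have h1 := fam_d2 g O hO hg a ha (W0, κ) k v
      rw [← hf] at h1
      rw [h1]
      have h2 : Lop g a (Q W0 - κ • g a) κ k = 0 := h
      show -⟪Lop g a (Q W0 - κ • g a) κ k, v⟫_ℝ = 0
      rw [h2, inner_zero_left, neg_zero]
  have hWx : W0 - κ • x₀ = ξ₀ := by rw [hW0]; abel
  have hQξ : Q W0 - κ • g a₀ = Q ξ₀ := by
    have e1 : g a₀ = Q x₀ := by rw [← hQφ a₀, hx]
    rw [e1, ← map_smul, ← map_sub, hWx]
  have hKmem : ∀ k, k ∈ K ↔ fderiv ℝ (fderiv ℝ f) a₀ k = 0 := by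
    intro k
    rw [hker2 a₀ ha₀O k, hQξ]
    rw [hKeq]
    show Lop g (P x₀) (Q (W0 - κ • x₀)) κ k = 0 ↔ _
    rw [hWx]
  -- the derivative of the graph map
  let Dφ : T → T →L[ℝ] Eu n := fun a => T.subtypeL + Tᗮ.subtypeL ∘L fderiv ℝ g a
  have hDφ : ∀ a u, Dφ a u = (u : Eu n) + (fderiv ℝ g a u : Eu n) := fun a u => rfl
  have hDφd : ∀ a ∈ O, HasFDerivAt (cmap T g) (Dφ a) a := by
    intro a ha
    have h1 : HasFDerivAt g (fderiv ℝ g a) a :=
      ((hg.contDiffAt (hO.mem_nhds ha)).differentiableAt (by simp)).hasFDerivAt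
    have h2 : HasFDerivAt (fun a : T => (a : Eu n)) T.subtypeL a := T.subtypeL.hasFDerivAt
    have h3 : HasFDerivAt (fun a : T => (g a : Eu n)) (Tᗮ.subtypeL ∘L fderiv ℝ g a) a :=
      Tᗮ.subtypeL.hasFDerivAt.comp a h1
    exact h2.add h3
  have hDφi : ∀ a, Function.Injective (Dφ a) := by
    intro a u v huv
    have h1 := congrArg P huv
    rw [hDφ, hDφ, hPc, hPc] at h1
    exact h1
  -- dimension of K
  have hKd : Module.finrank ℝ K = d := by
    let Λ : T →ₗ[ℝ] Eu n × Eu n := LinearMap.prod (Dφ a₀ : T →ₗ[ℝ] Eu n) ((-κ) • (Dφ a₀ : T →ₗ[ℝ] Eu n))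
    have hΛ : Function.Injective Λ := by
      intro u v huv
      exact hDφi a₀ (congrArg Prod.fst huv)
    have h1 : principalSpace M (x₀, ξ₀) κ =
        ((K.map Λ : Submodule ℝ (Eu n × Eu n)) : Set (Eu n × Eu n)) := by
      rw [br_principal hc x₀ hxV ξ₀ ⟨hxM, hξ1, hξn⟩ κ]
      ext X
      constructor
      · rintro ⟨u, hu, h1, h2⟩
        refine ⟨u, ?_, ?_⟩
        · show u ∈ K
          rw [hKeq]
          show Lop g (P x₀) (Q (W0 - κ • x₀)) κ u = 0
          rw [hWx]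
          exact hu
        · refine Prod.ext ?_ ?_
          · rw [h1]; rfl
          · rw [h2, h1]; rfl
      · rintro ⟨u, hu, rfl⟩
        refine ⟨u, ?_, ?_, ?_⟩
        · have hu0 : u ∈ K := hu
          rw [hKeq] at hu0
          have hu' : Lop g (P x₀) (Q (W0 - κ • x₀)) κ u = 0 := hu0
          rw [hWx] at hu'
          exact hu'
        · rfl
        · rfl
    rw [h1, Submodule.span_eq] at hd
    rw [← hd]
    exact (LinearEquiv.finrank_eq (Submodule.equivMapOfInjective Λ hΛ _))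
  refine ⟨hKd, ?_⟩
  -- a smooth parametrisation
  obtain ⟨S, hS1, hS2, hS3, hS4⟩ := surface_of_param_reparam f O' hO' hfs a₀ ha₀O'
    K hKmem ψ₁ h1 h2 h3 h4
  obtain ⟨A, R, hAs, hA0, hRA, hAc⟩ := surface_of_param_A f a₀ K d hKd S hS1 hS2 hS3 hS4
  have hAi : Function.Injective (fderiv ℝ A 0) := by
    intro u v huv
    have h1 := congrArg R huv
    rw [hRA, hRA] at h1
    exact h1
  let ψ : Eu d → Eu n × Eu n := fun u => (cmap T g (A u), W0 - κ • cmap T g (A u))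
  let ρ : Eu n × Eu n → Eu d := fun y => R (P y.1 - a₀)
  have hρ : Continuous ρ := by fun_prop
  have hρψ : ∀ u, ρ (ψ u) = R (A u - a₀) := by
    intro u
    show R (P (cmap T g (A u)) - a₀) = _
    rw [hPφ]
  have hstr : HasStrictFDerivAt (fun u => ρ (ψ u))
      ((ContinuousLinearEquiv.refl ℝ (Eu d) : Eu d ≃L[ℝ] Eu d) : Eu d →L[ℝ] Eu d) 0 := by
    have h1 : HasStrictFDerivAt A (fderiv ℝ A 0) 0 := hAs.self_of_nhds.hasStrictFDerivAt (by simp)
    have h2 : HasStrictFDerivAt (fun y => R y) R (A 0 - a₀) := R.hasStrictFDerivAt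
    have h3 : HasStrictFDerivAt (fun u => R (A u - a₀)) (R ∘L fderiv ℝ A 0) 0 :=
      h2.comp (0 : Eu d) (h1.sub_const a₀)
    have h4 : (fun u => ρ (ψ u)) = fun u => R (A u - a₀) := by
      funext u; rw [hρψ]
    have h5 : ((ContinuousLinearEquiv.refl ℝ (Eu d) : Eu d ≃L[ℝ] Eu d) : Eu d →L[ℝ] Eu d) =
        R ∘L fderiv ℝ A 0 := by
      ext1 u
      exact (hRA u).symm
    rw [h4, h5]
    exact h3
  obtain ⟨s, hs, hse⟩ := surface_of_param_emb ψ ρ hρ (ContinuousLinearEquiv.refl ℝ (Eu d)) hstr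
  have hk : Module.finrank ℝ (LinearMap.ker (fderiv ℝ (fderiv ℝ f) a₀ : T →ₗ[ℝ] (T →L[ℝ] ℝ))) = d := by
    have e1 : LinearMap.ker (fderiv ℝ (fderiv ℝ f) a₀ : T →ₗ[ℝ] (T →L[ℝ] ℝ)) = K := by
      ext k
      rw [LinearMap.mem_ker, hKmem k]
      rfl
    rw [e1]
    exact hKd
  obtain ⟨r, hr, hrs, hAS, hball⟩ := surface_of_param_local f O' hO' hfs d A a₀ ha₀O' hAs hA0 hAi hAc hk s hs
  have hφA : ContDiffOn ℝ ∞ (fun u => cmap T g (A u)) (Metric.ball (0 : Eu d) r) :=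
    hcms.comp hAS (fun u hu => (hball u hu).1.1)
  have hψs : ContDiffOn ℝ ∞ ψ (Metric.ball (0 : Eu d) r) :=
    hφA.prodMk (contDiffOn_const.sub (hφA.const_smul κ))
  have hnorm : ∀ a : T, ‖W0 - κ • cmap T g a‖ ^ 2 = ‖W0‖ ^ 2 - 2 * κ * f a := by
    intro a
    exact surface_of_param_norm W0 (cmap T g a) κ
  have hψ0' : ψ 0 = (x₀, ξ₀) := by
    show (cmap T g (A 0), W0 - κ • cmap T g (A 0)) = (x₀, ξ₀)
    rw [hA0, hx, hWx]
  have hmem : ∀ u ∈ Metric.ball (0 : Eu d) r, ψ u ∈ unitNormalBundle M := by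
    intro u hu
    obtain ⟨hO1, hcr, hf', hinj, hker⟩ := hball u hu
    have hφV : cmap T g (A u) ∈ V := hO1.2
    have hφM : cmap T g (A u) ∈ M := by
      rw [(hc.mem _ hφV).2]
      show Q (cmap T g (A u)) = g (P (cmap T g (A u)))
      rw [hPφ, hQφ]
    refine ⟨hφM, ?_, ?_⟩
    · show ‖W0 - κ • cmap T g (A u)‖ = 1
      have h1 := hnorm (A u)
      have h2 := hnorm a₀
      rw [hf'] at h1
      rw [hx, hWx, hξ1] at h2
      have h4 : ‖W0 - κ • cmap T g (A u)‖ ^ 2 = 1 := by rw [h1, ← h2]; norm_num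
      nlinarith [norm_nonneg (W0 - κ • cmap T g (A u))]
    · have hv := (br_normal hc (cmap T g (A u)) hφM hφV (W0 - κ • cmap T g (A u))).2
      apply hv
      show P (W0 - κ • cmap T g (A u)) = -nrm g (P (cmap T g (A u))) (Q (W0 - κ • cmap T g (A u)))
      rw [map_sub, map_smul, map_sub, map_smul, hPφ, hQφ]
      have e3 : ∀ w, ⟪P W0 - κ • A u + nrm g (A u) (Q W0 - κ • g (A u)), w⟫_ℝ = 0 := by
        intro w
        have := fam_d1 g O hO hg (A u) hO1.1 (W0, κ) w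
        rw [← hf, hcr] at this
        exact this.symm
      have e4 : P W0 - κ • A u + nrm g (A u) (Q W0 - κ • g (A u)) = 0 := inner_self_eq_zero.1 (e3 _)
      exact eq_neg_of_add_eq_zero_left e4
  have hψd' : ∀ u ∈ Metric.ball (0 : Eu d) r, HasFDerivAt ψ
      ((Dφ (A u) ∘L fderiv ℝ A u).prod ((-κ) • (Dφ (A u) ∘L fderiv ℝ A u))) u := by
    intro u hu
    have h1 : HasFDerivAt A (fderiv ℝ A u) u :=
      ((hAS.contDiffAt (Metric.isOpen_ball.mem_nhds hu)).differentiableAt (by simp)).hasFDerivAt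
    have h2 : HasFDerivAt (fun u => cmap T g (A u)) (Dφ (A u) ∘L fderiv ℝ A u) u :=
      (hDφd (A u) (hball u hu).1.1).comp u h1
    have h3 : HasFDerivAt (fun u => W0 - κ • cmap T g (A u)) ((-κ) • (Dφ (A u) ∘L fderiv ℝ A u)) u := by
      have h4 := (h2.const_smul κ).const_sub W0
      have h5 : ((-κ) • (Dφ (A u) ∘L fderiv ℝ A u)) = -(κ • (Dφ (A u) ∘L fderiv ℝ A u)) := by
        ext1 w
        show (-κ) • (Dφ (A u) (fderiv ℝ A u w)) = -(κ • (Dφ (A u) (fderiv ℝ A u w)))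
        exact neg_smul κ _
      rw [h5]
      exact h4
    exact h2.prodMk h3
  refine ⟨Metric.ball 0 r, ψ, Metric.isOpen_ball, ?_, Metric.mem_ball_self hr, hψ0', ?_, ?_⟩
  · exact (convex_ball 0 r).isConnected ⟨0, Metric.mem_ball_self hr⟩
  · exact hse _ hrs hψs.continuousOn
  · refine ⟨hψs, hmem, ?_, ?_⟩
    · intro u hu
      rw [(hψd' u hu).fderiv]
      intro h1 h2 h12
      have h3 : Dφ (A u) (fderiv ℝ A u h1) = Dφ (A u) (fderiv ℝ A u h2) := congrArg Prod.fst h12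
      exact (hball u hu).2.2.2.1 (hDφi _ h3)
    · intro u hu
      have hm := hmem u hu
      obtain ⟨hO1, hcr, hf', hinj, hker⟩ := hball u hu
      have hφV : cmap T g (A u) ∈ V := hO1.2
      rw [(hψd' u hu).fderiv]
      show _ = principalSpace M (cmap T g (A u), W0 - κ • cmap T g (A u)) κ
      rw [br_principal hc (cmap T g (A u)) hφV (W0 - κ • cmap T g (A u)) hm κ]
      have hQv : Q (W0 - κ • cmap T g (A u)) = Q W0 - κ • g (A u) := by
        rw [map_sub, map_smul, hQφ]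
      ext X
      constructor
      · rintro ⟨h, rfl⟩
        refine ⟨fderiv ℝ A u h, ?_, ?_, ?_⟩
        · show Lop g (P (cmap T g (A u))) (Q (W0 - κ • cmap T g (A u))) κ (fderiv ℝ A u h) = 0
          rw [hPφ, hQv]
          exact (hker2 _ hO1.1 _).1 ((hker _).2 ⟨h, rfl⟩)
        · show Dφ (A u) (fderiv ℝ A u h) =
            ((fderiv ℝ A u h : T) : Eu n) + (fderiv ℝ g (P (cmap T g (A u))) (fderiv ℝ A u h) : Eu n)
          rw [hPφ]
          exact hDφ _ _
        · rfl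
      · rintro ⟨w, hw, hX1, hX2⟩
        have hw' : Lop g (P (cmap T g (A u))) (Q (W0 - κ • cmap T g (A u))) κ w = 0 := hw
        have hX1' : X.1 = (w : Eu n) + (fderiv ℝ g (P (cmap T g (A u))) w : Eu n) := hX1
        rw [hPφ, hQv] at hw'
        rw [hPφ] at hX1'
        obtain ⟨h, hh⟩ := (hker w).1 ((hker2 _ hO1.1 _).2 hw')
        refine ⟨h, ?_⟩
        refine Prod.ext ?_ ?_
        · show Dφ (A u) (fderiv ℝ A u h) = X.1
          rw [hh, hX1']
          exact hDφ _ _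
        · show (-κ) • Dφ (A u) (fderiv ℝ A u h) = X.2
          have h9 : X.2 = -κ • X.1 := hX2
          rw [h9, hX1', hh, hDφ]



/-! PLAIN PROOF OF THE TARGET(S)

This is the smooth (C^∞) version of a proof already in the repository: see the theorem resultC_main and the lemmas resultC_rank, resultC_emb, resultC_A, resultC_norm in Pool/Agent/Helper469_Dupin/JresultC.lean (your clone of the shared repository), from the line
`obtain ⟨A, R, hAan, ...⟩` on; there ψ₁ comes from an analytic theorem, here it is given.  Summary: p0 = (ξ0 + κ x0, κ), p0.1 - p0.2 x0 = ξ0, a0 = P x0, b0 = Q ξ0 ≠ 0, K = nullK = ker Lop g a0 b0 κ; br_principal identifies principalSpace M (x0,ξ0) κ with the image of K under the injective linear map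
u ↦ (u + Dg u, -κ(u + Dg u)), so dim K = d.  Choose a linear isomorphism Eu d ≃ K and compose: A : Eu d → T smooth near 0, A 0 = a0, DA(0) injective with range K, D(fam p0∘cmap)(A u) = 0 near 0.  ψ(u) = (cmap(A u), ξ0 + κ x0 - κ cmap(A u)).  For u near 0: the point is in the unit normal bundle: w0 - κ y is
normal at y = cmap(A u) (fam_d1, br_normal), its norm is constant: |w0 - κ y|² = |w0|² - 2κ fam p0 y and fam p0(cmap(A u)) is constant near 0 (its derivative vanishes; small ball connected).  DA(u) injective near 0, the range of Dψ(u) = {(Dcmap DA h, -κ Dcmap DA h)}, which is contained in the principal space at ψ(u) (differentiate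
D(fam p0∘cmap)(A u) = 0: DA(u)h ∈ ker Lop, fam_d2) and the kernel of Lop at A u has dimension ≤ d for u near 0 (semicontinuity), so equal: tangent.  ψ is an embedding on a small ball (injective immersion: A has a left inverse on a small ball, e.g. by the inverse function theorem).
-/

section
variable {n m : ℕ} {M : Set (Eu n)} {T : Submodule ℝ (Eu n)} {g : T → Tᗮ} {O : Set T} {V : Set (Eu n)}

/-- TARGET -/
theorem surface_of_param (hc : IsChart ∞ m M T g O V) (x₀ ξ₀ : Eu n) (hxV : x₀ ∈ V)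
    (hz : (x₀, ξ₀) ∈ unitNormalBundle M) (κ : ℝ)
    (ψ₁ : nullK T g x₀ (ξ₀ + κ • x₀, κ) → T) (h1 : ContDiffAt ℝ ∞ ψ₁ 0)
    (h2 : ψ₁ 0 = T.orthogonalProjectionOnto x₀) (h3 : ∀ v, fderiv ℝ ψ₁ 0 v = v)
    (h4 : ∀ᶠ e in 𝓝 0, fderiv ℝ (fam (ξ₀ + κ • x₀, κ) ∘ cmap T g) (ψ₁ e) = 0) (d : ℕ)
    (hd : Module.finrank ℝ (Submodule.span ℝ (principalSpace M (x₀, ξ₀) κ)) = d) :
    Module.finrank ℝ (nullK T g x₀ (ξ₀ + κ • x₀, κ)) = d ∧
    ∃ (U : Set (Eu d)) (ψ : Eu d → Eu n × Eu n), IsOpen U ∧ IsConnected U ∧ (0 : Eu d) ∈ U ∧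
      ψ 0 = (x₀, ξ₀) ∧ Topology.IsEmbedding (U.domRestrict ψ) ∧
      IsCurvatureSurface M U ψ (fun _ => κ) := by
  exact surface_of_param_main hc x₀ ξ₀ hxV hz κ (ξ₀ + κ • x₀) rfl _ rfl ψ₁
    (h1.of_le (WithTop.coe_le_coe.2 (le_top : (1 : ℕ∞) ≤ ⊤))) h2 h3 h4 d hd

end

end Pool.Agent.H469

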