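import Pool.Agent.Helper469_Dupin.DefsD
import Pool.Agent.Helper469_Dupin.Jbres
import Pool.Agent.Helper469_Dupin.Jbrcrit
import Pool.Agent.Helper469_Dupin.Jbrindex
import Pool.Agent.Helper469_Dupin.Jfamd
import Pool.Agent.Helper469_Dupin.Jlop
import Pool.Agent.Helper469_Dupin.Jindex

set_option autoImplicit false

open Set Filter Topology MeasureTheory
open scoped ContDiff InnerProductSpace

namespace Pool.Agent.H469


section
variable {E : Type} [NormedAddCommGroup E] [NormedSpace ℝ E]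

theorem umbilic_aux_gen (F : E → ℝ) (O : Set E) (hO : IsOpen O) (hF : ContDiffOn ℝ ∞ F O) (a₀ : E)
    (ha : a₀ ∈ O) (h1 : fderiv ℝ F a₀ = 0) (h2 : fderiv ℝ (fderiv ℝ F) a₀ = 0) (c : ℝ)
    (hc : 0 < c) : ∃ δ > 0, ∀ a ∈ Metric.ball a₀ δ, ‖F a - F a₀‖ ≤ c * ‖a - a₀‖ * ‖a - a₀‖ := by
  have hc2 : ContDiffAt ℝ ∞ F a₀ := hF.contDiffAt (hO.mem_nhds ha)
  have hc3 : ContDiffAt ℝ 2 F a₀ := hc2.of_le ENat.LEInfty.out
  have hd : DifferentiableAt ℝ (fderiv ℝ F) a₀ := by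
    have := hc3.fderiv_right (m := 1) (by norm_num)
    exact this.differentiableAt (by norm_num)
  have hlo := hd.hasFDerivAt.isLittleO
  rw [h2, h1] at hlo
  have hb := hlo.def hc
  obtain ⟨δ, hδ, hball⟩ := Metric.mem_nhds_iff.1 (Filter.inter_mem (hO.mem_nhds ha) hb)
  refine ⟨δ, hδ, fun a haδ => ?_⟩
  have hsub : ∀ b ∈ Metric.closedBall a₀ ‖a - a₀‖, b ∈ Metric.ball a₀ δ := by
    intro b hb'
    rw [Metric.mem_closedBall] at hb'
    rw [Metric.mem_ball, dist_eq_norm] at haδ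
    exact Metric.mem_ball.2 (lt_of_le_of_lt hb' haδ)
  refine (convex_closedBall a₀ ‖a - a₀‖).norm_image_sub_le_of_norm_fderiv_le (𝕜 := ℝ)
    (fun b hb' => ?_) (fun b hb' => ?_) (Metric.mem_closedBall_self (norm_nonneg _)) ?_
  · have hbO : b ∈ O := (hball (hsub b hb')).1
    exact (hF.contDiffAt (hO.mem_nhds hbO)).differentiableAt (by norm_num)
  · have := (hball (hsub b hb')).2
    simp only [Set.mem_ofPred_eq, zero_apply, sub_zero] at this
    refine this.trans ?_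
    rw [Metric.mem_closedBall, dist_eq_norm] at hb'
    exact mul_le_mul_of_nonneg_left hb' hc.le
  · rw [Metric.mem_closedBall, dist_eq_norm]

theorem umbilic_aux_gneg (F : E → ℝ) (a : E) (h : fderiv ℝ (fderiv ℝ F) a = 0) :
    fderiv ℝ (fderiv ℝ (fun b => -F b)) a = 0 := by
  have h1 : fderiv ℝ (fun b => -F b) = fun b => -fderiv ℝ F b := by
    funext b
    exact fderiv_fun_neg
  rw [h1, fderiv_fun_neg, h, neg_zero]

theorem umbilic_aux_psi (K : Submodule ℝ E) (a₀ : E) :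
    ContDiffAt ℝ ∞ (fun v : K => a₀ + (v : E)) 0 ∧
    ∀ v : K, fderiv ℝ (fun v : K => a₀ + (v : E)) 0 v = v := by
  refine ⟨contDiffAt_const.add K.subtypeL.contDiff.contDiffAt, fun v => ?_⟩
  have h3 : HasFDerivAt (fun v : K => a₀ + (v : E)) K.subtypeL 0 :=
    (K.subtypeL.hasFDerivAt).const_add a₀
  rw [h3.fderiv]
  rfl

end

section
variable {n m : ℕ} {M : Set (Eu n)} {T : Submodule ℝ (Eu n)} {g : T → Tᗮ} {O : Set T} {V : Set (Eu n)}

theorem umbilic_aux_proj1 (T : Submodule ℝ (Eu n)) (g : T → Tᗮ) (a : T) :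
    T.orthogonalProjectionOnto (cmap T g a) = a := by
  unfold cmap
  rw [map_add]
  simp

theorem umbilic_aux_proj2 (T : Submodule ℝ (Eu n)) (g : T → Tᗮ) (a : T) :
    Tᗮ.orthogonalProjectionOnto (cmap T g a) = g a := by
  unfold cmap
  rw [map_add]
  simp

theorem umbilic_aux_split (T : Submodule ℝ (Eu n)) (x : Eu n) :
    (T.orthogonalProjectionOnto x : Eu n) + (Tᗮ.orthogonalProjectionOnto x : Eu n) = x :=
  Submodule.starProjection_add_starProjection_orthogonal (K := T) x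

theorem umbilic_aux_cmap (h : IsChart ∞ m M T g O V) (x : Eu n) (hx : x ∈ M) (hxV : x ∈ V) :
    cmap T g (T.orthogonalProjectionOnto x) = x := by
  have h1 := ((h.mem x hxV).2).1 hx
  unfold cmap
  rw [← h1]
  exact umbilic_aux_split T x

theorem umbilic_aux_smooth (h : IsChart ∞ m M T g O V) (p : Eu n × ℝ) :
    ContDiffOn ℝ ∞ (fam p ∘ cmap T g) O := by
  have h1 : ContDiffOn ℝ ∞ (cmap T g) O := by
    unfold cmap
    exact (T.subtypeL.contDiff.contDiffOn).add (Tᗮ.subtypeL.contDiff.comp_contDiffOn h.smooth)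
  have h2 : ContDiff ℝ ∞ (fam p) := by
    unfold fam
    exact (contDiff_const.inner ℝ contDiff_id).sub
      ((contDiff_const.mul (contDiff_id.norm_sq ℝ)).div_const 2)
  exact h2.comp_contDiffOn h1

theorem umbilic_aux_fam (p : Eu n × ℝ) (τ : ℝ) (x₀ x : Eu n) :
    fam (p.1 + τ • x₀, p.2 + τ) x = fam p x - τ / 2 * ‖x - x₀‖ ^ 2 + τ / 2 * ‖x₀‖ ^ 2 := by
  unfold fam
  simp only
  rw [inner_add_left, real_inner_smul_left, norm_sub_sq_real, real_inner_comm x x₀]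
  ring

theorem umbilic_aux_real (A B τ d e : ℝ) (hτ : 0 < τ) (hd : 0 < d) (hde : d ≤ e)
    (h : ‖A - B‖ ≤ τ / 4 * d * d) : A - τ / 2 * e ^ 2 < B := by
  have h3 := (abs_le.1 h).2
  have h4 : d * d ≤ e ^ 2 := by
    rw [pow_two]
    exact mul_le_mul hde hde hd.le (hd.le.trans hde)
  have h5 : 0 < τ * (d * d) := by positivity
  have h6 : τ * (d * d) ≤ τ * e ^ 2 := mul_le_mul_of_nonneg_left h4 hτ.le
  linarith

theorem umbilic_aux_pnorm (T : Submodule ℝ (Eu n)) (x y : Eu n) :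
    ‖T.orthogonalProjectionOnto x - T.orthogonalProjectionOnto y‖ ≤ ‖x - y‖ := by
  rw [← map_sub]
  exact (ContinuousLinearMap.le_opNorm _ _).trans
    ((mul_le_mul_of_nonneg_right T.orthogonalProjectionOnto_norm_le (norm_nonneg _)).trans
      (one_mul _).le)

theorem umbilic_aux_far (h : IsChart ∞ m M T g O V) (x₀ : Eu n) (hx : x₀ ∈ M) (hxV : x₀ ∈ V)
    (p : Eu n × ℝ) (τ : ℝ) (hτ : 0 < τ) (δ : ℝ)
    (hball : ∀ a ∈ Metric.ball (T.orthogonalProjectionOnto x₀) δ,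
      ‖(fam p ∘ cmap T g) a - (fam p ∘ cmap T g) (T.orthogonalProjectionOnto x₀)‖ ≤
        τ / 4 * ‖a - T.orthogonalProjectionOnto x₀‖ * ‖a - T.orthogonalProjectionOnto x₀‖)
    (x : Eu n) (hxV' : x ∈ V) (hxb : T.orthogonalProjectionOnto x ∈
      Metric.ball (T.orthogonalProjectionOnto x₀) δ) (hxM : x ∈ M) (hne : x ≠ x₀) :
      fam p x - τ / 2 * ‖x - x₀‖ ^ 2 < fam p x₀ := by
  have hax : cmap T g (T.orthogonalProjectionOnto x) = x := umbilic_aux_cmap h x hxM hxV'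
  have hax₀ : cmap T g (T.orthogonalProjectionOnto x₀) = x₀ := umbilic_aux_cmap h x₀ hx hxV
  have hne' : T.orthogonalProjectionOnto x ≠ T.orthogonalProjectionOnto x₀ := by
    intro he
    rw [he] at hax
    exact hne (hax.symm.trans hax₀)
  have hpos : 0 < ‖T.orthogonalProjectionOnto x - T.orthogonalProjectionOnto x₀‖ :=
    norm_pos_iff.2 (sub_ne_zero.2 hne')
  have hmv := hball _ hxb
  rw [Function.comp_apply, Function.comp_apply, hax, hax₀] at hmv
  exact umbilic_aux_real _ _ τ _ _ hτ hpos (umbilic_aux_pnorm T x x₀) hmv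

theorem umbilic_aux_local (h : IsChart ∞ m M T g O V) (x₀ : Eu n) (hx : x₀ ∈ M) (hxV : x₀ ∈ V)
    (p : Eu n × ℝ)
    (h1 : fderiv ℝ (fam p ∘ cmap T g) (T.orthogonalProjectionOnto x₀) = 0)
    (h2 : fderiv ℝ (fderiv ℝ (fam p ∘ cmap T g)) (T.orthogonalProjectionOnto x₀) = 0)
    (τ : ℝ) (hτ : 0 < τ) :
    ∃ W : Set (Eu n), IsOpen W ∧ x₀ ∈ W ∧ ∀ x ∈ W, x ∈ M → x ≠ x₀ →
      fam p x - τ / 2 * ‖x - x₀‖ ^ 2 < fam p x₀ := by
  obtain ⟨δ, hδ, hball⟩ := umbilic_aux_gen (fam p ∘ cmap T g) O h.openO (umbilic_aux_smooth h p)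
    (T.orthogonalProjectionOnto x₀) (h.mem x₀ hxV).1 h1 h2 (τ / 4) (by linarith)
  have hcont : Continuous (fun x : Eu n => T.orthogonalProjectionOnto x) :=
    T.orthogonalProjectionOnto.continuous
  have hmem : T.orthogonalProjectionOnto x₀ ∈ Metric.ball (T.orthogonalProjectionOnto x₀) δ :=
    Metric.mem_ball_self hδ
  refine ⟨V ∩ {x | T.orthogonalProjectionOnto x ∈ Metric.ball (T.orthogonalProjectionOnto x₀) δ},
    ?_, ?_, ?_⟩
  · exact h.openV.inter (Metric.isOpen_ball.preimage hcont)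
  · exact ⟨hxV, hmem⟩
  · intro x hxx hxM hne
    exact umbilic_aux_far h x₀ hx hxV p τ hτ δ hball x hxx.1 hxx.2 hxM hne

theorem umbilic_aux_le (hM : IsSubmanifold ∞ m M) (hcpt : IsCompact M) (hconn : IsPreconnected M)
    (hD : IsDupin M) (h : IsChart ∞ m M T g O V) (x₀ : Eu n) (hx : x₀ ∈ M) (hxV : x₀ ∈ V)
    (p : Eu n × ℝ)
    (h1 : fderiv ℝ (fam p ∘ cmap T g) (T.orthogonalProjectionOnto x₀) = 0)
    (h2 : fderiv ℝ (fderiv ℝ (fam p ∘ cmap T g)) (T.orthogonalProjectionOnto x₀) = 0)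
    (x : Eu n) (hxM : x ∈ M) : fam p x ≤ fam p x₀ := by
  have key : ∀ τ : ℝ, 0 < τ → fam p x ≤ fam p x₀ + τ / 2 * ‖x - x₀‖ ^ 2 := by
    intro τ hτ
    obtain ⟨W, hW, hxW, hlt⟩ := umbilic_aux_local h x₀ hx hxV p h1 h2 τ hτ
    by_contra hcon
    push Not at hcon
    have hS := resultB hM hcpt hconn hD (p.1 + τ • x₀, p.2 + τ)
      (fam (p.1 + τ • x₀, p.2 + τ) x₀)
    have hne : x ≠ x₀ := by
      rintro rfl
      simp at hcon
    obtain ⟨y, hy, hyW, hyn⟩ := hS W {x₀}ᶜ hW isOpen_compl_singleton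
      (fun y _ => by
        by_cases hyx : y = x₀
        · left
          rw [hyx]
          exact hxW
        · right
          exact hyx)
      ⟨x₀, ⟨hx, le_refl _⟩, hxW⟩
      ⟨x, ⟨hxM, by
        rw [umbilic_aux_fam, umbilic_aux_fam, sub_self, norm_zero]
        nlinarith⟩, hne⟩
    have h3 := hlt y hyW hy.1 hyn
    have h4 := hy.2
    rw [umbilic_aux_fam, umbilic_aux_fam, sub_self, norm_zero] at h4
    nlinarith
  by_contra hcon
  push Not at hcon
  have hs : 0 ≤ ‖x - x₀‖ ^ 2 := by positivity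
  have h3 := key ((fam p x - fam p x₀) / (‖x - x₀‖ ^ 2 + 1)) (by
    apply div_pos <;> linarith)
  have h4 : (fam p x - fam p x₀) / (‖x - x₀‖ ^ 2 + 1) / 2 * ‖x - x₀‖ ^ 2 ≤
      (fam p x - fam p x₀) / 2 := by
    have h5 : ‖x - x₀‖ ^ 2 / (‖x - x₀‖ ^ 2 + 1) ≤ 1 := by
      rw [div_le_one (by linarith)]
      linarith
    calc (fam p x - fam p x₀) / (‖x - x₀‖ ^ 2 + 1) / 2 * ‖x - x₀‖ ^ 2
        = (fam p x - fam p x₀) / 2 * (‖x - x₀‖ ^ 2 / (‖x - x₀‖ ^ 2 + 1)) := by ring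
      _ ≤ (fam p x - fam p x₀) / 2 * 1 :=
          mul_le_mul_of_nonneg_left h5 (by linarith)
      _ = (fam p x - fam p x₀) / 2 := mul_one _
  linarith

theorem umbilic_aux_neg (p : Eu n × ℝ) : fam (-p) = fun x => -fam p x := by
  funext x
  unfold fam
  simp only [Prod.fst_neg, Prod.snd_neg, inner_neg_left]
  ring

end

/-! PLAIN PROOF OF THE TARGET(S)

nullK is then all of T (dim T = m), so D²(fam p0∘cmap)(a0) = 0, a0 = P x0 (fam_d2; Q(p.1 - p.2 x0) = Q p.1 - p.2 g a0).  For τ > 0 put p± = (p0.1 ∓ ... ): let p = (p0.1 + τ x0, p0.2 + τ), so fam p x = fam p0 x + τ(<x0,x> - |x|²/2) = fam p0 x - τ|x-x0|²/2 + τ|x0|²/2.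
x0 is critical for fam p and the Hessian in the chart is -τ Gop, negative definite, so x0 is a strict local maximum of fam p on M (second derivative test in the chart).  By resultB the set {x ∈ M | fam p x0 ≤ fam p x} is preconnected, and {x0} is relatively open in it, so it is {x0}: fam p x ≤ fam p x0 for all
x ∈ M, i.e. fam p0 x ≤ fam p0 x0 + τ|x-x0|²/2.  Let τ → 0: fam p0 x ≤ fam p0 x0.  Apply the same to -p0 = (-p0.1,-p0.2) (fam (-p0) = -fam p0, its nullity at x0 is also m, x0 critical): fam p0 x ≥ fam p0 x0.  So fam p0 is constant on M.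
ψ(v) = a0 + v (nullK = T): for small v cmap(a0+v) ∈ M ∩ V, fam p0 ∘ cmap is constant near a0, so its derivative vanishes near a0.
-/

section
variable {n m : ℕ} {M : Set (Eu n)} {T : Submodule ℝ (Eu n)} {g : T → Tᗮ} {O : Set T} {V : Set (Eu n)}

/-- TARGET -/
theorem umbilic (hM : IsSubmanifold ∞ m M) (hcpt : IsCompact M) (hconn : IsPreconnected M)
    (hD : IsDupin M) (hc : IsChart ∞ m M T g O V) (x₀ : Eu n) (hx : x₀ ∈ M) (hxV : x₀ ∈ V)
    (p₀ : Eu n × ℝ) (hcr : x₀ ∈ critSet M (fam p₀))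
    (hnull : Module.finrank ℝ (nullK T g x₀ p₀) = m) :
    (∀ x ∈ M, fam p₀ x = fam p₀ x₀) ∧
    ∃ ψ : nullK T g x₀ p₀ → T, ContDiffAt ℝ ∞ ψ 0 ∧ ψ 0 = T.orthogonalProjectionOnto x₀ ∧
      (∀ v, fderiv ℝ ψ 0 v = v) ∧ ∀ᶠ e in 𝓝 0, fderiv ℝ (fam p₀ ∘ cmap T g) (ψ e) = 0 := by
  classical
  set a₀ := T.orthogonalProjectionOnto x₀ with ha₀
  have haO : a₀ ∈ O := (hc.mem x₀ hxV).1
  have hQ : Tᗮ.orthogonalProjectionOnto x₀ = g a₀ := ((hc.mem x₀ hxV).2).1 hx
  have hcf : ContDiff ℝ ∞ (fam p₀) := by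
    unfold fam
    exact (contDiff_const.inner ℝ contDiff_id).sub
      ((contDiff_const.mul (contDiff_id.norm_sq ℝ)).div_const 2)
  have h1 : fderiv ℝ (fam p₀ ∘ cmap T g) a₀ = 0 := (br_crit hc x₀ hx hxV (fam p₀) hcf).1 hcr
  have hb : Tᗮ.orthogonalProjectionOnto (p₀.1 - p₀.2 • x₀) =
      Tᗮ.orthogonalProjectionOnto p₀.1 - p₀.2 • g a₀ := by
    rw [map_sub, map_smul, hQ]
  have htop : nullK T g x₀ p₀ = ⊤ := by
    apply Submodule.eq_top_of_finrank_eq
    rw [hnull, hc.dim]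
  have hL : ∀ u : T, Lop g a₀ (Tᗮ.orthogonalProjectionOnto p₀.1 - p₀.2 • g a₀) p₀.2 u = 0 := by
    intro u
    have hu : u ∈ nullK T g x₀ p₀ := by
      rw [htop]
      trivial
    unfold nullK at hu
    rw [LinearMap.mem_ker, hb] at hu
    exact hu
  have h2 : fderiv ℝ (fderiv ℝ (fam p₀ ∘ cmap T g)) a₀ = 0 := by
    ext u v
    rw [fam_d2 g O hc.openO hc.smooth a₀ haO p₀ u v, hL u, inner_zero_left, neg_zero]
    rfl
  have hneg : fam (-p₀) ∘ cmap T g = fun a => -(fam p₀ ∘ cmap T g) a := by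
    rw [umbilic_aux_neg]
    rfl
  have h1' : fderiv ℝ (fam (-p₀) ∘ cmap T g) a₀ = 0 := by
    rw [hneg, fderiv_fun_neg, h1, neg_zero]
  have h2' : fderiv ℝ (fderiv ℝ (fam (-p₀) ∘ cmap T g)) a₀ = 0 := by
    rw [hneg]
    exact umbilic_aux_gneg _ _ h2
  have hconst : ∀ x ∈ M, fam p₀ x = fam p₀ x₀ := by
    intro x hxM
    apply le_antisymm
    · exact umbilic_aux_le hM hcpt hconn hD hc x₀ hx hxV p₀ h1 h2 x hxM
    · have := umbilic_aux_le hM hcpt hconn hD hc x₀ hx hxV (-p₀) h1' h2' x hxM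
      rw [umbilic_aux_neg] at this
      simp only at this
      linarith
  obtain ⟨hp1, hp2⟩ := umbilic_aux_psi (nullK T g x₀ p₀) a₀
  refine ⟨hconst, fun v => a₀ + (v : T), hp1, ?_, hp2, ?_⟩
  · simp
  · have hcc : ContinuousAt (cmap T g) a₀ := by
      unfold cmap
      refine (continuous_subtype_val.continuousAt).add ?_
      exact continuous_subtype_val.continuousAt.comp
        (hc.smooth.continuousOn.continuousAt (hc.openO.mem_nhds haO))
    have hVn : V ∈ 𝓝 (cmap T g a₀) := by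
      rw [umbilic_aux_cmap hc x₀ hx hxV]
      exact hc.openV.mem_nhds hxV
    have h4 : (fam p₀ ∘ cmap T g) =ᶠ[𝓝 a₀] fun _ => fam p₀ x₀ := by
      filter_upwards [hcc hVn] with a ha
      have haV : cmap T g a ∈ V := ha
      have haM : cmap T g a ∈ M := by
        apply ((hc.mem _ haV).2).2
        rw [umbilic_aux_proj1, umbilic_aux_proj2]
      exact hconst _ haM
    have h5 : ∀ᶠ a in 𝓝 a₀, fderiv ℝ (fam p₀ ∘ cmap T g) a = 0 := by
      filter_upwards [h4.eventuallyEq_nhds] with a ha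
      rw [ha.fderiv_eq]
      exact fderiv_const_apply _
    have h6 : Tendsto (fun v : nullK T g x₀ p₀ => a₀ + (v : T)) (𝓝 0) (𝓝 a₀) := by
      have : ContinuousAt (fun v : nullK T g x₀ p₀ => a₀ + (v : T)) 0 :=
        (continuous_const.add continuous_subtype_val).continuousAt
      have h7 : a₀ + ((0 : nullK T g x₀ p₀) : T) = a₀ := by simp
      rw [ContinuousAt, h7] at this
      exact this
    exact h6.eventually h5

end

end Pool.Agent.H469
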