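import Pool.Agent.Helper469_Dupin.DefsD
import Pool.Agent.Helper469_Dupin.Jdnul2
import Pool.Agent.Helper469_Dupin.Jdnul1
import Pool.Agent.Helper469_Dupin.Jdumb
import Pool.Agent.Helper469_Dupin.Jdsurf
import Pool.Agent.Helper469_Dupin.Jbcrit2
import Pool.Agent.Helper469_Dupin.Jcritiff
import Pool.Agent.Helper469_Dupin.Jbrprin
import Pool.Agent.Helper469_Dupin.Jfamd
import Pool.Agent.Helper469_Dupin.Jbrcrit

set_option autoImplicit false

open Set Filter Topology MeasureTheory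
open scoped ContDiff InnerProductSpace

namespace Pool.Agent.H469


/-! PLAIN PROOF OF THE TARGET(S)

z = (x0,ξ0), x0 ∈ M, |ξ0| = 1, ξ0 normal.  Chart at x0 (isSubmanifold_iff).  p0 = (ξ0 + κ x0, κ): x0 is critical for fam p0: by br_crit / fam_d1 the gradient is P p0.1 - κ a + nrm g a (Q p0.1 - κ g a) = P ξ0 + nrm g a (Q ξ0) = 0 by br_normal.  p0.1 - p0.2 x0 = ξ0 ≠ 0.  surface_of_param needs ψ₁;
its first conclusion says finrank nullK = d, but we need this before: do it in two steps, or note that the first conclusion of surface_of_param can be extracted separately; simplest: case on finrank nullK =: d'.  If d' ≤ 1 use nullity_small, if d' = 2 nullity_two, if d' = m umbilic; each gives ψ₁ and surface_of_param finishes.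
If d' is none of these, show d = d' directly: by br_principal-type argument principalSpace M (x0,ξ0) κ is the image of nullK under the injective linear map u ↦ (u + Dg u, -κ(u + Dg u)), so d = d' and
hdm is violated.
-/

section
variable {n m : ℕ} {M : Set (Eu n)} {T : Submodule ℝ (Eu n)} {g : T → Tᗮ} {O : Set T} {V : Set (Eu n)}

theorem resultD_fam_smooth (p : Eu n × ℝ) : ContDiff ℝ ∞ (fam p) := by
  have h1 : ContDiff ℝ ∞ (fun x : Eu n => ⟪p.1, x⟫_ℝ) := contDiff_const.inner ℝ contDiff_id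
  have h2 : ContDiff ℝ ∞ (fun x : Eu n => ‖x‖ ^ 2) := contDiff_norm_sq ℝ
  exact h1.sub ((contDiff_const.mul h2).div_const 2)

theorem resultD_crit (hc : IsChart ∞ m M T g O V) (x₀ ξ₀ : Eu n) (hxV : x₀ ∈ V)
    (hz : (x₀, ξ₀) ∈ unitNormalBundle M) (κ : ℝ) :
    x₀ ∈ critSet M (fam (ξ₀ + κ • x₀, κ)) := by
  obtain ⟨hxM, -, hnorm⟩ := hz
  simp only at hxM hnorm
  rw [br_crit hc x₀ hxM hxV _ (resultD_fam_smooth _)]
  obtain ⟨hO, hQ⟩ := hc.mem x₀ hxV
  have hQ' := hQ.1 hxM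
  have hN := (br_normal hc x₀ hxM hxV ξ₀).1 hnorm
  ext u
  rw [fam_d1 g O hc.openO hc.smooth _ hO]
  simp only [map_add, map_smul, hQ', add_sub_cancel_right, zero_apply]
  rw [hN]
  simp

/-- the map from the tangent space of the graph -/
noncomputable def resultD_Phi (T : Submodule ℝ (Eu n)) (A : T →L[ℝ] Tᗮ) (κ : ℝ) :
    T →ₗ[ℝ] Eu n × Eu n :=
  ((T.subtype + Tᗮ.subtype ∘ₗ (A : T →ₗ[ℝ] Tᗮ))).prod
    (-κ • (T.subtype + Tᗮ.subtype ∘ₗ (A : T →ₗ[ℝ] Tᗮ)))

theorem resultD_Phi_inj (T : Submodule ℝ (Eu n)) (A : T →L[ℝ] Tᗮ) (κ : ℝ) :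
    Function.Injective (resultD_Phi T A κ) := by
  intro u v h
  have h1 : (u : Eu n) + (A u : Eu n) = (v : Eu n) + (A v : Eu n) := by
    have := congrArg Prod.fst h
    simpa [resultD_Phi] using this
  have h2 := congrArg (fun x => T.orthogonalProjectionOnto x) h1
  simp only [map_add] at h2
  have e1 : ∀ w : T, T.orthogonalProjectionOnto (w : Eu n) = w := fun w => by simp
  have e2 : ∀ w : Tᗮ, T.orthogonalProjectionOnto (w : Eu n) = 0 := fun w => by simp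
  rw [e1, e1, e2, e2] at h2
  simpa using h2

theorem resultD_dim (hc : IsChart ∞ m M T g O V) (x₀ ξ₀ : Eu n) (hxV : x₀ ∈ V)
    (hz : (x₀, ξ₀) ∈ unitNormalBundle M) (κ : ℝ) :
    Module.finrank ℝ (Submodule.span ℝ (principalSpace M (x₀, ξ₀) κ)) =
      Module.finrank ℝ (nullK T g x₀ (ξ₀ + κ • x₀, κ)) := by
  have h1 : principalSpace M (x₀, ξ₀) κ =
      (Submodule.map (resultD_Phi T (fderiv ℝ g (T.orthogonalProjectionOnto x₀)) κ)
        (nullK T g x₀ (ξ₀ + κ • x₀, κ)) : Set (Eu n × Eu n)) := by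
    rw [br_principal hc x₀ hxV ξ₀ hz κ]
    ext X
    simp only [Set.mem_ofPred_eq, Submodule.map_coe, Set.mem_image, SetLike.mem_coe, nullK,
      LinearMap.mem_ker, ContinuousLinearMap.coe_coe, add_sub_cancel_right]
    constructor
    · rintro ⟨u, hu, hX1, hX2⟩
      refine ⟨u, hu, ?_⟩
      apply Prod.ext
      · simp [resultD_Phi, hX1]
      · simp [resultD_Phi, hX2, hX1]
    · rintro ⟨u, hu, rfl⟩
      refine ⟨u, hu, ?_, ?_⟩
      · simp [resultD_Phi]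
      · simp [resultD_Phi]
  rw [h1, Submodule.span_eq]
  exact (LinearEquiv.finrank_eq (Submodule.equivMapOfInjective _
    (resultD_Phi_inj T _ κ) _)).symm

end

section

/-- TARGET -/
theorem resultD {n m : ℕ} {M : Set (Eu n)} (hM : IsSubmanifold ∞ m M) (hcpt : IsCompact M)
    (hconn : IsPreconnected M) (hD : IsDupin M) (z : Eu n × Eu n) (hz : z ∈ unitNormalBundle M)
    (κ : ℝ) (d : ℕ) (hd : Module.finrank ℝ (Submodule.span ℝ (principalSpace M z κ)) = d)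
    (hdm : d ≤ 2 ∨ d = m) :
    ∃ (U : Set (Eu d)) (ψ : Eu d → Eu n × Eu n), IsOpen U ∧ IsConnected U ∧ (0 : Eu d) ∈ U ∧
      ψ 0 = z ∧ Topology.IsEmbedding (U.domRestrict ψ) ∧ IsCurvatureSurface M U ψ (fun _ => κ) := by
  obtain ⟨x₀, ξ₀⟩ := z
  obtain ⟨T, g, O, V, hxV, hc⟩ := (isSubmanifold_iff _ _ _).1 hM x₀ hz.1
  have hcr := resultD_crit hc x₀ ξ₀ hxV hz κ
  have hdim := resultD_dim hc x₀ ξ₀ hxV hz κ
  have hb : ((ξ₀ + κ • x₀, κ) : Eu n × ℝ).1 ≠ ((ξ₀ + κ • x₀, κ) : Eu n × ℝ).2 • x₀ := by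
    simp only [ne_eq, add_eq_right]
    intro h0
    have h1 : ‖ξ₀‖ = 1 := hz.2.1
    rw [h0, norm_zero] at h1
    exact zero_ne_one h1
  have key : ∃ ψ : nullK T g x₀ (ξ₀ + κ • x₀, κ) → T, ContDiffAt ℝ ∞ ψ 0 ∧
      ψ 0 = T.orthogonalProjectionOnto x₀ ∧ (∀ v, fderiv ℝ ψ 0 v = v) ∧
      ∀ᶠ e in 𝓝 0, fderiv ℝ (fam (ξ₀ + κ • x₀, κ) ∘ cmap T g) (ψ e) = 0 := by
    rcases hdm with h2 | hm
    · rcases (by omega : d ≤ 1 ∨ d = 2) with h | h
      · exact nullity_small hM hcpt hD hc x₀ hz.1 hxV _ hcr (by omega) hb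
      · exact nullity_two hM hcpt hD hc x₀ hz.1 hxV _ hcr (by omega) hb
    · exact (umbilic hM hcpt hconn hD hc x₀ hz.1 hxV _ hcr (by omega)).2
  obtain ⟨ψ₁, h1, h2, h3, h4⟩ := key
  exact (surface_of_param hc x₀ ξ₀ hxV hz κ ψ₁ h1 h2 h3 h4 d hd).2

end

end Pool.Agent.H469
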