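import Pool.Agent.Helper469_Dupin.Chart
import Pool.Agent.Helper469_Dupin.Jfocalnull
import Pool.Agent.Helper469_Dupin.Jcountloc
import Pool.Agent.Helper469_Dupin.Jconstnull
import Pool.Agent.Helper469_Dupin.Jloccrit

set_option autoImplicit false

open Set Filter Topology MeasureTheory
open scoped ContDiff InnerProductSpace

namespace Pool.Agent.H469


/-! PLAIN PROOF OF THE TARGET(S)

B = {p : R^n × ℝ | ¬ IsMorse m M (fam p)}.  By focal_null and const_of_null (with μ the volume on Eu n × ℝ, N p = fun k => {x | HasIndex m M (fam p) x k}.ncard,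
hN from count_loc) N p =: c is the same for all p ∉ B (if B is everything put c = 0, but this does not occur, see below).
Symmetry: fam (-p) = - fam p, critSet is the same, HasIndex m M (-f) x k ↔ HasIndex m M f x (m-k) for k ≤ m (swap N and P), so -p ∉ B and
c k = c (m-k).
Distance functions: distFun q x = |q|² - 2 fam (q,1) x, so critSet is the same, Morse ↔ Morse, HasIndex (distFun q) x k ↔ HasIndex (fam (q,1)) x (m-k)
for k ≤ m; for k > m both index sets are empty (finrank P + k = m fails), c k = 0; so the numbers are c(m-k) = c k.  Height functions: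
heightFun u = fam (u,0).  Finiteness from count_loc.
Existence: if no distance function is Morse then (q,1) ∈ B for all q; B is invariant under scaling by s ≠ 0 (fam (s p) = s fam p; for s<0 the
index changes to m - k), so every (w,ε) with ε ≠ 0 is in B; with d = 0 focal_null says B is null, but {ε ≠ 0} is not null.  If no height
function h_u with |u| = 1 is Morse then, by scaling, (u,0) ∈ B for all u ≠ 0, so with d = (0,1) the set {p + s d | p ∈ B} contains all (u,s) with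
u ≠ 0, not null (n > 0).
-/

/-! auxiliary lemmas -/

section
variable {n m : ℕ} {M : Set (Eu n)}

theorem resultA_deriv (g : ℝ → ℝ) (a b : ℝ) (t : ℝ) :
    deriv (fun t => a * g t + b) t = a * deriv g t := by
  rw [deriv_add_const, deriv_const_mul_field]

theorem resultA_deriv2 (g : ℝ → ℝ) (a b : ℝ) :
    iteratedDeriv 2 (fun t => a * g t + b) 0 = a * iteratedDeriv 2 g 0 := by
  have e2 : ∀ u : ℝ → ℝ, iteratedDeriv 2 u = deriv (deriv u) := by
    intro u
    rw [iteratedDeriv_succ, iteratedDeriv_one]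
  rw [e2, e2]
  have h : deriv (fun t => a * g t + b) = fun t => a * deriv g t := funext (resultA_deriv g a b)
  rw [h, deriv_const_mul_field]

theorem resultA_crit (f : Eu n → ℝ) {a : ℝ} (ha : a ≠ 0) (b : ℝ) :
    critSet M (fun x => a * f x + b) = critSet M f := by
  have key : ∀ c : ℝ → Eu n, deriv ((fun x => a * f x + b) ∘ c) 0 = a * deriv (f ∘ c) 0 := by
    intro c
    exact resultA_deriv (f ∘ c) a b 0
  ext x
  constructor
  · rintro ⟨h1, h2⟩
    refine ⟨h1, fun c hc => ?_⟩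
    have h3 := h2 c hc
    rw [key, mul_eq_zero] at h3
    exact h3.resolve_left ha
  · rintro ⟨h1, h2⟩
    refine ⟨h1, fun c hc => ?_⟩
    rw [key, h2 c hc, mul_zero]

theorem resultA_le {f : Eu n → ℝ} {x : Eu n} {k : ℕ} (h : HasIndex m M f x k) : k ≤ m := by
  obtain ⟨-, N, P, -, h2, -⟩ := h
  omega

theorem resultA_pos {f : Eu n → ℝ} {x : Eu n} {k : ℕ} {a : ℝ} (ha : 0 < a) (b : ℝ)
    (h : HasIndex m M f x k) : HasIndex m M (fun x => a * f x + b) x k := by
  obtain ⟨h0, N, P, h1, h2, h3, h4, h5, h6⟩ := h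
  refine ⟨by rw [resultA_crit f ha.ne' b]; exact h0, N, P, h1, h2, h3, h4, ?_, ?_⟩
  · intro c hc hN h0
    have e : iteratedDeriv 2 ((fun x => a * f x + b) ∘ c) 0 = a * iteratedDeriv 2 (f ∘ c) 0 :=
      resultA_deriv2 (f ∘ c) a b
    rw [e]
    exact mul_neg_of_pos_of_neg ha (h5 c hc hN h0)
  · intro c hc hN h0
    have e : iteratedDeriv 2 ((fun x => a * f x + b) ∘ c) 0 = a * iteratedDeriv 2 (f ∘ c) 0 :=
      resultA_deriv2 (f ∘ c) a b
    rw [e]
    exact mul_pos ha (h6 c hc hN h0)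

theorem resultA_neg {f : Eu n → ℝ} {x : Eu n} {k : ℕ} {a : ℝ} (ha : a < 0) (b : ℝ)
    (h : HasIndex m M f x k) : HasIndex m M (fun x => a * f x + b) x (m - k) := by
  have hk := resultA_le h
  obtain ⟨h0, N, P, h1, h2, h3, h4, h5, h6⟩ := h
  refine ⟨by rw [resultA_crit f ha.ne b]; exact h0, P, N, by omega, by omega, h4, h3, ?_, ?_⟩
  · intro c hc hN h0
    have e : iteratedDeriv 2 ((fun x => a * f x + b) ∘ c) 0 = a * iteratedDeriv 2 (f ∘ c) 0 :=
      resultA_deriv2 (f ∘ c) a b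
    rw [e]
    exact mul_neg_of_neg_of_pos ha (h6 c hc hN h0)
  · intro c hc hN h0
    have e : iteratedDeriv 2 ((fun x => a * f x + b) ∘ c) 0 = a * iteratedDeriv 2 (f ∘ c) 0 :=
      resultA_deriv2 (f ∘ c) a b
    rw [e]
    exact mul_pos_of_neg_of_neg ha (h5 c hc hN h0)

theorem resultA_morse {f : Eu n → ℝ} {a : ℝ} (ha : a ≠ 0) (b : ℝ) (h : IsMorse m M f) :
    IsMorse m M (fun x => a * f x + b) := by
  intro x hx
  rw [resultA_crit f ha b] at hx
  obtain ⟨k, hk⟩ := h x hx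
  rcases lt_or_gt_of_ne ha with h1 | h1
  · exact ⟨m - k, resultA_neg h1 b hk⟩
  · exact ⟨k, resultA_pos h1 b hk⟩

theorem resultA_inv (f : Eu n → ℝ) {a : ℝ} (ha : a ≠ 0) (b : ℝ) :
    (fun x => a⁻¹ * (a * f x + b) + (-(a⁻¹ * b))) = f := by
  funext x
  field_simp
  ring

theorem resultA_morse_iff {f : Eu n → ℝ} {a : ℝ} (ha : a ≠ 0) (b : ℝ) :
    IsMorse m M (fun x => a * f x + b) ↔ IsMorse m M f := by
  constructor
  · intro h
    have := resultA_morse (inv_ne_zero ha) (-(a⁻¹ * b)) h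
    rwa [resultA_inv f ha b] at this
  · exact resultA_morse ha b

theorem resultA_set {f : Eu n → ℝ} {a : ℝ} (ha : a < 0) (b : ℝ) {k : ℕ} (hk : k ≤ m) :
    {x | HasIndex m M (fun x => a * f x + b) x k} = {x | HasIndex m M f x (m - k)} := by
  ext x
  constructor
  · intro h
    have h1 : HasIndex m M (fun x => a * f x + b) x k := h
    have := resultA_neg (inv_lt_zero.2 ha) (-(a⁻¹ * b)) h1
    rwa [resultA_inv f ha.ne b] at this
  · intro h
    have h1 : HasIndex m M f x (m - k) := h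
    have := resultA_neg ha b h1
    rwa [Nat.sub_sub_self hk] at this

theorem resultA_empty {f : Eu n → ℝ} {k : ℕ} (hk : m < k) :
    {x | HasIndex m M f x k} = ∅ := by
  ext x
  constructor
  · intro h
    have := resultA_le h
    omega
  · intro h
    exact absurd h (Set.notMem_empty x)

theorem resultA_smul (p : Eu n × ℝ) (s : ℝ) : fam (s • p) = fun x => s * fam p x + 0 := by
  funext x
  unfold fam
  rw [Prod.smul_fst, Prod.smul_snd, real_inner_smul_left, smul_eq_mul]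
  ring

theorem resultA_dist (q : Eu n) : distFun q = fun x => (-2) * fam (q, 1) x + ‖q‖ ^ 2 := by
  funext x
  unfold fam distFun
  rw [norm_sub_sq_real]
  ring

theorem resultA_height (u : Eu n) : heightFun u = fam (u, 0) := by
  funext x
  unfold fam heightFun
  simp

end

section
variable {n m : ℕ} {M : Set (Eu n)}

/-- TARGET -/
theorem resultA (hn : 0 < n) (hM : IsSubmanifold ∞ m M) (hc : IsCompact M) (hD : IsDupin M) :
    ∃ c : ℕ → ℕ, (∀ k ≤ m, c k = c (m - k)) ∧
      (∀ f : Eu n → ℝ, IsDistOrHeight f → IsMorse m M f →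
        (critSet M f).Finite ∧ ∀ k, {x | HasIndex m M f x k}.ncard = c k) ∧
      (∃ p : Eu n, IsMorse m M (distFun p)) ∧ (∃ u : Eu n, ‖u‖ = 1 ∧ IsMorse m M (heightFun u)) := by
  classical
  have hHaar : (volume : Measure (Eu n × ℝ)).IsAddHaarMeasure :=
    inferInstanceAs ((volume : Measure (Eu n)).prod (volume : Measure ℝ)).IsAddHaarMeasure
  obtain ⟨B, hB⟩ : ∃ B : Set (Eu n × ℝ), B = {p | ¬ IsMorse m M (fam p)} := ⟨_, rfl⟩
  have hBm : ∀ p, p ∉ B ↔ IsMorse m M (fam p) := by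
    intro p
    rw [hB]
    exact not_not
  have hnull : ∀ d : Eu n × ℝ,
      (volume : Measure (Eu n × ℝ)) {q | ∃ p ∈ B, ∃ s : ℝ, q = p + s • d} = 0 := by
    intro d
    rw [hB]
    exact focal_null hM hD volume d
  obtain ⟨N, hN⟩ : ∃ N : Eu n × ℝ → ℕ → ℕ,
      ∀ p, N p = fun k => {x | HasIndex m M (fam p) x k}.ncard := ⟨_, fun _ => rfl⟩
  have hconst := const_of_null (volume : Measure (Eu n × ℝ)) B hnull N (by
    intro p hp
    obtain ⟨-, h2⟩ := count_loc hM hc p ((hBm p).1 hp)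
    filter_upwards [h2] with q hq
    refine ⟨(hBm q).2 hq.1, ?_⟩
    rw [hN, hN]
    funext k
    exact hq.2 k)
  -- existence
  have hex : ∃ p : Eu n × ℝ, p ∉ B ∧ p.2 ≠ 0 := by
    by_contra hcon
    push Not at hcon
    have h1 := hnull 0
    have h2 : {p : Eu n × ℝ | p.2 ≠ 0} ⊆ {q | ∃ p ∈ B, ∃ s : ℝ, q = p + s • (0 : Eu n × ℝ)} := by
      intro p hp
      refine ⟨p, ?_, 0, by simp⟩
      by_contra hpB
      exact hp (hcon p hpB)
    have h3 : IsOpen {p : Eu n × ℝ | p.2 ≠ 0} :=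
      isOpen_ne_fun continuous_snd continuous_const
    have h4 := h3.measure_pos (volume : Measure (Eu n × ℝ)) ⟨(0, 1), one_ne_zero⟩
    exact h4.ne' (measure_mono_null h2 h1)
  have hexh : ∃ w : Eu n, w ≠ 0 ∧ (w, (0 : ℝ)) ∉ B := by
    by_contra hcon
    push Not at hcon
    have h1 := hnull (0, 1)
    have h2 : {p : Eu n × ℝ | p.1 ≠ 0} ⊆
        {q | ∃ p ∈ B, ∃ s : ℝ, q = p + s • ((0 : Eu n), (1 : ℝ))} := by
      intro p hp
      refine ⟨(p.1, 0), hcon p.1 hp, p.2, ?_⟩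
      ext1 <;> simp
    have h3 : IsOpen {p : Eu n × ℝ | p.1 ≠ 0} :=
      isOpen_ne_fun continuous_fst continuous_const
    have hnt : Nontrivial (Eu n) := by
      have : Nonempty (Fin n) := ⟨⟨0, hn⟩⟩
      infer_instance
    obtain ⟨w, hw⟩ := exists_ne (0 : Eu n)
    have h4 := h3.measure_pos (volume : Measure (Eu n × ℝ)) ⟨(w, 0), hw⟩
    exact h4.ne' (measure_mono_null h2 h1)
  obtain ⟨p₀, hp₀, hp₀'⟩ := hex
  have hsm : ∀ (p : Eu n × ℝ) (s : ℝ), s ≠ 0 → p ∉ B → s • p ∉ B := by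
    intro p s hs hp
    rw [hBm] at hp ⊢
    rw [resultA_smul]
    exact resultA_morse hs 0 hp
  have hsymm : ∀ k ≤ m, N p₀ k = N p₀ (m - k) := by
    intro k hk
    have h1 := hconst p₀ hp₀ ((-1 : ℝ) • p₀) (hsm p₀ (-1) (by norm_num) hp₀)
    have h2 : N ((-1 : ℝ) • p₀) k = N p₀ (m - k) := by
      rw [hN, hN]
      show {x | HasIndex m M (fam ((-1 : ℝ) • p₀)) x k}.ncard = _
      rw [resultA_smul, resultA_set (by norm_num) 0 hk]
    rw [← h2, ← h1]
  have hbig : ∀ k, m < k → N p₀ k = 0 := by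
    intro k hk
    rw [hN]
    show {x | HasIndex m M (fam p₀) x k}.ncard = 0
    rw [resultA_empty hk, Set.ncard_empty]
  refine ⟨N p₀, hsymm, ?_, ?_, ?_⟩
  · rintro f (⟨q, rfl⟩ | ⟨u, rfl⟩) hf
    · rw [resultA_dist] at hf ⊢
      have hf' : IsMorse m M (fam (q, (1 : ℝ))) := (resultA_morse_iff (by norm_num) _).1 hf
      obtain ⟨h1, -⟩ := count_loc hM hc (q, (1 : ℝ)) hf'
      refine ⟨by rw [resultA_crit _ (by norm_num)]; exact h1, fun k => ?_⟩
      rcases le_or_gt k m with hk | hk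
      · rw [resultA_set (by norm_num) _ hk]
        have h2 := hconst p₀ hp₀ (q, (1 : ℝ)) ((hBm _).2 hf')
        rw [hsymm k hk, h2, hN]
      · rw [hbig k hk, resultA_empty hk, Set.ncard_empty]
    · rw [resultA_height] at hf ⊢
      obtain ⟨h1, -⟩ := count_loc hM hc (u, (0 : ℝ)) hf
      refine ⟨h1, fun k => ?_⟩
      have h2 := hconst p₀ hp₀ (u, (0 : ℝ)) ((hBm _).2 hf)
      rw [h2, hN]
  · refine ⟨p₀.2⁻¹ • p₀.1, ?_⟩
    rw [resultA_dist]
    apply resultA_morse (by norm_num)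
    have h1 := hsm p₀ p₀.2⁻¹ (inv_ne_zero hp₀') hp₀
    have h2 : p₀.2⁻¹ • p₀ = (p₀.2⁻¹ • p₀.1, (1 : ℝ)) := by
      ext1
      · rfl
      · rw [Prod.smul_snd, smul_eq_mul, inv_mul_cancel₀ hp₀']
    rw [h2] at h1
    exact (hBm _).1 h1
  · obtain ⟨w, hw, hwB⟩ := hexh
    have hnw : ‖w‖ ≠ 0 := norm_ne_zero_iff.2 hw
    refine ⟨‖w‖⁻¹ • w, ?_, ?_⟩
    · rw [norm_smul, norm_inv, norm_norm, inv_mul_cancel₀ hnw]
    · rw [resultA_height]
      have h1 := hsm (w, (0 : ℝ)) ‖w‖⁻¹ (inv_ne_zero hnw) hwB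
      have h2 : ‖w‖⁻¹ • (w, (0 : ℝ)) = (‖w‖⁻¹ • w, (0 : ℝ)) := by
        ext1
        · rfl
        · rw [Prod.smul_snd, smul_zero]
      rw [h2] at h1
      exact (hBm _).1 h1

end

end Pool.Agent.H469

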