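import Pool.Agent.Helper469_Dupin.Chart
import Pool.Agent.Helper469_Dupin.Jlop
import Pool.Agent.Helper469_Dupin.Jbrvel
import Pool.Agent.Helper469_Dupin.Jbrprin
import Pool.Agent.Helper469_Dupin.Jdupinloc
import Pool.Agent.Helper469_Dupin.Jffund
import Pool.Agent.Helper469_Dupin.Jdcbound
import Pool.Agent.Helper469_Dupin.JabstractCp

set_option autoImplicit false

open Set Filter Topology MeasureTheory
open scoped ContDiff InnerProductSpace

namespace Pool.Agent.H469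


section ResultCAux

theorem resultC_rank {X E F : Type} [TopologicalSpace X] [NormedAddCommGroup E] [NormedSpace ℝ E]
    [NormedAddCommGroup F] [NormedSpace ℝ F] [FiniteDimensional ℝ E] [FiniteDimensional ℝ F]
    (B : X → E →L[ℝ] F) (x0 : X) (hB : ContinuousAt B x0) :
    ∀ᶠ x in 𝓝 x0, Module.finrank ℝ (LinearMap.range (B x0 : E →ₗ[ℝ] F)) ≤
      Module.finrank ℝ (LinearMap.range (B x : E →ₗ[ℝ] F)) := by
  set r := Module.finrank ℝ (LinearMap.range (B x0 : E →ₗ[ℝ] F)) with hr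
  have h := isOpen_setOfPred_nat_le_rank (𝕜 := ℝ) (E := E) (F := F) r
  have h2 : {f : E →L[ℝ] F | (r : Cardinal) ≤ (f : E →ₗ[ℝ] F).rank} ∈ 𝓝 (B x0) := by
    apply h.mem_nhds
    show (r : Cardinal) ≤ (B x0 : E →ₗ[ℝ] F).rank
    rw [LinearMap.rank, ← Module.finrank_eq_rank, hr]
  filter_upwards [hB h2] with x hx
  have hx' : (r : Cardinal) ≤ (B x : E →ₗ[ℝ] F).rank := hx
  rw [LinearMap.rank, ← Module.finrank_eq_rank] at hx'
  exact_mod_cast hx'

theorem resultC_emb {E Y : Type} [NormedAddCommGroup E] [NormedSpace ℝ E] [CompleteSpace E]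
    [TopologicalSpace Y] (ψ : E → Y) (ρ : Y → E) (hρ : Continuous ρ) (Θ' : E ≃L[ℝ] E)
    (h : HasStrictFDerivAt (fun u => ρ (ψ u)) (Θ' : E →L[ℝ] E) 0) :
    ∃ s : Set E, s ∈ 𝓝 (0 : E) ∧ ∀ U : Set E, U ⊆ s → ContinuousOn ψ U →
      Topology.IsEmbedding (U.domRestrict ψ) := by
  let e := h.toOpenPartialHomeomorph (fun u => ρ (ψ u))
  refine ⟨e.source, e.open_source.mem_nhds h.mem_toOpenPartialHomeomorph_source, ?_⟩
  intro U hU hψ
  have h1 : Topology.IsEmbedding (e.source.domRestrict e) := e.isOpenEmbedding_restrict.isEmbedding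
  have h2 : Topology.IsEmbedding (Set.inclusion hU) := Topology.IsEmbedding.inclusion hU
  have h3 := h1.comp h2
  have h4 : (e.source.domRestrict e) ∘ Set.inclusion hU = ρ ∘ (U.domRestrict ψ) := by
    funext u; rfl
  rw [h4] at h3
  exact Topology.IsEmbedding.of_comp (continuousOn_iff_continuous_domRestrict.1 hψ) hρ h3

section
variable {F W : Type} [NormedAddCommGroup F] [InnerProductSpace ℝ F] [FiniteDimensional ℝ F]
  [NormedAddCommGroup W] [InnerProductSpace ℝ W] [FiniteDimensional ℝ W]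

theorem resultC_fsmooth (r : WithTop ℕ∞) (g : F → W) (O : Set F) (hg : ContDiffOn ℝ r g O) (q : F × W × ℝ) :
    ContDiffOn ℝ r (ffun g q) O := by
  unfold ffun
  have h1 : ContDiffOn ℝ r (fun a : F => a) O := contDiffOn_id
  have h2 : ContDiffOn ℝ r (fun a : F => ⟪q.1, a⟫_ℝ) O := contDiffOn_const.inner ℝ h1
  have h3 : ContDiffOn ℝ r (fun a : F => ⟪q.2.1, g a⟫_ℝ) O := contDiffOn_const.inner ℝ hg
  have h4 : ContDiffOn ℝ r (fun a : F => ‖a‖ ^ 2) O := h1.norm_sq ℝ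
  have h5 : ContDiffOn ℝ r (fun a : F => ‖g a‖ ^ 2) O := hg.norm_sq ℝ
  exact (h2.add h3).sub ((contDiffOn_const.mul (h4.add h5)).div_const 2)

theorem resultC_gcont (g : F → W) (O : Set F) (hO : IsOpen O) (hg : ContDiffOn ℝ ∞ g O) (a₀ : F) (ha₀ : a₀ ∈ O) :
    ContinuousAt (Gop g) a₀ := by
  unfold Gop
  have h1 : ContinuousAt (fderiv ℝ g) a₀ :=
    ((hg.contDiffAt (hO.mem_nhds ha₀)).fderiv_right (m := 0) (by norm_cast)).continuousAt
  have h2 : ContinuousAt (fun a => ContinuousLinearMap.adjoint (fderiv ℝ g a)) a₀ :=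
    (ContinuousLinearMap.adjoint (𝕜 := ℝ) (E := F) (F := W)).continuous.continuousAt.comp h1
  exact continuousAt_const.add (h2.clm_comp h1)

theorem resultC_gpos (g : F → W) (a₀ u : F) (hu : u ≠ 0) : 0 < ⟪Gop g a₀ u, u⟫_ℝ := by
  have h1 : ⟪Gop g a₀ u, u⟫_ℝ = ‖u‖ ^ 2 + ‖fderiv ℝ g a₀ u‖ ^ 2 := by
    unfold Gop
    simp only [add_apply, ContinuousLinearMap.comp_apply, ContinuousLinearMap.id_apply, inner_add_left]
    rw [ContinuousLinearMap.adjoint_inner_left, real_inner_self_eq_norm_sq, real_inner_self_eq_norm_sq]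
  rw [h1]
  have := norm_pos_iff.2 hu
  positivity

theorem resultC_gsymm (g : F → W) (a u v : F) : ⟪Gop g a u, v⟫_ℝ = ⟪u, Gop g a v⟫_ℝ := by
  unfold Gop
  simp only [add_apply, ContinuousLinearMap.comp_apply, ContinuousLinearMap.id_apply, inner_add_left,
    inner_add_right]
  rw [ContinuousLinearMap.adjoint_inner_left, ContinuousLinearMap.adjoint_inner_right]

theorem resultC_A (f : F → ℝ) (a₀ : F) (K : Submodule ℝ F) (d : ℕ) (hKd : Module.finrank ℝ K = d)
    (ψ₁ : K → F) (hψa : AnalyticAt ℝ ψ₁ 0) (hψ0 : ψ₁ 0 = a₀) (hψd : ∀ v, fderiv ℝ ψ₁ 0 v = v)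
    (hψc : ∀ᶠ e in 𝓝 (0 : K), fderiv ℝ f (ψ₁ e) = 0) :
    ∃ (A : Eu d → F) (R : F →L[ℝ] Eu d), AnalyticAt ℝ A 0 ∧ A 0 = a₀ ∧ (∀ u, R (fderiv ℝ A 0 u) = u) ∧
      ∀ᶠ u in 𝓝 (0 : Eu d), fderiv ℝ f (A u) = 0 := by
  have hKE : Module.finrank ℝ (Eu d) = Module.finrank ℝ K := by rw [hKd]; simp [Eu]
  let L : Eu d ≃L[ℝ] K := ContinuousLinearEquiv.ofFinrankEq hKE
  let A : Eu d → F := fun u => ψ₁ (L u)
  have hLan : AnalyticAt ℝ (fun u => L u) (0 : Eu d) := (L : Eu d →L[ℝ] K).analyticAt 0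
  have hAan : AnalyticAt ℝ A 0 := by
    apply AnalyticAt.fun_comp _ hLan
    rw [map_zero]; exact hψa
  have hA0 : A 0 = a₀ := by show ψ₁ (L 0) = a₀; rw [map_zero, hψ0]
  have hAd : HasFDerivAt A (K.subtypeL ∘L (L : Eu d →L[ℝ] K)) 0 := by
    have h1 : HasFDerivAt ψ₁ K.subtypeL (L 0) := by
      rw [map_zero]
      have h2 : fderiv ℝ ψ₁ 0 = K.subtypeL := by ext v; rw [hψd v]; rfl
      rw [← h2]
      exact hψa.differentiableAt.hasFDerivAt
    exact h1.comp (0 : Eu d) (L : Eu d →L[ℝ] K).hasFDerivAt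
  refine ⟨A, (L.symm : K →L[ℝ] Eu d) ∘L K.orthogonalProjectionOnto, hAan, hA0, ?_, ?_⟩
  · intro u
    rw [hAd.fderiv]
    show L.symm (K.orthogonalProjectionOnto ((L u : K) : F)) = u
    rw [Submodule.orthogonalProjectionOnto_mem_subspace_eq_self, ContinuousLinearEquiv.symm_apply_apply]
  · have h1 : Tendsto (fun u : Eu d => L u) (𝓝 0) (𝓝 0) := by
      have := (L : Eu d →L[ℝ] K).continuous.tendsto 0
      simpa using this
    exact h1.eventually hψc

theorem resultC_local (g : F → W) (O : Set F) (hO : IsOpen O) (hg : ContDiffOn ℝ ∞ g O) (q : F × W × ℝ)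
    (d : ℕ) (A : Eu d → F) (a₀ : F) (ha₀ : a₀ ∈ O) (hA : AnalyticAt ℝ A 0) (hA0 : A 0 = a₀)
    (hAi : Function.Injective (fderiv ℝ A 0))
    (hcrit : ∀ᶠ u in 𝓝 (0 : Eu d), fderiv ℝ (ffun g q) (A u) = 0)
    (hk : Module.finrank ℝ (LinearMap.ker (Lop g a₀ (q.2.1 - q.2.2 • g a₀) q.2.2 : F →ₗ[ℝ] F)) = d)
    (s : Set (Eu d)) (hs : s ∈ 𝓝 0) :
    ∃ r : ℝ, 0 < r ∧ Metric.ball (0 : Eu d) r ⊆ s ∧ ContDiffOn ℝ ∞ A (Metric.ball 0 r) ∧
      ∀ u ∈ Metric.ball (0 : Eu d) r,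
      A u ∈ O ∧ fderiv ℝ (ffun g q) (A u) = 0 ∧ ffun g q (A u) = ffun g q a₀ ∧
      Function.Injective (fderiv ℝ A u) ∧
      ∀ w, Lop g (A u) (q.2.1 - q.2.2 • g (A u)) q.2.2 w = 0 ↔ ∃ h, fderiv ℝ A u h = w := by
  have hfs : ContDiffOn ℝ ∞ (ffun g q) O := resultC_fsmooth ∞ g O hg q
  -- A analytic near 0
  have hAc : ∀ᶠ u in 𝓝 (0 : Eu d), AnalyticAt ℝ A u := hA.eventually_analyticAt
  have hAO : ∀ᶠ u in 𝓝 (0 : Eu d), A u ∈ O := by
    apply hA.continuousAt.eventually_mem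
    rw [hA0]; exact hO.mem_nhds ha₀
  have hdA : ContinuousAt (fderiv ℝ A) 0 := hA.fderiv.continuousAt
  have hr1 := resultC_rank (fderiv ℝ A) 0 hdA
  -- the operator
  have hLs := lop_smooth g O hO hg
  have hBc : ContinuousAt (fun u : Eu d => Lop g (A u) (q.2.1 - q.2.2 • g (A u)) q.2.2) 0 := by
    have hopen : IsOpen {p : (F × W) × ℝ | p.1.1 ∈ O} := by
      exact hO.preimage (continuous_fst.comp continuous_fst)
    have hc1 : ContinuousAt (fun p : (F × W) × ℝ => Lop g p.1.1 p.1.2 p.2)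
        ((A 0, q.2.1 - q.2.2 • g (A 0)), q.2.2) := by
      apply hLs.continuousOn.continuousAt
      apply hopen.mem_nhds
      show A 0 ∈ O
      rw [hA0]; exact ha₀
    have hgc : ContinuousAt g (A 0) := by
      rw [hA0]
      exact hg.continuousOn.continuousAt (hO.mem_nhds ha₀)
    have hc2 : ContinuousAt (fun u : Eu d => ((A u, q.2.1 - q.2.2 • g (A u)), q.2.2)) 0 := by
      have e1 : ContinuousAt (fun u => g (A u)) 0 := ContinuousAt.comp hgc hA.continuousAt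
      exact (hA.continuousAt.prodMk (continuousAt_const.sub (e1.const_smul _))).prodMk continuousAt_const
    exact ContinuousAt.comp (f := fun u : Eu d => ((A u, q.2.1 - q.2.2 • g (A u)), q.2.2))
      (g := fun p : (F × W) × ℝ => Lop g p.1.1 p.1.2 p.2) hc1 hc2
  have hr2 := resultC_rank _ 0 hBc
  have hall : ∀ᶠ u in 𝓝 (0 : Eu d), u ∈ s ∧ AnalyticAt ℝ A u ∧ A u ∈ O ∧
      fderiv ℝ (ffun g q) (A u) = 0 ∧
      Module.finrank ℝ (LinearMap.range (fderiv ℝ A 0 : Eu d →ₗ[ℝ] F)) ≤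
        Module.finrank ℝ (LinearMap.range (fderiv ℝ A u : Eu d →ₗ[ℝ] F)) ∧
      Module.finrank ℝ (LinearMap.range (Lop g (A 0) (q.2.1 - q.2.2 • g (A 0)) q.2.2 : F →ₗ[ℝ] F)) ≤
        Module.finrank ℝ (LinearMap.range (Lop g (A u) (q.2.1 - q.2.2 • g (A u)) q.2.2 : F →ₗ[ℝ] F)) := by
    filter_upwards [hs, hAc, hAO, hcrit, hr1, hr2] with u h1 h2 h3 h4 h5 h6
    exact ⟨h1, h2, h3, h4, h5, h6⟩
  obtain ⟨r, hr, hball⟩ := Metric.eventually_nhds_iff_ball.1 hall
  have hrank0 : Module.finrank ℝ (LinearMap.range (fderiv ℝ A 0 : Eu d →ₗ[ℝ] F)) = d := by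
    rw [LinearMap.finrank_range_of_inj]
    · simp [Eu]
    · exact hAi
  refine ⟨r, hr, fun u hu => (hball u hu).1, ?_, ?_⟩
  · intro u hu
    exact (hball u hu).2.1.contDiffAt.contDiffWithinAt
  · intro u hu
    obtain ⟨_, h2, h3, h4, h5, h6⟩ := hball u hu
    have hinj : Function.Injective (fderiv ℝ A u) := by
      rw [hrank0] at h5
      have e1 := LinearMap.finrank_range_add_finrank_ker (fderiv ℝ A u : Eu d →ₗ[ℝ] F)
      have e2 : Module.finrank ℝ (Eu d) = d := by simp [Eu]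
      rw [e2] at e1
      have e3 : Module.finrank ℝ (LinearMap.ker (fderiv ℝ A u : Eu d →ₗ[ℝ] F)) = 0 := by omega
      have e4 : LinearMap.ker (fderiv ℝ A u : Eu d →ₗ[ℝ] F) = ⊥ := Submodule.finrank_eq_zero.1 e3
      exact LinearMap.ker_eq_bot.1 e4
    refine ⟨h3, h4, ?_, hinj, ?_⟩
    · -- constant
      have hdiff : ∀ v ∈ Metric.ball (0 : Eu d) r, HasFDerivAt (fun u => ffun g q (A u)) (0 : Eu d →L[ℝ] ℝ) v := by
        intro v hv
        obtain ⟨_, k2, k3, k4, _, _⟩ := hball v hv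
        have d1 : DifferentiableAt ℝ (ffun g q) (A v) :=
          (hfs.contDiffAt (hO.mem_nhds k3)).differentiableAt (by simp)
        have d2 : DifferentiableAt ℝ A v := k2.differentiableAt
        have d3 := d1.hasFDerivAt.comp v d2.hasFDerivAt
        rw [k4, ContinuousLinearMap.zero_comp] at d3
        exact d3
      have hconv : Convex ℝ (Metric.ball (0 : Eu d) r) := convex_ball 0 r
      have hc := IsOpen.is_const_of_fderiv_eq_zero (𝕜 := ℝ) (f := fun u => ffun g q (A u)) Metric.isOpen_ball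
        hconv.isPreconnected (fun v hv => (hdiff v hv).differentiableAt.differentiableWithinAt)
        (fun v hv => (hdiff v hv).fderiv) hu (Metric.mem_ball_self hr)
      have hc' : ffun g q (A u) = ffun g q (A 0) := hc
      rw [hc', hA0]
    · -- kernel
      have hle : LinearMap.range (fderiv ℝ A u : Eu d →ₗ[ℝ] F) ≤
          LinearMap.ker (Lop g (A u) (q.2.1 - q.2.2 • g (A u)) q.2.2 : F →ₗ[ℝ] F) := by
        rintro w ⟨h, rfl⟩
        rw [LinearMap.mem_ker]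
        have d1 : DifferentiableAt ℝ (fderiv ℝ (ffun g q)) (A u) := by
          have := (hfs.contDiffAt (hO.mem_nhds h3)).fderiv_right (m := 1) (by norm_cast)
          exact this.differentiableAt (by simp)
        have d2 : DifferentiableAt ℝ A u := h2.differentiableAt
        have d3 := d1.hasFDerivAt.comp u d2.hasFDerivAt
        have d4 : (fderiv ℝ (ffun g q) ∘ A) =ᶠ[𝓝 u] fun _ => 0 := by
          filter_upwards [Metric.isOpen_ball.mem_nhds hu] with v hv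
          exact (hball v hv).2.2.2.1
        have d5 := d3.fderiv
        rw [d4.fderiv_eq] at d5
        have d6 : fderiv ℝ (fderiv ℝ (ffun g q)) (A u) (fderiv ℝ A u h) = 0 := by
          have := congrArg (fun B => B h) d5
          simpa using this.symm
        have d7 : ∀ v, ⟪Lop g (A u) (q.2.1 - q.2.2 • g (A u)) q.2.2 (fderiv ℝ A u h), v⟫_ℝ = 0 := by
          intro v
          have := ffun_d2 g O hO hg q (A u) h3 (fderiv ℝ A u h) v
          rw [d6] at this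
          simp only [zero_apply] at this
          linarith
        have d8 := d7 (Lop g (A u) (q.2.1 - q.2.2 • g (A u)) q.2.2 (fderiv ℝ A u h))
        exact inner_self_eq_zero.1 d8
      have hker0 := LinearMap.finrank_range_add_finrank_ker
        (Lop g (A 0) (q.2.1 - q.2.2 • g (A 0)) q.2.2 : F →ₗ[ℝ] F)
      have hkeru := LinearMap.finrank_range_add_finrank_ker
        (Lop g (A u) (q.2.1 - q.2.2 • g (A u)) q.2.2 : F →ₗ[ℝ] F)
      have hk' : Module.finrank ℝ (LinearMap.ker (Lop g (A 0) (q.2.1 - q.2.2 • g (A 0)) q.2.2 : F →ₗ[ℝ] F)) = d := by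
        rw [hA0]; exact hk
      have heq := Submodule.eq_of_le_of_finrank_le hle (by
        rw [LinearMap.finrank_range_of_inj (f := (fderiv ℝ A u : Eu d →ₗ[ℝ] F)) hinj]
        have e2 : Module.finrank ℝ (Eu d) = d := by simp [Eu]
        rw [e2]
        omega)
      intro w
      have hmem : w ∈ LinearMap.ker (Lop g (A u) (q.2.1 - q.2.2 • g (A u)) q.2.2 : F →ₗ[ℝ] F) ↔
          w ∈ LinearMap.range (fderiv ℝ A u : Eu d →ₗ[ℝ] F) := by rw [heq]
      rw [LinearMap.mem_ker, LinearMap.mem_range] at hmem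
      exact hmem

end

section
variable {n : ℕ} (T : Submodule ℝ (Eu n))

theorem resultC_P (a : T) (b : Tᗮ) : T.orthogonalProjectionOnto ((a : Eu n) + (b : Eu n)) = a := by
  rw [map_add, Submodule.orthogonalProjectionOnto_mem_subspace_eq_self]
  have : T.orthogonalProjectionOnto (b : Eu n) = 0 :=
    Submodule.orthogonalProjectionOnto_apply_of_mem_orthogonal b.2
  rw [this, add_zero]

theorem resultC_Q (a : T) (b : Tᗮ) : Tᗮ.orthogonalProjectionOnto ((a : Eu n) + (b : Eu n)) = b := by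
  rw [map_add, Submodule.orthogonalProjectionOnto_mem_subspace_eq_self]
  have : Tᗮ.orthogonalProjectionOnto (a : Eu n) = 0 := by
    apply Submodule.orthogonalProjectionOnto_apply_of_mem_orthogonal
    rw [Submodule.orthogonal_orthogonal]
    exact a.2
  rw [this, zero_add]

theorem resultC_dec (y : Eu n) :
    ((T.orthogonalProjectionOnto y : T) : Eu n) + ((Tᗮ.orthogonalProjectionOnto y : Tᗮ) : Eu n) = y := by
  rw [Submodule.orthogonalProjectionOnto_orthogonal]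
  simp

theorem resultC_norm (p a : T) (r b : Tᗮ) (κ : ℝ) :
    ‖((p : Eu n) + (r : Eu n)) - κ • ((a : Eu n) + (b : Eu n))‖ ^ 2 =
      ‖(p : Eu n) + (r : Eu n)‖ ^ 2 - 2 * κ * (⟪p, a⟫_ℝ + ⟪r, b⟫_ℝ - κ * (‖a‖ ^ 2 + ‖b‖ ^ 2) / 2) := by
  have h1 : ⟪(p : Eu n) + (r : Eu n), (a : Eu n) + (b : Eu n)⟫_ℝ = ⟪p, a⟫_ℝ + ⟪r, b⟫_ℝ := by
    rw [inner_add_left, inner_add_right, inner_add_right]
    have e1 : ⟪(p : Eu n), (b : Eu n)⟫_ℝ = 0 := (Submodule.mem_orthogonal T _).1 b.2 p p.2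
    have e2 : ⟪(r : Eu n), (a : Eu n)⟫_ℝ = 0 := by
      rw [real_inner_comm]; exact (Submodule.mem_orthogonal T _).1 r.2 a a.2
    rw [e1, e2]
    simp only [Submodule.coe_inner]
    ring
  have h2 : ‖(a : Eu n) + (b : Eu n)‖ ^ 2 = ‖a‖ ^ 2 + ‖b‖ ^ 2 := by
    rw [norm_add_sq_real]
    have e1 : ⟪(a : Eu n), (b : Eu n)⟫_ℝ = 0 := (Submodule.mem_orthogonal T _).1 b.2 a a.2
    rw [e1]
    simp only [Submodule.coe_norm]
    ring
  rw [norm_sub_sq_real, inner_smul_right, h1, norm_smul, mul_pow, h2, Real.norm_eq_abs, sq_abs]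
  ring

end

end ResultCAux

set_option maxHeartbeats 4000000 in
theorem resultC_main {n m : ℕ} {M : Set (Eu n)} (hM : IsSubmanifold ω m M) (hD : IsDupin M)
    (z : Eu n × Eu n) (hz : z ∈ unitNormalBundle M) (κ : ℝ) (d : ℕ)
    (hd : Module.finrank ℝ (Submodule.span ℝ (principalSpace M z κ)) = d) :
    ∃ (U : Set (Eu d)) (ψ : Eu d → Eu n × Eu n), IsOpen U ∧ IsConnected U ∧ (0 : Eu d) ∈ U ∧
      ψ 0 = z ∧ Topology.IsEmbedding (U.domRestrict ψ) ∧ IsCurvatureSurface M U ψ (fun _ => κ) := by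
  obtain ⟨x, ξ⟩ := z
  obtain ⟨hxM, hξ1, hξn⟩ := hz
  simp only at hxM hξ1 hξn
  obtain ⟨T, g, O, V, hxV, hω⟩ := (isSubmanifold_iff ω m M).1 hM x hxM
  have hch : IsChart ∞ m M T g O V := ⟨hω.dim, hω.openO, hω.openV, hω.smooth.of_le (by exact_mod_cast le_top), hω.mem⟩
  have hO := hch.openO
  have hg : ContDiffOn ℝ ∞ g O := hch.smooth
  set P := T.orthogonalProjectionOnto with hP
  set Q := Tᗮ.orthogonalProjectionOnto with hQ
  set a₀ : T := P x with ha₀
  set b₀ : Tᗮ := Q ξ with hb₀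
  -- basic projection facts
  have hPc : ∀ (a : T) (b : Tᗮ), P ((a : Eu n) + (b : Eu n)) = a := resultC_P T
  have hQc : ∀ (a : T) (b : Tᗮ), Q ((a : Eu n) + (b : Eu n)) = b := resultC_Q T
  have hdec : ∀ y : Eu n, ((P y : T) : Eu n) + ((Q y : Tᗮ) : Eu n) = y := resultC_dec T
  have hx : cmap T g a₀ = x := by
    have h1 := ((hch.mem x hxV).2.1 hxM)
    unfold cmap
    rw [ha₀]
    rw [← h1]
    exact hdec x
  have ha₀O : a₀ ∈ O := (hch.mem x hxV).1
  have hPξ : P ξ = -nrm g a₀ b₀ := (br_normal hch x hxM hxV ξ).1 hξn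
  have hb0 : b₀ ≠ 0 := by
    intro hb
    have h1 : P ξ = 0 := by rw [hPξ, hb]; simp [nrm]
    have h2 := hdec ξ
    rw [h1, ← hb₀, hb] at h2
    simp at h2
    rw [← h2] at hξ1
    simp at hξ1
  set O' : Set T := {a | a ∈ O ∧ cmap T g a ∈ V} with hO'def
  have hcmc : ContinuousOn (cmap T g) O := by
    unfold cmap
    exact (continuous_subtype_val.continuousOn).add (continuous_subtype_val.comp_continuousOn hg.continuousOn)
  have hO' : IsOpen O' := by
    have := hcmc.isOpen_inter_preimage hO hch.openV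
    exact this
  have ha₀O' : a₀ ∈ O' := ⟨ha₀O, by rw [hx]; exact hxV⟩
  have hsub : O' ⊆ O := fun a ha => ha.1
  have hg' : ContDiffOn ℝ ∞ g O' := hg.mono hsub
  have hDL : DupinLoc g O' := dupinLoc_of_isDupin hch hD
  set q : T × Tᗮ × ℝ := (κ • a₀ - nrm g a₀ b₀, κ • g a₀ + b₀, κ) with hq
  have hqb : q.2.1 - q.2.2 • g a₀ = b₀ := by simp [hq]
  obtain ⟨C, δ, hδ, hDC⟩ := dc_bound g O' hO' hg' hDL q a₀ ha₀O' (by rw [hqb]; exact hb0)
  set K : Submodule ℝ T := LinearMap.ker (Lop g a₀ (q.2.1 - q.2.2 • g a₀) q.2.2 : T →ₗ[ℝ] T) with hKdef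
  have hKmem : ∀ k, k ∈ K ↔ fderiv ℝ (fderiv ℝ (ffun g q)) a₀ k = 0 := by
    intro k
    rw [hKdef, LinearMap.mem_ker]
    constructor
    · intro h
      ext v
      rw [ffun_d2 g O hO hg q a₀ ha₀O k v]
      have : Lop g a₀ (q.2.1 - q.2.2 • g a₀) q.2.2 k = 0 := h
      rw [this]; simp
    · intro h
      have h1 := ffun_d2 g O hO hg q a₀ ha₀O k (Lop g a₀ (q.2.1 - q.2.2 • g a₀) q.2.2 k)
      rw [h] at h1
      simp only [zero_apply] at h1
      exact inner_self_eq_zero.1 (neg_eq_zero.1 h1.symm)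
  have hfan : AnalyticAt ℝ (ffun g q) a₀ :=
    ((resultC_fsmooth ω g O hω.smooth q).contDiffAt (hO.mem_nhds ha₀O)).analyticAt
  have hcrit0 : fderiv ℝ (ffun g q) a₀ = 0 := by
    ext v
    rw [ffun_d1 g O hO hg q a₀ ha₀O v, hqb]
    simp [hq]
  have hGc : ContinuousAt (Gop g) a₀ := resultC_gcont g O hO hg a₀ ha₀O
  have hG0 : ∀ u, u ≠ 0 → 0 < ⟪Gop g a₀ u, u⟫_ℝ := fun u hu => resultC_gpos g a₀ u hu
  have hGs : ∀ a u v, ⟪Gop g a u, v⟫_ℝ = ⟪u, Gop g a v⟫_ℝ := fun a u v => resultC_gsymm g a u v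
  obtain ⟨ψ₁, hψa, hψ0, hψd, hψc⟩ := abstractC' (ffun g q) a₀ hfan hcrit0 (Gop g) hGc hG0 hGs C δ hδ hDC K hKmem
  -- the derivative of the graph map
  let Dφ : T → T →L[ℝ] Eu n := fun a => T.subtypeL + Tᗮ.subtypeL ∘L fderiv ℝ g a
  have hDφ : ∀ a u, Dφ a u = (u : Eu n) + (fderiv ℝ g a u : Eu n) := fun a u => rfl
  have hDφd : ∀ a ∈ O, HasFDerivAt (cmap T g) (Dφ a) a := by
    intro a ha
    have h1 : HasFDerivAt g (fderiv ℝ g a) a :=
      ((hg.contDiffAt (hO.mem_nhds ha)).differentiableAt (by simp)).hasFDerivAt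
    have h2 : HasFDerivAt (fun a : T => (a : Eu n)) T.subtypeL a := T.subtypeL.hasFDerivAt
    have h3 : HasFDerivAt (fun a : T => (g a : Eu n)) (Tᗮ.subtypeL ∘L fderiv ℝ g a) a :=
      Tᗮ.subtypeL.hasFDerivAt.comp a h1
    exact h2.add h3
  have hDφi : ∀ a, Function.Injective (Dφ a) := by
    intro a u v huv
    have h1 := congrArg P huv
    rw [hDφ, hDφ, hPc, hPc] at h1
    exact h1
  -- dimension of K
  have hKd : Module.finrank ℝ K = d := by
    let Λ : T →ₗ[ℝ] Eu n × Eu n := LinearMap.prod (Dφ a₀ : T →ₗ[ℝ] Eu n) ((-κ) • (Dφ a₀ : T →ₗ[ℝ] Eu n))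
    have hΛ : Function.Injective Λ := by
      intro u v huv
      exact hDφi a₀ (congrArg Prod.fst huv)
    have h1 : principalSpace M (x, ξ) κ = ((K.map Λ : Submodule ℝ (Eu n × Eu n)) : Set (Eu n × Eu n)) := by
      rw [br_principal hch x hxV ξ ⟨hxM, hξ1, hξn⟩ κ]
      ext X
      constructor
      · rintro ⟨u, hu, h1, h2⟩
        refine ⟨u, ?_, ?_⟩
        · show u ∈ K
          rw [hKdef, LinearMap.mem_ker, hqb]
          exact hu
        · refine Prod.ext ?_ ?_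
          · rw [h1]; rfl
          · rw [h2, h1]; rfl
      · rintro ⟨u, hu, rfl⟩
        refine ⟨u, ?_, ?_, ?_⟩
        · have hu' : u ∈ K := hu
          rw [hKdef, LinearMap.mem_ker, hqb] at hu'
          exact hu'
        · rfl
        · rfl
    rw [h1, Submodule.span_eq] at hd
    rw [← hd]
    exact (LinearEquiv.finrank_eq (Submodule.equivMapOfInjective Λ hΛ K))
  obtain ⟨A, R, hAan, hA0, hRA, hAc⟩ := resultC_A (ffun g q) a₀ K d hKd ψ₁ hψa hψ0 hψd hψc
  have hAi : Function.Injective (fderiv ℝ A 0) := by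
    intro u v huv
    have h1 := congrArg R huv
    rw [hRA, hRA] at h1
    exact h1
  let W0 : Eu n := (q.1 : Eu n) + (q.2.1 : Eu n)
  let ψ : Eu d → Eu n × Eu n := fun u => (cmap T g (A u), W0 - κ • cmap T g (A u))
  let ρ : Eu n × Eu n → Eu d := fun y => R (P y.1 - a₀)
  have hρ : Continuous ρ := by fun_prop
  have hρψ : ∀ u, ρ (ψ u) = R (A u - a₀) := by
    intro u
    show R (P (cmap T g (A u)) - a₀) = _
    unfold cmap
    rw [hPc]
  have hstr : HasStrictFDerivAt (fun u => ρ (ψ u))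
      ((ContinuousLinearEquiv.refl ℝ (Eu d) : Eu d ≃L[ℝ] Eu d) : Eu d →L[ℝ] Eu d) 0 := by
    have h1 : HasStrictFDerivAt A (fderiv ℝ A 0) 0 := hAan.hasStrictFDerivAt
    have h2 : HasStrictFDerivAt (fun y => R y) R (A 0 - a₀) := R.hasStrictFDerivAt
    have h3 : HasStrictFDerivAt (fun u => R (A u - a₀)) (R ∘L fderiv ℝ A 0) 0 :=
      h2.comp (0 : Eu d) (h1.sub_const a₀)
    have h4 : (fun u => ρ (ψ u)) = fun u => R (A u - a₀) := by
      funext u; rw [hρψ]
    have h5 : ((ContinuousLinearEquiv.refl ℝ (Eu d) : Eu d ≃L[ℝ] Eu d) : Eu d →L[ℝ] Eu d) = R ∘L fderiv ℝ A 0 := by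
      ext1 u
      exact (hRA u).symm
    rw [h4, h5]
    exact h3
  obtain ⟨s, hs, hse⟩ := resultC_emb ψ ρ hρ (ContinuousLinearEquiv.refl ℝ (Eu d)) hstr
  obtain ⟨r, hr, hrs, hAs, hball⟩ := resultC_local g O' hO' hg' q d A a₀ ha₀O' hAan hA0 hAi hAc hKd s hs
  have hcms : ContDiffOn ℝ ∞ (cmap T g) O := by
    unfold cmap
    have h1 : ContDiffOn ℝ ∞ (fun a : T => (a : Eu n)) O := T.subtypeL.contDiff.contDiffOn
    have h2 : ContDiffOn ℝ ∞ (fun a : T => (g a : Eu n)) O := Tᗮ.subtypeL.contDiff.comp_contDiffOn hg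
    exact h1.add h2
  have hφA : ContDiffOn ℝ ∞ (fun u => cmap T g (A u)) (Metric.ball (0 : Eu d) r) :=
    hcms.comp hAs (fun u hu => (hball u hu).1.1)
  have hψs : ContDiffOn ℝ ∞ ψ (Metric.ball (0 : Eu d) r) :=
    hφA.prodMk (contDiffOn_const.sub (hφA.const_smul κ))
  have hnorm : ∀ a : T, ‖W0 - κ • cmap T g a‖ ^ 2 = ‖W0‖ ^ 2 - 2 * κ * ffun g q a := by
    intro a
    exact resultC_norm T q.1 a q.2.1 (g a) κ
  have hψ0' : ψ 0 = (x, ξ) := by
    show (cmap T g (A 0), W0 - κ • cmap T g (A 0)) = (x, ξ)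
    rw [hA0, hx]
    refine Prod.ext rfl ?_
    show W0 - κ • x = ξ
    have h1 : W0 = κ • ((a₀ : Eu n) + (g a₀ : Eu n)) + ((P ξ : T) : Eu n) + ((Q ξ : Tᗮ) : Eu n) := by
      rw [hPξ, ← hb₀]
      show ((κ • a₀ - nrm g a₀ b₀ : T) : Eu n) + ((κ • g a₀ + b₀ : Tᗮ) : Eu n) = _
      push_cast
      module
    have h2 : (a₀ : Eu n) + (g a₀ : Eu n) = x := hx
    rw [h1, h2, add_assoc, hdec]
    module
  have hmem : ∀ u ∈ Metric.ball (0 : Eu d) r, ψ u ∈ unitNormalBundle M := by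
    intro u hu
    obtain ⟨hO1, hcr, hf, hinj, hker⟩ := hball u hu
    have hφV : cmap T g (A u) ∈ V := hO1.2
    have hPφ : P (cmap T g (A u)) = A u := hPc _ _
    have hQφ : Q (cmap T g (A u)) = g (A u) := hQc _ _
    have hφM : cmap T g (A u) ∈ M := by
      rw [(hch.mem _ hφV).2]
      show Q (cmap T g (A u)) = g (P (cmap T g (A u)))
      rw [hPφ, hQφ]
    refine ⟨hφM, ?_, ?_⟩
    · show ‖W0 - κ • cmap T g (A u)‖ = 1
      have h1 := hnorm (A u)
      have h2 := hnorm a₀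
      rw [hf] at h1
      have h3 : W0 - κ • cmap T g a₀ = ξ := by
        have := congrArg Prod.snd hψ0'
        rw [← hA0]; exact this
      rw [h3, hξ1] at h2
      have h4 : ‖W0 - κ • cmap T g (A u)‖ ^ 2 = 1 := by rw [h1, ← h2]; norm_num
      nlinarith [norm_nonneg (W0 - κ • cmap T g (A u))]
    · have hv := (br_normal hch (cmap T g (A u)) hφM hφV (W0 - κ • cmap T g (A u))).2
      apply hv
      show P (W0 - κ • cmap T g (A u)) = -nrm g (P (cmap T g (A u))) (Q (W0 - κ • cmap T g (A u)))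
      rw [map_sub, map_smul, map_sub, map_smul, hPφ, hQφ]
      have e1 : P W0 = q.1 := hPc _ _
      have e2 : Q W0 = q.2.1 := hQc _ _
      rw [e1, e2]
      have e3 : ∀ w, ⟪q.1 - q.2.2 • A u + nrm g (A u) (q.2.1 - q.2.2 • g (A u)), w⟫_ℝ = 0 := by
        intro w
        rw [← ffun_d1 g O hO hg q (A u) hO1.1 w, hcr]; rfl
      have e4 : q.1 - q.2.2 • A u + nrm g (A u) (q.2.1 - q.2.2 • g (A u)) = 0 := inner_self_eq_zero.1 (e3 _)
      exact eq_neg_of_add_eq_zero_left e4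
  have hψd' : ∀ u ∈ Metric.ball (0 : Eu d) r, HasFDerivAt ψ
      ((Dφ (A u) ∘L fderiv ℝ A u).prod ((-κ) • (Dφ (A u) ∘L fderiv ℝ A u))) u := by
    intro u hu
    have h1 : HasFDerivAt A (fderiv ℝ A u) u :=
      ((hAs.contDiffAt (Metric.isOpen_ball.mem_nhds hu)).differentiableAt (by simp)).hasFDerivAt
    have h2 : HasFDerivAt (fun u => cmap T g (A u)) (Dφ (A u) ∘L fderiv ℝ A u) u :=
      (hDφd (A u) (hball u hu).1.1).comp u h1
    have h3 : HasFDerivAt (fun u => W0 - κ • cmap T g (A u)) ((-κ) • (Dφ (A u) ∘L fderiv ℝ A u)) u := by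
      have h4 := (h2.const_smul κ).const_sub W0
      have h5 : ((-κ) • (Dφ (A u) ∘L fderiv ℝ A u)) = -(κ • (Dφ (A u) ∘L fderiv ℝ A u)) := by
        ext1 w
        show (-κ) • (Dφ (A u) (fderiv ℝ A u w)) = -(κ • (Dφ (A u) (fderiv ℝ A u w)))
        exact neg_smul κ _
      rw [h5]
      exact h4
    exact h2.prodMk h3
  refine ⟨Metric.ball 0 r, ψ, Metric.isOpen_ball, ?_, Metric.mem_ball_self hr, hψ0', ?_, ?_⟩
  · exact (convex_ball 0 r).isConnected ⟨0, Metric.mem_ball_self hr⟩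
  · exact hse _ hrs hψs.continuousOn
  · refine ⟨hψs, hmem, ?_, ?_⟩
    · intro u hu
      rw [(hψd' u hu).fderiv]
      intro h1 h2 h12
      have h3 : Dφ (A u) (fderiv ℝ A u h1) = Dφ (A u) (fderiv ℝ A u h2) := congrArg Prod.fst h12
      exact (hball u hu).2.2.2.1 (hDφi _ h3)
    · intro u hu
      have hm := hmem u hu
      obtain ⟨hO1, hcr, hf, hinj, hker⟩ := hball u hu
      have hφV : cmap T g (A u) ∈ V := hO1.2
      have hPφ : P (cmap T g (A u)) = A u := hPc _ _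
      have hQφ : Q (cmap T g (A u)) = g (A u) := hQc _ _
      rw [(hψd' u hu).fderiv]
      show _ = principalSpace M (cmap T g (A u), W0 - κ • cmap T g (A u)) κ
      rw [br_principal hch (cmap T g (A u)) hφV (W0 - κ • cmap T g (A u)) hm κ]
      have e2 : Q W0 = q.2.1 := hQc _ _
      have hQv : Q (W0 - κ • cmap T g (A u)) = q.2.1 - q.2.2 • g (A u) := by
        rw [map_sub, map_smul, hQφ, e2]
      ext X
      constructor
      · rintro ⟨h, rfl⟩
        refine ⟨fderiv ℝ A u h, ?_, ?_, ?_⟩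
        · show Lop g (P (cmap T g (A u))) (Q (W0 - κ • cmap T g (A u))) κ (fderiv ℝ A u h) = 0
          rw [hPφ, hQv]
          exact (hker _).2 ⟨h, rfl⟩
        · show Dφ (A u) (fderiv ℝ A u h) = ((fderiv ℝ A u h : T) : Eu n) + (fderiv ℝ g (P (cmap T g (A u))) (fderiv ℝ A u h) : Eu n)
          rw [hPφ]
          exact hDφ _ _
        · rfl
      · rintro ⟨w, hw, hX1, hX2⟩
        have hw' : Lop g (P (cmap T g (A u))) (Q (W0 - κ • cmap T g (A u))) κ w = 0 := hw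
        have hX1' : X.1 = (w : Eu n) + (fderiv ℝ g (P (cmap T g (A u))) w : Eu n) := hX1
        rw [hPφ, hQv] at hw'
        rw [hPφ] at hX1'
        obtain ⟨h, hh⟩ := (hker w).1 hw'
        refine ⟨h, ?_⟩
        refine Prod.ext ?_ ?_
        · show Dφ (A u) (fderiv ℝ A u h) = X.1
          rw [hh, hX1']
          exact hDφ _ _
        · show (-κ) • Dφ (A u) (fderiv ℝ A u h) = X.2
          have h9 : X.2 = -κ • X.1 := hX2
          rw [h9, hX1', hh, hDφ]

/-! PLAIN PROOF OF THE TARGET(S)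

z = (x,ξ), chart (T,g,O,V) of class C^ω at x (isSubmanifold_iff; it is also of class C^∞: IsChart ω → IsChart ∞), a0 = P x, b0 = Qξ; Pξ = -nrm g a0 b0
(br_normal).  By br_principal the principal space is the image of ker Lop g a0 b0 κ =: K0 under the injective linear map u ↦ (u + Dg u, -κ(u+Dg u)), so
d = dim K0.  Let q = (κ a0 - nrm g a0 b0, κ g(a0) + b0, κ) ∈ T × T^⊥ × ℝ, f = ffun g q, analytic at a0.  q.2.1 - κ g(a0) = b0 ≠ 0 (b0 = 0 would give
ξ = 0).  Df(a0) = 0 by ffun_d1; D²f(a0) = -<Lop g a0 b0 κ ·,·>, K = its kernel = K0.  dc_bound (with DupinLoc on O' = {a ∈ O | φ a ∈ V},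
φ = cmap T g) and abstractC' (G = Gop g) give ψ1 : K → T analytic at 0, ψ1(0) = a0, ψ1'(0) = inclusion, Df(ψ1 e) = 0 near 0.
With b(a) = q.2.1 - κ g(a): for e near 0, a = ψ1(e): Df(a) = 0 says q.1 - κ a + nrm g a b(a) = 0 (ffun_d1), so the vector
v(e) := W0 - κ φ(a), W0 := q.1 + q.2.1 ∈ R^n, has P v = -nrm g a b(a), Q v = b(a): it is normal at φ(a) (br_normal).  |v(e)| is constant:
f(ψ1 e) is constant near 0 (zero derivative) and |v|² = |W0|² - 2κ(<W0,φ(a)> - κ|φ(a)|²/2) = |W0|² - 2κ f(a), and v(0) = ξ, so |v| = 1.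
Let L : Eu d ≃ K a linear isometry, U a small ball around 0 in Eu d, ψ(u) = (φ(a), v), a = ψ1(L u).  ψ is C^∞ (analytic) on U, ψ(0) = z, ψ(u) ∈ unit
normal bundle (φ(a) ∈ M ∩ V for a ∈ O').  Dψ(u)h = (X', -κ X') with X' = w + Dg(a)w, w = ψ1'(L u) L h; injective as ψ1' is injective near 0
(close to the inclusion).  Tangent: by br_principal the principal space at ψ(u) for κ is {(X',-κX') | X' = w + Dg w, Lop g a b(a) κ w = 0}.
Differentiating Df(ψ1 e) = 0: D²f(a)(ψ1'(e)k, ·) = 0, so ψ1'(e)K ⊆ ker Lop g a b(a) κ; equality since dim ker Lop ≤ dim ker at a0 = d near a0 (lower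
semicontinuity of the rank: e.g. ker Lop(a) ∩ K^⊥ = 0 near a0 as Lop at a0 is bounded below on K^⊥) and ψ1'(e) is injective.
Embedding: P_K(ψ1(e) - a0) as a map K → K has derivative 1 at 0, so it is a local homeomorphism: on a small ball ψ1 is injective with continuous
inverse; a is recovered continuously from φ(a) by P.  IsConnected U: a ball.
-/

section

/-- TARGET -/
theorem resultC {n m : ℕ} {M : Set (Eu n)} (hM : IsSubmanifold ω m M) (hD : IsDupin M)
    (z : Eu n × Eu n) (hz : z ∈ unitNormalBundle M) (κ : ℝ) (d : ℕ)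
    (hd : Module.finrank ℝ (Submodule.span ℝ (principalSpace M z κ)) = d) :
    ∃ (U : Set (Eu d)) (ψ : Eu d → Eu n × Eu n), IsOpen U ∧ IsConnected U ∧ (0 : Eu d) ∈ U ∧
      ψ 0 = z ∧ Topology.IsEmbedding (U.domRestrict ψ) ∧ IsCurvatureSurface M U ψ (fun _ => κ) := by
  exact resultC_main hM hD z hz κ d hd

end

end Pool.Agent.H469
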