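import Pool.Agent.Helper469_Dupin.Chart

set_option autoImplicit false

/-!
The notions of `Defs`, stated through short definitions, and the equivalence with those of `Defs`.
-/

open Set Filter Topology
open scoped ContDiff InnerProductSpace

namespace Pool.Agent.H469

variable {n : ℕ}

/-- the orthogonal projection of `R^n` onto the linear subspace `T`, applied to `x` -/
noncomputable def proj (T : Submodule ℝ (Eu n)) (x : Eu n) : Eu n := T.starProjection x

/-- the dimension of a linear subspace -/
noncomputable def dimS (T : Submodule ℝ (Eu n)) : ℕ := Module.finrank ℝ T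

/-- `u` is orthogonal to the subspace `T` -/
def Perp (T : Submodule ℝ (Eu n)) (u : Eu n) : Prop := ∀ v ∈ T, ⟪v, u⟫_ℝ = 0

/-- `M` is an embedded `m`-dimensional submanifold of `R^n` of class `C^r` (`r = ∞`: smooth, `r = ω`: real
analytic): near each of its points it is the graph of a `C^r` map `g` from an open part `O` of an
`m`-dimensional linear subspace `T` to the orthogonal complement of `T` (`g` is given on an open subset
of `R^n`, of which only the points of `T` matter). -/
def IsSubmfd (r : WithTop ℕ∞) (m : ℕ) (M : Set (Eu n)) : Prop :=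
  ∀ x₀ ∈ M, ∃ (T : Submodule ℝ (Eu n)) (g : Eu n → Eu n) (O V : Set (Eu n)),
    dimS T = m ∧ IsOpen O ∧ IsOpen V ∧ x₀ ∈ V ∧ ContDiffOn ℝ r g O ∧ (∀ y ∈ O, Perp T (g y)) ∧
    ∀ x ∈ V, proj T x ∈ O ∧ (x ∈ M ↔ x = proj T x + g (proj T x))

/-- the derivative of `ψ` at `u` in the direction `h` -/
noncomputable def dmap {d : ℕ} (ψ : Eu d → Eu n × Eu n) (u h : Eu d) : Eu n × Eu n :=
  deriv (fun t : ℝ => ψ (u + t • h)) 0

/-- `ψ` on the open set `U` is a parametrised (immersed) `d`-dimensional curvature surface of `M`, with the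
principal curvature `κ u` at the point `ψ u` of the unit normal bundle: its tangent spaces are the
principal spaces. -/
def IsCurvSurf (M : Set (Eu n)) {d : ℕ} (U : Set (Eu d)) (ψ : Eu d → Eu n × Eu n)
    (κ : Eu d → ℝ) : Prop :=
  ContDiffOn ℝ ∞ ψ U ∧ (∀ u ∈ U, ψ u ∈ unitNormalBundle M) ∧
    (∀ u ∈ U, Function.Injective (dmap ψ u)) ∧
    (∀ u ∈ U, Set.range (dmap ψ u) = principalSpace M (ψ u) (κ u))

/-- `M` is Dupin: along each connected curvature surface (of any dimension `d ≥ 1`) the corresponding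
principal curvature is constant. -/
def Dupin (M : Set (Eu n)) : Prop :=
  ∀ (d : ℕ) (U : Set (Eu d)) (ψ : Eu d → Eu n × Eu n) (κ : Eu d → ℝ), 0 < d → IsOpen U →
    IsConnected U → IsCurvSurf M U ψ κ → ∀ u ∈ U, ∀ v ∈ U, κ u = κ v

/-- the Hessian of `f` at the critical point `x` of `f` on `M` (the second derivative of `f` along the curves in
`M` through `x`) is negative definite on the space `N` of tangent vectors -/
def HessNeg (M : Set (Eu n)) (f : Eu n → ℝ) (x : Eu n) (N : Submodule ℝ (Eu n)) : Prop :=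
  (∀ v ∈ N, v ∈ velocities M x) ∧
    ∀ c, IsCurveAt M x c → deriv c 0 ∈ N → deriv c 0 ≠ 0 → deriv (deriv (f ∘ c)) 0 < 0

/-- the point `x` of the `m`-dimensional `M` is a nondegenerate critical point of index `k` of the function `f`
on `M`: the Hessian is negative definite on a `k`-dimensional and positive definite on an
`(m-k)`-dimensional space of tangent vectors. -/
def NondegIndex (m : ℕ) (M : Set (Eu n)) (f : Eu n → ℝ) (x : Eu n) (k : ℕ) : Prop :=
  x ∈ critSet M f ∧ ∃ N P : Submodule ℝ (Eu n), dimS N = k ∧ dimS P + k = m ∧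
    HessNeg M f x N ∧ HessNeg M (fun y => -f y) x P

/-- `f` is a Morse function on the `m`-dimensional `M`: all its critical points are nondegenerate. -/
def Morse (m : ℕ) (M : Set (Eu n)) (f : Eu n → ℝ) : Prop :=
  ∀ x ∈ critSet M f, ∃ k, NondegIndex m M f x k

/-- the number of critical points of index `k` of `f` on `M` (0 if infinite) -/
noncomputable def numIndex (m : ℕ) (M : Set (Eu n)) (f : Eu n → ℝ) (k : ℕ) : ℕ :=
  {x | NondegIndex m M f x k}.ncard

theorem isSubmfd_iff (r : WithTop ℕ∞) (m : ℕ) (M : Set (Eu n)) :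
    IsSubmfd r m M ↔ IsSubmanifold r m M := by
  constructor
  · intro h x₀ hx₀
    obtain ⟨T, g, O, V, h1, h2, h3, h4, h5, h6, h7⟩ := h x₀ hx₀
    refine ⟨T, fun a => Tᗮ.orthogonalProjectionOnto (g a), (fun a : T => (a : Eu n)) ⁻¹' O, V, h1,
      h2.preimage continuous_subtype_val, h3, h4, ?_, ?_⟩
    · refine Tᗮ.orthogonalProjectionOnto.contDiff.comp_contDiffOn ?_
      exact h5.comp T.subtypeL.contDiff.contDiffOn (fun a ha => ha)
    · intro x hx
      obtain ⟨h8, h9⟩ := h7 x hx
      have hP : proj T x = (T.orthogonalProjectionOnto x : Eu n) := rfl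
      refine ⟨by simpa [hP] using h8, ?_⟩
      rw [h9]
      have hg : g (proj T x) ∈ Tᗮ := by
        rw [Submodule.mem_orthogonal]
        exact h6 _ h8
      have hsum : x = proj T x + (Tᗮ.orthogonalProjectionOnto x : Eu n) := by
        rw [hP]
        exact (Submodule.starProjection_add_starProjection_orthogonal (K := T) x).symm
      have hgg : (Tᗮ.orthogonalProjectionOnto (g (proj T x)) : Eu n) = g (proj T x) :=
        Submodule.starProjection_eq_self_iff.mpr hg
      constructor
      · intro h10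
        apply Subtype.ext
        change (Tᗮ.orthogonalProjectionOnto x : Eu n) =
          (Tᗮ.orthogonalProjectionOnto (g (proj T x)) : Eu n)
        rw [hgg]
        have := hsum.symm.trans h10
        exact add_left_cancel this
      · intro h10
        have h11 : (Tᗮ.orthogonalProjectionOnto x : Eu n) =
          (Tᗮ.orthogonalProjectionOnto (g (proj T x)) : Eu n) := congrArg Subtype.val h10
        rw [hgg] at h11
        rw [← h11]
        exact hsum
  · intro h x₀ hx₀
    obtain ⟨T, g, O, V, h1, h2, h3, h4, h5, h6⟩ := h x₀ hx₀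
    refine ⟨T, fun y => (g (T.orthogonalProjectionOnto y) : Eu n),
      (fun y => T.orthogonalProjectionOnto y) ⁻¹' O, V, h1,
      h2.preimage T.orthogonalProjectionOnto.continuous, h3, h4, ?_, ?_, ?_⟩
    · refine Tᗮ.subtypeL.contDiff.comp_contDiffOn ?_
      exact h5.comp T.orthogonalProjectionOnto.contDiff.contDiffOn (fun a ha => ha)
    · intro y _
      exact (Submodule.mem_orthogonal _ _).1 (g (T.orthogonalProjectionOnto y)).2
    · intro x hx
      obtain ⟨h8, h9⟩ := h6 x hx
      have hPP : T.orthogonalProjectionOnto (proj T x) = T.orthogonalProjectionOnto x := by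
        apply Subtype.ext
        exact Submodule.starProjection_eq_self_iff.mpr (T.orthogonalProjectionOnto x).2
      have hsum : x = proj T x + (Tᗮ.orthogonalProjectionOnto x : Eu n) :=
        (Submodule.starProjection_add_starProjection_orthogonal (K := T) x).symm
      refine ⟨by simpa [hPP] using h8, ?_⟩
      rw [h9]
      beta_reduce
      rw [hPP]
      constructor
      · intro h10
        rw [← h10]
        exact hsum
      · intro h10
        apply Subtype.ext
        have := hsum.symm.trans h10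
        exact add_left_cancel this

theorem dmap_eq {d : ℕ} (ψ : Eu d → Eu n × Eu n) (u : Eu d) (h : DifferentiableAt ℝ ψ u) :
    dmap ψ u = fderiv ℝ ψ u := by
  funext v
  have h1 : HasDerivAt (fun t : ℝ => ψ (u + t • v)) (fderiv ℝ ψ u v) 0 := by
    have h2 : HasFDerivAt ψ (fderiv ℝ ψ u) (u + (0 : ℝ) • v) := by simpa using h.hasFDerivAt
    have h3 : HasDerivAt (fun t : ℝ => u + t • v) v 0 := by
      simpa using ((hasDerivAt_id (0 : ℝ)).smul_const v).const_add u
    exact h2.comp_hasDerivAt (0 : ℝ) h3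
  exact h1.deriv

theorem isCurvSurf_iff (M : Set (Eu n)) {d : ℕ} (U : Set (Eu d)) (hU : IsOpen U)
    (ψ : Eu d → Eu n × Eu n) (κ : Eu d → ℝ) :
    IsCurvSurf M U ψ κ ↔ IsCurvatureSurface M U ψ κ := by
  constructor
  · rintro ⟨h1, h2, h3, h4⟩
    have hd : ∀ u ∈ U, dmap ψ u = fderiv ℝ ψ u := fun u hu =>
      dmap_eq ψ u ((h1.contDiffAt (hU.mem_nhds hu)).differentiableAt (by simp))
    exact ⟨h1, h2, fun u hu => by rw [← hd u hu]; exact h3 u hu,
      fun u hu => by rw [← hd u hu]; exact h4 u hu⟩
  · rintro ⟨h1, h2, h3, h4⟩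
    have hd : ∀ u ∈ U, dmap ψ u = fderiv ℝ ψ u := fun u hu =>
      dmap_eq ψ u ((h1.contDiffAt (hU.mem_nhds hu)).differentiableAt (by simp))
    exact ⟨h1, h2, fun u hu => by rw [hd u hu]; exact h3 u hu,
      fun u hu => by rw [hd u hu]; exact h4 u hu⟩

theorem dupin_iff (M : Set (Eu n)) : Dupin M ↔ IsDupin M := by
  constructor
  · intro h d U ψ κ hd hU hc hs
    exact h d U ψ κ hd hU hc ((isCurvSurf_iff M U hU ψ κ).2 hs)
  · intro h d U ψ κ hd hU hc hs
    exact h d U ψ κ hd hU hc ((isCurvSurf_iff M U hU ψ κ).1 hs)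

theorem deriv_deriv_neg (h : ℝ → ℝ) : deriv (deriv (fun t => -h t)) 0 = -deriv (deriv h) 0 := by
  have h1 : deriv (fun t => -h t) = fun t => -deriv h t := by
    funext t
    exact deriv.fun_neg
  rw [h1]
  exact deriv.fun_neg

theorem nondegIndex_iff (m : ℕ) (M : Set (Eu n)) (f : Eu n → ℝ) (x : Eu n) (k : ℕ) :
    NondegIndex m M f x k ↔ HasIndex m M f x k := by
  have h2 : ∀ g : ℝ → ℝ, iteratedDeriv 2 g 0 = deriv (deriv g) 0 := by
    intro g
    rw [iteratedDeriv_succ, iteratedDeriv_one]
  have h3 : ∀ c : ℝ → Eu n, deriv (deriv ((fun y => -f y) ∘ c)) 0 = -deriv (deriv (f ∘ c)) 0 :=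
    fun c => deriv_deriv_neg (f ∘ c)
  unfold NondegIndex HasIndex HessNeg dimS
  constructor
  · rintro ⟨h, N, P, a1, a2, ⟨a3, a4⟩, a5, a6⟩
    refine ⟨h, N, P, a1, a2, a3, a5, ?_, ?_⟩
    · intro c hc h4 h5
      rw [h2]
      exact a4 c hc h4 h5
    · intro c hc h4 h5
      rw [h2]
      have := a6 c hc h4 h5
      rw [h3] at this
      linarith
  · rintro ⟨h, N, P, a1, a2, a3, a5, a4, a6⟩
    refine ⟨h, N, P, a1, a2, ⟨a3, ?_⟩, a5, ?_⟩
    · intro c hc h4 h5
      rw [← h2]
      exact a4 c hc h4 h5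
    · intro c hc h4 h5
      rw [h3]
      have := a6 c hc h4 h5
      rw [h2] at this
      linarith

theorem morse_iff (m : ℕ) (M : Set (Eu n)) (f : Eu n → ℝ) : Morse m M f ↔ IsMorse m M f := by
  unfold Morse IsMorse
  simp only [nondegIndex_iff]

theorem numIndex_eq (m : ℕ) (M : Set (Eu n)) (f : Eu n → ℝ) (k : ℕ) :
    numIndex m M f k = {x | HasIndex m M f x k}.ncard := by
  unfold numIndex
  simp only [nondegIndex_iff]

end Pool.Agent.H469
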